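import Pool.Agent.Lib.MP_322c5f_alF.FB20

/-! The tables of the engine, wide slots: `U{j}_{c}` gives all types of size `j` with parts at most `c`. -/

set_option autoImplicit false

namespace Pool.MP322F

noncomputable def U1_1 (key : ℕ) : Pr := grp g1 g0 1 0 key
noncomputable def U2_1 (key : ℕ) : Pr := grp U1_1 g0 1 0 key
noncomputable def U2_2 (key : ℕ) : Pr := grp g1 U2_1 2 168 key
noncomputable def U3_1 (key : ℕ) : Pr := grp U2_1 g0 1 0 key
noncomputable def U3_2 (key : ℕ) : Pr := grp U1_1 U3_1 2 168 key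
noncomputable def U3_3 (key : ℕ) : Pr := grp g1 U3_2 3 336 key
noncomputable def U4_1 (key : ℕ) : Pr := grp U3_1 g0 1 0 key
noncomputable def U4_2 (key : ℕ) : Pr := grp U2_2 U4_1 2 168 key
noncomputable def U4_3 (key : ℕ) : Pr := grp U1_1 U4_2 3 504 key
noncomputable def U4_4 (key : ℕ) : Pr := grp g1 U4_3 4 672 key
noncomputable def U5_1 (key : ℕ) : Pr := grp U4_1 g0 1 0 key
noncomputable def U5_2 (key : ℕ) : Pr := grp U3_2 U5_1 2 168 key
noncomputable def U5_3 (key : ℕ) : Pr := grp U2_2 U5_2 3 504 key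
noncomputable def U5_4 (key : ℕ) : Pr := grp U1_1 U5_3 4 840 key
noncomputable def U5_5 (key : ℕ) : Pr := grp g1 U5_4 5 1008 key
noncomputable def U6_1 (key : ℕ) : Pr := grp U5_1 g0 1 0 key
noncomputable def U6_2 (key : ℕ) : Pr := grp U4_2 U6_1 2 168 key
noncomputable def U6_3 (key : ℕ) : Pr := grp U3_3 U6_2 3 672 key
noncomputable def U6_4 (key : ℕ) : Pr := grp U2_2 U6_3 4 1176 key
noncomputable def U6_5 (key : ℕ) : Pr := grp U1_1 U6_4 5 1512 key
noncomputable def U6_6 (key : ℕ) : Pr := grp g1 U6_5 6 1680 key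
noncomputable def U7_1 (key : ℕ) : Pr := grp U6_1 g0 1 0 key
noncomputable def U7_2 (key : ℕ) : Pr := grp U5_2 U7_1 2 168 key
noncomputable def U7_3 (key : ℕ) : Pr := grp U4_3 U7_2 3 672 key
noncomputable def U7_4 (key : ℕ) : Pr := grp U3_3 U7_3 4 1344 key
noncomputable def U7_5 (key : ℕ) : Pr := grp U2_2 U7_4 5 1848 key
noncomputable def U7_6 (key : ℕ) : Pr := grp U1_1 U7_5 6 2184 key
noncomputable def U7_7 (key : ℕ) : Pr := grp g1 U7_6 7 2352 key
noncomputable def U8_1 (key : ℕ) : Pr := grp U7_1 g0 1 0 key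
noncomputable def U8_2 (key : ℕ) : Pr := grp U6_2 U8_1 2 168 key
noncomputable def U8_3 (key : ℕ) : Pr := grp U5_3 U8_2 3 840 key
noncomputable def U8_4 (key : ℕ) : Pr := grp U4_4 U8_3 4 1680 key
noncomputable def U8_5 (key : ℕ) : Pr := grp U3_3 U8_4 5 2520 key
noncomputable def U8_6 (key : ℕ) : Pr := grp U2_2 U8_5 6 3024 key
noncomputable def U8_7 (key : ℕ) : Pr := grp U1_1 U8_6 7 3360 key
noncomputable def U8_8 (key : ℕ) : Pr := grp g1 U8_7 8 3528 key
noncomputable def U9_1 (key : ℕ) : Pr := grp U8_1 g0 1 0 key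
noncomputable def U9_2 (key : ℕ) : Pr := grp U7_2 U9_1 2 168 key
noncomputable def U9_3 (key : ℕ) : Pr := grp U6_3 U9_2 3 840 key
noncomputable def U9_4 (key : ℕ) : Pr := grp U5_4 U9_3 4 2016 key
noncomputable def U9_5 (key : ℕ) : Pr := grp U4_4 U9_4 5 3024 key
noncomputable def U9_6 (key : ℕ) : Pr := grp U3_3 U9_5 6 3864 key
noncomputable def U9_7 (key : ℕ) : Pr := grp U2_2 U9_6 7 4368 key
noncomputable def U9_8 (key : ℕ) : Pr := grp U1_1 U9_7 8 4704 key
noncomputable def U9_9 (key : ℕ) : Pr := grp g1 U9_8 9 4872 key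
noncomputable def U10_1 (key : ℕ) : Pr := grp U9_1 g0 1 0 key
noncomputable def U10_2 (key : ℕ) : Pr := grp U8_2 U10_1 2 168 key
noncomputable def U10_3 (key : ℕ) : Pr := grp U7_3 U10_2 3 1008 key
noncomputable def U10_4 (key : ℕ) : Pr := grp U6_4 U10_3 4 2352 key
noncomputable def U10_5 (key : ℕ) : Pr := grp U5_5 U10_4 5 3864 key
noncomputable def U10_6 (key : ℕ) : Pr := grp U4_4 U10_5 6 5040 key
noncomputable def U10_7 (key : ℕ) : Pr := grp U3_3 U10_6 7 5880 key
noncomputable def U10_8 (key : ℕ) : Pr := grp U2_2 U10_7 8 6384 key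
noncomputable def U10_9 (key : ℕ) : Pr := grp U1_1 U10_8 9 6720 key
noncomputable def U10_10 (key : ℕ) : Pr := grp g1 U10_9 10 6888 key
noncomputable def U11_1 (key : ℕ) : Pr := grp U10_1 g0 1 0 key
noncomputable def U11_2 (key : ℕ) : Pr := grp U9_2 U11_1 2 168 key
noncomputable def U11_3 (key : ℕ) : Pr := grp U8_3 U11_2 3 1008 key
noncomputable def U11_4 (key : ℕ) : Pr := grp U7_4 U11_3 4 2688 key
noncomputable def U11_5 (key : ℕ) : Pr := grp U6_5 U11_4 5 4536 key
noncomputable def U11_6 (key : ℕ) : Pr := grp U5_5 U11_5 6 6216 key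
noncomputable def U11_7 (key : ℕ) : Pr := grp U4_4 U11_6 7 7392 key
noncomputable def U11_8 (key : ℕ) : Pr := grp U3_3 U11_7 8 8232 key
noncomputable def U11_9 (key : ℕ) : Pr := grp U2_2 U11_8 9 8736 key
noncomputable def U11_10 (key : ℕ) : Pr := grp U1_1 U11_9 10 9072 key
noncomputable def U11_11 (key : ℕ) : Pr := grp g1 U11_10 11 9240 key
noncomputable def U12_1 (key : ℕ) : Pr := grp U11_1 g0 1 0 key
noncomputable def U12_2 (key : ℕ) : Pr := grp U10_2 U12_1 2 168 key
noncomputable def U12_3 (key : ℕ) : Pr := grp U9_3 U12_2 3 1176 key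
noncomputable def U12_4 (key : ℕ) : Pr := grp U8_4 U12_3 4 3192 key
noncomputable def U12_5 (key : ℕ) : Pr := grp U7_5 U12_4 5 5712 key
noncomputable def U12_6 (key : ℕ) : Pr := grp U6_6 U12_5 6 7896 key
noncomputable def U12_7 (key : ℕ) : Pr := grp U5_5 U12_6 7 9744 key
noncomputable def U12_8 (key : ℕ) : Pr := grp U4_4 U12_7 8 10920 key
noncomputable def U12_9 (key : ℕ) : Pr := grp U3_3 U12_8 9 11760 key
noncomputable def U12_10 (key : ℕ) : Pr := grp U2_2 U12_9 10 12264 key
noncomputable def U12_11 (key : ℕ) : Pr := grp U1_1 U12_10 11 12600 key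
noncomputable def U12_12 (key : ℕ) : Pr := grp g1 U12_11 12 12768 key
noncomputable def U13_1 (key : ℕ) : Pr := grp U12_1 g0 1 0 key
noncomputable def U13_2 (key : ℕ) : Pr := grp U11_2 U13_1 2 168 key
noncomputable def U13_3 (key : ℕ) : Pr := grp U10_3 U13_2 3 1176 key
noncomputable def U13_4 (key : ℕ) : Pr := grp U9_4 U13_3 4 3528 key
noncomputable def U13_5 (key : ℕ) : Pr := grp U8_5 U13_4 5 6552 key
noncomputable def U13_6 (key : ℕ) : Pr := grp U7_6 U13_5 6 9576 key
noncomputable def U13_7 (key : ℕ) : Pr := grp U6_6 U13_6 7 11928 key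
noncomputable def U13_8 (key : ℕ) : Pr := grp U5_5 U13_7 8 13776 key
noncomputable def U13_9 (key : ℕ) : Pr := grp U4_4 U13_8 9 14952 key
noncomputable def U13_10 (key : ℕ) : Pr := grp U3_3 U13_9 10 15792 key
noncomputable def U13_11 (key : ℕ) : Pr := grp U2_2 U13_10 11 16296 key
noncomputable def U13_12 (key : ℕ) : Pr := grp U1_1 U13_11 12 16632 key
noncomputable def U13_13 (key : ℕ) : Pr := grp g1 U13_12 13 16800 key
noncomputable def U14_1 (key : ℕ) : Pr := grp U13_1 g0 1 0 key
noncomputable def U14_2 (key : ℕ) : Pr := grp U12_2 U14_1 2 168 key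
noncomputable def U14_3 (key : ℕ) : Pr := grp U11_3 U14_2 3 1344 key
noncomputable def U14_4 (key : ℕ) : Pr := grp U10_4 U14_3 4 4032 key
noncomputable def U14_5 (key : ℕ) : Pr := grp U9_5 U14_4 5 7896 key
noncomputable def U14_6 (key : ℕ) : Pr := grp U8_6 U14_5 6 11760 key
noncomputable def U14_7 (key : ℕ) : Pr := grp U7_7 U14_6 7 15120 key
noncomputable def U14_8 (key : ℕ) : Pr := grp U6_6 U14_7 8 17640 key
noncomputable def U14_9 (key : ℕ) : Pr := grp U5_5 U14_8 9 19488 key
noncomputable def U14_10 (key : ℕ) : Pr := grp U4_4 U14_9 10 20664 key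
noncomputable def U14_11 (key : ℕ) : Pr := grp U3_3 U14_10 11 21504 key
noncomputable def U14_12 (key : ℕ) : Pr := grp U2_2 U14_11 12 22008 key
noncomputable def U14_13 (key : ℕ) : Pr := grp U1_1 U14_12 13 22344 key
noncomputable def U14_14 (key : ℕ) : Pr := grp g1 U14_13 14 22512 key
noncomputable def U15_1 (key : ℕ) : Pr := grp U14_1 g0 1 0 key
noncomputable def U15_2 (key : ℕ) : Pr := grp U13_2 U15_1 2 168 key
noncomputable def U15_3 (key : ℕ) : Pr := grp U12_3 U15_2 3 1344 key
noncomputable def U15_4 (key : ℕ) : Pr := grp U11_4 U15_3 4 4536 key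
noncomputable def U15_5 (key : ℕ) : Pr := grp U10_5 U15_4 5 9072 key
noncomputable def U15_6 (key : ℕ) : Pr := grp U9_6 U15_5 6 14112 key
noncomputable def U15_7 (key : ℕ) : Pr := grp U8_7 U15_6 7 18480 key
noncomputable def U15_8 (key : ℕ) : Pr := grp U7_7 U15_7 8 22008 key
noncomputable def U15_9 (key : ℕ) : Pr := grp U6_6 U15_8 9 24528 key
noncomputable def U15_10 (key : ℕ) : Pr := grp U5_5 U15_9 10 26376 key
noncomputable def U15_11 (key : ℕ) : Pr := grp U4_4 U15_10 11 27552 key
noncomputable def U15_12 (key : ℕ) : Pr := grp U3_3 U15_11 12 28392 key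
noncomputable def U15_13 (key : ℕ) : Pr := grp U2_2 U15_12 13 28896 key
noncomputable def U15_14 (key : ℕ) : Pr := grp U1_1 U15_13 14 29232 key
noncomputable def U15_15 (key : ℕ) : Pr := grp g1 U15_14 15 29400 key
noncomputable def U16_1 (key : ℕ) : Pr := grp U15_1 g0 1 0 key
noncomputable def U16_2 (key : ℕ) : Pr := grp U14_2 U16_1 2 168 key
noncomputable def U16_3 (key : ℕ) : Pr := grp U13_3 U16_2 3 1512 key
noncomputable def U16_4 (key : ℕ) : Pr := grp U12_4 U16_3 4 5040 key
noncomputable def U16_5 (key : ℕ) : Pr := grp U11_5 U16_4 5 10752 key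
noncomputable def U16_6 (key : ℕ) : Pr := grp U10_6 U16_5 6 16968 key
noncomputable def U16_7 (key : ℕ) : Pr := grp U9_7 U16_6 7 22848 key
noncomputable def U16_8 (key : ℕ) : Pr := grp U8_8 U16_7 8 27552 key
noncomputable def U16_9 (key : ℕ) : Pr := grp U7_7 U16_8 9 31248 key
noncomputable def U16_10 (key : ℕ) : Pr := grp U6_6 U16_9 10 33768 key
noncomputable def U16_11 (key : ℕ) : Pr := grp U5_5 U16_10 11 35616 key
noncomputable def U16_12 (key : ℕ) : Pr := grp U4_4 U16_11 12 36792 key
noncomputable def U16_13 (key : ℕ) : Pr := grp U3_3 U16_12 13 37632 key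
noncomputable def U16_14 (key : ℕ) : Pr := grp U2_2 U16_13 14 38136 key
noncomputable def U16_15 (key : ℕ) : Pr := grp U1_1 U16_14 15 38472 key
noncomputable def U16_16 (key : ℕ) : Pr := grp g1 U16_15 16 38640 key
noncomputable def U17_1 (key : ℕ) : Pr := grp U16_1 g0 1 0 key
noncomputable def U17_2 (key : ℕ) : Pr := grp U15_2 U17_1 2 168 key
noncomputable def U17_3 (key : ℕ) : Pr := grp U14_3 U17_2 3 1512 key
noncomputable def U17_4 (key : ℕ) : Pr := grp U13_4 U17_3 4 5544 key
noncomputable def U17_5 (key : ℕ) : Pr := grp U12_5 U17_4 5 12096 key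
noncomputable def U17_6 (key : ℕ) : Pr := grp U11_6 U17_5 6 19992 key
noncomputable def U17_7 (key : ℕ) : Pr := grp U10_7 U17_6 7 27384 key
noncomputable def U17_8 (key : ℕ) : Pr := grp U9_8 U17_7 8 33768 key
noncomputable def U17_9 (key : ℕ) : Pr := grp U8_8 U17_8 9 38640 key
noncomputable def U17_10 (key : ℕ) : Pr := grp U7_7 U17_9 10 42336 key
noncomputable def U17_11 (key : ℕ) : Pr := grp U6_6 U17_10 11 44856 key
noncomputable def U17_12 (key : ℕ) : Pr := grp U5_5 U17_11 12 46704 key
noncomputable def U17_13 (key : ℕ) : Pr := grp U4_4 U17_12 13 47880 key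
noncomputable def U17_14 (key : ℕ) : Pr := grp U3_3 U17_13 14 48720 key
noncomputable def U17_15 (key : ℕ) : Pr := grp U2_2 U17_14 15 49224 key
noncomputable def U17_16 (key : ℕ) : Pr := grp U1_1 U17_15 16 49560 key
noncomputable def U17_17 (key : ℕ) : Pr := grp g1 U17_16 17 49728 key
noncomputable def U18_1 (key : ℕ) : Pr := grp U17_1 g0 1 0 key
noncomputable def U18_2 (key : ℕ) : Pr := grp U16_2 U18_1 2 168 key
noncomputable def U18_3 (key : ℕ) : Pr := grp U15_3 U18_2 3 1680 key
noncomputable def U18_4 (key : ℕ) : Pr := grp U14_4 U18_3 4 6216 key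
noncomputable def U18_5 (key : ℕ) : Pr := grp U13_5 U18_4 5 14112 key
noncomputable def U18_6 (key : ℕ) : Pr := grp U12_6 U18_5 6 23688 key
noncomputable def U18_7 (key : ℕ) : Pr := grp U11_7 U18_6 7 33432 key
noncomputable def U18_8 (key : ℕ) : Pr := grp U10_8 U18_7 8 41664 key
noncomputable def U18_9 (key : ℕ) : Pr := grp U9_9 U18_8 9 48384 key
noncomputable def U18_10 (key : ℕ) : Pr := grp U8_8 U18_9 10 53424 key
noncomputable def U18_11 (key : ℕ) : Pr := grp U7_7 U18_10 11 57120 key
noncomputable def U18_12 (key : ℕ) : Pr := grp U6_6 U18_11 12 59640 key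
noncomputable def U18_13 (key : ℕ) : Pr := grp U5_5 U18_12 13 61488 key
noncomputable def U18_14 (key : ℕ) : Pr := grp U4_4 U18_13 14 62664 key
noncomputable def U18_15 (key : ℕ) : Pr := grp U3_3 U18_14 15 63504 key
noncomputable def U18_16 (key : ℕ) : Pr := grp U2_2 U18_15 16 64008 key
noncomputable def U18_17 (key : ℕ) : Pr := grp U1_1 U18_16 17 64344 key
noncomputable def U18_18 (key : ℕ) : Pr := grp g1 U18_17 18 64512 key
noncomputable def U19_1 (key : ℕ) : Pr := grp U18_1 g0 1 0 key
noncomputable def U19_2 (key : ℕ) : Pr := grp U17_2 U19_1 2 168 key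
noncomputable def U19_3 (key : ℕ) : Pr := grp U16_3 U19_2 3 1680 key
noncomputable def U19_4 (key : ℕ) : Pr := grp U15_4 U19_3 4 6720 key
noncomputable def U19_5 (key : ℕ) : Pr := grp U14_5 U19_4 5 15792 key
noncomputable def U19_6 (key : ℕ) : Pr := grp U13_6 U19_5 6 27552 key
noncomputable def U19_7 (key : ℕ) : Pr := grp U12_7 U19_6 7 39480 key
noncomputable def U19_8 (key : ℕ) : Pr := grp U11_8 U19_7 8 50400 key
noncomputable def U19_9 (key : ℕ) : Pr := grp U10_9 U19_8 9 59136 key
noncomputable def U19_10 (key : ℕ) : Pr := grp U9_9 U19_9 10 66024 key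
noncomputable def U19_11 (key : ℕ) : Pr := grp U8_8 U19_10 11 71064 key
noncomputable def U19_12 (key : ℕ) : Pr := grp U7_7 U19_11 12 74760 key
noncomputable def U19_13 (key : ℕ) : Pr := grp U6_6 U19_12 13 77280 key
noncomputable def U19_14 (key : ℕ) : Pr := grp U5_5 U19_13 14 79128 key
noncomputable def U19_15 (key : ℕ) : Pr := grp U4_4 U19_14 15 80304 key
noncomputable def U19_16 (key : ℕ) : Pr := grp U3_3 U19_15 16 81144 key
noncomputable def U19_17 (key : ℕ) : Pr := grp U2_2 U19_16 17 81648 key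
noncomputable def U19_18 (key : ℕ) : Pr := grp U1_1 U19_17 18 81984 key
noncomputable def U19_19 (key : ℕ) : Pr := grp g1 U19_18 19 82152 key
noncomputable def U20_1 (key : ℕ) : Pr := grp U19_1 g0 1 0 key
noncomputable def U20_2 (key : ℕ) : Pr := grp U18_2 U20_1 2 168 key
noncomputable def U20_3 (key : ℕ) : Pr := grp U17_3 U20_2 3 1848 key
noncomputable def U20_4 (key : ℕ) : Pr := grp U16_4 U20_3 4 7392 key
noncomputable def U20_5 (key : ℕ) : Pr := grp U15_5 U20_4 5 18144 key
noncomputable def U20_6 (key : ℕ) : Pr := grp U14_6 U20_5 6 32256 key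
noncomputable def U20_7 (key : ℕ) : Pr := grp U13_7 U20_6 7 47376 key
noncomputable def U20_8 (key : ℕ) : Pr := grp U12_8 U20_7 8 61152 key
noncomputable def U20_9 (key : ℕ) : Pr := grp U11_9 U20_8 9 72912 key
noncomputable def U20_10 (key : ℕ) : Pr := grp U10_10 U20_9 10 81984 key
noncomputable def U20_11 (key : ℕ) : Pr := grp U9_9 U20_10 11 89040 key
noncomputable def U20_12 (key : ℕ) : Pr := grp U8_8 U20_11 12 94080 key
noncomputable def U20_13 (key : ℕ) : Pr := grp U7_7 U20_12 13 97776 key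
noncomputable def U20_14 (key : ℕ) : Pr := grp U6_6 U20_13 14 100296 key
noncomputable def U20_15 (key : ℕ) : Pr := grp U5_5 U20_14 15 102144 key
noncomputable def U20_16 (key : ℕ) : Pr := grp U4_4 U20_15 16 103320 key
noncomputable def U20_17 (key : ℕ) : Pr := grp U3_3 U20_16 17 104160 key
noncomputable def U20_18 (key : ℕ) : Pr := grp U2_2 U20_17 18 104664 key
noncomputable def U20_19 (key : ℕ) : Pr := grp U1_1 U20_18 19 105000 key
noncomputable def U20_20 (key : ℕ) : Pr := grp g1 U20_19 20 105168 key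
noncomputable def U21_1 (key : ℕ) : Pr := grp U20_1 g0 1 0 key
noncomputable def U21_2 (key : ℕ) : Pr := grp U19_2 U21_1 2 168 key
noncomputable def U21_3 (key : ℕ) : Pr := grp U18_3 U21_2 3 1848 key
noncomputable def U21_4 (key : ℕ) : Pr := grp U17_4 U21_3 4 8064 key
noncomputable def U21_5 (key : ℕ) : Pr := grp U16_5 U21_4 5 20160 key
noncomputable def U21_6 (key : ℕ) : Pr := grp U15_6 U21_5 6 37128 key
noncomputable def U21_7 (key : ℕ) : Pr := grp U14_7 U21_6 7 55608 key
noncomputable def U21_8 (key : ℕ) : Pr := grp U13_8 U21_7 8 73248 key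
noncomputable def U21_9 (key : ℕ) : Pr := grp U12_9 U21_8 9 88200 key
noncomputable def U21_10 (key : ℕ) : Pr := grp U11_10 U21_9 10 100464 key
noncomputable def U21_11 (key : ℕ) : Pr := grp U10_10 U21_10 11 109704 key
noncomputable def U21_12 (key : ℕ) : Pr := grp U9_9 U21_11 12 116760 key
noncomputable def U21_13 (key : ℕ) : Pr := grp U8_8 U21_12 13 121800 key
noncomputable def U21_14 (key : ℕ) : Pr := grp U7_7 U21_13 14 125496 key
noncomputable def U21_15 (key : ℕ) : Pr := grp U6_6 U21_14 15 128016 key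
noncomputable def U21_16 (key : ℕ) : Pr := grp U5_5 U21_15 16 129864 key
noncomputable def U21_17 (key : ℕ) : Pr := grp U4_4 U21_16 17 131040 key
noncomputable def U21_18 (key : ℕ) : Pr := grp U3_3 U21_17 18 131880 key
noncomputable def U21_19 (key : ℕ) : Pr := grp U2_2 U21_18 19 132384 key
noncomputable def U21_20 (key : ℕ) : Pr := grp U1_1 U21_19 20 132720 key
noncomputable def U21_21 (key : ℕ) : Pr := grp g1 U21_20 21 132888 key
noncomputable def U22_1 (key : ℕ) : Pr := grp U21_1 g0 1 0 key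
noncomputable def U22_2 (key : ℕ) : Pr := grp U20_2 U22_1 2 168 key
noncomputable def U22_3 (key : ℕ) : Pr := grp U19_3 U22_2 3 2016 key
noncomputable def U22_4 (key : ℕ) : Pr := grp U18_4 U22_3 4 8736 key
noncomputable def U22_5 (key : ℕ) : Pr := grp U17_5 U22_4 5 22848 key
noncomputable def U22_6 (key : ℕ) : Pr := grp U16_6 U22_5 6 42840 key
noncomputable def U22_7 (key : ℕ) : Pr := grp U15_7 U22_6 7 65688 key
noncomputable def U22_8 (key : ℕ) : Pr := grp U14_8 U22_7 8 87696 key
noncomputable def U22_9 (key : ℕ) : Pr := grp U13_9 U22_8 9 107184 key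
noncomputable def U22_10 (key : ℕ) : Pr := grp U12_10 U22_9 10 122976 key
noncomputable def U22_11 (key : ℕ) : Pr := grp U11_11 U22_10 11 135576 key
noncomputable def U22_12 (key : ℕ) : Pr := grp U10_10 U22_11 12 144984 key
noncomputable def U22_13 (key : ℕ) : Pr := grp U9_9 U22_12 13 152040 key
noncomputable def U22_14 (key : ℕ) : Pr := grp U8_8 U22_13 14 157080 key
noncomputable def U22_15 (key : ℕ) : Pr := grp U7_7 U22_14 15 160776 key
noncomputable def U22_16 (key : ℕ) : Pr := grp U6_6 U22_15 16 163296 key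
noncomputable def U22_17 (key : ℕ) : Pr := grp U5_5 U22_16 17 165144 key
noncomputable def U22_18 (key : ℕ) : Pr := grp U4_4 U22_17 18 166320 key
noncomputable def U22_19 (key : ℕ) : Pr := grp U3_3 U22_18 19 167160 key
noncomputable def U22_20 (key : ℕ) : Pr := grp U2_2 U22_19 20 167664 key
noncomputable def U22_21 (key : ℕ) : Pr := grp U1_1 U22_20 21 168000 key
noncomputable def U22_22 (key : ℕ) : Pr := grp g1 U22_21 22 168168 key
noncomputable def U23_1 (key : ℕ) : Pr := grp U22_1 g0 1 0 key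
noncomputable def U23_2 (key : ℕ) : Pr := grp U21_2 U23_1 2 168 key
noncomputable def U23_3 (key : ℕ) : Pr := grp U20_3 U23_2 3 2016 key
noncomputable def U23_4 (key : ℕ) : Pr := grp U19_4 U23_3 4 9408 key
noncomputable def U23_5 (key : ℕ) : Pr := grp U18_5 U23_4 5 25200 key
noncomputable def U23_6 (key : ℕ) : Pr := grp U17_6 U23_5 6 48888 key
noncomputable def U23_7 (key : ℕ) : Pr := grp U16_7 U23_6 7 76272 key
noncomputable def U23_8 (key : ℕ) : Pr := grp U15_8 U23_7 8 103824 key
noncomputable def U23_9 (key : ℕ) : Pr := grp U14_9 U23_8 9 128352 key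
noncomputable def U23_10 (key : ℕ) : Pr := grp U13_10 U23_9 10 149016 key
noncomputable def U23_11 (key : ℕ) : Pr := grp U12_11 U23_10 11 165312 key
noncomputable def U23_12 (key : ℕ) : Pr := grp U11_11 U23_11 12 178080 key
noncomputable def U23_13 (key : ℕ) : Pr := grp U10_10 U23_12 13 187488 key
noncomputable def U23_14 (key : ℕ) : Pr := grp U9_9 U23_13 14 194544 key
noncomputable def U23_15 (key : ℕ) : Pr := grp U8_8 U23_14 15 199584 key
noncomputable def U23_16 (key : ℕ) : Pr := grp U7_7 U23_15 16 203280 key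
noncomputable def U23_17 (key : ℕ) : Pr := grp U6_6 U23_16 17 205800 key
noncomputable def U23_18 (key : ℕ) : Pr := grp U5_5 U23_17 18 207648 key
noncomputable def U23_19 (key : ℕ) : Pr := grp U4_4 U23_18 19 208824 key
noncomputable def U23_20 (key : ℕ) : Pr := grp U3_3 U23_19 20 209664 key
noncomputable def U23_21 (key : ℕ) : Pr := grp U2_2 U23_20 21 210168 key
noncomputable def U23_22 (key : ℕ) : Pr := grp U1_1 U23_21 22 210504 key
noncomputable def U23_23 (key : ℕ) : Pr := grp g1 U23_22 23 210672 key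
noncomputable def U24_1 (key : ℕ) : Pr := grp U23_1 g0 1 0 key
noncomputable def U24_2 (key : ℕ) : Pr := grp U22_2 U24_1 2 168 key
noncomputable def U24_3 (key : ℕ) : Pr := grp U21_3 U24_2 3 2184 key
noncomputable def U24_4 (key : ℕ) : Pr := grp U20_4 U24_3 4 10248 key
noncomputable def U24_5 (key : ℕ) : Pr := grp U19_5 U24_4 5 28392 key
noncomputable def U24_6 (key : ℕ) : Pr := grp U18_6 U24_5 6 55944 key
noncomputable def U24_7 (key : ℕ) : Pr := grp U17_7 U24_6 7 89376 key
noncomputable def U24_8 (key : ℕ) : Pr := grp U16_8 U24_7 8 123144 key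
noncomputable def U24_9 (key : ℕ) : Pr := grp U15_9 U24_8 9 154392 key
noncomputable def U24_10 (key : ℕ) : Pr := grp U14_10 U24_9 10 180768 key
noncomputable def U24_11 (key : ℕ) : Pr := grp U13_11 U24_10 11 202272 key
noncomputable def U24_12 (key : ℕ) : Pr := grp U12_12 U24_11 12 218904 key
noncomputable def U24_13 (key : ℕ) : Pr := grp U11_11 U24_12 13 231840 key
noncomputable def U24_14 (key : ℕ) : Pr := grp U10_10 U24_13 14 241248 key
noncomputable def U24_15 (key : ℕ) : Pr := grp U9_9 U24_14 15 248304 key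
noncomputable def U24_16 (key : ℕ) : Pr := grp U8_8 U24_15 16 253344 key
noncomputable def U24_17 (key : ℕ) : Pr := grp U7_7 U24_16 17 257040 key
noncomputable def U24_18 (key : ℕ) : Pr := grp U6_6 U24_17 18 259560 key
noncomputable def U24_19 (key : ℕ) : Pr := grp U5_5 U24_18 19 261408 key
noncomputable def U24_20 (key : ℕ) : Pr := grp U4_4 U24_19 20 262584 key
noncomputable def U24_21 (key : ℕ) : Pr := grp U3_3 U24_20 21 263424 key
noncomputable def U24_22 (key : ℕ) : Pr := grp U2_2 U24_21 22 263928 key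
noncomputable def U24_23 (key : ℕ) : Pr := grp U1_1 U24_22 23 264264 key
noncomputable def U24_24 (key : ℕ) : Pr := grp g1 U24_23 24 264432 key
noncomputable def U25_1 (key : ℕ) : Pr := grp U24_1 g0 1 0 key
noncomputable def U25_2 (key : ℕ) : Pr := grp U23_2 U25_1 2 168 key
noncomputable def U25_3 (key : ℕ) : Pr := grp U22_3 U25_2 3 2184 key
noncomputable def U25_4 (key : ℕ) : Pr := grp U21_4 U25_3 4 10920 key
noncomputable def U25_5 (key : ℕ) : Pr := grp U20_5 U25_4 5 31080 key
noncomputable def U25_6 (key : ℕ) : Pr := grp U19_6 U25_5 6 63336 key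
noncomputable def U25_7 (key : ℕ) : Pr := grp U18_7 U25_6 7 102816 key
noncomputable def U25_8 (key : ℕ) : Pr := grp U17_8 U25_7 8 144480 key
noncomputable def U25_9 (key : ℕ) : Pr := grp U16_9 U25_8 9 183120 key
noncomputable def U25_10 (key : ℕ) : Pr := grp U15_10 U25_9 10 216888 key
noncomputable def U25_11 (key : ℕ) : Pr := grp U14_11 U25_10 11 244440 key
noncomputable def U25_12 (key : ℕ) : Pr := grp U13_12 U25_11 12 266448 key
noncomputable def U25_13 (key : ℕ) : Pr := grp U12_12 U25_12 13 283248 key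
noncomputable def U25_14 (key : ℕ) : Pr := grp U11_11 U25_13 14 296184 key
noncomputable def U25_15 (key : ℕ) : Pr := grp U10_10 U25_14 15 305592 key
noncomputable def U25_16 (key : ℕ) : Pr := grp U9_9 U25_15 16 312648 key
noncomputable def U25_17 (key : ℕ) : Pr := grp U8_8 U25_16 17 317688 key
noncomputable def U25_18 (key : ℕ) : Pr := grp U7_7 U25_17 18 321384 key
noncomputable def U25_19 (key : ℕ) : Pr := grp U6_6 U25_18 19 323904 key
noncomputable def U25_20 (key : ℕ) : Pr := grp U5_5 U25_19 20 325752 key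
noncomputable def U25_21 (key : ℕ) : Pr := grp U4_4 U25_20 21 326928 key
noncomputable def U25_22 (key : ℕ) : Pr := grp U3_3 U25_21 22 327768 key
noncomputable def U25_23 (key : ℕ) : Pr := grp U2_2 U25_22 23 328272 key
noncomputable def U25_24 (key : ℕ) : Pr := grp U1_1 U25_23 24 328608 key
noncomputable def U25_25 (key : ℕ) : Pr := grp g1 U25_24 25 328776 key
noncomputable def U26_1 (key : ℕ) : Pr := grp U25_1 g0 1 0 key
noncomputable def U26_2 (key : ℕ) : Pr := grp U24_2 U26_1 2 168 key
noncomputable def U26_3 (key : ℕ) : Pr := grp U23_3 U26_2 3 2352 key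
noncomputable def U26_4 (key : ℕ) : Pr := grp U22_4 U26_3 4 11760 key
noncomputable def U26_5 (key : ℕ) : Pr := grp U21_5 U26_4 5 34608 key
noncomputable def U26_6 (key : ℕ) : Pr := grp U20_6 U26_5 6 71736 key
noncomputable def U26_7 (key : ℕ) : Pr := grp U19_7 U26_6 7 119112 key
noncomputable def U26_8 (key : ℕ) : Pr := grp U18_8 U26_7 8 169512 key
noncomputable def U26_9 (key : ℕ) : Pr := grp U17_9 U26_8 9 217896 key
noncomputable def U26_10 (key : ℕ) : Pr := grp U16_10 U26_9 10 260232 key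
noncomputable def U26_11 (key : ℕ) : Pr := grp U15_11 U26_10 11 295848 key
noncomputable def U26_12 (key : ℕ) : Pr := grp U14_12 U26_11 12 324240 key
noncomputable def U26_13 (key : ℕ) : Pr := grp U13_13 U26_12 13 346584 key
noncomputable def U26_14 (key : ℕ) : Pr := grp U12_12 U26_13 14 363552 key
noncomputable def U26_15 (key : ℕ) : Pr := grp U11_11 U26_14 15 376488 key
noncomputable def U26_16 (key : ℕ) : Pr := grp U10_10 U26_15 16 385896 key
noncomputable def U26_17 (key : ℕ) : Pr := grp U9_9 U26_16 17 392952 key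
noncomputable def U26_18 (key : ℕ) : Pr := grp U8_8 U26_17 18 397992 key
noncomputable def U26_19 (key : ℕ) : Pr := grp U7_7 U26_18 19 401688 key
noncomputable def U26_20 (key : ℕ) : Pr := grp U6_6 U26_19 20 404208 key
noncomputable def U26_21 (key : ℕ) : Pr := grp U5_5 U26_20 21 406056 key
noncomputable def U26_22 (key : ℕ) : Pr := grp U4_4 U26_21 22 407232 key
noncomputable def U26_23 (key : ℕ) : Pr := grp U3_3 U26_22 23 408072 key
noncomputable def U26_24 (key : ℕ) : Pr := grp U2_2 U26_23 24 408576 key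
noncomputable def U26_25 (key : ℕ) : Pr := grp U1_1 U26_24 25 408912 key
noncomputable def U26_26 (key : ℕ) : Pr := grp g1 U26_25 26 409080 key
noncomputable def U27_1 (key : ℕ) : Pr := grp U26_1 g0 1 0 key
noncomputable def U27_2 (key : ℕ) : Pr := grp U25_2 U27_1 2 168 key
noncomputable def U27_3 (key : ℕ) : Pr := grp U24_3 U27_2 3 2352 key
noncomputable def U27_4 (key : ℕ) : Pr := grp U23_4 U27_3 4 12600 key
noncomputable def U27_5 (key : ℕ) : Pr := grp U22_5 U27_4 5 37800 key
noncomputable def U27_6 (key : ℕ) : Pr := grp U21_6 U27_5 6 80640 key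
noncomputable def U27_7 (key : ℕ) : Pr := grp U20_7 U27_6 7 136248 key
noncomputable def U27_8 (key : ℕ) : Pr := grp U19_8 U27_7 8 197400 key
noncomputable def U27_9 (key : ℕ) : Pr := grp U18_9 U27_8 9 256536 key
noncomputable def U27_10 (key : ℕ) : Pr := grp U17_10 U27_9 10 309960 key
noncomputable def U27_11 (key : ℕ) : Pr := grp U16_11 U27_10 11 354816 key
noncomputable def U27_12 (key : ℕ) : Pr := grp U15_12 U27_11 12 391608 key
noncomputable def U27_13 (key : ℕ) : Pr := grp U14_13 U27_12 13 420504 key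
noncomputable def U27_14 (key : ℕ) : Pr := grp U13_13 U27_13 14 443016 key
noncomputable def U27_15 (key : ℕ) : Pr := grp U12_12 U27_14 15 459984 key
noncomputable def U27_16 (key : ℕ) : Pr := grp U11_11 U27_15 16 472920 key
noncomputable def U27_17 (key : ℕ) : Pr := grp U10_10 U27_16 17 482328 key
noncomputable def U27_18 (key : ℕ) : Pr := grp U9_9 U27_17 18 489384 key
noncomputable def U27_19 (key : ℕ) : Pr := grp U8_8 U27_18 19 494424 key
noncomputable def U27_20 (key : ℕ) : Pr := grp U7_7 U27_19 20 498120 key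
noncomputable def U27_21 (key : ℕ) : Pr := grp U6_6 U27_20 21 500640 key
noncomputable def U27_22 (key : ℕ) : Pr := grp U5_5 U27_21 22 502488 key
noncomputable def U27_23 (key : ℕ) : Pr := grp U4_4 U27_22 23 503664 key
noncomputable def U27_24 (key : ℕ) : Pr := grp U3_3 U27_23 24 504504 key
noncomputable def U27_25 (key : ℕ) : Pr := grp U2_2 U27_24 25 505008 key
noncomputable def U27_26 (key : ℕ) : Pr := grp U1_1 U27_25 26 505344 key
noncomputable def U27_27 (key : ℕ) : Pr := grp g1 U27_26 27 505512 key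
noncomputable def U28_1 (key : ℕ) : Pr := grp U27_1 g0 1 0 key
noncomputable def U28_2 (key : ℕ) : Pr := grp U26_2 U28_1 2 168 key
noncomputable def U28_3 (key : ℕ) : Pr := grp U25_3 U28_2 3 2520 key
noncomputable def U28_4 (key : ℕ) : Pr := grp U24_4 U28_3 4 13440 key
noncomputable def U28_5 (key : ℕ) : Pr := grp U23_5 U28_4 5 41832 key
noncomputable def U28_6 (key : ℕ) : Pr := grp U22_6 U28_5 6 90720 key
noncomputable def U28_7 (key : ℕ) : Pr := grp U21_7 U28_6 7 156408 key
noncomputable def U28_8 (key : ℕ) : Pr := grp U20_8 U28_7 8 229656 key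
noncomputable def U28_9 (key : ℕ) : Pr := grp U19_9 U28_8 9 302568 key
noncomputable def U28_10 (key : ℕ) : Pr := grp U18_10 U28_9 10 368592 key
noncomputable def U28_11 (key : ℕ) : Pr := grp U17_11 U28_10 11 425712 key
noncomputable def U28_12 (key : ℕ) : Pr := grp U16_12 U28_11 12 472416 key
noncomputable def U28_13 (key : ℕ) : Pr := grp U15_13 U28_12 13 510048 key
noncomputable def U28_14 (key : ℕ) : Pr := grp U14_14 U28_13 14 539280 key
noncomputable def U28_15 (key : ℕ) : Pr := grp U13_13 U28_14 15 561960 key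
noncomputable def U28_16 (key : ℕ) : Pr := grp U12_12 U28_15 16 578928 key
noncomputable def U28_17 (key : ℕ) : Pr := grp U11_11 U28_16 17 591864 key
noncomputable def U28_18 (key : ℕ) : Pr := grp U10_10 U28_17 18 601272 key
noncomputable def U28_19 (key : ℕ) : Pr := grp U9_9 U28_18 19 608328 key
noncomputable def U28_20 (key : ℕ) : Pr := grp U8_8 U28_19 20 613368 key
noncomputable def U28_21 (key : ℕ) : Pr := grp U7_7 U28_20 21 617064 key
noncomputable def U28_22 (key : ℕ) : Pr := grp U6_6 U28_21 22 619584 key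
noncomputable def U28_23 (key : ℕ) : Pr := grp U5_5 U28_22 23 621432 key
noncomputable def U28_24 (key : ℕ) : Pr := grp U4_4 U28_23 24 622608 key
noncomputable def U28_25 (key : ℕ) : Pr := grp U3_3 U28_24 25 623448 key
noncomputable def U28_26 (key : ℕ) : Pr := grp U2_2 U28_25 26 623952 key
noncomputable def U28_27 (key : ℕ) : Pr := grp U1_1 U28_26 27 624288 key
noncomputable def U28_28 (key : ℕ) : Pr := grp g1 U28_27 28 624456 key
noncomputable def U29_1 (key : ℕ) : Pr := grp U28_1 g0 1 0 key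
noncomputable def U29_2 (key : ℕ) : Pr := grp U27_2 U29_1 2 168 key
noncomputable def U29_3 (key : ℕ) : Pr := grp U26_3 U29_2 3 2520 key
noncomputable def U29_4 (key : ℕ) : Pr := grp U25_4 U29_3 4 14280 key
noncomputable def U29_5 (key : ℕ) : Pr := grp U24_5 U29_4 5 45360 key
noncomputable def U29_6 (key : ℕ) : Pr := grp U23_6 U29_5 6 101304 key
noncomputable def U29_7 (key : ℕ) : Pr := grp U22_7 U29_6 7 177576 key
noncomputable def U29_8 (key : ℕ) : Pr := grp U21_8 U29_7 8 265272 key
noncomputable def U29_9 (key : ℕ) : Pr := grp U20_9 U29_8 9 353472 key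
noncomputable def U29_10 (key : ℕ) : Pr := grp U19_10 U29_9 10 435456 key
noncomputable def U29_11 (key : ℕ) : Pr := grp U18_11 U29_10 11 506520 key
noncomputable def U29_12 (key : ℕ) : Pr := grp U17_12 U29_11 12 566160 key
noncomputable def U29_13 (key : ℕ) : Pr := grp U16_13 U29_12 13 614040 key
noncomputable def U29_14 (key : ℕ) : Pr := grp U15_14 U29_13 14 652176 key
noncomputable def U29_15 (key : ℕ) : Pr := grp U14_14 U29_14 15 681576 key
noncomputable def U29_16 (key : ℕ) : Pr := grp U13_13 U29_15 16 704256 key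
noncomputable def U29_17 (key : ℕ) : Pr := grp U12_12 U29_16 17 721224 key
noncomputable def U29_18 (key : ℕ) : Pr := grp U11_11 U29_17 18 734160 key
noncomputable def U29_19 (key : ℕ) : Pr := grp U10_10 U29_18 19 743568 key
noncomputable def U29_20 (key : ℕ) : Pr := grp U9_9 U29_19 20 750624 key
noncomputable def U29_21 (key : ℕ) : Pr := grp U8_8 U29_20 21 755664 key
noncomputable def U29_22 (key : ℕ) : Pr := grp U7_7 U29_21 22 759360 key
noncomputable def U29_23 (key : ℕ) : Pr := grp U6_6 U29_22 23 761880 key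
noncomputable def U29_24 (key : ℕ) : Pr := grp U5_5 U29_23 24 763728 key
noncomputable def U29_25 (key : ℕ) : Pr := grp U4_4 U29_24 25 764904 key
noncomputable def U29_26 (key : ℕ) : Pr := grp U3_3 U29_25 26 765744 key
noncomputable def U29_27 (key : ℕ) : Pr := grp U2_2 U29_26 27 766248 key
noncomputable def U29_28 (key : ℕ) : Pr := grp U1_1 U29_27 28 766584 key
noncomputable def U29_29 (key : ℕ) : Pr := grp g1 U29_28 29 766752 key
noncomputable def U30_1 (key : ℕ) : Pr := grp U29_1 g0 1 0 key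
noncomputable def U30_2 (key : ℕ) : Pr := grp U28_2 U30_1 2 168 key
noncomputable def U30_3 (key : ℕ) : Pr := grp U27_3 U30_2 3 2688 key
noncomputable def U30_4 (key : ℕ) : Pr := grp U26_4 U30_3 4 15288 key
noncomputable def U30_5 (key : ℕ) : Pr := grp U25_5 U30_4 5 49896 key
noncomputable def U30_6 (key : ℕ) : Pr := grp U24_6 U30_5 6 113232 key
noncomputable def U30_7 (key : ℕ) : Pr := grp U23_7 U30_6 7 202608 key
noncomputable def U30_8 (key : ℕ) : Pr := grp U22_8 U30_7 8 306432 key
noncomputable def U30_9 (key : ℕ) : Pr := grp U21_9 U30_8 9 413616 key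
noncomputable def U30_10 (key : ℕ) : Pr := grp U20_10 U30_9 10 514080 key
noncomputable def U30_11 (key : ℕ) : Pr := grp U19_11 U30_10 11 603120 key
noncomputable def U30_12 (key : ℕ) : Pr := grp U18_12 U30_11 12 677880 key
noncomputable def U30_13 (key : ℕ) : Pr := grp U17_13 U30_12 13 739368 key
noncomputable def U30_14 (key : ℕ) : Pr := grp U16_14 U30_13 14 788088 key
noncomputable def U30_15 (key : ℕ) : Pr := grp U15_15 U30_14 15 826560 key
noncomputable def U30_16 (key : ℕ) : Pr := grp U14_14 U30_15 16 856128 key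
noncomputable def U30_17 (key : ℕ) : Pr := grp U13_13 U30_16 17 878808 key
noncomputable def U30_18 (key : ℕ) : Pr := grp U12_12 U30_17 18 895776 key
noncomputable def U30_19 (key : ℕ) : Pr := grp U11_11 U30_18 19 908712 key
noncomputable def U30_20 (key : ℕ) : Pr := grp U10_10 U30_19 20 918120 key
noncomputable def U30_21 (key : ℕ) : Pr := grp U9_9 U30_20 21 925176 key
noncomputable def U30_22 (key : ℕ) : Pr := grp U8_8 U30_21 22 930216 key
noncomputable def U30_23 (key : ℕ) : Pr := grp U7_7 U30_22 23 933912 key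
noncomputable def U30_24 (key : ℕ) : Pr := grp U6_6 U30_23 24 936432 key
noncomputable def U30_25 (key : ℕ) : Pr := grp U5_5 U30_24 25 938280 key
noncomputable def U30_26 (key : ℕ) : Pr := grp U4_4 U30_25 26 939456 key
noncomputable def U30_27 (key : ℕ) : Pr := grp U3_3 U30_26 27 940296 key
noncomputable def U30_28 (key : ℕ) : Pr := grp U2_2 U30_27 28 940800 key
noncomputable def U30_29 (key : ℕ) : Pr := grp U1_1 U30_28 29 941136 key
noncomputable def U30_30 (key : ℕ) : Pr := grp g1 U30_29 30 941304 key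

end Pool.MP322F
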