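import Pool.Agent.Lib.MP_322c5f_alF.FA03

/-! Murnaghan-Nakayama rule for finite sets of beta numbers. -/

set_option autoImplicit false

open Finset

namespace Pool.MP322F

open Pool.MP322
/-- `tS` computed from any strictly increasing enumeration -/
private theorem tS_eq {N : ℕ} (ρ : Multiset ℕ) (S : Finset ℕ) (h : S.card = N) (g : Fin N → ℕ)
    (hg : StrictMono g) (hm : ∀ x, g x ∈ S) : tS ρ S = th ρ g := by
  subst h
  unfold tS
  congr 1
  have := Finset.orderEmbOfFin_unique (s := S) rfl hm hg
  exact this.symm

/-- the position of a bead is the number of smaller beads -/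
private theorem card_lt {N : ℕ} (S : Finset ℕ) (h : S.card = N) (i : Fin N) :
    (S.filter (fun x => x < S.orderEmbOfFin h i)).card = (i : ℕ) := by
  have he : S.filter (fun x => x < S.orderEmbOfFin h i) =
      (Finset.Iio i).map (S.orderEmbOfFin h).toEmbedding := by
    ext x
    simp only [Finset.mem_filter, Finset.mem_map, Finset.mem_Iio, RelEmbedding.coe_toEmbedding]
    constructor
    · rintro ⟨hx, hlt⟩
      have : x ∈ Set.range (S.orderEmbOfFin h) := by
        rw [Finset.range_orderEmbOfFin]; exact hx
      obtain ⟨j, rfl⟩ := this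
      exact ⟨j, (S.orderEmbOfFin h).lt_iff_lt.1 hlt, rfl⟩
    · rintro ⟨j, hj, rfl⟩
      exact ⟨Finset.orderEmbOfFin_mem S h j, (S.orderEmbOfFin h).lt_iff_lt.2 hj⟩
  rw [he, Finset.card_map, Fin.card_Iio]

/-- moving a bead down: the sign is the parity of the number of beads between -/
private theorem th_move {N : ℕ} (ρ : Multiset ℕ) (S : Finset ℕ) (hS : S.card = N) (i : Fin N)
    (a : ℕ) (ha : a ∉ S) (hab : a < S.orderEmbOfFin hS i) :
    th ρ (Function.update (fun j => (S.orderEmbOfFin hS j : ℕ)) i a) =
      (-1) ^ (S.filter (fun x => a < x ∧ x < S.orderEmbOfFin hS i)).card *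
        tS ρ (insert a (S.erase (S.orderEmbOfFin hS i))) := by
  cases N with
  | zero => exact i.elim0
  | succ n =>
    set b := S.orderEmbOfFin hS i with hb
    have hbS : b ∈ S := Finset.orderEmbOfFin_mem S hS i
    have haE : a ∉ S.erase b := fun h => ha (Finset.mem_of_mem_erase h)
    set S' := insert a (S.erase b) with hS'
    have hcE : (S.erase b).card = n := by
      rw [Finset.card_erase_of_mem hbS, hS]; rfl
    have hc' : S'.card = n + 1 := by
      rw [hS', Finset.card_insert_of_notMem haE, hcE]
    -- the position of `a` in `S'`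
    have haS' : a ∈ Set.range (S'.orderEmbOfFin hc') := by
      rw [Finset.range_orderEmbOfFin]
      exact Finset.mem_insert_self _ _
    obtain ⟨p, hp⟩ := haS'
    set g : Fin (n + 1) → ℕ := fun j => S'.orderEmbOfFin hc' j with hg
    set al : Fin (n + 1) → ℕ := fun j => S.orderEmbOfFin hS j with hal
    have hgm : StrictMono g := (S'.orderEmbOfFin hc').strictMono
    have halm : StrictMono al := (S.orderEmbOfFin hS).strictMono
    have h1 : al ∘ i.succAbove = (S.erase b).orderEmbOfFin hcE := by
      refine Finset.orderEmbOfFin_unique hcE (fun x => ?_) ?_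
      · rw [Finset.mem_erase]
        refine ⟨?_, Finset.orderEmbOfFin_mem S hS _⟩
        intro h
        have := (S.orderEmbOfFin hS).injective h
        exact Fin.succAbove_ne i x this
      · exact halm.comp (Fin.strictMono_succAbove i)
    have h2 : g ∘ p.succAbove = (S.erase b).orderEmbOfFin hcE := by
      refine Finset.orderEmbOfFin_unique hcE (fun x => ?_) ?_
      · have hm : g (p.succAbove x) ∈ S' := Finset.orderEmbOfFin_mem S' hc' _
        rw [hS', Finset.mem_insert] at hm
        rcases hm with hm | hm
        · exfalso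
          have : (S'.orderEmbOfFin hc') (p.succAbove x) = (S'.orderEmbOfFin hc') p := by
            rw [hp]; exact hm
          exact Fin.succAbove_ne p x ((S'.orderEmbOfFin hc').injective this)
        · exact hm
      · exact hgm.comp (Fin.strictMono_succAbove p)
    -- positions
    have hi : (S.filter (fun x => x < b)).card = (i : ℕ) := card_lt S hS i
    have hpc : (S'.filter (fun x => x < a)).card = (p : ℕ) := by
      have := card_lt S' hc' p
      rw [hp] at this
      exact this
    have hpc' : (S.filter (fun x => x < a)).card = (p : ℕ) := by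
      rw [← hpc]
      congr 1
      ext x
      simp only [Finset.mem_filter, hS', Finset.mem_insert, Finset.mem_erase]
      constructor
      · rintro ⟨hx, hxa⟩
        exact ⟨Or.inr ⟨by omega, hx⟩, hxa⟩
      · rintro ⟨hx | hx, hxa⟩
        · omega
        · exact ⟨hx.2, hxa⟩
    have hsum : (i : ℕ) = p + (S.filter (fun x => a < x ∧ x < b)).card := by
      rw [← hi, ← hpc', ← Finset.card_union_of_disjoint]
      · congr 1
        ext x
        simp only [Finset.mem_filter, Finset.mem_union]
        constructor
        · rintro ⟨hx, hxb⟩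
          rcases lt_trichotomy x a with h | h | h
          · exact Or.inl ⟨hx, h⟩
          · exact absurd (h ▸ hx) ha
          · exact Or.inr ⟨hx, h, hxb⟩
        · rintro (⟨hx, hxa⟩ | ⟨hx, hax, hxb⟩)
          · exact ⟨hx, by omega⟩
          · exact ⟨hx, hxb⟩
      · rw [Finset.disjoint_left]
        intro x hx hx'
        simp only [Finset.mem_filter] at hx hx'
        omega
    have hpi : p ≤ i := by
      rw [Fin.le_def]; omega
    have hdiff : (i : ℕ) - p = (S.filter (fun x => a < x ∧ x < b)).card := by omega
    -- the cycle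
    have hcyc : Function.update al i a = g ∘ (Fin.cycleIcc p i) := by
      funext x
      rcases eq_or_ne x i with rfl | hx
      · rw [Function.update_self, Function.comp_apply, Fin.cycleIcc_of_last hpi]
        exact hp.symm
      · obtain ⟨y, rfl⟩ := Fin.exists_succAbove_eq hx
        rw [Function.update_of_ne (Fin.succAbove_ne i y), Function.comp_apply]
        have h3 : (Fin.cycleIcc p i) (i.succAbove y) = p.succAbove y :=
          congrFun (Fin.cycleIcc_comp_succAbove p i hpi) y
        rw [h3]
        have h4 := congrFun h1 y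
        have h5 := congrFun h2 y
        rw [Function.comp_apply] at h4 h5
        rw [h4, h5]
    rw [hcyc, th_perm, Fin.sign_cycleIcc_of_le hpi, hdiff,
      tS_eq ρ S' hc' g hgm (fun x => Finset.orderEmbOfFin_mem S' hc' x)]
    push_cast
    rfl

/-- Murnaghan-Nakayama: `b - c ∉ S`; the sign is the parity of the number of beads between -/
theorem tS_cons {c : ℕ} (hc : 1 ≤ c) (ρ : Multiset ℕ) (S : Finset ℕ) :
    tS (c ::ₘ ρ) S = ∑ b ∈ S, if c ≤ b ∧ b - c ∉ S then
      (-1) ^ (S.filter (fun x => b - c < x ∧ x < b)).card * tS ρ (insert (b - c) (S.erase b))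
      else 0 := by
  have hsum : ∀ F : ℕ → ℤ, ∑ b ∈ S, F b = ∑ i : Fin S.card, F (S.orderEmbOfFin rfl i) := by
    intro F
    have h := Finset.sum_map (Finset.univ : Finset (Fin S.card)) (S.orderEmbOfFin rfl).toEmbedding F
    rw [Finset.map_orderEmbOfFin_univ] at h
    exact h
  rw [hsum]
  unfold tS
  rw [th_cons]
  refine Finset.sum_congr rfl (fun i _ => ?_)
  by_cases hci : c ≤ S.orderEmbOfFin rfl i
  · rw [if_pos hci]
    by_cases hm : (S.orderEmbOfFin rfl i : ℕ) - c ∈ S
    · rw [if_neg (fun h => h.2 hm)]
      have hr : (S.orderEmbOfFin rfl i : ℕ) - c ∈ Set.range (S.orderEmbOfFin rfl) := by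
        rw [Finset.range_orderEmbOfFin]; exact hm
      obtain ⟨j, hj⟩ := hr
      have hij : i ≠ j := by
        rintro rfl
        omega
      refine th_eq_zero ρ _ hij ?_
      rw [Function.update_self, Function.update_of_ne hij.symm]
      exact hj.symm
    · rw [if_pos ⟨hci, hm⟩]
      exact th_move ρ S rfl i _ hm (by omega)
  · rw [if_neg hci, if_neg (fun h => hci h.1)]

theorem tS_range (N : ℕ) : tS 0 (Finset.range N) = 1 := by
  rw [tS_eq 0 (Finset.range N) (Finset.card_range N) (fun i : Fin N => (i : ℕ))
    (fun _ _ h => h) (fun x => Finset.mem_range.2 x.2)]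
  exact th_zero N

theorem card_bS (N : ℕ) (mu : YoungDiagram) : (bS N mu).card = N := by
  unfold bS
  rw [Finset.card_image_of_injective _ (be_strictMono N mu).injective, Finset.card_univ,
    Fintype.card_fin]

theorem tS_bS (N : ℕ) (ρ : Multiset ℕ) (mu : YoungDiagram) :
    tS ρ (bS N mu) = th ρ (be N mu) :=
  tS_eq ρ _ (card_bS N mu) (be N mu) (be_strictMono N mu)
    (fun x => Finset.mem_image_of_mem _ (Finset.mem_univ x))

theorem szS_bS {N : ℕ} (mu : YoungDiagram) (h : mu.colLen 0 ≤ N) : szS (bS N mu) = mu.card := by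
  unfold szS
  rw [card_bS]
  unfold bS
  rw [Finset.sum_image (fun x _ y _ hxy => (be_strictMono N mu).injective hxy), be_sum mu h]
  omega

theorem exists_bS (S : Finset ℕ) :
    ∃ mu : YoungDiagram, mu.colLen 0 ≤ S.card ∧ bS S.card mu = S ∧ mu.card = szS S := by
  obtain ⟨mu, h0, h1⟩ := exists_be (fun i : Fin S.card => (S.orderEmbOfFin rfl i : ℕ))
    (S.orderEmbOfFin rfl).strictMono
  have hS : bS S.card mu = S := by
    unfold bS
    rw [h1]
    have h := Finset.image_orderEmbOfFin_univ S rfl
    exact h
  refine ⟨mu, h0, hS, ?_⟩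
  have h2 := szS_bS mu h0
  rw [hS] at h2
  exact h2.symm

private theorem choose_le_sum (S : Finset ℕ) : S.card.choose 2 ≤ ∑ b ∈ S, b := by
  obtain ⟨mu, h0, hS, -⟩ := exists_bS S
  have h1 : ∑ b ∈ bS S.card mu, b = S.card.choose 2 + mu.card := by
    unfold bS
    rw [Finset.sum_image (fun x _ y _ hxy => (be_strictMono _ mu).injective hxy), be_sum mu h0]
  rw [hS] at h1
  omega

/-- moving a bead down by `c` reduces the size by `c` -/
theorem szS_move {c b : ℕ} {S : Finset ℕ} (hb : b ∈ S) (hc : c ≤ b) (h : b - c ∉ S) (hc1 : 1 ≤ c) :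
    (insert (b - c) (S.erase b)).card = S.card ∧
      szS (insert (b - c) (S.erase b)) + c = szS S := by
  have hE : b - c ∉ S.erase b := fun h' => h (Finset.mem_of_mem_erase h')
  have hcard : (insert (b - c) (S.erase b)).card = S.card := by
    rw [Finset.card_insert_of_notMem hE, Finset.card_erase_of_mem hb]
    have := Finset.card_pos.2 ⟨b, hb⟩
    omega
  refine ⟨hcard, ?_⟩
  have h1 := choose_le_sum (insert (b - c) (S.erase b))
  have h2 : ∑ x ∈ insert (b - c) (S.erase b), x = (b - c) + ∑ x ∈ S.erase b, x :=
    Finset.sum_insert hE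
  have h3 : b + ∑ x ∈ S.erase b, x = ∑ x ∈ S, x := Finset.add_sum_erase S (fun x => x) hb
  unfold szS
  rw [hcard] at h1 ⊢
  omega

/-- size zero means vacuum -/
theorem szS_zero {S : Finset ℕ} (h : szS S = 0) : S = Finset.range S.card := by
  obtain ⟨mu, h0, hS, hsz⟩ := exists_bS S
  rw [h] at hsz
  have hmu : ∀ i, mu.rowLen i = 0 := by
    intro i
    by_contra hne
    have hmem : (i, 0) ∈ mu := by
      rw [YoungDiagram.mem_iff_lt_rowLen]
      omega
    have : 0 < mu.cells.card := Finset.card_pos.2 ⟨(i, 0), hmem⟩
    have h2 : mu.cells.card = 0 := hsz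
    omega
  conv_lhs => rw [← hS]
  unfold bS
  ext x
  simp only [Finset.mem_image, Finset.mem_univ, true_and, Finset.mem_range, be, hmu, zero_add]
  constructor
  · rintro ⟨i, rfl⟩
    exact i.2
  · intro hx
    exact ⟨⟨x, hx⟩, rfl⟩

end Pool.MP322F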