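import Pool.Agent.Lib.MP_322c5f_alF.FB02
import Pool.Agent.Lib.MP_322c5f_alF.FA08

/-! Type lists and the semantics of the tables. -/

set_option autoImplicit false

open Finset

namespace Pool.MP322F

open Pool.MP322
/-- the weakly decreasing lists with parts in `[1, c]` and sum `j`; those without `c` first -/
def TL : ℕ → ℕ → List (List ℕ)
  | 0, 0 => [[]]
  | 0, _ + 1 => []
  | c + 1, j => TL c j ++
      (if h : c + 1 ≤ j then (TL (c + 1) (j - (c + 1))).map (List.cons (c + 1)) else [])
termination_by c j => (c, j)
decreasing_by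
  all_goals simp_wf
  all_goals first
    | (left; omega)
    | (right; omega)
    | omega

/-- packing of a list of integers in base `2^w` -/
def pk (w : ℕ) (l : List ℤ) : ℤ := l.foldr (fun a s => a + 2 ^ w * s) 0

private theorem pk_cons (w : ℕ) (a : ℤ) (l : List ℤ) : pk w (a :: l) = a + 2 ^ w * pk w l := rfl

private theorem pk_nil (w : ℕ) : pk w [] = 0 := rfl

theorem pk_append (w : ℕ) (l l' : List ℤ) : pk w (l ++ l') = pk w l + 2 ^ (w * l.length) * pk w l' := by
  induction l with
  | nil => simp [pk_nil]
  | cons a l ih =>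
    have h : (2 : ℤ) ^ (w * (l.length + 1)) = 2 ^ (w * l.length) * 2 ^ w := by
      rw [← pow_add, Nat.mul_succ]
    rw [List.cons_append, pk_cons, pk_cons, ih, List.length_cons, h]
    ring

private theorem pk_map_smul {ι : Type*} (w : ℕ) (L : List ι) (a : ℤ) (F : ι → ℤ) :
    pk w (L.map (fun r => a * F r)) = a * pk w (L.map F) := by
  induction L with
  | nil => simp [pk_nil]
  | cons r L ih =>
    rw [List.map_cons, List.map_cons, pk_cons, pk_cons, ih]
    ring

private theorem pk_map_zero {ι : Type*} (w : ℕ) (L : List ι) :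
    pk w (L.map (fun _ => (0 : ℤ))) = 0 := by
  induction L with
  | nil => simp [pk_nil]
  | cons r L ih =>
    rw [List.map_cons, pk_cons, ih]
    ring

private theorem pk_map_add {ι : Type*} (w : ℕ) (L : List ι) (F G : ι → ℤ) :
    pk w (L.map (fun r => F r + G r)) = pk w (L.map F) + pk w (L.map G) := by
  induction L with
  | nil => simp [pk_nil]
  | cons r L ih =>
    rw [List.map_cons, List.map_cons, List.map_cons, pk_cons, pk_cons, pk_cons, ih]
    ring

private theorem pk_map_sum {ι : Type*} (w : ℕ) (L : List ι) (S : Finset ℕ) (F : ℕ → ι → ℤ) :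
    pk w (L.map (fun r => ∑ b ∈ S, F b r)) = ∑ b ∈ S, pk w (L.map (F b)) := by
  classical
  induction S using Finset.induction_on with
  | empty =>
    simp only [Finset.sum_empty]
    exact pk_map_zero w L
  | insert b S hb ih =>
    simp only [Finset.sum_insert hb]
    rw [pk_map_add, ih]

/-- `f` computes the packed values of all types of size `j` with parts at most `c` -/
def VOK (N w c j L : ℕ) (f : ℕ → Pr) : Prop :=
  (TL c j).length = L ∧ ∀ S : Finset ℕ, S.card = N → szS S = j →
    (f (kS S)).val = pk w ((TL c j).map (fun r : List ℕ => tS (r : Multiset ℕ) S))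

theorem VOK_zero (N w : ℕ) : VOK N w 0 0 1 g1 := by
  refine ⟨by rw [TL]; rfl, fun S hS hs => ?_⟩
  have h1 := szS_zero hs
  rw [hS] at h1
  rw [TL, List.map_cons, List.map_nil, pk_cons, pk_nil, h1]
  have h2 : tS (([] : List ℕ) : Multiset ℕ) (Finset.range N) = 1 := tS_range N
  rw [h2]
  show (((1 : ℕ) : ℤ) - ((0 : ℕ) : ℤ)) = 1 + 2 ^ w * 0
  simp

theorem VOK_zero' (N w j : ℕ) : VOK N w 0 (j + 1) 0 g0 := by
  refine ⟨by rw [TL]; rfl, fun S hS hs => ?_⟩
  rw [TL, List.map_nil, pk_nil]
  show (((0 : ℕ) : ℤ) - ((0 : ℕ) : ℤ)) = 0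
  simp

theorem VOK_skip {N w c j L : ℕ} {f : ℕ → Pr} (hj : j < c + 1) (h : VOK N w c j L f) :
    VOK N w (c + 1) j L f := by
  have h1 : TL (c + 1) j = TL c j := by
    rw [TL, dif_neg (by omega), List.append_nil]
  unfold VOK
  rw [h1]
  exact h

private theorem choose_le_sum' (S : Finset ℕ) : S.card.choose 2 ≤ ∑ b ∈ S, b := by
  obtain ⟨mu, h0, hS, -⟩ := exists_bS S
  have h1 : ∑ b ∈ bS S.card mu, b = S.card.choose 2 + mu.card := by
    unfold bS
    rw [Finset.sum_image (fun x _ y _ hxy => (be_strictMono _ mu).injective hxy), be_sum mu h0]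
  rw [hS] at h1
  omega

private theorem bead_lt {S : Finset ℕ} {b : ℕ} (hb : b ∈ S) : b + 1 ≤ S.card + szS S := by
  have h1 := choose_le_sum' (S.erase b)
  have h2 := choose_le_sum' S
  rw [Finset.card_erase_of_mem hb] at h1
  have h3 : b + ∑ x ∈ S.erase b, x = ∑ x ∈ S, x := Finset.add_sum_erase S (fun x => x) hb
  have h4 := Finset.card_pos.2 ⟨b, hb⟩
  obtain ⟨m, hm⟩ : ∃ m, S.card = m + 1 := ⟨S.card - 1, by omega⟩
  have h5 : (m + 1).choose 2 = m + m.choose 2 := by
    rw [Nat.choose_succ_succ' m 1, Nat.choose_one_right]
  unfold szS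
  rw [hm] at h1 h2 ⊢
  rw [Nat.add_sub_cancel] at h1
  rw [h5] at h2 ⊢
  omega

private theorem sum_step {N w c j n : ℕ} {f : ℕ → Pr} (hc : 1 ≤ c) (T : List (List ℕ))
    (hj : j + c = n)
    (h : ∀ S : Finset ℕ, S.card = N → szS S = j →
      (f (kS S)).val = pk w (T.map (fun r : List ℕ => tS (r : Multiset ℕ) S)))
    (S : Finset ℕ) (hS : S.card = N) (hs : szS S = n) :
    (∑ b ∈ S, if c ≤ b ∧ b - c ∉ S then
        (-1) ^ (S.filter (fun x => b - c < x ∧ x < b)).card *
          (f (kS (insert (b - c) (S.erase b)))).val else 0) =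
      pk w (T.map (fun r : List ℕ => tS ((c :: r : List ℕ) : Multiset ℕ) S)) := by
  have h1 : (fun r : List ℕ => tS ((c :: r : List ℕ) : Multiset ℕ) S) =
      fun r : List ℕ => ∑ b ∈ S, if c ≤ b ∧ b - c ∉ S then
      (-1) ^ (S.filter (fun x => b - c < x ∧ x < b)).card *
        tS (r : Multiset ℕ) (insert (b - c) (S.erase b)) else 0 := by
    funext r
    rw [← Multiset.cons_coe]
    exact tS_cons hc _ S
  rw [h1, pk_map_sum]
  refine Finset.sum_congr rfl fun b hb => ?_
  by_cases hm : c ≤ b ∧ b - c ∉ S
  · rw [if_pos hm]
    simp only [if_pos hm]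
    rw [pk_map_smul]
    obtain ⟨h2, h3⟩ := szS_move hb hm.1 hm.2 hc
    rw [h _ (by omega) (by omega)]
  · rw [if_neg hm]
    simp only [if_neg hm]
    exact (pk_map_zero w T).symm

/-- the recursion step (uses `grp_val`, `tS_cons`, `szS_move`; a bead of a set `S` with `N` beads
and size `j` is at most `N + j - 1`) -/
theorem VOK_step {N w c j L1 L2 h : ℕ} {f g : ℕ → Pr} (hN : N + j ≤ 128) (hN2 : N ≤ 80)
    (hj : c + 1 ≤ j) (h1 : VOK N w c j L1 g) (h2 : VOK N w (c + 1) (j - (c + 1)) L2 f)
    (hh : h = w * L1) : VOK N w (c + 1) j (L1 + L2) (fun key => grp f g (c + 1) h key) := by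
  obtain ⟨h1a, h1b⟩ := h1
  obtain ⟨h2a, h2b⟩ := h2
  have hTL : TL (c + 1) j = TL c j ++ (TL (c + 1) (j - (c + 1))).map (List.cons (c + 1)) := by
    rw [TL, dif_pos hj]
  refine ⟨by rw [hTL, List.length_append, List.length_map, h1a, h2a], fun S hS hs => ?_⟩
  have hb : ∀ b ∈ S, b ≤ 128 := by
    intro b hb
    have := bead_lt hb
    omega
  show (grp f g (c + 1) h (kS S)).val = _
  rw [grp_val f g (by omega) h S hb (by omega), h1b S hS hs, hTL, List.map_append, pk_append,
    List.length_map, h1a, hh]
  congr 1
  congr 1
  rw [List.map_map]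
  exact sum_step (by omega) (TL (c + 1) (j - (c + 1))) (by omega) h2b S hS hs

/-- the group of the types of size `n` with largest part `c` -/
theorem top_group {N w c n L : ℕ} {f : ℕ → Pr} (hN : N + n ≤ 128) (hN2 : N ≤ 80) (hc : 1 ≤ c)
    (hcn : c ≤ n) (h : VOK N w c (n - c) L f) (S : Finset ℕ) (hS : S.card = N)
    (hs : szS S = n) :
    (grp f g0 c 0 (kS S)).val =
      pk w ((TL c (n - c)).map (fun r : List ℕ => tS ((c :: r : List ℕ) : Multiset ℕ) S)) := by
  have hb : ∀ b ∈ S, b ≤ 128 := by
    intro b hb
    have := bead_lt hb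
    omega
  rw [grp_val f g0 hc 0 S hb (by omega), pow_zero, one_mul,
    sum_step hc (TL c (n - c)) (by omega) h.2 S hS hs]
  have h0 : (g0 (kS S)).val = 0 := by
    show (((0 : ℕ) : ℤ) - ((0 : ℕ) : ℤ)) = 0
    simp
  rw [h0, zero_add]

/-- membership -/
theorem mem_TL {c j : ℕ} {r : List ℕ} :
    r ∈ TL c j ↔ r.sum = j ∧ (∀ x ∈ r, 1 ≤ x ∧ x ≤ c) ∧ r.Pairwise (fun a b => b ≤ a) := by
  have key : ∀ c j : ℕ, ∀ r : List ℕ, r ∈ TL c j ↔
      r.sum = j ∧ (∀ x ∈ r, 1 ≤ x ∧ x ≤ c) ∧ r.Pairwise (fun a b => b ≤ a) := by
    intro c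
    induction c with
    | zero =>
      intro j r
      cases j with
      | zero =>
        rw [TL, List.mem_singleton]
        constructor
        · rintro rfl
          simp
        · rintro ⟨-, h, -⟩
          rcases r with _ | ⟨x, r⟩
          · rfl
          · have := h x (by simp)
            omega
      | succ j =>
        rw [TL]
        constructor
        · intro h
          simp at h
        · rintro ⟨h0, h, -⟩
          rcases r with _ | ⟨x, r⟩
          · simp at h0
          · have := h x (by simp)
            omega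
    | succ c ihc =>
      intro j
      induction j using Nat.strong_induction_on with
      | _ j ihj =>
        intro r
        rw [TL, List.mem_append, ihc]
        constructor
        · rintro (⟨h1, h2, h3⟩ | h)
          · exact ⟨h1, fun x hx => ⟨(h2 x hx).1, (h2 x hx).2.trans (by omega)⟩, h3⟩
          · split_ifs at h with hcj
            · rw [List.mem_map] at h
              obtain ⟨r', hr', rfl⟩ := h
              rw [ihj _ (by omega)] at hr'
              obtain ⟨h1, h2, h3⟩ := hr'
              refine ⟨by rw [List.sum_cons]; omega, ?_, ?_⟩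
              · intro x hx
                rw [List.mem_cons] at hx
                rcases hx with rfl | hx
                · omega
                · exact h2 x hx
              · rw [List.pairwise_cons]
                exact ⟨fun x hx => (h2 x hx).2, h3⟩
            · simp at h
        · rintro ⟨h1, h2, h3⟩
          rcases r with _ | ⟨a, r⟩
          · left
            exact ⟨h1, by simp, h3⟩
          · have ha := h2 a (by simp)
            rw [List.pairwise_cons] at h3
            rw [List.sum_cons] at h1
            rcases Nat.lt_or_ge a (c + 1) with hac | hac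
            · left
              refine ⟨by rw [List.sum_cons]; exact h1, ?_, ?_⟩
              · intro x hx
                have h4 := h2 x hx
                rw [List.mem_cons] at hx
                rcases hx with rfl | hx
                · omega
                · have := h3.1 x hx
                  omega
              · rw [List.pairwise_cons]
                exact h3
            · right
              have hac' : a = c + 1 := by omega
              subst hac'
              rw [dif_pos (by omega), List.mem_map]
              refine ⟨r, ?_, rfl⟩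
              rw [ihj _ (by omega)]
              exact ⟨by omega, fun x hx => h2 x (List.mem_cons_of_mem _ hx), h3.2⟩
  exact key c j r

theorem nodup_TL (c j : ℕ) : (TL c j).Nodup := by
  have key : ∀ c j : ℕ, (TL c j).Nodup := by
    intro c
    induction c with
    | zero =>
      intro j
      cases j with
      | zero => rw [TL]; exact List.nodup_singleton _
      | succ j => rw [TL]; exact List.nodup_nil
    | succ c ihc =>
      intro j
      induction j using Nat.strong_induction_on with
      | _ j ihj =>
        rw [TL, List.nodup_append']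
        refine ⟨ihc j, ?_, ?_⟩
        · split_ifs with hcj
          · exact (ihj _ (by omega)).map (List.cons_injective)
          · exact List.nodup_nil
        · intro r h1 h2
          split_ifs at h2 with hcj
          · rw [List.mem_map] at h2
            obtain ⟨r', -, rfl⟩ := h2
            have := (mem_TL.1 h1).2.1 (c + 1) (by simp)
            omega
          · simp at h2
  exact key c j

end Pool.MP322F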