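import Pool.Agent.Lib.MP_322c5f_alF.FB26
import Pool.Agent.Lib.MP_322c5f_alF.FB03

/-! The tables of the engine: correctness. -/

set_option autoImplicit false

namespace Pool.MP322F

open Pool.MP322

theorem VOK_up {N w c c' j L : ℕ} {f : ℕ → Pr} (hj : j ≤ c) (hc : c ≤ c') (h : VOK N w c j L f) :
    VOK N w c' j L f := by
  induction c', hc using Nat.le_induction with
  | base => exact h
  | succ c' hc' ih => exact VOK_skip (by omega) ih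

theorem V1_1_ok {N : ℕ} (hN : N ≤ 80) : VOK N 128 1 1 1 V1_1 :=
  VOK_step (c := 0) (L1 := 0) (L2 := 1) (h := 0) (by omega) hN (by norm_num)
    (VOK_zero' N 128 0) (VOK_up le_rfl (Nat.zero_le _) (VOK_zero N 128)) rfl
theorem V2_1_ok {N : ℕ} (hN : N ≤ 80) : VOK N 128 1 2 1 V2_1 :=
  VOK_step (c := 0) (L1 := 0) (L2 := 1) (h := 0) (by omega) hN (by norm_num)
    (VOK_zero' N 128 1) (V1_1_ok hN) rfl
theorem V2_2_ok {N : ℕ} (hN : N ≤ 80) : VOK N 128 2 2 2 V2_2 :=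
  VOK_step (c := 1) (L1 := 1) (L2 := 1) (h := 128) (by omega) hN (by norm_num)
    (V2_1_ok hN) (VOK_up le_rfl (Nat.zero_le _) (VOK_zero N 128)) rfl
theorem V3_1_ok {N : ℕ} (hN : N ≤ 80) : VOK N 128 1 3 1 V3_1 :=
  VOK_step (c := 0) (L1 := 0) (L2 := 1) (h := 0) (by omega) hN (by norm_num)
    (VOK_zero' N 128 2) (V2_1_ok hN) rfl
theorem V3_2_ok {N : ℕ} (hN : N ≤ 80) : VOK N 128 2 3 2 V3_2 :=
  VOK_step (c := 1) (L1 := 1) (L2 := 1) (h := 128) (by omega) hN (by norm_num)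
    (V3_1_ok hN) (VOK_up le_rfl (by norm_num) (V1_1_ok hN)) rfl
theorem V3_3_ok {N : ℕ} (hN : N ≤ 80) : VOK N 128 3 3 3 V3_3 :=
  VOK_step (c := 2) (L1 := 2) (L2 := 1) (h := 256) (by omega) hN (by norm_num)
    (V3_2_ok hN) (VOK_up le_rfl (Nat.zero_le _) (VOK_zero N 128)) rfl
theorem V4_1_ok {N : ℕ} (hN : N ≤ 80) : VOK N 128 1 4 1 V4_1 :=
  VOK_step (c := 0) (L1 := 0) (L2 := 1) (h := 0) (by omega) hN (by norm_num)
    (VOK_zero' N 128 3) (V3_1_ok hN) rfl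
theorem V4_2_ok {N : ℕ} (hN : N ≤ 80) : VOK N 128 2 4 3 V4_2 :=
  VOK_step (c := 1) (L1 := 1) (L2 := 2) (h := 128) (by omega) hN (by norm_num)
    (V4_1_ok hN) (V2_2_ok hN) rfl
theorem V4_3_ok {N : ℕ} (hN : N ≤ 80) : VOK N 128 3 4 4 V4_3 :=
  VOK_step (c := 2) (L1 := 3) (L2 := 1) (h := 384) (by omega) hN (by norm_num)
    (V4_2_ok hN) (VOK_up le_rfl (by norm_num) (V1_1_ok hN)) rfl
theorem V4_4_ok {N : ℕ} (hN : N ≤ 80) : VOK N 128 4 4 5 V4_4 :=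
  VOK_step (c := 3) (L1 := 4) (L2 := 1) (h := 512) (by omega) hN (by norm_num)
    (V4_3_ok hN) (VOK_up le_rfl (Nat.zero_le _) (VOK_zero N 128)) rfl
theorem V5_1_ok {N : ℕ} (hN : N ≤ 80) : VOK N 128 1 5 1 V5_1 :=
  VOK_step (c := 0) (L1 := 0) (L2 := 1) (h := 0) (by omega) hN (by norm_num)
    (VOK_zero' N 128 4) (V4_1_ok hN) rfl
theorem V5_2_ok {N : ℕ} (hN : N ≤ 80) : VOK N 128 2 5 3 V5_2 :=
  VOK_step (c := 1) (L1 := 1) (L2 := 2) (h := 128) (by omega) hN (by norm_num)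
    (V5_1_ok hN) (V3_2_ok hN) rfl
theorem V5_3_ok {N : ℕ} (hN : N ≤ 80) : VOK N 128 3 5 5 V5_3 :=
  VOK_step (c := 2) (L1 := 3) (L2 := 2) (h := 384) (by omega) hN (by norm_num)
    (V5_2_ok hN) (VOK_up le_rfl (by norm_num) (V2_2_ok hN)) rfl
theorem V5_4_ok {N : ℕ} (hN : N ≤ 80) : VOK N 128 4 5 6 V5_4 :=
  VOK_step (c := 3) (L1 := 5) (L2 := 1) (h := 640) (by omega) hN (by norm_num)
    (V5_3_ok hN) (VOK_up le_rfl (by norm_num) (V1_1_ok hN)) rfl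
theorem V5_5_ok {N : ℕ} (hN : N ≤ 80) : VOK N 128 5 5 7 V5_5 :=
  VOK_step (c := 4) (L1 := 6) (L2 := 1) (h := 768) (by omega) hN (by norm_num)
    (V5_4_ok hN) (VOK_up le_rfl (Nat.zero_le _) (VOK_zero N 128)) rfl
theorem V6_1_ok {N : ℕ} (hN : N ≤ 80) : VOK N 128 1 6 1 V6_1 :=
  VOK_step (c := 0) (L1 := 0) (L2 := 1) (h := 0) (by omega) hN (by norm_num)
    (VOK_zero' N 128 5) (V5_1_ok hN) rfl
theorem V6_2_ok {N : ℕ} (hN : N ≤ 80) : VOK N 128 2 6 4 V6_2 :=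
  VOK_step (c := 1) (L1 := 1) (L2 := 3) (h := 128) (by omega) hN (by norm_num)
    (V6_1_ok hN) (V4_2_ok hN) rfl
theorem V6_3_ok {N : ℕ} (hN : N ≤ 80) : VOK N 128 3 6 7 V6_3 :=
  VOK_step (c := 2) (L1 := 4) (L2 := 3) (h := 512) (by omega) hN (by norm_num)
    (V6_2_ok hN) (V3_3_ok hN) rfl
theorem V6_4_ok {N : ℕ} (hN : N ≤ 80) : VOK N 128 4 6 9 V6_4 :=
  VOK_step (c := 3) (L1 := 7) (L2 := 2) (h := 896) (by omega) hN (by norm_num)
    (V6_3_ok hN) (VOK_up le_rfl (by norm_num) (V2_2_ok hN)) rfl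
theorem V6_5_ok {N : ℕ} (hN : N ≤ 80) : VOK N 128 5 6 10 V6_5 :=
  VOK_step (c := 4) (L1 := 9) (L2 := 1) (h := 1152) (by omega) hN (by norm_num)
    (V6_4_ok hN) (VOK_up le_rfl (by norm_num) (V1_1_ok hN)) rfl
theorem V6_6_ok {N : ℕ} (hN : N ≤ 80) : VOK N 128 6 6 11 V6_6 :=
  VOK_step (c := 5) (L1 := 10) (L2 := 1) (h := 1280) (by omega) hN (by norm_num)
    (V6_5_ok hN) (VOK_up le_rfl (Nat.zero_le _) (VOK_zero N 128)) rfl
theorem V7_1_ok {N : ℕ} (hN : N ≤ 80) : VOK N 128 1 7 1 V7_1 :=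
  VOK_step (c := 0) (L1 := 0) (L2 := 1) (h := 0) (by omega) hN (by norm_num)
    (VOK_zero' N 128 6) (V6_1_ok hN) rfl
theorem V7_2_ok {N : ℕ} (hN : N ≤ 80) : VOK N 128 2 7 4 V7_2 :=
  VOK_step (c := 1) (L1 := 1) (L2 := 3) (h := 128) (by omega) hN (by norm_num)
    (V7_1_ok hN) (V5_2_ok hN) rfl
theorem V7_3_ok {N : ℕ} (hN : N ≤ 80) : VOK N 128 3 7 8 V7_3 :=
  VOK_step (c := 2) (L1 := 4) (L2 := 4) (h := 512) (by omega) hN (by norm_num)
    (V7_2_ok hN) (V4_3_ok hN) rfl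
theorem V7_4_ok {N : ℕ} (hN : N ≤ 80) : VOK N 128 4 7 11 V7_4 :=
  VOK_step (c := 3) (L1 := 8) (L2 := 3) (h := 1024) (by omega) hN (by norm_num)
    (V7_3_ok hN) (VOK_up le_rfl (by norm_num) (V3_3_ok hN)) rfl
theorem V7_5_ok {N : ℕ} (hN : N ≤ 80) : VOK N 128 5 7 13 V7_5 :=
  VOK_step (c := 4) (L1 := 11) (L2 := 2) (h := 1408) (by omega) hN (by norm_num)
    (V7_4_ok hN) (VOK_up le_rfl (by norm_num) (V2_2_ok hN)) rfl
theorem V7_6_ok {N : ℕ} (hN : N ≤ 80) : VOK N 128 6 7 14 V7_6 :=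
  VOK_step (c := 5) (L1 := 13) (L2 := 1) (h := 1664) (by omega) hN (by norm_num)
    (V7_5_ok hN) (VOK_up le_rfl (by norm_num) (V1_1_ok hN)) rfl
theorem V7_7_ok {N : ℕ} (hN : N ≤ 80) : VOK N 128 7 7 15 V7_7 :=
  VOK_step (c := 6) (L1 := 14) (L2 := 1) (h := 1792) (by omega) hN (by norm_num)
    (V7_6_ok hN) (VOK_up le_rfl (Nat.zero_le _) (VOK_zero N 128)) rfl
theorem V8_1_ok {N : ℕ} (hN : N ≤ 80) : VOK N 128 1 8 1 V8_1 :=
  VOK_step (c := 0) (L1 := 0) (L2 := 1) (h := 0) (by omega) hN (by norm_num)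
    (VOK_zero' N 128 7) (V7_1_ok hN) rfl
theorem V8_2_ok {N : ℕ} (hN : N ≤ 80) : VOK N 128 2 8 5 V8_2 :=
  VOK_step (c := 1) (L1 := 1) (L2 := 4) (h := 128) (by omega) hN (by norm_num)
    (V8_1_ok hN) (V6_2_ok hN) rfl
theorem V8_3_ok {N : ℕ} (hN : N ≤ 80) : VOK N 128 3 8 10 V8_3 :=
  VOK_step (c := 2) (L1 := 5) (L2 := 5) (h := 640) (by omega) hN (by norm_num)
    (V8_2_ok hN) (V5_3_ok hN) rfl
theorem V8_4_ok {N : ℕ} (hN : N ≤ 80) : VOK N 128 4 8 15 V8_4 :=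
  VOK_step (c := 3) (L1 := 10) (L2 := 5) (h := 1280) (by omega) hN (by norm_num)
    (V8_3_ok hN) (V4_4_ok hN) rfl
theorem V8_5_ok {N : ℕ} (hN : N ≤ 80) : VOK N 128 5 8 18 V8_5 :=
  VOK_step (c := 4) (L1 := 15) (L2 := 3) (h := 1920) (by omega) hN (by norm_num)
    (V8_4_ok hN) (VOK_up le_rfl (by norm_num) (V3_3_ok hN)) rfl
theorem V8_6_ok {N : ℕ} (hN : N ≤ 80) : VOK N 128 6 8 20 V8_6 :=
  VOK_step (c := 5) (L1 := 18) (L2 := 2) (h := 2304) (by omega) hN (by norm_num)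
    (V8_5_ok hN) (VOK_up le_rfl (by norm_num) (V2_2_ok hN)) rfl
theorem V8_7_ok {N : ℕ} (hN : N ≤ 80) : VOK N 128 7 8 21 V8_7 :=
  VOK_step (c := 6) (L1 := 20) (L2 := 1) (h := 2560) (by omega) hN (by norm_num)
    (V8_6_ok hN) (VOK_up le_rfl (by norm_num) (V1_1_ok hN)) rfl
theorem V8_8_ok {N : ℕ} (hN : N ≤ 80) : VOK N 128 8 8 22 V8_8 :=
  VOK_step (c := 7) (L1 := 21) (L2 := 1) (h := 2688) (by omega) hN (by norm_num)
    (V8_7_ok hN) (VOK_up le_rfl (Nat.zero_le _) (VOK_zero N 128)) rfl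
theorem V9_1_ok {N : ℕ} (hN : N ≤ 80) : VOK N 128 1 9 1 V9_1 :=
  VOK_step (c := 0) (L1 := 0) (L2 := 1) (h := 0) (by omega) hN (by norm_num)
    (VOK_zero' N 128 8) (V8_1_ok hN) rfl
theorem V9_2_ok {N : ℕ} (hN : N ≤ 80) : VOK N 128 2 9 5 V9_2 :=
  VOK_step (c := 1) (L1 := 1) (L2 := 4) (h := 128) (by omega) hN (by norm_num)
    (V9_1_ok hN) (V7_2_ok hN) rfl
theorem V9_3_ok {N : ℕ} (hN : N ≤ 80) : VOK N 128 3 9 12 V9_3 :=
  VOK_step (c := 2) (L1 := 5) (L2 := 7) (h := 640) (by omega) hN (by norm_num)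
    (V9_2_ok hN) (V6_3_ok hN) rfl
theorem V9_4_ok {N : ℕ} (hN : N ≤ 80) : VOK N 128 4 9 18 V9_4 :=
  VOK_step (c := 3) (L1 := 12) (L2 := 6) (h := 1536) (by omega) hN (by norm_num)
    (V9_3_ok hN) (V5_4_ok hN) rfl
theorem V9_5_ok {N : ℕ} (hN : N ≤ 80) : VOK N 128 5 9 23 V9_5 :=
  VOK_step (c := 4) (L1 := 18) (L2 := 5) (h := 2304) (by omega) hN (by norm_num)
    (V9_4_ok hN) (VOK_up le_rfl (by norm_num) (V4_4_ok hN)) rfl
theorem V9_6_ok {N : ℕ} (hN : N ≤ 80) : VOK N 128 6 9 26 V9_6 :=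
  VOK_step (c := 5) (L1 := 23) (L2 := 3) (h := 2944) (by omega) hN (by norm_num)
    (V9_5_ok hN) (VOK_up le_rfl (by norm_num) (V3_3_ok hN)) rfl
theorem V9_7_ok {N : ℕ} (hN : N ≤ 80) : VOK N 128 7 9 28 V9_7 :=
  VOK_step (c := 6) (L1 := 26) (L2 := 2) (h := 3328) (by omega) hN (by norm_num)
    (V9_6_ok hN) (VOK_up le_rfl (by norm_num) (V2_2_ok hN)) rfl
theorem V9_8_ok {N : ℕ} (hN : N ≤ 80) : VOK N 128 8 9 29 V9_8 :=
  VOK_step (c := 7) (L1 := 28) (L2 := 1) (h := 3584) (by omega) hN (by norm_num)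
    (V9_7_ok hN) (VOK_up le_rfl (by norm_num) (V1_1_ok hN)) rfl
theorem V9_9_ok {N : ℕ} (hN : N ≤ 80) : VOK N 128 9 9 30 V9_9 :=
  VOK_step (c := 8) (L1 := 29) (L2 := 1) (h := 3712) (by omega) hN (by norm_num)
    (V9_8_ok hN) (VOK_up le_rfl (Nat.zero_le _) (VOK_zero N 128)) rfl
theorem V10_1_ok {N : ℕ} (hN : N ≤ 80) : VOK N 128 1 10 1 V10_1 :=
  VOK_step (c := 0) (L1 := 0) (L2 := 1) (h := 0) (by omega) hN (by norm_num)
    (VOK_zero' N 128 9) (V9_1_ok hN) rfl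
theorem V10_2_ok {N : ℕ} (hN : N ≤ 80) : VOK N 128 2 10 6 V10_2 :=
  VOK_step (c := 1) (L1 := 1) (L2 := 5) (h := 128) (by omega) hN (by norm_num)
    (V10_1_ok hN) (V8_2_ok hN) rfl
theorem V10_3_ok {N : ℕ} (hN : N ≤ 80) : VOK N 128 3 10 14 V10_3 :=
  VOK_step (c := 2) (L1 := 6) (L2 := 8) (h := 768) (by omega) hN (by norm_num)
    (V10_2_ok hN) (V7_3_ok hN) rfl
theorem V10_4_ok {N : ℕ} (hN : N ≤ 80) : VOK N 128 4 10 23 V10_4 :=
  VOK_step (c := 3) (L1 := 14) (L2 := 9) (h := 1792) (by omega) hN (by norm_num)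
    (V10_3_ok hN) (V6_4_ok hN) rfl
theorem V10_5_ok {N : ℕ} (hN : N ≤ 80) : VOK N 128 5 10 30 V10_5 :=
  VOK_step (c := 4) (L1 := 23) (L2 := 7) (h := 2944) (by omega) hN (by norm_num)
    (V10_4_ok hN) (V5_5_ok hN) rfl
theorem V10_6_ok {N : ℕ} (hN : N ≤ 80) : VOK N 128 6 10 35 V10_6 :=
  VOK_step (c := 5) (L1 := 30) (L2 := 5) (h := 3840) (by omega) hN (by norm_num)
    (V10_5_ok hN) (VOK_up le_rfl (by norm_num) (V4_4_ok hN)) rfl
theorem V10_7_ok {N : ℕ} (hN : N ≤ 80) : VOK N 128 7 10 38 V10_7 :=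
  VOK_step (c := 6) (L1 := 35) (L2 := 3) (h := 4480) (by omega) hN (by norm_num)
    (V10_6_ok hN) (VOK_up le_rfl (by norm_num) (V3_3_ok hN)) rfl
theorem V10_8_ok {N : ℕ} (hN : N ≤ 80) : VOK N 128 8 10 40 V10_8 :=
  VOK_step (c := 7) (L1 := 38) (L2 := 2) (h := 4864) (by omega) hN (by norm_num)
    (V10_7_ok hN) (VOK_up le_rfl (by norm_num) (V2_2_ok hN)) rfl
theorem V10_9_ok {N : ℕ} (hN : N ≤ 80) : VOK N 128 9 10 41 V10_9 :=
  VOK_step (c := 8) (L1 := 40) (L2 := 1) (h := 5120) (by omega) hN (by norm_num)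
    (V10_8_ok hN) (VOK_up le_rfl (by norm_num) (V1_1_ok hN)) rfl
theorem V10_10_ok {N : ℕ} (hN : N ≤ 80) : VOK N 128 10 10 42 V10_10 :=
  VOK_step (c := 9) (L1 := 41) (L2 := 1) (h := 5248) (by omega) hN (by norm_num)
    (V10_9_ok hN) (VOK_up le_rfl (Nat.zero_le _) (VOK_zero N 128)) rfl
theorem V11_1_ok {N : ℕ} (hN : N ≤ 80) : VOK N 128 1 11 1 V11_1 :=
  VOK_step (c := 0) (L1 := 0) (L2 := 1) (h := 0) (by omega) hN (by norm_num)
    (VOK_zero' N 128 10) (V10_1_ok hN) rfl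
theorem V11_2_ok {N : ℕ} (hN : N ≤ 80) : VOK N 128 2 11 6 V11_2 :=
  VOK_step (c := 1) (L1 := 1) (L2 := 5) (h := 128) (by omega) hN (by norm_num)
    (V11_1_ok hN) (V9_2_ok hN) rfl
theorem V11_3_ok {N : ℕ} (hN : N ≤ 80) : VOK N 128 3 11 16 V11_3 :=
  VOK_step (c := 2) (L1 := 6) (L2 := 10) (h := 768) (by omega) hN (by norm_num)
    (V11_2_ok hN) (V8_3_ok hN) rfl
theorem V11_4_ok {N : ℕ} (hN : N ≤ 80) : VOK N 128 4 11 27 V11_4 :=
  VOK_step (c := 3) (L1 := 16) (L2 := 11) (h := 2048) (by omega) hN (by norm_num)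
    (V11_3_ok hN) (V7_4_ok hN) rfl
theorem V11_5_ok {N : ℕ} (hN : N ≤ 80) : VOK N 128 5 11 37 V11_5 :=
  VOK_step (c := 4) (L1 := 27) (L2 := 10) (h := 3456) (by omega) hN (by norm_num)
    (V11_4_ok hN) (V6_5_ok hN) rfl
theorem V11_6_ok {N : ℕ} (hN : N ≤ 80) : VOK N 128 6 11 44 V11_6 :=
  VOK_step (c := 5) (L1 := 37) (L2 := 7) (h := 4736) (by omega) hN (by norm_num)
    (V11_5_ok hN) (VOK_up le_rfl (by norm_num) (V5_5_ok hN)) rfl
theorem V11_7_ok {N : ℕ} (hN : N ≤ 80) : VOK N 128 7 11 49 V11_7 :=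
  VOK_step (c := 6) (L1 := 44) (L2 := 5) (h := 5632) (by omega) hN (by norm_num)
    (V11_6_ok hN) (VOK_up le_rfl (by norm_num) (V4_4_ok hN)) rfl
theorem V11_8_ok {N : ℕ} (hN : N ≤ 80) : VOK N 128 8 11 52 V11_8 :=
  VOK_step (c := 7) (L1 := 49) (L2 := 3) (h := 6272) (by omega) hN (by norm_num)
    (V11_7_ok hN) (VOK_up le_rfl (by norm_num) (V3_3_ok hN)) rfl
theorem V11_9_ok {N : ℕ} (hN : N ≤ 80) : VOK N 128 9 11 54 V11_9 :=
  VOK_step (c := 8) (L1 := 52) (L2 := 2) (h := 6656) (by omega) hN (by norm_num)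
    (V11_8_ok hN) (VOK_up le_rfl (by norm_num) (V2_2_ok hN)) rfl
theorem V11_10_ok {N : ℕ} (hN : N ≤ 80) : VOK N 128 10 11 55 V11_10 :=
  VOK_step (c := 9) (L1 := 54) (L2 := 1) (h := 6912) (by omega) hN (by norm_num)
    (V11_9_ok hN) (VOK_up le_rfl (by norm_num) (V1_1_ok hN)) rfl
theorem V11_11_ok {N : ℕ} (hN : N ≤ 80) : VOK N 128 11 11 56 V11_11 :=
  VOK_step (c := 10) (L1 := 55) (L2 := 1) (h := 7040) (by omega) hN (by norm_num)
    (V11_10_ok hN) (VOK_up le_rfl (Nat.zero_le _) (VOK_zero N 128)) rfl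
theorem V12_1_ok {N : ℕ} (hN : N ≤ 80) : VOK N 128 1 12 1 V12_1 :=
  VOK_step (c := 0) (L1 := 0) (L2 := 1) (h := 0) (by omega) hN (by norm_num)
    (VOK_zero' N 128 11) (V11_1_ok hN) rfl
theorem V12_2_ok {N : ℕ} (hN : N ≤ 80) : VOK N 128 2 12 7 V12_2 :=
  VOK_step (c := 1) (L1 := 1) (L2 := 6) (h := 128) (by omega) hN (by norm_num)
    (V12_1_ok hN) (V10_2_ok hN) rfl
theorem V12_3_ok {N : ℕ} (hN : N ≤ 80) : VOK N 128 3 12 19 V12_3 :=
  VOK_step (c := 2) (L1 := 7) (L2 := 12) (h := 896) (by omega) hN (by norm_num)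
    (V12_2_ok hN) (V9_3_ok hN) rfl
theorem V12_4_ok {N : ℕ} (hN : N ≤ 80) : VOK N 128 4 12 34 V12_4 :=
  VOK_step (c := 3) (L1 := 19) (L2 := 15) (h := 2432) (by omega) hN (by norm_num)
    (V12_3_ok hN) (V8_4_ok hN) rfl
theorem V12_5_ok {N : ℕ} (hN : N ≤ 80) : VOK N 128 5 12 47 V12_5 :=
  VOK_step (c := 4) (L1 := 34) (L2 := 13) (h := 4352) (by omega) hN (by norm_num)
    (V12_4_ok hN) (V7_5_ok hN) rfl
theorem V12_6_ok {N : ℕ} (hN : N ≤ 80) : VOK N 128 6 12 58 V12_6 :=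
  VOK_step (c := 5) (L1 := 47) (L2 := 11) (h := 6016) (by omega) hN (by norm_num)
    (V12_5_ok hN) (V6_6_ok hN) rfl
theorem V12_7_ok {N : ℕ} (hN : N ≤ 80) : VOK N 128 7 12 65 V12_7 :=
  VOK_step (c := 6) (L1 := 58) (L2 := 7) (h := 7424) (by omega) hN (by norm_num)
    (V12_6_ok hN) (VOK_up le_rfl (by norm_num) (V5_5_ok hN)) rfl
theorem V12_8_ok {N : ℕ} (hN : N ≤ 80) : VOK N 128 8 12 70 V12_8 :=
  VOK_step (c := 7) (L1 := 65) (L2 := 5) (h := 8320) (by omega) hN (by norm_num)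
    (V12_7_ok hN) (VOK_up le_rfl (by norm_num) (V4_4_ok hN)) rfl
theorem V12_9_ok {N : ℕ} (hN : N ≤ 80) : VOK N 128 9 12 73 V12_9 :=
  VOK_step (c := 8) (L1 := 70) (L2 := 3) (h := 8960) (by omega) hN (by norm_num)
    (V12_8_ok hN) (VOK_up le_rfl (by norm_num) (V3_3_ok hN)) rfl
theorem V12_10_ok {N : ℕ} (hN : N ≤ 80) : VOK N 128 10 12 75 V12_10 :=
  VOK_step (c := 9) (L1 := 73) (L2 := 2) (h := 9344) (by omega) hN (by norm_num)
    (V12_9_ok hN) (VOK_up le_rfl (by norm_num) (V2_2_ok hN)) rfl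
theorem V12_11_ok {N : ℕ} (hN : N ≤ 80) : VOK N 128 11 12 76 V12_11 :=
  VOK_step (c := 10) (L1 := 75) (L2 := 1) (h := 9600) (by omega) hN (by norm_num)
    (V12_10_ok hN) (VOK_up le_rfl (by norm_num) (V1_1_ok hN)) rfl
theorem V12_12_ok {N : ℕ} (hN : N ≤ 80) : VOK N 128 12 12 77 V12_12 :=
  VOK_step (c := 11) (L1 := 76) (L2 := 1) (h := 9728) (by omega) hN (by norm_num)
    (V12_11_ok hN) (VOK_up le_rfl (Nat.zero_le _) (VOK_zero N 128)) rfl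
theorem V13_1_ok {N : ℕ} (hN : N ≤ 80) : VOK N 128 1 13 1 V13_1 :=
  VOK_step (c := 0) (L1 := 0) (L2 := 1) (h := 0) (by omega) hN (by norm_num)
    (VOK_zero' N 128 12) (V12_1_ok hN) rfl
theorem V13_2_ok {N : ℕ} (hN : N ≤ 80) : VOK N 128 2 13 7 V13_2 :=
  VOK_step (c := 1) (L1 := 1) (L2 := 6) (h := 128) (by omega) hN (by norm_num)
    (V13_1_ok hN) (V11_2_ok hN) rfl
theorem V13_3_ok {N : ℕ} (hN : N ≤ 80) : VOK N 128 3 13 21 V13_3 :=
  VOK_step (c := 2) (L1 := 7) (L2 := 14) (h := 896) (by omega) hN (by norm_num)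
    (V13_2_ok hN) (V10_3_ok hN) rfl
theorem V13_4_ok {N : ℕ} (hN : N ≤ 80) : VOK N 128 4 13 39 V13_4 :=
  VOK_step (c := 3) (L1 := 21) (L2 := 18) (h := 2688) (by omega) hN (by norm_num)
    (V13_3_ok hN) (V9_4_ok hN) rfl
theorem V13_5_ok {N : ℕ} (hN : N ≤ 80) : VOK N 128 5 13 57 V13_5 :=
  VOK_step (c := 4) (L1 := 39) (L2 := 18) (h := 4992) (by omega) hN (by norm_num)
    (V13_4_ok hN) (V8_5_ok hN) rfl
theorem V13_6_ok {N : ℕ} (hN : N ≤ 80) : VOK N 128 6 13 71 V13_6 :=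
  VOK_step (c := 5) (L1 := 57) (L2 := 14) (h := 7296) (by omega) hN (by norm_num)
    (V13_5_ok hN) (V7_6_ok hN) rfl
theorem V13_7_ok {N : ℕ} (hN : N ≤ 80) : VOK N 128 7 13 82 V13_7 :=
  VOK_step (c := 6) (L1 := 71) (L2 := 11) (h := 9088) (by omega) hN (by norm_num)
    (V13_6_ok hN) (VOK_up le_rfl (by norm_num) (V6_6_ok hN)) rfl
theorem V13_8_ok {N : ℕ} (hN : N ≤ 80) : VOK N 128 8 13 89 V13_8 :=
  VOK_step (c := 7) (L1 := 82) (L2 := 7) (h := 10496) (by omega) hN (by norm_num)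
    (V13_7_ok hN) (VOK_up le_rfl (by norm_num) (V5_5_ok hN)) rfl
theorem V13_9_ok {N : ℕ} (hN : N ≤ 80) : VOK N 128 9 13 94 V13_9 :=
  VOK_step (c := 8) (L1 := 89) (L2 := 5) (h := 11392) (by omega) hN (by norm_num)
    (V13_8_ok hN) (VOK_up le_rfl (by norm_num) (V4_4_ok hN)) rfl
theorem V13_10_ok {N : ℕ} (hN : N ≤ 80) : VOK N 128 10 13 97 V13_10 :=
  VOK_step (c := 9) (L1 := 94) (L2 := 3) (h := 12032) (by omega) hN (by norm_num)
    (V13_9_ok hN) (VOK_up le_rfl (by norm_num) (V3_3_ok hN)) rfl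
theorem V13_11_ok {N : ℕ} (hN : N ≤ 80) : VOK N 128 11 13 99 V13_11 :=
  VOK_step (c := 10) (L1 := 97) (L2 := 2) (h := 12416) (by omega) hN (by norm_num)
    (V13_10_ok hN) (VOK_up le_rfl (by norm_num) (V2_2_ok hN)) rfl
theorem V13_12_ok {N : ℕ} (hN : N ≤ 80) : VOK N 128 12 13 100 V13_12 :=
  VOK_step (c := 11) (L1 := 99) (L2 := 1) (h := 12672) (by omega) hN (by norm_num)
    (V13_11_ok hN) (VOK_up le_rfl (by norm_num) (V1_1_ok hN)) rfl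
theorem V13_13_ok {N : ℕ} (hN : N ≤ 80) : VOK N 128 13 13 101 V13_13 :=
  VOK_step (c := 12) (L1 := 100) (L2 := 1) (h := 12800) (by omega) hN (by norm_num)
    (V13_12_ok hN) (VOK_up le_rfl (Nat.zero_le _) (VOK_zero N 128)) rfl
theorem V14_1_ok {N : ℕ} (hN : N ≤ 80) : VOK N 128 1 14 1 V14_1 :=
  VOK_step (c := 0) (L1 := 0) (L2 := 1) (h := 0) (by omega) hN (by norm_num)
    (VOK_zero' N 128 13) (V13_1_ok hN) rfl
theorem V14_2_ok {N : ℕ} (hN : N ≤ 80) : VOK N 128 2 14 8 V14_2 :=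
  VOK_step (c := 1) (L1 := 1) (L2 := 7) (h := 128) (by omega) hN (by norm_num)
    (V14_1_ok hN) (V12_2_ok hN) rfl
theorem V14_3_ok {N : ℕ} (hN : N ≤ 80) : VOK N 128 3 14 24 V14_3 :=
  VOK_step (c := 2) (L1 := 8) (L2 := 16) (h := 1024) (by omega) hN (by norm_num)
    (V14_2_ok hN) (V11_3_ok hN) rfl
theorem V14_4_ok {N : ℕ} (hN : N ≤ 80) : VOK N 128 4 14 47 V14_4 :=
  VOK_step (c := 3) (L1 := 24) (L2 := 23) (h := 3072) (by omega) hN (by norm_num)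
    (V14_3_ok hN) (V10_4_ok hN) rfl
theorem V14_5_ok {N : ℕ} (hN : N ≤ 80) : VOK N 128 5 14 70 V14_5 :=
  VOK_step (c := 4) (L1 := 47) (L2 := 23) (h := 6016) (by omega) hN (by norm_num)
    (V14_4_ok hN) (V9_5_ok hN) rfl
theorem V14_6_ok {N : ℕ} (hN : N ≤ 80) : VOK N 128 6 14 90 V14_6 :=
  VOK_step (c := 5) (L1 := 70) (L2 := 20) (h := 8960) (by omega) hN (by norm_num)
    (V14_5_ok hN) (V8_6_ok hN) rfl
theorem V14_7_ok {N : ℕ} (hN : N ≤ 80) : VOK N 128 7 14 105 V14_7 :=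
  VOK_step (c := 6) (L1 := 90) (L2 := 15) (h := 11520) (by omega) hN (by norm_num)
    (V14_6_ok hN) (V7_7_ok hN) rfl
theorem V14_8_ok {N : ℕ} (hN : N ≤ 80) : VOK N 128 8 14 116 V14_8 :=
  VOK_step (c := 7) (L1 := 105) (L2 := 11) (h := 13440) (by omega) hN (by norm_num)
    (V14_7_ok hN) (VOK_up le_rfl (by norm_num) (V6_6_ok hN)) rfl
theorem V14_9_ok {N : ℕ} (hN : N ≤ 80) : VOK N 128 9 14 123 V14_9 :=
  VOK_step (c := 8) (L1 := 116) (L2 := 7) (h := 14848) (by omega) hN (by norm_num)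
    (V14_8_ok hN) (VOK_up le_rfl (by norm_num) (V5_5_ok hN)) rfl
theorem V14_10_ok {N : ℕ} (hN : N ≤ 80) : VOK N 128 10 14 128 V14_10 :=
  VOK_step (c := 9) (L1 := 123) (L2 := 5) (h := 15744) (by omega) hN (by norm_num)
    (V14_9_ok hN) (VOK_up le_rfl (by norm_num) (V4_4_ok hN)) rfl
theorem V14_11_ok {N : ℕ} (hN : N ≤ 80) : VOK N 128 11 14 131 V14_11 :=
  VOK_step (c := 10) (L1 := 128) (L2 := 3) (h := 16384) (by omega) hN (by norm_num)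
    (V14_10_ok hN) (VOK_up le_rfl (by norm_num) (V3_3_ok hN)) rfl
theorem V14_12_ok {N : ℕ} (hN : N ≤ 80) : VOK N 128 12 14 133 V14_12 :=
  VOK_step (c := 11) (L1 := 131) (L2 := 2) (h := 16768) (by omega) hN (by norm_num)
    (V14_11_ok hN) (VOK_up le_rfl (by norm_num) (V2_2_ok hN)) rfl
theorem V14_13_ok {N : ℕ} (hN : N ≤ 80) : VOK N 128 13 14 134 V14_13 :=
  VOK_step (c := 12) (L1 := 133) (L2 := 1) (h := 17024) (by omega) hN (by norm_num)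
    (V14_12_ok hN) (VOK_up le_rfl (by norm_num) (V1_1_ok hN)) rfl
theorem V14_14_ok {N : ℕ} (hN : N ≤ 80) : VOK N 128 14 14 135 V14_14 :=
  VOK_step (c := 13) (L1 := 134) (L2 := 1) (h := 17152) (by omega) hN (by norm_num)
    (V14_13_ok hN) (VOK_up le_rfl (Nat.zero_le _) (VOK_zero N 128)) rfl
theorem V15_1_ok {N : ℕ} (hN : N ≤ 80) : VOK N 128 1 15 1 V15_1 :=
  VOK_step (c := 0) (L1 := 0) (L2 := 1) (h := 0) (by omega) hN (by norm_num)
    (VOK_zero' N 128 14) (V14_1_ok hN) rfl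
theorem V15_2_ok {N : ℕ} (hN : N ≤ 80) : VOK N 128 2 15 8 V15_2 :=
  VOK_step (c := 1) (L1 := 1) (L2 := 7) (h := 128) (by omega) hN (by norm_num)
    (V15_1_ok hN) (V13_2_ok hN) rfl
theorem V15_3_ok {N : ℕ} (hN : N ≤ 80) : VOK N 128 3 15 27 V15_3 :=
  VOK_step (c := 2) (L1 := 8) (L2 := 19) (h := 1024) (by omega) hN (by norm_num)
    (V15_2_ok hN) (V12_3_ok hN) rfl
theorem V15_4_ok {N : ℕ} (hN : N ≤ 80) : VOK N 128 4 15 54 V15_4 :=
  VOK_step (c := 3) (L1 := 27) (L2 := 27) (h := 3456) (by omega) hN (by norm_num)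
    (V15_3_ok hN) (V11_4_ok hN) rfl
theorem V15_5_ok {N : ℕ} (hN : N ≤ 80) : VOK N 128 5 15 84 V15_5 :=
  VOK_step (c := 4) (L1 := 54) (L2 := 30) (h := 6912) (by omega) hN (by norm_num)
    (V15_4_ok hN) (V10_5_ok hN) rfl
theorem V15_6_ok {N : ℕ} (hN : N ≤ 80) : VOK N 128 6 15 110 V15_6 :=
  VOK_step (c := 5) (L1 := 84) (L2 := 26) (h := 10752) (by omega) hN (by norm_num)
    (V15_5_ok hN) (V9_6_ok hN) rfl
theorem V15_7_ok {N : ℕ} (hN : N ≤ 80) : VOK N 128 7 15 131 V15_7 :=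
  VOK_step (c := 6) (L1 := 110) (L2 := 21) (h := 14080) (by omega) hN (by norm_num)
    (V15_6_ok hN) (V8_7_ok hN) rfl
theorem V15_8_ok {N : ℕ} (hN : N ≤ 80) : VOK N 128 8 15 146 V15_8 :=
  VOK_step (c := 7) (L1 := 131) (L2 := 15) (h := 16768) (by omega) hN (by norm_num)
    (V15_7_ok hN) (VOK_up le_rfl (by norm_num) (V7_7_ok hN)) rfl
theorem V15_9_ok {N : ℕ} (hN : N ≤ 80) : VOK N 128 9 15 157 V15_9 :=
  VOK_step (c := 8) (L1 := 146) (L2 := 11) (h := 18688) (by omega) hN (by norm_num)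
    (V15_8_ok hN) (VOK_up le_rfl (by norm_num) (V6_6_ok hN)) rfl
theorem V15_10_ok {N : ℕ} (hN : N ≤ 80) : VOK N 128 10 15 164 V15_10 :=
  VOK_step (c := 9) (L1 := 157) (L2 := 7) (h := 20096) (by omega) hN (by norm_num)
    (V15_9_ok hN) (VOK_up le_rfl (by norm_num) (V5_5_ok hN)) rfl
theorem V15_11_ok {N : ℕ} (hN : N ≤ 80) : VOK N 128 11 15 169 V15_11 :=
  VOK_step (c := 10) (L1 := 164) (L2 := 5) (h := 20992) (by omega) hN (by norm_num)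
    (V15_10_ok hN) (VOK_up le_rfl (by norm_num) (V4_4_ok hN)) rfl
theorem V15_12_ok {N : ℕ} (hN : N ≤ 80) : VOK N 128 12 15 172 V15_12 :=
  VOK_step (c := 11) (L1 := 169) (L2 := 3) (h := 21632) (by omega) hN (by norm_num)
    (V15_11_ok hN) (VOK_up le_rfl (by norm_num) (V3_3_ok hN)) rfl
theorem V15_13_ok {N : ℕ} (hN : N ≤ 80) : VOK N 128 13 15 174 V15_13 :=
  VOK_step (c := 12) (L1 := 172) (L2 := 2) (h := 22016) (by omega) hN (by norm_num)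
    (V15_12_ok hN) (VOK_up le_rfl (by norm_num) (V2_2_ok hN)) rfl
theorem V15_14_ok {N : ℕ} (hN : N ≤ 80) : VOK N 128 14 15 175 V15_14 :=
  VOK_step (c := 13) (L1 := 174) (L2 := 1) (h := 22272) (by omega) hN (by norm_num)
    (V15_13_ok hN) (VOK_up le_rfl (by norm_num) (V1_1_ok hN)) rfl
theorem V15_15_ok {N : ℕ} (hN : N ≤ 80) : VOK N 128 15 15 176 V15_15 :=
  VOK_step (c := 14) (L1 := 175) (L2 := 1) (h := 22400) (by omega) hN (by norm_num)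
    (V15_14_ok hN) (VOK_up le_rfl (Nat.zero_le _) (VOK_zero N 128)) rfl
theorem V16_1_ok {N : ℕ} (hN : N ≤ 80) : VOK N 128 1 16 1 V16_1 :=
  VOK_step (c := 0) (L1 := 0) (L2 := 1) (h := 0) (by omega) hN (by norm_num)
    (VOK_zero' N 128 15) (V15_1_ok hN) rfl
theorem V16_2_ok {N : ℕ} (hN : N ≤ 80) : VOK N 128 2 16 9 V16_2 :=
  VOK_step (c := 1) (L1 := 1) (L2 := 8) (h := 128) (by omega) hN (by norm_num)
    (V16_1_ok hN) (V14_2_ok hN) rfl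
theorem V16_3_ok {N : ℕ} (hN : N ≤ 80) : VOK N 128 3 16 30 V16_3 :=
  VOK_step (c := 2) (L1 := 9) (L2 := 21) (h := 1152) (by omega) hN (by norm_num)
    (V16_2_ok hN) (V13_3_ok hN) rfl
theorem V16_4_ok {N : ℕ} (hN : N ≤ 80) : VOK N 128 4 16 64 V16_4 :=
  VOK_step (c := 3) (L1 := 30) (L2 := 34) (h := 3840) (by omega) hN (by norm_num)
    (V16_3_ok hN) (V12_4_ok hN) rfl
theorem V16_5_ok {N : ℕ} (hN : N ≤ 80) : VOK N 128 5 16 101 V16_5 :=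
  VOK_step (c := 4) (L1 := 64) (L2 := 37) (h := 8192) (by omega) hN (by norm_num)
    (V16_4_ok hN) (V11_5_ok hN) rfl
theorem V16_6_ok {N : ℕ} (hN : N ≤ 80) : VOK N 128 6 16 136 V16_6 :=
  VOK_step (c := 5) (L1 := 101) (L2 := 35) (h := 12928) (by omega) hN (by norm_num)
    (V16_5_ok hN) (V10_6_ok hN) rfl
theorem V16_7_ok {N : ℕ} (hN : N ≤ 80) : VOK N 128 7 16 164 V16_7 :=
  VOK_step (c := 6) (L1 := 136) (L2 := 28) (h := 17408) (by omega) hN (by norm_num)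
    (V16_6_ok hN) (V9_7_ok hN) rfl
theorem V16_8_ok {N : ℕ} (hN : N ≤ 80) : VOK N 128 8 16 186 V16_8 :=
  VOK_step (c := 7) (L1 := 164) (L2 := 22) (h := 20992) (by omega) hN (by norm_num)
    (V16_7_ok hN) (V8_8_ok hN) rfl
theorem V16_9_ok {N : ℕ} (hN : N ≤ 80) : VOK N 128 9 16 201 V16_9 :=
  VOK_step (c := 8) (L1 := 186) (L2 := 15) (h := 23808) (by omega) hN (by norm_num)
    (V16_8_ok hN) (VOK_up le_rfl (by norm_num) (V7_7_ok hN)) rfl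
theorem V16_10_ok {N : ℕ} (hN : N ≤ 80) : VOK N 128 10 16 212 V16_10 :=
  VOK_step (c := 9) (L1 := 201) (L2 := 11) (h := 25728) (by omega) hN (by norm_num)
    (V16_9_ok hN) (VOK_up le_rfl (by norm_num) (V6_6_ok hN)) rfl
theorem V16_11_ok {N : ℕ} (hN : N ≤ 80) : VOK N 128 11 16 219 V16_11 :=
  VOK_step (c := 10) (L1 := 212) (L2 := 7) (h := 27136) (by omega) hN (by norm_num)
    (V16_10_ok hN) (VOK_up le_rfl (by norm_num) (V5_5_ok hN)) rfl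
theorem V16_12_ok {N : ℕ} (hN : N ≤ 80) : VOK N 128 12 16 224 V16_12 :=
  VOK_step (c := 11) (L1 := 219) (L2 := 5) (h := 28032) (by omega) hN (by norm_num)
    (V16_11_ok hN) (VOK_up le_rfl (by norm_num) (V4_4_ok hN)) rfl
theorem V16_13_ok {N : ℕ} (hN : N ≤ 80) : VOK N 128 13 16 227 V16_13 :=
  VOK_step (c := 12) (L1 := 224) (L2 := 3) (h := 28672) (by omega) hN (by norm_num)
    (V16_12_ok hN) (VOK_up le_rfl (by norm_num) (V3_3_ok hN)) rfl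
theorem V16_14_ok {N : ℕ} (hN : N ≤ 80) : VOK N 128 14 16 229 V16_14 :=
  VOK_step (c := 13) (L1 := 227) (L2 := 2) (h := 29056) (by omega) hN (by norm_num)
    (V16_13_ok hN) (VOK_up le_rfl (by norm_num) (V2_2_ok hN)) rfl
theorem V16_15_ok {N : ℕ} (hN : N ≤ 80) : VOK N 128 15 16 230 V16_15 :=
  VOK_step (c := 14) (L1 := 229) (L2 := 1) (h := 29312) (by omega) hN (by norm_num)
    (V16_14_ok hN) (VOK_up le_rfl (by norm_num) (V1_1_ok hN)) rfl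
theorem V16_16_ok {N : ℕ} (hN : N ≤ 80) : VOK N 128 16 16 231 V16_16 :=
  VOK_step (c := 15) (L1 := 230) (L2 := 1) (h := 29440) (by omega) hN (by norm_num)
    (V16_15_ok hN) (VOK_up le_rfl (Nat.zero_le _) (VOK_zero N 128)) rfl
theorem V17_1_ok {N : ℕ} (hN : N ≤ 80) : VOK N 128 1 17 1 V17_1 :=
  VOK_step (c := 0) (L1 := 0) (L2 := 1) (h := 0) (by omega) hN (by norm_num)
    (VOK_zero' N 128 16) (V16_1_ok hN) rfl
theorem V17_2_ok {N : ℕ} (hN : N ≤ 80) : VOK N 128 2 17 9 V17_2 :=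
  VOK_step (c := 1) (L1 := 1) (L2 := 8) (h := 128) (by omega) hN (by norm_num)
    (V17_1_ok hN) (V15_2_ok hN) rfl
theorem V17_3_ok {N : ℕ} (hN : N ≤ 80) : VOK N 128 3 17 33 V17_3 :=
  VOK_step (c := 2) (L1 := 9) (L2 := 24) (h := 1152) (by omega) hN (by norm_num)
    (V17_2_ok hN) (V14_3_ok hN) rfl
theorem V17_4_ok {N : ℕ} (hN : N ≤ 80) : VOK N 128 4 17 72 V17_4 :=
  VOK_step (c := 3) (L1 := 33) (L2 := 39) (h := 4224) (by omega) hN (by norm_num)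
    (V17_3_ok hN) (V13_4_ok hN) rfl
theorem V17_5_ok {N : ℕ} (hN : N ≤ 80) : VOK N 128 5 17 119 V17_5 :=
  VOK_step (c := 4) (L1 := 72) (L2 := 47) (h := 9216) (by omega) hN (by norm_num)
    (V17_4_ok hN) (V12_5_ok hN) rfl
theorem V17_6_ok {N : ℕ} (hN : N ≤ 80) : VOK N 128 6 17 163 V17_6 :=
  VOK_step (c := 5) (L1 := 119) (L2 := 44) (h := 15232) (by omega) hN (by norm_num)
    (V17_5_ok hN) (V11_6_ok hN) rfl
theorem V17_7_ok {N : ℕ} (hN : N ≤ 80) : VOK N 128 7 17 201 V17_7 :=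
  VOK_step (c := 6) (L1 := 163) (L2 := 38) (h := 20864) (by omega) hN (by norm_num)
    (V17_6_ok hN) (V10_7_ok hN) rfl
theorem V17_8_ok {N : ℕ} (hN : N ≤ 80) : VOK N 128 8 17 230 V17_8 :=
  VOK_step (c := 7) (L1 := 201) (L2 := 29) (h := 25728) (by omega) hN (by norm_num)
    (V17_7_ok hN) (V9_8_ok hN) rfl
theorem V17_9_ok {N : ℕ} (hN : N ≤ 80) : VOK N 128 9 17 252 V17_9 :=
  VOK_step (c := 8) (L1 := 230) (L2 := 22) (h := 29440) (by omega) hN (by norm_num)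
    (V17_8_ok hN) (VOK_up le_rfl (by norm_num) (V8_8_ok hN)) rfl
theorem V17_10_ok {N : ℕ} (hN : N ≤ 80) : VOK N 128 10 17 267 V17_10 :=
  VOK_step (c := 9) (L1 := 252) (L2 := 15) (h := 32256) (by omega) hN (by norm_num)
    (V17_9_ok hN) (VOK_up le_rfl (by norm_num) (V7_7_ok hN)) rfl
theorem V17_11_ok {N : ℕ} (hN : N ≤ 80) : VOK N 128 11 17 278 V17_11 :=
  VOK_step (c := 10) (L1 := 267) (L2 := 11) (h := 34176) (by omega) hN (by norm_num)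
    (V17_10_ok hN) (VOK_up le_rfl (by norm_num) (V6_6_ok hN)) rfl
theorem V17_12_ok {N : ℕ} (hN : N ≤ 80) : VOK N 128 12 17 285 V17_12 :=
  VOK_step (c := 11) (L1 := 278) (L2 := 7) (h := 35584) (by omega) hN (by norm_num)
    (V17_11_ok hN) (VOK_up le_rfl (by norm_num) (V5_5_ok hN)) rfl
theorem V17_13_ok {N : ℕ} (hN : N ≤ 80) : VOK N 128 13 17 290 V17_13 :=
  VOK_step (c := 12) (L1 := 285) (L2 := 5) (h := 36480) (by omega) hN (by norm_num)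
    (V17_12_ok hN) (VOK_up le_rfl (by norm_num) (V4_4_ok hN)) rfl
theorem V17_14_ok {N : ℕ} (hN : N ≤ 80) : VOK N 128 14 17 293 V17_14 :=
  VOK_step (c := 13) (L1 := 290) (L2 := 3) (h := 37120) (by omega) hN (by norm_num)
    (V17_13_ok hN) (VOK_up le_rfl (by norm_num) (V3_3_ok hN)) rfl
theorem V17_15_ok {N : ℕ} (hN : N ≤ 80) : VOK N 128 15 17 295 V17_15 :=
  VOK_step (c := 14) (L1 := 293) (L2 := 2) (h := 37504) (by omega) hN (by norm_num)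
    (V17_14_ok hN) (VOK_up le_rfl (by norm_num) (V2_2_ok hN)) rfl
theorem V17_16_ok {N : ℕ} (hN : N ≤ 80) : VOK N 128 16 17 296 V17_16 :=
  VOK_step (c := 15) (L1 := 295) (L2 := 1) (h := 37760) (by omega) hN (by norm_num)
    (V17_15_ok hN) (VOK_up le_rfl (by norm_num) (V1_1_ok hN)) rfl
theorem V17_17_ok {N : ℕ} (hN : N ≤ 80) : VOK N 128 17 17 297 V17_17 :=
  VOK_step (c := 16) (L1 := 296) (L2 := 1) (h := 37888) (by omega) hN (by norm_num)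
    (V17_16_ok hN) (VOK_up le_rfl (Nat.zero_le _) (VOK_zero N 128)) rfl
theorem V18_1_ok {N : ℕ} (hN : N ≤ 80) : VOK N 128 1 18 1 V18_1 :=
  VOK_step (c := 0) (L1 := 0) (L2 := 1) (h := 0) (by omega) hN (by norm_num)
    (VOK_zero' N 128 17) (V17_1_ok hN) rfl
theorem V18_2_ok {N : ℕ} (hN : N ≤ 80) : VOK N 128 2 18 10 V18_2 :=
  VOK_step (c := 1) (L1 := 1) (L2 := 9) (h := 128) (by omega) hN (by norm_num)
    (V18_1_ok hN) (V16_2_ok hN) rfl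
theorem V18_3_ok {N : ℕ} (hN : N ≤ 80) : VOK N 128 3 18 37 V18_3 :=
  VOK_step (c := 2) (L1 := 10) (L2 := 27) (h := 1280) (by omega) hN (by norm_num)
    (V18_2_ok hN) (V15_3_ok hN) rfl
theorem V18_4_ok {N : ℕ} (hN : N ≤ 80) : VOK N 128 4 18 84 V18_4 :=
  VOK_step (c := 3) (L1 := 37) (L2 := 47) (h := 4736) (by omega) hN (by norm_num)
    (V18_3_ok hN) (V14_4_ok hN) rfl
theorem V18_5_ok {N : ℕ} (hN : N ≤ 80) : VOK N 128 5 18 141 V18_5 :=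
  VOK_step (c := 4) (L1 := 84) (L2 := 57) (h := 10752) (by omega) hN (by norm_num)
    (V18_4_ok hN) (V13_5_ok hN) rfl
theorem V18_6_ok {N : ℕ} (hN : N ≤ 80) : VOK N 128 6 18 199 V18_6 :=
  VOK_step (c := 5) (L1 := 141) (L2 := 58) (h := 18048) (by omega) hN (by norm_num)
    (V18_5_ok hN) (V12_6_ok hN) rfl
theorem V18_7_ok {N : ℕ} (hN : N ≤ 80) : VOK N 128 7 18 248 V18_7 :=
  VOK_step (c := 6) (L1 := 199) (L2 := 49) (h := 25472) (by omega) hN (by norm_num)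
    (V18_6_ok hN) (V11_7_ok hN) rfl
theorem V18_8_ok {N : ℕ} (hN : N ≤ 80) : VOK N 128 8 18 288 V18_8 :=
  VOK_step (c := 7) (L1 := 248) (L2 := 40) (h := 31744) (by omega) hN (by norm_num)
    (V18_7_ok hN) (V10_8_ok hN) rfl
theorem V18_9_ok {N : ℕ} (hN : N ≤ 80) : VOK N 128 9 18 318 V18_9 :=
  VOK_step (c := 8) (L1 := 288) (L2 := 30) (h := 36864) (by omega) hN (by norm_num)
    (V18_8_ok hN) (V9_9_ok hN) rfl
theorem V18_10_ok {N : ℕ} (hN : N ≤ 80) : VOK N 128 10 18 340 V18_10 :=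
  VOK_step (c := 9) (L1 := 318) (L2 := 22) (h := 40704) (by omega) hN (by norm_num)
    (V18_9_ok hN) (VOK_up le_rfl (by norm_num) (V8_8_ok hN)) rfl
theorem V18_11_ok {N : ℕ} (hN : N ≤ 80) : VOK N 128 11 18 355 V18_11 :=
  VOK_step (c := 10) (L1 := 340) (L2 := 15) (h := 43520) (by omega) hN (by norm_num)
    (V18_10_ok hN) (VOK_up le_rfl (by norm_num) (V7_7_ok hN)) rfl
theorem V18_12_ok {N : ℕ} (hN : N ≤ 80) : VOK N 128 12 18 366 V18_12 :=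
  VOK_step (c := 11) (L1 := 355) (L2 := 11) (h := 45440) (by omega) hN (by norm_num)
    (V18_11_ok hN) (VOK_up le_rfl (by norm_num) (V6_6_ok hN)) rfl
theorem V18_13_ok {N : ℕ} (hN : N ≤ 80) : VOK N 128 13 18 373 V18_13 :=
  VOK_step (c := 12) (L1 := 366) (L2 := 7) (h := 46848) (by omega) hN (by norm_num)
    (V18_12_ok hN) (VOK_up le_rfl (by norm_num) (V5_5_ok hN)) rfl
theorem V18_14_ok {N : ℕ} (hN : N ≤ 80) : VOK N 128 14 18 378 V18_14 :=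
  VOK_step (c := 13) (L1 := 373) (L2 := 5) (h := 47744) (by omega) hN (by norm_num)
    (V18_13_ok hN) (VOK_up le_rfl (by norm_num) (V4_4_ok hN)) rfl
theorem V18_15_ok {N : ℕ} (hN : N ≤ 80) : VOK N 128 15 18 381 V18_15 :=
  VOK_step (c := 14) (L1 := 378) (L2 := 3) (h := 48384) (by omega) hN (by norm_num)
    (V18_14_ok hN) (VOK_up le_rfl (by norm_num) (V3_3_ok hN)) rfl
theorem V18_16_ok {N : ℕ} (hN : N ≤ 80) : VOK N 128 16 18 383 V18_16 :=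
  VOK_step (c := 15) (L1 := 381) (L2 := 2) (h := 48768) (by omega) hN (by norm_num)
    (V18_15_ok hN) (VOK_up le_rfl (by norm_num) (V2_2_ok hN)) rfl
theorem V18_17_ok {N : ℕ} (hN : N ≤ 80) : VOK N 128 17 18 384 V18_17 :=
  VOK_step (c := 16) (L1 := 383) (L2 := 1) (h := 49024) (by omega) hN (by norm_num)
    (V18_16_ok hN) (VOK_up le_rfl (by norm_num) (V1_1_ok hN)) rfl
theorem V18_18_ok {N : ℕ} (hN : N ≤ 80) : VOK N 128 18 18 385 V18_18 :=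
  VOK_step (c := 17) (L1 := 384) (L2 := 1) (h := 49152) (by omega) hN (by norm_num)
    (V18_17_ok hN) (VOK_up le_rfl (Nat.zero_le _) (VOK_zero N 128)) rfl
theorem V19_1_ok {N : ℕ} (hN : N ≤ 80) : VOK N 128 1 19 1 V19_1 :=
  VOK_step (c := 0) (L1 := 0) (L2 := 1) (h := 0) (by omega) hN (by norm_num)
    (VOK_zero' N 128 18) (V18_1_ok hN) rfl
theorem V19_2_ok {N : ℕ} (hN : N ≤ 80) : VOK N 128 2 19 10 V19_2 :=
  VOK_step (c := 1) (L1 := 1) (L2 := 9) (h := 128) (by omega) hN (by norm_num)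
    (V19_1_ok hN) (V17_2_ok hN) rfl
theorem V19_3_ok {N : ℕ} (hN : N ≤ 80) : VOK N 128 3 19 40 V19_3 :=
  VOK_step (c := 2) (L1 := 10) (L2 := 30) (h := 1280) (by omega) hN (by norm_num)
    (V19_2_ok hN) (V16_3_ok hN) rfl
theorem V19_4_ok {N : ℕ} (hN : N ≤ 80) : VOK N 128 4 19 94 V19_4 :=
  VOK_step (c := 3) (L1 := 40) (L2 := 54) (h := 5120) (by omega) hN (by norm_num)
    (V19_3_ok hN) (V15_4_ok hN) rfl
theorem V19_5_ok {N : ℕ} (hN : N ≤ 80) : VOK N 128 5 19 164 V19_5 :=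
  VOK_step (c := 4) (L1 := 94) (L2 := 70) (h := 12032) (by omega) hN (by norm_num)
    (V19_4_ok hN) (V14_5_ok hN) rfl
theorem V19_6_ok {N : ℕ} (hN : N ≤ 80) : VOK N 128 6 19 235 V19_6 :=
  VOK_step (c := 5) (L1 := 164) (L2 := 71) (h := 20992) (by omega) hN (by norm_num)
    (V19_5_ok hN) (V13_6_ok hN) rfl
theorem V19_7_ok {N : ℕ} (hN : N ≤ 80) : VOK N 128 7 19 300 V19_7 :=
  VOK_step (c := 6) (L1 := 235) (L2 := 65) (h := 30080) (by omega) hN (by norm_num)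
    (V19_6_ok hN) (V12_7_ok hN) rfl
theorem V19_8_ok {N : ℕ} (hN : N ≤ 80) : VOK N 128 8 19 352 V19_8 :=
  VOK_step (c := 7) (L1 := 300) (L2 := 52) (h := 38400) (by omega) hN (by norm_num)
    (V19_7_ok hN) (V11_8_ok hN) rfl
theorem V19_9_ok {N : ℕ} (hN : N ≤ 80) : VOK N 128 9 19 393 V19_9 :=
  VOK_step (c := 8) (L1 := 352) (L2 := 41) (h := 45056) (by omega) hN (by norm_num)
    (V19_8_ok hN) (V10_9_ok hN) rfl
theorem V19_10_ok {N : ℕ} (hN : N ≤ 80) : VOK N 128 10 19 423 V19_10 :=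
  VOK_step (c := 9) (L1 := 393) (L2 := 30) (h := 50304) (by omega) hN (by norm_num)
    (V19_9_ok hN) (VOK_up le_rfl (by norm_num) (V9_9_ok hN)) rfl
theorem V19_11_ok {N : ℕ} (hN : N ≤ 80) : VOK N 128 11 19 445 V19_11 :=
  VOK_step (c := 10) (L1 := 423) (L2 := 22) (h := 54144) (by omega) hN (by norm_num)
    (V19_10_ok hN) (VOK_up le_rfl (by norm_num) (V8_8_ok hN)) rfl
theorem V19_12_ok {N : ℕ} (hN : N ≤ 80) : VOK N 128 12 19 460 V19_12 :=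
  VOK_step (c := 11) (L1 := 445) (L2 := 15) (h := 56960) (by omega) hN (by norm_num)
    (V19_11_ok hN) (VOK_up le_rfl (by norm_num) (V7_7_ok hN)) rfl
theorem V19_13_ok {N : ℕ} (hN : N ≤ 80) : VOK N 128 13 19 471 V19_13 :=
  VOK_step (c := 12) (L1 := 460) (L2 := 11) (h := 58880) (by omega) hN (by norm_num)
    (V19_12_ok hN) (VOK_up le_rfl (by norm_num) (V6_6_ok hN)) rfl
theorem V19_14_ok {N : ℕ} (hN : N ≤ 80) : VOK N 128 14 19 478 V19_14 :=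
  VOK_step (c := 13) (L1 := 471) (L2 := 7) (h := 60288) (by omega) hN (by norm_num)
    (V19_13_ok hN) (VOK_up le_rfl (by norm_num) (V5_5_ok hN)) rfl
theorem V19_15_ok {N : ℕ} (hN : N ≤ 80) : VOK N 128 15 19 483 V19_15 :=
  VOK_step (c := 14) (L1 := 478) (L2 := 5) (h := 61184) (by omega) hN (by norm_num)
    (V19_14_ok hN) (VOK_up le_rfl (by norm_num) (V4_4_ok hN)) rfl
theorem V19_16_ok {N : ℕ} (hN : N ≤ 80) : VOK N 128 16 19 486 V19_16 :=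
  VOK_step (c := 15) (L1 := 483) (L2 := 3) (h := 61824) (by omega) hN (by norm_num)
    (V19_15_ok hN) (VOK_up le_rfl (by norm_num) (V3_3_ok hN)) rfl
theorem V19_17_ok {N : ℕ} (hN : N ≤ 80) : VOK N 128 17 19 488 V19_17 :=
  VOK_step (c := 16) (L1 := 486) (L2 := 2) (h := 62208) (by omega) hN (by norm_num)
    (V19_16_ok hN) (VOK_up le_rfl (by norm_num) (V2_2_ok hN)) rfl
theorem V19_18_ok {N : ℕ} (hN : N ≤ 80) : VOK N 128 18 19 489 V19_18 :=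
  VOK_step (c := 17) (L1 := 488) (L2 := 1) (h := 62464) (by omega) hN (by norm_num)
    (V19_17_ok hN) (VOK_up le_rfl (by norm_num) (V1_1_ok hN)) rfl
theorem V19_19_ok {N : ℕ} (hN : N ≤ 80) : VOK N 128 19 19 490 V19_19 :=
  VOK_step (c := 18) (L1 := 489) (L2 := 1) (h := 62592) (by omega) hN (by norm_num)
    (V19_18_ok hN) (VOK_up le_rfl (Nat.zero_le _) (VOK_zero N 128)) rfl
theorem V20_1_ok {N : ℕ} (hN : N ≤ 80) : VOK N 128 1 20 1 V20_1 :=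
  VOK_step (c := 0) (L1 := 0) (L2 := 1) (h := 0) (by omega) hN (by norm_num)
    (VOK_zero' N 128 19) (V19_1_ok hN) rfl
theorem V20_2_ok {N : ℕ} (hN : N ≤ 80) : VOK N 128 2 20 11 V20_2 :=
  VOK_step (c := 1) (L1 := 1) (L2 := 10) (h := 128) (by omega) hN (by norm_num)
    (V20_1_ok hN) (V18_2_ok hN) rfl
theorem V20_3_ok {N : ℕ} (hN : N ≤ 80) : VOK N 128 3 20 44 V20_3 :=
  VOK_step (c := 2) (L1 := 11) (L2 := 33) (h := 1408) (by omega) hN (by norm_num)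
    (V20_2_ok hN) (V17_3_ok hN) rfl
theorem V20_4_ok {N : ℕ} (hN : N ≤ 80) : VOK N 128 4 20 108 V20_4 :=
  VOK_step (c := 3) (L1 := 44) (L2 := 64) (h := 5632) (by omega) hN (by norm_num)
    (V20_3_ok hN) (V16_4_ok hN) rfl
theorem V20_5_ok {N : ℕ} (hN : N ≤ 80) : VOK N 128 5 20 192 V20_5 :=
  VOK_step (c := 4) (L1 := 108) (L2 := 84) (h := 13824) (by omega) hN (by norm_num)
    (V20_4_ok hN) (V15_5_ok hN) rfl
theorem V20_6_ok {N : ℕ} (hN : N ≤ 80) : VOK N 128 6 20 282 V20_6 :=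
  VOK_step (c := 5) (L1 := 192) (L2 := 90) (h := 24576) (by omega) hN (by norm_num)
    (V20_5_ok hN) (V14_6_ok hN) rfl
theorem V20_7_ok {N : ℕ} (hN : N ≤ 80) : VOK N 128 7 20 364 V20_7 :=
  VOK_step (c := 6) (L1 := 282) (L2 := 82) (h := 36096) (by omega) hN (by norm_num)
    (V20_6_ok hN) (V13_7_ok hN) rfl
theorem V20_8_ok {N : ℕ} (hN : N ≤ 80) : VOK N 128 8 20 434 V20_8 :=
  VOK_step (c := 7) (L1 := 364) (L2 := 70) (h := 46592) (by omega) hN (by norm_num)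
    (V20_7_ok hN) (V12_8_ok hN) rfl
theorem V20_9_ok {N : ℕ} (hN : N ≤ 80) : VOK N 128 9 20 488 V20_9 :=
  VOK_step (c := 8) (L1 := 434) (L2 := 54) (h := 55552) (by omega) hN (by norm_num)
    (V20_8_ok hN) (V11_9_ok hN) rfl
theorem V20_10_ok {N : ℕ} (hN : N ≤ 80) : VOK N 128 10 20 530 V20_10 :=
  VOK_step (c := 9) (L1 := 488) (L2 := 42) (h := 62464) (by omega) hN (by norm_num)
    (V20_9_ok hN) (V10_10_ok hN) rfl
theorem V20_11_ok {N : ℕ} (hN : N ≤ 80) : VOK N 128 11 20 560 V20_11 :=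
  VOK_step (c := 10) (L1 := 530) (L2 := 30) (h := 67840) (by omega) hN (by norm_num)
    (V20_10_ok hN) (VOK_up le_rfl (by norm_num) (V9_9_ok hN)) rfl
theorem V20_12_ok {N : ℕ} (hN : N ≤ 80) : VOK N 128 12 20 582 V20_12 :=
  VOK_step (c := 11) (L1 := 560) (L2 := 22) (h := 71680) (by omega) hN (by norm_num)
    (V20_11_ok hN) (VOK_up le_rfl (by norm_num) (V8_8_ok hN)) rfl
theorem V20_13_ok {N : ℕ} (hN : N ≤ 80) : VOK N 128 13 20 597 V20_13 :=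
  VOK_step (c := 12) (L1 := 582) (L2 := 15) (h := 74496) (by omega) hN (by norm_num)
    (V20_12_ok hN) (VOK_up le_rfl (by norm_num) (V7_7_ok hN)) rfl
theorem V20_14_ok {N : ℕ} (hN : N ≤ 80) : VOK N 128 14 20 608 V20_14 :=
  VOK_step (c := 13) (L1 := 597) (L2 := 11) (h := 76416) (by omega) hN (by norm_num)
    (V20_13_ok hN) (VOK_up le_rfl (by norm_num) (V6_6_ok hN)) rfl
theorem V20_15_ok {N : ℕ} (hN : N ≤ 80) : VOK N 128 15 20 615 V20_15 :=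
  VOK_step (c := 14) (L1 := 608) (L2 := 7) (h := 77824) (by omega) hN (by norm_num)
    (V20_14_ok hN) (VOK_up le_rfl (by norm_num) (V5_5_ok hN)) rfl
theorem V20_16_ok {N : ℕ} (hN : N ≤ 80) : VOK N 128 16 20 620 V20_16 :=
  VOK_step (c := 15) (L1 := 615) (L2 := 5) (h := 78720) (by omega) hN (by norm_num)
    (V20_15_ok hN) (VOK_up le_rfl (by norm_num) (V4_4_ok hN)) rfl
theorem V20_17_ok {N : ℕ} (hN : N ≤ 80) : VOK N 128 17 20 623 V20_17 :=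
  VOK_step (c := 16) (L1 := 620) (L2 := 3) (h := 79360) (by omega) hN (by norm_num)
    (V20_16_ok hN) (VOK_up le_rfl (by norm_num) (V3_3_ok hN)) rfl
theorem V20_18_ok {N : ℕ} (hN : N ≤ 80) : VOK N 128 18 20 625 V20_18 :=
  VOK_step (c := 17) (L1 := 623) (L2 := 2) (h := 79744) (by omega) hN (by norm_num)
    (V20_17_ok hN) (VOK_up le_rfl (by norm_num) (V2_2_ok hN)) rfl
theorem V20_19_ok {N : ℕ} (hN : N ≤ 80) : VOK N 128 19 20 626 V20_19 :=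
  VOK_step (c := 18) (L1 := 625) (L2 := 1) (h := 80000) (by omega) hN (by norm_num)
    (V20_18_ok hN) (VOK_up le_rfl (by norm_num) (V1_1_ok hN)) rfl
theorem V20_20_ok {N : ℕ} (hN : N ≤ 80) : VOK N 128 20 20 627 V20_20 :=
  VOK_step (c := 19) (L1 := 626) (L2 := 1) (h := 80128) (by omega) hN (by norm_num)
    (V20_19_ok hN) (VOK_up le_rfl (Nat.zero_le _) (VOK_zero N 128)) rfl
theorem V21_1_ok {N : ℕ} (hN : N ≤ 80) : VOK N 128 1 21 1 V21_1 :=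
  VOK_step (c := 0) (L1 := 0) (L2 := 1) (h := 0) (by omega) hN (by norm_num)
    (VOK_zero' N 128 20) (V20_1_ok hN) rfl
theorem V21_2_ok {N : ℕ} (hN : N ≤ 80) : VOK N 128 2 21 11 V21_2 :=
  VOK_step (c := 1) (L1 := 1) (L2 := 10) (h := 128) (by omega) hN (by norm_num)
    (V21_1_ok hN) (V19_2_ok hN) rfl
theorem V21_3_ok {N : ℕ} (hN : N ≤ 80) : VOK N 128 3 21 48 V21_3 :=
  VOK_step (c := 2) (L1 := 11) (L2 := 37) (h := 1408) (by omega) hN (by norm_num)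
    (V21_2_ok hN) (V18_3_ok hN) rfl
theorem V21_4_ok {N : ℕ} (hN : N ≤ 80) : VOK N 128 4 21 120 V21_4 :=
  VOK_step (c := 3) (L1 := 48) (L2 := 72) (h := 6144) (by omega) hN (by norm_num)
    (V21_3_ok hN) (V17_4_ok hN) rfl
theorem V21_5_ok {N : ℕ} (hN : N ≤ 80) : VOK N 128 5 21 221 V21_5 :=
  VOK_step (c := 4) (L1 := 120) (L2 := 101) (h := 15360) (by omega) hN (by norm_num)
    (V21_4_ok hN) (V16_5_ok hN) rfl
theorem V21_6_ok {N : ℕ} (hN : N ≤ 80) : VOK N 128 6 21 331 V21_6 :=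
  VOK_step (c := 5) (L1 := 221) (L2 := 110) (h := 28288) (by omega) hN (by norm_num)
    (V21_5_ok hN) (V15_6_ok hN) rfl
theorem V21_7_ok {N : ℕ} (hN : N ≤ 80) : VOK N 128 7 21 436 V21_7 :=
  VOK_step (c := 6) (L1 := 331) (L2 := 105) (h := 42368) (by omega) hN (by norm_num)
    (V21_6_ok hN) (V14_7_ok hN) rfl
theorem V21_8_ok {N : ℕ} (hN : N ≤ 80) : VOK N 128 8 21 525 V21_8 :=
  VOK_step (c := 7) (L1 := 436) (L2 := 89) (h := 55808) (by omega) hN (by norm_num)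
    (V21_7_ok hN) (V13_8_ok hN) rfl
theorem V21_9_ok {N : ℕ} (hN : N ≤ 80) : VOK N 128 9 21 598 V21_9 :=
  VOK_step (c := 8) (L1 := 525) (L2 := 73) (h := 67200) (by omega) hN (by norm_num)
    (V21_8_ok hN) (V12_9_ok hN) rfl
theorem V21_10_ok {N : ℕ} (hN : N ≤ 80) : VOK N 128 10 21 653 V21_10 :=
  VOK_step (c := 9) (L1 := 598) (L2 := 55) (h := 76544) (by omega) hN (by norm_num)
    (V21_9_ok hN) (V11_10_ok hN) rfl
theorem V21_11_ok {N : ℕ} (hN : N ≤ 80) : VOK N 128 11 21 695 V21_11 :=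
  VOK_step (c := 10) (L1 := 653) (L2 := 42) (h := 83584) (by omega) hN (by norm_num)
    (V21_10_ok hN) (VOK_up le_rfl (by norm_num) (V10_10_ok hN)) rfl
theorem V21_12_ok {N : ℕ} (hN : N ≤ 80) : VOK N 128 12 21 725 V21_12 :=
  VOK_step (c := 11) (L1 := 695) (L2 := 30) (h := 88960) (by omega) hN (by norm_num)
    (V21_11_ok hN) (VOK_up le_rfl (by norm_num) (V9_9_ok hN)) rfl
theorem V21_13_ok {N : ℕ} (hN : N ≤ 80) : VOK N 128 13 21 747 V21_13 :=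
  VOK_step (c := 12) (L1 := 725) (L2 := 22) (h := 92800) (by omega) hN (by norm_num)
    (V21_12_ok hN) (VOK_up le_rfl (by norm_num) (V8_8_ok hN)) rfl
theorem V21_14_ok {N : ℕ} (hN : N ≤ 80) : VOK N 128 14 21 762 V21_14 :=
  VOK_step (c := 13) (L1 := 747) (L2 := 15) (h := 95616) (by omega) hN (by norm_num)
    (V21_13_ok hN) (VOK_up le_rfl (by norm_num) (V7_7_ok hN)) rfl
theorem V21_15_ok {N : ℕ} (hN : N ≤ 80) : VOK N 128 15 21 773 V21_15 :=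
  VOK_step (c := 14) (L1 := 762) (L2 := 11) (h := 97536) (by omega) hN (by norm_num)
    (V21_14_ok hN) (VOK_up le_rfl (by norm_num) (V6_6_ok hN)) rfl
theorem V21_16_ok {N : ℕ} (hN : N ≤ 80) : VOK N 128 16 21 780 V21_16 :=
  VOK_step (c := 15) (L1 := 773) (L2 := 7) (h := 98944) (by omega) hN (by norm_num)
    (V21_15_ok hN) (VOK_up le_rfl (by norm_num) (V5_5_ok hN)) rfl
theorem V21_17_ok {N : ℕ} (hN : N ≤ 80) : VOK N 128 17 21 785 V21_17 :=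
  VOK_step (c := 16) (L1 := 780) (L2 := 5) (h := 99840) (by omega) hN (by norm_num)
    (V21_16_ok hN) (VOK_up le_rfl (by norm_num) (V4_4_ok hN)) rfl
theorem V21_18_ok {N : ℕ} (hN : N ≤ 80) : VOK N 128 18 21 788 V21_18 :=
  VOK_step (c := 17) (L1 := 785) (L2 := 3) (h := 100480) (by omega) hN (by norm_num)
    (V21_17_ok hN) (VOK_up le_rfl (by norm_num) (V3_3_ok hN)) rfl
theorem V21_19_ok {N : ℕ} (hN : N ≤ 80) : VOK N 128 19 21 790 V21_19 :=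
  VOK_step (c := 18) (L1 := 788) (L2 := 2) (h := 100864) (by omega) hN (by norm_num)
    (V21_18_ok hN) (VOK_up le_rfl (by norm_num) (V2_2_ok hN)) rfl
theorem V21_20_ok {N : ℕ} (hN : N ≤ 80) : VOK N 128 20 21 791 V21_20 :=
  VOK_step (c := 19) (L1 := 790) (L2 := 1) (h := 101120) (by omega) hN (by norm_num)
    (V21_19_ok hN) (VOK_up le_rfl (by norm_num) (V1_1_ok hN)) rfl
theorem V21_21_ok {N : ℕ} (hN : N ≤ 80) : VOK N 128 21 21 792 V21_21 :=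
  VOK_step (c := 20) (L1 := 791) (L2 := 1) (h := 101248) (by omega) hN (by norm_num)
    (V21_20_ok hN) (VOK_up le_rfl (Nat.zero_le _) (VOK_zero N 128)) rfl
theorem V22_1_ok {N : ℕ} (hN : N ≤ 80) : VOK N 128 1 22 1 V22_1 :=
  VOK_step (c := 0) (L1 := 0) (L2 := 1) (h := 0) (by omega) hN (by norm_num)
    (VOK_zero' N 128 21) (V21_1_ok hN) rfl
theorem V22_2_ok {N : ℕ} (hN : N ≤ 80) : VOK N 128 2 22 12 V22_2 :=
  VOK_step (c := 1) (L1 := 1) (L2 := 11) (h := 128) (by omega) hN (by norm_num)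
    (V22_1_ok hN) (V20_2_ok hN) rfl
theorem V22_3_ok {N : ℕ} (hN : N ≤ 80) : VOK N 128 3 22 52 V22_3 :=
  VOK_step (c := 2) (L1 := 12) (L2 := 40) (h := 1536) (by omega) hN (by norm_num)
    (V22_2_ok hN) (V19_3_ok hN) rfl
theorem V22_4_ok {N : ℕ} (hN : N ≤ 80) : VOK N 128 4 22 136 V22_4 :=
  VOK_step (c := 3) (L1 := 52) (L2 := 84) (h := 6656) (by omega) hN (by norm_num)
    (V22_3_ok hN) (V18_4_ok hN) rfl
theorem V22_5_ok {N : ℕ} (hN : N ≤ 80) : VOK N 128 5 22 255 V22_5 :=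
  VOK_step (c := 4) (L1 := 136) (L2 := 119) (h := 17408) (by omega) hN (by norm_num)
    (V22_4_ok hN) (V17_5_ok hN) rfl
theorem V22_6_ok {N : ℕ} (hN : N ≤ 80) : VOK N 128 6 22 391 V22_6 :=
  VOK_step (c := 5) (L1 := 255) (L2 := 136) (h := 32640) (by omega) hN (by norm_num)
    (V22_5_ok hN) (V16_6_ok hN) rfl
theorem V22_7_ok {N : ℕ} (hN : N ≤ 80) : VOK N 128 7 22 522 V22_7 :=
  VOK_step (c := 6) (L1 := 391) (L2 := 131) (h := 50048) (by omega) hN (by norm_num)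
    (V22_6_ok hN) (V15_7_ok hN) rfl
theorem V22_8_ok {N : ℕ} (hN : N ≤ 80) : VOK N 128 8 22 638 V22_8 :=
  VOK_step (c := 7) (L1 := 522) (L2 := 116) (h := 66816) (by omega) hN (by norm_num)
    (V22_7_ok hN) (V14_8_ok hN) rfl
theorem V22_9_ok {N : ℕ} (hN : N ≤ 80) : VOK N 128 9 22 732 V22_9 :=
  VOK_step (c := 8) (L1 := 638) (L2 := 94) (h := 81664) (by omega) hN (by norm_num)
    (V22_8_ok hN) (V13_9_ok hN) rfl
theorem V22_10_ok {N : ℕ} (hN : N ≤ 80) : VOK N 128 10 22 807 V22_10 :=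
  VOK_step (c := 9) (L1 := 732) (L2 := 75) (h := 93696) (by omega) hN (by norm_num)
    (V22_9_ok hN) (V12_10_ok hN) rfl
theorem V22_11_ok {N : ℕ} (hN : N ≤ 80) : VOK N 128 11 22 863 V22_11 :=
  VOK_step (c := 10) (L1 := 807) (L2 := 56) (h := 103296) (by omega) hN (by norm_num)
    (V22_10_ok hN) (V11_11_ok hN) rfl
theorem V22_12_ok {N : ℕ} (hN : N ≤ 80) : VOK N 128 12 22 905 V22_12 :=
  VOK_step (c := 11) (L1 := 863) (L2 := 42) (h := 110464) (by omega) hN (by norm_num)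
    (V22_11_ok hN) (VOK_up le_rfl (by norm_num) (V10_10_ok hN)) rfl
theorem V22_13_ok {N : ℕ} (hN : N ≤ 80) : VOK N 128 13 22 935 V22_13 :=
  VOK_step (c := 12) (L1 := 905) (L2 := 30) (h := 115840) (by omega) hN (by norm_num)
    (V22_12_ok hN) (VOK_up le_rfl (by norm_num) (V9_9_ok hN)) rfl
theorem V22_14_ok {N : ℕ} (hN : N ≤ 80) : VOK N 128 14 22 957 V22_14 :=
  VOK_step (c := 13) (L1 := 935) (L2 := 22) (h := 119680) (by omega) hN (by norm_num)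
    (V22_13_ok hN) (VOK_up le_rfl (by norm_num) (V8_8_ok hN)) rfl
theorem V22_15_ok {N : ℕ} (hN : N ≤ 80) : VOK N 128 15 22 972 V22_15 :=
  VOK_step (c := 14) (L1 := 957) (L2 := 15) (h := 122496) (by omega) hN (by norm_num)
    (V22_14_ok hN) (VOK_up le_rfl (by norm_num) (V7_7_ok hN)) rfl
theorem V22_16_ok {N : ℕ} (hN : N ≤ 80) : VOK N 128 16 22 983 V22_16 :=
  VOK_step (c := 15) (L1 := 972) (L2 := 11) (h := 124416) (by omega) hN (by norm_num)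
    (V22_15_ok hN) (VOK_up le_rfl (by norm_num) (V6_6_ok hN)) rfl
theorem V22_17_ok {N : ℕ} (hN : N ≤ 80) : VOK N 128 17 22 990 V22_17 :=
  VOK_step (c := 16) (L1 := 983) (L2 := 7) (h := 125824) (by omega) hN (by norm_num)
    (V22_16_ok hN) (VOK_up le_rfl (by norm_num) (V5_5_ok hN)) rfl
theorem V22_18_ok {N : ℕ} (hN : N ≤ 80) : VOK N 128 18 22 995 V22_18 :=
  VOK_step (c := 17) (L1 := 990) (L2 := 5) (h := 126720) (by omega) hN (by norm_num)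
    (V22_17_ok hN) (VOK_up le_rfl (by norm_num) (V4_4_ok hN)) rfl
theorem V22_19_ok {N : ℕ} (hN : N ≤ 80) : VOK N 128 19 22 998 V22_19 :=
  VOK_step (c := 18) (L1 := 995) (L2 := 3) (h := 127360) (by omega) hN (by norm_num)
    (V22_18_ok hN) (VOK_up le_rfl (by norm_num) (V3_3_ok hN)) rfl
theorem V22_20_ok {N : ℕ} (hN : N ≤ 80) : VOK N 128 20 22 1000 V22_20 :=
  VOK_step (c := 19) (L1 := 998) (L2 := 2) (h := 127744) (by omega) hN (by norm_num)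
    (V22_19_ok hN) (VOK_up le_rfl (by norm_num) (V2_2_ok hN)) rfl
theorem V22_21_ok {N : ℕ} (hN : N ≤ 80) : VOK N 128 21 22 1001 V22_21 :=
  VOK_step (c := 20) (L1 := 1000) (L2 := 1) (h := 128000) (by omega) hN (by norm_num)
    (V22_20_ok hN) (VOK_up le_rfl (by norm_num) (V1_1_ok hN)) rfl
theorem V22_22_ok {N : ℕ} (hN : N ≤ 80) : VOK N 128 22 22 1002 V22_22 :=
  VOK_step (c := 21) (L1 := 1001) (L2 := 1) (h := 128128) (by omega) hN (by norm_num)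
    (V22_21_ok hN) (VOK_up le_rfl (Nat.zero_le _) (VOK_zero N 128)) rfl
theorem V23_1_ok {N : ℕ} (hN : N ≤ 80) : VOK N 128 1 23 1 V23_1 :=
  VOK_step (c := 0) (L1 := 0) (L2 := 1) (h := 0) (by omega) hN (by norm_num)
    (VOK_zero' N 128 22) (V22_1_ok hN) rfl
theorem V23_2_ok {N : ℕ} (hN : N ≤ 80) : VOK N 128 2 23 12 V23_2 :=
  VOK_step (c := 1) (L1 := 1) (L2 := 11) (h := 128) (by omega) hN (by norm_num)
    (V23_1_ok hN) (V21_2_ok hN) rfl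
theorem V23_3_ok {N : ℕ} (hN : N ≤ 80) : VOK N 128 3 23 56 V23_3 :=
  VOK_step (c := 2) (L1 := 12) (L2 := 44) (h := 1536) (by omega) hN (by norm_num)
    (V23_2_ok hN) (V20_3_ok hN) rfl
theorem V23_4_ok {N : ℕ} (hN : N ≤ 80) : VOK N 128 4 23 150 V23_4 :=
  VOK_step (c := 3) (L1 := 56) (L2 := 94) (h := 7168) (by omega) hN (by norm_num)
    (V23_3_ok hN) (V19_4_ok hN) rfl
theorem V23_5_ok {N : ℕ} (hN : N ≤ 80) : VOK N 128 5 23 291 V23_5 :=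
  VOK_step (c := 4) (L1 := 150) (L2 := 141) (h := 19200) (by omega) hN (by norm_num)
    (V23_4_ok hN) (V18_5_ok hN) rfl
theorem V23_6_ok {N : ℕ} (hN : N ≤ 80) : VOK N 128 6 23 454 V23_6 :=
  VOK_step (c := 5) (L1 := 291) (L2 := 163) (h := 37248) (by omega) hN (by norm_num)
    (V23_5_ok hN) (V17_6_ok hN) rfl
theorem V23_7_ok {N : ℕ} (hN : N ≤ 80) : VOK N 128 7 23 618 V23_7 :=
  VOK_step (c := 6) (L1 := 454) (L2 := 164) (h := 58112) (by omega) hN (by norm_num)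
    (V23_6_ok hN) (V16_7_ok hN) rfl
theorem V23_8_ok {N : ℕ} (hN : N ≤ 80) : VOK N 128 8 23 764 V23_8 :=
  VOK_step (c := 7) (L1 := 618) (L2 := 146) (h := 79104) (by omega) hN (by norm_num)
    (V23_7_ok hN) (V15_8_ok hN) rfl
theorem V23_9_ok {N : ℕ} (hN : N ≤ 80) : VOK N 128 9 23 887 V23_9 :=
  VOK_step (c := 8) (L1 := 764) (L2 := 123) (h := 97792) (by omega) hN (by norm_num)
    (V23_8_ok hN) (V14_9_ok hN) rfl
theorem V23_10_ok {N : ℕ} (hN : N ≤ 80) : VOK N 128 10 23 984 V23_10 :=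
  VOK_step (c := 9) (L1 := 887) (L2 := 97) (h := 113536) (by omega) hN (by norm_num)
    (V23_9_ok hN) (V13_10_ok hN) rfl
theorem V23_11_ok {N : ℕ} (hN : N ≤ 80) : VOK N 128 11 23 1060 V23_11 :=
  VOK_step (c := 10) (L1 := 984) (L2 := 76) (h := 125952) (by omega) hN (by norm_num)
    (V23_10_ok hN) (V12_11_ok hN) rfl
theorem V23_12_ok {N : ℕ} (hN : N ≤ 80) : VOK N 128 12 23 1116 V23_12 :=
  VOK_step (c := 11) (L1 := 1060) (L2 := 56) (h := 135680) (by omega) hN (by norm_num)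
    (V23_11_ok hN) (VOK_up le_rfl (by norm_num) (V11_11_ok hN)) rfl
theorem V23_13_ok {N : ℕ} (hN : N ≤ 80) : VOK N 128 13 23 1158 V23_13 :=
  VOK_step (c := 12) (L1 := 1116) (L2 := 42) (h := 142848) (by omega) hN (by norm_num)
    (V23_12_ok hN) (VOK_up le_rfl (by norm_num) (V10_10_ok hN)) rfl
theorem V23_14_ok {N : ℕ} (hN : N ≤ 80) : VOK N 128 14 23 1188 V23_14 :=
  VOK_step (c := 13) (L1 := 1158) (L2 := 30) (h := 148224) (by omega) hN (by norm_num)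
    (V23_13_ok hN) (VOK_up le_rfl (by norm_num) (V9_9_ok hN)) rfl
theorem V23_15_ok {N : ℕ} (hN : N ≤ 80) : VOK N 128 15 23 1210 V23_15 :=
  VOK_step (c := 14) (L1 := 1188) (L2 := 22) (h := 152064) (by omega) hN (by norm_num)
    (V23_14_ok hN) (VOK_up le_rfl (by norm_num) (V8_8_ok hN)) rfl
theorem V23_16_ok {N : ℕ} (hN : N ≤ 80) : VOK N 128 16 23 1225 V23_16 :=
  VOK_step (c := 15) (L1 := 1210) (L2 := 15) (h := 154880) (by omega) hN (by norm_num)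
    (V23_15_ok hN) (VOK_up le_rfl (by norm_num) (V7_7_ok hN)) rfl
theorem V23_17_ok {N : ℕ} (hN : N ≤ 80) : VOK N 128 17 23 1236 V23_17 :=
  VOK_step (c := 16) (L1 := 1225) (L2 := 11) (h := 156800) (by omega) hN (by norm_num)
    (V23_16_ok hN) (VOK_up le_rfl (by norm_num) (V6_6_ok hN)) rfl
theorem V23_18_ok {N : ℕ} (hN : N ≤ 80) : VOK N 128 18 23 1243 V23_18 :=
  VOK_step (c := 17) (L1 := 1236) (L2 := 7) (h := 158208) (by omega) hN (by norm_num)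
    (V23_17_ok hN) (VOK_up le_rfl (by norm_num) (V5_5_ok hN)) rfl
theorem V23_19_ok {N : ℕ} (hN : N ≤ 80) : VOK N 128 19 23 1248 V23_19 :=
  VOK_step (c := 18) (L1 := 1243) (L2 := 5) (h := 159104) (by omega) hN (by norm_num)
    (V23_18_ok hN) (VOK_up le_rfl (by norm_num) (V4_4_ok hN)) rfl
theorem V23_20_ok {N : ℕ} (hN : N ≤ 80) : VOK N 128 20 23 1251 V23_20 :=
  VOK_step (c := 19) (L1 := 1248) (L2 := 3) (h := 159744) (by omega) hN (by norm_num)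
    (V23_19_ok hN) (VOK_up le_rfl (by norm_num) (V3_3_ok hN)) rfl
theorem V23_21_ok {N : ℕ} (hN : N ≤ 80) : VOK N 128 21 23 1253 V23_21 :=
  VOK_step (c := 20) (L1 := 1251) (L2 := 2) (h := 160128) (by omega) hN (by norm_num)
    (V23_20_ok hN) (VOK_up le_rfl (by norm_num) (V2_2_ok hN)) rfl
theorem V23_22_ok {N : ℕ} (hN : N ≤ 80) : VOK N 128 22 23 1254 V23_22 :=
  VOK_step (c := 21) (L1 := 1253) (L2 := 1) (h := 160384) (by omega) hN (by norm_num)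
    (V23_21_ok hN) (VOK_up le_rfl (by norm_num) (V1_1_ok hN)) rfl
theorem V23_23_ok {N : ℕ} (hN : N ≤ 80) : VOK N 128 23 23 1255 V23_23 :=
  VOK_step (c := 22) (L1 := 1254) (L2 := 1) (h := 160512) (by omega) hN (by norm_num)
    (V23_22_ok hN) (VOK_up le_rfl (Nat.zero_le _) (VOK_zero N 128)) rfl

end Pool.MP322F
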