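import Pool.Agent.Lib.MP_322c5f_alF.FB34
import Pool.Agent.Lib.MP_322c5f_alF.FB27

/-! The tables of the engine, wide slots: correctness. -/

set_option autoImplicit false

namespace Pool.MP322F

open Pool.MP322

theorem U1_1_ok {N : ℕ} (hN : N ≤ 80) : VOK N 168 1 1 1 U1_1 :=
  VOK_step (c := 0) (L1 := 0) (L2 := 1) (h := 0) (by omega) hN (by norm_num)
    (VOK_zero' N 168 0) (VOK_up le_rfl (Nat.zero_le _) (VOK_zero N 168)) rfl
theorem U2_1_ok {N : ℕ} (hN : N ≤ 80) : VOK N 168 1 2 1 U2_1 :=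
  VOK_step (c := 0) (L1 := 0) (L2 := 1) (h := 0) (by omega) hN (by norm_num)
    (VOK_zero' N 168 1) (U1_1_ok hN) rfl
theorem U2_2_ok {N : ℕ} (hN : N ≤ 80) : VOK N 168 2 2 2 U2_2 :=
  VOK_step (c := 1) (L1 := 1) (L2 := 1) (h := 168) (by omega) hN (by norm_num)
    (U2_1_ok hN) (VOK_up le_rfl (Nat.zero_le _) (VOK_zero N 168)) rfl
theorem U3_1_ok {N : ℕ} (hN : N ≤ 80) : VOK N 168 1 3 1 U3_1 :=
  VOK_step (c := 0) (L1 := 0) (L2 := 1) (h := 0) (by omega) hN (by norm_num)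
    (VOK_zero' N 168 2) (U2_1_ok hN) rfl
theorem U3_2_ok {N : ℕ} (hN : N ≤ 80) : VOK N 168 2 3 2 U3_2 :=
  VOK_step (c := 1) (L1 := 1) (L2 := 1) (h := 168) (by omega) hN (by norm_num)
    (U3_1_ok hN) (VOK_up le_rfl (by norm_num) (U1_1_ok hN)) rfl
theorem U3_3_ok {N : ℕ} (hN : N ≤ 80) : VOK N 168 3 3 3 U3_3 :=
  VOK_step (c := 2) (L1 := 2) (L2 := 1) (h := 336) (by omega) hN (by norm_num)
    (U3_2_ok hN) (VOK_up le_rfl (Nat.zero_le _) (VOK_zero N 168)) rfl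
theorem U4_1_ok {N : ℕ} (hN : N ≤ 80) : VOK N 168 1 4 1 U4_1 :=
  VOK_step (c := 0) (L1 := 0) (L2 := 1) (h := 0) (by omega) hN (by norm_num)
    (VOK_zero' N 168 3) (U3_1_ok hN) rfl
theorem U4_2_ok {N : ℕ} (hN : N ≤ 80) : VOK N 168 2 4 3 U4_2 :=
  VOK_step (c := 1) (L1 := 1) (L2 := 2) (h := 168) (by omega) hN (by norm_num)
    (U4_1_ok hN) (U2_2_ok hN) rfl
theorem U4_3_ok {N : ℕ} (hN : N ≤ 80) : VOK N 168 3 4 4 U4_3 :=
  VOK_step (c := 2) (L1 := 3) (L2 := 1) (h := 504) (by omega) hN (by norm_num)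
    (U4_2_ok hN) (VOK_up le_rfl (by norm_num) (U1_1_ok hN)) rfl
theorem U4_4_ok {N : ℕ} (hN : N ≤ 80) : VOK N 168 4 4 5 U4_4 :=
  VOK_step (c := 3) (L1 := 4) (L2 := 1) (h := 672) (by omega) hN (by norm_num)
    (U4_3_ok hN) (VOK_up le_rfl (Nat.zero_le _) (VOK_zero N 168)) rfl
theorem U5_1_ok {N : ℕ} (hN : N ≤ 80) : VOK N 168 1 5 1 U5_1 :=
  VOK_step (c := 0) (L1 := 0) (L2 := 1) (h := 0) (by omega) hN (by norm_num)
    (VOK_zero' N 168 4) (U4_1_ok hN) rfl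
theorem U5_2_ok {N : ℕ} (hN : N ≤ 80) : VOK N 168 2 5 3 U5_2 :=
  VOK_step (c := 1) (L1 := 1) (L2 := 2) (h := 168) (by omega) hN (by norm_num)
    (U5_1_ok hN) (U3_2_ok hN) rfl
theorem U5_3_ok {N : ℕ} (hN : N ≤ 80) : VOK N 168 3 5 5 U5_3 :=
  VOK_step (c := 2) (L1 := 3) (L2 := 2) (h := 504) (by omega) hN (by norm_num)
    (U5_2_ok hN) (VOK_up le_rfl (by norm_num) (U2_2_ok hN)) rfl
theorem U5_4_ok {N : ℕ} (hN : N ≤ 80) : VOK N 168 4 5 6 U5_4 :=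
  VOK_step (c := 3) (L1 := 5) (L2 := 1) (h := 840) (by omega) hN (by norm_num)
    (U5_3_ok hN) (VOK_up le_rfl (by norm_num) (U1_1_ok hN)) rfl
theorem U5_5_ok {N : ℕ} (hN : N ≤ 80) : VOK N 168 5 5 7 U5_5 :=
  VOK_step (c := 4) (L1 := 6) (L2 := 1) (h := 1008) (by omega) hN (by norm_num)
    (U5_4_ok hN) (VOK_up le_rfl (Nat.zero_le _) (VOK_zero N 168)) rfl
theorem U6_1_ok {N : ℕ} (hN : N ≤ 80) : VOK N 168 1 6 1 U6_1 :=
  VOK_step (c := 0) (L1 := 0) (L2 := 1) (h := 0) (by omega) hN (by norm_num)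
    (VOK_zero' N 168 5) (U5_1_ok hN) rfl
theorem U6_2_ok {N : ℕ} (hN : N ≤ 80) : VOK N 168 2 6 4 U6_2 :=
  VOK_step (c := 1) (L1 := 1) (L2 := 3) (h := 168) (by omega) hN (by norm_num)
    (U6_1_ok hN) (U4_2_ok hN) rfl
theorem U6_3_ok {N : ℕ} (hN : N ≤ 80) : VOK N 168 3 6 7 U6_3 :=
  VOK_step (c := 2) (L1 := 4) (L2 := 3) (h := 672) (by omega) hN (by norm_num)
    (U6_2_ok hN) (U3_3_ok hN) rfl
theorem U6_4_ok {N : ℕ} (hN : N ≤ 80) : VOK N 168 4 6 9 U6_4 :=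
  VOK_step (c := 3) (L1 := 7) (L2 := 2) (h := 1176) (by omega) hN (by norm_num)
    (U6_3_ok hN) (VOK_up le_rfl (by norm_num) (U2_2_ok hN)) rfl
theorem U6_5_ok {N : ℕ} (hN : N ≤ 80) : VOK N 168 5 6 10 U6_5 :=
  VOK_step (c := 4) (L1 := 9) (L2 := 1) (h := 1512) (by omega) hN (by norm_num)
    (U6_4_ok hN) (VOK_up le_rfl (by norm_num) (U1_1_ok hN)) rfl
theorem U6_6_ok {N : ℕ} (hN : N ≤ 80) : VOK N 168 6 6 11 U6_6 :=
  VOK_step (c := 5) (L1 := 10) (L2 := 1) (h := 1680) (by omega) hN (by norm_num)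
    (U6_5_ok hN) (VOK_up le_rfl (Nat.zero_le _) (VOK_zero N 168)) rfl
theorem U7_1_ok {N : ℕ} (hN : N ≤ 80) : VOK N 168 1 7 1 U7_1 :=
  VOK_step (c := 0) (L1 := 0) (L2 := 1) (h := 0) (by omega) hN (by norm_num)
    (VOK_zero' N 168 6) (U6_1_ok hN) rfl
theorem U7_2_ok {N : ℕ} (hN : N ≤ 80) : VOK N 168 2 7 4 U7_2 :=
  VOK_step (c := 1) (L1 := 1) (L2 := 3) (h := 168) (by omega) hN (by norm_num)
    (U7_1_ok hN) (U5_2_ok hN) rfl
theorem U7_3_ok {N : ℕ} (hN : N ≤ 80) : VOK N 168 3 7 8 U7_3 :=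
  VOK_step (c := 2) (L1 := 4) (L2 := 4) (h := 672) (by omega) hN (by norm_num)
    (U7_2_ok hN) (U4_3_ok hN) rfl
theorem U7_4_ok {N : ℕ} (hN : N ≤ 80) : VOK N 168 4 7 11 U7_4 :=
  VOK_step (c := 3) (L1 := 8) (L2 := 3) (h := 1344) (by omega) hN (by norm_num)
    (U7_3_ok hN) (VOK_up le_rfl (by norm_num) (U3_3_ok hN)) rfl
theorem U7_5_ok {N : ℕ} (hN : N ≤ 80) : VOK N 168 5 7 13 U7_5 :=
  VOK_step (c := 4) (L1 := 11) (L2 := 2) (h := 1848) (by omega) hN (by norm_num)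
    (U7_4_ok hN) (VOK_up le_rfl (by norm_num) (U2_2_ok hN)) rfl
theorem U7_6_ok {N : ℕ} (hN : N ≤ 80) : VOK N 168 6 7 14 U7_6 :=
  VOK_step (c := 5) (L1 := 13) (L2 := 1) (h := 2184) (by omega) hN (by norm_num)
    (U7_5_ok hN) (VOK_up le_rfl (by norm_num) (U1_1_ok hN)) rfl
theorem U7_7_ok {N : ℕ} (hN : N ≤ 80) : VOK N 168 7 7 15 U7_7 :=
  VOK_step (c := 6) (L1 := 14) (L2 := 1) (h := 2352) (by omega) hN (by norm_num)
    (U7_6_ok hN) (VOK_up le_rfl (Nat.zero_le _) (VOK_zero N 168)) rfl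
theorem U8_1_ok {N : ℕ} (hN : N ≤ 80) : VOK N 168 1 8 1 U8_1 :=
  VOK_step (c := 0) (L1 := 0) (L2 := 1) (h := 0) (by omega) hN (by norm_num)
    (VOK_zero' N 168 7) (U7_1_ok hN) rfl
theorem U8_2_ok {N : ℕ} (hN : N ≤ 80) : VOK N 168 2 8 5 U8_2 :=
  VOK_step (c := 1) (L1 := 1) (L2 := 4) (h := 168) (by omega) hN (by norm_num)
    (U8_1_ok hN) (U6_2_ok hN) rfl
theorem U8_3_ok {N : ℕ} (hN : N ≤ 80) : VOK N 168 3 8 10 U8_3 :=
  VOK_step (c := 2) (L1 := 5) (L2 := 5) (h := 840) (by omega) hN (by norm_num)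
    (U8_2_ok hN) (U5_3_ok hN) rfl
theorem U8_4_ok {N : ℕ} (hN : N ≤ 80) : VOK N 168 4 8 15 U8_4 :=
  VOK_step (c := 3) (L1 := 10) (L2 := 5) (h := 1680) (by omega) hN (by norm_num)
    (U8_3_ok hN) (U4_4_ok hN) rfl
theorem U8_5_ok {N : ℕ} (hN : N ≤ 80) : VOK N 168 5 8 18 U8_5 :=
  VOK_step (c := 4) (L1 := 15) (L2 := 3) (h := 2520) (by omega) hN (by norm_num)
    (U8_4_ok hN) (VOK_up le_rfl (by norm_num) (U3_3_ok hN)) rfl
theorem U8_6_ok {N : ℕ} (hN : N ≤ 80) : VOK N 168 6 8 20 U8_6 :=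
  VOK_step (c := 5) (L1 := 18) (L2 := 2) (h := 3024) (by omega) hN (by norm_num)
    (U8_5_ok hN) (VOK_up le_rfl (by norm_num) (U2_2_ok hN)) rfl
theorem U8_7_ok {N : ℕ} (hN : N ≤ 80) : VOK N 168 7 8 21 U8_7 :=
  VOK_step (c := 6) (L1 := 20) (L2 := 1) (h := 3360) (by omega) hN (by norm_num)
    (U8_6_ok hN) (VOK_up le_rfl (by norm_num) (U1_1_ok hN)) rfl
theorem U8_8_ok {N : ℕ} (hN : N ≤ 80) : VOK N 168 8 8 22 U8_8 :=
  VOK_step (c := 7) (L1 := 21) (L2 := 1) (h := 3528) (by omega) hN (by norm_num)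
    (U8_7_ok hN) (VOK_up le_rfl (Nat.zero_le _) (VOK_zero N 168)) rfl
theorem U9_1_ok {N : ℕ} (hN : N ≤ 80) : VOK N 168 1 9 1 U9_1 :=
  VOK_step (c := 0) (L1 := 0) (L2 := 1) (h := 0) (by omega) hN (by norm_num)
    (VOK_zero' N 168 8) (U8_1_ok hN) rfl
theorem U9_2_ok {N : ℕ} (hN : N ≤ 80) : VOK N 168 2 9 5 U9_2 :=
  VOK_step (c := 1) (L1 := 1) (L2 := 4) (h := 168) (by omega) hN (by norm_num)
    (U9_1_ok hN) (U7_2_ok hN) rfl
theorem U9_3_ok {N : ℕ} (hN : N ≤ 80) : VOK N 168 3 9 12 U9_3 :=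
  VOK_step (c := 2) (L1 := 5) (L2 := 7) (h := 840) (by omega) hN (by norm_num)
    (U9_2_ok hN) (U6_3_ok hN) rfl
theorem U9_4_ok {N : ℕ} (hN : N ≤ 80) : VOK N 168 4 9 18 U9_4 :=
  VOK_step (c := 3) (L1 := 12) (L2 := 6) (h := 2016) (by omega) hN (by norm_num)
    (U9_3_ok hN) (U5_4_ok hN) rfl
theorem U9_5_ok {N : ℕ} (hN : N ≤ 80) : VOK N 168 5 9 23 U9_5 :=
  VOK_step (c := 4) (L1 := 18) (L2 := 5) (h := 3024) (by omega) hN (by norm_num)
    (U9_4_ok hN) (VOK_up le_rfl (by norm_num) (U4_4_ok hN)) rfl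
theorem U9_6_ok {N : ℕ} (hN : N ≤ 80) : VOK N 168 6 9 26 U9_6 :=
  VOK_step (c := 5) (L1 := 23) (L2 := 3) (h := 3864) (by omega) hN (by norm_num)
    (U9_5_ok hN) (VOK_up le_rfl (by norm_num) (U3_3_ok hN)) rfl
theorem U9_7_ok {N : ℕ} (hN : N ≤ 80) : VOK N 168 7 9 28 U9_7 :=
  VOK_step (c := 6) (L1 := 26) (L2 := 2) (h := 4368) (by omega) hN (by norm_num)
    (U9_6_ok hN) (VOK_up le_rfl (by norm_num) (U2_2_ok hN)) rfl
theorem U9_8_ok {N : ℕ} (hN : N ≤ 80) : VOK N 168 8 9 29 U9_8 :=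
  VOK_step (c := 7) (L1 := 28) (L2 := 1) (h := 4704) (by omega) hN (by norm_num)
    (U9_7_ok hN) (VOK_up le_rfl (by norm_num) (U1_1_ok hN)) rfl
theorem U9_9_ok {N : ℕ} (hN : N ≤ 80) : VOK N 168 9 9 30 U9_9 :=
  VOK_step (c := 8) (L1 := 29) (L2 := 1) (h := 4872) (by omega) hN (by norm_num)
    (U9_8_ok hN) (VOK_up le_rfl (Nat.zero_le _) (VOK_zero N 168)) rfl
theorem U10_1_ok {N : ℕ} (hN : N ≤ 80) : VOK N 168 1 10 1 U10_1 :=
  VOK_step (c := 0) (L1 := 0) (L2 := 1) (h := 0) (by omega) hN (by norm_num)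
    (VOK_zero' N 168 9) (U9_1_ok hN) rfl
theorem U10_2_ok {N : ℕ} (hN : N ≤ 80) : VOK N 168 2 10 6 U10_2 :=
  VOK_step (c := 1) (L1 := 1) (L2 := 5) (h := 168) (by omega) hN (by norm_num)
    (U10_1_ok hN) (U8_2_ok hN) rfl
theorem U10_3_ok {N : ℕ} (hN : N ≤ 80) : VOK N 168 3 10 14 U10_3 :=
  VOK_step (c := 2) (L1 := 6) (L2 := 8) (h := 1008) (by omega) hN (by norm_num)
    (U10_2_ok hN) (U7_3_ok hN) rfl
theorem U10_4_ok {N : ℕ} (hN : N ≤ 80) : VOK N 168 4 10 23 U10_4 :=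
  VOK_step (c := 3) (L1 := 14) (L2 := 9) (h := 2352) (by omega) hN (by norm_num)
    (U10_3_ok hN) (U6_4_ok hN) rfl
theorem U10_5_ok {N : ℕ} (hN : N ≤ 80) : VOK N 168 5 10 30 U10_5 :=
  VOK_step (c := 4) (L1 := 23) (L2 := 7) (h := 3864) (by omega) hN (by norm_num)
    (U10_4_ok hN) (U5_5_ok hN) rfl
theorem U10_6_ok {N : ℕ} (hN : N ≤ 80) : VOK N 168 6 10 35 U10_6 :=
  VOK_step (c := 5) (L1 := 30) (L2 := 5) (h := 5040) (by omega) hN (by norm_num)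
    (U10_5_ok hN) (VOK_up le_rfl (by norm_num) (U4_4_ok hN)) rfl
theorem U10_7_ok {N : ℕ} (hN : N ≤ 80) : VOK N 168 7 10 38 U10_7 :=
  VOK_step (c := 6) (L1 := 35) (L2 := 3) (h := 5880) (by omega) hN (by norm_num)
    (U10_6_ok hN) (VOK_up le_rfl (by norm_num) (U3_3_ok hN)) rfl
theorem U10_8_ok {N : ℕ} (hN : N ≤ 80) : VOK N 168 8 10 40 U10_8 :=
  VOK_step (c := 7) (L1 := 38) (L2 := 2) (h := 6384) (by omega) hN (by norm_num)
    (U10_7_ok hN) (VOK_up le_rfl (by norm_num) (U2_2_ok hN)) rfl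
theorem U10_9_ok {N : ℕ} (hN : N ≤ 80) : VOK N 168 9 10 41 U10_9 :=
  VOK_step (c := 8) (L1 := 40) (L2 := 1) (h := 6720) (by omega) hN (by norm_num)
    (U10_8_ok hN) (VOK_up le_rfl (by norm_num) (U1_1_ok hN)) rfl
theorem U10_10_ok {N : ℕ} (hN : N ≤ 80) : VOK N 168 10 10 42 U10_10 :=
  VOK_step (c := 9) (L1 := 41) (L2 := 1) (h := 6888) (by omega) hN (by norm_num)
    (U10_9_ok hN) (VOK_up le_rfl (Nat.zero_le _) (VOK_zero N 168)) rfl
theorem U11_1_ok {N : ℕ} (hN : N ≤ 80) : VOK N 168 1 11 1 U11_1 :=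
  VOK_step (c := 0) (L1 := 0) (L2 := 1) (h := 0) (by omega) hN (by norm_num)
    (VOK_zero' N 168 10) (U10_1_ok hN) rfl
theorem U11_2_ok {N : ℕ} (hN : N ≤ 80) : VOK N 168 2 11 6 U11_2 :=
  VOK_step (c := 1) (L1 := 1) (L2 := 5) (h := 168) (by omega) hN (by norm_num)
    (U11_1_ok hN) (U9_2_ok hN) rfl
theorem U11_3_ok {N : ℕ} (hN : N ≤ 80) : VOK N 168 3 11 16 U11_3 :=
  VOK_step (c := 2) (L1 := 6) (L2 := 10) (h := 1008) (by omega) hN (by norm_num)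
    (U11_2_ok hN) (U8_3_ok hN) rfl
theorem U11_4_ok {N : ℕ} (hN : N ≤ 80) : VOK N 168 4 11 27 U11_4 :=
  VOK_step (c := 3) (L1 := 16) (L2 := 11) (h := 2688) (by omega) hN (by norm_num)
    (U11_3_ok hN) (U7_4_ok hN) rfl
theorem U11_5_ok {N : ℕ} (hN : N ≤ 80) : VOK N 168 5 11 37 U11_5 :=
  VOK_step (c := 4) (L1 := 27) (L2 := 10) (h := 4536) (by omega) hN (by norm_num)
    (U11_4_ok hN) (U6_5_ok hN) rfl
theorem U11_6_ok {N : ℕ} (hN : N ≤ 80) : VOK N 168 6 11 44 U11_6 :=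
  VOK_step (c := 5) (L1 := 37) (L2 := 7) (h := 6216) (by omega) hN (by norm_num)
    (U11_5_ok hN) (VOK_up le_rfl (by norm_num) (U5_5_ok hN)) rfl
theorem U11_7_ok {N : ℕ} (hN : N ≤ 80) : VOK N 168 7 11 49 U11_7 :=
  VOK_step (c := 6) (L1 := 44) (L2 := 5) (h := 7392) (by omega) hN (by norm_num)
    (U11_6_ok hN) (VOK_up le_rfl (by norm_num) (U4_4_ok hN)) rfl
theorem U11_8_ok {N : ℕ} (hN : N ≤ 80) : VOK N 168 8 11 52 U11_8 :=
  VOK_step (c := 7) (L1 := 49) (L2 := 3) (h := 8232) (by omega) hN (by norm_num)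
    (U11_7_ok hN) (VOK_up le_rfl (by norm_num) (U3_3_ok hN)) rfl
theorem U11_9_ok {N : ℕ} (hN : N ≤ 80) : VOK N 168 9 11 54 U11_9 :=
  VOK_step (c := 8) (L1 := 52) (L2 := 2) (h := 8736) (by omega) hN (by norm_num)
    (U11_8_ok hN) (VOK_up le_rfl (by norm_num) (U2_2_ok hN)) rfl
theorem U11_10_ok {N : ℕ} (hN : N ≤ 80) : VOK N 168 10 11 55 U11_10 :=
  VOK_step (c := 9) (L1 := 54) (L2 := 1) (h := 9072) (by omega) hN (by norm_num)
    (U11_9_ok hN) (VOK_up le_rfl (by norm_num) (U1_1_ok hN)) rfl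
theorem U11_11_ok {N : ℕ} (hN : N ≤ 80) : VOK N 168 11 11 56 U11_11 :=
  VOK_step (c := 10) (L1 := 55) (L2 := 1) (h := 9240) (by omega) hN (by norm_num)
    (U11_10_ok hN) (VOK_up le_rfl (Nat.zero_le _) (VOK_zero N 168)) rfl
theorem U12_1_ok {N : ℕ} (hN : N ≤ 80) : VOK N 168 1 12 1 U12_1 :=
  VOK_step (c := 0) (L1 := 0) (L2 := 1) (h := 0) (by omega) hN (by norm_num)
    (VOK_zero' N 168 11) (U11_1_ok hN) rfl
theorem U12_2_ok {N : ℕ} (hN : N ≤ 80) : VOK N 168 2 12 7 U12_2 :=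
  VOK_step (c := 1) (L1 := 1) (L2 := 6) (h := 168) (by omega) hN (by norm_num)
    (U12_1_ok hN) (U10_2_ok hN) rfl
theorem U12_3_ok {N : ℕ} (hN : N ≤ 80) : VOK N 168 3 12 19 U12_3 :=
  VOK_step (c := 2) (L1 := 7) (L2 := 12) (h := 1176) (by omega) hN (by norm_num)
    (U12_2_ok hN) (U9_3_ok hN) rfl
theorem U12_4_ok {N : ℕ} (hN : N ≤ 80) : VOK N 168 4 12 34 U12_4 :=
  VOK_step (c := 3) (L1 := 19) (L2 := 15) (h := 3192) (by omega) hN (by norm_num)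
    (U12_3_ok hN) (U8_4_ok hN) rfl
theorem U12_5_ok {N : ℕ} (hN : N ≤ 80) : VOK N 168 5 12 47 U12_5 :=
  VOK_step (c := 4) (L1 := 34) (L2 := 13) (h := 5712) (by omega) hN (by norm_num)
    (U12_4_ok hN) (U7_5_ok hN) rfl
theorem U12_6_ok {N : ℕ} (hN : N ≤ 80) : VOK N 168 6 12 58 U12_6 :=
  VOK_step (c := 5) (L1 := 47) (L2 := 11) (h := 7896) (by omega) hN (by norm_num)
    (U12_5_ok hN) (U6_6_ok hN) rfl
theorem U12_7_ok {N : ℕ} (hN : N ≤ 80) : VOK N 168 7 12 65 U12_7 :=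
  VOK_step (c := 6) (L1 := 58) (L2 := 7) (h := 9744) (by omega) hN (by norm_num)
    (U12_6_ok hN) (VOK_up le_rfl (by norm_num) (U5_5_ok hN)) rfl
theorem U12_8_ok {N : ℕ} (hN : N ≤ 80) : VOK N 168 8 12 70 U12_8 :=
  VOK_step (c := 7) (L1 := 65) (L2 := 5) (h := 10920) (by omega) hN (by norm_num)
    (U12_7_ok hN) (VOK_up le_rfl (by norm_num) (U4_4_ok hN)) rfl
theorem U12_9_ok {N : ℕ} (hN : N ≤ 80) : VOK N 168 9 12 73 U12_9 :=
  VOK_step (c := 8) (L1 := 70) (L2 := 3) (h := 11760) (by omega) hN (by norm_num)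
    (U12_8_ok hN) (VOK_up le_rfl (by norm_num) (U3_3_ok hN)) rfl
theorem U12_10_ok {N : ℕ} (hN : N ≤ 80) : VOK N 168 10 12 75 U12_10 :=
  VOK_step (c := 9) (L1 := 73) (L2 := 2) (h := 12264) (by omega) hN (by norm_num)
    (U12_9_ok hN) (VOK_up le_rfl (by norm_num) (U2_2_ok hN)) rfl
theorem U12_11_ok {N : ℕ} (hN : N ≤ 80) : VOK N 168 11 12 76 U12_11 :=
  VOK_step (c := 10) (L1 := 75) (L2 := 1) (h := 12600) (by omega) hN (by norm_num)
    (U12_10_ok hN) (VOK_up le_rfl (by norm_num) (U1_1_ok hN)) rfl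
theorem U12_12_ok {N : ℕ} (hN : N ≤ 80) : VOK N 168 12 12 77 U12_12 :=
  VOK_step (c := 11) (L1 := 76) (L2 := 1) (h := 12768) (by omega) hN (by norm_num)
    (U12_11_ok hN) (VOK_up le_rfl (Nat.zero_le _) (VOK_zero N 168)) rfl
theorem U13_1_ok {N : ℕ} (hN : N ≤ 80) : VOK N 168 1 13 1 U13_1 :=
  VOK_step (c := 0) (L1 := 0) (L2 := 1) (h := 0) (by omega) hN (by norm_num)
    (VOK_zero' N 168 12) (U12_1_ok hN) rfl
theorem U13_2_ok {N : ℕ} (hN : N ≤ 80) : VOK N 168 2 13 7 U13_2 :=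
  VOK_step (c := 1) (L1 := 1) (L2 := 6) (h := 168) (by omega) hN (by norm_num)
    (U13_1_ok hN) (U11_2_ok hN) rfl
theorem U13_3_ok {N : ℕ} (hN : N ≤ 80) : VOK N 168 3 13 21 U13_3 :=
  VOK_step (c := 2) (L1 := 7) (L2 := 14) (h := 1176) (by omega) hN (by norm_num)
    (U13_2_ok hN) (U10_3_ok hN) rfl
theorem U13_4_ok {N : ℕ} (hN : N ≤ 80) : VOK N 168 4 13 39 U13_4 :=
  VOK_step (c := 3) (L1 := 21) (L2 := 18) (h := 3528) (by omega) hN (by norm_num)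
    (U13_3_ok hN) (U9_4_ok hN) rfl
theorem U13_5_ok {N : ℕ} (hN : N ≤ 80) : VOK N 168 5 13 57 U13_5 :=
  VOK_step (c := 4) (L1 := 39) (L2 := 18) (h := 6552) (by omega) hN (by norm_num)
    (U13_4_ok hN) (U8_5_ok hN) rfl
theorem U13_6_ok {N : ℕ} (hN : N ≤ 80) : VOK N 168 6 13 71 U13_6 :=
  VOK_step (c := 5) (L1 := 57) (L2 := 14) (h := 9576) (by omega) hN (by norm_num)
    (U13_5_ok hN) (U7_6_ok hN) rfl
theorem U13_7_ok {N : ℕ} (hN : N ≤ 80) : VOK N 168 7 13 82 U13_7 :=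
  VOK_step (c := 6) (L1 := 71) (L2 := 11) (h := 11928) (by omega) hN (by norm_num)
    (U13_6_ok hN) (VOK_up le_rfl (by norm_num) (U6_6_ok hN)) rfl
theorem U13_8_ok {N : ℕ} (hN : N ≤ 80) : VOK N 168 8 13 89 U13_8 :=
  VOK_step (c := 7) (L1 := 82) (L2 := 7) (h := 13776) (by omega) hN (by norm_num)
    (U13_7_ok hN) (VOK_up le_rfl (by norm_num) (U5_5_ok hN)) rfl
theorem U13_9_ok {N : ℕ} (hN : N ≤ 80) : VOK N 168 9 13 94 U13_9 :=
  VOK_step (c := 8) (L1 := 89) (L2 := 5) (h := 14952) (by omega) hN (by norm_num)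
    (U13_8_ok hN) (VOK_up le_rfl (by norm_num) (U4_4_ok hN)) rfl
theorem U13_10_ok {N : ℕ} (hN : N ≤ 80) : VOK N 168 10 13 97 U13_10 :=
  VOK_step (c := 9) (L1 := 94) (L2 := 3) (h := 15792) (by omega) hN (by norm_num)
    (U13_9_ok hN) (VOK_up le_rfl (by norm_num) (U3_3_ok hN)) rfl
theorem U13_11_ok {N : ℕ} (hN : N ≤ 80) : VOK N 168 11 13 99 U13_11 :=
  VOK_step (c := 10) (L1 := 97) (L2 := 2) (h := 16296) (by omega) hN (by norm_num)
    (U13_10_ok hN) (VOK_up le_rfl (by norm_num) (U2_2_ok hN)) rfl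
theorem U13_12_ok {N : ℕ} (hN : N ≤ 80) : VOK N 168 12 13 100 U13_12 :=
  VOK_step (c := 11) (L1 := 99) (L2 := 1) (h := 16632) (by omega) hN (by norm_num)
    (U13_11_ok hN) (VOK_up le_rfl (by norm_num) (U1_1_ok hN)) rfl
theorem U13_13_ok {N : ℕ} (hN : N ≤ 80) : VOK N 168 13 13 101 U13_13 :=
  VOK_step (c := 12) (L1 := 100) (L2 := 1) (h := 16800) (by omega) hN (by norm_num)
    (U13_12_ok hN) (VOK_up le_rfl (Nat.zero_le _) (VOK_zero N 168)) rfl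
theorem U14_1_ok {N : ℕ} (hN : N ≤ 80) : VOK N 168 1 14 1 U14_1 :=
  VOK_step (c := 0) (L1 := 0) (L2 := 1) (h := 0) (by omega) hN (by norm_num)
    (VOK_zero' N 168 13) (U13_1_ok hN) rfl
theorem U14_2_ok {N : ℕ} (hN : N ≤ 80) : VOK N 168 2 14 8 U14_2 :=
  VOK_step (c := 1) (L1 := 1) (L2 := 7) (h := 168) (by omega) hN (by norm_num)
    (U14_1_ok hN) (U12_2_ok hN) rfl
theorem U14_3_ok {N : ℕ} (hN : N ≤ 80) : VOK N 168 3 14 24 U14_3 :=
  VOK_step (c := 2) (L1 := 8) (L2 := 16) (h := 1344) (by omega) hN (by norm_num)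
    (U14_2_ok hN) (U11_3_ok hN) rfl
theorem U14_4_ok {N : ℕ} (hN : N ≤ 80) : VOK N 168 4 14 47 U14_4 :=
  VOK_step (c := 3) (L1 := 24) (L2 := 23) (h := 4032) (by omega) hN (by norm_num)
    (U14_3_ok hN) (U10_4_ok hN) rfl
theorem U14_5_ok {N : ℕ} (hN : N ≤ 80) : VOK N 168 5 14 70 U14_5 :=
  VOK_step (c := 4) (L1 := 47) (L2 := 23) (h := 7896) (by omega) hN (by norm_num)
    (U14_4_ok hN) (U9_5_ok hN) rfl
theorem U14_6_ok {N : ℕ} (hN : N ≤ 80) : VOK N 168 6 14 90 U14_6 :=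
  VOK_step (c := 5) (L1 := 70) (L2 := 20) (h := 11760) (by omega) hN (by norm_num)
    (U14_5_ok hN) (U8_6_ok hN) rfl
theorem U14_7_ok {N : ℕ} (hN : N ≤ 80) : VOK N 168 7 14 105 U14_7 :=
  VOK_step (c := 6) (L1 := 90) (L2 := 15) (h := 15120) (by omega) hN (by norm_num)
    (U14_6_ok hN) (U7_7_ok hN) rfl
theorem U14_8_ok {N : ℕ} (hN : N ≤ 80) : VOK N 168 8 14 116 U14_8 :=
  VOK_step (c := 7) (L1 := 105) (L2 := 11) (h := 17640) (by omega) hN (by norm_num)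
    (U14_7_ok hN) (VOK_up le_rfl (by norm_num) (U6_6_ok hN)) rfl
theorem U14_9_ok {N : ℕ} (hN : N ≤ 80) : VOK N 168 9 14 123 U14_9 :=
  VOK_step (c := 8) (L1 := 116) (L2 := 7) (h := 19488) (by omega) hN (by norm_num)
    (U14_8_ok hN) (VOK_up le_rfl (by norm_num) (U5_5_ok hN)) rfl
theorem U14_10_ok {N : ℕ} (hN : N ≤ 80) : VOK N 168 10 14 128 U14_10 :=
  VOK_step (c := 9) (L1 := 123) (L2 := 5) (h := 20664) (by omega) hN (by norm_num)
    (U14_9_ok hN) (VOK_up le_rfl (by norm_num) (U4_4_ok hN)) rfl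
theorem U14_11_ok {N : ℕ} (hN : N ≤ 80) : VOK N 168 11 14 131 U14_11 :=
  VOK_step (c := 10) (L1 := 128) (L2 := 3) (h := 21504) (by omega) hN (by norm_num)
    (U14_10_ok hN) (VOK_up le_rfl (by norm_num) (U3_3_ok hN)) rfl
theorem U14_12_ok {N : ℕ} (hN : N ≤ 80) : VOK N 168 12 14 133 U14_12 :=
  VOK_step (c := 11) (L1 := 131) (L2 := 2) (h := 22008) (by omega) hN (by norm_num)
    (U14_11_ok hN) (VOK_up le_rfl (by norm_num) (U2_2_ok hN)) rfl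
theorem U14_13_ok {N : ℕ} (hN : N ≤ 80) : VOK N 168 13 14 134 U14_13 :=
  VOK_step (c := 12) (L1 := 133) (L2 := 1) (h := 22344) (by omega) hN (by norm_num)
    (U14_12_ok hN) (VOK_up le_rfl (by norm_num) (U1_1_ok hN)) rfl
theorem U14_14_ok {N : ℕ} (hN : N ≤ 80) : VOK N 168 14 14 135 U14_14 :=
  VOK_step (c := 13) (L1 := 134) (L2 := 1) (h := 22512) (by omega) hN (by norm_num)
    (U14_13_ok hN) (VOK_up le_rfl (Nat.zero_le _) (VOK_zero N 168)) rfl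
theorem U15_1_ok {N : ℕ} (hN : N ≤ 80) : VOK N 168 1 15 1 U15_1 :=
  VOK_step (c := 0) (L1 := 0) (L2 := 1) (h := 0) (by omega) hN (by norm_num)
    (VOK_zero' N 168 14) (U14_1_ok hN) rfl
theorem U15_2_ok {N : ℕ} (hN : N ≤ 80) : VOK N 168 2 15 8 U15_2 :=
  VOK_step (c := 1) (L1 := 1) (L2 := 7) (h := 168) (by omega) hN (by norm_num)
    (U15_1_ok hN) (U13_2_ok hN) rfl
theorem U15_3_ok {N : ℕ} (hN : N ≤ 80) : VOK N 168 3 15 27 U15_3 :=
  VOK_step (c := 2) (L1 := 8) (L2 := 19) (h := 1344) (by omega) hN (by norm_num)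
    (U15_2_ok hN) (U12_3_ok hN) rfl
theorem U15_4_ok {N : ℕ} (hN : N ≤ 80) : VOK N 168 4 15 54 U15_4 :=
  VOK_step (c := 3) (L1 := 27) (L2 := 27) (h := 4536) (by omega) hN (by norm_num)
    (U15_3_ok hN) (U11_4_ok hN) rfl
theorem U15_5_ok {N : ℕ} (hN : N ≤ 80) : VOK N 168 5 15 84 U15_5 :=
  VOK_step (c := 4) (L1 := 54) (L2 := 30) (h := 9072) (by omega) hN (by norm_num)
    (U15_4_ok hN) (U10_5_ok hN) rfl
theorem U15_6_ok {N : ℕ} (hN : N ≤ 80) : VOK N 168 6 15 110 U15_6 :=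
  VOK_step (c := 5) (L1 := 84) (L2 := 26) (h := 14112) (by omega) hN (by norm_num)
    (U15_5_ok hN) (U9_6_ok hN) rfl
theorem U15_7_ok {N : ℕ} (hN : N ≤ 80) : VOK N 168 7 15 131 U15_7 :=
  VOK_step (c := 6) (L1 := 110) (L2 := 21) (h := 18480) (by omega) hN (by norm_num)
    (U15_6_ok hN) (U8_7_ok hN) rfl
theorem U15_8_ok {N : ℕ} (hN : N ≤ 80) : VOK N 168 8 15 146 U15_8 :=
  VOK_step (c := 7) (L1 := 131) (L2 := 15) (h := 22008) (by omega) hN (by norm_num)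
    (U15_7_ok hN) (VOK_up le_rfl (by norm_num) (U7_7_ok hN)) rfl
theorem U15_9_ok {N : ℕ} (hN : N ≤ 80) : VOK N 168 9 15 157 U15_9 :=
  VOK_step (c := 8) (L1 := 146) (L2 := 11) (h := 24528) (by omega) hN (by norm_num)
    (U15_8_ok hN) (VOK_up le_rfl (by norm_num) (U6_6_ok hN)) rfl
theorem U15_10_ok {N : ℕ} (hN : N ≤ 80) : VOK N 168 10 15 164 U15_10 :=
  VOK_step (c := 9) (L1 := 157) (L2 := 7) (h := 26376) (by omega) hN (by norm_num)
    (U15_9_ok hN) (VOK_up le_rfl (by norm_num) (U5_5_ok hN)) rfl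
theorem U15_11_ok {N : ℕ} (hN : N ≤ 80) : VOK N 168 11 15 169 U15_11 :=
  VOK_step (c := 10) (L1 := 164) (L2 := 5) (h := 27552) (by omega) hN (by norm_num)
    (U15_10_ok hN) (VOK_up le_rfl (by norm_num) (U4_4_ok hN)) rfl
theorem U15_12_ok {N : ℕ} (hN : N ≤ 80) : VOK N 168 12 15 172 U15_12 :=
  VOK_step (c := 11) (L1 := 169) (L2 := 3) (h := 28392) (by omega) hN (by norm_num)
    (U15_11_ok hN) (VOK_up le_rfl (by norm_num) (U3_3_ok hN)) rfl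
theorem U15_13_ok {N : ℕ} (hN : N ≤ 80) : VOK N 168 13 15 174 U15_13 :=
  VOK_step (c := 12) (L1 := 172) (L2 := 2) (h := 28896) (by omega) hN (by norm_num)
    (U15_12_ok hN) (VOK_up le_rfl (by norm_num) (U2_2_ok hN)) rfl
theorem U15_14_ok {N : ℕ} (hN : N ≤ 80) : VOK N 168 14 15 175 U15_14 :=
  VOK_step (c := 13) (L1 := 174) (L2 := 1) (h := 29232) (by omega) hN (by norm_num)
    (U15_13_ok hN) (VOK_up le_rfl (by norm_num) (U1_1_ok hN)) rfl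
theorem U15_15_ok {N : ℕ} (hN : N ≤ 80) : VOK N 168 15 15 176 U15_15 :=
  VOK_step (c := 14) (L1 := 175) (L2 := 1) (h := 29400) (by omega) hN (by norm_num)
    (U15_14_ok hN) (VOK_up le_rfl (Nat.zero_le _) (VOK_zero N 168)) rfl
theorem U16_1_ok {N : ℕ} (hN : N ≤ 80) : VOK N 168 1 16 1 U16_1 :=
  VOK_step (c := 0) (L1 := 0) (L2 := 1) (h := 0) (by omega) hN (by norm_num)
    (VOK_zero' N 168 15) (U15_1_ok hN) rfl
theorem U16_2_ok {N : ℕ} (hN : N ≤ 80) : VOK N 168 2 16 9 U16_2 :=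
  VOK_step (c := 1) (L1 := 1) (L2 := 8) (h := 168) (by omega) hN (by norm_num)
    (U16_1_ok hN) (U14_2_ok hN) rfl
theorem U16_3_ok {N : ℕ} (hN : N ≤ 80) : VOK N 168 3 16 30 U16_3 :=
  VOK_step (c := 2) (L1 := 9) (L2 := 21) (h := 1512) (by omega) hN (by norm_num)
    (U16_2_ok hN) (U13_3_ok hN) rfl
theorem U16_4_ok {N : ℕ} (hN : N ≤ 80) : VOK N 168 4 16 64 U16_4 :=
  VOK_step (c := 3) (L1 := 30) (L2 := 34) (h := 5040) (by omega) hN (by norm_num)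
    (U16_3_ok hN) (U12_4_ok hN) rfl
theorem U16_5_ok {N : ℕ} (hN : N ≤ 80) : VOK N 168 5 16 101 U16_5 :=
  VOK_step (c := 4) (L1 := 64) (L2 := 37) (h := 10752) (by omega) hN (by norm_num)
    (U16_4_ok hN) (U11_5_ok hN) rfl
theorem U16_6_ok {N : ℕ} (hN : N ≤ 80) : VOK N 168 6 16 136 U16_6 :=
  VOK_step (c := 5) (L1 := 101) (L2 := 35) (h := 16968) (by omega) hN (by norm_num)
    (U16_5_ok hN) (U10_6_ok hN) rfl
theorem U16_7_ok {N : ℕ} (hN : N ≤ 80) : VOK N 168 7 16 164 U16_7 :=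
  VOK_step (c := 6) (L1 := 136) (L2 := 28) (h := 22848) (by omega) hN (by norm_num)
    (U16_6_ok hN) (U9_7_ok hN) rfl
theorem U16_8_ok {N : ℕ} (hN : N ≤ 80) : VOK N 168 8 16 186 U16_8 :=
  VOK_step (c := 7) (L1 := 164) (L2 := 22) (h := 27552) (by omega) hN (by norm_num)
    (U16_7_ok hN) (U8_8_ok hN) rfl
theorem U16_9_ok {N : ℕ} (hN : N ≤ 80) : VOK N 168 9 16 201 U16_9 :=
  VOK_step (c := 8) (L1 := 186) (L2 := 15) (h := 31248) (by omega) hN (by norm_num)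
    (U16_8_ok hN) (VOK_up le_rfl (by norm_num) (U7_7_ok hN)) rfl
theorem U16_10_ok {N : ℕ} (hN : N ≤ 80) : VOK N 168 10 16 212 U16_10 :=
  VOK_step (c := 9) (L1 := 201) (L2 := 11) (h := 33768) (by omega) hN (by norm_num)
    (U16_9_ok hN) (VOK_up le_rfl (by norm_num) (U6_6_ok hN)) rfl
theorem U16_11_ok {N : ℕ} (hN : N ≤ 80) : VOK N 168 11 16 219 U16_11 :=
  VOK_step (c := 10) (L1 := 212) (L2 := 7) (h := 35616) (by omega) hN (by norm_num)
    (U16_10_ok hN) (VOK_up le_rfl (by norm_num) (U5_5_ok hN)) rfl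
theorem U16_12_ok {N : ℕ} (hN : N ≤ 80) : VOK N 168 12 16 224 U16_12 :=
  VOK_step (c := 11) (L1 := 219) (L2 := 5) (h := 36792) (by omega) hN (by norm_num)
    (U16_11_ok hN) (VOK_up le_rfl (by norm_num) (U4_4_ok hN)) rfl
theorem U16_13_ok {N : ℕ} (hN : N ≤ 80) : VOK N 168 13 16 227 U16_13 :=
  VOK_step (c := 12) (L1 := 224) (L2 := 3) (h := 37632) (by omega) hN (by norm_num)
    (U16_12_ok hN) (VOK_up le_rfl (by norm_num) (U3_3_ok hN)) rfl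
theorem U16_14_ok {N : ℕ} (hN : N ≤ 80) : VOK N 168 14 16 229 U16_14 :=
  VOK_step (c := 13) (L1 := 227) (L2 := 2) (h := 38136) (by omega) hN (by norm_num)
    (U16_13_ok hN) (VOK_up le_rfl (by norm_num) (U2_2_ok hN)) rfl
theorem U16_15_ok {N : ℕ} (hN : N ≤ 80) : VOK N 168 15 16 230 U16_15 :=
  VOK_step (c := 14) (L1 := 229) (L2 := 1) (h := 38472) (by omega) hN (by norm_num)
    (U16_14_ok hN) (VOK_up le_rfl (by norm_num) (U1_1_ok hN)) rfl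
theorem U16_16_ok {N : ℕ} (hN : N ≤ 80) : VOK N 168 16 16 231 U16_16 :=
  VOK_step (c := 15) (L1 := 230) (L2 := 1) (h := 38640) (by omega) hN (by norm_num)
    (U16_15_ok hN) (VOK_up le_rfl (Nat.zero_le _) (VOK_zero N 168)) rfl
theorem U17_1_ok {N : ℕ} (hN : N ≤ 80) : VOK N 168 1 17 1 U17_1 :=
  VOK_step (c := 0) (L1 := 0) (L2 := 1) (h := 0) (by omega) hN (by norm_num)
    (VOK_zero' N 168 16) (U16_1_ok hN) rfl
theorem U17_2_ok {N : ℕ} (hN : N ≤ 80) : VOK N 168 2 17 9 U17_2 :=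
  VOK_step (c := 1) (L1 := 1) (L2 := 8) (h := 168) (by omega) hN (by norm_num)
    (U17_1_ok hN) (U15_2_ok hN) rfl
theorem U17_3_ok {N : ℕ} (hN : N ≤ 80) : VOK N 168 3 17 33 U17_3 :=
  VOK_step (c := 2) (L1 := 9) (L2 := 24) (h := 1512) (by omega) hN (by norm_num)
    (U17_2_ok hN) (U14_3_ok hN) rfl
theorem U17_4_ok {N : ℕ} (hN : N ≤ 80) : VOK N 168 4 17 72 U17_4 :=
  VOK_step (c := 3) (L1 := 33) (L2 := 39) (h := 5544) (by omega) hN (by norm_num)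
    (U17_3_ok hN) (U13_4_ok hN) rfl
theorem U17_5_ok {N : ℕ} (hN : N ≤ 80) : VOK N 168 5 17 119 U17_5 :=
  VOK_step (c := 4) (L1 := 72) (L2 := 47) (h := 12096) (by omega) hN (by norm_num)
    (U17_4_ok hN) (U12_5_ok hN) rfl
theorem U17_6_ok {N : ℕ} (hN : N ≤ 80) : VOK N 168 6 17 163 U17_6 :=
  VOK_step (c := 5) (L1 := 119) (L2 := 44) (h := 19992) (by omega) hN (by norm_num)
    (U17_5_ok hN) (U11_6_ok hN) rfl
theorem U17_7_ok {N : ℕ} (hN : N ≤ 80) : VOK N 168 7 17 201 U17_7 :=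
  VOK_step (c := 6) (L1 := 163) (L2 := 38) (h := 27384) (by omega) hN (by norm_num)
    (U17_6_ok hN) (U10_7_ok hN) rfl
theorem U17_8_ok {N : ℕ} (hN : N ≤ 80) : VOK N 168 8 17 230 U17_8 :=
  VOK_step (c := 7) (L1 := 201) (L2 := 29) (h := 33768) (by omega) hN (by norm_num)
    (U17_7_ok hN) (U9_8_ok hN) rfl
theorem U17_9_ok {N : ℕ} (hN : N ≤ 80) : VOK N 168 9 17 252 U17_9 :=
  VOK_step (c := 8) (L1 := 230) (L2 := 22) (h := 38640) (by omega) hN (by norm_num)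
    (U17_8_ok hN) (VOK_up le_rfl (by norm_num) (U8_8_ok hN)) rfl
theorem U17_10_ok {N : ℕ} (hN : N ≤ 80) : VOK N 168 10 17 267 U17_10 :=
  VOK_step (c := 9) (L1 := 252) (L2 := 15) (h := 42336) (by omega) hN (by norm_num)
    (U17_9_ok hN) (VOK_up le_rfl (by norm_num) (U7_7_ok hN)) rfl
theorem U17_11_ok {N : ℕ} (hN : N ≤ 80) : VOK N 168 11 17 278 U17_11 :=
  VOK_step (c := 10) (L1 := 267) (L2 := 11) (h := 44856) (by omega) hN (by norm_num)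
    (U17_10_ok hN) (VOK_up le_rfl (by norm_num) (U6_6_ok hN)) rfl
theorem U17_12_ok {N : ℕ} (hN : N ≤ 80) : VOK N 168 12 17 285 U17_12 :=
  VOK_step (c := 11) (L1 := 278) (L2 := 7) (h := 46704) (by omega) hN (by norm_num)
    (U17_11_ok hN) (VOK_up le_rfl (by norm_num) (U5_5_ok hN)) rfl
theorem U17_13_ok {N : ℕ} (hN : N ≤ 80) : VOK N 168 13 17 290 U17_13 :=
  VOK_step (c := 12) (L1 := 285) (L2 := 5) (h := 47880) (by omega) hN (by norm_num)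
    (U17_12_ok hN) (VOK_up le_rfl (by norm_num) (U4_4_ok hN)) rfl
theorem U17_14_ok {N : ℕ} (hN : N ≤ 80) : VOK N 168 14 17 293 U17_14 :=
  VOK_step (c := 13) (L1 := 290) (L2 := 3) (h := 48720) (by omega) hN (by norm_num)
    (U17_13_ok hN) (VOK_up le_rfl (by norm_num) (U3_3_ok hN)) rfl
theorem U17_15_ok {N : ℕ} (hN : N ≤ 80) : VOK N 168 15 17 295 U17_15 :=
  VOK_step (c := 14) (L1 := 293) (L2 := 2) (h := 49224) (by omega) hN (by norm_num)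
    (U17_14_ok hN) (VOK_up le_rfl (by norm_num) (U2_2_ok hN)) rfl
theorem U17_16_ok {N : ℕ} (hN : N ≤ 80) : VOK N 168 16 17 296 U17_16 :=
  VOK_step (c := 15) (L1 := 295) (L2 := 1) (h := 49560) (by omega) hN (by norm_num)
    (U17_15_ok hN) (VOK_up le_rfl (by norm_num) (U1_1_ok hN)) rfl
theorem U17_17_ok {N : ℕ} (hN : N ≤ 80) : VOK N 168 17 17 297 U17_17 :=
  VOK_step (c := 16) (L1 := 296) (L2 := 1) (h := 49728) (by omega) hN (by norm_num)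
    (U17_16_ok hN) (VOK_up le_rfl (Nat.zero_le _) (VOK_zero N 168)) rfl
theorem U18_1_ok {N : ℕ} (hN : N ≤ 80) : VOK N 168 1 18 1 U18_1 :=
  VOK_step (c := 0) (L1 := 0) (L2 := 1) (h := 0) (by omega) hN (by norm_num)
    (VOK_zero' N 168 17) (U17_1_ok hN) rfl
theorem U18_2_ok {N : ℕ} (hN : N ≤ 80) : VOK N 168 2 18 10 U18_2 :=
  VOK_step (c := 1) (L1 := 1) (L2 := 9) (h := 168) (by omega) hN (by norm_num)
    (U18_1_ok hN) (U16_2_ok hN) rfl
theorem U18_3_ok {N : ℕ} (hN : N ≤ 80) : VOK N 168 3 18 37 U18_3 :=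
  VOK_step (c := 2) (L1 := 10) (L2 := 27) (h := 1680) (by omega) hN (by norm_num)
    (U18_2_ok hN) (U15_3_ok hN) rfl
theorem U18_4_ok {N : ℕ} (hN : N ≤ 80) : VOK N 168 4 18 84 U18_4 :=
  VOK_step (c := 3) (L1 := 37) (L2 := 47) (h := 6216) (by omega) hN (by norm_num)
    (U18_3_ok hN) (U14_4_ok hN) rfl
theorem U18_5_ok {N : ℕ} (hN : N ≤ 80) : VOK N 168 5 18 141 U18_5 :=
  VOK_step (c := 4) (L1 := 84) (L2 := 57) (h := 14112) (by omega) hN (by norm_num)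
    (U18_4_ok hN) (U13_5_ok hN) rfl
theorem U18_6_ok {N : ℕ} (hN : N ≤ 80) : VOK N 168 6 18 199 U18_6 :=
  VOK_step (c := 5) (L1 := 141) (L2 := 58) (h := 23688) (by omega) hN (by norm_num)
    (U18_5_ok hN) (U12_6_ok hN) rfl
theorem U18_7_ok {N : ℕ} (hN : N ≤ 80) : VOK N 168 7 18 248 U18_7 :=
  VOK_step (c := 6) (L1 := 199) (L2 := 49) (h := 33432) (by omega) hN (by norm_num)
    (U18_6_ok hN) (U11_7_ok hN) rfl
theorem U18_8_ok {N : ℕ} (hN : N ≤ 80) : VOK N 168 8 18 288 U18_8 :=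
  VOK_step (c := 7) (L1 := 248) (L2 := 40) (h := 41664) (by omega) hN (by norm_num)
    (U18_7_ok hN) (U10_8_ok hN) rfl
theorem U18_9_ok {N : ℕ} (hN : N ≤ 80) : VOK N 168 9 18 318 U18_9 :=
  VOK_step (c := 8) (L1 := 288) (L2 := 30) (h := 48384) (by omega) hN (by norm_num)
    (U18_8_ok hN) (U9_9_ok hN) rfl
theorem U18_10_ok {N : ℕ} (hN : N ≤ 80) : VOK N 168 10 18 340 U18_10 :=
  VOK_step (c := 9) (L1 := 318) (L2 := 22) (h := 53424) (by omega) hN (by norm_num)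
    (U18_9_ok hN) (VOK_up le_rfl (by norm_num) (U8_8_ok hN)) rfl
theorem U18_11_ok {N : ℕ} (hN : N ≤ 80) : VOK N 168 11 18 355 U18_11 :=
  VOK_step (c := 10) (L1 := 340) (L2 := 15) (h := 57120) (by omega) hN (by norm_num)
    (U18_10_ok hN) (VOK_up le_rfl (by norm_num) (U7_7_ok hN)) rfl
theorem U18_12_ok {N : ℕ} (hN : N ≤ 80) : VOK N 168 12 18 366 U18_12 :=
  VOK_step (c := 11) (L1 := 355) (L2 := 11) (h := 59640) (by omega) hN (by norm_num)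
    (U18_11_ok hN) (VOK_up le_rfl (by norm_num) (U6_6_ok hN)) rfl
theorem U18_13_ok {N : ℕ} (hN : N ≤ 80) : VOK N 168 13 18 373 U18_13 :=
  VOK_step (c := 12) (L1 := 366) (L2 := 7) (h := 61488) (by omega) hN (by norm_num)
    (U18_12_ok hN) (VOK_up le_rfl (by norm_num) (U5_5_ok hN)) rfl
theorem U18_14_ok {N : ℕ} (hN : N ≤ 80) : VOK N 168 14 18 378 U18_14 :=
  VOK_step (c := 13) (L1 := 373) (L2 := 5) (h := 62664) (by omega) hN (by norm_num)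
    (U18_13_ok hN) (VOK_up le_rfl (by norm_num) (U4_4_ok hN)) rfl
theorem U18_15_ok {N : ℕ} (hN : N ≤ 80) : VOK N 168 15 18 381 U18_15 :=
  VOK_step (c := 14) (L1 := 378) (L2 := 3) (h := 63504) (by omega) hN (by norm_num)
    (U18_14_ok hN) (VOK_up le_rfl (by norm_num) (U3_3_ok hN)) rfl
theorem U18_16_ok {N : ℕ} (hN : N ≤ 80) : VOK N 168 16 18 383 U18_16 :=
  VOK_step (c := 15) (L1 := 381) (L2 := 2) (h := 64008) (by omega) hN (by norm_num)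
    (U18_15_ok hN) (VOK_up le_rfl (by norm_num) (U2_2_ok hN)) rfl
theorem U18_17_ok {N : ℕ} (hN : N ≤ 80) : VOK N 168 17 18 384 U18_17 :=
  VOK_step (c := 16) (L1 := 383) (L2 := 1) (h := 64344) (by omega) hN (by norm_num)
    (U18_16_ok hN) (VOK_up le_rfl (by norm_num) (U1_1_ok hN)) rfl
theorem U18_18_ok {N : ℕ} (hN : N ≤ 80) : VOK N 168 18 18 385 U18_18 :=
  VOK_step (c := 17) (L1 := 384) (L2 := 1) (h := 64512) (by omega) hN (by norm_num)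
    (U18_17_ok hN) (VOK_up le_rfl (Nat.zero_le _) (VOK_zero N 168)) rfl
theorem U19_1_ok {N : ℕ} (hN : N ≤ 80) : VOK N 168 1 19 1 U19_1 :=
  VOK_step (c := 0) (L1 := 0) (L2 := 1) (h := 0) (by omega) hN (by norm_num)
    (VOK_zero' N 168 18) (U18_1_ok hN) rfl
theorem U19_2_ok {N : ℕ} (hN : N ≤ 80) : VOK N 168 2 19 10 U19_2 :=
  VOK_step (c := 1) (L1 := 1) (L2 := 9) (h := 168) (by omega) hN (by norm_num)
    (U19_1_ok hN) (U17_2_ok hN) rfl
theorem U19_3_ok {N : ℕ} (hN : N ≤ 80) : VOK N 168 3 19 40 U19_3 :=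
  VOK_step (c := 2) (L1 := 10) (L2 := 30) (h := 1680) (by omega) hN (by norm_num)
    (U19_2_ok hN) (U16_3_ok hN) rfl
theorem U19_4_ok {N : ℕ} (hN : N ≤ 80) : VOK N 168 4 19 94 U19_4 :=
  VOK_step (c := 3) (L1 := 40) (L2 := 54) (h := 6720) (by omega) hN (by norm_num)
    (U19_3_ok hN) (U15_4_ok hN) rfl
theorem U19_5_ok {N : ℕ} (hN : N ≤ 80) : VOK N 168 5 19 164 U19_5 :=
  VOK_step (c := 4) (L1 := 94) (L2 := 70) (h := 15792) (by omega) hN (by norm_num)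
    (U19_4_ok hN) (U14_5_ok hN) rfl
theorem U19_6_ok {N : ℕ} (hN : N ≤ 80) : VOK N 168 6 19 235 U19_6 :=
  VOK_step (c := 5) (L1 := 164) (L2 := 71) (h := 27552) (by omega) hN (by norm_num)
    (U19_5_ok hN) (U13_6_ok hN) rfl
theorem U19_7_ok {N : ℕ} (hN : N ≤ 80) : VOK N 168 7 19 300 U19_7 :=
  VOK_step (c := 6) (L1 := 235) (L2 := 65) (h := 39480) (by omega) hN (by norm_num)
    (U19_6_ok hN) (U12_7_ok hN) rfl
theorem U19_8_ok {N : ℕ} (hN : N ≤ 80) : VOK N 168 8 19 352 U19_8 :=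
  VOK_step (c := 7) (L1 := 300) (L2 := 52) (h := 50400) (by omega) hN (by norm_num)
    (U19_7_ok hN) (U11_8_ok hN) rfl
theorem U19_9_ok {N : ℕ} (hN : N ≤ 80) : VOK N 168 9 19 393 U19_9 :=
  VOK_step (c := 8) (L1 := 352) (L2 := 41) (h := 59136) (by omega) hN (by norm_num)
    (U19_8_ok hN) (U10_9_ok hN) rfl
theorem U19_10_ok {N : ℕ} (hN : N ≤ 80) : VOK N 168 10 19 423 U19_10 :=
  VOK_step (c := 9) (L1 := 393) (L2 := 30) (h := 66024) (by omega) hN (by norm_num)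
    (U19_9_ok hN) (VOK_up le_rfl (by norm_num) (U9_9_ok hN)) rfl
theorem U19_11_ok {N : ℕ} (hN : N ≤ 80) : VOK N 168 11 19 445 U19_11 :=
  VOK_step (c := 10) (L1 := 423) (L2 := 22) (h := 71064) (by omega) hN (by norm_num)
    (U19_10_ok hN) (VOK_up le_rfl (by norm_num) (U8_8_ok hN)) rfl
theorem U19_12_ok {N : ℕ} (hN : N ≤ 80) : VOK N 168 12 19 460 U19_12 :=
  VOK_step (c := 11) (L1 := 445) (L2 := 15) (h := 74760) (by omega) hN (by norm_num)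
    (U19_11_ok hN) (VOK_up le_rfl (by norm_num) (U7_7_ok hN)) rfl
theorem U19_13_ok {N : ℕ} (hN : N ≤ 80) : VOK N 168 13 19 471 U19_13 :=
  VOK_step (c := 12) (L1 := 460) (L2 := 11) (h := 77280) (by omega) hN (by norm_num)
    (U19_12_ok hN) (VOK_up le_rfl (by norm_num) (U6_6_ok hN)) rfl
theorem U19_14_ok {N : ℕ} (hN : N ≤ 80) : VOK N 168 14 19 478 U19_14 :=
  VOK_step (c := 13) (L1 := 471) (L2 := 7) (h := 79128) (by omega) hN (by norm_num)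
    (U19_13_ok hN) (VOK_up le_rfl (by norm_num) (U5_5_ok hN)) rfl
theorem U19_15_ok {N : ℕ} (hN : N ≤ 80) : VOK N 168 15 19 483 U19_15 :=
  VOK_step (c := 14) (L1 := 478) (L2 := 5) (h := 80304) (by omega) hN (by norm_num)
    (U19_14_ok hN) (VOK_up le_rfl (by norm_num) (U4_4_ok hN)) rfl
theorem U19_16_ok {N : ℕ} (hN : N ≤ 80) : VOK N 168 16 19 486 U19_16 :=
  VOK_step (c := 15) (L1 := 483) (L2 := 3) (h := 81144) (by omega) hN (by norm_num)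
    (U19_15_ok hN) (VOK_up le_rfl (by norm_num) (U3_3_ok hN)) rfl
theorem U19_17_ok {N : ℕ} (hN : N ≤ 80) : VOK N 168 17 19 488 U19_17 :=
  VOK_step (c := 16) (L1 := 486) (L2 := 2) (h := 81648) (by omega) hN (by norm_num)
    (U19_16_ok hN) (VOK_up le_rfl (by norm_num) (U2_2_ok hN)) rfl
theorem U19_18_ok {N : ℕ} (hN : N ≤ 80) : VOK N 168 18 19 489 U19_18 :=
  VOK_step (c := 17) (L1 := 488) (L2 := 1) (h := 81984) (by omega) hN (by norm_num)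
    (U19_17_ok hN) (VOK_up le_rfl (by norm_num) (U1_1_ok hN)) rfl
theorem U19_19_ok {N : ℕ} (hN : N ≤ 80) : VOK N 168 19 19 490 U19_19 :=
  VOK_step (c := 18) (L1 := 489) (L2 := 1) (h := 82152) (by omega) hN (by norm_num)
    (U19_18_ok hN) (VOK_up le_rfl (Nat.zero_le _) (VOK_zero N 168)) rfl
theorem U20_1_ok {N : ℕ} (hN : N ≤ 80) : VOK N 168 1 20 1 U20_1 :=
  VOK_step (c := 0) (L1 := 0) (L2 := 1) (h := 0) (by omega) hN (by norm_num)
    (VOK_zero' N 168 19) (U19_1_ok hN) rfl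
theorem U20_2_ok {N : ℕ} (hN : N ≤ 80) : VOK N 168 2 20 11 U20_2 :=
  VOK_step (c := 1) (L1 := 1) (L2 := 10) (h := 168) (by omega) hN (by norm_num)
    (U20_1_ok hN) (U18_2_ok hN) rfl
theorem U20_3_ok {N : ℕ} (hN : N ≤ 80) : VOK N 168 3 20 44 U20_3 :=
  VOK_step (c := 2) (L1 := 11) (L2 := 33) (h := 1848) (by omega) hN (by norm_num)
    (U20_2_ok hN) (U17_3_ok hN) rfl
theorem U20_4_ok {N : ℕ} (hN : N ≤ 80) : VOK N 168 4 20 108 U20_4 :=
  VOK_step (c := 3) (L1 := 44) (L2 := 64) (h := 7392) (by omega) hN (by norm_num)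
    (U20_3_ok hN) (U16_4_ok hN) rfl
theorem U20_5_ok {N : ℕ} (hN : N ≤ 80) : VOK N 168 5 20 192 U20_5 :=
  VOK_step (c := 4) (L1 := 108) (L2 := 84) (h := 18144) (by omega) hN (by norm_num)
    (U20_4_ok hN) (U15_5_ok hN) rfl
theorem U20_6_ok {N : ℕ} (hN : N ≤ 80) : VOK N 168 6 20 282 U20_6 :=
  VOK_step (c := 5) (L1 := 192) (L2 := 90) (h := 32256) (by omega) hN (by norm_num)
    (U20_5_ok hN) (U14_6_ok hN) rfl
theorem U20_7_ok {N : ℕ} (hN : N ≤ 80) : VOK N 168 7 20 364 U20_7 :=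
  VOK_step (c := 6) (L1 := 282) (L2 := 82) (h := 47376) (by omega) hN (by norm_num)
    (U20_6_ok hN) (U13_7_ok hN) rfl
theorem U20_8_ok {N : ℕ} (hN : N ≤ 80) : VOK N 168 8 20 434 U20_8 :=
  VOK_step (c := 7) (L1 := 364) (L2 := 70) (h := 61152) (by omega) hN (by norm_num)
    (U20_7_ok hN) (U12_8_ok hN) rfl
theorem U20_9_ok {N : ℕ} (hN : N ≤ 80) : VOK N 168 9 20 488 U20_9 :=
  VOK_step (c := 8) (L1 := 434) (L2 := 54) (h := 72912) (by omega) hN (by norm_num)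
    (U20_8_ok hN) (U11_9_ok hN) rfl
theorem U20_10_ok {N : ℕ} (hN : N ≤ 80) : VOK N 168 10 20 530 U20_10 :=
  VOK_step (c := 9) (L1 := 488) (L2 := 42) (h := 81984) (by omega) hN (by norm_num)
    (U20_9_ok hN) (U10_10_ok hN) rfl
theorem U20_11_ok {N : ℕ} (hN : N ≤ 80) : VOK N 168 11 20 560 U20_11 :=
  VOK_step (c := 10) (L1 := 530) (L2 := 30) (h := 89040) (by omega) hN (by norm_num)
    (U20_10_ok hN) (VOK_up le_rfl (by norm_num) (U9_9_ok hN)) rfl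
theorem U20_12_ok {N : ℕ} (hN : N ≤ 80) : VOK N 168 12 20 582 U20_12 :=
  VOK_step (c := 11) (L1 := 560) (L2 := 22) (h := 94080) (by omega) hN (by norm_num)
    (U20_11_ok hN) (VOK_up le_rfl (by norm_num) (U8_8_ok hN)) rfl
theorem U20_13_ok {N : ℕ} (hN : N ≤ 80) : VOK N 168 13 20 597 U20_13 :=
  VOK_step (c := 12) (L1 := 582) (L2 := 15) (h := 97776) (by omega) hN (by norm_num)
    (U20_12_ok hN) (VOK_up le_rfl (by norm_num) (U7_7_ok hN)) rfl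
theorem U20_14_ok {N : ℕ} (hN : N ≤ 80) : VOK N 168 14 20 608 U20_14 :=
  VOK_step (c := 13) (L1 := 597) (L2 := 11) (h := 100296) (by omega) hN (by norm_num)
    (U20_13_ok hN) (VOK_up le_rfl (by norm_num) (U6_6_ok hN)) rfl
theorem U20_15_ok {N : ℕ} (hN : N ≤ 80) : VOK N 168 15 20 615 U20_15 :=
  VOK_step (c := 14) (L1 := 608) (L2 := 7) (h := 102144) (by omega) hN (by norm_num)
    (U20_14_ok hN) (VOK_up le_rfl (by norm_num) (U5_5_ok hN)) rfl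
theorem U20_16_ok {N : ℕ} (hN : N ≤ 80) : VOK N 168 16 20 620 U20_16 :=
  VOK_step (c := 15) (L1 := 615) (L2 := 5) (h := 103320) (by omega) hN (by norm_num)
    (U20_15_ok hN) (VOK_up le_rfl (by norm_num) (U4_4_ok hN)) rfl
theorem U20_17_ok {N : ℕ} (hN : N ≤ 80) : VOK N 168 17 20 623 U20_17 :=
  VOK_step (c := 16) (L1 := 620) (L2 := 3) (h := 104160) (by omega) hN (by norm_num)
    (U20_16_ok hN) (VOK_up le_rfl (by norm_num) (U3_3_ok hN)) rfl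
theorem U20_18_ok {N : ℕ} (hN : N ≤ 80) : VOK N 168 18 20 625 U20_18 :=
  VOK_step (c := 17) (L1 := 623) (L2 := 2) (h := 104664) (by omega) hN (by norm_num)
    (U20_17_ok hN) (VOK_up le_rfl (by norm_num) (U2_2_ok hN)) rfl
theorem U20_19_ok {N : ℕ} (hN : N ≤ 80) : VOK N 168 19 20 626 U20_19 :=
  VOK_step (c := 18) (L1 := 625) (L2 := 1) (h := 105000) (by omega) hN (by norm_num)
    (U20_18_ok hN) (VOK_up le_rfl (by norm_num) (U1_1_ok hN)) rfl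
theorem U20_20_ok {N : ℕ} (hN : N ≤ 80) : VOK N 168 20 20 627 U20_20 :=
  VOK_step (c := 19) (L1 := 626) (L2 := 1) (h := 105168) (by omega) hN (by norm_num)
    (U20_19_ok hN) (VOK_up le_rfl (Nat.zero_le _) (VOK_zero N 168)) rfl
theorem U21_1_ok {N : ℕ} (hN : N ≤ 80) : VOK N 168 1 21 1 U21_1 :=
  VOK_step (c := 0) (L1 := 0) (L2 := 1) (h := 0) (by omega) hN (by norm_num)
    (VOK_zero' N 168 20) (U20_1_ok hN) rfl
theorem U21_2_ok {N : ℕ} (hN : N ≤ 80) : VOK N 168 2 21 11 U21_2 :=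
  VOK_step (c := 1) (L1 := 1) (L2 := 10) (h := 168) (by omega) hN (by norm_num)
    (U21_1_ok hN) (U19_2_ok hN) rfl
theorem U21_3_ok {N : ℕ} (hN : N ≤ 80) : VOK N 168 3 21 48 U21_3 :=
  VOK_step (c := 2) (L1 := 11) (L2 := 37) (h := 1848) (by omega) hN (by norm_num)
    (U21_2_ok hN) (U18_3_ok hN) rfl
theorem U21_4_ok {N : ℕ} (hN : N ≤ 80) : VOK N 168 4 21 120 U21_4 :=
  VOK_step (c := 3) (L1 := 48) (L2 := 72) (h := 8064) (by omega) hN (by norm_num)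
    (U21_3_ok hN) (U17_4_ok hN) rfl
theorem U21_5_ok {N : ℕ} (hN : N ≤ 80) : VOK N 168 5 21 221 U21_5 :=
  VOK_step (c := 4) (L1 := 120) (L2 := 101) (h := 20160) (by omega) hN (by norm_num)
    (U21_4_ok hN) (U16_5_ok hN) rfl
theorem U21_6_ok {N : ℕ} (hN : N ≤ 80) : VOK N 168 6 21 331 U21_6 :=
  VOK_step (c := 5) (L1 := 221) (L2 := 110) (h := 37128) (by omega) hN (by norm_num)
    (U21_5_ok hN) (U15_6_ok hN) rfl
theorem U21_7_ok {N : ℕ} (hN : N ≤ 80) : VOK N 168 7 21 436 U21_7 :=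
  VOK_step (c := 6) (L1 := 331) (L2 := 105) (h := 55608) (by omega) hN (by norm_num)
    (U21_6_ok hN) (U14_7_ok hN) rfl
theorem U21_8_ok {N : ℕ} (hN : N ≤ 80) : VOK N 168 8 21 525 U21_8 :=
  VOK_step (c := 7) (L1 := 436) (L2 := 89) (h := 73248) (by omega) hN (by norm_num)
    (U21_7_ok hN) (U13_8_ok hN) rfl
theorem U21_9_ok {N : ℕ} (hN : N ≤ 80) : VOK N 168 9 21 598 U21_9 :=
  VOK_step (c := 8) (L1 := 525) (L2 := 73) (h := 88200) (by omega) hN (by norm_num)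
    (U21_8_ok hN) (U12_9_ok hN) rfl
theorem U21_10_ok {N : ℕ} (hN : N ≤ 80) : VOK N 168 10 21 653 U21_10 :=
  VOK_step (c := 9) (L1 := 598) (L2 := 55) (h := 100464) (by omega) hN (by norm_num)
    (U21_9_ok hN) (U11_10_ok hN) rfl
theorem U21_11_ok {N : ℕ} (hN : N ≤ 80) : VOK N 168 11 21 695 U21_11 :=
  VOK_step (c := 10) (L1 := 653) (L2 := 42) (h := 109704) (by omega) hN (by norm_num)
    (U21_10_ok hN) (VOK_up le_rfl (by norm_num) (U10_10_ok hN)) rfl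
theorem U21_12_ok {N : ℕ} (hN : N ≤ 80) : VOK N 168 12 21 725 U21_12 :=
  VOK_step (c := 11) (L1 := 695) (L2 := 30) (h := 116760) (by omega) hN (by norm_num)
    (U21_11_ok hN) (VOK_up le_rfl (by norm_num) (U9_9_ok hN)) rfl
theorem U21_13_ok {N : ℕ} (hN : N ≤ 80) : VOK N 168 13 21 747 U21_13 :=
  VOK_step (c := 12) (L1 := 725) (L2 := 22) (h := 121800) (by omega) hN (by norm_num)
    (U21_12_ok hN) (VOK_up le_rfl (by norm_num) (U8_8_ok hN)) rfl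
theorem U21_14_ok {N : ℕ} (hN : N ≤ 80) : VOK N 168 14 21 762 U21_14 :=
  VOK_step (c := 13) (L1 := 747) (L2 := 15) (h := 125496) (by omega) hN (by norm_num)
    (U21_13_ok hN) (VOK_up le_rfl (by norm_num) (U7_7_ok hN)) rfl
theorem U21_15_ok {N : ℕ} (hN : N ≤ 80) : VOK N 168 15 21 773 U21_15 :=
  VOK_step (c := 14) (L1 := 762) (L2 := 11) (h := 128016) (by omega) hN (by norm_num)
    (U21_14_ok hN) (VOK_up le_rfl (by norm_num) (U6_6_ok hN)) rfl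
theorem U21_16_ok {N : ℕ} (hN : N ≤ 80) : VOK N 168 16 21 780 U21_16 :=
  VOK_step (c := 15) (L1 := 773) (L2 := 7) (h := 129864) (by omega) hN (by norm_num)
    (U21_15_ok hN) (VOK_up le_rfl (by norm_num) (U5_5_ok hN)) rfl
theorem U21_17_ok {N : ℕ} (hN : N ≤ 80) : VOK N 168 17 21 785 U21_17 :=
  VOK_step (c := 16) (L1 := 780) (L2 := 5) (h := 131040) (by omega) hN (by norm_num)
    (U21_16_ok hN) (VOK_up le_rfl (by norm_num) (U4_4_ok hN)) rfl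
theorem U21_18_ok {N : ℕ} (hN : N ≤ 80) : VOK N 168 18 21 788 U21_18 :=
  VOK_step (c := 17) (L1 := 785) (L2 := 3) (h := 131880) (by omega) hN (by norm_num)
    (U21_17_ok hN) (VOK_up le_rfl (by norm_num) (U3_3_ok hN)) rfl
theorem U21_19_ok {N : ℕ} (hN : N ≤ 80) : VOK N 168 19 21 790 U21_19 :=
  VOK_step (c := 18) (L1 := 788) (L2 := 2) (h := 132384) (by omega) hN (by norm_num)
    (U21_18_ok hN) (VOK_up le_rfl (by norm_num) (U2_2_ok hN)) rfl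
theorem U21_20_ok {N : ℕ} (hN : N ≤ 80) : VOK N 168 20 21 791 U21_20 :=
  VOK_step (c := 19) (L1 := 790) (L2 := 1) (h := 132720) (by omega) hN (by norm_num)
    (U21_19_ok hN) (VOK_up le_rfl (by norm_num) (U1_1_ok hN)) rfl
theorem U21_21_ok {N : ℕ} (hN : N ≤ 80) : VOK N 168 21 21 792 U21_21 :=
  VOK_step (c := 20) (L1 := 791) (L2 := 1) (h := 132888) (by omega) hN (by norm_num)
    (U21_20_ok hN) (VOK_up le_rfl (Nat.zero_le _) (VOK_zero N 168)) rfl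
theorem U22_1_ok {N : ℕ} (hN : N ≤ 80) : VOK N 168 1 22 1 U22_1 :=
  VOK_step (c := 0) (L1 := 0) (L2 := 1) (h := 0) (by omega) hN (by norm_num)
    (VOK_zero' N 168 21) (U21_1_ok hN) rfl
theorem U22_2_ok {N : ℕ} (hN : N ≤ 80) : VOK N 168 2 22 12 U22_2 :=
  VOK_step (c := 1) (L1 := 1) (L2 := 11) (h := 168) (by omega) hN (by norm_num)
    (U22_1_ok hN) (U20_2_ok hN) rfl
theorem U22_3_ok {N : ℕ} (hN : N ≤ 80) : VOK N 168 3 22 52 U22_3 :=
  VOK_step (c := 2) (L1 := 12) (L2 := 40) (h := 2016) (by omega) hN (by norm_num)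
    (U22_2_ok hN) (U19_3_ok hN) rfl
theorem U22_4_ok {N : ℕ} (hN : N ≤ 80) : VOK N 168 4 22 136 U22_4 :=
  VOK_step (c := 3) (L1 := 52) (L2 := 84) (h := 8736) (by omega) hN (by norm_num)
    (U22_3_ok hN) (U18_4_ok hN) rfl
theorem U22_5_ok {N : ℕ} (hN : N ≤ 80) : VOK N 168 5 22 255 U22_5 :=
  VOK_step (c := 4) (L1 := 136) (L2 := 119) (h := 22848) (by omega) hN (by norm_num)
    (U22_4_ok hN) (U17_5_ok hN) rfl
theorem U22_6_ok {N : ℕ} (hN : N ≤ 80) : VOK N 168 6 22 391 U22_6 :=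
  VOK_step (c := 5) (L1 := 255) (L2 := 136) (h := 42840) (by omega) hN (by norm_num)
    (U22_5_ok hN) (U16_6_ok hN) rfl
theorem U22_7_ok {N : ℕ} (hN : N ≤ 80) : VOK N 168 7 22 522 U22_7 :=
  VOK_step (c := 6) (L1 := 391) (L2 := 131) (h := 65688) (by omega) hN (by norm_num)
    (U22_6_ok hN) (U15_7_ok hN) rfl
theorem U22_8_ok {N : ℕ} (hN : N ≤ 80) : VOK N 168 8 22 638 U22_8 :=
  VOK_step (c := 7) (L1 := 522) (L2 := 116) (h := 87696) (by omega) hN (by norm_num)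
    (U22_7_ok hN) (U14_8_ok hN) rfl
theorem U22_9_ok {N : ℕ} (hN : N ≤ 80) : VOK N 168 9 22 732 U22_9 :=
  VOK_step (c := 8) (L1 := 638) (L2 := 94) (h := 107184) (by omega) hN (by norm_num)
    (U22_8_ok hN) (U13_9_ok hN) rfl
theorem U22_10_ok {N : ℕ} (hN : N ≤ 80) : VOK N 168 10 22 807 U22_10 :=
  VOK_step (c := 9) (L1 := 732) (L2 := 75) (h := 122976) (by omega) hN (by norm_num)
    (U22_9_ok hN) (U12_10_ok hN) rfl
theorem U22_11_ok {N : ℕ} (hN : N ≤ 80) : VOK N 168 11 22 863 U22_11 :=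
  VOK_step (c := 10) (L1 := 807) (L2 := 56) (h := 135576) (by omega) hN (by norm_num)
    (U22_10_ok hN) (U11_11_ok hN) rfl
theorem U22_12_ok {N : ℕ} (hN : N ≤ 80) : VOK N 168 12 22 905 U22_12 :=
  VOK_step (c := 11) (L1 := 863) (L2 := 42) (h := 144984) (by omega) hN (by norm_num)
    (U22_11_ok hN) (VOK_up le_rfl (by norm_num) (U10_10_ok hN)) rfl
theorem U22_13_ok {N : ℕ} (hN : N ≤ 80) : VOK N 168 13 22 935 U22_13 :=
  VOK_step (c := 12) (L1 := 905) (L2 := 30) (h := 152040) (by omega) hN (by norm_num)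
    (U22_12_ok hN) (VOK_up le_rfl (by norm_num) (U9_9_ok hN)) rfl
theorem U22_14_ok {N : ℕ} (hN : N ≤ 80) : VOK N 168 14 22 957 U22_14 :=
  VOK_step (c := 13) (L1 := 935) (L2 := 22) (h := 157080) (by omega) hN (by norm_num)
    (U22_13_ok hN) (VOK_up le_rfl (by norm_num) (U8_8_ok hN)) rfl
theorem U22_15_ok {N : ℕ} (hN : N ≤ 80) : VOK N 168 15 22 972 U22_15 :=
  VOK_step (c := 14) (L1 := 957) (L2 := 15) (h := 160776) (by omega) hN (by norm_num)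
    (U22_14_ok hN) (VOK_up le_rfl (by norm_num) (U7_7_ok hN)) rfl
theorem U22_16_ok {N : ℕ} (hN : N ≤ 80) : VOK N 168 16 22 983 U22_16 :=
  VOK_step (c := 15) (L1 := 972) (L2 := 11) (h := 163296) (by omega) hN (by norm_num)
    (U22_15_ok hN) (VOK_up le_rfl (by norm_num) (U6_6_ok hN)) rfl
theorem U22_17_ok {N : ℕ} (hN : N ≤ 80) : VOK N 168 17 22 990 U22_17 :=
  VOK_step (c := 16) (L1 := 983) (L2 := 7) (h := 165144) (by omega) hN (by norm_num)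
    (U22_16_ok hN) (VOK_up le_rfl (by norm_num) (U5_5_ok hN)) rfl
theorem U22_18_ok {N : ℕ} (hN : N ≤ 80) : VOK N 168 18 22 995 U22_18 :=
  VOK_step (c := 17) (L1 := 990) (L2 := 5) (h := 166320) (by omega) hN (by norm_num)
    (U22_17_ok hN) (VOK_up le_rfl (by norm_num) (U4_4_ok hN)) rfl
theorem U22_19_ok {N : ℕ} (hN : N ≤ 80) : VOK N 168 19 22 998 U22_19 :=
  VOK_step (c := 18) (L1 := 995) (L2 := 3) (h := 167160) (by omega) hN (by norm_num)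
    (U22_18_ok hN) (VOK_up le_rfl (by norm_num) (U3_3_ok hN)) rfl
theorem U22_20_ok {N : ℕ} (hN : N ≤ 80) : VOK N 168 20 22 1000 U22_20 :=
  VOK_step (c := 19) (L1 := 998) (L2 := 2) (h := 167664) (by omega) hN (by norm_num)
    (U22_19_ok hN) (VOK_up le_rfl (by norm_num) (U2_2_ok hN)) rfl
theorem U22_21_ok {N : ℕ} (hN : N ≤ 80) : VOK N 168 21 22 1001 U22_21 :=
  VOK_step (c := 20) (L1 := 1000) (L2 := 1) (h := 168000) (by omega) hN (by norm_num)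
    (U22_20_ok hN) (VOK_up le_rfl (by norm_num) (U1_1_ok hN)) rfl
theorem U22_22_ok {N : ℕ} (hN : N ≤ 80) : VOK N 168 22 22 1002 U22_22 :=
  VOK_step (c := 21) (L1 := 1001) (L2 := 1) (h := 168168) (by omega) hN (by norm_num)
    (U22_21_ok hN) (VOK_up le_rfl (Nat.zero_le _) (VOK_zero N 168)) rfl
theorem U23_1_ok {N : ℕ} (hN : N ≤ 80) : VOK N 168 1 23 1 U23_1 :=
  VOK_step (c := 0) (L1 := 0) (L2 := 1) (h := 0) (by omega) hN (by norm_num)
    (VOK_zero' N 168 22) (U22_1_ok hN) rfl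
theorem U23_2_ok {N : ℕ} (hN : N ≤ 80) : VOK N 168 2 23 12 U23_2 :=
  VOK_step (c := 1) (L1 := 1) (L2 := 11) (h := 168) (by omega) hN (by norm_num)
    (U23_1_ok hN) (U21_2_ok hN) rfl
theorem U23_3_ok {N : ℕ} (hN : N ≤ 80) : VOK N 168 3 23 56 U23_3 :=
  VOK_step (c := 2) (L1 := 12) (L2 := 44) (h := 2016) (by omega) hN (by norm_num)
    (U23_2_ok hN) (U20_3_ok hN) rfl
theorem U23_4_ok {N : ℕ} (hN : N ≤ 80) : VOK N 168 4 23 150 U23_4 :=
  VOK_step (c := 3) (L1 := 56) (L2 := 94) (h := 9408) (by omega) hN (by norm_num)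
    (U23_3_ok hN) (U19_4_ok hN) rfl
theorem U23_5_ok {N : ℕ} (hN : N ≤ 80) : VOK N 168 5 23 291 U23_5 :=
  VOK_step (c := 4) (L1 := 150) (L2 := 141) (h := 25200) (by omega) hN (by norm_num)
    (U23_4_ok hN) (U18_5_ok hN) rfl
theorem U23_6_ok {N : ℕ} (hN : N ≤ 80) : VOK N 168 6 23 454 U23_6 :=
  VOK_step (c := 5) (L1 := 291) (L2 := 163) (h := 48888) (by omega) hN (by norm_num)
    (U23_5_ok hN) (U17_6_ok hN) rfl
theorem U23_7_ok {N : ℕ} (hN : N ≤ 80) : VOK N 168 7 23 618 U23_7 :=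
  VOK_step (c := 6) (L1 := 454) (L2 := 164) (h := 76272) (by omega) hN (by norm_num)
    (U23_6_ok hN) (U16_7_ok hN) rfl
theorem U23_8_ok {N : ℕ} (hN : N ≤ 80) : VOK N 168 8 23 764 U23_8 :=
  VOK_step (c := 7) (L1 := 618) (L2 := 146) (h := 103824) (by omega) hN (by norm_num)
    (U23_7_ok hN) (U15_8_ok hN) rfl
theorem U23_9_ok {N : ℕ} (hN : N ≤ 80) : VOK N 168 9 23 887 U23_9 :=
  VOK_step (c := 8) (L1 := 764) (L2 := 123) (h := 128352) (by omega) hN (by norm_num)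
    (U23_8_ok hN) (U14_9_ok hN) rfl
theorem U23_10_ok {N : ℕ} (hN : N ≤ 80) : VOK N 168 10 23 984 U23_10 :=
  VOK_step (c := 9) (L1 := 887) (L2 := 97) (h := 149016) (by omega) hN (by norm_num)
    (U23_9_ok hN) (U13_10_ok hN) rfl
theorem U23_11_ok {N : ℕ} (hN : N ≤ 80) : VOK N 168 11 23 1060 U23_11 :=
  VOK_step (c := 10) (L1 := 984) (L2 := 76) (h := 165312) (by omega) hN (by norm_num)
    (U23_10_ok hN) (U12_11_ok hN) rfl
theorem U23_12_ok {N : ℕ} (hN : N ≤ 80) : VOK N 168 12 23 1116 U23_12 :=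
  VOK_step (c := 11) (L1 := 1060) (L2 := 56) (h := 178080) (by omega) hN (by norm_num)
    (U23_11_ok hN) (VOK_up le_rfl (by norm_num) (U11_11_ok hN)) rfl
theorem U23_13_ok {N : ℕ} (hN : N ≤ 80) : VOK N 168 13 23 1158 U23_13 :=
  VOK_step (c := 12) (L1 := 1116) (L2 := 42) (h := 187488) (by omega) hN (by norm_num)
    (U23_12_ok hN) (VOK_up le_rfl (by norm_num) (U10_10_ok hN)) rfl
theorem U23_14_ok {N : ℕ} (hN : N ≤ 80) : VOK N 168 14 23 1188 U23_14 :=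
  VOK_step (c := 13) (L1 := 1158) (L2 := 30) (h := 194544) (by omega) hN (by norm_num)
    (U23_13_ok hN) (VOK_up le_rfl (by norm_num) (U9_9_ok hN)) rfl
theorem U23_15_ok {N : ℕ} (hN : N ≤ 80) : VOK N 168 15 23 1210 U23_15 :=
  VOK_step (c := 14) (L1 := 1188) (L2 := 22) (h := 199584) (by omega) hN (by norm_num)
    (U23_14_ok hN) (VOK_up le_rfl (by norm_num) (U8_8_ok hN)) rfl
theorem U23_16_ok {N : ℕ} (hN : N ≤ 80) : VOK N 168 16 23 1225 U23_16 :=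
  VOK_step (c := 15) (L1 := 1210) (L2 := 15) (h := 203280) (by omega) hN (by norm_num)
    (U23_15_ok hN) (VOK_up le_rfl (by norm_num) (U7_7_ok hN)) rfl
theorem U23_17_ok {N : ℕ} (hN : N ≤ 80) : VOK N 168 17 23 1236 U23_17 :=
  VOK_step (c := 16) (L1 := 1225) (L2 := 11) (h := 205800) (by omega) hN (by norm_num)
    (U23_16_ok hN) (VOK_up le_rfl (by norm_num) (U6_6_ok hN)) rfl
theorem U23_18_ok {N : ℕ} (hN : N ≤ 80) : VOK N 168 18 23 1243 U23_18 :=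
  VOK_step (c := 17) (L1 := 1236) (L2 := 7) (h := 207648) (by omega) hN (by norm_num)
    (U23_17_ok hN) (VOK_up le_rfl (by norm_num) (U5_5_ok hN)) rfl
theorem U23_19_ok {N : ℕ} (hN : N ≤ 80) : VOK N 168 19 23 1248 U23_19 :=
  VOK_step (c := 18) (L1 := 1243) (L2 := 5) (h := 208824) (by omega) hN (by norm_num)
    (U23_18_ok hN) (VOK_up le_rfl (by norm_num) (U4_4_ok hN)) rfl
theorem U23_20_ok {N : ℕ} (hN : N ≤ 80) : VOK N 168 20 23 1251 U23_20 :=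
  VOK_step (c := 19) (L1 := 1248) (L2 := 3) (h := 209664) (by omega) hN (by norm_num)
    (U23_19_ok hN) (VOK_up le_rfl (by norm_num) (U3_3_ok hN)) rfl
theorem U23_21_ok {N : ℕ} (hN : N ≤ 80) : VOK N 168 21 23 1253 U23_21 :=
  VOK_step (c := 20) (L1 := 1251) (L2 := 2) (h := 210168) (by omega) hN (by norm_num)
    (U23_20_ok hN) (VOK_up le_rfl (by norm_num) (U2_2_ok hN)) rfl
theorem U23_22_ok {N : ℕ} (hN : N ≤ 80) : VOK N 168 22 23 1254 U23_22 :=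
  VOK_step (c := 21) (L1 := 1253) (L2 := 1) (h := 210504) (by omega) hN (by norm_num)
    (U23_21_ok hN) (VOK_up le_rfl (by norm_num) (U1_1_ok hN)) rfl
theorem U23_23_ok {N : ℕ} (hN : N ≤ 80) : VOK N 168 23 23 1255 U23_23 :=
  VOK_step (c := 22) (L1 := 1254) (L2 := 1) (h := 210672) (by omega) hN (by norm_num)
    (U23_22_ok hN) (VOK_up le_rfl (Nat.zero_le _) (VOK_zero N 168)) rfl
theorem U24_1_ok {N : ℕ} (hN : N ≤ 80) : VOK N 168 1 24 1 U24_1 :=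
  VOK_step (c := 0) (L1 := 0) (L2 := 1) (h := 0) (by omega) hN (by norm_num)
    (VOK_zero' N 168 23) (U23_1_ok hN) rfl
theorem U24_2_ok {N : ℕ} (hN : N ≤ 80) : VOK N 168 2 24 13 U24_2 :=
  VOK_step (c := 1) (L1 := 1) (L2 := 12) (h := 168) (by omega) hN (by norm_num)
    (U24_1_ok hN) (U22_2_ok hN) rfl
theorem U24_3_ok {N : ℕ} (hN : N ≤ 80) : VOK N 168 3 24 61 U24_3 :=
  VOK_step (c := 2) (L1 := 13) (L2 := 48) (h := 2184) (by omega) hN (by norm_num)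
    (U24_2_ok hN) (U21_3_ok hN) rfl
theorem U24_4_ok {N : ℕ} (hN : N ≤ 80) : VOK N 168 4 24 169 U24_4 :=
  VOK_step (c := 3) (L1 := 61) (L2 := 108) (h := 10248) (by omega) hN (by norm_num)
    (U24_3_ok hN) (U20_4_ok hN) rfl
theorem U24_5_ok {N : ℕ} (hN : N ≤ 80) : VOK N 168 5 24 333 U24_5 :=
  VOK_step (c := 4) (L1 := 169) (L2 := 164) (h := 28392) (by omega) hN (by norm_num)
    (U24_4_ok hN) (U19_5_ok hN) rfl
theorem U24_6_ok {N : ℕ} (hN : N ≤ 80) : VOK N 168 6 24 532 U24_6 :=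
  VOK_step (c := 5) (L1 := 333) (L2 := 199) (h := 55944) (by omega) hN (by norm_num)
    (U24_5_ok hN) (U18_6_ok hN) rfl
theorem U24_7_ok {N : ℕ} (hN : N ≤ 80) : VOK N 168 7 24 733 U24_7 :=
  VOK_step (c := 6) (L1 := 532) (L2 := 201) (h := 89376) (by omega) hN (by norm_num)
    (U24_6_ok hN) (U17_7_ok hN) rfl
theorem U24_8_ok {N : ℕ} (hN : N ≤ 80) : VOK N 168 8 24 919 U24_8 :=
  VOK_step (c := 7) (L1 := 733) (L2 := 186) (h := 123144) (by omega) hN (by norm_num)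
    (U24_7_ok hN) (U16_8_ok hN) rfl
theorem U24_9_ok {N : ℕ} (hN : N ≤ 80) : VOK N 168 9 24 1076 U24_9 :=
  VOK_step (c := 8) (L1 := 919) (L2 := 157) (h := 154392) (by omega) hN (by norm_num)
    (U24_8_ok hN) (U15_9_ok hN) rfl
theorem U24_10_ok {N : ℕ} (hN : N ≤ 80) : VOK N 168 10 24 1204 U24_10 :=
  VOK_step (c := 9) (L1 := 1076) (L2 := 128) (h := 180768) (by omega) hN (by norm_num)
    (U24_9_ok hN) (U14_10_ok hN) rfl
theorem U24_11_ok {N : ℕ} (hN : N ≤ 80) : VOK N 168 11 24 1303 U24_11 :=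
  VOK_step (c := 10) (L1 := 1204) (L2 := 99) (h := 202272) (by omega) hN (by norm_num)
    (U24_10_ok hN) (U13_11_ok hN) rfl
theorem U24_12_ok {N : ℕ} (hN : N ≤ 80) : VOK N 168 12 24 1380 U24_12 :=
  VOK_step (c := 11) (L1 := 1303) (L2 := 77) (h := 218904) (by omega) hN (by norm_num)
    (U24_11_ok hN) (U12_12_ok hN) rfl
theorem U24_13_ok {N : ℕ} (hN : N ≤ 80) : VOK N 168 13 24 1436 U24_13 :=
  VOK_step (c := 12) (L1 := 1380) (L2 := 56) (h := 231840) (by omega) hN (by norm_num)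
    (U24_12_ok hN) (VOK_up le_rfl (by norm_num) (U11_11_ok hN)) rfl
theorem U24_14_ok {N : ℕ} (hN : N ≤ 80) : VOK N 168 14 24 1478 U24_14 :=
  VOK_step (c := 13) (L1 := 1436) (L2 := 42) (h := 241248) (by omega) hN (by norm_num)
    (U24_13_ok hN) (VOK_up le_rfl (by norm_num) (U10_10_ok hN)) rfl
theorem U24_15_ok {N : ℕ} (hN : N ≤ 80) : VOK N 168 15 24 1508 U24_15 :=
  VOK_step (c := 14) (L1 := 1478) (L2 := 30) (h := 248304) (by omega) hN (by norm_num)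
    (U24_14_ok hN) (VOK_up le_rfl (by norm_num) (U9_9_ok hN)) rfl
theorem U24_16_ok {N : ℕ} (hN : N ≤ 80) : VOK N 168 16 24 1530 U24_16 :=
  VOK_step (c := 15) (L1 := 1508) (L2 := 22) (h := 253344) (by omega) hN (by norm_num)
    (U24_15_ok hN) (VOK_up le_rfl (by norm_num) (U8_8_ok hN)) rfl
theorem U24_17_ok {N : ℕ} (hN : N ≤ 80) : VOK N 168 17 24 1545 U24_17 :=
  VOK_step (c := 16) (L1 := 1530) (L2 := 15) (h := 257040) (by omega) hN (by norm_num)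
    (U24_16_ok hN) (VOK_up le_rfl (by norm_num) (U7_7_ok hN)) rfl
theorem U24_18_ok {N : ℕ} (hN : N ≤ 80) : VOK N 168 18 24 1556 U24_18 :=
  VOK_step (c := 17) (L1 := 1545) (L2 := 11) (h := 259560) (by omega) hN (by norm_num)
    (U24_17_ok hN) (VOK_up le_rfl (by norm_num) (U6_6_ok hN)) rfl
theorem U24_19_ok {N : ℕ} (hN : N ≤ 80) : VOK N 168 19 24 1563 U24_19 :=
  VOK_step (c := 18) (L1 := 1556) (L2 := 7) (h := 261408) (by omega) hN (by norm_num)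
    (U24_18_ok hN) (VOK_up le_rfl (by norm_num) (U5_5_ok hN)) rfl
theorem U24_20_ok {N : ℕ} (hN : N ≤ 80) : VOK N 168 20 24 1568 U24_20 :=
  VOK_step (c := 19) (L1 := 1563) (L2 := 5) (h := 262584) (by omega) hN (by norm_num)
    (U24_19_ok hN) (VOK_up le_rfl (by norm_num) (U4_4_ok hN)) rfl
theorem U24_21_ok {N : ℕ} (hN : N ≤ 80) : VOK N 168 21 24 1571 U24_21 :=
  VOK_step (c := 20) (L1 := 1568) (L2 := 3) (h := 263424) (by omega) hN (by norm_num)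
    (U24_20_ok hN) (VOK_up le_rfl (by norm_num) (U3_3_ok hN)) rfl
theorem U24_22_ok {N : ℕ} (hN : N ≤ 80) : VOK N 168 22 24 1573 U24_22 :=
  VOK_step (c := 21) (L1 := 1571) (L2 := 2) (h := 263928) (by omega) hN (by norm_num)
    (U24_21_ok hN) (VOK_up le_rfl (by norm_num) (U2_2_ok hN)) rfl
theorem U24_23_ok {N : ℕ} (hN : N ≤ 80) : VOK N 168 23 24 1574 U24_23 :=
  VOK_step (c := 22) (L1 := 1573) (L2 := 1) (h := 264264) (by omega) hN (by norm_num)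
    (U24_22_ok hN) (VOK_up le_rfl (by norm_num) (U1_1_ok hN)) rfl
theorem U24_24_ok {N : ℕ} (hN : N ≤ 80) : VOK N 168 24 24 1575 U24_24 :=
  VOK_step (c := 23) (L1 := 1574) (L2 := 1) (h := 264432) (by omega) hN (by norm_num)
    (U24_23_ok hN) (VOK_up le_rfl (Nat.zero_le _) (VOK_zero N 168)) rfl
theorem U25_1_ok {N : ℕ} (hN : N ≤ 80) : VOK N 168 1 25 1 U25_1 :=
  VOK_step (c := 0) (L1 := 0) (L2 := 1) (h := 0) (by omega) hN (by norm_num)
    (VOK_zero' N 168 24) (U24_1_ok hN) rfl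
theorem U25_2_ok {N : ℕ} (hN : N ≤ 80) : VOK N 168 2 25 13 U25_2 :=
  VOK_step (c := 1) (L1 := 1) (L2 := 12) (h := 168) (by omega) hN (by norm_num)
    (U25_1_ok hN) (U23_2_ok hN) rfl
theorem U25_3_ok {N : ℕ} (hN : N ≤ 80) : VOK N 168 3 25 65 U25_3 :=
  VOK_step (c := 2) (L1 := 13) (L2 := 52) (h := 2184) (by omega) hN (by norm_num)
    (U25_2_ok hN) (U22_3_ok hN) rfl
theorem U25_4_ok {N : ℕ} (hN : N ≤ 80) : VOK N 168 4 25 185 U25_4 :=
  VOK_step (c := 3) (L1 := 65) (L2 := 120) (h := 10920) (by omega) hN (by norm_num)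
    (U25_3_ok hN) (U21_4_ok hN) rfl
theorem U25_5_ok {N : ℕ} (hN : N ≤ 80) : VOK N 168 5 25 377 U25_5 :=
  VOK_step (c := 4) (L1 := 185) (L2 := 192) (h := 31080) (by omega) hN (by norm_num)
    (U25_4_ok hN) (U20_5_ok hN) rfl
theorem U25_6_ok {N : ℕ} (hN : N ≤ 80) : VOK N 168 6 25 612 U25_6 :=
  VOK_step (c := 5) (L1 := 377) (L2 := 235) (h := 63336) (by omega) hN (by norm_num)
    (U25_5_ok hN) (U19_6_ok hN) rfl
theorem U25_7_ok {N : ℕ} (hN : N ≤ 80) : VOK N 168 7 25 860 U25_7 :=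
  VOK_step (c := 6) (L1 := 612) (L2 := 248) (h := 102816) (by omega) hN (by norm_num)
    (U25_6_ok hN) (U18_7_ok hN) rfl
theorem U25_8_ok {N : ℕ} (hN : N ≤ 80) : VOK N 168 8 25 1090 U25_8 :=
  VOK_step (c := 7) (L1 := 860) (L2 := 230) (h := 144480) (by omega) hN (by norm_num)
    (U25_7_ok hN) (U17_8_ok hN) rfl
theorem U25_9_ok {N : ℕ} (hN : N ≤ 80) : VOK N 168 9 25 1291 U25_9 :=
  VOK_step (c := 8) (L1 := 1090) (L2 := 201) (h := 183120) (by omega) hN (by norm_num)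
    (U25_8_ok hN) (U16_9_ok hN) rfl
theorem U25_10_ok {N : ℕ} (hN : N ≤ 80) : VOK N 168 10 25 1455 U25_10 :=
  VOK_step (c := 9) (L1 := 1291) (L2 := 164) (h := 216888) (by omega) hN (by norm_num)
    (U25_9_ok hN) (U15_10_ok hN) rfl
theorem U25_11_ok {N : ℕ} (hN : N ≤ 80) : VOK N 168 11 25 1586 U25_11 :=
  VOK_step (c := 10) (L1 := 1455) (L2 := 131) (h := 244440) (by omega) hN (by norm_num)
    (U25_10_ok hN) (U14_11_ok hN) rfl
theorem U25_12_ok {N : ℕ} (hN : N ≤ 80) : VOK N 168 12 25 1686 U25_12 :=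
  VOK_step (c := 11) (L1 := 1586) (L2 := 100) (h := 266448) (by omega) hN (by norm_num)
    (U25_11_ok hN) (U13_12_ok hN) rfl
theorem U25_13_ok {N : ℕ} (hN : N ≤ 80) : VOK N 168 13 25 1763 U25_13 :=
  VOK_step (c := 12) (L1 := 1686) (L2 := 77) (h := 283248) (by omega) hN (by norm_num)
    (U25_12_ok hN) (VOK_up le_rfl (by norm_num) (U12_12_ok hN)) rfl
theorem U25_14_ok {N : ℕ} (hN : N ≤ 80) : VOK N 168 14 25 1819 U25_14 :=
  VOK_step (c := 13) (L1 := 1763) (L2 := 56) (h := 296184) (by omega) hN (by norm_num)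
    (U25_13_ok hN) (VOK_up le_rfl (by norm_num) (U11_11_ok hN)) rfl
theorem U25_15_ok {N : ℕ} (hN : N ≤ 80) : VOK N 168 15 25 1861 U25_15 :=
  VOK_step (c := 14) (L1 := 1819) (L2 := 42) (h := 305592) (by omega) hN (by norm_num)
    (U25_14_ok hN) (VOK_up le_rfl (by norm_num) (U10_10_ok hN)) rfl
theorem U25_16_ok {N : ℕ} (hN : N ≤ 80) : VOK N 168 16 25 1891 U25_16 :=
  VOK_step (c := 15) (L1 := 1861) (L2 := 30) (h := 312648) (by omega) hN (by norm_num)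
    (U25_15_ok hN) (VOK_up le_rfl (by norm_num) (U9_9_ok hN)) rfl
theorem U25_17_ok {N : ℕ} (hN : N ≤ 80) : VOK N 168 17 25 1913 U25_17 :=
  VOK_step (c := 16) (L1 := 1891) (L2 := 22) (h := 317688) (by omega) hN (by norm_num)
    (U25_16_ok hN) (VOK_up le_rfl (by norm_num) (U8_8_ok hN)) rfl
theorem U25_18_ok {N : ℕ} (hN : N ≤ 80) : VOK N 168 18 25 1928 U25_18 :=
  VOK_step (c := 17) (L1 := 1913) (L2 := 15) (h := 321384) (by omega) hN (by norm_num)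
    (U25_17_ok hN) (VOK_up le_rfl (by norm_num) (U7_7_ok hN)) rfl
theorem U25_19_ok {N : ℕ} (hN : N ≤ 80) : VOK N 168 19 25 1939 U25_19 :=
  VOK_step (c := 18) (L1 := 1928) (L2 := 11) (h := 323904) (by omega) hN (by norm_num)
    (U25_18_ok hN) (VOK_up le_rfl (by norm_num) (U6_6_ok hN)) rfl
theorem U25_20_ok {N : ℕ} (hN : N ≤ 80) : VOK N 168 20 25 1946 U25_20 :=
  VOK_step (c := 19) (L1 := 1939) (L2 := 7) (h := 325752) (by omega) hN (by norm_num)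
    (U25_19_ok hN) (VOK_up le_rfl (by norm_num) (U5_5_ok hN)) rfl
theorem U25_21_ok {N : ℕ} (hN : N ≤ 80) : VOK N 168 21 25 1951 U25_21 :=
  VOK_step (c := 20) (L1 := 1946) (L2 := 5) (h := 326928) (by omega) hN (by norm_num)
    (U25_20_ok hN) (VOK_up le_rfl (by norm_num) (U4_4_ok hN)) rfl
theorem U25_22_ok {N : ℕ} (hN : N ≤ 80) : VOK N 168 22 25 1954 U25_22 :=
  VOK_step (c := 21) (L1 := 1951) (L2 := 3) (h := 327768) (by omega) hN (by norm_num)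
    (U25_21_ok hN) (VOK_up le_rfl (by norm_num) (U3_3_ok hN)) rfl
theorem U25_23_ok {N : ℕ} (hN : N ≤ 80) : VOK N 168 23 25 1956 U25_23 :=
  VOK_step (c := 22) (L1 := 1954) (L2 := 2) (h := 328272) (by omega) hN (by norm_num)
    (U25_22_ok hN) (VOK_up le_rfl (by norm_num) (U2_2_ok hN)) rfl
theorem U25_24_ok {N : ℕ} (hN : N ≤ 80) : VOK N 168 24 25 1957 U25_24 :=
  VOK_step (c := 23) (L1 := 1956) (L2 := 1) (h := 328608) (by omega) hN (by norm_num)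
    (U25_23_ok hN) (VOK_up le_rfl (by norm_num) (U1_1_ok hN)) rfl
theorem U25_25_ok {N : ℕ} (hN : N ≤ 80) : VOK N 168 25 25 1958 U25_25 :=
  VOK_step (c := 24) (L1 := 1957) (L2 := 1) (h := 328776) (by omega) hN (by norm_num)
    (U25_24_ok hN) (VOK_up le_rfl (Nat.zero_le _) (VOK_zero N 168)) rfl
theorem U26_1_ok {N : ℕ} (hN : N ≤ 80) : VOK N 168 1 26 1 U26_1 :=
  VOK_step (c := 0) (L1 := 0) (L2 := 1) (h := 0) (by omega) hN (by norm_num)
    (VOK_zero' N 168 25) (U25_1_ok hN) rfl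
theorem U26_2_ok {N : ℕ} (hN : N ≤ 80) : VOK N 168 2 26 14 U26_2 :=
  VOK_step (c := 1) (L1 := 1) (L2 := 13) (h := 168) (by omega) hN (by norm_num)
    (U26_1_ok hN) (U24_2_ok hN) rfl
theorem U26_3_ok {N : ℕ} (hN : N ≤ 80) : VOK N 168 3 26 70 U26_3 :=
  VOK_step (c := 2) (L1 := 14) (L2 := 56) (h := 2352) (by omega) hN (by norm_num)
    (U26_2_ok hN) (U23_3_ok hN) rfl
theorem U26_4_ok {N : ℕ} (hN : N ≤ 80) : VOK N 168 4 26 206 U26_4 :=
  VOK_step (c := 3) (L1 := 70) (L2 := 136) (h := 11760) (by omega) hN (by norm_num)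
    (U26_3_ok hN) (U22_4_ok hN) rfl
theorem U26_5_ok {N : ℕ} (hN : N ≤ 80) : VOK N 168 5 26 427 U26_5 :=
  VOK_step (c := 4) (L1 := 206) (L2 := 221) (h := 34608) (by omega) hN (by norm_num)
    (U26_4_ok hN) (U21_5_ok hN) rfl
theorem U26_6_ok {N : ℕ} (hN : N ≤ 80) : VOK N 168 6 26 709 U26_6 :=
  VOK_step (c := 5) (L1 := 427) (L2 := 282) (h := 71736) (by omega) hN (by norm_num)
    (U26_5_ok hN) (U20_6_ok hN) rfl
theorem U26_7_ok {N : ℕ} (hN : N ≤ 80) : VOK N 168 7 26 1009 U26_7 :=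
  VOK_step (c := 6) (L1 := 709) (L2 := 300) (h := 119112) (by omega) hN (by norm_num)
    (U26_6_ok hN) (U19_7_ok hN) rfl
theorem U26_8_ok {N : ℕ} (hN : N ≤ 80) : VOK N 168 8 26 1297 U26_8 :=
  VOK_step (c := 7) (L1 := 1009) (L2 := 288) (h := 169512) (by omega) hN (by norm_num)
    (U26_7_ok hN) (U18_8_ok hN) rfl
theorem U26_9_ok {N : ℕ} (hN : N ≤ 80) : VOK N 168 9 26 1549 U26_9 :=
  VOK_step (c := 8) (L1 := 1297) (L2 := 252) (h := 217896) (by omega) hN (by norm_num)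
    (U26_8_ok hN) (U17_9_ok hN) rfl
theorem U26_10_ok {N : ℕ} (hN : N ≤ 80) : VOK N 168 10 26 1761 U26_10 :=
  VOK_step (c := 9) (L1 := 1549) (L2 := 212) (h := 260232) (by omega) hN (by norm_num)
    (U26_9_ok hN) (U16_10_ok hN) rfl
theorem U26_11_ok {N : ℕ} (hN : N ≤ 80) : VOK N 168 11 26 1930 U26_11 :=
  VOK_step (c := 10) (L1 := 1761) (L2 := 169) (h := 295848) (by omega) hN (by norm_num)
    (U26_10_ok hN) (U15_11_ok hN) rfl
theorem U26_12_ok {N : ℕ} (hN : N ≤ 80) : VOK N 168 12 26 2063 U26_12 :=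
  VOK_step (c := 11) (L1 := 1930) (L2 := 133) (h := 324240) (by omega) hN (by norm_num)
    (U26_11_ok hN) (U14_12_ok hN) rfl
theorem U26_13_ok {N : ℕ} (hN : N ≤ 80) : VOK N 168 13 26 2164 U26_13 :=
  VOK_step (c := 12) (L1 := 2063) (L2 := 101) (h := 346584) (by omega) hN (by norm_num)
    (U26_12_ok hN) (U13_13_ok hN) rfl
theorem U26_14_ok {N : ℕ} (hN : N ≤ 80) : VOK N 168 14 26 2241 U26_14 :=
  VOK_step (c := 13) (L1 := 2164) (L2 := 77) (h := 363552) (by omega) hN (by norm_num)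
    (U26_13_ok hN) (VOK_up le_rfl (by norm_num) (U12_12_ok hN)) rfl
theorem U26_15_ok {N : ℕ} (hN : N ≤ 80) : VOK N 168 15 26 2297 U26_15 :=
  VOK_step (c := 14) (L1 := 2241) (L2 := 56) (h := 376488) (by omega) hN (by norm_num)
    (U26_14_ok hN) (VOK_up le_rfl (by norm_num) (U11_11_ok hN)) rfl
theorem U26_16_ok {N : ℕ} (hN : N ≤ 80) : VOK N 168 16 26 2339 U26_16 :=
  VOK_step (c := 15) (L1 := 2297) (L2 := 42) (h := 385896) (by omega) hN (by norm_num)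
    (U26_15_ok hN) (VOK_up le_rfl (by norm_num) (U10_10_ok hN)) rfl
theorem U26_17_ok {N : ℕ} (hN : N ≤ 80) : VOK N 168 17 26 2369 U26_17 :=
  VOK_step (c := 16) (L1 := 2339) (L2 := 30) (h := 392952) (by omega) hN (by norm_num)
    (U26_16_ok hN) (VOK_up le_rfl (by norm_num) (U9_9_ok hN)) rfl
theorem U26_18_ok {N : ℕ} (hN : N ≤ 80) : VOK N 168 18 26 2391 U26_18 :=
  VOK_step (c := 17) (L1 := 2369) (L2 := 22) (h := 397992) (by omega) hN (by norm_num)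
    (U26_17_ok hN) (VOK_up le_rfl (by norm_num) (U8_8_ok hN)) rfl
theorem U26_19_ok {N : ℕ} (hN : N ≤ 80) : VOK N 168 19 26 2406 U26_19 :=
  VOK_step (c := 18) (L1 := 2391) (L2 := 15) (h := 401688) (by omega) hN (by norm_num)
    (U26_18_ok hN) (VOK_up le_rfl (by norm_num) (U7_7_ok hN)) rfl
theorem U26_20_ok {N : ℕ} (hN : N ≤ 80) : VOK N 168 20 26 2417 U26_20 :=
  VOK_step (c := 19) (L1 := 2406) (L2 := 11) (h := 404208) (by omega) hN (by norm_num)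
    (U26_19_ok hN) (VOK_up le_rfl (by norm_num) (U6_6_ok hN)) rfl
theorem U26_21_ok {N : ℕ} (hN : N ≤ 80) : VOK N 168 21 26 2424 U26_21 :=
  VOK_step (c := 20) (L1 := 2417) (L2 := 7) (h := 406056) (by omega) hN (by norm_num)
    (U26_20_ok hN) (VOK_up le_rfl (by norm_num) (U5_5_ok hN)) rfl
theorem U26_22_ok {N : ℕ} (hN : N ≤ 80) : VOK N 168 22 26 2429 U26_22 :=
  VOK_step (c := 21) (L1 := 2424) (L2 := 5) (h := 407232) (by omega) hN (by norm_num)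
    (U26_21_ok hN) (VOK_up le_rfl (by norm_num) (U4_4_ok hN)) rfl
theorem U26_23_ok {N : ℕ} (hN : N ≤ 80) : VOK N 168 23 26 2432 U26_23 :=
  VOK_step (c := 22) (L1 := 2429) (L2 := 3) (h := 408072) (by omega) hN (by norm_num)
    (U26_22_ok hN) (VOK_up le_rfl (by norm_num) (U3_3_ok hN)) rfl
theorem U26_24_ok {N : ℕ} (hN : N ≤ 80) : VOK N 168 24 26 2434 U26_24 :=
  VOK_step (c := 23) (L1 := 2432) (L2 := 2) (h := 408576) (by omega) hN (by norm_num)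
    (U26_23_ok hN) (VOK_up le_rfl (by norm_num) (U2_2_ok hN)) rfl
theorem U26_25_ok {N : ℕ} (hN : N ≤ 80) : VOK N 168 25 26 2435 U26_25 :=
  VOK_step (c := 24) (L1 := 2434) (L2 := 1) (h := 408912) (by omega) hN (by norm_num)
    (U26_24_ok hN) (VOK_up le_rfl (by norm_num) (U1_1_ok hN)) rfl
theorem U26_26_ok {N : ℕ} (hN : N ≤ 80) : VOK N 168 26 26 2436 U26_26 :=
  VOK_step (c := 25) (L1 := 2435) (L2 := 1) (h := 409080) (by omega) hN (by norm_num)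
    (U26_25_ok hN) (VOK_up le_rfl (Nat.zero_le _) (VOK_zero N 168)) rfl
theorem U27_1_ok {N : ℕ} (hN : N ≤ 80) : VOK N 168 1 27 1 U27_1 :=
  VOK_step (c := 0) (L1 := 0) (L2 := 1) (h := 0) (by omega) hN (by norm_num)
    (VOK_zero' N 168 26) (U26_1_ok hN) rfl
theorem U27_2_ok {N : ℕ} (hN : N ≤ 80) : VOK N 168 2 27 14 U27_2 :=
  VOK_step (c := 1) (L1 := 1) (L2 := 13) (h := 168) (by omega) hN (by norm_num)
    (U27_1_ok hN) (U25_2_ok hN) rfl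
theorem U27_3_ok {N : ℕ} (hN : N ≤ 80) : VOK N 168 3 27 75 U27_3 :=
  VOK_step (c := 2) (L1 := 14) (L2 := 61) (h := 2352) (by omega) hN (by norm_num)
    (U27_2_ok hN) (U24_3_ok hN) rfl
theorem U27_4_ok {N : ℕ} (hN : N ≤ 80) : VOK N 168 4 27 225 U27_4 :=
  VOK_step (c := 3) (L1 := 75) (L2 := 150) (h := 12600) (by omega) hN (by norm_num)
    (U27_3_ok hN) (U23_4_ok hN) rfl
theorem U27_5_ok {N : ℕ} (hN : N ≤ 80) : VOK N 168 5 27 480 U27_5 :=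
  VOK_step (c := 4) (L1 := 225) (L2 := 255) (h := 37800) (by omega) hN (by norm_num)
    (U27_4_ok hN) (U22_5_ok hN) rfl
theorem U27_6_ok {N : ℕ} (hN : N ≤ 80) : VOK N 168 6 27 811 U27_6 :=
  VOK_step (c := 5) (L1 := 480) (L2 := 331) (h := 80640) (by omega) hN (by norm_num)
    (U27_5_ok hN) (U21_6_ok hN) rfl
theorem U27_7_ok {N : ℕ} (hN : N ≤ 80) : VOK N 168 7 27 1175 U27_7 :=
  VOK_step (c := 6) (L1 := 811) (L2 := 364) (h := 136248) (by omega) hN (by norm_num)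
    (U27_6_ok hN) (U20_7_ok hN) rfl
theorem U27_8_ok {N : ℕ} (hN : N ≤ 80) : VOK N 168 8 27 1527 U27_8 :=
  VOK_step (c := 7) (L1 := 1175) (L2 := 352) (h := 197400) (by omega) hN (by norm_num)
    (U27_7_ok hN) (U19_8_ok hN) rfl
theorem U27_9_ok {N : ℕ} (hN : N ≤ 80) : VOK N 168 9 27 1845 U27_9 :=
  VOK_step (c := 8) (L1 := 1527) (L2 := 318) (h := 256536) (by omega) hN (by norm_num)
    (U27_8_ok hN) (U18_9_ok hN) rfl
theorem U27_10_ok {N : ℕ} (hN : N ≤ 80) : VOK N 168 10 27 2112 U27_10 :=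
  VOK_step (c := 9) (L1 := 1845) (L2 := 267) (h := 309960) (by omega) hN (by norm_num)
    (U27_9_ok hN) (U17_10_ok hN) rfl
theorem U27_11_ok {N : ℕ} (hN : N ≤ 80) : VOK N 168 11 27 2331 U27_11 :=
  VOK_step (c := 10) (L1 := 2112) (L2 := 219) (h := 354816) (by omega) hN (by norm_num)
    (U27_10_ok hN) (U16_11_ok hN) rfl
theorem U27_12_ok {N : ℕ} (hN : N ≤ 80) : VOK N 168 12 27 2503 U27_12 :=
  VOK_step (c := 11) (L1 := 2331) (L2 := 172) (h := 391608) (by omega) hN (by norm_num)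
    (U27_11_ok hN) (U15_12_ok hN) rfl
theorem U27_13_ok {N : ℕ} (hN : N ≤ 80) : VOK N 168 13 27 2637 U27_13 :=
  VOK_step (c := 12) (L1 := 2503) (L2 := 134) (h := 420504) (by omega) hN (by norm_num)
    (U27_12_ok hN) (U14_13_ok hN) rfl
theorem U27_14_ok {N : ℕ} (hN : N ≤ 80) : VOK N 168 14 27 2738 U27_14 :=
  VOK_step (c := 13) (L1 := 2637) (L2 := 101) (h := 443016) (by omega) hN (by norm_num)
    (U27_13_ok hN) (VOK_up le_rfl (by norm_num) (U13_13_ok hN)) rfl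
theorem U27_15_ok {N : ℕ} (hN : N ≤ 80) : VOK N 168 15 27 2815 U27_15 :=
  VOK_step (c := 14) (L1 := 2738) (L2 := 77) (h := 459984) (by omega) hN (by norm_num)
    (U27_14_ok hN) (VOK_up le_rfl (by norm_num) (U12_12_ok hN)) rfl
theorem U27_16_ok {N : ℕ} (hN : N ≤ 80) : VOK N 168 16 27 2871 U27_16 :=
  VOK_step (c := 15) (L1 := 2815) (L2 := 56) (h := 472920) (by omega) hN (by norm_num)
    (U27_15_ok hN) (VOK_up le_rfl (by norm_num) (U11_11_ok hN)) rfl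
theorem U27_17_ok {N : ℕ} (hN : N ≤ 80) : VOK N 168 17 27 2913 U27_17 :=
  VOK_step (c := 16) (L1 := 2871) (L2 := 42) (h := 482328) (by omega) hN (by norm_num)
    (U27_16_ok hN) (VOK_up le_rfl (by norm_num) (U10_10_ok hN)) rfl
theorem U27_18_ok {N : ℕ} (hN : N ≤ 80) : VOK N 168 18 27 2943 U27_18 :=
  VOK_step (c := 17) (L1 := 2913) (L2 := 30) (h := 489384) (by omega) hN (by norm_num)
    (U27_17_ok hN) (VOK_up le_rfl (by norm_num) (U9_9_ok hN)) rfl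
theorem U27_19_ok {N : ℕ} (hN : N ≤ 80) : VOK N 168 19 27 2965 U27_19 :=
  VOK_step (c := 18) (L1 := 2943) (L2 := 22) (h := 494424) (by omega) hN (by norm_num)
    (U27_18_ok hN) (VOK_up le_rfl (by norm_num) (U8_8_ok hN)) rfl
theorem U27_20_ok {N : ℕ} (hN : N ≤ 80) : VOK N 168 20 27 2980 U27_20 :=
  VOK_step (c := 19) (L1 := 2965) (L2 := 15) (h := 498120) (by omega) hN (by norm_num)
    (U27_19_ok hN) (VOK_up le_rfl (by norm_num) (U7_7_ok hN)) rfl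
theorem U27_21_ok {N : ℕ} (hN : N ≤ 80) : VOK N 168 21 27 2991 U27_21 :=
  VOK_step (c := 20) (L1 := 2980) (L2 := 11) (h := 500640) (by omega) hN (by norm_num)
    (U27_20_ok hN) (VOK_up le_rfl (by norm_num) (U6_6_ok hN)) rfl
theorem U27_22_ok {N : ℕ} (hN : N ≤ 80) : VOK N 168 22 27 2998 U27_22 :=
  VOK_step (c := 21) (L1 := 2991) (L2 := 7) (h := 502488) (by omega) hN (by norm_num)
    (U27_21_ok hN) (VOK_up le_rfl (by norm_num) (U5_5_ok hN)) rfl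
theorem U27_23_ok {N : ℕ} (hN : N ≤ 80) : VOK N 168 23 27 3003 U27_23 :=
  VOK_step (c := 22) (L1 := 2998) (L2 := 5) (h := 503664) (by omega) hN (by norm_num)
    (U27_22_ok hN) (VOK_up le_rfl (by norm_num) (U4_4_ok hN)) rfl
theorem U27_24_ok {N : ℕ} (hN : N ≤ 80) : VOK N 168 24 27 3006 U27_24 :=
  VOK_step (c := 23) (L1 := 3003) (L2 := 3) (h := 504504) (by omega) hN (by norm_num)
    (U27_23_ok hN) (VOK_up le_rfl (by norm_num) (U3_3_ok hN)) rfl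
theorem U27_25_ok {N : ℕ} (hN : N ≤ 80) : VOK N 168 25 27 3008 U27_25 :=
  VOK_step (c := 24) (L1 := 3006) (L2 := 2) (h := 505008) (by omega) hN (by norm_num)
    (U27_24_ok hN) (VOK_up le_rfl (by norm_num) (U2_2_ok hN)) rfl
theorem U27_26_ok {N : ℕ} (hN : N ≤ 80) : VOK N 168 26 27 3009 U27_26 :=
  VOK_step (c := 25) (L1 := 3008) (L2 := 1) (h := 505344) (by omega) hN (by norm_num)
    (U27_25_ok hN) (VOK_up le_rfl (by norm_num) (U1_1_ok hN)) rfl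
theorem U27_27_ok {N : ℕ} (hN : N ≤ 80) : VOK N 168 27 27 3010 U27_27 :=
  VOK_step (c := 26) (L1 := 3009) (L2 := 1) (h := 505512) (by omega) hN (by norm_num)
    (U27_26_ok hN) (VOK_up le_rfl (Nat.zero_le _) (VOK_zero N 168)) rfl
theorem U28_1_ok {N : ℕ} (hN : N ≤ 80) : VOK N 168 1 28 1 U28_1 :=
  VOK_step (c := 0) (L1 := 0) (L2 := 1) (h := 0) (by omega) hN (by norm_num)
    (VOK_zero' N 168 27) (U27_1_ok hN) rfl
theorem U28_2_ok {N : ℕ} (hN : N ≤ 80) : VOK N 168 2 28 15 U28_2 :=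
  VOK_step (c := 1) (L1 := 1) (L2 := 14) (h := 168) (by omega) hN (by norm_num)
    (U28_1_ok hN) (U26_2_ok hN) rfl
theorem U28_3_ok {N : ℕ} (hN : N ≤ 80) : VOK N 168 3 28 80 U28_3 :=
  VOK_step (c := 2) (L1 := 15) (L2 := 65) (h := 2520) (by omega) hN (by norm_num)
    (U28_2_ok hN) (U25_3_ok hN) rfl
theorem U28_4_ok {N : ℕ} (hN : N ≤ 80) : VOK N 168 4 28 249 U28_4 :=
  VOK_step (c := 3) (L1 := 80) (L2 := 169) (h := 13440) (by omega) hN (by norm_num)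
    (U28_3_ok hN) (U24_4_ok hN) rfl
theorem U28_5_ok {N : ℕ} (hN : N ≤ 80) : VOK N 168 5 28 540 U28_5 :=
  VOK_step (c := 4) (L1 := 249) (L2 := 291) (h := 41832) (by omega) hN (by norm_num)
    (U28_4_ok hN) (U23_5_ok hN) rfl
theorem U28_6_ok {N : ℕ} (hN : N ≤ 80) : VOK N 168 6 28 931 U28_6 :=
  VOK_step (c := 5) (L1 := 540) (L2 := 391) (h := 90720) (by omega) hN (by norm_num)
    (U28_5_ok hN) (U22_6_ok hN) rfl
theorem U28_7_ok {N : ℕ} (hN : N ≤ 80) : VOK N 168 7 28 1367 U28_7 :=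
  VOK_step (c := 6) (L1 := 931) (L2 := 436) (h := 156408) (by omega) hN (by norm_num)
    (U28_6_ok hN) (U21_7_ok hN) rfl
theorem U28_8_ok {N : ℕ} (hN : N ≤ 80) : VOK N 168 8 28 1801 U28_8 :=
  VOK_step (c := 7) (L1 := 1367) (L2 := 434) (h := 229656) (by omega) hN (by norm_num)
    (U28_7_ok hN) (U20_8_ok hN) rfl
theorem U28_9_ok {N : ℕ} (hN : N ≤ 80) : VOK N 168 9 28 2194 U28_9 :=
  VOK_step (c := 8) (L1 := 1801) (L2 := 393) (h := 302568) (by omega) hN (by norm_num)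
    (U28_8_ok hN) (U19_9_ok hN) rfl
theorem U28_10_ok {N : ℕ} (hN : N ≤ 80) : VOK N 168 10 28 2534 U28_10 :=
  VOK_step (c := 9) (L1 := 2194) (L2 := 340) (h := 368592) (by omega) hN (by norm_num)
    (U28_9_ok hN) (U18_10_ok hN) rfl
theorem U28_11_ok {N : ℕ} (hN : N ≤ 80) : VOK N 168 11 28 2812 U28_11 :=
  VOK_step (c := 10) (L1 := 2534) (L2 := 278) (h := 425712) (by omega) hN (by norm_num)
    (U28_10_ok hN) (U17_11_ok hN) rfl
theorem U28_12_ok {N : ℕ} (hN : N ≤ 80) : VOK N 168 12 28 3036 U28_12 :=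
  VOK_step (c := 11) (L1 := 2812) (L2 := 224) (h := 472416) (by omega) hN (by norm_num)
    (U28_11_ok hN) (U16_12_ok hN) rfl
theorem U28_13_ok {N : ℕ} (hN : N ≤ 80) : VOK N 168 13 28 3210 U28_13 :=
  VOK_step (c := 12) (L1 := 3036) (L2 := 174) (h := 510048) (by omega) hN (by norm_num)
    (U28_12_ok hN) (U15_13_ok hN) rfl
theorem U28_14_ok {N : ℕ} (hN : N ≤ 80) : VOK N 168 14 28 3345 U28_14 :=
  VOK_step (c := 13) (L1 := 3210) (L2 := 135) (h := 539280) (by omega) hN (by norm_num)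
    (U28_13_ok hN) (U14_14_ok hN) rfl
theorem U28_15_ok {N : ℕ} (hN : N ≤ 80) : VOK N 168 15 28 3446 U28_15 :=
  VOK_step (c := 14) (L1 := 3345) (L2 := 101) (h := 561960) (by omega) hN (by norm_num)
    (U28_14_ok hN) (VOK_up le_rfl (by norm_num) (U13_13_ok hN)) rfl
theorem U28_16_ok {N : ℕ} (hN : N ≤ 80) : VOK N 168 16 28 3523 U28_16 :=
  VOK_step (c := 15) (L1 := 3446) (L2 := 77) (h := 578928) (by omega) hN (by norm_num)
    (U28_15_ok hN) (VOK_up le_rfl (by norm_num) (U12_12_ok hN)) rfl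
theorem U28_17_ok {N : ℕ} (hN : N ≤ 80) : VOK N 168 17 28 3579 U28_17 :=
  VOK_step (c := 16) (L1 := 3523) (L2 := 56) (h := 591864) (by omega) hN (by norm_num)
    (U28_16_ok hN) (VOK_up le_rfl (by norm_num) (U11_11_ok hN)) rfl
theorem U28_18_ok {N : ℕ} (hN : N ≤ 80) : VOK N 168 18 28 3621 U28_18 :=
  VOK_step (c := 17) (L1 := 3579) (L2 := 42) (h := 601272) (by omega) hN (by norm_num)
    (U28_17_ok hN) (VOK_up le_rfl (by norm_num) (U10_10_ok hN)) rfl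
theorem U28_19_ok {N : ℕ} (hN : N ≤ 80) : VOK N 168 19 28 3651 U28_19 :=
  VOK_step (c := 18) (L1 := 3621) (L2 := 30) (h := 608328) (by omega) hN (by norm_num)
    (U28_18_ok hN) (VOK_up le_rfl (by norm_num) (U9_9_ok hN)) rfl
theorem U28_20_ok {N : ℕ} (hN : N ≤ 80) : VOK N 168 20 28 3673 U28_20 :=
  VOK_step (c := 19) (L1 := 3651) (L2 := 22) (h := 613368) (by omega) hN (by norm_num)
    (U28_19_ok hN) (VOK_up le_rfl (by norm_num) (U8_8_ok hN)) rfl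
theorem U28_21_ok {N : ℕ} (hN : N ≤ 80) : VOK N 168 21 28 3688 U28_21 :=
  VOK_step (c := 20) (L1 := 3673) (L2 := 15) (h := 617064) (by omega) hN (by norm_num)
    (U28_20_ok hN) (VOK_up le_rfl (by norm_num) (U7_7_ok hN)) rfl
theorem U28_22_ok {N : ℕ} (hN : N ≤ 80) : VOK N 168 22 28 3699 U28_22 :=
  VOK_step (c := 21) (L1 := 3688) (L2 := 11) (h := 619584) (by omega) hN (by norm_num)
    (U28_21_ok hN) (VOK_up le_rfl (by norm_num) (U6_6_ok hN)) rfl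
theorem U28_23_ok {N : ℕ} (hN : N ≤ 80) : VOK N 168 23 28 3706 U28_23 :=
  VOK_step (c := 22) (L1 := 3699) (L2 := 7) (h := 621432) (by omega) hN (by norm_num)
    (U28_22_ok hN) (VOK_up le_rfl (by norm_num) (U5_5_ok hN)) rfl
theorem U28_24_ok {N : ℕ} (hN : N ≤ 80) : VOK N 168 24 28 3711 U28_24 :=
  VOK_step (c := 23) (L1 := 3706) (L2 := 5) (h := 622608) (by omega) hN (by norm_num)
    (U28_23_ok hN) (VOK_up le_rfl (by norm_num) (U4_4_ok hN)) rfl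
theorem U28_25_ok {N : ℕ} (hN : N ≤ 80) : VOK N 168 25 28 3714 U28_25 :=
  VOK_step (c := 24) (L1 := 3711) (L2 := 3) (h := 623448) (by omega) hN (by norm_num)
    (U28_24_ok hN) (VOK_up le_rfl (by norm_num) (U3_3_ok hN)) rfl
theorem U28_26_ok {N : ℕ} (hN : N ≤ 80) : VOK N 168 26 28 3716 U28_26 :=
  VOK_step (c := 25) (L1 := 3714) (L2 := 2) (h := 623952) (by omega) hN (by norm_num)
    (U28_25_ok hN) (VOK_up le_rfl (by norm_num) (U2_2_ok hN)) rfl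
theorem U28_27_ok {N : ℕ} (hN : N ≤ 80) : VOK N 168 27 28 3717 U28_27 :=
  VOK_step (c := 26) (L1 := 3716) (L2 := 1) (h := 624288) (by omega) hN (by norm_num)
    (U28_26_ok hN) (VOK_up le_rfl (by norm_num) (U1_1_ok hN)) rfl
theorem U28_28_ok {N : ℕ} (hN : N ≤ 80) : VOK N 168 28 28 3718 U28_28 :=
  VOK_step (c := 27) (L1 := 3717) (L2 := 1) (h := 624456) (by omega) hN (by norm_num)
    (U28_27_ok hN) (VOK_up le_rfl (Nat.zero_le _) (VOK_zero N 168)) rfl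
theorem U29_1_ok {N : ℕ} (hN : N ≤ 80) : VOK N 168 1 29 1 U29_1 :=
  VOK_step (c := 0) (L1 := 0) (L2 := 1) (h := 0) (by omega) hN (by norm_num)
    (VOK_zero' N 168 28) (U28_1_ok hN) rfl
theorem U29_2_ok {N : ℕ} (hN : N ≤ 80) : VOK N 168 2 29 15 U29_2 :=
  VOK_step (c := 1) (L1 := 1) (L2 := 14) (h := 168) (by omega) hN (by norm_num)
    (U29_1_ok hN) (U27_2_ok hN) rfl
theorem U29_3_ok {N : ℕ} (hN : N ≤ 80) : VOK N 168 3 29 85 U29_3 :=
  VOK_step (c := 2) (L1 := 15) (L2 := 70) (h := 2520) (by omega) hN (by norm_num)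
    (U29_2_ok hN) (U26_3_ok hN) rfl
theorem U29_4_ok {N : ℕ} (hN : N ≤ 80) : VOK N 168 4 29 270 U29_4 :=
  VOK_step (c := 3) (L1 := 85) (L2 := 185) (h := 14280) (by omega) hN (by norm_num)
    (U29_3_ok hN) (U25_4_ok hN) rfl
theorem U29_5_ok {N : ℕ} (hN : N ≤ 80) : VOK N 168 5 29 603 U29_5 :=
  VOK_step (c := 4) (L1 := 270) (L2 := 333) (h := 45360) (by omega) hN (by norm_num)
    (U29_4_ok hN) (U24_5_ok hN) rfl
theorem U29_6_ok {N : ℕ} (hN : N ≤ 80) : VOK N 168 6 29 1057 U29_6 :=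
  VOK_step (c := 5) (L1 := 603) (L2 := 454) (h := 101304) (by omega) hN (by norm_num)
    (U29_5_ok hN) (U23_6_ok hN) rfl
theorem U29_7_ok {N : ℕ} (hN : N ≤ 80) : VOK N 168 7 29 1579 U29_7 :=
  VOK_step (c := 6) (L1 := 1057) (L2 := 522) (h := 177576) (by omega) hN (by norm_num)
    (U29_6_ok hN) (U22_7_ok hN) rfl
theorem U29_8_ok {N : ℕ} (hN : N ≤ 80) : VOK N 168 8 29 2104 U29_8 :=
  VOK_step (c := 7) (L1 := 1579) (L2 := 525) (h := 265272) (by omega) hN (by norm_num)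
    (U29_7_ok hN) (U21_8_ok hN) rfl
theorem U29_9_ok {N : ℕ} (hN : N ≤ 80) : VOK N 168 9 29 2592 U29_9 :=
  VOK_step (c := 8) (L1 := 2104) (L2 := 488) (h := 353472) (by omega) hN (by norm_num)
    (U29_8_ok hN) (U20_9_ok hN) rfl
theorem U29_10_ok {N : ℕ} (hN : N ≤ 80) : VOK N 168 10 29 3015 U29_10 :=
  VOK_step (c := 9) (L1 := 2592) (L2 := 423) (h := 435456) (by omega) hN (by norm_num)
    (U29_9_ok hN) (U19_10_ok hN) rfl
theorem U29_11_ok {N : ℕ} (hN : N ≤ 80) : VOK N 168 11 29 3370 U29_11 :=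
  VOK_step (c := 10) (L1 := 3015) (L2 := 355) (h := 506520) (by omega) hN (by norm_num)
    (U29_10_ok hN) (U18_11_ok hN) rfl
theorem U29_12_ok {N : ℕ} (hN : N ≤ 80) : VOK N 168 12 29 3655 U29_12 :=
  VOK_step (c := 11) (L1 := 3370) (L2 := 285) (h := 566160) (by omega) hN (by norm_num)
    (U29_11_ok hN) (U17_12_ok hN) rfl
theorem U29_13_ok {N : ℕ} (hN : N ≤ 80) : VOK N 168 13 29 3882 U29_13 :=
  VOK_step (c := 12) (L1 := 3655) (L2 := 227) (h := 614040) (by omega) hN (by norm_num)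
    (U29_12_ok hN) (U16_13_ok hN) rfl
theorem U29_14_ok {N : ℕ} (hN : N ≤ 80) : VOK N 168 14 29 4057 U29_14 :=
  VOK_step (c := 13) (L1 := 3882) (L2 := 175) (h := 652176) (by omega) hN (by norm_num)
    (U29_13_ok hN) (U15_14_ok hN) rfl
theorem U29_15_ok {N : ℕ} (hN : N ≤ 80) : VOK N 168 15 29 4192 U29_15 :=
  VOK_step (c := 14) (L1 := 4057) (L2 := 135) (h := 681576) (by omega) hN (by norm_num)
    (U29_14_ok hN) (VOK_up le_rfl (by norm_num) (U14_14_ok hN)) rfl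
theorem U29_16_ok {N : ℕ} (hN : N ≤ 80) : VOK N 168 16 29 4293 U29_16 :=
  VOK_step (c := 15) (L1 := 4192) (L2 := 101) (h := 704256) (by omega) hN (by norm_num)
    (U29_15_ok hN) (VOK_up le_rfl (by norm_num) (U13_13_ok hN)) rfl
theorem U29_17_ok {N : ℕ} (hN : N ≤ 80) : VOK N 168 17 29 4370 U29_17 :=
  VOK_step (c := 16) (L1 := 4293) (L2 := 77) (h := 721224) (by omega) hN (by norm_num)
    (U29_16_ok hN) (VOK_up le_rfl (by norm_num) (U12_12_ok hN)) rfl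
theorem U29_18_ok {N : ℕ} (hN : N ≤ 80) : VOK N 168 18 29 4426 U29_18 :=
  VOK_step (c := 17) (L1 := 4370) (L2 := 56) (h := 734160) (by omega) hN (by norm_num)
    (U29_17_ok hN) (VOK_up le_rfl (by norm_num) (U11_11_ok hN)) rfl
theorem U29_19_ok {N : ℕ} (hN : N ≤ 80) : VOK N 168 19 29 4468 U29_19 :=
  VOK_step (c := 18) (L1 := 4426) (L2 := 42) (h := 743568) (by omega) hN (by norm_num)
    (U29_18_ok hN) (VOK_up le_rfl (by norm_num) (U10_10_ok hN)) rfl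
theorem U29_20_ok {N : ℕ} (hN : N ≤ 80) : VOK N 168 20 29 4498 U29_20 :=
  VOK_step (c := 19) (L1 := 4468) (L2 := 30) (h := 750624) (by omega) hN (by norm_num)
    (U29_19_ok hN) (VOK_up le_rfl (by norm_num) (U9_9_ok hN)) rfl
theorem U29_21_ok {N : ℕ} (hN : N ≤ 80) : VOK N 168 21 29 4520 U29_21 :=
  VOK_step (c := 20) (L1 := 4498) (L2 := 22) (h := 755664) (by omega) hN (by norm_num)
    (U29_20_ok hN) (VOK_up le_rfl (by norm_num) (U8_8_ok hN)) rfl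
theorem U29_22_ok {N : ℕ} (hN : N ≤ 80) : VOK N 168 22 29 4535 U29_22 :=
  VOK_step (c := 21) (L1 := 4520) (L2 := 15) (h := 759360) (by omega) hN (by norm_num)
    (U29_21_ok hN) (VOK_up le_rfl (by norm_num) (U7_7_ok hN)) rfl
theorem U29_23_ok {N : ℕ} (hN : N ≤ 80) : VOK N 168 23 29 4546 U29_23 :=
  VOK_step (c := 22) (L1 := 4535) (L2 := 11) (h := 761880) (by omega) hN (by norm_num)
    (U29_22_ok hN) (VOK_up le_rfl (by norm_num) (U6_6_ok hN)) rfl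
theorem U29_24_ok {N : ℕ} (hN : N ≤ 80) : VOK N 168 24 29 4553 U29_24 :=
  VOK_step (c := 23) (L1 := 4546) (L2 := 7) (h := 763728) (by omega) hN (by norm_num)
    (U29_23_ok hN) (VOK_up le_rfl (by norm_num) (U5_5_ok hN)) rfl
theorem U29_25_ok {N : ℕ} (hN : N ≤ 80) : VOK N 168 25 29 4558 U29_25 :=
  VOK_step (c := 24) (L1 := 4553) (L2 := 5) (h := 764904) (by omega) hN (by norm_num)
    (U29_24_ok hN) (VOK_up le_rfl (by norm_num) (U4_4_ok hN)) rfl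
theorem U29_26_ok {N : ℕ} (hN : N ≤ 80) : VOK N 168 26 29 4561 U29_26 :=
  VOK_step (c := 25) (L1 := 4558) (L2 := 3) (h := 765744) (by omega) hN (by norm_num)
    (U29_25_ok hN) (VOK_up le_rfl (by norm_num) (U3_3_ok hN)) rfl
theorem U29_27_ok {N : ℕ} (hN : N ≤ 80) : VOK N 168 27 29 4563 U29_27 :=
  VOK_step (c := 26) (L1 := 4561) (L2 := 2) (h := 766248) (by omega) hN (by norm_num)
    (U29_26_ok hN) (VOK_up le_rfl (by norm_num) (U2_2_ok hN)) rfl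
theorem U29_28_ok {N : ℕ} (hN : N ≤ 80) : VOK N 168 28 29 4564 U29_28 :=
  VOK_step (c := 27) (L1 := 4563) (L2 := 1) (h := 766584) (by omega) hN (by norm_num)
    (U29_27_ok hN) (VOK_up le_rfl (by norm_num) (U1_1_ok hN)) rfl
theorem U29_29_ok {N : ℕ} (hN : N ≤ 80) : VOK N 168 29 29 4565 U29_29 :=
  VOK_step (c := 28) (L1 := 4564) (L2 := 1) (h := 766752) (by omega) hN (by norm_num)
    (U29_28_ok hN) (VOK_up le_rfl (Nat.zero_le _) (VOK_zero N 168)) rfl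
theorem U30_1_ok {N : ℕ} (hN : N ≤ 80) : VOK N 168 1 30 1 U30_1 :=
  VOK_step (c := 0) (L1 := 0) (L2 := 1) (h := 0) (by omega) hN (by norm_num)
    (VOK_zero' N 168 29) (U29_1_ok hN) rfl
theorem U30_2_ok {N : ℕ} (hN : N ≤ 80) : VOK N 168 2 30 16 U30_2 :=
  VOK_step (c := 1) (L1 := 1) (L2 := 15) (h := 168) (by omega) hN (by norm_num)
    (U30_1_ok hN) (U28_2_ok hN) rfl
theorem U30_3_ok {N : ℕ} (hN : N ≤ 80) : VOK N 168 3 30 91 U30_3 :=
  VOK_step (c := 2) (L1 := 16) (L2 := 75) (h := 2688) (by omega) hN (by norm_num)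
    (U30_2_ok hN) (U27_3_ok hN) rfl
theorem U30_4_ok {N : ℕ} (hN : N ≤ 80) : VOK N 168 4 30 297 U30_4 :=
  VOK_step (c := 3) (L1 := 91) (L2 := 206) (h := 15288) (by omega) hN (by norm_num)
    (U30_3_ok hN) (U26_4_ok hN) rfl
theorem U30_5_ok {N : ℕ} (hN : N ≤ 80) : VOK N 168 5 30 674 U30_5 :=
  VOK_step (c := 4) (L1 := 297) (L2 := 377) (h := 49896) (by omega) hN (by norm_num)
    (U30_4_ok hN) (U25_5_ok hN) rfl
theorem U30_6_ok {N : ℕ} (hN : N ≤ 80) : VOK N 168 6 30 1206 U30_6 :=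
  VOK_step (c := 5) (L1 := 674) (L2 := 532) (h := 113232) (by omega) hN (by norm_num)
    (U30_5_ok hN) (U24_6_ok hN) rfl
theorem U30_7_ok {N : ℕ} (hN : N ≤ 80) : VOK N 168 7 30 1824 U30_7 :=
  VOK_step (c := 6) (L1 := 1206) (L2 := 618) (h := 202608) (by omega) hN (by norm_num)
    (U30_6_ok hN) (U23_7_ok hN) rfl
theorem U30_8_ok {N : ℕ} (hN : N ≤ 80) : VOK N 168 8 30 2462 U30_8 :=
  VOK_step (c := 7) (L1 := 1824) (L2 := 638) (h := 306432) (by omega) hN (by norm_num)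
    (U30_7_ok hN) (U22_8_ok hN) rfl
theorem U30_9_ok {N : ℕ} (hN : N ≤ 80) : VOK N 168 9 30 3060 U30_9 :=
  VOK_step (c := 8) (L1 := 2462) (L2 := 598) (h := 413616) (by omega) hN (by norm_num)
    (U30_8_ok hN) (U21_9_ok hN) rfl
theorem U30_10_ok {N : ℕ} (hN : N ≤ 80) : VOK N 168 10 30 3590 U30_10 :=
  VOK_step (c := 9) (L1 := 3060) (L2 := 530) (h := 514080) (by omega) hN (by norm_num)
    (U30_9_ok hN) (U20_10_ok hN) rfl
theorem U30_11_ok {N : ℕ} (hN : N ≤ 80) : VOK N 168 11 30 4035 U30_11 :=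
  VOK_step (c := 10) (L1 := 3590) (L2 := 445) (h := 603120) (by omega) hN (by norm_num)
    (U30_10_ok hN) (U19_11_ok hN) rfl
theorem U30_12_ok {N : ℕ} (hN : N ≤ 80) : VOK N 168 12 30 4401 U30_12 :=
  VOK_step (c := 11) (L1 := 4035) (L2 := 366) (h := 677880) (by omega) hN (by norm_num)
    (U30_11_ok hN) (U18_12_ok hN) rfl
theorem U30_13_ok {N : ℕ} (hN : N ≤ 80) : VOK N 168 13 30 4691 U30_13 :=
  VOK_step (c := 12) (L1 := 4401) (L2 := 290) (h := 739368) (by omega) hN (by norm_num)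
    (U30_12_ok hN) (U17_13_ok hN) rfl
theorem U30_14_ok {N : ℕ} (hN : N ≤ 80) : VOK N 168 14 30 4920 U30_14 :=
  VOK_step (c := 13) (L1 := 4691) (L2 := 229) (h := 788088) (by omega) hN (by norm_num)
    (U30_13_ok hN) (U16_14_ok hN) rfl
theorem U30_15_ok {N : ℕ} (hN : N ≤ 80) : VOK N 168 15 30 5096 U30_15 :=
  VOK_step (c := 14) (L1 := 4920) (L2 := 176) (h := 826560) (by omega) hN (by norm_num)
    (U30_14_ok hN) (U15_15_ok hN) rfl
theorem U30_16_ok {N : ℕ} (hN : N ≤ 80) : VOK N 168 16 30 5231 U30_16 :=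
  VOK_step (c := 15) (L1 := 5096) (L2 := 135) (h := 856128) (by omega) hN (by norm_num)
    (U30_15_ok hN) (VOK_up le_rfl (by norm_num) (U14_14_ok hN)) rfl
theorem U30_17_ok {N : ℕ} (hN : N ≤ 80) : VOK N 168 17 30 5332 U30_17 :=
  VOK_step (c := 16) (L1 := 5231) (L2 := 101) (h := 878808) (by omega) hN (by norm_num)
    (U30_16_ok hN) (VOK_up le_rfl (by norm_num) (U13_13_ok hN)) rfl
theorem U30_18_ok {N : ℕ} (hN : N ≤ 80) : VOK N 168 18 30 5409 U30_18 :=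
  VOK_step (c := 17) (L1 := 5332) (L2 := 77) (h := 895776) (by omega) hN (by norm_num)
    (U30_17_ok hN) (VOK_up le_rfl (by norm_num) (U12_12_ok hN)) rfl
theorem U30_19_ok {N : ℕ} (hN : N ≤ 80) : VOK N 168 19 30 5465 U30_19 :=
  VOK_step (c := 18) (L1 := 5409) (L2 := 56) (h := 908712) (by omega) hN (by norm_num)
    (U30_18_ok hN) (VOK_up le_rfl (by norm_num) (U11_11_ok hN)) rfl
theorem U30_20_ok {N : ℕ} (hN : N ≤ 80) : VOK N 168 20 30 5507 U30_20 :=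
  VOK_step (c := 19) (L1 := 5465) (L2 := 42) (h := 918120) (by omega) hN (by norm_num)
    (U30_19_ok hN) (VOK_up le_rfl (by norm_num) (U10_10_ok hN)) rfl
theorem U30_21_ok {N : ℕ} (hN : N ≤ 80) : VOK N 168 21 30 5537 U30_21 :=
  VOK_step (c := 20) (L1 := 5507) (L2 := 30) (h := 925176) (by omega) hN (by norm_num)
    (U30_20_ok hN) (VOK_up le_rfl (by norm_num) (U9_9_ok hN)) rfl
theorem U30_22_ok {N : ℕ} (hN : N ≤ 80) : VOK N 168 22 30 5559 U30_22 :=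
  VOK_step (c := 21) (L1 := 5537) (L2 := 22) (h := 930216) (by omega) hN (by norm_num)
    (U30_21_ok hN) (VOK_up le_rfl (by norm_num) (U8_8_ok hN)) rfl
theorem U30_23_ok {N : ℕ} (hN : N ≤ 80) : VOK N 168 23 30 5574 U30_23 :=
  VOK_step (c := 22) (L1 := 5559) (L2 := 15) (h := 933912) (by omega) hN (by norm_num)
    (U30_22_ok hN) (VOK_up le_rfl (by norm_num) (U7_7_ok hN)) rfl
theorem U30_24_ok {N : ℕ} (hN : N ≤ 80) : VOK N 168 24 30 5585 U30_24 :=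
  VOK_step (c := 23) (L1 := 5574) (L2 := 11) (h := 936432) (by omega) hN (by norm_num)
    (U30_23_ok hN) (VOK_up le_rfl (by norm_num) (U6_6_ok hN)) rfl
theorem U30_25_ok {N : ℕ} (hN : N ≤ 80) : VOK N 168 25 30 5592 U30_25 :=
  VOK_step (c := 24) (L1 := 5585) (L2 := 7) (h := 938280) (by omega) hN (by norm_num)
    (U30_24_ok hN) (VOK_up le_rfl (by norm_num) (U5_5_ok hN)) rfl
theorem U30_26_ok {N : ℕ} (hN : N ≤ 80) : VOK N 168 26 30 5597 U30_26 :=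
  VOK_step (c := 25) (L1 := 5592) (L2 := 5) (h := 939456) (by omega) hN (by norm_num)
    (U30_25_ok hN) (VOK_up le_rfl (by norm_num) (U4_4_ok hN)) rfl
theorem U30_27_ok {N : ℕ} (hN : N ≤ 80) : VOK N 168 27 30 5600 U30_27 :=
  VOK_step (c := 26) (L1 := 5597) (L2 := 3) (h := 940296) (by omega) hN (by norm_num)
    (U30_26_ok hN) (VOK_up le_rfl (by norm_num) (U3_3_ok hN)) rfl
theorem U30_28_ok {N : ℕ} (hN : N ≤ 80) : VOK N 168 28 30 5602 U30_28 :=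
  VOK_step (c := 27) (L1 := 5600) (L2 := 2) (h := 940800) (by omega) hN (by norm_num)
    (U30_27_ok hN) (VOK_up le_rfl (by norm_num) (U2_2_ok hN)) rfl
theorem U30_29_ok {N : ℕ} (hN : N ≤ 80) : VOK N 168 29 30 5603 U30_29 :=
  VOK_step (c := 28) (L1 := 5602) (L2 := 1) (h := 941136) (by omega) hN (by norm_num)
    (U30_28_ok hN) (VOK_up le_rfl (by norm_num) (U1_1_ok hN)) rfl
theorem U30_30_ok {N : ℕ} (hN : N ≤ 80) : VOK N 168 30 30 5604 U30_30 :=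
  VOK_step (c := 29) (L1 := 5603) (L2 := 1) (h := 941304) (by omega) hN (by norm_num)
    (U30_29_ok hN) (VOK_up le_rfl (Nat.zero_le _) (VOK_zero N 168)) rfl

end Pool.MP322F
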