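import Pool.Agent.Lib.MP_322c5f_alF.FB33
import Pool.Agent.Lib.MP_322c5f_alF.FB34
import Pool.Agent.Lib.MP_322c5f_alF.FB35

/-! Fact tables, sizes 21 to 24. -/

set_option autoImplicit false

open Finset Equiv Nat

namespace Pool.MP322F

open Pool.MP322

/-- facts for diagrams of size 21 -/
def FT21 : List (List ℕ × List (List ℕ)) := [
  ([7,6,5,2,1], [[5,5,3,2,2,2], [5,5,3,2,2,2,2], [5,5,3,3,2,2], [5,5,3,3,3], [5,5,5,2,2]]),
  ([8,7,3,2,1], [[5,3,3,3,3,2,2], [5,3,3,3,3,3], [5,5,3,3,2,2]])]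

noncomputable def gs21 : KL :=
  (KL.cons 45793279 (NL.cons 304939007 (NL.cons 204275711 (NL.cons 172818431 (NL.cons 160235519
  (NL.cons 154730495 NL.nil))))) (KL.cons 45047807 (NL.cons 210173951 (NL.cons 185008127
  (NL.cons 172818431 NL.nil))) KL.nil))

theorem kg21 : kgrp 168 792 21 51090942171709440000 18014398509481984 U21_21 gs21 = 0 := by
  decide +kernel

theorem FT21_ok : ∀ p ∈ FT21, ∀ E ∈ p.2, CC (p.1 : Multiset ℕ) (E : Multiset ℕ) :=
  table_sound (U21_21_ok (by norm_num)) (by decide +kernel) (by norm_num) (by norm_num) (by norm_num)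
    (by norm_num) (by norm_num) FT21 gs21 (by decide +kernel) kg21

/-- facts for diagrams of size 22 -/
def FT22 : List (List ℕ × List (List ℕ)) := [
  ([6,5,5,3,2,1], [[5,5,3,2,2,2,2], [5,5,3,3,2,2]])]

noncomputable def gs22 : KL :=
  (KL.cons 179503103 (NL.cons 676986879 (NL.cons 614072319 NL.nil)) KL.nil)

theorem kg22 : kgrp 168 1002 22 1124000727777607680000 18014398509481984 U22_22 gs22 = 0 := by
  decide +kernel

theorem FT22_ok : ∀ p ∈ FT22, ∀ E ∈ p.2, CC (p.1 : Multiset ℕ) (E : Multiset ℕ) :=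
  table_sound (U22_22_ok (by norm_num)) (by decide +kernel) (by norm_num) (by norm_num) (by norm_num)
    (by norm_num) (by norm_num) FT22 gs22 (by decide +kernel) kg22

/-- facts for diagrams of size 23 -/
def FT23 : List (List ℕ × List (List ℕ)) := [
  ([7,6,5,4,1], [[5,5,3,2,2,2,2], [5,5,3,3,2,2]])]

noncomputable def gs23 : KL :=
  (KL.cons 195756031 (NL.cons 2427715583 (NL.cons 2301886463 NL.nil)) KL.nil)

theorem kg23 : kgrp 168 1255 23 25852016738884976640000 18014398509481984 U23_23 gs23 = 0 := by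
  decide +kernel

theorem FT23_ok : ∀ p ∈ FT23, ∀ E ∈ p.2, CC (p.1 : Multiset ℕ) (E : Multiset ℕ) :=
  table_sound (U23_23_ok (by norm_num)) (by decide +kernel) (by norm_num) (by norm_num) (by norm_num)
    (by norm_num) (by norm_num) FT23 gs23 (by decide +kernel) kg23

/-- facts for diagrams of size 24 -/
def FT24 : List (List ℕ × List (List ℕ)) := [
  ([7,6,5,3,2,1], [[5,5,5,3,3,2], [5,5,5,3,3,3], [5,5,5,5,2], [5,5,5,5,2,2], [5,5,5,5,3]])]

noncomputable def gs24 : KL :=
  (KL.cons 718667775 (NL.cons 1422393343 (NL.cons 952631295 (NL.cons 1267204095 (NL.cons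
  864550911 (NL.cons 763887615 NL.nil))))) KL.nil)

theorem kg24 : kgrp 168 1575 24 620448401733239439360000 18014398509481984 U24_24 gs24 = 0 := by
  decide +kernel

theorem FT24_ok : ∀ p ∈ FT24, ∀ E ∈ p.2, CC (p.1 : Multiset ℕ) (E : Multiset ℕ) :=
  table_sound (U24_24_ok (by norm_num)) (by decide +kernel) (by norm_num) (by norm_num) (by norm_num)
    (by norm_num) (by norm_num) FT24 gs24 (by decide +kernel) kg24

end Pool.MP322F
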