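import Pool.Agent.Lib.MP_322c5f_alF.FB36
import Pool.Agent.Lib.MP_322c5f_alF.FB37

/-! Unions of the fact tables. -/

set_option autoImplicit false

open Finset Equiv Nat

namespace Pool.MP322F

open Pool.MP322

theorem app_ok {A B : List (List ℕ × List (List ℕ))}
    (hA : ∀ p ∈ A, ∀ E ∈ p.2, CC (p.1 : Multiset ℕ) (E : Multiset ℕ))
    (hB : ∀ p ∈ B, ∀ E ∈ p.2, CC (p.1 : Multiset ℕ) (E : Multiset ℕ)) :
    ∀ p ∈ A ++ B, ∀ E ∈ p.2, CC (p.1 : Multiset ℕ) (E : Multiset ℕ) := by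
  intro p hp
  rcases List.mem_append.1 hp with h | h
  · exact hA p h
  · exact hB p h

def FTa : List (List ℕ × List (List ℕ)) :=
  FT11 ++ (FT12 ++ (FT13 ++ (FT14 ++ (FT16))))

theorem FTa_ok : ∀ p ∈ FTa, ∀ E ∈ p.2, CC (p.1 : Multiset ℕ) (E : Multiset ℕ) :=
  app_ok FT11_ok (app_ok FT12_ok (app_ok FT13_ok (app_ok FT14_ok (FT16_ok))))

def FTb : List (List ℕ × List (List ℕ)) :=
  FT16 ++ (FT17 ++ (FT18 ++ (FT19 ++ (FT20 ++ (FT21 ++ (FT22 ++ (FT23)))))))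

theorem FTb_ok : ∀ p ∈ FTb, ∀ E ∈ p.2, CC (p.1 : Multiset ℕ) (E : Multiset ℕ) :=
  app_ok FT16_ok (app_ok FT17_ok (app_ok FT18_ok (app_ok FT19_ok (app_ok FT20_ok (app_ok FT21_ok (app_ok FT22_ok (FT23_ok)))))))

end Pool.MP322F
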