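import Pool.Agent.Lib.MP_322c5f_alF.FB38
import Pool.Agent.Lib.MP_322c5f_alF.FB39

/-! Unions of the fact tables. -/

set_option autoImplicit false

open Finset Equiv Nat

namespace Pool.MP322F

open Pool.MP322

def FTc : List (List ℕ × List (List ℕ)) :=
  FT24 ++ (FT25 ++ (FT27 ++ (FT29)))

theorem FTc_ok : ∀ p ∈ FTc, ∀ E ∈ p.2, CC (p.1 : Multiset ℕ) (E : Multiset ℕ) :=
  app_ok FT24_ok (app_ok FT25_ok (app_ok FT27_ok (FT29_ok)))

end Pool.MP322F
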