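import Pool.Agent.Lib.MP_322c5f_al.Conj
import Pool.Agent.Lib.MP_322c5f_al.BranchC
import Pool.Agent.Lib.MP_322c5f_al.JM

/-!
# MP_322c5f_al, full statement: Frobenius character formula (definitions)

`th ρ α` is the coefficient of `x^α` in the product of the Vandermonde product and the power sums
`p_r`, `r ∈ ρ`.  `be N mu` is the increasing list of the `N` beta numbers of `mu`.
-/

set_option autoImplicit false

open Finset

namespace Pool.MP322F

open Pool.MP322
/-- power sum in `N` variables -/
noncomputable def pw (N r : ℕ) : MvPolynomial (Fin N) ℤ := ∑ i, MvPolynomial.X i ^ r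

/-- the Vandermonde product -/
noncomputable def vd (N : ℕ) : MvPolynomial (Fin N) ℤ :=
  ∏ i : Fin N, ∏ j ∈ Finset.Ioi i, (MvPolynomial.X j - MvPolynomial.X i)

/-- Vandermonde product times power sums -/
noncomputable def fr (N : ℕ) (ρ : Multiset ℕ) : MvPolynomial (Fin N) ℤ :=
  vd N * (ρ.map (pw N)).prod

/-- the coefficient of `x^α` -/
noncomputable def th {N : ℕ} (ρ : Multiset ℕ) (α : Fin N → ℕ) : ℤ :=
  MvPolynomial.coeff (Finsupp.equivFunOnFinite.symm α) (fr N ρ)

/-- the beta numbers of `mu` with `N` beads, increasing -/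
def be (N : ℕ) (mu : YoungDiagram) (i : Fin N) : ℕ := mu.rowLen (N - 1 - (i : ℕ)) + (i : ℕ)

/-- sum of the contents -/
def cs (mu : YoungDiagram) : ℤ := ∑ c ∈ mu.cells, ct c

/-- the full cycle type (fixed points included) -/
def ft {n : ℕ} (σ : Equiv.Perm (Fin n)) : Multiset ℕ :=
  σ.cycleType + Multiset.replicate (n - σ.support.card) 1

/-- the coefficient attached to a finite set of beta numbers -/
noncomputable def tS (ρ : Multiset ℕ) (S : Finset ℕ) : ℤ :=
  th ρ (fun i : Fin S.card => (S.orderEmbOfFin rfl i : ℕ))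

/-- the set of beta numbers -/
def bS (N : ℕ) (mu : YoungDiagram) : Finset ℕ := Finset.univ.image (be N mu)

/-- size of the partition with set of beta numbers `S` -/
def szS (S : Finset ℕ) : ℕ := (∑ b ∈ S, b) - S.card.choose 2

end Pool.MP322F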