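import Pool.Agent.Lib.MP_322c5f_alF.FA00

/-! Coefficient formulas: power sum recursion and antisymmetry. -/

set_option autoImplicit false

open Finset MvPolynomial

namespace Pool.MP322F

open Pool.MP322
theorem fr_cons (N r : ℕ) (ρ : Multiset ℕ) : fr N (r ::ₘ ρ) = pw N r * fr N ρ := by
  unfold fr
  rw [Multiset.map_cons, Multiset.prod_cons]
  ring

/-- multiplication by a power sum -/
theorem th_cons {N : ℕ} (r : ℕ) (ρ : Multiset ℕ) (α : Fin N → ℕ) :
    th (r ::ₘ ρ) α = ∑ i, if r ≤ α i then th ρ (Function.update α i (α i - r)) else 0 := by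
  unfold th
  rw [fr_cons, pw, Finset.sum_mul, MvPolynomial.coeff_sum]
  refine Finset.sum_congr rfl fun i _ => ?_
  rw [X_pow_eq_monomial, coeff_monomial_mul']
  have h1 : (Finsupp.single i r ≤ Finsupp.equivFunOnFinite.symm α) ↔ r ≤ α i := by
    rw [Finsupp.single_le_iff]
    rfl
  by_cases h : r ≤ α i
  · rw [if_pos (h1.2 h), if_pos h, one_mul]
    congr 1
    ext j
    rw [Finsupp.coe_tsub, Pi.sub_apply]
    simp only [Finsupp.equivFunOnFinite_symm_apply_apply]
    by_cases hj : j = i
    · subst hj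
      simp
    · rw [Function.update_of_ne hj, Finsupp.single_eq_of_ne hj, Nat.sub_zero]
  · rw [if_neg (fun h' => h (h1.1 h')), if_neg h]

private theorem vd_eq (N : ℕ) :
    vd N = (Matrix.vandermonde (fun i : Fin N => (X i : MvPolynomial (Fin N) ℤ))).det := by
  rw [Matrix.det_vandermonde]
  rfl

private theorem rename_vd {N : ℕ} (σ : Equiv.Perm (Fin N)) :
    rename σ (vd N) = (Equiv.Perm.sign σ : ℤ) • vd N := by
  rw [vd_eq]
  have h1 : rename σ (Matrix.vandermonde (fun i : Fin N => (X i : MvPolynomial (Fin N) ℤ))).det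
      = ((Matrix.vandermonde (fun i : Fin N => (X i : MvPolynomial (Fin N) ℤ))).submatrix
          σ id).det := by
    rw [← AlgHom.coe_toRingHom, RingHom.map_det]
    congr 1
    ext i j
    simp [Matrix.vandermonde]
  rw [h1, Matrix.det_permute]
  rw [zsmul_eq_mul]

private theorem rename_pw {N : ℕ} (σ : Equiv.Perm (Fin N)) (r : ℕ) :
    rename σ (pw N r) = pw N r := by
  unfold pw
  rw [map_sum]
  simp only [map_pow, rename_X]
  exact Equiv.sum_comp σ (fun i => (X i : MvPolynomial (Fin N) ℤ) ^ r)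

private theorem rename_fr {N : ℕ} (σ : Equiv.Perm (Fin N)) (ρ : Multiset ℕ) :
    rename σ (fr N ρ) = (Equiv.Perm.sign σ : ℤ) • fr N ρ := by
  induction ρ using Multiset.induction_on with
  | empty =>
    unfold fr
    rw [map_mul, rename_vd, Multiset.map_zero, Multiset.prod_zero, map_one, mul_one, mul_one]
  | cons r ρ ih =>
    rw [fr_cons, map_mul, rename_pw, ih, mul_smul_comm]

/-- antisymmetry (the Vandermonde product is antisymmetric, the power sums are symmetric;
`Matrix.det_vandermonde`, or directly with `MvPolynomial.rename`) -/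
theorem th_perm {N : ℕ} (ρ : Multiset ℕ) (α : Fin N → ℕ) (σ : Equiv.Perm (Fin N)) :
    th ρ (α ∘ σ) = (Equiv.Perm.sign σ : ℤ) * th ρ α := by
  unfold th
  have h1 := coeff_rename_mapDomain (σ : Fin N → Fin N) σ.injective (fr N ρ)
    (Finsupp.equivFunOnFinite.symm (α ∘ σ))
  rw [← h1, rename_fr]
  have h2 : (Finsupp.mapDomain (σ : Fin N → Fin N) (Finsupp.equivFunOnFinite.symm (α ∘ σ)))
      = Finsupp.equivFunOnFinite.symm α := by
    ext j
    obtain ⟨i, rfl⟩ := σ.surjective j
    rw [Finsupp.mapDomain_apply σ.injective]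
    rfl
  rw [h2, MvPolynomial.coeff_smul, smul_eq_mul]

theorem th_eq_zero {N : ℕ} (ρ : Multiset ℕ) (α : Fin N → ℕ) {i j : Fin N} (h : i ≠ j)
    (hij : α i = α j) : th ρ α = 0 := by
  have h1 := th_perm ρ α (Equiv.swap i j)
  have h2 : α ∘ (Equiv.swap i j) = α := by
    funext x
    rw [Function.comp_apply]
    by_cases hx : x = i
    · subst hx
      rw [Equiv.swap_apply_left, hij]
    · by_cases hx' : x = j
      · subst hx'
        rw [Equiv.swap_apply_right, hij]
      · rw [Equiv.swap_apply_of_ne_of_ne hx hx']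
  rw [h2, Equiv.Perm.sign_swap h] at h1
  push_cast at h1
  linarith

private theorem vd_expand (N : ℕ) :
    vd N = ∑ σ : Equiv.Perm (Fin N), (Equiv.Perm.sign σ : ℤ) •
      monomial (Finsupp.equivFunOnFinite.symm (fun j : Fin N => ((σ.symm j : Fin N) : ℕ)))
        (1 : ℤ) := by
  rw [vd_eq, Matrix.det_apply]
  refine Finset.sum_congr rfl fun σ _ => ?_
  have h1 : (∏ i : Fin N, Matrix.vandermonde (fun i : Fin N => (X i : MvPolynomial (Fin N) ℤ))
      (σ i) i) = monomial (Finsupp.equivFunOnFinite.symm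
        (fun j : Fin N => ((σ.symm j : Fin N) : ℕ))) (1 : ℤ) := by
    have h2 : (monomial (Finsupp.equivFunOnFinite.symm
        (fun j : Fin N => ((σ.symm j : Fin N) : ℕ))) (1 : ℤ) : MvPolynomial (Fin N) ℤ)
        = ∏ j : Fin N, X j ^ ((σ.symm j : Fin N) : ℕ) := by
      rw [MvPolynomial.monomial_eq, map_one, one_mul, Finsupp.prod_fintype _ _ (by simp)]
      rfl
    rw [h2, ← Equiv.prod_comp σ (fun j : Fin N =>
      (X j : MvPolynomial (Fin N) ℤ) ^ ((σ.symm j : Fin N) : ℕ))]
    refine Finset.prod_congr rfl fun i _ => ?_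
    rw [Matrix.vandermonde_apply, Equiv.symm_apply_apply]
  rw [h1]
  rfl

/-- the leading coefficient of the Vandermonde product -/
theorem th_zero (N : ℕ) : th (0 : Multiset ℕ) (fun i : Fin N => (i : ℕ)) = 1 := by
  unfold th fr
  rw [Multiset.map_zero, Multiset.prod_zero, mul_one, vd_expand, MvPolynomial.coeff_sum]
  rw [Finset.sum_eq_single (1 : Equiv.Perm (Fin N))]
  · rw [MvPolynomial.coeff_smul, MvPolynomial.coeff_monomial, if_pos]
    · simp
    · rfl
  · intro σ _ hσ
    rw [MvPolynomial.coeff_smul, MvPolynomial.coeff_monomial, if_neg, smul_zero]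
    intro h
    apply hσ
    have h3 := Finsupp.equivFunOnFinite.symm.injective h
    apply Equiv.ext
    intro i
    have h4 := congrFun h3 (σ i)
    simp only [Equiv.symm_apply_apply] at h4
    exact (Fin.ext h4).symm
  · intro h
    exact absurd (Finset.mem_univ _) h

private theorem vd_hom (N : ℕ) : (vd N).IsHomogeneous (N.choose 2) := by
  rw [vd_expand]
  refine IsHomogeneous.sum _ _ _ fun σ _ => ?_
  have h1 : (monomial (Finsupp.equivFunOnFinite.symm
      (fun j : Fin N => ((σ.symm j : Fin N) : ℕ))) (1 : ℤ) :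
        MvPolynomial (Fin N) ℤ).IsHomogeneous (N.choose 2) := by
    apply isHomogeneous_monomial
    rw [Finsupp.degree_eq_sum]
    simp only [Finsupp.equivFunOnFinite_symm_apply_apply]
    rw [Equiv.sum_comp σ.symm (fun j : Fin N => (j : ℕ)), Fin.sum_univ_eq_sum_range (fun i => i) N,
      Finset.sum_range_id, Nat.choose_two_right]
  have h2 : ((Equiv.Perm.sign σ : ℤ) • (monomial (Finsupp.equivFunOnFinite.symm
      (fun j : Fin N => ((σ.symm j : Fin N) : ℕ))) (1 : ℤ) :
        MvPolynomial (Fin N) ℤ)) = C (Equiv.Perm.sign σ : ℤ) * (monomial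
        (Finsupp.equivFunOnFinite.symm
      (fun j : Fin N => ((σ.symm j : Fin N) : ℕ))) (1 : ℤ)) := by
    rw [MvPolynomial.smul_eq_C_mul]
  rw [h2]
  have h3 := (isHomogeneous_C (Fin N) (Equiv.Perm.sign σ : ℤ)).mul h1
  rwa [zero_add] at h3

private theorem fr_hom (N : ℕ) (ρ : Multiset ℕ) :
    (fr N ρ).IsHomogeneous (N.choose 2 + ρ.sum) := by
  induction ρ using Multiset.induction_on with
  | empty =>
    unfold fr
    rw [Multiset.map_zero, Multiset.prod_zero, mul_one, Multiset.sum_zero, add_zero]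
    exact vd_hom N
  | cons r ρ ih =>
    rw [fr_cons, Multiset.sum_cons]
    have h1 : (pw N r).IsHomogeneous r := by
      unfold pw
      refine IsHomogeneous.sum _ _ _ fun i _ => ?_
      have h := (isHomogeneous_X ℤ i).pow r
      rwa [one_mul] at h
    have h2 := h1.mul ih
    have h3 : r + (N.choose 2 + ρ.sum) = N.choose 2 + (r + ρ.sum) := by omega
    rwa [h3] at h2

/-- degree: the coefficient vanishes unless the degrees agree -/
theorem th_deg {N : ℕ} (ρ : Multiset ℕ) (α : Fin N → ℕ) (h : ∑ i, α i ≠ N.choose 2 + ρ.sum) :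
    th ρ α = 0 := by
  unfold th
  apply (fr_hom N ρ).coeff_eq_zero
  rw [Finsupp.degree_eq_sum]
  exact h

end Pool.MP322F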