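import Pool.Agent.Lib.MP_322c5f_alF.FA01

/-! The derivation `E = ∑ x_i^2 d/dx_i`: `E(p_i) = i p_(i+1)`, `E(vd) = (N-1) p_1 vd`. -/

set_option autoImplicit false

open Finset MvPolynomial

namespace Pool.MP322F

open Pool.MP322
/-- the derivation `∑ x_i^2 d/dx_i` -/
private noncomputable def EE (N : ℕ) (f : MvPolynomial (Fin N) ℤ) : MvPolynomial (Fin N) ℤ :=
  ∑ i, X i * (X i * pderiv i f)

private theorem EE_mul (N : ℕ) (f g : MvPolynomial (Fin N) ℤ) :
    EE N (f * g) = EE N f * g + f * EE N g := by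
  unfold EE
  rw [Finset.sum_mul, Finset.mul_sum, ← Finset.sum_add_distrib]
  refine Finset.sum_congr rfl fun i _ => ?_
  rw [pderiv_mul]
  ring

private theorem EE_sub (N : ℕ) (f g : MvPolynomial (Fin N) ℤ) :
    EE N (f - g) = EE N f - EE N g := by
  unfold EE
  rw [← Finset.sum_sub_distrib]
  refine Finset.sum_congr rfl fun i _ => ?_
  rw [map_sub]
  ring

private theorem EE_sum {ι : Type*} (N : ℕ) (s : Finset ι) (f : ι → MvPolynomial (Fin N) ℤ) :
    EE N (∑ a ∈ s, f a) = ∑ a ∈ s, EE N (f a) := by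
  unfold EE
  rw [Finset.sum_comm]
  refine Finset.sum_congr rfl fun i _ => ?_
  rw [map_sum, Finset.mul_sum, Finset.mul_sum]

private theorem EE_one (N : ℕ) : EE N 1 = 0 := by
  unfold EE
  refine Finset.sum_eq_zero fun i _ => ?_
  rw [pderiv_one]
  ring

private theorem EE_X (N : ℕ) (j : Fin N) : EE N (X j) = X j * X j := by
  unfold EE
  rw [Finset.sum_eq_single j]
  · rw [pderiv_X_self]
    ring
  · intro i _ hi
    rw [pderiv_X_of_ne (Ne.symm hi)]
    ring
  · intro h
    exact absurd (Finset.mem_univ j) h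

private theorem EE_pow (N : ℕ) (j : Fin N) (r : ℕ) :
    EE N (X j ^ r) = C (r : ℤ) * X j ^ (r + 1) := by
  induction r with
  | zero => simp [EE_one]
  | succ r ih =>
    rw [pow_succ, EE_mul, ih, EE_X, Nat.cast_add, C_add, Nat.cast_one, C_1]
    ring

private theorem EE_pw (N r : ℕ) : EE N (pw N r) = C (r : ℤ) * pw N (r + 1) := by
  unfold pw
  rw [EE_sum, Finset.mul_sum]
  exact Finset.sum_congr rfl fun i _ => EE_pow N i r

private theorem EE_prod {ι : Type*} (N : ℕ) (s : Finset ι) (f g : ι → MvPolynomial (Fin N) ℤ)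
    (h : ∀ a ∈ s, EE N (f a) = g a * f a) :
    EE N (∏ a ∈ s, f a) = (∑ a ∈ s, g a) * ∏ a ∈ s, f a := by
  classical
  induction s using Finset.induction_on with
  | empty => simp [EE_one]
  | insert a s ha ih =>
    rw [Finset.prod_insert ha, Finset.sum_insert ha, EE_mul, h a (Finset.mem_insert_self a s),
      ih fun b hb => h b (Finset.mem_insert_of_mem hb)]
    ring

private theorem sum_pairs (N : ℕ) :
    ∑ i : Fin N, ∑ j ∈ Finset.Ioi i, (X j + X i : MvPolynomial (Fin N) ℤ) =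
      C ((N : ℤ) - 1) * pw N 1 := by
  have h1 : ∑ i : Fin N, ∑ j ∈ Finset.Ioi i, (X j : MvPolynomial (Fin N) ℤ) =
      ∑ j : Fin N, C ((j : ℕ) : ℤ) * X j := by
    rw [Finset.sum_comm' (t' := Finset.univ) (s' := fun j => Finset.Iio j)]
    · refine Finset.sum_congr rfl fun j _ => ?_
      rw [Finset.sum_const, Fin.card_Iio, nsmul_eq_mul]
      simp
    · intro i j
      simp
  have h2 : ∑ i : Fin N, ∑ j ∈ Finset.Ioi i, (X i : MvPolynomial (Fin N) ℤ) =
      ∑ i : Fin N, C ((N : ℤ) - 1 - ((i : ℕ) : ℤ)) * X i := by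
    refine Finset.sum_congr rfl fun i _ => ?_
    have hi := i.2
    have e : ((N : ℤ) - 1 - ((i : ℕ) : ℤ)) = ((N - 1 - (i : ℕ) : ℕ) : ℤ) := by omega
    rw [Finset.sum_const, Fin.card_Ioi, nsmul_eq_mul, e]
    simp
  simp only [Finset.sum_add_distrib]
  rw [h1, h2, ← Finset.sum_add_distrib]
  unfold pw
  rw [Finset.mul_sum]
  refine Finset.sum_congr rfl fun i _ => ?_
  rw [C_sub, C_sub]
  ring

private theorem EE_vd (N : ℕ) : EE N (vd N) = C ((N : ℤ) - 1) * pw N 1 * vd N := by
  unfold vd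
  rw [EE_prod N Finset.univ _ (fun i => ∑ j ∈ Finset.Ioi i, (X j + X i)), sum_pairs]
  intro i _
  rw [EE_prod N (Finset.Ioi i) _ (fun j => X j + X i)]
  intro j _
  rw [EE_sub, EE_X, EE_X]
  ring

private theorem EE_mprod (N : ℕ) (ρ : Multiset ℕ) : EE N (ρ.map (pw N)).prod =
    (ρ.map (fun c : ℕ => C (c : ℤ) * (((c + 1) ::ₘ ρ.erase c).map (pw N)).prod)).sum := by
  classical
  induction ρ using Multiset.induction_on with
  | empty => simp [EE_one]
  | cons a ρ ih =>
    rw [Multiset.map_cons, Multiset.prod_cons, EE_mul, ih, EE_pw, Multiset.map_cons,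
      Multiset.sum_cons, Multiset.erase_cons_head, Multiset.map_cons, Multiset.prod_cons,
      ← Multiset.sum_map_mul_left, mul_assoc]
    congr 2
    refine Multiset.map_congr rfl fun c hc => ?_
    rw [Multiset.erase_cons_tail_of_mem hc]
    simp only [Multiset.map_cons, Multiset.prod_cons]
    ring

private theorem EE_fr (N : ℕ) (ρ : Multiset ℕ) : EE N (fr N ρ) =
    C ((N : ℤ) - 1) * fr N (1 ::ₘ ρ) +
      (ρ.map (fun c : ℕ => C (c : ℤ) * fr N ((c + 1) ::ₘ ρ.erase c))).sum := by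
  rw [fr_cons]
  have h : (ρ.map (fun c : ℕ => C (c : ℤ) * fr N ((c + 1) ::ₘ ρ.erase c))).sum =
      vd N * (ρ.map (fun c : ℕ => C (c : ℤ) *
        (((c + 1) ::ₘ ρ.erase c).map (pw N)).prod)).sum := by
    rw [← Multiset.sum_map_mul_left]
    refine congrArg Multiset.sum (Multiset.map_congr rfl fun c _ => ?_)
    unfold fr
    ring
  rw [h, ← EE_mprod]
  unfold fr
  rw [EE_mul, EE_vd]
  ring

private theorem coeff_EE {N : ℕ} (f : MvPolynomial (Fin N) ℤ) (α : Fin N → ℕ) :
    coeff (Finsupp.equivFunOnFinite.symm α) (EE N f) =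
      ∑ i, if 1 ≤ α i then ((α i : ℤ) - 1) *
        coeff (Finsupp.equivFunOnFinite.symm (Function.update α i (α i - 1))) f else 0 := by
  classical
  unfold EE
  rw [coeff_sum]
  refine Finset.sum_congr rfl fun i _ => ?_
  have key : ∀ m : Fin N →₀ ℕ, coeff m (X i * pderiv i f) = (m i : ℤ) * coeff m f := by
    intro m
    rw [coeff_X_mul']
    split_ifs with hm
    · have h1 : m i ≠ 0 := by simpa using hm
      have h2 : m - Finsupp.single i 1 + Finsupp.single i 1 = m :=
        Finsupp.sub_add_single_one_cancel h1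
      rw [coeff_pderiv, h2]
      have h3 : (((m - Finsupp.single i 1 : Fin N →₀ ℕ) i : ℕ) : ℤ) + 1 = (m i : ℤ) := by
        rw [Finsupp.tsub_apply, Finsupp.single_eq_same]
        omega
      rw [h3]
      ring
    · have h1 : m i = 0 := by simpa using hm
      rw [h1]
      simp
  rw [coeff_X_mul']
  have e0 : (i ∈ (Finsupp.equivFunOnFinite.symm α).support) ↔ 1 ≤ α i := by
    rw [Finsupp.mem_support_iff]
    simp [Nat.one_le_iff_ne_zero]
  by_cases hi : 1 ≤ α i
  · rw [if_pos (e0.2 hi), if_pos hi, key]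
    have e1 : (Finsupp.equivFunOnFinite.symm α - Finsupp.single i 1 : Fin N →₀ ℕ) =
        Finsupp.equivFunOnFinite.symm (Function.update α i (α i - 1)) := by
      ext j
      rw [Finsupp.tsub_apply]
      by_cases hj : j = i
      · subst hj
        simp
      · simp [Ne.symm hj, Function.update_of_ne hj]
    rw [e1]
    have e2 : (((Finsupp.equivFunOnFinite.symm (Function.update α i (α i - 1)) :
        Fin N →₀ ℕ) i : ℕ) : ℤ) = (α i : ℤ) - 1 := by
      simp
      omega
    rw [e2]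
  · rw [if_neg (fun h => hi (e0.1 h)), if_neg hi]

/-- the relation which corresponds to the Jucys-Murphy elements.  Proof: let `E` be the derivation
of `MvPolynomial (Fin N) ℤ` with `E (X i) = X i ^ 2` (`MvPolynomial.mkDerivation`); then
`E (pw N r) = r * pw N (r+1)`, `E (vd N) = (N-1) * pw N 1 * vd N` (each factor:
`E (X j - X i) = (X j + X i) * (X j - X i)`), and
`coeff α (E f) = ∑ i, (α i - 1) * coeff (α - e_i) f` (sum over `i` with `1 ≤ α i`).  Compare the
coefficients of `x^α` in `E (fr N ρ)`. -/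
theorem th_der {N : ℕ} (ρ : Multiset ℕ) (α : Fin N → ℕ) :
    (∑ i, if 1 ≤ α i then ((α i : ℤ) - N) * th ρ (Function.update α i (α i - 1)) else 0) =
      (ρ.map (fun c : ℕ => (c : ℤ) * th ((c + 1) ::ₘ ρ.erase c) α)).sum := by
  have h1 := coeff_EE (fr N ρ) α
  rw [EE_fr, coeff_add, coeff_C_mul] at h1
  have h2 : coeff (Finsupp.equivFunOnFinite.symm α)
      (ρ.map (fun c : ℕ => C (c : ℤ) * fr N ((c + 1) ::ₘ ρ.erase c))).sum =
      (ρ.map (fun c : ℕ => (c : ℤ) * th ((c + 1) ::ₘ ρ.erase c) α)).sum := by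
    have h3 := map_multiset_sum (coeffAddMonoidHom (R := ℤ) (Finsupp.equivFunOnFinite.symm α))
      (ρ.map (fun c : ℕ => C (c : ℤ) * fr N ((c + 1) ::ₘ ρ.erase c)))
    rw [coeffAddMonoidHom_apply] at h3
    rw [h3, Multiset.map_map]
    refine congrArg Multiset.sum (Multiset.map_congr rfl fun c _ => ?_)
    rw [Function.comp_apply, coeffAddMonoidHom_apply, coeff_C_mul]
    rfl
  have h4 : coeff (Finsupp.equivFunOnFinite.symm α) (fr N (1 ::ₘ ρ)) =
      ∑ i, if 1 ≤ α i then th ρ (Function.update α i (α i - 1)) else 0 := th_cons 1 ρ α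
  rw [h2, h4] at h1
  rw [← eq_sub_iff_add_eq'] at h1
  rw [h1, Finset.mul_sum, ← Finset.sum_sub_distrib]
  refine Finset.sum_congr rfl fun i _ => ?_
  split_ifs
  · unfold th
    ring
  · ring

end Pool.MP322F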