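import Pool.Agent.Lib.MP_322c5f_alF.FA01

/-! Removing one cell in terms of beta numbers. -/

set_option autoImplicit false

open Finset Classical

namespace Pool.MP322F

open Pool.MP322
private theorem fa_rowLen_zero {mu : YoungDiagram} {N r : ℕ} (h : mu.colLen 0 ≤ N) (hr : N ≤ r) :
    mu.rowLen r = 0 := by
  by_contra hcon
  have h1 : (r, 0) ∈ mu := YoungDiagram.mem_iff_lt_rowLen.2 (Nat.pos_of_ne_zero hcon)
  rw [YoungDiagram.mem_iff_lt_colLen] at h1
  omega

private theorem fa_diag_ext {lam mu : YoungDiagram} (h : ∀ r, lam.rowLen r = mu.rowLen r) :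
    lam = mu := by
  apply YoungDiagram.ext
  ext c
  rw [YoungDiagram.mem_cells, YoungDiagram.mem_cells]
  have h1 : c = (c.1, c.2) := rfl
  rw [h1, YoungDiagram.mem_iff_lt_rowLen, YoungDiagram.mem_iff_lt_rowLen, h]

private def faOf (f : ℕ → ℕ) (hf : Antitone f) (N : ℕ) : YoungDiagram where
  cells := ((range N) ×ˢ (range (f 0))).filter (fun c => c.2 < f c.1)
  isLowerSet := by
    intro a b hab ha
    obtain ⟨hab1, hab2⟩ := Prod.mk_le_mk.1 hab
    simp only [Finset.coe_filter, Finset.mem_product, Finset.mem_range, Set.mem_ofPred_eq] at ha ⊢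
    have h1 := hf hab1
    refine ⟨⟨?_, ?_⟩, ?_⟩ <;> omega

private theorem fa_mem_of {f : ℕ → ℕ} {hf : Antitone f} {N : ℕ} (hN : f N = 0) {c : ℕ × ℕ} :
    c ∈ faOf f hf N ↔ c.2 < f c.1 := by
  rw [← YoungDiagram.mem_cells]
  simp only [faOf, Finset.mem_filter, Finset.mem_product, Finset.mem_range]
  constructor
  · exact fun h => h.2
  · intro h
    refine ⟨⟨?_, ?_⟩, h⟩
    · by_contra hcon
      have := hf (show N ≤ c.1 by omega)
      omega
    · have := hf (Nat.zero_le c.1)
      omega

private theorem fa_rowLen_of {f : ℕ → ℕ} {hf : Antitone f} {N : ℕ} (hN : f N = 0) (r : ℕ) :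
    (faOf f hf N).rowLen r = f r := by
  have h : ∀ c, c < (faOf f hf N).rowLen r ↔ c < f r := by
    intro c
    rw [← YoungDiagram.mem_iff_lt_rowLen, fa_mem_of hN]
  have h1 := h (f r)
  have h2 := h ((faOf f hf N).rowLen r)
  omega

private theorem fa_card (lam : YoungDiagram) (R : ℕ) (hR : lam.colLen 0 ≤ R) :
    lam.card = ∑ r ∈ range R, lam.rowLen r := by
  unfold YoungDiagram.card
  rw [Finset.card_eq_sum_card_fiberwise (f := Prod.fst) (t := range R)]
  · refine Finset.sum_congr rfl fun r _ => ?_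
    rw [YoungDiagram.rowLen_eq_card, YoungDiagram.row]
  · intro c hc
    have h1 : c ∈ lam := (YoungDiagram.mem_cells _).1 (Finset.mem_coe.1 hc)
    have h2 : (c.1, 0) ∈ lam := lam.up_left_mem le_rfl (Nat.zero_le _) h1
    rw [YoungDiagram.mem_iff_lt_colLen] at h2
    exact Finset.mem_coe.2 (Finset.mem_range.2 (lt_of_lt_of_le h2 hR))

/-- the beta numbers are strictly increasing -/
theorem be_strictMono (N : ℕ) (mu : YoungDiagram) : StrictMono (be N mu) := by
  intro i j hij
  have h1 : (i : ℕ) < j := hij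
  have h2 := mu.rowLen_anti (N - 1 - (j : ℕ)) (N - 1 - (i : ℕ)) (by omega)
  unfold be
  omega

/-- the beta numbers determine the diagram -/
theorem be_inj {N : ℕ} {mu nu : YoungDiagram} (hm : mu.colLen 0 ≤ N) (hn : nu.colLen 0 ≤ N)
    (h : be N mu = be N nu) : mu = nu := by
  refine fa_diag_ext fun r => ?_
  rcases Nat.lt_or_ge r N with hr | hr
  · have h1 := congrFun h ⟨N - 1 - r, by omega⟩
    unfold be at h1
    simp only at h1
    have h2 : N - 1 - (N - 1 - r) = r := by omega
    rw [h2] at h1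
    omega
  · rw [fa_rowLen_zero hm hr, fa_rowLen_zero hn hr]

/-- sum of the beta numbers -/
theorem be_sum {N : ℕ} (mu : YoungDiagram) (hm : mu.colLen 0 ≤ N) :
    ∑ i, be N mu i = N.choose 2 + mu.card := by
  unfold be
  rw [Finset.sum_add_distrib, ← Finset.sum_range (fun i => mu.rowLen (N - 1 - i)),
    ← Finset.sum_range (fun i => i), Finset.sum_range_reflect (fun i => mu.rowLen i) N,
    ← fa_card mu N hm, Finset.sum_range_id, Nat.choose_two_right, add_comm]

private theorem fa_mono {N : ℕ} {α : Fin N → ℕ} (h : StrictMono α) (d : ℕ) :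
    ∀ i j : Fin N, (j : ℕ) = i + d → α i + d ≤ α j := by
  induction d with
  | zero =>
    intro i j hij
    have : i = j := Fin.ext (by omega)
    rw [this]
    omega
  | succ d ih =>
    intro i j hij
    have h1 := ih i ⟨i + d, by omega⟩ rfl
    have h2 : α ⟨i + d, by omega⟩ < α j := h (Fin.lt_def.2 (by simp only; omega))
    omega

/-- every strictly increasing sequence is a sequence of beta numbers -/
theorem exists_be {N : ℕ} (α : Fin N → ℕ) (h : StrictMono α) :
    ∃ mu : YoungDiagram, mu.colLen 0 ≤ N ∧ be N mu = α := by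
  obtain ⟨f, hf⟩ : ∃ f : ℕ → ℕ, ∀ r, f r = if hr : r < N then
      α ⟨N - 1 - r, by omega⟩ - (N - 1 - r) else 0 := ⟨_, fun _ => rfl⟩
  have hanti : Antitone f := by
    intro r s hrs
    rw [hf r, hf s]
    by_cases hs : s < N
    · have hr : r < N := by omega
      rw [dif_pos hs, dif_pos hr]
      have h1 := fa_mono h (s - r) ⟨N - 1 - s, by omega⟩ ⟨N - 1 - r, by omega⟩ (by
        simp only
        omega)
      omega
    · rw [dif_neg hs]
      exact Nat.zero_le _
  have hN : f N = 0 := by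
    rw [hf N, dif_neg (lt_irrefl N)]
  refine ⟨faOf f hanti N, ?_, ?_⟩
  · by_contra hcon
    have h1 : (N, 0) ∈ faOf f hanti N := YoungDiagram.mem_iff_lt_colLen.2 (by omega)
    rw [fa_mem_of hN] at h1
    simp only at h1
    omega
  · funext i
    unfold be
    have hi := i.2
    rw [fa_rowLen_of hN, hf, dif_pos (by omega)]
    have h1 : (⟨N - 1 - (N - 1 - (i : ℕ)), by omega⟩ : Fin N) = i := Fin.ext (by simp only; omega)
    rw [h1]
    have h2 := fa_mono h i ⟨0, by omega⟩ i (by simp)
    omega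

private theorem fa_corner {lam : YoungDiagram} {r l : ℕ} :
    (r, l) ∈ corners lam ↔ lam.rowLen r = l + 1 ∧ lam.rowLen (r + 1) ≤ l := by
  rw [brb_mem_corners, YoungDiagram.mem_iff_lt_rowLen, YoungDiagram.mem_iff_lt_rowLen,
    YoungDiagram.mem_iff_lt_rowLen]
  simp only
  omega

private theorem fa_mem_rem {lam : YoungDiagram} {c : ℕ × ℕ} (hc : c ∈ corners lam) (d : ℕ × ℕ) :
    d ∈ brbRem lam c hc ↔ d ≠ c ∧ d ∈ lam := by
  rw [← YoungDiagram.mem_cells]
  change d ∈ lam.cells.erase c ↔ _
  rw [Finset.mem_erase, YoungDiagram.mem_cells]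

private theorem fa_rem_rowLen {lam : YoungDiagram} {r l : ℕ} (hc : (r, l) ∈ corners lam) (k : ℕ) :
    (brbRem lam (r, l) hc).rowLen k = if k = r then lam.rowLen k - 1 else lam.rowLen k := by
  have hc' := fa_corner.1 hc
  have h : ∀ j, j < (brbRem lam (r, l) hc).rowLen k ↔ ¬ (k = r ∧ j = l) ∧ j < lam.rowLen k := by
    intro j
    rw [← YoungDiagram.mem_iff_lt_rowLen, fa_mem_rem, YoungDiagram.mem_iff_lt_rowLen, ne_eq,
      Prod.mk.injEq]
  have h1 := h ((brbRem lam (r, l) hc).rowLen k)
  have h2 := h l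
  have h3 := h (lam.rowLen k)
  have h4 := h (lam.rowLen k - 1)
  have h5 := h (lam.rowLen k - 1 - 1)
  split_ifs with hk
  · subst hk
    omega
  · have hk' : ∀ j, ¬ (k = r ∧ j = l) := fun j hj => hk hj.1
    have h' : ∀ j, j < (brbRem lam (r, l) hc).rowLen k ↔ j < lam.rowLen k := by
      intro j
      rw [h j]
      exact ⟨fun hh => hh.2, fun hh => ⟨hk' j, hh⟩⟩
    have h6 := h' (lam.rowLen k)
    have h7 := h' ((brbRem lam (r, l) hc).rowLen k)
    omega

private theorem fa_cond {N : ℕ} {lam : YoungDiagram} (h : lam.colLen 0 ≤ N) (i : Fin N) :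
    (1 ≤ be N lam i ∧ ∀ j, be N lam j ≠ be N lam i - 1) ↔
      (N - 1 - (i : ℕ), lam.rowLen (N - 1 - (i : ℕ)) - 1) ∈ corners lam := by
  have hi := i.2
  rw [fa_corner]
  constructor
  · rintro ⟨h1, h2⟩
    have h3 : lam.rowLen (N - 1 - (i : ℕ) + 1) < lam.rowLen (N - 1 - (i : ℕ)) := by
      rcases Nat.eq_zero_or_pos (i : ℕ) with h0 | h0
      · have h4 : lam.rowLen (N - 1 - (i : ℕ) + 1) = 0 := fa_rowLen_zero h (by omega)
        unfold be at h1
        omega
      · have h4 := h2 ⟨i - 1, by omega⟩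
        unfold be at h4
        simp only at h4
        have h5 : N - 1 - ((i : ℕ) - 1) = N - 1 - (i : ℕ) + 1 := by omega
        rw [h5] at h4
        have h6 := lam.rowLen_anti (N - 1 - (i : ℕ)) (N - 1 - (i : ℕ) + 1) (by omega)
        omega
    omega
  · rintro ⟨h1, h2⟩
    have hb : be N lam i = lam.rowLen (N - 1 - (i : ℕ)) + i := rfl
    refine ⟨by omega, fun j hj => ?_⟩
    rcases lt_trichotomy j i with hji | hji | hji
    · have h3 : (j : ℕ) < i := hji
      have h4 : be N lam j ≤ be N lam ⟨i - 1, by omega⟩ :=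
        (be_strictMono N lam).monotone (Fin.le_def.2 (by simp only; omega))
      have h5 : be N lam ⟨i - 1, by omega⟩ = lam.rowLen (N - 1 - (i : ℕ) + 1) + (i - 1) := by
        unfold be
        simp only
        have h6 : N - 1 - ((i : ℕ) - 1) = N - 1 - (i : ℕ) + 1 := by omega
        rw [h6]
      omega
    · subst hji
      omega
    · have h3 := be_strictMono N lam hji
      omega

private theorem fa_cs {lam : YoungDiagram} {c : ℕ × ℕ} (hc : c ∈ corners lam) :
    cs lam - cs (brbRem lam c hc) = ct c := by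
  unfold cs
  have h1 : (brbRem lam c hc).cells = lam.cells.erase c := by
    ext d
    rw [YoungDiagram.mem_cells, fa_mem_rem hc d, Finset.mem_erase, YoungDiagram.mem_cells]
  rw [h1]
  have h2 : c ∈ lam.cells := (YoungDiagram.mem_cells _).2 (brb_mem_corners.1 hc).1
  rw [← Finset.add_sum_erase lam.cells ct h2]
  ring

private theorem fa_surj {n : ℕ} {lam : Y (n + 1)} {rho : Y n} (hrho : rho.1 ≤ lam.1) :
    ∃ c, ∃ hc : c ∈ corners lam.1, brbRem lam.1 c hc = rho.1 := by
  obtain ⟨c, h1, h2, h3⟩ := brb_missing rho lam hrho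
  have hc : c ∈ corners lam.1 := by
    rw [brb_mem_corners]
    refine ⟨h2, fun hcon => ?_, fun hcon => ?_⟩
    · rcases (h3 _).1 hcon with h | h
      · exact h1 (brb_lower rho.1 (a := (c.1 + 1, c.2)) (b := c) (by simp) le_rfl h)
      · have := congrArg Prod.fst h; simp at this
    · rcases (h3 _).1 hcon with h | h
      · exact h1 (brb_lower rho.1 (a := (c.1, c.2 + 1)) (b := c) le_rfl (by simp) h)
      · have := congrArg Prod.snd h; simp at this
  refine ⟨c, hc, ?_⟩
  apply YoungDiagram.ext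
  ext d
  rw [YoungDiagram.mem_cells, YoungDiagram.mem_cells, fa_mem_rem hc d, h3 d]
  constructor
  · rintro ⟨hne, h | h⟩
    · exact h
    · exact absurd h hne
  · intro h
    exact ⟨fun h' => h1 (h' ▸ h), Or.inl h⟩

private theorem fa_card_rem {n : ℕ} {lam : Y (n + 1)} {c : ℕ × ℕ} (hc : c ∈ corners lam.1) :
    (brbRem lam.1 c hc).card = n := by
  have h1 : (brbRem lam.1 c hc).cells = lam.1.cells.erase c := by
    ext d
    rw [YoungDiagram.mem_cells, fa_mem_rem hc d, Finset.mem_erase, YoungDiagram.mem_cells]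
  have h2 : c ∈ lam.1.cells := (YoungDiagram.mem_cells _).2 (brb_mem_corners.1 hc).1
  have h3 : lam.1.cells.card = n + 1 := lam.2
  change (brbRem lam.1 c hc).cells.card = n
  rw [h1, Finset.card_erase_of_mem h2, h3]
  omega

/-- sum over the diagrams obtained by removing a cell: the cell of row `r = N-1-i` can be removed
iff `be i - 1` is not a beta number (and `1 ≤ be i`); its content is `be i - N`. -/
theorem down_sum {N n : ℕ} (lam : Y (n + 1)) (h : lam.1.colLen 0 ≤ N)
    (F : (Fin N → ℕ) → ℤ → ℤ) :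
    ∑ rho ∈ (Finset.univ : Finset (Y n)).filter (fun rho => rho.1 ≤ lam.1),
        F (be N rho.1) (cs lam.1 - cs rho.1) =
      ∑ i : Fin N, if 1 ≤ be N lam.1 i ∧ ∀ j, be N lam.1 j ≠ be N lam.1 i - 1 then
        F (Function.update (be N lam.1) i (be N lam.1 i - 1)) ((be N lam.1 i : ℤ) - N) else 0 := by
  rw [← Finset.sum_filter]
  symm
  have hcor : ∀ i : Fin N, i ∈ (Finset.univ : Finset (Fin N)).filter (fun i =>
      1 ≤ be N lam.1 i ∧ ∀ j, be N lam.1 j ≠ be N lam.1 i - 1) →
      (N - 1 - (i : ℕ), lam.1.rowLen (N - 1 - (i : ℕ)) - 1) ∈ corners lam.1 := by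
    intro i hi
    rw [Finset.mem_filter] at hi
    exact (fa_cond h i).1 hi.2
  refine Finset.sum_bij (fun i hi => (⟨brbRem lam.1 _ (hcor i hi), fa_card_rem _⟩ : Y n))
    ?_ ?_ ?_ ?_
  · intro i hi
    rw [Finset.mem_filter]
    refine ⟨Finset.mem_univ _, ?_⟩
    intro d hd
    exact ((fa_mem_rem (hcor i hi) d).1 hd).2
  · intro i hi j hj hij
    have h1 : brbRem lam.1 _ (hcor i hi) = brbRem lam.1 _ (hcor j hj) := congrArg Subtype.val hij
    have h2 : (brbRem lam.1 _ (hcor i hi)).rowLen (N - 1 - (i : ℕ)) =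
        (brbRem lam.1 _ (hcor j hj)).rowLen (N - 1 - (i : ℕ)) := by rw [h1]
    rw [fa_rem_rowLen, fa_rem_rowLen, if_pos rfl] at h2
    have h3 := (fa_corner.1 (hcor i hi)).1
    have hi' := i.2
    have hj' := j.2
    split_ifs at h2 with h4
    · exact Fin.ext (by omega)
    · omega
  · intro rho hrho
    rw [Finset.mem_filter] at hrho
    obtain ⟨⟨r, l⟩, hc, hrem⟩ := fa_surj hrho.2
    have h1 := fa_corner.1 hc
    have hr : r < N := by
      have h2 : (r, 0) ∈ lam.1 := YoungDiagram.mem_iff_lt_rowLen.2 (by omega)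
      rw [YoungDiagram.mem_iff_lt_colLen] at h2
      omega
    have hrr : N - 1 - (N - 1 - r) = r := by omega
    have hll : lam.1.rowLen r - 1 = l := by omega
    have hmem : (⟨N - 1 - r, by omega⟩ : Fin N) ∈ (Finset.univ : Finset (Fin N)).filter (fun i =>
      1 ≤ be N lam.1 i ∧ ∀ j, be N lam.1 j ≠ be N lam.1 i - 1) := by
      rw [Finset.mem_filter]
      refine ⟨Finset.mem_univ _, (fa_cond h _).2 ?_⟩
      simp only
      rw [hrr, hll]
      exact hc
    refine ⟨⟨N - 1 - r, by omega⟩, hmem, ?_⟩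
    apply Subtype.ext
    refine Eq.trans ?_ hrem
    refine fa_diag_ext fun k => ?_
    rw [fa_rem_rowLen, fa_rem_rowLen, hrr]
  · intro i hi
    have h1 := fa_corner.1 (hcor i hi)
    have hi' := i.2
    have h2 : be N (brbRem lam.1 _ (hcor i hi)) =
        Function.update (be N lam.1) i (be N lam.1 i - 1) := by
      funext j
      have hj' := j.2
      by_cases hji : j = i
      · subst hji
        rw [Function.update_self]
        unfold be
        rw [fa_rem_rowLen, if_pos rfl]
        omega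
      · rw [Function.update_of_ne hji]
        unfold be
        rw [fa_rem_rowLen, if_neg]
        intro hcon
        exact hji (Fin.ext (by omega))
    have h3 : cs lam.1 - cs (brbRem lam.1 _ (hcor i hi)) = (be N lam.1 i : ℤ) - N := by
      rw [fa_cs]
      unfold ct be
      simp only
      omega
    rw [← h2, ← h3]

end Pool.MP322F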