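import Pool.Agent.Lib.MP_322c5f_alF.FA02
import Pool.Agent.Lib.MP_322c5f_alF.FA03

/-! Branching rule and Jucys-Murphy relation for `th`. -/

set_option autoImplicit false

open Finset Classical

namespace Pool.MP322F

open Pool.MP322
private theorem th_upd_zero {N : ℕ} (ρ : Multiset ℕ) (α : Fin N → ℕ) {i : Fin N} (h1 : 1 ≤ α i)
    (h : ¬ ∀ j, α j ≠ α i - 1) : th ρ (Function.update α i (α i - 1)) = 0 := by
  push Not at h
  obtain ⟨j, hj⟩ := h
  have hij : i ≠ j := by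
    rintro rfl
    omega
  refine th_eq_zero ρ _ hij ?_
  rw [Function.update_self, Function.update_of_ne hij.symm, hj]

private theorem sum_upd {N : ℕ} (ρ : Multiset ℕ) (α : Fin N → ℕ) (w : Fin N → ℤ) :
    (∑ i, if 1 ≤ α i ∧ ∀ j, α j ≠ α i - 1 then w i * th ρ (Function.update α i (α i - 1)) else 0) =
      ∑ i, if 1 ≤ α i then w i * th ρ (Function.update α i (α i - 1)) else 0 := by
  refine Finset.sum_congr rfl fun i _ => ?_
  by_cases h1 : 1 ≤ α i
  · by_cases h2 : ∀ j, α j ≠ α i - 1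
    · rw [if_pos ⟨h1, h2⟩, if_pos h1]
    · rw [if_neg (fun h => h2 h.2), if_pos h1, th_upd_zero ρ α h1 h2, mul_zero]
  · rw [if_neg (fun h => h1 h.1), if_neg h1]

theorem th_branch {N n : ℕ} (ρ : Multiset ℕ) (lam : Y (n + 1)) (h : lam.1.colLen 0 ≤ N) :
    th (1 ::ₘ ρ) (be N lam.1) =
      ∑ rho ∈ (Finset.univ : Finset (Y n)).filter (fun rho => rho.1 ≤ lam.1),
        th ρ (be N rho.1) := by
  have h1 := down_sum lam h (fun α _ => (1 : ℤ) * th ρ α)
  have h2 := sum_upd ρ (be N lam.1) (fun _ => 1)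
  rw [th_cons]
  simp only [one_mul] at h1 h2
  rw [h1, h2]

theorem th_jm {N n : ℕ} (ρ : Multiset ℕ) (lam : Y (n + 1)) (h : lam.1.colLen 0 ≤ N) :
    (ρ.map (fun c : ℕ => (c : ℤ) * th ((c + 1) ::ₘ ρ.erase c) (be N lam.1))).sum =
      ∑ rho ∈ (Finset.univ : Finset (Y n)).filter (fun rho => rho.1 ≤ lam.1),
        (cs lam.1 - cs rho.1) * th ρ (be N rho.1) := by
  have h1 := down_sum lam h (fun α z => z * th ρ α)
  have h2 := sum_upd ρ (be N lam.1) (fun i => (be N lam.1 i : ℤ) - N)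
  rw [← th_der, h1, h2]

end Pool.MP322F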