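import Pool.Agent.Lib.MP_322c5f_alF.FA00
import Pool.Agent.Lib.MP_322c5f_al.Row
import Pool.Agent.Lib.MP_322c5f_al.Cons
import Pool.Agent.Lib.MP_322c5f_al.BranchA

/-! Branching rule and Jucys-Murphy relation for the characters. -/

set_option autoImplicit false

open Finset Equiv Classical

namespace Pool.MP322F

open Pool.MP322
private theorem fa5_mem {n : ℕ} {rho : YoungDiagram} (y : Tab ⊥ rho n) (c : ℕ × ℕ) :
    c ∈ rho ↔ ∃ i, y.1 i = c := by
  rw [y.2.2.2.1 c]
  constructor
  · rintro (h | h)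
    · exact absurd h (by simp)
    · exact h
  · exact Or.inr

private theorem fa5_snoc {n : ℕ} (lam : Y (n + 1)) (rho : Y n) (y : Tab ⊥ rho.1 n)
    (c : ℕ × ℕ) (hc : c ∉ rho.1) (hl : ∀ d, d ∈ lam.1 ↔ d ∈ rho.1 ∨ d = c) :
    IsTab ⊥ lam.1 (n + 1) (Fin.snoc (α := fun _ => ℕ × ℕ) y.1 c) := by
  have hmem : ∀ d, d ∈ lam.1 ↔ ∃ i, (Fin.snoc (α := fun _ => ℕ × ℕ) y.1 c) i = d := by
    intro d
    rw [hl d, fa5_mem y d]
    constructor
    · rintro (⟨i, hi⟩ | rfl)
      · exact ⟨i.castSucc, by rw [Fin.snoc_castSucc]; exact hi⟩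
      · exact ⟨Fin.last n, by rw [Fin.snoc_last]⟩
    · rintro ⟨i, hi⟩
      induction i using Fin.lastCases with
      | last =>
        rw [Fin.snoc_last] at hi
        exact Or.inr hi.symm
      | cast i =>
        rw [Fin.snoc_castSucc] at hi
        exact Or.inl ⟨i, hi⟩
  refine ⟨?_, fun i => by simp, fun d => ?_, fun i d hd => Or.inr ?_⟩
  · intro i j hij
    induction i using Fin.lastCases with
    | last =>
      induction j using Fin.lastCases with
      | last => rfl
      | cast j =>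
        exfalso
        rw [Fin.snoc_last, Fin.snoc_castSucc] at hij
        exact hc ((fa5_mem y c).2 ⟨j, hij.symm⟩)
    | cast i =>
      induction j using Fin.lastCases with
      | last =>
        exfalso
        rw [Fin.snoc_last, Fin.snoc_castSucc] at hij
        exact hc ((fa5_mem y c).2 ⟨i, hij⟩)
      | cast j =>
        rw [Fin.snoc_castSucc, Fin.snoc_castSucc] at hij
        rw [y.2.1 hij]
  · rw [hmem d]
    constructor
    · exact Or.inr
    · rintro (h | h)
      · exact absurd h (by simp)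
      · exact h
  · induction i using Fin.lastCases with
    | last =>
      rw [Fin.snoc_last] at hd
      have hdl : d ∈ lam.1 :=
        lam.1.isLowerSet hd ((YoungDiagram.mem_cells _).2 ((hl c).2 (Or.inr rfl)))
      obtain ⟨j, hj⟩ := (hmem d).1 hdl
      exact ⟨j, Fin.le_last j, hj⟩
    | cast i =>
      rw [Fin.snoc_castSucc] at hd
      rcases y.2.2.2.2 i d hd with h | ⟨j, hj, hjd⟩
      · exact absurd h (by simp)
      · exact ⟨j.castSucc, Fin.castSucc_le_castSucc_iff.2 hj, by rw [Fin.snoc_castSucc]; exact hjd⟩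

/-- add the last cell -/
private noncomputable def fa5_add {n : ℕ} (lam : Y (n + 1)) (rho : Y n) (h : rho.1 ≤ lam.1)
    (y : Tab ⊥ rho.1 n) : Tab ⊥ lam.1 (n + 1) :=
  ⟨Fin.snoc (α := fun _ => ℕ × ℕ) y.1 (ncell rho lam h),
    fa5_snoc lam rho y _ (ncell_spec rho lam h).1 (ncell_spec rho lam h).2.2⟩

private theorem fa5_add_last {n : ℕ} (lam : Y (n + 1)) (rho : Y n) (h : rho.1 ≤ lam.1)
    (y : Tab ⊥ rho.1 n) : (fa5_add lam rho h y).1 (Fin.last n) = ncell rho lam h :=
  Fin.snoc_last (α := fun _ => ℕ × ℕ) _ _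

private theorem fa5_add_cast {n : ℕ} (lam : Y (n + 1)) (rho : Y n) (h : rho.1 ≤ lam.1)
    (y : Tab ⊥ rho.1 n) (i : Fin n) : (fa5_add lam rho h y).1 i.castSucc = y.1 i :=
  Fin.snoc_castSucc (α := fun _ => ℕ × ℕ) _ _ _

private noncomputable def fa5_map {n : ℕ} (lam : Y (n + 1)) :
    (Σ rho : {rho : Y n // rho.1 ≤ lam.1}, Tab ⊥ rho.1.1 n) → Tab ⊥ lam.1 (n + 1) := fun p =>
  fa5_add lam p.1.1 p.1.2 p.2

private theorem fa5_shape {n : ℕ} (lam : Y (n + 1)) (rho rho' : Y n) (h : rho.1 ≤ lam.1)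
    (h' : rho'.1 ≤ lam.1) (y : Tab ⊥ rho.1 n) (y' : Tab ⊥ rho'.1 n)
    (he : ∀ i : Fin n, (fa5_add lam rho h y).1 i.castSucc = (fa5_add lam rho' h' y').1 i.castSucc) :
    rho = rho' := by
  have h2 : y.1 = y'.1 := by
    funext i
    have := he i
    rwa [fa5_add_cast, fa5_add_cast] at this
  apply Subtype.ext
  apply YoungDiagram.ext
  ext c
  rw [YoungDiagram.mem_cells, YoungDiagram.mem_cells]
  have e1 := fa5_mem y c
  have e2 := fa5_mem y' c
  rw [e1, e2, h2]

private theorem fa5_add_inj {n : ℕ} (lam : Y (n + 1)) (rho : Y n) (h : rho.1 ≤ lam.1)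
    (y y' : Tab ⊥ rho.1 n) : fa5_add lam rho h y = fa5_add lam rho h y' ↔ y = y' := by
  constructor
  · intro he
    apply Subtype.ext
    funext i
    have := congrFun (congrArg Subtype.val he) i.castSucc
    rwa [fa5_add_cast, fa5_add_cast] at this
  · rintro rfl; rfl

private theorem fa5_inj {n : ℕ} (lam : Y (n + 1)) : Function.Injective (fa5_map lam) := by
  rintro ⟨⟨rho, h⟩, y⟩ ⟨⟨rho', h'⟩, y'⟩ he
  have he' : fa5_add lam rho h y = fa5_add lam rho' h' y' := he
  have h3 : rho = rho' := fa5_shape lam rho rho' h h' y y' (fun i => by rw [he'])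
  subst h3
  rw [(fa5_add_inj lam rho h y y').1 he']

private theorem fa5_surj {n : ℕ} (lam : Y (n + 1)) : Function.Surjective (fa5_map lam) := by
  intro x
  have hxm : ∀ d, d ∈ lam.1 ↔ ∃ i, x.1 i = d := fa5_mem x
  let rho : YoungDiagram :=
    { cells := Finset.univ.image (fun i : Fin n => x.1 i.castSucc)
      isLowerSet := by
        intro a b hab ha
        simp only [Finset.coe_image, Finset.coe_univ, Set.image_univ, Set.mem_range] at ha ⊢
        obtain ⟨i, rfl⟩ := ha
        rcases x.2.2.2.2 i.castSucc b hab with h | ⟨j, hj, hjb⟩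
        · exact absurd h (by simp)
        · have hj2 : j.val < n := by
            have := Fin.le_def.1 hj
            have h2 : i.castSucc.val = i.val := rfl
            omega
          exact ⟨⟨j.val, hj2⟩, by rw [← hjb]; rfl⟩ }
  have hrm : ∀ d, d ∈ rho ↔ ∃ i : Fin n, x.1 i.castSucc = d := by
    intro d
    rw [← YoungDiagram.mem_cells]
    simp [rho]
  have hcard : rho.card = n := by
    show (Finset.univ.image (fun i : Fin n => x.1 i.castSucc)).card = n
    rw [Finset.card_image_of_injective _ (fun i j hij => Fin.castSucc_injective n (x.2.1 hij)),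
      Finset.card_univ, Fintype.card_fin]
  have hle : rho ≤ lam.1 := by
    intro d hd
    have hd' : d ∈ rho := hd
    obtain ⟨i, hi⟩ := (hrm d).1 hd'
    exact (hxm d).2 ⟨_, hi⟩
  have hy : IsTab ⊥ rho n (fun i : Fin n => x.1 i.castSucc) := by
    refine ⟨fun i j hij => Fin.castSucc_injective n (x.2.1 hij), fun i => by simp, fun d => ?_,
      fun i d hd => Or.inr ?_⟩
    · rw [hrm d]
      constructor
      · exact Or.inr
      · rintro (h | h)
        · exact absurd h (by simp)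
        · exact h
    · rcases x.2.2.2.2 i.castSucc d hd with h | ⟨j, hj, hjb⟩
      · exact absurd h (by simp)
      · have hj3 : j.val ≤ i.val := by
          have := Fin.le_def.1 hj
          exact this
        have hj2 : j.val < n := lt_of_le_of_lt hj3 i.2
        exact ⟨⟨j.val, hj2⟩, Fin.le_def.2 hj3, by rw [← hjb]; rfl⟩
  refine ⟨⟨⟨⟨rho, hcard⟩, hle⟩, ⟨_, hy⟩⟩, ?_⟩
  apply Subtype.ext
  funext i
  show (fa5_add lam ⟨rho, hcard⟩ hle ⟨_, hy⟩).1 i = x.1 i
  induction i using Fin.lastCases with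
  | cast i => rw [fa5_add_cast]
  | last =>
    rw [fa5_add_last]
    have hspec := ncell_spec (⟨rho, hcard⟩ : Y n) lam hle
    have h1 : ncell (⟨rho, hcard⟩ : Y n) lam hle ∈ lam.1 := hspec.2.1
    obtain ⟨j, hj⟩ := (hxm _).1 h1
    induction j using Fin.lastCases with
    | last => exact hj.symm
    | cast j =>
      exfalso
      exact hspec.1 ((hrm _).2 ⟨j, hj⟩)

/-! ### the generators -/

private theorem fa5_iL_cast (n : ℕ) (σ : Perm (Fin n)) (a : Fin n) :
    iL n 1 σ a.castSucc = (σ a).castSucc :=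
  Equiv.Perm.viaEmbedding_apply σ (Fin.castAddEmb 1) a

private theorem fa5_iL_last (n : ℕ) (σ : Perm (Fin n)) :
    iL n 1 σ (Fin.last n) = Fin.last n := by
  apply Equiv.Perm.viaEmbedding_apply_of_notMem σ (Fin.castAddEmb 1)
  rintro ⟨a, ha⟩
  have h1 := congrArg Fin.val ha
  have h2 : (a : ℕ) = n := h1
  have := a.2
  omega

private theorem fa5_iL_sw (n i : ℕ) (h : i + 1 < n) :
    iL n 1 (sw i h) = sw i (show i + 1 < n + 1 by omega) := by
  apply Equiv.ext
  intro x
  apply Fin.ext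
  induction x using Fin.lastCases with
  | cast j =>
    rw [fa5_iL_cast, sw_val]
    show ((sw i h j : Fin n) : ℕ) = sN i (j : ℕ)
    rw [sw_val]
  | last =>
    rw [fa5_iL_last, sw_val]
    show n = sN i n
    unfold sN
    rw [swap_apply_of_ne_of_ne (by omega) (by omega)]

private theorem fa5_comp {n : ℕ} (lam : Y (n + 1)) (rho : Y n) (h : rho.1 ≤ lam.1)
    (y y' : Tab ⊥ rho.1 n) (σ : Perm (Fin n)) :
    (fa5_add lam rho h y').1 = (fa5_add lam rho h y).1 ∘ iL n 1 σ ↔ y'.1 = y.1 ∘ σ := by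
  constructor
  · intro he
    funext j
    have h1 := congrFun he j.castSucc
    rw [Function.comp_apply, fa5_iL_cast, fa5_add_cast, fa5_add_cast] at h1
    exact h1
  · intro he
    funext j
    rw [Function.comp_apply]
    induction j using Fin.lastCases with
    | cast j =>
      rw [fa5_iL_cast, fa5_add_cast, fa5_add_cast, he]
      rfl
    | last =>
      rw [fa5_iL_last, fa5_add_last, fa5_add_last]

private theorem fa5_yd {n : ℕ} (lam : Y (n + 1)) (rho : Y n) (h : rho.1 ≤ lam.1)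
    (y : Tab ⊥ rho.1 n) (i : ℕ) (hi : i + 1 < n) (hi' : i + 1 < n + 1) :
    yd (fa5_add lam rho h y).1 i hi' = yd y.1 i hi := by
  have e1 : (fa5_add lam rho h y).1 ⟨i, by omega⟩ = y.1 ⟨i, by omega⟩ :=
    fa5_add_cast lam rho h y ⟨i, by omega⟩
  have e2 : (fa5_add lam rho h y).1 ⟨i + 1, hi'⟩ = y.1 ⟨i + 1, hi⟩ :=
    fa5_add_cast lam rho h y ⟨i + 1, hi⟩
  unfold yd
  rw [e1, e2]

private theorem fa5_yM {n : ℕ} (lam : Y (n + 1)) (rho : Y n) (h : rho.1 ≤ lam.1)
    (y y' : Tab ⊥ rho.1 n) (i : ℕ) (hi : i + 1 < n) (hi' : i + 1 < n + 1) :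
    yM ⊥ lam.1 (n + 1) i hi' (fa5_add lam rho h y) (fa5_add lam rho h y') =
      yM ⊥ rho.1 n i hi y y' := by
  have e1 : (fa5_add lam rho h y').1 = (fa5_add lam rho h y).1 ∘ sw i hi' ↔
      y'.1 = y.1 ∘ sw i hi := by
    rw [← fa5_iL_sw n i hi]
    exact fa5_comp lam rho h y y' (sw i hi)
  have e2 : yd (fa5_add lam rho h y).1 i hi' = yd y.1 i hi := fa5_yd lam rho h y i hi hi'
  unfold yM
  simp only [fa5_add_inj, e1, e2]

private theorem fa5_yM_last {α β : YoungDiagram} {n i : ℕ} (h : i + 1 < n)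
    (h' : i + 1 < n + 1) {x z : Tab α β (n + 1)}
    (hz : yM α β (n + 1) i h' x z ≠ 0) : z.1 (Fin.last n) = x.1 (Fin.last n) := by
  have h0 : z.1 = x.1 ∨ z.1 = x.1 ∘ sw i h' := by
    unfold yM at hz
    by_cases h1 : z = x
    · left; rw [h1]
    · rw [if_neg h1] at hz
      by_cases h2 : z.1 = x.1 ∘ sw i h'
      · right; exact h2
      · rw [if_neg h2] at hz
        exact absurd rfl hz
  rcases h0 with h1 | h1
  · rw [h1]
  · rw [h1, ← fa5_iL_sw n i h]
    show x.1 (iL n 1 (sw i h) (Fin.last n)) = x.1 (Fin.last n)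
    rw [fa5_iL_last]

private theorem fa5_rep_ne {α β : YoungDiagram} {n : ℕ} (x y : Tab α β (n + 1))
    (h : x.1 (Fin.last n) ≠ y.1 (Fin.last n)) (π : Perm (Fin n)) :
    rep α β (n + 1) (iL n 1 π) x y = 0 := by
  induction π using perm_induction generalizing x with
  | one =>
    rw [map_one, map_one]
    exact Matrix.one_apply_ne fun hxy => h (by rw [hxy])
  | mul i hi σ ih =>
    rw [map_mul, map_mul, fa5_iL_sw, rep_sw, Matrix.mul_apply]
    refine Finset.sum_eq_zero fun z _ => ?_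
    by_cases hz : yM α β (n + 1) i (by omega) x z = 0
    · rw [hz, zero_mul]
    · rw [ih z (by rw [fa5_yM_last hi _ hz]; exact h), mul_zero]

private theorem fa5_shape_of_cell {n : ℕ} (lam : Y (n + 1)) (rho rho' : Y n) (h : rho.1 ≤ lam.1)
    (h' : rho'.1 ≤ lam.1) (hn : ncell rho lam h = ncell rho' lam h') : rho = rho' := by
  obtain ⟨a1, a2, a3⟩ := ncell_spec rho lam h
  obtain ⟨b1, b2, b3⟩ := ncell_spec rho' lam h'
  apply Subtype.ext
  apply SetLike.ext
  intro d
  constructor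
  · intro hd
    rcases (b3 d).1 ((a3 d).2 (Or.inl hd)) with h1 | h1
    · exact h1
    · rw [h1, ← hn] at hd
      exact absurd hd a1
  · intro hd
    rcases (a3 d).1 ((b3 d).2 (Or.inl hd)) with h1 | h1
    · exact h1
    · rw [h1, hn] at hd
      exact absurd hd b1

private theorem fa5_rep {n : ℕ} (lam : Y (n + 1)) (rho : Y n) (h : rho.1 ≤ lam.1)
    (y y' : Tab ⊥ rho.1 n) (π : Perm (Fin n)) :
    rep ⊥ lam.1 (n + 1) (iL n 1 π) (fa5_add lam rho h y) (fa5_add lam rho h y') =
      rep ⊥ rho.1 n π y y' := by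
  induction π using perm_induction generalizing y with
  | one =>
    rw [map_one, map_one, map_one, Matrix.one_apply, Matrix.one_apply]
    simp only [fa5_add_inj]
  | mul i hi σ ih =>
    rw [map_mul, map_mul, map_mul, fa5_iL_sw, rep_sw, rep_sw, Matrix.mul_apply, Matrix.mul_apply]
    symm
    refine Fintype.sum_of_injective (fun t'' => fa5_add lam rho h t'')
      (fun a b hab => (fa5_add_inj lam rho h a b).1 hab) _ _ ?_ ?_
    · intro z hz
      rw [fa5_rep_ne z (fa5_add lam rho h y') ?_ σ, mul_zero]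
      intro hcon
      apply hz
      obtain ⟨⟨⟨rho', h'⟩, s⟩, rfl⟩ := fa5_surj lam z
      have hcon' : (fa5_add lam rho' h' s).1 (Fin.last n) =
        (fa5_add lam rho h y').1 (Fin.last n) := hcon
      rw [fa5_add_last, fa5_add_last] at hcon'
      obtain rfl := fa5_shape_of_cell lam rho' rho h' h hcon'
      exact ⟨s, rfl⟩
    · intro t''
      rw [fa5_yM lam rho h y t'' i hi, ih t'']

private theorem fa5_sum {n : ℕ} (lam : Y (n + 1)) (F : Tab ⊥ lam.1 (n + 1) → ℝ)
    (G : (rho : Y n) → Tab ⊥ rho.1 n → ℝ)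
    (hFG : ∀ (rho : Y n) (h : rho.1 ≤ lam.1) (y : Tab ⊥ rho.1 n), F (fa5_add lam rho h y) = G rho y) :
    ∑ x, F x = ∑ rho ∈ (Finset.univ : Finset (Y n)).filter (fun rho => rho.1 ≤ lam.1),
      ∑ y, G rho y := by
  have h1 : ∑ x, F x = ∑ p, F (fa5_map lam p) :=
    (Function.Bijective.sum_comp ⟨fa5_inj lam, fa5_surj lam⟩ F).symm
  rw [h1, Fintype.sum_sigma]
  have h2 : ∀ rho : {rho : Y n // rho.1 ≤ lam.1},
      ∑ y, F (fa5_map lam ⟨rho, y⟩) = ∑ y, G rho.1 y := by
    intro rho
    refine Finset.sum_congr rfl fun y _ => ?_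
    exact hFG rho.1 rho.2 y
  rw [Finset.sum_congr rfl fun rho _ => h2 rho]
  exact (Finset.sum_subtype _ (by simp) (fun rho : Y n => ∑ y, G rho y)).symm

private theorem fa5_cs {n : ℕ} (lam : Y (n + 1)) (rho : Y n) (h : rho.1 ≤ lam.1) :
    ct (ncell rho lam h) = cs lam.1 - cs rho.1 := by
  obtain ⟨a1, a2, a3⟩ := ncell_spec rho lam h
  have h1 : lam.1.cells = insert (ncell rho lam h) rho.1.cells := by
    ext d
    rw [Finset.mem_insert, YoungDiagram.mem_cells, YoungDiagram.mem_cells, a3 d]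
    exact or_comm
  unfold cs
  rw [h1, Finset.sum_insert (fun hcon => a1 ((YoungDiagram.mem_cells _).1 hcon))]
  ring

/-- branching: the restriction to the permutations of the first `n` letters -/
theorem chi_branch {n : ℕ} (lam : Y (n + 1)) (τ : Perm (Fin n)) :
    chi lam (iL n 1 τ) =
      ∑ rho ∈ (Finset.univ : Finset (Y n)).filter (fun rho => rho.1 ≤ lam.1), chi rho τ := by
  unfold chi Matrix.trace
  exact fa5_sum lam _ (fun rho y => rep ⊥ rho.1 n τ y y) (fun rho h y => fa5_rep lam rho h y y τ)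

/-- the Jucys-Murphy element of the last letter (use `jm_diag` with `i = last n`): on the block of
the tableaux `x` with `x.1 ∘ castSucc` a tableau of `rho`, the matrix `∑ j, rep (swap j last)` is
the scalar `ct` of the cell `lam / rho`, which is `cs lam - cs rho`. -/
theorem chi_jm {n : ℕ} (lam : Y (n + 1)) (τ : Perm (Fin n)) :
    ∑ j : Fin n, chi lam (iL n 1 τ * swap j.castSucc (Fin.last n)) =
      ∑ rho ∈ (Finset.univ : Finset (Y n)).filter (fun rho => rho.1 ≤ lam.1),
        ((cs lam.1 - cs rho.1 : ℤ) : ℝ) * chi rho τ := by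
  have h1 : ∑ j : Fin n, chi lam (iL n 1 τ * swap j.castSucc (Fin.last n)) =
      (rep ⊥ lam.1 (n + 1) (iL n 1 τ) *
        Matrix.diagonal (fun x : Tab ⊥ lam.1 (n + 1) => ((ct (x.1 (Fin.last n)) : ℤ) : ℝ))).trace := by
    rw [← jm_diag lam.1 (n + 1) (Fin.last n), Matrix.mul_sum, Matrix.trace_sum]
    have h2 : Finset.univ.filter (fun j : Fin (n + 1) => j < Fin.last n) =
        Finset.univ.map Fin.castSuccEmb := by
      ext j
      rw [Finset.mem_filter, Finset.mem_map]
      constructor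
      · rintro ⟨-, hj⟩
        exact ⟨⟨j.1, hj⟩, Finset.mem_univ _, Fin.ext rfl⟩
      · rintro ⟨i, -, rfl⟩
        exact ⟨Finset.mem_univ _, Fin.castSucc_lt_last i⟩
    rw [h2, Finset.sum_map]
    refine Finset.sum_congr rfl fun j _ => ?_
    unfold chi
    rw [map_mul]
    rfl
  rw [h1]
  unfold Matrix.trace
  have h3 := fa5_sum lam (fun x => Matrix.diag (rep ⊥ lam.1 (n + 1) (iL n 1 τ) *
        Matrix.diagonal (fun x : Tab ⊥ lam.1 (n + 1) => ((ct (x.1 (Fin.last n)) : ℤ) : ℝ))) x)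
    (fun rho y => ((cs lam.1 - cs rho.1 : ℤ) : ℝ) * rep ⊥ rho.1 n τ y y) ?_
  · rw [h3]
    refine Finset.sum_congr rfl fun rho _ => ?_
    rw [← Finset.mul_sum]
    rfl
  · intro rho h y
    rw [Matrix.diag_apply, Matrix.mul_diagonal, fa5_rep lam rho h y y τ, fa5_add_last,
      fa5_cs lam rho h]
    ring

end Pool.MP322F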