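import Pool.Agent.Lib.MP_322c5f_alF.FA00

/-! Cycle types with fixed points. -/

set_option autoImplicit false

open Finset Equiv

namespace Pool.MP322F

open Pool.MP322
theorem ft_sum {n : ℕ} (σ : Perm (Fin n)) : (ft σ).sum = n := by
  have h : σ.support.card ≤ n := by
    simpa using Finset.card_le_univ σ.support
  unfold ft
  rw [Multiset.sum_add, Perm.sum_cycleType, Multiset.sum_replicate, smul_eq_mul, mul_one]
  omega

theorem ft_pos {n : ℕ} (σ : Perm (Fin n)) : ∀ c ∈ ft σ, 1 ≤ c := by
  intro c hc
  unfold ft at hc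
  rcases Multiset.mem_add.1 hc with h | h
  · exact (Perm.one_lt_of_mem_cycleType h).le
  · exact (Multiset.eq_of_mem_replicate h).ge

private theorem ft_filter {n : ℕ} (σ : Perm (Fin n)) :
    (ft σ).filter (fun c => 2 ≤ c) = σ.cycleType := by
  unfold ft
  have h2 : (Multiset.replicate (n - σ.support.card) 1).filter (fun c => 2 ≤ c) = 0 := by
    refine Multiset.filter_eq_nil.2 fun a h => ?_
    have := Multiset.eq_of_mem_replicate h
    omega
  rw [Multiset.filter_add, Multiset.filter_eq_self.2 fun _ h => Perm.two_le_of_mem_cycleType h,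
    h2, add_zero]

theorem ft_inj {n : ℕ} {σ τ : Perm (Fin n)} (h : ft σ = ft τ) : σ.cycleType = τ.cycleType := by
  rw [← ft_filter σ, ← ft_filter τ, h]

theorem exists_ft {n : ℕ} (ρ : Multiset ℕ) (h : ρ.sum = n) (h1 : ∀ c ∈ ρ, 1 ≤ c) :
    ∃ σ : Perm (Fin n), ft σ = ρ := by
  have hsplit := Multiset.filter_add_not (fun c => 2 ≤ c) ρ
  have hrep : ρ.filter (fun c => ¬ 2 ≤ c) =
      Multiset.replicate (Multiset.card (ρ.filter (fun c => ¬ 2 ≤ c))) 1 := by
    refine Multiset.eq_replicate_card.2 fun b hb => ?_
    have h3 := Multiset.mem_filter.1 hb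
    have h4 := h1 b h3.1
    omega
  set m := ρ.filter (fun c => 2 ≤ c) with hm
  set k := Multiset.card (ρ.filter (fun c => ¬ 2 ≤ c)) with hk
  have hsum : m.sum + k = n := by
    rw [← h, ← hsplit, Multiset.sum_add, hrep, Multiset.sum_replicate, smul_eq_mul, mul_one]
  obtain ⟨σ, hσ⟩ := (Perm.exists_with_cycleType_iff (Fin n) (m := m)).2 ⟨by
    rw [Fintype.card_fin]; omega, fun a ha => (Multiset.mem_filter.1 ha).2⟩
  refine ⟨σ, ?_⟩
  unfold ft
  have hs : σ.support.card = m.sum := by rw [← hσ, Perm.sum_cycleType]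
  rw [hσ, hs, ← hsplit, hrep]
  congr 2
  omega

private theorem iL_cycleType {n : ℕ} (τ : Perm (Fin n)) :
    (iL n 1 τ).cycleType = τ.cycleType := by
  unfold iL
  rw [Perm.viaEmbeddingHom_apply]
  unfold Perm.viaEmbedding
  convert Perm.cycleType_extendDomain _

theorem ft_iL {n : ℕ} (τ : Perm (Fin n)) : ft (iL n 1 τ) = 1 ::ₘ ft τ := by
  have hs : (iL n 1 τ).support.card = τ.support.card := by
    rw [← Perm.sum_cycleType, ← Perm.sum_cycleType, iL_cycleType]
  have h : τ.support.card ≤ n := by
    simpa using Finset.card_le_univ τ.support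
  unfold ft
  rw [iL_cycleType, hs, show n + 1 - τ.support.card = (n - τ.support.card) + 1 by omega,
    Multiset.replicate_succ, Multiset.add_cons]

private theorem ct_fix {α : Type*} [Fintype α] [DecidableEq α] {σ : Perm α} {a b : α}
    (hab : a ≠ b) (ha : σ a = a) (hb : σ b = b) :
    (σ * swap a b).cycleType = 2 ::ₘ σ.cycleType := by
  have hd : Perm.Disjoint σ (swap a b) := by
    intro x
    by_cases hxa : x = a
    · left; rw [hxa, ha]
    · by_cases hxb : x = b
      · left; rw [hxb, hb]
      · right; exact swap_apply_of_ne_of_ne hxa hxb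
  rw [hd.cycleType_mul, (Perm.isCycle_swap hab).cycleType, Perm.card_support_swap hab, add_comm,
    Multiset.singleton_add]

private theorem ct_cyc {α : Type*} [Fintype α] [DecidableEq α] {σ : Perm α} {a b : α}
    (ha : σ a ≠ a) (hb : σ b = b) :
    (σ * swap a b).cycleType = ((σ.cycleOf a).support.card + 1) ::ₘ
      (σ.cycleType.erase (σ.cycleOf a).support.card) := by
  have has : a ∈ σ.support := Perm.mem_support.2 ha
  have hconj : (σ * swap a b).cycleType = (swap a b * σ).cycleType := by
    have : σ * swap a b = σ * (swap a b * σ) * σ⁻¹ := by group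
    rw [this, Perm.cycleType_conj]
  have hκ : σ.cycleOf a ∈ σ.cycleFactorsFinset :=
    Perm.cycleOf_mem_cycleFactorsFinset_iff.2 has
  have hd := Perm.disjoint_mul_inv_of_mem_cycleFactorsFinset hκ
  have hct := Perm.cycleType_mul_inv_mem_cycleFactorsFinset_eq_sub hκ
  have hcyc : (σ.cycleOf a).IsCycle := (Perm.isCycle_cycleOf σ ha)
  have hmul : swap a b * σ = (swap a b * σ.cycleOf a) * (σ * (σ.cycleOf a)⁻¹) := by
    rw [mul_assoc, ← hd.commute.eq]; group
  have hκb : σ.cycleOf a b = b := by
    by_contra hne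
    have := (Perm.mem_support_cycleOf_iff.1 (Perm.mem_support.2 hne)).1
    exact ha (this.apply_eq_self_iff.2 hb)
  obtain ⟨l, hl⟩ : ∃ l, Perm.toList σ a = a :: l := by
    have hlen := Perm.length_toList_pos_of_mem_support σ a has
    have h0 := Perm.toList_getElem_zero σ a has
    cases hL : Perm.toList σ a with
    | nil => rw [hL] at hlen; simp at hlen
    | cons c l =>
      refine ⟨l, ?_⟩
      simp only [hL, List.getElem_cons_zero] at h0
      rw [h0]
  have hnd := Perm.nodup_toList σ a
  have hbn : b ∉ Perm.toList σ a := by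
    intro hmem
    exact ha ((Perm.mem_toList_iff.1 hmem).1.apply_eq_self_iff.2 hb)
  have hform : swap a b * σ.cycleOf a = List.formPerm (b :: Perm.toList σ a) := by
    rw [← Perm.formPerm_toList σ a, hl, List.formPerm_cons_cons, swap_comm]
  have hnd2 : (b :: Perm.toList σ a).Nodup := List.nodup_cons.2 ⟨hbn, hnd⟩
  have hlen2 : 2 ≤ (b :: Perm.toList σ a).length := by
    have := Perm.length_toList_pos_of_mem_support σ a has
    simp only [List.length_cons]; omega
  have hcyc2 : (swap a b * σ.cycleOf a).IsCycle := by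
    rw [hform]; exact List.isCycle_formPerm hnd2 hlen2
  have hcard2 : (swap a b * σ.cycleOf a).support.card = (σ.cycleOf a).support.card + 1 := by
    rw [hform, List.support_formPerm_of_nodup _ hnd2, List.toFinset_card_of_nodup hnd2,
      List.length_cons, Perm.length_toList]
    intro x hx
    rw [hx] at hlen2
    simp at hlen2
  have hd2 : Perm.Disjoint (swap a b * σ.cycleOf a) (σ * (σ.cycleOf a)⁻¹) := by
    intro x
    rcases hd x with h | h
    · right; exact h
    · by_cases hxa : x = a
      · exfalso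
        rw [hxa, Perm.cycleOf_apply_self] at h
        exact ha h
      · by_cases hxb : x = b
        · right
          rw [hxb, Perm.mul_apply]
          have : (σ.cycleOf a)⁻¹ b = b := by
            rw [Perm.inv_eq_iff_eq, hκb]
          rw [this, hb]
        · left
          rw [Perm.mul_apply, h, swap_apply_of_ne_of_ne hxa hxb]
  rw [hconj, hmul, hd2.cycleType_mul, hcyc2.cycleType, hcard2, hct, hcyc.cycleType,
    Multiset.sub_singleton, Multiset.singleton_add]

/-- the length of the cycle of `j` -/
private def clen {n : ℕ} (τ : Perm (Fin n)) (j : Fin n) : ℕ :=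
  if τ j = j then 1 else (τ.cycleOf j).support.card

private theorem iL_cast {n : ℕ} (τ : Perm (Fin n)) (j : Fin n) :
    iL n 1 τ j.castSucc = (τ j).castSucc := by
  unfold iL
  rw [Perm.viaEmbeddingHom_apply]
  exact Perm.viaEmbedding_apply τ (Fin.castAddEmb 1) j

private theorem iL_last {n : ℕ} (τ : Perm (Fin n)) :
    iL n 1 τ (Fin.last n) = Fin.last n := by
  unfold iL
  rw [Perm.viaEmbeddingHom_apply]
  apply Perm.viaEmbedding_apply_of_notMem
  rintro ⟨j, hj⟩
  have := congrArg Fin.val hj
  simp at this
  omega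

private theorem iL_zpow {n : ℕ} (τ : Perm (Fin n)) (j : Fin n) (k : ℤ) :
    ((iL n 1 τ) ^ k) j.castSucc = ((τ ^ k) j).castSucc := by
  rw [← map_zpow, iL_cast]

private theorem iL_cyc {n : ℕ} (τ : Perm (Fin n)) (j : Fin n) (h : τ j ≠ j) :
    ((iL n 1 τ).cycleOf j.castSucc).support.card = (τ.cycleOf j).support.card := by
  have : ((iL n 1 τ).cycleOf j.castSucc).support =
      (τ.cycleOf j).support.map Fin.castSuccEmb := by
    ext x
    rw [Perm.mem_support_cycleOf_iff, Finset.mem_map]
    constructor
    · rintro ⟨⟨k, hk⟩, _⟩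
      rw [iL_zpow] at hk
      refine ⟨(τ ^ k) j, ?_, hk⟩
      rw [Perm.mem_support_cycleOf_iff]
      exact ⟨⟨k, rfl⟩, Perm.mem_support.2 h⟩
    · rintro ⟨y, hy, rfl⟩
      obtain ⟨⟨k, hk⟩, _⟩ := Perm.mem_support_cycleOf_iff.1 hy
      refine ⟨⟨k, ?_⟩, ?_⟩
      · rw [iL_zpow, hk]; rfl
      · rw [Perm.mem_support, iL_cast]
        intro h'
        exact h (Fin.castSucc_injective n h')
  rw [this, Finset.card_map]

private theorem ft_step {n : ℕ} (τ : Perm (Fin n)) (j : Fin n) :
    ft (iL n 1 τ * swap j.castSucc (Fin.last n)) =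
      (clen τ j + 1) ::ₘ (ft τ).erase (clen τ j) := by
  have hab : j.castSucc ≠ Fin.last n := (Fin.castSucc_lt_last j).ne
  have hle : τ.support.card ≤ n := by
    simpa using Finset.card_le_univ τ.support
  have hcts : (iL n 1 τ).cycleType.sum = τ.support.card := by
    rw [iL_cycleType, Perm.sum_cycleType]
  by_cases h : τ j = j
  · have hcl : clen τ j = 1 := by unfold clen; rw [if_pos h]
    have hct := ct_fix (σ := iL n 1 τ) hab (by rw [iL_cast, h]) (iL_last τ)
    have hs : (iL n 1 τ * swap j.castSucc (Fin.last n)).support.card = τ.support.card + 2 := by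
      rw [← Perm.sum_cycleType, hct, Multiset.sum_cons, hcts, add_comm]
    have hlt : τ.support.card < n := by
      have : τ.support ⊂ Finset.univ := by
        rw [Finset.ssubset_univ_iff]
        intro he
        have : j ∈ τ.support := by rw [he]; exact Finset.mem_univ j
        exact Perm.mem_support.1 this h
      simpa using Finset.card_lt_card this
    have h1 : (1 : ℕ) ∉ τ.cycleType := fun h' =>
      absurd (Perm.one_lt_of_mem_cycleType h') (lt_irrefl 1)
    unfold ft
    rw [hcl, hs, hct, iL_cycleType, Multiset.erase_add_right_neg _ h1,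
      show n - τ.support.card = (n - τ.support.card - 1) + 1 by omega, Multiset.replicate_succ,
      Multiset.erase_cons_head, Multiset.cons_add]
    congr 3
    omega
  · have hcl : clen τ j = (τ.cycleOf j).support.card := by unfold clen; rw [if_neg h]
    have hne : iL n 1 τ j.castSucc ≠ j.castSucc := by
      rw [iL_cast]; exact fun h' => h (Fin.castSucc_injective n h')
    have hct := ct_cyc (σ := iL n 1 τ) hne (iL_last τ)
    rw [iL_cyc τ j h, ← hcl, iL_cycleType] at hct
    have hmem : clen τ j ∈ τ.cycleType := by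
      rw [hcl, Perm.cycleType_def]
      have h6 : τ.cycleOf j ∈ τ.cycleFactorsFinset :=
        Perm.cycleOf_mem_cycleFactorsFinset_iff.2 (Perm.mem_support.2 h)
      rw [← Finset.mem_val] at h6
      exact Multiset.mem_map.2 ⟨τ.cycleOf j, h6, rfl⟩
    have hs : (iL n 1 τ * swap j.castSucc (Fin.last n)).support.card = τ.support.card + 1 := by
      have h5 := congrArg Multiset.sum (Multiset.cons_erase hmem)
      rw [Multiset.sum_cons, Perm.sum_cycleType] at h5
      rw [← Perm.sum_cycleType, hct, Multiset.sum_cons]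
      omega
    unfold ft
    rw [hct, hs, Multiset.erase_add_left_pos _ hmem, Multiset.cons_add]
    congr 3
    omega

private theorem sum_clen {n : ℕ} (τ : Perm (Fin n)) (G : ℕ → ℝ) :
    ∑ j : Fin n, G (clen τ j) = ((ft τ).map (fun c : ℕ => (c : ℝ) * G c)).sum := by
  have h1 : ∑ j ∈ τ.support, G (clen τ j) =
      (τ.cycleType.map (fun c : ℕ => (c : ℝ) * G c)).sum := by
    rw [Perm.cycleType_def, Multiset.map_map]
    change _ = ∑ κ ∈ τ.cycleFactorsFinset, ((κ.support.card : ℝ) * G κ.support.card)
    rw [← Finset.sum_fiberwise_of_maps_to (s := τ.support) (t := τ.cycleFactorsFinset)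
      (g := fun j => τ.cycleOf j)
      (fun j hj => Perm.cycleOf_mem_cycleFactorsFinset_iff.2 hj)]
    refine Finset.sum_congr rfl fun κ hκ => ?_
    have hfib : τ.support.filter (fun j => τ.cycleOf j = κ) = κ.support := by
      ext j
      rw [Finset.mem_filter]
      constructor
      · rintro ⟨hj, rfl⟩
        exact Perm.mem_support_cycleOf_iff.2 ⟨Perm.SameCycle.refl _ _, hj⟩
      · intro hj
        have h3 := Perm.cycle_is_cycleOf hj hκ
        exact ⟨Perm.mem_cycleFactorsFinset_support_le hκ hj, h3.symm⟩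
    rw [hfib]
    have : ∀ j ∈ κ.support, G (clen τ j) = G κ.support.card := by
      intro j hj
      have h3 := Perm.cycle_is_cycleOf hj hκ
      have h4 : τ j ≠ j := Perm.mem_support.1 (Perm.mem_cycleFactorsFinset_support_le hκ hj)
      unfold clen
      rw [if_neg h4, ← h3]
    rw [Finset.sum_congr rfl this, Finset.sum_const, nsmul_eq_mul]
  have h2 : ∑ j ∈ τ.supportᶜ, G (clen τ j) = ((n - τ.support.card : ℕ) : ℝ) * G 1 := by
    have : ∀ j ∈ τ.supportᶜ, G (clen τ j) = G 1 := by
      intro j hj
      have h4 : τ j = j := by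
        rw [Finset.mem_compl, Perm.mem_support, not_not] at hj
        exact hj
      unfold clen
      rw [if_pos h4]
    rw [Finset.sum_congr rfl this, Finset.sum_const, nsmul_eq_mul, Finset.card_compl,
      Fintype.card_fin]
  rw [← Finset.sum_add_sum_compl τ.support, h1, h2]
  unfold ft
  rw [Multiset.map_add, Multiset.sum_add, Multiset.map_replicate, Multiset.sum_replicate,
    nsmul_eq_mul, Nat.cast_one, one_mul]

/-- multiplying by the transposition of `j` and the new letter makes the cycle of `j` one longer;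
there are `c` letters in each cycle of length `c` -/
theorem ft_mul_swap_sum {n : ℕ} (τ : Perm (Fin n)) (F : Multiset ℕ → ℝ) :
    ∑ j : Fin n, F (ft (iL n 1 τ * swap j.castSucc (Fin.last n))) =
      ((ft τ).map (fun c : ℕ => (c : ℝ) * F ((c + 1) ::ₘ (ft τ).erase c))).sum := by
  rw [← sum_clen τ (fun c => F ((c + 1) ::ₘ (ft τ).erase c))]
  exact Finset.sum_congr rfl fun j _ => by rw [ft_step]

end Pool.MP322F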