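import Pool.Agent.Lib.MP_322c5f_alF.FA04
import Pool.Agent.Lib.MP_322c5f_alF.FA05
import Pool.Agent.Lib.MP_322c5f_alF.FA06

/-! Frobenius' character formula. -/

set_option autoImplicit false

open Finset Equiv

namespace Pool.MP322F

open Pool.MP322
private theorem colLen_mono {rho lam : YoungDiagram} (h : rho ≤ lam) :
    rho.colLen 0 ≤ lam.colLen 0 := by
  by_contra hcon
  push Not at hcon
  have h1 : (lam.colLen 0, 0) ∈ rho := YoungDiagram.mem_iff_lt_colLen.2 hcon
  have h2 : (lam.colLen 0, 0) ∈ lam := h h1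
  exact lt_irrefl _ (YoungDiagram.mem_iff_lt_colLen.1 h2)

/-- the character as a function of the full cycle type -/
private noncomputable def FF {n : ℕ} (lam : Y n) (ρ : Multiset ℕ) : ℝ :=
  haveI := Classical.dec (∃ σ : Perm (Fin n), ft σ = ρ)
  if h : ∃ σ : Perm (Fin n), ft σ = ρ then chi lam h.choose else 0

private theorem FF_ft {n : ℕ} (lam : Y n) (σ : Perm (Fin n)) : FF lam (ft σ) = chi lam σ := by
  unfold FF
  have h : ∃ σ' : Perm (Fin n), ft σ' = ft σ := ⟨σ, rfl⟩
  rw [dif_pos h]
  exact chi_type lam _ _ (ft_inj h.choose_spec)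

private theorem base {N : ℕ} (mu : Y 0) (σ : Perm (Fin 0)) :
    chi mu σ = (th (ft σ) (be N mu.1) : ℝ) := by
  have hσ : σ = 1 := Subsingleton.elim _ _
  have hft : ft σ = 0 := by
    rw [Multiset.eq_zero_iff_forall_notMem]
    intro c hc
    have h1 := ft_pos σ c hc
    have h2 := Multiset.le_sum_of_mem hc
    rw [ft_sum] at h2
    omega
  have hmu : ∀ c, c ∉ mu.1 := by
    intro c hc
    have h1 : mu.1.cells.card = 0 := mu.2
    rw [Finset.card_eq_zero] at h1
    have h2 : c ∈ mu.1.cells := (YoungDiagram.mem_cells _).2 hc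
    rw [h1] at h2
    exact absurd h2 (Finset.notMem_empty _)
  have hbe : be N mu.1 = fun i : Fin N => (i : ℕ) := by
    funext i
    unfold be
    have : mu.1.rowLen (N - 1 - (i : ℕ)) = 0 := by
      by_contra hne
      exact hmu _ (YoungDiagram.mem_iff_lt_rowLen.2 (Nat.pos_of_ne_zero hne))
    rw [this, zero_add]
  rw [hft, hbe, th_zero, hσ, chi_one]
  have hne : Nonempty (Tab ⊥ mu.1 0) := tab_nonempty mu
  have hss : Subsingleton (Tab ⊥ mu.1 0) := by
    constructor
    intro a b
    apply Subtype.ext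
    funext i
    exact i.elim0
  unfold fd
  have hcard : Fintype.card (Tab ⊥ mu.1 0) = 1 := by
    apply le_antisymm
    · exact Fintype.card_le_one_iff_subsingleton.2 hss
    · exact Fintype.card_pos
  rw [hcard]
  norm_num

private theorem step {N n : ℕ}
    (IH : ∀ (mu : Y n), mu.1.colLen 0 ≤ N → ∀ σ : Perm (Fin n),
      chi mu σ = (th (ft σ) (be N mu.1) : ℝ))
    (lam : Y (n + 1)) (h : lam.1.colLen 0 ≤ N) :
    ∀ r : ℕ, ∀ σ : Perm (Fin (n + 1)), (r + 1) ∈ ft σ →
      chi lam σ = (th (ft σ) (be N lam.1) : ℝ) := by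
  classical
  intro r
  induction r with
  | zero =>
    intro σ hσ
    obtain ⟨s, hs⟩ := Multiset.exists_cons_of_mem hσ
    rw [zero_add] at hs
    have hsum : s.sum = n := by
      have h1 := ft_sum σ
      rw [hs, Multiset.sum_cons] at h1
      omega
    have hpos : ∀ c ∈ s, 1 ≤ c := fun c hc => ft_pos σ c (by rw [hs]; exact Multiset.mem_cons_of_mem hc)
    obtain ⟨τ, hτ⟩ := exists_ft s hsum hpos
    have h1 : ft (iL n 1 τ) = ft σ := by rw [ft_iL, hτ, hs]
    rw [← FF_ft, ← h1, FF_ft]
    rw [chi_branch, ft_iL, th_branch _ lam h, Int.cast_sum]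
    refine Finset.sum_congr ?_ ?_
    · ext x; simp
    · intro rho hrho
      rw [Finset.mem_filter] at hrho
      exact IH rho (le_trans (colLen_mono hrho.2) h) τ
  | succ r ih =>
    intro σ hσ
    obtain ⟨s, hs⟩ := Multiset.exists_cons_of_mem hσ
    have hsum : s.sum + (r + 2) = n + 1 := by
      have h1 := ft_sum σ
      rw [hs, Multiset.sum_cons] at h1
      omega
    have hpos : ∀ c ∈ s, 1 ≤ c := fun c hc => ft_pos σ c (by rw [hs]; exact Multiset.mem_cons_of_mem hc)
    have hpos' : ∀ c ∈ ((r + 1) ::ₘ s), 1 ≤ c := by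
      intro c hc
      rcases Multiset.mem_cons.1 hc with rfl | hc
      · omega
      · exact hpos c hc
    obtain ⟨τ, hτ⟩ := exists_ft (n := n) ((r + 1) ::ₘ s)
      (by rw [Multiset.sum_cons]; omega) hpos'
    have e1 := chi_jm lam τ
    have e2 := ft_mul_swap_sum τ (FF lam)
    simp only [FF_ft] at e2
    rw [e2] at e1
    have e3 := congrArg (Int.cast : ℤ → ℝ) (th_jm ((r + 1) ::ₘ s) lam h)
    have e4 : (∑ rho ∈ (Finset.univ : Finset (Y n)).filter (fun rho => rho.1 ≤ lam.1),
        ((cs lam.1 - cs rho.1 : ℤ) : ℝ) * chi rho τ) =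
        (((∑ rho ∈ (Finset.univ : Finset (Y n)).filter (fun rho => rho.1 ≤ lam.1),
        (cs lam.1 - cs rho.1) * th ((r + 1) ::ₘ s) (be N rho.1) : ℤ)) : ℝ) := by
      rw [Int.cast_sum]
      refine Finset.sum_congr rfl ?_
      intro rho hrho
      rw [Finset.mem_filter] at hrho
      rw [IH rho (le_trans (colLen_mono hrho.2) h) τ, hτ, Int.cast_mul]
    have e5 : (((ft τ).map (fun c : ℕ => (c : ℝ) * FF lam ((c + 1) ::ₘ (ft τ).erase c))).sum) =
        ((((r + 1) ::ₘ s).map (fun c : ℕ => (c : ℤ) * th ((c + 1) ::ₘ ((r + 1) ::ₘ s).erase c)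
          (be N lam.1))).sum : ℤ) := by
      rw [e1]
      refine Eq.trans ?_ (Eq.trans e4 ?_)
      · refine Finset.sum_congr ?_ fun _ _ => rfl
        ext x; simp
      · rw [e3]
    rw [hτ, Multiset.map_cons, Multiset.sum_cons, Multiset.map_cons, Multiset.sum_cons,
      Multiset.erase_cons_head, Int.cast_add] at e5
    have e6 : (s.map (fun c : ℕ => (c : ℝ) * FF lam ((c + 1) ::ₘ ((r + 1) ::ₘ s).erase c))).sum =
        (((s.map (fun c : ℕ => (c : ℤ) * th ((c + 1) ::ₘ ((r + 1) ::ₘ s).erase c)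
          (be N lam.1))).sum : ℤ) : ℝ) := by
      have hcast : (((s.map (fun c : ℕ => (c : ℤ) * th ((c + 1) ::ₘ ((r + 1) ::ₘ s).erase c)
          (be N lam.1))).sum : ℤ) : ℝ) = ((s.map (fun c : ℕ => (c : ℤ) *
            th ((c + 1) ::ₘ ((r + 1) ::ₘ s).erase c) (be N lam.1))).map
              (Int.castAddHom ℝ)).sum := by
        rw [← map_multiset_sum, Int.coe_castAddHom]
      rw [hcast, Multiset.map_map]
      congr 1
      refine Multiset.map_congr rfl ?_
      intro c hc
      have hr : (r + 1) ∈ ((r + 1) ::ₘ s).erase c := by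
        by_cases hcr : r + 1 = c
        · subst hcr
          rw [Multiset.erase_cons_head]
          exact hc
        · exact (Multiset.mem_erase_of_ne hcr).2 (Multiset.mem_cons_self _ _)
      have hmem : c ∈ ((r + 1) ::ₘ s) := Multiset.mem_cons_of_mem hc
      have hsum2 : ((c + 1) ::ₘ ((r + 1) ::ₘ s).erase c).sum = n + 1 := by
        have h1 := Multiset.sum_erase hmem
        rw [Multiset.sum_cons] at h1 ⊢
        omega
      obtain ⟨σ', hσ'⟩ := exists_ft (n := n + 1) ((c + 1) ::ₘ ((r + 1) ::ₘ s).erase c) hsum2 (by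
        intro d hd
        rcases Multiset.mem_cons.1 hd with rfl | hd
        · omega
        · exact hpos' d (Multiset.mem_of_mem_erase hd))
      have h2 := ih σ' (by rw [hσ']; exact Multiset.mem_cons_of_mem hr)
      rw [← FF_ft, hσ'] at h2
      rw [h2]
      simp
    rw [e6] at e5
    have e7 := add_right_cancel e5
    push_cast at e7
    have hr0 : ((r : ℝ) + 1) ≠ 0 := by positivity
    have e8 := mul_left_cancel₀ hr0 e7
    rw [← FF_ft, hs]
    exact e8

/-- Induction on `n`, inside on the smallest part of `ft σ`: if `1 ∈ ft σ` use the branching rules;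
otherwise let `r + 1` be the smallest part, `ρ' = r ::ₘ (ft σ).erase (r+1)` (size `n-1`), and use
the Jucys-Murphy relations for `ρ'`: all terms except the one with coefficient `r` have a part
`r` (smaller smallest part), and the left-hand sides agree by induction on `n`. -/
theorem frobenius {N n : ℕ} (mu : Y n) (h : mu.1.colLen 0 ≤ N) (σ : Perm (Fin n)) :
    chi mu σ = (th (ft σ) (be N mu.1) : ℝ) := by
  induction n with
  | zero => exact base mu σ
  | succ n ih =>
    have hne : ∃ c, c ∈ ft σ := by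
      by_contra hcon
      push Not at hcon
      have h0 := Multiset.eq_zero_of_forall_notMem hcon
      have h1 := ft_sum σ
      rw [h0, Multiset.sum_zero] at h1
      omega
    obtain ⟨c, hc⟩ := hne
    have hc1 := ft_pos σ c hc
    obtain ⟨r, rfl⟩ : ∃ r, c = r + 1 := ⟨c - 1, by omega⟩
    exact step (fun mu h σ => ih mu h σ) mu h r σ hc

end Pool.MP322F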