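import Pool.Agent.Lib.MP_322c5f_alF.FA07

/-! Dimension formula. -/

set_option autoImplicit false

open Finset Nat

namespace Pool.MP322F

open Pool.MP322

private theorem vd_eq9 (N : ℕ) :
    vd N = (Matrix.vandermonde
      (fun i : Fin N => (MvPolynomial.X i : MvPolynomial (Fin N) ℤ))).det := by
  rw [Matrix.det_vandermonde]
  rfl

/-- the exponent of the term of the Vandermonde determinant belonging to `σ` -/
private noncomputable def mo {N : ℕ} (σ : Equiv.Perm (Fin N)) : Fin N →₀ ℕ :=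
  Finsupp.equivFunOnFinite.symm (fun j : Fin N => ((σ.symm j : Fin N) : ℕ))

private theorem mo_apply {N : ℕ} (σ : Equiv.Perm (Fin N)) (j : Fin N) :
    mo σ j = ((σ.symm j : Fin N) : ℕ) := rfl

private theorem vd_expand9 (N : ℕ) :
    vd N = ∑ σ : Equiv.Perm (Fin N), (Equiv.Perm.sign σ : ℤ) •
      MvPolynomial.monomial (mo σ) (1 : ℤ) := by
  rw [vd_eq9, Matrix.det_apply]
  refine Finset.sum_congr rfl fun σ _ => ?_
  have h1 : (∏ i : Fin N, Matrix.vandermonde
      (fun i : Fin N => (MvPolynomial.X i : MvPolynomial (Fin N) ℤ))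
      (σ i) i) = MvPolynomial.monomial (mo σ) (1 : ℤ) := by
    have h2 : (MvPolynomial.monomial (mo σ) (1 : ℤ) : MvPolynomial (Fin N) ℤ)
        = ∏ j : Fin N, MvPolynomial.X j ^ ((σ.symm j : Fin N) : ℕ) := by
      rw [MvPolynomial.monomial_eq, map_one, one_mul, Finsupp.prod_fintype _ _ (by simp)]
      rfl
    rw [h2, ← Equiv.prod_comp σ (fun j : Fin N =>
      (MvPolynomial.X j : MvPolynomial (Fin N) ℤ) ^ ((σ.symm j : Fin N) : ℕ))]
    refine Finset.prod_congr rfl fun i _ => ?_
    rw [Matrix.vandermonde_apply, Equiv.symm_apply_apply]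
  rw [h1]
  rfl

/-- multinomial coefficients -/
private theorem coeff_pw_pow {N : ℕ} (n : ℕ) : ∀ β : Fin N →₀ ℕ, ∑ i, β i = n →
    MvPolynomial.coeff β (pw N 1 ^ n) * ∏ i, ((β i)! : ℤ) = (n ! : ℤ) := by
  induction n with
  | zero =>
    intro β hβ
    have h0 : β = 0 := by
      ext i
      have := (Finset.sum_eq_zero_iff.1 hβ) i (Finset.mem_univ i)
      simpa using this
    subst h0
    simp
  | succ n ih =>
    intro β hβ
    have e1 : pw N 1 ^ (n + 1) = ∑ i : Fin N, MvPolynomial.X i * pw N 1 ^ n := by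
      rw [_root_.pow_succ', ← Finset.sum_mul]
      congr 1
      unfold pw
      simp
    rw [e1, MvPolynomial.coeff_sum, Finset.sum_mul]
    have key : ∀ i : Fin N, MvPolynomial.coeff β (MvPolynomial.X i * pw N 1 ^ n) *
        ∏ j, ((β j)! : ℤ) = (β i : ℤ) * (n ! : ℤ) := by
      intro i
      rw [MvPolynomial.coeff_X_mul']
      by_cases hi : i ∈ β.support
      · rw [if_pos hi]
        have hi' : β i ≠ 0 := Finsupp.mem_support_iff.1 hi
        have hs : ∑ j, (β - Finsupp.single i 1 : Fin N →₀ ℕ) j = n := by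
          have h3 : β - Finsupp.single i 1 + Finsupp.single i 1 = β :=
            Finsupp.sub_add_single_one_cancel hi'
          have h4 : ∑ j, (β - Finsupp.single i 1 + Finsupp.single i 1 : Fin N →₀ ℕ) j = n + 1 := by
            rw [h3]; exact hβ
          simp only [Finsupp.add_apply, Finset.sum_add_distrib] at h4
          have h5 : ∑ j, (Finsupp.single i 1 : Fin N →₀ ℕ) j = 1 := by
            simp [Finsupp.single_apply]
          omega
        have h6 := ih _ hs
        have h7 : ∏ j, ((β j)! : ℤ) = (β i : ℤ) *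
            ∏ j, ((((β - Finsupp.single i 1 : Fin N →₀ ℕ) j)! : ℕ) : ℤ) := by
          rw [← Finset.mul_prod_erase Finset.univ _ (Finset.mem_univ i),
            ← Finset.mul_prod_erase Finset.univ (fun j =>
              ((((β - Finsupp.single i 1 : Fin N →₀ ℕ) j)! : ℕ) : ℤ)) (Finset.mem_univ i),
            ← mul_assoc]
          congr 1
          · have h8 : (β - Finsupp.single i 1 : Fin N →₀ ℕ) i = β i - 1 := by
              rw [Finsupp.tsub_apply, Finsupp.single_eq_same]
            rw [h8]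
            rw [← Nat.cast_mul, Nat.mul_factorial_pred hi']
          · refine Finset.prod_congr rfl fun j hj => ?_
            have hji : j ≠ i := Finset.ne_of_mem_erase hj
            rw [Finsupp.tsub_apply, Finsupp.single_eq_of_ne hji, Nat.sub_zero]
        rw [h7]
        calc _ = (β i : ℤ) * (MvPolynomial.coeff (β - Finsupp.single i 1) (pw N 1 ^ n) *
            ∏ j, ((((β - Finsupp.single i 1 : Fin N →₀ ℕ) j)! : ℕ) : ℤ)) := by ring
          _ = _ := by rw [h6]
      · rw [if_neg hi]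
        have hi' : β i = 0 := Finsupp.notMem_support_iff.1 hi
        rw [hi']
        simp
    rw [Finset.sum_congr rfl fun i _ => key i, ← Finset.sum_mul, ← Nat.cast_sum, hβ,
      Nat.factorial_succ]
    push_cast
    ring

private theorem det_desc {N : ℕ} (α : Fin N → ℕ) :
    (Matrix.of (fun i j : Fin N => (((α i).descFactorial (j : ℕ) : ℕ) : ℤ))).det =
      ∏ i : Fin N, ∏ j ∈ Finset.Ioi i, ((α j : ℤ) - (α i : ℤ)) := by
  rw [← Matrix.det_vandermonde, Matrix.det_eval_matrixOfPolynomials_eq_det_vandermonde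
    (fun i => (α i : ℤ)) (fun j => descPochhammer ℤ (j : ℕ))
    (fun j => descPochhammer_natDegree ℤ (j : ℕ)) (fun j => monic_descPochhammer ℤ (j : ℕ))]
  congr 1
  ext i j
  rw [Matrix.of_apply, Matrix.of_apply, descPochhammer_eval_eq_descFactorial]

private theorem th_ones_int {N : ℕ} (n : ℕ) (α : Fin N → ℕ)
    (h : ∑ i, α i = N.choose 2 + n) :
    (th (Multiset.replicate n 1) α) * ∏ i, ((α i)! : ℤ) =
      (n ! : ℤ) * ∏ i : Fin N, ∏ j ∈ Finset.Ioi i, ((α j : ℤ) - (α i : ℤ)) := by
  have hmo : ∀ σ : Equiv.Perm (Fin N), ∑ i, mo σ i = N.choose 2 := by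
    intro σ
    simp only [mo_apply]
    rw [Equiv.sum_comp σ.symm (fun j : Fin N => (j : ℕ)), Fin.sum_univ_eq_sum_range (fun i => i) N,
      Finset.sum_range_id, Nat.choose_two_right]
  have e0 : fr N (Multiset.replicate n 1) = ∑ σ : Equiv.Perm (Fin N),
      (Equiv.Perm.sign σ : ℤ) • (MvPolynomial.monomial (mo σ) (1 : ℤ) * pw N 1 ^ n) := by
    unfold fr
    rw [Multiset.map_replicate, Multiset.prod_replicate, vd_expand9, Finset.sum_mul]
    refine Finset.sum_congr rfl fun σ _ => ?_
    rw [smul_mul_assoc]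
  unfold th
  rw [e0, MvPolynomial.coeff_sum, Finset.sum_mul, ← det_desc, Matrix.det_apply, Finset.mul_sum]
  refine Finset.sum_congr rfl fun σ _ => ?_
  rw [MvPolynomial.coeff_smul, smul_mul_assoc, mul_smul_comm]
  congr 1
  have e2 : ∏ i, Matrix.of (fun i j : Fin N => (((α i).descFactorial (j : ℕ) : ℕ) : ℤ)) (σ i) i =
      ∏ i, (((α i).descFactorial (mo σ i) : ℕ) : ℤ) := by
    rw [← Equiv.prod_comp σ (fun i => (((α i).descFactorial (mo σ i) : ℕ) : ℤ))]
    refine Finset.prod_congr rfl fun i _ => ?_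
    rw [Matrix.of_apply, mo_apply, Equiv.symm_apply_apply]
  rw [e2, MvPolynomial.coeff_monomial_mul']
  by_cases hle : mo σ ≤ Finsupp.equivFunOnFinite.symm α
  · rw [if_pos hle, one_mul]
    have hle' : ∀ i, mo σ i ≤ α i := fun i => hle i
    have hs : ∑ i, (Finsupp.equivFunOnFinite.symm α - mo σ : Fin N →₀ ℕ) i = n := by
      have h1 : ∑ i, ((Finsupp.equivFunOnFinite.symm α - mo σ : Fin N →₀ ℕ) i + mo σ i) =
          N.choose 2 + n := by
        rw [← h]
        refine Finset.sum_congr rfl fun i _ => ?_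
        rw [Finsupp.tsub_apply]
        exact Nat.sub_add_cancel (hle' i)
      rw [Finset.sum_add_distrib, hmo σ] at h1
      omega
    have h2 := coeff_pw_pow n _ hs
    have h3 : ∏ i, ((α i)! : ℤ) = (∏ i, ((((Finsupp.equivFunOnFinite.symm α - mo σ :
        Fin N →₀ ℕ) i)! : ℕ) : ℤ)) * ∏ i, (((α i).descFactorial (mo σ i) : ℕ) : ℤ) := by
      rw [← Finset.prod_mul_distrib]
      refine Finset.prod_congr rfl fun i _ => ?_
      rw [Finsupp.tsub_apply, ← Nat.cast_mul]
      congr 1
      exact (Nat.factorial_mul_descFactorial (hle' i)).symm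
    rw [h3, ← mul_assoc, h2]
  · rw [if_neg hle, zero_mul]
    have : ∃ i, α i < mo σ i := by
      by_contra hcon
      push Not at hcon
      exact hle fun i => hcon i
    obtain ⟨i, hi⟩ := this
    rw [Finset.prod_eq_zero (Finset.mem_univ i), mul_zero]
    rw [Nat.descFactorial_eq_zero_iff_lt.2 hi, Nat.cast_zero]

/-- coefficient of `x^α` in the Vandermonde product times `(∑ x_i)^n`: expand the Vandermonde
determinant (`Matrix.det_vandermonde`), the coefficient is `∑_w sign w * n! / ∏ (α_i - w i)!`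
`= n! / ∏ α_i ! * det (descFactorial (α_i) j)` and `det (descFactorial) = ∏ (α_j - α_i)`
(`Matrix.det_eval_matrixOfPolynomials_eq_det_vandermonde` or similar). -/
theorem th_ones {N : ℕ} (n : ℕ) (α : Fin N → ℕ) (h : ∑ i, α i = N.choose 2 + n) :
    (th (Multiset.replicate n 1) α : ℝ) * ∏ i, ((α i)! : ℝ) =
      (n ! : ℝ) * ∏ i : Fin N, ∏ j ∈ Finset.Ioi i, ((α j : ℝ) - (α i : ℝ)) := by
  have h1 := congrArg (Int.cast : ℤ → ℝ) (th_ones_int n α h)
  push_cast at h1
  exact h1

theorem fd_formula {N n : ℕ} (mu : Y n) (h : mu.1.colLen 0 ≤ N) :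
    fd mu * ∏ i, ((be N mu.1 i)! : ℝ) =
      (n ! : ℝ) * ∏ i : Fin N, ∏ j ∈ Finset.Ioi i, ((be N mu.1 j : ℝ) - (be N mu.1 i : ℝ)) := by
  have h1 : ft (1 : Equiv.Perm (Fin n)) = Multiset.replicate n 1 := by
    unfold ft
    rw [Equiv.Perm.cycleType_one, Equiv.Perm.support_one, Finset.card_empty, Nat.sub_zero, zero_add]
  rw [← chi_one, frobenius mu h 1, h1]
  refine th_ones n _ ?_
  rw [be_sum mu.1 h, mu.2]

end Pool.MP322F
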