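import Mathlib.Data.Nat.Notation

/-!
# Kernel engine (definitions): memoised Murnaghan-Nakayama recursion on bitmasks

All functions are written with recursors and native `Nat` operations, so that the kernel evaluates
them quickly; memoisation is done by the cache of the kernel (arguments are forced to numerals by
`Nat.rec`).
-/

set_option autoImplicit false

namespace Pool.MP322F
/-- a pair of naturals (plus part, minus part) -/
inductive Pr where
  | mk : ℕ → ℕ → Pr

noncomputable def Pr.pl (x : Pr) : ℕ := Pr.rec (motive := fun _ => ℕ) (fun a _ => a) x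
noncomputable def Pr.mi (x : Pr) : ℕ := Pr.rec (motive := fun _ => ℕ) (fun _ b => b) x

/-- the integer represented by a pair -/
noncomputable def Pr.val (x : Pr) : Int := (x.pl : Int) - (x.mi : Int)

/-- loop over the beads `b` of the mask `M` (highest first): the bead is moved down by `c`, the
value `f` of the new mask is added with sign (`-` iff the bit `b` of `Sg` is set) and shift `h` -/
noncomputable def rib (f : ℕ → Pr) (c h key Sg : ℕ) (fuel : ℕ) : ℕ → ℕ → ℕ → Pr :=
  Nat.rec (motive := fun _ => ℕ → ℕ → ℕ → Pr) (fun _ P Q => Pr.mk P Q)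
    (fun _ ih M P Q =>
      Nat.rec (motive := fun _ => Pr) (Pr.mk P Q) (fun m _ =>
        Nat.rec (motive := fun _ => Pr) (Pr.mk P Q) (fun pm _ =>
          Nat.rec (motive := fun _ => Pr) (Pr.mk P Q) (fun km _ =>
            Nat.rec (motive := fun _ => Pr)
              (ih (Nat.sub (Nat.succ m) (Nat.succ pm))
                (Nat.add P (Nat.shiftLeft (Pr.pl (f (Nat.succ km))) h))
                (Nat.add Q (Nat.shiftLeft (Pr.mi (f (Nat.succ km))) h)))
              (fun _ _ => (ih (Nat.sub (Nat.succ m) (Nat.succ pm))
                (Nat.add P (Nat.shiftLeft (Pr.mi (f (Nat.succ km))) h))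
                (Nat.add Q (Nat.shiftLeft (Pr.pl (f (Nat.succ km))) h))))
              (Nat.land Sg (Nat.succ pm)))
            (Nat.add (Nat.sub key (Nat.succ pm)) (Nat.shiftRight (Nat.succ pm) c)))
          (Nat.shiftLeft 1 (Nat.log2 (Nat.succ m)))) M) fuel

/-- `x xor (x << i)` -/
noncomputable def xs (x i : ℕ) : ℕ := Nat.xor x (Nat.shiftLeft x i)

/-- bit `i` (for `i < 128`) is the parity of the number of bits of `key` below `i` -/
noncomputable def Rw (key : ℕ) : ℕ :=
  Nat.shiftLeft (xs (xs (xs (xs (xs (xs (xs key 1) 2) 4) 8) 16) 32) 64) 1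

/-- the mask of the beads `b ≥ c` such that `b - c` is not a bead -/
noncomputable def mvb (c key : ℕ) : ℕ :=
  Nat.sub key (Nat.land key (Nat.sub (Nat.shiftLeft (Nat.succ key) c) 1))

/-- all ribbons of length `c`, added to the value `g key` -/
noncomputable def grp (f g : ℕ → Pr) (c h key : ℕ) : Pr :=
  Pr.rec (motive := fun _ => Pr)
    (fun P Q => rib f c h key (Nat.xor (Rw key) (Nat.shiftLeft (Rw key) c)) 80 (mvb c key) P Q)
    (g key)

noncomputable def g0 (_ : ℕ) : Pr := Pr.mk 0 0
noncomputable def g1 (_ : ℕ) : Pr := Pr.mk 1 0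

/-- sum of `g key r` over all partitions of `s` with parts at most `cap` (and at most `r` parts),
where `key` contains the beads placed so far and `r` beads are left; the function `g` gets the
complete mask and the number of beads in the vacuum -/
noncomputable def enumN (g : ℕ → ℕ → ℕ) (fl : ℕ) : ℕ → ℕ → ℕ → ℕ → ℕ → ℕ :=
  Nat.rec (motive := fun _ => ℕ → ℕ → ℕ → ℕ → ℕ → ℕ) (fun _ _ _ _ acc => acc)
   (fun _ ih s cap r key acc =>
     Nat.rec (motive := fun _ => ℕ)
       (Nat.add acc (Nat.rec (motive := fun _ => ℕ) 0 (fun k _ => g (Nat.succ k) r)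
         (Nat.add key (Nat.sub (Nat.shiftLeft 1 r) 1))))
       (fun s' _ => Nat.rec (motive := fun _ => ℕ) acc
          (fun cap' _ =>
            Bool.rec (motive := fun _ => ℕ) (ih (Nat.succ s') cap' r key acc)
              (ih (Nat.sub s' cap') (Nat.succ cap') (Nat.sub r 1)
                (Nat.add key (Nat.shiftLeft 1 (Nat.add cap' r)))
                (ih (Nat.succ s') cap' r key acc))
              (Nat.ble cap' s')) cap) s) fl

end Pool.MP322F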