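import Mathlib
import Pool.Agent.Lib.MP_322c5f_alF.FB00

/-! Bitmasks of finite sets. -/

set_option autoImplicit false

open Finset

namespace Pool.MP322F
/-- the bitmask of a finite set -/
def kS (S : Finset ℕ) : ℕ := ∑ b ∈ S, 2 ^ b

theorem testBit_kS (S : Finset ℕ) (i : ℕ) : (kS S).testBit i = decide (i ∈ S) := by
  have h : (∑ b ∈ S, 2 ^ b).bitIndices.toFinset = S := Finset.toFinset_bitIndices_sum_two_pow S
  by_cases hi : i ∈ S
  · rw [decide_eq_true hi]
    rw [← h, List.mem_toFinset, Nat.mem_bitIndices] at hi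
    exact hi
  · rw [decide_eq_false hi]
    rw [← h, List.mem_toFinset, Nat.mem_bitIndices] at hi
    simpa [kS] using hi

theorem kS_inj {S T : Finset ℕ} (h : kS S = kS T) : S = T := by
  ext i
  have h1 := testBit_kS S i
  rw [h, testBit_kS T i] at h1
  have h2 : (i ∈ T) ↔ (i ∈ S) := by simpa using h1
  exact h2.symm

/-- every natural number is a bitmask -/
theorem exists_kS (k : ℕ) : ∃ S : Finset ℕ, kS S = k :=
  ⟨k.bitIndices.toFinset, Finset.sum_toFinset_bitIndices_two_pow k⟩

theorem kS_eq_zero {S : Finset ℕ} : kS S = 0 ↔ S = ∅ := by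
  constructor
  · intro h
    apply kS_inj
    rw [h]
    simp [kS]
  · rintro rfl
    simp [kS]

theorem kS_erase {S : Finset ℕ} {b : ℕ} (h : b ∈ S) : kS (S.erase b) = kS S - 2 ^ b := by
  have h1 : 2 ^ b + ∑ x ∈ S.erase b, 2 ^ x = ∑ x ∈ S, 2 ^ x :=
    Finset.add_sum_erase S (fun b => 2 ^ b) h
  unfold kS
  omega

/-- moving a bead -/
theorem kS_move {S : Finset ℕ} {b c : ℕ} (h : b ∈ S) (hc : 1 ≤ c) (hb : c ≤ b) (hn : b - c ∉ S) :
    kS (insert (b - c) (S.erase b)) = kS S - 2 ^ b + 2 ^ b >>> c := by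
  have hnn : b - c ∉ S.erase b := fun hh => hn (Finset.mem_of_mem_erase hh)
  have h1 : kS (insert (b - c) (S.erase b)) = 2 ^ (b - c) + kS (S.erase b) := by
    unfold kS
    exact Finset.sum_insert hnn
  rw [h1, kS_erase h, Nat.shiftRight_eq_div_pow, Nat.pow_div hb (by norm_num)]
  omega

theorem log2_kS {S : Finset ℕ} (h : S.Nonempty) : Nat.log2 (kS S) = S.max' h := by
  have hne : kS S ≠ 0 := by
    rw [Ne, kS_eq_zero]
    exact h.ne_empty
  rw [Nat.log2_eq_iff hne]
  constructor
  · apply Nat.ge_two_pow_of_testBit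
    rw [testBit_kS]
    exact decide_eq_true (S.max'_mem h)
  · apply Nat.lt_pow_two_of_testBit
    intro i hi
    rw [testBit_kS]
    apply decide_eq_false
    intro hiS
    have := S.le_max' i hiS
    omega

theorem kS_range (N : ℕ) : kS (Finset.range N) = 2 ^ N - 1 := by
  apply Nat.eq_of_testBit_eq
  intro i
  rw [testBit_kS, Nat.testBit_two_pow_sub_one]
  simp

private theorem land_kS (S T : Finset ℕ) : kS S &&& kS T = kS (S ∩ T) := by
  apply Nat.eq_of_testBit_eq
  intro i
  rw [Nat.testBit_and, testBit_kS, testBit_kS, testBit_kS]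
  simp [Finset.mem_inter]

private theorem sub_kS (S T : Finset ℕ) : kS S - kS (S ∩ T) = kS (S \ T) := by
  have h : kS (S \ T) + kS (S ∩ T) = kS S := by
    unfold kS
    rw [← Finset.sum_union]
    · rw [Finset.sdiff_union_inter]
    · exact Finset.disjoint_sdiff_inter S T
  omega

private theorem testBit_shift_pred (key c i : ℕ) :
    ((key + 1) <<< c - 1).testBit i = (decide (i < c) || key.testBit (i - c)) := by
  have h1 : (key + 1) <<< c - 1 = 2 ^ c * key + (2 ^ c - 1) := by
    rw [Nat.shiftLeft_eq]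
    have : 1 ≤ 2 ^ c := Nat.one_le_two_pow
    have h2 : (key + 1) * 2 ^ c = 2 ^ c * key + 2 ^ c := by ring
    omega
  rw [h1]
  have h3 : 2 ^ c - 1 < 2 ^ c := by
    have : 1 ≤ 2 ^ c := Nat.one_le_two_pow
    omega
  rw [Nat.testBit_two_pow_mul_add _ h3, Nat.testBit_two_pow_sub_one]
  by_cases hi : i < c
  · simp [hi]
  · simp [hi]

/-- the mask of the movable beads -/
theorem mvb_kS (c : ℕ) (S : Finset ℕ) :
    mvb c (kS S) = kS (S.filter (fun b => c ≤ b ∧ b - c ∉ S)) := by
  obtain ⟨T, hT⟩ := exists_kS ((kS S + 1) <<< c - 1)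
  have hTm : ∀ i, i ∈ T ↔ (i < c ∨ i - c ∈ S) := by
    intro i
    have h1 := testBit_kS T i
    rw [hT, testBit_shift_pred, testBit_kS] at h1
    have h2 : (i < c ∨ i - c ∈ S) ↔ i ∈ T := by
      by_cases ha : i < c <;> by_cases hb : i - c ∈ S <;> by_cases hd : i ∈ T <;>
        simp_all
    exact h2.symm
  have h1 : mvb c (kS S) = kS S - (kS S &&& ((kS S + 1) <<< c - 1)) := rfl
  rw [h1, ← hT, land_kS, sub_kS]
  congr 1
  ext b
  rw [Finset.mem_sdiff, Finset.mem_filter, hTm]
  constructor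
  · rintro ⟨h2, h3⟩
    push Not at h3
    exact ⟨h2, h3.1, h3.2⟩
  · rintro ⟨h2, h3, h4⟩
    refine ⟨h2, ?_⟩
    rintro (h5 | h5)
    · omega
    · exact h4 h5

private theorem testBit_xs (x d i : ℕ) :
    (xs x d).testBit i = (x.testBit i ^^ (decide (d ≤ i) && x.testBit (i - d))) := by
  have h : xs x d = x ^^^ (x <<< d) := rfl
  rw [h, Nat.testBit_xor, Nat.testBit_shiftLeft]

private theorem odd_xor (a b : ℕ) : decide (Odd (a + b)) = (decide (Odd a) ^^ decide (Odd b)) := by
  by_cases ha : Odd a <;> by_cases hb : Odd b <;> simp [ha, hb, Nat.odd_add] <;>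
    simp_all [Nat.not_even_iff_odd]

private theorem xs_window (S : Finset ℕ) (x w : ℕ)
    (h : ∀ i, x.testBit i = decide (Odd (S.filter (fun b => b ≤ i ∧ i < b + w)).card)) (i : ℕ) :
    (xs x w).testBit i =
      decide (Odd (S.filter (fun b => b ≤ i ∧ i < b + (w + w))).card) := by
  rw [testBit_xs, h i, h (i - w)]
  by_cases hw : w ≤ i
  · have h1 : (S.filter (fun b => b ≤ i ∧ i < b + (w + w))).card =
        (S.filter (fun b => b ≤ i ∧ i < b + w)).card +
          (S.filter (fun b => b ≤ i - w ∧ i - w < b + w)).card := by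
      rw [← Finset.card_union_of_disjoint]
      · congr 1
        ext b
        simp only [Finset.mem_filter, Finset.mem_union]
        constructor
        · rintro ⟨h2, h3, h4⟩
          by_cases h5 : i < b + w
          · exact Or.inl ⟨h2, h3, h5⟩
          · exact Or.inr ⟨h2, by omega, by omega⟩
        · rintro (⟨h2, h3, h4⟩ | ⟨h2, h3, h4⟩)
          · exact ⟨h2, by omega, by omega⟩
          · exact ⟨h2, by omega, by omega⟩
      · rw [Finset.disjoint_left]
        intro b hb hb'
        simp only [Finset.mem_filter] at hb hb'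
        omega
    rw [h1, odd_xor, decide_eq_true hw, Bool.true_and]
  · have h1 : (S.filter (fun b => b ≤ i ∧ i < b + (w + w))) =
        (S.filter (fun b => b ≤ i ∧ i < b + w)) := by
      ext b
      simp only [Finset.mem_filter]
      constructor
      · rintro ⟨h2, h3, h4⟩
        exact ⟨h2, h3, by omega⟩
      · rintro ⟨h2, h3, h4⟩
        exact ⟨h2, h3, by omega⟩
    rw [h1, decide_eq_false hw, Bool.false_and, Bool.xor_false]

/-- the prefix parities: `xs` doubles the length of the windows -/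
theorem testBit_Rw (S : Finset ℕ) {i : ℕ} (hi : i ≤ 128) :
    (Rw (kS S)).testBit i = decide (Odd (S.filter (fun b => b < i)).card) := by
  have h0 : ∀ i, (kS S).testBit i =
      decide (Odd (S.filter (fun b => b ≤ i ∧ i < b + 1)).card) := by
    intro i
    rw [testBit_kS]
    have h1 : S.filter (fun b => b ≤ i ∧ i < b + 1) = S.filter (fun b => b = i) := by
      ext b
      simp only [Finset.mem_filter]
      constructor
      · rintro ⟨h2, h3, h4⟩
        exact ⟨h2, by omega⟩
      · rintro ⟨h2, h3⟩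
        exact ⟨h2, by omega, by omega⟩
    rw [h1]
    by_cases hiS : i ∈ S
    · rw [Finset.filter_eq', if_pos hiS]
      simp [hiS]
    · rw [Finset.filter_eq', if_neg hiS]
      simp [hiS]
  have h1 := xs_window S _ _ h0
  have h2 := xs_window S _ _ h1
  have h3 := xs_window S _ _ h2
  have h4 := xs_window S _ _ h3
  have h5 := xs_window S _ _ h4
  have h6 := xs_window S _ _ h5
  have h7 := xs_window S _ _ h6
  have hR : Rw (kS S) =
      (xs (xs (xs (xs (xs (xs (xs (kS S) 1) (1 + 1)) (1 + 1 + (1 + 1)))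
        (1 + 1 + (1 + 1) + (1 + 1 + (1 + 1))))
        (1 + 1 + (1 + 1) + (1 + 1 + (1 + 1)) + (1 + 1 + (1 + 1) + (1 + 1 + (1 + 1)))))
        (1 + 1 + (1 + 1) + (1 + 1 + (1 + 1)) + (1 + 1 + (1 + 1) + (1 + 1 + (1 + 1))) +
        (1 + 1 + (1 + 1) + (1 + 1 + (1 + 1)) + (1 + 1 + (1 + 1) + (1 + 1 + (1 + 1))))))
        (1 + 1 + (1 + 1) + (1 + 1 + (1 + 1)) + (1 + 1 + (1 + 1) + (1 + 1 + (1 + 1))) +
        (1 + 1 + (1 + 1) + (1 + 1 + (1 + 1)) + (1 + 1 + (1 + 1) + (1 + 1 + (1 + 1)))) +
        (1 + 1 + (1 + 1) + (1 + 1 + (1 + 1)) + (1 + 1 + (1 + 1) + (1 + 1 + (1 + 1))) +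
        (1 + 1 + (1 + 1) + (1 + 1 + (1 + 1)) + (1 + 1 + (1 + 1) + (1 + 1 + (1 + 1))))))) <<< 1 :=
    rfl
  rw [hR, Nat.testBit_shiftLeft]
  by_cases hi1 : 1 ≤ i
  · rw [h7 (i - 1)]
    have h8 : decide (i ≥ 1) = true := decide_eq_true hi1
    rw [h8, Bool.true_and]
    congr 3
    ext b
    simp only [Finset.mem_filter]
    constructor
    · rintro ⟨h9, h10, h11⟩
      exact ⟨h9, by omega⟩
    · rintro ⟨h9, h10⟩
      exact ⟨h9, by omega, by omega⟩
  · have hi0 : i = 0 := by omega
    subst hi0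
    simp

/-- parity of the number of beads strictly between `b - c` and `b` -/
theorem testBit_sign {c b : ℕ} {S : Finset ℕ} (hb : b ∈ S) (hc : 1 ≤ c) (hcb : c ≤ b)
    (hn : b - c ∉ S) (hi : b ≤ 128) :
    (Nat.xor (Rw (kS S)) (Nat.shiftLeft (Rw (kS S)) c)).testBit b =
      decide (Odd (S.filter (fun x => b - c < x ∧ x < b)).card) := by
  have h0 : (Nat.xor (Rw (kS S)) (Nat.shiftLeft (Rw (kS S)) c)).testBit b =
      (Rw (kS S) ^^^ (Rw (kS S) <<< c)).testBit b := rfl
  rw [h0, Nat.testBit_xor, Nat.testBit_shiftLeft, testBit_Rw S hi, testBit_Rw S (by omega)]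
  have h8 : decide (b ≥ c) = true := decide_eq_true hcb
  rw [h8, Bool.true_and]
  have h1 : (S.filter (fun x => x < b)).card =
      (S.filter (fun x => b - c < x ∧ x < b)).card + (S.filter (fun x => x < b - c)).card := by
    rw [← Finset.card_union_of_disjoint]
    · congr 1
      ext x
      simp only [Finset.mem_filter, Finset.mem_union]
      constructor
      · rintro ⟨h2, h3⟩
        by_cases h4 : x < b - c
        · exact Or.inr ⟨h2, h4⟩
        · by_cases h5 : x = b - c
          · subst h5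
            exact absurd h2 hn
          · exact Or.inl ⟨h2, by omega, h3⟩
      · rintro (⟨h2, h3, h4⟩ | ⟨h2, h3⟩)
        · exact ⟨h2, h4⟩
        · exact ⟨h2, by omega⟩
    · rw [Finset.disjoint_left]
      intro x hx hx'
      simp only [Finset.mem_filter] at hx hx'
      omega
  rw [h1, odd_xor, Bool.xor_assoc, Bool.xor_self, Bool.xor_false]

end Pool.MP322F
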