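import Pool.Agent.Lib.MP_322c5f_alF.FB01

/-! Semantics of `rib` and `grp`. -/

set_option autoImplicit false

open Finset

namespace Pool.MP322F
/-- one step of `rib` (unfolding) -/
theorem rib_succ (f : ℕ → Pr) (c h key Sg fuel m P Q : ℕ) :
    rib f c h key Sg (fuel + 1) (m + 1) P Q =
      Nat.rec (motive := fun _ => Pr) (Pr.mk P Q) (fun pm _ =>
          Nat.rec (motive := fun _ => Pr) (Pr.mk P Q) (fun km _ =>
            Nat.rec (motive := fun _ => Pr)
              (rib f c h key Sg fuel (Nat.sub (Nat.succ m) (Nat.succ pm))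
                (Nat.add P (Nat.shiftLeft (Pr.pl (f (Nat.succ km))) h))
                (Nat.add Q (Nat.shiftLeft (Pr.mi (f (Nat.succ km))) h)))
              (fun _ _ => (rib f c h key Sg fuel (Nat.sub (Nat.succ m) (Nat.succ pm))
                (Nat.add P (Nat.shiftLeft (Pr.mi (f (Nat.succ km))) h))
                (Nat.add Q (Nat.shiftLeft (Pr.pl (f (Nat.succ km))) h))))
              (Nat.land Sg (Nat.succ pm)))
            (Nat.add (Nat.sub key (Nat.succ pm)) (Nat.shiftRight (Nat.succ pm) c)))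
          (Nat.shiftLeft 1 (Nat.log2 (Nat.succ m))) := rfl

private theorem rib_step (f : ℕ → Pr) (c h key Sg fuel M P Q X K : ℕ) (hM : M ≠ 0)
    (hX : Nat.shiftLeft 1 (Nat.log2 M) = X) (hX0 : X ≠ 0)
    (hK : Nat.add (Nat.sub key X) (Nat.shiftRight X c) = K) (hK0 : K ≠ 0) :
    rib f c h key Sg (fuel + 1) M P Q =
      if Nat.land Sg X = 0 then
        rib f c h key Sg fuel (M - X) (P + Nat.shiftLeft (Pr.pl (f K)) h)
          (Q + Nat.shiftLeft (Pr.mi (f K)) h)
      else
        rib f c h key Sg fuel (M - X) (P + Nat.shiftLeft (Pr.mi (f K)) h)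
          (Q + Nat.shiftLeft (Pr.pl (f K)) h) := by
  obtain ⟨m, rfl⟩ := Nat.exists_eq_succ_of_ne_zero hM
  rw [Nat.succ_eq_add_one, rib_succ]
  rw [Nat.succ_eq_add_one] at hX
  rw [Nat.succ_eq_add_one, hX]
  obtain ⟨pm, rfl⟩ := Nat.exists_eq_succ_of_ne_zero hX0
  obtain ⟨km, rfl⟩ := Nat.exists_eq_succ_of_ne_zero hK0
  dsimp only
  rw [hK]
  dsimp only
  rcases hL : Nat.land Sg (Nat.succ pm) with _ | l
  · rw [if_pos rfl]; rfl
  · rw [if_neg (Nat.succ_ne_zero l)]; rfl

/-- semantics of the loop over the beads in `B` -/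
theorem rib_val (f : ℕ → Pr) {c : ℕ} (hc : 1 ≤ c) (h : ℕ) (S : Finset ℕ) (Sg : ℕ) :
    ∀ (fuel : ℕ) (B : Finset ℕ), B.card ≤ fuel →
      (∀ b ∈ B, b ∈ S ∧ c ≤ b ∧ b - c ∉ S) → ∀ P Q : ℕ,
      (rib f c h (kS S) Sg fuel (kS B) P Q).val = (P : ℤ) - Q +
        2 ^ h * ∑ b ∈ B, (if Sg.testBit b then -1 else 1) *
          (f (kS (insert (b - c) (S.erase b)))).val := by
  intro fuel
  induction fuel with
  | zero =>
    intro B hB _ P Q
    have hB0 : B = ∅ := Finset.card_eq_zero.mp (Nat.le_zero.mp hB)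
    subst hB0
    rw [Finset.sum_empty, mul_zero, add_zero]
    rfl
  | succ fuel ih =>
    intro B hB hP P Q
    rcases B.eq_empty_or_nonempty with rfl | hne
    · rw [Finset.sum_empty, mul_zero, add_zero]
      have h0 : kS (∅ : Finset ℕ) = 0 := kS_eq_zero.mpr rfl
      rw [h0]
      rfl
    · have hb : B.max' hne ∈ B := B.max'_mem hne
      set b := B.max' hne with hbdef
      obtain ⟨hbS, hcb, hn⟩ := hP b hb
      have hM : kS B ≠ 0 := fun hh => hne.ne_empty (kS_eq_zero.mp hh)
      have hX : Nat.shiftLeft 1 (Nat.log2 (kS B)) = 2 ^ b := by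
        rw [log2_kS hne, ← hbdef]
        show 1 <<< b = 2 ^ b
        rw [Nat.one_shiftLeft]
      have hK : Nat.add (Nat.sub (kS S) (2 ^ b)) (Nat.shiftRight (2 ^ b) c) =
          kS (insert (b - c) (S.erase b)) := (kS_move hbS hc hcb hn).symm
      have hK0 : kS (insert (b - c) (S.erase b)) ≠ 0 := by
        intro hh
        exact (Finset.insert_ne_empty _ _) (kS_eq_zero.mp hh)
      rw [rib_step f c h (kS S) Sg fuel (kS B) P Q (2 ^ b) _ hM hX (by positivity) hK hK0,
        ← kS_erase hb]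
      have hcard : (B.erase b).card ≤ fuel := by
        rw [Finset.card_erase_of_mem hb]; omega
      have hP' : ∀ b' ∈ B.erase b, b' ∈ S ∧ c ≤ b' ∧ b' - c ∉ S := fun b' hb' =>
        hP b' (Finset.mem_of_mem_erase hb')
      have hsum := (Finset.add_sum_erase B (fun b => (if Sg.testBit b then (-1 : ℤ) else 1) *
          (f (kS (insert (b - c) (S.erase b)))).val) hb).symm
      rw [hsum]
      have hsh : ∀ x : ℕ, ((Nat.shiftLeft x h : ℕ) : ℤ) = (x : ℤ) * 2 ^ h := by
        intro x
        have : Nat.shiftLeft x h = x * 2 ^ h := Nat.shiftLeft_eq x h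
        rw [this]; push_cast; ring
      have hand : Nat.land Sg (2 ^ b) = 0 ↔ Sg.testBit b = false := by
        have h1 : Nat.land Sg (2 ^ b) = (Sg.testBit b).toNat * 2 ^ b := Nat.and_two_pow Sg b
        rw [h1]
        cases Sg.testBit b <;> simp
      by_cases ht : Sg.testBit b = true
      · rw [if_neg (by rw [hand, ht]; simp), ih _ hcard hP']
        rw [if_pos ht]
        push_cast [hsh]
        rw [Pr.val]
        ring
      · have ht' : Sg.testBit b = false := by simpa using ht
        rw [if_pos (hand.mpr ht'), ih _ hcard hP']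
        rw [if_neg ht]
        push_cast [hsh]
        rw [Pr.val]
        ring

/-- semantics of `grp` -/
theorem grp_val (f g : ℕ → Pr) {c : ℕ} (hc : 1 ≤ c) (h : ℕ) (S : Finset ℕ)
    (hS : ∀ b ∈ S, b ≤ 128) (hcard : S.card ≤ 80) :
    (grp f g c h (kS S)).val = (g (kS S)).val +
      2 ^ h * ∑ b ∈ S, if c ≤ b ∧ b - c ∉ S then
        (-1) ^ (S.filter (fun x => b - c < x ∧ x < b)).card *
          (f (kS (insert (b - c) (S.erase b)))).val else 0 := by
  have hg : grp f g c h (kS S) = rib f c h (kS S)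
      (Nat.xor (Rw (kS S)) (Nat.shiftLeft (Rw (kS S)) c)) 80 (mvb c (kS S))
      (g (kS S)).pl (g (kS S)).mi := by
    unfold grp
    cases g (kS S)
    rfl
  rw [hg, mvb_kS]
  rw [rib_val f hc h S _ 80 _ (le_trans (Finset.card_filter_le _ _) hcard)]
  · rw [Finset.sum_filter, Pr.val]
    congr 2
    apply Finset.sum_congr rfl
    intro b hb
    by_cases hcond : c ≤ b ∧ b - c ∉ S
    · rw [if_pos hcond, if_pos hcond, testBit_sign hb hc hcond.1 hcond.2 (hS b hb)]
      congr 1
      rcases Nat.even_or_odd (S.filter (fun x => b - c < x ∧ x < b)).card with he | ho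
      · rw [he.neg_one_pow, if_neg]
        simpa using he
      · rw [ho.neg_one_pow, if_pos]
        simpa using ho
    · rw [if_neg hcond, if_neg hcond]
  · intro b hb
    rw [Finset.mem_filter] at hb
    exact ⟨hb.1, hb.2.1, hb.2.2⟩

end Pool.MP322F
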