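import Pool.Agent.Lib.MP_322c5f_alF.FB01
import Pool.Agent.Lib.MP_322c5f_alF.FA08

/-! Enumeration of all diagrams. -/

set_option autoImplicit false

open Finset

namespace Pool.MP322F

open Pool.MP322

private theorem diag_ext {lam mu : YoungDiagram} (h : ∀ r, lam.rowLen r = mu.rowLen r) :
    lam = mu := by
  apply YoungDiagram.ext
  ext c
  rw [YoungDiagram.mem_cells, YoungDiagram.mem_cells]
  have h1 : c = (c.1, c.2) := rfl
  rw [h1, YoungDiagram.mem_iff_lt_rowLen, YoungDiagram.mem_iff_lt_rowLen, h]

private theorem rowLen_eq_of {mu : YoungDiagram} {r m : ℕ} (h : ∀ j, (r, j) ∈ mu ↔ j < m) :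
    mu.rowLen r = m := by
  have h1 := h m
  have h2 := h (mu.rowLen r)
  rw [YoungDiagram.mem_iff_lt_rowLen] at h1 h2
  omega

private theorem colLen_eq_of {mu : YoungDiagram} {r m : ℕ} (h : ∀ j, (j, r) ∈ mu ↔ j < m) :
    mu.colLen r = m := by
  have h1 := h m
  have h2 := h (mu.colLen r)
  rw [YoungDiagram.mem_iff_lt_colLen] at h1 h2
  omega

private theorem rowLen_addRow_zero (m : ℕ) (nu : YoungDiagram) : (addRow m nu).rowLen 0 = m := by
  apply rowLen_eq_of
  intro j
  rw [mem_addRow]
  constructor
  · exact fun h => h.1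
  · exact fun h => ⟨h, Or.inl rfl⟩

private theorem rowLen_addRow_succ {m : ℕ} {nu : YoungDiagram} (h : nu.rowLen 0 ≤ m) (i : ℕ) :
    (addRow m nu).rowLen (i + 1) = nu.rowLen i := by
  apply rowLen_eq_of
  intro j
  rw [mem_addRow]
  constructor
  · rintro ⟨-, h0 | ⟨i', hi, hm⟩⟩
    · exact absurd h0 (Nat.succ_ne_zero i)
    · have : i = i' := by simpa using hi
      subst this
      rw [YoungDiagram.mem_iff_lt_rowLen] at hm
      exact hm
  · intro hj
    have h1 := nu.rowLen_anti 0 i (Nat.zero_le _)
    refine ⟨?_, Or.inr ⟨i, rfl, ?_⟩⟩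
    · show j < m
      omega
    · rw [YoungDiagram.mem_iff_lt_rowLen]
      exact hj

private theorem colLen_addRow {m : ℕ} (hm : 1 ≤ m) {nu : YoungDiagram} :
    (addRow m nu).colLen 0 = nu.colLen 0 + 1 := by
  apply colLen_eq_of
  intro j
  rw [mem_addRow]
  constructor
  · rintro ⟨-, h0 | ⟨i', hi, hmm⟩⟩
    · have : j = 0 := h0
      omega
    · have hi' : j = i' + 1 := hi
      have hmm' : (i', 0) ∈ nu := hmm
      rw [YoungDiagram.mem_iff_lt_colLen] at hmm'
      omega
  · intro hj
    refine ⟨by show 0 < m; omega, ?_⟩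
    rcases Nat.eq_zero_or_pos j with h0 | h0
    · exact Or.inl h0
    · right
      refine ⟨j - 1, by show j = j - 1 + 1; omega, ?_⟩
      show (j - 1, 0) ∈ nu
      rw [YoungDiagram.mem_iff_lt_colLen]
      omega

private theorem card_addRow' {m : ℕ} {nu : YoungDiagram} (h : nu.rowLen 0 ≤ m) :
    (addRow m nu).card = m + nu.card := by
  have hf : nu.cells.filter (fun c => c.2 < m) = nu.cells := by
    apply Finset.filter_true_of_mem
    intro c hc
    have hc' : (c.1, c.2) ∈ nu := (YoungDiagram.mem_cells _).1 hc
    rw [YoungDiagram.mem_iff_lt_rowLen] at hc'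
    have h1 := nu.rowLen_anti 0 c.1 (Nat.zero_le _)
    omega
  show ((Finset.range m).image (fun j => ((0, j) : ℕ × ℕ)) ∪
    (nu.cells.filter (fun c => c.2 < m)).image (fun c => (c.1 + 1, c.2))).card = m + nu.cells.card
  rw [hf, Finset.card_union_of_disjoint, Finset.card_image_of_injective,
    Finset.card_image_of_injective, Finset.card_range]
  · intro a b hab
    have h1 := congrArg Prod.fst hab
    have h2 := congrArg Prod.snd hab
    simp only at h1 h2
    exact Prod.ext (by omega) h2
  · intro a b hab
    exact congrArg Prod.snd hab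
  · rw [Finset.disjoint_left]
    intro c hc hc'
    obtain ⟨j, -, rfl⟩ := Finset.mem_image.1 hc
    obtain ⟨d, -, hd⟩ := Finset.mem_image.1 hc'
    have := congrArg Prod.fst hd
    simp at this

/-- remove the first row. -/
private def dropRow (mu : YoungDiagram) : YoungDiagram where
  cells := (mu.cells.filter (fun c => 1 ≤ c.1)).image (fun c => (c.1 - 1, c.2))
  isLowerSet := by
    intro a b hab ha
    rw [Finset.mem_coe, Finset.mem_image] at ha ⊢
    obtain ⟨c, hc, rfl⟩ := ha
    rw [Finset.mem_filter] at hc
    obtain ⟨hc1, hc2⟩ := hc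
    have h1 : b.1 ≤ c.1 - 1 := hab.1
    have h2 : b.2 ≤ c.2 := hab.2
    refine ⟨(b.1 + 1, b.2), ?_, ?_⟩
    · rw [Finset.mem_filter]
      refine ⟨?_, by simp⟩
      rw [YoungDiagram.mem_cells] at hc1 ⊢
      exact mu.up_left_mem (by omega) h2 (show (c.1, c.2) ∈ mu from hc1)
    · exact Prod.ext (by simp) rfl

private theorem mem_dropRow {mu : YoungDiagram} {c : ℕ × ℕ} :
    c ∈ dropRow mu ↔ (c.1 + 1, c.2) ∈ mu := by
  rw [← YoungDiagram.mem_cells]
  show c ∈ (mu.cells.filter (fun c => 1 ≤ c.1)).image (fun c => (c.1 - 1, c.2)) ↔ _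
  rw [Finset.mem_image]
  constructor
  · rintro ⟨d, hd, rfl⟩
    rw [Finset.mem_filter, YoungDiagram.mem_cells] at hd
    have h1 : ((d.1 - 1 + 1, d.2) : ℕ × ℕ) = d := Prod.ext (by simp; omega) rfl
    simp only
    rw [h1]
    exact hd.1
  · intro h
    refine ⟨(c.1 + 1, c.2), ?_, Prod.ext (by simp) rfl⟩
    rw [Finset.mem_filter, YoungDiagram.mem_cells]
    exact ⟨h, by simp⟩

private theorem rowLen_dropRow (mu : YoungDiagram) (i : ℕ) :
    (dropRow mu).rowLen i = mu.rowLen (i + 1) := by
  apply rowLen_eq_of
  intro j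
  rw [mem_dropRow, YoungDiagram.mem_iff_lt_rowLen]

private theorem addRow_dropRow (mu : YoungDiagram) : addRow (mu.rowLen 0) (dropRow mu) = mu := by
  have h : (dropRow mu).rowLen 0 ≤ mu.rowLen 0 := by
    rw [rowLen_dropRow]
    exact mu.rowLen_anti 0 1 (Nat.zero_le _)
  apply diag_ext
  intro r
  cases r with
  | zero => exact rowLen_addRow_zero _ _
  | succ r => rw [rowLen_addRow_succ h, rowLen_dropRow]

private theorem dropRow_addRow {m : ℕ} {nu : YoungDiagram} (h : nu.rowLen 0 ≤ m) :
    dropRow (addRow m nu) = nu := by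
  apply diag_ext
  intro r
  rw [rowLen_dropRow, rowLen_addRow_succ h]

/-- the beta set, indexed by the rows -/
private theorem mem_bS {N : ℕ} {mu : YoungDiagram} {x : ℕ} :
    x ∈ bS N mu ↔ ∃ j, j < N ∧ x = mu.rowLen j + (N - 1 - j) := by
  unfold bS be
  simp only [Finset.mem_image, Finset.mem_univ, true_and]
  constructor
  · rintro ⟨i, rfl⟩
    refine ⟨N - 1 - (i : ℕ), ?_, ?_⟩
    · have := i.2
      omega
    · have := i.2
      omega
  · rintro ⟨j, hj, rfl⟩
    refine ⟨⟨N - 1 - j, by omega⟩, ?_⟩
    simp only
    congr 1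
    congr 1
    omega

private theorem bS_addRow {m r : ℕ} (hr : 1 ≤ r) {nu : YoungDiagram} (h : nu.rowLen 0 ≤ m) :
    bS r (addRow m nu) = insert (m + (r - 1)) (bS (r - 1) nu) := by
  ext x
  rw [Finset.mem_insert, mem_bS, mem_bS]
  constructor
  · rintro ⟨j, hj, rfl⟩
    cases j with
    | zero =>
      left
      rw [rowLen_addRow_zero]
      omega
    | succ j =>
      right
      refine ⟨j, by omega, ?_⟩
      rw [rowLen_addRow_succ h]
      omega
  · rintro (rfl | ⟨j, hj, rfl⟩)
    · refine ⟨0, by omega, ?_⟩
      rw [rowLen_addRow_zero]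
      omega
    · refine ⟨j + 1, by omega, ?_⟩
      rw [rowLen_addRow_succ h]
      omega

private theorem rowLen_le_card (mu : YoungDiagram) (i : ℕ) : mu.rowLen i ≤ mu.card := by
  have hsub : (Finset.range (mu.rowLen i)).image (fun j => ((i, j) : ℕ × ℕ)) ⊆ mu.cells := by
    intro d hd
    obtain ⟨j, hj, rfl⟩ := Finset.mem_image.1 hd
    rw [Finset.mem_range] at hj
    rw [YoungDiagram.mem_cells, YoungDiagram.mem_iff_lt_rowLen]
    exact hj
  have h1 := Finset.card_le_card hsub
  rw [Finset.card_image_of_injective _ (fun a b h => congrArg Prod.snd h), Finset.card_range] at h1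
  exact h1

private theorem rowLen_zero_of_card {mu : YoungDiagram} (h : mu.card = 0) (i : ℕ) :
    mu.rowLen i = 0 := by
  have := rowLen_le_card mu i
  omega

private theorem colLen_zero_of_card {mu : YoungDiagram} (h : mu.card = 0) : mu.colLen 0 = 0 := by
  by_contra hne
  have h1 : (0, 0) ∈ mu := by
    rw [YoungDiagram.mem_iff_lt_colLen]
    omega
  rw [YoungDiagram.mem_iff_lt_rowLen, rowLen_zero_of_card h] at h1
  omega

private theorem card_zero_of_rowLen {mu : YoungDiagram} (h : mu.rowLen 0 = 0) : mu.card = 0 := by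
  show mu.cells.card = 0
  rw [Finset.card_eq_zero, Finset.eq_empty_iff_forall_notMem]
  intro c hc
  have hc' : (c.1, c.2) ∈ mu := (YoungDiagram.mem_cells _).1 hc
  rw [YoungDiagram.mem_iff_lt_rowLen] at hc'
  have h1 := mu.rowLen_anti 0 c.1 (Nat.zero_le _)
  omega

private theorem bS_of_card_zero {mu : YoungDiagram} (h : mu.card = 0) (r : ℕ) :
    bS r mu = Finset.range r := by
  ext x
  rw [mem_bS, Finset.mem_range]
  constructor
  · rintro ⟨j, hj, rfl⟩
    rw [rowLen_zero_of_card h]
    omega
  · intro hx
    refine ⟨r - 1 - x, by omega, ?_⟩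
    rw [rowLen_zero_of_card h]
    omega

private theorem kS_union {S T : Finset ℕ} (h : Disjoint S T) : kS (S ∪ T) = kS S + kS T :=
  Finset.sum_union h

private theorem shiftLeft_one (k : ℕ) : Nat.shiftLeft 1 k = 2 ^ k := by
  have : (1 : ℕ) <<< k = 2 ^ k := by rw [Nat.shiftLeft_eq, one_mul]
  exact this

/-- splitting off the diagrams with first row exactly `m` -/
private theorem sum_row (F : YoungDiagram → ℕ) {s m : ℕ} (hms : m ≤ s) :
    ∑ mu ∈ (Finset.univ : Finset (Y s)).filter (fun mu => mu.1.rowLen 0 = m), F mu.1 =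
      ∑ nu ∈ (Finset.univ : Finset (Y (s - m))).filter (fun nu => nu.1.rowLen 0 ≤ m),
        F (addRow m nu.1) := by
  symm
  refine Finset.sum_bij'
    (i := fun (nu : Y (s - m)) hnu => (⟨addRow m nu.1, by
      have h1 := (Finset.mem_filter.1 hnu).2
      rw [card_addRow' h1, nu.2]
      omega⟩ : Y s))
    (j := fun (mu : Y s) hmu => (⟨dropRow mu.1, by
      have h1 := (Finset.mem_filter.1 hmu).2
      have h2 : (dropRow mu.1).rowLen 0 ≤ mu.1.rowLen 0 := by
        rw [rowLen_dropRow]
        exact mu.1.rowLen_anti 0 1 (Nat.zero_le _)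
      have h3 := card_addRow' h2
      rw [addRow_dropRow, mu.2] at h3
      omega⟩ : Y (s - m))) ?_ ?_ ?_ ?_ ?_
  · intro nu hnu
    rw [Finset.mem_filter]
    exact ⟨Finset.mem_univ _, rowLen_addRow_zero _ _⟩
  · intro mu hmu
    rw [Finset.mem_filter]
    refine ⟨Finset.mem_univ _, ?_⟩
    have h1 := (Finset.mem_filter.1 hmu).2
    show (dropRow mu.1).rowLen 0 ≤ m
    rw [rowLen_dropRow, ← h1]
    exact mu.1.rowLen_anti 0 1 (Nat.zero_le _)
  · intro nu hnu
    have h1 := (Finset.mem_filter.1 hnu).2
    exact Subtype.ext (dropRow_addRow h1)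
  · intro mu hmu
    have h1 := (Finset.mem_filter.1 hmu).2
    apply Subtype.ext
    show addRow m (dropRow mu.1) = mu.1
    rw [← h1]
    exact addRow_dropRow mu.1
  · intro nu hnu
    rfl

private theorem enumN_zero (g : ℕ → ℕ → ℕ) (fuel cap r key acc : ℕ)
    (hk : key + (2 ^ r - 1) ≠ 0) :
    enumN g (fuel + 1) 0 cap r key acc = acc + g (key + (2 ^ r - 1)) r := by
  obtain ⟨k, hk'⟩ := Nat.exists_eq_succ_of_ne_zero hk
  show Nat.add acc (Nat.rec (motive := fun _ => ℕ) 0 (fun k _ => g (Nat.succ k) r)
         (Nat.add key (Nat.sub (Nat.shiftLeft 1 r) 1))) = _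
  have h1 : Nat.add key (Nat.sub (Nat.shiftLeft 1 r) 1) = Nat.succ k := by
    rw [shiftLeft_one, ← hk']
    rfl
  rw [h1, hk']
  rfl

private theorem enumN_succ_zero (g : ℕ → ℕ → ℕ) (fuel s r key acc : ℕ) :
    enumN g (fuel + 1) (s + 1) 0 r key acc = acc := rfl

private theorem enumN_succ_succ (g : ℕ → ℕ → ℕ) (fuel s cap r key acc : ℕ) :
    enumN g (fuel + 1) (s + 1) (cap + 1) r key acc =
      if cap ≤ s then enumN g fuel (s - cap) (cap + 1) (r - 1) (key + 2 ^ (cap + r))
        (enumN g fuel (s + 1) cap r key acc)
      else enumN g fuel (s + 1) cap r key acc := by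
  rw [← shiftLeft_one]
  show Bool.rec (motive := fun _ => ℕ) (enumN g fuel (s + 1) cap r key acc)
    (enumN g fuel (s - cap) (cap + 1) (r - 1) (key + Nat.shiftLeft 1 (cap + r))
        (enumN g fuel (s + 1) cap r key acc)) (Nat.ble cap s) = _
  by_cases h : cap ≤ s
  · rw [if_pos h, Nat.ble_eq_true_of_le h]
  · rw [if_neg h]
    have : Nat.ble cap s = false := by
      cases hb : Nat.ble cap s with
      | false => rfl
      | true => exact absurd (Nat.le_of_ble_eq_true hb) h
    rw [this]

/-- general form of the enumeration: `top` is the set of the beads already placed (all of them are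
`≥ cap + r`, so that the next bead, at most `cap + r - 1`, is below them), the sum runs over the
diagrams with `s` cells, first row at most `cap` and at most `r` rows -/
theorem enumN_gen (g : ℕ → ℕ → ℕ) : ∀ (fuel s cap r : ℕ) (top : Finset ℕ) (acc : ℕ),
    s + cap + 1 ≤ fuel → s ≤ r → (∀ b ∈ top, cap + r ≤ b) → 1 ≤ r + top.card →
    enumN g fuel s cap r (kS top) acc = acc +
      ∑ nu ∈ (Finset.univ : Finset (Y s)).filter (fun nu => nu.1.rowLen 0 ≤ cap),
        g (kS (top ∪ bS r nu.1)) (r - nu.1.colLen 0) := by
  intro fuel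
  induction fuel with
  | zero =>
    intro s cap r top acc h
    omega
  | succ fuel ih =>
    intro s cap r top acc hf hs htop hr
    cases s with
    | zero =>
      have hdisj : Disjoint top (Finset.range r) := by
        rw [Finset.disjoint_left]
        intro b hb hb'
        have := htop b hb
        rw [Finset.mem_range] at hb'
        omega
      have hk : kS (top ∪ Finset.range r) = kS top + (2 ^ r - 1) := by
        rw [kS_union hdisj, kS_range]
      have hne : kS top + (2 ^ r - 1) ≠ 0 := by
        rw [← hk]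
        intro h0
        rw [kS_eq_zero] at h0
        have h1 : (top ∪ Finset.range r).card = top.card + r := by
          rw [Finset.card_union_of_disjoint hdisj, Finset.card_range]
        rw [h0, Finset.card_empty] at h1
        omega
      rw [enumN_zero g fuel cap r _ acc hne, ← hk]
      congr 1
      have hbot : (⊥ : YoungDiagram).card = 0 := by
        apply card_zero_of_rowLen
        by_contra hne'
        have h1 : (0, 0) ∈ (⊥ : YoungDiagram) := by
          rw [YoungDiagram.mem_iff_lt_rowLen]
          omega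
        exact YoungDiagram.notMem_bot _ h1
      have hall : ∀ nu : Y 0, nu = ⟨⊥, hbot⟩ := by
        intro nu
        apply Subtype.ext
        apply diag_ext
        intro i
        rw [rowLen_zero_of_card nu.2]
        exact (rowLen_zero_of_card hbot i).symm
      have hfil : (Finset.univ : Finset (Y 0)).filter (fun nu => nu.1.rowLen 0 ≤ cap) =
          {⟨⊥, hbot⟩} := by
        ext nu
        rw [Finset.mem_filter, Finset.mem_singleton]
        constructor
        · intro _
          exact hall nu
        · rintro rfl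
          refine ⟨Finset.mem_univ _, ?_⟩
          show (⊥ : YoungDiagram).rowLen 0 ≤ cap
          rw [rowLen_zero_of_card hbot]
          exact Nat.zero_le _
      rw [hfil, Finset.sum_singleton]
      show _ = g (kS (top ∪ bS r ⊥)) (r - (⊥ : YoungDiagram).colLen 0)
      rw [bS_of_card_zero hbot, colLen_zero_of_card hbot, Nat.sub_zero]
    | succ s =>
      cases cap with
      | zero =>
        rw [enumN_succ_zero]
        have hfil : (Finset.univ : Finset (Y (s + 1))).filter (fun nu => nu.1.rowLen 0 ≤ 0) = ∅ := by
          rw [Finset.filter_eq_empty_iff]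
          intro nu _ h0
          have := card_zero_of_rowLen (Nat.le_zero.1 h0)
          have h2 := nu.2
          omega
        rw [hfil, Finset.sum_empty]
        rfl
      | succ cap =>
        have hsplit : ∑ nu ∈ (Finset.univ : Finset (Y (s + 1))).filter
            (fun nu => nu.1.rowLen 0 ≤ cap + 1), g (kS (top ∪ bS r nu.1)) (r - nu.1.colLen 0) =
            ∑ nu ∈ (Finset.univ : Finset (Y (s + 1))).filter
            (fun nu => nu.1.rowLen 0 ≤ cap), g (kS (top ∪ bS r nu.1)) (r - nu.1.colLen 0) +
            ∑ nu ∈ (Finset.univ : Finset (Y (s + 1))).filter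
            (fun nu => nu.1.rowLen 0 = cap + 1), g (kS (top ∪ bS r nu.1)) (r - nu.1.colLen 0) := by
          rw [← Finset.sum_union]
          · congr 1
            ext nu
            simp only [Finset.mem_filter, Finset.mem_union, Finset.mem_univ, true_and]
            omega
          · rw [Finset.disjoint_left]
            intro nu h1 h2
            simp only [Finset.mem_filter, Finset.mem_univ, true_and] at h1 h2
            omega
        have ih1 := ih (s + 1) cap r top acc (by omega) hs (fun b hb => by
          have := htop b hb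
          omega) hr
        rw [enumN_succ_succ, hsplit, ih1]
        by_cases hcs : cap ≤ s
        · rw [if_pos hcs]
          have hnot : cap + r ∉ top := by
            intro h
            have := htop _ h
            omega
          have hkey : kS top + 2 ^ (cap + r) = kS (insert (cap + r) top) := by
            unfold kS
            rw [Finset.sum_insert hnot]
            omega
          rw [hkey, ih (s - cap) (cap + 1) (r - 1) (insert (cap + r) top) _ (by omega) (by omega)
            (by
              intro b hb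
              rw [Finset.mem_insert] at hb
              rcases hb with rfl | hb
              · omega
              · have := htop b hb
                omega) (by
              rw [Finset.card_insert_of_notMem hnot]
              omega)]
          rw [sum_row (fun mu => g (kS (top ∪ bS r mu)) (r - mu.colLen 0))
            (show cap + 1 ≤ s + 1 by omega)]
          rw [Nat.add_assoc]
          congr 2
          rw [show s + 1 - (cap + 1) = s - cap by omega]
          apply Finset.sum_congr rfl
          intro nu hnu
          have h1 : nu.1.rowLen 0 ≤ cap + 1 := (Finset.mem_filter.1 hnu).2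
          rw [bS_addRow (by omega) h1, colLen_addRow (by omega)]
          rw [show cap + 1 + (r - 1) = cap + r by omega]
          have e1 : insert (cap + r) top ∪ bS (r - 1) nu.1 =
              top ∪ insert (cap + r) (bS (r - 1) nu.1) := by
            rw [Finset.insert_union, Finset.union_insert]
          rw [e1]
          congr 1
          omega
        · rw [if_neg hcs]
          have hfil : (Finset.univ : Finset (Y (s + 1))).filter
              (fun nu => nu.1.rowLen 0 = cap + 1) = ∅ := by
            rw [Finset.filter_eq_empty_iff]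
            intro nu _ h0
            have h1 := rowLen_le_card nu.1 0
            have h2 := nu.2
            omega
          rw [hfil, Finset.sum_empty]
          omega

/-- the enumeration sums over all diagrams with `n` cells -/
theorem enumN_spec {n N fuel : ℕ} (hn : n ≤ N) (hN : 1 ≤ N) (hf : 2 * n + 2 ≤ fuel)
    (g : ℕ → ℕ → ℕ) :
    enumN g fuel n n N 0 0 = ∑ mu : Y n, g (kS (bS N mu.1)) (N - mu.1.colLen 0) := by
  have h := enumN_gen g fuel n n N ∅ 0 (by omega) hn (by simp) (by omega)
  have h0 : kS ∅ = 0 := kS_eq_zero.2 rfl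
  rw [h0, Nat.zero_add] at h
  rw [h]
  have hfil : (Finset.univ : Finset (Y n)).filter (fun nu => nu.1.rowLen 0 ≤ n) =
      Finset.univ := by
    apply Finset.filter_true_of_mem
    intro nu _
    have h1 := rowLen_le_card nu.1 0
    have h2 := nu.2
    omega
  rw [hfil]
  apply Finset.sum_congr rfl
  intro nu _
  rw [Finset.empty_union]

theorem log2_bS {N : ℕ} (hN : 1 ≤ N) (mu : YoungDiagram) :
    Nat.log2 (kS (bS N mu)) = mu.rowLen 0 + (N - 1) := by
  have hmem : mu.rowLen 0 + (N - 1) ∈ bS N mu := by
    rw [mem_bS]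
    exact ⟨0, by omega, by omega⟩
  have hne : (bS N mu).Nonempty := ⟨_, hmem⟩
  rw [log2_kS hne]
  apply le_antisymm
  · apply Finset.max'_le
    intro x hx
    rw [mem_bS] at hx
    obtain ⟨j, hj, rfl⟩ := hx
    have := mu.rowLen_anti 0 j (Nat.zero_le _)
    omega
  · exact Finset.le_max' _ _ hmem

end Pool.MP322F
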