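import Mathlib

/-! Digits of packed integers. -/

set_option autoImplicit false

open Finset

namespace Pool.MP322F

private theorem sum_split (w m : ℕ) (e : ℕ → ℕ) :
    ∑ j ∈ Finset.range (m + 1), e j * 2 ^ (w * j) =
      2 ^ w * (∑ j ∈ Finset.range m, e (j + 1) * 2 ^ (w * j)) + e 0 := by
  rw [Finset.sum_range_succ', Finset.mul_sum]
  simp only [mul_zero, pow_zero, mul_one]
  congr 1
  refine Finset.sum_congr rfl fun j _ => ?_
  rw [mul_add, mul_one, pow_add]
  ring

private theorem shr_succ (w i x : ℕ) : x >>> (w * (i + 1)) = (x / 2 ^ w) >>> (w * i) := by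
  rw [Nat.shiftRight_eq_div_pow, Nat.shiftRight_eq_div_pow, Nat.div_div_eq_div_mul, mul_add,
    mul_one, pow_add, mul_comm (2 ^ (w * i))]

private theorem dig {w : ℕ} : ∀ (m : ℕ) (e : ℕ → ℕ), (∀ i < m, e i < 2 ^ w) → ∀ i < m,
    ((∑ j ∈ Finset.range m, e j * 2 ^ (w * j)) >>> (w * i)) % 2 ^ w = e i := by
  intro m
  induction m with
  | zero => exact fun e _ i hi => absurd hi (Nat.not_lt_zero i)
  | succ m ih =>
    intro e he i hi
    have h0 : e 0 < 2 ^ w := he 0 (Nat.succ_pos m)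
    rw [sum_split]
    rcases i with _ | i
    · rw [mul_zero, Nat.shiftRight_zero, Nat.mul_add_mod, Nat.mod_eq_of_lt h0]
    · rw [shr_succ, Nat.mul_add_div (by positivity), Nat.div_eq_of_lt h0, add_zero]
      exact ih (fun j => e (j + 1)) (fun j hj => he (j + 1) (Nat.succ_lt_succ hj)) i
        (Nat.lt_of_succ_lt_succ hi)

private theorem bit_dig {w s : ℕ} (hs : s < w) (x i : ℕ) :
    x.testBit (w * i + s) = ((x >>> (w * i)) % 2 ^ w).testBit s := by
  rw [Nat.testBit_mod_two_pow, Nat.testBit_shiftRight]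
  simp [hs]

/-- uniqueness: if a natural number has a clear top bit in each of the first `m` slots of width `w`
and equals a packed sum of signed digits of absolute value `< 2^(w-1)`, then the digits are
nonnegative -/
theorem digits_nonneg {w : ℕ} (hw : 1 ≤ w) : ∀ (m : ℕ) (d : ℕ → ℤ) (D : ℕ),
    (∀ i < m, |d i| < 2 ^ (w - 1)) → ((D : ℤ) = ∑ i ∈ Finset.range m, d i * 2 ^ (w * i)) →
    (∀ i < m, D.testBit (w * i + (w - 1)) = false) → ∀ i < m, 0 ≤ d i := by
  intro m
  induction m with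
  | zero => exact fun _ _ _ _ _ i hi => absurd hi (Nat.not_lt_zero i)
  | succ m ih =>
    intro d D hd hD hbit
    obtain ⟨S, hS⟩ : ∃ S : ℤ, S = ∑ i ∈ Finset.range m, d (i + 1) * 2 ^ (w * i) := ⟨_, rfl⟩
    have hDS : (D : ℤ) = 2 ^ w * S + d 0 := by
      rw [hD, Finset.sum_range_succ', hS, Finset.mul_sum]
      simp only [mul_zero, pow_zero, mul_one]
      congr 1
      refine Finset.sum_congr rfl fun j _ => ?_
      rw [mul_add, mul_one, pow_add]
      ring
    have hw2 : (2 : ℤ) ^ w = 2 * 2 ^ (w - 1) := by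
      rw [← pow_succ']
      congr 1
      omega
    have hw3 : (2 : ℕ) ^ w = 2 * 2 ^ (w - 1) := by
      rw [← pow_succ']
      congr 1
      omega
    have hpos : (0 : ℤ) < 2 ^ (w - 1) := by positivity
    have h0 := abs_lt.1 (hd 0 (Nat.succ_pos m))
    have hd0 : 0 ≤ d 0 := by
      by_contra hneg
      have hmod : ((D % 2 ^ w : ℕ) : ℤ) = d 0 + 2 ^ w := by
        have e1 : (D : ℤ) = (d 0 + 2 ^ w) + 2 ^ w * (S - 1) := by
          rw [hDS]
          ring
        push_cast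
        rw [e1, Int.add_mul_emod_self_left]
        exact Int.emod_eq_of_lt (by linarith) (by linarith)
      have hge : 2 ^ (w - 1) ≤ D % 2 ^ w := by
        zify
        push_cast at hmod
        rw [hmod]
        linarith
      have hlt : D % 2 ^ w < 2 ^ (w - 1 + 1) := by
        have e2 : w - 1 + 1 = w := by omega
        rw [e2]
        exact Nat.mod_lt _ (by positivity)
      have ht := Nat.testBit_of_two_pow_le_and_two_pow_add_one_gt hge hlt
      rw [Nat.testBit_mod_two_pow] at ht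
      have hb := hbit 0 (Nat.succ_pos m)
      rw [mul_zero, zero_add] at hb
      rw [hb] at ht
      simp at ht
    have hdiv : ((D / 2 ^ w : ℕ) : ℤ) = S := by
      push_cast
      rw [hDS, add_comm, Int.add_mul_ediv_left _ _ (by positivity),
        Int.ediv_eq_zero_of_lt hd0 (by linarith), zero_add]
    intro i hi
    rcases i with _ | i
    · exact hd0
    · refine ih (fun j => d (j + 1)) (D / 2 ^ w) (fun j hj => hd (j + 1) (Nat.succ_lt_succ hj))
        (by rw [hdiv, hS]) (fun j hj => ?_) i (Nat.lt_of_succ_lt_succ hi)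
      have hb := hbit (j + 1) (Nat.succ_lt_succ hj)
      rw [← Nat.shiftRight_eq_div_pow, Nat.testBit_shiftRight]
      rw [← hb]
      congr 1
      ring

/-- biased digits: extraction of signed digits -/
theorem digit_bias {w : ℕ} (hw : 1 ≤ w) (m : ℕ) (d : ℕ → ℤ) (D : ℕ)
    (hd : ∀ i < m, |d i| < 2 ^ (w - 1))
    (hD : (D : ℤ) = ∑ i ∈ Finset.range m, (d i + 2 ^ (w - 1)) * 2 ^ (w * i)) :
    ∀ i < m, (((D >>> (w * i)) % 2 ^ w : ℕ) : ℤ) = d i + 2 ^ (w - 1) := by
  have hw2 : (2 : ℤ) ^ w = 2 * 2 ^ (w - 1) := by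
    rw [← pow_succ']
    congr 1
    omega
  have hnn : ∀ i < m, 0 ≤ d i + 2 ^ (w - 1) := fun i hi => by
    have := abs_lt.1 (hd i hi)
    linarith
  have hlt : ∀ i < m, d i + 2 ^ (w - 1) < 2 ^ w := fun i hi => by
    have := abs_lt.1 (hd i hi)
    linarith
  have hto : ∀ i < m, (((d i + 2 ^ (w - 1)).toNat : ℕ) : ℤ) = d i + 2 ^ (w - 1) := fun i hi =>
    Int.toNat_of_nonneg (hnn i hi)
  have hDn : D = ∑ i ∈ Finset.range m, (d i + 2 ^ (w - 1)).toNat * 2 ^ (w * i) := by
    zify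
    rw [hD]
    refine Finset.sum_congr rfl fun i hi => ?_
    rw [hto i (Finset.mem_range.1 hi)]
  intro i hi
  rw [hDn, dig m _ (fun j hj => ?_) i hi, hto i hi]
  zify
  rw [hto j hj]
  exact hlt j hj

/-- digit sum by reduction modulo `2^w - 1` -/
theorem digit_sum_mod {w : ℕ} (hw : 1 ≤ w) (m : ℕ) (d : ℕ → ℕ)
    (hs : ∑ i ∈ Finset.range m, d i < 2 ^ w - 1) :
    (∑ i ∈ Finset.range m, d i * 2 ^ (w * i)) % (2 ^ w - 1) = ∑ i ∈ Finset.range m, d i := by
  have h1 : ∀ i, 2 ^ (w * i) ≡ 1 [MOD (2 ^ w - 1)] := by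
    intro i
    have h2 : 2 ^ w ≡ 1 [MOD (2 ^ w - 1)] := by
      have h3 : 1 ≤ 2 ^ w := Nat.one_le_two_pow
      exact ((Nat.modEq_iff_dvd' h3).2 dvd_rfl).symm
    have h4 := h2.pow i
    rwa [one_pow, ← pow_mul] at h4
  have h5 : ∑ i ∈ Finset.range m, d i * 2 ^ (w * i) ≡ ∑ i ∈ Finset.range m, d i
      [MOD (2 ^ w - 1)] := by
    clear hs
    induction m with
    | zero => rfl
    | succ m ih =>
      rw [Finset.sum_range_succ, Finset.sum_range_succ]
      have h6 := (h1 m).mul_left (d m)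
      rw [mul_one] at h6
      exact ih.add h6
  rw [h5, Nat.mod_eq_of_lt hs]

/-- the digits in base `2^w` of a number below `2^(w m)` -/
theorem digit_expand (w m D : ℕ) (h : D < 2 ^ (w * m)) :
    D = ∑ i ∈ Finset.range m, (D >>> (w * i)) % 2 ^ w * 2 ^ (w * i) := by
  induction m generalizing D with
  | zero =>
    rw [mul_zero, pow_zero] at h
    simp
    omega
  | succ m ih =>
    have h1 : D / 2 ^ w < 2 ^ (w * m) := by
      refine Nat.div_lt_of_lt_mul ?_
      rw [← pow_add]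
      refine h.trans_eq ?_
      congr 1
      ring
    rw [sum_split]
    simp only [mul_zero, Nat.shiftRight_zero, shr_succ]
    rw [← ih _ h1, Nat.div_add_mod]

/-- the mask with a bit in position `s` of each of the `m` slots -/
def mkm (w s m : ℕ) : ℕ := (2 ^ (w * m) - 1) / (2 ^ w - 1) * 2 ^ s

theorem mkm_eq (w s m : ℕ) (hw : 1 ≤ w) :
    mkm w s m = ∑ i ∈ Finset.range m, 2 ^ (w * i + s) := by
  have h2 : 2 ≤ 2 ^ w := by
    calc 2 = 2 ^ 1 := rfl
      _ ≤ 2 ^ w := Nat.pow_le_pow_right (by norm_num) hw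
  unfold mkm
  rw [pow_mul, ← Nat.geomSum_eq h2, Finset.sum_mul]
  refine Finset.sum_congr rfl fun i _ => ?_
  rw [← pow_mul, ← pow_add]

private theorem mkm_eq' (w s m : ℕ) (hw : 1 ≤ w) :
    mkm w s m = ∑ i ∈ Finset.range m, 2 ^ s * 2 ^ (w * i) := by
  rw [mkm_eq w s m hw]
  refine Finset.sum_congr rfl fun i _ => ?_
  rw [← pow_add, add_comm]

private theorem mkm_bit {w s m : ℕ} (hw : 1 ≤ w) (hs : s < w) (i : ℕ) (hi : i < m) :
    (mkm w s m).testBit (w * i + s) = true := by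
  rw [bit_dig hs, mkm_eq' w s m hw,
    dig m (fun _ => 2 ^ s) (fun _ _ => Nat.pow_lt_pow_right (by norm_num) hs) i hi]
  exact Nat.testBit_two_pow_self

theorem land_mkm {w s m D : ℕ} (hw : 1 ≤ w) (hs : s < w) (h : D &&& mkm w s m = 0) :
    ∀ i < m, D.testBit (w * i + s) = false := by
  intro i hi
  have h1 := congrArg (fun x => x.testBit (w * i + s)) h
  simp only [Nat.testBit_and, Nat.zero_testBit] at h1
  rw [mkm_bit hw hs i hi, Bool.and_true] at h1
  exact h1

/-- digitwise comparison with guard bits: digits of `A` and `B` below `2^(w-1)` -/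
theorem digits_le {w m A B : ℕ} (hw : 1 ≤ w) (hA : ∀ i < m, (A >>> (w * i)) % 2 ^ w < 2 ^ (w - 1))
    (hB : ∀ i < m, (B >>> (w * i)) % 2 ^ w < 2 ^ (w - 1)) (hA2 : A < 2 ^ (w * m))
    (hB2 : B < 2 ^ (w * m)) (hle : B ≤ A + mkm w (w - 1) m)
    (h : (A + mkm w (w - 1) m - B) &&& mkm w (w - 1) m = mkm w (w - 1) m) :
    ∀ i < m, (B >>> (w * i)) % 2 ^ w ≤ (A >>> (w * i)) % 2 ^ w := by
  have hw3 : (2 : ℕ) ^ w = 2 * 2 ^ (w - 1) := by
    rw [← pow_succ']
    congr 1
    omega
  obtain ⟨a, ha⟩ : ∃ a : ℕ → ℕ, ∀ i, a i = (A >>> (w * i)) % 2 ^ w := ⟨_, fun _ => rfl⟩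
  obtain ⟨b, hb⟩ : ∃ b : ℕ → ℕ, ∀ i, b i = (B >>> (w * i)) % 2 ^ w := ⟨_, fun _ => rfl⟩
  have hAe : A = ∑ i ∈ Finset.range m, a i * 2 ^ (w * i) := by
    simp only [ha]
    exact digit_expand w m A hA2
  have hBe : B = ∑ i ∈ Finset.range m, b i * 2 ^ (w * i) := by
    simp only [hb]
    exact digit_expand w m B hB2
  have hM := mkm_eq' w (w - 1) m hw
  have hsum : B + ∑ i ∈ Finset.range m, (a i + 2 ^ (w - 1) - b i) * 2 ^ (w * i) =
      A + mkm w (w - 1) m := by
    rw [hM]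
    nth_rewrite 1 [hAe]
    nth_rewrite 1 [hBe]
    rw [← Finset.sum_add_distrib, ← Finset.sum_add_distrib]
    refine Finset.sum_congr rfl fun i hi => ?_
    have h1 : b i < 2 ^ (w - 1) := by
      rw [hb]
      exact hB i (Finset.mem_range.1 hi)
    rw [← add_mul, ← add_mul]
    congr 1
    omega
  have hdiff : A + mkm w (w - 1) m - B =
      ∑ i ∈ Finset.range m, (a i + 2 ^ (w - 1) - b i) * 2 ^ (w * i) := by
    omega
  intro i hi
  rw [← ha, ← hb]
  have h1 : b i < 2 ^ (w - 1) := by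
    rw [hb]
    exact hB i hi
  have h2 := congrArg (fun x => x.testBit (w * i + (w - 1))) h
  simp only [Nat.testBit_and] at h2
  rw [mkm_bit hw (by omega) i hi, Bool.and_true, hdiff, bit_dig (by omega : w - 1 < w),
    dig m (fun i => a i + 2 ^ (w - 1) - b i) (fun j hj => ?_) i hi] at h2
  · have h3 := Nat.ge_two_pow_of_testBit h2
    omega
  · have h4 : a j < 2 ^ (w - 1) := by
      rw [ha]
      exact hA j hj
    show a j + 2 ^ (w - 1) - b j < 2 ^ w
    omega

end Pool.MP322F
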