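import Pool.Agent.Lib.MP_322c5f_alF.FB00

/-! Kernel functions for the base table check. -/

set_option autoImplicit false

namespace Pool.MP322F
/-- list of groups: value function of the types of size `n - c` with parts `≤ c`, largest part `c`,
number of slots `L`, mask of the top bits of the slots -/
inductive FL where
  | nil : FL
  | cons : (ℕ → Pr) → ℕ → ℕ → ℕ → FL → FL

inductive NL where
  | nil : NL
  | cons : ℕ → NL → NL

inductive LN where
  | last : NL → LN
  | cons : NL → LN → LN

noncomputable def LN.get (l : LN) : ℕ → NL :=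
  LN.rec (motive := fun _ => ℕ → NL) (fun g _ => g)
    (fun g _ ih d => Nat.rec (motive := fun _ => NL) g (fun d' _ => ih d') d) l

/-- zero iff all digits of `Wo * F + 2^t * (P - Q)` are nonnegative -/
noncomputable def ck1 (t Wo mask F P Q : ℕ) : ℕ :=
  Nat.add
    (Nat.land (Nat.sub (Nat.add (Nat.mul Wo F) (Nat.shiftLeft P t)) (Nat.shiftLeft Q t)) mask)
    (Nat.sub (Nat.shiftLeft Q t) (Nat.add (Nat.mul Wo F) (Nat.shiftLeft P t)))

noncomputable def ckg (f : ℕ → Pr) (c t Wo mask key F : ℕ) : ℕ :=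
  Pr.rec (motive := fun _ => ℕ) (fun P Q => ck1 t Wo mask F P Q) (grp f g0 c 0 key)

noncomputable def chkG (t key F : ℕ) (fl : FL) : NL → ℕ :=
  FL.rec (motive := fun _ => NL → ℕ) (fun _ => 0)
    (fun f c _ mask _ ih dl => NL.rec (motive := fun _ => ℕ) 1
      (fun Wo rest _ => Nat.add (ckg f c t Wo mask key F) (ih rest)) dl) fl

/-- check of one diagram: `r` = number of beads in the vacuum, `dl d` is used for depth `d + 1`;
the minus part `Q` of the dimension must be `0` -/
noncomputable def leafB (fd1 : ℕ → Pr) (fl : FL) (dl : LN) (t n N bnd key r : ℕ) : ℕ :=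
  Pr.rec (motive := fun _ => ℕ) (fun P Q =>
    Nat.rec (motive := fun _ => ℕ) 1 (fun F _ =>
      Nat.rec (motive := fun _ => ℕ) 0 (fun d _ =>
        Nat.add (Nat.add Q (Nat.sub (Nat.succ F) bnd)) (chkG t key (Nat.succ F) fl (LN.get dl d)))
        (Nat.sub (Nat.sub n (Nat.sub (Nat.log2 key) (Nat.sub N 1)))
          (Nat.sub (Nat.sub n (Nat.sub (Nat.log2 key) (Nat.sub N 1))) (Nat.sub n (Nat.sub N r)))))
      P) (grp fd1 g0 1 0 key)

/-- `∑_(i<L) 2^(w i + s)` -/
noncomputable def mkk (w s L : ℕ) : ℕ :=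
  Nat.mul (Nat.div (Nat.sub (Nat.pow 2 (Nat.mul w L)) 1) (Nat.sub (Nat.pow 2 w) 1)) (Nat.pow 2 s)

/-- zero iff the masks are right, and the digits are `< 2^(t+1)` and the number is `< 2^(w L)` -/
noncomputable def datG (w t : ℕ) (fl : FL) : NL → ℕ :=
  FL.rec (motive := fun _ => NL → ℕ) (fun _ => 0)
    (fun _ _ L _ _ ih dl => NL.rec (motive := fun _ => ℕ) 1
      (fun Wo rest _ => Nat.add (Nat.add
        (Nat.land Wo (Nat.mul (mkk w (Nat.succ t) L) (Nat.sub (Nat.pow 2 (Nat.sub w (Nat.succ t))) 1)))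
        (Nat.sub (Nat.succ Wo) (Nat.pow 2 (Nat.mul w L)))) (ih rest)) dl) fl

/-- zero iff the digits of the second list are at most the digits of the first list -/
noncomputable def monG (w : ℕ) (fl : FL) : NL → NL → ℕ :=
  FL.rec (motive := fun _ => NL → NL → ℕ) (fun _ _ => 0)
    (fun _ _ _ mask _ ih dl dl' => NL.rec (motive := fun _ => ℕ) 1
      (fun A rest _ => NL.rec (motive := fun _ => ℕ) 1
        (fun B rest' _ => Nat.add (Nat.add
          (Nat.sub mask (Nat.land (Nat.sub (Nat.add A mask) B) mask))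
          (Nat.sub B (Nat.add A mask))) (ih rest rest')) dl') dl) fl

noncomputable def datL (w t : ℕ) (fl : FL) (dl : LN) : ℕ :=
  LN.rec (motive := fun _ => ℕ) (fun g => datG w t fl g)
    (fun g rest ih => Nat.add (Nat.add (datG w t fl g) (monG w fl g (LN.get rest 0))) ih) dl

/-- sum of the digits of the even types; `key1` is the mask of the one-column diagram -/
noncomputable def sumG (w key1 : ℕ) (fl : FL) : NL → ℕ :=
  FL.rec (motive := fun _ => NL → ℕ) (fun _ => 0)
    (fun f c _ _ _ ih dl => NL.rec (motive := fun _ => ℕ) 0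
      (fun Wo rest _ => Nat.add (Nat.mod (Nat.land Wo (Nat.mul
        (Pr.pl (grp f g0 c 0 key1)) (Nat.sub (Nat.pow 2 w) 1))) (Nat.sub (Nat.pow 2 w) 1))
          (ih rest)) dl) fl

/-- zero iff plus and minus parts of the one-column diagram add up to `∑ 2^(w i)` -/
noncomputable def parG (w key1 : ℕ) (fl : FL) : ℕ :=
  FL.rec (motive := fun _ => ℕ) 0
    (fun f c L _ _ ih => Nat.add (Pr.rec (motive := fun _ => ℕ) (fun P Q =>
      Nat.add (Nat.sub (Nat.add P Q) (mkk w 0 L)) (Nat.sub (mkk w 0 L) (Nat.add P Q)))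
        (grp f g0 c 0 key1)) ih) fl

end Pool.MP322F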