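import Pool.Agent.Lib.MP_322c5f_al.Final

/-! Common definitions for the quantitative part. -/

set_option autoImplicit false

open Finset Equiv Nat
open scoped NNReal

namespace Pool.MP322F

open Pool.MP322
/-- depth -/
def Dp {n : ℕ} (mu : Y n) : ℕ := n - max (mu.1.rowLen 0) (mu.1.colLen 0)

/-- `Δ(n,k) = C(n,k) - C(n,k-1)` as an integer, `Δ(n,0) = 1` -/
def Dl (n : ℕ) : ℕ → ℤ
  | 0 => 1
  | k + 1 => (n.choose (k + 1) : ℤ) - (n.choose k : ℤ)

/-- `sup` over the diagrams of depth at least `K` of the negative part of the normalized character -/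
noncomputable def sv (n K : ℕ) (τ : Multiset ℕ) : ℝ≥0 :=
  ((Finset.univ : Finset (Y n)).filter (fun mu => K ≤ Dp mu)).sup
    (fun mu => Real.toNNReal (-(ty mu τ / fd mu)))

/-- the sum over the nontrivial even types -/
noncomputable def FS (n K : ℕ) : ℝ≥0 := ∑ τ ∈ typesE n, sv n K τ

/-- the contribution of the types without fixed points -/
noncomputable def NW (n K : ℕ) : ℝ≥0 := ∑ τ ∈ (typesE n).filter (fun τ => τ.sum = n), sv n K τ

end Pool.MP322F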