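import Pool.Agent.Lib.MP_322c5f_alF.FB03
import Pool.Agent.Lib.MP_322c5f_alF.FB04
import Pool.Agent.Lib.MP_322c5f_alF.FB05
import Pool.Agent.Lib.MP_322c5f_alF.FB10
import Pool.Agent.Lib.MP_322c5f_alF.FA07
import Pool.Agent.Lib.MP_322c5f_alF.FC00

/-! Soundness of the base table check, one diagram. -/

set_option autoImplicit false

open Finset Equiv

namespace Pool.MP322F

open Pool.MP322
/-- digit `i` of `W` in base `2^w` -/
def dg (w W i : ℕ) : ℕ := (W >>> (w * i)) % 2 ^ w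

theorem mkk_eq (w s L : ℕ) : mkk w s L = mkm w s L := rfl

/-- validity of the list of groups with largest parts `c, c+1, ..., n` -/
def FLok (N n w : ℕ) : ℕ → FL → Prop
  | c, FL.nil => c = n + 1
  | c, FL.cons f c' L mask rest =>
      c' = c ∧ c ≤ n ∧ VOK N w c (n - c) L f ∧ mask = mkm w (w - 1) L ∧ FLok N n w (c + 1) rest

private theorem colLen_le {N n : ℕ} (mu : Y n) (h : n ≤ N) : mu.1.colLen 0 ≤ N := by
  have hsub : (Finset.range (mu.1.colLen 0)).image (fun i => ((i, 0) : ℕ × ℕ)) ⊆ mu.1.cells := by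
    intro d hd
    obtain ⟨i, hi, rfl⟩ := Finset.mem_image.1 hd
    rw [Finset.mem_range] at hi
    rw [YoungDiagram.mem_cells, YoungDiagram.mem_iff_lt_colLen]
    exact hi
  have h1 := Finset.card_le_card hsub
  rw [Finset.card_image_of_injective _ (fun a b h => congrArg Prod.fst h), Finset.card_range] at h1
  have h2 : mu.1.cells.card = n := mu.2
  omega

/-- the value of the character at a full type (a list) from the set of beads -/
theorem chi_tS {N n : ℕ} (mu : Y n) (h : n ≤ N) (σ : Perm (Fin n)) (r : List ℕ)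
    (hr : (r : Multiset ℕ) = ft σ) : chi mu σ = (tS (r : Multiset ℕ) (bS N mu.1) : ℝ) := by
  rw [frobenius mu (colLen_le mu h) σ, tS_bS, hr]

/-- the dimension is the value of the group `c = 1` -/
theorem fd_grp {N n w : ℕ} (hN : N + n ≤ 128) (hN2 : N ≤ 80) (hn : n ≤ N) (hn1 : 1 ≤ n)
    {fd1 : ℕ → Pr} (h1 : VOK N w 1 (n - 1) 1 fd1) (mu : Y n) :
    fd mu = ((grp fd1 g0 1 0 (kS (bS N mu.1))).val : ℝ) := by
  have hs : szS (bS N mu.1) = n := by
    rw [szS_bS mu.1 (colLen_le mu hn)]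
    exact mu.2
  rw [top_group hN hN2 le_rfl hn1 h1 (bS N mu.1) (card_bS N mu.1) hs]
  obtain ⟨r, hr⟩ := List.length_eq_one_iff.1 h1.1
  have hmem : r ∈ TL 1 (n - 1) := by
    rw [hr]
    exact List.mem_singleton.2 rfl
  obtain ⟨hsum, hpos, -⟩ := mem_TL.1 hmem
  have hrep : r = List.replicate r.length 1 := by
    rw [List.eq_replicate_iff]
    exact ⟨rfl, fun x hx => le_antisymm (hpos x hx).2 (hpos x hx).1⟩
  have hlen : r.length = n - 1 := by
    rw [hrep, List.sum_replicate] at hsum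
    simpa using hsum
  have hft : ((1 :: r : List ℕ) : Multiset ℕ) = ft (1 : Perm (Fin n)) := by
    unfold ft
    rw [Perm.cycleType_one, Perm.support_one, Finset.card_empty, Nat.sub_zero, zero_add]
    have h2 : (1 :: r : List ℕ) = List.replicate n 1 := by
      rw [hrep, hlen, ← List.replicate_succ]
      congr 1
      omega
    rw [h2]
    rfl
  rw [hr, List.map_cons, List.map_nil, ← chi_one]
  rw [chi_tS mu hn 1 (1 :: r) hft]
  congr 1
  unfold pk
  simp

private theorem pk_sum (w : ℕ) : ∀ l : List ℤ,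
    pk w l = ∑ i ∈ Finset.range l.length, l.getD i 0 * 2 ^ (w * i) := by
  intro l
  induction l with
  | nil => simp [pk]
  | cons a l ih =>
    have h : pk w (a :: l) = a + 2 ^ w * pk w l := rfl
    rw [h, ih, List.length_cons, Finset.sum_range_succ', Finset.mul_sum]
    simp only [List.getD_cons_succ, List.getD_cons_zero, mul_zero, pow_zero, mul_one]
    rw [add_comm]
    congr 1
    refine Finset.sum_congr rfl fun i _ => ?_
    rw [mul_add, mul_one, pow_add]
    ring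

/-- as `digits_nonneg`, with weaker bounds -/
private theorem digits_nonneg' {w : ℕ} (hw : 1 ≤ w) : ∀ (m : ℕ) (d : ℕ → ℤ) (D : ℕ),
    (∀ i < m, -2 ^ (w - 1) ≤ d i ∧ d i < 2 ^ w) →
    ((D : ℤ) = ∑ i ∈ Finset.range m, d i * 2 ^ (w * i)) →
    (∀ i < m, D.testBit (w * i + (w - 1)) = false) → ∀ i < m, 0 ≤ d i := by
  intro m
  induction m with
  | zero => exact fun _ _ _ _ _ i hi => absurd hi (Nat.not_lt_zero i)
  | succ m ih =>
    intro d D hd hD hbit
    obtain ⟨S, hS⟩ : ∃ S : ℤ, S = ∑ i ∈ Finset.range m, d (i + 1) * 2 ^ (w * i) := ⟨_, rfl⟩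
    have hDS : (D : ℤ) = 2 ^ w * S + d 0 := by
      rw [hD, Finset.sum_range_succ', hS, Finset.mul_sum]
      simp only [mul_zero, pow_zero, mul_one]
      congr 1
      refine Finset.sum_congr rfl fun j _ => ?_
      rw [mul_add, mul_one, pow_add]
      ring
    have hw2 : (2 : ℤ) ^ w = 2 * 2 ^ (w - 1) := by
      rw [← pow_succ']
      congr 1
      omega
    have hpos : (0 : ℤ) < 2 ^ (w - 1) := by positivity
    have h0 := hd 0 (Nat.succ_pos m)
    have hd0 : 0 ≤ d 0 := by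
      by_contra hneg
      have hmod : ((D % 2 ^ w : ℕ) : ℤ) = d 0 + 2 ^ w := by
        have e1 : (D : ℤ) = (d 0 + 2 ^ w) + 2 ^ w * (S - 1) := by
          rw [hDS]
          ring
        push_cast
        rw [e1, Int.add_mul_emod_self_left]
        exact Int.emod_eq_of_lt (by linarith) (by linarith)
      have hge : 2 ^ (w - 1) ≤ D % 2 ^ w := by
        zify
        push_cast at hmod
        rw [hmod]
        linarith
      have hlt : D % 2 ^ w < 2 ^ (w - 1 + 1) := by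
        have e2 : w - 1 + 1 = w := by omega
        rw [e2]
        exact Nat.mod_lt _ (by positivity)
      have ht := Nat.testBit_of_two_pow_le_and_two_pow_add_one_gt hge hlt
      rw [Nat.testBit_mod_two_pow] at ht
      have hb := hbit 0 (Nat.succ_pos m)
      rw [mul_zero, zero_add] at hb
      rw [hb] at ht
      simp at ht
    have hdiv : ((D / 2 ^ w : ℕ) : ℤ) = S := by
      push_cast
      rw [hDS, add_comm, Int.add_mul_ediv_left _ _ (by positivity),
        Int.ediv_eq_zero_of_lt hd0 (by linarith), zero_add]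
    intro i hi
    rcases i with _ | i
    · exact hd0
    · refine ih (fun j => d (j + 1)) (D / 2 ^ w) (fun j hj => hd (j + 1) (Nat.succ_lt_succ hj))
        (by rw [hdiv, hS]) (fun j hj => ?_) i (Nat.lt_of_succ_lt_succ hi)
      have hb := hbit (j + 1) (Nat.succ_lt_succ hj)
      rw [← Nat.shiftRight_eq_div_pow, Nat.testBit_shiftRight]
      rw [← hb]
      congr 1
      ring

private theorem ck1_zero {t Wo mask F P Q : ℕ} (h : ck1 t Wo mask F P Q = 0) :
    (Wo * F + P * 2 ^ t - Q * 2 ^ t) &&& mask = 0 ∧ Q * 2 ^ t ≤ Wo * F + P * 2 ^ t := by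
  have e1 : ∀ a : ℕ, Nat.shiftLeft a t = a * 2 ^ t := fun a => Nat.shiftLeft_eq a t
  unfold ck1 at h
  rw [e1, e1] at h
  have h2 : ((Wo * F + P * 2 ^ t - Q * 2 ^ t) &&& mask) +
      (Q * 2 ^ t - (Wo * F + P * 2 ^ t)) = 0 := h
  obtain ⟨h3, h4⟩ := Nat.add_eq_zero_iff.1 h2
  exact ⟨h3, Nat.sub_eq_zero_iff_le.1 h4⟩

/-- soundness of `ckg`: for all types `c :: r`, `-chi ≤ digit / 2^t * fd` -/
theorem ckg_sound {N n w t c L : ℕ} (hN : N + n ≤ 128) (hN2 : N ≤ 80) (hn : n ≤ N) (hc : 1 ≤ c)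
    (hcn : c ≤ n) (hw : t + 2 ≤ w) {f : ℕ → Pr} (hf : VOK N w c (n - c) L f) (mu : Y n)
    {F Wo : ℕ} (hF : fd mu = F) (hFb : F ≤ 2 ^ (w - t - 3)) (hWo : ∀ i < L, dg w Wo i < 2 ^ (t + 1))
    (hWo2 : Wo < 2 ^ (w * L))
    (hck : ckg f c t Wo (mkm w (w - 1) L) (kS (bS N mu.1)) F = 0) :
    ∀ i (hi : i < (TL c (n - c)).length),
      0 ≤ (dg w Wo i : ℤ) * F + 2 ^ t * tS ((c :: (TL c (n - c))[i] : List ℕ) : Multiset ℕ)
        (bS N mu.1) := by
  have hs : szS (bS N mu.1) = n := by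
    rw [szS_bS mu.1 (colLen_le mu hn)]
    exact mu.2
  have htop := top_group hN hN2 hc hcn hf (bS N mu.1) (card_bS N mu.1) hs
  have hL : (TL c (n - c)).length = L := hf.1
  -- the packed value
  obtain ⟨a, ha⟩ : ∃ a : ℕ → ℤ, a = fun i => ((TL c (n - c)).map
    (fun r : List ℕ => tS ((c :: r : List ℕ) : Multiset ℕ) (bS N mu.1))).getD i 0 := ⟨_, rfl⟩
  have ha' : ∀ i (hi : i < (TL c (n - c)).length),
      a i = tS ((c :: (TL c (n - c))[i] : List ℕ) : Multiset ℕ) (bS N mu.1) := by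
    intro i hi
    rw [ha]
    simp only
    rw [List.getD_eq_getElem _ _ (by rw [List.length_map]; exact hi), List.getElem_map]
  have habs : ∀ i < L, |a i| ≤ (F : ℤ) := by
    intro i hi
    have hi' : i < (TL c (n - c)).length := by rw [hL]; exact hi
    rw [ha' i hi']
    obtain ⟨h1, h2, -⟩ := mem_TL.1 (List.getElem_mem hi')
    obtain ⟨σ, hσ⟩ := exists_ft (n := n) ((c :: (TL c (n - c))[i] : List ℕ) : Multiset ℕ)
      (by rw [Multiset.sum_coe, List.sum_cons, h1]; omega)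
      (by
        intro x hx
        rw [Multiset.mem_coe, List.mem_cons] at hx
        rcases hx with rfl | hx
        · exact hc
        · exact (h2 x hx).1)
    have h3 := abs_chi_le mu σ
    rw [chi_tS mu hn σ _ hσ.symm, hF] at h3
    exact_mod_cast h3
  rcases hg : grp f g0 c 0 (kS (bS N mu.1)) with ⟨P, Q⟩
  rw [hg] at htop
  have hPQ : (P : ℤ) - (Q : ℤ) = ∑ i ∈ Finset.range L, a i * 2 ^ (w * i) := by
    have h1 : (Pr.mk P Q).val = (P : ℤ) - (Q : ℤ) := rfl
    rw [← h1, htop, pk_sum, List.length_map, hL, ha]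
  have hck' : ck1 t Wo (mkm w (w - 1) L) F P Q = 0 := by
    have h1 : ckg f c t Wo (mkm w (w - 1) L) (kS (bS N mu.1)) F =
      Pr.rec (motive := fun _ => ℕ) (fun P Q => ck1 t Wo (mkm w (w - 1) L) F P Q)
        (grp f g0 c 0 (kS (bS N mu.1))) := rfl
    rw [h1, hg] at hck
    exact hck
  obtain ⟨hand, hle⟩ := ck1_zero hck'
  have hWe : (Wo : ℤ) = ∑ i ∈ Finset.range L, (dg w Wo i : ℤ) * 2 ^ (w * i) := by
    have h1 := digit_expand w L Wo hWo2
    have h2 : ((∑ i ∈ Finset.range L, (Wo >>> (w * i)) % 2 ^ w * 2 ^ (w * i) : ℕ) : ℤ) =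
        ∑ i ∈ Finset.range L, (dg w Wo i : ℤ) * 2 ^ (w * i) := by
      rw [Nat.cast_sum]
      refine Finset.sum_congr rfl fun i _ => ?_
      rw [Nat.cast_mul, Nat.cast_pow, Nat.cast_ofNat]
      rfl
    rw [← h2, ← h1]
  have hD : ((Wo * F + P * 2 ^ t - Q * 2 ^ t : ℕ) : ℤ) =
      ∑ i ∈ Finset.range L, ((dg w Wo i : ℤ) * F + 2 ^ t * a i) * 2 ^ (w * i) := by
    rw [Nat.cast_sub hle]
    push_cast
    have h1 : (Wo : ℤ) * F + P * 2 ^ t - Q * 2 ^ t = Wo * F + 2 ^ t * ((P : ℤ) - Q) := by ring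
    rw [h1, hPQ, hWe, Finset.sum_mul, Finset.mul_sum, ← Finset.sum_add_distrib]
    refine Finset.sum_congr rfl fun i _ => ?_
    ring
  -- bounds
  have hpw : 2 ^ t * 2 ^ (w - t - 3) ≤ 2 ^ (w - 2) ∧
      2 ^ t * 2 ^ (w - t - 3) + 2 ^ (t + 1) * 2 ^ (w - t - 3) ≤ 2 ^ w := by
    rcases Nat.lt_or_ge w (t + 3) with h3 | h3
    · have h4 : w = t + 2 := by omega
      subst h4
      have e1 : t + 2 - t - 3 = 0 := by omega
      have e2 : t + 2 - 2 = t := by omega
      rw [e1, e2, pow_zero, mul_one, mul_one, pow_succ, pow_add]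
      constructor
      · exact le_rfl
      · omega
    · rw [← pow_add, ← pow_add]
      have e1 : t + (w - t - 3) = w - 3 := by omega
      have e2 : t + 1 + (w - t - 3) = w - 2 := by omega
      have e3 : w - 2 = (w - 3) + 1 := by omega
      have e4 : w = (w - 3) + 3 := by omega
      rw [e1, e2]
      constructor
      · exact Nat.pow_le_pow_right (by norm_num) (by omega)
      · rw [e3]
        nth_rewrite 3 [e4]
        rw [pow_add, pow_add]
        omega
  have hbd : ∀ i < L, -2 ^ (w - 1) ≤ (dg w Wo i : ℤ) * F + 2 ^ t * a i ∧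
      (dg w Wo i : ℤ) * F + 2 ^ t * a i < 2 ^ w := by
    intro i hi
    have h1 := abs_le.1 (habs i hi)
    have h2 : (dg w Wo i : ℤ) < 2 ^ (t + 1) := by exact_mod_cast hWo i hi
    have h3 : (0 : ℤ) ≤ dg w Wo i := Int.natCast_nonneg _
    have h4 : (F : ℤ) ≤ 2 ^ (w - t - 3) := by exact_mod_cast hFb
    have h5 : (0 : ℤ) ≤ F := Int.natCast_nonneg _
    have h6 : (2 : ℤ) ^ t * 2 ^ (w - t - 3) ≤ 2 ^ (w - 2) := by exact_mod_cast hpw.1
    have h7 : (2 : ℤ) ^ t * 2 ^ (w - t - 3) + 2 ^ (t + 1) * 2 ^ (w - t - 3) ≤ 2 ^ w := by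
      exact_mod_cast hpw.2
    have hp : (0 : ℤ) < 2 ^ t := by positivity
    have h8 : (2 : ℤ) ^ t * F ≤ 2 ^ t * 2 ^ (w - t - 3) := mul_le_mul_of_nonneg_left h4 hp.le
    have h9 : (2 : ℤ) ^ t * a i ≤ 2 ^ t * F := mul_le_mul_of_nonneg_left h1.2 hp.le
    have h10 : -((2 : ℤ) ^ t * F) ≤ 2 ^ t * a i := by
      have := mul_le_mul_of_nonneg_left h1.1 hp.le
      linarith
    have h11 : (0 : ℤ) ≤ dg w Wo i * F := mul_nonneg h3 h5
    have h12 : (2 : ℤ) ^ (w - 2) ≤ 2 ^ (w - 1) := pow_le_pow_right₀ (by norm_num) (by omega)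
    have hq : (0 : ℤ) < 2 ^ (w - t - 3) := by positivity
    have h13 : (dg w Wo i : ℤ) * F < 2 ^ (t + 1) * 2 ^ (w - t - 3) :=
      lt_of_le_of_lt (mul_le_mul_of_nonneg_left h4 h3) (mul_lt_mul_of_pos_right h2 hq)
    constructor
    · linarith
    · linarith
  intro i hi
  rw [← ha' i hi]
  exact digits_nonneg' (by omega : 1 ≤ w) L (fun i => (dg w Wo i : ℤ) * F + 2 ^ t * a i) _ hbd hD
    (land_mkm (by omega) (by omega) hand) i (by rw [← hL]; exact hi)

end Pool.MP322F
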