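import Pool.Agent.Lib.MP_322c5f_alF.FB11

/-! Soundness of the base table check: the list of groups, the data. -/

set_option autoImplicit false

open Finset Equiv

namespace Pool.MP322F

open Pool.MP322

/-- the groups of a data list: for every `c ≥ c0` and every type `c :: r` of size `n` the number
`E (c :: r)` is the digit of the number of the group `c` -/
def dgT (n w : ℕ) : FL → NL → List ℕ → ℕ
  | FL.nil, _, _ => 0
  | FL.cons _ _ _ _ _, NL.nil, _ => 0
  | FL.cons _ c _ _ fl, NL.cons Wo dl, r =>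
      if r.head? = some c then dg w Wo ((TL c (n - c)).idxOf r.tail) else dgT n w fl dl r

/-- data conditions in the form used in the proofs -/
def DOK (w t : ℕ) : FL → NL → Prop
  | FL.nil, _ => True
  | FL.cons _ _ _ _ _, NL.nil => False
  | FL.cons _ _ L _ fl, NL.cons Wo dl =>
      (∀ i < L, dg w Wo i < 2 ^ (t + 1)) ∧ Wo < 2 ^ (w * L) ∧ DOK w t fl dl

private theorem sum_split12 (w m : ℕ) (e : ℕ → ℕ) :
    ∑ j ∈ Finset.range (m + 1), e j * 2 ^ (w * j) =
      2 ^ w * (∑ j ∈ Finset.range m, e (j + 1) * 2 ^ (w * j)) + e 0 := by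
  rw [Finset.sum_range_succ', Finset.mul_sum]
  simp only [mul_zero, pow_zero, mul_one]
  congr 1
  refine Finset.sum_congr rfl fun j _ => ?_
  rw [mul_add, mul_one, pow_add]
  ring

private theorem shr_succ12 (w i x : ℕ) : x >>> (w * (i + 1)) = (x / 2 ^ w) >>> (w * i) := by
  rw [Nat.shiftRight_eq_div_pow, Nat.shiftRight_eq_div_pow, Nat.div_div_eq_div_mul, mul_add,
    mul_one, pow_add, mul_comm (2 ^ (w * i))]

private theorem dig12 {w : ℕ} : ∀ (m : ℕ) (e : ℕ → ℕ), (∀ i < m, e i < 2 ^ w) → ∀ i < m,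
    ((∑ j ∈ Finset.range m, e j * 2 ^ (w * j)) >>> (w * i)) % 2 ^ w = e i := by
  intro m
  induction m with
  | zero => exact fun e _ i hi => absurd hi (Nat.not_lt_zero i)
  | succ m ih =>
    intro e he i hi
    have h0 : e 0 < 2 ^ w := he 0 (Nat.succ_pos m)
    rw [sum_split12]
    rcases i with _ | i
    · rw [mul_zero, Nat.shiftRight_zero, Nat.mul_add_mod, Nat.mod_eq_of_lt h0]
    · rw [shr_succ12, Nat.mul_add_div (by positivity), Nat.div_eq_of_lt h0, add_zero]
      exact ih (fun j => e (j + 1)) (fun j hj => he (j + 1) (Nat.succ_lt_succ hj)) i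
        (Nat.lt_of_succ_lt_succ hi)

private theorem bit_dig12 {w s : ℕ} (hs : s < w) (x i : ℕ) :
    x.testBit (w * i + s) = ((x >>> (w * i)) % 2 ^ w).testBit s := by
  rw [Nat.testBit_mod_two_pow, Nat.testBit_shiftRight]
  simp [hs]

/-- the mask of the forbidden bits of the data -/
private theorem mask_eq12 {w t : ℕ} (hw : t + 2 ≤ w) (L : ℕ) :
    mkm w (t + 1) L * (2 ^ (w - (t + 1)) - 1) =
      ∑ i ∈ Finset.range L, (2 ^ w - 2 ^ (t + 1)) * 2 ^ (w * i) := by
  rw [mkm_eq w (t + 1) L (by omega), Finset.sum_mul]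
  refine Finset.sum_congr rfl fun i _ => ?_
  have h1 : 2 ^ w = 2 ^ (t + 1) * 2 ^ (w - (t + 1)) := by
    rw [← pow_add]
    congr 1
    omega
  rw [h1, pow_add, mul_assoc, mul_comm (2 ^ (w * i))]
  congr 1
  rw [Nat.mul_sub, mul_one]

private theorem testBit_sub12 {w t s : ℕ} (h1 : t + 1 ≤ s) (h2 : s < w) :
    (2 ^ w - 2 ^ (t + 1)).testBit s = true := by
  have h3 : 2 ^ w - 2 ^ (t + 1) = 2 ^ (t + 1) * (2 ^ (w - (t + 1)) - 1) := by
    have h1 : 2 ^ w = 2 ^ (t + 1) * 2 ^ (w - (t + 1)) := by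
      rw [← pow_add]
      congr 1
      omega
    rw [h1, Nat.mul_sub, mul_one]
  rw [h3, Nat.testBit_two_pow_mul, Nat.testBit_two_pow_sub_one]
  simp
  omega

private theorem digs12 {w t L Wo : ℕ} (hw : t + 2 ≤ w)
    (h : Wo &&& (mkm w (t + 1) L * (2 ^ (w - (t + 1)) - 1)) = 0) :
    ∀ i < L, dg w Wo i < 2 ^ (t + 1) := by
  intro i hi
  refine Nat.lt_pow_two_of_testBit _ fun s hs => ?_
  unfold dg
  rcases Nat.lt_or_ge s w with hsw | hsw
  · rw [← bit_dig12 hsw]
    have h1 := congrArg (fun x => x.testBit (w * i + s)) h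
    simp only [Nat.testBit_and, Nat.zero_testBit] at h1
    have h2 : (mkm w (t + 1) L * (2 ^ (w - (t + 1)) - 1)).testBit (w * i + s) = true := by
      rw [mask_eq12 hw, bit_dig12 hsw, dig12 L (fun _ => 2 ^ w - 2 ^ (t + 1)) (fun _ _ => ?_) i hi]
      · exact testBit_sub12 hs hsw
      · show 2 ^ w - 2 ^ (t + 1) < 2 ^ w
        have h3 : 0 < 2 ^ w := by positivity
        have h4 : 0 < 2 ^ (t + 1) := by positivity
        omega
    rw [h2, Bool.and_true] at h1
    exact h1
  · rw [Nat.testBit_mod_two_pow]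
    simp
    omega

theorem datG_sound {w t : ℕ} (hw : t + 2 ≤ w) (fl : FL) (dl : NL) (h : datG w t fl dl = 0) :
    DOK w t fl dl := by
  induction fl generalizing dl with
  | nil => trivial
  | cons f c L mask fl ih =>
    cases dl with
    | nil =>
      exact absurd h (by show ¬ (1 = 0); omega)
    | cons Wo dl =>
      have h' : ((Wo &&& (mkk w (t + 1) L * (2 ^ (w - (t + 1)) - 1))) +
          (Wo + 1 - 2 ^ (w * L))) + datG w t fl dl = 0 := h
      rw [mkk_eq] at h'
      refine ⟨digs12 hw (by omega), by omega, ih dl (by omega)⟩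

/-- a weakly decreasing list with positive parts, sum `n`, head at least `2` -/
def TY (n : ℕ) (r : List ℕ) : Prop :=
  r.sum = n ∧ (∀ x ∈ r, 1 ≤ x) ∧ r.Pairwise (fun a b => b ≤ a) ∧ ∃ c r', r = c :: r' ∧ 2 ≤ c

private theorem tail_mem12 {n c : ℕ} {r : List ℕ} (h1 : (c :: r).sum = n)
    (h2 : ∀ x ∈ c :: r, 1 ≤ x) (h3 : (c :: r).Pairwise (fun a b => b ≤ a)) :
    r ∈ TL c (n - c) := by
  rw [mem_TL]
  rw [List.sum_cons] at h1
  rw [List.pairwise_cons] at h3
  exact ⟨by omega, fun x hx => ⟨h2 x (List.mem_cons_of_mem _ hx), h3.1 x hx⟩, h3.2⟩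

private theorem chkG_aux {N n w t : ℕ} (hN : N + n ≤ 128) (hN2 : N ≤ 80) (hn : n ≤ N)
    (hw : t + 3 ≤ w) (mu : Y n) {F : ℕ}
    (hF : fd mu = F) (hFb : F ≤ 2 ^ (w - t - 3)) (c : ℕ) (r : List ℕ)
    (h1 : (c :: r).sum = n) (h2 : ∀ x ∈ c :: r, 1 ≤ x)
    (h3 : (c :: r).Pairwise (fun a b => b ≤ a)) :
    ∀ (fl : FL) (c0 : ℕ), 1 ≤ c0 → c0 ≤ c → FLok N n w c0 fl → ∀ dl : NL, DOK w t fl dl →
      chkG t (kS (bS N mu.1)) F fl dl = 0 →
      0 ≤ (dgT n w fl dl (c :: r) : ℤ) * F + 2 ^ t * tS ((c :: r : List ℕ) : Multiset ℕ)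
        (bS N mu.1) := by
  intro fl
  induction fl with
  | nil =>
    intro c0 _ hc hfl
    exfalso
    rw [List.sum_cons] at h1
    have : c0 = n + 1 := hfl
    omega
  | cons f c' L mask fl ih =>
    intro c0 hc1 hc hfl dl hd hck
    obtain ⟨rfl, hcn, hV, rfl, hfl'⟩ := hfl
    cases dl with
    | nil => exact hd.elim
    | cons Wo dl =>
      obtain ⟨hd1, hd2, hd3⟩ := hd
      have hck' : ckg f c' t Wo (mkm w (w - 1) L) (kS (bS N mu.1)) F +
        chkG t (kS (bS N mu.1)) F fl dl = 0 := hck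
      have hdg : dgT n w (FL.cons f c' L (mkm w (w - 1) L) fl) (NL.cons Wo dl) (c :: r) =
        if (c :: r).head? = some c' then dg w Wo ((TL c' (n - c')).idxOf (c :: r).tail)
          else dgT n w fl dl (c :: r) := rfl
      rw [hdg, List.head?_cons, List.tail_cons]
      by_cases hcc : c = c'
      · subst hcc
        rw [if_pos rfl]
        have hmem := tail_mem12 h1 h2 h3
        have hi := List.idxOf_lt_length_of_mem hmem
        have := ckg_sound hN hN2 hn hc1 hcn (by omega) hV mu hF hFb hd1 hd2 (by omega)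
          ((TL c (n - c)).idxOf r) hi
        rwa [List.getElem_idxOf] at this
      · rw [if_neg (by simpa using hcc)]
        exact ih (c' + 1) (by omega) (by omega) hfl' dl hd3 (by omega)

/-- soundness for one diagram -/
theorem chkG_sound {N n w t : ℕ} (hN : N + n ≤ 128) (hN2 : N ≤ 80) (hn : n ≤ N) (hw : t + 3 ≤ w)
    (fl : FL) (hfl : FLok N n w 2 fl) (dl : NL) (hd : DOK w t fl dl) (mu : Y n) {F : ℕ}
    (hF : fd mu = F) (hFb : F ≤ 2 ^ (w - t - 3))
    (hck : chkG t (kS (bS N mu.1)) F fl dl = 0) (r : List ℕ) (hr : TY n r) :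
    0 ≤ (dgT n w fl dl r : ℤ) * F + 2 ^ t * tS (r : Multiset ℕ) (bS N mu.1) := by
  obtain ⟨h1, h2, h3, c, r', rfl, hc⟩ := hr
  exact chkG_aux hN hN2 hn hw mu hF hFb c r' h1 h2 h3 fl 2 (by omega) hc hfl dl hd hck

private theorem monG_aux {N n w t : ℕ} (hw : t + 3 ≤ w) (c : ℕ) (r : List ℕ)
    (h1 : (c :: r).sum = n) (h2 : ∀ x ∈ c :: r, 1 ≤ x)
    (h3 : (c :: r).Pairwise (fun a b => b ≤ a)) :
    ∀ (fl : FL) (c0 : ℕ), c0 ≤ c → FLok N n w c0 fl → ∀ dl dl' : NL, DOK w t fl dl →
      DOK w t fl dl' → monG w fl dl dl' = 0 →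
      dgT n w fl dl' (c :: r) ≤ dgT n w fl dl (c :: r) := by
  intro fl
  induction fl with
  | nil =>
    intro c0 hc hfl
    exfalso
    rw [List.sum_cons] at h1
    have : c0 = n + 1 := hfl
    omega
  | cons f c' L mask fl ih =>
    intro c0 hc hfl dl dl' hd hd' h
    obtain ⟨rfl, hcn, hV, rfl, hfl'⟩ := hfl
    cases dl with
    | nil => exact hd.elim
    | cons A dl =>
      cases dl' with
      | nil => exact hd'.elim
      | cons B dl' =>
        obtain ⟨hd1, hd2, hd3⟩ := hd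
        obtain ⟨hd1', hd2', hd3'⟩ := hd'
        have h' : (mkm w (w - 1) L - ((A + mkm w (w - 1) L - B) &&& mkm w (w - 1) L) +
          (B - (A + mkm w (w - 1) L))) + monG w fl dl dl' = 0 := h
        have hpow : 2 ^ (t + 1) ≤ 2 ^ (w - 1) := Nat.pow_le_pow_right (by norm_num) (by omega)
        have hle := digits_le (w := w) (m := L) (A := A) (B := B) (by omega)
          (fun i hi => (hd1 i hi).trans_le hpow) (fun i hi => (hd1' i hi).trans_le hpow)
          hd2 hd2' (by omega) (by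
            have h5 : (A + mkm w (w - 1) L - B) &&& mkm w (w - 1) L ≤ mkm w (w - 1) L :=
              Nat.and_le_right
            omega)
        have hdg : ∀ (W : ℕ) (el : NL),
            dgT n w (FL.cons f c' L (mkm w (w - 1) L) fl) (NL.cons W el) (c :: r) =
          if (c :: r).head? = some c' then dg w W ((TL c' (n - c')).idxOf (c :: r).tail)
            else dgT n w fl el (c :: r) := fun _ _ => rfl
        rw [hdg, hdg, List.head?_cons, List.tail_cons]
        by_cases hcc : c = c'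
        · subst hcc
          rw [if_pos rfl, if_pos rfl]
          have hmem := tail_mem12 h1 h2 h3
          have hi := List.idxOf_lt_length_of_mem hmem
          rw [hV.1] at hi
          exact hle _ hi
        · rw [if_neg (by simpa using hcc), if_neg (by simpa using hcc)]
          exact ih (c' + 1) (by omega) hfl' dl dl' hd3 hd3' (by omega)

/-- monotonicity of the data -/
theorem monG_sound {N n w t : ℕ} (hw : t + 3 ≤ w) (fl : FL) (hfl : FLok N n w 2 fl) (dl dl' : NL)
    (hd : DOK w t fl dl) (hd' : DOK w t fl dl') (h : monG w fl dl dl' = 0) (r : List ℕ)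
    (hr : TY n r) : dgT n w fl dl' r ≤ dgT n w fl dl r := by
  obtain ⟨h1, h2, h3, c, r', rfl, hc⟩ := hr
  exact monG_aux hw c r' h1 h2 h3 fl 2 hc hfl dl dl' hd hd' h

private theorem datL_sound {N n w t : ℕ} (hw : t + 3 ≤ w) (fl : FL) (hfl : FLok N n w 2 fl)
    (dl : LN) (h : datL w t fl dl = 0) :
    (∀ d, DOK w t fl (dl.get d)) ∧ ∀ r, TY n r → ∀ d e, d ≤ e →
      dgT n w fl (dl.get e) r ≤ dgT n w fl (dl.get d) r := by
  induction dl with
  | last g =>
    have h' : datG w t fl g = 0 := h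
    exact ⟨fun d => datG_sound (by omega) fl g h', fun r _ d e _ => le_rfl⟩
  | cons g rest ih =>
    have h' : (datG w t fl g + monG w fl g (rest.get 0)) + datL w t fl rest = 0 := h
    obtain ⟨ih1, ih2⟩ := ih (by omega)
    have hg : DOK w t fl g := datG_sound (by omega) fl g (by omega)
    have hmon : ∀ r, TY n r → dgT n w fl (rest.get 0) r ≤ dgT n w fl g r := fun r hr =>
      monG_sound hw fl hfl g (rest.get 0) hg (ih1 0) (by omega) r hr
    have hget0 : (LN.cons g rest).get 0 = g := rfl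
    have hgets : ∀ d, (LN.cons g rest).get (d + 1) = rest.get d := fun _ => rfl
    refine ⟨fun d => ?_, fun r hr d e hde => ?_⟩
    · cases d with
      | zero => exact hg
      | succ d => exact ih1 d
    · cases e with
      | zero =>
        have : d = 0 := by omega
        rw [this]
      | succ e =>
        cases d with
        | zero =>
          rw [hget0, hgets]
          exact (ih2 r hr 0 e (Nat.zero_le _)).trans (hmon r hr)
        | succ d =>
          rw [hgets, hgets]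
          exact ih2 r hr d e (by omega)

private theorem rowLen_le12 {n : ℕ} (mu : Y n) : mu.1.rowLen 0 ≤ n := by
  have hsub : (Finset.range (mu.1.rowLen 0)).image (fun j => ((0, j) : ℕ × ℕ)) ⊆ mu.1.cells := by
    intro d hd
    obtain ⟨j, hj, rfl⟩ := Finset.mem_image.1 hd
    rw [Finset.mem_range] at hj
    rw [YoungDiagram.mem_cells, YoungDiagram.mem_iff_lt_rowLen]
    exact hj
  have h1 := Finset.card_le_card hsub
  rw [Finset.card_image_of_injective _ (fun a b h => congrArg Prod.snd h), Finset.card_range] at h1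
  exact h1.trans_eq mu.2

private theorem colLen_le12 {n : ℕ} (mu : Y n) : mu.1.colLen 0 ≤ n := by
  have hsub : (Finset.range (mu.1.colLen 0)).image (fun j => ((j, 0) : ℕ × ℕ)) ⊆ mu.1.cells := by
    intro d hd
    obtain ⟨j, hj, rfl⟩ := Finset.mem_image.1 hd
    rw [Finset.mem_range] at hj
    rw [YoungDiagram.mem_cells, YoungDiagram.mem_iff_lt_colLen]
    exact hj
  have h1 := Finset.card_le_card hsub
  rw [Finset.card_image_of_injective _ (fun a b h => congrArg Prod.fst h), Finset.card_range] at h1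
  exact h1.trans_eq mu.2

/-- all diagrams: for `J ≥ 1` and depth at least `J` -/
theorem leafB_sound {N n w t bnd Jm : ℕ} (hN : N + n ≤ 128) (hN2 : N ≤ 80) (hn : n ≤ N)
    (hn1 : 1 ≤ n) (hw : t + 3 ≤ w) (hb : bnd ≤ 2 ^ (w - t - 3)) {fd1 : ℕ → Pr}
    (h1 : VOK N w 1 (n - 1) 1 fd1) (fl : FL) (hfl : FLok N n w 2 fl) (dl : LN)
    (hdat : datL w t fl dl = 0)
    (hck : enumN (leafB fd1 fl dl t n N bnd) (2 * n + 2) n n N 0 0 = 0)
    (J : ℕ) (hJ : 1 ≤ J) (mu : Y n) (hD : J ≤ Dp mu) (r : List ℕ) (hr : TY n r) :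
    -(dgT n w fl (dl.get (J - 1)) r : ℝ) / 2 ^ t * fd mu ≤ (tS (r : Multiset ℕ) (bS N mu.1) : ℝ) := by
  obtain ⟨hdok, hmono⟩ := datL_sound hw fl hfl dl hdat
  rw [enumN_spec hn (by omega) le_rfl, Finset.sum_eq_zero_iff] at hck
  have hmu := hck mu (Finset.mem_univ _)
  have hfd := fd_grp hN hN2 hn hn1 h1 mu
  have hX : n - (Nat.log2 (kS (bS N mu.1)) - (N - 1)) -
      (n - (Nat.log2 (kS (bS N mu.1)) - (N - 1)) - (n - (N - (N - mu.1.colLen 0)))) = Dp mu := by
    rw [log2_bS (by omega)]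
    have hr1 := rowLen_le12 mu
    have hc1 := colLen_le12 mu
    unfold Dp
    omega
  obtain ⟨d, hd⟩ : ∃ d, Dp mu = d + 1 := ⟨Dp mu - 1, by omega⟩
  cases hg : grp fd1 g0 1 0 (kS (bS N mu.1)) with
  | mk P Q =>
    have hmu' : Nat.rec (motive := fun _ => ℕ) 1 (fun F _ =>
      Nat.rec (motive := fun _ => ℕ) 0 (fun d _ =>
        Nat.add (Nat.add Q (Nat.sub (Nat.succ F) bnd))
          (chkG t (kS (bS N mu.1)) (Nat.succ F) fl (LN.get dl d)))
        (n - (Nat.log2 (kS (bS N mu.1)) - (N - 1)) -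
          (n - (Nat.log2 (kS (bS N mu.1)) - (N - 1)) - (n - (N - (N - mu.1.colLen 0))))))
      P = 0 := by
      have h2 : leafB fd1 fl dl t n N bnd (kS (bS N mu.1)) (N - mu.1.colLen 0) =
        Pr.rec (motive := fun _ => ℕ) (fun P Q =>
    Nat.rec (motive := fun _ => ℕ) 1 (fun F _ =>
      Nat.rec (motive := fun _ => ℕ) 0 (fun d _ =>
        Nat.add (Nat.add Q (Nat.sub (Nat.succ F) bnd))
          (chkG t (kS (bS N mu.1)) (Nat.succ F) fl (LN.get dl d)))
        (n - (Nat.log2 (kS (bS N mu.1)) - (N - 1)) -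
          (n - (Nat.log2 (kS (bS N mu.1)) - (N - 1)) - (n - (N - (N - mu.1.colLen 0))))))
      P) (grp fd1 g0 1 0 (kS (bS N mu.1))) := rfl
      rw [h2, hg] at hmu
      exact hmu
    rw [hX, hd] at hmu'
    cases P with
    | zero => exact absurd hmu' (by show ¬ (1 = 0); omega)
    | succ F =>
      have hmu2 : (Q + (F + 1 - bnd)) + chkG t (kS (bS N mu.1)) (F + 1) fl (dl.get d) = 0 := hmu'
      have hQ : Q = 0 := by omega
      have hFd : fd mu = ((F + 1 : ℕ) : ℝ) := by
        rw [hfd, hg, hQ]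
        have : (Pr.mk (F + 1) 0).val = ((F + 1 : ℕ) : ℤ) := by
          show (((F + 1 : ℕ) : ℤ) - ((0 : ℕ) : ℤ)) = _
          simp
        rw [this]
        norm_cast
      have h5 := chkG_sound hN hN2 hn hw fl hfl (dl.get d) (hdok d) mu hFd (by omega) (by omega)
        r hr
      have h6 := hmono r hr (J - 1) d (by omega)
      have h7 : (0 : ℝ) ≤ (dgT n w fl (dl.get d) r : ℝ) * ((F + 1 : ℕ) : ℝ) +
          2 ^ t * (tS (r : Multiset ℕ) (bS N mu.1) : ℝ) := by exact_mod_cast h5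
      have h8 : (dgT n w fl (dl.get d) r : ℝ) ≤ (dgT n w fl (dl.get (J - 1)) r : ℝ) := by
        exact_mod_cast h6
      rw [hFd, neg_div, neg_mul, neg_le_iff_add_nonneg, div_mul_eq_mul_div]
      have h9 : (0 : ℝ) < 2 ^ t := by positivity
      have h10 : (0 : ℝ) ≤ ((F + 1 : ℕ) : ℝ) := Nat.cast_nonneg _
      have h11 := mul_le_mul_of_nonneg_right h8 h10
      have h12 : 0 ≤ (dgT n w fl (dl.get (J - 1)) r : ℝ) * ((F + 1 : ℕ) : ℝ) +
          2 ^ t * (tS (r : Multiset ℕ) (bS N mu.1) : ℝ) := by linarith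
      have h13 := div_nonneg h12 h9.le
      rw [add_div, mul_div_cancel_left₀ _ h9.ne'] at h13
      linarith

end Pool.MP322F
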