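import Pool.Agent.Lib.MP_322c5f_alF.FB12

/-! The one-column diagram (parity of the types). -/

set_option autoImplicit false

open Finset Equiv

namespace Pool.MP322F

open Pool.MP322

/-- the set of beads of the one-column diagram -/
private def fb13_col (N n : ℕ) : Finset ℕ := (Finset.range (N + 1)).erase (N - n)

private theorem fb13_mem {N n x : ℕ} : x ∈ fb13_col N n ↔ x ≠ N - n ∧ x < N + 1 := by
  unfold fb13_col
  rw [Finset.mem_erase, Finset.mem_range]

private theorem fb13_kS (N n : ℕ) : kS (fb13_col N n) = 2 ^ (N + 1) - 1 - 2 ^ (N - n) := by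
  unfold fb13_col
  rw [kS_erase (Finset.mem_range.2 (by omega)), kS_range]

private theorem fb13_card (N n : ℕ) : (fb13_col N n).card = N := by
  unfold fb13_col
  rw [Finset.card_erase_of_mem (Finset.mem_range.2 (by omega)), Finset.card_range]
  omega

private theorem fb13_szS {N n : ℕ} (hn : n ≤ N) : szS (fb13_col N n) = n := by
  have h1 : (N - n) + ∑ b ∈ fb13_col N n, b = ∑ b ∈ Finset.range (N + 1), b :=
    Finset.add_sum_erase (Finset.range (N + 1)) (fun x => x) (Finset.mem_range.2 (by omega))
  have h2 : ∑ b ∈ Finset.range (N + 1), b = N + N.choose 2 := by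
    rw [Finset.sum_range_id, ← Nat.choose_two_right, Nat.choose_succ_succ' N 1,
      Nat.choose_one_right]
  unfold szS
  rw [fb13_card]
  omega

private theorem fb13_len : ∀ r : List ℕ, (∀ x ∈ r, 1 ≤ x) → r.length ≤ r.sum
  | [], _ => le_rfl
  | a :: r, h => by
    have h1 := fb13_len r (fun x hx => h x (List.mem_cons_of_mem _ hx))
    have h2 := h a (by simp)
    rw [List.length_cons, List.sum_cons]
    omega

private theorem fb13_tS {N : ℕ} : ∀ (r : List ℕ) (n : ℕ), n ≤ N → r.sum = n → (∀ x ∈ r, 1 ≤ x) →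
    tS (r : Multiset ℕ) (fb13_col N n) = (-1) ^ (n - r.length) := by
  intro r
  induction r with
  | nil =>
    intro n hn hs _
    rw [List.sum_nil] at hs
    subst hs
    have h1 : fb13_col N 0 = Finset.range N := by
      ext x
      rw [fb13_mem, Finset.mem_range]
      omega
    rw [h1]
    have h2 : tS (([] : List ℕ) : Multiset ℕ) (Finset.range N) = 1 := tS_range N
    rw [h2]
    rfl
  | cons c r ih =>
    intro n hn hs hp
    have hc : 1 ≤ c := hp c (by simp)
    have hp' : ∀ x ∈ r, 1 ≤ x := fun x hx => hp x (List.mem_cons_of_mem _ hx)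
    rw [List.sum_cons] at hs
    have hlen := fb13_len r hp'
    have hb : N - n + c ∈ fb13_col N n := by
      rw [fb13_mem]
      omega
    rw [← Multiset.cons_coe, tS_cons hc, Finset.sum_eq_single (N - n + c)]
    · have h1 : c ≤ N - n + c ∧ N - n + c - c ∉ fb13_col N n := by
        refine ⟨by omega, fun h => ?_⟩
        rw [fb13_mem] at h
        omega
      rw [if_pos h1]
      have h2 : insert (N - n + c - c) ((fb13_col N n).erase (N - n + c)) =
          fb13_col N (n - c) := by
        ext x
        rw [Finset.mem_insert, Finset.mem_erase, fb13_mem, fb13_mem]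
        omega
      have h3 : (fb13_col N n).filter (fun x => N - n + c - c < x ∧ x < N - n + c) =
          Finset.Ioo (N - n) (N - n + c) := by
        ext x
        rw [Finset.mem_filter, fb13_mem, Finset.mem_Ioo]
        omega
      rw [h2, h3, Nat.card_Ioo, ih (n - c) (by omega) (by omega) hp', ← pow_add,
        List.length_cons]
      congr 1
      omega
    · intro b hbS hne
      refine if_neg fun h => h.2 ?_
      rw [fb13_mem] at hbS ⊢
      omega
    · intro h
      exact absurd hb h

/-- the one-column diagram has the character `sign`, and its mask is `key1` (the beads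
`1, ..., n` and, if `N > n`, the vacuum `0, ..., N-n-1` shifted: the mask is
`2^(N+1) - 1 - 2^(N-n)`) -/
theorem tS_col {N n : ℕ} (hn : n ≤ N) (r : List ℕ) (hs : r.sum = n) (hp : ∀ x ∈ r, 1 ≤ x)
    (S : Finset ℕ) (hS : kS S = 2 ^ (N + 1) - 1 - 2 ^ (N - n)) :
    tS (r : Multiset ℕ) S = (-1) ^ (n - r.length) := by
  have h1 : S = fb13_col N n := kS_inj (hS.trans (fb13_kS N n).symm)
  rw [h1]
  exact fb13_tS r n hn hs hp

private theorem fb13_pk (w : ℕ) (F : List ℕ → ℤ) : ∀ l : List (List ℕ),
    pk w (l.map F) = ∑ i ∈ Finset.range l.length, F (l[i]!) * 2 ^ (w * i)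
  | [] => rfl
  | a :: l => by
    have h1 : pk w ((a :: l).map F) = F a + 2 ^ w * pk w (l.map F) := rfl
    rw [h1, fb13_pk w F l, List.length_cons, Finset.sum_range_succ', Finset.mul_sum, add_comm]
    congr 1
    · refine Finset.sum_congr rfl fun i _ => ?_
      rw [List.getElem!_cons_succ, mul_add, mul_one, pow_add]
      ring
    · rw [List.getElem!_cons_zero, mul_zero, pow_zero, mul_one]

/-- the digits of the plus part of the one-column diagram are the indicators of the even types -/
theorem par_digits {N n w c L : ℕ} (hN : N + n ≤ 128) (hN2 : N ≤ 80) (hn : n ≤ N) (hc : 1 ≤ c)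
    (hcn : c ≤ n) (hw : 2 ≤ w) {f : ℕ → Pr} (hf : VOK N w c (n - c) L f) {P Q : ℕ}
    (hPQ : grp f g0 c 0 (2 ^ (N + 1) - 1 - 2 ^ (N - n)) = Pr.mk P Q) (h : P + Q = mkk w 0 L) :
    P = ∑ i ∈ Finset.range L, (if Even (n - ((TL c (n - c))[i]!.length + 1)) then 1 else 0) *
      2 ^ (w * i) := by
  have h1 := top_group hN hN2 hc hcn hf (fb13_col N n) (fb13_card N n) (fb13_szS hn)
  rw [fb13_kS, hPQ] at h1
  have h2 : (Pr.mk P Q).val = (P : ℤ) - (Q : ℤ) := rfl
  rw [h2] at h1
  have h3 : (TL c (n - c)).map (fun r : List ℕ => tS ((c :: r : List ℕ) : Multiset ℕ)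
      (fb13_col N n)) = (TL c (n - c)).map (fun r : List ℕ => (-1 : ℤ) ^ (n - (r.length + 1))) := by
    refine List.map_congr_left fun r hr => ?_
    obtain ⟨hr1, hr2, -⟩ := mem_TL.1 hr
    rw [fb13_tS (c :: r) n hn (by rw [List.sum_cons, hr1]; omega) ?_, List.length_cons]
    intro x hx
    rw [List.mem_cons] at hx
    rcases hx with rfl | hx
    · exact hc
    · exact (hr2 x hx).1
  rw [h3, fb13_pk, hf.1] at h1
  rw [mkk_eq, mkm_eq w 0 L (by omega)] at h
  have h4 : (P : ℤ) + Q = ∑ i ∈ Finset.range L, 2 ^ (w * i) := by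
    have h5 := congrArg (Nat.cast : ℕ → ℤ) h
    push_cast at h5
    rw [h5]
    rfl
  have h6 : 2 * (P : ℤ) = 2 * ∑ i ∈ Finset.range L,
      (if Even (n - ((TL c (n - c))[i]!.length + 1)) then 1 else 0) * 2 ^ (w * i) := by
    have h7 : 2 * (P : ℤ) = ((P : ℤ) - Q) + (P + Q) := by ring
    rw [h7, h1, h4, ← Finset.sum_add_distrib, Finset.mul_sum]
    refine Finset.sum_congr rfl fun i _ => ?_
    split_ifs with he
    · rw [he.neg_one_pow]
      ring
    · rw [(Nat.not_even_iff_odd.1 he).neg_one_pow]
      ring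
  have h8 : (P : ℤ) = ∑ i ∈ Finset.range L,
      (if Even (n - ((TL c (n - c))[i]!.length + 1)) then 1 else 0) * 2 ^ (w * i) := by linarith
  zify
  rw [h8]

end Pool.MP322F
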