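import Pool.Agent.Lib.MP_322c5f_alF.FB13

/-! Digit sums and sums over the even types. -/

set_option autoImplicit false

open Finset Equiv

namespace Pool.MP322F

open Pool.MP322

private theorem lsum14 (F : List ℕ → ℕ) : ∀ l : List (List ℕ),
    (l.map F).sum = ∑ i ∈ Finset.range l.length, F (l[i]!)
  | [] => rfl
  | a :: l => by
    rw [List.map_cons, List.sum_cons, lsum14 F l, List.length_cons, Finset.sum_range_succ', add_comm]
    rfl

private theorem filt14 (l : List (List ℕ)) (p : List ℕ → Bool) (F : List ℕ → ℕ) :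
    ((l.filter p).map F).sum = (l.map (fun r => if p r = true then F r else 0)).sum := by
  induction l with
  | nil => rfl
  | cons a l ih =>
    by_cases h : p a = true
    · rw [List.filter_cons_of_pos h, List.map_cons, List.sum_cons, ih, List.map_cons,
        List.sum_cons, if_pos h]
    · rw [List.filter_cons_of_neg h, ih, List.map_cons, List.sum_cons, if_neg h, zero_add]

private theorem and14 {w a b c d : ℕ} (hb : b < 2 ^ w) (hd : d < 2 ^ w) :
    (2 ^ w * a + b) &&& (2 ^ w * c + d) = 2 ^ w * (a &&& c) + (b &&& d) := by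
  have hbd : b &&& d < 2 ^ w := lt_of_le_of_lt Nat.and_le_left hb
  apply Nat.eq_of_testBit_eq
  intro j
  rw [Nat.testBit_and, Nat.testBit_two_pow_mul_add a hb, Nat.testBit_two_pow_mul_add c hd,
    Nat.testBit_two_pow_mul_add _ hbd]
  split_ifs
  · rw [Nat.testBit_and]
  · rw [Nat.testBit_and]

private theorem split14 (w m : ℕ) (e : ℕ → ℕ) :
    ∑ j ∈ Finset.range (m + 1), e j * 2 ^ (w * j) =
      2 ^ w * (∑ j ∈ Finset.range m, e (j + 1) * 2 ^ (w * j)) + e 0 := by
  rw [Finset.sum_range_succ', Finset.mul_sum]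
  simp only [mul_zero, pow_zero, mul_one]
  congr 1
  refine Finset.sum_congr rfl fun j _ => ?_
  rw [mul_add, mul_one, pow_add]
  ring

private theorem dg_succ14 (w W i : ℕ) : dg w W (i + 1) = dg w (W / 2 ^ w) i := by
  unfold dg
  rw [Nat.shiftRight_eq_div_pow, Nat.shiftRight_eq_div_pow, Nat.div_div_eq_div_mul, mul_add,
    mul_one, pow_add, mul_comm (2 ^ (w * i))]

private theorem land14 (w : ℕ) : ∀ (L : ℕ) (e : ℕ → ℕ), (∀ i, e i = 0 ∨ e i = 1) → ∀ W : ℕ,
    W &&& ((∑ i ∈ Finset.range L, e i * 2 ^ (w * i)) * (2 ^ w - 1)) =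
      ∑ i ∈ Finset.range L, (e i * dg w W i) * 2 ^ (w * i) := by
  intro L
  induction L with
  | zero =>
    intro e _ W
    simp
  | succ L ih =>
    intro e he W
    have hpos : 0 < 2 ^ w := by positivity
    have h1 : (2 ^ w * (∑ j ∈ Finset.range L, e (j + 1) * 2 ^ (w * j)) + e 0) * (2 ^ w - 1) =
        2 ^ w * ((∑ j ∈ Finset.range L, e (j + 1) * 2 ^ (w * j)) * (2 ^ w - 1)) +
          e 0 * (2 ^ w - 1) := by ring
    have h2 : W = 2 ^ w * (W / 2 ^ w) + W % 2 ^ w := (Nat.div_add_mod W (2 ^ w)).symm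
    have h3 : e 0 * (2 ^ w - 1) < 2 ^ w := by
      rcases he 0 with h | h
      · rw [h]
        omega
      · rw [h]
        omega
    have h4 : W % 2 ^ w &&& e 0 * (2 ^ w - 1) = e 0 * dg w W 0 := by
      have h5 : dg w W 0 = W % 2 ^ w := by
        unfold dg
        rw [mul_zero, Nat.shiftRight_zero]
      rw [h5]
      rcases he 0 with h | h
      · rw [h]
        simp
      · rw [h, one_mul, one_mul, Nat.and_two_pow_sub_one_eq_mod, Nat.mod_mod]
    rw [split14, split14 w L (fun i => e i * dg w W i), h1]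
    conv_lhs => rw [h2]
    rw [and14 (Nat.mod_lt W hpos) h3, h4, ih (fun i => e (i + 1)) (fun i => he (i + 1))]
    simp only [dg_succ14]

private theorem group14 {N n w t c L : ℕ} (hN : N + n ≤ 128) (hN2 : N ≤ 80) (hn : n ≤ N)
    (hw : t + 20 ≤ w) (hlen : (TL c (n - c)).length < 2 ^ 15) (hc : 1 ≤ c) (hcn : c ≤ n)
    {f : ℕ → Pr} (hf : VOK N w c (n - c) L f) {P Q : ℕ}
    (hPQ : grp f g0 c 0 (2 ^ (N + 1) - 1 - 2 ^ (N - n)) = Pr.mk P Q) (h : P + Q = mkk w 0 L)
    {Wo : ℕ} (hWo : ∀ i < L, dg w Wo i < 2 ^ (t + 1)) :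
    (Wo &&& (P * (2 ^ w - 1))) % (2 ^ w - 1) = (((TL c (n - c)).filter
        (fun r => decide (Even (n - (r.length + 1))))).map
          (fun r => dg w Wo ((TL c (n - c)).idxOf r))).sum := by
  have h1 := par_digits hN hN2 hn hc hcn (by omega) hf hPQ h
  have hL := hf.1
  have h3 : ∀ i < L, ((if Even (n - ((TL c (n - c))[i]!.length + 1)) then 1 else 0) *
      dg w Wo i) ≤ 2 ^ (t + 1) := by
    intro i hi
    have := hWo i hi
    split_ifs
    · rw [one_mul]
      exact this.le
    · rw [zero_mul]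
      exact Nat.zero_le _
  have h4 : ∑ i ∈ Finset.range L, ((if Even (n - ((TL c (n - c))[i]!.length + 1)) then 1 else 0) *
      dg w Wo i) < 2 ^ w - 1 := by
    have h5 : ∑ i ∈ Finset.range L,
        ((if Even (n - ((TL c (n - c))[i]!.length + 1)) then 1 else 0) * dg w Wo i) ≤
        L * 2 ^ (t + 1) := by
      have := Finset.sum_le_card_nsmul (Finset.range L) (fun i =>
        (if Even (n - ((TL c (n - c))[i]!.length + 1)) then 1 else 0) * dg w Wo i) (2 ^ (t + 1))
        (fun i hi => h3 i (Finset.mem_range.1 hi))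
      rwa [Finset.card_range, smul_eq_mul] at this
    have h6 : L * 2 ^ (t + 1) ≤ 2 ^ 15 * 2 ^ (t + 1) :=
      Nat.mul_le_mul_right _ (by rw [← hL]; exact hlen.le)
    have h7 : 2 ^ (t + 20) ≤ 2 ^ w := Nat.pow_le_pow_right (by norm_num) hw
    have h8 : 0 < 2 ^ t := by positivity
    have h9 : 2 ^ (t + 20) = 1048576 * 2 ^ t := by
      rw [pow_add]
      ring
    have h10 : 2 ^ 15 * 2 ^ (t + 1) = 65536 * 2 ^ t := by
      rw [pow_succ]
      ring
    omega
  rw [h1, land14 w L (fun i => if Even (n - ((TL c (n - c))[i]!.length + 1)) then 1 else 0)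
    (fun i => by split_ifs <;> simp), digit_sum_mod (by omega) L _ h4, filt14, lsum14, hL]
  refine Finset.sum_congr rfl fun i hi => ?_
  have hi' : i < (TL c (n - c)).length := by
    rw [hL]
    exact Finset.mem_range.1 hi
  have h5 : (TL c (n - c))[i]! = (TL c (n - c))[i] := getElem!_pos _ i hi'
  have h6 : (TL c (n - c)).idxOf ((TL c (n - c))[i]!) = i := by
    rw [h5]
    exact (nodup_TL c (n - c)).idxOf_getElem i hi'
  rw [h6]
  by_cases he : Even (n - ((TL c (n - c))[i]!.length + 1))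
  · rw [if_pos he, if_pos (by simpa using he), one_mul]
  · rw [if_neg he, if_neg (by simpa using he), zero_mul]

private theorem sumG_aux {N n w t : ℕ} (hN : N + n ≤ 128) (hN2 : N ≤ 80) (hn : n ≤ N)
    (hw : t + 20 ≤ w) (hlen : ∀ c ≤ n, (TL c (n - c)).length < 2 ^ 15) :
    ∀ (fl : FL) (c0 : ℕ), 1 ≤ c0 → FLok N n w c0 fl → ∀ dl : NL, DOK w t fl dl →
      parG w (2 ^ (N + 1) - 1 - 2 ^ (N - n)) fl = 0 →
      sumG w (2 ^ (N + 1) - 1 - 2 ^ (N - n)) fl dl =
        ∑ c ∈ Finset.Icc c0 n, (((TL c (n - c)).filter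
        (fun r => decide (Even (n - (r.length + 1))))).map (fun r => dgT n w fl dl (c :: r))).sum := by
  intro fl
  induction fl with
  | nil =>
    intro c0 _ hfl dl _ _
    have h0 : c0 = n + 1 := hfl
    rw [h0, Finset.Icc_eq_empty (by omega), Finset.sum_empty]
    rfl
  | cons f c' L mask fl ih =>
    intro c0 hc1 hfl dl hd hpar
    obtain ⟨rfl, hcn, hV, rfl, hfl'⟩ := hfl
    cases dl with
    | nil => exact hd.elim
    | cons Wo dl =>
      obtain ⟨hd1, hd2, hd3⟩ := hd
      obtain ⟨key, hkey⟩ : ∃ key, key = 2 ^ (N + 1) - 1 - 2 ^ (N - n) := ⟨_, rfl⟩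
      rw [← hkey] at hpar ⊢
      cases hg : grp f g0 c' 0 key with
      | mk P Q =>
        have hpar' : ((P + Q - mkk w 0 L) + (mkk w 0 L - (P + Q))) + parG w key fl = 0 := by
          have h1 : parG w key (FL.cons f c' L (mkm w (w - 1) L) fl) =
              Nat.add (Pr.rec (motive := fun _ => ℕ) (fun P Q =>
                Nat.add (Nat.sub (Nat.add P Q) (mkk w 0 L)) (Nat.sub (mkk w 0 L) (Nat.add P Q)))
                (grp f g0 c' 0 key)) (parG w key fl) := rfl
          rw [h1, hg] at hpar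
          exact hpar
        have hsum : sumG w key (FL.cons f c' L (mkm w (w - 1) L) fl) (NL.cons Wo dl) =
            (Wo &&& ((grp f g0 c' 0 key).pl * (2 ^ w - 1))) % (2 ^ w - 1) + sumG w key fl dl := rfl
        have hPl : (Pr.mk P Q).pl = P := rfl
        have hrest := ih (c' + 1) (by omega) hfl' dl hd3 (by rw [← hkey]; omega)
        rw [← hkey] at hrest
        have hI : Finset.Icc c' n = insert c' (Finset.Icc (c' + 1) n) := by
          ext x
          rw [Finset.mem_insert, Finset.mem_Icc, Finset.mem_Icc]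
          omega
        rw [hsum, hg, hPl, group14 hN hN2 hn hw (hlen c' hcn) hc1 hcn hV
          (by rw [← hkey]; exact hg) (by omega) hd1, hrest, hI,
          Finset.sum_insert (by rw [Finset.mem_Icc]; omega)]
        have hdg : ∀ r : List ℕ, dgT n w (FL.cons f c' L (mkm w (w - 1) L) fl) (NL.cons Wo dl) r =
          if r.head? = some c' then dg w Wo ((TL c' (n - c')).idxOf r.tail)
            else dgT n w fl dl r := fun _ => rfl
        congr 1
        · refine congrArg List.sum (List.map_congr_left fun r _ => ?_)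
          rw [hdg, List.head?_cons, List.tail_cons, if_pos rfl]
        · refine Finset.sum_congr rfl fun c hc => ?_
          rw [Finset.mem_Icc] at hc
          refine congrArg List.sum (List.map_congr_left fun r _ => ?_)
          rw [hdg, List.head?_cons, if_neg (by
            intro h
            have := Option.some.inj h
            omega)]

/-- the sum of the digits over the even types with largest part at least `2` -/
theorem sumG_eq {N n w t : ℕ} (hN : N + n ≤ 128) (hN2 : N ≤ 80) (hn : n ≤ N) (hw : t + 20 ≤ w)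
    (fl : FL) (hfl : FLok N n w 2 fl) (hn2 : 2 ≤ n) (hlen : ∀ c ≤ n, (TL c (n - c)).length < 2 ^ 15)
    (dl : NL) (hd : DOK w t fl dl)
    (hpar : parG w (2 ^ (N + 1) - 1 - 2 ^ (N - n)) fl = 0) :
    sumG w (2 ^ (N + 1) - 1 - 2 ^ (N - n)) fl dl =
      ∑ c ∈ Finset.Icc 2 n, (((TL c (n - c)).filter
        (fun r => decide (Even (n - (r.length + 1))))).map (fun r => dgT n w fl dl (c :: r))).sum := by
  exact sumG_aux hN hN2 hn hw hlen fl 2 (by omega) hfl dl hd hpar

private theorem ones14 (s : Multiset ℕ) (hs : ∀ x ∈ s, 1 ≤ x) :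
    s.filter (fun x => 2 ≤ x) +
      Multiset.replicate (s.sum - (s.filter (fun x => 2 ≤ x)).sum) 1 = s := by
  have h1 := Multiset.filter_add_not (fun x => 2 ≤ x) s
  have h2 : s.filter (fun x => ¬ 2 ≤ x) =
      Multiset.replicate (Multiset.card (s.filter (fun x => ¬ 2 ≤ x))) 1 := by
    rw [Multiset.eq_replicate_card]
    intro x hx
    rw [Multiset.mem_filter] at hx
    have := hs x hx.1
    omega
  have h3 : s.sum = (s.filter (fun x => 2 ≤ x)).sum +
      Multiset.card (s.filter (fun x => ¬ 2 ≤ x)) := by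
    conv_lhs => rw [← h1]
    rw [Multiset.sum_add]
    conv_lhs => rw [h2]
    rw [Multiset.sum_replicate, smul_eq_mul, mul_one]
  have h4 : s.sum - (s.filter (fun x => 2 ≤ x)).sum =
      Multiset.card (s.filter (fun x => ¬ 2 ≤ x)) := by omega
  rw [h4, ← h2, h1]

private theorem perm14 {n : ℕ} {l : List ℕ} (hl : TY n l) (he : Even (n - l.length)) :
    ∃ σ : Perm (Fin n), σ.cycleType = (l : Multiset ℕ).filter (fun x => 2 ≤ x) ∧
      (l : Multiset ℕ) = ft σ ∧ Perm.sign σ = 1 ∧ σ ≠ 1 := by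
  obtain ⟨h1, h2, h3, c, r, h4, h5⟩ := hl
  have hsum : (l : Multiset ℕ).sum = n := by
    rw [Multiset.sum_coe]
    exact h1
  have hones := ones14 (l : Multiset ℕ) (fun x hx => h2 x (Multiset.mem_coe.1 hx))
  obtain ⟨τ, hτ⟩ : ∃ τ, τ = (l : Multiset ℕ).filter (fun x => 2 ≤ x) := ⟨_, rfl⟩
  rw [← hτ, hsum] at hones
  have hτ2 : ∀ x ∈ τ, 2 ≤ x := by
    intro x hx
    rw [hτ, Multiset.mem_filter] at hx
    exact hx.2
  have hle : τ.sum ≤ n := by
    have h6 := congrArg Multiset.sum hones
    rw [Multiset.sum_add, hsum] at h6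
    omega
  obtain ⟨σ, hσ⟩ := (Perm.exists_with_cycleType_iff (Fin n) (m := τ)).2
    ⟨by rw [Fintype.card_fin]; exact hle, hτ2⟩
  have hsupp : σ.support.card = τ.sum := by
    rw [← Perm.sum_cycleType, hσ]
  refine ⟨σ, by rw [hσ, hτ], ?_, ?_, ?_⟩
  · unfold ft
    rw [hσ, hsupp, hones]
  · rw [Perm.sign_of_cycleType, hσ]
    have h6 := congrArg Multiset.card hones
    rw [Multiset.card_add, Multiset.card_replicate, Multiset.coe_card] at h6
    have h7 : Multiset.card τ ≤ τ.sum := by
      have := Multiset.card_nsmul_le_sum (s := τ) (a := 1) (fun x hx => by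
        have := hτ2 x hx
        omega)
      simpa using this
    have h8 : n - l.length = τ.sum - Multiset.card τ := by omega
    rw [h8] at he
    have h9 : Even (τ.sum + Multiset.card τ) := by
      have h10 : τ.sum + Multiset.card τ = (τ.sum - Multiset.card τ) + 2 * Multiset.card τ := by
        omega
      rw [h10]
      exact he.add (even_two_mul _)
    exact h9.neg_one_pow
  · intro h6
    have h7 : σ.cycleType = 0 := by
      rw [h6]
      exact Perm.cycleType_one
    have h8 : c ∈ τ := by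
      rw [hτ, Multiset.mem_filter, Multiset.mem_coe, h4]
      exact ⟨by simp, h5⟩
    rw [← hσ, h7] at h8
    exact absurd h8 (Multiset.notMem_zero c)

private theorem filt_ft14 {n : ℕ} (σ : Perm (Fin n)) :
    (ft σ).filter (fun x => 2 ≤ x) = σ.cycleType := by
  unfold ft
  rw [Multiset.filter_add]
  have h1 : σ.cycleType.filter (fun x => 2 ≤ x) = σ.cycleType :=
    Multiset.filter_eq_self.2 fun x hx => Perm.two_le_of_mem_cycleType hx
  have h2 : (Multiset.replicate (n - σ.support.card) 1).filter (fun x => 2 ≤ x) = 0 := by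
    rw [Multiset.filter_eq_nil]
    intro x hx
    have := Multiset.eq_of_mem_replicate hx
    omega
  rw [h1, h2, add_zero]

private theorem ty14 {n : ℕ} (σ : Perm (Fin n)) (hσ : σ ≠ 1) (hs : Perm.sign σ = 1) :
    ∃ c r, TY n (c :: r) ∧ ((c :: r : List ℕ) : Multiset ℕ) = ft σ ∧ 2 ≤ c ∧
      Even (n - (r.length + 1)) := by
  have hp := Multiset.pairwise_sort (ft σ) (fun a b : ℕ => b ≤ a)
  have hcoe : (((ft σ).sort (fun a b => b ≤ a) : List ℕ) : Multiset ℕ) = ft σ :=
    Multiset.sort_eq _ _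
  obtain ⟨x, hx⟩ : ∃ x, x ∈ σ.cycleType := by
    apply Multiset.exists_mem_of_ne_zero
    rw [Ne, Perm.cycleType_eq_zero]
    exact hσ
  have hx2 : 2 ≤ x := Perm.two_le_of_mem_cycleType hx
  have hx3 : x ∈ (ft σ).sort (fun a b => b ≤ a) := by
    rw [Multiset.mem_sort]
    exact Multiset.mem_add.2 (Or.inl hx)
  cases hL : (ft σ).sort (fun a b => b ≤ a) with
  | nil =>
    rw [hL] at hx3
    exact absurd hx3 List.not_mem_nil
  | cons c r =>
    rw [hL] at hx3 hp hcoe
    have hc : 2 ≤ c := by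
      rcases List.mem_cons.1 hx3 with h | h
      · omega
      · have := (List.pairwise_cons.1 hp).1 x h
        omega
    have hTY : TY n (c :: r) := by
      refine ⟨?_, ?_, hp, c, r, rfl, hc⟩
      · rw [← Multiset.sum_coe, hcoe, ft_sum]
      · intro y hy
        refine ft_pos σ y ?_
        rw [← hcoe]
        exact Multiset.mem_coe.2 hy
    refine ⟨c, r, hTY, hcoe, hc, ?_⟩
    have h6 := congrArg Multiset.card hcoe
    rw [Multiset.coe_card, List.length_cons] at h6
    unfold ft at h6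
    rw [Multiset.card_add, Multiset.card_replicate, ← Perm.sum_cycleType] at h6
    have hle : σ.cycleType.sum ≤ n := by
      rw [Perm.sum_cycleType]
      exact (Finset.card_le_univ _).trans (by simp)
    have h7 : Multiset.card σ.cycleType ≤ σ.cycleType.sum := by
      have := Multiset.card_nsmul_le_sum (s := σ.cycleType) (a := 1) (fun x hx => by
        have := Perm.two_le_of_mem_cycleType hx
        omega)
      simpa using this
    have h8 : n - (r.length + 1) = σ.cycleType.sum - Multiset.card σ.cycleType := by omega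
    rw [h8]
    rw [Perm.sign_of_cycleType] at hs
    have h9 : Even (σ.cycleType.sum + Multiset.card σ.cycleType) := by
      by_contra hcon
      rw [Nat.not_even_iff_odd] at hcon
      rw [hcon.neg_one_pow] at hs
      exact absurd hs (by decide)
    rw [Nat.even_sub h7]
    exact Nat.even_add.1 h9

/-- even nontrivial types correspond to the lists of `TY n` with `n - length` even -/
theorem sum_typesE {n : ℕ} (hn2 : 2 ≤ n) (g : List ℕ → ℝ) (g' : Multiset ℕ → ℝ)
    (hg : ∀ (σ : Perm (Fin n)) (r : List ℕ), TY n r → (r : Multiset ℕ) = ft σ →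
      g' σ.cycleType = g r) :
    ∑ τ ∈ typesE n, g' τ = ∑ c ∈ Finset.Icc 2 n, (((TL c (n - c)).filter
        (fun r => decide (Even (n - (r.length + 1))))).map (fun r => g (c :: r))).sum := by
  classical
  have hR : ∑ c ∈ Finset.Icc 2 n, (((TL c (n - c)).filter
        (fun r => decide (Even (n - (r.length + 1))))).map (fun r => g (c :: r))).sum =
      ∑ x ∈ (Finset.Icc 2 n).sigma (fun c => ((TL c (n - c)).filter
        (fun r => decide (Even (n - (r.length + 1))))).toFinset), g (x.1 :: x.2) := by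
    rw [Finset.sum_sigma]
    refine Finset.sum_congr rfl fun c _ => ?_
    rw [List.sum_toFinset _ ((nodup_TL c (n - c)).filter _)]
  have hmem : ∀ x : (_ : ℕ) × List ℕ, x ∈ (Finset.Icc 2 n).sigma (fun c => ((TL c (n - c)).filter
        (fun r => decide (Even (n - (r.length + 1))))).toFinset) ↔
      2 ≤ x.1 ∧ TY n (x.1 :: x.2) ∧ Even (n - (x.1 :: x.2).length) := by
    rintro ⟨c, r⟩
    rw [Finset.mem_sigma, Finset.mem_Icc, List.mem_toFinset, List.mem_filter, mem_TL,
      decide_eq_true_eq, List.length_cons]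
    constructor
    · rintro ⟨⟨h1, h2⟩, ⟨h3, h4, h5⟩, h6⟩
      refine ⟨h1, ⟨?_, ?_, ?_, c, r, rfl, h1⟩, h6⟩
      · show (c :: r).sum = n
        rw [List.sum_cons, h3]
        show c + (n - c) = n
        have : c ≤ n := h2
        omega
      · intro x hx
        rcases List.mem_cons.1 hx with hxc | hx
        · have : 2 ≤ c := h1
          have hxc' : x = c := hxc
          omega
        · exact (h4 x hx).1
      · exact List.pairwise_cons.2 ⟨fun x hx => (h4 x hx).2, h5⟩
    · rintro ⟨h1, ⟨h2, h3, h4, -⟩, h6⟩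
      have h2' : c + r.sum = n := by
        rw [← List.sum_cons]
        exact h2
      have h4' := List.pairwise_cons.1 h4
      refine ⟨⟨h1, ?_⟩, ⟨?_, fun x hx => ⟨h3 x (List.mem_cons_of_mem _ hx), h4'.1 x hx⟩, h4'.2⟩, h6⟩
      · show c ≤ n
        omega
      · show r.sum = n - c
        omega
  rw [hR]
  symm
  refine Finset.sum_bij (fun x _ => ((x.1 :: x.2 : List ℕ) : Multiset ℕ).filter (fun y => 2 ≤ y))
    ?_ ?_ ?_ ?_
  · intro x hx
    rw [hmem] at hx
    obtain ⟨σ, h1, h2, h3, h4⟩ := perm14 hx.2.1 hx.2.2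
    unfold typesE
    rw [Finset.mem_image]
    exact ⟨σ, Finset.mem_filter.2 ⟨Finset.mem_univ _, h3, h4⟩, h1⟩
  · rintro ⟨c, r⟩ hx ⟨c', r'⟩ hy hxy
    rw [hmem] at hx hy
    have h1 := ones14 ((c :: r : List ℕ) : Multiset ℕ) (fun x h => hx.2.1.2.1 x h)
    have h2 := ones14 ((c' :: r' : List ℕ) : Multiset ℕ) (fun x h => hy.2.1.2.1 x h)
    have h3 : ((c :: r : List ℕ) : Multiset ℕ).sum = n := by
      rw [Multiset.sum_coe]
      exact hx.2.1.1
    have h4 : ((c' :: r' : List ℕ) : Multiset ℕ).sum = n := by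
      rw [Multiset.sum_coe]
      exact hy.2.1.1
    have hxy' : ((c :: r : List ℕ) : Multiset ℕ).filter (fun y => 2 ≤ y) =
      ((c' :: r' : List ℕ) : Multiset ℕ).filter (fun y => 2 ≤ y) := hxy
    rw [h3, hxy'] at h1
    rw [h4] at h2
    have h5 : ((c :: r : List ℕ) : Multiset ℕ) = ((c' :: r' : List ℕ) : Multiset ℕ) :=
      h1.symm.trans h2
    have h6 : (c :: r).Perm (c' :: r') := Multiset.coe_eq_coe.1 h5
    have h7 := h6.eq_of_pairwise (fun a b _ _ hab hba => le_antisymm hba hab) hx.2.1.2.2.1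
      hy.2.1.2.2.1
    have h8 : c = c' ∧ r = r' := List.cons.inj h7
    obtain ⟨rfl, rfl⟩ := h8
    rfl
  · intro τ hτ
    unfold typesE at hτ
    obtain ⟨σ, hσ, rfl⟩ := Finset.mem_image.1 hτ
    rw [Finset.mem_filter] at hσ
    obtain ⟨c, r, h1, h2, h3, h4⟩ := ty14 σ hσ.2.2 hσ.2.1
    refine ⟨⟨c, r⟩, (hmem _).2 ⟨h3, h1, ?_⟩, ?_⟩
    · rw [List.length_cons]
      exact h4
    · show ((c :: r : List ℕ) : Multiset ℕ).filter (fun y => 2 ≤ y) = σ.cycleType
      rw [h2, filt_ft14]
  · intro x hx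
    rw [hmem] at hx
    obtain ⟨σ, h1, h2, h3, h4⟩ := perm14 hx.2.1 hx.2.2
    have h5 := hg σ (x.1 :: x.2) hx.2.1 h2
    rw [← h5, h1]

end Pool.MP322F
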