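import Pool.Agent.Lib.MP_322c5f_alF.FB14

/-! The base table bounds `FS n J`. -/

set_option autoImplicit false

open Finset Equiv

namespace Pool.MP322F

open Pool.MP322

private theorem dok_get {w t : ℕ} (hw : t + 2 ≤ w) (fl : FL) (dl : LN) :
    datL w t fl dl = 0 → ∀ d, DOK w t fl (dl.get d) := by
  induction dl with
  | last g =>
    intro h d
    exact datG_sound hw fl g h
  | cons g rest ih =>
    intro h d
    have h' : datG w t fl g + monG w fl g (LN.get rest 0) + datL w t fl rest = 0 := h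
    cases d with
    | zero => exact datG_sound hw fl g (by omega)
    | succ d => exact ih (by omega) d

private theorem sort_ft {n : ℕ} (σ : Perm (Fin n)) :
    σ.cycleType + Multiset.replicate (n - σ.cycleType.sum) 1 = ft σ := by
  unfold ft
  rw [Perm.sum_cycleType]

private theorem sort_uniq (s : Multiset ℕ) (r : List ℕ) (hr : (r : Multiset ℕ) = s)
    (hp : r.Pairwise (fun a b => b ≤ a)) : s.sort (fun a b => b ≤ a) = r := by
  have h1 : (s.sort (fun a b => b ≤ a)).Pairwise (fun a b => b ≤ a) := Multiset.pairwise_sort s _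
  have h2 : ((s.sort (fun a b => b ≤ a) : List ℕ) : Multiset ℕ) = (r : Multiset ℕ) := by
    rw [Multiset.sort_eq, hr]
  have h3 : (s.sort (fun a b => b ≤ a)).Perm r := Multiset.coe_eq_coe.1 h2
  exact h3.eq_of_pairwise (fun a b _ _ hab hba => le_antisymm hba hab) h1 hp

private theorem ty_sort {n : ℕ} (σ : Perm (Fin n)) (hσ : σ ≠ 1) :
    TY n ((ft σ).sort (fun a b => b ≤ a)) := by
  have hp := Multiset.pairwise_sort (ft σ) (fun a b : ℕ => b ≤ a)
  refine ⟨?_, ?_, hp, ?_⟩
  · rw [← Multiset.sum_coe, Multiset.sort_eq, ft_sum]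
  · intro x hx
    exact ft_pos σ x ((Multiset.mem_sort _).1 hx)
  · obtain ⟨x, hx⟩ : ∃ x, x ∈ σ.cycleType := by
      apply Multiset.exists_mem_of_ne_zero
      rw [Ne, Perm.cycleType_eq_zero]
      exact hσ
    have hx2 : 2 ≤ x := Perm.two_le_of_mem_cycleType hx
    have hx3 : x ∈ (ft σ).sort (fun a b => b ≤ a) := by
      rw [Multiset.mem_sort]
      exact Multiset.mem_add.2 (Or.inl hx)
    cases hL : (ft σ).sort (fun a b => b ≤ a) with
    | nil => rw [hL] at hx3; exact absurd hx3 List.not_mem_nil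
    | cons c r' =>
      refine ⟨c, r', rfl, ?_⟩
      rw [hL] at hx3 hp
      rcases List.mem_cons.1 hx3 with h | h
      · omega
      · have := (List.pairwise_cons.1 hp).1 x h
        omega

private theorem sum_div_list (L : List (List ℕ)) (f : List ℕ → ℕ) (a : ℝ) :
    (L.map (fun r => (f r : ℝ) / a)).sum = (((L.map f).sum : ℕ) : ℝ) / a := by
  induction L with
  | nil => simp
  | cons r L ih =>
    rw [List.map_cons, List.sum_cons, List.map_cons, List.sum_cons, ih, Nat.cast_add, add_div]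

/-- MAIN: bounds of the base table -/
theorem base_sound {N n w t bnd : ℕ} (hN : N + n ≤ 128) (hN2 : N ≤ 80) (hn : n ≤ N)
    (hn2 : 2 ≤ n) (hw : t + 20 ≤ w) (hb : bnd ≤ 2 ^ (w - t - 3)) {fd1 : ℕ → Pr}
    (h1 : VOK N w 1 (n - 1) 1 fd1) (fl : FL) (hfl : FLok N n w 2 fl)
    (hlen : ∀ c ≤ n, (TL c (n - c)).length < 2 ^ 15) (dl : LN) (hdat : datL w t fl dl = 0)
    (hpar : parG w (2 ^ (N + 1) - 1 - 2 ^ (N - n)) fl = 0)
    (hck : enumN (leafB fd1 fl dl t n N bnd) (2 * n + 2) n n N 0 0 = 0) (J : ℕ) (hJ : 1 ≤ J) :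
    (FS n J : ℝ) ≤
      (sumG w (2 ^ (N + 1) - 1 - 2 ^ (N - n)) fl (dl.get (J - 1)) : ℝ) / 2 ^ t := by
  classical
  set D : NL := dl.get (J - 1) with hD
  have hDok : DOK w t fl D := dok_get (by omega) fl dl hdat (J - 1)
  set g : List ℕ → ℝ := fun r => (dgT n w fl D r : ℝ) / 2 ^ t with hg
  set g' : Multiset ℕ → ℝ := fun τ =>
    g ((τ + Multiset.replicate (n - τ.sum) 1).sort (fun a b => b ≤ a)) with hg'
  have hg0 : ∀ r, 0 ≤ g r := fun r => by rw [hg]; positivity
  have hsum := sum_typesE hn2 g g' (fun σ r hr hrσ => by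
    rw [hg']
    simp only
    rw [sort_ft σ, sort_uniq (ft σ) r hrσ hr.2.2.1])
  have hbound : ∀ τ ∈ typesE n, (sv n J τ : ℝ) ≤ g' τ := by
    intro τ hτ
    unfold typesE at hτ
    obtain ⟨σ, hσ, rfl⟩ := Finset.mem_image.1 hτ
    rw [Finset.mem_filter] at hσ
    have hTY := ty_sort σ hσ.2.2
    have hcoe : (((ft σ).sort (fun a b => b ≤ a) : List ℕ) : Multiset ℕ) = ft σ :=
      Multiset.sort_eq _ _
    have hgg : g' σ.cycleType = g ((ft σ).sort (fun a b => b ≤ a)) := by
      rw [hg']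
      simp only
      rw [sort_ft σ]
    have hle : sv n J σ.cycleType ≤ Real.toNNReal (g' σ.cycleType) := by
      unfold sv
      apply Finset.sup_le
      intro mu hmu
      rw [Finset.mem_filter] at hmu
      apply Real.toNNReal_le_toNNReal
      have hl := leafB_sound (Jm := 0) hN hN2 hn (by omega) (by omega) hb h1 fl hfl dl hdat hck J hJ mu
        hmu.2 _ hTY
      rw [← chi_tS mu hn σ _ hcoe] at hl
      rw [ty_cycleType, hgg, hg]
      have hf := fd_pos mu
      simp only
      rw [← neg_div, div_le_iff₀ hf]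
      have h3 : -(dgT n w fl D ((ft σ).sort (fun a b => b ≤ a)) : ℝ) / 2 ^ t * fd mu
        = -((dgT n w fl D ((ft σ).sort (fun a b => b ≤ a)) : ℝ) / 2 ^ t * fd mu) := by ring
      rw [h3] at hl
      linarith
    calc (sv n J σ.cycleType : ℝ) ≤ (Real.toNNReal (g' σ.cycleType) : ℝ) := by exact_mod_cast hle
      _ = g' σ.cycleType := Real.coe_toNNReal _ (by rw [hgg]; exact hg0 _)
  calc (FS n J : ℝ) = ∑ τ ∈ typesE n, (sv n J τ : ℝ) := by
        unfold FS
        push_cast
        rfl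
    _ ≤ ∑ τ ∈ typesE n, g' τ := Finset.sum_le_sum hbound
    _ = ∑ c ∈ Finset.Icc 2 n, (((TL c (n - c)).filter
        (fun r => decide (Even (n - (r.length + 1))))).map (fun r => g (c :: r))).sum := hsum
    _ = (sumG w (2 ^ (N + 1) - 1 - 2 ^ (N - n)) fl D : ℝ) / 2 ^ t := by
        rw [sumG_eq hN hN2 hn hw fl hfl hn2 hlen D hDok hpar, Nat.cast_sum, Finset.sum_div]
        apply Finset.sum_congr rfl
        intro c _
        rw [hg]
        exact sum_div_list _ (fun r => dgT n w fl D (c :: r)) (2 ^ t)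

end Pool.MP322F
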