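import Pool.Agent.Lib.MP_322c5f_alF.FB10

/-!
# Kernel functions for Kronecker coefficients

`wk` walks through the types in the order of `TL c j` and accumulates the numbers
`|C| χ(C)^2` in reversed order; `kchk` compares one slot of a product of two packed numbers.
-/

set_option autoImplicit false

namespace Pool.MP322F

/-- force two numbers to numerals -/
noncomputable def fo2 (f : ℕ → ℕ → Pr) (x y : ℕ) : Pr :=
  Nat.rec (motive := fun _ => Pr)
    (Nat.rec (motive := fun _ => Pr) (f 0 0) (fun b _ => f 0 (Nat.succ b)) y)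
    (fun a _ => Nat.rec (motive := fun _ => Pr) (f (Nat.succ a) 0)
      (fun b _ => f (Nat.succ a) (Nat.succ b)) y) x

theorem fo2_eq (f : ℕ → ℕ → Pr) (x y : ℕ) : fo2 f x y = f x y := by
  cases x <;> cases y <;> rfl

/-- force a number to a numeral -/
noncomputable def fo1 (f : ℕ → ℕ) (x : ℕ) : ℕ :=
  Nat.rec (motive := fun _ => ℕ) (f 0) (fun a _ => f (Nat.succ a)) x

theorem fo1_eq (f : ℕ → ℕ) (x : ℕ) : fo1 f x = f x := by
  cases x <;> rfl

/-- `|v - b|^2` -/
noncomputable def sqd (b v : ℕ) : ℕ :=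
  Nat.mul (Nat.add (Nat.sub v b) (Nat.sub b v)) (Nat.add (Nat.sub v b) (Nat.sub b v))

/-- one type: `D` the remaining digits, `A` the accumulated number; `z` the order of the
centralizer, `l` the parity number, `md = 1`: odd types do not count -/
noncomputable def lf (w nf md z l D A : ℕ) : Pr :=
  Pr.mk (Nat.shiftRight D w)
    (Nat.add (Nat.shiftLeft A w)
      (Nat.mul (Nat.mul (Nat.sub 1 (Nat.mul md (Nat.mod l 2))) (Nat.div nf z))
        (sqd (Nat.pow 2 (Nat.sub w 1)) (Nat.mod D (Nat.pow 2 w)))))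

/-- walk through `TL c j`; `m` = multiplicity of `c` so far -/
noncomputable def wk (w nf md : ℕ) (fl : ℕ) : ℕ → ℕ → ℕ → ℕ → ℕ → ℕ → ℕ → Pr :=
  Nat.rec (motive := fun _ => ℕ → ℕ → ℕ → ℕ → ℕ → ℕ → ℕ → Pr) (fun _ _ _ _ _ D A => Pr.mk D A)
    (fun _ ih c j m z l D A =>
      Nat.rec (motive := fun _ => Pr)
        (Nat.rec (motive := fun _ => Pr) (lf w nf md z l D A) (fun _ _ => Pr.mk D A) j)
        (fun c' _ =>
          Pr.rec (motive := fun _ => Pr) (fun D1 A1 =>
            fo2 (fun D2 A2 => Bool.rec (motive := fun _ => Pr) (Pr.mk D2 A2)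
              (ih (Nat.succ c') (Nat.sub j (Nat.succ c')) (Nat.succ m)
                (Nat.mul z (Nat.mul (Nat.succ c') (Nat.succ m))) (Nat.add l c') D2 A2)
              (Nat.ble (Nat.succ c') j)) D1 A1)
            (ih c' j 0 z l D A)) c)
    fl

/-- zero iff the slot `L - 1` of `A * (P + MM - Q)` is at least `SM` -/
noncomputable def kchk (w L : ℕ) (f : ℕ → Pr) (A SM MM key : ℕ) : ℕ :=
  Pr.rec (motive := fun _ => ℕ) (fun P Q =>
    Nat.sub SM (Nat.mod (Nat.shiftRight (Nat.mul A (Nat.sub (Nat.add P MM) Q))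
      (Nat.mul w (Nat.sub L 1))) (Nat.pow 2 w))) (f key)

/-- check of one diagram `lam` (key `kl`) against what `g` asks for -/
noncomputable def kall (w L n nf md M : ℕ) (f : ℕ → Pr) (g : ℕ → ℕ → ℕ → ℕ) (kl : ℕ) : ℕ :=
  Pr.rec (motive := fun _ => ℕ) (fun P Q =>
    Pr.rec (motive := fun _ => ℕ) (fun _ A0 =>
      fo1 (fun A => fo1 (fun SM => fo1 (fun MM => g A SM MM) (Nat.mul M (mkk w 0 L)))
        (Nat.succ (Nat.mul M (Nat.mod A (Nat.sub (Nat.pow 2 w) 1))))) A0)
      (wk w nf md (Nat.add (Nat.mul 2 n) 2) n n 0 1 0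
        (Nat.sub (Nat.add P (mkk w (Nat.sub w 1) L)) Q) 0)) (f kl)

/-- all diagrams -/
noncomputable def kfull (w L n N nf md M : ℕ) (f : ℕ → Pr) (kl : ℕ) : ℕ :=
  kall w L n nf md M f (fun A SM MM =>
    enumN (fun key _ => kchk w L f A SM MM key) (Nat.add (Nat.mul 2 n) 2) n n N 0 0) kl

/-- a list of diagrams -/
noncomputable def klist (w L n nf md M : ℕ) (f : ℕ → Pr) (ks : NL) (kl : ℕ) : ℕ :=
  kall w L n nf md M f (fun A SM MM =>
    NL.rec (motive := fun _ => ℕ) 0 (fun key _ ih => Nat.add (kchk w L f A SM MM key) ih) ks) kl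

end Pool.MP322F
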