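import Pool.Agent.Lib.MP_322c5f_alF.FB20
import Pool.Agent.Lib.MP_322c5f_alF.FB03

/-! Semantics of the walk through the types. -/

set_option autoImplicit false

open Finset

namespace Pool.MP322F

open Pool.MP322

/-- order of the centralizer, relative to a multiplicity `m` of `c` -/
def zr : ℕ → ℕ → List ℕ → ℕ
  | _, _, [] => 1
  | c, m, a :: r =>
      if a = c then a * (m + 1) * zr a (m + 1) r else a * zr a 1 r

/-- parity number -/
def pr (r : List ℕ) : ℕ := (r.map (fun a => a - 1)).sum

/-- the data of the leaves -/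
def WL : ℕ → ℕ → ℕ → ℕ → ℕ → List (ℕ × ℕ)
  | 0, 0, _, z, l => [(z, l)]
  | 0, _ + 1, _, _, _ => []
  | c + 1, j, m, z, l => WL c j 0 z l ++
      (if h : c + 1 ≤ j then WL (c + 1) (j - (c + 1)) (m + 1) (z * ((c + 1) * (m + 1))) (l + c)
        else [])
termination_by c j => (c, j)
decreasing_by
  all_goals simp_wf
  all_goals omega

theorem zr_succ {c m : ℕ} {r : List ℕ} (h : ∀ x ∈ r, x ≤ c) : zr (c + 1) m r = zr c 0 r := by
  cases r with
  | nil => rfl
  | cons a r =>
    have ha := h a (List.mem_cons_self ..)
    unfold zr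
    rw [if_neg (by omega)]
    split_ifs with h1
    · subst h1
      simp
    · rfl

theorem WL_eq : ∀ c j m z l : ℕ, WL c j m z l =
    (TL c j).map (fun r => (z * zr c m r, l + pr r)) := by
  intro c
  induction c with
  | zero =>
    intro j m z l
    cases j with
    | zero => rw [WL, TL]; simp [zr, pr]
    | succ j => rw [WL, TL]; rfl
  | succ c ihc =>
    intro j
    induction j using Nat.strong_induction_on with
    | _ j ihj =>
      intro m z l
      rw [WL, TL, List.map_append, ihc]
      congr 1
      · refine List.map_congr_left fun r hr => ?_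
        rw [zr_succ fun x hx => ((mem_TL.1 hr).2.1 x hx).2]
      · split_ifs with h
        · rw [ihj _ (by omega), List.map_map]
          refine List.map_congr_left fun r _ => ?_
          simp only [Function.comp_apply]
          rw [zr, if_pos rfl]
          refine Prod.ext ?_ ?_
          · show z * ((c + 1) * (m + 1)) * zr (c + 1) (m + 1) r =
              z * ((c + 1) * (m + 1) * zr (c + 1) (m + 1) r)
            ring
          · show l + c + pr r = l + pr ((c + 1) :: r)
            unfold pr
            rw [List.map_cons, List.sum_cons, Nat.add_sub_cancel]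
            ring
        · rfl

/-- weight of a leaf -/
def wt (nf md : ℕ) (p : ℕ × ℕ) : ℕ := (1 - md * (p.2 % 2)) * (nf / p.1)

/-- one step -/
noncomputable def stp (w nf md : ℕ) (s : ℕ × ℕ) (p : ℕ × ℕ) : ℕ × ℕ :=
  (s.1 >>> w, (s.2 <<< w) + wt nf md p * sqd (2 ^ (w - 1)) (s.1 % 2 ^ w))

theorem wk_eq (w nf md : ℕ) : ∀ (fl c j m z l D A : ℕ), c + j + 1 ≤ fl →
    wk w nf md fl c j m z l D A =
      Pr.mk ((WL c j m z l).foldl (stp w nf md) (D, A)).1
        ((WL c j m z l).foldl (stp w nf md) (D, A)).2 := by
  intro fl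
  induction fl with
  | zero => intro c j m z l D A h; omega
  | succ fl ih =>
    intro c j m z l D A h
    cases c with
    | zero =>
      cases j with
      | zero =>
        rw [WL]
        rfl
      | succ j =>
        rw [WL]
        rfl
    | succ c =>
      have h1 := ih c j 0 z l D A (by omega)
      have h0 : wk w nf md (fl + 1) (c + 1) j m z l D A =
          Pr.rec (motive := fun _ => Pr) (fun D1 A1 =>
            fo2 (fun D2 A2 => Bool.rec (motive := fun _ => Pr) (Pr.mk D2 A2)
              (wk w nf md fl (Nat.succ c) (Nat.sub j (Nat.succ c)) (Nat.succ m)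
                (Nat.mul z (Nat.mul (Nat.succ c) (Nat.succ m))) (Nat.add l c) D2 A2)
              (Nat.ble (Nat.succ c) j)) D1 A1)
            (wk w nf md fl c j 0 z l D A) := rfl
      rw [h0, h1, WL, List.foldl_append]
      show fo2 _ _ _ = _
      rw [fo2_eq]
      set s := (WL c j 0 z l).foldl (stp w nf md) (D, A) with hs
      by_cases hcj : c + 1 ≤ j
      · rw [dif_pos hcj, Nat.ble_eq_true_of_le (show Nat.succ c ≤ j from hcj)]
        show wk w nf md fl (c + 1) (j - (c + 1)) (m + 1) (z * ((c + 1) * (m + 1))) (l + c) s.1 s.2 = _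
        rw [ih _ _ _ _ _ _ _ (by omega)]
      · rw [dif_neg hcj]
        have : Nat.ble (Nat.succ c) j = false := by
          cases hb : Nat.ble (Nat.succ c) j with
          | false => rfl
          | true => exact absurd (Nat.le_of_ble_eq_true hb) hcj
        rw [this]
        rfl

/-- the accumulated number -/
theorem foldl_stp (w nf md : ℕ) : ∀ (ps : List (ℕ × ℕ)) (D A : ℕ),
    (ps.foldl (stp w nf md) (D, A)).2 = A * 2 ^ (w * ps.length) +
      ∑ i ∈ range ps.length, wt nf md (ps.getD i (0, 0)) *
        sqd (2 ^ (w - 1)) ((D >>> (w * i)) % 2 ^ w) * 2 ^ (w * (ps.length - 1 - i)) := by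
  intro ps
  induction ps with
  | nil => intro D A; simp
  | cons p ps ih =>
    intro D A
    rw [List.foldl_cons]
    have h0 : stp w nf md (D, A) p =
      (D >>> w, (A <<< w) + wt nf md p * sqd (2 ^ (w - 1)) (D % 2 ^ w)) := rfl
    rw [h0, ih, List.length_cons, Finset.sum_range_succ', Nat.shiftLeft_eq]
    have h1 : ∑ i ∈ range ps.length, wt nf md ((p :: ps).getD (i + 1) (0, 0)) *
        sqd (2 ^ (w - 1)) ((D >>> (w * (i + 1))) % 2 ^ w) *
          2 ^ (w * (ps.length + 1 - 1 - (i + 1))) =
        ∑ i ∈ range ps.length, wt nf md (ps.getD i (0, 0)) *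
        sqd (2 ^ (w - 1)) (((D >>> w) >>> (w * i)) % 2 ^ w) * 2 ^ (w * (ps.length - 1 - i)) := by
      refine Finset.sum_congr rfl fun i hi => ?_
      rw [List.getD_cons_succ, ← Nat.shiftRight_add, Nat.mul_add, Nat.mul_one, Nat.add_comm w,
        show ps.length + 1 - 1 - (i + 1) = ps.length - 1 - i by omega]
    rw [h1, List.getD_cons_zero, Nat.mul_zero, Nat.shiftRight_zero,
      show ps.length + 1 - 1 - 0 = ps.length by omega, Nat.mul_add, Nat.mul_one, pow_add]
    ring

end Pool.MP322F
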