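import Pool.Agent.Lib.MP_322c5f_alF.FB21
import Pool.Agent.Lib.MP_322c5f_alF.FA06

/-! Class sizes; sums over the group as sums over the types. -/

set_option autoImplicit false

open Finset Equiv Nat

namespace Pool.MP322F

open Pool.MP322

theorem zr_mul : ∀ (r : List ℕ) (c m : ℕ), r.Pairwise (fun a b => b ≤ a) → (∀ x ∈ r, x ≤ c) →
    zr c m r * m ! = (r : Multiset ℕ).prod * ((m + (r : Multiset ℕ).count c)! *
      ∏ d ∈ (r : Multiset ℕ).toFinset.erase c, ((r : Multiset ℕ).count d)!) := by
  intro r
  induction r with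
  | nil => intro c m _ _; simp [zr]
  | cons a r ih =>
    intro c m h hc
    obtain ⟨h1, h2⟩ := List.pairwise_cons.1 h
    rw [← Multiset.cons_coe, Multiset.prod_cons, Multiset.toFinset_cons]
    by_cases hac : a = c
    · subst hac
      have h3 := ih a (m + 1) h2 h1
      rw [Nat.factorial_succ] at h3
      have h4 : (insert a (r : Multiset ℕ).toFinset).erase a = (r : Multiset ℕ).toFinset.erase a := by
        rw [Finset.erase_insert_eq_erase]
      have h5 : ∏ d ∈ (r : Multiset ℕ).toFinset.erase a, ((a ::ₘ (r : Multiset ℕ)).count d)! =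
          ∏ d ∈ (r : Multiset ℕ).toFinset.erase a, ((r : Multiset ℕ).count d)! := by
        refine Finset.prod_congr rfl fun d hd => ?_
        rw [Multiset.count_cons_of_ne (Finset.ne_of_mem_erase hd)]
      rw [h4, h5, Multiset.count_cons_self, zr, if_pos rfl,
        show m + ((r : Multiset ℕ).count a + 1) = m + 1 + (r : Multiset ℕ).count a by ring]
      calc a * (m + 1) * zr a (m + 1) r * m ! = a * (zr a (m + 1) r * ((m + 1) * m !)) := by ring
        _ = _ := by rw [h3]; ring
    · have hlt : a < c := lt_of_le_of_ne (hc a (List.mem_cons_self ..)) hac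
      have h3 := ih a 1 h2 h1
      rw [Nat.factorial_one, Nat.mul_one] at h3
      have hcr : (r : Multiset ℕ).count c = 0 := by
        rw [Multiset.count_eq_zero, Multiset.mem_coe]
        intro hm
        have := h1 c hm
        omega
      have h4 : (insert a (r : Multiset ℕ).toFinset).erase c = insert a ((r : Multiset ℕ).toFinset.erase a) := by
        ext d
        rw [Finset.mem_erase, Finset.mem_insert, Finset.mem_insert, Finset.mem_erase]
        constructor
        · rintro ⟨_, h | h⟩
          · exact Or.inl h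
          · by_cases hd : d = a
            · exact Or.inl hd
            · exact Or.inr ⟨hd, h⟩
        · rintro (h | ⟨_, h⟩)
          · exact ⟨by omega, Or.inl h⟩
          · refine ⟨fun hd => ?_, Or.inr h⟩
            rw [Multiset.mem_toFinset, Multiset.mem_coe] at h
            have := h1 d h
            omega
      have h5 : ∏ d ∈ (r : Multiset ℕ).toFinset.erase a, ((a ::ₘ (r : Multiset ℕ)).count d)! =
          ∏ d ∈ (r : Multiset ℕ).toFinset.erase a, ((r : Multiset ℕ).count d)! := by
        refine Finset.prod_congr rfl fun d hd => ?_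
        rw [Multiset.count_cons_of_ne (Finset.ne_of_mem_erase hd)]
      rw [h4, Finset.prod_insert (Finset.notMem_erase _ _), h5, Multiset.count_cons_self,
        Multiset.count_cons_of_ne (Ne.symm hac), hcr, Nat.add_zero, zr, if_neg hac, h3,
        Nat.add_comm 1]
      ring

/-- order of the centralizer -/
theorem zr_eq {n : ℕ} {r : List ℕ} (hr : r ∈ TL n n) : zr n 0 r = (r : Multiset ℕ).prod *
    ∏ d ∈ (r : Multiset ℕ).toFinset, ((r : Multiset ℕ).count d)! := by
  obtain ⟨h1, h2, h3⟩ := mem_TL.1 hr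
  have h4 := zr_mul r n 0 h3 fun x hx => (h2 x hx).2
  rw [Nat.factorial_zero, Nat.mul_one, Nat.zero_add] at h4
  rw [h4]
  congr 1
  by_cases hn : n ∈ (r : Multiset ℕ).toFinset
  · exact Finset.mul_prod_erase (r : Multiset ℕ).toFinset
      (fun d => ((r : Multiset ℕ).count d)!) hn
  · rw [Finset.erase_eq_of_notMem hn, Multiset.count_eq_zero.2 (fun h => hn (Multiset.mem_toFinset.2 h)),
      Nat.factorial_zero, Nat.one_mul]

theorem ft_filter' {n : ℕ} (σ : Perm (Fin n)) :
    (ft σ).filter (fun c => 2 ≤ c) = σ.cycleType := by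
  unfold ft
  have h2 : (Multiset.replicate (n - σ.support.card) 1).filter (fun c => 2 ≤ c) = 0 := by
    refine Multiset.filter_eq_nil.2 fun a h => ?_
    have := Multiset.eq_of_mem_replicate h
    omega
  rw [Multiset.filter_add, Multiset.filter_eq_self.2 fun _ h => Perm.two_le_of_mem_cycleType h,
    h2, add_zero]

/-- the two parts of a type -/
theorem ft_iff {n : ℕ} {r : List ℕ} (hr : r ∈ TL n n) (σ : Perm (Fin n)) :
    ft σ = (r : Multiset ℕ) ↔ σ.cycleType = (r : Multiset ℕ).filter (fun c => 2 ≤ c) := by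
  obtain ⟨h1, h2, h3⟩ := mem_TL.1 hr
  constructor
  · intro h
    rw [← h]
    exact (ft_filter' σ).symm
  · intro h
    obtain ⟨τ, hτ⟩ := exists_ft (n := n) (r : Multiset ℕ) (by rw [Multiset.sum_coe]; exact h1)
      (fun c hc => (h2 c (Multiset.mem_coe.1 hc)).1)
    have h4 : σ.cycleType = τ.cycleType := by
      rw [h, ← hτ]
      exact ft_filter' τ
    rw [← hτ]
    unfold ft
    rw [h4, ← Perm.sum_cycleType, h4, Perm.sum_cycleType]

/-- size of a class -/
theorem card_ft {n : ℕ} {r : List ℕ} (hr : r ∈ TL n n) :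
    (Finset.univ.filter (fun σ : Perm (Fin n) => ft σ = (r : Multiset ℕ))).card * zr n 0 r = n ! := by
  obtain ⟨h1, h2, h3⟩ := mem_TL.1 hr
  set m := (r : Multiset ℕ).filter (fun c => 2 ≤ c) with hm
  set o := (r : Multiset ℕ).filter (fun c => ¬ 2 ≤ c) with ho
  have hsplit : m + o = (r : Multiset ℕ) := Multiset.filter_add_not _ _
  have ho1 : o = Multiset.replicate o.card 1 := by
    rw [Multiset.eq_replicate]
    refine ⟨rfl, fun b hb => ?_⟩
    have h4 := Multiset.mem_filter.1 hb
    have h5 := (h2 b (Multiset.mem_coe.1 h4.1)).1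
    omega
  have hsum : m.sum + o.card = n := by
    have h4 := congrArg Multiset.sum hsplit
    rw [Multiset.sum_add, Multiset.sum_coe, h1] at h4
    rw [ho1, Multiset.sum_replicate] at h4
    simpa using h4
  have h6 := Perm.card_of_cycleType_mul_eq (α := Fin n) m
  rw [if_pos ⟨by rw [Fintype.card_fin]; omega, fun a ha => (Multiset.mem_filter.1 ha).2⟩,
    Fintype.card_fin, show n - m.sum = o.card by omega] at h6
  have h7 : Finset.univ.filter (fun σ : Perm (Fin n) => ft σ = (r : Multiset ℕ)) =
      Finset.univ.filter (fun σ : Perm (Fin n) => σ.cycleType = m) :=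
    Finset.filter_congr fun σ _ => ft_iff hr σ
  rw [h7, ← h6, zr_eq hr]
  congr 1
  have h8 : (r : Multiset ℕ).prod = m.prod := by
    rw [← hsplit, Multiset.prod_add, ho1, Multiset.prod_replicate, one_pow, Nat.mul_one]
  have h9 : ∏ d ∈ (r : Multiset ℕ).toFinset, ((r : Multiset ℕ).count d)! =
      (o.card)! * ∏ d ∈ m.toFinset, (m.count d)! := by
    have h10 : ∀ d, 2 ≤ d → (r : Multiset ℕ).count d = m.count d := by
      intro d hd
      rw [hm, Multiset.count_filter_of_pos hd]
    have h11 : (r : Multiset ℕ).count 1 = o.card := by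
      rw [← hsplit, Multiset.count_add, hm, Multiset.count_filter_of_neg (by norm_num), Nat.zero_add]
      nth_rewrite 1 [ho1]
      rw [Multiset.count_replicate_self]
    have h12 : (r : Multiset ℕ).toFinset ⊆ insert 1 m.toFinset := by
      intro d hd
      rw [Multiset.mem_toFinset] at hd
      have h13 := (h2 d (Multiset.mem_coe.1 hd)).1
      rw [Finset.mem_insert, Multiset.mem_toFinset]
      by_cases h14 : d = 1
      · exact Or.inl h14
      · exact Or.inr (Multiset.mem_filter.2 ⟨hd, by omega⟩)
    have h15 : (1 : ℕ) ∉ m.toFinset := by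
      rw [Multiset.mem_toFinset]
      intro h
      have := (Multiset.mem_filter.1 h).2
      omega
    rw [Finset.prod_subset h12 (fun d _ hd => ?_), Finset.prod_insert h15, h11]
    · congr 1
      refine Finset.prod_congr rfl fun d hd => ?_
      rw [h10 d (Multiset.mem_filter.1 (Multiset.mem_toFinset.1 hd)).2]
    · rw [Multiset.count_eq_zero.2 (fun h => hd (Multiset.mem_toFinset.2 h)), Nat.factorial_zero]
  rw [h8, h9]
  ring

/-- sums over the group -/
theorem sum_ft {n : ℕ} (G : Multiset ℕ → ℝ) : ∑ σ : Perm (Fin n), G (ft σ) =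
    ((TL n n).map (fun r : List ℕ => ((n ! / zr n 0 r : ℕ) : ℝ) * G (r : Multiset ℕ))).sum := by
  classical
  have hsum : ∀ σ : Perm (Fin n), (ft σ).sum = n := ft_sum
  have hpos : ∀ σ : Perm (Fin n), ∀ c ∈ ft σ, 1 ≤ c := ft_pos
  have h1 : ∀ σ : Perm (Fin n), (ft σ).sort (· ≥ ·) ∈ TL n n := by
    intro σ
    rw [mem_TL]
    refine ⟨?_, fun x hx => ?_, Multiset.pairwise_sort _ _⟩
    · rw [← Multiset.sum_coe, Multiset.sort_eq, hsum]
    · rw [Multiset.mem_sort] at hx
      exact ⟨hpos σ x hx, by rw [← hsum σ]; exact Multiset.le_sum_of_mem hx⟩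
  have h2 : ∑ σ : Perm (Fin n), G (ft σ) = ∑ r ∈ (TL n n).toFinset,
      ∑ σ ∈ Finset.univ.filter (fun σ : Perm (Fin n) => (ft σ).sort (· ≥ ·) = r), G (ft σ) :=
    (Finset.sum_fiberwise_of_maps_to (fun σ _ => List.mem_toFinset.2 (h1 σ)) _).symm
  rw [h2, List.sum_toFinset _ (nodup_TL n n)]
  refine congrArg List.sum (List.map_congr_left fun r hr => ?_)
  have h3 : Finset.univ.filter (fun σ : Perm (Fin n) => (ft σ).sort (· ≥ ·) = r) =
      Finset.univ.filter (fun σ : Perm (Fin n) => ft σ = (r : Multiset ℕ)) := by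
    refine Finset.filter_congr fun σ _ => ?_
    constructor
    · intro h
      rw [← h, Multiset.sort_eq]
    · intro h
      rw [h]
      exact List.mergeSort_eq_self _ (by
        have h4 := (mem_TL.1 hr).2.2
        exact h4)
  rw [h3]
  have h4 : ∀ σ ∈ Finset.univ.filter (fun σ : Perm (Fin n) => ft σ = (r : Multiset ℕ)),
      G (ft σ) = G (r : Multiset ℕ) := fun σ hσ => by rw [(Finset.mem_filter.1 hσ).2]
  rw [Finset.sum_congr rfl h4, Finset.sum_const, nsmul_eq_mul]
  congr 2
  have h5 := card_ft hr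
  have h6 : 0 < zr n 0 r := by
    rcases Nat.eq_zero_or_pos (zr n 0 r) with h | h
    · rw [h, Nat.mul_zero] at h5
      exact absurd h5.symm (Nat.factorial_ne_zero n)
    · exact h
  rw [← h5, Nat.mul_div_cancel _ h6]

end Pool.MP322F
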