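import Pool.Agent.Lib.MP_322c5f_alF.FB05

/-! The middle slot of a product of packed numbers. -/

set_option autoImplicit false

open Finset

namespace Pool.MP322F

private theorem sum_split23 (w m : ℕ) (e : ℕ → ℕ) :
    ∑ j ∈ Finset.range (m + 1), e j * 2 ^ (w * j) =
      2 ^ w * (∑ j ∈ Finset.range m, e (j + 1) * 2 ^ (w * j)) + e 0 := by
  rw [Finset.sum_range_succ', Finset.mul_sum]
  simp only [mul_zero, pow_zero, mul_one]
  congr 1
  refine Finset.sum_congr rfl fun j _ => ?_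
  rw [mul_add, mul_one, pow_add]
  ring

private theorem shr_succ23 (w i x : ℕ) : x >>> (w * (i + 1)) = (x / 2 ^ w) >>> (w * i) := by
  rw [Nat.shiftRight_eq_div_pow, Nat.shiftRight_eq_div_pow, Nat.div_div_eq_div_mul, mul_add,
    mul_one, pow_add, mul_comm (2 ^ (w * i))]

private theorem dig23 {w : ℕ} : ∀ (m : ℕ) (e : ℕ → ℕ), (∀ i < m, e i < 2 ^ w) → ∀ i < m,
    ((∑ j ∈ Finset.range m, e j * 2 ^ (w * j)) >>> (w * i)) % 2 ^ w = e i := by
  intro m
  induction m with
  | zero => exact fun e _ i hi => absurd hi (Nat.not_lt_zero i)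
  | succ m ih =>
    intro e he i hi
    have h0 : e 0 < 2 ^ w := he 0 (Nat.succ_pos m)
    rw [sum_split23]
    rcases i with _ | i
    · rw [mul_zero, Nat.shiftRight_zero, Nat.mul_add_mod, Nat.mod_eq_of_lt h0]
    · rw [shr_succ23, Nat.mul_add_div (by positivity), Nat.div_eq_of_lt h0, add_zero]
      exact ih (fun j => e (j + 1)) (fun j hj => he (j + 1) (Nat.succ_lt_succ hj)) i
        (Nat.lt_of_succ_lt_succ hi)

/-- the coefficients of the product -/
private def ee (L : ℕ) (a b : ℕ → ℕ) (k : ℕ) : ℕ :=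
  ∑ p ∈ (range L ×ˢ range L).filter (fun p => L - 1 - p.1 + p.2 = k), a p.1 * b p.2

private theorem prod_eq23 (w L : ℕ) (a b : ℕ → ℕ) :
    (∑ i ∈ range L, a i * 2 ^ (w * (L - 1 - i))) * (∑ j ∈ range L, b j * 2 ^ (w * j)) =
      ∑ k ∈ range (2 * L), ee L a b k * 2 ^ (w * k) := by
  rw [Finset.sum_mul_sum, ← Finset.sum_product']
  rw [← Finset.sum_fiberwise_of_maps_to (s := range L ×ˢ range L) (t := range (2 * L))
    (g := fun p => L - 1 - p.1 + p.2)]
  · refine Finset.sum_congr rfl fun k _ => ?_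
    unfold ee
    rw [Finset.sum_mul]
    refine Finset.sum_congr rfl fun p hp => ?_
    have h := (Finset.mem_filter.1 hp).2
    rw [← h, mul_add, pow_add]
    ring
  · intro p hp
    rw [Finset.mem_product, Finset.mem_range, Finset.mem_range] at hp
    rw [Finset.mem_range]
    omega

private theorem ee_le {L : ℕ} (a b : ℕ → ℕ) {Bm : ℕ} (hb : ∀ i < L, b i ≤ Bm) (k : ℕ) :
    ee L a b k ≤ (∑ i ∈ range L, a i) * Bm := by
  unfold ee
  have h1 : ∑ p ∈ (range L ×ˢ range L).filter (fun p => L - 1 - p.1 + p.2 = k), a p.1 * b p.2 ≤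
      ∑ p ∈ (range L ×ˢ range L).filter (fun p => L - 1 - p.1 + p.2 = k), a p.1 * Bm := by
    refine Finset.sum_le_sum fun p hp => ?_
    have h := (Finset.mem_filter.1 hp).1
    rw [Finset.mem_product, Finset.mem_range, Finset.mem_range] at h
    exact Nat.mul_le_mul_left _ (hb _ h.2)
  refine h1.trans ?_
  rw [← Finset.sum_mul]
  refine Nat.mul_le_mul_right _ ?_
  have h2 : ∑ p ∈ (range L ×ˢ range L).filter (fun p => L - 1 - p.1 + p.2 = k), a p.1 =
      ∑ i ∈ ((range L ×ˢ range L).filter (fun p => L - 1 - p.1 + p.2 = k)).image Prod.fst, a i := by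
    rw [Finset.sum_image]
    intro p hp q hq hpq
    have h3 := (Finset.mem_filter.1 hp).2
    have h4 := (Finset.mem_filter.1 hq).2
    have h5 : p.1 = q.1 := hpq
    rw [h5] at h3
    exact Prod.ext h5 (by omega)
  rw [h2]
  refine Finset.sum_le_sum_of_subset fun i hi => ?_
  rw [Finset.mem_image] at hi
  obtain ⟨p, hp, rfl⟩ := hi
  have h := (Finset.mem_filter.1 hp).1
  rw [Finset.mem_product] at h
  exact h.1

private theorem ee_mid {L : ℕ} (a b : ℕ → ℕ) :
    ee L a b (L - 1) = ∑ i ∈ range L, a i * b i := by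
  unfold ee
  have h1 : (range L ×ˢ range L).filter (fun p => L - 1 - p.1 + p.2 = L - 1) =
      (range L).image (fun i => (i, i)) := by
    ext p
    rw [Finset.mem_filter, Finset.mem_product, Finset.mem_range, Finset.mem_range, Finset.mem_image]
    constructor
    · rintro ⟨⟨h1, h2⟩, h3⟩
      exact ⟨p.1, Finset.mem_range.2 h1, Prod.ext rfl (by show p.1 = p.2; omega)⟩
    · rintro ⟨i, hi, rfl⟩
      rw [Finset.mem_range] at hi
      exact ⟨⟨hi, hi⟩, by show L - 1 - i + i = L - 1; omega⟩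
  rw [h1, Finset.sum_image]
  intro i _ j _ h
  exact (Prod.ext_iff.1 h).1

theorem slot_mul {w L : ℕ} (hL : 1 ≤ L) (a b : ℕ → ℕ) {Bm : ℕ} (hb : ∀ i < L, b i ≤ Bm)
    (ha : (∑ i ∈ range L, a i) * Bm < 2 ^ w) :
    (((∑ i ∈ range L, a i * 2 ^ (w * (L - 1 - i))) *
      (∑ j ∈ range L, b j * 2 ^ (w * j))) >>> (w * (L - 1))) % 2 ^ w =
      ∑ i ∈ range L, a i * b i := by
  rw [prod_eq23, dig23 (2 * L) _ (fun i _ => (ee_le a b hb i).trans_lt ha) (L - 1) (by omega),
    ee_mid]

/-- the digit sum of a number with reversed digits -/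
theorem digit_sum_rev {w L : ℕ} (hw : 1 ≤ w) (a : ℕ → ℕ) (hs : ∑ i ∈ range L, a i < 2 ^ w - 1) :
    (∑ i ∈ range L, a i * 2 ^ (w * (L - 1 - i))) % (2 ^ w - 1) = ∑ i ∈ range L, a i := by
  have h1 : ∑ i ∈ range L, a i * 2 ^ (w * (L - 1 - i)) =
      ∑ i ∈ range L, a (L - 1 - i) * 2 ^ (w * i) := by
    rw [← Finset.sum_range_reflect]
    refine Finset.sum_congr rfl fun i hi => ?_
    rw [Finset.mem_range] at hi
    rw [show L - 1 - (L - 1 - i) = i by omega]
  have h2 : ∑ i ∈ range L, a (L - 1 - i) = ∑ i ∈ range L, a i :=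
    Finset.sum_range_reflect a L
  rw [h1, digit_sum_mod hw L (fun i => a (L - 1 - i)) (by rw [h2]; exact hs), h2]

end Pool.MP322F
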