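import Pool.Agent.Lib.MP_322c5f_alF.FB22
import Pool.Agent.Lib.MP_322c5f_alF.FB23
import Pool.Agent.Lib.MP_322c5f_alF.FB11
import Pool.Agent.Lib.MP_322c5f_al.Orth

/-! Soundness of the Kronecker check: from the kernel functions to sums over types. -/

set_option autoImplicit false

open Finset Equiv Nat

namespace Pool.MP322F

open Pool.MP322

theorem sum_chi_sq {n : ℕ} (lam : Y n) : ∑ σ : Perm (Fin n), chi lam σ ^ 2 = (n ! : ℝ) := by
  have h1 : ∀ σ : Perm (Fin n), chi lam σ ^ 2 =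
      ∑ a, ∑ c, rep ⊥ lam.1 n σ a a * rep ⊥ lam.1 n σ c c := by
    intro σ
    unfold chi Matrix.trace
    simp only [Matrix.diag_apply]
    rw [sq, Finset.sum_mul_sum]
  simp only [h1]
  rw [Finset.sum_comm]
  have h2 : ∀ a : Tab ⊥ lam.1 n, ∑ σ : Perm (Fin n), ∑ c, rep ⊥ lam.1 n σ a a * rep ⊥ lam.1 n σ c c =
      (n ! : ℝ) / fd lam := by
    intro a
    rw [Finset.sum_comm]
    have h3 : ∀ c : Tab ⊥ lam.1 n, ∑ σ : Perm (Fin n), rep ⊥ lam.1 n σ a a * rep ⊥ lam.1 n σ c c =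
        if a = c then (n ! : ℝ) / fd lam else 0 := by
      intro c
      rw [schur_orth_same]
      simp
    simp only [h3]
    rw [Finset.sum_ite_eq, if_pos (Finset.mem_univ _)]
  simp only [h2]
  rw [Finset.sum_const, Finset.card_univ, nsmul_eq_mul]
  have hf := fd_pos lam
  change fd lam * _ = _
  field_simp

theorem fd_sq_le {n : ℕ} (lam : Y n) : fd lam ^ 2 ≤ (n ! : ℝ) := by
  rw [← sum_sq n]
  exact Finset.single_le_sum (f := fun lam : Y n => fd lam ^ 2) (fun _ _ => sq_nonneg _)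
    (Finset.mem_univ lam)

/-- the values of a character, from a set of beads -/
theorem exists_type {n N : ℕ} (mu : Y n) (hn : n ≤ N) {r : List ℕ} (hr : r ∈ TL n n) :
    ∃ σ : Perm (Fin n), ft σ = (r : Multiset ℕ) ∧
      chi mu σ = (tS (r : Multiset ℕ) (bS N mu.1) : ℝ) := by
  obtain ⟨h1, h2, h3⟩ := mem_TL.1 hr
  obtain ⟨σ, hσ⟩ := exists_ft (n := n) (r : Multiset ℕ) (by rw [Multiset.sum_coe]; exact h1)
    (fun c hc => (h2 c (Multiset.mem_coe.1 hc)).1)
  exact ⟨σ, hσ, chi_tS mu hn σ r hσ.symm⟩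

theorem tS_le {n N M : ℕ} (mu : Y n) (hn : n ≤ N) (hM : n ! ≤ M ^ 2) {r : List ℕ}
    (hr : r ∈ TL n n) : |tS (r : Multiset ℕ) (bS N mu.1)| ≤ M := by
  obtain ⟨σ, -, h⟩ := exists_type mu hn hr
  have h1 := abs_chi_le mu σ
  have h2 := fd_sq_le mu
  have h3 : (n ! : ℝ) ≤ (M : ℝ) ^ 2 := by exact_mod_cast hM
  have h4 : fd mu ≤ M := abs_le_of_sq_le_sq' (h2.trans h3) (by positivity) |>.2
  rw [h] at h1
  have h5 := h1.trans h4
  exact_mod_cast h5

/-- packing as a sum -/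
theorem pk_eq_sum (w : ℕ) (l : List ℤ) :
    pk w l = ∑ i ∈ range l.length, l.getD i 0 * 2 ^ (w * i) := by
  induction l with
  | nil => simp [pk]
  | cons a l ih =>
    have h1 : pk w (a :: l) = a + 2 ^ w * pk w l := rfl
    rw [h1, ih, List.length_cons, Finset.sum_range_succ', Finset.mul_sum, List.getD_cons_zero,
      Nat.mul_zero, pow_zero, mul_one, add_comm]
    congr 1
    refine Finset.sum_congr rfl fun i _ => ?_
    rw [List.getD_cons_succ, mul_add, mul_one, pow_add]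
    ring

/-- the value of the type number `i` -/
noncomputable def tv (n N : ℕ) (mu : YoungDiagram) (i : ℕ) : ℤ :=
  ((TL n n).map (fun r : List ℕ => tS (r : Multiset ℕ) (bS N mu))).getD i 0

theorem tv_eq {n N i : ℕ} (mu : YoungDiagram) (hi : i < (TL n n).length) :
    tv n N mu i = tS (((TL n n)[i] : List ℕ) : Multiset ℕ) (bS N mu) := by
  unfold tv
  rw [List.getD_eq_getElem _ _ (by rw [List.length_map]; exact hi), List.getElem_map]

theorem tv_le {n N M i : ℕ} (mu : Y n) (hn : n ≤ N) (hM : n ! ≤ M ^ 2)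
    (hi : i < (TL n n).length) : |tv n N mu.1 i| ≤ M := by
  rw [tv_eq mu.1 hi]
  exact tS_le mu hn hM (List.getElem_mem hi)

/-- the weight of the type number `i` -/
noncomputable def tw (n nf md i : ℕ) : ℕ := wt nf md ((WL n n 0 1 0).getD i (0, 0))

theorem length_WL (c j m z l : ℕ) : (WL c j m z l).length = (TL c j).length := by
  rw [WL_eq, List.length_map]

theorem tw_eq {n i : ℕ} (nf md : ℕ) (hi : i < (TL n n).length) :
    tw n nf md i = (1 - md * (pr (TL n n)[i] % 2)) * (nf / zr n 0 (TL n n)[i]) := by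
  unfold tw
  rw [WL_eq, List.getD_eq_getElem _ _ (by rw [List.length_map]; exact hi), List.getElem_map]
  unfold wt
  simp

/-- sums over types as sums over indices -/
theorem sum_TL {n : ℕ} (F : List ℕ → ℝ) : ((TL n n).map F).sum =
    ∑ i : Fin (TL n n).length, F ((TL n n)[i]) := by
  rw [← List.sum_ofFn]
  congr 1
  apply List.ext_getElem
  · simp
  · intro i h1 h2
    simp

theorem sum_tw {n N : ℕ} (lam : Y n) (hn : n ≤ N) (md : ℕ) :
    ∑ i ∈ range (TL n n).length, tw n (n !) md i * (tv n N lam.1 i).natAbs ^ 2 ≤ n ! := by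
  have h1 : ∑ σ : Perm (Fin n), chi lam σ ^ 2 =
      ∑ σ : Perm (Fin n), ((tS (ft σ) (bS N lam.1) : ℤ) : ℝ) ^ 2 := by
    refine Finset.sum_congr rfl fun σ _ => ?_
    rw [chi_tS lam hn σ ((ft σ).toList) (Multiset.coe_toList _), Multiset.coe_toList]
  rw [sum_chi_sq, sum_ft (fun ρ => ((tS ρ (bS N lam.1) : ℤ) : ℝ) ^ 2), sum_TL] at h1
  have h2 : ((∑ i ∈ range (TL n n).length, tw n (n !) md i * (tv n N lam.1 i).natAbs ^ 2 : ℕ) : ℝ) ≤
      (n ! : ℝ) := by
    rw [h1, Finset.sum_range]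
    push_cast
    refine Finset.sum_le_sum fun i _ => ?_
    rw [tw_eq _ _ i.2, tv_eq _ i.2]
    have h3 : (((tS (((TL n n)[(i : ℕ)] : List ℕ) : Multiset ℕ) (bS N lam.1)).natAbs : ℝ)) ^ 2 =
        ((tS (((TL n n)[(i : ℕ)] : List ℕ) : Multiset ℕ) (bS N lam.1) : ℤ) : ℝ) ^ 2 := by
      rw [Nat.cast_natAbs, Int.cast_abs, sq_abs]
    rw [h3]
    refine mul_le_mul_of_nonneg_right ?_ (sq_nonneg _)
    have h4 : (1 - md * (pr (TL n n)[(i : ℕ)] % 2)) * (n ! / zr n 0 (TL n n)[(i : ℕ)]) ≤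
        n ! / zr n 0 (TL n n)[(i : ℕ)] := by
      refine (Nat.mul_le_mul_right _ (Nat.sub_le 1 _)).trans ?_
      rw [Nat.one_mul]
    exact_mod_cast h4
  exact_mod_cast h2

end Pool.MP322F
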