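import Pool.Agent.Lib.MP_322c5f_alF.FB24

/-! Soundness of the Kronecker check: the kernel functions. -/

set_option autoImplicit false

open Finset Equiv Nat

namespace Pool.MP322F

open Pool.MP322

/-- the packed number of the diagram `lam` -/
noncomputable def AN (n N w md : ℕ) (lam : YoungDiagram) : ℕ :=
  ∑ i ∈ range (TL n n).length, (tw n (n !) md i * (tv n N lam i).natAbs ^ 2) *
    2 ^ (w * ((TL n n).length - 1 - i))

/-- the sum of the digits -/
noncomputable def SN (n N md : ℕ) (lam : YoungDiagram) : ℕ :=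
  ∑ i ∈ range (TL n n).length, tw n (n !) md i * (tv n N lam i).natAbs ^ 2

theorem sqd_eq (b : ℕ) (d : ℤ) (v : ℕ) (h : (v : ℤ) = d + b) : sqd b v = d.natAbs ^ 2 := by
  have h1 : (v - b) + (b - v) = d.natAbs := by omega
  show ((v - b) + (b - v)) * ((v - b) + (b - v)) = _
  rw [h1, sq]

theorem pval (P Q : ℕ) : (Pr.mk P Q).val = (P : ℤ) - Q := rfl

theorem kall_eq {N n w L M md : ℕ} (hn : n ≤ N) {f : ℕ → Pr} (hf : VOK N w n n L f)
    (hM : n ! ≤ M ^ 2) (hMw : M < 2 ^ (w - 1)) (hw : 1 ≤ w) (hw2 : n ! < 2 ^ w - 1)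
    (lam : Y n) (hs : szS (bS N lam.1) = n) (g : ℕ → ℕ → ℕ → ℕ) :
    kall w L n (n !) md M f g (kS (bS N lam.1)) =
      g (AN n N w md lam.1) (M * SN n N md lam.1 + 1) (M * mkm w 0 L) := by
  have h1 := hf.2 (bS N lam.1) (card_bS N lam.1) hs
  have hL : (TL n n).length = L := hf.1
  have h0 : kall w L n (n !) md M f g (kS (bS N lam.1)) =
    Pr.rec (motive := fun _ => ℕ) (fun P Q =>
    Pr.rec (motive := fun _ => ℕ) (fun _ A0 =>
      fo1 (fun A => fo1 (fun SM => fo1 (fun MM => g A SM MM) (M * (mkk w 0 L)))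
        ((M * (A % (2 ^ w - 1))) + 1)) A0)
      (wk w (n !) md (2 * n + 2) n n 0 1 0 (P + (mkk w (w - 1) L) - Q) 0))
      (f (kS (bS N lam.1))) := rfl
  rw [h0]
  obtain ⟨P, Q, hPQ⟩ : ∃ P Q, f (kS (bS N lam.1)) = Pr.mk P Q := by
    cases h : f (kS (bS N lam.1)) with
    | mk P Q => exact ⟨P, Q, rfl⟩
  rw [hPQ, pval] at h1
  rw [hPQ]
  show Pr.rec (motive := fun _ => ℕ) (fun _ A0 =>
      fo1 (fun A => fo1 (fun SM => fo1 (fun MM => g A SM MM) (M * (mkk w 0 L)))
        ((M * (A % (2 ^ w - 1))) + 1)) A0)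
      (wk w (n !) md (2 * n + 2) n n 0 1 0 (P + (mkk w (w - 1) L) - Q) 0) = _
  rw [wk_eq _ _ _ _ _ _ _ _ _ _ _ (by omega)]
  show fo1 (fun A => fo1 (fun SM => fo1 (fun MM => g A SM MM) (M * (mkk w 0 L)))
        ((M * (A % (2 ^ w - 1))) + 1)) _ = _
  rw [fo1_eq, fo1_eq, fo1_eq, mkk_eq, mkk_eq, foldl_stp, length_WL, Nat.zero_mul, Nat.zero_add]
  have hdg : ∀ i < L, (((((P + mkm w (w - 1) L - Q) >>> (w * i)) % 2 ^ w : ℕ)) : ℤ) =
      tv n N lam.1 i + 2 ^ (w - 1) := by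
    refine digit_bias hw L (tv n N lam.1) _ (fun i hi => ?_) ?_
    · have h2 := tv_le lam hn hM (by rw [hL]; exact hi)
      have h3 : (M : ℤ) < 2 ^ (w - 1) := by exact_mod_cast hMw
      exact h2.trans_lt h3
    · have h2 : ∑ i ∈ range L, (tv n N lam.1 i + 2 ^ (w - 1)) * 2 ^ (w * i) =
          (P : ℤ) - Q + mkm w (w - 1) L := by
        rw [h1, pk_eq_sum, List.length_map, hL, mkm_eq w (w - 1) L hw]
        push_cast
        rw [← Finset.sum_add_distrib]
        refine Finset.sum_congr rfl fun i _ => ?_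
        unfold tv
        rw [add_mul, ← pow_add, add_comm (w - 1)]
      have h3 : 0 ≤ ∑ i ∈ range L, (tv n N lam.1 i + 2 ^ (w - 1)) * 2 ^ (w * i) := by
        refine Finset.sum_nonneg fun i hi => ?_
        have h2 := tv_le lam hn hM (by rw [hL]; exact Finset.mem_range.1 hi)
        have h3 : (M : ℤ) < 2 ^ (w - 1) := by exact_mod_cast hMw
        have h4 := (abs_le.1 h2).1
        have h5 : (0 : ℤ) ≤ tv n N lam.1 i + 2 ^ (w - 1) := by linarith
        positivity
      rw [h2] at h3 ⊢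
      omega
  have hA : ∑ i ∈ range (TL n n).length, wt (n !) md ((WL n n 0 1 0).getD i (0, 0)) *
      sqd (2 ^ (w - 1)) (((P + mkm w (w - 1) L - Q) >>> (w * i)) % 2 ^ w) *
        2 ^ (w * ((TL n n).length - 1 - i)) = AN n N w md lam.1 := by
    unfold AN
    refine Finset.sum_congr rfl fun i hi => ?_
    rw [sqd_eq (2 ^ (w - 1)) (tv n N lam.1 i) _ (by
      rw [hdg i (by rw [← hL]; exact Finset.mem_range.1 hi)]
      push_cast
      rfl)]
    rfl
  rw [hA]
  have hS : AN n N w md lam.1 % (2 ^ w - 1) = SN n N md lam.1 := by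
    unfold AN SN
    exact digit_sum_rev hw _ ((sum_tw lam hn md).trans_lt hw2)
  rw [hS]

theorem kchk_sound {N n w L M md : ℕ} (hn : n ≤ N) {f : ℕ → Pr} (hf : VOK N w n n L f)
    (hM : n ! ≤ M ^ 2) (hw : 1 ≤ w) (hw2 : n ! * (2 * M) < 2 ^ w) (hL1 : 1 ≤ L)
    (lam mu : Y n) (hs : szS (bS N mu.1) = n)
    (h : kchk w L f (AN n N w md lam.1) (M * SN n N md lam.1 + 1) (M * mkm w 0 L)
      (kS (bS N mu.1)) = 0) :
    0 < ∑ i ∈ range L, ((tw n (n !) md i * (tv n N lam.1 i).natAbs ^ 2 : ℕ) : ℤ) *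
      tv n N mu.1 i := by
  have h1 := hf.2 (bS N mu.1) (card_bS N mu.1) hs
  have hL : (TL n n).length = L := hf.1
  obtain ⟨P, Q, hPQ⟩ : ∃ P Q, f (kS (bS N mu.1)) = Pr.mk P Q := by
    cases h : f (kS (bS N mu.1)) with
    | mk P Q => exact ⟨P, Q, rfl⟩
  have h0 : kchk w L f (AN n N w md lam.1) (M * SN n N md lam.1 + 1) (M * mkm w 0 L)
      (kS (bS N mu.1)) = Pr.rec (motive := fun _ => ℕ) (fun P Q =>
    (M * SN n N md lam.1 + 1) - (((AN n N w md lam.1 * (P + (M * mkm w 0 L) - Q)) >>>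
      (w * (L - 1))) % 2 ^ w)) (f (kS (bS N mu.1))) := rfl
  rw [h0, hPQ] at h
  replace h : (M * SN n N md lam.1 + 1) - (((AN n N w md lam.1 * (P + (M * mkm w 0 L) - Q)) >>>
      (w * (L - 1))) % 2 ^ w) = 0 := h
  rw [hPQ, pval] at h1
  have hb : ∀ i < L, 0 ≤ tv n N mu.1 i + M ∧ tv n N mu.1 i + M ≤ 2 * M := by
    intro i hi
    have h2 := abs_le.1 (tv_le mu hn hM (by rw [hL]; exact hi))
    constructor <;> linarith [h2.1, h2.2]
  have hB : P + (M * mkm w 0 L) - Q =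
      ∑ i ∈ range L, (tv n N mu.1 i + M).toNat * 2 ^ (w * i) := by
    have h2 : ((∑ i ∈ range L, (tv n N mu.1 i + M).toNat * 2 ^ (w * i) : ℕ) : ℤ) =
        (P : ℤ) - Q + M * mkm w 0 L := by
      rw [h1, pk_eq_sum, List.length_map, hL, mkm_eq w 0 L hw]
      push_cast
      rw [Finset.mul_sum, ← Finset.sum_add_distrib]
      refine Finset.sum_congr rfl fun i hi => ?_
      rw [Int.toNat_of_nonneg (hb i (Finset.mem_range.1 hi)).1]
      unfold tv
      rw [add_mul, Nat.add_zero]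
    have h3 : ((M * mkm w 0 L : ℕ) : ℤ) = M * mkm w 0 L := by push_cast; rfl
    omega
  have hA : AN n N w md lam.1 = ∑ i ∈ range L, (tw n (n !) md i * (tv n N lam.1 i).natAbs ^ 2) *
    2 ^ (w * (L - 1 - i)) := by
    unfold AN
    rw [hL]
  have hsum := sum_tw lam hn md
  have hSN : SN n N md lam.1 = ∑ i ∈ range L, tw n (n !) md i * (tv n N lam.1 i).natAbs ^ 2 := by
    unfold SN
    rw [hL]
  rw [hL] at hsum
  rw [hB, hA, slot_mul hL1 _ (fun i => (tv n N mu.1 i + M).toNat) (Bm := 2 * M) (fun i hi => by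
    have := hb i hi
    omega) (lt_of_le_of_lt (Nat.mul_le_mul_right _ hsum) hw2), hSN] at h
  have h4 : M * (∑ i ∈ range L, tw n (n !) md i * (tv n N lam.1 i).natAbs ^ 2) + 1 ≤
      ∑ i ∈ range L, (tw n (n !) md i * (tv n N lam.1 i).natAbs ^ 2) * (tv n N mu.1 i + M).toNat :=
    Nat.sub_eq_zero_iff_le.1 h
  have h5 : ((M : ℤ) * (∑ i ∈ range L, ((tw n (n !) md i * (tv n N lam.1 i).natAbs ^ 2 : ℕ) : ℤ)) + 1) ≤
      ∑ i ∈ range L, ((tw n (n !) md i * (tv n N lam.1 i).natAbs ^ 2 : ℕ) : ℤ) *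
        ((tv n N mu.1 i + M).toNat : ℤ) := by exact_mod_cast h4
  have h6 : ∑ i ∈ range L, ((tw n (n !) md i * (tv n N lam.1 i).natAbs ^ 2 : ℕ) : ℤ) *
        ((tv n N mu.1 i + M).toNat : ℤ) =
      ∑ i ∈ range L, ((tw n (n !) md i * (tv n N lam.1 i).natAbs ^ 2 : ℕ) : ℤ) * tv n N mu.1 i +
      (M : ℤ) * (∑ i ∈ range L, ((tw n (n !) md i * (tv n N lam.1 i).natAbs ^ 2 : ℕ) : ℤ)) := by
    rw [Finset.mul_sum, ← Finset.sum_add_distrib]
    refine Finset.sum_congr rfl fun i hi => ?_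
    rw [Int.toNat_of_nonneg (hb i (Finset.mem_range.1 hi)).1]
    ring
  rw [h6] at h5
  linarith

/-- sums over the group of products of characters -/
theorem sum_group {n N : ℕ} (hn : n ≤ N) (lam mu : Y n) (md : ℕ) :
    ∑ σ : Perm (Fin n), ((1 - md * (((ft σ).map (fun a => a - 1)).sum % 2) : ℕ) : ℝ) *
      (chi lam σ ^ 2 * chi mu σ) =
    ((∑ i ∈ range (TL n n).length, ((tw n (n !) md i * (tv n N lam.1 i).natAbs ^ 2 : ℕ) : ℤ) *
      tv n N mu.1 i : ℤ) : ℝ) := by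
  have h1 : ∑ σ : Perm (Fin n), ((1 - md * (((ft σ).map (fun a => a - 1)).sum % 2) : ℕ) : ℝ) *
      (chi lam σ ^ 2 * chi mu σ) =
      ∑ σ : Perm (Fin n), (fun ρ : Multiset ℕ => ((1 - md * ((ρ.map (fun a => a - 1)).sum % 2) : ℕ) : ℝ) *
        (((tS ρ (bS N lam.1) : ℤ) : ℝ) ^ 2 * ((tS ρ (bS N mu.1) : ℤ) : ℝ))) (ft σ) := by
    refine Finset.sum_congr rfl fun σ _ => ?_
    rw [chi_tS lam hn σ ((ft σ).toList) (Multiset.coe_toList _),
      chi_tS mu hn σ ((ft σ).toList) (Multiset.coe_toList _), Multiset.coe_toList]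
  refine h1.trans ((sum_ft (fun ρ : Multiset ℕ =>
    ((1 - md * ((ρ.map (fun a => a - 1)).sum % 2) : ℕ) : ℝ) *
        (((tS ρ (bS N lam.1) : ℤ) : ℝ) ^ 2 * ((tS ρ (bS N mu.1) : ℤ) : ℝ)))).trans ?_)
  rw [sum_TL, Finset.sum_range]
  push_cast
  refine Finset.sum_congr rfl fun i _ => ?_
  rw [tw_eq _ _ i.2, tv_eq _ i.2, tv_eq _ i.2]
  rw [sq_abs]
  have h4 : ((((TL n n)[i] : List ℕ) : Multiset ℕ).map (fun a => a - 1)).sum =
      pr (TL n n)[i] := by
    rw [Multiset.map_coe, Multiset.sum_coe]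
    rfl
  rw [h4]
  simp only [Fin.getElem_fin]
  push_cast
  ring

/-- the parity number and the sign -/
theorem sign_ft {n : ℕ} (σ : Perm (Fin n)) :
    Perm.sign σ = 1 ↔ ((ft σ).map (fun a => a - 1)).sum % 2 = 0 := by
  have h1 : ((ft σ).map (fun a => a - 1)).sum = (σ.cycleType.map (fun a => a - 1)).sum := by
    unfold ft
    rw [Multiset.map_add, Multiset.sum_add, Multiset.map_replicate, Multiset.sum_replicate]
    simp
  have h2 : (σ.cycleType.map (fun a => a - 1)).sum + Multiset.card σ.cycleType =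
      σ.cycleType.sum := by
    have h3 : ∀ m : Multiset ℕ, (∀ a ∈ m, 1 ≤ a) →
        (m.map (fun a => a - 1)).sum + Multiset.card m = m.sum := by
      intro m
      induction m using Multiset.induction_on with
      | empty => simp
      | cons a m ih =>
        intro h
        rw [Multiset.map_cons, Multiset.sum_cons, Multiset.sum_cons, Multiset.card_cons]
        have := ih fun b hb => h b (Multiset.mem_cons_of_mem hb)
        have := h a (Multiset.mem_cons_self a m)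
        omega
    exact h3 _ fun a ha => (Perm.one_lt_of_mem_cycleType ha).le
  rw [h1, Perm.sign_of_cycleType, ← h2]
  have h3 : (σ.cycleType.map (fun a => a - 1)).sum + Multiset.card σ.cycleType +
      Multiset.card σ.cycleType = (σ.cycleType.map (fun a => a - 1)).sum +
        2 * Multiset.card σ.cycleType := by ring
  rw [h3, pow_add, pow_mul]
  simp only [Int.units_sq, one_pow, mul_one]
  rcases Nat.mod_two_eq_zero_or_one (σ.cycleType.map (fun a => a - 1)).sum with h | h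
  · rw [h]
    constructor
    · intro _; rfl
    · intro _
      rw [← Nat.div_add_mod (σ.cycleType.map (fun a => a - 1)).sum 2, h, add_zero, pow_mul]
      simp
  · rw [h]
    constructor
    · intro h4
      exfalso
      rw [← Nat.div_add_mod (σ.cycleType.map (fun a => a - 1)).sum 2, h, pow_add, pow_mul] at h4
      simp at h4
    · intro h4
      exact absurd h4 (by norm_num)

end Pool.MP322F
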