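import Pool.Agent.Lib.MP_322c5f_alF.FB20

/-! The tables of the engine: `V{j}_{c}` gives all types of size `j` with parts at most `c`. -/

set_option autoImplicit false

namespace Pool.MP322F

noncomputable def V1_1 (key : ℕ) : Pr := grp g1 g0 1 0 key
noncomputable def V2_1 (key : ℕ) : Pr := grp V1_1 g0 1 0 key
noncomputable def V2_2 (key : ℕ) : Pr := grp g1 V2_1 2 128 key
noncomputable def V3_1 (key : ℕ) : Pr := grp V2_1 g0 1 0 key
noncomputable def V3_2 (key : ℕ) : Pr := grp V1_1 V3_1 2 128 key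
noncomputable def V3_3 (key : ℕ) : Pr := grp g1 V3_2 3 256 key
noncomputable def V4_1 (key : ℕ) : Pr := grp V3_1 g0 1 0 key
noncomputable def V4_2 (key : ℕ) : Pr := grp V2_2 V4_1 2 128 key
noncomputable def V4_3 (key : ℕ) : Pr := grp V1_1 V4_2 3 384 key
noncomputable def V4_4 (key : ℕ) : Pr := grp g1 V4_3 4 512 key
noncomputable def V5_1 (key : ℕ) : Pr := grp V4_1 g0 1 0 key
noncomputable def V5_2 (key : ℕ) : Pr := grp V3_2 V5_1 2 128 key
noncomputable def V5_3 (key : ℕ) : Pr := grp V2_2 V5_2 3 384 key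
noncomputable def V5_4 (key : ℕ) : Pr := grp V1_1 V5_3 4 640 key
noncomputable def V5_5 (key : ℕ) : Pr := grp g1 V5_4 5 768 key
noncomputable def V6_1 (key : ℕ) : Pr := grp V5_1 g0 1 0 key
noncomputable def V6_2 (key : ℕ) : Pr := grp V4_2 V6_1 2 128 key
noncomputable def V6_3 (key : ℕ) : Pr := grp V3_3 V6_2 3 512 key
noncomputable def V6_4 (key : ℕ) : Pr := grp V2_2 V6_3 4 896 key
noncomputable def V6_5 (key : ℕ) : Pr := grp V1_1 V6_4 5 1152 key
noncomputable def V6_6 (key : ℕ) : Pr := grp g1 V6_5 6 1280 key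
noncomputable def V7_1 (key : ℕ) : Pr := grp V6_1 g0 1 0 key
noncomputable def V7_2 (key : ℕ) : Pr := grp V5_2 V7_1 2 128 key
noncomputable def V7_3 (key : ℕ) : Pr := grp V4_3 V7_2 3 512 key
noncomputable def V7_4 (key : ℕ) : Pr := grp V3_3 V7_3 4 1024 key
noncomputable def V7_5 (key : ℕ) : Pr := grp V2_2 V7_4 5 1408 key
noncomputable def V7_6 (key : ℕ) : Pr := grp V1_1 V7_5 6 1664 key
noncomputable def V7_7 (key : ℕ) : Pr := grp g1 V7_6 7 1792 key
noncomputable def V8_1 (key : ℕ) : Pr := grp V7_1 g0 1 0 key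
noncomputable def V8_2 (key : ℕ) : Pr := grp V6_2 V8_1 2 128 key
noncomputable def V8_3 (key : ℕ) : Pr := grp V5_3 V8_2 3 640 key
noncomputable def V8_4 (key : ℕ) : Pr := grp V4_4 V8_3 4 1280 key
noncomputable def V8_5 (key : ℕ) : Pr := grp V3_3 V8_4 5 1920 key
noncomputable def V8_6 (key : ℕ) : Pr := grp V2_2 V8_5 6 2304 key
noncomputable def V8_7 (key : ℕ) : Pr := grp V1_1 V8_6 7 2560 key
noncomputable def V8_8 (key : ℕ) : Pr := grp g1 V8_7 8 2688 key
noncomputable def V9_1 (key : ℕ) : Pr := grp V8_1 g0 1 0 key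
noncomputable def V9_2 (key : ℕ) : Pr := grp V7_2 V9_1 2 128 key
noncomputable def V9_3 (key : ℕ) : Pr := grp V6_3 V9_2 3 640 key
noncomputable def V9_4 (key : ℕ) : Pr := grp V5_4 V9_3 4 1536 key
noncomputable def V9_5 (key : ℕ) : Pr := grp V4_4 V9_4 5 2304 key
noncomputable def V9_6 (key : ℕ) : Pr := grp V3_3 V9_5 6 2944 key
noncomputable def V9_7 (key : ℕ) : Pr := grp V2_2 V9_6 7 3328 key
noncomputable def V9_8 (key : ℕ) : Pr := grp V1_1 V9_7 8 3584 key
noncomputable def V9_9 (key : ℕ) : Pr := grp g1 V9_8 9 3712 key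
noncomputable def V10_1 (key : ℕ) : Pr := grp V9_1 g0 1 0 key
noncomputable def V10_2 (key : ℕ) : Pr := grp V8_2 V10_1 2 128 key
noncomputable def V10_3 (key : ℕ) : Pr := grp V7_3 V10_2 3 768 key
noncomputable def V10_4 (key : ℕ) : Pr := grp V6_4 V10_3 4 1792 key
noncomputable def V10_5 (key : ℕ) : Pr := grp V5_5 V10_4 5 2944 key
noncomputable def V10_6 (key : ℕ) : Pr := grp V4_4 V10_5 6 3840 key
noncomputable def V10_7 (key : ℕ) : Pr := grp V3_3 V10_6 7 4480 key
noncomputable def V10_8 (key : ℕ) : Pr := grp V2_2 V10_7 8 4864 key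
noncomputable def V10_9 (key : ℕ) : Pr := grp V1_1 V10_8 9 5120 key
noncomputable def V10_10 (key : ℕ) : Pr := grp g1 V10_9 10 5248 key
noncomputable def V11_1 (key : ℕ) : Pr := grp V10_1 g0 1 0 key
noncomputable def V11_2 (key : ℕ) : Pr := grp V9_2 V11_1 2 128 key
noncomputable def V11_3 (key : ℕ) : Pr := grp V8_3 V11_2 3 768 key
noncomputable def V11_4 (key : ℕ) : Pr := grp V7_4 V11_3 4 2048 key
noncomputable def V11_5 (key : ℕ) : Pr := grp V6_5 V11_4 5 3456 key
noncomputable def V11_6 (key : ℕ) : Pr := grp V5_5 V11_5 6 4736 key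
noncomputable def V11_7 (key : ℕ) : Pr := grp V4_4 V11_6 7 5632 key
noncomputable def V11_8 (key : ℕ) : Pr := grp V3_3 V11_7 8 6272 key
noncomputable def V11_9 (key : ℕ) : Pr := grp V2_2 V11_8 9 6656 key
noncomputable def V11_10 (key : ℕ) : Pr := grp V1_1 V11_9 10 6912 key
noncomputable def V11_11 (key : ℕ) : Pr := grp g1 V11_10 11 7040 key
noncomputable def V12_1 (key : ℕ) : Pr := grp V11_1 g0 1 0 key
noncomputable def V12_2 (key : ℕ) : Pr := grp V10_2 V12_1 2 128 key
noncomputable def V12_3 (key : ℕ) : Pr := grp V9_3 V12_2 3 896 key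
noncomputable def V12_4 (key : ℕ) : Pr := grp V8_4 V12_3 4 2432 key
noncomputable def V12_5 (key : ℕ) : Pr := grp V7_5 V12_4 5 4352 key
noncomputable def V12_6 (key : ℕ) : Pr := grp V6_6 V12_5 6 6016 key
noncomputable def V12_7 (key : ℕ) : Pr := grp V5_5 V12_6 7 7424 key
noncomputable def V12_8 (key : ℕ) : Pr := grp V4_4 V12_7 8 8320 key
noncomputable def V12_9 (key : ℕ) : Pr := grp V3_3 V12_8 9 8960 key
noncomputable def V12_10 (key : ℕ) : Pr := grp V2_2 V12_9 10 9344 key
noncomputable def V12_11 (key : ℕ) : Pr := grp V1_1 V12_10 11 9600 key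
noncomputable def V12_12 (key : ℕ) : Pr := grp g1 V12_11 12 9728 key
noncomputable def V13_1 (key : ℕ) : Pr := grp V12_1 g0 1 0 key
noncomputable def V13_2 (key : ℕ) : Pr := grp V11_2 V13_1 2 128 key
noncomputable def V13_3 (key : ℕ) : Pr := grp V10_3 V13_2 3 896 key
noncomputable def V13_4 (key : ℕ) : Pr := grp V9_4 V13_3 4 2688 key
noncomputable def V13_5 (key : ℕ) : Pr := grp V8_5 V13_4 5 4992 key
noncomputable def V13_6 (key : ℕ) : Pr := grp V7_6 V13_5 6 7296 key
noncomputable def V13_7 (key : ℕ) : Pr := grp V6_6 V13_6 7 9088 key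
noncomputable def V13_8 (key : ℕ) : Pr := grp V5_5 V13_7 8 10496 key
noncomputable def V13_9 (key : ℕ) : Pr := grp V4_4 V13_8 9 11392 key
noncomputable def V13_10 (key : ℕ) : Pr := grp V3_3 V13_9 10 12032 key
noncomputable def V13_11 (key : ℕ) : Pr := grp V2_2 V13_10 11 12416 key
noncomputable def V13_12 (key : ℕ) : Pr := grp V1_1 V13_11 12 12672 key
noncomputable def V13_13 (key : ℕ) : Pr := grp g1 V13_12 13 12800 key
noncomputable def V14_1 (key : ℕ) : Pr := grp V13_1 g0 1 0 key
noncomputable def V14_2 (key : ℕ) : Pr := grp V12_2 V14_1 2 128 key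
noncomputable def V14_3 (key : ℕ) : Pr := grp V11_3 V14_2 3 1024 key
noncomputable def V14_4 (key : ℕ) : Pr := grp V10_4 V14_3 4 3072 key
noncomputable def V14_5 (key : ℕ) : Pr := grp V9_5 V14_4 5 6016 key
noncomputable def V14_6 (key : ℕ) : Pr := grp V8_6 V14_5 6 8960 key
noncomputable def V14_7 (key : ℕ) : Pr := grp V7_7 V14_6 7 11520 key
noncomputable def V14_8 (key : ℕ) : Pr := grp V6_6 V14_7 8 13440 key
noncomputable def V14_9 (key : ℕ) : Pr := grp V5_5 V14_8 9 14848 key
noncomputable def V14_10 (key : ℕ) : Pr := grp V4_4 V14_9 10 15744 key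
noncomputable def V14_11 (key : ℕ) : Pr := grp V3_3 V14_10 11 16384 key
noncomputable def V14_12 (key : ℕ) : Pr := grp V2_2 V14_11 12 16768 key
noncomputable def V14_13 (key : ℕ) : Pr := grp V1_1 V14_12 13 17024 key
noncomputable def V14_14 (key : ℕ) : Pr := grp g1 V14_13 14 17152 key
noncomputable def V15_1 (key : ℕ) : Pr := grp V14_1 g0 1 0 key
noncomputable def V15_2 (key : ℕ) : Pr := grp V13_2 V15_1 2 128 key
noncomputable def V15_3 (key : ℕ) : Pr := grp V12_3 V15_2 3 1024 key
noncomputable def V15_4 (key : ℕ) : Pr := grp V11_4 V15_3 4 3456 key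
noncomputable def V15_5 (key : ℕ) : Pr := grp V10_5 V15_4 5 6912 key
noncomputable def V15_6 (key : ℕ) : Pr := grp V9_6 V15_5 6 10752 key
noncomputable def V15_7 (key : ℕ) : Pr := grp V8_7 V15_6 7 14080 key
noncomputable def V15_8 (key : ℕ) : Pr := grp V7_7 V15_7 8 16768 key
noncomputable def V15_9 (key : ℕ) : Pr := grp V6_6 V15_8 9 18688 key
noncomputable def V15_10 (key : ℕ) : Pr := grp V5_5 V15_9 10 20096 key
noncomputable def V15_11 (key : ℕ) : Pr := grp V4_4 V15_10 11 20992 key
noncomputable def V15_12 (key : ℕ) : Pr := grp V3_3 V15_11 12 21632 key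
noncomputable def V15_13 (key : ℕ) : Pr := grp V2_2 V15_12 13 22016 key
noncomputable def V15_14 (key : ℕ) : Pr := grp V1_1 V15_13 14 22272 key
noncomputable def V15_15 (key : ℕ) : Pr := grp g1 V15_14 15 22400 key
noncomputable def V16_1 (key : ℕ) : Pr := grp V15_1 g0 1 0 key
noncomputable def V16_2 (key : ℕ) : Pr := grp V14_2 V16_1 2 128 key
noncomputable def V16_3 (key : ℕ) : Pr := grp V13_3 V16_2 3 1152 key
noncomputable def V16_4 (key : ℕ) : Pr := grp V12_4 V16_3 4 3840 key
noncomputable def V16_5 (key : ℕ) : Pr := grp V11_5 V16_4 5 8192 key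
noncomputable def V16_6 (key : ℕ) : Pr := grp V10_6 V16_5 6 12928 key
noncomputable def V16_7 (key : ℕ) : Pr := grp V9_7 V16_6 7 17408 key
noncomputable def V16_8 (key : ℕ) : Pr := grp V8_8 V16_7 8 20992 key
noncomputable def V16_9 (key : ℕ) : Pr := grp V7_7 V16_8 9 23808 key
noncomputable def V16_10 (key : ℕ) : Pr := grp V6_6 V16_9 10 25728 key
noncomputable def V16_11 (key : ℕ) : Pr := grp V5_5 V16_10 11 27136 key
noncomputable def V16_12 (key : ℕ) : Pr := grp V4_4 V16_11 12 28032 key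
noncomputable def V16_13 (key : ℕ) : Pr := grp V3_3 V16_12 13 28672 key
noncomputable def V16_14 (key : ℕ) : Pr := grp V2_2 V16_13 14 29056 key
noncomputable def V16_15 (key : ℕ) : Pr := grp V1_1 V16_14 15 29312 key
noncomputable def V16_16 (key : ℕ) : Pr := grp g1 V16_15 16 29440 key
noncomputable def V17_1 (key : ℕ) : Pr := grp V16_1 g0 1 0 key
noncomputable def V17_2 (key : ℕ) : Pr := grp V15_2 V17_1 2 128 key
noncomputable def V17_3 (key : ℕ) : Pr := grp V14_3 V17_2 3 1152 key
noncomputable def V17_4 (key : ℕ) : Pr := grp V13_4 V17_3 4 4224 key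
noncomputable def V17_5 (key : ℕ) : Pr := grp V12_5 V17_4 5 9216 key
noncomputable def V17_6 (key : ℕ) : Pr := grp V11_6 V17_5 6 15232 key
noncomputable def V17_7 (key : ℕ) : Pr := grp V10_7 V17_6 7 20864 key
noncomputable def V17_8 (key : ℕ) : Pr := grp V9_8 V17_7 8 25728 key
noncomputable def V17_9 (key : ℕ) : Pr := grp V8_8 V17_8 9 29440 key
noncomputable def V17_10 (key : ℕ) : Pr := grp V7_7 V17_9 10 32256 key
noncomputable def V17_11 (key : ℕ) : Pr := grp V6_6 V17_10 11 34176 key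
noncomputable def V17_12 (key : ℕ) : Pr := grp V5_5 V17_11 12 35584 key
noncomputable def V17_13 (key : ℕ) : Pr := grp V4_4 V17_12 13 36480 key
noncomputable def V17_14 (key : ℕ) : Pr := grp V3_3 V17_13 14 37120 key
noncomputable def V17_15 (key : ℕ) : Pr := grp V2_2 V17_14 15 37504 key
noncomputable def V17_16 (key : ℕ) : Pr := grp V1_1 V17_15 16 37760 key
noncomputable def V17_17 (key : ℕ) : Pr := grp g1 V17_16 17 37888 key
noncomputable def V18_1 (key : ℕ) : Pr := grp V17_1 g0 1 0 key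
noncomputable def V18_2 (key : ℕ) : Pr := grp V16_2 V18_1 2 128 key
noncomputable def V18_3 (key : ℕ) : Pr := grp V15_3 V18_2 3 1280 key
noncomputable def V18_4 (key : ℕ) : Pr := grp V14_4 V18_3 4 4736 key
noncomputable def V18_5 (key : ℕ) : Pr := grp V13_5 V18_4 5 10752 key
noncomputable def V18_6 (key : ℕ) : Pr := grp V12_6 V18_5 6 18048 key
noncomputable def V18_7 (key : ℕ) : Pr := grp V11_7 V18_6 7 25472 key
noncomputable def V18_8 (key : ℕ) : Pr := grp V10_8 V18_7 8 31744 key
noncomputable def V18_9 (key : ℕ) : Pr := grp V9_9 V18_8 9 36864 key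
noncomputable def V18_10 (key : ℕ) : Pr := grp V8_8 V18_9 10 40704 key
noncomputable def V18_11 (key : ℕ) : Pr := grp V7_7 V18_10 11 43520 key
noncomputable def V18_12 (key : ℕ) : Pr := grp V6_6 V18_11 12 45440 key
noncomputable def V18_13 (key : ℕ) : Pr := grp V5_5 V18_12 13 46848 key
noncomputable def V18_14 (key : ℕ) : Pr := grp V4_4 V18_13 14 47744 key
noncomputable def V18_15 (key : ℕ) : Pr := grp V3_3 V18_14 15 48384 key
noncomputable def V18_16 (key : ℕ) : Pr := grp V2_2 V18_15 16 48768 key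
noncomputable def V18_17 (key : ℕ) : Pr := grp V1_1 V18_16 17 49024 key
noncomputable def V18_18 (key : ℕ) : Pr := grp g1 V18_17 18 49152 key
noncomputable def V19_1 (key : ℕ) : Pr := grp V18_1 g0 1 0 key
noncomputable def V19_2 (key : ℕ) : Pr := grp V17_2 V19_1 2 128 key
noncomputable def V19_3 (key : ℕ) : Pr := grp V16_3 V19_2 3 1280 key
noncomputable def V19_4 (key : ℕ) : Pr := grp V15_4 V19_3 4 5120 key
noncomputable def V19_5 (key : ℕ) : Pr := grp V14_5 V19_4 5 12032 key
noncomputable def V19_6 (key : ℕ) : Pr := grp V13_6 V19_5 6 20992 key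
noncomputable def V19_7 (key : ℕ) : Pr := grp V12_7 V19_6 7 30080 key
noncomputable def V19_8 (key : ℕ) : Pr := grp V11_8 V19_7 8 38400 key
noncomputable def V19_9 (key : ℕ) : Pr := grp V10_9 V19_8 9 45056 key
noncomputable def V19_10 (key : ℕ) : Pr := grp V9_9 V19_9 10 50304 key
noncomputable def V19_11 (key : ℕ) : Pr := grp V8_8 V19_10 11 54144 key
noncomputable def V19_12 (key : ℕ) : Pr := grp V7_7 V19_11 12 56960 key
noncomputable def V19_13 (key : ℕ) : Pr := grp V6_6 V19_12 13 58880 key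
noncomputable def V19_14 (key : ℕ) : Pr := grp V5_5 V19_13 14 60288 key
noncomputable def V19_15 (key : ℕ) : Pr := grp V4_4 V19_14 15 61184 key
noncomputable def V19_16 (key : ℕ) : Pr := grp V3_3 V19_15 16 61824 key
noncomputable def V19_17 (key : ℕ) : Pr := grp V2_2 V19_16 17 62208 key
noncomputable def V19_18 (key : ℕ) : Pr := grp V1_1 V19_17 18 62464 key
noncomputable def V19_19 (key : ℕ) : Pr := grp g1 V19_18 19 62592 key
noncomputable def V20_1 (key : ℕ) : Pr := grp V19_1 g0 1 0 key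
noncomputable def V20_2 (key : ℕ) : Pr := grp V18_2 V20_1 2 128 key
noncomputable def V20_3 (key : ℕ) : Pr := grp V17_3 V20_2 3 1408 key
noncomputable def V20_4 (key : ℕ) : Pr := grp V16_4 V20_3 4 5632 key
noncomputable def V20_5 (key : ℕ) : Pr := grp V15_5 V20_4 5 13824 key
noncomputable def V20_6 (key : ℕ) : Pr := grp V14_6 V20_5 6 24576 key
noncomputable def V20_7 (key : ℕ) : Pr := grp V13_7 V20_6 7 36096 key
noncomputable def V20_8 (key : ℕ) : Pr := grp V12_8 V20_7 8 46592 key
noncomputable def V20_9 (key : ℕ) : Pr := grp V11_9 V20_8 9 55552 key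
noncomputable def V20_10 (key : ℕ) : Pr := grp V10_10 V20_9 10 62464 key
noncomputable def V20_11 (key : ℕ) : Pr := grp V9_9 V20_10 11 67840 key
noncomputable def V20_12 (key : ℕ) : Pr := grp V8_8 V20_11 12 71680 key
noncomputable def V20_13 (key : ℕ) : Pr := grp V7_7 V20_12 13 74496 key
noncomputable def V20_14 (key : ℕ) : Pr := grp V6_6 V20_13 14 76416 key
noncomputable def V20_15 (key : ℕ) : Pr := grp V5_5 V20_14 15 77824 key
noncomputable def V20_16 (key : ℕ) : Pr := grp V4_4 V20_15 16 78720 key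
noncomputable def V20_17 (key : ℕ) : Pr := grp V3_3 V20_16 17 79360 key
noncomputable def V20_18 (key : ℕ) : Pr := grp V2_2 V20_17 18 79744 key
noncomputable def V20_19 (key : ℕ) : Pr := grp V1_1 V20_18 19 80000 key
noncomputable def V20_20 (key : ℕ) : Pr := grp g1 V20_19 20 80128 key
noncomputable def V21_1 (key : ℕ) : Pr := grp V20_1 g0 1 0 key
noncomputable def V21_2 (key : ℕ) : Pr := grp V19_2 V21_1 2 128 key
noncomputable def V21_3 (key : ℕ) : Pr := grp V18_3 V21_2 3 1408 key
noncomputable def V21_4 (key : ℕ) : Pr := grp V17_4 V21_3 4 6144 key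
noncomputable def V21_5 (key : ℕ) : Pr := grp V16_5 V21_4 5 15360 key
noncomputable def V21_6 (key : ℕ) : Pr := grp V15_6 V21_5 6 28288 key
noncomputable def V21_7 (key : ℕ) : Pr := grp V14_7 V21_6 7 42368 key
noncomputable def V21_8 (key : ℕ) : Pr := grp V13_8 V21_7 8 55808 key
noncomputable def V21_9 (key : ℕ) : Pr := grp V12_9 V21_8 9 67200 key
noncomputable def V21_10 (key : ℕ) : Pr := grp V11_10 V21_9 10 76544 key
noncomputable def V21_11 (key : ℕ) : Pr := grp V10_10 V21_10 11 83584 key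
noncomputable def V21_12 (key : ℕ) : Pr := grp V9_9 V21_11 12 88960 key
noncomputable def V21_13 (key : ℕ) : Pr := grp V8_8 V21_12 13 92800 key
noncomputable def V21_14 (key : ℕ) : Pr := grp V7_7 V21_13 14 95616 key
noncomputable def V21_15 (key : ℕ) : Pr := grp V6_6 V21_14 15 97536 key
noncomputable def V21_16 (key : ℕ) : Pr := grp V5_5 V21_15 16 98944 key
noncomputable def V21_17 (key : ℕ) : Pr := grp V4_4 V21_16 17 99840 key
noncomputable def V21_18 (key : ℕ) : Pr := grp V3_3 V21_17 18 100480 key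
noncomputable def V21_19 (key : ℕ) : Pr := grp V2_2 V21_18 19 100864 key
noncomputable def V21_20 (key : ℕ) : Pr := grp V1_1 V21_19 20 101120 key
noncomputable def V21_21 (key : ℕ) : Pr := grp g1 V21_20 21 101248 key
noncomputable def V22_1 (key : ℕ) : Pr := grp V21_1 g0 1 0 key
noncomputable def V22_2 (key : ℕ) : Pr := grp V20_2 V22_1 2 128 key
noncomputable def V22_3 (key : ℕ) : Pr := grp V19_3 V22_2 3 1536 key
noncomputable def V22_4 (key : ℕ) : Pr := grp V18_4 V22_3 4 6656 key
noncomputable def V22_5 (key : ℕ) : Pr := grp V17_5 V22_4 5 17408 key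
noncomputable def V22_6 (key : ℕ) : Pr := grp V16_6 V22_5 6 32640 key
noncomputable def V22_7 (key : ℕ) : Pr := grp V15_7 V22_6 7 50048 key
noncomputable def V22_8 (key : ℕ) : Pr := grp V14_8 V22_7 8 66816 key
noncomputable def V22_9 (key : ℕ) : Pr := grp V13_9 V22_8 9 81664 key
noncomputable def V22_10 (key : ℕ) : Pr := grp V12_10 V22_9 10 93696 key
noncomputable def V22_11 (key : ℕ) : Pr := grp V11_11 V22_10 11 103296 key
noncomputable def V22_12 (key : ℕ) : Pr := grp V10_10 V22_11 12 110464 key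
noncomputable def V22_13 (key : ℕ) : Pr := grp V9_9 V22_12 13 115840 key
noncomputable def V22_14 (key : ℕ) : Pr := grp V8_8 V22_13 14 119680 key
noncomputable def V22_15 (key : ℕ) : Pr := grp V7_7 V22_14 15 122496 key
noncomputable def V22_16 (key : ℕ) : Pr := grp V6_6 V22_15 16 124416 key
noncomputable def V22_17 (key : ℕ) : Pr := grp V5_5 V22_16 17 125824 key
noncomputable def V22_18 (key : ℕ) : Pr := grp V4_4 V22_17 18 126720 key
noncomputable def V22_19 (key : ℕ) : Pr := grp V3_3 V22_18 19 127360 key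
noncomputable def V22_20 (key : ℕ) : Pr := grp V2_2 V22_19 20 127744 key
noncomputable def V22_21 (key : ℕ) : Pr := grp V1_1 V22_20 21 128000 key
noncomputable def V22_22 (key : ℕ) : Pr := grp g1 V22_21 22 128128 key
noncomputable def V23_1 (key : ℕ) : Pr := grp V22_1 g0 1 0 key
noncomputable def V23_2 (key : ℕ) : Pr := grp V21_2 V23_1 2 128 key
noncomputable def V23_3 (key : ℕ) : Pr := grp V20_3 V23_2 3 1536 key
noncomputable def V23_4 (key : ℕ) : Pr := grp V19_4 V23_3 4 7168 key
noncomputable def V23_5 (key : ℕ) : Pr := grp V18_5 V23_4 5 19200 key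
noncomputable def V23_6 (key : ℕ) : Pr := grp V17_6 V23_5 6 37248 key
noncomputable def V23_7 (key : ℕ) : Pr := grp V16_7 V23_6 7 58112 key
noncomputable def V23_8 (key : ℕ) : Pr := grp V15_8 V23_7 8 79104 key
noncomputable def V23_9 (key : ℕ) : Pr := grp V14_9 V23_8 9 97792 key
noncomputable def V23_10 (key : ℕ) : Pr := grp V13_10 V23_9 10 113536 key
noncomputable def V23_11 (key : ℕ) : Pr := grp V12_11 V23_10 11 125952 key
noncomputable def V23_12 (key : ℕ) : Pr := grp V11_11 V23_11 12 135680 key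
noncomputable def V23_13 (key : ℕ) : Pr := grp V10_10 V23_12 13 142848 key
noncomputable def V23_14 (key : ℕ) : Pr := grp V9_9 V23_13 14 148224 key
noncomputable def V23_15 (key : ℕ) : Pr := grp V8_8 V23_14 15 152064 key
noncomputable def V23_16 (key : ℕ) : Pr := grp V7_7 V23_15 16 154880 key
noncomputable def V23_17 (key : ℕ) : Pr := grp V6_6 V23_16 17 156800 key
noncomputable def V23_18 (key : ℕ) : Pr := grp V5_5 V23_17 18 158208 key
noncomputable def V23_19 (key : ℕ) : Pr := grp V4_4 V23_18 19 159104 key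
noncomputable def V23_20 (key : ℕ) : Pr := grp V3_3 V23_19 20 159744 key
noncomputable def V23_21 (key : ℕ) : Pr := grp V2_2 V23_20 21 160128 key
noncomputable def V23_22 (key : ℕ) : Pr := grp V1_1 V23_21 22 160384 key
noncomputable def V23_23 (key : ℕ) : Pr := grp g1 V23_22 23 160512 key

end Pool.MP322F
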