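import Pool.Agent.Lib.MP_322c5f_alF.FB25
import Pool.Agent.Lib.MP_322c5f_alF.FB04
import Pool.Agent.Lib.MP_322c5f_al.SG25
import Pool.Agent.Lib.MP_322c5f_al.Fd3
import Pool.Agent.Lib.MP_322c5f_al.Pos

/-! Soundness of the Kronecker check: keys, the direct check, facts. -/

set_option autoImplicit false

open Finset Equiv Nat

namespace Pool.MP322F

open Pool.MP322

theorem colLen_le28 {n : ℕ} (mu : Y n) : mu.1.colLen 0 ≤ n := by
  have hsub : (Finset.range (mu.1.colLen 0)).image (fun j => ((j, 0) : ℕ × ℕ)) ⊆ mu.1.cells := by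
    intro d hd
    obtain ⟨j, hj, rfl⟩ := Finset.mem_image.1 hd
    rw [YoungDiagram.mem_cells, YoungDiagram.mem_iff_lt_colLen]
    exact Finset.mem_range.1 hj
  have h1 := Finset.card_le_card hsub
  rw [Finset.card_image_of_injective _ (fun a b h => (Prod.ext_iff.1 h).1), Finset.card_range] at h1
  have h2 : mu.1.cells.card = n := mu.2
  omega

theorem szS28 {n N : ℕ} (hn : n ≤ N) (mu : Y n) : szS (bS N mu.1) = n := by
  rw [szS_bS mu.1 ((colLen_le28 mu).trans hn), mu.2]

/-- the bitmask of the diagram with column heights `L` -/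
def keyN (N : ℕ) (L : List ℕ) : ℕ :=
  ((List.range N).map (fun j => 2 ^ (L.countP (fun s => Nat.ble (j + 1) s) + (N - 1 - j)))).sum

theorem kS_bS (N : ℕ) (mu : YoungDiagram) :
    kS (bS N mu) = ∑ j ∈ range N, 2 ^ (mu.rowLen j + (N - 1 - j)) := by
  unfold kS bS
  rw [Finset.sum_image (fun x _ y _ h => (be_strictMono N mu).injective h), Finset.sum_range,
    ← Equiv.sum_comp Fin.revPerm]
  refine Finset.sum_congr rfl fun i _ => ?_
  unfold be
  rw [Fin.revPerm_apply, Fin.val_rev]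
  congr 2
  · congr 1
    omega
  · omega

theorem kS_cD (N : ℕ) (L : List ℕ) : kS (bS N (cD (L : Multiset ℕ))) = keyN N L := by
  rw [kS_bS]
  unfold keyN
  have h1 : ∀ F : ℕ → ℕ, ∑ j ∈ range N, F j = ((List.range N).map F).sum := by
    intro F
    show ((((List.range N : List ℕ) : Multiset ℕ)).map F).sum = _
    rw [Multiset.map_coe, Multiset.sum_coe]
  rw [h1]
  refine congrArg List.sum (List.map_congr_left fun j _ => ?_)
  rw [rowLen_cD, ← countP_rf]

/-- the numbers `n` of the check -/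
theorem num28 {n : ℕ} (hn : n ≤ 23) : n ! ≤ (2 ^ 38) ^ 2 ∧ n ! * (2 * 2 ^ 38) < 2 ^ 128 ∧
    n ! < 2 ^ 128 - 1 := by
  have h1 := Nat.factorial_le hn
  have h2 : 23 ! = 25852016738884976640000 := by decide
  rw [h2] at h1
  refine ⟨by omega, by omega, by omega⟩

theorem one_le_TL (n : ℕ) : 1 ≤ (TL n n).length := by
  have h : List.replicate n 1 ∈ TL n n := by
    rw [mem_TL]
    refine ⟨by simp, fun x hx => ?_, ?_⟩
    · have h1 := List.eq_of_mem_replicate hx
      have h2 : n ≠ 0 := by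
        rintro rfl
        simp at hx
      omega
    · exact List.pairwise_replicate.2 (Or.inr le_rfl)
  exact List.length_pos_of_mem h

/-- the direct check -/
theorem direct_sound {n L nf M : ℕ} (hn : n ≤ 23) {f : ℕ → Pr} (hf : VOK n 128 n n L f)
    (hnf : nf = n !) (hM : M = 2 ^ 38) (lam : Y n) (h1 : 1 ≤ n)
    (h : kfull 128 L n n nf 1 M f (kS (bS n lam.1)) = 0) (mu : Y n) :
    0 < ∑ σ ∈ Finset.univ.filter (fun σ : Perm (Fin n) => Perm.sign σ = 1),
      (chi lam σ * chi lam σ) * chi mu σ := by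
  subst hnf
  subst hM
  obtain ⟨h2, h3, h4⟩ := num28 hn
  unfold kfull at h
  rw [kall_eq le_rfl hf h2 (by norm_num) (by norm_num) h4 lam (szS28 le_rfl lam),
    show Nat.add (Nat.mul 2 n) 2 = 2 * n + 2 from rfl,
    enumN_spec le_rfl h1 le_rfl, Finset.sum_eq_zero_iff] at h
  have h5 := kchk_sound le_rfl hf h2 (by norm_num) h3 (by rw [← hf.1]; exact one_le_TL n) lam mu
    (szS28 le_rfl mu) (h mu (Finset.mem_univ _))
  have h6 := sum_group (N := n) le_rfl lam mu 1
  rw [← hf.1] at h5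
  have h7 : (0 : ℝ) < ((∑ i ∈ range (TL n n).length, ((tw n (n !) 1 i * (tv n n lam.1 i).natAbs ^ 2 : ℕ) : ℤ) *
      tv n n mu.1 i : ℤ) : ℝ) := by exact_mod_cast h5
  rw [← h6] at h7
  rw [Finset.sum_filter]
  refine h7.trans_eq (Finset.sum_congr rfl fun σ _ => ?_)
  by_cases hs : Perm.sign σ = 1
  · rw [if_pos hs, (sign_ft σ).1 hs]
    push_cast
    ring
  · rw [if_neg hs]
    have h8 : ((ft σ).map (fun a => a - 1)).sum % 2 = 1 := by
      have := mt (sign_ft σ).2 hs
      omega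
    rw [h8]
    simp

/-- facts -/
theorem fact_sound {n L nf M : ℕ} (hn : n ≤ 23) {f : ℕ → Pr} (hf : VOK n 128 n n L f)
    (hnf : nf = n !) (hM : M = 2 ^ 38) (lam : Y n) (ks : NL)
    (h : klist 128 L n nf 0 M f ks (kS (bS n lam.1)) = 0) :
    NL.rec (motive := fun _ => Prop) True (fun key _ ih =>
      (∀ mu : Y n, kS (bS n mu.1) = key → Sq lam mu) ∧ ih) ks := by
  subst hnf
  subst hM
  obtain ⟨h2, h3, h4⟩ := num28 hn
  unfold klist at h
  rw [kall_eq le_rfl hf h2 (by norm_num) (by norm_num) h4 lam (szS28 le_rfl lam)] at h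
  induction ks with
  | nil => trivial
  | cons key ks ih =>
    have h' : kchk 128 L f (AN n n 128 0 lam.1) (2 ^ 38 * SN n n 0 lam.1 + 1) (2 ^ 38 * mkm 128 0 L) key +
      NL.rec (motive := fun _ => ℕ) 0 (fun key _ ih => Nat.add (kchk 128 L f (AN n n 128 0 lam.1)
        (2 ^ 38 * SN n n 0 lam.1 + 1) (2 ^ 38 * mkm 128 0 L) key) ih) ks = 0 := h
    obtain ⟨h5, h6⟩ := Nat.add_eq_zero_iff.1 h'
    refine ⟨fun mu hmu => ?_, ih h6⟩
    have h7 := kchk_sound le_rfl hf h2 (by norm_num) h3 (by rw [← hf.1]; exact one_le_TL n) lam mu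
      (szS28 le_rfl mu) (by rw [hmu]; exact h5)
    have h8 := sum_group (N := n) le_rfl lam mu 0
    rw [← hf.1] at h7
    have h9 : (0 : ℝ) < ((∑ i ∈ range (TL n n).length, ((tw n (n !) 0 i * (tv n n lam.1 i).natAbs ^ 2 : ℕ) : ℤ) *
      tv n n mu.1 i : ℤ) : ℝ) := by exact_mod_cast h7
    rw [← h8] at h9
    refine h9.trans_eq (Finset.sum_congr rfl fun σ _ => ?_)
    simp

end Pool.MP322F
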