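import Pool.Agent.Lib.MP_322c5f_alF.FB27
import Pool.Agent.Lib.MP_322c5f_alF.FB28

/-! The direct check: conclusion for one `n`. -/

set_option autoImplicit false

open Finset Equiv Nat CategoryTheory
open scoped CategoryTheory.MonoidalCategory

namespace Pool.MP322F

open Pool.MP322

theorem direct_fd {n Ln nf M key : ℕ} (hn : n ≤ 23) (h1 : 1 ≤ n) {f : ℕ → Pr}
    (hf : VOK n 128 n n Ln f) (hnf : nf = n !) (hM : M = 2 ^ 38) (L : List ℕ) (hL : L.sum = n)
    (hk : keyN n L = key) (hc : keyN n (conjL L) ≠ key)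
    (h : kfull 128 Ln n n nf 1 M f key = 0) :
    ∃ V : FDRep ℂ (alternatingGroup (Fin n)), Simple V ∧
      ∀ W : FDRep ℂ (alternatingGroup (Fin n)), Simple W → ∃ f : W ⟶ V ⊗ V, f ≠ 0 := by
  set lam : Y n := ⟨cD (L : Multiset ℕ), by rw [card_cD, Multiset.sum_coe]; exact hL⟩ with hlam
  have hkey : kS (bS n lam.1) = key := by rw [← hk]; exact kS_cD n L
  have hne : lam.tr ≠ lam := by
    intro he
    have h2 : lam.tr.1 = cD ((conjL L : List ℕ) : Multiset ℕ) := by
      rw [conjL_cj, cD_cj fun s hs => le_mxL (Multiset.mem_coe.1 hs)]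
      rfl
    apply hc
    rw [← kS_cD, ← h2, he, hkey]
  refine fdrep_of_plain lam hne fun mu => ?_
  refine alt_hom mu _ ?_
  have h3 := direct_sound hn hf hnf hM lam h1 (by rw [hkey]; exact h) mu
  refine h3.trans_eq (Finset.sum_congr rfl fun σ _ => ?_)
  rw [kr_trace]
  rfl

end Pool.MP322F
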