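import Pool.Agent.Lib.MP_322c5f_alF.FB29

/-! The direct check for `n = 4, ..., 19`. -/

set_option autoImplicit false

open Finset Equiv Nat CategoryTheory
open scoped CategoryTheory.MonoidalCategory

namespace Pool.MP322F

open Pool.MP322

theorem dc4 : kfull 128 5 4 4 24 1 274877906944 V4_4 75 = 0 := by
  decide +kernel

theorem small4 : ∃ V : FDRep ℂ (alternatingGroup (Fin 4)), Simple V ∧
    ∀ W : FDRep ℂ (alternatingGroup (Fin 4)), Simple W → ∃ f : W ⟶ V ⊗ V, f ≠ 0 :=
  direct_fd (by norm_num) (by norm_num) (V4_4_ok (by norm_num)) (by decide +kernel) (by norm_num)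
    [2, 1, 1] (by decide +kernel) (by decide +kernel) (by decide +kernel) dc4

theorem dc5 : kfull 128 7 5 5 120 1 274877906944 V5_5 167 = 0 := by
  decide +kernel

theorem small5 : ∃ V : FDRep ℂ (alternatingGroup (Fin 5)), Simple V ∧
    ∀ W : FDRep ℂ (alternatingGroup (Fin 5)), Simple W → ∃ f : W ⟶ V ⊗ V, f ≠ 0 :=
  direct_fd (by norm_num) (by norm_num) (V5_5_ok (by norm_num)) (by decide +kernel) (by norm_num)
    [2, 2, 1] (by decide +kernel) (by decide +kernel) (by decide +kernel) dc5

theorem dc6 : kfull 128 11 6 6 720 1 274877906944 V6_6 567 = 0 := by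
  decide +kernel

theorem small6 : ∃ V : FDRep ℂ (alternatingGroup (Fin 6)), Simple V ∧
    ∀ W : FDRep ℂ (alternatingGroup (Fin 6)), Simple W → ∃ f : W ⟶ V ⊗ V, f ≠ 0 :=
  direct_fd (by norm_num) (by norm_num) (V6_6_ok (by norm_num)) (by decide +kernel) (by norm_num)
    [3, 1, 1, 1] (by decide +kernel) (by decide +kernel) (by decide +kernel) dc6

theorem dc7 : kfull 128 15 7 7 5040 1 274877906944 V7_7 1199 = 0 := by
  decide +kernel

theorem small7 : ∃ V : FDRep ℂ (alternatingGroup (Fin 7)), Simple V ∧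
    ∀ W : FDRep ℂ (alternatingGroup (Fin 7)), Simple W → ∃ f : W ⟶ V ⊗ V, f ≠ 0 :=
  direct_fd (by norm_num) (by norm_num) (V7_7_ok (by norm_num)) (by decide +kernel) (by norm_num)
    [3, 2, 1, 1] (by decide +kernel) (by decide +kernel) (by decide +kernel) dc7

theorem dc8 : kfull 128 22 8 8 40320 1 274877906944 V8_8 2655 = 0 := by
  decide +kernel

theorem small8 : ∃ V : FDRep ℂ (alternatingGroup (Fin 8)), Simple V ∧
    ∀ W : FDRep ℂ (alternatingGroup (Fin 8)), Simple W → ∃ f : W ⟶ V ⊗ V, f ≠ 0 :=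
  direct_fd (by norm_num) (by norm_num) (V8_8_ok (by norm_num)) (by decide +kernel) (by norm_num)
    [3, 2, 2, 1] (by decide +kernel) (by decide +kernel) (by decide +kernel) dc8

theorem dc9 : kfull 128 30 9 9 362880 1 274877906944 V9_9 5343 = 0 := by
  decide +kernel

theorem small9 : ∃ V : FDRep ℂ (alternatingGroup (Fin 9)), Simple V ∧
    ∀ W : FDRep ℂ (alternatingGroup (Fin 9)), Simple W → ∃ f : W ⟶ V ⊗ V, f ≠ 0 :=
  direct_fd (by norm_num) (by norm_num) (V9_9_ok (by norm_num)) (by decide +kernel) (by norm_num)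
    [4, 2, 2, 1] (by decide +kernel) (by decide +kernel) (by decide +kernel) dc9

theorem dc10 : kfull 128 42 10 10 3628800 1 274877906944 V10_10 18879 = 0 := by
  decide +kernel

theorem small10 : ∃ V : FDRep ℂ (alternatingGroup (Fin 10)), Simple V ∧
    ∀ W : FDRep ℂ (alternatingGroup (Fin 10)), Simple W → ∃ f : W ⟶ V ⊗ V, f ≠ 0 :=
  direct_fd (by norm_num) (by norm_num) (V10_10_ok (by norm_num)) (by decide +kernel) (by norm_num)
    [4, 2, 2, 1, 1] (by decide +kernel) (by decide +kernel) (by decide +kernel) dc10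

theorem dc11 : kfull 128 56 11 11 39916800 1 274877906944 V11_11 38271 = 0 := by
  decide +kernel

theorem small11 : ∃ V : FDRep ℂ (alternatingGroup (Fin 11)), Simple V ∧
    ∀ W : FDRep ℂ (alternatingGroup (Fin 11)), Simple W → ∃ f : W ⟶ V ⊗ V, f ≠ 0 :=
  direct_fd (by norm_num) (by norm_num) (V11_11_ok (by norm_num)) (by decide +kernel) (by norm_num)
    [4, 3, 2, 1, 1] (by decide +kernel) (by decide +kernel) (by decide +kernel) dc11

theorem dc12 : kfull 128 77 12 12 479001600 1 274877906944 V12_12 84735 = 0 := by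
  decide +kernel

theorem small12 : ∃ V : FDRep ℂ (alternatingGroup (Fin 12)), Simple V ∧
    ∀ W : FDRep ℂ (alternatingGroup (Fin 12)), Simple W → ∃ f : W ⟶ V ⊗ V, f ≠ 0 :=
  direct_fd (by norm_num) (by norm_num) (V12_12_ok (by norm_num)) (by decide +kernel) (by norm_num)
    [4, 3, 2, 2, 1] (by decide +kernel) (by decide +kernel) (by decide +kernel) dc12

theorem dc13 : kfull 128 101 13 13 6227020800 1 274877906944 V13_13 169727 = 0 := by
  decide +kernel

theorem small13 : ∃ V : FDRep ℂ (alternatingGroup (Fin 13)), Simple V ∧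
    ∀ W : FDRep ℂ (alternatingGroup (Fin 13)), Simple W → ∃ f : W ⟶ V ⊗ V, f ≠ 0 :=
  direct_fd (by norm_num) (by norm_num) (V13_13_ok (by norm_num)) (by decide +kernel) (by norm_num)
    [5, 3, 2, 2, 1] (by decide +kernel) (by decide +kernel) (by decide +kernel) dc13

theorem dc14 : kfull 128 135 14 14 87178291200 1 274877906944 V14_14 601599 = 0 := by
  decide +kernel

theorem small14 : ∃ V : FDRep ℂ (alternatingGroup (Fin 14)), Simple V ∧
    ∀ W : FDRep ℂ (alternatingGroup (Fin 14)), Simple W → ∃ f : W ⟶ V ⊗ V, f ≠ 0 :=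
  direct_fd (by norm_num) (by norm_num) (V14_14_ok (by norm_num)) (by decide +kernel) (by norm_num)
    [5, 3, 2, 2, 1, 1] (by decide +kernel) (by decide +kernel) (by decide +kernel) dc14

theorem dc15 : kfull 128 176 15 15 1307674368000 1 274877906944 V15_15 1207295 = 0 := by
  decide +kernel

theorem small15 : ∃ V : FDRep ℂ (alternatingGroup (Fin 15)), Simple V ∧
    ∀ W : FDRep ℂ (alternatingGroup (Fin 15)), Simple W → ∃ f : W ⟶ V ⊗ V, f ≠ 0 :=
  direct_fd (by norm_num) (by norm_num) (V15_15_ok (by norm_num)) (by decide +kernel) (by norm_num)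
    [5, 4, 2, 2, 1, 1] (by decide +kernel) (by decide +kernel) (by decide +kernel) dc15

theorem dc16 : kfull 128 231 16 16 20922789888000 1 274877906944 V16_16 2447359 = 0 := by
  decide +kernel

theorem small16 : ∃ V : FDRep ℂ (alternatingGroup (Fin 16)), Simple V ∧
    ∀ W : FDRep ℂ (alternatingGroup (Fin 16)), Simple W → ∃ f : W ⟶ V ⊗ V, f ≠ 0 :=
  direct_fd (by norm_num) (by norm_num) (V16_16_ok (by norm_num)) (by decide +kernel) (by norm_num)
    [5, 4, 3, 2, 1, 1] (by decide +kernel) (by decide +kernel) (by decide +kernel) dc16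

theorem dc17 : kfull 128 297 17 17 355687428096000 1 274877906944 V17_17 9089023 = 0 := by
  decide +kernel

theorem small17 : ∃ V : FDRep ℂ (alternatingGroup (Fin 17)), Simple V ∧
    ∀ W : FDRep ℂ (alternatingGroup (Fin 17)), Simple W → ∃ f : W ⟶ V ⊗ V, f ≠ 0 :=
  direct_fd (by norm_num) (by norm_num) (V17_17_ok (by norm_num)) (by decide +kernel) (by norm_num)
    [5, 4, 3, 2, 1, 1, 1] (by decide +kernel) (by decide +kernel) (by decide +kernel) dc17

theorem dc18 : kfull 128 385 18 18 6402373705728000 1 274877906944 V18_18 18182143 = 0 := by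
  decide +kernel

theorem small18 : ∃ V : FDRep ℂ (alternatingGroup (Fin 18)), Simple V ∧
    ∀ W : FDRep ℂ (alternatingGroup (Fin 18)), Simple W → ∃ f : W ⟶ V ⊗ V, f ≠ 0 :=
  direct_fd (by norm_num) (by norm_num) (V18_18_ok (by norm_num)) (by decide +kernel) (by norm_num)
    [6, 4, 3, 2, 1, 1, 1] (by decide +kernel) (by decide +kernel) (by decide +kernel) dc18

theorem dc19 : kfull 128 490 19 19 121645100408832000 1 274877906944 V19_19 38461439 = 0 := by
  decide +kernel

theorem small19 : ∃ V : FDRep ℂ (alternatingGroup (Fin 19)), Simple V ∧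
    ∀ W : FDRep ℂ (alternatingGroup (Fin 19)), Simple W → ∃ f : W ⟶ V ⊗ V, f ≠ 0 :=
  direct_fd (by norm_num) (by norm_num) (V19_19_ok (by norm_num)) (by decide +kernel) (by norm_num)
    [6, 4, 3, 2, 2, 1, 1] (by decide +kernel) (by decide +kernel) (by decide +kernel) dc19

end Pool.MP322F
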