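import Pool.Agent.Lib.MP_322c5f_alF.FB29

/-! The direct check for `n = 20, ..., 23`. -/

set_option autoImplicit false

open Finset Equiv Nat CategoryTheory
open scoped CategoryTheory.MonoidalCategory

namespace Pool.MP322F

open Pool.MP322

theorem dc20 : kfull 128 627 20 20 2432902008176640000 1 274877906944 V20_20 76988415 = 0 := by
  decide +kernel

theorem small20 : ∃ V : FDRep ℂ (alternatingGroup (Fin 20)), Simple V ∧
    ∀ W : FDRep ℂ (alternatingGroup (Fin 20)), Simple W → ∃ f : W ⟶ V ⊗ V, f ≠ 0 :=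
  direct_fd (by norm_num) (by norm_num) (V20_20_ok (by norm_num)) (by decide +kernel) (by norm_num)
    [6, 5, 3, 2, 2, 1, 1] (by decide +kernel) (by decide +kernel) (by decide +kernel) dc20

theorem dc21 : kfull 128 792 21 21 51090942171709440000 1 274877906944 V21_21 156073983 = 0 := by
  decide +kernel

theorem small21 : ∃ V : FDRep ℂ (alternatingGroup (Fin 21)), Simple V ∧
    ∀ W : FDRep ℂ (alternatingGroup (Fin 21)), Simple W → ∃ f : W ⟶ V ⊗ V, f ≠ 0 :=
  direct_fd (by norm_num) (by norm_num) (V21_21_ok (by norm_num)) (by decide +kernel) (by norm_num)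
    [6, 5, 3, 3, 2, 1, 1] (by decide +kernel) (by decide +kernel) (by decide +kernel) dc21

theorem dc22 : kfull 128 1002 22 22 1124000727777607680000 1 274877906944 V22_22 313196543 = 0 := by
  decide +kernel

theorem small22 : ∃ V : FDRep ℂ (alternatingGroup (Fin 22)), Simple V ∧
    ∀ W : FDRep ℂ (alternatingGroup (Fin 22)), Simple W → ∃ f : W ⟶ V ⊗ V, f ≠ 0 :=
  direct_fd (by norm_num) (by norm_num) (V22_22_ok (by norm_num)) (by decide +kernel) (by norm_num)
    [6, 5, 4, 3, 2, 1, 1] (by decide +kernel) (by decide +kernel) (by decide +kernel) dc22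

theorem dc23 : kfull 128 1255 23 23 25852016738884976640000 1 274877906944 V23_23 1163263999 = 0 := by
  decide +kernel

theorem small23 : ∃ V : FDRep ℂ (alternatingGroup (Fin 23)), Simple V ∧
    ∀ W : FDRep ℂ (alternatingGroup (Fin 23)), Simple W → ∃ f : W ⟶ V ⊗ V, f ≠ 0 :=
  direct_fd (by norm_num) (by norm_num) (V23_23_ok (by norm_num)) (by decide +kernel) (by norm_num)
    [6, 5, 4, 3, 2, 1, 1, 1] (by decide +kernel) (by decide +kernel) (by decide +kernel) dc23

end Pool.MP322F
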