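import Pool.Agent.Lib.MP_322c5f_alF.FB30
import Pool.Agent.Lib.MP_322c5f_alF.FB31

/-! The direct check, conclusion. -/

set_option autoImplicit false

open Finset Equiv Nat CategoryTheory
open scoped CategoryTheory.MonoidalCategory

namespace Pool.MP322F

open Pool.MP322

/-- the statement for `4 ≤ n ≤ 23` -/
theorem direct_small {n : ℕ} (h1 : 4 ≤ n) (h2 : n ≤ 23) :
    ∃ V : FDRep ℂ (alternatingGroup (Fin n)), Simple V ∧
      ∀ W : FDRep ℂ (alternatingGroup (Fin n)), Simple W → ∃ f : W ⟶ V ⊗ V, f ≠ 0 := by
  interval_cases n
  · exact small4
  · exact small5
  · exact small6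
  · exact small7
  · exact small8
  · exact small9
  · exact small10
  · exact small11
  · exact small12
  · exact small13
  · exact small14
  · exact small15
  · exact small16
  · exact small17
  · exact small18
  · exact small19
  · exact small20
  · exact small21
  · exact small22
  · exact small23

end Pool.MP322F
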