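import Pool.Agent.Lib.MP_322c5f_alF.FB28

/-! Facts from the kernel engine: tables of pairs (column heights of `lam`, column heights of the
diagram `mu` without its columns of height one) with `lam ⊗ lam` containing `mu`. -/

set_option autoImplicit false

open Finset Equiv Nat

namespace Pool.MP322F

open Pool.MP322

/-- groups of facts: key of `lam`, keys of the `mu` -/
inductive KL where
  | nil : KL
  | cons : ℕ → NL → KL → KL

noncomputable def kgrp (w L n nf M : ℕ) (f : ℕ → Pr) (gs : KL) : ℕ :=
  KL.rec (motive := fun _ => ℕ) 0 (fun kl ks _ ih => Nat.add (klist w L n nf 0 M f ks kl) ih) gs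

def okE (n : ℕ) : List (List ℕ) → NL → Bool
  | [], NL.nil => true
  | E :: Es, NL.cons k ks =>
      Nat.beq (keyN n (E ++ List.replicate (n - E.sum) 1)) k && Nat.ble E.sum n && okE n Es ks
  | _, _ => false

def okT (n : ℕ) : List (List ℕ × List (List ℕ)) → KL → Bool
  | [], KL.nil => true
  | p :: t, KL.cons kl ks g =>
      Nat.beq (keyN n p.1) kl && Nat.beq p.1.sum n && okE n p.2 ks && okT n t g
  | _, _ => false

theorem fact_sound' {n w L nf M : ℕ} {f : ℕ → Pr} (hf : VOK n w n n L f)
    (hnf : nf = n !) (hw : 1 ≤ w) (h2 : nf ≤ M ^ 2) (h3 : nf * (2 * M) < 2 ^ w)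
    (h4 : nf < 2 ^ w - 1) (h5 : M < 2 ^ (w - 1)) (lam : Y n) (Es : List (List ℕ)) (ks : NL)
    (hE : okE n Es ks = true) (h : klist w L n nf 0 M f ks (kS (bS n lam.1)) = 0) :
    ∀ E ∈ Es, ∃ mu : Y n, Has mu.1 (E : Multiset ℕ) ∧ Sq lam mu := by
  subst hnf
  unfold klist at h
  rw [kall_eq le_rfl hf h2 h5 hw h4 lam (szS28 le_rfl lam)] at h
  induction ks generalizing Es with
  | nil =>
    intro E hEm
    cases Es with
    | nil => simp at hEm
    | cons E' Es => simp [okE] at hE
  | cons key ks ih =>
    have h' : kchk w L f (AN n n w 0 lam.1) (M * SN n n 0 lam.1 + 1) (M * mkm w 0 L) key +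
      NL.rec (motive := fun _ => ℕ) 0 (fun key _ ih => Nat.add (kchk w L f (AN n n w 0 lam.1)
        (M * SN n n 0 lam.1 + 1) (M * mkm w 0 L) key) ih) ks = 0 := h
    obtain ⟨h6, h7⟩ := Nat.add_eq_zero_iff.1 h'
    cases Es with
    | nil => intro E hEm; simp at hEm
    | cons E' Es =>
      simp only [okE, Bool.and_eq_true, Nat.beq_eq, Nat.ble_eq] at hE
      obtain ⟨⟨h8, h9⟩, h10⟩ := hE
      intro E hEm
      rcases List.mem_cons.1 hEm with h11 | h11
      · subst h11
        set mu : Y n := ⟨cD ((E ++ List.replicate (n - E.sum) 1 : List ℕ) : Multiset ℕ), by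
          rw [card_cD, Multiset.sum_coe, List.sum_append, List.sum_replicate, smul_eq_mul, mul_one]
          omega⟩ with hmu
        refine ⟨mu, fun r => ?_, ?_⟩
        · show (cD ((E ++ List.replicate (n - E.sum) 1 : List ℕ) : Multiset ℕ)).rowLen (r + 1) = _
          rw [rowLen_cD, ← Multiset.coe_add, rf_add]
          have h12 : rf ((List.replicate (n - E.sum) 1 : List ℕ) : Multiset ℕ) (r + 1) = 0 := by
            unfold rf
            rw [Multiset.card_eq_zero, Multiset.filter_eq_nil]
            intro a ha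
            rw [Multiset.mem_coe] at ha
            have := List.eq_of_mem_replicate ha
            omega
          rw [h12, Nat.add_zero]
        · have h12 : kS (bS n mu.1) = key := by
            rw [← h8]
            exact kS_cD n _
          have h13 := kchk_sound le_rfl hf h2 hw h3 (by rw [← hf.1]; exact one_le_TL n) lam mu
            (szS28 le_rfl mu) (by rw [h12]; exact h6)
          have h14 := sum_group (N := n) le_rfl lam mu 0
          rw [← hf.1] at h13
          have h15 : (0 : ℝ) < ((∑ i ∈ range (TL n n).length,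
            ((tw n (n !) 0 i * (tv n n lam.1 i).natAbs ^ 2 : ℕ) : ℤ) *
            tv n n mu.1 i : ℤ) : ℝ) := by exact_mod_cast h13
          rw [← h14] at h15
          refine h15.trans_eq (Finset.sum_congr rfl fun σ _ => ?_)
          simp
      · exact ih Es h10 h7 E h11

theorem table_sound {n w L nf M : ℕ} {f : ℕ → Pr} (hf : VOK n w n n L f)
    (hnf : nf = n !) (hw : 1 ≤ w) (h2 : nf ≤ M ^ 2) (h3 : nf * (2 * M) < 2 ^ w)
    (h4 : nf < 2 ^ w - 1) (h5 : M < 2 ^ (w - 1)) (T : List (List ℕ × List (List ℕ))) (gs : KL)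
    (hT : okT n T gs = true) (h : kgrp w L n nf M f gs = 0) :
    ∀ p ∈ T, ∀ E ∈ p.2, CC (p.1 : Multiset ℕ) (E : Multiset ℕ) := by
  induction gs generalizing T with
  | nil =>
    intro p hp
    cases T with
    | nil => simp at hp
    | cons p' T => simp [okT] at hT
  | cons kl ks gs ih =>
    have h' : klist w L n nf 0 M f ks kl + kgrp w L n nf M f gs = 0 := h
    obtain ⟨h6, h7⟩ := Nat.add_eq_zero_iff.1 h'
    cases T with
    | nil => intro p hp; simp at hp
    | cons p' T =>
      simp only [okT, Bool.and_eq_true, Nat.beq_eq] at hT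
      obtain ⟨⟨⟨h8, h9⟩, h10⟩, h11⟩ := hT
      intro p hp
      rcases List.mem_cons.1 hp with h12 | h12
      · subst h12
        intro E hE
        set lam : Y n := ⟨cD (p.1 : Multiset ℕ), by rw [card_cD, Multiset.sum_coe]; exact h9⟩ with hlam
        rw [CC_iff lam rfl]
        refine fact_sound' hf hnf hw h2 h3 h4 h5 lam p.2 ks h10 ?_ E hE
        have h13 : kS (bS n lam.1) = kl := by
          rw [← h8]
          exact kS_cD n _
        rw [h13]
        exact h6
      · exact ih T h11 h7 p h12

/-- membership in a table -/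
def inT (T : List (List ℕ × List (List ℕ))) (F : List (List ℕ × List ℕ)) : Bool :=
  F.all (fun q => T.any (fun p => p.1 == q.1 && p.2.contains q.2))

theorem inT_sound {T : List (List ℕ × List (List ℕ))} {F : List (List ℕ × List ℕ)}
    (hT : ∀ p ∈ T, ∀ E ∈ p.2, CC (p.1 : Multiset ℕ) (E : Multiset ℕ)) (h : inT T F = true) :
    ∀ q ∈ F, CC (q.1 : Multiset ℕ) (q.2 : Multiset ℕ) := by
  intro q hq
  unfold inT at h
  rw [List.all_eq_true] at h
  have h1 := h q hq
  rw [List.any_eq_true] at h1
  obtain ⟨p, hp, h2⟩ := h1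
  simp only [Bool.and_eq_true, beq_iff_eq, List.contains_iff_mem] at h2
  rw [← h2.1]
  exact hT p hp q.2 h2.2

end Pool.MP322F
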