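import Pool.Agent.Lib.MP_322c5f_alF.FB33
import Pool.Agent.Lib.MP_322c5f_alF.FB34
import Pool.Agent.Lib.MP_322c5f_alF.FB35

/-! Fact tables, sizes up to 20. -/

set_option autoImplicit false

open Finset Equiv Nat

namespace Pool.MP322F

open Pool.MP322

/-- facts for diagrams of size 11 -/
def FT11 : List (List ℕ × List (List ℕ)) := [
  ([5,3,2,1], [[9,2]])]

noncomputable def gs11 : KL :=
  (KL.cons 21951 (NL.cons 7163 NL.nil) KL.nil)

theorem kg11 : kgrp 168 56 11 39916800 18014398509481984 U11_11 gs11 = 0 := by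
  decide +kernel

theorem FT11_ok : ∀ p ∈ FT11, ∀ E ∈ p.2, CC (p.1 : Multiset ℕ) (E : Multiset ℕ) :=
  table_sound (U11_11_ok (by norm_num)) (by decide +kernel) (by norm_num) (by norm_num) (by norm_num)
    (by norm_num) (by norm_num) FT11 gs11 (by decide +kernel) kg11

/-- facts for diagrams of size 12 -/
def FT12 : List (List ℕ × List (List ℕ)) := [
  ([5,4,2,1], [[5,3,3], [5,5,2], [6,3,3], [6,5], [7,3,2], [9,2]]), ([6,3,2,1], [[6,3,3]])]

noncomputable def gs12 : KL :=
  (KL.cons 44415 (NL.cons 45951 (NL.cons 28287 (NL.cons 29631 (NL.cons 24255 (NL.cons 27615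
  (NL.cons 22519 NL.nil)))))) (KL.cons 43967 (NL.cons 29631 NL.nil) KL.nil))

theorem kg12 : kgrp 168 77 12 479001600 18014398509481984 U12_12 gs12 = 0 := by
  decide +kernel

theorem FT12_ok : ∀ p ∈ FT12, ∀ E ∈ p.2, CC (p.1 : Multiset ℕ) (E : Multiset ℕ) :=
  table_sound (U12_12_ok (by norm_num)) (by decide +kernel) (by norm_num) (by norm_num) (by norm_num)
    (by norm_num) (by norm_num) FT12 gs12 (by decide +kernel) kg12

/-- facts for diagrams of size 13 -/
def FT13 : List (List ℕ × List (List ℕ)) := [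
  ([5,4,3,1], [[5,3,2,2], [5,3,3], [5,3,3,2], [5,5,2], [6,3,2,2], [6,3,3]])]

noncomputable def gs13 : KL :=
  (KL.cons 92927 (NL.cons 169727 (NL.cons 157439 (NL.cons 108287 (NL.cons 89343 (NL.cons 104319
  (NL.cons 92031 NL.nil)))))) KL.nil)

theorem kg13 : kgrp 168 101 13 6227020800 18014398509481984 U13_13 gs13 = 0 := by
  decide +kernel

theorem FT13_ok : ∀ p ∈ FT13, ∀ E ∈ p.2, CC (p.1 : Multiset ℕ) (E : Multiset ℕ) :=
  table_sound (U13_13_ok (by norm_num)) (by decide +kernel) (by norm_num) (by norm_num) (by norm_num)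
    (by norm_num) (by norm_num) FT13 gs13 (by decide +kernel) kg13

/-- facts for diagrams of size 14 -/
def FT14 : List (List ℕ × List (List ℕ)) := [
  ([5,4,3,2], [[5,3,2,2], [5,3,2,2,2], [5,3,3], [5,3,3,2], [5,5,2], [6,5]]), ([6,5,2,1],
  [[5,3,3,2], [6,3,2,2]])]

noncomputable def gs14 : KL :=
  (KL.cons 218623 (NL.cons 601599 (NL.cons 404991 (NL.cons 577023 (NL.cons 347647 (NL.cons
  309759 (NL.cons 293631 NL.nil)))))) (KL.cons 178943 (NL.cons 347647 (NL.cons 339711 NL.nil))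
  KL.nil))

theorem kg14 : kgrp 168 135 14 87178291200 18014398509481984 U14_14 gs14 = 0 := by
  decide +kernel

theorem FT14_ok : ∀ p ∈ FT14, ∀ E ∈ p.2, CC (p.1 : Multiset ℕ) (E : Multiset ℕ) :=
  table_sound (U14_14_ok (by norm_num)) (by decide +kernel) (by norm_num) (by norm_num) (by norm_num)
    (by norm_num) (by norm_num) FT14 gs14 (by decide +kernel) kg14

/-- facts for diagrams of size 16 -/
def FT16 : List (List ℕ × List (List ℕ)) := [
  ([6,4,3,2,1], [[10,6], [13,3], [14,2]]), ([6,5,4,1], [[5,3,2,2,2]])]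

noncomputable def gs16 : KL :=
  (KL.cons 1399807 (NL.cons 260031 (NL.cons 245751 (NL.cons 229371 NL.nil))) (KL.cons 764927
  (NL.cons 4765695 NL.nil) KL.nil))

theorem kg16 : kgrp 168 231 16 20922789888000 18014398509481984 U16_16 gs16 = 0 := by
  decide +kernel

theorem FT16_ok : ∀ p ∈ FT16, ∀ E ∈ p.2, CC (p.1 : Multiset ℕ) (E : Multiset ℕ) :=
  table_sound (U16_16_ok (by norm_num)) (by decide +kernel) (by norm_num) (by norm_num) (by norm_num)
    (by norm_num) (by norm_num) FT16 gs16 (by decide +kernel) kg16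

/-- facts for diagrams of size 17 -/
def FT17 : List (List ℕ × List (List ℕ)) := [
  ([6,5,3,2,1], [[5,5,3,2,2], [5,5,5,2], [6,5,5], [6,6,5], [8,8], [9,6,2], [10,6]]),
  ([7,4,3,2,1], [[11,3,3], [11,4,2], [12,3,2], [13,2,2]])]

noncomputable def gs17 : KL :=
  (KL.cons 2807807 (NL.cons 3330047 (NL.cons 1806335 (NL.cons 1546239 (NL.cons 1026047 (NL.cons
  784895 (NL.cons 913151 (NL.cons 782207 NL.nil))))))) (KL.cons 2800639 (NL.cons 950207 (NL.cons
  901055 (NL.cons 884703 (NL.cons 851951 NL.nil)))) KL.nil))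

theorem kg17 : kgrp 168 297 17 355687428096000 18014398509481984 U17_17 gs17 = 0 := by
  decide +kernel

theorem FT17_ok : ∀ p ∈ FT17, ∀ E ∈ p.2, CC (p.1 : Multiset ℕ) (E : Multiset ℕ) :=
  table_sound (U17_17_ok (by norm_num)) (by decide +kernel) (by norm_num) (by norm_num) (by norm_num)
    (by norm_num) (by norm_num) FT17 gs17 (by decide +kernel) kg17

/-- facts for diagrams of size 18 -/
def FT18 : List (List ℕ × List (List ℕ)) := [
  ([6,5,4,2,1], [[5,5,3,2,2], [5,5,3,3,2], [5,5,5,2], [5,5,5,3], [6,5,5], [6,6,3,3], [6,6,5],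
  [10,6], [12,3,2], [13,3], [14,2]]), ([8,4,3,2,1], [[11,3,2,2]])]

noncomputable def gs18 : KL :=
  (KL.cons 5681151 (NL.cons 10854399 (NL.cons 6922239 (NL.cons 5709823 (NL.cons 3874815 (NL.cons
  5189631 (NL.cons 3788799 (NL.cons 3100671 (NL.cons 2612991 (NL.cons 2817983 (NL.cons 2555871
  (NL.cons 2490351 NL.nil))))))))))) (KL.cons 5602303 (NL.cons 3342207 NL.nil) KL.nil))

theorem kg18 : kgrp 168 385 18 6402373705728000 18014398509481984 U18_18 gs18 = 0 := by
  decide +kernel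

theorem FT18_ok : ∀ p ∈ FT18, ∀ E ∈ p.2, CC (p.1 : Multiset ℕ) (E : Multiset ℕ) :=
  table_sound (U18_18_ok (by norm_num)) (by decide +kernel) (by norm_num) (by norm_num) (by norm_num)
    (by norm_num) (by norm_num) FT18 gs18 (by decide +kernel) kg18

/-- facts for diagrams of size 19 -/
def FT19 : List (List ℕ × List (List ℕ)) := [
  ([6,5,4,3,1], [[5,5,3,2,2], [5,5,3,2,2,2], [5,5,3,3,2], [5,5,3,3,3], [5,5,5,2], [5,5,5,2,2],
  [5,5,5,3], [6,5,5], [6,6,3,2,2], [6,6,3,3], [6,6,5], [7,5,3,2,2]]), ([7,6,3,2,1],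
  [[5,5,3,3,2], [5,5,3,3,3], [5,5,5,2,2], [5,5,5,3], [6,6,3,2,2], [6,6,3,3]])]

noncomputable def gs19 : KL :=
  (KL.cons 11886591 (NL.cons 38486015 (NL.cons 25903103 (NL.cons 22233087 (NL.cons 14893055
  (NL.cons 19808255 (NL.cons 13516799 (NL.cons 11943935 (NL.cons 18767871 (NL.cons 13344767
  (NL.cons 11771903 (NL.cons 10395647 (NL.cons 13332479 NL.nil)))))))))))) (KL.cons 11251711
  (NL.cons 22233087 (NL.cons 14893055 (NL.cons 13516799 (NL.cons 11943935 (NL.cons 13344767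
  (NL.cons 11771903 NL.nil)))))) KL.nil))

theorem kg19 : kgrp 168 490 19 121645100408832000 18014398509481984 U19_19 gs19 = 0 := by
  decide +kernel

theorem FT19_ok : ∀ p ∈ FT19, ∀ E ∈ p.2, CC (p.1 : Multiset ℕ) (E : Multiset ℕ) :=
  table_sound (U19_19_ok (by norm_num)) (by decide +kernel) (by norm_num) (by norm_num) (by norm_num)
    (by norm_num) (by norm_num) FT19 gs19 (by decide +kernel) kg19

/-- facts for diagrams of size 20 -/
def FT20 : List (List ℕ × List (List ℕ)) := [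
  ([6,5,4,3,2], [[5,5,3,3,2,2], [5,5,5,2,2], [6,5,5], [6,6,5], [10,6]])]

noncomputable def gs20 : KL :=
  (KL.cons 27967487 (NL.cons 52854783 (NL.cons 43810815 (NL.cons 71090175 (NL.cons 37568511
  (NL.cons 35617791 NL.nil))))) KL.nil)

theorem kg20 : kgrp 168 627 20 2432902008176640000 18014398509481984 U20_20 gs20 = 0 := by
  decide +kernel

theorem FT20_ok : ∀ p ∈ FT20, ∀ E ∈ p.2, CC (p.1 : Multiset ℕ) (E : Multiset ℕ) :=
  table_sound (U20_20_ok (by norm_num)) (by decide +kernel) (by norm_num) (by norm_num) (by norm_num)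
    (by norm_num) (by norm_num) FT20 gs20 (by decide +kernel) kg20

end Pool.MP322F
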