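import Pool.Agent.Lib.MP_322c5f_alF.FB33
import Pool.Agent.Lib.MP_322c5f_alF.FB34
import Pool.Agent.Lib.MP_322c5f_alF.FB35

/-! Fact tables, sizes 25 to 29. -/

set_option autoImplicit false

open Finset Equiv Nat

namespace Pool.MP322F

open Pool.MP322

/-- facts for diagrams of size 25 -/
def FT25 : List (List ℕ × List (List ℕ)) := [
  ([7,6,5,4,2,1], [[5,5,5,3,2,2], [5,5,5,3,2,2,2], [5,5,5,3,3,2], [5,5,5,3,3,2,2],
  [5,5,5,3,3,3], [5,5,5,5,2], [5,5,5,5,2,2], [5,5,5,5,3]])]

noncomputable def gs25 : KL :=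
  (KL.cons 1454112767 (NL.cons 9220128767 (NL.cons 5462032383 (NL.cons 4992270335 (NL.cons
  3381657599 (NL.cons 2979004415 (NL.cons 4681891839 (NL.cons 2802843647 (NL.cons 2601517055
  NL.nil)))))))) KL.nil)

theorem kg25 : kgrp 168 1958 25 15511210043330985984000000 18014398509481984 U25_25 gs25 = 0 := by
  decide +kernel

theorem FT25_ok : ∀ p ∈ FT25, ∀ E ∈ p.2, CC (p.1 : Multiset ℕ) (E : Multiset ℕ) :=
  table_sound (U25_25_ok (by norm_num)) (by decide +kernel) (by norm_num) (by norm_num) (by norm_num)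
    (by norm_num) (by norm_num) FT25 gs25 (by decide +kernel) kg25

/-- facts for diagrams of size 27 -/
def FT27 : List (List ℕ × List (List ℕ)) := [
  ([8,7,6,3,2,1], [[5,5,5,3,3,2,2]])]

noncomputable def gs27 : KL :=
  (KL.cons 5760352255 (NL.cons 39296434175 NL.nil) KL.nil)

theorem kg27 : kgrp 168 3010 27 10888869450418352160768000000 18014398509481984 U27_27 gs27 = 0 := by
  decide +kernel

theorem FT27_ok : ∀ p ∈ FT27, ∀ E ∈ p.2, CC (p.1 : Multiset ℕ) (E : Multiset ℕ) :=
  table_sound (U27_27_ok (by norm_num)) (by decide +kernel) (by norm_num) (by norm_num) (by norm_num)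
    (by norm_num) (by norm_num) FT27 gs27 (by decide +kernel) kg27

/-- facts for diagrams of size 29 -/
def FT29 : List (List ℕ × List (List ℕ)) := [
  ([8,7,6,5,2,1], [[5,5,5,3,2,2,2,2]])]

noncomputable def gs29 : KL :=
  (KL.cons 23444062207 (NL.cons 585608724479 NL.nil) KL.nil)

theorem kg29 : kgrp 168 4565 29 8841761993739701954543616000000 18014398509481984 U29_29 gs29 = 0 := by
  decide +kernel

theorem FT29_ok : ∀ p ∈ FT29, ∀ E ∈ p.2, CC (p.1 : Multiset ℕ) (E : Multiset ℕ) :=
  table_sound (U29_29_ok (by norm_num)) (by decide +kernel) (by norm_num) (by norm_num) (by norm_num)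
    (by norm_num) (by norm_num) FT29 gs29 (by decide +kernel) kg29

end Pool.MP322F
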