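import Pool.Agent.Lib.MP_322c5f_alF.FC00

/-! Arithmetic of `Dl n k = C(n,k) - C(n,k-1)`. -/

set_option autoImplicit false

open Finset Nat

namespace Pool.MP322F

open Pool.MP322

theorem Dl_zero (n : ℕ) : Dl n 0 = 1 := rfl

private theorem Dl_succ' (n k : ℕ) : Dl n (k + 1) = (n.choose (k + 1) : ℤ) - (n.choose k : ℤ) := rfl

theorem Dl_succ (n k : ℕ) : Dl (n + 1) (k + 1) = Dl n (k + 1) + Dl n k := by
  cases k with
  | zero =>
    rw [Dl_succ', Dl_succ', Dl_zero]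
    simp
  | succ k =>
    rw [Dl_succ', Dl_succ', Dl_succ', Nat.choose_succ_succ n (k + 1), Nat.choose_succ_succ n k]
    push_cast
    ring

/-- `Dl n k (n - k + 1) = C(n,k) (n - 2k + 1)` -/
theorem Dl_mul {n k : ℕ} (h : k ≤ n) :
    Dl n k * ((n : ℤ) - k + 1) = (n.choose k : ℤ) * ((n : ℤ) - 2 * k + 1) := by
  cases k with
  | zero =>
    rw [Dl_zero]
    simp
  | succ k =>
    have h1 : (n.choose (k + 1) : ℤ) * ((k : ℤ) + 1) = (n.choose k : ℤ) * ((n : ℤ) - k) := by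
      have h2 := Nat.choose_succ_right_eq n k
      have h3 : ((n - k : ℕ) : ℤ) = (n : ℤ) - k := by
        rw [Nat.cast_sub (by omega)]
      rw [← h3]
      exact_mod_cast h2
    rw [Dl_succ']
    push_cast
    linear_combination h1

theorem Dl_pos {n k : ℕ} (h : 2 * k ≤ n) : 0 < Dl n k := by
  have h1 := Dl_mul (n := n) (k := k) (by omega)
  have h2 : 0 < (n.choose k : ℤ) := by
    exact_mod_cast Nat.choose_pos (by omega : k ≤ n)
  have h3 : (2 * k : ℤ) ≤ n := by exact_mod_cast h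
  have h4 : 0 < (n.choose k : ℤ) * ((n : ℤ) - 2 * k + 1) := mul_pos h2 (by linarith)
  rw [← h1] at h4
  have h5 : (0 : ℤ) ≤ k := Int.natCast_nonneg k
  exact pos_of_mul_pos_left h4 (by linarith)

theorem Dl_half (k : ℕ) : Dl (2 * k + 1) (k + 1) = 0 := by
  rw [Dl_succ', Nat.choose_symm_half, sub_self]

theorem Dl_le_choose (n k : ℕ) : Dl n k ≤ (n.choose k : ℤ) := by
  cases k with
  | zero =>
    rw [Dl_zero]
    simp
  | succ k =>
    rw [Dl_succ']
    have : (0 : ℤ) ≤ (n.choose k : ℤ) := Int.natCast_nonneg _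
    linarith

/-- the ratio `Dl (n-1) (K-1) / Dl n K` decreases in `n` -/
theorem Dl_ratio_mono {n K : ℕ} (h : 2 * (K + 1) ≤ n + 1) :
    Dl (n + 1) K * Dl (n + 1) (K + 1) ≤ Dl n K * Dl (n + 2) (K + 1) := by
  have hK : (2 * (K + 1) : ℤ) ≤ n + 1 := by exact_mod_cast h
  have hK0 : (0 : ℤ) ≤ K := Int.natCast_nonneg K
  have e1 := Dl_mul (n := n) (k := K) (by omega)
  have e2 := Dl_mul (n := n + 1) (k := K) (by omega)
  have e3 := Dl_mul (n := n + 1) (k := K + 1) (by omega)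
  have e4 := Dl_mul (n := n + 2) (k := K + 1) (by omega)
  have key : ∀ N k : ℕ, k ≤ N →
      ((N + 1).choose k : ℤ) * ((N : ℤ) + 1 - k) = (N.choose k : ℤ) * ((N : ℤ) + 1) := by
    intro N k hk
    have h2 := Nat.choose_mul_succ_eq N k
    have h3 : ((N + 1 - k : ℕ) : ℤ) = (N : ℤ) + 1 - k := by
      rw [Nat.cast_sub (by omega)]
      push_cast
      ring
    rw [← h3]
    exact_mod_cast h2.symm
  have k1 := key n K (by omega)
  have k2 := key (n + 1) (K + 1) (by omega)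
  push_cast at e1 e2 e3 e4 k1 k2
  obtain ⟨A, hA⟩ : ∃ A : ℤ, A = (n : ℤ) + 1 - K := ⟨_, rfl⟩
  obtain ⟨m, hm⟩ : ∃ m : ℤ, m = (n : ℤ) + 1 - 2 * K := ⟨_, rfl⟩
  obtain ⟨c, hc⟩ : ∃ c : ℤ, c = (n.choose K : ℤ) := ⟨_, rfl⟩
  obtain ⟨e, he⟩ : ∃ e : ℤ, e = ((n + 1).choose (K + 1) : ℤ) := ⟨_, rfl⟩
  have hA0 : 0 < A := by linarith
  have hB0 : 0 < A + 1 := by linarith
  have hm0 : 1 ≤ m := by linarith
  have hc0 : 0 ≤ c := by rw [hc]; exact Int.natCast_nonneg _
  have he0 : 0 ≤ e := by rw [he]; exact Int.natCast_nonneg _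
  have f1 : Dl n K * A = c * m := by
    rw [hA, hc, hm]
    linear_combination e1
  have f2 : Dl (n + 1) K * (A + 1) * A = c * ((n : ℤ) + 1) * (m + 1) := by
    have g1 : Dl (n + 1) K * (A + 1) = ((n + 1).choose K : ℤ) * (m + 1) := by
      rw [hA, hm]
      linear_combination e2
    have g2 : ((n + 1).choose K : ℤ) * A = c * ((n : ℤ) + 1) := by
      rw [hA, hc]
      linear_combination k1
    rw [g1]
    linear_combination (m + 1) * g2
  have f3 : Dl (n + 1) (K + 1) * A = e * (m - 1) := by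
    rw [hA, he, hm]
    linear_combination e3
  have f4 : Dl (n + 2) (K + 1) * (A + 1) * A = e * ((n : ℤ) + 2) * m := by
    have g1 : Dl (n + 2) (K + 1) * (A + 1) = ((n + 2).choose (K + 1) : ℤ) * m := by
      rw [hA, hm]
      linear_combination e4
    have g2 : ((n + 2).choose (K + 1) : ℤ) * A = e * ((n : ℤ) + 2) := by
      rw [hA, he]
      linear_combination k2
    rw [g1]
    linear_combination m * g2
  have hP : 0 < A * A * (A + 1) := by positivity
  refine le_of_mul_le_mul_right ?_ hP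
  have l1 : Dl (n + 1) K * Dl (n + 1) (K + 1) * (A * A * (A + 1)) =
      c * e * (((n : ℤ) + 1) * (m ^ 2 - 1)) := by
    linear_combination (Dl (n + 1) (K + 1) * A) * f2 + (c * ((n : ℤ) + 1) * (m + 1)) * f3
  have l2 : Dl n K * Dl (n + 2) (K + 1) * (A * A * (A + 1)) = c * e * (((n : ℤ) + 2) * m ^ 2) := by
    linear_combination (Dl (n + 2) (K + 1) * (A + 1) * A) * f1 + (c * m) * f4
  rw [l1, l2]
  refine mul_le_mul_of_nonneg_left ?_ (mul_nonneg hc0 he0)
  have hn0 : (0 : ℤ) ≤ n := Int.natCast_nonneg n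
  nlinarith [sq_nonneg m]

end Pool.MP322F
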