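import Pool.Agent.Lib.MP_322c5f_alF.FC01

/-! Diagrams as a first row and the rest. -/

set_option autoImplicit false

open Finset Equiv Nat

namespace Pool.MP322F

open Pool.MP322

/-- the diagram without its first row -/
def tl (mu : YoungDiagram) : YoungDiagram where
  cells := (mu.cells.filter (fun c => 1 ≤ c.1)).image (fun c => (c.1 - 1, c.2))
  isLowerSet := by
    intro a b hab ha
    rw [Finset.mem_coe, Finset.mem_image] at ha ⊢
    obtain ⟨c, hc, rfl⟩ := ha
    rw [Finset.mem_filter] at hc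
    obtain ⟨hc1, hc2⟩ := hc
    have h1 : b.1 ≤ c.1 - 1 := hab.1
    have h2 : b.2 ≤ c.2 := hab.2
    refine ⟨(b.1 + 1, b.2), ?_, ?_⟩
    · rw [Finset.mem_filter]
      refine ⟨?_, by simp⟩
      rw [YoungDiagram.mem_cells] at hc1 ⊢
      exact mu.up_left_mem (by omega) h2 (show (c.1, c.2) ∈ mu from hc1)
    · exact Prod.ext (by simp) rfl

theorem mem_tl {mu : YoungDiagram} {c : ℕ × ℕ} : c ∈ tl mu ↔ (c.1 + 1, c.2) ∈ mu := by
  rw [← YoungDiagram.mem_cells]
  show c ∈ (mu.cells.filter (fun c => 1 ≤ c.1)).image (fun c => (c.1 - 1, c.2)) ↔ _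
  rw [Finset.mem_image]
  constructor
  · rintro ⟨d, hd, rfl⟩
    rw [Finset.mem_filter, YoungDiagram.mem_cells] at hd
    have h1 : ((d.1 - 1 + 1, d.2) : ℕ × ℕ) = d := Prod.ext (by simp; omega) rfl
    simp only
    rw [h1]
    exact hd.1
  · intro h
    refine ⟨(c.1 + 1, c.2), ?_, Prod.ext (by simp) rfl⟩
    rw [Finset.mem_filter, YoungDiagram.mem_cells]
    exact ⟨h, by simp⟩

theorem rowLen_tl (mu : YoungDiagram) (i : ℕ) : (tl mu).rowLen i = mu.rowLen (i + 1) := by
  have h : ∀ j, j < (tl mu).rowLen i ↔ j < mu.rowLen (i + 1) := by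
    intro j
    rw [← YoungDiagram.mem_iff_lt_rowLen, ← YoungDiagram.mem_iff_lt_rowLen, mem_tl]
  have h1 := h (mu.rowLen (i + 1))
  have h2 := h ((tl mu).rowLen i)
  omega

private theorem card_addRow_gen (m : ℕ) (nu : YoungDiagram) (h : ∀ c ∈ nu, c.2 < m) :
    (addRow m nu).card = m + nu.card := by
  have hf : nu.cells.filter (fun c => c.2 < m) = nu.cells := by
    apply Finset.filter_true_of_mem
    intro c hc
    exact h c ((YoungDiagram.mem_cells _).1 hc)
  show ((Finset.range m).image (fun j => ((0, j) : ℕ × ℕ)) ∪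
    (nu.cells.filter (fun c => c.2 < m)).image (fun c => (c.1 + 1, c.2))).card = m + nu.cells.card
  rw [hf, Finset.card_union_of_disjoint, Finset.card_image_of_injective,
    Finset.card_image_of_injective, Finset.card_range]
  · intro a b hab
    have h1 := congrArg Prod.fst hab
    have h2 := congrArg Prod.snd hab
    simp only at h1 h2
    exact Prod.ext (by omega) h2
  · intro a b hab
    exact congrArg Prod.snd hab
  · rw [Finset.disjoint_left]
    intro c hc hc'
    obtain ⟨j, -, rfl⟩ := Finset.mem_image.1 hc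
    obtain ⟨d, -, hd⟩ := Finset.mem_image.1 hc'
    have := congrArg Prod.fst hd
    simp at this

private theorem lt_of_mem {a : ℕ} {nu : YoungDiagram} (h : nu.rowLen 0 ≤ a) {i j : ℕ}
    (hij : (i, j) ∈ nu) : j < a := by
  rw [YoungDiagram.mem_iff_lt_rowLen] at hij
  have := nu.rowLen_anti 0 i (Nat.zero_le _)
  omega

theorem card_addRow' {a : ℕ} {nu : YoungDiagram} (h : nu.rowLen 0 ≤ a) :
    (addRow a nu).card = a + nu.card :=
  card_addRow_gen a nu (fun c hc => lt_of_mem h (show (c.1, c.2) ∈ nu from hc))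

theorem addRow_tl (mu : YoungDiagram) : addRow (mu.rowLen 0) (tl mu) = mu := by
  apply SetLike.ext
  intro c
  rw [mem_addRow]
  constructor
  · rintro ⟨h1, h2 | ⟨i, hi, h3⟩⟩
    · have h4 : c = (0, c.2) := Prod.ext h2 rfl
      rw [h4, YoungDiagram.mem_iff_lt_rowLen]
      exact h1
    · rw [mem_tl] at h3
      have h4 : c = (i + 1, c.2) := Prod.ext hi rfl
      rw [h4]
      exact h3
  · intro hc
    refine ⟨lt_of_mem le_rfl (show (c.1, c.2) ∈ mu from hc), ?_⟩
    rcases Nat.eq_zero_or_pos c.1 with h0 | h0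
    · exact Or.inl h0
    · right
      refine ⟨c.1 - 1, by omega, ?_⟩
      rw [mem_tl]
      have h1 : ((c.1 - 1 + 1, c.2) : ℕ × ℕ) = c := Prod.ext (by simp; omega) rfl
      simp only
      rw [h1]
      exact hc

theorem card_tl (mu : YoungDiagram) : (tl mu).card + mu.rowLen 0 = mu.card := by
  have h : (tl mu).rowLen 0 ≤ mu.rowLen 0 := by
    rw [rowLen_tl]
    exact mu.rowLen_anti 0 (0 + 1) (Nat.zero_le _)
  have h1 := card_addRow' h
  rw [addRow_tl] at h1
  omega

theorem colLen_tl (mu : YoungDiagram) (j : ℕ) : (tl mu).colLen j = mu.colLen j - 1 := by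
  have h : ∀ i, i < (tl mu).colLen j ↔ i + 1 < mu.colLen j := by
    intro i
    rw [← YoungDiagram.mem_iff_lt_colLen, ← YoungDiagram.mem_iff_lt_colLen, mem_tl]
  have h1 := h (mu.colLen j - 1)
  have h2 := h ((tl mu).colLen j)
  omega

theorem tl_addRow {a : ℕ} {nu : YoungDiagram} (h : nu.rowLen 0 ≤ a) : tl (addRow a nu) = nu := by
  apply SetLike.ext
  intro c
  rw [mem_tl, mem_addRow]
  constructor
  · rintro ⟨-, h2 | ⟨i, hi, h3⟩⟩
    · exact absurd h2 (Nat.succ_ne_zero _)
    · have h5 : i = c.1 := by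
        simp only at hi
        omega
      rw [h5] at h3
      exact h3
  · intro hc
    exact ⟨lt_of_mem h (show (c.1, c.2) ∈ nu from hc), Or.inr ⟨c.1, rfl, hc⟩⟩

theorem rowLen_addRow {a : ℕ} {nu : YoungDiagram} (h : nu.rowLen 0 ≤ a) :
    (addRow a nu).rowLen 0 = a := by
  have h0 : ∀ j, j < (addRow a nu).rowLen 0 ↔ j < a := by
    intro j
    rw [← YoungDiagram.mem_iff_lt_rowLen, mem_addRow]
    constructor
    · exact fun h' => h'.1
    · exact fun h' => ⟨h', Or.inl rfl⟩
  have h1 := h0 a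
  have h2 := h0 ((addRow a nu).rowLen 0)
  omega

end Pool.MP322F
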