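import Pool.Agent.Lib.MP_322c5f_alF.FC02

/-! Dimensions of diagrams; removal of a cell. -/

set_option autoImplicit false

open Finset Equiv Nat

namespace Pool.MP322F

open Pool.MP322

private theorem card_mono {a b : YoungDiagram} (h : a ≤ b) : a.card ≤ b.card :=
  Finset.card_le_card (YoungDiagram.cells_subset_iff.2 h)

private theorem eq_of_le_card {a b : YoungDiagram} (h : a ≤ b) (hc : b.card ≤ a.card) : a = b := by
  apply YoungDiagram.ext
  exact Finset.eq_of_subset_of_card_le (YoungDiagram.cells_subset_iff.2 h) hc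

private theorem card_lt_of_lt {a b : YoungDiagram} (h : a < b) : a.card < b.card := by
  by_contra hcon
  exact h.ne (eq_of_le_card h.le (by omega))

private theorem eq_bot_of_card {a : YoungDiagram} (h : a.card = 0) : a = ⊥ :=
  (eq_of_le_card bot_le (by omega)).symm

private theorem rowLen_mono {a b : YoungDiagram} (h : a ≤ b) (i : ℕ) : a.rowLen i ≤ b.rowLen i := by
  by_contra hcon
  have h1 : (i, b.rowLen i) ∈ a := by
    rw [YoungDiagram.mem_iff_lt_rowLen]
    omega
  have h2 : (i, b.rowLen i) ∈ b := h h1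
  rw [YoungDiagram.mem_iff_lt_rowLen] at h2
  omega

private theorem tl_mono {a b : YoungDiagram} (h : a ≤ b) : tl a ≤ tl b := by
  intro c hc
  rw [mem_tl] at hc ⊢
  exact h hc

/-- dimension of a diagram -/
noncomputable def fD (mu : YoungDiagram) : ℝ := fd (⟨mu, rfl⟩ : Y mu.card)

theorem fd_eq_fD {n : ℕ} (mu : Y n) : fd mu = fD mu.1 := by
  obtain ⟨m, hm⟩ := mu
  subst hm
  rfl

theorem fD_pos (mu : YoungDiagram) : 0 < fD mu := by
  exact fd_pos _

theorem one_le_fD (mu : YoungDiagram) : 1 ≤ fD mu := by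
  have h := fD_pos mu
  unfold fD fd at h ⊢
  have h1 : 0 < Fintype.card (Tab ⊥ (⟨mu, rfl⟩ : Y mu.card).1 mu.card) := by exact_mod_cast h
  exact_mod_cast h1

theorem fD_bot : fD ⊥ = 1 := by
  have h0 : (⊥ : YoungDiagram).card = 0 := by simp [YoungDiagram.card]
  have h1 : fD ⊥ = fd (⟨⊥, h0⟩ : Y 0) := (fd_eq_fD (⟨⊥, h0⟩ : Y 0)).symm
  rw [h1]
  unfold fd
  have h2 : Fintype.card (Tab ⊥ (⟨⊥, h0⟩ : Y 0).1 0) = 1 := by
    rw [Fintype.card_eq_one_iff]
    obtain ⟨x⟩ := tab_nonempty (⟨⊥, h0⟩ : Y 0)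
    refine ⟨x, fun y => ?_⟩
    apply Subtype.ext
    funext i
    exact i.elim0
  rw [h2]
  simp

/-- see `Conj.lean` in the library for the dimension of the transposed diagram -/
theorem fD_transpose (mu : YoungDiagram) : fD mu.transpose = fD mu := by
  have h1 := fd_tr (⟨mu, rfl⟩ : Y mu.card)
  rw [fd_eq_fD] at h1
  exact h1

/-- the diagrams obtained by removing a cell -/
noncomputable def dn (mu : YoungDiagram) : Finset YoungDiagram := by
  classical
  exact ((Finset.univ : Finset (Y (mu.card - 1))).filter (fun rho => rho.1 < mu)).image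
    (fun rho => rho.1)

theorem mem_dn {mu rho : YoungDiagram} : rho ∈ dn mu ↔ rho ≤ mu ∧ rho.card + 1 = mu.card := by
  classical
  unfold dn
  rw [Finset.mem_image]
  constructor
  · rintro ⟨r, hr, rfl⟩
    rw [Finset.mem_filter] at hr
    have h1 := card_lt_of_lt hr.2
    have h2 := r.2
    exact ⟨hr.2.le, by omega⟩
  · rintro ⟨h1, h2⟩
    refine ⟨⟨rho, by omega⟩, ?_, rfl⟩
    rw [Finset.mem_filter]
    refine ⟨Finset.mem_univ _, lt_of_le_of_ne h1 ?_⟩
    intro h3
    have h4 : rho.card = mu.card := congrArg YoungDiagram.card h3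
    omega

open Classical in
private theorem sum_dn_aux {n : ℕ} (mu : Y (n + 1)) (F : YoungDiagram → ℝ) :
    ∑ rho ∈ (Finset.univ : Finset (Y n)).filter (fun rho => rho.1 ≤ mu.1), F rho.1 =
      ∑ rho ∈ dn mu.1, F rho := by
  refine Finset.sum_bij (fun rho _ => rho.1) ?_ ?_ ?_ ?_
  · intro r hr
    rw [Finset.mem_filter] at hr
    rw [mem_dn]
    exact ⟨hr.2, by rw [r.2, mu.2]⟩
  · intro r _ t _ hrt
    exact Subtype.ext hrt
  · intro b hb
    rw [mem_dn, mu.2] at hb
    refine ⟨⟨b, by omega⟩, ?_, rfl⟩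
    rw [Finset.mem_filter]
    exact ⟨Finset.mem_univ _, hb.1⟩
  · intro r _
    rfl

/-- every diagram strictly below `mu` is below a diagram obtained by removing a cell -/
private theorem exists_dn {b mu : YoungDiagram} (h : b < mu) : ∃ rho ∈ dn mu, b ≤ rho := by
  have hne : (mu.cells \ b.cells).Nonempty := by
    rw [Finset.sdiff_nonempty]
    intro h1
    exact h.not_ge (YoungDiagram.cells_subset_iff.1 h1)
  obtain ⟨c, hc, hmax⟩ := Finset.exists_max_image (mu.cells \ b.cells) (fun c => c.1 + c.2) hne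
  rw [Finset.mem_sdiff] at hc
  have hcor : ∀ x ∈ mu.cells, c ≤ x → x = c := by
    intro x hx hcx
    have hxb : x ∉ b.cells := fun hxb => hc.2 (b.isLowerSet hcx hxb)
    have h1 := hmax x (Finset.mem_sdiff.2 ⟨hx, hxb⟩)
    have h2 : c.1 ≤ x.1 := hcx.1
    have h3 : c.2 ≤ x.2 := hcx.2
    exact Prod.ext (by omega) (by omega)
  obtain ⟨rho, hrho⟩ : ∃ rho : YoungDiagram, rho.cells = mu.cells.erase c := by
    refine ⟨⟨mu.cells.erase c, ?_⟩, rfl⟩
    intro x y hyx hx
    rw [Finset.mem_coe, Finset.mem_erase] at hx ⊢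
    refine ⟨?_, mu.isLowerSet hyx hx.2⟩
    rintro rfl
    exact hx.1 (hcor x hx.2 hyx)
  refine ⟨rho, mem_dn.2 ⟨?_, ?_⟩, ?_⟩
  · rw [← YoungDiagram.cells_subset_iff, hrho]
    exact Finset.erase_subset _ _
  · show rho.cells.card + 1 = mu.cells.card
    rw [hrho, Finset.card_erase_of_mem hc.1]
    have := Finset.card_pos.2 ⟨c, hc.1⟩
    omega
  · rw [← YoungDiagram.cells_subset_iff, hrho]
    intro x hx
    rw [Finset.mem_erase]
    refine ⟨?_, (YoungDiagram.cells_subset_iff.2 h.le) hx⟩
    rintro rfl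
    exact hc.2 hx

theorem fD_dn {mu : YoungDiagram} (h : mu ≠ ⊥) : fD mu = ∑ rho ∈ dn mu, fD rho := by
  obtain ⟨n, hn⟩ : ∃ n, mu.card = n + 1 := by
    rcases Nat.eq_zero_or_pos mu.card with h0 | h0
    · exact absurd (eq_bot_of_card h0) h
    · exact ⟨mu.card - 1, by omega⟩
  have h1 : fD mu = fd (⟨mu, hn⟩ : Y (n + 1)) := (fd_eq_fD (⟨mu, hn⟩ : Y (n + 1))).symm
  rw [h1, fd_succ, ← sum_dn_aux (⟨mu, hn⟩ : Y (n + 1)) fD]
  exact Finset.sum_congr rfl fun rho _ => fd_eq_fD rho

open Classical in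
/-- sums over the diagrams below `mu` in the two languages -/
theorem sum_dn {n : ℕ} (mu : Y (n + 1)) (F : YoungDiagram → ℝ) :
    ∑ rho ∈ (Finset.univ : Finset (Y n)).filter (fun rho => rho.1 ≤ mu.1), F rho.1 =
      ∑ rho ∈ dn mu.1, F rho := by
  exact sum_dn_aux mu F

/-- removal of a cell from `addRow (a+1) nu`: from the first row or from `nu` -/
theorem dn_addRow {a : ℕ} {nu : YoungDiagram} (h : nu.rowLen 0 ≤ a + 1) (F : YoungDiagram → ℝ) :
    ∑ rho ∈ dn (addRow (a + 1) nu), F rho =
      (if nu.rowLen 0 ≤ a then F (addRow a nu) else 0) +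
        ∑ rho ∈ dn nu, F (addRow (a + 1) rho) := by
  classical
  have hb : ∀ rho ∈ dn nu, rho.rowLen 0 ≤ a + 1 := fun rho hr =>
    (rowLen_mono (mem_dn.1 hr).1 0).trans h
  have hc := card_addRow' h
  have hinj : Set.InjOn (addRow (a + 1)) (dn nu : Set YoungDiagram) := by
    intro x hx y hy hxy
    have h1 := tl_addRow (hb x hx)
    have h2 := tl_addRow (hb y hy)
    rw [← h1, ← h2, hxy]
  have key : ∀ rho, rho ∈ dn (addRow (a + 1) nu) ↔
      (nu.rowLen 0 ≤ a ∧ rho = addRow a nu) ∨ rho ∈ (dn nu).image (addRow (a + 1)) := by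
    intro rho
    rw [mem_dn, hc, Finset.mem_image]
    constructor
    · rintro ⟨h1, h2⟩
      have h3 := card_tl rho
      have h4 : rho.rowLen 0 ≤ a + 1 := by
        have h5 := rowLen_mono h1 0
        rwa [rowLen_addRow h] at h5
      have h5 : tl rho ≤ nu := by
        have h6 := tl_mono h1
        rwa [tl_addRow h] at h6
      have h6 := card_mono h5
      rcases Nat.lt_or_ge (rho.rowLen 0) (a + 1) with h7 | h7
      · left
        have h8 : rho.rowLen 0 = a := by omega
        have h9 : tl rho = nu := eq_of_le_card h5 (by omega)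
        have h10 := addRow_tl rho
        rw [h8, h9] at h10
        refine ⟨?_, h10.symm⟩
        rw [← h9, rowLen_tl, ← h8]
        exact rho.rowLen_anti 0 (0 + 1) (Nat.zero_le _)
      · right
        have h8 : rho.rowLen 0 = a + 1 := by omega
        refine ⟨tl rho, mem_dn.2 ⟨h5, by omega⟩, ?_⟩
        have h10 := addRow_tl rho
        rwa [h8] at h10
    · rintro (⟨h1, rfl⟩ | ⟨r, hr, rfl⟩)
      · refine ⟨?_, ?_⟩
        · intro c hc'
          rw [mem_addRow] at hc' ⊢
          exact ⟨by omega, hc'.2⟩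
        · rw [card_addRow' h1]
          omega
      · refine ⟨?_, ?_⟩
        · intro c hc'
          rw [mem_addRow] at hc' ⊢
          refine ⟨hc'.1, hc'.2.imp id ?_⟩
          rintro ⟨i, hi, hm⟩
          exact ⟨i, hi, (mem_dn.1 hr).1 hm⟩
        · rw [card_addRow' (hb r hr)]
          have := (mem_dn.1 hr).2
          omega
  by_cases ha : nu.rowLen 0 ≤ a
  · have h1 : dn (addRow (a + 1) nu) = insert (addRow a nu) ((dn nu).image (addRow (a + 1))) := by
      ext rho
      rw [key, Finset.mem_insert]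
      simp [ha]
    have h2 : addRow a nu ∉ (dn nu).image (addRow (a + 1)) := by
      intro h3
      obtain ⟨r, hr, h4⟩ := Finset.mem_image.1 h3
      have h5 : (addRow (a + 1) r).rowLen 0 = (addRow a nu).rowLen 0 := by rw [h4]
      rw [rowLen_addRow (hb r hr), rowLen_addRow ha] at h5
      omega
    rw [h1, Finset.sum_insert h2, Finset.sum_image hinj, if_pos ha]
  · have h1 : dn (addRow (a + 1) nu) = (dn nu).image (addRow (a + 1)) := by
      ext rho
      rw [key]
      simp [ha]
    rw [h1, Finset.sum_image hinj, if_neg ha, zero_add]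

/-- the sum of the dimensions over the diagrams of a given size below `nu` -/
theorem sum_below_le (nu : YoungDiagram) (j : ℕ) (T : Finset YoungDiagram)
    (hT : ∀ b ∈ T, b ≤ nu ∧ b.card = j) : ∑ b ∈ T, fD b ≤ fD nu := by
  obtain ⟨m, hm⟩ : ∃ m, nu.card ≤ j + m := ⟨nu.card, by omega⟩
  induction m generalizing nu T with
  | zero =>
    have h1 : T ⊆ {nu} := by
      intro b hb
      obtain ⟨h2, h3⟩ := hT b hb
      rw [Finset.mem_singleton]
      exact eq_of_le_card h2 (by omega)
    calc ∑ b ∈ T, fD b ≤ ∑ b ∈ {nu}, fD b :=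
          Finset.sum_le_sum_of_subset_of_nonneg h1 fun b _ _ => (fD_pos b).le
      _ = fD nu := Finset.sum_singleton _ _
  | succ m ih =>
    rcases Nat.lt_or_ge (j + m) nu.card with h0 | h0
    · classical
      have hc : nu.card = j + m + 1 := by omega
      have hne : nu ≠ ⊥ := by
        rintro rfl
        have h1 : (⊥ : YoungDiagram).card = 0 := by simp [YoungDiagram.card]
        omega
      rw [fD_dn hne]
      have h1 : ∀ rho ∈ dn nu, ∑ b ∈ T.filter (fun b => b ≤ rho), fD b ≤ fD rho := by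
        intro rho hr
        have h2 := (mem_dn.1 hr).2
        refine ih rho (T.filter fun b => b ≤ rho) ?_ (by omega)
        intro b hb
        rw [Finset.mem_filter] at hb
        exact ⟨hb.2, (hT b hb.1).2⟩
      refine le_trans ?_ (Finset.sum_le_sum h1)
      have h2 : ∀ rho ∈ dn nu, ∑ b ∈ T.filter (fun b => b ≤ rho), fD b =
          ∑ b ∈ T, if b ≤ rho then fD b else 0 := by
        intro rho _
        rw [Finset.sum_filter]
      rw [Finset.sum_congr rfl h2, Finset.sum_comm]
      refine Finset.sum_le_sum fun b hb => ?_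
      obtain ⟨h3, h4⟩ := hT b hb
      obtain ⟨rho, hr, hbr⟩ := exists_dn (lt_of_le_of_ne h3 (by
        rintro rfl
        omega))
      calc fD b = if b ≤ rho then fD b else 0 := by rw [if_pos hbr]
        _ ≤ ∑ rho ∈ dn nu, if b ≤ rho then fD b else 0 :=
            Finset.single_le_sum (f := fun rho => if b ≤ rho then fD b else 0) (fun r _ => by
              split_ifs
              · exact (fD_pos b).le
              · exact le_rfl) hr
    · exact ih nu T hT h0

end Pool.MP322F
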