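import Pool.Agent.Lib.MP_322c5f_alF.FC02b

/-! Lower bound for the dimension by the dimension without the first row. -/

set_option autoImplicit false

open Finset Equiv Nat

namespace Pool.MP322F

open Pool.MP322

private theorem row_le_card (nu : YoungDiagram) : nu.rowLen 0 ≤ nu.card := by
  rw [YoungDiagram.rowLen_eq_card]
  exact Finset.card_le_card (Finset.filter_subset _ _)

/-- the recursion for the dimension of `addRow (a+1) nu` -/
private theorem rec_eq {a : ℕ} {nu : YoungDiagram} (h : nu.rowLen 0 ≤ a + 1) :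
    fD (addRow (a + 1) nu) = (if nu.rowLen 0 ≤ a then fD (addRow a nu) else 0) +
      ∑ rho ∈ dn nu, fD (addRow (a + 1) rho) := by
  have hne : addRow (a + 1) nu ≠ ⊥ := by
    intro hb
    have h1 := card_addRow' h
    rw [hb] at h1
    have h2 : (⊥ : YoungDiagram).card = 0 := rfl
    omega
  rw [fD_dn hne, dn_addRow h fD]

private theorem dn_of_card_zero {rho : YoungDiagram} (h : rho.card = 0) : dn rho = ∅ := by
  apply Finset.eq_empty_of_forall_notMem
  intro x hx
  have := (mem_dn.1 hx).2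
  omega

/-- monotonicity of `h(rho,a)` in `a`, from the claim for `rho` -/
private theorem mono_of {j : ℕ}
    (ih : ∀ i, j = i + 1 → ∀ rho : YoungDiagram, rho.card = j → ∀ a : ℕ, j ≤ a →
      (Dl (a + (i + 1)) (i + 1) : ℝ) * ∑ x ∈ dn rho, fD (addRow a x) ≤
        (Dl (a + i) i : ℝ) * fD (addRow a rho))
    {rho : YoungDiagram} (hr : rho.card = j) {a : ℕ} (ha : j ≤ a) :
    (Dl (a + j) j : ℝ) * fD (addRow (a + 1) rho) ≤
      (Dl (a + 1 + j) j : ℝ) * fD (addRow a rho) := by
  have hrow : rho.rowLen 0 ≤ a := (row_le_card rho).trans (by omega)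
  have hrec := rec_eq (a := a) (nu := rho) (by omega)
  rw [if_pos hrow] at hrec
  rcases j with _ | i
  · rw [dn_of_card_zero hr, Finset.sum_empty, add_zero] at hrec
    rw [hrec, Dl_zero, Dl_zero]
  · have h1 := ih i rfl rho hr (a + 1) (by omega)
    have h2 : (Dl (a + 1 + (i + 1)) (i + 1) : ℝ) =
        (Dl (a + 1 + i) (i + 1) : ℝ) + (Dl (a + 1 + i) i : ℝ) := by
      have := Dl_succ (a + 1 + i) i
      rw [show a + 1 + (i + 1) = a + 1 + i + 1 by ring, this]
      push_cast
      ring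
    have e : a + (i + 1) = a + 1 + i := by ring
    rw [e]
    have h3 : ∑ x ∈ dn rho, fD (addRow (a + 1) x) =
        fD (addRow (a + 1) rho) - fD (addRow a rho) := by linarith
    rw [h3] at h1
    have h4 : (Dl (a + 1 + (i + 1)) (i + 1) : ℝ) * fD (addRow (a + 1) rho) =
        (Dl (a + 1 + i) (i + 1) : ℝ) * fD (addRow (a + 1) rho) +
          (Dl (a + 1 + i) i : ℝ) * fD (addRow (a + 1) rho) := by
      rw [h2]; ring
    rw [mul_sub] at h1
    linarith

private theorem claim_aux : ∀ (i : ℕ) (nu : YoungDiagram), nu.card = i + 1 → ∀ a : ℕ, i + 1 ≤ a →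
    (Dl (a + (i + 1)) (i + 1) : ℝ) * ∑ x ∈ dn nu, fD (addRow a x) ≤
      (Dl (a + i) i : ℝ) * fD (addRow a nu) := by
  intro i
  induction i using Nat.strong_induction_on with
  | _ i ih =>
    intro nu hnu a ha
    induction a, ha using Nat.le_induction with
    | base =>
      have hrow := row_le_card nu
      have hrec := rec_eq (a := i) (nu := nu) (by omega)
      have h0 : 0 ≤ (if nu.rowLen 0 ≤ i then fD (addRow i nu) else 0) := by
        split_ifs
        · exact (fD_pos _).le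
        · exact le_refl _
      have h1 : ∑ x ∈ dn nu, fD (addRow (i + 1) x) ≤ fD (addRow (i + 1) nu) := by linarith
      have h2 : (Dl (i + 1 + (i + 1)) (i + 1) : ℝ) = (Dl (i + 1 + i) i : ℝ) := by
        have := Dl_succ (i + 1 + i) i
        have h3 := Dl_half i
        rw [show 2 * i + 1 = i + 1 + i by ring] at h3
        rw [show i + 1 + (i + 1) = i + 1 + i + 1 by ring, this, h3, zero_add]
      rw [h2]
      have h4 : (0 : ℝ) ≤ (Dl (i + 1 + i) i : ℝ) := by
        exact_mod_cast (Dl_pos (by omega)).le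
      exact mul_le_mul_of_nonneg_left h1 h4
    | succ a ha iha =>
      have hrow : nu.rowLen 0 ≤ a := (row_le_card nu).trans (by omega)
      have hrec := rec_eq (a := a) (nu := nu) (by omega)
      rw [if_pos hrow] at hrec
      -- comparison of the sums
      have hT : (Dl (a + i) i : ℝ) * ∑ x ∈ dn nu, fD (addRow (a + 1) x) ≤
          (Dl (a + 1 + i) i : ℝ) * ∑ x ∈ dn nu, fD (addRow a x) := by
        rw [Finset.mul_sum, Finset.mul_sum]
        refine Finset.sum_le_sum fun rho hrho => ?_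
        have hc := (mem_dn.1 hrho).2
        refine mono_of (j := i) ?_ (by omega) (by omega)
        intro i' hi' r hr b hb
        exact ih i' (by omega) r (by omega) b (by omega)
      have hpos : (0 : ℝ) < (Dl (a + i) i : ℝ) := by
        exact_mod_cast Dl_pos (by omega)
      have hpos1 : (0 : ℝ) ≤ (Dl (a + 1 + i) i : ℝ) := by
        exact_mod_cast (Dl_pos (by omega)).le
      have hpos2 : (0 : ℝ) ≤ (Dl (a + 1 + i) (i + 1) : ℝ) := by
        have : (0 : ℤ) < Dl (a + 1 + i) (i + 1) := Dl_pos (by omega)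
        exact_mod_cast this.le
      -- reduced claim
      have hred : (Dl (a + 1 + i) (i + 1) : ℝ) * ∑ x ∈ dn nu, fD (addRow (a + 1) x) ≤
          (Dl (a + 1 + i) i : ℝ) * fD (addRow a nu) := by
        have h5 := mul_le_mul_of_nonneg_left hT hpos2
        have e : a + (i + 1) = a + 1 + i := by ring
        rw [e] at iha
        have h6 := mul_le_mul_of_nonneg_left iha hpos1
        refine le_of_mul_le_mul_left ?_ hpos
        calc (Dl (a + i) i : ℝ) * ((Dl (a + 1 + i) (i + 1) : ℝ) *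
              ∑ x ∈ dn nu, fD (addRow (a + 1) x))
            = (Dl (a + 1 + i) (i + 1) : ℝ) * ((Dl (a + i) i : ℝ) *
              ∑ x ∈ dn nu, fD (addRow (a + 1) x)) := by ring
          _ ≤ (Dl (a + 1 + i) (i + 1) : ℝ) * ((Dl (a + 1 + i) i : ℝ) *
              ∑ x ∈ dn nu, fD (addRow a x)) := h5
          _ = (Dl (a + 1 + i) i : ℝ) * ((Dl (a + 1 + i) (i + 1) : ℝ) *
              ∑ x ∈ dn nu, fD (addRow a x)) := by ring
          _ ≤ (Dl (a + 1 + i) i : ℝ) * ((Dl (a + i) i : ℝ) * fD (addRow a nu)) := h6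
          _ = (Dl (a + i) i : ℝ) * ((Dl (a + 1 + i) i : ℝ) * fD (addRow a nu)) := by ring
      have h2 : (Dl (a + 1 + (i + 1)) (i + 1) : ℝ) =
          (Dl (a + 1 + i) (i + 1) : ℝ) + (Dl (a + 1 + i) i : ℝ) := by
        have := Dl_succ (a + 1 + i) i
        rw [show a + 1 + (i + 1) = a + 1 + i + 1 by ring, this]
        push_cast
        ring
      rw [h2, hrec, add_mul, mul_add]
      linarith

/-- MAIN LEMMA. Let `k = nu.card`, `h(nu,a) = fD (addRow a nu) / Dl (a+k) k` for `a ≥ k`, and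
`S(nu,a) = ∑_(rho ∈ dn nu) h(rho,a)`.  Claim: `S(nu,a) ≤ h(nu,a)` for `a ≥ k ≥ 1`.

Proof by induction on `k`, inside on `a`.  By `dn_addRow`, `fD_dn`:
`Dl (a+k) k h(nu,a) = fD (addRow (a-1) nu) (or 0) + Dl (a+k-1) (k-1) S(nu,a)`.
Start `a = k`: the first term is `≥ 0` and `Dl (2k) k = Dl (2k-1) (k-1)` (`Dl_half`).
Step `a-1 ≥ k`: for all diagrams `rho` with `k-1` cells, `h(rho,a) ≤ h(rho,a-1)` (from the claim
for `rho`: `Dl (a+k-1) (k-1) h(rho,a) ≤ Dl (a+k-2) (k-1) h(rho,a-1) + Dl (a+k-2) (k-2) h(rho,a)`;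
for `k = 1` both are `1`), so that `S(nu,a) ≤ S(nu,a-1) ≤ h(nu,a-1)`; therefore
`Dl (a+k) k h(nu,a) = Dl (a+k-1) k h(nu,a-1) + Dl (a+k-1) (k-1) S(nu,a) ≥ Dl (a+k) k S(nu,a)`.

In the form without division: (`k = nu.card`, `1 ≤ k ≤ a`) -/
theorem claim_S {a : ℕ} {nu : YoungDiagram} (hk : 1 ≤ nu.card) (h : nu.card ≤ a) :
    (Dl (a + nu.card) nu.card : ℝ) * ∑ rho ∈ dn nu, fD (addRow a rho) ≤
      (Dl (a + nu.card - 1) (nu.card - 1) : ℝ) * fD (addRow a nu) := by
  obtain ⟨i, hi⟩ : ∃ i, nu.card = i + 1 := ⟨nu.card - 1, by omega⟩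
  have h1 := claim_aux i nu hi a (by omega)
  rw [hi]
  have e1 : a + (i + 1) - 1 = a + i := by omega
  have e2 : i + 1 - 1 = i := by omega
  rw [e1, e2]
  exact h1

private theorem fD_ge_aux : ∀ (k : ℕ) (nu : YoungDiagram), nu.card = k → ∀ a : ℕ, k ≤ a →
    (Dl (a + k) k : ℝ) * fD nu ≤ fD (addRow a nu) := by
  intro k
  induction k with
  | zero =>
    intro nu hnu a _
    have hb : nu = ⊥ := by
      have : nu.cells = ∅ := Finset.card_eq_zero.1 hnu
      exact YoungDiagram.ext (by rw [this]; rfl)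
    rw [hb, fD_bot, Dl_zero]
    simpa using one_le_fD (addRow a ⊥)
  | succ i ih =>
    intro nu hnu a ha
    have hne : nu ≠ ⊥ := by
      intro hb
      rw [hb] at hnu
      have h2 : (⊥ : YoungDiagram).card = 0 := rfl
      omega
    have h1 := claim_aux i nu hnu a ha
    have hpos : (0 : ℝ) < (Dl (a + i) i : ℝ) := by
      exact_mod_cast Dl_pos (by omega)
    have hpos2 : (0 : ℝ) ≤ (Dl (a + (i + 1)) (i + 1) : ℝ) := by
      have : (0 : ℤ) < Dl (a + (i + 1)) (i + 1) := Dl_pos (by omega)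
      exact_mod_cast this.le
    have h2 : (Dl (a + i) i : ℝ) * fD nu ≤ ∑ x ∈ dn nu, fD (addRow a x) := by
      rw [fD_dn hne, Finset.mul_sum]
      refine Finset.sum_le_sum fun rho hrho => ?_
      have hc := (mem_dn.1 hrho).2
      exact ih rho (by omega) a (by omega)
    have h3 := mul_le_mul_of_nonneg_left h2 hpos2
    refine le_of_mul_le_mul_left ?_ hpos
    calc (Dl (a + i) i : ℝ) * ((Dl (a + (i + 1)) (i + 1) : ℝ) * fD nu)
        = (Dl (a + (i + 1)) (i + 1) : ℝ) * ((Dl (a + i) i : ℝ) * fD nu) := by ring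
      _ ≤ (Dl (a + (i + 1)) (i + 1) : ℝ) * ∑ x ∈ dn nu, fD (addRow a x) := h3
      _ ≤ (Dl (a + i) i : ℝ) * fD (addRow a nu) := h1

/-- `fD (a, nu) ≥ Dl (a+k) k * fD nu` for `a ≥ k = nu.card` -/
theorem fD_ge {a : ℕ} {nu : YoungDiagram} (h : nu.card ≤ a) :
    (Dl (a + nu.card) nu.card : ℝ) * fD nu ≤ fD (addRow a nu) :=
  fD_ge_aux nu.card nu rfl a h

end Pool.MP322F
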