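import Pool.Agent.Lib.MP_322c5f_alF.FC03
import Pool.Agent.Lib.MP_322c5f_alF.FA05
import Pool.Agent.Lib.MP_322c5f_al.SG2

/-! The recursion for the suprema `sv`. -/

set_option autoImplicit false

open Finset Equiv Nat
open scoped NNReal

namespace Pool.MP322F

open Pool.MP322

private theorem fc4_iL_ct {n : ℕ} (p : Perm (Fin n)) : (iL n 1 p).cycleType = p.cycleType := by
  classical
  unfold iL
  rw [Equiv.Perm.viaEmbeddingHom_apply]
  unfold Equiv.Perm.viaEmbedding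
  exact @Equiv.Perm.cycleType_extendDomain _ _ _ _ _ _ _ (fun x => Classical.propDecidable _) _ _

private theorem fc4_sign {n m : ℕ} {p : Perm (Fin n)} {q : Perm (Fin m)}
    (h : p.cycleType = q.cycleType) : Perm.sign p = Perm.sign q := by
  rw [Perm.sign_of_cycleType, Perm.sign_of_cycleType, h]

private theorem fc4_mem {n : ℕ} {τ : Multiset ℕ} :
    τ ∈ typesE n ↔ ∃ σ : Perm (Fin n), Perm.sign σ = 1 ∧ σ ≠ 1 ∧ σ.cycleType = τ := by
  unfold typesE
  simp [and_assoc]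

private theorem fc4_Dp_tr {n : ℕ} (mu : Y n) : Dp mu.tr = Dp mu := by
  unfold Dp
  rw [rowLen_tr, colLen_tr, max_comm]

private theorem fc4_ty_tr {n : ℕ} (mu : Y n) {τ : Multiset ℕ} (hτ : τ ∈ typesE n) :
    ty mu.tr τ = ty mu τ := by
  obtain ⟨σ, h1, _, rfl⟩ := fc4_mem.1 hτ
  rw [ty_cycleType, ty_cycleType, chi_tr, h1]
  simp

private theorem fc4_le {n K : ℕ} {τ : Multiset ℕ} (mu : Y n) (h : K ≤ Dp mu) :
    -(ty mu τ) ≤ fd mu * (sv n K τ : ℝ) := by
  have h1 : Real.toNNReal (-(ty mu τ / fd mu)) ≤ sv n K τ := by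
    unfold sv
    exact Finset.le_sup (f := fun mu : Y n => Real.toNNReal (-(ty mu τ / fd mu)))
      (Finset.mem_filter.2 ⟨Finset.mem_univ _, h⟩)
  have h2 : -(ty mu τ / fd mu) ≤ (sv n K τ : ℝ) :=
    (Real.le_coe_toNNReal _).trans (NNReal.coe_le_coe.2 h1)
  have h3 := fd_pos mu
  have h4 : -(ty mu τ) = fd mu * (-(ty mu τ / fd mu)) := by
    field_simp
  rw [h4]
  exact mul_le_mul_of_nonneg_left h2 h3.le

private theorem fc4_sup {n K : ℕ} {τ : Multiset ℕ} {B : ℝ} (hB : 0 ≤ B)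
    (h : ∀ mu : Y n, K ≤ Dp mu → -(ty mu τ) ≤ fd mu * B) : (sv n K τ : ℝ) ≤ B := by
  have h1 : sv n K τ ≤ Real.toNNReal B := by
    unfold sv
    refine Finset.sup_le ?_
    intro mu hmu
    apply Real.toNNReal_le_toNNReal
    have h2 := h mu (Finset.mem_filter.1 hmu).2
    have h3 := fd_pos mu
    rw [← neg_div, div_le_iff₀ h3]
    linarith
  have h2 := NNReal.coe_le_coe.2 h1
  rwa [Real.coe_toNNReal B hB] at h2

theorem sv_mono {n : ℕ} (τ : Multiset ℕ) {K K' : ℕ} (h : K ≤ K') : sv n K' τ ≤ sv n K τ := by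
  unfold sv
  refine Finset.sup_mono ?_
  intro mu hmu
  rw [Finset.mem_filter] at hmu ⊢
  exact ⟨hmu.1, h.trans hmu.2⟩

theorem FS_mono {n : ℕ} {K K' : ℕ} (h : K ≤ K') : FS n K' ≤ FS n K := by
  unfold FS
  exact Finset.sum_le_sum fun τ _ => sv_mono τ h

open Classical in
/-- the values for types of the smaller symmetric group -/
theorem ty_branch {n : ℕ} (mu : Y (n + 1)) {τ : Multiset ℕ} (hτ : τ ∈ typesE n) :
    ty mu τ =
      ∑ rho ∈ (Finset.univ : Finset (Y n)).filter (fun rho => rho.1 ≤ mu.1), ty rho τ := by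
  obtain ⟨σ, _, _, rfl⟩ := fc4_mem.1 hτ
  have h1 : ty mu σ.cycleType = chi mu (iL n 1 σ) := by
    rw [← fc4_iL_ct, ty_cycleType]
  rw [h1, chi_branch]
  refine Finset.sum_congr rfl fun rho _ => ?_
  rw [ty_cycleType]

theorem typesE_mono (n : ℕ) : typesE n ⊆ typesE (n + 1) := by
  intro τ hτ
  obtain ⟨σ, h1, h2, rfl⟩ := fc4_mem.1 hτ
  refine fc4_mem.2 ⟨iL n 1 σ, ?_, ?_, fc4_iL_ct σ⟩
  · rw [fc4_sign (fc4_iL_ct σ), h1]
  · intro h3
    apply h2
    have h4 := fc4_iL_ct σ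
    rw [h3, Perm.cycleType_one] at h4
    exact Perm.cycleType_eq_zero.1 h4.symm

theorem mem_typesE_succ {n : ℕ} {τ : Multiset ℕ} (h : τ ∈ typesE (n + 1)) :
    τ ∈ typesE n ∨ τ.sum = n + 1 := by
  obtain ⟨σ, h1, h2, rfl⟩ := fc4_mem.1 h
  by_cases h3 : σ.cycleType.sum = n + 1
  · exact Or.inr h3
  · left
    have h4 : σ.cycleType.sum ≤ n + 1 := by
      rw [Perm.sum_cycleType]
      exact (Finset.card_le_univ _).trans (by simp)
    have h5 : ∃ g : Perm (Fin n), g.cycleType = σ.cycleType := by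
      rw [Perm.exists_with_cycleType_iff]
      refine ⟨?_, fun a ha => Perm.two_le_of_mem_cycleType ha⟩
      rw [Fintype.card_fin]
      omega
    obtain ⟨g, hg⟩ := h5
    refine fc4_mem.2 ⟨g, ?_, ?_, hg⟩
    · rw [fc4_sign hg, h1]
    · intro h6
      rw [h6, Perm.cycleType_one] at hg
      exact h2 (Perm.cycleType_eq_zero.1 hg.symm)

private theorem fc4_row {n : ℕ} (mu : Y n) (h : mu.1.rowLen 0 = n) (c : ℕ × ℕ) (hc : c ∈ mu.1) :
    c.1 = 0 := by
  have h1 : (mu.1.row 0).card = mu.1.cells.card := by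
    rw [← YoungDiagram.rowLen_eq_card, h]
    exact mu.2.symm
  have h2 : mu.1.row 0 = mu.1.cells :=
    Finset.eq_of_subset_of_card_le (Finset.filter_subset _ _) h1.ge
  have h3 : c ∈ mu.1.row 0 := by
    rw [h2]
    exact (YoungDiagram.mem_cells _).2 hc
  exact (YoungDiagram.mem_row_iff.1 h3).2

private theorem fc4_tab {n : ℕ} (mu : Y n) (h : mu.1.rowLen 0 = n) (x : Tab ⊥ mu.1 n) :
    ∀ (k : ℕ) (hk : k < n), x.1 ⟨k, hk⟩ = (0, k) := by
  have h0 : ∀ i, (x.1 i).1 = 0 := fun i => fc4_row mu h _ ((x.2.2.2.1 _).2 (Or.inr ⟨i, rfl⟩))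
  intro k
  induction k using Nat.strong_induction_on with
  | _ k ih =>
    intro hk
    have h1 : (x.1 ⟨k, hk⟩).2 = k := by
      rcases lt_trichotomy (x.1 ⟨k, hk⟩).2 k with h2 | h2 | h2
      · exfalso
        have h3 := ih _ h2 (h2.trans hk)
        have h4 : x.1 ⟨(x.1 ⟨k, hk⟩).2, h2.trans hk⟩ = x.1 ⟨k, hk⟩ := by
          rw [h3]
          exact Prod.ext (h0 _).symm rfl
        have h5 := x.2.1 h4
        have h6 := congrArg Fin.val h5
        simp only at h6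
        omega
      · exact h2
      · exfalso
        have h3 : ((0 : ℕ), k) ≤ x.1 ⟨k, hk⟩ := Prod.mk_le_mk.2 ⟨Nat.zero_le _, h2.le⟩
        rcases x.2.2.2.2 ⟨k, hk⟩ (0, k) h3 with h4 | ⟨j, hj, h4⟩
        · exact YoungDiagram.notMem_bot _ h4
        · have hj' : j.1 ≤ k := hj
          rcases Nat.lt_or_ge j.1 k with h5 | h5
          · have h6 := ih j.1 h5 j.2
            have h7 : x.1 ⟨j.1, j.2⟩ = x.1 j := rfl
            rw [h7, h4] at h6
            have h8 := congrArg Prod.snd h6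
            simp only at h8
            omega
          · have h6 : j = ⟨k, hk⟩ := Fin.ext (le_antisymm hj' h5)
            rw [h6] at h4
            rw [h4] at h2
            exact lt_irrefl _ h2
    exact Prod.ext (h0 _) h1

private theorem fc4_chi_row {n : ℕ} (mu : Y n) (h : mu.1.rowLen 0 = n) (σ : Perm (Fin n)) :
    0 ≤ chi mu σ := by
  unfold chi Matrix.trace
  refine Finset.sum_nonneg fun x _ => ?_
  have hx : x = rT mu := by
    apply Subtype.ext
    funext i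
    have h1 := fc4_tab mu h x i.1 i.2
    have h2 := fc4_tab mu h (rT mu) i.1 i.2
    have h3 : (⟨i.1, i.2⟩ : Fin n) = i := rfl
    rw [h3] at h1 h2
    rw [h1, h2]
  have h0 : ∀ i, rw' mu i = 0 := by
    intro i
    have h2 := fc4_tab mu h (rT mu) i.1 i.2
    have h3 : (⟨i.1, i.2⟩ : Fin n) = i := rfl
    rw [h3] at h2
    change ((rT mu).1 i).1 = 0
    rw [h2]
  have h1 := rep_rT mu σ (fun i => by rw [h0, h0]) x
  rw [Matrix.diag_apply]
  nth_rewrite 2 [hx]
  rw [h1, if_pos hx]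
  exact zero_le_one

private theorem fc4_dp0 {n : ℕ} (mu : Y n) (h : Dp mu = 0) {τ : Multiset ℕ} (hτ : τ ∈ typesE n) :
    0 ≤ ty mu τ := by
  have key : ∀ mu : Y n, mu.1.rowLen 0 = n → 0 ≤ ty mu τ := by
    intro mu h1
    obtain ⟨σ, _, _, rfl⟩ := fc4_mem.1 hτ
    rw [ty_cycleType]
    exact fc4_chi_row mu h1 σ
  unfold Dp at h
  have h1 := rowLen_le mu
  have h2 := rowLen_le mu.tr
  rw [rowLen_tr] at h2
  rcases le_total (mu.1.colLen 0) (mu.1.rowLen 0) with h3 | h3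
  · rw [max_eq_left h3] at h
    exact key mu (by omega)
  · rw [max_eq_right h3] at h
    rw [← fc4_ty_tr mu hτ]
    refine key mu.tr ?_
    rw [rowLen_tr]
    omega

/-- at depth zero nothing happens: the row and the column have nonnegative values on even types -/
theorem sv_zero_eq {n : ℕ} (τ : Multiset ℕ) (hτ : τ ∈ typesE n) : sv n 0 τ = sv n 1 τ := by
  refine le_antisymm ?_ (sv_mono τ (Nat.zero_le 1))
  have h1 : (sv n 0 τ : ℝ) ≤ (sv n 1 τ : ℝ) := by
    refine fc4_sup (NNReal.coe_nonneg _) ?_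
    intro mu _
    rcases Nat.eq_zero_or_pos (Dp mu) with h | h
    · have h2 := fc4_dp0 mu h hτ
      have h3 := fd_pos mu
      have h4 : 0 ≤ fd mu * (sv n 1 τ : ℝ) := mul_nonneg h3.le (NNReal.coe_nonneg _)
      linarith
    · exact fc4_le mu h
  exact_mod_cast h1

theorem sv_step_zero {n : ℕ} {τ : Multiset ℕ} (hτ : τ ∈ typesE n) :
    sv (n + 1) 0 τ ≤ sv n 0 τ := by
  classical
  have h1 : (sv (n + 1) 0 τ : ℝ) ≤ (sv n 0 τ : ℝ) := by
    refine fc4_sup (NNReal.coe_nonneg _) ?_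
    intro mu _
    rw [ty_branch mu hτ, fd_succ mu, ← Finset.sum_neg_distrib, Finset.sum_mul]
    exact Finset.sum_le_sum fun rho _ => fc4_le rho (Nat.zero_le _)
  exact_mod_cast h1

private theorem fc4_mono {a b : YoungDiagram} (h : a ≤ b) : a.rowLen 0 ≤ b.rowLen 0 := by
  by_contra hcon
  push Not at hcon
  have h1 : ((0 : ℕ), b.rowLen 0) ∈ a := YoungDiagram.mem_iff_lt_rowLen.2 hcon
  have h2 : ((0 : ℕ), b.rowLen 0) ∈ b := h h1
  have h3 := YoungDiagram.mem_iff_lt_rowLen.1 h2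
  omega

private theorem fc4_monoc {a b : YoungDiagram} (h : a ≤ b) : a.colLen 0 ≤ b.colLen 0 := by
  by_contra hcon
  push Not at hcon
  have h1 : (b.colLen 0, (0 : ℕ)) ∈ a := YoungDiagram.mem_iff_lt_colLen.2 hcon
  have h2 : (b.colLen 0, (0 : ℕ)) ∈ b := h h1
  have h3 := YoungDiagram.mem_iff_lt_colLen.1 h2
  omega

private theorem fc4_Dp_le {n : ℕ} (mu : Y (n + 1)) (rho : Y n) (h : rho.1 ≤ mu.1) :
    Dp mu ≤ Dp rho + 1 := by
  unfold Dp
  have h1 := fc4_mono h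
  have h2 := fc4_monoc h
  have h3 := max_le_max h1 h2
  omega

private theorem fc4_col {n : ℕ} (mu : Y (n + 1)) : mu.1.rowLen 0 + mu.1.colLen 0 ≤ n + 2 := by
  have h1 := card_tl mu.1
  have h2 : mu.1.card = n + 1 := mu.2
  have h3 := colLen_tl mu.1 0
  have h4 : (tl mu.1).colLen 0 ≤ (tl mu.1).card := by
    rw [YoungDiagram.colLen_eq_card]
    exact Finset.card_le_card (Finset.filter_subset _ _)
  omega

open Classical in
/-- the case of depth exactly `K` -/
private theorem fc4_main {n K : ℕ} {τ : Multiset ℕ} (hK : 1 ≤ K) (h2 : 2 * K + 1 ≤ n)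
    (hτ : τ ∈ typesE n) (mu : Y (n + 1)) (ha : mu.1.rowLen 0 + K = n + 1) :
    (Dl n K : ℝ) * (-(ty mu τ)) ≤ fd mu *
      ((Dl (n - 1) (K - 1) : ℝ) * sv n (K - 1) τ + (Dl (n - 1) K : ℝ) * sv n K τ) := by
  obtain ⟨a, ha1⟩ : ∃ a, mu.1.rowLen 0 = a + 1 := ⟨mu.1.rowLen 0 - 1, by omega⟩
  obtain ⟨nu, hnu⟩ : ∃ nu, nu = tl mu.1 := ⟨_, rfl⟩
  have hmu : addRow (a + 1) nu = mu.1 := by
    rw [hnu, ← ha1]
    exact addRow_tl mu.1
  have hcard : nu.card = K := by
    have h3 := card_tl mu.1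
    have h4 : mu.1.card = n + 1 := mu.2
    rw [hnu]
    omega
  have hrl : nu.rowLen 0 ≤ K := by
    rw [← hcard, YoungDiagram.rowLen_eq_card]
    exact Finset.card_le_card (Finset.filter_subset _ _)
  have hcol := fc4_col mu
  -- the bound for a smaller diagram as a function of the diagram
  obtain ⟨F, hF⟩ : ∃ F : YoungDiagram → ℝ, F = fun d => if hd : d.card = n then
    -(ty (⟨d, hd⟩ : Y n) τ) else 0 := ⟨_, rfl⟩
  have hF' : ∀ rho : Y n, -(ty rho τ) = F rho.1 := by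
    intro rho
    rw [hF]
    simp only
    rw [dif_pos rho.2]
    rfl
  have hsum : -(ty mu τ) = F (addRow a nu) + ∑ rho ∈ dn nu, F (addRow (a + 1) rho) := by
    rw [ty_branch mu hτ, ← Finset.sum_neg_distrib, Finset.sum_congr rfl fun rho _ => hF' rho,
      sum_dn mu F, ← hmu, dn_addRow (by omega) F, if_pos (by omega)]
  have hdim : fd mu = fD (addRow a nu) + ∑ rho ∈ dn nu, fD (addRow (a + 1) rho) := by
    rw [fd_succ mu, Finset.sum_congr rfl fun rho _ => fd_eq_fD rho, sum_dn mu fD, ← hmu,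
      dn_addRow (by omega) fD, if_pos (by omega)]
  have hb1 : F (addRow a nu) ≤ fD (addRow a nu) * (sv n K τ : ℝ) := by
    have hc : (addRow a nu).card = n := by
      rw [card_addRow' (by omega)]
      omega
    have h3 := hF' (⟨addRow a nu, hc⟩ : Y n)
    rw [← h3]
    have h4 := fd_eq_fD (⟨addRow a nu, hc⟩ : Y n)
    rw [← h4]
    refine fc4_le _ ?_
    unfold Dp
    have h5 : (addRow a nu).rowLen 0 = a := rowLen_addRow (by omega)
    have h6 : (addRow a nu).colLen 0 ≤ mu.1.colLen 0 := by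
      apply fc4_monoc
      rw [← hmu]
      intro c hc'
      have h7 := mem_addRow.1 hc'
      exact mem_addRow.2 ⟨h7.1.trans (Nat.lt_succ_self a), h7.2⟩
    change K ≤ n - max ((addRow a nu).rowLen 0) ((addRow a nu).colLen 0)
    rw [h5]
    have h7 : max a ((addRow a nu).colLen 0) = a := max_eq_left (by omega)
    rw [h7]
    omega
  have hb2 : ∀ rho ∈ dn nu, F (addRow (a + 1) rho) ≤
      fD (addRow (a + 1) rho) * (sv n (K - 1) τ : ℝ) := by
    intro rho hrho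
    obtain ⟨h3, h4⟩ := mem_dn.1 hrho
    have h5 := fc4_mono h3
    have hc : (addRow (a + 1) rho).card = n := by
      rw [card_addRow' (by omega)]
      omega
    have h6 := hF' (⟨addRow (a + 1) rho, hc⟩ : Y n)
    rw [← h6]
    have h7 := fd_eq_fD (⟨addRow (a + 1) rho, hc⟩ : Y n)
    rw [← h7]
    refine fc4_le _ ?_
    have h8 : Dp mu ≤ Dp (⟨addRow (a + 1) rho, hc⟩ : Y n) + 1 := by
      apply fc4_Dp_le
      rw [← hmu]
      intro c hc'
      obtain ⟨h9, h10⟩ := mem_addRow.1 hc'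
      refine mem_addRow.2 ⟨h9, ?_⟩
      rcases h10 with h10 | ⟨i, hi, h10⟩
      · exact Or.inl h10
      · exact Or.inr ⟨i, hi, h3 h10⟩
    have h9 : Dp mu = K := by
      unfold Dp
      have h10 : max (mu.1.rowLen 0) (mu.1.colLen 0) = mu.1.rowLen 0 := max_eq_left (by omega)
      rw [h10]
      omega
    omega
  obtain ⟨W, hW⟩ : ∃ W, W = ∑ rho ∈ dn nu, fD (addRow (a + 1) rho) := ⟨_, rfl⟩
  have hW0 : 0 ≤ W := by
    rw [hW]
    exact Finset.sum_nonneg fun rho _ => (fD_pos _).le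
  have hb3 : ∑ rho ∈ dn nu, F (addRow (a + 1) rho) ≤ W * (sv n (K - 1) τ : ℝ) := by
    rw [hW, Finset.sum_mul]
    exact Finset.sum_le_sum hb2
  have hfD : fD (addRow (a + 1) nu) = fd mu := by
    rw [hmu, fd_eq_fD]
  have hcl := claim_S (a := a + 1) (nu := nu) (by omega) (by omega)
  rw [hcard, ← hW, hfD] at hcl
  have e1 : a + 1 + K = n + 1 := by omega
  rw [e1] at hcl
  rw [Nat.add_sub_cancel] at hcl
  have hrat := Dl_ratio_mono (n := n - 1) (K := K - 1) (by omega)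
  have e2 : n - 1 + 1 = n := by omega
  have e3 : K - 1 + 1 = K := by omega
  have e4 : n - 1 + 2 = n + 1 := by omega
  rw [e2, e3, e4] at hrat
  have hrat' : (Dl n (K - 1) : ℝ) * (Dl n K : ℝ) ≤ (Dl (n - 1) (K - 1) : ℝ) * (Dl (n + 1) K : ℝ) := by
    exact_mod_cast hrat
  have hp1 : (0 : ℝ) < (Dl (n + 1) K : ℝ) := by exact_mod_cast Dl_pos (by omega)
  have hp2 : (0 : ℝ) < (Dl n K : ℝ) := by exact_mod_cast Dl_pos (by omega)
  have hfd := fd_pos mu
  have hDW : (Dl n K : ℝ) * W ≤ (Dl (n - 1) (K - 1) : ℝ) * fd mu := by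
    have h3 : (Dl (n + 1) K : ℝ) * ((Dl n K : ℝ) * W) ≤
        (Dl (n + 1) K : ℝ) * ((Dl (n - 1) (K - 1) : ℝ) * fd mu) := by
      calc (Dl (n + 1) K : ℝ) * ((Dl n K : ℝ) * W) = (Dl n K : ℝ) * ((Dl (n + 1) K : ℝ) * W) := by
            ring
        _ ≤ (Dl n K : ℝ) * ((Dl n (K - 1) : ℝ) * fd mu) := mul_le_mul_of_nonneg_left hcl hp2.le
        _ = ((Dl n (K - 1) : ℝ) * (Dl n K : ℝ)) * fd mu := by ring
        _ ≤ ((Dl (n - 1) (K - 1) : ℝ) * (Dl (n + 1) K : ℝ)) * fd mu :=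
            mul_le_mul_of_nonneg_right hrat' hfd.le
        _ = _ := by ring
    exact le_of_mul_le_mul_left h3 hp1
  have hD : (Dl n K : ℝ) = (Dl (n - 1) (K - 1) : ℝ) + (Dl (n - 1) K : ℝ) := by
    have h3 := Dl_succ (n - 1) (K - 1)
    rw [e2, e3] at h3
    rw [h3]
    push_cast
    ring
  have hs : (sv n K τ : ℝ) ≤ (sv n (K - 1) τ : ℝ) := NNReal.coe_le_coe.2 (sv_mono τ (Nat.sub_le K 1))
  rw [← hW] at hdim
  have h5 : -(ty mu τ) ≤ fd mu * (sv n K τ : ℝ) + W * ((sv n (K - 1) τ : ℝ) - (sv n K τ : ℝ)) := by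
    rw [hsum, hdim]
    nlinarith
  calc (Dl n K : ℝ) * (-(ty mu τ)) ≤
      (Dl n K : ℝ) * (fd mu * (sv n K τ : ℝ) + W * ((sv n (K - 1) τ : ℝ) - (sv n K τ : ℝ))) :=
        mul_le_mul_of_nonneg_left h5 hp2.le
    _ = fd mu * (Dl n K : ℝ) * (sv n K τ : ℝ) +
        ((Dl n K : ℝ) * W) * ((sv n (K - 1) τ : ℝ) - (sv n K τ : ℝ)) := by ring
    _ ≤ fd mu * (Dl n K : ℝ) * (sv n K τ : ℝ) +
        ((Dl (n - 1) (K - 1) : ℝ) * fd mu) * ((sv n (K - 1) τ : ℝ) - (sv n K τ : ℝ)) := by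
        have := mul_le_mul_of_nonneg_right hDW (sub_nonneg.2 hs)
        linarith
    _ = _ := by
        rw [hD]
        ring

/-- MAIN.  Let `mu` have `n+1` cells and depth `k ≥ K`, first row `a ≥` first column (otherwise
transpose: even types have the same values and dimensions); `ty_branch`, `fd_succ`:
`ty mu τ / fd mu = ∑ rho, (fd rho / fd mu) * (ty rho τ / fd rho)`, all `rho` have depth `≥ K - 1`.
If `k > K` all have depth `≥ K`.  If `k = K` and `2K = n`, then `Dl (n-1) K = 0` and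
`Dl n K = Dl (n-1) (K-1)`, nothing more is needed.  If `k = K`, `2K ≤ n - 1`: then
`a = n+1-K ≥ K+2`, the first column is at most `K+1 ≤ a-1`; the diagram with a cell of the first row
removed has depth `K`, the others (those of `claim_S`) have total weight at most
`Dl n (K-1) / Dl (n+1) K ≤ Dl (n-1) (K-1) / Dl n K` (`Dl_ratio_mono`). -/
theorem sv_step {n K : ℕ} {τ : Multiset ℕ} (hK : 1 ≤ K) (h2 : 2 * K ≤ n) (hτ : τ ∈ typesE n) :
    (Dl n K : ℝ) * sv (n + 1) K τ ≤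
      (Dl (n - 1) (K - 1) : ℝ) * sv n (K - 1) τ + (Dl (n - 1) K : ℝ) * sv n K τ := by
  classical
  have hD : (Dl n K : ℝ) = (Dl (n - 1) (K - 1) : ℝ) + (Dl (n - 1) K : ℝ) := by
    have h3 := Dl_succ (n - 1) (K - 1)
    have e2 : n - 1 + 1 = n := by omega
    have e3 : K - 1 + 1 = K := by omega
    rw [e2, e3] at h3
    rw [h3]
    push_cast
    ring
  have hp1 : (0 : ℝ) < (Dl (n - 1) (K - 1) : ℝ) := by exact_mod_cast Dl_pos (by omega)
  have hp2 : (0 : ℝ) < (Dl n K : ℝ) := by exact_mod_cast Dl_pos h2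
  have hp3 : (0 : ℝ) ≤ (Dl (n - 1) K : ℝ) := by
    rcases Nat.lt_or_ge (2 * K) n with h | h
    · have h3 : 0 < Dl (n - 1) K := Dl_pos (by omega)
      exact_mod_cast h3.le
    · have e1 : n - 1 = 2 * (K - 1) + 1 := by omega
      have e3 : K - 1 + 1 = K := by omega
      have h3 := Dl_half (K - 1)
      rw [e3, ← e1] at h3
      rw [h3]
      simp
  have hs : (sv n K τ : ℝ) ≤ (sv n (K - 1) τ : ℝ) := NNReal.coe_le_coe.2 (sv_mono τ (Nat.sub_le K 1))
  have hs0 : (0 : ℝ) ≤ (sv n K τ : ℝ) := NNReal.coe_nonneg _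
  have hs1 : (0 : ℝ) ≤ (sv n (K - 1) τ : ℝ) := NNReal.coe_nonneg _
  obtain ⟨R, hR⟩ : ∃ R, R = (Dl (n - 1) (K - 1) : ℝ) * sv n (K - 1) τ +
      (Dl (n - 1) K : ℝ) * sv n K τ := ⟨_, rfl⟩
  rw [← hR]
  have hR0 : 0 ≤ R := by
    rw [hR]
    exact add_nonneg (mul_nonneg hp1.le hs1) (mul_nonneg hp3 hs0)
  have hRK : (Dl n K : ℝ) * (sv n K τ : ℝ) ≤ R := by
    rw [hR, hD]
    nlinarith
  -- it suffices to treat the diagrams whose first row is the longest
  have key : ∀ mu : Y (n + 1), K ≤ Dp mu → mu.1.colLen 0 ≤ mu.1.rowLen 0 →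
      (Dl n K : ℝ) * (-(ty mu τ)) ≤ fd mu * R := by
    intro mu hmu hcr
    have hlo : ∀ J, (∀ rho : Y n, rho.1 ≤ mu.1 → J ≤ Dp rho) →
        -(ty mu τ) ≤ fd mu * (sv n J τ : ℝ) := by
      intro J hJ
      rw [ty_branch mu hτ, fd_succ mu, ← Finset.sum_neg_distrib, Finset.sum_mul]
      refine Finset.sum_le_sum fun rho hrho => fc4_le rho (hJ rho ?_)
      exact (Finset.mem_filter.1 hrho).2
    have hfd := fd_pos mu
    rcases Nat.lt_or_ge K (Dp mu) with h | h
    · have h3 := hlo K (fun rho hrho => by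
        have := fc4_Dp_le mu rho hrho
        omega)
      calc (Dl n K : ℝ) * (-(ty mu τ)) ≤ (Dl n K : ℝ) * (fd mu * (sv n K τ : ℝ)) :=
            mul_le_mul_of_nonneg_left h3 hp2.le
        _ = fd mu * ((Dl n K : ℝ) * (sv n K τ : ℝ)) := by ring
        _ ≤ fd mu * R := mul_le_mul_of_nonneg_left hRK hfd.le
    · have hDK : Dp mu = K := le_antisymm h hmu
      rcases Nat.lt_or_ge (2 * K) n with h4 | h4
      · rw [hR]
        refine fc4_main hK (by omega) hτ mu ?_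
        unfold Dp at hDK
        rw [max_eq_left hcr] at hDK
        have := rowLen_le mu
        omega
      · have h3 := hlo (K - 1) (fun rho hrho => by
          have := fc4_Dp_le mu rho hrho
          omega)
        have h5 : (Dl (n - 1) K : ℝ) = 0 := by
          have e1 : n - 1 = 2 * (K - 1) + 1 := by omega
          have e3 : K - 1 + 1 = K := by omega
          have h3 := Dl_half (K - 1)
          rw [e3, ← e1] at h3
          rw [h3]
          simp
        rw [h5, add_zero] at hD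
        rw [h5, zero_mul, add_zero] at hR
        calc (Dl n K : ℝ) * (-(ty mu τ)) ≤ (Dl n K : ℝ) * (fd mu * (sv n (K - 1) τ : ℝ)) :=
              mul_le_mul_of_nonneg_left h3 hp2.le
          _ = fd mu * R := by
              rw [hD, hR]
              ring
  have hfin : (sv (n + 1) K τ : ℝ) ≤ R / (Dl n K : ℝ) := by
    refine fc4_sup (div_nonneg hR0 hp2.le) ?_
    intro mu hmu
    have h3 : (Dl n K : ℝ) * (-(ty mu τ)) ≤ fd mu * R := by
      rcases le_total (mu.1.colLen 0) (mu.1.rowLen 0) with h4 | h4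
      · exact key mu hmu h4
      · have h5 := key mu.tr (by rw [fc4_Dp_tr]; exact hmu) (by rw [rowLen_tr, colLen_tr]; exact h4)
        rw [fc4_ty_tr mu (typesE_mono n hτ), fd_tr] at h5
        exact h5
    rw [← mul_div_assoc, le_div_iff₀ hp2]
    linarith
  rw [le_div_iff₀ hp2] at hfin
  linarith

private theorem fc4_split (n K : ℕ) :
    (FS (n + 1) K : ℝ) = ∑ τ ∈ typesE n, (sv (n + 1) K τ : ℝ) + (NW (n + 1) K : ℝ) := by
  classical
  have h1 : typesE (n + 1) = typesE n ∪ (typesE (n + 1)).filter (fun τ => τ.sum = n + 1) := by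
    ext τ
    rw [Finset.mem_union, Finset.mem_filter]
    constructor
    · intro h
      rcases mem_typesE_succ h with h2 | h2
      · exact Or.inl h2
      · exact Or.inr ⟨h, h2⟩
    · rintro (h | h)
      · exact typesE_mono n h
      · exact h.1
  have h2 : Disjoint (typesE n) ((typesE (n + 1)).filter (fun τ => τ.sum = n + 1)) := by
    rw [Finset.disjoint_left]
    intro τ h3 h4
    have h5 := (bsum_mem h3).2.2
    have h6 := (Finset.mem_filter.1 h4).2
    omega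
  unfold FS NW
  rw [h1, Finset.sum_union h2, ← h1]
  push_cast
  rfl

theorem FS_step {n K : ℕ} (hK : 1 ≤ K) (h2 : 2 * K ≤ n) :
    (Dl n K : ℝ) * FS (n + 1) K ≤ (Dl (n - 1) (K - 1) : ℝ) * FS n (K - 1) +
      (Dl (n - 1) K : ℝ) * FS n K + (Dl n K : ℝ) * NW (n + 1) K := by
  have hp2 : (0 : ℝ) < (Dl n K : ℝ) := by exact_mod_cast Dl_pos h2
  rw [fc4_split, mul_add, Finset.mul_sum]
  have h3 : ∑ τ ∈ typesE n, (Dl n K : ℝ) * (sv (n + 1) K τ : ℝ) ≤
      ∑ τ ∈ typesE n, ((Dl (n - 1) (K - 1) : ℝ) * sv n (K - 1) τ +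
        (Dl (n - 1) K : ℝ) * sv n K τ) := Finset.sum_le_sum fun τ hτ => sv_step hK h2 hτ
  rw [Finset.sum_add_distrib, ← Finset.mul_sum, ← Finset.mul_sum, ← Finset.mul_sum] at h3
  have h4 : ∀ J, (FS n J : ℝ) = ∑ τ ∈ typesE n, (sv n J τ : ℝ) := by
    intro J
    unfold FS
    push_cast
    rfl
  rw [← h4 (K - 1), ← h4 K] at h3
  rw [← Finset.mul_sum]
  linarith

theorem FS_step_zero (n : ℕ) : (FS (n + 1) 0 : ℝ) ≤ FS n 0 + NW (n + 1) 0 := by
  rw [fc4_split]
  have h3 : ∑ τ ∈ typesE n, (sv (n + 1) 0 τ : ℝ) ≤ ∑ τ ∈ typesE n, (sv n 0 τ : ℝ) :=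
    Finset.sum_le_sum fun τ hτ => NNReal.coe_le_coe.2 (sv_step_zero hτ)
  have h4 : (FS n 0 : ℝ) = ∑ τ ∈ typesE n, (sv n 0 τ : ℝ) := by
    unfold FS
    push_cast
    rfl
  rw [h4]
  linarith

/-- comparison principle: a majorant `G n K` of `Dl (n-1) K * FS n K` -/
theorem FS_majorant {M : ℕ} (hM : 1 ≤ M) (G : ℕ → ℕ → ℝ) (hG0 : ∀ n K, M ≤ n → 0 ≤ G n K)
    (hM0 : ∀ K, 2 * K + 1 ≤ M → (Dl (M - 1) K : ℝ) * FS M K ≤ G M K)
    (hz : ∀ n, M ≤ n → G n 0 + NW (n + 1) 0 ≤ G (n + 1) 0)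
    (hs : ∀ n K, M ≤ n → 2 * (K + 1) ≤ n →
      G n K + G n (K + 1) + (Dl n (K + 1) : ℝ) * NW (n + 1) (K + 1) ≤ G (n + 1) (K + 1)) :
    ∀ n K, M ≤ n → 2 * K + 1 ≤ n → (Dl (n - 1) K : ℝ) * FS n K ≤ G n K := by
  intro n K hn
  induction n, hn using Nat.le_induction generalizing K with
  | base => exact hM0 K
  | succ n hn ih =>
    intro h
    rw [Nat.add_sub_cancel]
    rcases Nat.eq_zero_or_pos K with h0 | h0
    · subst h0
      have h1 := ih 0 (by omega)
      rw [Dl_zero] at h1 ⊢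
      have h2 := FS_step_zero n
      have h3 := hz n hn
      push_cast at h1 ⊢
      linarith
    · obtain ⟨J, rfl⟩ : ∃ J, K = J + 1 := ⟨K - 1, by omega⟩
      have h1 := ih J (by omega)
      have h2 := FS_step (n := n) (K := J + 1) h0 (by omega)
      rw [Nat.add_sub_cancel] at h2
      have h3 := hs n J hn (by omega)
      have h4 : (Dl (n - 1) (J + 1) : ℝ) * FS n (J + 1) ≤ G n (J + 1) := by
        rcases Nat.lt_or_ge (2 * (J + 1)) n with h5 | h5
        · exact ih (J + 1) (by omega)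
        · have e1 : n - 1 = 2 * J + 1 := by omega
          rw [e1, Dl_half]
          simpa using hG0 n (J + 1) hn
      linarith

end Pool.MP322F
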