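import Pool.Agent.Lib.MP_322c5f_alF.FC00

/-! Definitions for the bounds of the classes without fixed points. -/

set_option autoImplicit false

open Finset Equiv Nat

namespace Pool.MP322F

open Pool.MP322

/-- order of the centralizer of a permutation with full cycle type `ρ` -/
def zt (ρ : Multiset ℕ) : ℕ := ρ.prod * ∏ c ∈ ρ.toFinset, (ρ.count c)!

/-- number of subcollections of the cycles with at most `k` letters -/
def cS (τ : Multiset ℕ) (k : ℕ) : ℕ := Multiset.card (τ.powerset.filter (fun B => B.sum ≤ k))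

/-- number of subcollections of the cycles with at least `a` and at most `2a - 1` letters -/
def cN (τ : Multiset ℕ) (a : ℕ) : ℕ :=
  Multiset.card (τ.powerset.filter (fun B => a ≤ B.sum ∧ B.sum + 1 ≤ 2 * a))

/-- the even cycle types of size `m` without fixed points -/
noncomputable def TNW (m : ℕ) : Finset (Multiset ℕ) := (typesE m).filter (fun τ => τ.sum = m)

noncomputable def TS (m k : ℕ) : ℕ := ∑ τ ∈ TNW m, cS τ k

noncomputable def TN (m a t : ℕ) : ℕ := ∑ τ ∈ (TNW m).filter (fun τ => t ≤ τ.count 2), cN τ a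

noncomputable def TZ (m t : ℕ) : ℝ :=
  ∑ τ ∈ (TNW m).filter (fun τ => τ.count 2 < t), Real.sqrt (zt τ)

/-- numerator and denominator of the bound of `fD nu / fD (a, nu)`, `m = a + nu.card` -/
def LLn (m a : ℕ) : ℕ := (a + (m - a) / a + 1) * (a + (m - a) / a).choose ((m - a) / a)

def LLd (m a : ℕ) : ℕ := m.choose a * (a + (m - a) / a + 1 - (m - a) % a)

/-- sum over the types with parts `3, ..., k + 2`, size `t` and parity `p`, of the products of
`wf x (multiplicity of x)` -/
def WT {R : Type} [CommSemiring R] (wf : ℕ → ℕ → R) : ℕ → ℕ → ℕ → R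
  | 0, t, p => if t = 0 ∧ p = 0 then 1 else 0
  | k + 1, t, p => ∑ j ∈ Finset.range (t / (k + 3) + 1),
      wf (k + 3) j * WT wf k (t - (k + 3) * j) ((p + j * (k + 2)) % 2)

end Pool.MP322F
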