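import Pool.Agent.Lib.MP_322c5f_alF.FA01

/-! Expansion of the Frobenius coefficients along one variable. -/

set_option autoImplicit false

open Finset

namespace Pool.MP322F

open Pool.MP322

private theorem fsv_pw (N r : ℕ) : MvPolynomial.finSuccEquiv ℤ N (pw (N + 1) r) =
    Polynomial.X ^ r + Polynomial.C (pw N r) := by
  unfold pw
  rw [Fin.sum_univ_succ, map_add, map_pow, MvPolynomial.finSuccEquiv_X_zero, map_sum, map_sum]
  congr 1
  refine Finset.sum_congr rfl fun i _ => ?_
  rw [map_pow, MvPolynomial.finSuccEquiv_X_succ, map_pow]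

private theorem fsv_vd (N : ℕ) : MvPolynomial.finSuccEquiv ℤ N (vd (N + 1)) =
    (∏ j : Fin N, (Polynomial.C (MvPolynomial.X j) + -Polynomial.X)) * Polynomial.C (vd N) := by
  unfold vd
  rw [Fin.prod_univ_succ, Fin.prod_Ioi_zero, map_mul, map_prod]
  congr 1
  · refine Finset.prod_congr rfl fun j _ => ?_
    rw [map_sub, MvPolynomial.finSuccEquiv_X_zero, MvPolynomial.finSuccEquiv_X_succ,
      sub_eq_add_neg]
  · rw [map_prod, map_prod]
    refine Finset.prod_congr rfl fun i _ => ?_
    rw [Fin.prod_Ioi_succ, map_prod, map_prod]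
    refine Finset.prod_congr rfl fun j _ => ?_
    rw [map_sub, MvPolynomial.finSuccEquiv_X_succ, MvPolynomial.finSuccEquiv_X_succ, map_sub]

private theorem prod_expand (N : ℕ) :
    (∏ j : Fin N, (Polynomial.C (MvPolynomial.X j : MvPolynomial (Fin N) ℤ) + -Polynomial.X)) =
      ∑ I : Finset (Fin N), Polynomial.C ((-1) ^ (N - I.card) * ∏ j ∈ I, MvPolynomial.X j) *
        Polynomial.X ^ (N - I.card) := by
  rw [Finset.prod_add, Finset.powerset_univ]
  refine Finset.sum_congr rfl fun I _ => ?_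
  rw [Finset.prod_const, Finset.card_sdiff_of_subset (Finset.subset_univ _), Finset.card_univ,
    Fintype.card_fin, neg_pow (Polynomial.X : Polynomial (MvPolynomial (Fin N) ℤ)), map_mul,
    map_prod, map_pow, map_neg, map_one]
  ring

private theorem x_pow_sum (N : ℕ) (B : Multiset ℕ) :
    (B.map (fun r => (Polynomial.X : Polynomial (MvPolynomial (Fin N) ℤ)) ^ r)).prod =
      Polynomial.X ^ B.sum := by
  induction B using Multiset.induction_on with
  | empty => simp
  | cons r B ih => rw [Multiset.map_cons, Multiset.prod_cons, Multiset.sum_cons, ih, pow_add]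

private theorem fsv_prod (N : ℕ) (ρ : Multiset ℕ) :
    MvPolynomial.finSuccEquiv ℤ N ((ρ.map (pw (N + 1))).prod) =
      ((Multiset.antidiagonal ρ).map (fun p : Multiset ℕ × Multiset ℕ =>
        Polynomial.X ^ p.1.sum * Polynomial.C ((p.2.map (pw N)).prod))).sum := by
  rw [map_multiset_prod, Multiset.map_map]
  have h1 : (⇑(MvPolynomial.finSuccEquiv ℤ N) ∘ pw (N + 1)) =
      fun r => Polynomial.X ^ r + Polynomial.C (pw N r) := by
    funext r
    exact fsv_pw N r
  rw [h1, Multiset.prod_map_add]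
  refine congrArg Multiset.sum (Multiset.map_congr rfl fun p _ => ?_)
  refine congrArg₂ (· * ·) (x_pow_sum N p.1) ?_
  rw [map_multiset_prod, Multiset.map_map]
  rfl

private theorem fsv_fr (N : ℕ) (ρ : Multiset ℕ) :
    MvPolynomial.finSuccEquiv ℤ N (fr (N + 1) ρ) =
      ((Multiset.antidiagonal ρ).map (fun p : Multiset ℕ × Multiset ℕ =>
        ∑ I : Finset (Fin N), Polynomial.C ((-1) ^ (N - I.card) * ((∏ j ∈ I, MvPolynomial.X j) *
          fr N p.2)) * Polynomial.X ^ (N - I.card + p.1.sum))).sum := by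
  unfold fr
  rw [map_mul, fsv_vd, fsv_prod, prod_expand, ← Multiset.sum_map_mul_left]
  refine congrArg Multiset.sum (Multiset.map_congr rfl fun p _ => ?_)
  rw [Finset.sum_mul, Finset.sum_mul]
  refine Finset.sum_congr rfl fun I _ => ?_
  rw [pow_add]
  simp only [map_mul]
  ring

private theorem coeff_prod_mul {N : ℕ} (I : Finset (Fin N)) (α : Fin N → ℕ)
    (g : MvPolynomial (Fin N) ℤ) :
    MvPolynomial.coeff (Finsupp.equivFunOnFinite.symm α) ((∏ j ∈ I, MvPolynomial.X j) * g) =
      if ∀ j ∈ I, 1 ≤ α j then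
        MvPolynomial.coeff (Finsupp.equivFunOnFinite.symm
          (fun j => if j ∈ I then α j - 1 else α j)) g else 0 := by
  have h1 : (∏ j ∈ I, (MvPolynomial.X j : MvPolynomial (Fin N) ℤ)) =
      MvPolynomial.monomial (∑ j ∈ I, Finsupp.single j 1) 1 := by
    rw [MvPolynomial.monomial_sum_one]
    rfl
  have h2 : ∀ i, (∑ j ∈ I, Finsupp.single j 1 : Fin N →₀ ℕ) i = if i ∈ I then 1 else 0 := by
    intro i
    rw [Finsupp.finsetSum_apply]
    simp only [Finsupp.single_apply]
    rw [Finset.sum_ite_eq' I i (fun _ => 1)]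
  rw [h1, MvPolynomial.coeff_monomial_mul']
  have h3 : (∑ j ∈ I, Finsupp.single j 1 ≤ Finsupp.equivFunOnFinite.symm α) ↔
      ∀ j ∈ I, 1 ≤ α j := by
    constructor
    · intro h j hj
      have := h j
      rw [h2, if_pos hj] at this
      exact this
    · intro h j
      rw [h2]
      by_cases hj : j ∈ I
      · rw [if_pos hj]
        exact h j hj
      · rw [if_neg hj]
        exact Nat.zero_le _
  by_cases h : ∀ j ∈ I, 1 ≤ α j
  · rw [if_pos (h3.2 h), if_pos h, one_mul]
    congr 1
    ext j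
    rw [Finsupp.coe_tsub, Pi.sub_apply, h2]
    simp only [Finsupp.equivFunOnFinite_symm_apply_apply]
    by_cases hj : j ∈ I
    · rw [if_pos hj, if_pos hj]
    · rw [if_neg hj, if_neg hj, Nat.sub_zero]
  · rw [if_neg (fun h' => h (h3.1 h')), if_neg h]

/-- the coefficient of `x_0^b x'^α` in `vd (N+1) * ∏_(r ∈ ρ) p_r(x_0, x')`:
`vd (N+1) = vd N (x') * ∏_j (x_j - x_0)`, `∏_j (x_j - x_0) = (-1)^N ∑_i (-1)^i e_i(x') x_0^(N-i)`
and `∏_(r ∈ ρ) (x_0^r + p_r(x')) = ∑_(B + C = ρ) x_0^|B| ∏_(r ∈ C) p_r(x')`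
(`Multiset.prod_map_add`, sum over `Multiset.antidiagonal ρ`; here `p.1 = B`, `p.2 = C`), so that
`i = N + |B| - b`; the coefficient of `x'^α` in `e_i(x') g` is the sum over the sets `I` of `i`
variables of the coefficient of `x'^(α - 1_I)` in `g`.
(`MvPolynomial.finSuccEquiv` singles out the variable `0`.) -/
theorem th_row {N : ℕ} (ρ : Multiset ℕ) (b : ℕ) (α : Fin N → ℕ) :
    th ρ (Fin.cons b α : Fin (N + 1) → ℕ) = (-1) ^ N *
      ((Multiset.antidiagonal ρ).map (fun p : Multiset ℕ × Multiset ℕ =>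
        ∑ I ∈ (Finset.univ : Finset (Finset (Fin N))).filter
          (fun I => I.card + b = N + p.1.sum ∧ ∀ j ∈ I, 1 ≤ α j),
          (-1) ^ I.card * th p.2 (fun j => if j ∈ I then α j - 1 else α j))).sum := by
  have hm : Finsupp.equivFunOnFinite.symm (Fin.cons b α : Fin (N + 1) → ℕ) =
      Finsupp.cons b (Finsupp.equivFunOnFinite.symm α) := by
    ext j
    induction j using Fin.cases with
    | zero => rfl
    | succ j => rfl
  have h0 : th ρ (Fin.cons b α : Fin (N + 1) → ℕ) =
      MvPolynomial.coeff (Finsupp.equivFunOnFinite.symm α)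
        (Polynomial.coeff (MvPolynomial.finSuccEquiv ℤ N (fr (N + 1) ρ)) b) := by
    rw [MvPolynomial.finSuccEquiv_coeff_coeff, ← hm]
    rfl
  let L : Polynomial (MvPolynomial (Fin N) ℤ) →+ ℤ :=
    (MvPolynomial.coeffAddMonoidHom (Finsupp.equivFunOnFinite.symm α)).comp
      (Polynomial.lcoeff (MvPolynomial (Fin N) ℤ) b).toAddMonoidHom
  have hL : ∀ P, L P = MvPolynomial.coeff (Finsupp.equivFunOnFinite.symm α)
      (Polynomial.coeff P b) := fun P => rfl
  rw [h0, ← hL, fsv_fr, map_multiset_sum, Multiset.map_map, ← Multiset.sum_map_mul_left]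
  congr 1
  refine Multiset.map_congr rfl fun p _ => ?_
  rw [Function.comp_apply, map_sum, Finset.mul_sum, Finset.sum_filter]
  refine Finset.sum_congr rfl fun I _ => ?_
  rw [hL, Polynomial.coeff_C_mul, Polynomial.coeff_X_pow]
  have hI : I.card ≤ N := by
    have := Finset.card_le_univ I
    rwa [Fintype.card_fin] at this
  by_cases hb : b = N - I.card + p.1.sum
  · have hb' : I.card + b = N + p.1.sum := by omega
    rw [if_pos hb, mul_one]
    have hC : ((-1) ^ (N - I.card) * ((∏ j ∈ I, MvPolynomial.X j) * fr N p.2) :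
        MvPolynomial (Fin N) ℤ) = MvPolynomial.C ((-1) ^ (N - I.card)) *
          ((∏ j ∈ I, MvPolynomial.X j) * fr N p.2) := by
      rw [map_pow, map_neg, map_one]
    rw [hC, MvPolynomial.coeff_C_mul, coeff_prod_mul]
    have hs : ((-1) ^ (N - I.card) : ℤ) = (-1) ^ N * (-1) ^ I.card := by
      rw [← pow_add, show N + I.card = (N - I.card) + 2 * I.card by omega, pow_add, pow_mul]
      norm_num
    by_cases h : ∀ j ∈ I, 1 ≤ α j
    · rw [if_pos h, if_pos ⟨hb', h⟩, hs, mul_assoc]
      rfl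
    · rw [if_neg h, if_neg (fun h' => h h'.2), mul_zero]
  · have hb' : ¬ (I.card + b = N + p.1.sum) := by omega
    rw [if_neg hb, if_neg (fun h' => hb' h'.1), mul_zero, MvPolynomial.coeff_zero]

end Pool.MP322F
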