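import Pool.Agent.Lib.MP_322c5f_alF.FD00
import Pool.Agent.Lib.MP_322c5f_alF.FD01
import Pool.Agent.Lib.MP_322c5f_alF.FA07
import Pool.Agent.Lib.MP_322c5f_alF.FC02b

/-! First row bound for the characters. -/

set_option autoImplicit false

open Finset Equiv Nat

namespace Pool.MP322F

open Pool.MP322

/-- the beta numbers of `mu` with `N + 1` beads: those of `tl mu` with `N` beads and the largest one -/
theorem be_snoc {N : ℕ} (mu : YoungDiagram) :
    be (N + 1) mu = (Fin.snoc (be N (tl mu)) (mu.rowLen 0 + N) : Fin (N + 1) → ℕ) := by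
  funext i
  refine Fin.lastCases ?_ (fun i => ?_) i
  · rw [Fin.snoc_last]
    unfold be
    have h : N + 1 - 1 - ((Fin.last N : Fin (N + 1)) : ℕ) = 0 := by
      simp
    rw [h]
    simp
  · rw [Fin.snoc_castSucc]
    unfold be
    have hi := i.2
    rw [rowLen_tl]
    have h : N + 1 - 1 - ((i.castSucc : Fin (N + 1)) : ℕ) = N - 1 - (i : ℕ) + 1 := by
      rw [Fin.val_castSucc]
      omega
    rw [h, Fin.val_castSucc]

/-- moving the last variable to the front (`th_perm` with a cycle of length `N + 1`) -/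
theorem th_snoc {N : ℕ} (ρ : Multiset ℕ) (b : ℕ) (α : Fin N → ℕ) :
    th ρ (Fin.snoc α b : Fin (N + 1) → ℕ) =
      (-1) ^ N * th ρ (Fin.cons b α : Fin (N + 1) → ℕ) := by
  have h1 := th_perm ρ (Fin.cons b α : Fin (N + 1) → ℕ) (finRotate (N + 1))
  have h2 : (Fin.snoc α b : Fin (N + 1) → ℕ) =
      (Fin.cons b α : Fin (N + 1) → ℕ) ∘ (finRotate (N + 1)) := by
    have h3 := Fin.snoc_eq_cons_rotate α b
    rw [h3]
    rfl
  rw [h2, h1, sign_finRotate]
  push_cast
  rfl

private theorem fd_be_card {N : ℕ} {nu : YoungDiagram} {I : Finset (Fin N)}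
    (hI : ∀ j ∈ I, 1 ≤ be N nu j) :
    ∑ j, (if j ∈ I then be N nu j - 1 else be N nu j) + I.card = ∑ j, be N nu j := by
  have h1 : I.card = ∑ j, (if j ∈ I then 1 else 0) := by
    rw [Finset.sum_ite_mem, Finset.univ_inter, Finset.card_eq_sum_ones]
  rw [h1, ← Finset.sum_add_distrib]
  refine Finset.sum_congr rfl (fun j _ => ?_)
  by_cases hj : j ∈ I
  · rw [if_pos hj, if_pos hj]
    have := hI j hj
    omega
  · rw [if_neg hj, if_neg hj]
    rfl

/-- the exponents are weakly increasing -/
private theorem fd_mono {N : ℕ} (nu : YoungDiagram) (I : Finset (Fin N)) :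
    Monotone (fun j => if j ∈ I then be N nu j - 1 else be N nu j) := by
  intro a b hab
  rcases hab.eq_or_lt with h | h
  · rw [h]
  · have h1 := be_strictMono N nu h
    simp only
    split_ifs <;> omega

private theorem fd_zero {N : ℕ} (nu : YoungDiagram) (ρ : Multiset ℕ) (I : Finset (Fin N))
    (h : ¬ StrictMono (fun j => if j ∈ I then be N nu j - 1 else be N nu j)) :
    th ρ (fun j => if j ∈ I then be N nu j - 1 else be N nu j) = 0 := by
  have h1 := fd_mono nu I
  have h2 : ¬ Function.Injective (fun j => if j ∈ I then be N nu j - 1 else be N nu j) :=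
    fun h3 => h (h1.strictMono_of_injective h3)
  rw [Function.Injective] at h2
  push Not at h2
  obtain ⟨a, b, hab, hne⟩ := h2
  exact th_eq_zero ρ _ hne hab

/-- the diagram of the exponents -/
private theorem fd_diag {N : ℕ} {nu : YoungDiagram} (hN : nu.colLen 0 ≤ N) {I : Finset (Fin N)}
    (hI : ∀ j ∈ I, 1 ≤ be N nu j)
    (h : StrictMono (fun j => if j ∈ I then be N nu j - 1 else be N nu j)) :
    ∃ b : YoungDiagram, b.colLen 0 ≤ N ∧
      be N b = (fun j => if j ∈ I then be N nu j - 1 else be N nu j) ∧ b ≤ nu ∧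
      b.card + I.card = nu.card ∧ I.card ≤ nu.colLen 0 := by
  obtain ⟨b, hb1, hb2⟩ := exists_be _ h
  have hrow : ∀ j : Fin N, b.rowLen (N - 1 - (j : ℕ)) + (j : ℕ) =
      if j ∈ I then be N nu j - 1 else be N nu j := by
    intro j
    have := congrFun hb2 j
    unfold be at this ⊢
    exact this
  have hle : ∀ r, b.rowLen r ≤ nu.rowLen r := by
    intro r
    rcases Nat.lt_or_ge r N with hr | hr
    · have h1 := hrow ⟨N - 1 - r, by omega⟩
      have h2 : N - 1 - (N - 1 - r) = r := by omega
      have h3 : be N nu ⟨N - 1 - r, by omega⟩ = nu.rowLen r + (N - 1 - r) := by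
        unfold be
        simp only
        rw [h2]
      simp only at h1
      rw [h2, h3] at h1
      split_ifs at h1 <;> omega
    · have h1 : b.rowLen r = 0 := by
        by_contra hcon
        have h2 : (r, 0) ∈ b := YoungDiagram.mem_iff_lt_rowLen.2 (Nat.pos_of_ne_zero hcon)
        rw [YoungDiagram.mem_iff_lt_colLen] at h2
        omega
      omega
  refine ⟨b, hb1, hb2, ?_, ?_, ?_⟩
  · intro c hc
    have hc' : (c.1, c.2) ∈ b := hc
    rw [YoungDiagram.mem_iff_lt_rowLen] at hc'
    have h1 := hle c.1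
    have h2 : (c.1, c.2) ∈ nu := YoungDiagram.mem_iff_lt_rowLen.2 (by omega)
    exact h2
  · have h1 := be_sum b hb1
    have h2 := be_sum nu hN
    have h3 := fd_be_card hI
    rw [hb2] at h1
    simp only at h1
    omega
  · have h1 : ∀ j ∈ I, N - 1 - (j : ℕ) ∈ Finset.range (nu.colLen 0) := by
      intro j hj
      rw [Finset.mem_range, ← YoungDiagram.mem_iff_lt_colLen, YoungDiagram.mem_iff_lt_rowLen]
      have h2 := hrow j
      rw [if_pos hj] at h2
      have h3 := hI j hj
      unfold be at h2 h3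
      omega
    have h2 : Set.InjOn (fun j : Fin N => N - 1 - (j : ℕ)) (I : Set (Fin N)) := by
      intro x _ y _ hxy
      have hx := x.2
      have hy := y.2
      apply Fin.ext
      simp only at hxy
      omega
    have h3 := Finset.card_le_card_of_injOn _ h1 h2
    rwa [Finset.card_range] at h3

private theorem fd_term {N : ℕ} {ρ : Multiset ℕ} (hρ : ∀ c ∈ ρ, 1 ≤ c) {b : YoungDiagram}
    (hb : b.colLen 0 ≤ N) (hs : ρ.sum = b.card) : |(th ρ (be N b) : ℝ)| ≤ fD b := by
  obtain ⟨σ, hσ⟩ := exists_ft ρ hs hρ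
  have h1 := frobenius (N := N) (⟨b, rfl⟩ : Y b.card) hb σ
  rw [hσ] at h1
  rw [← h1]
  exact abs_chi_le _ σ

/-- absolute values of the terms: for `nu` with at most `N` rows and a set `I` of `i` rows, the
coefficient at `be N nu - 1_I` is zero (two equal exponents) or belongs to a diagram `b ≤ nu` with
`i` cells less; different `I` give different diagrams; the number of cells in each row decreases by
at most one, so `i ≤ nu.colLen 0` if the coefficient is not zero; every coefficient is a character
value, at most the dimension (`frobenius`, `abs_chi_le`, `exists_ft`); `sum_below_le`. -/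
theorem strip_sum_le {N i : ℕ} (nu : YoungDiagram) (hN : nu.colLen 0 ≤ N) (ρ : Multiset ℕ)
    (hρ : ∀ c ∈ ρ, 1 ≤ c) (hs : ρ.sum + i = nu.card) :
    (∑ I ∈ (Finset.univ : Finset (Finset (Fin N))).filter
          (fun I => I.card = i ∧ ∀ j ∈ I, 1 ≤ be N nu j),
          |(th ρ (fun j => if j ∈ I then be N nu j - 1 else be N nu j) : ℝ)|) ≤
      if i ≤ nu.colLen 0 then fD nu else 0 := by
  classical
  set F := (Finset.univ : Finset (Finset (Fin N))).filter
    (fun I => I.card = i ∧ ∀ j ∈ I, 1 ≤ be N nu j) with hF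
  set P : Finset (Fin N) → Prop := fun I =>
    StrictMono (fun j => if j ∈ I then be N nu j - 1 else be N nu j) with hP
  have h1 : (∑ I ∈ F, |(th ρ (fun j => if j ∈ I then be N nu j - 1 else be N nu j) : ℝ)|) =
      ∑ I ∈ F.filter P, |(th ρ (fun j => if j ∈ I then be N nu j - 1 else be N nu j) : ℝ)| := by
    rw [Finset.sum_filter (s := F) (p := P)]
    refine Finset.sum_congr rfl (fun I _ => ?_)
    by_cases hI : P I
    · rw [if_pos hI]
    · rw [if_neg hI, fd_zero nu ρ I hI]
      simp
  rw [h1]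
  have hD : ∀ I : Finset (Fin N), ∃ b : YoungDiagram, I ∈ F.filter P →
      b.colLen 0 ≤ N ∧ be N b = (fun j => if j ∈ I then be N nu j - 1 else be N nu j) ∧ b ≤ nu ∧
      b.card + I.card = nu.card ∧ I.card ≤ nu.colLen 0 := by
    intro I
    by_cases hI : I ∈ F.filter P
    · have hI' := hI
      rw [Finset.mem_filter, hF, Finset.mem_filter] at hI'
      obtain ⟨b, hb⟩ := fd_diag hN hI'.1.2.2 hI'.2
      exact ⟨b, fun _ => hb⟩
    · exact ⟨⊥, fun h => absurd h hI⟩
  choose D hD using hD
  have hcard : ∀ I ∈ F.filter P, I.card = i := by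
    intro I hI
    rw [Finset.mem_filter, hF, Finset.mem_filter] at hI
    exact hI.1.2.1
  split_ifs with hi
  · have h2 : ∀ I ∈ F.filter P,
        |(th ρ (fun j => if j ∈ I then be N nu j - 1 else be N nu j) : ℝ)| ≤ fD (D I) := by
      intro I hI
      obtain ⟨e1, e2, e3, e4, e5⟩ := hD I hI
      rw [← e2]
      have := hcard I hI
      exact fd_term hρ e1 (by omega)
    refine (Finset.sum_le_sum h2).trans ?_
    have hinj : Set.InjOn D (F.filter P : Set (Finset (Fin N))) := by
      intro I hI J hJ hIJ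
      have hI' := hI
      have hJ' := hJ
      rw [Finset.mem_coe] at hI hJ hI' hJ'
      obtain ⟨e1, e2, -, -, -⟩ := hD I hI
      obtain ⟨f1, f2, -, -, -⟩ := hD J hJ
      rw [hIJ, f2] at e2
      rw [Finset.mem_filter, hF, Finset.mem_filter] at hI' hJ'
      have hI1 := hI'.1.2.2
      have hJ1 := hJ'.1.2.2
      ext j
      have h3 := congrFun e2 j
      by_cases hjI : j ∈ I
      · by_cases hjJ : j ∈ J
        · exact ⟨fun _ => hjJ, fun _ => hjI⟩
        · rw [if_pos hjI, if_neg hjJ] at h3
          have := hI1 j hjI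
          omega
      · by_cases hjJ : j ∈ J
        · rw [if_neg hjI, if_pos hjJ] at h3
          have := hJ1 j hjJ
          omega
        · exact ⟨fun h => absurd h hjI, fun h => absurd h hjJ⟩
    rw [← Finset.sum_image (f := fD) hinj]
    refine sum_below_le nu (nu.card - i) _ ?_
    intro b hb
    rw [Finset.mem_image] at hb
    obtain ⟨I, hI, rfl⟩ := hb
    obtain ⟨e1, e2, e3, e4, e5⟩ := hD I hI
    have := hcard I hI
    exact ⟨e3, by omega⟩
  · have h2 : F.filter P = ∅ := by
      rw [Finset.eq_empty_iff_forall_notMem]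
      intro I hI
      obtain ⟨e1, e2, e3, e4, e5⟩ := hD I hI
      have := hcard I hI
      omega
    rw [h2, Finset.sum_empty]

private theorem fd_colLen_pos {n : ℕ} (mu : Y n) (hn : 1 ≤ n) : 1 ≤ mu.1.colLen 0 := by
  by_contra hcon
  have h0 : mu.1.cells = ∅ := by
    rw [Finset.eq_empty_iff_forall_notMem]
    intro c hc
    rw [YoungDiagram.mem_cells] at hc
    have hc' : (c.1, c.2) ∈ mu.1 := hc
    have h1 : (0, 0) ∈ mu.1 := mu.1.up_left_mem (Nat.zero_le _) (Nat.zero_le _) hc'
    rw [YoungDiagram.mem_iff_lt_colLen] at h1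
    omega
  have h1 : mu.1.cells.card = n := mu.2
  rw [h0, Finset.card_empty] at h1
  omega

private theorem fd_abs_msum (s : Multiset (Multiset ℕ × Multiset ℕ))
    (f : Multiset ℕ × Multiset ℕ → ℝ) :
    |(s.map f).sum| ≤ (s.map (fun p => |f p|)).sum := by
  induction s using Multiset.induction_on with
  | empty => simp
  | cons p s ih =>
    rw [Multiset.map_cons, Multiset.map_cons, Multiset.sum_cons, Multiset.sum_cons]
    exact (abs_add_le _ _).trans (by linarith)

private theorem fd_msum_le (s : Multiset (Multiset ℕ × Multiset ℕ))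
    (f g : Multiset ℕ × Multiset ℕ → ℝ) (h : ∀ p ∈ s, f p ≤ g p) :
    (s.map f).sum ≤ (s.map g).sum := by
  induction s using Multiset.induction_on with
  | empty => simp
  | cons p s ih =>
    rw [Multiset.map_cons, Multiset.map_cons, Multiset.sum_cons, Multiset.sum_cons]
    have h1 := h p (Multiset.mem_cons_self p s)
    have h2 := ih (fun q hq => h q (Multiset.mem_cons_of_mem hq))
    linarith

private theorem fd_msum_ite (s : Multiset (Multiset ℕ)) (P : Multiset ℕ → Prop) [DecidablePred P]
    (x : ℝ) : (s.map (fun B => if P B then x else 0)).sum =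
      (Multiset.card (s.filter P) : ℝ) * x := by
  induction s using Multiset.induction_on with
  | empty => simp
  | cons p s ih =>
    rw [Multiset.map_cons, Multiset.sum_cons, ih]
    by_cases hp : P p
    · rw [if_pos hp, Multiset.filter_cons_of_pos _ hp, Multiset.card_cons]
      push_cast
      ring
    · rw [if_neg hp, Multiset.filter_cons_of_neg _ hp, zero_add]

/-- MAIN: `|chi| ≤ #(B : a ≤ |B| ≤ a + (number of rows - 1)) * fD (tl mu)` -/
theorem abs_chi_row {n : ℕ} (mu : Y n) (hn : 1 ≤ n) (σ : Perm (Fin n)) :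
    |chi mu σ| ≤ (Multiset.card ((ft σ).powerset.filter (fun B => mu.1.rowLen 0 ≤ B.sum ∧
      B.sum + 1 ≤ mu.1.rowLen 0 + mu.1.colLen 0)) : ℝ) * fD (tl mu.1) := by
  have hc1 := fd_colLen_pos mu hn
  obtain ⟨N, hN⟩ : ∃ N, mu.1.colLen 0 = N + 1 := ⟨mu.1.colLen 0 - 1, by omega⟩
  have hct : (tl mu.1).colLen 0 = N := by
    rw [colLen_tl]
    omega
  have hcard := card_tl mu.1
  have hcn : mu.1.card = n := mu.2
  rw [frobenius (N := N + 1) mu hN.le σ, be_snoc, th_snoc, th_row]
  set a := mu.1.rowLen 0 with ha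
  have h1 : ((((-1) ^ N * ((-1) ^ N *
      ((Multiset.antidiagonal (ft σ)).map (fun p : Multiset ℕ × Multiset ℕ =>
        ∑ I ∈ (Finset.univ : Finset (Finset (Fin N))).filter
          (fun I => I.card + (a + N) = N + p.1.sum ∧ ∀ j ∈ I, 1 ≤ be N (tl mu.1) j),
          (-1) ^ I.card * th p.2 (fun j => if j ∈ I then be N (tl mu.1) j - 1
            else be N (tl mu.1) j))).sum) : ℤ)) : ℝ) =
      ((Multiset.antidiagonal (ft σ)).map (fun p : Multiset ℕ × Multiset ℕ =>
        ∑ I ∈ (Finset.univ : Finset (Finset (Fin N))).filter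
          (fun I => I.card + (a + N) = N + p.1.sum ∧ ∀ j ∈ I, 1 ≤ be N (tl mu.1) j),
          (-1 : ℝ) ^ I.card * (th p.2 (fun j => if j ∈ I then be N (tl mu.1) j - 1
            else be N (tl mu.1) j) : ℝ))).sum := by
    rw [← mul_assoc, ← pow_add, Even.neg_one_pow ⟨N, rfl⟩, one_mul]
    refine (map_multiset_sum (Int.castRingHom ℝ) _).trans ?_
    rw [Multiset.map_map]
    congr 1
    refine Multiset.map_congr rfl (fun p _ => ?_)
    rw [Function.comp_apply, map_sum]
    refine Finset.sum_congr rfl (fun I _ => ?_)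
    rw [map_mul, map_pow, map_neg, map_one]
    rfl
  rw [h1]
  refine (fd_abs_msum _ _).trans ?_
  have h2 : ∀ p ∈ Multiset.antidiagonal (ft σ),
      |∑ I ∈ (Finset.univ : Finset (Finset (Fin N))).filter
          (fun I => I.card + (a + N) = N + p.1.sum ∧ ∀ j ∈ I, 1 ≤ be N (tl mu.1) j),
          (-1 : ℝ) ^ I.card * (th p.2 (fun j => if j ∈ I then be N (tl mu.1) j - 1
            else be N (tl mu.1) j) : ℝ)| ≤
      (if a ≤ p.1.sum ∧ p.1.sum + 1 ≤ a + mu.1.colLen 0 then fD (tl mu.1) else 0) := by
    intro p hp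
    rw [Multiset.mem_antidiagonal] at hp
    have hsum : p.1.sum + p.2.sum = n := by
      rw [← Multiset.sum_add, hp, ft_sum]
    refine (Finset.abs_sum_le_sum_abs _ _).trans ?_
    have h3 : ∀ I ∈ (Finset.univ : Finset (Finset (Fin N))).filter
        (fun I => I.card + (a + N) = N + p.1.sum ∧ ∀ j ∈ I, 1 ≤ be N (tl mu.1) j),
        |(-1 : ℝ) ^ I.card * (th p.2 (fun j => if j ∈ I then be N (tl mu.1) j - 1
            else be N (tl mu.1) j) : ℝ)| =
          |(th p.2 (fun j => if j ∈ I then be N (tl mu.1) j - 1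
            else be N (tl mu.1) j) : ℝ)| := by
      intro I _
      rw [abs_mul, abs_pow, abs_neg, abs_one, one_pow, one_mul]
    rw [Finset.sum_congr rfl h3]
    by_cases hap : a ≤ p.1.sum
    · have h4 : (Finset.univ : Finset (Finset (Fin N))).filter
          (fun I => I.card + (a + N) = N + p.1.sum ∧ ∀ j ∈ I, 1 ≤ be N (tl mu.1) j) =
          (Finset.univ : Finset (Finset (Fin N))).filter
          (fun I => I.card = p.1.sum - a ∧ ∀ j ∈ I, 1 ≤ be N (tl mu.1) j) := by
        refine Finset.filter_congr (fun I _ => ?_)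
        refine and_congr_left (fun _ => ?_)
        omega
      rw [h4]
      have h5 : ∀ c ∈ p.2, 1 ≤ c := by
        intro c hc
        apply ft_pos σ c
        rw [← hp]
        exact Multiset.mem_add.2 (Or.inr hc)
      refine (strip_sum_le (tl mu.1) hct.le p.2 h5 (by omega)).trans (le_of_eq ?_)
      by_cases h6 : p.1.sum - a ≤ (tl mu.1).colLen 0
      · rw [if_pos h6, if_pos ⟨hap, by omega⟩]
      · rw [if_neg h6, if_neg]
        rintro ⟨-, h7⟩
        omega
    · have h4 : (Finset.univ : Finset (Finset (Fin N))).filter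
          (fun I => I.card + (a + N) = N + p.1.sum ∧ ∀ j ∈ I, 1 ≤ be N (tl mu.1) j) = ∅ := by
        rw [Finset.filter_eq_empty_iff]
        rintro I - ⟨h5, -⟩
        omega
      rw [h4, Finset.sum_empty, if_neg (fun h => hap h.1)]
  refine (fd_msum_le _ _ _ h2).trans (le_of_eq ?_)
  rw [← fd_msum_ite, ← Multiset.antidiagonal_map_fst, Multiset.map_map]
  rfl

/-- complements: `a ≤ |B|` iff the complement has at most `n - a` letters -/
theorem card_powerset_compl (ρ : Multiset ℕ) (a : ℕ) (h : a ≤ ρ.sum) :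
    Multiset.card (ρ.powerset.filter (fun B => a ≤ B.sum)) = cS ρ (ρ.sum - a) := by
  unfold cS
  have h1 : ρ.powerset.filter (fun B => a ≤ B.sum) =
      ((Multiset.antidiagonal ρ).filter (fun p => a ≤ p.1.sum)).map Prod.fst := by
    rw [← Multiset.antidiagonal_map_fst, Multiset.filter_map]
    rfl
  have h2 : ρ.powerset.filter (fun B => B.sum ≤ ρ.sum - a) =
      ((Multiset.antidiagonal ρ).filter (fun p => p.2.sum ≤ ρ.sum - a)).map Prod.snd := by
    rw [← Multiset.antidiagonal_map_snd, Multiset.filter_map]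
    rfl
  rw [h1, h2, Multiset.card_map, Multiset.card_map]
  congr 1
  refine Multiset.filter_congr (fun p hp => ?_)
  rw [Multiset.mem_antidiagonal] at hp
  have h3 : p.1.sum + p.2.sum = ρ.sum := by
    rw [← Multiset.sum_add, hp]
  omega

end Pool.MP322F
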