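import Pool.Agent.Lib.MP_322c5f_alF.FD00
import Pool.Agent.Lib.MP_322c5f_alF.FA09
import Pool.Agent.Lib.MP_322c5f_alF.FC02b

/-! Dimension of a diagram and of the diagram without its first row. -/

set_option autoImplicit false

open Finset Equiv Nat

namespace Pool.MP322F

open Pool.MP322

private theorem rl_succ {a : ℕ} {nu : YoungDiagram} (h : nu.rowLen 0 ≤ a) (i : ℕ) :
    (addRow a nu).rowLen (i + 1) = nu.rowLen i := by
  rw [← rowLen_tl, tl_addRow h]

private theorem cl_addRow {a N : ℕ} {nu : YoungDiagram} (hN : nu.colLen 0 ≤ N) :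
    (addRow a nu).colLen 0 ≤ N + 1 := by
  by_contra hcon
  have h1 : (N + 1, 0) ∈ addRow a nu := by
    rw [YoungDiagram.mem_iff_lt_colLen]
    omega
  rw [mem_addRow] at h1
  obtain ⟨-, h2 | ⟨i, hi, h3⟩⟩ := h1
  · exact absurd h2 (Nat.succ_ne_zero _)
  · have h4 : N = i := by simpa using hi
    subst h4
    have h5 : (N, 0) ∈ nu := h3
    rw [YoungDiagram.mem_iff_lt_colLen] at h5
    omega

private theorem be_cast {a N : ℕ} {nu : YoungDiagram} (h : nu.rowLen 0 ≤ a) (i : Fin N) :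
    be (N + 1) (addRow a nu) i.castSucc = be N nu i := by
  unfold be
  have h1 : N + 1 - 1 - ((i.castSucc : Fin (N + 1)) : ℕ) = (N - 1 - (i : ℕ)) + 1 := by
    have := i.2
    rw [Fin.val_castSucc]
    omega
  rw [h1, rl_succ h, Fin.val_castSucc]

private theorem be_lst {a N : ℕ} {nu : YoungDiagram} (h : nu.rowLen 0 ≤ a) :
    be (N + 1) (addRow a nu) (Fin.last N) = a + N := by
  unfold be
  have h1 : N + 1 - 1 - ((Fin.last N : Fin (N + 1)) : ℕ) = 0 := by
    rw [Fin.val_last]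
    omega
  rw [h1, rowLen_addRow h, Fin.val_last]

private theorem vdm_split {N : ℕ} (f : Fin (N + 1) → ℝ) :
    (∏ i : Fin (N + 1), ∏ j ∈ Finset.Ioi i, (f j - f i)) =
      (∏ i : Fin N, ∏ j ∈ Finset.Ioi i, (f j.castSucc - f i.castSucc)) *
        ∏ i : Fin N, (f (Fin.last N) - f i.castSucc) := by
  rw [Fin.prod_univ_castSucc]
  have h1 : (∏ j ∈ Finset.Ioi (Fin.last N), (f j - f (Fin.last N))) = 1 := by
    have h2 : Finset.Ioi (Fin.last N) = ∅ := by
      ext j
      simp [Fin.le_last]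
    rw [h2, Finset.prod_empty]
  rw [h1, mul_one, ← Finset.prod_mul_distrib]
  refine Finset.prod_congr rfl fun i _ => ?_
  rw [← Finset.filter_lt_eq_Ioi, Finset.prod_filter, Fin.prod_univ_castSucc,
    if_pos (Fin.castSucc_lt_last i), ← Finset.filter_lt_eq_Ioi, Finset.prod_filter]
  congr 1

private theorem fac_split (a N : ℕ) :
    ((a + N)! : ℝ) = (a ! : ℝ) * ∏ i ∈ Finset.range N, ((a : ℝ) + i + 1) := by
  induction N with
  | zero => simp
  | succ N ih =>
    rw [Finset.prod_range_succ, ← mul_assoc, ← ih, ← Nat.add_assoc, Nat.factorial_succ]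
    push_cast
    ring

/-- from `fd_formula` for `addRow a nu` with `N + 1` beads and for `nu` with `N` beads:
`(a+N)! = a! ∏_(i<N) (a+i+1)`, the top bead is `a + N`, the bead of row `i` of `nu` is
`nu_i + N - 1 - i` -/
theorem fD_row {N a : ℕ} (nu : YoungDiagram) (h : nu.rowLen 0 ≤ a) (hN : nu.colLen 0 ≤ N) :
    fD (addRow a nu) = ((a + nu.card).choose a : ℝ) * fD nu *
      ∏ i ∈ Finset.range N, (1 - (nu.rowLen i : ℝ) / (a + i + 1)) := by
  have e1 := fd_formula (N := N + 1) (⟨addRow a nu, rfl⟩ : Y (addRow a nu).card)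
    (cl_addRow hN)
  have e2 := fd_formula (N := N) (⟨nu, rfl⟩ : Y nu.card) hN
  have e1' : fD (addRow a nu) * ∏ i, ((be (N + 1) (addRow a nu) i)! : ℝ) =
      ((addRow a nu).card ! : ℝ) * ∏ i : Fin (N + 1), ∏ j ∈ Finset.Ioi i,
        ((be (N + 1) (addRow a nu) j : ℝ) - (be (N + 1) (addRow a nu) i : ℝ)) := e1
  have e2' : fD nu * ∏ i, ((be N nu i)! : ℝ) =
      (nu.card ! : ℝ) * ∏ i : Fin N, ∏ j ∈ Finset.Ioi i,
        ((be N nu j : ℝ) - (be N nu i : ℝ)) := e2
  rw [vdm_split (fun i => (be (N + 1) (addRow a nu) i : ℝ)), Fin.prod_univ_castSucc,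
    card_addRow' h] at e1'
  simp only [be_cast h, be_lst h] at e1'
  set P : ℝ := ∏ i, ((be N nu i)! : ℝ) with hP
  set V : ℝ := ∏ i : Fin N, ∏ j ∈ Finset.Ioi i, ((be N nu j : ℝ) - (be N nu i : ℝ)) with hV
  have hQ : (∏ i : Fin N, (((a + N : ℕ) : ℝ) - (be N nu i : ℝ))) =
      ∏ i ∈ Finset.range N, ((a : ℝ) + i + 1 - nu.rowLen i) := by
    unfold be
    rw [← Finset.prod_range (fun i => (((a + N : ℕ) : ℝ) -
      ((nu.rowLen (N - 1 - i) + i : ℕ) : ℝ))), ← Finset.prod_range_reflect]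
    refine Finset.prod_congr rfl fun j hj => ?_
    rw [Finset.mem_range] at hj
    have h3 : N - 1 - (N - 1 - j) = j := by omega
    have h4 : ((N - 1 - j : ℕ) : ℝ) = (N : ℝ) - 1 - j := by
      rw [Nat.cast_sub (by omega), Nat.cast_sub (by omega)]
      simp
    rw [h3]
    push_cast [h4]
    ring
  rw [hQ, fac_split] at e1'
  set Q : ℝ := ∏ i ∈ Finset.range N, ((a : ℝ) + i + 1 - nu.rowLen i) with hQ'
  set R : ℝ := ∏ i ∈ Finset.range N, ((a : ℝ) + i + 1) with hR'
  have hR : 0 < R := by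
    rw [hR']
    exact Finset.prod_pos fun i _ => by positivity
  have hP0 : 0 < P := by
    rw [hP]
    exact Finset.prod_pos fun i _ => by positivity
  have ha : (0 : ℝ) < (a ! : ℝ) := by positivity
  have hprod : (∏ i ∈ Finset.range N, (1 - (nu.rowLen i : ℝ) / (a + i + 1))) = Q / R := by
    rw [hQ', hR', ← Finset.prod_div_distrib]
    refine Finset.prod_congr rfl fun i _ => ?_
    have : ((a : ℝ) + i + 1) ≠ 0 := by positivity
    field_simp
  have hch : ((a + nu.card)! : ℝ) = ((a + nu.card).choose a : ℝ) * a ! * nu.card ! := by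
    have h5 := Nat.add_choose_mul_factorial_mul_factorial a nu.card
    rw [← Nat.choose_symm_add] at h5
    rw [← h5]
    push_cast
    ring
  rw [hprod, mul_div_assoc', eq_div_iff hR.ne']
  have h6 : (P * (a ! : ℝ)) * (fD (addRow a nu) * R) =
      (P * (a ! : ℝ)) * (((a + nu.card).choose a : ℝ) * fD nu * Q) := by
    calc (P * (a ! : ℝ)) * (fD (addRow a nu) * R)
        = fD (addRow a nu) * (P * ((a ! : ℝ) * R)) := by ring
      _ = ((a + nu.card)! : ℝ) * (V * Q) := e1'
      _ = ((a + nu.card).choose a : ℝ) * a ! * ((nu.card ! : ℝ) * V) * Q := by rw [hch]; ring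
      _ = ((a + nu.card).choose a : ℝ) * a ! * (fD nu * P) * Q := by rw [e2']
      _ = _ := by ring
  exact mul_left_cancel₀ (by positivity) h6

/-- the extreme value -/
private noncomputable def Fx (a k : ℕ) : ℝ :=
  (((a + k / a + 1 : ℕ) : ℝ) - ((k % a : ℕ) : ℝ)) /
      (((a + k / a + 1 : ℕ) : ℝ) * (((a + k / a).choose (k / a) : ℕ) : ℝ))

private theorem Fx_form {a q r : ℕ} (hr : r < a) :
    Fx a (q * a + r) = ((a : ℝ) + q + 1 - r) / (((a : ℝ) + q + 1) * ((a + q).choose q : ℝ)) := by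
  have h1 : (q * a + r) / a = q := by
    rw [mul_comm, Nat.mul_add_div (by omega), Nat.div_eq_of_lt hr, add_zero]
  have h2 : (q * a + r) % a = r := by
    rw [mul_comm, Nat.mul_add_mod, Nat.mod_eq_of_lt hr]
  unfold Fx
  rw [h1, h2]
  push_cast
  ring

private theorem ch_succ (a q : ℕ) :
    ((a + (q + 1)).choose (q + 1) : ℝ) * (q + 1) = ((a + q).choose q : ℝ) * (a + q + 1) := by
  have h := Nat.add_one_mul_choose_eq (a + q) q
  have h1 : ((a + q + 1 : ℕ) : ℝ) * ((a + q).choose q : ℝ) =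
      ((a + q + 1).choose (q + 1) : ℝ) * ((q + 1 : ℕ) : ℝ) := by exact_mod_cast h
  push_cast at h1
  rw [← Nat.add_assoc]
  linarith

private theorem Fx_step {a N s k : ℕ} (ha : 1 ≤ a) (hs : s ≤ a) (hk : k ≤ N * a) :
    Fx a (k + s) ≤ Fx a k * (1 - (s : ℝ) / (a + N + 1)) := by
  obtain ⟨q, r, hr, rfl⟩ : ∃ q r, r < a ∧ k = q * a + r :=
    ⟨k / a, k % a, Nat.mod_lt _ ha, by rw [mul_comm]; exact (Nat.div_add_mod k a).symm⟩
  have hqN : q ≤ N := by
    by_contra hcon
    have : (N + 1) * a ≤ q * a := Nat.mul_le_mul_right _ (by omega)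
    have h2 : (N + 1) * a = N * a + a := by ring
    omega
  have hqN' : q = N → r = 0 := by
    rintro rfl
    omega
  have hc : (0 : ℝ) < ((a + q).choose q : ℝ) := by
    exact_mod_cast Nat.choose_pos (Nat.le_add_left q a)
  have ha' : (1 : ℝ) ≤ a := by exact_mod_cast ha
  have hs' : (s : ℝ) ≤ a := by exact_mod_cast hs
  have hr' : (r : ℝ) < a := by exact_mod_cast hr
  have hq' : (q : ℝ) ≤ N := by exact_mod_cast hqN
  have hq0 : (0 : ℝ) ≤ q := Nat.cast_nonneg q
  have hr0 : (0 : ℝ) ≤ r := Nat.cast_nonneg r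
  have hs0 : (0 : ℝ) ≤ s := Nat.cast_nonneg s
  have hN0 : (0 : ℝ) ≤ N := Nat.cast_nonneg N
  have e3 : (1 - (s : ℝ) / (a + N + 1)) = ((a : ℝ) + N + 1 - s) / (a + N + 1) := by
    have : ((a : ℝ) + N + 1) ≠ 0 := by positivity
    field_simp
  rw [Fx_form hr, e3, _root_.div_mul_div_comm]
  rcases Nat.lt_or_ge (r + s) a with hlt | hge
  · rw [add_assoc, Fx_form hlt, div_le_div_iff₀ (by positivity) (by positivity)]
    push_cast
    have key : ((a : ℝ) + q + 1 - (r + s)) * (a + N + 1) ≤ (a + q + 1 - r) * (a + N + 1 - s) := by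
      nlinarith [mul_nonneg hs0 (sub_nonneg.2 hq'), mul_nonneg hs0 hr0]
    have hpos : (0 : ℝ) ≤ (a + q + 1) * ((a + q).choose q : ℝ) := by positivity
    nlinarith [mul_le_mul_of_nonneg_right key hpos]
  · obtain ⟨r', hr1⟩ : ∃ r', r + s = a + r' := ⟨r + s - a, by omega⟩
    have h1 : q * a + r + s = (q + 1) * a + r' := by
      have : (q + 1) * a = q * a + a := by ring
      omega
    have hr2 : r' < a := by omega
    have hr3 : r' ≤ r := by omega
    have hr3' : (r' : ℝ) ≤ r := by exact_mod_cast hr3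
    have hr4 : (r : ℝ) + s = a + r' := by exact_mod_cast hr1
    have hr5 : (0 : ℝ) ≤ r' := Nat.cast_nonneg r'
    have hc2 : (0 : ℝ) < ((a + (q + 1)).choose (q + 1) : ℝ) := by
      exact_mod_cast Nat.choose_pos (Nat.le_add_left (q + 1) a)
    rw [h1, Fx_form hr2, div_le_div_iff₀ (by positivity) (by positivity)]
    have hcc := ch_succ a q
    have hsE : (s : ℝ) = a + r' - r := by linarith
    push_cast
    set C := ((a + q).choose q : ℝ) with hC
    set C2 := ((a + (q + 1)).choose (q + 1) : ℝ) with hC2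
    -- key inequality
    have key : ((a : ℝ) + q + 2 - r') * (q + 1) * (a + N + 1) ≤
        (a + q + 2) * (a + q + 1 - r) * (a + N + 1 - s) := by
      rw [hsE]
      rcases Nat.lt_or_ge q N with hq1 | hq1
      · have hq2 : (q : ℝ) + 1 ≤ N := by exact_mod_cast hq1
        set u := (N : ℝ) - (q + 1) with hu
        have hu0 : 0 ≤ u := by rw [hu]; linarith
        have hNu : (N : ℝ) = q + 1 + u := by rw [hu]; ring
        rw [hNu]
        have hr6 : (r : ℝ) + 1 ≤ a := by exact_mod_cast hr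
        -- at u = 0
        have k0 : ((q : ℝ) + 1) * (a + q + 2 - r') ≤ (a + q + 1 - r) * (q + 2 + (r - r')) := by
          nlinarith [mul_nonneg (sub_nonneg.2 hr3') (sub_nonneg.2 hr6)]
        have k1 : ((a : ℝ) + q + 2 - r') * (q + 1) ≤ (a + q + 2) * (a + q + 1 - r) := by
          nlinarith [mul_nonneg hq0 hr5, mul_nonneg (show (0:ℝ) ≤ a + q + 2 by positivity)
            (sub_nonneg.2 hr6)]
        have k2 := mul_le_mul_of_nonneg_right k0 (show (0 : ℝ) ≤ a + q + 2 by positivity)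
        have k3 := mul_le_mul_of_nonneg_right k1 hu0
        nlinarith [k2, k3]
      · have hq2 : q = N := le_antisymm hqN hq1
        have hr7 : r = 0 := hqN' hq2
        have hr8 : r' = 0 := by omega
        rw [hr7, hr8, ← hq2]
        push_cast
        nlinarith
    have hC2' : C2 = C * (a + q + 1) / (q + 1) := by
      rw [eq_div_iff (by positivity)]
      exact hcc
    rw [hC2']
    have hq1p : (0 : ℝ) < (q : ℝ) + 1 := by positivity
    have e4 : ((a : ℝ) + (q + 1) + 1 - r') * (((a : ℝ) + q + 1) * C * (a + N + 1)) =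
        (((a : ℝ) + q + 2 - r') * (q + 1) * (a + N + 1)) * ((a + q + 1) * C / (q + 1)) := by
      field_simp
      ring
    have e5 : ((a : ℝ) + q + 1 - r) * (a + N + 1 - s) *
        (((a : ℝ) + (q + 1) + 1) * (C * (a + q + 1) / (q + 1))) =
        ((a + q + 2) * (a + q + 1 - r) * (a + N + 1 - s)) * ((a + q + 1) * C / (q + 1)) := by
      field_simp
      ring
    rw [e4, e5]
    exact mul_le_mul_of_nonneg_right key (by positivity)

private theorem prod_ge_aux {a : ℕ} (ha : 1 ≤ a) (ν : ℕ → ℕ) (h0 : ∀ i, ν i ≤ a) (N : ℕ) :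
    Fx a (∑ i ∈ Finset.range N, ν i) ≤
      ∏ i ∈ Finset.range N, (1 - (ν i : ℝ) / (a + i + 1)) := by
  induction N with
  | zero =>
    simp only [Finset.range_zero, Finset.sum_empty, Finset.prod_empty]
    unfold Fx
    simp
    rw [div_self (by positivity)]
  | succ N ih =>
    rw [Finset.sum_range_succ, Finset.prod_range_succ]
    have hk : ∑ i ∈ Finset.range N, ν i ≤ N * a := by
      calc ∑ i ∈ Finset.range N, ν i ≤ ∑ _i ∈ Finset.range N, a :=
            Finset.sum_le_sum fun i _ => h0 i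
        _ = N * a := by simp
    refine (Fx_step ha (h0 N) hk).trans (mul_le_mul_of_nonneg_right ih ?_)
    have h1 : (ν N : ℝ) ≤ a := by exact_mod_cast h0 N
    have h2 : (ν N : ℝ) / (a + N + 1) ≤ 1 := by
      rw [div_le_one (by positivity)]
      have : (0 : ℝ) ≤ N := Nat.cast_nonneg N
      linarith
    linarith

/-- the smallest value of the product: rows filled from above.  Moving a cell from row `j` to row
`i < j` decreases `∏ (a + i + 1 - ν_i)`; the extreme case has `q` rows of length `a` and one of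
length `r`, `k = q a + r`.  (Possible induction on `N`, last row `ν_(N-1) = s`: if
`F(N,k) = q! (a+q+1-r) ∏_(q+1<i≤N) (a+i)` is the extreme value (`i` from `1`), then
`(a+N-s) F(N-1,k-s) ≥ F(N,k)`.) -/
theorem prod_ge {a N : ℕ} (ha : 1 ≤ a) (ν : ℕ → ℕ) (hν : Antitone ν) (h0 : ν 0 ≤ a) {k : ℕ}
    (hk : ∑ i ∈ Finset.range N, ν i = k) :
    (((a + k / a + 1 : ℕ) : ℝ) - ((k % a : ℕ) : ℝ)) /
      (((a + k / a + 1 : ℕ) : ℝ) * (((a + k / a).choose (k / a) : ℕ) : ℝ)) ≤
      ∏ i ∈ Finset.range N, (1 - (ν i : ℝ) / (a + i + 1)) := by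
  have h := prod_ge_aux ha ν (fun i => (hν (Nat.zero_le i)).trans h0) N
  rw [hk] at h
  exact h

private theorem card_rl (lam : YoungDiagram) (R : ℕ) (hR : lam.colLen 0 ≤ R) :
    lam.card = ∑ r ∈ range R, lam.rowLen r := by
  unfold YoungDiagram.card
  rw [Finset.card_eq_sum_card_fiberwise (f := Prod.fst) (t := range R)]
  · refine Finset.sum_congr rfl fun r _ => ?_
    rw [YoungDiagram.rowLen_eq_card, YoungDiagram.row]
  · intro c hc
    have h1 : c ∈ lam := (YoungDiagram.mem_cells _).1 (Finset.mem_coe.1 hc)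
    have h2 : (c.1, 0) ∈ lam := lam.up_left_mem le_rfl (Nat.zero_le _) h1
    rw [YoungDiagram.mem_iff_lt_colLen] at h2
    exact Finset.mem_coe.2 (Finset.mem_range.2 (lt_of_lt_of_le h2 hR))

/-- MAIN -/
theorem fD_ge_L {m : ℕ} (mu : YoungDiagram) (hm : mu.card = m) (h1 : 1 ≤ m) :
    (LLd m (mu.rowLen 0) : ℝ) * fD (tl mu) ≤ (LLn m (mu.rowLen 0) : ℝ) * fD mu := by
  set a := mu.rowLen 0 with ha
  have ha1 : 1 ≤ a := by
    by_contra hcon
    have h2 : a = 0 := by omega
    have h3 : mu.card = ∑ r ∈ range (mu.colLen 0), mu.rowLen r := card_rl mu _ le_rfl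
    have h4 : ∑ r ∈ range (mu.colLen 0), mu.rowLen r = 0 := by
      refine Finset.sum_eq_zero fun r _ => ?_
      have := mu.rowLen_anti 0 r (Nat.zero_le _)
      omega
    omega
  have hr : (tl mu).rowLen 0 ≤ a := by
    rw [rowLen_tl]
    exact mu.rowLen_anti 0 (0 + 1) (Nat.zero_le _)
  have hcard := card_tl mu
  have hcard' : (tl mu).card = m - a := by omega
  have ham : a + (m - a) = m := by omega
  have e1 := fD_row (N := (tl mu).colLen 0) (tl mu) hr le_rfl
  rw [addRow_tl, hcard', ham] at e1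
  have e2 := prod_ge (N := (tl mu).colLen 0) ha1 (tl mu).rowLen
    (fun i j hij => (tl mu).rowLen_anti i j hij) hr (k := m - a)
    (by rw [← card_rl _ _ le_rfl, hcard'])
  have hf : 0 ≤ fD (tl mu) := (fD_pos _).le
  have hc : (0 : ℝ) ≤ (m.choose a : ℝ) := Nat.cast_nonneg _
  have h5 : (m - a) % a < a := Nat.mod_lt _ ha1
  have e3 : (LLd m a : ℝ) = (m.choose a : ℝ) *
      (((a + (m - a) / a + 1 : ℕ) : ℝ) - (((m - a) % a : ℕ) : ℝ)) := by
    have h9 : 0 ≤ (m - a) / a := Nat.zero_le _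
    unfold LLd
    rw [Nat.cast_mul, Nat.cast_sub (h5.le.trans (by linarith))]
  have e4 : (LLn m a : ℝ) = ((a + (m - a) / a + 1 : ℕ) : ℝ) *
      (((a + (m - a) / a).choose ((m - a) / a) : ℕ) : ℝ) := by
    unfold LLn
    rw [Nat.cast_mul]
  have hL : (0 : ℝ) < ((a + (m - a) / a + 1 : ℕ) : ℝ) *
      (((a + (m - a) / a).choose ((m - a) / a) : ℕ) : ℝ) := by
    have h6 : 0 < (a + (m - a) / a).choose ((m - a) / a) :=
      Nat.choose_pos (Nat.le_add_left _ _)
    have h7 : (0 : ℝ) < (((a + (m - a) / a).choose ((m - a) / a) : ℕ) : ℝ) := by exact_mod_cast h6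
    positivity
  rw [div_le_iff₀ hL] at e2
  rw [e1, e3, e4]
  have h8 := mul_le_mul_of_nonneg_left e2 (mul_nonneg hc hf)
  calc _ = (m.choose a : ℝ) * fD (tl mu) *
        (((a + (m - a) / a + 1 : ℕ) : ℝ) - (((m - a) % a : ℕ) : ℝ)) := by ring
    _ ≤ _ := h8
    _ = _ := by ring

end Pool.MP322F
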