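import Pool.Agent.Lib.MP_322c5f_alF.FD02
import Pool.Agent.Lib.MP_322c5f_alF.FD03
import Pool.Agent.Lib.MP_322c5f_alF.FC03

/-! Bounds for the normalized characters on the classes without fixed points. -/

set_option autoImplicit false

open Finset Equiv Nat
open scoped NNReal

namespace Pool.MP322F

open Pool.MP322

private theorem zt_ft {n : ℕ} (σ : Perm (Fin n)) :
    zt (ft σ) = (n - σ.cycleType.sum)! * σ.cycleType.prod *
      ∏ c ∈ σ.cycleType.toFinset, (σ.cycleType.count c)! := by
  have h1 : (1 : ℕ) ∉ σ.cycleType := fun h' =>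
    absurd (Perm.one_lt_of_mem_cycleType h') (lt_irrefl 1)
  unfold zt ft
  rw [Perm.sum_cycleType]
  set A := σ.cycleType with hA
  set k := n - σ.support.card with hk
  have h2 : ∏ c ∈ (A + Multiset.replicate k 1).toFinset, ((A + Multiset.replicate k 1).count c)! =
      ∏ c ∈ insert 1 A.toFinset, ((A + Multiset.replicate k 1).count c)! := by
    refine Finset.prod_subset ?_ ?_
    · intro c hc
      rw [Multiset.mem_toFinset, Multiset.mem_add, Multiset.mem_replicate] at hc
      rw [Finset.mem_insert, Multiset.mem_toFinset]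
      rcases hc with h | h
      · exact Or.inr h
      · exact Or.inl h.2
    · intro c _ hc
      rw [Multiset.mem_toFinset, ← Multiset.count_eq_zero] at hc
      rw [hc]
      rfl
  have h3 : ∀ c ∈ A.toFinset, ((A + Multiset.replicate k 1).count c)! = (A.count c)! := by
    intro c hc
    have h4 : c ≠ 1 := by
      rintro rfl
      exact h1 (Multiset.mem_toFinset.1 hc)
    rw [Multiset.count_add, Multiset.count_replicate, if_neg (Ne.symm h4), add_zero]
  have h4 : 1 ∉ A.toFinset := fun h => h1 (Multiset.mem_toFinset.1 h)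
  rw [h2, Finset.prod_insert h4, Finset.prod_congr rfl h3, Multiset.count_add,
    Multiset.count_eq_zero.2 h1, Multiset.count_replicate_self, zero_add, Multiset.prod_add,
    Multiset.prod_replicate, one_pow, mul_one]
  ring

/-- `|chi|^2 ≤ z`: `plancherel_sq` and `Equiv.Perm.card_of_cycleType` -/
theorem chi_sq_le {n : ℕ} (mu : Y n) (σ : Perm (Fin n)) : chi mu σ ^ 2 ≤ (zt (ft σ) : ℝ) := by
  have h1 := plancherel_sq σ
  have h2 : chi mu σ ^ 2 = fd mu ^ 2 * (chi mu σ / fd mu) ^ 2 := by
    have hf := (fd_pos mu).ne'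
    field_simp
  have h3 : fd mu ^ 2 * (chi mu σ / fd mu) ^ 2 ≤
      ∑ lam : Y n, fd lam ^ 2 * (chi lam σ / fd lam) ^ 2 :=
    Finset.single_le_sum (f := fun lam : Y n => fd lam ^ 2 * (chi lam σ / fd lam) ^ 2)
      (fun lam _ => by positivity) (Finset.mem_univ mu)
  rw [h2]
  refine h3.trans ?_
  rw [h1]
  have h4 := Equiv.Perm.card_of_cycleType_mul_eq (Fin n) σ.cycleType
  have h5 : σ.cycleType.sum ≤ Fintype.card (Fin n) ∧ ∀ a ∈ σ.cycleType, 2 ≤ a :=
    ⟨by rw [Perm.sum_cycleType]; exact Finset.card_le_univ _,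
      fun a ha => Perm.two_le_of_mem_cycleType ha⟩
  rw [if_pos h5, Fintype.card_fin] at h4
  have h6 : 0 < ((Finset.univ : Finset (Perm (Fin n))).filter
        (fun π => π.cycleType = σ.cycleType)).card :=
    Finset.card_pos.2 ⟨σ, by simp⟩
  have h7 : (0 : ℝ) < (((Finset.univ : Finset (Perm (Fin n))).filter
        (fun π => π.cycleType = σ.cycleType)).card : ℝ) := by exact_mod_cast h6
  rw [div_le_iff₀ h7, zt_ft]
  rw [← h4]
  push_cast
  apply le_of_eq
  ring

/-- lower bounds for the dimensions of the diagrams with `m ≤ M` cells in an `A × A` square -/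
def GP (G : ℕ → ℕ → ℝ) (M : ℕ) : Prop :=
  ∀ m ≤ M, ∀ A : ℕ, ∀ mu : YoungDiagram, mu.card = m → mu.rowLen 0 ≤ A → mu.colLen 0 ≤ A →
    G m A ≤ fD mu

private theorem row_pos {mu : YoungDiagram} (h : 1 ≤ mu.card) : 1 ≤ mu.rowLen 0 := by
  by_contra hcon
  have h0 : mu.cells = ∅ := by
    rw [Finset.eq_empty_iff_forall_notMem]
    intro c hc
    rw [YoungDiagram.mem_cells] at hc
    have hc' : (c.1, c.2) ∈ mu := hc
    have h1 : (0, 0) ∈ mu := mu.up_left_mem (Nat.zero_le _) (Nat.zero_le _) hc'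
    rw [YoungDiagram.mem_iff_lt_rowLen] at h1
    omega
  unfold YoungDiagram.card at h
  rw [h0, Finset.card_empty] at h
  omega

private theorem card_le_mul (mu : YoungDiagram) : mu.card ≤ mu.colLen 0 * mu.rowLen 0 := by
  have h1 : mu.cells ⊆ Finset.range (mu.colLen 0) ×ˢ Finset.range (mu.rowLen 0) := by
    intro c hc
    rw [YoungDiagram.mem_cells] at hc
    have hc' : (c.1, c.2) ∈ mu := hc
    have h2 : (c.1, 0) ∈ mu := mu.up_left_mem le_rfl (Nat.zero_le _) hc'
    have h3 : (0, c.2) ∈ mu := mu.up_left_mem (Nat.zero_le _) le_rfl hc'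
    rw [YoungDiagram.mem_iff_lt_colLen] at h2
    rw [YoungDiagram.mem_iff_lt_rowLen] at h3
    rw [Finset.mem_product, Finset.mem_range, Finset.mem_range]
    exact ⟨h2, h3⟩
  have h2 := Finset.card_le_card h1
  rwa [Finset.card_product, Finset.card_range, Finset.card_range] at h2

private theorem row_le_card' (nu : YoungDiagram) : nu.rowLen 0 ≤ nu.card := by
  rw [YoungDiagram.rowLen_eq_card]
  exact Finset.card_le_card (Finset.filter_subset _ _)

private theorem rowLen_tl_le (mu : YoungDiagram) : (tl mu).rowLen 0 ≤ mu.rowLen 0 := by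
  rw [rowLen_tl]
  exact mu.rowLen_anti 0 (0 + 1) (Nat.zero_le _)

/-- lower bound for the diagrams with first row `a` and at most `a` rows -/
theorem GP_row {G : ℕ → ℕ → ℝ} {M m : ℕ} (hG : GP G M) (mu : YoungDiagram) (hm : mu.card = m)
    (h1 : 1 ≤ m) (hM : m ≤ M + 1) (hc : mu.colLen 0 ≤ mu.rowLen 0) :
    (LLd m (mu.rowLen 0) : ℝ) * G (m - mu.rowLen 0) (mu.rowLen 0) ≤
      (LLn m (mu.rowLen 0) : ℝ) * fD mu := by
  have ha : 1 ≤ mu.rowLen 0 := row_pos (by omega)
  have h2 := card_tl mu
  have h3 : G (m - mu.rowLen 0) (mu.rowLen 0) ≤ fD (tl mu) := by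
    refine hG _ (by omega) _ (tl mu) (by omega) (rowLen_tl_le mu) ?_
    rw [colLen_tl]
    omega
  refine le_trans (mul_le_mul_of_nonneg_left h3 (Nat.cast_nonneg _)) ?_
  exact fD_ge_L mu hm h1

/-- induction step (transpose if the first column is longer; `m ≤ a^2`) -/
theorem GP_succ {G : ℕ → ℕ → ℝ} {M : ℕ} (hG : GP G M)
    (h : ∀ A a : ℕ, 1 ≤ a → a ≤ A → a ≤ M + 1 → M + 1 ≤ a * a →
      (LLn (M + 1) a : ℝ) * G (M + 1) A ≤ (LLd (M + 1) a : ℝ) * G (M + 1 - a) a) :
    GP G (M + 1) := by
  have key : ∀ A : ℕ, ∀ mu : YoungDiagram, mu.card = M + 1 → mu.rowLen 0 ≤ A →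
      mu.colLen 0 ≤ mu.rowLen 0 → G (M + 1) A ≤ fD mu := by
    intro A mu hmu hA hc
    have h1 := GP_row hG mu hmu (by omega) le_rfl hc
    have h2 := card_le_mul mu
    have h3 := row_le_card' mu
    have h4 : M + 1 ≤ mu.rowLen 0 * mu.rowLen 0 := by
      have := Nat.mul_le_mul_right (mu.rowLen 0) hc
      omega
    have h5 := h A (mu.rowLen 0) (row_pos (by omega)) hA (by omega) h4
    have h6 := h5.trans h1
    have h7 : (0 : ℝ) < (LLn (M + 1) (mu.rowLen 0) : ℝ) := by
      have : 0 < LLn (M + 1) (mu.rowLen 0) := by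
        unfold LLn
        exact Nat.mul_pos (Nat.succ_pos _) (Nat.choose_pos (Nat.le_add_left _ _))
      exact_mod_cast this
    exact le_of_mul_le_mul_left h6 h7
  intro m hm A mu hmu h1 h2
  rcases Nat.lt_or_ge m (M + 1) with h3 | h3
  · exact hG m (by omega) A mu hmu h1 h2
  · have h4 : m = M + 1 := by omega
    subst h4
    rcases le_total (mu.colLen 0) (mu.rowLen 0) with h5 | h5
    · exact key A mu hmu h1 h5
    · rw [← fD_transpose]
      refine key A mu.transpose ?_ ?_ ?_
      · rw [card_transpose', hmu]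
      · rw [YoungDiagram.rowLen_transpose]
        exact h2
      · rw [YoungDiagram.rowLen_transpose, YoungDiagram.colLen_transpose]
        exact h5

private theorem LLd_pos {m a : ℕ} (ha : 1 ≤ a) (ham : a ≤ m) : 0 < LLd m a := by
  unfold LLd
  refine Nat.mul_pos (Nat.choose_pos ham) ?_
  have h1 := Nat.mod_lt (m - a) (by omega : 0 < a)
  have h2 : (m - a) % a < a + (m - a) / a + 1 :=
    lt_of_lt_of_le h1 ((Nat.le_add_right _ _).trans (Nat.le_succ _))
  exact Nat.sub_pos_of_lt h2

/-- the bound of one class: `E a` is a lower bound for the dimensions of the diagrams with first row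
`a` and at most `a` rows, `t` is any function.  For `mu` of depth `≥ K` with first row `a ≥` first
column (transpose otherwise, the type is even), `k = m - a`: if `2k ≤ m`, `abs_chi_row`,
`card_powerset_compl` and `fD_ge` give `|chi|/fd ≤ cS τ k / Dl m k`; otherwise `m ≤ a^2`, and
`chi_sq_le` gives the first, `abs_chi_row` and `fD_ge_L` give the second bound. -/
theorem sv_new {m K : ℕ} (hK : 1 ≤ K) {τ : Multiset ℕ} (hτ : τ ∈ TNW m) (E : ℕ → ℝ)
    (hE0 : ∀ a, 0 < E a)
    (hE : ∀ mu : YoungDiagram, mu.card = m → mu.colLen 0 ≤ mu.rowLen 0 → E (mu.rowLen 0) ≤ fD mu)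
    (t : ℕ → ℕ) :
    (sv m K τ : ℝ) ≤ (∑ k ∈ Finset.Icc K (m / 2), (cS τ k : ℝ) / (Dl m k : ℝ)) +
      ∑ a ∈ (Finset.range ((m + 1) / 2)).filter (fun a => m ≤ a * a),
        (if τ.count 2 < t a then Real.sqrt (zt τ) / E a
          else (cN τ a : ℝ) * ((LLn m a : ℝ) / (LLd m a : ℝ))) := by
  classical
  unfold TNW at hτ
  rw [Finset.mem_filter] at hτ
  obtain ⟨hτ1, hτ2⟩ := hτ
  have h3 := (bsum_mem hτ1).2.1
  have hm1 : 1 ≤ m := by omega
  unfold typesE at hτ1
  obtain ⟨σ, hσ, hστ⟩ := Finset.mem_image.1 hτ1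
  rw [Finset.mem_filter] at hσ
  obtain ⟨_, hsgn, _⟩ := hσ
  have hft : ft σ = τ := by
    unfold ft
    have h4 : σ.support.card = m := by
      rw [← Perm.sum_cycleType, hστ, hτ2]
    rw [h4, Nat.sub_self, Multiset.replicate_zero, add_zero, hστ]
  set S1 := ∑ k ∈ Finset.Icc K (m / 2), (cS τ k : ℝ) / (Dl m k : ℝ) with hS1
  set S2 := ∑ a ∈ (Finset.range ((m + 1) / 2)).filter (fun a => m ≤ a * a),
        (if τ.count 2 < t a then Real.sqrt (zt τ) / E a
          else (cN τ a : ℝ) * ((LLn m a : ℝ) / (LLd m a : ℝ))) with hS2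
  have hT1 : ∀ k ∈ Finset.Icc K (m / 2), 0 ≤ (cS τ k : ℝ) / (Dl m k : ℝ) := by
    intro k hk
    rw [Finset.mem_Icc] at hk
    have h4 : (0 : ℝ) < (Dl m k : ℝ) := by
      exact_mod_cast Dl_pos (by omega)
    positivity
  have hT2 : ∀ a ∈ (Finset.range ((m + 1) / 2)).filter (fun a => m ≤ a * a),
      0 ≤ (if τ.count 2 < t a then Real.sqrt (zt τ) / E a
          else (cN τ a : ℝ) * ((LLn m a : ℝ) / (LLd m a : ℝ))) := by
    intro a _
    have := (hE0 a).le
    split_ifs <;> positivity
  have hS10 : 0 ≤ S1 := Finset.sum_nonneg hT1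
  have hS20 : 0 ≤ S2 := Finset.sum_nonneg hT2
  -- the main bound for the diagrams with `colLen ≤ rowLen`
  have key : ∀ mu : Y m, K ≤ Dp mu → mu.1.colLen 0 ≤ mu.1.rowLen 0 →
      |chi mu σ| / fd mu ≤ S1 + S2 := by
    intro mu hD hc
    have hcard : mu.1.card = m := mu.2
    have ha : 1 ≤ mu.1.rowLen 0 := row_pos (by omega)
    have ham := row_le_card' mu.1
    have hct := card_tl mu.1
    have hrow := abs_chi_row mu hm1 σ
    have hfd : fd mu = fD mu.1 := fd_eq_fD mu
    have hfpos : 0 < fD mu.1 := fD_pos _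
    have htpos : 0 < fD (tl mu.1) := fD_pos _
    unfold Dp at hD
    rw [max_eq_left hc] at hD
    rw [hft] at hrow
    set a := mu.1.rowLen 0 with hadef
    rw [hfd, div_le_iff₀ hfpos]
    rcases Nat.lt_or_ge m (2 * (m - a)) with h2k | h2k
    · -- second range
      have haR : a ∈ (Finset.range ((m + 1) / 2)).filter (fun a => m ≤ a * a) := by
        rw [Finset.mem_filter, Finset.mem_range]
        refine ⟨by omega, ?_⟩
        have h4 := card_le_mul mu.1
        have h5 : mu.1.colLen 0 * mu.1.rowLen 0 ≤ a * a := Nat.mul_le_mul hc le_rfl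
        omega
      have h4 := Finset.single_le_sum hT2 haR
      rw [← hS2] at h4
      have h5 : |chi mu σ| ≤ (if τ.count 2 < t a then Real.sqrt (zt τ) / E a
          else (cN τ a : ℝ) * ((LLn m a : ℝ) / (LLd m a : ℝ))) * fD mu.1 := by
        split_ifs with ht
        · have h6 : |chi mu σ| ≤ Real.sqrt (zt τ) := by
            refine Real.abs_le_sqrt ?_
            have h7 := chi_sq_le mu σ
            rwa [hft] at h7
          have h7 : E a ≤ fD mu.1 := hE mu.1 hcard hc
          have h8 := hE0 a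
          calc |chi mu σ| ≤ Real.sqrt (zt τ) := h6
            _ = Real.sqrt (zt τ) / E a * E a := by field_simp
            _ ≤ Real.sqrt (zt τ) / E a * fD mu.1 :=
              mul_le_mul_of_nonneg_left h7 (by positivity)
        · have h6 : (Multiset.card (τ.powerset.filter (fun B => a ≤ B.sum ∧
              B.sum + 1 ≤ a + mu.1.colLen 0)) : ℝ) ≤ (cN τ a : ℝ) := by
            have : Multiset.card (τ.powerset.filter (fun B => a ≤ B.sum ∧
              B.sum + 1 ≤ a + mu.1.colLen 0)) ≤ cN τ a := by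
              unfold cN
              refine Multiset.card_le_card (Multiset.monotone_filter_right _ ?_)
              intro B hB
              exact ⟨hB.1, by omega⟩
            exact_mod_cast this
          have h7 := fD_ge_L mu.1 hcard hm1
          rw [← hadef] at h7
          have h8 : (0 : ℝ) < (LLd m a : ℝ) := by
            exact_mod_cast LLd_pos ha (by omega)
          have h9 : fD (tl mu.1) ≤ (LLn m a : ℝ) / (LLd m a : ℝ) * fD mu.1 := by
            rw [div_mul_eq_mul_div, le_div_iff₀ h8, mul_comm]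
            exact h7
          calc |chi mu σ| ≤ _ := hrow
            _ ≤ (cN τ a : ℝ) * fD (tl mu.1) := mul_le_mul_of_nonneg_right h6 htpos.le
            _ ≤ (cN τ a : ℝ) * ((LLn m a : ℝ) / (LLd m a : ℝ) * fD mu.1) :=
              mul_le_mul_of_nonneg_left h9 (Nat.cast_nonneg _)
            _ = _ := by ring
      refine h5.trans (mul_le_mul_of_nonneg_right ?_ hfpos.le)
      linarith
    · -- first range
      have hkR : m - a ∈ Finset.Icc K (m / 2) := by
        rw [Finset.mem_Icc]
        omega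
      have h4 := Finset.single_le_sum hT1 hkR
      rw [← hS1] at h4
      have h6 : (Multiset.card (τ.powerset.filter (fun B => a ≤ B.sum ∧
          B.sum + 1 ≤ a + mu.1.colLen 0)) : ℝ) ≤ (cS τ (m - a) : ℝ) := by
        have h7 := card_powerset_compl τ a (by omega)
        rw [hτ2] at h7
        have : Multiset.card (τ.powerset.filter (fun B => a ≤ B.sum ∧
          B.sum + 1 ≤ a + mu.1.colLen 0)) ≤ cS τ (m - a) := by
          rw [← h7]
          exact Multiset.card_le_card (Multiset.monotone_filter_right _ fun B hB => hB.1)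
        exact_mod_cast this
      have h7 : (Dl m (m - a) : ℝ) * fD (tl mu.1) ≤ fD mu.1 := by
        have h8 : (tl mu.1).card ≤ a := by omega
        have h9 := fD_ge h8
        rw [hadef, addRow_tl, ← hadef] at h9
        have e1 : (tl mu.1).card = m - a := by omega
        rw [e1] at h9
        have e2 : a + (m - a) = m := by omega
        rwa [e2] at h9
      have h8 : (0 : ℝ) < (Dl m (m - a) : ℝ) := by
        exact_mod_cast Dl_pos (by omega)
      have h9 : fD (tl mu.1) ≤ 1 / (Dl m (m - a) : ℝ) * fD mu.1 := by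
        rw [div_mul_eq_mul_div, le_div_iff₀ h8, mul_comm, one_mul]
        exact h7
      have h10 : |chi mu σ| ≤ (cS τ (m - a) : ℝ) / (Dl m (m - a) : ℝ) * fD mu.1 := by
        calc |chi mu σ| ≤ _ := hrow
          _ ≤ (cS τ (m - a) : ℝ) * fD (tl mu.1) := mul_le_mul_of_nonneg_right h6 htpos.le
          _ ≤ (cS τ (m - a) : ℝ) * (1 / (Dl m (m - a) : ℝ) * fD mu.1) :=
            mul_le_mul_of_nonneg_left h9 (Nat.cast_nonneg _)
          _ = _ := by ring
      refine h10.trans (mul_le_mul_of_nonneg_right ?_ hfpos.le)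
      linarith
  have key2 : ∀ mu : Y m, K ≤ Dp mu → |chi mu σ| / fd mu ≤ S1 + S2 := by
    intro mu hD
    rcases le_total (mu.1.colLen 0) (mu.1.rowLen 0) with h5 | h5
    · exact key mu hD h5
    · have h6 := key mu.tr (by
        unfold Dp at hD ⊢
        show K ≤ m - max (mu.1.transpose.rowLen 0) (mu.1.transpose.colLen 0)
        rw [YoungDiagram.rowLen_transpose, YoungDiagram.colLen_transpose, max_comm]
        exact hD) (by
        show mu.1.transpose.colLen 0 ≤ mu.1.transpose.rowLen 0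
        rw [YoungDiagram.rowLen_transpose, YoungDiagram.colLen_transpose]
        exact h5)
      rw [chi_tr, fd_tr, hsgn] at h6
      simpa using h6
  have hsv : sv m K τ ≤ (S1 + S2).toNNReal := by
    unfold sv
    refine Finset.sup_le fun mu hmu => ?_
    rw [Finset.mem_filter] at hmu
    refine Real.toNNReal_le_toNNReal ?_
    have h6 := key2 mu hmu.2
    rw [← hστ, ty_cycleType]
    refine le_trans ?_ h6
    rw [← neg_div]
    exact div_le_div_of_nonneg_right (neg_le_abs _) (fd_pos mu).le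
  have h7 : (sv m K τ : ℝ) ≤ ((S1 + S2).toNNReal : ℝ) := by exact_mod_cast hsv
  rwa [Real.coe_toNNReal _ (by linarith)] at h7

/-- the sum over the classes without fixed points -/
theorem NW_le {m K : ℕ} (hK : 1 ≤ K) (E : ℕ → ℝ) (hE0 : ∀ a, 0 < E a)
    (hE : ∀ mu : YoungDiagram, mu.card = m → mu.colLen 0 ≤ mu.rowLen 0 → E (mu.rowLen 0) ≤ fD mu)
    (t : ℕ → ℕ) :
    (NW m K : ℝ) ≤ (∑ k ∈ Finset.Icc K (m / 2), (TS m k : ℝ) / (Dl m k : ℝ)) +
      ∑ a ∈ (Finset.range ((m + 1) / 2)).filter (fun a => m ≤ a * a),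
        (TZ m (t a) / E a + (TN m a (t a) : ℝ) * ((LLn m a : ℝ) / (LLd m a : ℝ))) := by
  have h1 : (NW m K : ℝ) = ∑ τ ∈ TNW m, (sv m K τ : ℝ) := by
    unfold NW TNW
    push_cast
    rfl
  rw [h1]
  refine (Finset.sum_le_sum fun τ hτ => sv_new hK hτ E hE0 hE t).trans (le_of_eq ?_)
  rw [Finset.sum_add_distrib]
  congr 1
  · rw [Finset.sum_comm]
    refine Finset.sum_congr rfl fun k _ => ?_
    unfold TS
    push_cast
    rw [Finset.sum_div]
  · rw [Finset.sum_comm]
    refine Finset.sum_congr rfl fun a _ => ?_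
    unfold TZ TN
    push_cast
    rw [Finset.sum_div, Finset.sum_mul, Finset.sum_ite]
    congr 1
    refine Finset.sum_congr ?_ fun _ _ => rfl
    refine Finset.filter_congr fun τ _ => ?_
    exact not_lt

end Pool.MP322F
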