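import Pool.Agent.Lib.MP_322c5f_alF.FD00

/-! Sums over the even types without fixed points in terms of `WT`. -/

set_option autoImplicit false

open Finset Equiv Nat

namespace Pool.MP322F

open Pool.MP322

/-- the multisets with parts in `[3, k+2]`, sum `t` and `t +` number of parts congruent to `p` -/
private noncomputable def fd5S : ℕ → ℕ → ℕ → Finset (Multiset ℕ)
  | 0, t, p => if t = 0 ∧ p = 0 then {0} else ∅
  | k + 1, t, p => (Finset.range (t / (k + 3) + 1)).biUnion (fun j =>
      (fd5S k (t - (k + 3) * j) ((p + j * (k + 2)) % 2)).image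
        (fun τ => τ + Multiset.replicate j (k + 3)))

private theorem fd5_mem : ∀ (k t p : ℕ) (τ : Multiset ℕ), p < 2 →
    (τ ∈ fd5S k t p ↔ (∀ c ∈ τ, 3 ≤ c ∧ c ≤ k + 2) ∧ τ.sum = t ∧ (t + Multiset.card τ) % 2 = p) := by
  intro k
  induction k with
  | zero =>
    intro t p τ hp
    unfold fd5S
    constructor
    · intro h
      split_ifs at h with h1
      · rw [Finset.mem_singleton] at h
        subst h
        refine ⟨by simp, ?_, ?_⟩
        · simp [h1.1]
        · simp [h1.1, h1.2]
      · simp at h
    · rintro ⟨h1, h2, h3⟩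
      have h4 : τ = 0 := by
        apply Multiset.eq_zero_of_forall_notMem
        intro c hc
        have := h1 c hc
        omega
      subst h4
      simp at h2 h3
      subst h2
      simp at h3
      rw [if_pos ⟨rfl, h3.symm⟩]
      simp
  | succ k ih =>
    intro t p τ hp
    unfold fd5S
    rw [Finset.mem_biUnion]
    constructor
    · rintro ⟨j, hj, h⟩
      rw [Finset.mem_image] at h
      obtain ⟨σ, hσ, rfl⟩ := h
      rw [ih _ _ _ (Nat.mod_lt _ (by norm_num))] at hσ
      obtain ⟨h1, h2, h3⟩ := hσ
      have hj2 : (k + 3) * j ≤ t := by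
        have h5 := Finset.mem_range.1 hj
        have h6 : j ≤ t / (k + 3) := by omega
        calc (k + 3) * j ≤ (k + 3) * (t / (k + 3)) := Nat.mul_le_mul_left _ h6
          _ ≤ t := Nat.mul_div_le _ _
      refine ⟨?_, ?_, ?_⟩
      · intro c hc
        rw [Multiset.mem_add] at hc
        rcases hc with hc | hc
        · have := h1 c hc
          omega
        · have := Multiset.eq_of_mem_replicate hc
          omega
      · rw [Multiset.sum_add, Multiset.sum_replicate, h2, smul_eq_mul, mul_comm j]
        omega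
      · rw [Multiset.card_add, Multiset.card_replicate]
        have h7 : t = (t - (k + 3) * j) + (k + 3) * j := by omega
        generalize t - (k + 3) * j = u at h3 h7
        have h8 : (k + 3) * j + j = j * (k + 2) + 2 * j := by ring
        subst h7
        have h9 : u + (k + 3) * j + (Multiset.card σ + j) = (u + Multiset.card σ) + j * (k + 2) + 2 * j := by
          rw [add_assoc, add_assoc, add_assoc, ← h8]; ring
        rw [h9]
        have h10 : j * (k + 2) % 2 = 0 ∨ j * (k + 2) % 2 = 1 := by omega
        generalize j * (k + 2) = v at *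
        omega
    · rintro ⟨h1, h2, h3⟩
      have hdec : τ.filter (fun c => c ≠ k + 3) + Multiset.replicate (τ.count (k + 3)) (k + 3) = τ := by
        rw [← Multiset.filter_eq', add_comm]
        exact Multiset.filter_add_not (fun c => c = k + 3) τ
      have hsum : (τ.filter (fun c => c ≠ k + 3)).sum + (k + 3) * τ.count (k + 3) = t := by
        rw [← h2]
        conv_rhs => rw [← hdec]
        rw [Multiset.sum_add, Multiset.sum_replicate, smul_eq_mul, mul_comm (k + 3)]
      have hcard : Multiset.card (τ.filter (fun c => c ≠ k + 3)) + τ.count (k + 3) = Multiset.card τ := by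
        conv_rhs => rw [← hdec]
        rw [Multiset.card_add, Multiset.card_replicate]
      refine ⟨τ.count (k + 3), ?_, ?_⟩
      · rw [Finset.mem_range, Nat.lt_succ_iff, Nat.le_div_iff_mul_le (by omega), mul_comm]
        omega
      · rw [Finset.mem_image]
        refine ⟨τ.filter (fun c => c ≠ k + 3), ?_, hdec⟩
        rw [ih _ _ _ (Nat.mod_lt _ (by norm_num))]
        refine ⟨?_, by omega, ?_⟩
        · intro c hc
          rw [Multiset.mem_filter] at hc
          have := h1 c hc.1
          have := hc.2
          omega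
        · have h8 : (k + 3) * τ.count (k + 3) + τ.count (k + 3) =
              τ.count (k + 3) * (k + 2) + 2 * τ.count (k + 3) := by ring
          generalize τ.count (k + 3) * (k + 2) = v at *
          generalize (k + 3) * τ.count (k + 3) = w at *
          omega

private theorem fd5_WT {R : Type} [CommSemiring R] (wf : ℕ → ℕ → R) : ∀ (k t p : ℕ), p < 2 →
    WT wf k t p = ∑ τ ∈ fd5S k t p, ∏ x ∈ Finset.Icc 3 (k + 2), wf x (τ.count x) := by
  intro k
  induction k with
  | zero =>
    intro t p hp
    unfold WT fd5S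
    split_ifs with h
    · simp
    · simp
  | succ k ih =>
    intro t p hp
    unfold WT fd5S
    rw [Finset.sum_biUnion]
    · refine Finset.sum_congr rfl fun j hj => ?_
      rw [Finset.sum_image]
      · rw [ih _ _ (Nat.mod_lt _ (by norm_num)), Finset.mul_sum]
        refine Finset.sum_congr rfl fun τ hτ => ?_
        rw [fd5_mem _ _ _ _ (Nat.mod_lt _ (by norm_num))] at hτ
        have hI : Finset.Icc 3 (k + 1 + 2) = insert (k + 3) (Finset.Icc 3 (k + 2)) := by
          ext x
          simp only [Finset.mem_Icc, Finset.mem_insert]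
          omega
        rw [hI, Finset.prod_insert (by simp)]
        congr 1
        · rw [Multiset.count_add, Multiset.count_replicate_self, Multiset.count_eq_zero_of_notMem]
          · simp
          · intro h
            have := hτ.1 _ h
            omega
        · refine Finset.prod_congr rfl fun x hx => ?_
          rw [Finset.mem_Icc] at hx
          rw [Multiset.count_add, Multiset.count_replicate, if_neg (by omega)]
          simp
      · intro a _ b _ hab
        exact add_right_cancel hab
    · intro a _ b _ hab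
      rw [Function.onFun, Finset.disjoint_left]
      intro τ h1 h2
      rw [Finset.mem_image] at h1 h2
      obtain ⟨σ, hσ, h1⟩ := h1
      obtain ⟨σ', hσ', h2⟩ := h2
      rw [fd5_mem _ _ _ _ (Nat.mod_lt _ (by norm_num))] at hσ hσ'
      apply hab
      have e1 : τ.count (k + 3) = a := by
        rw [← h1, Multiset.count_add, Multiset.count_replicate_self, Multiset.count_eq_zero_of_notMem]
        · simp
        · intro h
          have := hσ.1 _ h
          omega
      have e2 : τ.count (k + 3) = b := by
        rw [← h2, Multiset.count_add, Multiset.count_replicate_self, Multiset.count_eq_zero_of_notMem]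
        · simp
        · intro h
          have := hσ'.1 _ h
          omega
      rw [← e1, e2]

private theorem fd5_TNW {m : ℕ} (hm : 2 ≤ m) (τ : Multiset ℕ) :
    τ ∈ TNW m ↔ (∀ c ∈ τ, 2 ≤ c) ∧ τ.sum = m ∧ (m + Multiset.card τ) % 2 = 0 := by
  classical
  unfold TNW typesE
  rw [Finset.mem_filter, Finset.mem_image]
  constructor
  · rintro ⟨⟨σ, hσ, rfl⟩, hs⟩
    rw [Finset.mem_filter] at hσ
    refine ⟨fun c hc => Perm.two_le_of_mem_cycleType hc, hs, ?_⟩
    have h1 := hσ.2.1
    rw [Perm.sign_of_cycleType, hs] at h1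
    by_contra hcon
    have h2 : Odd (m + Multiset.card σ.cycleType) := by
      rw [Nat.odd_iff]; omega
    rw [h2.neg_one_pow] at h1
    exact absurd h1 (by decide)
  · rintro ⟨h1, h2, h3⟩
    obtain ⟨σ, rfl⟩ := (Equiv.Perm.exists_with_cycleType_iff (α := Fin m)).2
      ⟨by rw [h2, Fintype.card_fin], h1⟩
    refine ⟨⟨σ, ?_, rfl⟩, h2⟩
    rw [Finset.mem_filter]
    refine ⟨Finset.mem_univ _, ?_, ?_⟩
    · rw [Perm.sign_of_cycleType, h2]
      exact (Nat.even_iff.2 h3).neg_one_pow
    · rintro rfl
      simp at h2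
      omega

/-- MAIN: sum over the types of size `m` with exactly `i` parts `2`, for `m ≥ 2`, `2 i ≤ m`:
a type is the collection of the multiplicities of `3, ..., m`; it is even iff `m +` number of parts
is even; adding `j` parts `x` to a type of size `t` changes `t +` number of parts by `j (x + 1)`.
(`WT wf k t p`: the types with parts in `[3, k+2]`, size `t`, with `t +` number of parts congruent
to `p` mod 2.  Membership in `typesE m`: nonzero multisets of numbers `≥ 2`, sum at most `m`, with
sum `+` number of parts even; `Equiv.Perm.sign_of_cycleType`, `exists_ft`.) -/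
theorem sum_TNW {R : Type} [CommSemiring R] (wf : ℕ → ℕ → R) (h0 : ∀ x, wf x 0 = 1) {m : ℕ}
    (hm : 2 ≤ m) (i : ℕ) :
    ∑ τ ∈ (TNW m).filter (fun τ => τ.count 2 = i),
        ∏ x ∈ Finset.Icc 3 m, wf x (τ.count x) =
      if 2 * i ≤ m then WT wf (m - 2) (m - 2 * i) (i % 2) else 0 := by
  have hsp : ∀ τ : Multiset ℕ, τ.filter (fun c => c ≠ 2) + Multiset.replicate (τ.count 2) 2 = τ := by
    intro τ
    rw [← Multiset.filter_eq', add_comm]
    exact Multiset.filter_add_not (fun c => c = 2) τ
  have hsum : ∀ τ : Multiset ℕ, (τ.filter (fun c => c ≠ 2)).sum + 2 * τ.count 2 = τ.sum := by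
    intro τ
    conv_rhs => rw [← hsp τ]
    rw [Multiset.sum_add, Multiset.sum_replicate, smul_eq_mul, mul_comm 2]
  have hcard : ∀ τ : Multiset ℕ, Multiset.card (τ.filter (fun c => c ≠ 2)) + τ.count 2 =
      Multiset.card τ := by
    intro τ
    conv_rhs => rw [← hsp τ]
    rw [Multiset.card_add, Multiset.card_replicate]
  split_ifs with hi
  · rw [fd5_WT _ _ _ _ (Nat.mod_lt _ (by norm_num))]
    have hk : m - 2 + 2 = m := by omega
    rw [hk]
    refine Finset.sum_bij' (fun τ _ => τ.filter (fun c => c ≠ 2))
      (fun τ _ => τ + Multiset.replicate i 2) ?_ ?_ ?_ ?_ ?_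
    · intro τ hτ
      rw [Finset.mem_filter, fd5_TNW hm] at hτ
      obtain ⟨⟨h1, h2, h3⟩, h4⟩ := hτ
      rw [fd5_mem _ _ _ _ (Nat.mod_lt _ (by norm_num))]
      have h5 := hsum τ
      have h6 := hcard τ
      refine ⟨?_, by omega, by omega⟩
      intro c hc
      rw [Multiset.mem_filter] at hc
      have h7 := h1 c hc.1
      have h8 := hc.2
      have h9 : c ≤ τ.sum := Multiset.single_le_sum (fun _ _ => Nat.zero_le _) c hc.1
      omega
    · intro τ hτ
      rw [fd5_mem _ _ _ _ (Nat.mod_lt _ (by norm_num))] at hτ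
      obtain ⟨h1, h2, h3⟩ := hτ
      rw [Finset.mem_filter, fd5_TNW hm]
      refine ⟨⟨?_, ?_, ?_⟩, ?_⟩
      · intro c hc
        rw [Multiset.mem_add] at hc
        rcases hc with hc | hc
        · have := h1 c hc
          omega
        · have := Multiset.eq_of_mem_replicate hc
          omega
      · rw [Multiset.sum_add, Multiset.sum_replicate, smul_eq_mul, h2]
        omega
      · rw [Multiset.card_add, Multiset.card_replicate]
        omega
      · rw [Multiset.count_add, Multiset.count_replicate_self, Multiset.count_eq_zero_of_notMem]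
        · simp
        · intro h
          have := h1 _ h
          omega
    · intro τ hτ
      have h1 : τ.count 2 = i := (Finset.mem_filter.1 hτ).2
      show τ.filter (fun c => c ≠ 2) + Multiset.replicate i 2 = τ
      rw [← h1]
      exact hsp τ
    · intro τ hτ
      rw [fd5_mem _ _ _ _ (Nat.mod_lt _ (by norm_num))] at hτ
      show (τ + Multiset.replicate i 2).filter (fun c => c ≠ 2) = τ
      rw [Multiset.filter_add, Multiset.filter_eq_self.2, Multiset.filter_eq_nil.2]
      · simp
      · intro c hc
        have := Multiset.eq_of_mem_replicate hc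
        simp [this]
      · intro c hc
        have := hτ.1 c hc
        omega
    · intro τ hτ
      refine Finset.prod_congr rfl fun x hx => ?_
      rw [Finset.mem_Icc] at hx
      rw [Multiset.count_filter_of_pos (by omega)]
  · apply Finset.sum_eq_zero
    intro τ hτ
    rw [Finset.mem_filter, fd5_TNW hm] at hτ
    have := hsum τ
    omega

/-- more part sizes than `t` do not matter -/
theorem WT_stable {R : Type} [CommSemiring R] (wf : ℕ → ℕ → R) (h0 : ∀ x, wf x 0 = 1)
    {k k' t p : ℕ} (hp : p < 2) (h : t ≤ k + 2) (hk : k ≤ k') : WT wf k' t p = WT wf k t p := by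
  induction k', hk using Nat.le_induction with
  | base => rfl
  | succ n hn ih =>
    rw [← ih]
    conv_lhs => unfold WT
    rw [Nat.div_eq_of_lt (by omega), zero_add, Finset.sum_range_one, h0, one_mul, mul_zero,
      Nat.sub_zero, zero_mul, add_zero, Nat.mod_eq_of_lt hp]

/-- recursion for geometric weights -/
theorem WT_geom {R : Type} [CommSemiring R] (g : ℕ → R) (k t : ℕ) {p : ℕ} (hp : p < 2) :
    WT (fun x j => g x ^ j) (k + 1) t p = WT (fun x j => g x ^ j) k t p +
      if k + 3 ≤ t then g (k + 3) * WT (fun x j => g x ^ j) (k + 1) (t - (k + 3)) ((p + k) % 2)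
      else 0 := by
  split_ifs with h
  · conv_lhs => unfold WT
    conv_rhs => rw [WT]
    have h1 : t / (k + 3) = (t - (k + 3)) / (k + 3) + 1 := Nat.div_eq_sub_div (by omega) h
    rw [h1, Finset.sum_range_succ', add_comm, Finset.mul_sum]
    congr 1
    · rw [pow_zero, one_mul, mul_zero, Nat.sub_zero, zero_mul, add_zero, Nat.mod_eq_of_lt hp]
    · refine Finset.sum_congr rfl fun j _ => ?_
      have h2 : t - (k + 3) * (j + 1) = t - (k + 3) - (k + 3) * j := by
        rw [mul_add, mul_one, Nat.sub_sub, add_comm]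
      have h3 : (p + (j + 1) * (k + 2)) % 2 = ((p + k) % 2 + j * (k + 2)) % 2 := by
        have h4 : (j + 1) * (k + 2) = j * (k + 2) + (k + 2) := by ring
        rw [h4]
        generalize j * (k + 2) = v
        omega
      rw [h2, h3, pow_succ]
      ring
  · conv_lhs => unfold WT
    rw [Nat.div_eq_of_lt (by omega), zero_add, Finset.sum_range_one, pow_zero, one_mul, mul_zero,
      Nat.sub_zero, zero_mul, add_zero, Nat.mod_eq_of_lt hp, add_zero]

/-- monotonicity in the weights -/
theorem WT_mono {wf wg : ℕ → ℕ → ℝ} (h0 : ∀ x j, 0 ≤ wf x j) (h : ∀ x j, wf x j ≤ wg x j) (k t p : ℕ) :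
    WT wf k t p ≤ WT wg k t p := by
  have hn : ∀ (k t p : ℕ), 0 ≤ WT wf k t p := by
    intro k
    induction k with
    | zero =>
      intro t p
      unfold WT
      split_ifs <;> norm_num
    | succ k ih =>
      intro t p
      unfold WT
      exact Finset.sum_nonneg fun j _ => mul_nonneg (h0 _ _) (ih _ _)
  induction k generalizing t p with
  | zero => exact le_rfl
  | succ k ih =>
    unfold WT
    exact Finset.sum_le_sum fun j _ =>
      mul_le_mul (h _ _) (ih _ _) (hn _ _ _) ((h0 _ _).trans (h _ _))

private theorem fd5_prod (X : ℕ) (τ : Multiset ℕ) :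
    (τ.map (fun x => 1 + X ^ x)).prod = (τ.powerset.map (fun B => X ^ B.sum)).sum := by
  induction τ using Multiset.induction_on with
  | empty => simp
  | cons a s ih =>
    rw [Multiset.map_cons, Multiset.prod_cons, Multiset.powerset_cons, Multiset.map_add,
      Multiset.sum_add, ih, add_mul, one_mul, Multiset.map_map]
    congr 1
    rw [← Multiset.sum_map_mul_left]
    refine congrArg Multiset.sum (Multiset.map_congr rfl fun B _ => ?_)
    simp [pow_add]

private theorem fd5_group (X N : ℕ) (M : Multiset (Multiset ℕ)) (h : ∀ B ∈ M, B.sum < N) :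
    (M.map (fun B => X ^ B.sum)).sum =
      ∑ s ∈ Finset.range N, Multiset.card (M.filter (fun B => B.sum = s)) * X ^ s := by
  induction M using Multiset.induction_on with
  | empty => simp
  | cons a s ih =>
    rw [Multiset.map_cons, Multiset.sum_cons, ih (fun B hB => h B (Multiset.mem_cons_of_mem hB))]
    have h1 : ∀ t : ℕ, Multiset.card ((a ::ₘ s).filter (fun B => B.sum = t)) * X ^ t =
        (if a.sum = t then X ^ t else 0) +
          Multiset.card (s.filter (fun B => B.sum = t)) * X ^ t := by
      intro t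
      by_cases h2 : a.sum = t
      · rw [Multiset.filter_cons_of_pos (p := fun B : Multiset ℕ => B.sum = t) s h2,
          Multiset.card_cons, if_pos h2]
        ring
      · rw [Multiset.filter_cons_of_neg (p := fun B : Multiset ℕ => B.sum = t) s h2, if_neg h2, zero_add]
    rw [Finset.sum_congr rfl (fun t _ => h1 t), Finset.sum_add_distrib, Finset.sum_ite_eq,
      if_pos (Finset.mem_range.2 (h a (Multiset.mem_cons_self _ _)))]

/-- generating function of the subcollections: value at the number `X` -/
theorem prod_one_add (X : ℕ) (τ : Multiset ℕ) :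
    (τ.map (fun x => 1 + X ^ x)).prod =
      ∑ s ∈ Finset.range (τ.sum + 1),
        Multiset.card (τ.powerset.filter (fun B => B.sum = s)) * X ^ s := by
  rw [fd5_prod, fd5_group]
  intro B hB
  rw [Multiset.mem_powerset] at hB
  have h1 : B.sum ≤ τ.sum := by
    obtain ⟨C, rfl⟩ := Multiset.le_iff_exists_add.1 hB
    rw [Multiset.sum_add]
    exact Nat.le_add_right _ _
  omega

private theorem fd5_Icc {m : ℕ} (hm : 2 ≤ m) : Finset.Icc 2 m = insert 2 (Finset.Icc 3 m) := by
  ext x
  simp only [Finset.mem_Icc, Finset.mem_insert]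
  omega

private theorem fd5_prod_map {R : Type} [CommSemiring R] (τ : Multiset ℕ) {m : ℕ} (hm : 2 ≤ m)
    (h1 : ∀ c ∈ τ, 2 ≤ c) (h2 : τ.sum = m) (f : ℕ → R) :
    (τ.map f).prod = f 2 ^ (τ.count 2) * ∏ x ∈ Finset.Icc 3 m, f x ^ (τ.count x) := by
  have h3 : (τ.map f).prod = ∏ x ∈ Finset.Icc 2 m, f x ^ (τ.count x) := by
    rw [Finset.prod_multiset_map_count]
    refine Finset.prod_subset (fun x hx => ?_) (fun x _ hx => ?_)
    · rw [Multiset.mem_toFinset] at hx
      rw [Finset.mem_Icc]
      have h9 : x ≤ τ.sum := Multiset.single_le_sum (fun _ _ => Nat.zero_le _) x hx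
      have := h1 x hx
      omega
    · rw [Multiset.mem_toFinset] at hx
      rw [Multiset.count_eq_zero_of_notMem hx, pow_zero]
  rw [h3, fd5_Icc hm, Finset.prod_insert (by simp)]

private theorem fd5_fiber {R : Type} [CommSemiring R] {m : ℕ} (hm : 2 ≤ m) (P : ℕ → Prop)
    [DecidablePred P] (G : ℕ → R) (wf : ℕ → ℕ → R) (h0 : ∀ x, wf x 0 = 1) :
    ∑ τ ∈ (TNW m).filter (fun τ => P (τ.count 2)),
        G (τ.count 2) * ∏ x ∈ Finset.Icc 3 m, wf x (τ.count x) =
      ∑ i ∈ (Finset.range (m / 2 + 1)).filter (fun i => P i),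
        G i * WT wf (m - 2) (m - 2 * i) (i % 2) := by
  classical
  rw [← Finset.sum_fiberwise_of_maps_to (s := (TNW m).filter (fun τ => P (τ.count 2)))
    (t := (Finset.range (m / 2 + 1)).filter (fun i => P i)) (g := fun τ => τ.count 2)]
  · refine Finset.sum_congr rfl fun i hi => ?_
    rw [Finset.mem_filter, Finset.mem_range] at hi
    have h1 := sum_TNW wf h0 hm i
    rw [if_pos (by omega)] at h1
    rw [← h1, Finset.mul_sum, Finset.filter_filter]
    have h2 : (TNW m).filter (fun τ => P (τ.count 2) ∧ τ.count 2 = i) =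
        (TNW m).filter (fun τ => τ.count 2 = i) := by
      refine Finset.filter_congr fun τ _ => ?_
      constructor
      · exact fun h => h.2
      · exact fun h => ⟨h ▸ hi.2, h⟩
    rw [h2]
    refine Finset.sum_congr rfl fun τ hτ => ?_
    rw [(Finset.mem_filter.1 hτ).2]
  · intro τ hτ
    rw [Finset.mem_filter] at hτ
    rw [Finset.mem_filter, Finset.mem_range]
    refine ⟨?_, hτ.2⟩
    have h3 := (fd5_TNW hm τ).1 hτ.1
    have h4 : 2 * τ.count 2 ≤ τ.sum := by
      have h5 : Multiset.replicate (τ.count 2) 2 ≤ τ := Multiset.le_count_iff_replicate_le.1 le_rfl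
      obtain ⟨C, hC⟩ := Multiset.le_iff_exists_add.1 h5
      rw [hC, Multiset.sum_add, Multiset.sum_replicate, smul_eq_mul, ← hC]
      omega
    rw [h3.2.1] at h4
    omega

/-- the packed sums: `∑ over the types with at least `t` parts `2`: `∑_s (number of pairs) X^s` -/
theorem packed_sum (X : ℕ) {m : ℕ} (hm : 2 ≤ m) (t : ℕ) :
    ∑ s ∈ Finset.range (m + 1),
      (∑ τ ∈ (TNW m).filter (fun τ => t ≤ τ.count 2),
        Multiset.card (τ.powerset.filter (fun B => B.sum = s))) * X ^ s =
      ∑ i ∈ (Finset.range (m / 2 + 1)).filter (fun i => t ≤ i),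
        (1 + X ^ 2) ^ i * WT (fun x j => (1 + X ^ x) ^ j) (m - 2) (m - 2 * i) (i % 2) := by
  have h1 : ∑ s ∈ Finset.range (m + 1),
      (∑ τ ∈ (TNW m).filter (fun τ => t ≤ τ.count 2),
        Multiset.card (τ.powerset.filter (fun B => B.sum = s))) * X ^ s =
      ∑ τ ∈ (TNW m).filter (fun τ => t ≤ τ.count 2),
        (1 + X ^ 2) ^ (τ.count 2) * ∏ x ∈ Finset.Icc 3 m, (1 + X ^ x) ^ (τ.count x) := by
    simp only [Finset.sum_mul]
    rw [Finset.sum_comm]
    refine Finset.sum_congr rfl fun τ hτ => ?_
    have h2 := (fd5_TNW hm τ).1 (Finset.mem_filter.1 hτ).1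
    have h3 := prod_one_add X τ
    rw [h2.2.1] at h3
    rw [← h3, fd5_prod_map τ hm h2.1 h2.2.1 (fun x => 1 + X ^ x)]
  rw [h1, fd5_fiber hm (fun i => t ≤ i)
    (fun i => (1 + X ^ 2) ^ i) (fun x j => (1 + X ^ x) ^ j) (fun x => pow_zero _)]

/-- the sums of the square roots -/
theorem TZ_eq {m : ℕ} (hm : 2 ≤ m) (t : ℕ) :
    TZ m t = ∑ i ∈ (Finset.range (m / 2 + 1)).filter (fun i => i < t),
      Real.sqrt (2 ^ i * (i ! : ℝ)) *
        WT (fun x j => Real.sqrt ((x : ℝ) ^ j * (j ! : ℝ))) (m - 2) (m - 2 * i) (i % 2) := by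
  rw [← fd5_fiber hm (fun i => i < t)
    (fun i => Real.sqrt (2 ^ i * (i ! : ℝ))) (fun x j => Real.sqrt ((x : ℝ) ^ j * (j ! : ℝ)))
    (fun x => by simp)]
  unfold TZ
  refine Finset.sum_congr rfl fun τ hτ => ?_
  have h2 := (fd5_TNW hm τ).1 (Finset.mem_filter.1 hτ).1
  have h3 : (zt τ : ℝ) = ∏ x ∈ Finset.Icc 2 m, ((x : ℝ) ^ (τ.count x) * ((τ.count x)! : ℝ)) := by
    unfold zt
    have h4 : τ.prod = ∏ x ∈ Finset.Icc 2 m, x ^ (τ.count x) := by
      have h5 := fd5_prod_map τ hm h2.1 h2.2.1 (fun x => x)
      rw [Multiset.map_id'] at h5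
      rw [h5, fd5_Icc hm, Finset.prod_insert (by simp)]
    have h6 : ∏ c ∈ τ.toFinset, (τ.count c)! = ∏ x ∈ Finset.Icc 2 m, (τ.count x)! := by
      refine Finset.prod_subset (fun x hx => ?_) (fun x _ hx => ?_)
      · rw [Multiset.mem_toFinset] at hx
        rw [Finset.mem_Icc]
        have h9 : x ≤ τ.sum := Multiset.single_le_sum (fun _ _ => Nat.zero_le _) x hx
        have := h2.1 x hx
        have := h2.2.1
        omega
      · rw [Multiset.mem_toFinset] at hx
        rw [Multiset.count_eq_zero_of_notMem hx]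
        rfl
    rw [h4, h6, ← Finset.prod_mul_distrib]
    push_cast
    rfl
  rw [h3, Real.sqrt_eq_rpow, ← Real.finsetProd_rpow _ _ (fun x _ => by positivity)]
  simp only [← Real.sqrt_eq_rpow]
  rw [fd5_Icc hm, Finset.prod_insert (by simp)]
  norm_num

end Pool.MP322F
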