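import Pool.Agent.Lib.MP_322c5f_al.Corn

/-! Number of corners of a Plancherel random diagram: recursion for the distribution function. -/

set_option autoImplicit false

open Equiv Finset Nat

namespace Pool.MP322F

open Pool.MP322

/-- `n!` times the Plancherel probability of at most `j` corners -/
noncomputable def uC (n j : ℕ) : ℝ :=
  ∑ lam ∈ (Finset.univ : Finset (Y n)).filter (fun lam => mcor lam.1 ≤ j), fd lam ^ 2

theorem uC_nonneg (n j : ℕ) : 0 ≤ uC n j := by
  unfold uC
  exact Finset.sum_nonneg (fun _ _ => sq_nonneg _)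

theorem uC_le (n j : ℕ) : uC n j ≤ (n ! : ℝ) := by
  unfold uC
  rw [← sum_sq n]
  exact Finset.sum_le_sum_of_subset_of_nonneg (Finset.filter_subset _ _)
    (fun _ _ _ => sq_nonneg _)

theorem uC_mono (n : ℕ) {i j : ℕ} (h : i ≤ j) : uC n i ≤ uC n j := by
  unfold uC
  refine Finset.sum_le_sum_of_subset_of_nonneg ?_ (fun _ _ _ => sq_nonneg _)
  intro lam hlam
  rw [Finset.mem_filter] at hlam ⊢
  exact ⟨hlam.1, hlam.2.trans h⟩

/-- adding the cell `c` creates the corner `c` and destroys the corners `d` such that `c` is the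
right or the lower neighbour of `d` -/
private theorem fe_corners_sub {n : ℕ} (rho : Y n) (lam : Y (n + 1)) {c : ℕ × ℕ}
    (h3 : ∀ d, d ∈ lam.1 ↔ d ∈ rho.1 ∨ d = c) :
    (corners rho.1).filter (fun d => (d.1 + 1, d.2) ≠ c ∧ (d.1, d.2 + 1) ≠ c) ⊆
      corners lam.1 := by
  intro d hd
  rw [Finset.mem_filter] at hd
  obtain ⟨hd, hd1, hd2⟩ := hd
  obtain ⟨e1, e2, e3⟩ := brb_mem_corners.1 hd
  rw [brb_mem_corners]
  refine ⟨(h3 d).2 (Or.inl e1), ?_, ?_⟩
  · intro hh
    rcases (h3 _).1 hh with h | h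
    · exact e2 h
    · exact hd1 h
  · intro hh
    rcases (h3 _).1 hh with h | h
    · exact e3 h
    · exact hd2 h

private theorem fe_new_corner {n : ℕ} (rho : Y n) (lam : Y (n + 1)) {c : ℕ × ℕ}
    (h1 : c ∉ rho.1) (h3 : ∀ d, d ∈ lam.1 ↔ d ∈ rho.1 ∨ d = c) : c ∈ corners lam.1 := by
  rw [brb_mem_corners]
  refine ⟨(h3 c).2 (Or.inr rfl), ?_, ?_⟩
  · intro hh
    rcases (h3 _).1 hh with h | h
    · exact h1 (brb_lower rho.1 (a := (c.1 + 1, c.2)) (b := c) (Nat.le_succ _) le_rfl h)
    · have := congrArg Prod.fst h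
      simp only at this
      omega
  · intro hh
    rcases (h3 _).1 hh with h | h
    · exact h1 (brb_lower rho.1 (a := (c.1, c.2 + 1)) (b := c) le_rfl (Nat.le_succ _) h)
    · have := congrArg Prod.snd h
      simp only at this
      omega

/-- number of the destroyed corners, in terms of the added cell -/
private theorem fe_count {n : ℕ} (rho : Y n) (lam : Y (n + 1)) {c : ℕ × ℕ}
    (h1 : c ∉ rho.1) (h3 : ∀ d, d ∈ lam.1 ↔ d ∈ rho.1 ∨ d = c) :
    mcor rho.1 + 1 ≤ mcor lam.1 +
      ((corners rho.1).filter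
        (fun d => ¬ ((d.1 + 1, d.2) ≠ c ∧ (d.1, d.2 + 1) ≠ c))).card := by
  have hsub := fe_corners_sub rho lam h3
  have hnew := fe_new_corner rho lam h1 h3
  have hins : insert c ((corners rho.1).filter
      (fun d => (d.1 + 1, d.2) ≠ c ∧ (d.1, d.2 + 1) ≠ c)) ⊆ corners lam.1 := by
    intro d hd
    rw [Finset.mem_insert] at hd
    rcases hd with rfl | hd
    · exact hnew
    · exact hsub hd
  have hnot : c ∉ (corners rho.1).filter
      (fun d => (d.1 + 1, d.2) ≠ c ∧ (d.1, d.2 + 1) ≠ c) := by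
    intro hh
    rw [Finset.mem_filter] at hh
    exact h1 (brb_mem_corners.1 hh.1).1
  have hcard := Finset.card_le_card hins
  rw [Finset.card_insert_of_notMem hnot] at hcard
  have htot := Finset.card_filter_add_card_filter_not (s := corners rho.1)
    (fun d => (d.1 + 1, d.2) ≠ c ∧ (d.1, d.2 + 1) ≠ c)
  unfold mcor
  omega

/-- adding a cell decreases the number of corners by at most one -/
private theorem fe_le_succ {n : ℕ} (rho : Y n) (lam : Y (n + 1)) (h : rho.1 ≤ lam.1) :
    mcor rho.1 ≤ mcor lam.1 + 1 := by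
  obtain ⟨c, h1, h2, h3⟩ := brb_missing rho lam h
  have hc := fe_count rho lam h1 h3
  have hsub : (corners rho.1).filter
      (fun d => ¬ ((d.1 + 1, d.2) ≠ c ∧ (d.1, d.2 + 1) ≠ c)) ⊆
      {(c.1 - 1, c.2), (c.1, c.2 - 1)} := by
    intro d hd
    rw [Finset.mem_filter] at hd
    rw [Finset.mem_insert, Finset.mem_singleton]
    have hd2 := hd.2
    rw [not_and_or, not_ne_iff, not_ne_iff] at hd2
    rcases hd2 with h | h
    · left
      rw [← h]
      exact Prod.ext (by simp) rfl
    · right
      rw [← h]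
      exact Prod.ext rfl (by simp)
  have h4 := (Finset.card_le_card hsub).trans Finset.card_le_two
  omega

/-- adding a cell in the first row or in the first column does not decrease the number of
corners -/
private theorem fe_le_of_zero {n : ℕ} (rho : Y n) (lam : Y (n + 1)) {c : ℕ × ℕ}
    (h1 : c ∉ rho.1) (h3 : ∀ d, d ∈ lam.1 ↔ d ∈ rho.1 ∨ d = c) (h0 : c.1 = 0 ∨ c.2 = 0) :
    mcor rho.1 ≤ mcor lam.1 := by
  have hc := fe_count rho lam h1 h3
  have h4 : ((corners rho.1).filter
      (fun d => ¬ ((d.1 + 1, d.2) ≠ c ∧ (d.1, d.2 + 1) ≠ c))).card ≤ 1 := by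
    rcases h0 with h0 | h0
    · have hsub : (corners rho.1).filter
          (fun d => ¬ ((d.1 + 1, d.2) ≠ c ∧ (d.1, d.2 + 1) ≠ c)) ⊆ {(c.1, c.2 - 1)} := by
        intro d hd
        rw [Finset.mem_filter] at hd
        rw [Finset.mem_singleton]
        have hd2 := hd.2
        rw [not_and_or, not_ne_iff, not_ne_iff] at hd2
        rcases hd2 with h | h
        · have := congrArg Prod.fst h
          simp only at this
          omega
        · rw [← h]
          exact Prod.ext rfl (by simp)
      exact (Finset.card_le_card hsub).trans (Finset.card_singleton _).le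
    · have hsub : (corners rho.1).filter
          (fun d => ¬ ((d.1 + 1, d.2) ≠ c ∧ (d.1, d.2 + 1) ≠ c)) ⊆ {(c.1 - 1, c.2)} := by
        intro d hd
        rw [Finset.mem_filter] at hd
        rw [Finset.mem_singleton]
        have hd2 := hd.2
        rw [not_and_or, not_ne_iff, not_ne_iff] at hd2
        rcases hd2 with h | h
        · rw [← h]
          exact Prod.ext (by simp) rfl
        · have := congrArg Prod.snd h
          simp only at this
          omega
      exact (Finset.card_le_card hsub).trans (Finset.card_singleton _).le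
  omega

/-- adding a cell in the first row -/
private def feRow (rho : YoungDiagram) : YoungDiagram where
  cells := insert (0, rho.rowLen 0) rho.cells
  isLowerSet := by
    intro a b hba ha
    rw [Finset.mem_coe, Finset.mem_insert, YoungDiagram.mem_cells] at ha ⊢
    obtain ⟨hba1, hba2⟩ := Prod.le_def.1 hba
    rcases ha with rfl | ha
    · simp only at hba1 hba2
      have hb1 : b.1 = 0 := Nat.le_zero.1 hba1
      rcases Nat.lt_or_ge b.2 (rho.rowLen 0) with h | h
      · right
        exact YoungDiagram.mem_iff_lt_rowLen.2 (show b.2 < rho.rowLen b.1 by rw [hb1]; exact h)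
      · left
        exact Prod.ext hb1 (by simp only; omega)
    · right
      exact brb_lower rho hba1 hba2 ha

/-- adding a cell in the first column -/
private def feCol (rho : YoungDiagram) : YoungDiagram where
  cells := insert (rho.colLen 0, 0) rho.cells
  isLowerSet := by
    intro a b hba ha
    rw [Finset.mem_coe, Finset.mem_insert, YoungDiagram.mem_cells] at ha ⊢
    obtain ⟨hba1, hba2⟩ := Prod.le_def.1 hba
    rcases ha with rfl | ha
    · simp only at hba1 hba2
      have hb2 : b.2 = 0 := Nat.le_zero.1 hba2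
      rcases Nat.lt_or_ge b.1 (rho.colLen 0) with h | h
      · right
        exact YoungDiagram.mem_iff_lt_colLen.2 (show b.1 < rho.colLen b.2 by rw [hb2]; exact h)
      · left
        exact Prod.ext (by simp only; omega) hb2
    · right
      exact brb_lower rho hba1 hba2 ha

private theorem fe_row_notMem (rho : YoungDiagram) : ((0, rho.rowLen 0) : ℕ × ℕ) ∉ rho := by
  intro h
  exact lt_irrefl _ (YoungDiagram.mem_iff_lt_rowLen.1 h)

private theorem fe_col_notMem (rho : YoungDiagram) : ((rho.colLen 0, 0) : ℕ × ℕ) ∉ rho := by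
  intro h
  exact lt_irrefl _ (YoungDiagram.mem_iff_lt_colLen.1 h)

private theorem fe_two {n : ℕ} (rho : Y n) (hm : 1 ≤ mcor rho.1) :
    ∃ a b : Y (n + 1), a ≠ b ∧ rho.1 ≤ a.1 ∧ rho.1 ≤ b.1 ∧ mcor rho.1 ≤ mcor a.1 ∧
      mcor rho.1 ≤ mcor b.1 := by
  have hcard : rho.1.cells.card = n := rho.2
  have ha : (feRow rho.1).card = n + 1 := by
    change (insert (0, rho.1.rowLen 0) rho.1.cells).card = n + 1
    rw [Finset.card_insert_of_notMem, hcard]
    rw [YoungDiagram.mem_cells]
    exact fe_row_notMem _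
  have hb : (feCol rho.1).card = n + 1 := by
    change (insert (rho.1.colLen 0, 0) rho.1.cells).card = n + 1
    rw [Finset.card_insert_of_notMem, hcard]
    rw [YoungDiagram.mem_cells]
    exact fe_col_notMem _
  have hamem : ∀ d, d ∈ feRow rho.1 ↔ d ∈ rho.1 ∨ d = (0, rho.1.rowLen 0) := by
    intro d
    rw [← YoungDiagram.mem_cells]
    change d ∈ insert (0, rho.1.rowLen 0) rho.1.cells ↔ _
    rw [Finset.mem_insert, YoungDiagram.mem_cells]
    exact or_comm
  have hbmem : ∀ d, d ∈ feCol rho.1 ↔ d ∈ rho.1 ∨ d = (rho.1.colLen 0, 0) := by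
    intro d
    rw [← YoungDiagram.mem_cells]
    change d ∈ insert (rho.1.colLen 0, 0) rho.1.cells ↔ _
    rw [Finset.mem_insert, YoungDiagram.mem_cells]
    exact or_comm
  refine ⟨⟨feRow rho.1, ha⟩, ⟨feCol rho.1, hb⟩, ?_, ?_, ?_, ?_, ?_⟩
  · intro heq
    have heq' : feRow rho.1 = feCol rho.1 := congrArg Subtype.val heq
    have h1 : ((0, rho.1.rowLen 0) : ℕ × ℕ) ∈ feCol rho.1 := by
      rw [← heq', hamem]
      exact Or.inr rfl
    rw [hbmem] at h1
    rcases h1 with h1 | h1
    · exact fe_row_notMem _ h1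
    · have h2 : rho.1.rowLen 0 = 0 := congrArg Prod.snd h1
      obtain ⟨d, hd⟩ := Finset.card_pos.1 (show 0 < (corners rho.1).card from hm)
      have hd1 := (brb_mem_corners.1 hd).1
      have h3 : ((0, 0) : ℕ × ℕ) ∈ rho.1 :=
        brb_lower rho.1 (a := d) (b := (0, 0)) (Nat.zero_le _) (Nat.zero_le _) hd1
      have h4 : 0 < rho.1.rowLen 0 := YoungDiagram.mem_iff_lt_rowLen.1 h3
      omega
  · apply YoungDiagram.cells_subset_iff.1
    exact Finset.subset_insert _ _
  · apply YoungDiagram.cells_subset_iff.1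
    exact Finset.subset_insert _ _
  · exact fe_le_of_zero rho ⟨feRow rho.1, ha⟩ (fe_row_notMem _) hamem (Or.inl rfl)
  · exact fe_le_of_zero rho ⟨feCol rho.1, hb⟩ (fe_col_notMem _) hbmem (Or.inr rfl)

open Classical in
/-- the number of diagrams above `rho` with at most `j` corners. If `mcor rho < j` use `card_up`;
if `mcor rho = j` also; if `mcor rho = j + 1`, adding a cell in the first row or in the first
column does not decrease the number of corners, so at most `j + 2 - 2` cells are possible; if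
`mcor rho ≥ j + 2` there is none, since adding a cell decreases the number of corners by at most
one -/
theorem count_above {n : ℕ} (rho : Y n) (j : ℕ) (hj : 1 ≤ j) :
    ((Finset.univ : Finset (Y (n + 1))).filter
      (fun lam => rho.1 ≤ lam.1 ∧ mcor lam.1 ≤ j)).card ≤
      (if mcor rho.1 ≤ j + 1 then j else 0) + (if mcor rho.1 ≤ j then 1 else 0) := by
  have hup := card_up rho
  have hsub : ((Finset.univ : Finset (Y (n + 1))).filter
      (fun lam => rho.1 ≤ lam.1 ∧ mcor lam.1 ≤ j)) ⊆
      (Finset.univ : Finset (Y (n + 1))).filter (fun lam => rho.1 ≤ lam.1) := by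
    intro lam hlam
    rw [Finset.mem_filter] at hlam ⊢
    exact ⟨hlam.1, hlam.2.1⟩
  rcases Nat.lt_trichotomy (mcor rho.1) (j + 1) with h | h | h
  · have h1 : mcor rho.1 ≤ j + 1 := by omega
    have h2 : mcor rho.1 ≤ j := by omega
    rw [if_pos h1, if_pos h2]
    have h3 := Finset.card_le_card hsub
    rw [hup] at h3
    omega
  · have h1 : mcor rho.1 ≤ j + 1 := by omega
    have h2 : ¬ mcor rho.1 ≤ j := by omega
    rw [if_pos h1, if_neg h2]
    obtain ⟨a, b, hab, ha, hb, ha', hb'⟩ := fe_two rho (by omega)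
    have hsub2 : ((Finset.univ : Finset (Y (n + 1))).filter
        (fun lam => rho.1 ≤ lam.1 ∧ mcor lam.1 ≤ j)) ⊆
        ((((Finset.univ : Finset (Y (n + 1))).filter
          (fun lam => rho.1 ≤ lam.1)).erase a).erase b) := by
      intro lam hlam
      have hlam' := hsub hlam
      rw [Finset.mem_filter] at hlam
      rw [Finset.mem_erase, Finset.mem_erase]
      refine ⟨?_, ?_, hlam'⟩
      · rintro rfl
        have := hlam.2.2
        omega
      · rintro rfl
        have := hlam.2.2
        omega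
    have h3 := Finset.card_le_card hsub2
    rw [Finset.card_erase_of_mem, Finset.card_erase_of_mem, hup] at h3
    · omega
    · rw [Finset.mem_filter]
      exact ⟨Finset.mem_univ _, ha⟩
    · rw [Finset.mem_erase, Finset.mem_filter]
      exact ⟨hab.symm, Finset.mem_univ _, hb⟩
  · have h1 : ¬ mcor rho.1 ≤ j + 1 := by omega
    have h2 : ¬ mcor rho.1 ≤ j := by omega
    rw [if_neg h1, if_neg h2]
    have h3 : ((Finset.univ : Finset (Y (n + 1))).filter
        (fun lam => rho.1 ≤ lam.1 ∧ mcor lam.1 ≤ j)) = ∅ := by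
      rw [Finset.filter_eq_empty_iff]
      rintro lam - ⟨h4, h5⟩
      have := fe_le_succ rho lam h4
      omega
    rw [h3, Finset.card_empty]

/-- as in `corner_moment`: `fd lam ^ 2 ≤ mcor lam * ∑ fd rho ^ 2`, then `count_above` -/
theorem uC_rec (n j : ℕ) (hj : 1 ≤ j) :
    uC (n + 1) j ≤ j * uC n j + (j : ℝ) ^ 2 * uC n (j + 1) := by
  classical
  have h1 : ∀ lam ∈ (Finset.univ : Finset (Y (n + 1))).filter (fun lam => mcor lam.1 ≤ j),
      fd lam ^ 2 ≤ ∑ rho : Y n, if rho.1 ≤ lam.1 then (j : ℝ) * fd rho ^ 2 else 0 := by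
    intro lam hlam
    rw [Finset.mem_filter] at hlam
    rw [← Finset.sum_filter, ← Finset.mul_sum]
    have h2 := sq_sum_le_card_mul_sum_sq (α := ℝ)
      (s := (Finset.univ : Finset (Y n)).filter (fun rho => rho.1 ≤ lam.1)) (f := fun rho => fd rho)
    have h3 := card_down lam
    have h4 := fd_succ lam
    rw [h4]
    have h5 : (((Finset.univ : Finset (Y n)).filter (fun rho => rho.1 ≤ lam.1)).card : ℝ) =
        (mcor lam.1 : ℝ) := by
      rw [← h3]
    rw [h5] at h2
    refine h2.trans ?_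
    apply mul_le_mul_of_nonneg_right _ (Finset.sum_nonneg (fun _ _ => sq_nonneg _))
    exact_mod_cast hlam.2
  have h2 : uC (n + 1) j ≤ ∑ rho : Y n, ∑ lam ∈ (Finset.univ : Finset (Y (n + 1))).filter
      (fun lam => mcor lam.1 ≤ j), if rho.1 ≤ lam.1 then (j : ℝ) * fd rho ^ 2 else 0 := by
    rw [Finset.sum_comm]
    exact Finset.sum_le_sum h1
  refine h2.trans ?_
  have h3 : (j : ℝ) * uC n j + (j : ℝ) ^ 2 * uC n (j + 1) =
      ∑ rho : Y n, (j : ℝ) * fd rho ^ 2 *
        ((if mcor rho.1 ≤ j + 1 then (j : ℝ) else 0) + (if mcor rho.1 ≤ j then 1 else 0)) := by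
    unfold uC
    rw [Finset.mul_sum, Finset.mul_sum, Finset.sum_filter, Finset.sum_filter,
      ← Finset.sum_add_distrib]
    refine Finset.sum_congr rfl (fun rho _ => ?_)
    split_ifs <;> ring
  rw [h3]
  refine Finset.sum_le_sum (fun rho _ => ?_)
  rw [← Finset.sum_filter, Finset.filter_filter, Finset.sum_const, nsmul_eq_mul, mul_comm]
  apply mul_le_mul_of_nonneg_left _ (by positivity)
  have h4 := count_above rho j hj
  have h5 : ((Finset.univ : Finset (Y (n + 1))).filter
      (fun lam => mcor lam.1 ≤ j ∧ rho.1 ≤ lam.1)) =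
      ((Finset.univ : Finset (Y (n + 1))).filter
      (fun lam => rho.1 ≤ lam.1 ∧ mcor lam.1 ≤ j)) := by
    ext lam
    rw [Finset.mem_filter, Finset.mem_filter]
    tauto
  rw [h5]
  have h6 : (((Finset.univ : Finset (Y (n + 1))).filter
      (fun lam => rho.1 ≤ lam.1 ∧ mcor lam.1 ≤ j)).card : ℝ) ≤
      (((if mcor rho.1 ≤ j + 1 then j else 0) + (if mcor rho.1 ≤ j then 1 else 0) : ℕ) : ℝ) := by
    exact_mod_cast h4
  refine h6.trans (le_of_eq ?_)
  push_cast
  rfl

theorem uC_step (n j : ℕ) (hj : 1 ≤ j) : uC (n + 1) j ≤ (j * (j + 1) : ℝ) * uC n (j + 1) := by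
  have h1 := uC_rec n j hj
  have h2 := uC_mono n (Nat.le_succ j)
  have h3 : (0 : ℝ) ≤ (j : ℝ) := Nat.cast_nonneg j
  have h4 := mul_le_mul_of_nonneg_left h2 h3
  calc uC (n + 1) j ≤ j * uC n j + (j : ℝ) ^ 2 * uC n (j + 1) := h1
    _ ≤ j * uC n (j + 1) + (j : ℝ) ^ 2 * uC n (j + 1) := by linarith
    _ = (j * (j + 1) : ℝ) * uC n (j + 1) := by ring

theorem uC_prod (n j m : ℕ) (hj : 1 ≤ j) :
    uC (n + m) j ≤ (∏ i ∈ Finset.range m, ((j + i) * (j + i + 1) : ℝ)) * (n ! : ℝ) := by
  induction m generalizing j with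
  | zero =>
    rw [Finset.range_zero, Finset.prod_empty, one_mul]
    exact uC_le n j
  | succ m ih =>
    have h1 := uC_step (n + m) j hj
    have h2 := ih (j + 1) (by omega)
    have h3 : (0 : ℝ) ≤ (j : ℝ) * ((j : ℝ) + 1) := by positivity
    have h4 := mul_le_mul_of_nonneg_left h2 h3
    have h5 : n + (m + 1) = n + m + 1 := by omega
    rw [h5]
    refine h1.trans (h4.trans (le_of_eq ?_))
    rw [Finset.prod_range_succ']
    have h6 : ∏ i ∈ Finset.range m, ((((j + 1 : ℕ) : ℝ) + (i : ℝ)) * (((j + 1 : ℕ) : ℝ) + i + 1)) =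
        ∏ i ∈ Finset.range m, (((j : ℝ) + ((i + 1 : ℕ) : ℝ)) * ((j : ℝ) + ((i + 1 : ℕ) : ℝ) + 1)) := by
      refine Finset.prod_congr rfl (fun i _ => ?_)
      push_cast
      ring
    rw [h6]
    push_cast
    ring

end Pool.MP322F
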