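import Pool.Agent.Lib.MP_322c5f_alF.FE01

/-! Number of corners for large `n`. -/

set_option autoImplicit false

open Equiv Finset Nat

namespace Pool.MP322F

open Pool.MP322

private theorem fe02_poly1 (t : ℝ) (ht : 0 ≤ t) :
    5 * 16 ^ 6 * (((t + 21) * (t + 22)) * ((t + 22) * (t + 23)) * ((t + 23) * (t + 24)) * ((t + 24) * (t + 25)) * ((t + 25) * (t + 26)) * ((t + 26) * (t + 27))) ≤
      (25 * (t + 22) ^ 2) * (25 * (t + 22) ^ 2 - 16) * (25 * (t + 22) ^ 2 - 32) * (25 * (t + 22) ^ 2 - 48) * (25 * (t + 22) ^ 2 - 64) * (25 * (t + 22) ^ 2 - 80) := by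
  have h : (25 * (t + 22) ^ 2) * (25 * (t + 22) ^ 2 - 16) * (25 * (t + 22) ^ 2 - 32) * (25 * (t + 22) ^ 2 - 48) * (25 * (t + 22) ^ 2 - 64) * (25 * (t + 22) ^ 2 - 80) -
      5 * 16 ^ 6 * (((t + 21) * (t + 22)) * ((t + 22) * (t + 23)) * ((t + 23) * (t + 24)) * ((t + 24) * (t + 25)) * ((t + 25) * (t + 26)) * ((t + 26) * (t + 27))) =
      113018782778058060288000 + 193698260143191936000000 * t ^ 1 + 79014935958392066775040 * t ^ 2 + 16262696782224128911360 * t ^ 3 + 2069062440086247909120 * t ^ 4 + 177743903663702297600 * t ^ 5 + 10760077409825214720 * t ^ 6 + 467132784725607680 * t ^ 7 + 14523472518790960 * t ^ 8 + 316659900642400 * t ^ 9 + 4609064993240 * t ^ 10 + 40293933960 * t ^ 11 + 160254545 * t ^ 12 := by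
    ring
  have h2 : (0 : ℝ) ≤ 113018782778058060288000 + 193698260143191936000000 * t ^ 1 + 79014935958392066775040 * t ^ 2 + 16262696782224128911360 * t ^ 3 + 2069062440086247909120 * t ^ 4 + 177743903663702297600 * t ^ 5 + 10760077409825214720 * t ^ 6 + 467132784725607680 * t ^ 7 + 14523472518790960 * t ^ 8 + 316659900642400 * t ^ 9 + 4609064993240 * t ^ 10 + 40293933960 * t ^ 11 + 160254545 * t ^ 12 := by
    positivity
  linarith

private theorem fe02_poly2 (t : ℝ) (ht : 0 ≤ t) :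
    10 * 1849 ^ 7 * (((t + 37) * (t + 38)) * ((t + 38) * (t + 39)) * ((t + 39) * (t + 40)) * ((t + 40) * (t + 41)) * ((t + 41) * (t + 42)) * ((t + 42) * (t + 43)) * ((t + 43) * (t + 44))) ≤
      3 * ((2500 * (t + 38) ^ 2) * (2500 * (t + 38) ^ 2 - 1849) * (2500 * (t + 38) ^ 2 - 3698) * (2500 * (t + 38) ^ 2 - 5547) * (2500 * (t + 38) ^ 2 - 7396) * (2500 * (t + 38) ^ 2 - 9245) * (2500 * (t + 38) ^ 2 - 11094)) := by
  have h : 3 * ((2500 * (t + 38) ^ 2) * (2500 * (t + 38) ^ 2 - 1849) * (2500 * (t + 38) ^ 2 - 3698) * (2500 * (t + 38) ^ 2 - 5547) * (2500 * (t + 38) ^ 2 - 7396) * (2500 * (t + 38) ^ 2 - 9245) * (2500 * (t + 38) ^ 2 - 11094)) -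
      10 * 1849 ^ 7 * (((t + 37) * (t + 38)) * ((t + 38) * (t + 39)) * ((t + 39) * (t + 40)) * ((t + 40) * (t + 41)) * ((t + 41) * (t + 42)) * ((t + 42) * (t + 43)) * ((t + 43) * (t + 44))) =
      537802200505483146865377072301915234379232000 + 717793919828663953870219479921421333681593600 * t ^ 1 + 206621156312406582161178983404937834477997120 * t ^ 2 + 30070629506682716148799420855631676024474720 * t ^ 3 + 2743712291653474724789235108440276820731680 * t ^ 4 + 172547393018425632701348835652604493555120 * t ^ 5 + 7857159414583200344661996987581179636120 * t ^ 6 + 265918595548529590686349818082219162710 * t ^ 7 + 6764642048418525206327664037277415490 * t ^ 8 + 129260959667692820278995357729424110 * t ^ 9 + 1831670881865530280852432304364250 * t ^ 10 + 18704219551336255951842565629570 * t ^ 11 + 130318135621887411675707493830 * t ^ 12 + 555191117608734683649904170 * t ^ 13 + 1092201114058614962345510 * t ^ 14 := by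
    ring
  have h2 : (0 : ℝ) ≤ 537802200505483146865377072301915234379232000 + 717793919828663953870219479921421333681593600 * t ^ 1 + 206621156312406582161178983404937834477997120 * t ^ 2 + 30070629506682716148799420855631676024474720 * t ^ 3 + 2743712291653474724789235108440276820731680 * t ^ 4 + 172547393018425632701348835652604493555120 * t ^ 5 + 7857159414583200344661996987581179636120 * t ^ 6 + 265918595548529590686349818082219162710 * t ^ 7 + 6764642048418525206327664037277415490 * t ^ 8 + 129260959667692820278995357729424110 * t ^ 9 + 1831670881865530280852432304364250 * t ^ 10 + 18704219551336255951842565629570 * t ^ 11 + 130318135621887411675707493830 * t ^ 12 + 555191117608734683649904170 * t ^ 13 + 1092201114058614962345510 * t ^ 14 := by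
    positivity
  linarith

private theorem fe02_mono1 {X Y : ℝ} (hX : 80 ≤ X) (h : X ≤ Y) :
    X * (X - 16) * (X - 32) * (X - 48) * (X - 64) * (X - 80) ≤
      Y * (Y - 16) * (Y - 32) * (Y - 48) * (Y - 64) * (Y - 80) := by
  have h0 : 0 ≤ X := by linarith
  have h1 : 0 ≤ X - 16 := by linarith
  have h2 : 0 ≤ X - 32 := by linarith
  have h3 : 0 ≤ X - 48 := by linarith
  have h4 : 0 ≤ X - 64 := by linarith
  have h5 : 0 ≤ X - 80 := by linarith
  have g0 : 0 ≤ Y := by linarith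
  have g1 : 0 ≤ Y - 16 := by linarith
  have g2 : 0 ≤ Y - 32 := by linarith
  have g3 : 0 ≤ Y - 48 := by linarith
  have g4 : 0 ≤ Y - 64 := by linarith
  have e1 := mul_le_mul h (sub_le_sub_right h 16) h1 g0
  have e2 := mul_le_mul e1 (sub_le_sub_right h 32) h2 (by positivity)
  have e3 := mul_le_mul e2 (sub_le_sub_right h 48) h3 (by positivity)
  have e4 := mul_le_mul e3 (sub_le_sub_right h 64) h4 (by positivity)
  exact mul_le_mul e4 (sub_le_sub_right h 80) h5 (by positivity)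

private theorem fe02_mono2 {X Y : ℝ} (hX : 11094 ≤ X) (h : X ≤ Y) :
    X * (X - 1849) * (X - 3698) * (X - 5547) * (X - 7396) * (X - 9245) * (X - 11094) ≤
      Y * (Y - 1849) * (Y - 3698) * (Y - 5547) * (Y - 7396) * (Y - 9245) * (Y - 11094) := by
  have h0 : 0 ≤ X := by linarith
  have h1 : 0 ≤ X - 1849 := by linarith
  have h2 : 0 ≤ X - 3698 := by linarith
  have h3 : 0 ≤ X - 5547 := by linarith
  have h4 : 0 ≤ X - 7396 := by linarith
  have h5 : 0 ≤ X - 9245 := by linarith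
  have h6 : 0 ≤ X - 11094 := by linarith
  have g0 : 0 ≤ Y := by linarith
  have g1 : 0 ≤ Y - 1849 := by linarith
  have g2 : 0 ≤ Y - 3698 := by linarith
  have g3 : 0 ≤ Y - 5547 := by linarith
  have g4 : 0 ≤ Y - 7396 := by linarith
  have g5 : 0 ≤ Y - 9245 := by linarith
  have e1 := mul_le_mul h (sub_le_sub_right h 1849) h1 g0
  have e2 := mul_le_mul e1 (sub_le_sub_right h 3698) h2 (by positivity)
  have e3 := mul_le_mul e2 (sub_le_sub_right h 5547) h3 (by positivity)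
  have e4 := mul_le_mul e3 (sub_le_sub_right h 7396) h4 (by positivity)
  have e5 := mul_le_mul e4 (sub_le_sub_right h 9245) h5 (by positivity)
  exact mul_le_mul e5 (sub_le_sub_right h 11094) h6 (by positivity)

private theorem fe02_core1 (N j : ℕ) (hj1 : 1 ≤ j)
    (h : 5 * ((((j : ℝ) + 0) * (j + 0 + 1)) * ((j + 1) * (j + 1 + 1)) *
      ((j + 2) * (j + 2 + 1)) * ((j + 3) * (j + 3 + 1)) * ((j + 4) * (j + 4 + 1)) *
      ((j + 5) * (j + 5 + 1))) ≤
      ((N : ℝ) + 6) * (N + 5) * (N + 4) * (N + 3) * (N + 2) * (N + 1)) :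
    uC (N + 6) j ≤ (1 / 5) * ((N + 6) ! : ℝ) := by
  have h1 := uC_prod N j 6 hj1
  simp only [Finset.prod_range_succ, Finset.prod_range_zero, one_mul, Nat.cast_zero,
    Nat.cast_one, Nat.cast_ofNat] at h1
  have h2 : ((N + 6) ! : ℝ) =
      (((N : ℝ) + 6) * (N + 5) * (N + 4) * (N + 3) * (N + 2) * (N + 1)) * (N ! : ℝ) := by
    have h3 : (N + 6) ! = ((N + 6) * (N + 5) * (N + 4) * (N + 3) * (N + 2) * (N + 1)) * N ! := by
      rw [Nat.factorial_succ (N + 5), Nat.factorial_succ (N + 4), Nat.factorial_succ (N + 3),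
        Nat.factorial_succ (N + 2), Nat.factorial_succ (N + 1), Nat.factorial_succ N]
      ring
    rw [h3]
    push_cast
    ring
  have h4 : (0 : ℝ) ≤ (N ! : ℝ) := by positivity
  rw [h2]
  have h5 := mul_le_mul_of_nonneg_right h h4
  refine h1.trans ?_
  linarith

private theorem fe02_core2 (N j : ℕ) (hj1 : 1 ≤ j)
    (h : 10 * ((((j : ℝ) + 0) * (j + 0 + 1)) * ((j + 1) * (j + 1 + 1)) *
      ((j + 2) * (j + 2 + 1)) * ((j + 3) * (j + 3 + 1)) * ((j + 4) * (j + 4 + 1)) *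
      ((j + 5) * (j + 5 + 1)) * ((j + 6) * (j + 6 + 1))) ≤
      3 * (((N : ℝ) + 7) * (N + 6) * (N + 5) * (N + 4) * (N + 3) * (N + 2) * (N + 1))) :
    uC (N + 7) j ≤ (3 / 10) * ((N + 7) ! : ℝ) := by
  have h1 := uC_prod N j 7 hj1
  simp only [Finset.prod_range_succ, Finset.prod_range_zero, one_mul, Nat.cast_zero,
    Nat.cast_one, Nat.cast_ofNat] at h1
  have h2 : ((N + 7) ! : ℝ) =
      (((N : ℝ) + 7) * (N + 6) * (N + 5) * (N + 4) * (N + 3) * (N + 2) * (N + 1)) *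
        (N ! : ℝ) := by
    have h3 : (N + 7) ! =
        ((N + 7) * (N + 6) * (N + 5) * (N + 4) * (N + 3) * (N + 2) * (N + 1)) * N ! := by
      rw [Nat.factorial_succ (N + 6), Nat.factorial_succ (N + 5), Nat.factorial_succ (N + 4),
        Nat.factorial_succ (N + 3), Nat.factorial_succ (N + 2), Nat.factorial_succ (N + 1),
        Nat.factorial_succ N]
      ring
    rw [h3]
    push_cast
    ring
  have h4 : (0 : ℝ) ≤ (N ! : ℝ) := by positivity
  rw [h2]
  have h5 := mul_le_mul_of_nonneg_right h h4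
  refine h1.trans ?_
  linarith

private theorem fe02_large20 (n : ℕ) (hn : 700 ≤ n) : uC n 20 ≤ (1 / 5) * (n ! : ℝ) := by
  obtain ⟨N, rfl⟩ := Nat.exists_eq_add_of_le' (le_trans (by norm_num : 6 ≤ 700) hn)
  refine fe02_core1 N 20 (by norm_num) ?_
  have hN : (694 : ℝ) ≤ (N : ℝ) := by
    have : 694 ≤ N := by omega
    exact_mod_cast this
  have h1 : (700 : ℝ) * 699 * 698 * 697 * 696 * 695 ≤
      ((N : ℝ) + 6) * (N + 5) * (N + 4) * (N + 3) * (N + 2) * (N + 1) := by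
    have e1 : (700 : ℝ) * 699 ≤ ((N : ℝ) + 6) * (N + 5) :=
      mul_le_mul (by linarith) (by linarith) (by norm_num) (by positivity)
    have e2 : (700 : ℝ) * 699 * 698 ≤ ((N : ℝ) + 6) * (N + 5) * (N + 4) :=
      mul_le_mul e1 (by linarith) (by norm_num) (by positivity)
    have e3 : (700 : ℝ) * 699 * 698 * 697 ≤ ((N : ℝ) + 6) * (N + 5) * (N + 4) * (N + 3) :=
      mul_le_mul e2 (by linarith) (by norm_num) (by positivity)
    have e4 : (700 : ℝ) * 699 * 698 * 697 * 696 ≤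
        ((N : ℝ) + 6) * (N + 5) * (N + 4) * (N + 3) * (N + 2) :=
      mul_le_mul e3 (by linarith) (by norm_num) (by positivity)
    exact mul_le_mul e4 (by linarith) (by norm_num) (by positivity)
  refine le_trans ?_ h1
  norm_num

/-- the probability of at most `j` corners is at most `1/5` if `n ≥ 700` and `j + 1 ≤ 0.8 √n`.

Proof. By `uC_prod`, `uC n j / n! ≤ ∏_(i<6) (j+i)(j+i+1)/(n-i)`. For `j ≥ 21` use
`16 n ≥ 25 (j+1)^2`: a polynomial inequality in `j`, whose coefficients in `t = j - 21` are all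
positive. For `j ≤ 20` use `uC_mono` and `n ≥ 700`. -/
theorem uC_large (n j : ℕ) (hn : 700 ≤ n) (hj : 25 * (j + 1) ^ 2 ≤ 16 * n) :
    uC n j ≤ (1 / 5) * (n ! : ℝ) := by
  rcases Nat.lt_or_ge j 21 with hj2 | hj2
  · exact (uC_mono n (show j ≤ 20 by omega)).trans (fe02_large20 n hn)
  obtain ⟨N, rfl⟩ := Nat.exists_eq_add_of_le' (le_trans (by norm_num : 6 ≤ 700) hn)
  obtain ⟨t, rfl⟩ : ∃ t, j = t + 21 := ⟨j - 21, by omega⟩
  refine fe02_core1 N (t + 21) (by omega) ?_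
  have h1 : (25 : ℝ) * ((t : ℝ) + 22) ^ 2 ≤ 16 * ((N : ℝ) + 6) := by
    have : ((25 * (t + 21 + 1) ^ 2 : ℕ) : ℝ) ≤ ((16 * (N + 6) : ℕ) : ℝ) := by
      exact_mod_cast hj
    push_cast at this
    have h2 : (t : ℝ) + 21 + 1 = (t : ℝ) + 22 := by ring
    rw [h2] at this
    exact this
  have ht : (0 : ℝ) ≤ (t : ℝ) := Nat.cast_nonneg t
  have h2 := fe02_poly1 t ht
  have h3 : (80 : ℝ) ≤ 25 * ((t : ℝ) + 22) ^ 2 := by
    have h8 : (22 : ℝ) ^ 2 ≤ ((t : ℝ) + 22) ^ 2 := pow_le_pow_left₀ (by norm_num) (by linarith) 2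
    norm_num at h8
    linarith
  have h4 := fe02_mono1 h3 h1
  have h5 := h2.trans h4
  have h6 : 16 * ((N : ℝ) + 6) * (16 * ((N : ℝ) + 6) - 16) * (16 * ((N : ℝ) + 6) - 32) *
      (16 * ((N : ℝ) + 6) - 48) * (16 * ((N : ℝ) + 6) - 64) * (16 * ((N : ℝ) + 6) - 80) =
      16 ^ 6 * (((N : ℝ) + 6) * (N + 5) * (N + 4) * (N + 3) * (N + 2) * (N + 1)) := by ring
  rw [h6] at h5
  push_cast
  have h7 : 5 * 16 ^ 6 * (((t : ℝ) + 21) * (t + 22) * ((t + 22) * (t + 23)) *
      ((t + 23) * (t + 24)) * ((t + 24) * (t + 25)) * ((t + 25) * (t + 26)) *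
      ((t + 26) * (t + 27))) =
      16 ^ 6 * (5 * (((((t : ℝ) + 21) + 0) * ((t + 21) + 0 + 1)) *
      (((t + 21) + 1) * ((t + 21) + 1 + 1)) *
      (((t + 21) + 2) * ((t + 21) + 2 + 1)) * (((t + 21) + 3) * ((t + 21) + 3 + 1)) *
      (((t + 21) + 4) * ((t + 21) + 4 + 1)) *
      (((t + 21) + 5) * ((t + 21) + 5 + 1)))) := by ring
  rw [h7] at h5
  exact le_of_mul_le_mul_left h5 (by norm_num)

private theorem fe02_large2_aux (n j : ℕ) (hn : 2000 ≤ n) (hj2 : 37 ≤ j)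
    (hj : 10000 * (j + 1) ^ 2 ≤ 7396 * n) :
    uC n j ≤ (3 / 10) * (n ! : ℝ) := by
  obtain ⟨N, rfl⟩ := Nat.exists_eq_add_of_le' (le_trans (by norm_num : 7 ≤ 2000) hn)
  obtain ⟨t, rfl⟩ : ∃ t, j = t + 37 := ⟨j - 37, by omega⟩
  refine fe02_core2 N (t + 37) (by omega) ?_
  have h1 : (2500 : ℝ) * ((t : ℝ) + 38) ^ 2 ≤ 1849 * ((N : ℝ) + 7) := by
    have : ((10000 * (t + 37 + 1) ^ 2 : ℕ) : ℝ) ≤ ((7396 * (N + 7) : ℕ) : ℝ) := by
      exact_mod_cast hj
    push_cast at this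
    have h2 : (t : ℝ) + 37 + 1 = (t : ℝ) + 38 := by ring
    rw [h2] at this
    linarith
  have ht : (0 : ℝ) ≤ (t : ℝ) := Nat.cast_nonneg t
  have h2 := fe02_poly2 t ht
  have h3 : (11094 : ℝ) ≤ 2500 * ((t : ℝ) + 38) ^ 2 := by
    have h8 : (38 : ℝ) ^ 2 ≤ ((t : ℝ) + 38) ^ 2 := pow_le_pow_left₀ (by norm_num) (by linarith) 2
    norm_num at h8
    linarith
  have h4 := mul_le_mul_of_nonneg_left (fe02_mono2 h3 h1) (show (0 : ℝ) ≤ 3 by norm_num)
  have h5 := h2.trans h4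
  have h6 : 3 * (1849 * ((N : ℝ) + 7) * (1849 * ((N : ℝ) + 7) - 1849) *
      (1849 * ((N : ℝ) + 7) - 3698) * (1849 * ((N : ℝ) + 7) - 5547) *
      (1849 * ((N : ℝ) + 7) - 7396) * (1849 * ((N : ℝ) + 7) - 9245) *
      (1849 * ((N : ℝ) + 7) - 11094)) =
      1849 ^ 7 * (3 * (((N : ℝ) + 7) * (N + 6) * (N + 5) * (N + 4) * (N + 3) * (N + 2) *
        (N + 1))) := by ring
  rw [h6] at h5
  push_cast
  have h7 : 10 * 1849 ^ 7 * (((t : ℝ) + 37) * (t + 38) * ((t + 38) * (t + 39)) *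
      ((t + 39) * (t + 40)) * ((t + 40) * (t + 41)) * ((t + 41) * (t + 42)) *
      ((t + 42) * (t + 43)) * ((t + 43) * (t + 44))) =
      1849 ^ 7 * (10 * (((((t : ℝ) + 37) + 0) * ((t + 37) + 0 + 1)) *
      (((t + 37) + 1) * ((t + 37) + 1 + 1)) *
      (((t + 37) + 2) * ((t + 37) + 2 + 1)) * (((t + 37) + 3) * ((t + 37) + 3 + 1)) *
      (((t + 37) + 4) * ((t + 37) + 4 + 1)) *
      (((t + 37) + 5) * ((t + 37) + 5 + 1)) * (((t + 37) + 6) * ((t + 37) + 6 + 1)))) := by ring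
  rw [h7] at h5
  exact le_of_mul_le_mul_left h5 (by norm_num)

/-- the same for `n ≥ 2000` and `j + 1 ≤ 0.86 √n` with the bound `3/10` -/
theorem uC_large2 (n j : ℕ) (hn : 2000 ≤ n) (hj : 10000 * (j + 1) ^ 2 ≤ 7396 * n) :
    uC n j ≤ (3 / 10) * (n ! : ℝ) := by
  rcases Nat.lt_or_ge j 37 with hj2 | hj2
  · exact (uC_mono n hj2.le).trans (fe02_large2_aux n 37 hn le_rfl (by norm_num; omega))
  · exact fe02_large2_aux n j hn hj2 hj

end Pool.MP322F
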