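import Pool.Agent.Lib.MP_322c5f_alF.FB04
import Pool.Agent.Lib.MP_322c5f_alF.FB11
import Pool.Agent.Lib.MP_322c5f_alF.FE01

/-! Exact numbers of corners from the kernel engine. -/

set_option autoImplicit false

open Equiv Finset Nat

namespace Pool.MP322F

open Pool.MP322

/-- number of one bits (at most `fuel`) -/
noncomputable def pop (fuel : ℕ) : ℕ → ℕ :=
  Nat.rec (motive := fun _ => ℕ → ℕ) (fun _ => 0)
    (fun _ ih x => Nat.rec (motive := fun _ => ℕ) 0
      (fun m _ => Nat.succ (ih (Nat.sub (Nat.succ m) (Nat.shiftLeft 1 (Nat.log2 (Nat.succ m)))))) x)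
    fuel

/-- `f^2` in the slot given by the number of corners -/
noncomputable def leafC (fd1 : ℕ → Pr) (key _r : ℕ) : ℕ :=
  Pr.rec (motive := fun _ => ℕ) (fun P Q =>
    Nat.shiftLeft (Nat.mul (Nat.sub P Q) (Nat.sub P Q)) (Nat.mul 128 (pop 16 (mvb 1 key))))
    (grp fd1 g0 1 0 key)

private theorem pop_succ (fuel x : ℕ) (hx : x ≠ 0) :
    pop (fuel + 1) x = pop fuel (x - 2 ^ Nat.log2 x) + 1 := by
  obtain ⟨m, rfl⟩ := Nat.exists_eq_succ_of_ne_zero hx
  have h1 : Nat.shiftLeft 1 (Nat.log2 (Nat.succ m)) = 2 ^ Nat.log2 (Nat.succ m) :=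
    Nat.one_shiftLeft _
  rw [← h1]
  rfl

theorem pop_kS (fuel : ℕ) (B : Finset ℕ) (h : B.card ≤ fuel) : pop fuel (kS B) = B.card := by
  induction fuel generalizing B with
  | zero =>
    have hB : B = ∅ := Finset.card_eq_zero.1 (Nat.le_zero.1 h)
    subst hB
    rfl
  | succ fuel ih =>
    rcases B.eq_empty_or_nonempty with rfl | hne
    · have h0 : kS (∅ : Finset ℕ) = 0 := kS_eq_zero.2 rfl
      rw [h0]
      rfl
    · have hb : B.max' hne ∈ B := B.max'_mem hne
      have hM : kS B ≠ 0 := fun hh => hne.ne_empty (kS_eq_zero.1 hh)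
      have hc := Finset.card_erase_of_mem hb
      have hp := Finset.card_pos.2 hne
      rw [pop_succ fuel _ hM, log2_kS hne, ← kS_erase hb, ih _ (by omega)]
      omega

private theorem fe_mem_bS {N : ℕ} {mu : YoungDiagram} {x : ℕ} :
    x ∈ bS N mu ↔ ∃ j, j < N ∧ x = mu.rowLen j + (N - 1 - j) := by
  unfold bS be
  simp only [Finset.mem_image, Finset.mem_univ, true_and]
  constructor
  · rintro ⟨i, rfl⟩
    refine ⟨N - 1 - (i : ℕ), ?_, ?_⟩
    · have := i.2
      omega
    · have := i.2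
      omega
  · rintro ⟨j, hj, rfl⟩
    refine ⟨⟨N - 1 - j, by omega⟩, ?_⟩
    simp only
    congr 1
    congr 1
    omega

/-- the corners are the beads `b ≥ 1` such that `b - 1` is not a bead -/
theorem mcor_bS {N : ℕ} (mu : YoungDiagram) (h : mu.colLen 0 ≤ N) :
    mcor mu = ((bS N mu).filter (fun b => 1 ≤ b ∧ b - 1 ∉ bS N mu)).card := by
  have hrow : ∀ {i j : ℕ}, (i, j) ∈ mu → i < N := by
    intro i j hij
    have h1 : (i, 0) ∈ mu := mu.up_left_mem (le_refl _) (Nat.zero_le _) hij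
    rw [YoungDiagram.mem_iff_lt_colLen] at h1
    omega
  unfold mcor
  refine Finset.card_bij (fun c _ => c.2 + (N - c.1)) ?_ ?_ ?_
  · rintro ⟨i, j⟩ hc
    obtain ⟨h1, h2, h3⟩ := brb_mem_corners.1 hc
    simp only at h1 h2 h3 ⊢
    have hi := hrow h1
    rw [YoungDiagram.mem_iff_lt_rowLen] at h1 h2 h3
    rw [Finset.mem_filter, fe_mem_bS, fe_mem_bS]
    refine ⟨⟨i, hi, by omega⟩, by omega, ?_⟩
    rintro ⟨k, hk, hk2⟩
    rcases Nat.lt_or_ge k (i + 1) with h4 | h4
    · have h5 := mu.rowLen_anti k i (by omega)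
      omega
    · have h5 := mu.rowLen_anti (i + 1) k h4
      omega
  · rintro ⟨i, j⟩ hc ⟨i', j'⟩ hc' he
    obtain ⟨h1, h2, h3⟩ := brb_mem_corners.1 hc
    obtain ⟨h1', h2', h3'⟩ := brb_mem_corners.1 hc'
    simp only at h1 h2 h3 h1' h2' h3' he
    have hi := hrow h1
    have hi' := hrow h1'
    rw [YoungDiagram.mem_iff_lt_rowLen] at h1 h2 h3 h1' h2' h3'
    rcases lt_trichotomy i i' with h4 | h4 | h4
    · have h5 := mu.rowLen_anti i i' h4.le
      omega
    · subst h4
      exact Prod.ext rfl (by omega)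
    · have h5 := mu.rowLen_anti i' i h4.le
      omega
  · intro b hb
    rw [Finset.mem_filter, fe_mem_bS] at hb
    obtain ⟨⟨i, hi, rfl⟩, h1, h2⟩ := hb
    have hlt : mu.rowLen (i + 1) < mu.rowLen i := by
      by_contra hcon
      have h3 := mu.rowLen_anti i (i + 1) (Nat.le_succ i)
      have h4 : mu.rowLen (i + 1) = mu.rowLen i := by omega
      rcases Nat.lt_or_ge (i + 1) N with h5 | h5
      · exact h2 (fe_mem_bS.2 ⟨i + 1, h5, by omega⟩)
      · have h6 : mu.rowLen (i + 1) = 0 := by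
          by_contra h7
          have h8 : (i + 1, 0) ∈ mu := by
            rw [YoungDiagram.mem_iff_lt_rowLen]
            omega
          have := hrow h8
          omega
        omega
    refine ⟨(i, mu.rowLen i - 1), ?_, by simp only; omega⟩
    rw [brb_mem_corners]
    simp only [YoungDiagram.mem_iff_lt_rowLen]
    omega

theorem leafC_eq {N n w : ℕ} (hN : N + n ≤ 128) (hN2 : N ≤ 80) (hn : n ≤ N) (hn1 : 1 ≤ n)
    (hn2 : n ≤ 100) {fd1 : ℕ → Pr} (h1 : VOK N w 1 (n - 1) 1 fd1) (mu : Y n) (r : ℕ) :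
    (leafC fd1 (kS (bS N mu.1)) r : ℝ) = fd mu ^ 2 * 2 ^ (128 * mcor mu.1) := by
  have hcol : mu.1.colLen 0 ≤ N := by
    have hsub : (Finset.range (mu.1.colLen 0)).image (fun i => ((i, 0) : ℕ × ℕ)) ⊆ mu.1.cells := by
      intro d hd
      obtain ⟨i, hi, rfl⟩ := Finset.mem_image.1 hd
      rw [Finset.mem_range] at hi
      rw [YoungDiagram.mem_cells, YoungDiagram.mem_iff_lt_colLen]
      exact hi
    have h2 := Finset.card_le_card hsub
    have h3 : mu.1.cells.card = n := mu.2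
    rw [Finset.card_image_of_injective _ (fun a b h => congrArg Prod.fst h), Finset.card_range,
      h3] at h2
    omega
  have hpop : pop 16 (mvb 1 (kS (bS N mu.1))) = mcor mu.1 := by
    have h2 := mcor_mul_le mu
    have h3 : mcor mu.1 ≤ 16 := by
      by_contra hcon
      push Not at hcon
      have h4 : 17 * (17 + 1) ≤ mcor mu.1 * (mcor mu.1 + 1) := Nat.mul_le_mul hcon (by omega)
      omega
    rw [mvb_kS, mcor_bS mu.1 hcol] at *
    exact pop_kS 16 _ h3
  have hfd := fd_grp hN hN2 hn hn1 h1 mu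
  have hpos := fd_pos mu
  have key : ∀ x : Pr, (x.val : ℝ) = fd mu →
      ((Pr.rec (motive := fun _ => ℕ) (fun P Q =>
        Nat.shiftLeft (Nat.mul (Nat.sub P Q) (Nat.sub P Q))
          (Nat.mul 128 (pop 16 (mvb 1 (kS (bS N mu.1)))))) x : ℕ) : ℝ) =
        fd mu ^ 2 * 2 ^ (128 * mcor mu.1) := by
    rintro ⟨P, Q⟩ hx
    have hx' : ((P : ℤ) - (Q : ℤ) : ℤ) = (Pr.mk P Q).val := rfl
    rw [← hx'] at hx
    push_cast at hx
    have hPQ : Q ≤ P := by
      have : (Q : ℝ) ≤ (P : ℝ) := by linarith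
      exact_mod_cast this
    show ((Nat.shiftLeft (Nat.mul (Nat.sub P Q) (Nat.sub P Q))
          (Nat.mul 128 (pop 16 (mvb 1 (kS (bS N mu.1))))) : ℕ) : ℝ) = _
    rw [hpop]
    have e1 : Nat.shiftLeft (Nat.mul (Nat.sub P Q) (Nat.sub P Q)) (Nat.mul 128 (mcor mu.1)) =
        (P - Q) * (P - Q) * 2 ^ (128 * mcor mu.1) := Nat.shiftLeft_eq _ _
    rw [e1]
    push_cast [Nat.cast_sub hPQ]
    rw [← hx]
    ring
  exact key _ hfd.symm

private theorem fe_dig (B : ℕ) (hB : 0 < B) (a : ℕ → ℕ) (ha : ∀ i, a i < B) (K j : ℕ) :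
    (∑ i ∈ Finset.range K, a i * B ^ i) / B ^ j % B = if j < K then a j else 0 := by
  induction j generalizing a K with
  | zero =>
    rw [pow_zero, Nat.div_one]
    cases K with
    | zero => simp
    | succ K =>
      rw [Finset.sum_range_succ', if_pos (Nat.succ_pos K), pow_zero, mul_one]
      have h1 : ∑ i ∈ Finset.range K, a (i + 1) * B ^ (i + 1) =
          B * ∑ i ∈ Finset.range K, a (i + 1) * B ^ i := by
        rw [Finset.mul_sum]
        exact Finset.sum_congr rfl fun i _ => by rw [pow_succ]; ring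
      rw [h1, Nat.mul_add_mod, Nat.mod_eq_of_lt (ha 0)]
  | succ j ih =>
    cases K with
    | zero => simp
    | succ K =>
      rw [Finset.sum_range_succ', pow_zero, mul_one]
      have h1 : ∑ i ∈ Finset.range K, a (i + 1) * B ^ (i + 1) =
          B * ∑ i ∈ Finset.range K, a (i + 1) * B ^ i := by
        rw [Finset.mul_sum]
        exact Finset.sum_congr rfl fun i _ => by rw [pow_succ]; ring
      rw [h1, pow_succ', ← Nat.div_div_eq_div_mul, Nat.mul_add_div hB, Nat.div_eq_of_lt (ha 0),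
        Nat.add_zero, ih (fun i => a (i + 1)) (fun i => ha (i + 1)) K]
      simp only [Nat.add_lt_add_iff_right]

/-- the enumeration gives all numbers (`n! < 2^128`, so that there are no carries) -/
theorem uC_exact {N n w : ℕ} (hN : N + n ≤ 128) (hN2 : N ≤ 80) (hn : n ≤ N) (hn1 : 1 ≤ n)
    (hn2 : n ≤ 33) {fd1 : ℕ → Pr} (h1 : VOK N w 1 (n - 1) 1 fd1) {E : ℕ}
    (hE : enumN (leafC fd1) (2 * n + 2) n n N 0 0 = E) (j : ℕ) :
    uC n j = ∑ i ∈ Finset.range (j + 1), (((E >>> (128 * i)) % 2 ^ 128 : ℕ) : ℝ) := by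
  have hF : ∀ mu : Y n, ∃ F : ℕ, (F : ℝ) = fd mu := by
    intro mu
    have h2 := fd_grp hN hN2 hn hn1 h1 mu
    have h3 := fd_pos mu
    refine ⟨(grp fd1 g0 1 0 (kS (bS N mu.1))).val.toNat, ?_⟩
    have h4 : (0 : ℤ) ≤ (grp fd1 g0 1 0 (kS (bS N mu.1))).val := by
      have : (0 : ℝ) ≤ ((grp fd1 g0 1 0 (kS (bS N mu.1))).val : ℝ) := by linarith
      exact_mod_cast this
    rw [h2]
    have h5 := Int.toNat_of_nonneg h4
    exact_mod_cast congrArg (fun z : ℤ => (z : ℝ)) h5
  choose F hF using hF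
  have hsum : ∑ mu : Y n, F mu ^ 2 = n ! := by
    have h2 := sum_sq n
    have h3 : ((∑ mu : Y n, F mu ^ 2 : ℕ) : ℝ) = (n ! : ℝ) := by
      push_cast
      rw [← h2]
      exact Finset.sum_congr rfl fun mu _ => by rw [hF]
    exact_mod_cast h3
  have hleaf : ∀ (mu : Y n) (r : ℕ), leafC fd1 (kS (bS N mu.1)) r =
      F mu ^ 2 * (2 ^ 128) ^ mcor mu.1 := by
    intro mu r
    have h2 := leafC_eq hN hN2 hn hn1 (by omega) h1 mu r
    rw [← hF mu, pow_mul] at h2
    exact_mod_cast h2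
  obtain ⟨A, hA⟩ : ∃ A : ℕ → ℕ, ∀ i, A i =
      ∑ mu ∈ (Finset.univ : Finset (Y n)).filter (fun mu => mcor mu.1 = i), F mu ^ 2 :=
    ⟨_, fun _ => rfl⟩
  have hfac : n ! < 2 ^ 128 := by
    have h2 : n ! ≤ 33 ! := Nat.factorial_le hn2
    have h3 : 33 ! < 2 ^ 128 := by
      simp only [Nat.factorial_succ, Nat.factorial_zero]
      norm_num
    omega
  have hAlt : ∀ i, A i < 2 ^ 128 := by
    intro i
    rw [hA]
    refine lt_of_le_of_lt ?_ hfac
    rw [← hsum]
    exact Finset.sum_le_sum_of_subset (Finset.filter_subset _ _)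
  have hEsum : E = ∑ i ∈ Finset.range (2 * n + 1), A i * (2 ^ 128) ^ i := by
    rw [← hE, enumN_spec hn (by omega) (le_refl _)]
    have h2 : ∀ mu : Y n, mcor mu.1 ∈ Finset.range (2 * n + 1) := by
      intro mu
      rw [Finset.mem_range]
      have h3 := mcor_mul_le mu
      nlinarith
    rw [← Finset.sum_fiberwise_of_maps_to (fun mu _ => h2 mu)]
    refine Finset.sum_congr rfl fun i _ => ?_
    rw [hA, Finset.sum_mul]
    refine Finset.sum_congr rfl fun mu hmu => ?_
    rw [hleaf, (Finset.mem_filter.1 hmu).2]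
  have hdig : ∀ i, (E >>> (128 * i)) % 2 ^ 128 = A i := by
    intro i
    rw [Nat.shiftRight_eq_div_pow, pow_mul, hEsum, fe_dig (2 ^ 128) (by norm_num) A hAlt]
    split_ifs with h2
    · rfl
    · rw [hA]
      symm
      refine Finset.sum_eq_zero fun mu hmu => ?_
      exfalso
      have h3 := (Finset.mem_filter.1 hmu).2
      have h4 := mcor_mul_le mu
      rw [h3] at h4
      apply h2
      nlinarith
  simp only [hdig]
  unfold uC
  have h2 : ∀ mu ∈ (Finset.univ : Finset (Y n)).filter (fun mu => mcor mu.1 ≤ j),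
      mcor mu.1 ∈ Finset.range (j + 1) := by
    intro mu hmu
    rw [Finset.mem_range]
    have := (Finset.mem_filter.1 hmu).2
    omega
  rw [← Finset.sum_fiberwise_of_maps_to h2]
  refine Finset.sum_congr rfl fun i hi => ?_
  rw [hA]
  push_cast
  rw [Finset.filter_filter]
  rw [Finset.mem_range] at hi
  have h3 : (Finset.univ : Finset (Y n)).filter (fun mu => mcor mu.1 ≤ j ∧ mcor mu.1 = i) =
      (Finset.univ : Finset (Y n)).filter (fun mu => mcor mu.1 = i) := by
    ext mu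
    simp only [Finset.mem_filter, Finset.mem_univ, true_and]
    omega
  rw [h3]
  exact Finset.sum_congr rfl fun mu _ => by rw [hF]

end Pool.MP322F
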