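import Pool.Agent.Lib.MP_322c5f_al.SelfConj
import Pool.Agent.Lib.MP_322c5f_al.Corn

/-! Self-conjugate diagrams: two step recursion. -/

set_option autoImplicit false

open Equiv Finset Nat

namespace Pool.MP322F

open Pool.MP322

open Classical in
/-- `n!` times the Plancherel probability of a self-conjugate diagram -/
noncomputable def sC (n : ℕ) : ℝ :=
  ∑ lam ∈ (Finset.univ : Finset (Y n)).filter (fun lam => lam.tr = lam), fd lam ^ 2

theorem sC_nonneg (n : ℕ) : 0 ≤ sC n :=
  Finset.sum_nonneg fun _ _ => sq_nonneg _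

/-- the largest number of corners -/
def mC (n : ℕ) : ℕ := (Nat.sqrt (8 * n + 1) - 1) / 2

theorem mcor_le_mC {n : ℕ} (lam : Y n) : mcor lam.1 ≤ mC n := by
  have h := mcor_mul_le lam
  have h1 : 2 * mcor lam.1 + 1 ≤ Nat.sqrt (8 * n + 1) := by
    rw [Nat.le_sqrt]
    nlinarith
  unfold mC
  omega

private theorem exists_missing {n : ℕ} (rho : Y n) (h : rho.tr ≠ rho) :
    ∃ c, c ∉ rho.1 ∧ c.swap ∈ rho.1 := by
  by_contra hcon
  push Not at hcon
  apply h
  have hsub : rho.tr.1.cells ⊆ rho.1.cells := by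
    intro d hd
    rw [YoungDiagram.mem_cells] at hd ⊢
    by_contra hd2
    exact hcon d hd2 (YoungDiagram.mem_transpose.1 hd)
  have hc1 : rho.tr.1.cells.card = n := rho.tr.2
  have hc2 : rho.1.cells.card = n := rho.2
  apply Subtype.ext
  apply YoungDiagram.ext
  exact Finset.eq_of_subset_of_card_le hsub (by omega)

/-- the self-conjugate diagram two cells above a diagram which is not self-conjugate is unique -/
private theorem unique_two {n : ℕ} {rho : Y n} (hr : rho.tr ≠ rho) {lam lam' : Y (n + 2)}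
    (hs : lam.tr = lam) (hs' : lam'.tr = lam') (h : rho.1 ≤ lam.1) (h' : rho.1 ≤ lam'.1) :
    lam = lam' := by
  classical
  obtain ⟨c, hc1, hc2⟩ := exists_missing rho hr
  -- the second cell
  have two : ∀ {lam : Y (n + 2)} (_ : lam.tr = lam) (_ : rho.1 ≤ lam.1),
      ∃ e, e ∉ rho.1 ∧ e ≠ c ∧ e ∈ lam.1 ∧ c ∈ lam.1 ∧
        ∀ d ∈ lam.1, d = e ∨ d = c ∨ d ∈ rho.1 := by
    intro lam hs h
    have hcl : c ∈ lam.1 := by
      have := SelfConj.mem_swap hs (h hc2)
      rwa [Prod.swap_swap] at this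
    have hsub : rho.1.cells ⊆ lam.1.cells := YoungDiagram.cells_subset_iff.2 h
    have h1 : rho.1.cells.card = n := rho.2
    have h2 : lam.1.cells.card = n + 2 := lam.2
    have hcs : c ∈ lam.1.cells \ rho.1.cells := by
      rw [Finset.mem_sdiff, YoungDiagram.mem_cells, YoungDiagram.mem_cells]
      exact ⟨hcl, hc1⟩
    have hcard : (lam.1.cells \ rho.1.cells).card = 2 := by
      rw [Finset.card_sdiff_of_subset hsub]; omega
    have hcard2 : ((lam.1.cells \ rho.1.cells).erase c).card = 1 := by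
      rw [Finset.card_erase_of_mem hcs]; omega
    obtain ⟨e, he⟩ := Finset.card_eq_one.1 hcard2
    have he' : e ∈ (lam.1.cells \ rho.1.cells).erase c := by
      rw [he]; exact Finset.mem_singleton_self e
    rw [Finset.mem_erase, Finset.mem_sdiff, YoungDiagram.mem_cells, YoungDiagram.mem_cells] at he'
    refine ⟨e, he'.2.2, he'.1, he'.2.1, hcl, ?_⟩
    intro d hd
    by_cases hdr : d ∈ rho.1
    · exact Or.inr (Or.inr hdr)
    · by_cases hdc : d = c
      · exact Or.inr (Or.inl hdc)
      · left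
        have : d ∈ (lam.1.cells \ rho.1.cells).erase c := by
          rw [Finset.mem_erase, Finset.mem_sdiff, YoungDiagram.mem_cells, YoungDiagram.mem_cells]
          exact ⟨hdc, hd, hdr⟩
        rw [he, Finset.mem_singleton] at this
        exact this
  obtain ⟨e, he1, he2, he3, hcl, he4⟩ := two hs h
  obtain ⟨e', he1', he2', he3', hcl', he4'⟩ := two hs' h'
  have hnc : c.swap ≠ c := by
    intro hcc
    rw [hcc] at hc2
    exact hc1 hc2
  -- a cell `e` off the diagonal lies in the other diagram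
  have off : ∀ {lam lam' : Y (n + 2)} {e e' : ℕ × ℕ} (_ : lam.tr = lam) (_ : lam'.tr = lam')
      (_ : rho.1 ≤ lam'.1) (_ : e ∉ rho.1) (_ : e ≠ c) (_ : e ∈ lam.1)
      (_ : ∀ d ∈ lam.1, d = e ∨ d = c ∨ d ∈ rho.1)
      (_ : ∀ d ∈ lam'.1, d = e' ∨ d = c ∨ d ∈ rho.1), e.swap ≠ e → e = e' := by
    intro lam lam' e e' hs hs' h' he1 he2 he3 he4 he4' hne
    rcases he4 e.swap (SelfConj.mem_swap hs he3) with h1 | h1 | h1
    · exact absurd h1 hne
    · exfalso
      have : c.swap = e := by rw [← h1, Prod.swap_swap]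
      rw [this] at hc2
      exact he1 hc2
    · have h2 := SelfConj.mem_swap hs' (h' h1)
      rw [Prod.swap_swap] at h2
      rcases he4' e h2 with h3 | h3 | h3
      · exact h3
      · exact absurd h3 he2
      · exact absurd h3 he1
  have dia : ∀ {lam' : Y (n + 2)} {e e' : ℕ × ℕ} (_ : e ∉ rho.1) (_ : e' ∈ lam'.1)
      (_ : ∀ d ∈ lam'.1, d = e' ∨ d = c ∨ d ∈ rho.1), e.swap = e → e'.swap = e' →
      ¬ e.1 < e'.1 := by
    intro lam' e e' he1 he3' he4' hd hd' hlt
    have e1 : e.2 = e.1 := congrArg Prod.fst hd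
    have e1' : e'.2 = e'.1 := congrArg Prod.fst hd'
    have hle : e ≤ e' := ⟨hlt.le, by rw [e1, e1']; exact hlt.le⟩
    have hm : e ∈ lam'.1 := lam'.1.isLowerSet hle he3'
    rcases he4' e hm with h4 | h4 | h4
    · rw [h4] at hlt; exact lt_irrefl _ hlt
    · rw [h4] at hd; exact hnc hd
    · exact he1 h4
  have hee : e = e' := by
    by_cases hd : e.swap = e
    · by_cases hd' : e'.swap = e'
      · have n1 := dia he1 he3' he4' hd hd'
        have n2 := dia he1' he3 he4 hd' hd
        have e1 : e.2 = e.1 := congrArg Prod.fst hd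
        have e1' : e'.2 = e'.1 := congrArg Prod.fst hd'
        have e2 : e.1 = e'.1 := by omega
        exact Prod.ext e2 (by rw [e1, e1', e2])
      · exact (off hs' hs h he1' he2' he3' he4' he4 hd').symm
    · exact off hs hs' h' he1 he2 he3 he4 he4' hd
  subst hee
  apply Subtype.ext
  apply YoungDiagram.ext
  ext d
  rw [YoungDiagram.mem_cells, YoungDiagram.mem_cells]
  constructor
  · intro hd
    rcases he4 d hd with e1 | e1 | e1
    · rw [e1]; exact he3'
    · rw [e1]; exact hcl'
    · exact h' e1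
  · intro hd
    rcases he4' d hd with e1 | e1 | e1
    · rw [e1]; exact he3
    · rw [e1]; exact hcl
    · exact h e1

open Classical in
/-- number of chains `rho < nu < lam` with `lam` self-conjugate, for a given `rho` with `n` cells:
at most `2` if `rho` is not self-conjugate (`lam` is unique: it contains `rho ∪ rho.tr`; if this has
`n + 1` cells, `lam` is obtained by adding the unique addable diagonal cell; it has `n + 2` cells
otherwise), and at most `mcor rho + 1` if `rho` is self-conjugate (`lam` is `rho` with an addable cell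
`x` off the diagonal and `x.swap`; every `lam` has two chains, and the number of addable cells is
`mcor rho + 1`) -/
theorem chains_above {n : ℕ} (rho : Y n) :
    ((Finset.univ : Finset (Y (n + 1) × Y (n + 2))).filter (fun p => rho.1 ≤ p.1.1 ∧
      p.1.1 ≤ p.2.1 ∧ p.2.tr = p.2)).card ≤
      if rho.tr = rho then mcor rho.1 + 1 else 2 := by
  set S := (Finset.univ : Finset (Y (n + 1) × Y (n + 2))).filter (fun p => rho.1 ≤ p.1.1 ∧
      p.1.1 ≤ p.2.1 ∧ p.2.tr = p.2) with hS
  have hmem : ∀ p ∈ S, rho.1 ≤ p.1.1 ∧ p.1.1 ≤ p.2.1 ∧ p.2.tr = p.2 := fun p hp =>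
    (Finset.mem_filter.1 hp).2
  split_ifs with hr
  · have h1 : S.card ≤ ((Finset.univ : Finset (Y (n + 1))).filter
        (fun lam => rho.1 ≤ lam.1)).card := by
      refine Finset.card_le_card_of_injOn (fun p => p.1) ?_ ?_
      · intro p hp
        rw [Finset.mem_coe, Finset.mem_filter]
        exact ⟨Finset.mem_univ _, (hmem p hp).1⟩
      · rintro ⟨a, b⟩ h1 ⟨a', b'⟩ h2 h12
        simp only at h12
        subst h12
        have e1 := hmem _ h1
        have e2 := hmem _ h2
        have := SelfConj.unique_above e1.2.2 e2.2.2 e1.2.1 e2.2.1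
        simp only at this
        rw [this]
    have h2 : ((Finset.univ : Finset (Y (n + 1))).filter (fun lam => rho.1 ≤ lam.1)).card =
        mcor rho.1 + 1 := by
      rw [← card_up rho]
    omega
  · rcases S.eq_empty_or_nonempty with h0 | ⟨p0, hp0⟩
    · rw [h0]; simp
    · have hp := hmem p0 hp0
      have hrl : rho.1 ≤ p0.2.1 := hp.1.trans hp.2.1
      have hu : ∀ p ∈ S, p.2 = p0.2 := by
        intro p hpS
        have h1 := hmem p hpS
        exact unique_two hr h1.2.2 hp.2.2 (h1.1.trans h1.2.1) hrl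
      have hsub : rho.1.cells ⊆ p0.2.1.cells := YoungDiagram.cells_subset_iff.2 hrl
      have hc1 : rho.1.cells.card = n := rho.2
      have hc2 : p0.2.1.cells.card = n + 2 := p0.2.2
      have hcard : (p0.2.1.cells \ rho.1.cells).card = 2 := by
        rw [Finset.card_sdiff_of_subset hsub]; omega
      have hps : (Finset.powersetCard 1 (p0.2.1.cells \ rho.1.cells)).card = 2 := by
        rw [Finset.card_powersetCard, hcard]; rfl
      refine le_trans ?_ (le_of_eq hps)
      refine Finset.card_le_card_of_injOn (fun p => p.1.1.cells \ rho.1.cells) ?_ ?_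
      · intro p hpS
        have h1 := hmem p hpS
        rw [Finset.mem_coe, Finset.mem_powersetCard]
        constructor
        · refine Finset.sdiff_subset_sdiff ?_ (Finset.Subset.refl _)
          have h2 := h1.2.1
          rw [hu p hpS] at h2
          exact YoungDiagram.cells_subset_iff.2 h2
        · have hc3 : p.1.1.cells.card = n + 1 := p.1.2
          rw [Finset.card_sdiff_of_subset (YoungDiagram.cells_subset_iff.2 h1.1)]
          omega
      · intro p hpS p' hpS' h12
        simp only at h12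
        have h1 := hmem p hpS
        have h1' := hmem p' hpS'
        have e1 : p.1.1.cells = p'.1.1.cells := by
          rw [← Finset.sdiff_union_of_subset (YoungDiagram.cells_subset_iff.2 h1.1), h12,
            Finset.sdiff_union_of_subset (YoungDiagram.cells_subset_iff.2 h1'.1)]
        have e2 : p.1 = p'.1 := Subtype.ext (YoungDiagram.ext e1)
        have e3 : p.2 = p'.2 := by rw [hu p hpS, hu p' hpS']
        exact Prod.ext e2 e3

/-- two step recursion: for self-conjugate `lam`, `fd lam` is the sum of `fd rho` over the chains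
`rho < nu < lam`, whose number is at most `mC (n+2) * mC (n+1)`; Cauchy-Schwarz and `chains_above` -/
theorem sC_two (n : ℕ) :
    sC (n + 2) ≤ (mC (n + 2) * mC (n + 1) : ℝ) *
      (2 * (n ! : ℝ) + ((mC n : ℝ) - 1) * sC n) := by
  classical
  set SC := (Finset.univ : Finset (Y (n + 2))).filter (fun lam => lam.tr = lam) with hSC
  -- chains below `lam`
  set Ch : Y (n + 2) → Finset (Y n × Y (n + 1)) := fun lam =>
    (Finset.univ : Finset (Y n × Y (n + 1))).filter (fun q => q.1.1 ≤ q.2.1 ∧ q.2.1 ≤ lam.1)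
    with hCh
  have e1 : ∀ lam : Y (n + 2), ∀ F : Y n → ℝ, ∑ q ∈ Ch lam, F q.1 =
      ∑ nu ∈ (Finset.univ : Finset (Y (n + 1))).filter (fun nu => nu.1 ≤ lam.1),
        ∑ rho ∈ (Finset.univ : Finset (Y n)).filter (fun rho => rho.1 ≤ nu.1), F rho := by
    intro lam F
    rw [hCh]
    simp only
    rw [Finset.sum_filter, ← Finset.univ_product_univ, Finset.sum_product_right,
      Finset.sum_filter]
    refine Finset.sum_congr rfl fun nu _ => ?_
    by_cases hnu : nu.1 ≤ lam.1
    · rw [if_pos hnu, Finset.sum_filter]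
      refine Finset.sum_congr rfl fun rho _ => ?_
      simp [hnu]
    · rw [if_neg hnu]
      refine Finset.sum_eq_zero fun rho _ => ?_
      simp [hnu]
  have hcdn : ∀ {m : ℕ} (lam : Y (m + 1)),
      (((Finset.univ : Finset (Y m)).filter (fun rho => rho.1 ≤ lam.1)).card : ℝ) =
        (mcor lam.1 : ℝ) := by
    intro m lam
    have h := card_down lam
    rw [← h]
  have hmC : ∀ {m : ℕ} (lam : Y m), (mcor lam.1 : ℝ) ≤ (mC m : ℝ) := fun lam => by
    exact_mod_cast mcor_le_mC lam
  have e2 : ∀ lam : Y (n + 2), ((Ch lam).card : ℝ) ≤ mC (n + 2) * mC (n + 1) := by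
    intro lam
    have h1 := e1 lam (fun _ => 1)
    rw [Finset.sum_const, nsmul_eq_mul, mul_one] at h1
    rw [h1]
    calc ∑ nu ∈ (Finset.univ : Finset (Y (n + 1))).filter (fun nu => nu.1 ≤ lam.1),
        ∑ rho ∈ (Finset.univ : Finset (Y n)).filter (fun rho => rho.1 ≤ nu.1), (1 : ℝ)
        ≤ ∑ nu ∈ (Finset.univ : Finset (Y (n + 1))).filter (fun nu => nu.1 ≤ lam.1),
          (mC (n + 1) : ℝ) := by
          refine Finset.sum_le_sum fun nu _ => ?_
          rw [Finset.sum_const, nsmul_eq_mul, mul_one, hcdn nu]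
          exact hmC nu
      _ = (mcor lam.1 : ℝ) * mC (n + 1) := by
          rw [Finset.sum_const, nsmul_eq_mul, hcdn lam]
      _ ≤ mC (n + 2) * mC (n + 1) :=
          mul_le_mul_of_nonneg_right (hmC lam) (Nat.cast_nonneg _)
  have e3 : ∀ lam : Y (n + 2), fd lam = ∑ q ∈ Ch lam, fd q.1 := by
    intro lam
    rw [e1 lam fd, fd_succ lam]
    refine Finset.sum_congr ?_ ?_
    · ext x; simp
    · intro nu _
      rw [fd_succ nu]
  have e4 : ∀ lam : Y (n + 2), fd lam ^ 2 ≤ (mC (n + 2) * mC (n + 1) : ℝ) *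
      ∑ q ∈ Ch lam, fd q.1 ^ 2 := by
    intro lam
    rw [e3 lam]
    refine (sq_sum_le_card_mul_sum_sq (s := Ch lam) (f := fun q => fd q.1)).trans ?_
    exact mul_le_mul_of_nonneg_right (e2 lam) (Finset.sum_nonneg fun _ _ => sq_nonneg _)
  have e5 : sC (n + 2) ≤ (mC (n + 2) * mC (n + 1) : ℝ) *
      ∑ lam ∈ SC, ∑ q ∈ Ch lam, fd q.1 ^ 2 := by
    have h0 : sC (n + 2) = ∑ lam ∈ SC, fd lam ^ 2 := by
      unfold sC
      refine Finset.sum_congr ?_ fun _ _ => rfl
      rw [hSC]
    rw [h0, Finset.mul_sum]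
    exact Finset.sum_le_sum fun lam _ => e4 lam
  refine e5.trans (mul_le_mul_of_nonneg_left ?_ (by positivity))
  -- exchange the sums
  have e6 : ∑ lam ∈ SC, ∑ q ∈ Ch lam, fd q.1 ^ 2 =
      ∑ rho : Y n, (((Finset.univ : Finset (Y (n + 1) × Y (n + 2))).filter (fun p =>
        rho.1 ≤ p.1.1 ∧ p.1.1 ≤ p.2.1 ∧ p.2.tr = p.2)).card : ℝ) * fd rho ^ 2 := by
    have h1 : ∀ rho : Y n, (((Finset.univ : Finset (Y (n + 1) × Y (n + 2))).filter (fun p =>
        rho.1 ≤ p.1.1 ∧ p.1.1 ≤ p.2.1 ∧ p.2.tr = p.2)).card : ℝ) * fd rho ^ 2 =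
        ∑ nu : Y (n + 1), ∑ lam : Y (n + 2),
          if rho.1 ≤ nu.1 ∧ nu.1 ≤ lam.1 ∧ lam.tr = lam then fd rho ^ 2 else 0 := by
      intro rho
      rw [← nsmul_eq_mul, ← Finset.sum_const, Finset.sum_filter, ← Finset.univ_product_univ,
        Finset.sum_product]
    rw [Finset.sum_congr rfl fun rho _ => h1 rho]
    have h2 : ∀ lam : Y (n + 2), ∑ q ∈ Ch lam, fd q.1 ^ 2 =
        ∑ rho : Y n, ∑ nu : Y (n + 1),
          if rho.1 ≤ nu.1 ∧ nu.1 ≤ lam.1 then fd rho ^ 2 else 0 := by
      intro lam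
      rw [hCh]
      simp only
      rw [Finset.sum_filter, ← Finset.univ_product_univ, Finset.sum_product]
    rw [hSC, Finset.sum_filter]
    have h3 : ∀ lam : Y (n + 2), (if lam.tr = lam then ∑ q ∈ Ch lam, fd q.1 ^ 2 else 0) =
        ∑ rho : Y n, ∑ nu : Y (n + 1),
          if rho.1 ≤ nu.1 ∧ nu.1 ≤ lam.1 ∧ lam.tr = lam then fd rho ^ 2 else 0 := by
      intro lam
      by_cases hl : lam.tr = lam
      · rw [if_pos hl, h2 lam]
        refine Finset.sum_congr rfl fun rho _ => Finset.sum_congr rfl fun nu _ => ?_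
        simp [hl]
      · rw [if_neg hl]
        symm
        refine Finset.sum_eq_zero fun rho _ => Finset.sum_eq_zero fun nu _ => ?_
        simp [hl]
    rw [Finset.sum_congr rfl fun lam _ => h3 lam, Finset.sum_comm]
    refine Finset.sum_congr rfl fun rho _ => ?_
    rw [Finset.sum_comm]
  rw [e6]
  have e7 : ∀ rho : Y n, (((Finset.univ : Finset (Y (n + 1) × Y (n + 2))).filter (fun p =>
      rho.1 ≤ p.1.1 ∧ p.1.1 ≤ p.2.1 ∧ p.2.tr = p.2)).card : ℝ) * fd rho ^ 2 ≤
      2 * fd rho ^ 2 + (if rho.tr = rho then ((mC n : ℝ) - 1) * fd rho ^ 2 else 0) := by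
    intro rho
    have h1 : (((Finset.univ : Finset (Y (n + 1) × Y (n + 2))).filter (fun p =>
      rho.1 ≤ p.1.1 ∧ p.1.1 ≤ p.2.1 ∧ p.2.tr = p.2)).card : ℝ) ≤
        ((if rho.tr = rho then mcor rho.1 + 1 else 2 : ℕ) : ℝ) := by
      have h2 := chains_above rho
      have h3 : ((Finset.univ : Finset (Y (n + 1) × Y (n + 2))).filter (fun p =>
        rho.1 ≤ p.1.1 ∧ p.1.1 ≤ p.2.1 ∧ p.2.tr = p.2)).card ≤
        if rho.tr = rho then mcor rho.1 + 1 else 2 := by
        convert h2
      exact_mod_cast h3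
    have hsq : (0 : ℝ) ≤ fd rho ^ 2 := sq_nonneg _
    refine (mul_le_mul_of_nonneg_right h1 hsq).trans ?_
    split_ifs with hr
    · have h4 := hmC rho
      push_cast
      nlinarith
    · push_cast
      nlinarith
  refine (Finset.sum_le_sum fun rho _ => e7 rho).trans ?_
  rw [Finset.sum_add_distrib, ← Finset.mul_sum, sum_sq, ← Finset.sum_filter, ← Finset.mul_sum]
  refine le_of_eq ?_
  congr 2

/-- start: `selfconj_sum` -/
theorem sC_start (n : ℕ) : sC (n + 1) ≤ (n ! : ℝ) * Real.sqrt (2 * (n + 1)) := by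
  unfold sC
  exact selfconj_sum n

end Pool.MP322F
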