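import Pool.Agent.Lib.MP_322c5f_alF.FB10

/-!
Kernel functions for the tables of the classes without fixed points (tables for `25 ≤ m ≤ M`).

All functions are written with recursors; `frc` forces a number to a numeral (it is the
application `k v`, see `frc_eq`).
-/

set_option autoImplicit false

namespace Pool.MP322F

/-- list of pairs -/
inductive NP where
  | nil : NP
  | cons : ℕ → ℕ → NP → NP

/-- list of `(t, tn, tz, u, v)` for `a = a0, a0 + 1, ...` -/
inductive RL where
  | nil : RL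
  | cons : ℕ → ℕ → ℕ → ℕ → ℕ → RL → RL

/-- data for `m = 25, 26, ...`: `a0`, the list `TS m 0, TS m 1, ...`, the list `RL`, and the list
`W m 1, W m 2, ...` (scaled by `2^40`) -/
inductive MD where
  | nil : MD
  | cons : ℕ → NL → RL → NL → MD → MD

/-- list of lists -/
inductive LL where
  | nil : LL
  | cons : NL → LL → LL

/-- forcing a number: `frc v k = k v` -/
noncomputable def frc {α : Type} (v : ℕ) (k : ℕ → α) : α :=
  Nat.rec (motive := fun _ => α) (k 0) (fun n _ => k (Nat.succ n)) v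

/-- entry `i`, in continuation form; `k 0 0` beyond the end -/
noncomputable def NP.gt {α : Type} (l : NP) (k : ℕ → ℕ → α) : ℕ → α :=
  NP.rec (motive := fun _ => ℕ → α) (fun _ => k 0 0)
    (fun e o _ ih i => Nat.rec (motive := fun _ => α) (k e o) (fun j _ => ih j) i) l

noncomputable def NL.gt (l : NL) : ℕ → ℕ :=
  NL.rec (motive := fun _ => ℕ → ℕ) (fun _ => 0)
    (fun x _ ih i => Nat.rec (motive := fun _ => ℕ) x (fun j _ => ih j) i) l

noncomputable def LL.gt (l : LL) : ℕ → NL :=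
  LL.rec (motive := fun _ => ℕ → NL) (fun _ => NL.nil)
    (fun x _ ih i => Nat.rec (motive := fun _ => NL) x (fun j _ => ih j) i) l

noncomputable def revP (row : NP) : NP → NP :=
  NP.rec (motive := fun _ => NP → NP) (fun acc => acc)
    (fun e o _ ih acc => ih (NP.cons e o acc)) row

noncomputable def zeroP (n : ℕ) : NP := Nat.rec (motive := fun _ => NP) NP.nil
  (fun _ ih => NP.cons 0 0 ih) n

/-! ### polynomial rows -/

/-- `acc` = reversed list of the new entries; `new_t = old_t + X1 * new_(t-c)` (the two parities are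
exchanged if `par` is not zero) -/
noncomputable def updP (X1 c par : ℕ) (row : NP) : NP → NP :=
  NP.rec (motive := fun _ => NP → NP) (fun acc => acc)
    (fun e o _ ih acc => NP.gt acc (fun p q =>
      Nat.rec (motive := fun _ => NP)
        (frc (Nat.add e (Nat.mul X1 p)) (fun e' => frc (Nat.add o (Nat.mul X1 q)) (fun o' =>
          ih (NP.cons e' o' acc))))
        (fun _ _ => frc (Nat.add e (Nat.mul X1 q)) (fun e' => frc (Nat.add o (Nat.mul X1 p)) (fun o' =>
          ih (NP.cons e' o' acc)))) par) (Nat.sub c 1)) row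

/-- rows for the parts `3, ..., k + 2`, sizes `0, ..., M` -/
noncomputable def rowP (w M : ℕ) (k : ℕ) : NP :=
  Nat.rec (motive := fun _ => NP) (NP.cons 1 0 (zeroP M))
    (fun j ih => revP (updP (Nat.add 1 (Nat.pow 2 (Nat.mul w (Nat.add j 3)))) (Nat.add j 3)
      (Nat.mod (Nat.add j 2) 2) ih NP.nil) NP.nil) k

/-- `H_i, H_(i+1), ...`, `H_i = R_(m-2i) + Y2 * H_(i+1)`; the list `l` is `R_m, R_(m-1), ...` -/
noncomputable def hlP (Y2 : ℕ) (l : NP) : ℕ → ℕ → NL :=
  NP.rec (motive := fun _ => ℕ → ℕ → NL) (fun _ _ => NL.nil)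
    (fun e o _ ih sk par => Nat.rec (motive := fun _ => NL)
      (Nat.rec (motive := fun _ => NL)
        (NL.rec (motive := fun _ => NL) (NL.cons e NL.nil)
          (fun h t _ => frc (Nat.add e (Nat.mul Y2 h)) (fun x => NL.cons x (NL.cons h t))) (ih 1 1))
        (fun _ _ => NL.rec (motive := fun _ => NL) (NL.cons o NL.nil)
          (fun h t _ => frc (Nat.add o (Nat.mul Y2 h)) (fun x => NL.cons x (NL.cons h t))) (ih 1 0))
        par)
      (fun _ _ => ih 0 par) sk) l

/-- sum of the digits `lo, ..., lo + n - 1` in base `2^w` -/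
noncomputable def dsum (w S lo n : ℕ) : ℕ :=
  Nat.mod (Nat.mod (Nat.shiftRight S (Nat.mul w lo)) (Nat.pow 2 (Nat.mul w n)))
    (Nat.sub (Nat.pow 2 w) 1)

/-- zero iff the digit sums of `S` up to `k` are at most the data, `k = k0, k0+1, ..` -/
noncomputable def ckTS (w S : ℕ) (d : NL) : ℕ → ℕ :=
  NL.rec (motive := fun _ => ℕ → ℕ) (fun _ => 0)
    (fun v _ ih k => Nat.add (Nat.sub (dsum w S 0 (Nat.succ k)) v) (ih (Nat.succ k))) d

/-- beyond the list `H` the value is `0` (no type with that many parts `2`) -/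
noncomputable def ckTN (w Y2 : ℕ) (H : NL) (d : RL) : ℕ → ℕ :=
  RL.rec (motive := fun _ => ℕ → ℕ) (fun _ => 0)
    (fun t tn _ _ _ _ ih a => Nat.add
      (Nat.sub (dsum w (Nat.mul (Nat.pow Y2 t) (NL.gt H t)) a a) tn) (ih (Nat.succ a))) d

/-- main loop over `m`; `acc` = `R_(m-1), ..., R_0`; `sk` = number of sizes without data -/
noncomputable def ckP (w Y2 : ℕ) (row : NP) : ℕ → MD → NP → ℕ :=
  NP.rec (motive := fun _ => ℕ → MD → NP → ℕ) (fun _ _ _ => 0)
    (fun e o _ ih sk d acc => Nat.rec (motive := fun _ => ℕ)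
      (MD.rec (motive := fun _ => ℕ) 0
        (fun a0 ts rl _ d' _ => Nat.add
          (NL.rec (motive := fun _ => ℕ) 1 (fun h t _ =>
            Nat.add (ckTS w h ts 0) (ckTN w Y2 (NL.cons h t) rl a0)) (hlP Y2 (NP.cons e o acc) 0 0))
          (ih 0 d' (NP.cons e o acc))) d)
      (fun s _ => ih s d (NP.cons e o acc)) sk) row

/-- check of `TS` and `TN` -/
noncomputable def ckPall (w M : ℕ) (d : MD) : ℕ :=
  ckP w (Nat.add 1 (Nat.pow 2 (Nat.mul w 2))) (rowP w M (Nat.sub M 2)) 25 d NP.nil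

/-! ### sums of square roots -/

/-- sum of the entries -/
noncomputable def NL.tot (l : NL) : ℕ :=
  NL.rec (motive := fun _ => ℕ) 0 (fun x _ ih => Nat.add x ih) l

/-- number of entries -/
noncomputable def NL.len (l : NL) : ℕ := NL.rec (motive := fun _ => ℕ) 0 (fun _ _ ih => Nat.succ ih) l

noncomputable def LL.len (l : LL) : ℕ := LL.rec (motive := fun _ => ℕ) 0 (fun _ _ ih => Nat.succ ih) l

/-- packing of a list, `x_0 + x_1 2^sh + x_2 2^(2 sh) + ...`: entries of even index to `P`, those of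
odd index to `Q` if `par = 1`, otherwise also to `P`; `pos` = current shift, `sg` = parity -/
noncomputable def pkS {α : Type} (sh par : ℕ) (k : ℕ → ℕ → α) (ss : NL) : ℕ → ℕ → ℕ → ℕ → α :=
  NL.rec (motive := fun _ => ℕ → ℕ → ℕ → ℕ → α) (fun _ _ P Q => k P Q)
    (fun s _ ih pos sg P Q => Nat.rec (motive := fun _ => α)
      (frc (Nat.add P (Nat.shiftLeft s pos)) (fun P' => ih (Nat.add pos sh) par P' Q))
      (fun _ _ => frc (Nat.add Q (Nat.shiftLeft s pos)) (fun Q' => ih (Nat.add pos sh)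
        (Nat.sub 1 par) P Q')) sg) ss

/-- packed rows `E`, `O` (slots of `W` bits for the sizes `0, ..., M`) after the parts `c, c+1, ...`
with the lists `sl`; `B` = product of the sums of the lists -/
noncomputable def rowZ {α : Type} (W M : ℕ) (k : ℕ → ℕ → ℕ → α) (sl : LL) : ℕ → ℕ → ℕ → ℕ → α :=
  LL.rec (motive := fun _ => ℕ → ℕ → ℕ → ℕ → α) (fun _ E O B => k E O B)
    (fun ss _ ih c E O B => pkS (Nat.mul W c) (Nat.mod (Nat.sub c 1) 2) (fun P Q =>
      frc (Nat.mod (Nat.add (Nat.mul E P) (Nat.mul O Q)) (Nat.pow 2 (Nat.mul W (Nat.succ M)))) (fun E' =>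
      frc (Nat.mod (Nat.add (Nat.mul O P) (Nat.mul E Q)) (Nat.pow 2 (Nat.mul W (Nat.succ M)))) (fun O' =>
      frc (Nat.mul B (NL.tot ss)) (fun B' => frc (Nat.succ c) (fun c' => ih c' E' O' B')))))
      ss 0 0 0 0) sl

/-- zero iff `s_i^2 ≥ c^i i! 4^b` for the entries `s_i, s_(i+1), ...` (`f = c^i i!`) -/
noncomputable def ckS (b c : ℕ) (ss : NL) : ℕ → ℕ → ℕ :=
  NL.rec (motive := fun _ => ℕ → ℕ → ℕ) (fun _ _ => 0)
    (fun s _ ih i f => Nat.add (Nat.sub (Nat.mul f (Nat.pow 4 b)) (Nat.mul s s))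
      (frc (Nat.mul f (Nat.mul c (Nat.succ i))) (fun f' => ih (Nat.succ i) f'))) ss

/-- check of all the lists: first entry `2^b`, at least `M / c + 1` entries -/
noncomputable def ckSL (b M : ℕ) (sl : LL) : ℕ → ℕ :=
  LL.rec (motive := fun _ => ℕ → ℕ) (fun _ => 0)
    (fun ss _ ih c => Nat.add (Nat.add (ckS b c ss 0 1)
      (Nat.add (Nat.add (Nat.sub (NL.gt ss 0) (Nat.pow 2 b)) (Nat.sub (Nat.pow 2 b) (NL.gt ss 0)))
        (Nat.sub (Nat.succ (Nat.div M c)) (NL.len ss))))
      (ih (Nat.succ c))) sl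

/-- slot `t` -/
noncomputable def slot (W E t : ℕ) : ℕ :=
  Nat.mod (Nat.shiftRight E (Nat.mul W t)) (Nat.pow 2 W)

/-- reversed list of the partial sums `P_i = ∑_(i' < i) s2_(i') Z_(m-2i')` (parity of `i'`), for
`i = 0, ..., m/2 + 1`; `rm = m - 2i` -/
noncomputable def pfZ (W E O : ℕ) (s2 : NL) : ℕ → ℕ → ℕ → ℕ → NL → NL :=
  NL.rec (motive := fun _ => ℕ → ℕ → ℕ → ℕ → NL → NL) (fun _ _ _ _ acc => acc)
    (fun s _ ih fuel rm sg x acc => Nat.rec (motive := fun _ => NL) acc
      (fun fuel' _ => Nat.rec (motive := fun _ => NL)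
        (frc (Nat.add x (Nat.mul s (slot W E rm))) (fun x' => ih fuel' (Nat.sub rm 2) 1 x'
          (NL.cons x' acc)))
        (fun _ _ => frc (Nat.add x (Nat.mul s (slot W O rm))) (fun x' => ih fuel' (Nat.sub rm 2) 0 x'
          (NL.cons x' acc))) sg) fuel) s2

/-- zero iff `P_t 2^40 ≤ tz 2^sc` for all entries; `P` = reversed list, `h = m/2 + 1` -/
noncomputable def ckTZ (sc h : ℕ) (P : NL) (d : RL) : ℕ :=
  RL.rec (motive := fun _ => ℕ) 0
    (fun t _ tz _ _ _ ih => Nat.add (Nat.sub (Nat.mul (NL.gt P (Nat.sub h t)) (Nat.pow 2 40))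
      (Nat.mul tz (Nat.pow 2 sc))) ih) d

noncomputable def ckZ (W E O sc : ℕ) (s2 : NL) (d : MD) : ℕ → ℕ :=
  MD.rec (motive := fun _ => ℕ → ℕ) (fun _ => 0)
    (fun _ _ rl _ _ ih m => Nat.add
      (ckTZ sc (Nat.succ (Nat.div m 2)) (pfZ W E O s2 (Nat.succ (Nat.div m 2)) m 0 0
        (NL.cons 0 NL.nil)) rl) (ih (Nat.succ m))) d

/-- check of `TZ`; `sl` has `M - 2` entries (parts `3, ..., M`), `s2` is the list for `c = 2` -/
noncomputable def ckZall (W b M : ℕ) (s2 : NL) (sl : LL) (d : MD) : ℕ :=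
  Nat.add (Nat.add (ckSL b M (LL.cons s2 sl) 2)
    (Nat.add (Nat.sub (Nat.sub M 2) (LL.len sl)) (Nat.sub (LL.len sl) (Nat.sub M 2))))
    (rowZ W M (fun E O B => Nat.add (Nat.sub (Nat.succ B) (Nat.pow 2 W))
      (ckZ W E O (Nat.mul b (Nat.sub M 1)) s2 d 25)) sl 3 1 0 1)

/-! ### dimensions -/

/-- binomial coefficient -/
noncomputable def bin (n k : ℕ) : ℕ :=
  Nat.rec (motive := fun _ => ℕ) 1 (fun j ih => Nat.div (Nat.mul ih (Nat.sub n j)) (Nat.succ j)) k

noncomputable def lln (m a : ℕ) : ℕ :=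
  Nat.mul (Nat.succ (Nat.add a (Nat.div (Nat.sub m a) a)))
    (bin (Nat.add a (Nat.div (Nat.sub m a) a)) (Nat.div (Nat.sub m a) a))

noncomputable def lld (m a : ℕ) : ℕ :=
  Nat.mul (bin m a) (Nat.sub (Nat.succ (Nat.add a (Nat.div (Nat.sub m a) a)))
    (Nat.mod (Nat.sub m a) a))

/-- row of the dimension table for `m ≥ 1`: entries `G m A`, `A = A0, A0+1, ...`;
`prev` = `G m (A0-1)`; `rest` = rows `m-1, m-2, ...`.  Zero iff the entries decrease and the
condition holds for `a = A` whenever `A ≤ m ≤ A^2`. -/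
noncomputable def ckGr (m : ℕ) (rest : LL) (row : NL) : ℕ → ℕ → ℕ :=
  NL.rec (motive := fun _ => ℕ → ℕ → ℕ) (fun _ _ => 0)
    (fun g _ ih A prev => Nat.add (Nat.add (Nat.sub g prev)
      (Nat.rec (motive := fun _ => ℕ)
        (Nat.rec (motive := fun _ => ℕ)
          (Nat.sub (Nat.mul (lln m A) g) (Nat.mul (lld m A) (NL.gt (LL.gt rest (Nat.sub A 1)) A)))
          (fun _ _ => 0) (Nat.sub A m))
        (fun _ _ => 0) (Nat.sub m (Nat.mul A A))))
      (ih (Nat.succ A) g)) row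

/-- the table is the list of the rows `m, m-1, ..., 0`; row `m` is `G m 0, G m 1, ...` -/
noncomputable def ckG (T : LL) : ℕ → ℕ :=
  LL.rec (motive := fun _ => ℕ → ℕ)
    (fun m => Nat.succ m)
    (fun row rest ih m => Nat.rec (motive := fun _ => ℕ)
      (NL.rec (motive := fun _ => ℕ) 0 (fun g _ ih' => Nat.add (Nat.sub g 1) ih') row)
      (fun m' _ => Nat.add (NL.rec (motive := fun _ => ℕ) 0
        (fun g _ _ => ckGr (Nat.succ m') rest row 0 g) row) (ih m')) m) T

/-! ### the bounds for the classes without fixed points -/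

/-- `Dl n k` -/
noncomputable def dl (n k : ℕ) : ℕ :=
  Nat.rec (motive := fun _ => ℕ) 1 (fun j _ => Nat.sub (bin n (Nat.succ j)) (bin n j)) k

/-- entries for `a, a+1, ...`; `T` = rows `M, M-1, ..., 0` of the dimension table; at the end
`a = (m+1)/2` and the sum of the `u + v` is at most `last` -/
noncomputable def ckWa (M m last : ℕ) (T : LL) (d : RL) : ℕ → ℕ → ℕ :=
  RL.rec (motive := fun _ => ℕ → ℕ → ℕ)
    (fun a acc => Nat.add (Nat.sub acc last) (Nat.sub (Nat.div (Nat.succ m) 2) a))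
    (fun _ tn tz u v _ ih a acc => Nat.add (Nat.add
      (Nat.sub (Nat.mul tz (lln m a)) (Nat.mul u (Nat.mul (lld m a)
        (NL.gt (LL.gt T (Nat.add (Nat.sub M m) a)) a))))
      (Nat.sub (Nat.mul (Nat.mul tn (Nat.pow 2 40)) (lln m a)) (Nat.mul v (lld m a))))
      (ih (Nat.succ a) (Nat.add acc (Nat.add u v)))) d

/-- `W_k Dl ≥ W_(k+1) Dl + TS_k 2^40` for `k, k+1, ...` as long as the list `W` has two entries -/
noncomputable def ckWk (m : ℕ) (W : NL) : NL → ℕ → ℕ :=
  NL.rec (motive := fun _ => NL → ℕ → ℕ) (fun _ _ => 0)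
    (fun x Wr ih ts k => NL.rec (motive := fun _ => ℕ) 0
      (fun y _ _ => NL.rec (motive := fun _ => ℕ) 1
        (fun s ts' _ => Nat.add (Nat.sub (Nat.add (Nat.mul y (dl m k)) (Nat.mul s (Nat.pow 2 40)))
          (Nat.mul x (dl m k))) (ih ts' (Nat.succ k))) ts) Wr) W

/-- all `m` (the first data entry is for `m = m0`); the list `W` must have `m/2 + 1` entries; the
list `ts` starts with `TS m 0` -/
noncomputable def ckW (M : ℕ) (T : LL) (d : MD) : ℕ → ℕ :=
  MD.rec (motive := fun _ => ℕ → ℕ) (fun _ => 0)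
    (fun a0 ts rl W _ ih m => Nat.add
      (Nat.add (Nat.add (Nat.sub (Nat.succ (Nat.mul (Nat.sub a0 1) (Nat.sub a0 1))) m)
        (Nat.add (Nat.sub (Nat.succ (Nat.div m 2)) (NL.len W))
          (Nat.sub (NL.len W) (Nat.succ (Nat.div m 2)))))
        (Nat.add (ckWa M m (NL.gt W (Nat.div m 2)) T rl a0 0)
          (NL.rec (motive := fun _ => ℕ) 1 (fun _ ts' _ => ckWk m W ts' 1) ts)))
      (ih (Nat.succ m))) d

/-! ### the recursion for the sums -/

/-- row `n+1` of the table (entries `K, K+1, ...`) against row `n` (`x` = entry `K-1`, `old` =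
entries `K, ...`), `W` = entries `W (n+1) K, ...` -/
noncomputable def ckFr (n : ℕ) (new : NL) : ℕ → NL → NL → ℕ → ℕ :=
  NL.rec (motive := fun _ => ℕ → NL → NL → ℕ → ℕ) (fun _ _ _ _ => 0)
    (fun g _ ih x old W K => NL.rec (motive := fun _ => ℕ) 1
      (fun wk W' _ => NL.rec (motive := fun _ => ℕ)
        (Nat.add (Nat.sub (Nat.add (Nat.mul (dl (Nat.sub n 1) (Nat.sub K 1)) x)
            (Nat.add (dl (Nat.sub n 1) K) (Nat.mul (dl n K) wk))) (Nat.mul (dl n K) g))
          (ih 0 NL.nil W' (Nat.succ K)))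
        (fun y old' _ => Nat.add (Nat.sub (Nat.add (Nat.mul (dl (Nat.sub n 1) (Nat.sub K 1)) x)
            (Nat.add (Nat.mul (dl (Nat.sub n 1) K) y) (Nat.mul (dl n K) wk))) (Nat.mul (dl n K) g))
          (ih y old' W' (Nat.succ K))) old) W) new

/-- the table `F`: rows `n, n+1, ...`; `old` = row `n`; `d` = data for `m = n+1, ...`; the row for
`n + 1` must have `n/2 + 1` entries -/
noncomputable def ckF (F : LL) : NL → MD → ℕ → ℕ :=
  LL.rec (motive := fun _ => NL → MD → ℕ → ℕ) (fun _ _ _ => 0)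
    (fun new _ ih old d n => MD.rec (motive := fun _ => ℕ) 1
      (fun _ _ _ W d' _ => Nat.add (Nat.add
        (Nat.add (Nat.sub (NL.len new) (Nat.succ (Nat.div n 2)))
          (Nat.sub (Nat.succ (Nat.div n 2)) (NL.len new)))
        (NL.rec (motive := fun _ => ℕ) 1 (fun g0 new' _ =>
          NL.rec (motive := fun _ => ℕ) 1 (fun x old' _ =>
            Nat.add (Nat.sub (Nat.add x (NL.gt W 0)) g0) (ckFr n new' x old' W 1)) old) new))
        (ih new d' (Nat.succ n))) d) F

/-- drop entries -/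
noncomputable def MD.drop (d : MD) : ℕ → MD :=
  MD.rec (motive := fun _ => ℕ → MD) (fun _ => MD.nil)
    (fun a0 ts rl W d' ih k => Nat.rec (motive := fun _ => MD) (MD.cons a0 ts rl W d')
      (fun j _ => ih j) k) d

end Pool.MP322F
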