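import Pool.Agent.Lib.MP_322c5f_alF.FE01
import Pool.Agent.Lib.MP_322c5f_alF.FE03
import Pool.Agent.Lib.MP_322c5f_alF.FE05
import Pool.Agent.Lib.MP_322c5f_alF.FK00

/-!
# The table of the numbers `uC n j` and `sC n`

`URow L n u`: the slots (64 bits) of `u` are bounds of `2^40 uC n j / n!`; `uNx` computes the next
row (`uC_rec`), `sNx` the next but one bound of `2^40 sC n / n!` (`sC_two`).  `ckUS` runs through
`n, n+1, ...` and compares with a list of pairs `(c, B)`: `uC n c + sC n ≤ (B/1000) n!`.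

All functions are written with recursors, do not change them.
-/

set_option autoImplicit false

open Finset Equiv Nat

namespace Pool.MP322F

open Pool.MP322

/-- slot `i`; the lowest 64 bits of `u` are a tag (the number `n`: the hash value of a numeral
depends on the low bits only, so that the numerals of different rows must differ there) -/
noncomputable def usl (u i : ℕ) : ℕ :=
  Nat.mod (Nat.shiftRight u (Nat.mul 64 (Nat.succ i))) (Nat.pow 2 64)

/-- minimum with `2^40` -/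
noncomputable def cap40 (x : ℕ) : ℕ := frc x (fun x => Nat.sub x (Nat.sub x (Nat.pow 2 40)))

/-- next row, slots `0, ..., L-1`; `y` is the value of slot `L` of the old row -/
noncomputable def uNxa (n u : ℕ) (L : ℕ) : ℕ → ℕ :=
  Nat.rec (motive := fun _ => ℕ → ℕ) (fun _ => Nat.mod (Nat.succ n) (Nat.pow 2 64))
    (fun j ih y => frc (usl u j) (fun x => Nat.add
      (Nat.shiftLeft (cap40 (Nat.div (Nat.add (Nat.add (Nat.mul (Nat.succ j) x)
        (Nat.mul (Nat.mul (Nat.succ j) (Nat.succ j)) y)) n) (Nat.succ n)))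
          (Nat.mul 64 (Nat.succ j))) (ih x))) L

noncomputable def uNx (L n u : ℕ) : ℕ := uNxa n u L (Nat.pow 2 40)

/-- the maximal number of corners for `n + 1`, given the one for `n` -/
noncomputable def mNx (n k : ℕ) : ℕ :=
  Nat.add k (Nat.sub 1 (Nat.sub (Nat.mul (Nat.add k 1) (Nat.add k 2)) (Nat.mul 2 (Nat.succ n))))

/-- bound for `n + 2` -/
noncomputable def sNx (n s k : ℕ) : ℕ :=
  frc (mNx n k) (fun k1 => frc (mNx (Nat.succ n) k1) (fun k2 =>
    Nat.div (Nat.add (Nat.mul (Nat.mul k2 k1)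
      (Nat.add (Nat.mul 2 (Nat.pow 2 40)) (Nat.mul (Nat.sub k 1) s)))
        (Nat.mul (Nat.add n 1) (Nat.add n 2))) (Nat.mul (Nat.add n 1) (Nat.add n 2))))

noncomputable def ckUS (L : ℕ) (spec : NP) : ℕ → ℕ → ℕ → ℕ → ℕ → ℕ :=
  NP.rec (motive := fun _ => ℕ → ℕ → ℕ → ℕ → ℕ → ℕ) (fun _ _ _ _ _ => 0)
    (fun c B _ ih n u s0 s1 k => Nat.add
      (Nat.add (Nat.add (Nat.sub 1 c) (Nat.sub c L))
        (Nat.sub (Nat.mul 1000 (Nat.add (usl u (Nat.sub c 1)) s0)) (Nat.mul B (Nat.pow 2 40))))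
      (frc (uNx L n u) (fun u' => frc (sNx n s0 k) (fun s2 => frc (mNx n k) (fun k' =>
        frc (Nat.add n 1) (fun n' => ih n' u' s1 s2 k')))))) spec

/-- check of the start row: slots of `E` (128 bits) = numbers of pairs with `i` corners -/
noncomputable def ckU0 (N E u L : ℕ) : ℕ :=
  Nat.rec (motive := fun _ => ℕ) 0
    (fun j ih => Nat.add (Nat.sub (Nat.mul (Nat.rec (motive := fun _ => ℕ) (Nat.mod E (Nat.pow 2 128))
      (fun i s => Nat.add s (Nat.mod (Nat.shiftRight E (Nat.mul 128 (Nat.succ i))) (Nat.pow 2 128)))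
        (Nat.succ j)) (Nat.pow 2 40)) (Nat.mul (usl u j) N)) ih) L

def URow (L n u : ℕ) : Prop :=
  ∀ j, 1 ≤ j → j ≤ L → uC n j * 2 ^ 40 ≤ (usl u (j - 1) : ℝ) * (n ! : ℝ)

def SRow (n s : ℕ) : Prop := sC n * 2 ^ 40 ≤ (s : ℝ) * (n ! : ℝ)

noncomputable def NP.len (l : NP) : ℕ :=
  NP.rec (motive := fun _ => ℕ) 0 (fun _ _ _ ih => Nat.succ ih) l

private theorem frcE {α : Type} (v : ℕ) (k : ℕ → α) : frc v k = k v := by
  cases v <;> rfl

private theorem usl_eq (u i : ℕ) : usl u i = u / 2 ^ (64 * (i + 1)) % 2 ^ 64 := by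
  show (u >>> (64 * (i + 1))) % 2 ^ 64 = _
  rw [Nat.shiftRight_eq_div_pow]

private theorem capG (x P : ℕ) : Nat.sub x (Nat.sub x P) = min x P := by
  show x - (x - P) = min x P
  omega

private theorem cap40_eq (x : ℕ) : cap40 x = min x (2 ^ 40) := by
  unfold cap40
  rw [frcE]
  exact capG x _

private noncomputable def psumG (P E : ℕ) (m : ℕ) : ℕ :=
  Nat.rec (motive := fun _ => ℕ) (Nat.mod E P)
      (fun i s => Nat.add s (Nat.mod (Nat.shiftRight E (Nat.mul 128 (Nat.succ i))) P)) m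

private theorem psumG_eq (P E m : ℕ) :
    psumG P E m = ∑ i ∈ Finset.range (m + 1), ((E >>> (128 * i)) % P) := by
  induction m with
  | zero =>
    rw [Finset.sum_range_one]
    show E % P = _
    rw [Nat.mul_zero, Nat.shiftRight_zero]
  | succ m ih =>
    rw [Finset.sum_range_succ, ← ih]
    rfl

private noncomputable def psum (E : ℕ) (m : ℕ) : ℕ := psumG (Nat.pow 2 128) E m

private theorem psum_eq (E m : ℕ) :
    psum E m = ∑ i ∈ Finset.range (m + 1), ((E >>> (128 * i)) % 2 ^ 128) := psumG_eq _ E m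

private theorem ckU0_succ (N E u L : ℕ) : ckU0 N E u (L + 1) =
    (psum E (L + 1) * 2 ^ 40 - usl u L * N) + ckU0 N E u L := rfl

private theorem ckU0_all {N E u : ℕ} : ∀ {L : ℕ}, ckU0 N E u L = 0 → ∀ j, j < L →
    psum E (j + 1) * 2 ^ 40 ≤ usl u j * N := by
  intro L
  induction L with
  | zero => intro _ j hj; omega
  | succ L ih =>
    intro h j hj
    rw [ckU0_succ] at h
    rcases Nat.lt_succ_iff_lt_or_eq.1 hj with h1 | h1
    · exact ih (by omega) j h1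
    · subst h1
      omega

theorem URow_start {L n u N E : ℕ} (hN : n ! = N)
    (hE : ∀ j, uC n j = ∑ i ∈ Finset.range (j + 1), (((E >>> (128 * i)) % 2 ^ 128 : ℕ) : ℝ))
    (h : ckU0 N E u L = 0) : URow L n u := by
  intro j hj1 hj2
  obtain ⟨j, rfl⟩ : ∃ i, j = i + 1 := ⟨j - 1, by omega⟩
  have h1 := ckU0_all h j (by omega)
  rw [psum_eq] at h1
  rw [hE, hN, Nat.add_sub_cancel]
  have h2 : (((∑ i ∈ Finset.range (j + 1 + 1), ((E >>> (128 * i)) % 2 ^ 128)) * 2 ^ 40 : ℕ) : ℝ) ≤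
      ((usl u j * N : ℕ) : ℝ) := by
    exact_mod_cast h1
  rw [Nat.cast_mul, Nat.cast_mul, Nat.cast_sum, Nat.cast_pow, Nat.cast_ofNat] at h2
  exact h2

private theorem uNxa_succ (n u L y : ℕ) : uNxa n u (L + 1) y =
    (min (((L + 1) * usl u L + (L + 1) * (L + 1) * y + n) / (n + 1)) (2 ^ 40)) * 2 ^ (64 * (L + 1)) +
      uNxa n u L (usl u L) := by
  have h1 : uNxa n u (L + 1) y = frc (usl u L) (fun x => Nat.add
      (Nat.shiftLeft (cap40 (Nat.div (Nat.add (Nat.add (Nat.mul (Nat.succ L) x)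
        (Nat.mul (Nat.mul (Nat.succ L) (Nat.succ L)) y)) n) (Nat.succ n)))
          (Nat.mul 64 (Nat.succ L))) (uNxa n u L x)) := rfl
  rw [h1, frcE, cap40_eq]
  show (min (((L + 1) * usl u L + (L + 1) * (L + 1) * y + n) / (n + 1)) (2 ^ 40)) <<< (64 * (L + 1)) +
    uNxa n u L (usl u L) = _
  rw [Nat.shiftLeft_eq]

private theorem slot_bound {n j x y : ℕ} (hx : uC n (j + 1) * 2 ^ 40 ≤ (x : ℝ) * (n ! : ℝ))
    (hy : uC n (j + 2) * 2 ^ 40 ≤ (y : ℝ) * (n ! : ℝ)) :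
    uC (n + 1) (j + 1) * 2 ^ 40 ≤
      ((min (((j + 1) * x + (j + 1) * (j + 1) * y + n) / (n + 1)) (2 ^ 40) : ℕ) : ℝ) *
        ((n + 1)! : ℝ) := by
  have hf : (0 : ℝ) < ((n + 1)! : ℝ) := by exact_mod_cast Nat.factorial_pos _
  have hf0 : (0 : ℝ) < (n ! : ℝ) := by exact_mod_cast Nat.factorial_pos _
  rcases le_total (((j + 1) * x + (j + 1) * (j + 1) * y + n) / (n + 1)) (2 ^ 40) with h | h
  · rw [min_eq_left h]
    set A := (j + 1) * x + (j + 1) * (j + 1) * y with hA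
    have h1 : A ≤ (A + n) / (n + 1) * (n + 1) := by
      have h2 := Nat.div_add_mod (A + n) (n + 1)
      have h3 := Nat.mod_lt (A + n) (by omega : 0 < n + 1)
      rw [Nat.mul_comm] at h2
      omega
    have h4 : (A : ℝ) ≤ (((A + n) / (n + 1) : ℕ) : ℝ) * ((n : ℝ) + 1) := by
      have : (A : ℝ) ≤ (((A + n) / (n + 1) * (n + 1) : ℕ) : ℝ) := by exact_mod_cast h1
      push_cast at this ⊢
      exact this
    have h5 := uC_rec n (j + 1) (by omega)
    have h6 : ((n + 1)! : ℝ) = ((n : ℝ) + 1) * (n ! : ℝ) := by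
      rw [Nat.factorial_succ]; push_cast; ring
    have h7 : (A : ℝ) = ((j : ℝ) + 1) * x + ((j : ℝ) + 1) * ((j : ℝ) + 1) * y := by
      rw [hA]; push_cast; ring
    have hj : (0 : ℝ) ≤ (j : ℝ) + 1 := by positivity
    have h8 : uC (n + 1) (j + 1) * 2 ^ 40 ≤ (A : ℝ) * (n ! : ℝ) := by
      have e1 := mul_le_mul_of_nonneg_left hx hj
      have e2 := mul_le_mul_of_nonneg_left hy (mul_nonneg hj hj)
      have e3 := mul_le_mul_of_nonneg_right h5 (by positivity : (0 : ℝ) ≤ 2 ^ 40)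
      have e4 : ((((j + 1 : ℕ) : ℝ)) * uC n (j + 1) + (((j + 1 : ℕ) : ℝ)) ^ 2 * uC n (j + 1 + 1)) *
          2 ^ 40 = ((j : ℝ) + 1) * (uC n (j + 1) * 2 ^ 40) +
            ((j : ℝ) + 1) * ((j : ℝ) + 1) * (uC n (j + 2) * 2 ^ 40) := by
        push_cast
        ring
      rw [e4] at e3
      rw [h7]
      calc uC (n + 1) (j + 1) * 2 ^ 40 ≤ _ := e3
        _ ≤ ((j : ℝ) + 1) * ((x : ℝ) * (n ! : ℝ)) +
            ((j : ℝ) + 1) * ((j : ℝ) + 1) * ((y : ℝ) * (n ! : ℝ)) := add_le_add e1 e2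
        _ = _ := by ring
    rw [h6]
    calc uC (n + 1) (j + 1) * 2 ^ 40 ≤ (A : ℝ) * (n ! : ℝ) := h8
      _ ≤ ((((A + n) / (n + 1) : ℕ) : ℝ) * ((n : ℝ) + 1)) * (n ! : ℝ) :=
          mul_le_mul_of_nonneg_right h4 hf0.le
      _ = _ := by ring
  · rw [min_eq_right h]
    have h1 := uC_le (n + 1) (j + 1)
    have h2 : ((2 ^ 40 : ℕ) : ℝ) = 2 ^ 40 := by norm_num
    rw [h2, mul_comm]
    exact mul_le_mul_of_nonneg_left h1 (by positivity)

private theorem dig1 (P Q c v a : ℕ) (hP : 0 < P) :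
    (c * (P * (Q * a)) + v) / P % Q = v / P % Q := by
  have h : c * (P * (Q * a)) + v = v + P * (Q * (c * a)) := by ring
  rw [h, Nat.add_mul_div_left _ _ hP, Nat.add_mul_mod_self_left]

private theorem dig2 (P Q c v : ℕ) (hv : v < P) (hc : c < Q) : (c * P + v) / P % Q = c := by
  rw [Nat.add_comm, Nat.add_mul_div_right _ _ (by omega), Nat.div_eq_of_lt hv,
    Nat.zero_add, Nat.mod_eq_of_lt hc]

private theorem dig3 (P Q c v : ℕ) (hv : v < P) (hc : c < Q) : c * P + v < Q * P := by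
  have : (c + 1) * P ≤ Q * P := Nat.mul_le_mul_right _ hc
  nlinarith

private theorem uNxa_all {n u : ℕ} : ∀ {L : ℕ} {y : ℕ},
    (∀ j, 1 ≤ j → j ≤ L → uC n j * 2 ^ 40 ≤ (usl u (j - 1) : ℝ) * (n ! : ℝ)) →
    uC n (L + 1) * 2 ^ 40 ≤ (y : ℝ) * (n ! : ℝ) →
    uNxa n u L y < 2 ^ (64 * (L + 1)) ∧
    ∀ j, j < L → uC (n + 1) (j + 1) * 2 ^ 40 ≤ (usl (uNxa n u L y) j : ℝ) * ((n + 1)! : ℝ) := by
  intro L
  induction L with
  | zero =>
    intro y _ _
    refine ⟨?_, fun j hj => absurd hj (Nat.not_lt_zero j)⟩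
    show (n + 1) % 2 ^ 64 < 2 ^ (64 * (0 + 1))
    rw [Nat.zero_add, Nat.mul_one]
    exact Nat.mod_lt _ (by norm_num)
  | succ L ih =>
    intro y hL hy
    have hx : uC n (L + 1) * 2 ^ 40 ≤ (usl u L : ℝ) * (n ! : ℝ) := by
      have := hL (L + 1) (by omega) le_rfl
      rwa [Nat.add_sub_cancel] at this
    obtain ⟨i1, i2⟩ := ih (y := usl u L) (fun j h1 h2 => hL j h1 (by omega)) hx
    have hb := slot_bound hx hy
    rw [uNxa_succ]
    set c := min (((L + 1) * usl u L + (L + 1) * (L + 1) * y + n) / (n + 1)) (2 ^ 40) with hc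
    set v := uNxa n u L (usl u L) with hv
    have hcl : c ≤ 2 ^ 40 := min_le_right _ _
    have hc64 : c < 2 ^ 64 := lt_of_le_of_lt hcl (by norm_num)
    refine ⟨?_, ?_⟩
    · have hpow : 2 ^ (64 * (L + 1 + 1)) = 2 ^ 64 * 2 ^ (64 * (L + 1)) := by
        rw [← pow_add, Nat.mul_succ, Nat.add_comm]
      rw [hpow]
      exact dig3 _ _ _ _ i1 hc64
    · intro j hj
      rcases Nat.lt_succ_iff_lt_or_eq.1 hj with h1 | h1
      · have e1 : usl (c * 2 ^ (64 * (L + 1)) + v) j = usl v j := by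
          rw [usl_eq, usl_eq]
          have e2 : 2 ^ (64 * (L + 1)) =
              2 ^ (64 * (j + 1)) * (2 ^ 64 * 2 ^ (64 * (L - j - 1))) := by
            rw [← pow_add, ← pow_add]
            congr 1
            omega
          rw [e2]
          exact dig1 _ _ _ _ _ (Nat.pow_pos (by omega))
        rw [e1]
        exact i2 j h1
      · subst h1
        have e1 : usl (c * 2 ^ (64 * (j + 1)) + v) j = c := by
          rw [usl_eq]
          exact dig2 _ _ _ _ i1 hc64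
        rw [e1]
        exact hb

/-- `uC_rec`, `uC_le`; slots are below `2^64` -/
theorem uNx_sound {L n u : ℕ} (h : URow L n u) : URow L (n + 1) (uNx L n u) := by
  have h1 : uC n (L + 1) * 2 ^ 40 ≤ (((2 ^ 40 : ℕ) : ℕ) : ℝ) * (n ! : ℝ) := by
    have h2 : ((2 ^ 40 : ℕ) : ℝ) = 2 ^ 40 := by norm_num
    rw [h2, mul_comm]
    exact mul_le_mul_of_nonneg_left (uC_le n (L + 1)) (by positivity)
  obtain ⟨_, h3⟩ := uNxa_all h h1
  intro j hj1 hj2
  have h4 := h3 (j - 1) (by omega)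
  rw [Nat.sub_add_cancel hj1] at h4
  exact h4

private theorem mC_iff (n k : ℕ) : mC n = k ↔ k * (k + 1) ≤ 2 * n ∧ 2 * n < (k + 1) * (k + 2) := by
  have h1 : 1 ≤ Nat.sqrt (8 * n + 1) := by
    rw [Nat.le_sqrt]; omega
  have h2 : 2 * k + 1 ≤ Nat.sqrt (8 * n + 1) ↔ k * (k + 1) ≤ 2 * n := by
    rw [Nat.le_sqrt]
    constructor <;> intro h <;> nlinarith
  have h3 : Nat.sqrt (8 * n + 1) < 2 * k + 3 ↔ 2 * n < (k + 1) * (k + 2) := by
    rw [Nat.sqrt_lt]
    constructor <;> intro h <;> nlinarith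
  rw [← h2, ← h3]
  unfold mC
  omega

theorem mNx_eq {n k : ℕ} (h : mC n = k) : mC (n + 1) = mNx n k := by
  rw [mC_iff] at h
  obtain ⟨h1, h2⟩ := h
  have hev : ∃ t, (k + 1) * (k + 2) = 2 * t := by
    rcases Nat.even_or_odd k with ⟨t, ht⟩ | ⟨t, ht⟩
    · exact ⟨(k + 1) * (t + 1), by rw [ht]; ring⟩
    · exact ⟨(t + 1) * (k + 2), by rw [ht]; ring⟩
  obtain ⟨t, ht⟩ := hev
  have hm : mNx n k = k + (1 - ((k + 1) * (k + 2) - 2 * (n + 1))) := rfl
  rw [hm, mC_iff]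
  rcases le_or_gt ((k + 1) * (k + 2)) (2 * (n + 1)) with h3 | h3
  · have h4 : (k + 1) * (k + 2) - 2 * (n + 1) = 0 := by omega
    rw [h4]
    refine ⟨?_, ?_⟩
    · show (k + 1) * (k + 1 + 1) ≤ 2 * (n + 1)
      exact h3
    · show 2 * (n + 1) < (k + 1 + 1) * (k + 1 + 2)
      nlinarith
  · have h4 : 1 - ((k + 1) * (k + 2) - 2 * (n + 1)) = 0 := by omega
    rw [h4]
    refine ⟨?_, ?_⟩
    · show k * (k + 1) ≤ 2 * (n + 1)
      omega
    · exact h3

private theorem mNx_ge (n k : ℕ) : k ≤ mNx n k := by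
  show k ≤ k + (1 - ((k + 1) * (k + 2) - 2 * (n + 1)))
  omega

/-- `sC_two` -/
theorem sNx_sound {n s k : ℕ} (hk : mC n = k) (hk1 : 1 ≤ k) (h : SRow n s) :
    SRow (n + 2) (sNx n s k) := by
  have e1 : mC (n + 1) = mNx n k := mNx_eq hk
  have e2 : mC (n + 2) = mNx (n + 1) (mNx n k) := mNx_eq e1
  have e3 : sNx n s k = ((mNx (n + 1) (mNx n k) * mNx n k) * (2 * 2 ^ 40 + (k - 1) * s) +
      (n + 1) * (n + 2)) / ((n + 1) * (n + 2)) := by
    unfold sNx
    rw [frcE, frcE]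
    rfl
  unfold SRow at h ⊢
  have h1 := sC_two n
  rw [e2, e1, hk] at h1
  set k1 := mNx n k
  set k2 := mNx (n + 1) k1
  rw [e3]
  set M := (k2 * k1) * (2 * 2 ^ 40 + (k - 1) * s) with hM
  set D := (n + 1) * (n + 2) with hD
  have hDpos : 0 < D := by positivity
  have h2 : M ≤ (M + D) / D * D := by
    have h3 := Nat.div_add_mod (M + D) D
    have h4 := Nat.mod_lt (M + D) hDpos
    rw [Nat.mul_comm] at h3
    omega
  have h5 : (M : ℝ) ≤ (((M + D) / D : ℕ) : ℝ) * (D : ℝ) := by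
    exact_mod_cast h2
  have h6 : ((n + 2)! : ℝ) = (D : ℝ) * (n ! : ℝ) := by
    rw [Nat.factorial_succ, Nat.factorial_succ, hD]; push_cast; ring
  have h7 : (M : ℝ) = ((k2 : ℝ) * k1) * (2 * 2 ^ 40 + ((k : ℝ) - 1) * s) := by
    rw [hM]; push_cast [Nat.cast_sub hk1]; ring
  have hf0 : (0 : ℝ) < (n ! : ℝ) := by exact_mod_cast Nat.factorial_pos _
  have hk0 : (0 : ℝ) ≤ (k : ℝ) - 1 := by
    have : (1 : ℝ) ≤ (k : ℝ) := by exact_mod_cast hk1
    linarith
  have hkk : (0 : ℝ) ≤ (k2 : ℝ) * k1 := by positivity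
  have h8 : sC (n + 2) * 2 ^ 40 ≤ (M : ℝ) * (n ! : ℝ) := by
    have f1 := mul_le_mul_of_nonneg_right h1 (by positivity : (0 : ℝ) ≤ 2 ^ 40)
    have f2 := mul_le_mul_of_nonneg_left h hk0
    have f3 : 2 * (n ! : ℝ) * 2 ^ 40 + ((k : ℝ) - 1) * (sC n * 2 ^ 40) ≤
        2 * (n ! : ℝ) * 2 ^ 40 + ((k : ℝ) - 1) * ((s : ℝ) * (n ! : ℝ)) := by linarith
    have f4 := mul_le_mul_of_nonneg_left f3 hkk
    rw [h7]
    calc sC (n + 2) * 2 ^ 40 ≤ _ := f1
      _ = ((k2 : ℝ) * k1) * (2 * (n ! : ℝ) * 2 ^ 40 + ((k : ℝ) - 1) * (sC n * 2 ^ 40)) := by ring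
      _ ≤ _ := f4
      _ = _ := by ring
  rw [h6]
  calc sC (n + 2) * 2 ^ 40 ≤ (M : ℝ) * (n ! : ℝ) := h8
    _ ≤ ((((M + D) / D : ℕ) : ℝ) * (D : ℝ)) * (n ! : ℝ) := mul_le_mul_of_nonneg_right h5 hf0.le
    _ = _ := by ring

private theorem ckUS_cons (L c B : ℕ) (t : NP) (n u s0 s1 k : ℕ) :
    ckUS L (NP.cons c B t) n u s0 s1 k =
      (((1 - c) + (c - L)) + (1000 * (usl u (c - 1) + s0) - B * 2 ^ 40)) +
        ckUS L t (n + 1) (uNx L n u) s1 (sNx n s0 k) (mNx n k) := by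
  have h1 : ckUS L (NP.cons c B t) n u s0 s1 k = Nat.add
      (Nat.add (Nat.add (Nat.sub 1 c) (Nat.sub c L))
        (Nat.sub (Nat.mul 1000 (Nat.add (usl u (Nat.sub c 1)) s0)) (Nat.mul B (Nat.pow 2 40))))
      (frc (uNx L n u) (fun u' => frc (sNx n s0 k) (fun s2 => frc (mNx n k) (fun k' =>
        frc (Nat.add n 1) (fun n' => ckUS L t n' u' s1 s2 k'))))) := rfl
  rw [h1, frcE, frcE, frcE, frcE]
  rfl

/-- MAIN -/
theorem ckUS_sound {L : ℕ} (spec : NP) {n u s0 s1 k : ℕ} (hu : URow L n u) (h0 : SRow n s0)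
    (h1 : SRow (n + 1) s1) (hk : mC n = k) (hk1 : 1 ≤ k) (h : ckUS L spec n u s0 s1 k = 0)
    (i : ℕ) (hi : i < NP.len spec) :
    1 ≤ NP.gt spec (fun c _ => c) i ∧
    uC (n + i) (NP.gt spec (fun c _ => c) i) + sC (n + i) ≤
      ((NP.gt spec (fun _ B => B) i : ℕ) : ℝ) / 1000 * ((n + i)! : ℝ) := by
  induction spec generalizing n u s0 s1 k i with
  | nil => exact absurd hi (Nat.not_lt_zero i)
  | cons c B t ih =>
    rw [ckUS_cons] at h
    have a1 : 1 - c = 0 := by omega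
    have a2 : c - L = 0 := by omega
    have a3 : 1000 * (usl u (c - 1) + s0) - B * 2 ^ 40 = 0 := by omega
    have a4 : ckUS L t (n + 1) (uNx L n u) s1 (sNx n s0 k) (mNx n k) = 0 := by omega
    cases i with
    | zero =>
      show 1 ≤ c ∧ uC n c + sC n ≤ (B : ℝ) / 1000 * (n ! : ℝ)
      refine ⟨by omega, ?_⟩
      have b1 := hu c (by omega) (by omega)
      have b2 : sC n * 2 ^ 40 ≤ (s0 : ℝ) * (n ! : ℝ) := h0
      have b3 : 1000 * (usl u (c - 1) + s0) ≤ B * 2 ^ 40 := by omega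
      have b4 : (1000 : ℝ) * ((usl u (c - 1) : ℝ) + s0) ≤ (B : ℝ) * 2 ^ 40 := by
        exact_mod_cast b3
      have hf0 : (0 : ℝ) < (n ! : ℝ) := by exact_mod_cast Nat.factorial_pos _
      have b5 := mul_le_mul_of_nonneg_right b4 hf0.le
      have b6 : (uC n c + sC n) * 2 ^ 40 ≤ ((B : ℝ) / 1000 * (n ! : ℝ)) * 2 ^ 40 := by
        nlinarith
      exact le_of_mul_le_mul_right b6 (by positivity)
    | succ i =>
      have c1 : mC (n + 1) = mNx n k := mNx_eq hk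
      have c2 : 1 ≤ mNx n k := hk1.trans (mNx_ge n k)
      have c3 := ih (uNx_sound hu) h1 (sNx_sound hk hk1 h0) c1 c2 a4 i
        (Nat.lt_of_succ_lt_succ hi)
      have c4 : n + (i + 1) = n + 1 + i := by omega
      rw [c4]
      exact c3

/-- start bound (`sC_start`) -/
theorem SRow_start {n s : ℕ} (h : 2 * (2 ^ 40) ^ 2 ≤ s ^ 2 * (n + 1)) : SRow (n + 1) s := by
  unfold SRow
  have h1 := sC_start n
  have hf0 : (0 : ℝ) < (n ! : ℝ) := by exact_mod_cast Nat.factorial_pos _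
  have h2 : ((n + 1)! : ℝ) = ((n : ℝ) + 1) * (n ! : ℝ) := by
    rw [Nat.factorial_succ]; push_cast; ring
  have h3 : Real.sqrt (2 * ((n : ℝ) + 1)) * 2 ^ 40 ≤ (s : ℝ) * ((n : ℝ) + 1) := by
    have h4 : (2 : ℝ) * (2 ^ 40) ^ 2 ≤ (s : ℝ) ^ 2 * ((n : ℝ) + 1) := by exact_mod_cast h
    have h5 : (0 : ℝ) ≤ (s : ℝ) * ((n : ℝ) + 1) := by positivity
    have h6 : Real.sqrt (2 * ((n : ℝ) + 1)) * 2 ^ 40 =
        Real.sqrt (2 * ((n : ℝ) + 1) * (2 ^ 40) ^ 2) := by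
      rw [Real.sqrt_mul (by positivity : (0 : ℝ) ≤ 2 * ((n : ℝ) + 1)) ((2 ^ 40) ^ 2),
        Real.sqrt_sq (by positivity)]
    rw [h6]
    apply Real.sqrt_le_iff.2
    refine ⟨h5, ?_⟩
    have h7 : (0 : ℝ) ≤ (n : ℝ) + 1 := by positivity
    have h8 := mul_le_mul_of_nonneg_right h4 h7
    nlinarith
  rw [h2]
  calc sC (n + 1) * 2 ^ 40 ≤ ((n ! : ℝ) * Real.sqrt (2 * ((n : ℝ) + 1))) * 2 ^ 40 := by
        apply mul_le_mul_of_nonneg_right _ (by positivity)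
        exact h1
    _ = (Real.sqrt (2 * ((n : ℝ) + 1)) * 2 ^ 40) * (n ! : ℝ) := by ring
    _ ≤ ((s : ℝ) * ((n : ℝ) + 1)) * (n ! : ℝ) := mul_le_mul_of_nonneg_right h3 hf0.le
    _ = _ := by ring

end Pool.MP322F
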