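import Pool.Agent.Lib.MP_322c5f_alF.FE01

/-! job 322P-E6: number of corners for `n ≥ 2000`, the constant `0.88`. -/

set_option autoImplicit false

open Equiv Finset Nat

namespace Pool.MP322F

open Pool.MP322

private theorem fe06_poly (t : ℝ) (ht : 0 ≤ t) :
    100 * 484 ^ 6 * (((t + 39) * (t + 40)) * ((t + 40) * (t + 41)) * ((t + 41) * (t + 42)) * ((t + 42) * (t + 43)) * ((t + 43) * (t + 44)) * ((t + 44) * (t + 45))) ≤
      39 * ((625 * (t + 40) ^ 2) * (625 * (t + 40) ^ 2 - 484) * (625 * (t + 40) ^ 2 - 968) * (625 * (t + 40) ^ 2 - 1452) * (625 * (t + 40) ^ 2 - 1936) * (625 * (t + 40) ^ 2 - 2420)) := by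
  have h : 39 * ((625 * (t + 40) ^ 2) * (625 * (t + 40) ^ 2 - 484) * (625 * (t + 40) ^ 2 - 968) * (625 * (t + 40) ^ 2 - 1452) * (625 * (t + 40) ^ 2 - 1936) * (625 * (t + 40) ^ 2 - 2420)) -
      100 * 484 ^ 6 * (((t + 39) * (t + 40)) * ((t + 40) * (t + 41)) * ((t + 41) * (t + 42)) * ((t + 42) * (t + 43)) * ((t + 43) * (t + 44)) * ((t + 44) * (t + 45))) =
      401841385499017452035787625267200000 + 662280371580917032716939130552320000 * t ^ 1 + 162282670139999722846190420167680000 * t ^ 2 + 19196074596710986716447774445977600 * t ^ 3 + 1384639555251208594908047916838400 * t ^ 4 + 67032173324448976026617570688000 * t ^ 5 + 2279408731653877377634610728000 * t ^ 6 + 55476283420990793353032268800 * t ^ 7 + 965661254790783853767313200 * t ^ 8 + 11776728328882351719192000 * t ^ 9 + 95810108581645624589500 * t ^ 10 + 467906817590432013600 * t ^ 11 + 1039080883135312775 * t ^ 12 := by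
    ring
  have h2 : (0 : ℝ) ≤ 401841385499017452035787625267200000 + 662280371580917032716939130552320000 * t ^ 1 + 162282670139999722846190420167680000 * t ^ 2 + 19196074596710986716447774445977600 * t ^ 3 + 1384639555251208594908047916838400 * t ^ 4 + 67032173324448976026617570688000 * t ^ 5 + 2279408731653877377634610728000 * t ^ 6 + 55476283420990793353032268800 * t ^ 7 + 965661254790783853767313200 * t ^ 8 + 11776728328882351719192000 * t ^ 9 + 95810108581645624589500 * t ^ 10 + 467906817590432013600 * t ^ 11 + 1039080883135312775 * t ^ 12 := by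
    positivity
  linarith

private theorem fe06_mono {X Y : ℝ} (hX : 2420 ≤ X) (h : X ≤ Y) :
    X * (X - 484) * (X - 968) * (X - 1452) * (X - 1936) * (X - 2420) ≤
      Y * (Y - 484) * (Y - 968) * (Y - 1452) * (Y - 1936) * (Y - 2420) := by
  have h0 : 0 ≤ X := by linarith
  have h1 : 0 ≤ X - 484 := by linarith
  have h2 : 0 ≤ X - 968 := by linarith
  have h3 : 0 ≤ X - 1452 := by linarith
  have h4 : 0 ≤ X - 1936 := by linarith
  have h5 : 0 ≤ X - 2420 := by linarith
  have g0 : 0 ≤ Y := by linarith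
  have g1 : 0 ≤ Y - 484 := by linarith
  have g2 : 0 ≤ Y - 968 := by linarith
  have g3 : 0 ≤ Y - 1452 := by linarith
  have g4 : 0 ≤ Y - 1936 := by linarith
  have e1 := mul_le_mul h (sub_le_sub_right h 484) h1 g0
  have e2 := mul_le_mul e1 (sub_le_sub_right h 968) h2 (by positivity)
  have e3 := mul_le_mul e2 (sub_le_sub_right h 1452) h3 (by positivity)
  have e4 := mul_le_mul e3 (sub_le_sub_right h 1936) h4 (by positivity)
  exact mul_le_mul e4 (sub_le_sub_right h 2420) h5 (by positivity)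

private theorem fe06_core (N j : ℕ) (hj1 : 1 ≤ j)
    (h : 100 * ((((j : ℝ) + 0) * (j + 0 + 1)) * ((j + 1) * (j + 1 + 1)) *
      ((j + 2) * (j + 2 + 1)) * ((j + 3) * (j + 3 + 1)) * ((j + 4) * (j + 4 + 1)) *
      ((j + 5) * (j + 5 + 1))) ≤
      39 * (((N : ℝ) + 6) * (N + 5) * (N + 4) * (N + 3) * (N + 2) * (N + 1))) :
    uC (N + 6) j ≤ (39 / 100) * ((N + 6) ! : ℝ) := by
  have h1 := uC_prod N j 6 hj1
  simp only [Finset.prod_range_succ, Finset.prod_range_zero, one_mul, Nat.cast_zero,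
    Nat.cast_one, Nat.cast_ofNat] at h1
  have h2 : ((N + 6) ! : ℝ) =
      (((N : ℝ) + 6) * (N + 5) * (N + 4) * (N + 3) * (N + 2) * (N + 1)) * (N ! : ℝ) := by
    have h3 : (N + 6) ! = ((N + 6) * (N + 5) * (N + 4) * (N + 3) * (N + 2) * (N + 1)) * N ! := by
      rw [Nat.factorial_succ (N + 5), Nat.factorial_succ (N + 4), Nat.factorial_succ (N + 3),
        Nat.factorial_succ (N + 2), Nat.factorial_succ (N + 1), Nat.factorial_succ N]
      ring
    rw [h3]
    push_cast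
    ring
  have h4 : (0 : ℝ) ≤ (N ! : ℝ) := by positivity
  rw [h2]
  have h5 := mul_le_mul_of_nonneg_right h h4
  refine h1.trans ?_
  linarith

private theorem fe06_large38 (n : ℕ) (hn : 2000 ≤ n) : uC n 38 ≤ (39 / 100) * (n ! : ℝ) := by
  obtain ⟨N, rfl⟩ := Nat.exists_eq_add_of_le' (le_trans (by norm_num : 6 ≤ 2000) hn)
  refine fe06_core N 38 (by norm_num) ?_
  have hN : (1994 : ℝ) ≤ (N : ℝ) := by
    have : 1994 ≤ N := by omega
    exact_mod_cast this
  have h1 : (2000 : ℝ) * 1999 * 1998 * 1997 * 1996 * 1995 ≤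
      ((N : ℝ) + 6) * (N + 5) * (N + 4) * (N + 3) * (N + 2) * (N + 1) := by
    have e1 : (2000 : ℝ) * 1999 ≤ ((N : ℝ) + 6) * (N + 5) :=
      mul_le_mul (by linarith) (by linarith) (by norm_num) (by positivity)
    have e2 : (2000 : ℝ) * 1999 * 1998 ≤ ((N : ℝ) + 6) * (N + 5) * (N + 4) :=
      mul_le_mul e1 (by linarith) (by norm_num) (by positivity)
    have e3 : (2000 : ℝ) * 1999 * 1998 * 1997 ≤ ((N : ℝ) + 6) * (N + 5) * (N + 4) * (N + 3) :=
      mul_le_mul e2 (by linarith) (by norm_num) (by positivity)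
    have e4 : (2000 : ℝ) * 1999 * 1998 * 1997 * 1996 ≤
        ((N : ℝ) + 6) * (N + 5) * (N + 4) * (N + 3) * (N + 2) :=
      mul_le_mul e3 (by linarith) (by norm_num) (by positivity)
    exact mul_le_mul e4 (by linarith) (by norm_num) (by positivity)
  refine le_trans ?_ (mul_le_mul_of_nonneg_left h1 (show (0 : ℝ) ≤ 39 by norm_num))
  norm_num

private theorem fe06_aux (n j : ℕ) (hn : 2000 ≤ n) (hj2 : 39 ≤ j)
    (hj : 625 * (j + 1) ^ 2 ≤ 484 * n) :
    uC n j ≤ (39 / 100) * (n ! : ℝ) := by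
  obtain ⟨N, rfl⟩ := Nat.exists_eq_add_of_le' (le_trans (by norm_num : 6 ≤ 2000) hn)
  obtain ⟨t, rfl⟩ : ∃ t, j = t + 39 := ⟨j - 39, by omega⟩
  refine fe06_core N (t + 39) (by omega) ?_
  have h1 : (625 : ℝ) * ((t : ℝ) + 40) ^ 2 ≤ 484 * ((N : ℝ) + 6) := by
    have : ((625 * (t + 39 + 1) ^ 2 : ℕ) : ℝ) ≤ ((484 * (N + 6) : ℕ) : ℝ) := by
      exact_mod_cast hj
    push_cast at this
    have h2 : (t : ℝ) + 39 + 1 = (t : ℝ) + 40 := by ring
    rw [h2] at this
    linarith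
  have ht : (0 : ℝ) ≤ (t : ℝ) := Nat.cast_nonneg t
  have h2 := fe06_poly t ht
  have h3 : (2420 : ℝ) ≤ 625 * ((t : ℝ) + 40) ^ 2 := by
    have h8 : (40 : ℝ) ^ 2 ≤ ((t : ℝ) + 40) ^ 2 := pow_le_pow_left₀ (by norm_num) (by linarith) 2
    norm_num at h8
    linarith
  have h4 := mul_le_mul_of_nonneg_left (fe06_mono h3 h1) (show (0 : ℝ) ≤ 39 by norm_num)
  have h5 := h2.trans h4
  have h6 : 39 * (484 * ((N : ℝ) + 6) * (484 * ((N : ℝ) + 6) - 484) *
      (484 * ((N : ℝ) + 6) - 968) * (484 * ((N : ℝ) + 6) - 1452) *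
      (484 * ((N : ℝ) + 6) - 1936) * (484 * ((N : ℝ) + 6) - 2420)) =
      484 ^ 6 * (39 * (((N : ℝ) + 6) * (N + 5) * (N + 4) * (N + 3) * (N + 2) * (N + 1))) := by ring
  rw [h6] at h5
  push_cast
  have h7 : 100 * 484 ^ 6 * (((t : ℝ) + 39) * (t + 40) * ((t + 40) * (t + 41)) *
      ((t + 41) * (t + 42)) * ((t + 42) * (t + 43)) * ((t + 43) * (t + 44)) *
      ((t + 44) * (t + 45))) =
      484 ^ 6 * (100 * (((((t : ℝ) + 39) + 0) * ((t + 39) + 0 + 1)) *
      (((t + 39) + 1) * ((t + 39) + 1 + 1)) *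
      (((t + 39) + 2) * ((t + 39) + 2 + 1)) * (((t + 39) + 3) * ((t + 39) + 3 + 1)) *
      (((t + 39) + 4) * ((t + 39) + 4 + 1)) *
      (((t + 39) + 5) * ((t + 39) + 5 + 1)))) := by ring
  rw [h7] at h5
  exact le_of_mul_le_mul_left h5 (by norm_num)

/-- Same proof as `uC_large2` (FE02.lean; `uC_prod`): product of the 6 factors
`(j+i)(j+i+1)/(n-i)`, `i = 0,...,5`. For `j ≥ 39` and `484 n ≥ 625 (j+1)^2` the product is at most
`.3861` (polynomial inequality in `t = j - 39` with nonnegative coefficients); for `j ≤ 38` use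
`uC_mono` and `n ≥ 2000` (`.3512`). -/
theorem uC_large3 (n j : ℕ) (hn : 2000 ≤ n) (hj : 625 * (j + 1) ^ 2 ≤ 484 * n) :
    uC n j ≤ (39 / 100) * (n ! : ℝ) := by
  rcases Nat.lt_or_ge j 39 with hj2 | hj2
  · exact (uC_mono n (show j ≤ 38 by omega)).trans (fe06_large38 n hn)
  · exact fe06_aux n j hn hj2 hj

end Pool.MP322F
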