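import Pool.Agent.Lib.MP_322c5f_alF.FE01

/-! job 322P-E7: number of corners for `n ≥ 3000`, the constant `0.88`. -/

set_option autoImplicit false

open Equiv Finset Nat

namespace Pool.MP322F

open Pool.MP322

private theorem fe07_poly (t : ℝ) (ht : 0 ≤ t) :
    100 * 484 ^ 7 * (((t + 47) * (t + 48)) * ((t + 48) * (t + 49)) * ((t + 49) * (t + 50)) * ((t + 50) * (t + 51)) * ((t + 51) * (t + 52)) * ((t + 52) * (t + 53)) * ((t + 53) * (t + 54))) ≤
      34 * ((625 * (t + 48) ^ 2) * (625 * (t + 48) ^ 2 - 484) * (625 * (t + 48) ^ 2 - 968) * (625 * (t + 48) ^ 2 - 1452) * (625 * (t + 48) ^ 2 - 1936) * (625 * (t + 48) ^ 2 - 2420) * (625 * (t + 48) ^ 2 - 2904)) := by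
  have h : 34 * ((625 * (t + 48) ^ 2) * (625 * (t + 48) ^ 2 - 484) * (625 * (t + 48) ^ 2 - 968) * (625 * (t + 48) ^ 2 - 1452) * (625 * (t + 48) ^ 2 - 1936) * (625 * (t + 48) ^ 2 - 2420) * (625 * (t + 48) ^ 2 - 2904)) -
      100 * 484 ^ 7 * (((t + 47) * (t + 48)) * ((t + 48) * (t + 49)) * ((t + 49) * (t + 50)) * ((t + 50) * (t + 51)) * ((t + 51) * (t + 52)) * ((t + 52) * (t + 53)) * ((t + 53) * (t + 54))) =
      2017555712161778222027879396293686067200000 + 6745732491902396213697490325714561925120000 * t ^ 1 + 1708832933421190227493443512370197132083200 * t ^ 2 + 205609587189321861248716585024953266995200 * t ^ 3 + 15232192940945710014000341144880511180800 * t ^ 4 + 771787335545810714316658749681398579200 * t ^ 5 + 28201201059557448326746320327278899200 * t ^ 6 + 764059460324374453914430003425689600 * t ^ 7 + 15535711876172789124157539112758400 * t ^ 8 + 237028982113110814259264347161600 * t ^ 9 + 2679760560645143591935814572000 * t ^ 10 + 21819814934962904670185715200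 * t ^ 11 + 121166544836760298360235800 * t ^ 12 + 411271563361231212539200 * t ^ 13 + 644416574134268726850 * t ^ 14 := by
    ring
  have h2 : (0 : ℝ) ≤ 2017555712161778222027879396293686067200000 + 6745732491902396213697490325714561925120000 * t ^ 1 + 1708832933421190227493443512370197132083200 * t ^ 2 + 205609587189321861248716585024953266995200 * t ^ 3 + 15232192940945710014000341144880511180800 * t ^ 4 + 771787335545810714316658749681398579200 * t ^ 5 + 28201201059557448326746320327278899200 * t ^ 6 + 764059460324374453914430003425689600 * t ^ 7 + 15535711876172789124157539112758400 * t ^ 8 + 237028982113110814259264347161600 * t ^ 9 + 2679760560645143591935814572000 * t ^ 10 + 21819814934962904670185715200 * t ^ 11 + 121166544836760298360235800 * t ^ 12 + 411271563361231212539200 * t ^ 13 + 644416574134268726850 * t ^ 14 := by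
    positivity
  linarith

private theorem fe07_mono {X Y : ℝ} (hX : 2904 ≤ X) (h : X ≤ Y) :
    X * (X - 484) * (X - 968) * (X - 1452) * (X - 1936) * (X - 2420) * (X - 2904) ≤
      Y * (Y - 484) * (Y - 968) * (Y - 1452) * (Y - 1936) * (Y - 2420) * (Y - 2904) := by
  have h0 : 0 ≤ X := by linarith
  have h1 : 0 ≤ X - 484 := by linarith
  have h2 : 0 ≤ X - 968 := by linarith
  have h3 : 0 ≤ X - 1452 := by linarith
  have h4 : 0 ≤ X - 1936 := by linarith
  have h5 : 0 ≤ X - 2420 := by linarith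
  have h6 : 0 ≤ X - 2904 := by linarith
  have g0 : 0 ≤ Y := by linarith
  have g1 : 0 ≤ Y - 484 := by linarith
  have g2 : 0 ≤ Y - 968 := by linarith
  have g3 : 0 ≤ Y - 1452 := by linarith
  have g4 : 0 ≤ Y - 1936 := by linarith
  have g5 : 0 ≤ Y - 2420 := by linarith
  have e1 := mul_le_mul h (sub_le_sub_right h 484) h1 g0
  have e2 := mul_le_mul e1 (sub_le_sub_right h 968) h2 (by positivity)
  have e3 := mul_le_mul e2 (sub_le_sub_right h 1452) h3 (by positivity)
  have e4 := mul_le_mul e3 (sub_le_sub_right h 1936) h4 (by positivity)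
  have e5 := mul_le_mul e4 (sub_le_sub_right h 2420) h5 (by positivity)
  exact mul_le_mul e5 (sub_le_sub_right h 2904) h6 (by positivity)

private theorem fe07_core (N j : ℕ) (hj1 : 1 ≤ j)
    (h : 100 * ((((j : ℝ) + 0) * (j + 0 + 1)) * ((j + 1) * (j + 1 + 1)) *
      ((j + 2) * (j + 2 + 1)) * ((j + 3) * (j + 3 + 1)) * ((j + 4) * (j + 4 + 1)) *
      ((j + 5) * (j + 5 + 1)) * ((j + 6) * (j + 6 + 1))) ≤
      34 * (((N : ℝ) + 7) * (N + 6) * (N + 5) * (N + 4) * (N + 3) * (N + 2) * (N + 1))) :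
    uC (N + 7) j ≤ (34 / 100) * ((N + 7) ! : ℝ) := by
  have h1 := uC_prod N j 7 hj1
  simp only [Finset.prod_range_succ, Finset.prod_range_zero, one_mul, Nat.cast_zero,
    Nat.cast_one, Nat.cast_ofNat] at h1
  have h2 : ((N + 7) ! : ℝ) =
      (((N : ℝ) + 7) * (N + 6) * (N + 5) * (N + 4) * (N + 3) * (N + 2) * (N + 1)) *
        (N ! : ℝ) := by
    have h3 : (N + 7) ! =
        ((N + 7) * (N + 6) * (N + 5) * (N + 4) * (N + 3) * (N + 2) * (N + 1)) * N ! := by
      rw [Nat.factorial_succ (N + 6), Nat.factorial_succ (N + 5), Nat.factorial_succ (N + 4),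
        Nat.factorial_succ (N + 3), Nat.factorial_succ (N + 2), Nat.factorial_succ (N + 1),
        Nat.factorial_succ N]
      ring
    rw [h3]
    push_cast
    ring
  have h4 : (0 : ℝ) ≤ (N ! : ℝ) := by positivity
  rw [h2]
  have h5 := mul_le_mul_of_nonneg_right h h4
  refine h1.trans ?_
  linarith

private theorem fe07_aux (n j : ℕ) (hn : 3000 ≤ n) (hj2 : 47 ≤ j)
    (hj : 625 * (j + 1) ^ 2 ≤ 484 * n) :
    uC n j ≤ (34 / 100) * (n ! : ℝ) := by
  obtain ⟨N, rfl⟩ := Nat.exists_eq_add_of_le' (le_trans (by norm_num : 7 ≤ 3000) hn)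
  obtain ⟨t, rfl⟩ : ∃ t, j = t + 47 := ⟨j - 47, by omega⟩
  refine fe07_core N (t + 47) (by omega) ?_
  have h1 : (625 : ℝ) * ((t : ℝ) + 48) ^ 2 ≤ 484 * ((N : ℝ) + 7) := by
    have : ((625 * (t + 47 + 1) ^ 2 : ℕ) : ℝ) ≤ ((484 * (N + 7) : ℕ) : ℝ) := by
      exact_mod_cast hj
    push_cast at this
    have h2 : (t : ℝ) + 47 + 1 = (t : ℝ) + 48 := by ring
    rw [h2] at this
    linarith
  have ht : (0 : ℝ) ≤ (t : ℝ) := Nat.cast_nonneg t
  have h2 := fe07_poly t ht
  have h3 : (2904 : ℝ) ≤ 625 * ((t : ℝ) + 48) ^ 2 := by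
    have h8 : (48 : ℝ) ^ 2 ≤ ((t : ℝ) + 48) ^ 2 := pow_le_pow_left₀ (by norm_num) (by linarith) 2
    norm_num at h8
    linarith
  have h4 := mul_le_mul_of_nonneg_left (fe07_mono h3 h1) (show (0 : ℝ) ≤ 34 by norm_num)
  have h5 := h2.trans h4
  have h6 : 34 * (484 * ((N : ℝ) + 7) * (484 * ((N : ℝ) + 7) - 484) * (484 * ((N : ℝ) + 7) - 968) * (484 * ((N : ℝ) + 7) - 1452) * (484 * ((N : ℝ) + 7) - 1936) * (484 * ((N : ℝ) + 7) - 2420) * (484 * ((N : ℝ) + 7) - 2904)) =
      484 ^ 7 * (34 * (((N : ℝ) + 7) * (N + 6) * (N + 5) * (N + 4) * (N + 3) * (N + 2) * (N + 1))) := by ring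
  rw [h6] at h5
  push_cast
  have h7 : 100 * 484 ^ 7 * (((t : ℝ) + 47) * (t + 48) * ((t + 48) * (t + 49)) * ((t + 49) * (t + 50)) * ((t + 50) * (t + 51)) * ((t + 51) * (t + 52)) * ((t + 52) * (t + 53)) * ((t + 53) * (t + 54))) =
      484 ^ 7 * (100 * (((((t : ℝ) + 47) + 0) * ((t + 47) + 0 + 1)) * (((t + 47) + 1) * ((t + 47) + 1 + 1)) * (((t + 47) + 2) * ((t + 47) + 2 + 1)) * (((t + 47) + 3) * ((t + 47) + 3 + 1)) * (((t + 47) + 4) * ((t + 47) + 4 + 1)) * (((t + 47) + 5) * ((t + 47) + 5 + 1)) * (((t + 47) + 6) * ((t + 47) + 6 + 1)))) := by ring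
  rw [h7] at h5
  exact le_of_mul_le_mul_left h5 (by norm_num)

/-- Same proof as `uC_large2` (FE02.lean; `uC_prod`), now with 7 factors `(j+i)(j+i+1)/(n-i)`,
`i = 0,...,6`. For `j ≥ 47` and `484 n ≥ 625 (j+1)^2` the product is at most `.3385` (polynomial
inequality in `t = j - 47` with nonnegative coefficients); for `j < 47` use `uC_mono` and `j = 47`
(`625 * 48^2 ≤ 484 * 3000`). -/
theorem uC_large4 (n j : ℕ) (hn : 3000 ≤ n) (hj : 625 * (j + 1) ^ 2 ≤ 484 * n) :
    uC n j ≤ (34 / 100) * (n ! : ℝ) := by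
  rcases Nat.lt_or_ge j 47 with hj2 | hj2
  · exact (uC_mono n hj2.le).trans (fe07_aux n 47 hn le_rfl (by norm_num; omega))
  · exact fe07_aux n j hn hj2 hj

end Pool.MP322F
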