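import Pool.Agent.Lib.MP_322c5f_alF.FK00
import Pool.Agent.Lib.MP_322c5f_alF.FD05
import Pool.Agent.Lib.MP_322c5f_alF.FB05
import Pool.Agent.Lib.MP_322c5f_al.TypeCount

/-! Soundness of the table of the numbers `TS`, `TN`. -/

set_option autoImplicit false

open Finset Equiv Nat

namespace Pool.MP322F

open Pool.MP322

theorem frc_eq {α : Type} (v : ℕ) (k : ℕ → α) : frc v k = k v := by
  cases v <;> rfl

def NLok (f : ℕ → ℕ) : NL → ℕ → Prop
  | NL.nil, _ => True
  | NL.cons v r, k => f k ≤ v ∧ NLok f r (k + 1)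

def RLok (P : ℕ → ℕ → ℕ → ℕ → ℕ → ℕ → Prop) : RL → ℕ → Prop
  | RL.nil, _ => True
  | RL.cons t tn tz u v r, a => P a t tn tz u v ∧ RLok P r (a + 1)

/-- `P` holds for the data of all `m ≤ M` (the first entry belongs to `m`) -/
def MDok (P : ℕ → ℕ → NL → RL → NL → Prop) (M : ℕ) : MD → ℕ → Prop
  | MD.nil, _ => True
  | MD.cons a0 ts rl W d, m => (m ≤ M → P m a0 ts rl W) ∧ MDok P M d (m + 1)

/-! ### lists -/

/-- the entries `f s, f (s+1), ..., f (s+n-1)` -/
private def Asc (f : ℕ → ℕ → ℕ) : NP → ℕ → ℕ → Prop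
  | NP.nil, _, n => n = 0
  | NP.cons e o r, s, n => ∃ n', n = n' + 1 ∧ e = f s 0 ∧ o = f s 1 ∧ Asc f r (s + 1) n'

/-- the entries `f (n-1), ..., f 0` -/
private def Dsc (f : ℕ → ℕ → ℕ) : NP → ℕ → Prop
  | NP.nil, n => n = 0
  | NP.cons e o r, n => ∃ n', n = n' + 1 ∧ e = f n' 0 ∧ o = f n' 1 ∧ Dsc f r n'

private theorem gt_asc {α : Type} (f : ℕ → ℕ → ℕ) (k : ℕ → ℕ → α) : ∀ (l : NP) (s n i : ℕ),
    Asc f l s n → i < n → l.gt k i = k (f (s + i) 0) (f (s + i) 1) := by
  intro l
  induction l with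
  | nil =>
    intro s n i h hi
    have h' : n = 0 := h
    omega
  | cons e o r ih =>
    rintro s n i ⟨n', rfl, rfl, rfl, h⟩ hi
    cases i with
    | zero => rfl
    | succ i =>
      have h1 := ih (s + 1) n' i h (by omega)
      have h2 : s + (i + 1) = s + 1 + i := by omega
      rw [h2]
      exact h1

private theorem gt_dsc {α : Type} (f : ℕ → ℕ → ℕ) (k : ℕ → ℕ → α) : ∀ (l : NP) (n i : ℕ),
    Dsc f l n → l.gt k i = if i < n then k (f (n - 1 - i) 0) (f (n - 1 - i) 1) else k 0 0 := by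
  intro l
  induction l with
  | nil =>
    intro n i h
    have h' : n = 0 := h
    rw [if_neg (by omega)]
    rfl
  | cons e o r ih =>
    rintro n i ⟨n', rfl, rfl, rfl, h⟩
    cases i with
    | zero =>
      rw [if_pos (by omega)]
      rfl
    | succ i =>
      have h1 := ih n' i h
      have h2 : n' + 1 - 1 - (i + 1) = n' - 1 - i := by omega
      rw [h2]
      have h3 : (i + 1 < n' + 1) ↔ i < n' := by omega
      simp only [h3]
      exact h1

private theorem revP_spec (f : ℕ → ℕ → ℕ) : ∀ (l acc : NP) (n m : ℕ), Dsc f l n → Asc f acc n m →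
    Asc f (revP l acc) 0 (n + m) := by
  intro l
  induction l with
  | nil =>
    intro acc n m h h2
    have h' : n = 0 := h
    subst h'
    rw [Nat.zero_add]
    exact h2
  | cons e o r ih =>
    rintro acc n m ⟨n', rfl, he, ho, h⟩ h2
    have h3 := ih (NP.cons e o acc) n' (m + 1) h ⟨m, rfl, he, ho, h2⟩
    have h4 : n' + 1 + m = n' + (m + 1) := by omega
    rw [h4]
    exact h3

private theorem updP_spec (X1 c par : ℕ) (hc : 1 ≤ c) (f g : ℕ → ℕ → ℕ)
    (hg : ∀ t p, p < 2 → g t p = f t p + if c ≤ t then X1 * g (t - c) (if par = 0 then p else 1 - p)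
      else 0) : ∀ (row acc : NP) (s n : ℕ), Asc f row s n → Dsc g acc s →
    Dsc g (updP X1 c par row acc) (s + n) := by
  intro row
  induction row with
  | nil =>
    intro acc s n h h2
    have h' : n = 0 := h
    subst h'
    exact h2
  | cons e o r ih =>
    rintro acc s n ⟨n', rfl, he, ho, h⟩ h2
    have hgt : ∀ k : ℕ → ℕ → NP, NP.gt acc k (Nat.sub c 1) =
        if c - 1 < s then k (g (s - 1 - (c - 1)) 0) (g (s - 1 - (c - 1)) 1) else k 0 0 :=
      fun k => gt_dsc g k acc s (Nat.sub c 1) h2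
    have hstep : updP X1 c par (NP.cons e o r) acc =
        updP X1 c par r (NP.cons (g s 0) (g s 1) acc) := by
      have h3 : updP X1 c par (NP.cons e o r) acc = NP.gt acc (fun p q =>
          Nat.rec (motive := fun _ => NP)
            (frc (Nat.add e (Nat.mul X1 p)) (fun e' => frc (Nat.add o (Nat.mul X1 q)) (fun o' =>
              updP X1 c par r (NP.cons e' o' acc))))
            (fun _ _ => frc (Nat.add e (Nat.mul X1 q)) (fun e' => frc (Nat.add o (Nat.mul X1 p))
              (fun o' => updP X1 c par r (NP.cons e' o' acc)))) par) (Nat.sub c 1) := rfl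
      rw [h3, hgt]
      have g0 := hg s 0 (by omega)
      have g1 := hg s 1 (by omega)
      have hs : s - 1 - (c - 1) = s - c := by omega
      rw [hs]
      split_ifs with hcs
      · rw [if_pos (by omega)] at g0 g1
        cases par with
        | zero =>
          rw [if_pos rfl] at g0 g1
          show frc (Nat.add e (Nat.mul X1 (g (s - c) 0))) (fun e' =>
            frc (Nat.add o (Nat.mul X1 (g (s - c) 1))) (fun o' =>
              updP X1 c 0 r (NP.cons e' o' acc))) = _
          rw [frc_eq, frc_eq, he, ho, g0, g1]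
          rfl
        | succ par =>
          rw [if_neg (by omega)] at g0 g1
          show frc (Nat.add e (Nat.mul X1 (g (s - c) 1))) (fun e' =>
            frc (Nat.add o (Nat.mul X1 (g (s - c) 0))) (fun o' =>
              updP X1 c (par + 1) r (NP.cons e' o' acc))) = _
          rw [frc_eq, frc_eq, he, ho, g0, g1]
          rfl
      · rw [if_neg (by omega)] at g0 g1
        cases par with
        | zero =>
          show frc (Nat.add e (Nat.mul X1 0)) (fun e' =>
            frc (Nat.add o (Nat.mul X1 0)) (fun o' =>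
              updP X1 c 0 r (NP.cons e' o' acc))) = _
          rw [frc_eq, frc_eq, he, ho, g0, g1]
          rfl
        | succ par =>
          show frc (Nat.add e (Nat.mul X1 0)) (fun e' =>
            frc (Nat.add o (Nat.mul X1 0)) (fun o' =>
              updP X1 c (par + 1) r (NP.cons e' o' acc))) = _
          rw [frc_eq, frc_eq, he, ho, g0, g1]
          rfl
    rw [hstep]
    have h4 := ih (NP.cons (g s 0) (g s 1) acc) (s + 1) n' h ⟨s, rfl, rfl, rfl, h2⟩
    have h5 : s + (n' + 1) = s + 1 + n' := by omega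
    rw [h5]
    exact h4

private theorem zeroP_spec (f : ℕ → ℕ → ℕ) (h0 : ∀ t, 1 ≤ t → f t 0 = 0)
    (h1 : ∀ t, 1 ≤ t → f t 1 = 0) : ∀ (n s : ℕ), 1 ≤ s → Asc f (zeroP n) s n := by
  intro n
  induction n with
  | zero =>
    intro s _
    rfl
  | succ n ih =>
    intro s hs
    exact ⟨n, rfl, (h0 s hs).symm, (h1 s hs).symm, ih (s + 1) (by omega)⟩

private noncomputable def gW (w : ℕ) : ℕ → ℕ → ℕ := fun x j => (1 + (2 ^ w) ^ x) ^ j

private theorem rowP_asc (w M k : ℕ) :
    Asc (fun t p => WT (gW w) k t p) (rowP w M k) 0 (M + 1) := by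
  induction k with
  | zero =>
    have h0 : ∀ t, 1 ≤ t → WT (gW w) 0 t 0 = 0 := by
      intro t ht
      unfold WT
      rw [if_neg (by omega)]
    have h1 : ∀ t, WT (gW w) 0 t 1 = 0 := by
      intro t
      unfold WT
      rw [if_neg (by omega)]
    refine ⟨M, rfl, ?_, (h1 0).symm, zeroP_spec _ h0 (fun t _ => h1 t) M 1 le_rfl⟩
    show 1 = WT (gW w) 0 0 0
    unfold WT
    rw [if_pos ⟨rfl, rfl⟩]
  | succ j ih =>
    have h1 : rowP w M (j + 1) = revP (updP (Nat.add 1 (Nat.pow 2 (Nat.mul w (Nat.add j 3))))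
      (Nat.add j 3) (Nat.mod (Nat.add j 2) 2) (rowP w M j) NP.nil) NP.nil := rfl
    rw [h1]
    have h2 := updP_spec (Nat.add 1 (Nat.pow 2 (Nat.mul w (Nat.add j 3)))) (Nat.add j 3)
      (Nat.mod (Nat.add j 2) 2) (show 1 ≤ j + 3 by omega) (fun t p => WT (gW w) j t p)
      (fun t p => WT (gW w) (j + 1) t p) (by
        intro t p hp
        have h3 := WT_geom (fun x => 1 + (2 ^ w) ^ x) j t hp
        have h4 : Nat.add 1 (Nat.pow 2 (Nat.mul w (Nat.add j 3))) = 1 + (2 ^ w) ^ (j + 3) := by
          show 1 + 2 ^ (w * (j + 3)) = _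
          rw [pow_mul]
        have h5 : (if Nat.mod (Nat.add j 2) 2 = 0 then p else 1 - p) = (p + j) % 2 := by
          show (if (j + 2) % 2 = 0 then p else 1 - p) = _
          split_ifs with h6 <;> omega
        rw [h4, h5]
        exact h3) (rowP w M j) NP.nil 0 (M + 1) ih rfl
    have h3 := revP_spec _ _ NP.nil _ 0 h2 rfl
    rw [Nat.zero_add, Nat.add_zero] at h3
    exact h3

/-- the rows are the packed sums `WT` (`WT_geom`); the list has the entries `t = 0, ..., M` -/
theorem rowP_spec (w M k : ℕ) {t : ℕ} (ht : t ≤ M) :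
    (rowP w M k).gt (fun e o => (e, o)) t =
      (WT (fun x j => (1 + (2 ^ w) ^ x) ^ j) k t 0, WT (fun x j => (1 + (2 ^ w) ^ x) ^ j) k t 1) := by
  have h := gt_asc _ (fun e o : ℕ => (e, o)) _ _ _ t (rowP_asc w M k) (by omega)
  rw [Nat.zero_add] at h
  exact h

/-! ### the number of pairs -/

private theorem mem_TNW {m : ℕ} {τ : Multiset ℕ} (h : τ ∈ TNW m) :
    (∀ c ∈ τ, 2 ≤ c) ∧ τ.sum = m := by
  unfold TNW at h
  rw [Finset.mem_filter] at h
  exact ⟨(bsum_mem h.1).1, h.2⟩

private theorem two_card_le {τ : Multiset ℕ} (h : ∀ c ∈ τ, 2 ≤ c) :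
    2 * Multiset.card τ ≤ τ.sum := by
  have := Multiset.card_nsmul_le_sum h
  rw [smul_eq_mul] at this
  omega

/-- number of all pairs (type, subcollection): at most `exp (3 √m) * 2^(m/2) < 2^96 - 1` for
`m ≤ 100` (`card_types_le`; a type of size `m` without parts `1` has at most `m/2` parts) -/
theorem pairs_lt {m : ℕ} (hm : m ≤ 100) (h1 : 1 ≤ m) :
    ∑ τ ∈ TNW m, Multiset.card τ.powerset < 2 ^ 96 - 1 := by
  have h2 : ∑ τ ∈ TNW m, Multiset.card τ.powerset ≤ (TNW m).card * 2 ^ 50 := by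
    rw [← smul_eq_mul]
    refine Finset.sum_le_card_nsmul _ _ _ fun τ hτ => ?_
    obtain ⟨h3, h4⟩ := mem_TNW hτ
    have h5 := two_card_le h3
    rw [Multiset.card_powerset]
    exact Nat.pow_le_pow_right (by norm_num) (by omega)
  have h3 : ((TNW m).card : ℝ) ≤ Real.exp 30 := by
    refine (card_types_le m (TNW m) (fun τ hτ c hc => ?_) (fun τ hτ => (mem_TNW hτ).2)).trans ?_
    · have := (mem_TNW hτ).1 c hc
      omega
    · apply Real.exp_le_exp.2
      have h4 : Real.sqrt m ≤ 10 := by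
        rw [Real.sqrt_le_left (by norm_num)]
        have : (m : ℝ) ≤ 100 := by exact_mod_cast hm
        linarith
      linarith
  have h4 : Real.exp 30 < 2 ^ 44 := by
    have h5 : Real.exp 30 = Real.exp 1 ^ 30 := by
      rw [← Real.exp_nat_mul]
      norm_num
    rw [h5]
    have h6 := Real.exp_one_lt_d9
    calc Real.exp 1 ^ 30 < 2.7182818286 ^ 30 :=
          pow_lt_pow_left₀ h6 (Real.exp_pos _).le (by norm_num)
      _ < 2 ^ 44 := by norm_num
  have h5 : (TNW m).card < 2 ^ 44 := by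
    have : ((TNW m).card : ℝ) < ((2 ^ 44 : ℕ) : ℝ) := by
      rw [show (((2 ^ 44 : ℕ)) : ℝ) = (2 : ℝ) ^ 44 by norm_num]
      exact h3.trans_lt h4
    exact_mod_cast this
  have h6 : (2 : ℕ) ^ 96 - 1 = 79228162514264337593543950335 := by norm_num
  have h7 : (2 : ℕ) ^ 44 = 17592186044416 := by norm_num
  have h8 : (2 : ℕ) ^ 50 = 1125899906842624 := by norm_num
  rw [h6]
  rw [h7] at h5
  rw [h8] at h2
  omega

/-! ### digits -/

private theorem low_lt {w : ℕ} (d : ℕ → ℕ) (hd : ∀ i, d i < 2 ^ w) (n : ℕ) :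
    ∑ i ∈ Finset.range n, d i * 2 ^ (w * i) < 2 ^ (w * n) := by
  induction n with
  | zero => simp
  | succ n ih =>
    rw [Finset.sum_range_succ]
    have h1 := hd n
    have h2 : 2 ^ (w * (n + 1)) = 2 ^ w * 2 ^ (w * n) := by
      rw [← pow_add]
      congr 1
      ring
    rw [h2]
    have h3 : (d n + 1) * 2 ^ (w * n) ≤ 2 ^ w * 2 ^ (w * n) := Nat.mul_le_mul_right _ h1
    have h4 : (d n + 1) * 2 ^ (w * n) = d n * 2 ^ (w * n) + 2 ^ (w * n) := by ring
    omega

private theorem split_sum (w : ℕ) (d : ℕ → ℕ) (a b : ℕ) :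
    ∑ i ∈ Finset.range (a + b), d i * 2 ^ (w * i) =
      ∑ i ∈ Finset.range a, d i * 2 ^ (w * i) +
        2 ^ (w * a) * ∑ i ∈ Finset.range b, d (a + i) * 2 ^ (w * i) := by
  rw [Finset.sum_range_add, Finset.mul_sum]
  congr 1
  refine Finset.sum_congr rfl fun i _ => ?_
  rw [mul_add, pow_add]
  ring

private theorem dsum_eq {w : ℕ} (hw : 1 ≤ w) (d : ℕ → ℕ) (hd : ∀ i, d i < 2 ^ w) {N S : ℕ}
    (hz : ∀ i, N ≤ i → d i = 0) (hS : S = ∑ i ∈ Finset.range N, d i * 2 ^ (w * i)) (lo n : ℕ)
    (hs : ∑ i ∈ Finset.range n, d (lo + i) < 2 ^ w - 1) :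
    dsum w S lo n = ∑ i ∈ Finset.range n, d (lo + i) := by
  have hS2 : S = ∑ i ∈ Finset.range (lo + (n + N)), d i * 2 ^ (w * i) := by
    rw [hS]
    apply Finset.sum_subset
    · exact Finset.range_subset_range.2 (by omega)
    · intro i _ hi
      rw [Finset.mem_range, not_lt] at hi
      rw [hz i hi, zero_mul]
  have h1 : S / 2 ^ (w * lo) = ∑ i ∈ Finset.range (n + N), d (lo + i) * 2 ^ (w * i) := by
    rw [hS2, split_sum, Nat.add_mul_div_left _ _ (by positivity),
      Nat.div_eq_of_lt (low_lt d hd lo), Nat.zero_add]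
  have h2 : (S / 2 ^ (w * lo)) % 2 ^ (w * n) =
      ∑ i ∈ Finset.range n, d (lo + i) * 2 ^ (w * i) := by
    rw [h1, split_sum w (fun i => d (lo + i)), Nat.add_mul_mod_self_left,
      Nat.mod_eq_of_lt (low_lt (fun i => d (lo + i)) (fun i => hd _) n)]
  show (S >>> (w * lo) % 2 ^ (w * n)) % (2 ^ w - 1) = _
  rw [Nat.shiftRight_eq_div_pow, h2]
  exact digit_sum_mod hw n (fun i => d (lo + i)) hs

/-- counting the subcollections -/
private theorem card_fil (M : Multiset (Multiset ℕ)) (lo n : ℕ) :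
    ∑ i ∈ Finset.range n, Multiset.card (M.filter (fun B => B.sum = lo + i)) =
      Multiset.card (M.filter (fun B => lo ≤ B.sum ∧ B.sum < lo + n)) := by
  induction n with
  | zero =>
    rw [Finset.sum_range_zero]
    symm
    rw [Multiset.card_eq_zero, Multiset.filter_eq_nil]
    intro B _ h
    omega
  | succ n ih =>
    rw [Finset.sum_range_succ, ih, ← Multiset.card_add, Multiset.filter_add_filter]
    have h1 : M.filter (fun B => (lo ≤ B.sum ∧ B.sum < lo + n) ∧ B.sum = lo + n) = 0 := by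
      rw [Multiset.filter_eq_nil]
      intro B _ h
      omega
    rw [h1, add_zero]
    congr 1
    refine Multiset.filter_congr fun B _ => ?_
    constructor
    · intro h
      omega
    · intro h
      omega

private noncomputable def dg (m t s : ℕ) : ℕ :=
  ∑ τ ∈ (TNW m).filter (fun τ => t ≤ τ.count 2),
    Multiset.card (τ.powerset.filter (fun B => B.sum = s))

private theorem dg_sum (m t lo n : ℕ) : ∑ i ∈ Finset.range n, dg m t (lo + i) =
    ∑ τ ∈ (TNW m).filter (fun τ => t ≤ τ.count 2),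
      Multiset.card (τ.powerset.filter (fun B => lo ≤ B.sum ∧ B.sum < lo + n)) := by
  unfold dg
  rw [Finset.sum_comm]
  exact Finset.sum_congr rfl fun τ _ => card_fil _ _ _

private theorem dg_sum_lt {m : ℕ} (hm : m ≤ 100) (h1 : 1 ≤ m) {w : ℕ} (hw : 96 ≤ w)
    (t lo n : ℕ) : ∑ i ∈ Finset.range n, dg m t (lo + i) < 2 ^ w - 1 := by
  have h2 : ∑ i ∈ Finset.range n, dg m t (lo + i) ≤ ∑ τ ∈ TNW m, Multiset.card τ.powerset := by
    rw [dg_sum]
    calc _ ≤ ∑ τ ∈ (TNW m).filter (fun τ => t ≤ τ.count 2), Multiset.card τ.powerset :=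
          Finset.sum_le_sum fun τ _ => Multiset.card_le_card (Multiset.filter_le _ _)
      _ ≤ _ := Finset.sum_le_sum_of_subset (Finset.filter_subset _ _)
  have h3 := pairs_lt hm h1
  have h4 : (2 : ℕ) ^ 96 ≤ 2 ^ w := Nat.pow_le_pow_right (by norm_num) hw
  omega

private theorem dg_lt {m : ℕ} (hm : m ≤ 100) (h1 : 1 ≤ m) {w : ℕ} (hw : 96 ≤ w) (t s : ℕ) :
    dg m t s < 2 ^ w := by
  have h2 := dg_sum_lt hm h1 hw t s 1
  rw [Finset.sum_range_one, add_zero] at h2
  omega

private theorem dg_zero {m t s : ℕ} (hs : m + 1 ≤ s) : dg m t s = 0 := by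
  unfold dg
  refine Finset.sum_eq_zero fun τ hτ => ?_
  rw [Finset.mem_filter] at hτ
  have h1 := (mem_TNW hτ.1).2
  rw [Multiset.card_eq_zero, Multiset.filter_eq_nil]
  intro B hB h
  rw [Multiset.mem_powerset] at hB
  have h2 : B.sum ≤ τ.sum := by
    obtain ⟨C, rfl⟩ := Multiset.le_iff_exists_add.1 hB
    rw [Multiset.sum_add]
    exact Nat.le_add_right _ _
  omega

/-! ### the list `H` -/

private noncomputable def HS (f : ℕ → ℕ → ℕ) (Y2 m par : ℕ) : ℕ :=
  ∑ i ∈ Finset.range (m / 2 + 1), Y2 ^ i * f (m - 2 * i) ((par + i) % 2)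

private theorem HS_small (f : ℕ → ℕ → ℕ) (Y2 : ℕ) {m par : ℕ} (hm : m < 2) (hp : par < 2) :
    HS f Y2 m par = f m par := by
  unfold HS
  have h1 : m / 2 + 1 = 1 := by omega
  rw [h1, Finset.sum_range_one]
  simp [Nat.mod_eq_of_lt hp]

private theorem HS_step (f : ℕ → ℕ → ℕ) (Y2 m : ℕ) {par : ℕ} (hp : par < 2) :
    HS f Y2 (m + 2) par = f (m + 2) par + Y2 * HS f Y2 m (1 - par) := by
  unfold HS
  have h1 : (m + 2) / 2 + 1 = (m / 2 + 1) + 1 := by omega
  rw [h1, Finset.sum_range_succ', add_comm, Finset.mul_sum]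
  congr 1
  · simp [Nat.mod_eq_of_lt hp]
  · refine Finset.sum_congr rfl fun i _ => ?_
    have h2 : m + 2 - 2 * (i + 1) = m - 2 * i := by omega
    have h3 : (par + (i + 1)) % 2 = (1 - par + i) % 2 := by omega
    rw [h2, h3, pow_succ]
    ring

private noncomputable def stL (Y2 e : ℕ) (L : NL) : NL :=
  NL.rec (motive := fun _ => NL) (NL.cons e NL.nil)
    (fun h t _ => frc (Nat.add e (Nat.mul Y2 h)) (fun x => NL.cons x (NL.cons h t))) L

private theorem stL_eq (Y2 e : ℕ) (L : NL) : stL Y2 e L = NL.cons (e + Y2 * L.gt 0) L := by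
  cases L with
  | nil => rfl
  | cons h t =>
    show frc (Nat.add e (Nat.mul Y2 h)) (fun x => NL.cons x (NL.cons h t)) = _
    rw [frc_eq]
    rfl

private theorem hlP_gt (f : ℕ → ℕ → ℕ) (Y2 : ℕ) : ∀ (n : ℕ) (l : NP) (par : ℕ), par < 2 →
    Dsc f l n → ∀ i, (hlP Y2 l 0 par).gt i =
      if 2 * i < n then HS f Y2 (n - 1 - 2 * i) ((par + i) % 2) else 0 := by
  intro n
  induction n using Nat.strong_induction_on with
  | _ n ihn =>
    intro l par hp h i
    cases l with
    | nil =>
      have h' : n = 0 := h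
      rw [if_neg (by omega)]
      rfl
    | cons e o r =>
      obtain ⟨n', rfl, he, ho, h2⟩ := h
      -- the rest
      have hrest : ∀ q, q < 2 → ∀ i, (hlP Y2 r 1 q).gt i =
          if 2 * i + 1 < n' then HS f Y2 (n' - 2 - 2 * i) ((q + i) % 2) else 0 := by
        intro q hq i
        cases r with
        | nil =>
          have h' : n' = 0 := h2
          rw [if_neg (by omega)]
          rfl
        | cons e' o' r' =>
          obtain ⟨n'', rfl, -, -, h3⟩ := h2
          have h4 := ihn n'' (by omega) r' q hq h3 i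
          have h5 : hlP Y2 (NP.cons e' o' r') 1 q = hlP Y2 r' 0 q := rfl
          rw [h5, h4]
          have h6 : (2 * i + 1 < n'' + 1) ↔ 2 * i < n'' := by omega
          simp only [h6]
          have h7 : n'' + 1 - 2 - 2 * i = n'' - 1 - 2 * i := by omega
          rw [h7]
      have hst : hlP Y2 (NP.cons e o r) 0 par = stL Y2 (f n' par) (hlP Y2 r 1 (1 - par)) := by
        rcases Nat.lt_or_ge par 1 with h0 | h0
        · have h0' : par = 0 := by omega
          subst h0'
          rw [← he]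
          rfl
        · have h0' : par = 1 := by omega
          subst h0'
          rw [← ho]
          rfl
      rw [hst, stL_eq, hrest (1 - par) (by omega) 0]
      cases i with
      | zero =>
        show f n' par + Y2 * _ = _
        simp only [mul_zero, Nat.sub_zero, Nat.add_zero, Nat.add_sub_cancel, Nat.zero_add,
          Nat.mod_eq_of_lt hp, Nat.mod_eq_of_lt (show 1 - par < 2 by omega),
          if_true, Nat.zero_lt_succ]
        rcases Nat.lt_or_ge n' 2 with h3 | h3
        · rw [if_neg (by omega), HS_small f Y2 h3 hp, mul_zero, add_zero]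
        · obtain ⟨k, rfl⟩ : ∃ k, n' = k + 2 := ⟨n' - 2, by omega⟩
          rw [if_pos (by omega), HS_step f Y2 k hp, Nat.add_sub_cancel]
      | succ i =>
        show (hlP Y2 r 1 (1 - par)).gt i = _
        rw [hrest (1 - par) (by omega) i]
        have h6 : (2 * (i + 1) < n' + 1) ↔ 2 * i + 1 < n' := by omega
        simp only [h6]
        have h7 : n' + 1 - 1 - 2 * (i + 1) = n' - 2 - 2 * i := by omega
        have h8 : (par + (i + 1)) % 2 = (1 - par + i) % 2 := by omega
        rw [h7, h8]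

/-- the values of the list in terms of the digits -/
private theorem H_eq {w M m : ℕ} (hm2 : 2 ≤ m) (hmM : m ≤ M) {l : NP}
    (hl : Dsc (fun t p => WT (gW w) (M - 2) t p) l (m + 1)) (t : ℕ) :
    (1 + 2 ^ (w * 2)) ^ t * (hlP (1 + 2 ^ (w * 2)) l 0 0).gt t =
      ∑ s ∈ Finset.range (m + 1), dg m t s * 2 ^ (w * s) := by
  have h1 := packed_sum (2 ^ w) hm2 t
  have h2 : ∑ s ∈ Finset.range (m + 1), dg m t s * 2 ^ (w * s) =
      ∑ i ∈ (Finset.range (m / 2 + 1)).filter (fun i => t ≤ i),
        (1 + (2 ^ w) ^ 2) ^ i * WT (fun x j => (1 + (2 ^ w) ^ x) ^ j) (m - 2) (m - 2 * i) (i % 2) := by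
    rw [← h1]
    refine Finset.sum_congr rfl fun s _ => ?_
    rw [← pow_mul]
    rfl
  rw [h2, hlP_gt _ _ _ _ _ (by norm_num) hl, ← pow_mul]
  split_ifs with ht
  · unfold HS
    rw [Finset.mul_sum]
    have h3 : (Finset.range (m / 2 + 1)).filter (fun i => t ≤ i) =
        (Finset.range ((m + 1 - 1 - 2 * t) / 2 + 1)).image (fun i => t + i) := by
      ext i
      rw [Finset.mem_filter, Finset.mem_range, Finset.mem_image]
      constructor
      · rintro ⟨h4, h5⟩
        exact ⟨i - t, Finset.mem_range.2 (by omega), by omega⟩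
      · rintro ⟨j, hj, rfl⟩
        rw [Finset.mem_range] at hj
        omega
    rw [h3, Finset.sum_image (fun a _ b _ hab => by simpa using hab)]
    refine Finset.sum_congr rfl fun i hi => ?_
    rw [Finset.mem_range] at hi
    have h4 : m + 1 - 1 - 2 * t - 2 * i = m - 2 * (t + i) := by omega
    have h5 : ((0 + t) % 2 + i) % 2 = (t + i) % 2 := by omega
    rw [h4, h5, pow_add, ← mul_assoc]
    congr 1
    exact WT_stable (gW w) (fun x => pow_zero _) (Nat.mod_lt _ (by norm_num)) (by omega)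
      (by omega)
  · rw [mul_zero]
    symm
    apply Finset.sum_eq_zero
    intro i hi
    rw [Finset.mem_filter, Finset.mem_range] at hi
    omega

/-! ### the checks -/

private theorem ckTS_spec (w S : ℕ) (F : ℕ → ℕ) (hF : ∀ k, F k = dsum w S 0 (k + 1)) :
    ∀ (d : NL) (k : ℕ), ckTS w S d k = 0 → NLok F d k := by
  intro d
  induction d with
  | nil =>
    intro k _
    trivial
  | cons v r ih =>
    intro k h
    have h1 : (dsum w S 0 (k + 1) - v) + ckTS w S r (k + 1) = 0 := h
    refine ⟨?_, ih (k + 1) (by omega)⟩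
    rw [hF]
    omega

private theorem ckTN_spec (w Y2 m : ℕ) (H : NL)
    (hF : ∀ a t, TN m a t = dsum w (Y2 ^ t * H.gt t) a a) :
    ∀ (d : RL) (a : ℕ), ckTN w Y2 H d a = 0 →
      RLok (fun a t tn _ _ _ => TN m a t ≤ tn) d a := by
  intro d
  induction d with
  | nil =>
    intro a _
    trivial
  | cons t tn tz u v r ih =>
    intro a h
    have h1 : (dsum w (Y2 ^ t * H.gt t) a a - tn) + ckTN w Y2 H r (a + 1) = 0 := h
    refine ⟨?_, ih (a + 1) (by omega)⟩
    show TN m a t ≤ tn
    rw [hF]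
    omega

private theorem MDok_of_gt (P : ℕ → ℕ → NL → RL → NL → Prop) (M : ℕ) :
    ∀ (d : MD) (m : ℕ), M < m → MDok P M d m := by
  intro d
  induction d with
  | nil =>
    intro m _
    trivial
  | cons a0 ts rl W d ih =>
    intro m hm
    exact ⟨fun h => absurd h (by omega), ih (m + 1) (by omega)⟩

private theorem ckP_spec (P : ℕ → ℕ → NL → RL → NL → Prop) (w Y2 M : ℕ) (f : ℕ → ℕ → ℕ)
    (hP : ∀ m l a0 ts rl W, 25 ≤ m → m ≤ M → Dsc f l (m + 1) →
      ckTS w ((hlP Y2 l 0 0).gt 0) ts 0 = 0 → ckTN w Y2 (hlP Y2 l 0 0) rl a0 = 0 →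
      P m a0 ts rl W) :
    ∀ (row : NP) (s n sk : ℕ) (d : MD) (acc : NP), Asc f row s n → Dsc f acc s →
      s + n = M + 1 → 25 ≤ s + sk → ckP w Y2 row sk d acc = 0 → MDok P M d (s + sk) := by
  intro row
  induction row with
  | nil =>
    intro s n sk d acc h1 _ h3 _ _
    have h' : n = 0 := h1
    exact MDok_of_gt P M d _ (by omega)
  | cons e o r ih =>
    rintro s n sk d acc ⟨n', rfl, he, ho, h1⟩ h2 h3 h4 h5
    have hacc : Dsc f (NP.cons e o acc) (s + 1) := ⟨s, rfl, he, ho, h2⟩
    cases sk with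
    | zero =>
      cases d with
      | nil => trivial
      | cons a0 ts rl W d' =>
        have h6 : (NL.rec (motive := fun _ => ℕ) 1 (fun h t _ =>
            Nat.add (ckTS w h ts 0) (ckTN w Y2 (NL.cons h t) rl a0))
              (hlP Y2 (NP.cons e o acc) 0 0)) + ckP w Y2 r 0 d' (NP.cons e o acc) = 0 := h5
        have h7 : (NL.rec (motive := fun _ => ℕ) 1 (fun h t _ =>
            Nat.add (ckTS w h ts 0) (ckTN w Y2 (NL.cons h t) rl a0))
              (hlP Y2 (NP.cons e o acc) 0 0)) = 0 := by omega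
        have h8 : ckP w Y2 r 0 d' (NP.cons e o acc) = 0 := by omega
        refine ⟨fun hsM => ?_, ?_⟩
        · rcases hH : hlP Y2 (NP.cons e o acc) 0 0 with _ | ⟨h, t⟩
          · rw [hH] at h7
            have h10 : (1 : ℕ) = 0 := h7
            exact absurd h10 (by decide)
          · rw [hH] at h7
            have h9 : ckTS w h ts 0 + ckTN w Y2 (NL.cons h t) rl a0 = 0 := h7
            apply hP (s + 0) (NP.cons e o acc) a0 ts rl W (by omega) hsM hacc
            · rw [hH]
              show ckTS w h ts 0 = 0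
              omega
            · rw [hH]
              omega
        · exact ih (s + 1) n' 0 d' (NP.cons e o acc) h1 hacc (by omega) (by omega) h8
    | succ sk =>
      have h6 := ih (s + 1) n' sk d (NP.cons e o acc) h1 hacc (by omega) (by omega) h5
      have h7 : s + (sk + 1) = s + 1 + sk := by omega
      rw [h7]
      exact h6

/-- MAIN.  `hlP` gives the numbers `H_i` with
`(1+X^2)^t H_t = ∑_(i ≥ t) (1+X^2)^i WT .. (m-2i) (i%2)`; by `packed_sum` its digits in base
`X = 2^w` are the numbers of pairs (type with at least `t` parts `2`, subcollection with `s`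
letters); their sums are below `2^w - 1` (`pairs_lt`), so that sums of digits are values mod
`2^w - 1` (see FB05 for sums of digits). -/
theorem ckPall_sound {w M : ℕ} (hw : 96 ≤ w) (hM : M ≤ 100) (h25 : 25 ≤ M) {d : MD}
    (h : ckPall w M d = 0) :
    MDok (fun m a0 ts rl _ => NLok (TS m) ts 0 ∧ RLok (fun a t tn _ _ _ => TN m a t ≤ tn) rl a0)
      M d 25 := by
  have h1 : ckP w (1 + 2 ^ (w * 2)) (rowP w M (M - 2)) 25 d NP.nil = 0 := h
  have h2 := ckP_spec (fun m a0 ts rl _ => NLok (TS m) ts 0 ∧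
    RLok (fun a t tn _ _ _ => TN m a t ≤ tn) rl a0) w (1 + 2 ^ (w * 2)) M
    (fun t p => WT (gW w) (M - 2) t p) ?_ (rowP w M (M - 2)) 0 (M + 1) 25 d NP.nil
    (rowP_asc w M (M - 2)) rfl (by omega) (by omega) h1
  · rw [Nat.zero_add] at h2
    exact h2
  · intro m l a0 ts rl W hm hmM hl h3 h4
    have hm100 : m ≤ 100 := by omega
    have hH := H_eq (w := w) (M := M) (m := m) (by omega) hmM hl
    refine ⟨ckTS_spec w _ (TS m) (fun k => ?_) ts 0 h3, ckTN_spec w _ m _ (fun a t => ?_) rl a0 h4⟩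
    · have h5 := hH 0
      rw [pow_zero, one_mul] at h5
      rw [dsum_eq (by omega) (dg m 0) (fun i => dg_lt hm100 (by omega) hw 0 i)
        (fun i hi => dg_zero hi) h5 0 (k + 1) (dg_sum_lt hm100 (by omega) hw 0 0 (k + 1)), dg_sum]
      unfold TS
      have h6 : (TNW m).filter (fun τ => 0 ≤ τ.count 2) = TNW m :=
        Finset.filter_true_of_mem fun _ _ => Nat.zero_le _
      rw [h6]
      refine Finset.sum_congr rfl fun τ _ => ?_
      unfold cS
      congr 1
      refine Multiset.filter_congr fun B _ => ?_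
      omega
    · rw [dsum_eq (by omega) (dg m t) (fun i => dg_lt hm100 (by omega) hw t i)
        (fun i hi => dg_zero hi) (hH t) a a (dg_sum_lt hm100 (by omega) hw t a a), dg_sum]
      unfold TN
      refine Finset.sum_congr rfl fun τ _ => ?_
      unfold cN
      congr 1
      refine Multiset.filter_congr fun B _ => ?_
      omega

end Pool.MP322F
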