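import Pool.Agent.Lib.MP_322c5f_alF.FK01

/-! Soundness of the table of the sums of square roots. -/

set_option autoImplicit false

open Finset Equiv Nat

namespace Pool.MP322F

open Pool.MP322

/-- entries of a list `s` (default `0`) -/
noncomputable def sE (sl : LL) (x j : ℕ) : ℕ := NL.gt (LL.gt sl (x - 3)) j

private theorem fk_gt_nil (i : ℕ) : NL.gt NL.nil i = 0 := rfl

private theorem fk_gt_zero (x : ℕ) (l : NL) : NL.gt (NL.cons x l) 0 = x := rfl

private theorem fk_gt_succ (x : ℕ) (l : NL) (i : ℕ) : NL.gt (NL.cons x l) (i + 1) = NL.gt l i := rfl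

private theorem fk_len_nil : NL.len NL.nil = 0 := rfl

private theorem fk_len_cons (x : ℕ) (l : NL) : NL.len (NL.cons x l) = NL.len l + 1 := rfl

private theorem fk_tot_cons (x : ℕ) (l : NL) : NL.tot (NL.cons x l) = x + NL.tot l := rfl

private theorem fk_LLgt_zero (x : NL) (l : LL) : LL.gt (LL.cons x l) 0 = x := rfl

private theorem fk_LLgt_succ (x : NL) (l : LL) (i : ℕ) :
    LL.gt (LL.cons x l) (i + 1) = LL.gt l i := rfl

private theorem fk_LLlen_cons (x : NL) (l : LL) : LL.len (LL.cons x l) = LL.len l + 1 := rfl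

private theorem fk_gt_len : ∀ (l : NL) (i : ℕ), NL.len l ≤ i → NL.gt l i = 0 := by
  intro l
  induction l with
  | nil => intro i _; rfl
  | cons x l ih =>
    intro i hi
    rw [fk_len_cons] at hi
    obtain ⟨j, rfl⟩ : ∃ j, i = j + 1 := ⟨i - 1, by omega⟩
    rw [fk_gt_succ]
    exact ih j (by omega)

private theorem fk_sum_le_tot : ∀ (l : NL) (n : ℕ), ∑ j ∈ range n, NL.gt l j ≤ NL.tot l := by
  intro l
  induction l with
  | nil =>
    intro n
    simp only [fk_gt_nil, Finset.sum_const_zero]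
    exact Nat.zero_le _
  | cons x l ih =>
    intro n
    rcases n with _ | n
    · simp
    · rw [Finset.sum_range_succ', fk_tot_cons, fk_gt_zero]
      simp only [fk_gt_succ]
      have := ih n
      omega

/-- sum of the entries with index of parity `q` -/
private noncomputable def ps (sh par q : ℕ) : NL → ℕ → ℕ → ℕ
  | NL.nil, _, _ => 0
  | NL.cons s l, pos, sg =>
    (if sg = q then s * 2 ^ pos else 0) + ps sh par q l (pos + sh) ((sg + par) % 2)

private theorem pkS_eq {α : Type} (sh par : ℕ) (hpar : par < 2) (k : ℕ → ℕ → α) :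
    ∀ (ss : NL) (pos sg P Q : ℕ), sg < 2 →
      pkS sh par k ss pos sg P Q = k (P + ps sh par 0 ss pos sg) (Q + ps sh par 1 ss pos sg) := by
  intro ss
  induction ss with
  | nil => intro pos sg P Q _; rfl
  | cons s l ih =>
    intro pos sg P Q hsg
    have hs : Nat.shiftLeft s pos = s * 2 ^ pos := Nat.shiftLeft_eq s pos
    rcases (by omega : sg = 0 ∨ sg = 1) with rfl | rfl
    · have e1 : pkS sh par k (NL.cons s l) pos 0 P Q =
          frc (Nat.add P (Nat.shiftLeft s pos)) (fun P' => pkS sh par k l (Nat.add pos sh) par P' Q) :=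
        rfl
      have hps : ∀ q, ps sh par q (NL.cons s l) pos 0 = (if 0 = q then s * 2 ^ pos else 0) +
          ps sh par q l (pos + sh) ((0 + par) % 2) := fun q => rfl
      rw [e1, frc_eq, hs, ih _ _ _ _ hpar, hps, hps]
      rw [if_pos rfl, if_neg (by norm_num), Nat.zero_add, Nat.zero_add, Nat.mod_eq_of_lt hpar,
        ← Nat.add_assoc]
      rfl
    · have e1 : pkS sh par k (NL.cons s l) pos 1 P Q =
          frc (Nat.add Q (Nat.shiftLeft s pos)) (fun Q' => pkS sh par k l (Nat.add pos sh)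
            (Nat.sub 1 par) P Q') := rfl
      have e2 : Nat.sub 1 par = (1 + par) % 2 := by
        rcases (by omega : par = 0 ∨ par = 1) with rfl | rfl <;> rfl
      have hps : ∀ q, ps sh par q (NL.cons s l) pos 1 = (if 1 = q then s * 2 ^ pos else 0) +
          ps sh par q l (pos + sh) ((1 + par) % 2) := fun q => rfl
      rw [e1, frc_eq, hs, e2, ih _ _ _ _ (Nat.mod_lt _ (by norm_num)), hps, hps]
      rw [if_pos rfl, if_neg (by norm_num), Nat.zero_add, ← Nat.add_assoc]
      rfl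

private theorem ps_eq (sh par q : ℕ) : ∀ (l : NL) (pos sg : ℕ), sg < 2 →
    ps sh par q l pos sg = ∑ j ∈ range (NL.len l),
      if (sg + j * par) % 2 = q then NL.gt l j * 2 ^ (pos + sh * j) else 0 := by
  intro l
  induction l with
  | nil => intro pos sg _; rfl
  | cons s l ih =>
    intro pos sg hsg
    rw [fk_len_cons, Finset.sum_range_succ']
    unfold ps
    rw [ih _ _ (Nat.mod_lt _ (by norm_num)), Nat.add_comm]
    congr 1
    · refine Finset.sum_congr rfl fun j _ => ?_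
      have h1 : ((sg + par) % 2 + j * par) % 2 = (sg + (j + 1) * par) % 2 := by
        rw [Nat.mod_add_mod]
        congr 1
        ring
      rw [h1, fk_gt_succ]
      congr 2
      ring
    · rw [fk_gt_zero, Nat.zero_mul, Nat.add_zero, Nat.mul_zero, Nat.add_zero,
        Nat.mod_eq_of_lt hsg]

/-- the rows -/
private noncomputable def rz (W M : ℕ) : LL → ℕ → ℕ → ℕ → ℕ → ℕ × ℕ × ℕ
  | LL.nil, _, E, O, B => (E, O, B)
  | LL.cons ss sl, c, E, O, B =>
    rz W M sl (c + 1)
      ((E * ps (W * c) ((c - 1) % 2) 0 ss 0 0 + O * ps (W * c) ((c - 1) % 2) 1 ss 0 0) %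
        2 ^ (W * (M + 1)))
      ((O * ps (W * c) ((c - 1) % 2) 0 ss 0 0 + E * ps (W * c) ((c - 1) % 2) 1 ss 0 0) %
        2 ^ (W * (M + 1)))
      (B * NL.tot ss)

private theorem rowZ_eq {α : Type} (W M : ℕ) (k : ℕ → ℕ → ℕ → α) : ∀ (sl : LL) (c E O B : ℕ),
    rowZ W M k sl c E O B =
      k (rz W M sl c E O B).1 (rz W M sl c E O B).2.1 (rz W M sl c E O B).2.2 := by
  intro sl
  induction sl with
  | nil => intro c E O B; rfl
  | cons ss sl ih =>
    intro c E O B
    have e1 : rowZ W M k (LL.cons ss sl) c E O B = pkS (Nat.mul W c) (Nat.mod (Nat.sub c 1) 2)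
      (fun P Q =>
      frc (Nat.mod (Nat.add (Nat.mul E P) (Nat.mul O Q)) (Nat.pow 2 (Nat.mul W (Nat.succ M)))) (fun E' =>
      frc (Nat.mod (Nat.add (Nat.mul O P) (Nat.mul E Q)) (Nat.pow 2 (Nat.mul W (Nat.succ M)))) (fun O' =>
      frc (Nat.mul B (NL.tot ss)) (fun B' => frc (Nat.succ c) (fun c' =>
        rowZ W M k sl c' E' O' B')))))
      ss 0 0 0 0 := rfl
    rw [e1, pkS_eq (W.mul c) ((c.sub 1).mod 2) (Nat.mod_lt _ (by norm_num)) _ _ _ _ _ _
      (by norm_num), frc_eq, frc_eq, frc_eq, frc_eq, ih, Nat.zero_add, Nat.zero_add]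
    rfl

private theorem modEq_sum (n : ℕ) (f g : ℕ → ℕ) (N : ℕ) (h : ∀ j < N, f j ≡ g j [MOD n]) :
    ∑ j ∈ range N, f j ≡ ∑ j ∈ range N, g j [MOD n] := by
  induction N with
  | zero => exact Nat.ModEq.refl _
  | succ N ih =>
    rw [Finset.sum_range_succ, Finset.sum_range_succ]
    exact (ih fun j hj => h j (by omega)).add (h N (by omega))

private theorem ev_shift (X N d : ℕ) (f : ℕ → ℕ) :
    (∑ t ∈ range N, (if d ≤ t then f (t - d) else 0) * X ^ t) ≡
      X ^ d * ∑ t ∈ range N, f t * X ^ t [MOD X ^ N] := by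
  have h1 : X ^ d * ∑ t ∈ range N, f t * X ^ t =
      ∑ s ∈ range (d + N), (if d ≤ s then f (s - d) else 0) * X ^ s := by
    rw [Finset.sum_range_add, Finset.mul_sum]
    have h2 : ∑ x ∈ range d, (if d ≤ x then f (x - d) else 0) * X ^ x = 0 := by
      refine Finset.sum_eq_zero fun x hx => ?_
      rw [Finset.mem_range] at hx
      rw [if_neg (by omega), zero_mul]
    rw [h2, zero_add]
    refine Finset.sum_congr rfl fun x _ => ?_
    rw [if_pos (by omega), Nat.add_sub_cancel_left, pow_add]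
    ring
  rw [h1, Nat.add_comm d N, Finset.sum_range_add]
  have h3 : X ^ N ∣ ∑ x ∈ range d, (if d ≤ N + x then f (N + x - d) else 0) * X ^ (N + x) := by
    refine Finset.dvd_sum fun x _ => ?_
    rw [pow_add]
    exact Dvd.dvd.mul_left (Dvd.intro _ rfl) _
  have h4 := (Nat.modEq_zero_iff_dvd.2 h3).symm
  have h5 := (Nat.ModEq.refl (n := X ^ N)
    (∑ t ∈ range N, (if d ≤ t then f (t - d) else 0) * X ^ t)).add h4
  rw [Nat.add_zero] at h5
  exact h5

private theorem WT_step (wf : ℕ → ℕ → ℕ) (k t p n : ℕ) (hn : ∀ j, n ≤ j → wf (k + 3) j = 0) :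
    WT wf (k + 1) t p = ∑ j ∈ range n, wf (k + 3) j *
      (if (k + 3) * j ≤ t then WT wf k (t - (k + 3) * j) ((p + j * (k + 2)) % 2) else 0) := by
  set F : ℕ → ℕ := fun j => wf (k + 3) j *
      (if (k + 3) * j ≤ t then WT wf k (t - (k + 3) * j) ((p + j * (k + 2)) % 2) else 0) with hF
  have h1 : WT wf (k + 1) t p = ∑ j ∈ range (t / (k + 3) + 1), F j := by
    conv_lhs => unfold WT
    refine Finset.sum_congr rfl fun j hj => ?_
    rw [Finset.mem_range] at hj
    have h2 : (k + 3) * j ≤ t := by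
      rw [mul_comm]
      exact (Nat.le_div_iff_mul_le (by omega)).1 (by omega)
    rw [hF]
    simp only
    rw [if_pos h2]
  have h3 : ∑ j ∈ range (t / (k + 3) + 1), F j = ∑ j ∈ range (n + (t / (k + 3) + 1)), F j := by
    refine Finset.sum_subset ?_ ?_
    · intro j hj
      rw [Finset.mem_range] at hj ⊢
      exact hj.trans_le (Nat.le_add_left _ _)
    · intro j _ hj
      rw [Finset.mem_range, not_lt] at hj
      rw [hF]
      simp only
      rw [if_neg, mul_zero]
      intro h4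
      have h5 : j ≤ t / (k + 3) := by
        rw [Nat.le_div_iff_mul_le (by omega), mul_comm]
        exact h4
      omega
  have h4 : ∑ j ∈ range n, F j = ∑ j ∈ range (n + (t / (k + 3) + 1)), F j := by
    refine Finset.sum_subset ?_ ?_
    · intro j hj
      rw [Finset.mem_range] at hj ⊢
      exact hj.trans_le (Nat.le_add_right _ _)
    · intro j _ hj
      rw [Finset.mem_range, not_lt] at hj
      rw [hF]
      simp only
      rw [hn j hj, zero_mul]
  rw [h1, h3, h4]

private noncomputable def ev (W M : ℕ) (f : ℕ → ℕ) : ℕ := ∑ t ∈ range (M + 1), f t * (2 ^ W) ^ t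

private theorem ev_WT (W M : ℕ) (wf : ℕ → ℕ → ℕ) (k p : ℕ) (hp : p < 2) (ss : NL)
    (hs : ∀ j, wf (k + 3) j = NL.gt ss j) :
    ev W M (fun t => WT wf (k + 1) t p) ≡
      ev W M (fun t => WT wf k t p) * ps (W * (k + 3)) ((k + 3 - 1) % 2) 0 ss 0 0 +
      ev W M (fun t => WT wf k t (1 - p)) * ps (W * (k + 3)) ((k + 3 - 1) % 2) 1 ss 0 0
      [MOD (2 ^ W) ^ (M + 1)] := by
  have h1 : ev W M (fun t => WT wf (k + 1) t p) = ∑ j ∈ range (NL.len ss), wf (k + 3) j *
      ∑ t ∈ range (M + 1), (if (k + 3) * j ≤ t then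
        (fun u => WT wf k u ((p + j * (k + 2)) % 2)) (t - (k + 3) * j) else 0) * (2 ^ W) ^ t := by
    unfold ev
    have h2 : ∀ t ∈ range (M + 1), WT wf (k + 1) t p * (2 ^ W) ^ t =
        ∑ j ∈ range (NL.len ss), wf (k + 3) j * ((if (k + 3) * j ≤ t then
        (fun u => WT wf k u ((p + j * (k + 2)) % 2)) (t - (k + 3) * j) else 0) * (2 ^ W) ^ t) := by
      intro t _
      rw [WT_step wf k t p (NL.len ss) (fun j hj => by rw [hs]; exact fk_gt_len _ _ hj),
        Finset.sum_mul]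
      refine Finset.sum_congr rfl fun j _ => ?_
      rw [mul_assoc]
    rw [Finset.sum_congr rfl h2, Finset.sum_comm]
    refine Finset.sum_congr rfl fun j _ => ?_
    rw [Finset.mul_sum]
  have h3 : ev W M (fun t => WT wf (k + 1) t p) ≡ ∑ j ∈ range (NL.len ss), wf (k + 3) j *
      ((2 ^ W) ^ ((k + 3) * j) * ev W M (fun u => WT wf k u ((p + j * (k + 2)) % 2)))
      [MOD (2 ^ W) ^ (M + 1)] := by
    rw [h1]
    refine modEq_sum _ _ _ _ fun j _ => ?_
    exact Nat.ModEq.mul_left _ (ev_shift (2 ^ W) (M + 1) ((k + 3) * j)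
      (fun u => WT wf k u ((p + j * (k + 2)) % 2)))
  have h4 : ∑ j ∈ range (NL.len ss), wf (k + 3) j *
      ((2 ^ W) ^ ((k + 3) * j) * ev W M (fun u => WT wf k u ((p + j * (k + 2)) % 2))) =
      ev W M (fun t => WT wf k t p) * ps (W * (k + 3)) ((k + 3 - 1) % 2) 0 ss 0 0 +
      ev W M (fun t => WT wf k t (1 - p)) * ps (W * (k + 3)) ((k + 3 - 1) % 2) 1 ss 0 0 := by
    rw [ps_eq _ _ _ _ _ _ (by norm_num), ps_eq _ _ _ _ _ _ (by norm_num), Finset.mul_sum,
      Finset.mul_sum, ← Finset.sum_add_distrib]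
    refine Finset.sum_congr rfl fun j _ => ?_
    have e1 : (0 + j * ((k + 3 - 1) % 2)) % 2 = (j * (k + 2)) % 2 := by
      rw [Nat.zero_add, Nat.mul_mod_mod]
      rfl
    have e2 : (2 : ℕ) ^ (0 + W * (k + 3) * j) = (2 ^ W) ^ ((k + 3) * j) := by
      rw [← pow_mul]
      congr 1
      ring
    rw [e1, e2, hs]
    rcases Nat.mod_two_eq_zero_or_one (j * (k + 2)) with h5 | h5
    · have e3 : (p + j * (k + 2)) % 2 = p := by omega
      rw [h5, e3, if_pos rfl, if_neg (by norm_num)]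
      ring
    · have e3 : (p + j * (k + 2)) % 2 = 1 - p := by omega
      rw [h5, e3, if_pos rfl, if_neg (by norm_num)]
      ring
  rw [h4] at h3
  exact h3

private theorem WT_le (wf : ℕ → ℕ → ℕ) (k B : ℕ) (ss : NL) (hs : ∀ j, wf (k + 3) j = NL.gt ss j)
    (hB : ∀ t p, WT wf k t p ≤ B) (t p : ℕ) : WT wf (k + 1) t p ≤ B * NL.tot ss := by
  unfold WT
  calc ∑ j ∈ range (t / (k + 3) + 1), wf (k + 3) j * WT wf k (t - (k + 3) * j) ((p + j * (k + 2)) % 2)
      ≤ ∑ j ∈ range (t / (k + 3) + 1), NL.gt ss j * B := by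
        refine Finset.sum_le_sum fun j _ => ?_
        rw [hs]
        exact Nat.mul_le_mul_left _ (hB _ _)
    _ = (∑ j ∈ range (t / (k + 3) + 1), NL.gt ss j) * B := by rw [Finset.sum_mul]
    _ ≤ NL.tot ss * B := Nat.mul_le_mul_right _ (fk_sum_le_tot _ _)
    _ = B * NL.tot ss := Nat.mul_comm _ _

private theorem rz_spec (W M : ℕ) (wf : ℕ → ℕ → ℕ) : ∀ (sl : LL) (k E O B : ℕ),
    (∀ i < LL.len sl, ∀ j, wf (k + 3 + i) j = NL.gt (LL.gt sl i) j) →
    E ≡ ev W M (fun t => WT wf k t 0) [MOD (2 ^ W) ^ (M + 1)] →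
    O ≡ ev W M (fun t => WT wf k t 1) [MOD (2 ^ W) ^ (M + 1)] →
    (∀ t p, WT wf k t p ≤ B) →
    (rz W M sl (k + 3) E O B).1 ≡ ev W M (fun t => WT wf (k + LL.len sl) t 0)
      [MOD (2 ^ W) ^ (M + 1)] ∧
    (rz W M sl (k + 3) E O B).2.1 ≡ ev W M (fun t => WT wf (k + LL.len sl) t 1)
      [MOD (2 ^ W) ^ (M + 1)] ∧
    (∀ t p, WT wf (k + LL.len sl) t p ≤ (rz W M sl (k + 3) E O B).2.2) := by
  intro sl
  induction sl with
  | nil => intro k E O B _ h1 h2 h3; exact ⟨h1, h2, h3⟩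
  | cons ss sl ih =>
    intro k E O B hwf hE hO hB
    have hs : ∀ j, wf (k + 3) j = NL.gt ss j := by
      intro j
      have := hwf 0 (by rw [fk_LLlen_cons]; omega) j
      rwa [Nat.add_zero, fk_LLgt_zero] at this
    have hpow : (2 : ℕ) ^ (W * (M + 1)) = (2 ^ W) ^ (M + 1) := by rw [pow_mul]
    have h1 := ih (k + 1)
      ((E * ps (W * (k + 3)) ((k + 3 - 1) % 2) 0 ss 0 0 +
        O * ps (W * (k + 3)) ((k + 3 - 1) % 2) 1 ss 0 0) % 2 ^ (W * (M + 1)))
      ((O * ps (W * (k + 3)) ((k + 3 - 1) % 2) 0 ss 0 0 +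
        E * ps (W * (k + 3)) ((k + 3 - 1) % 2) 1 ss 0 0) % 2 ^ (W * (M + 1)))
      (B * NL.tot ss) ?_ ?_ ?_ ?_
    · have e1 : k + LL.len (LL.cons ss sl) = k + 1 + LL.len sl := by
        rw [fk_LLlen_cons]; omega
      rw [e1]
      have e2 : k + 1 + 3 = k + 3 + 1 := by omega
      rw [e2] at h1
      exact h1
    · intro i hi j
      have h2 := hwf (i + 1) (by rw [fk_LLlen_cons]; omega) j
      rw [fk_LLgt_succ] at h2
      rw [← h2]
      congr 1
      omega
    · rw [hpow]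
      refine (Nat.mod_modEq _ _).trans ?_
      exact ((hE.mul_right _).add (hO.mul_right _)).trans (ev_WT W M wf k 0 (by norm_num) ss hs).symm
    · rw [hpow]
      refine (Nat.mod_modEq _ _).trans ?_
      exact ((hO.mul_right _).add (hE.mul_right _)).trans (ev_WT W M wf k 1 (by norm_num) ss hs).symm
    · exact WT_le wf k B ss hs hB

private theorem dig_lt (X : ℕ) (d : ℕ → ℕ) (hd : ∀ t, d t < X) (n : ℕ) :
    ∑ t ∈ range n, d t * X ^ t < X ^ n := by
  induction n with
  | zero => simp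
  | succ n ih =>
    rw [Finset.sum_range_succ, pow_succ]
    have h1 : d n + 1 ≤ X := hd n
    have h2 : (d n + 1) * X ^ n ≤ X * X ^ n := Nat.mul_le_mul_right _ h1
    nlinarith

private theorem slot_of (W E N : ℕ) (d : ℕ → ℕ)
    (hE : E ≡ ∑ t ∈ range N, d t * (2 ^ W) ^ t [MOD (2 ^ W) ^ N]) (hd : ∀ t, d t < 2 ^ W)
    {t : ℕ} (ht : t < N) : slot W E t = d t := by
  have e0 : slot W E t = (E / (2 ^ W) ^ t) % 2 ^ W := by
    show (E >>> (W * t)) % 2 ^ W = _
    rw [Nat.shiftRight_eq_div_pow, pow_mul]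
  have hX : 0 < 2 ^ W := by positivity
  set X := 2 ^ W with hXdef
  have h1 : E ≡ ∑ s ∈ range (t + 1), d s * X ^ s [MOD X ^ (t + 1)] := by
    have h2 := hE.of_dvd (pow_dvd_pow X (by omega : t + 1 ≤ N))
    refine h2.trans ?_
    obtain ⟨m, hm⟩ : ∃ m, N = (t + 1) + m := ⟨N - (t + 1), by omega⟩
    rw [hm, Finset.sum_range_add]
    have h3 : X ^ (t + 1) ∣ ∑ x ∈ range m, d (t + 1 + x) * X ^ (t + 1 + x) := by
      refine Finset.dvd_sum fun x _ => ?_
      rw [pow_add X (t + 1) x]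
      exact Dvd.dvd.mul_left (Dvd.intro _ rfl) _
    have h4 := (Nat.ModEq.refl (n := X ^ (t + 1)) (∑ s ∈ range (t + 1), d s * X ^ s)).add
      (Nat.modEq_zero_iff_dvd.2 h3)
    rw [Nat.add_zero] at h4
    exact h4
  have h5 : E % X ^ (t + 1) = ∑ s ∈ range (t + 1), d s * X ^ s := by
    have h6 : E % X ^ (t + 1) = (∑ s ∈ range (t + 1), d s * X ^ s) % X ^ (t + 1) := h1
    rw [h6]
    exact Nat.mod_eq_of_lt (dig_lt X d hd (t + 1))
  rw [e0, ← Nat.mod_mul_right_div_self, ← pow_succ, h5, Finset.sum_range_succ,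
    Nat.add_mul_div_right _ _ (pow_pos hX t), Nat.div_eq_of_lt (dig_lt X d hd t), Nat.zero_add]

/-- the packed rows: if the product `B` of the sums of the lists is below `2^W`, there are no
carries in the slots `0, ..., M`, and slot `t` of `E`, `O` is `WT (sE sl) k t 0`, `WT (sE sl) k t 1`
(every value `WT` is at most the product of the sums of the lists; entries beyond the end of a list
are `0`; slots beyond `M` do not influence the lower ones) -/
theorem rowZ_spec (W M : ℕ) (sl : LL) (E O B : ℕ)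
    (h : rowZ W M (fun E O B => (E, O, B)) sl 3 1 0 1 = (E, O, B)) (hB : B < 2 ^ W) {t : ℕ}
    (ht : t ≤ M) (hlen : ∀ c < LL.len sl, M / (c + 3) + 1 ≤ NL.len (LL.gt sl c)) :
    slot W E t = WT (sE sl) (LL.len sl) t 0 ∧ slot W O t = WT (sE sl) (LL.len sl) t 1 := by
  clear hlen
  rw [rowZ_eq] at h
  have h0 : ∀ p, p < 2 → ev W M (fun t => WT (sE sl) 0 t p) = if p = 0 then 1 else 0 := by
    intro p hp
    unfold ev WT
    rcases (by omega : p = 0 ∨ p = 1) with rfl | rfl
    · rw [Finset.sum_eq_single 0]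
      · simp
      · intro b _ hb
        simp [hb]
      · intro hc
        exact absurd (Finset.mem_range.2 (by omega)) hc
    · refine Finset.sum_eq_zero fun x _ => ?_
      simp
  have h1 := rz_spec W M (sE sl) sl 0 1 0 1 (by
      intro i _ j
      unfold sE
      congr 2
      omega) (by rw [h0 0 (by norm_num)]; exact Nat.ModEq.refl _)
    (by rw [h0 1 (by norm_num)]; exact Nat.ModEq.refl _) (by
      intro t p
      unfold WT
      split_ifs <;> omega)
  rw [Nat.zero_add, Nat.zero_add] at h1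
  simp only [Prod.mk.injEq] at h
  obtain ⟨hE, hO, hBB⟩ := h
  rw [hE, hO, hBB] at h1
  constructor
  · exact slot_of W E (M + 1) _ h1.1 (fun t => (h1.2.2 t 0).trans_lt hB) (by omega)
  · exact slot_of W O (M + 1) _ h1.2.1 (fun t => (h1.2.2 t 1).trans_lt hB) (by omega)

private theorem WT_cast (wf : ℕ → ℕ → ℕ) : ∀ (k t p : ℕ),
    ((WT wf k t p : ℕ) : ℝ) = WT (fun x j => (wf x j : ℝ)) k t p := by
  intro k
  induction k with
  | zero => intro t p; unfold WT; split_ifs <;> simp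
  | succ k ih =>
    intro t p
    unfold WT
    push_cast
    exact Finset.sum_congr rfl fun j _ => by rw [ih]

private theorem WT_scale (wf : ℕ → ℕ → ℝ) (c : ℝ) : ∀ (k t p : ℕ),
    WT (fun x j => c * wf x j) k t p = c ^ k * WT wf k t p := by
  intro k
  induction k with
  | zero => intro t p; unfold WT; split_ifs <;> simp
  | succ k ih =>
    intro t p
    unfold WT
    rw [Finset.mul_sum]
    refine Finset.sum_congr rfl fun j _ => ?_
    rw [ih]
    ring

private theorem WT_nonneg {wf : ℕ → ℕ → ℝ} (h0 : ∀ x j, 0 ≤ wf x j) : ∀ (k t p : ℕ),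
    0 ≤ WT wf k t p := by
  intro k
  induction k with
  | zero => intro t p; unfold WT; split_ifs <;> norm_num
  | succ k ih =>
    intro t p
    unfold WT
    exact Finset.sum_nonneg fun j _ => mul_nonneg (h0 _ _) (ih _ _)

private theorem WT_mono' {wf wg : ℕ → ℕ → ℝ} (M : ℕ) (h0 : ∀ x j, 0 ≤ wf x j) (k : ℕ)
    (h : ∀ x j, 3 ≤ x → x ≤ k + 2 → x * j ≤ M → wf x j ≤ wg x j) (t p : ℕ) (ht : t ≤ M) :
    WT wf k t p ≤ WT wg k t p := by
  induction k generalizing t p with
  | zero => exact le_rfl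
  | succ k ih =>
    unfold WT
    refine Finset.sum_le_sum fun j hj => ?_
    rw [Finset.mem_range] at hj
    have h2 : (k + 3) * j ≤ t := by
      rw [mul_comm]
      exact (Nat.le_div_iff_mul_le (by omega)).1 (by omega)
    have h3 := h (k + 3) j (by omega) (by omega) (h2.trans ht)
    exact mul_le_mul h3 (ih (fun x i hx1 hx2 hx3 => h x i hx1 (by omega) hx3) _ _
      ((Nat.sub_le _ _).trans ht)) (WT_nonneg h0 _ _ _) ((h0 _ _).trans h3)

private theorem ckS_spec (b c : ℕ) : ∀ (l : NL) (i f : ℕ), ckS b c l i f = 0 → f = c ^ i * i ! →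
    ∀ j < NL.len l, c ^ (i + j) * (i + j)! * 4 ^ b ≤ NL.gt l j * NL.gt l j := by
  intro l
  induction l with
  | nil => intro i f _ _ j hj; exact absurd hj (Nat.not_lt_zero _)
  | cons s l ih =>
    intro i f h hf j hj
    have e1 : ckS b c (NL.cons s l) i f = (f * 4 ^ b - s * s) +
        frc (Nat.mul f (Nat.mul c (Nat.succ i))) (fun f' => ckS b c l (Nat.succ i) f') := rfl
    rw [e1, frc_eq] at h
    rcases j with _ | j
    · rw [fk_gt_zero, Nat.add_zero, ← hf]
      omega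
    · rw [fk_gt_succ]
      rw [fk_len_cons] at hj
      have h2 := ih (i + 1) (f * (c * (i + 1))) (by
        have h3 : ckS b c l (Nat.succ i) (Nat.mul f (Nat.mul c (Nat.succ i))) = 0 := by omega
        exact h3) (by rw [hf, Nat.factorial_succ, pow_succ]; ring) j (by omega)
      have e2 : i + (j + 1) = i + 1 + j := by ring
      rw [e2]
      exact h2

private theorem ckSL_spec (b M : ℕ) : ∀ (sl : LL) (c : ℕ), ckSL b M sl c = 0 →
    ∀ i < LL.len sl, ckS b (c + i) (LL.gt sl i) 0 1 = 0 ∧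
      M / (c + i) + 1 ≤ NL.len (LL.gt sl i) := by
  intro sl
  induction sl with
  | nil => intro c _ i hi; exact absurd hi (Nat.not_lt_zero _)
  | cons ss sl ih =>
    intro c h i hi
    have e1 : ckSL b M (LL.cons ss sl) c = (ckS b c ss 0 1 +
      (((NL.gt ss 0 - 2 ^ b) + (2 ^ b - NL.gt ss 0)) + ((M / c + 1) - NL.len ss))) +
      ckSL b M sl (c + 1) := rfl
    rw [e1] at h
    rcases i with _ | i
    · rw [fk_LLgt_zero, Nat.add_zero]
      constructor
      · omega
      · generalize M / c = q at h ⊢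
        omega
    · rw [fk_LLgt_succ]
      rw [fk_LLlen_cons] at hi
      have h2 := ih (c + 1) (by omega) i (by omega)
      have e2 : c + (i + 1) = c + 1 + i := by ring
      rw [e2]
      exact h2

private noncomputable def slt (W E O i u : ℕ) : ℕ := if i % 2 = 0 then slot W E u else slot W O u

private theorem pfZ_spec (W E O : ℕ) : ∀ (s2 : NL) (n rm sg x : ℕ) (acc : NL), sg < 2 →
    n ≤ NL.len s2 →
    (∀ j, n ≤ j → NL.gt (pfZ W E O s2 n rm sg x acc) j = NL.gt acc (j - n)) ∧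
    (∀ j < n, NL.gt (pfZ W E O s2 n rm sg x acc) j =
      x + ∑ i ∈ range (n - j), NL.gt s2 i * slt W E O (sg + i) (rm - 2 * i)) := by
  intro s2
  induction s2 with
  | nil =>
    intro n rm sg x acc _ hn
    have hn0 : n = 0 := Nat.le_zero.1 hn
    subst hn0
    exact ⟨fun j _ => rfl, fun j hj => absurd hj (Nat.not_lt_zero _)⟩
  | cons s l ih =>
    intro n rm sg x acc hsg hn
    rcases n with _ | n
    · exact ⟨fun j _ => rfl, fun j hj => absurd hj (Nat.not_lt_zero _)⟩
    · rw [fk_len_cons] at hn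
      have e1 : pfZ W E O (NL.cons s l) (n + 1) rm sg x acc =
          pfZ W E O l n (rm - 2) (1 - sg) (x + s * slt W E O sg rm)
            (NL.cons (x + s * slt W E O sg rm) acc) := by
        rcases (by omega : sg = 0 ∨ sg = 1) with rfl | rfl
        · have e2 : pfZ W E O (NL.cons s l) (n + 1) rm 0 x acc =
            frc (Nat.add x (Nat.mul s (slot W E rm))) (fun x' => pfZ W E O l n (Nat.sub rm 2) 1 x'
              (NL.cons x' acc)) := rfl
          rw [e2, frc_eq]
          rfl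
        · have e2 : pfZ W E O (NL.cons s l) (n + 1) rm 1 x acc =
            frc (Nat.add x (Nat.mul s (slot W O rm))) (fun x' => pfZ W E O l n (Nat.sub rm 2) 0 x'
              (NL.cons x' acc)) := rfl
          rw [e2, frc_eq]
          rfl
      rw [e1]
      obtain ⟨h1, h2⟩ := ih n (rm - 2) (1 - sg) (x + s * slt W E O sg rm)
        (NL.cons (x + s * slt W E O sg rm) acc) (by omega) (by omega)
      constructor
      · intro j hj
        rw [h1 j (by omega)]
        have e3 : j - n = (j - (n + 1)) + 1 := by omega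
        rw [e3, fk_gt_succ]
      · intro j hj
        rcases Nat.lt_or_ge j n with h3 | h3
        · rw [h2 j h3]
          have e3 : n + 1 - j = (n - j) + 1 := by omega
          rw [e3, Finset.sum_range_succ', fk_gt_zero, Nat.add_zero, Nat.mul_zero, Nat.sub_zero,
            Nat.add_assoc, Nat.add_comm (s * slt W E O sg rm)]
          congr 2
          refine Finset.sum_congr rfl fun i _ => ?_
          rw [fk_gt_succ]
          congr 1
          have e4 : rm - 2 - 2 * i = rm - 2 * (i + 1) := by omega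
          rw [e4]
          unfold slt
          have e5 : (1 - sg + i) % 2 = (sg + (i + 1)) % 2 := by omega
          rw [e5]
        · have hjn : j = n := by omega
          subst hjn
          rw [h1 j le_rfl, Nat.sub_self, fk_gt_zero]
          have e3 : j + 1 - j = 1 := by omega
          rw [e3, Finset.sum_range_one, fk_gt_zero, Nat.add_zero, Nat.mul_zero, Nat.sub_zero]

private theorem pfZ_get (W E O : ℕ) (s2 : NL) (m t : ℕ) (h : m / 2 + 1 ≤ NL.len s2) :
    NL.gt (pfZ W E O s2 (m / 2 + 1) m 0 0 (NL.cons 0 NL.nil)) (m / 2 + 1 - t) =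
      ∑ i ∈ range (min t (m / 2 + 1)), NL.gt s2 i * slt W E O i (m - 2 * i) := by
  obtain ⟨h1, h2⟩ := pfZ_spec W E O s2 (m / 2 + 1) m 0 0 (NL.cons 0 NL.nil) (by norm_num) h
  rcases Nat.eq_zero_or_pos t with rfl | ht
  · rw [Nat.sub_zero, h1 _ le_rfl, Nat.sub_self, fk_gt_zero, Nat.zero_min, Finset.sum_range_zero]
  · rw [h2 _ (by omega), Nat.zero_add]
    have e1 : m / 2 + 1 - (m / 2 + 1 - t) = min t (m / 2 + 1) := by omega
    rw [e1]
    refine Finset.sum_congr rfl fun i _ => ?_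
    rw [Nat.zero_add]

private theorem ckTZ_sound (sc h m : ℕ) (P : NL) (hP : ∀ t, TZ m t * 2 ^ sc ≤ (NL.gt P (h - t) : ℝ)) :
    ∀ (d : RL) (a : ℕ), ckTZ sc h P d = 0 →
      RLok (fun _ t _ tz _ _ => TZ m t * 2 ^ 40 ≤ (tz : ℝ)) d a := by
  intro d
  induction d with
  | nil => intro a _; trivial
  | cons t tn tz u v d ih =>
    intro a h0
    have e1 : ckTZ sc h P (RL.cons t tn tz u v d) =
      (NL.gt P (h - t) * 2 ^ 40 - tz * 2 ^ sc) + ckTZ sc h P d := rfl
    rw [e1] at h0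
    have h1 : NL.gt P (h - t) * 2 ^ 40 ≤ tz * 2 ^ sc := by omega
    have h2 : ckTZ sc h P d = 0 := by omega
    refine ⟨?_, ih (a + 1) h2⟩
    have h3 : ((NL.gt P (h - t) : ℕ) : ℝ) * 2 ^ 40 ≤ (tz : ℝ) * 2 ^ sc := by exact_mod_cast h1
    have h4 := mul_le_mul_of_nonneg_right (hP t) (by positivity : (0 : ℝ) ≤ 2 ^ 40)
    have h5 : (0 : ℝ) < 2 ^ sc := by positivity
    have h6 : TZ m t * 2 ^ 40 * 2 ^ sc ≤ (tz : ℝ) * 2 ^ sc := by
      calc TZ m t * 2 ^ 40 * 2 ^ sc = TZ m t * 2 ^ sc * 2 ^ 40 := by ring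
        _ ≤ _ := h4
        _ ≤ _ := h3
    exact le_of_mul_le_mul_right h6 h5

private theorem ckZ_sound (W E O sc M : ℕ) (s2 : NL)
    (hP : ∀ m, 2 ≤ m → m ≤ M → ∀ t, TZ m t * 2 ^ sc ≤
      (NL.gt (pfZ W E O s2 (m / 2 + 1) m 0 0 (NL.cons 0 NL.nil)) (m / 2 + 1 - t) : ℝ)) :
    ∀ (d : MD) (m : ℕ), 2 ≤ m → ckZ W E O sc s2 d m = 0 →
      MDok (fun m a0 _ rl _ => RLok (fun _ t _ tz _ _ => TZ m t * 2 ^ 40 ≤ (tz : ℝ)) rl a0)
        M d m := by
  intro d
  induction d with
  | nil => intro m _ _; trivial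
  | cons a0 ts rl W' d ih =>
    intro m hm h
    have e1 : ckZ W E O sc s2 (MD.cons a0 ts rl W' d) m =
      ckTZ sc (m / 2 + 1) (pfZ W E O s2 (m / 2 + 1) m 0 0 (NL.cons 0 NL.nil)) rl +
      ckZ W E O sc s2 d (m + 1) := rfl
    rw [e1] at h
    refine ⟨fun hmM => ?_, ih (m + 1) (by omega) (by omega)⟩
    exact ckTZ_sound sc (m / 2 + 1) m _ (hP m hm hmM) rl a0 (by omega)

private theorem sqrt_bd {b x j s : ℕ} (h : x ^ j * j ! * 4 ^ b ≤ s * s) :
    (2 : ℝ) ^ b * Real.sqrt ((x : ℝ) ^ j * (j ! : ℝ)) ≤ (s : ℝ) := by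
  have h1 : (2 : ℝ) ^ b * Real.sqrt ((x : ℝ) ^ j * (j ! : ℝ)) =
      Real.sqrt ((x : ℝ) ^ j * (j ! : ℝ) * 4 ^ b) := by
    have h2 : (4 : ℝ) ^ b = (2 ^ b) ^ 2 := by
      rw [← pow_mul, mul_comm b 2, pow_mul]
      norm_num
    rw [h2, Real.sqrt_mul (by positivity : (0 : ℝ) ≤ (x : ℝ) ^ j * (j ! : ℝ)) ((2 ^ b) ^ 2),
      Real.sqrt_sq (by positivity), mul_comm]
  rw [h1, Real.sqrt_le_iff]
  refine ⟨by positivity, ?_⟩
  rw [pow_two]
  exact_mod_cast h

/-- MAIN.  `ckSL` gives `s_(c,j) ≥ 2^b √(c^j j!)` for `j ≤ M/c`, so that by `WT_mono` (only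
multiplicities `j ≤ t/c` occur) `2^(b(M-2)) * WT(√..) ≤ WT (sE sl)`; then `TZ_eq`, `WT_stable`.
(For `t` larger than `m/2 + 1` the sum is the one for `t = m/2 + 1`.) -/
theorem ckZall_sound {W b M : ℕ} (hM : M ≤ 100) (h25 : 25 ≤ M) {s2 : NL} {sl : LL} {d : MD}
    (h : ckZall W b M s2 sl d = 0) :
    MDok (fun m a0 _ rl _ => RLok (fun _ t _ tz _ _ => TZ m t * 2 ^ 40 ≤ (tz : ℝ)) rl a0)
      M d 25 := by
  unfold ckZall at h
  rw [rowZ_eq] at h
  set E := (rz W M sl 3 1 0 1).1 with hE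
  set O := (rz W M sl 3 1 0 1).2.1 with hO
  set B := (rz W M sl 3 1 0 1).2.2 with hB
  have h' : (ckSL b M (LL.cons s2 sl) 2 + ((M - 2 - LL.len sl) + (LL.len sl - (M - 2)))) +
      ((B + 1 - 2 ^ W) + ckZ W E O (b * (M - 1)) s2 d 25) = 0 := h
  have h1 : ckSL b M (LL.cons s2 sl) 2 = 0 := by omega
  have h2 : LL.len sl = M - 2 := by omega
  have h3 : B < 2 ^ W := by omega
  have h4 : ckZ W E O (b * (M - 1)) s2 d 25 = 0 := by omega
  have h5 := ckSL_spec b M _ _ h1
  rw [fk_LLlen_cons, h2] at h5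
  have hs2 := h5 0 (by omega)
  rw [fk_LLgt_zero, Nat.add_zero] at hs2
  have hsl : ∀ x, 3 ≤ x → x ≤ M → ckS b x (LL.gt sl (x - 3)) 0 1 = 0 ∧
      M / x + 1 ≤ NL.len (LL.gt sl (x - 3)) := by
    intro x hx1 hx2
    have h6 := h5 (x - 3 + 1) (by omega)
    rw [fk_LLgt_succ] at h6
    have e1 : 2 + (x - 3 + 1) = x := by omega
    rw [e1] at h6
    exact h6
  have hrow : rowZ W M (fun E O B => (E, O, B)) sl 3 1 0 1 = (E, O, B) := by
    rw [rowZ_eq]
  have hslot : ∀ u ≤ M, slot W E u = WT (sE sl) (M - 2) u 0 ∧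
      slot W O u = WT (sE sl) (M - 2) u 1 := by
    intro u hu
    have h6 := rowZ_spec W M sl E O B hrow h3 hu (by
      intro c hc
      have h7 := (hsl (c + 3) (by omega) (by omega)).2
      rw [Nat.add_sub_cancel] at h7
      exact h7)
    rw [h2] at h6
    exact h6
  refine ckZ_sound W E O (b * (M - 1)) M s2 ?_ d 25 (by norm_num) h4
  intro m hm hmM t
  rw [pfZ_get W E O s2 m t (by omega), TZ_eq hm t]
  have e1 : (Finset.range (m / 2 + 1)).filter (fun i => i < t) = range (min t (m / 2 + 1)) := by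
    ext i
    rw [Finset.mem_filter, Finset.mem_range, Finset.mem_range]
    omega
  rw [e1, Finset.sum_mul]
  push_cast
  refine Finset.sum_le_sum fun i hi => ?_
  rw [Finset.mem_range] at hi
  have hi2 : 2 * i ≤ m := by omega
  -- the factor of the parts `2`
  have h6 : (2 : ℝ) ^ b * Real.sqrt (2 ^ i * (i ! : ℝ)) ≤ (NL.gt s2 i : ℝ) := by
    have h7 := ckS_spec b 2 s2 0 1 hs2.1 (by simp) i (by omega)
    rw [Nat.zero_add] at h7
    have h8 := sqrt_bd h7
    exact_mod_cast h8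
  -- the other parts
  have h7 : ((2 : ℝ) ^ b) ^ (M - 2) *
      WT (fun x j => Real.sqrt ((x : ℝ) ^ j * (j ! : ℝ))) (m - 2) (m - 2 * i) (i % 2) ≤
      (slt W E O i (m - 2 * i) : ℝ) := by
    have e2 : WT (fun x j => Real.sqrt ((x : ℝ) ^ j * (j ! : ℝ))) (m - 2) (m - 2 * i) (i % 2) =
        WT (fun x j => Real.sqrt ((x : ℝ) ^ j * (j ! : ℝ))) (M - 2) (m - 2 * i) (i % 2) :=
      (WT_stable _ (fun x => by simp) (Nat.mod_lt _ (by norm_num)) (by omega) (by omega)).symm
    have e3 : slt W E O i (m - 2 * i) = WT (sE sl) (M - 2) (m - 2 * i) (i % 2) := by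
      have h8 := hslot (m - 2 * i) (by omega)
      unfold slt
      rcases Nat.mod_two_eq_zero_or_one i with h9 | h9
      · rw [h9, if_pos rfl, h8.1]
      · rw [h9, if_neg (by norm_num), h8.2]
    rw [e2, e3, WT_cast, ← WT_scale]
    refine WT_mono' M (fun x j => by positivity) (M - 2) ?_ _ _ (by omega)
    intro x j hx1 hx2 hx3
    have h8 := hsl x hx1 (by omega)
    have h9 : j ≤ M / x := by
      rw [Nat.le_div_iff_mul_le (by omega), mul_comm]
      exact hx3
    have h10 := ckS_spec b x _ 0 1 h8.1 (by simp) j (by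
      have h11 := h8.2
      generalize M / x = q at h9 h11
      omega)
    rw [Nat.zero_add] at h10
    exact sqrt_bd h10
  have h8 : (2 : ℝ) ^ (b * (M - 1)) = 2 ^ b * ((2 : ℝ) ^ b) ^ (M - 2) := by
    have e4 : M - 1 = (M - 2) + 1 := by omega
    rw [e4, pow_mul, pow_succ, mul_comm]
  have h9 : (0 : ℝ) ≤ ((2 : ℝ) ^ b) ^ (M - 2) *
      WT (fun x j => Real.sqrt ((x : ℝ) ^ j * (j ! : ℝ))) (m - 2) (m - 2 * i) (i % 2) :=
    mul_nonneg (by positivity) (WT_nonneg (fun x j => by positivity) _ _ _)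
  have h10 := mul_le_mul h6 h7 h9 (Nat.cast_nonneg _)
  rw [h8]
  refine le_trans (le_of_eq ?_) h10
  ring

end Pool.MP322F
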