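import Pool.Agent.Lib.MP_322c5f_alF.FK01
import Pool.Agent.Lib.MP_322c5f_alF.FD04

/-! Soundness of the table of the dimensions, and of the bounds for the classes without fixed
points. -/

set_option autoImplicit false

open Finset Equiv Nat
open scoped NNReal

namespace Pool.MP322F

open Pool.MP322

theorem bin_eq (n k : ℕ) : bin n k = n.choose k := by
  induction k with
  | zero => rw [Nat.choose_zero_right]; rfl
  | succ j ih =>
    have h1 : bin n (j + 1) = (bin n j * (n - j)) / (j + 1) := rfl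
    rw [h1, ih, ← Nat.choose_succ_right_eq, Nat.mul_div_cancel _ (Nat.succ_pos j)]

theorem lln_eq (m a : ℕ) : lln m a = LLn m a := by
  have h1 : lln m a = (a + (m - a) / a + 1) * bin (a + (m - a) / a) ((m - a) / a) := rfl
  rw [h1, bin_eq]
  rfl

theorem lld_eq (m a : ℕ) : lld m a = LLd m a := by
  have h1 : lld m a = bin m a * (a + (m - a) / a + 1 - (m - a) % a) := rfl
  rw [h1, bin_eq]
  rfl

theorem dl_eq {n k : ℕ} (h : 2 * k ≤ n + 1) : (dl n k : ℤ) = Dl n k := by
  cases k with
  | zero => rfl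
  | succ j =>
    have h1 : dl n (j + 1) = bin n (j + 1) - bin n j := rfl
    have h2 := Dl_mul (n := n) (k := j + 1) (by omega)
    have h3 : Dl n (j + 1) = (n.choose (j + 1) : ℤ) - (n.choose j : ℤ) := rfl
    have h4 : 0 ≤ Dl n (j + 1) := by
      have h5 : (0 : ℤ) ≤ (n.choose (j + 1) : ℤ) * ((n : ℤ) - 2 * ((j + 1 : ℕ) : ℤ) + 1) :=
        mul_nonneg (by positivity) (by
          have : (2 * ((j + 1 : ℕ) : ℤ)) ≤ (n : ℤ) + 1 := by exact_mod_cast h
          linarith)
      rw [← h2] at h5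
      have h6 : (0 : ℤ) < (n : ℤ) - ((j + 1 : ℕ) : ℤ) + 1 := by
        have : (2 * ((j + 1 : ℕ) : ℤ)) ≤ (n : ℤ) + 1 := by exact_mod_cast h
        push_cast at this ⊢
        have : (0 : ℤ) ≤ j := Int.natCast_nonneg j
        linarith
      exact nonneg_of_mul_nonneg_left h5 h6
    rw [h1, bin_eq, bin_eq, h3]
    rw [h3] at h4
    have h7 : n.choose j ≤ n.choose (j + 1) := by
      have : (n.choose j : ℤ) ≤ (n.choose (j + 1) : ℤ) := by linarith
      exact_mod_cast this
    rw [Nat.cast_sub h7]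

private theorem ckGr_spec (m : ℕ) (rest : LL) : ∀ (row : NL) (A prev : ℕ),
    ckGr m rest row A prev = 0 → (∀ i, row.gt i ≤ prev) ∧ (∀ i j, i ≤ j → row.gt j ≤ row.gt i) ∧
      ∀ i, A + i ≤ m → m ≤ (A + i) * (A + i) →
        lln m (A + i) * row.gt i ≤ lld m (A + i) * (rest.gt (A + i - 1)).gt (A + i) := by
  intro row
  induction row with
  | nil =>
    intro A prev _
    refine ⟨fun i => Nat.zero_le _, fun i j _ => Nat.zero_le _, fun i _ _ => ?_⟩
    show lln m (A + i) * 0 ≤ _
    rw [Nat.mul_zero]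
    exact Nat.zero_le _
  | cons g r ih =>
    intro A prev h
    have h1 : (g - prev) + (Nat.rec (motive := fun _ => ℕ)
        (Nat.rec (motive := fun _ => ℕ)
          (lln m A * g - lld m A * (rest.gt (A - 1)).gt A)
          (fun _ _ => 0) (A - m))
        (fun _ _ => 0) (m - A * A)) + ckGr m rest r (A + 1) g = 0 := h
    have h2 : g ≤ prev := by omega
    have h3 : (Nat.rec (motive := fun _ => ℕ)
        (Nat.rec (motive := fun _ => ℕ)
          (lln m A * g - lld m A * (rest.gt (A - 1)).gt A)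
          (fun _ _ => 0) (A - m))
        (fun _ _ => 0) (m - A * A)) = 0 := by omega
    obtain ⟨i1, i2, i3⟩ := ih (A + 1) g (by omega)
    refine ⟨?_, ?_, ?_⟩
    · intro i
      cases i with
      | zero => exact h2
      | succ i => exact (i1 i).trans h2
    · intro i j hij
      cases i with
      | zero =>
        cases j with
        | zero => exact le_rfl
        | succ j => exact i1 j
      | succ i =>
        cases j with
        | zero => omega
        | succ j => exact i2 i j (by omega)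
    · intro i h4 h5
      cases i with
      | zero =>
        rw [Nat.add_zero] at h4 h5 ⊢
        have e1 : m - A * A = 0 := by omega
        have e2 : A - m = 0 := by omega
        rw [e1, e2] at h3
        have h6 : lln m A * g - lld m A * (rest.gt (A - 1)).gt A = 0 := h3
        show lln m A * g ≤ _
        omega
      | succ i =>
        have h6 := i3 i (by omega) (by
          have : A + 1 + i = A + (i + 1) := by omega
          rw [this]; exact h5)
        have e1 : A + 1 + i = A + (i + 1) := by omega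
        rw [e1] at h6
        exact h6

private theorem sum_zero_spec : ∀ (row : NL),
    (NL.rec (motive := fun _ => ℕ) 0 (fun g _ ih' => Nat.add (Nat.sub g 1) ih') row) = 0 →
      ∀ i, row.gt i ≤ 1 := by
  intro row
  induction row with
  | nil =>
    intro _ i
    exact Nat.zero_le _
  | cons g r ih =>
    intro h i
    have h1 : (g - 1) + (NL.rec (motive := fun _ => ℕ) 0
      (fun g _ ih' => Nat.add (Nat.sub g 1) ih') r) = 0 := h
    cases i with
    | zero =>
      show g ≤ 1
      omega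
    | succ i => exact ih (by omega) i

/-- the dimension table (`GP_succ`; beyond the end of a row the value is `0`; the entries decrease in
`A`, so that it is enough to check the condition for `a = A`) -/
theorem ckG_sound {T : LL} {M : ℕ} (h : ckG T M = 0) :
    GP (fun m A => (NL.gt (LL.gt T (M - m)) A : ℝ)) M := by
  induction T generalizing M with
  | nil =>
    have h1 : M + 1 = 0 := h
    omega
  | cons row rest ih =>
    cases M with
    | zero =>
      have h1 := sum_zero_spec row h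
      intro m hm A mu _ _ _
      have h2 : ((LL.gt (LL.cons row rest) (0 - m)).gt A : ℝ) ≤ 1 := by
        have h3 : (LL.gt (LL.cons row rest) (0 - m)).gt A = row.gt A := by
          rw [Nat.zero_sub]
          rfl
        rw [h3]
        exact_mod_cast h1 A
      exact h2.trans (one_le_fD mu)
    | succ M =>
      have h1 : (NL.rec (motive := fun _ => ℕ) 0
        (fun g _ _ => ckGr (M + 1) rest row 0 g) row) + ckG rest M = 0 := h
      have h2 : ckG rest M = 0 := by omega
      have h3 : (NL.rec (motive := fun _ => ℕ) 0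
        (fun g _ _ => ckGr (M + 1) rest row 0 g) row) = 0 := by omega
      have h4 : (∀ i j, i ≤ j → row.gt j ≤ row.gt i) ∧
          ∀ i, i ≤ M + 1 → M + 1 ≤ i * i →
          lln (M + 1) i * row.gt i ≤ lld (M + 1) i * (rest.gt (i - 1)).gt i := by
        cases row with
        | nil =>
          refine ⟨fun i j _ => Nat.zero_le _, fun i _ _ => ?_⟩
          show lln (M + 1) i * 0 ≤ _
          rw [Nat.mul_zero]
          exact Nat.zero_le _
        | cons g r =>
          have h5 : ckGr (M + 1) rest (NL.cons g r) 0 g = 0 := h3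
          obtain ⟨-, i2, i3⟩ := ckGr_spec (M + 1) rest _ 0 g h5
          refine ⟨i2, fun i h6 h7 => ?_⟩
          have h8 := i3 i (by omega) (by rw [Nat.zero_add]; exact h7)
          rw [Nat.zero_add] at h8
          exact h8
      have hsh : ∀ m ≤ M, LL.gt (LL.cons row rest) (M + 1 - m) = LL.gt rest (M - m) := by
        intro m hm
        have : M + 1 - m = (M - m) + 1 := by omega
        rw [this]
        rfl
      have hG : GP (fun m A => (NL.gt (LL.gt (LL.cons row rest) (M + 1 - m)) A : ℝ)) M := by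
        intro m hm A mu h5 h6 h7
        have h8 := ih h2 m hm A mu h5 h6 h7
        have h9 := hsh m hm
        show (NL.gt (LL.gt (LL.cons row rest) (M + 1 - m)) A : ℝ) ≤ _
        rw [h9]
        exact h8
      refine GP_succ hG ?_
      intro A a ha haA haM hMa
      show (LLn (M + 1) a : ℝ) * (NL.gt (LL.gt (LL.cons row rest) (M + 1 - (M + 1))) A : ℝ) ≤
        (LLd (M + 1) a : ℝ) * (NL.gt (LL.gt (LL.cons row rest) (M + 1 - (M + 1 - a))) a : ℝ)
      have e1 : LL.gt (LL.cons row rest) (M + 1 - (M + 1)) = row := by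
        rw [Nat.sub_self]
        rfl
      have e2 : LL.gt (LL.cons row rest) (M + 1 - (M + 1 - a)) = LL.gt rest (a - 1) := by
        have : M + 1 - (M + 1 - a) = (a - 1) + 1 := by omega
        rw [this]
        rfl
      rw [e1, e2]
      have h5 := h4.2 a haM hMa
      rw [lln_eq, lld_eq] at h5
      have h6 := h4.1 a A haA
      have h7 : LLn (M + 1) a * row.gt A ≤ LLd (M + 1) a * (LL.gt rest (a - 1)).gt a :=
        (Nat.mul_le_mul_left _ h6).trans h5
      exact_mod_cast h7

/-! ### the bounds -/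

private theorem ckWk_spec (m : ℕ) (f : ℕ → ℕ) : ∀ (W ts : NL) (k : ℕ), ckWk m W ts k = 0 →
    NLok f ts k → ∀ i, i + 1 < W.len →
      W.gt (i + 1) * dl m (k + i) + f (k + i) * 2 ^ 40 ≤ W.gt i * dl m (k + i) := by
  intro W
  induction W with
  | nil =>
    intro ts k _ _ i hi
    have h1 : i + 1 < 0 := hi
    omega
  | cons x Wr ih =>
    intro ts k h hts i hi
    have hi' : i + 1 < Wr.len + 1 := hi
    cases Wr with
    | nil =>
      have : i + 1 < 0 + 1 := hi'
      omega
    | cons y Wr' =>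
      cases ts with
      | nil =>
        have h1 : (1 : ℕ) = 0 := h
        exact absurd h1 (by decide)
      | cons s ts' =>
        have h1 : (y * dl m k + s * 2 ^ 40 - x * dl m k) + ckWk m (NL.cons y Wr') ts' (k + 1) = 0 :=
          h
        obtain ⟨h2, h3⟩ := hts
        cases i with
        | zero =>
          rw [Nat.add_zero]
          show y * dl m k + f k * 2 ^ 40 ≤ x * dl m k
          have h4 : f k * 2 ^ 40 ≤ s * 2 ^ 40 := Nat.mul_le_mul_right _ h2
          omega
        | succ i =>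
          have h4 := ih ts' (k + 1) (by omega) h3 i (by omega)
          have e1 : k + 1 + i = k + (i + 1) := by omega
          rw [e1] at h4
          exact h4

private theorem TZ_nonneg' (m t : ℕ) : 0 ≤ TZ m t :=
  Finset.sum_nonneg fun _ _ => Real.sqrt_nonneg _

private theorem LLn_pos' (m a : ℕ) : 0 < LLn m a := by
  unfold LLn
  exact Nat.mul_pos (Nat.succ_pos _) (Nat.choose_pos (Nat.le_add_left _ _))

private theorem ckWa_spec (M m last : ℕ) (T : LL) (E : ℕ → ℝ) (hmM : m ≤ M) (hE0 : ∀ a, 0 < E a)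
    (hE : ∀ a, a ≤ m → (LLd m a : ℝ) * ((T.gt (M - (m - a))).gt a : ℝ) ≤ E a * (LLn m a : ℝ)) :
    ∀ (d : RL) (a0 acc : ℕ), ckWa M m last T d a0 acc = 0 →
      RLok (fun a t tn _ _ _ => TN m a t ≤ tn) d a0 →
      RLok (fun _ t _ tz _ _ => TZ m t * 2 ^ 40 ≤ (tz : ℝ)) d a0 →
      acc ≤ last ∧ ∃ t : ℕ → ℕ, ∑ a ∈ Finset.Ico a0 ((m + 1) / 2),
        (TZ m (t a) / E a + (TN m a (t a) : ℝ) * ((LLn m a : ℝ) / (LLd m a : ℝ))) ≤
          ((last : ℝ) - (acc : ℝ)) / 2 ^ 40 := by
  intro d
  induction d with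
  | nil =>
    intro a0 acc h _ _
    have h1 : (acc - last) + ((m + 1) / 2 - a0) = 0 := h
    refine ⟨by omega, fun _ => 0, ?_⟩
    rw [Finset.Ico_eq_empty (by omega), Finset.sum_empty]
    have h2 : (acc : ℝ) ≤ (last : ℝ) := by exact_mod_cast (by omega : acc ≤ last)
    apply div_nonneg (by linarith) (by positivity)
  | cons t0 tn tz u v r ih =>
    intro a0 acc h hN hZ
    obtain ⟨hN1, hN2⟩ := hN
    obtain ⟨hZ1, hZ2⟩ := hZ
    have h1 : ((tz * lln m a0 - u * (lld m a0 * (T.gt (M - m + a0)).gt a0)) +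
        (tn * 2 ^ 40 * lln m a0 - v * lld m a0)) +
        ckWa M m last T r (a0 + 1) (acc + (u + v)) = 0 := h
    obtain ⟨h2, t', ht'⟩ := ih (a0 + 1) (acc + (u + v)) (by omega) hN2 hZ2
    refine ⟨by omega, fun a => if a = a0 then t0 else t' a, ?_⟩
    have h3 : (acc : ℝ) + ((u : ℝ) + (v : ℝ)) ≤ (last : ℝ) := by exact_mod_cast h2
    have hu : (0 : ℝ) ≤ (u : ℝ) := Nat.cast_nonneg _
    have hv : (0 : ℝ) ≤ (v : ℝ) := Nat.cast_nonneg _
    rcases Nat.lt_or_ge a0 ((m + 1) / 2) with h4 | h4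
    · have h5 : ∑ a ∈ Finset.Ico (a0 + 1) ((m + 1) / 2),
          (TZ m (if a = a0 then t0 else t' a) / E a +
            (TN m a (if a = a0 then t0 else t' a) : ℝ) * ((LLn m a : ℝ) / (LLd m a : ℝ))) =
          ∑ a ∈ Finset.Ico (a0 + 1) ((m + 1) / 2),
          (TZ m (t' a) / E a + (TN m a (t' a) : ℝ) * ((LLn m a : ℝ) / (LLd m a : ℝ))) := by
        refine Finset.sum_congr rfl fun a ha => ?_
        rw [Finset.mem_Ico] at ha
        rw [if_neg (by omega)]
      rw [Finset.sum_eq_sum_Ico_succ_bot h4]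
      rw [h5]
      have h50 : (fun a => if a = a0 then t0 else t' a) a0 = t0 := if_pos rfl
      rw [h50]
      have ham : a0 ≤ m := by omega
      have hln : (0 : ℝ) < (LLn m a0 : ℝ) := by exact_mod_cast LLn_pos' m a0
      have e1 : M - (m - a0) = M - m + a0 := by omega
      have hZt : TZ m t0 / E a0 ≤ (u : ℝ) / 2 ^ 40 := by
        have h6 : tz * lln m a0 ≤ u * (lld m a0 * (T.gt (M - m + a0)).gt a0) := by omega
        rw [lln_eq, lld_eq] at h6
        have h7 : (tz : ℝ) * (LLn m a0 : ℝ) ≤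
            (u : ℝ) * ((LLd m a0 : ℝ) * ((T.gt (M - m + a0)).gt a0 : ℝ)) := by exact_mod_cast h6
        have h8 := hE a0 ham
        rw [e1] at h8
        have h9 : (tz : ℝ) * (LLn m a0 : ℝ) ≤ (u : ℝ) * E a0 * (LLn m a0 : ℝ) := by
          refine h7.trans ?_
          rw [mul_assoc]
          exact mul_le_mul_of_nonneg_left h8 hu
        have h10 : (tz : ℝ) ≤ (u : ℝ) * E a0 := le_of_mul_le_mul_right h9 hln
        rw [div_le_div_iff₀ (hE0 a0) (by positivity)]
        exact hZ1.trans h10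
      have hNt : (TN m a0 t0 : ℝ) * ((LLn m a0 : ℝ) / (LLd m a0 : ℝ)) ≤ (v : ℝ) / 2 ^ 40 := by
        rcases Nat.eq_zero_or_pos (LLd m a0) with h6 | h6
        · rw [h6, Nat.cast_zero, div_zero, mul_zero]
          positivity
        · have h7 : (0 : ℝ) < (LLd m a0 : ℝ) := by exact_mod_cast h6
          have h8 : tn * 2 ^ 40 * lln m a0 ≤ v * lld m a0 := by omega
          rw [lln_eq, lld_eq] at h8
          have h9 : TN m a0 t0 * 2 ^ 40 * LLn m a0 ≤ v * LLd m a0 :=
            (Nat.mul_le_mul_right _ (Nat.mul_le_mul_right _ hN1)).trans h8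
          have h10 : (TN m a0 t0 : ℝ) * 2 ^ 40 * (LLn m a0 : ℝ) ≤ (v : ℝ) * (LLd m a0 : ℝ) := by
            exact_mod_cast h9
          rw [mul_div_assoc', div_le_div_iff₀ h7 (by positivity)]
          linarith
      have h6 : ((last : ℝ) - ((acc + (u + v) : ℕ) : ℝ)) / 2 ^ 40 =
          ((last : ℝ) - (acc : ℝ)) / 2 ^ 40 - (u : ℝ) / 2 ^ 40 - (v : ℝ) / 2 ^ 40 := by
        push_cast
        ring
      rw [h6] at ht'
      linarith
    · rw [Finset.Ico_eq_empty (by omega), Finset.sum_empty]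
      apply div_nonneg (by linarith) (by positivity)

private theorem W_sum {m : ℕ} {W : NL} (hlen : W.len = m / 2 + 1)
    (hW : ∀ i, i + 1 < W.len →
      W.gt (i + 1) * dl m (1 + i) + TS m (1 + i) * 2 ^ 40 ≤ W.gt i * dl m (1 + i)) :
    ∀ j K : ℕ, 1 ≤ K → K + j = m / 2 + 1 →
      (∑ k ∈ Finset.Icc K (m / 2), (TS m k : ℝ) / (Dl m k : ℝ)) + (W.gt (m / 2) : ℝ) / 2 ^ 40 ≤
        (W.gt (K - 1) : ℝ) / 2 ^ 40 := by
  intro j
  induction j with
  | zero =>
    intro K _ hK2
    have e1 : K - 1 = m / 2 := by omega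
    rw [Finset.Icc_eq_empty (by omega), Finset.sum_empty, zero_add, e1]
  | succ j ih =>
    intro K hK1 hK2
    have h1 := ih (K + 1) (by omega) (by omega)
    have h2 := hW (K - 1) (by omega)
    have e1 : K - 1 + 1 = K := by omega
    have e2 : 1 + (K - 1) = K := by omega
    rw [e1, e2] at h2
    have h3 : (0 : ℝ) < (Dl m K : ℝ) := by exact_mod_cast Dl_pos (by omega)
    have h4 : ((dl m K : ℕ) : ℝ) = (Dl m K : ℝ) := by
      have h5 := dl_eq (n := m) (k := K) (by omega)
      have h6 : (((dl m K : ℕ) : ℤ) : ℝ) = (Dl m K : ℝ) := by rw [h5]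
      rw [← h6]
      push_cast
      rfl
    have h5 : (W.gt K : ℝ) * (Dl m K : ℝ) + (TS m K : ℝ) * 2 ^ 40 ≤
        (W.gt (K - 1) : ℝ) * (Dl m K : ℝ) := by
      rw [← h4]
      exact_mod_cast h2
    have h6 : (W.gt K : ℝ) / 2 ^ 40 + (TS m K : ℝ) / (Dl m K : ℝ) ≤
        (W.gt (K - 1) : ℝ) / 2 ^ 40 := by
      rw [div_add_div _ _ (by positivity) h3.ne', div_le_div_iff₀ (by positivity) (by positivity)]
      nlinarith [h5]
    have e3 : Finset.Icc K (m / 2) = insert K (Finset.Icc (K + 1) (m / 2)) := by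
      ext x
      rw [Finset.mem_insert, Finset.mem_Icc, Finset.mem_Icc]
      omega
    rw [e3, Finset.sum_insert (by rw [Finset.mem_Icc]; omega)]
    rw [Nat.add_sub_cancel] at h1
    linarith

private theorem ckW_aux {M : ℕ} {T : LL} (hT : ckG T M = 0) : ∀ (d : MD) (m : ℕ), 1 ≤ m →
    MDok (fun m a0 ts rl _ => NLok (TS m) ts 0 ∧
      RLok (fun a t tn _ _ _ => TN m a t ≤ tn) rl a0) M d m →
    MDok (fun m a0 _ rl _ => RLok (fun _ t _ tz _ _ => TZ m t * 2 ^ 40 ≤ (tz : ℝ)) rl a0) M d m →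
    ckW M T d m = 0 →
    MDok (fun m _ _ _ W => ∀ K, 1 ≤ K → K ≤ m / 2 + 1 →
      (NW m K : ℝ) ≤ (NL.gt W (K - 1) : ℝ) / 2 ^ 40) M d m := by
  have hG := ckG_sound hT
  intro d
  induction d with
  | nil =>
    intro m _ _ _ _
    trivial
  | cons a0 ts rl W d' ih =>
    intro m hm1 hP hZ h
    obtain ⟨hP1, hP2⟩ := hP
    obtain ⟨hZ1, hZ2⟩ := hZ
    have h1 : (((((a0 - 1) * (a0 - 1) + 1) - m) + (((m / 2 + 1) - W.len) + (W.len - (m / 2 + 1)))) +
        (ckWa M m (W.gt (m / 2)) T rl a0 0 +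
          (NL.rec (motive := fun _ => ℕ) 1 (fun _ ts' _ => ckWk m W ts' 1) ts))) +
        ckW M T d' (m + 1) = 0 := h
    refine ⟨fun hmM => ?_, ih (m + 1) (by omega) hP2 hZ2 (by omega)⟩
    have ha0 : (a0 - 1) * (a0 - 1) + 1 ≤ m := by omega
    have hlen : W.len = m / 2 + 1 := by omega
    have hWa : ckWa M m (W.gt (m / 2)) T rl a0 0 = 0 := by omega
    have hWk : (NL.rec (motive := fun _ => ℕ) 1 (fun _ ts' _ => ckWk m W ts' 1) ts) = 0 := by omega
    obtain ⟨hts, hrl⟩ := hP1 hmM
    have hzl := hZ1 hmM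
    have hW : ∀ i, i + 1 < W.len →
        W.gt (i + 1) * dl m (1 + i) + TS m (1 + i) * 2 ^ 40 ≤ W.gt i * dl m (1 + i) := by
      cases ts with
      | nil =>
        have h2 : (1 : ℕ) = 0 := hWk
        exact absurd h2 (by decide)
      | cons s0 ts' =>
        have h2 : ckWk m W ts' 1 = 0 := hWk
        exact ckWk_spec m (TS m) W ts' 1 h2 hts.2
    -- the function E
    obtain ⟨E, hEdef⟩ : ∃ E : ℕ → ℝ, ∀ a, E a = max 1 ((LLd m a : ℝ) *
        ((T.gt (M - (m - a))).gt a : ℝ) / (LLn m a : ℝ)) := ⟨_, fun _ => rfl⟩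
    have hln : ∀ a, (0 : ℝ) < (LLn m a : ℝ) := fun a => by exact_mod_cast LLn_pos' m a
    have hE0 : ∀ a, 0 < E a := fun a => by
      rw [hEdef]
      exact lt_of_lt_of_le one_pos (le_max_left _ _)
    have hE1 : ∀ a, a ≤ m → (LLd m a : ℝ) * ((T.gt (M - (m - a))).gt a : ℝ) ≤
        E a * (LLn m a : ℝ) := fun a _ => by
      have h2 : (LLd m a : ℝ) * ((T.gt (M - (m - a))).gt a : ℝ) / (LLn m a : ℝ) ≤ E a := by
        rw [hEdef]
        exact le_max_right _ _
      rwa [div_le_iff₀ (hln a)] at h2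
    have hE2 : ∀ mu : YoungDiagram, mu.card = m → mu.colLen 0 ≤ mu.rowLen 0 →
        E (mu.rowLen 0) ≤ fD mu := by
      intro mu hmu hc
      rw [hEdef]
      refine max_le (one_le_fD mu) ?_
      have h2 := GP_row hG mu hmu hm1 (by omega) hc
      rw [div_le_iff₀ (hln _), mul_comm (fD mu)]
      exact h2
    obtain ⟨-, t, ht⟩ := ckWa_spec M m (W.gt (m / 2)) T E hmM hE0 hE1 rl a0 0 hWa hrl hzl
    intro K hK1 hK2
    have h2 := NW_le hK1 E hE0 hE2 t (m := m)
    have h3 := W_sum hlen hW (m / 2 + 1 - K) K hK1 (by omega)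
    have h4 : ∑ a ∈ (Finset.range ((m + 1) / 2)).filter (fun a => m ≤ a * a),
        (TZ m (t a) / E a + (TN m a (t a) : ℝ) * ((LLn m a : ℝ) / (LLd m a : ℝ))) ≤
        (W.gt (m / 2) : ℝ) / 2 ^ 40 := by
      refine le_trans (Finset.sum_le_sum_of_subset_of_nonneg ?_ ?_) (le_trans ht (le_of_eq ?_))
      · intro a ha
        rw [Finset.mem_filter, Finset.mem_range] at ha
        rw [Finset.mem_Ico]
        refine ⟨?_, ha.1⟩
        by_contra hcon
        have h5 : a ≤ a0 - 1 := by omega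
        have h6 := Nat.mul_le_mul h5 h5
        omega
      · intro a _ _
        have h5 := TZ_nonneg' m (t a)
        have h6 := hE0 a
        positivity
      · rw [Nat.cast_zero, sub_zero]
    linarith

/-- the bounds: `NW_le` with `E a = max 1 (LLd m a * G (m-a) a / LLn m a)` and `t` from the list;
`u ≥ TZ / E`, `v ≥ TN LLn / LLd` (scaled by `2^40`) -/
theorem ckW_sound {M : ℕ} {T : LL} {d : MD} (hT : ckG T M = 0)
    (hP : MDok (fun m a0 ts rl _ => NLok (TS m) ts 0 ∧
      RLok (fun a t tn _ _ _ => TN m a t ≤ tn) rl a0) M d 25)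
    (hZ : MDok (fun m a0 _ rl _ => RLok (fun _ t _ tz _ _ => TZ m t * 2 ^ 40 ≤ (tz : ℝ)) rl a0)
      M d 25)
    (h : ckW M T d 25 = 0) :
    MDok (fun m _ _ _ W => ∀ K, 1 ≤ K → K ≤ m / 2 + 1 →
      (NW m K : ℝ) ≤ (NL.gt W (K - 1) : ℝ) / 2 ^ 40) M d 25 :=
  ckW_aux hT d 25 (by norm_num) hP hZ h

end Pool.MP322F
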