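import Pool.Agent.Lib.MP_322c5f_alF.FK03
import Pool.Agent.Lib.MP_322c5f_alF.FC04

/-! Soundness of the recursion table for the sums `FS`. -/

set_option autoImplicit false

open Finset Equiv Nat
open scoped NNReal

namespace Pool.MP322F

open Pool.MP322

/-- row `n` of the table bounds `FS n K` (scaled by `2^40`) -/
def FRow (n : ℕ) (row : NL) : Prop :=
  ∀ K, 2 * K + 1 ≤ n → (FS n K : ℝ) ≤ (NL.gt row K : ℝ) / 2 ^ 40

private theorem fk4_gt0 (x : ℕ) (l : NL) : NL.gt (NL.cons x l) 0 = x := rfl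

private theorem fk4_gts (x : ℕ) (l : NL) (i : ℕ) : NL.gt (NL.cons x l) (i + 1) = NL.gt l i := rfl

private theorem fk4_nil (i : ℕ) : NL.gt NL.nil i = 0 := rfl

private theorem fk4_len (x : ℕ) (l : NL) : NL.len (NL.cons x l) = NL.len l + 1 := rfl

private theorem fk4_r1 (n g x K : ℕ) (new old : NL) :
    ckFr n (NL.cons g new) x old NL.nil K = 1 := rfl

private theorem fk4_r2 (n g x K wk : ℕ) (new W : NL) :
    ckFr n (NL.cons g new) x NL.nil (NL.cons wk W) K =
      (dl (n - 1) (K - 1) * x + (dl (n - 1) K + dl n K * wk) - dl n K * g) +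
        ckFr n new 0 NL.nil W (K + 1) := rfl

private theorem fk4_r3 (n g x K wk y : ℕ) (new W old : NL) :
    ckFr n (NL.cons g new) x (NL.cons y old) (NL.cons wk W) K =
      (dl (n - 1) (K - 1) * x + (dl (n - 1) K * y + dl n K * wk) - dl n K * g) +
        ckFr n new y old W (K + 1) := rfl

private theorem fk4_row (n : ℕ) (new : NL) : ∀ (x : ℕ) (old W : NL) (K : ℕ),
    ckFr n new x old W K = 0 → ∀ i, i < NL.len new →
      dl (n - 1) (K + i - 1) * NL.gt (NL.cons x old) i + (dl (n - 1) (K + i) * NL.gt old i +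
        dl n (K + i) * NL.gt W i) ≤ dl n (K + i) * NL.gt new i := by
  induction new with
  | nil =>
    intro x old W K _ i hi
    exact absurd hi (Nat.not_lt_zero i)
  | cons g new ih =>
    intro x old W K h i hi
    cases W with
    | nil =>
      rw [fk4_r1] at h
      exact absurd h one_ne_zero
    | cons wk W =>
      cases old with
      | nil =>
        rw [fk4_r2] at h
        obtain ⟨h1, h2⟩ := Nat.add_eq_zero_iff.1 h
        cases i with
        | zero =>
          rw [fk4_gt0, fk4_gt0, fk4_gt0, fk4_nil, Nat.add_zero]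
          have h3 := Nat.sub_eq_zero_iff_le.1 h1
          refine le_trans ?_ h3
          omega
        | succ j =>
          have h3 := ih 0 NL.nil W (K + 1) h2 j (by rw [fk4_len] at hi; omega)
          rw [fk4_gts, fk4_gts, fk4_gts, fk4_nil, fk4_nil]
          have e : K + (j + 1) = K + 1 + j := by omega
          rw [e]
          have e2 : NL.gt (NL.cons 0 NL.nil) j = 0 := by cases j <;> rfl
          rw [e2, fk4_nil] at h3
          exact h3
      | cons y old =>
        rw [fk4_r3] at h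
        obtain ⟨h1, h2⟩ := Nat.add_eq_zero_iff.1 h
        cases i with
        | zero =>
          rw [fk4_gt0, fk4_gt0, fk4_gt0, fk4_gt0, Nat.add_zero]
          exact Nat.sub_eq_zero_iff_le.1 h1
        | succ j =>
          have h3 := ih y old W (K + 1) h2 j (by rw [fk4_len] at hi; omega)
          rw [fk4_gts, fk4_gts, fk4_gts, fk4_gts]
          have e : K + (j + 1) = K + 1 + j := by omega
          rw [e]
          exact h3

private theorem fk4_F1 (F : LL) (new old : NL) (n : ℕ) : ckF (LL.cons new F) old MD.nil n = 1 := rfl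

private theorem fk4_F2 (F : LL) (new old : NL) (n a0 : ℕ) (ts W : NL) (rl : RL) (d : MD) :
    ckF (LL.cons new F) old (MD.cons a0 ts rl W d) n =
      ckF (LL.cons new LL.nil) old (MD.cons a0 ts rl W MD.nil) n + ckF F new d (n + 1) := rfl

private theorem fk4_F3 (new old : NL) (n a0 : ℕ) (ts W : NL) (rl : RL) (d : MD) :
    ckF (LL.cons new LL.nil) old (MD.cons a0 ts rl W d) n =
      ((NL.len new - (n / 2 + 1)) + ((n / 2 + 1) - NL.len new)) +
        (NL.rec (motive := fun _ => ℕ) 1 (fun g0 new' _ =>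
          NL.rec (motive := fun _ => ℕ) 1 (fun x old' _ =>
            ((x + NL.gt W 0) - g0) + ckFr n new' x old' W 1) old) new) := rfl

private theorem fk4_F4 (old : NL) (n a0 : ℕ) (ts W : NL) (rl : RL) (d : MD) :
    ckF (LL.cons NL.nil LL.nil) old (MD.cons a0 ts rl W d) n =
      ((NL.len NL.nil - (n / 2 + 1)) + ((n / 2 + 1) - NL.len NL.nil)) + 1 := rfl

private theorem fk4_F5 (g : ℕ) (new : NL) (n a0 : ℕ) (ts W : NL) (rl : RL) (d : MD) :
    ckF (LL.cons (NL.cons g new) LL.nil) NL.nil (MD.cons a0 ts rl W d) n =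
      ((NL.len (NL.cons g new) - (n / 2 + 1)) + ((n / 2 + 1) - NL.len (NL.cons g new))) + 1 := rfl

private theorem fk4_F6 (g x : ℕ) (new old : NL) (n a0 : ℕ) (ts W : NL) (rl : RL) (d : MD) :
    ckF (LL.cons (NL.cons g new) LL.nil) (NL.cons x old) (MD.cons a0 ts rl W d) n =
      ((NL.len (NL.cons g new) - (n / 2 + 1)) + ((n / 2 + 1) - NL.len (NL.cons g new))) +
        (((x + NL.gt W 0) - g) + ckFr n new x old W 1) := rfl

/-- one step (`FS_step`, `FS_step_zero`, `NW n 0 ≤ NW n 1`: depth zero diagrams have nonnegative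
values on even types; `dl_eq`) -/
theorem ckF_step {n M : ℕ} (hn : 1 ≤ n) {old new W : NL} (hold : FRow n old)
    (hW : ∀ K, 1 ≤ K → K ≤ (n + 1) / 2 + 1 →
      (NW (n + 1) K : ℝ) ≤ (NL.gt W (K - 1) : ℝ) / 2 ^ 40) {a0 : ℕ} {ts : NL} {rl : RL}
    (h : ckF (LL.cons new LL.nil) old (MD.cons a0 ts rl W MD.nil) n = 0) : FRow (n + 1) new := by
  cases new with
  | nil =>
    rw [fk4_F4] at h
    omega
  | cons g new =>
  cases old with
  | nil =>
    rw [fk4_F5] at h
    omega
  | cons x old =>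
  rw [fk4_F6] at h
  obtain ⟨h1, h2⟩ := Nat.add_eq_zero_iff.1 h
  obtain ⟨h3, h4⟩ := Nat.add_eq_zero_iff.1 h2
  have hlen : NL.len new = n / 2 := by
    rw [fk4_len] at h1
    omega
  intro K hK
  rcases Nat.eq_zero_or_pos K with h0 | h0
  · subst h0
    rw [fk4_gt0]
    have h5 := FS_step_zero n
    have h6 := hold 0 (by omega)
    rw [fk4_gt0] at h6
    have h7 := hW 1 le_rfl (by omega)
    rw [Nat.sub_self] at h7
    have h8 : (NW (n + 1) 0 : ℝ) = NW (n + 1) 1 := by
      unfold NW
      congr 1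
      exact Finset.sum_congr rfl fun τ hτ => sv_zero_eq τ (Finset.mem_filter.1 hτ).1
    have h9 : ((x + NL.gt W 0 : ℕ) : ℝ) ≤ (g : ℝ) := by
      exact_mod_cast Nat.sub_eq_zero_iff_le.1 h3
    push_cast at h9
    have h10 : ((x : ℝ) + NL.gt W 0) / 2 ^ 40 ≤ (g : ℝ) / 2 ^ 40 :=
      div_le_div_of_nonneg_right h9 (by positivity)
    rw [add_div] at h10
    linarith
  · obtain ⟨i, rfl⟩ : ∃ i, K = i + 1 := ⟨K - 1, by omega⟩
    have h5 := fk4_row n new x old W 1 h4 i (by omega)
    have h6 := FS_step (n := n) (K := i + 1) h0 (by omega)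
    rw [Nat.add_sub_cancel] at h6
    rw [Nat.add_comm 1 i, Nat.add_sub_cancel] at h5
    rw [fk4_gts]
    have e1 : (Dl (n - 1) i : ℝ) = (dl (n - 1) i : ℝ) := by
      have := dl_eq (n := n - 1) (k := i) (by omega)
      rw [← this]
      simp
    have e2 : (Dl (n - 1) (i + 1) : ℝ) = (dl (n - 1) (i + 1) : ℝ) := by
      have := dl_eq (n := n - 1) (k := i + 1) (by omega)
      rw [← this]
      simp
    have e3 : (Dl n (i + 1) : ℝ) = (dl n (i + 1) : ℝ) := by
      have := dl_eq (n := n) (k := i + 1) (by omega)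
      rw [← this]
      simp
    have hpos : (0 : ℝ) < (Dl n (i + 1) : ℝ) := by
      exact_mod_cast Dl_pos (by omega)
    rw [e1, e2, e3] at h6
    rw [e3] at hpos
    have h7 : ((dl (n - 1) i * NL.gt (NL.cons x old) i + (dl (n - 1) (i + 1) * NL.gt old i +
        dl n (i + 1) * NL.gt W i) : ℕ) : ℝ) ≤ ((dl n (i + 1) * NL.gt new i : ℕ) : ℝ) := by
      exact_mod_cast h5
    push_cast at h7
    have h8 := hold i (by omega)
    have h9 : (dl (n - 1) (i + 1) : ℝ) * FS n (i + 1) ≤
        (dl (n - 1) (i + 1) : ℝ) * ((NL.gt old i : ℝ) / 2 ^ 40) := by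
      rcases Nat.lt_or_ge (2 * (i + 1)) n with h10 | h10
      · have h11 := hold (i + 1) (by omega)
        rw [fk4_gts] at h11
        exact mul_le_mul_of_nonneg_left h11 (Nat.cast_nonneg _)
      · have h11 : (Dl (n - 1) (i + 1) : ℝ) = 0 := by
          have e4 : n - 1 = 2 * i + 1 := by omega
          rw [e4, Dl_half]
          simp
        rw [e2] at h11
        rw [h11, zero_mul, zero_mul]
    have h12 := hW (i + 1) (by omega) (by omega)
    rw [Nat.add_sub_cancel] at h12
    have h13 : (dl (n - 1) i : ℝ) * FS n i ≤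
        (dl (n - 1) i : ℝ) * ((NL.gt (NL.cons x old) i : ℝ) / 2 ^ 40) :=
      mul_le_mul_of_nonneg_left h8 (Nat.cast_nonneg _)
    have h14 : (dl n (i + 1) : ℝ) * NW (n + 1) (i + 1) ≤
        (dl n (i + 1) : ℝ) * ((NL.gt W i : ℝ) / 2 ^ 40) :=
      mul_le_mul_of_nonneg_left h12 (Nat.cast_nonneg _)
    have h15 : (dl n (i + 1) : ℝ) * FS (n + 1) (i + 1) ≤
        (dl n (i + 1) : ℝ) * ((NL.gt new i : ℝ) / 2 ^ 40) := by
      have h16 : ((dl (n - 1) i : ℝ) * (NL.gt (NL.cons x old) i : ℝ) +
          ((dl (n - 1) (i + 1) : ℝ) * (NL.gt old i : ℝ) + (dl n (i + 1) : ℝ) * (NL.gt W i : ℝ))) /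
          2 ^ 40 ≤ ((dl n (i + 1) : ℝ) * (NL.gt new i : ℝ)) / 2 ^ 40 :=
        div_le_div_of_nonneg_right h7 (by positivity)
      rw [add_div, add_div, mul_div_assoc, mul_div_assoc, mul_div_assoc, mul_div_assoc] at h16
      linarith
    exact le_of_mul_le_mul_left h15 hpos

/-- MAIN -/
theorem ckF_sound {M : ℕ} (F : LL) {n : ℕ} (hn : 1 ≤ n) {old : NL} (hold : FRow n old) {d : MD}
    (hd : MDok (fun m _ _ _ W => ∀ K, 1 ≤ K → K ≤ m / 2 + 1 →
      (NW m K : ℝ) ≤ (NL.gt W (K - 1) : ℝ) / 2 ^ 40) M d (n + 1))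
    (h : ckF F old d n = 0) (i : ℕ) (hi : i < LL.len F) (hM : n + 1 + i ≤ M) :
    FRow (n + 1 + i) (LL.gt F i) := by
  induction F generalizing n old d i with
  | nil => exact absurd hi (Nat.not_lt_zero i)
  | cons new F ih =>
    cases d with
    | nil =>
      rw [fk4_F1] at h
      exact absurd h one_ne_zero
    | cons a0 ts rl W d =>
      rw [fk4_F2] at h
      obtain ⟨h1, h2⟩ := Nat.add_eq_zero_iff.1 h
      obtain ⟨h3, h4⟩ := hd
      have h5 : FRow (n + 1) new := ckF_step (M := M) hn hold (h3 (by omega)) h1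
      cases i with
      | zero => exact h5
      | succ j =>
        have h6 := ih (n := n + 1) (by omega) h5 h4 h2 j (Nat.lt_of_succ_lt_succ hi) (by omega)
        have e : n + 1 + (j + 1) = n + 1 + 1 + j := by omega
        rw [e]
        exact h6

/-- dropping the first `k` entries of the data -/
theorem MDok_drop {P : ℕ → ℕ → NL → RL → NL → Prop} {M : ℕ} {d : MD} {m : ℕ} (h : MDok P M d m)
    (k : ℕ) : MDok P M (d.drop k) (m + k) := by
  induction d generalizing m k with
  | nil => exact trivial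
  | cons a0 ts rl W d ih =>
    cases k with
    | zero => exact h
    | succ j =>
      have h1 := ih (m := m + 1) h.2 j
      have e : m + (j + 1) = m + 1 + j := by omega
      rw [e]
      exact h1

end Pool.MP322F
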