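import Pool.Agent.Lib.MP_322c5f_alF.FKb24D

/-! Generated: base table, diagrams with 24 cells. -/

set_option autoImplicit false
set_option maxRecDepth 100000

namespace Pool.MP322F.B24

open Pool.MP322F

theorem hdat : datL 80 30 flAll dlAll = 0 := by decide +kernel

theorem hpar : parG 80 33554430 flAll = 0 := by decide +kernel

theorem hck : enumN (leafB V23_1 flAll dlAll 30 24 24 140737488355328) 50 24 24 24 0 0 = 0 := by decide +kernel

end Pool.MP322F.B24
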