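import Pool.Agent.Lib.MP_322c5f_alF.FB15
import Pool.Agent.Lib.MP_322c5f_alF.FK04

/-! Support for the base tables: splitting the check, from sums to rows. -/

set_option autoImplicit false

open Finset Equiv Nat
open scoped NNReal

namespace Pool.MP322F

open Pool.MP322

theorem FLok_cons {N n w c L mask : ℕ} {f : ℕ → Pr} {rest : FL} (h1 : c ≤ n)
    (h2 : VOK N w c (n - c) L f) (h3 : mask = mkm w (w - 1) L) (h4 : FLok N n w (c + 1) rest) :
    FLok N n w c (FL.cons f c L mask rest) := ⟨rfl, h1, h2, h3, h4⟩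

noncomputable def FL.app (a b : FL) : FL :=
  FL.rec (motive := fun _ => FL) b (fun f c L m _ ih => FL.cons f c L m ih) a

noncomputable def NL.app (a b : NL) : NL :=
  NL.rec (motive := fun _ => NL) b (fun x _ ih => NL.cons x ih) a

/-- same length -/
def SLn : FL → NL → Prop
  | FL.nil, NL.nil => True
  | FL.cons _ _ _ _ a, NL.cons _ x => SLn a x
  | _, _ => False

theorem chkG_app (t key F : ℕ) (b : FL) (y : NL) : ∀ (a : FL) (x : NL), SLn a x →
    chkG t key F (FL.app a b) (NL.app x y) = chkG t key F a x + chkG t key F b y := by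
  intro a
  induction a with
  | nil =>
    intro x hx
    cases x with
    | nil => exact (Nat.zero_add _).symm
    | cons u v => exact hx.elim
  | cons f c L m rest ih =>
    intro x hx
    cases x with
    | nil => exact hx.elim
    | cons u v =>
      have h := ih v hx
      show ckg f c t u m key F + chkG t key F (FL.app rest b) (NL.app v y) =
        ckg f c t u m key F + chkG t key F rest v + chkG t key F b y
      rw [h, Nat.add_assoc]

/-- the data splits -/
def LOK (a : FL) : LN → LN → LN → Prop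
  | LN.last g, LN.last x, LN.last y => SLn a x ∧ g = NL.app x y
  | LN.cons g l, LN.cons x lx, LN.cons y ly => (SLn a x ∧ g = NL.app x y) ∧ LOK a l lx ly
  | _, _, _ => False

theorem LOK_get (t key F : ℕ) (a b : FL) : ∀ (l lx ly : LN), LOK a l lx ly → ∀ d,
    chkG t key F (FL.app a b) (LN.get l d) =
      chkG t key F a (LN.get lx d) + chkG t key F b (LN.get ly d) := by
  intro l
  induction l with
  | last g =>
    intro lx ly h d
    cases lx with
    | cons _ _ => exact h.elim
    | last x =>
      cases ly with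
      | cons _ _ => exact h.elim
      | last y =>
        obtain ⟨h1, h2⟩ := h
        show chkG t key F (FL.app a b) g = chkG t key F a x + chkG t key F b y
        rw [h2, chkG_app t key F b y a x h1]
  | cons g l ih =>
    intro lx ly h d
    cases lx with
    | last _ => cases ly <;> exact h.elim
    | cons x lx =>
      cases ly with
      | last _ => exact h.elim
      | cons y ly =>
        obtain ⟨⟨h1, h2⟩, h3⟩ := h
        cases d with
        | zero =>
          show chkG t key F (FL.app a b) g = chkG t key F a x + chkG t key F b y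
          rw [h2, chkG_app t key F b y a x h1]
        | succ d => exact ih lx ly h3 d

private theorem leaf_split (fd1 : ℕ → Pr) (a b fl : FL) (l lx ly : LN) (t n N bnd key r : ℕ)
    (hfl : fl = FL.app a b) (hl : LOK a l lx ly)
    (hA : leafB fd1 a lx t n N bnd key r = 0) (hB : leafB fd1 b ly t n N bnd key r = 0) :
    leafB fd1 fl l t n N bnd key r = 0 := by
  unfold leafB at hA hB ⊢
  revert hA hB
  generalize grp fd1 g0 1 0 key = pq
  obtain ⟨P, Q⟩ := pq
  cases P with
  | zero => intro hA _; exact absurd (show (1 : ℕ) = 0 from hA) (by norm_num)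
  | succ F =>
    generalize (Nat.sub (Nat.sub n (Nat.sub (Nat.log2 key) (Nat.sub N 1)))
      (Nat.sub (Nat.sub n (Nat.sub (Nat.log2 key) (Nat.sub N 1))) (Nat.sub n (Nat.sub N r)))) = d
    cases d with
    | zero => intro _ _; rfl
    | succ d =>
      intro hA hB
      have hA' : Q + (Nat.sub (Nat.succ F) bnd) +
        chkG t key (Nat.succ F) a (LN.get lx d) = 0 := hA
      have hB' : Q + (Nat.sub (Nat.succ F) bnd) +
        chkG t key (Nat.succ F) b (LN.get ly d) = 0 := hB
      show Q + (Nat.sub (Nat.succ F) bnd) + chkG t key (Nat.succ F) fl (LN.get l d) = 0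
      rw [hfl, LOK_get t key (Nat.succ F) a b l lx ly hl d]
      omega

theorem split_check {n N fuel : ℕ} (hn : n ≤ N) (hN : 1 ≤ N) (hf : 2 * n + 2 ≤ fuel)
    {fd1 : ℕ → Pr} {a b fl : FL} {l lx ly : LN} {t bnd : ℕ}
    (hfl : fl = FL.app a b) (hl : LOK a l lx ly)
    (hA : enumN (leafB fd1 a lx t n N bnd) fuel n n N 0 0 = 0)
    (hB : enumN (leafB fd1 b ly t n N bnd) fuel n n N 0 0 = 0) :
    enumN (leafB fd1 fl l t n N bnd) fuel n n N 0 0 = 0 := by
  rw [enumN_spec hn hN hf] at hA hB ⊢
  rw [Finset.sum_eq_zero_iff] at hA hB ⊢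
  intro mu hmu
  exact leaf_split fd1 a b fl l lx ly t n N bnd _ _ hfl hl (hA mu hmu) (hB mu hmu)

theorem frow_aux {n J w key1 t v : ℕ} {fl : FL} {dl : NL} (ht : t ≤ 40)
    (h : (FS n J : ℝ) ≤ (sumG w key1 fl dl : ℝ) / 2 ^ t) (hs : sumG w key1 fl dl = v) :
    (FS n J : ℝ) ≤ ((v * 2 ^ (40 - t) : ℕ) : ℝ) / 2 ^ 40 := by
  rw [hs] at h
  refine h.trans (le_of_eq ?_)
  push_cast
  rw [div_eq_div_iff (by positivity) (by positivity), mul_assoc, ← pow_add]
  congr 2
  omega

theorem frow_fin {b : ℝ} {x y : ℕ} (h : b ≤ (x : ℝ) / 2 ^ 40) (e : x = y) :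
    b ≤ (y : ℝ) / 2 ^ 40 := e ▸ h

theorem frow_zero {n : ℕ} {b : ℝ} (h : (FS n 1 : ℝ) ≤ b) : (FS n 0 : ℝ) ≤ b := by
  refine le_trans (le_of_eq ?_) h
  have h2 : FS n 0 = FS n 1 := Finset.sum_congr rfl fun τ hτ => sv_zero_eq τ hτ
  rw [h2]

end Pool.MP322F
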