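import Pool.Agent.Lib.MP_322c5f_alF.FKb24L
import Pool.Agent.Lib.MP_322c5f_alF.FKb24T
import Pool.Agent.Lib.MP_322c5f_alF.FKbs

/-! Generated: base table, diagrams with 24 cells: the bound. -/

set_option autoImplicit false
set_option maxRecDepth 100000

open Finset Equiv Nat
open scoped NNReal

namespace Pool.MP322F.B24

open Pool.MP322 Pool.MP322F

theorem hm2 : mask2 = mkm 80 (80 - 1) 12 := by decide +kernel

theorem hm3 : mask3 = mkm 80 (80 - 1) 48 := by decide +kernel

theorem hm4 : mask4 = mkm 80 (80 - 1) 108 := by decide +kernel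

theorem hm5 : mask5 = mkm 80 (80 - 1) 164 := by decide +kernel

theorem hm6 : mask6 = mkm 80 (80 - 1) 199 := by decide +kernel

theorem hm7 : mask7 = mkm 80 (80 - 1) 201 := by decide +kernel

theorem hm8 : mask8 = mkm 80 (80 - 1) 186 := by decide +kernel

theorem hm9 : mask9 = mkm 80 (80 - 1) 157 := by decide +kernel

theorem hm10 : mask10 = mkm 80 (80 - 1) 128 := by decide +kernel

theorem hm11 : mask11 = mkm 80 (80 - 1) 99 := by decide +kernel

theorem hm12 : mask12 = mkm 80 (80 - 1) 77 := by decide +kernel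

theorem hm13 : mask13 = mkm 80 (80 - 1) 56 := by decide +kernel

theorem hm14 : mask14 = mkm 80 (80 - 1) 42 := by decide +kernel

theorem hm15 : mask15 = mkm 80 (80 - 1) 30 := by decide +kernel

theorem hm16 : mask16 = mkm 80 (80 - 1) 22 := by decide +kernel

theorem hm17 : mask17 = mkm 80 (80 - 1) 15 := by decide +kernel

theorem hm18 : mask18 = mkm 80 (80 - 1) 11 := by decide +kernel

theorem hm19 : mask19 = mkm 80 (80 - 1) 7 := by decide +kernel

theorem hm20 : mask20 = mkm 80 (80 - 1) 5 := by decide +kernel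

theorem hm21 : mask21 = mkm 80 (80 - 1) 3 := by decide +kernel

theorem hm22 : mask22 = mkm 80 (80 - 1) 2 := by decide +kernel

theorem hm23 : mask23 = mkm 80 (80 - 1) 1 := by decide +kernel

theorem hm24 : mask24 = mkm 80 (80 - 1) 1 := by decide +kernel

theorem hfl : FLok 24 24 80 2 flAll :=
  FLok_cons (by norm_num) h22_2 hm2
  (FLok_cons (by norm_num) h21_3 hm3
  (FLok_cons (by norm_num) h20_4 hm4
  (FLok_cons (by norm_num) h19_5 hm5
  (FLok_cons (by norm_num) h18_6 hm6
  (FLok_cons (by norm_num) h17_7 hm7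
  (FLok_cons (by norm_num) h16_8 hm8
  (FLok_cons (by norm_num) h15_9 hm9
  (FLok_cons (by norm_num) h14_10 hm10
  (FLok_cons (by norm_num) h13_11 hm11
  (FLok_cons (by norm_num) h12_12 hm12
  (FLok_cons (by norm_num) h11_13 hm13
  (FLok_cons (by norm_num) h10_14 hm14
  (FLok_cons (by norm_num) h9_15 hm15
  (FLok_cons (by norm_num) h8_16 hm16
  (FLok_cons (by norm_num) h7_17 hm17
  (FLok_cons (by norm_num) h6_18 hm18
  (FLok_cons (by norm_num) h5_19 hm19
  (FLok_cons (by norm_num) h4_20 hm20
  (FLok_cons (by norm_num) h3_21 hm21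
  (FLok_cons (by norm_num) h2_22 hm22
  (FLok_cons (by norm_num) h1_23 hm23
  (FLok_cons (by norm_num) h0_24 hm24
  (rfl : (25 : ℕ) = 24 + 1)))))))))))))))))))))))

theorem hlen : ∀ c ≤ 24, (TL c (24 - c)).length < 2 ^ 15 := by
  intro c hc
  interval_cases c
  · exact lt_of_eq_of_lt (VOK_zero' 24 80 23).1 (by norm_num)
  · exact lt_of_eq_of_lt h23_1.1 (by norm_num)
  · exact lt_of_eq_of_lt h22_2.1 (by norm_num)
  · exact lt_of_eq_of_lt h21_3.1 (by norm_num)
  · exact lt_of_eq_of_lt h20_4.1 (by norm_num)
  · exact lt_of_eq_of_lt h19_5.1 (by norm_num)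
  · exact lt_of_eq_of_lt h18_6.1 (by norm_num)
  · exact lt_of_eq_of_lt h17_7.1 (by norm_num)
  · exact lt_of_eq_of_lt h16_8.1 (by norm_num)
  · exact lt_of_eq_of_lt h15_9.1 (by norm_num)
  · exact lt_of_eq_of_lt h14_10.1 (by norm_num)
  · exact lt_of_eq_of_lt h13_11.1 (by norm_num)
  · exact lt_of_eq_of_lt h12_12.1 (by norm_num)
  · exact lt_of_eq_of_lt h11_13.1 (by norm_num)
  · exact lt_of_eq_of_lt h10_14.1 (by norm_num)
  · exact lt_of_eq_of_lt h9_15.1 (by norm_num)
  · exact lt_of_eq_of_lt h8_16.1 (by norm_num)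
  · exact lt_of_eq_of_lt h7_17.1 (by norm_num)
  · exact lt_of_eq_of_lt h6_18.1 (by norm_num)
  · exact lt_of_eq_of_lt h5_19.1 (by norm_num)
  · exact lt_of_eq_of_lt h4_20.1 (by norm_num)
  · exact lt_of_eq_of_lt h3_21.1 (by norm_num)
  · exact lt_of_eq_of_lt h2_22.1 (by norm_num)
  · exact lt_of_eq_of_lt h1_23.1 (by norm_num)
  · exact lt_of_eq_of_lt h0_24.1 (by norm_num)

theorem base (J : ℕ) (hJ : 1 ≤ J) :
    (FS 24 J : ℝ) ≤ (sumG 80 33554430 flAll (dlAll.get (J - 1)) : ℝ) / 2 ^ 30 :=
  base_sound (N := 24) (n := 24) (w := 80) (t := 30) (bnd := 140737488355328) (by norm_num) (by norm_num)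
    (by norm_num) (by norm_num) (by norm_num) (by norm_num) h23_1 flAll hfl hlen dlAll hdat hpar
    hck J hJ

theorem hs1 : sumG 80 33554430 flAll dl1 = 10735161152 := by decide +kernel

theorem hs2 : sumG 80 33554430 flAll dl2 = 4057919265 := by decide +kernel

theorem hs3 : sumG 80 33554430 flAll dl3 = 1301766671 := by decide +kernel

theorem hs4 : sumG 80 33554430 flAll dl4 = 631969676 := by decide +kernel

theorem hs5 : sumG 80 33554430 flAll dl5 = 412294278 := by decide +kernel

theorem hs6 : sumG 80 33554430 flAll dl6 = 317443877 := by decide +kernel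

theorem hs7 : sumG 80 33554430 flAll dl7 = 270887385 := by decide +kernel

theorem hs8 : sumG 80 33554430 flAll dl8 = 245044892 := by decide +kernel

theorem hs9 : sumG 80 33554430 flAll dl9 = 226527967 := by decide +kernel

theorem hs10 : sumG 80 33554430 flAll dl10 = 215064836 := by decide +kernel

theorem hs11 : sumG 80 33554430 flAll dl11 = 209138862 := by decide +kernel

/-- the table of the bounds, scaled by `2^40` -/
noncomputable def row : NL := (.cons 10992805019648 (.cons 10992805019648 (.cons 4155309327360 (.cons 1333009071104 (.cons 647136948224 (.cons 422189340672 (.cons 325062530048 (.cons 277388682240 (.cons 250925969408 (.cons 231964638208 (.cons 220226392064 (.cons 214158194688 .nil))))))))))))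

theorem frow : FRow 24 row := by
  intro K hK
  have hK2 : K ≤ 11 := by omega
  interval_cases K
  · exact frow_fin (frow_zero (frow_aux (v := 10735161152) (by norm_num) (base 1 (by norm_num)) hs1)) (by decide +kernel)
  · exact frow_fin (frow_aux (v := 10735161152) (by norm_num) (base 1 (by norm_num)) hs1) (by decide +kernel)
  · exact frow_fin (frow_aux (v := 4057919265) (by norm_num) (base 2 (by norm_num)) hs2) (by decide +kernel)
  · exact frow_fin (frow_aux (v := 1301766671) (by norm_num) (base 3 (by norm_num)) hs3) (by decide +kernel)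
  · exact frow_fin (frow_aux (v := 631969676) (by norm_num) (base 4 (by norm_num)) hs4) (by decide +kernel)
  · exact frow_fin (frow_aux (v := 412294278) (by norm_num) (base 5 (by norm_num)) hs5) (by decide +kernel)
  · exact frow_fin (frow_aux (v := 317443877) (by norm_num) (base 6 (by norm_num)) hs6) (by decide +kernel)
  · exact frow_fin (frow_aux (v := 270887385) (by norm_num) (base 7 (by norm_num)) hs7) (by decide +kernel)
  · exact frow_fin (frow_aux (v := 245044892) (by norm_num) (base 8 (by norm_num)) hs8) (by decide +kernel)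
  · exact frow_fin (frow_aux (v := 226527967) (by norm_num) (base 9 (by norm_num)) hs9) (by decide +kernel)
  · exact frow_fin (frow_aux (v := 215064836) (by norm_num) (base 10 (by norm_num)) hs10) (by decide +kernel)
  · exact frow_fin (frow_aux (v := 209138862) (by norm_num) (base 11 (by norm_num)) hs11) (by decide +kernel)

end Pool.MP322F.B24
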