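import Pool.Agent.Lib.MP_322c5f_alF.FKdD
import Pool.Agent.Lib.MP_322c5f_alF.FKb24F

/-! Generated: the table of bounds for `FS n K`, `24 < n ≤ 29`, scaled by `2^40`. -/

set_option autoImplicit false
set_option maxRecDepth 100000

namespace Pool.MP322F.B24

open Pool.MP322F

noncomputable def fr25 : NL := (.cons 22648289671071 (.cons 22648289671071 (.cons 7611625183680 (.cons 2436700775461 (.cons 1094240066220 (.cons 650368212462 (.cons 480076653643 (.cons 395364595251 (.cons 350123225590 (.cons 319957311225 (.cons 298596753693 (.cons 283042093797 (.cons 270277839295 .nil)))))))))))))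

noncomputable def fr26 : NL := (.cons 36462270382238 (.cons 36462270382238 (.cons 12171886672254 (.cons 3887151942613 (.cons 1665557051768 (.cons 926090596197 (.cons 654107843972 (.cons 524645462638 (.cons 456849958825 (.cons 414094847045 (.cons 384204743238 (.cons 361274286955 (.cons 342785673071 .nil)))))))))))))

noncomputable def fr27 : NL := (.cons 52263037537979 (.cons 52263037537979 (.cons 17743177901057 (.cons 5720663103811 (.cons 2366154415354 (.cons 1249232128932 (.cons 842795179762 (.cons 658668859261 (.cons 564478401655 (.cons 507841000492 (.cons 469529899345 (.cons 440655486760 (.cons 417537897583 (.cons 400467120741 .nil))))))))))))))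

noncomputable def fr28 : NL := (.cons 70937764799542 (.cons 70937764799542 (.cons 24624932806439 (.cons 8055717229372 (.cons 3278986862089 (.cons 1671524841249 (.cons 1089306172310 (.cons 833859143375 (.cons 707405871411 (.cons 633816087859 (.cons 586118243245 (.cons 550996009887 (.cons 523530761090 (.cons 501642753032 .nil))))))))))))))

noncomputable def fr29 : NL := (.cons 92119351974800 (.cons 92119351974800 (.cons 32597154280576 (.cons 10817752011618 (.cons 4314762010096 (.cons 2105491109403 (.cons 1300605649812 (.cons 957089859204 (.cons 791337905480 (.cons 698661333608 (.cons 640495195061 (.cons 599457015652 (.cons 568037350143 (.cons 543150702650 (.cons 526497654742 .nil)))))))))))))))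

noncomputable def fAll : LL := (.cons fr25 (.cons fr26 (.cons fr27 (.cons fr28 (.cons fr29 .nil)))))

theorem hF : ckF fAll row (dataM.drop 0) 24 = 0 := by decide +kernel

end Pool.MP322F.B24
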