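import Pool.Agent.Lib.MP_322c5f_alF.FB10

/-! Generated: base table, diagrams with 24 cells. -/

set_option autoImplicit false
set_option maxRecDepth 100000

namespace Pool.MP322F.B24

open Pool.MP322F

noncomputable def V1_1 (key : ℕ) : Pr := grp g1 g0 1 0 key

noncomputable def V2_1 (key : ℕ) : Pr := grp V1_1 g0 1 0 key

noncomputable def V3_1 (key : ℕ) : Pr := grp V2_1 g0 1 0 key

noncomputable def V4_1 (key : ℕ) : Pr := grp V3_1 g0 1 0 key

noncomputable def V5_1 (key : ℕ) : Pr := grp V4_1 g0 1 0 key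

noncomputable def V6_1 (key : ℕ) : Pr := grp V5_1 g0 1 0 key

noncomputable def V7_1 (key : ℕ) : Pr := grp V6_1 g0 1 0 key

noncomputable def V8_1 (key : ℕ) : Pr := grp V7_1 g0 1 0 key

noncomputable def V9_1 (key : ℕ) : Pr := grp V8_1 g0 1 0 key

noncomputable def V10_1 (key : ℕ) : Pr := grp V9_1 g0 1 0 key

noncomputable def V11_1 (key : ℕ) : Pr := grp V10_1 g0 1 0 key

noncomputable def V12_1 (key : ℕ) : Pr := grp V11_1 g0 1 0 key

noncomputable def V13_1 (key : ℕ) : Pr := grp V12_1 g0 1 0 key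

noncomputable def V14_1 (key : ℕ) : Pr := grp V13_1 g0 1 0 key

noncomputable def V15_1 (key : ℕ) : Pr := grp V14_1 g0 1 0 key

noncomputable def V16_1 (key : ℕ) : Pr := grp V15_1 g0 1 0 key

noncomputable def V17_1 (key : ℕ) : Pr := grp V16_1 g0 1 0 key

noncomputable def V18_1 (key : ℕ) : Pr := grp V17_1 g0 1 0 key

noncomputable def V19_1 (key : ℕ) : Pr := grp V18_1 g0 1 0 key

noncomputable def V20_1 (key : ℕ) : Pr := grp V19_1 g0 1 0 key

noncomputable def V21_1 (key : ℕ) : Pr := grp V20_1 g0 1 0 key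

noncomputable def V22_1 (key : ℕ) : Pr := grp V21_1 g0 1 0 key

noncomputable def V23_1 (key : ℕ) : Pr := grp V22_1 g0 1 0 key

noncomputable def V2_2 (key : ℕ) : Pr := grp g1 V2_1 2 80 key

noncomputable def V3_2 (key : ℕ) : Pr := grp V1_1 V3_1 2 80 key

noncomputable def V4_2 (key : ℕ) : Pr := grp V2_2 V4_1 2 80 key

noncomputable def V5_2 (key : ℕ) : Pr := grp V3_2 V5_1 2 80 key

noncomputable def V6_2 (key : ℕ) : Pr := grp V4_2 V6_1 2 80 key

noncomputable def V7_2 (key : ℕ) : Pr := grp V5_2 V7_1 2 80 key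

noncomputable def V8_2 (key : ℕ) : Pr := grp V6_2 V8_1 2 80 key

noncomputable def V9_2 (key : ℕ) : Pr := grp V7_2 V9_1 2 80 key

noncomputable def V10_2 (key : ℕ) : Pr := grp V8_2 V10_1 2 80 key

noncomputable def V11_2 (key : ℕ) : Pr := grp V9_2 V11_1 2 80 key

noncomputable def V12_2 (key : ℕ) : Pr := grp V10_2 V12_1 2 80 key

noncomputable def V13_2 (key : ℕ) : Pr := grp V11_2 V13_1 2 80 key

noncomputable def V14_2 (key : ℕ) : Pr := grp V12_2 V14_1 2 80 key

noncomputable def V15_2 (key : ℕ) : Pr := grp V13_2 V15_1 2 80 key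

noncomputable def V16_2 (key : ℕ) : Pr := grp V14_2 V16_1 2 80 key

noncomputable def V17_2 (key : ℕ) : Pr := grp V15_2 V17_1 2 80 key

noncomputable def V18_2 (key : ℕ) : Pr := grp V16_2 V18_1 2 80 key

noncomputable def V19_2 (key : ℕ) : Pr := grp V17_2 V19_1 2 80 key

noncomputable def V20_2 (key : ℕ) : Pr := grp V18_2 V20_1 2 80 key

noncomputable def V21_2 (key : ℕ) : Pr := grp V19_2 V21_1 2 80 key

noncomputable def V22_2 (key : ℕ) : Pr := grp V20_2 V22_1 2 80 key

noncomputable def V3_3 (key : ℕ) : Pr := grp g1 V3_2 3 160 key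

noncomputable def V4_3 (key : ℕ) : Pr := grp V1_1 V4_2 3 240 key

noncomputable def V5_3 (key : ℕ) : Pr := grp V2_2 V5_2 3 240 key

noncomputable def V6_3 (key : ℕ) : Pr := grp V3_3 V6_2 3 320 key

noncomputable def V7_3 (key : ℕ) : Pr := grp V4_3 V7_2 3 320 key

noncomputable def V8_3 (key : ℕ) : Pr := grp V5_3 V8_2 3 400 key

noncomputable def V9_3 (key : ℕ) : Pr := grp V6_3 V9_2 3 400 key

noncomputable def V10_3 (key : ℕ) : Pr := grp V7_3 V10_2 3 480 key

noncomputable def V11_3 (key : ℕ) : Pr := grp V8_3 V11_2 3 480 key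

noncomputable def V12_3 (key : ℕ) : Pr := grp V9_3 V12_2 3 560 key

noncomputable def V13_3 (key : ℕ) : Pr := grp V10_3 V13_2 3 560 key

noncomputable def V14_3 (key : ℕ) : Pr := grp V11_3 V14_2 3 640 key

noncomputable def V15_3 (key : ℕ) : Pr := grp V12_3 V15_2 3 640 key

noncomputable def V16_3 (key : ℕ) : Pr := grp V13_3 V16_2 3 720 key

noncomputable def V17_3 (key : ℕ) : Pr := grp V14_3 V17_2 3 720 key

noncomputable def V18_3 (key : ℕ) : Pr := grp V15_3 V18_2 3 800 key

noncomputable def V19_3 (key : ℕ) : Pr := grp V16_3 V19_2 3 800 key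

noncomputable def V20_3 (key : ℕ) : Pr := grp V17_3 V20_2 3 880 key

noncomputable def V21_3 (key : ℕ) : Pr := grp V18_3 V21_2 3 880 key

noncomputable def V4_4 (key : ℕ) : Pr := grp g1 V4_3 4 320 key

noncomputable def V5_4 (key : ℕ) : Pr := grp V1_1 V5_3 4 400 key

noncomputable def V6_4 (key : ℕ) : Pr := grp V2_2 V6_3 4 560 key

noncomputable def V7_4 (key : ℕ) : Pr := grp V3_3 V7_3 4 640 key

noncomputable def V8_4 (key : ℕ) : Pr := grp V4_4 V8_3 4 800 key

noncomputable def V9_4 (key : ℕ) : Pr := grp V5_4 V9_3 4 960 key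

noncomputable def V10_4 (key : ℕ) : Pr := grp V6_4 V10_3 4 1120 key

noncomputable def V11_4 (key : ℕ) : Pr := grp V7_4 V11_3 4 1280 key

noncomputable def V12_4 (key : ℕ) : Pr := grp V8_4 V12_3 4 1520 key

noncomputable def V13_4 (key : ℕ) : Pr := grp V9_4 V13_3 4 1680 key

noncomputable def V14_4 (key : ℕ) : Pr := grp V10_4 V14_3 4 1920 key

noncomputable def V15_4 (key : ℕ) : Pr := grp V11_4 V15_3 4 2160 key

noncomputable def V16_4 (key : ℕ) : Pr := grp V12_4 V16_3 4 2400 key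

noncomputable def V17_4 (key : ℕ) : Pr := grp V13_4 V17_3 4 2640 key

noncomputable def V18_4 (key : ℕ) : Pr := grp V14_4 V18_3 4 2960 key

noncomputable def V19_4 (key : ℕ) : Pr := grp V15_4 V19_3 4 3200 key

noncomputable def V20_4 (key : ℕ) : Pr := grp V16_4 V20_3 4 3520 key

noncomputable def V5_5 (key : ℕ) : Pr := grp g1 V5_4 5 480 key

noncomputable def V6_5 (key : ℕ) : Pr := grp V1_1 V6_4 5 720 key

noncomputable def V7_5 (key : ℕ) : Pr := grp V2_2 V7_4 5 880 key

noncomputable def V8_5 (key : ℕ) : Pr := grp V3_3 V8_4 5 1200 key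

noncomputable def V9_5 (key : ℕ) : Pr := grp V4_4 V9_4 5 1440 key

noncomputable def V10_5 (key : ℕ) : Pr := grp V5_5 V10_4 5 1840 key

noncomputable def V11_5 (key : ℕ) : Pr := grp V6_5 V11_4 5 2160 key

noncomputable def V12_5 (key : ℕ) : Pr := grp V7_5 V12_4 5 2720 key

noncomputable def V13_5 (key : ℕ) : Pr := grp V8_5 V13_4 5 3120 key

noncomputable def V14_5 (key : ℕ) : Pr := grp V9_5 V14_4 5 3760 key

noncomputable def V15_5 (key : ℕ) : Pr := grp V10_5 V15_4 5 4320 key

noncomputable def V16_5 (key : ℕ) : Pr := grp V11_5 V16_4 5 5120 key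

noncomputable def V17_5 (key : ℕ) : Pr := grp V12_5 V17_4 5 5760 key

noncomputable def V18_5 (key : ℕ) : Pr := grp V13_5 V18_4 5 6720 key

noncomputable def V19_5 (key : ℕ) : Pr := grp V14_5 V19_4 5 7520 key

noncomputable def V6_6 (key : ℕ) : Pr := grp g1 V6_5 6 800 key

noncomputable def V7_6 (key : ℕ) : Pr := grp V1_1 V7_5 6 1040 key

noncomputable def V8_6 (key : ℕ) : Pr := grp V2_2 V8_5 6 1440 key

noncomputable def V9_6 (key : ℕ) : Pr := grp V3_3 V9_5 6 1840 key

noncomputable def V10_6 (key : ℕ) : Pr := grp V4_4 V10_5 6 2400 key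

noncomputable def V11_6 (key : ℕ) : Pr := grp V5_5 V11_5 6 2960 key

noncomputable def V12_6 (key : ℕ) : Pr := grp V6_6 V12_5 6 3760 key

noncomputable def V13_6 (key : ℕ) : Pr := grp V7_6 V13_5 6 4560 key

noncomputable def V14_6 (key : ℕ) : Pr := grp V8_6 V14_5 6 5600 key

noncomputable def V15_6 (key : ℕ) : Pr := grp V9_6 V15_5 6 6720 key

noncomputable def V16_6 (key : ℕ) : Pr := grp V10_6 V16_5 6 8080 key

noncomputable def V17_6 (key : ℕ) : Pr := grp V11_6 V17_5 6 9520 key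

noncomputable def V18_6 (key : ℕ) : Pr := grp V12_6 V18_5 6 11280 key

noncomputable def V7_7 (key : ℕ) : Pr := grp g1 V7_6 7 1120 key

noncomputable def V8_7 (key : ℕ) : Pr := grp V1_1 V8_6 7 1600 key

noncomputable def V9_7 (key : ℕ) : Pr := grp V2_2 V9_6 7 2080 key

noncomputable def V10_7 (key : ℕ) : Pr := grp V3_3 V10_6 7 2800 key

noncomputable def V11_7 (key : ℕ) : Pr := grp V4_4 V11_6 7 3520 key

noncomputable def V12_7 (key : ℕ) : Pr := grp V5_5 V12_6 7 4640 key

noncomputable def V13_7 (key : ℕ) : Pr := grp V6_6 V13_6 7 5680 key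

noncomputable def V14_7 (key : ℕ) : Pr := grp V7_7 V14_6 7 7200 key

noncomputable def V15_7 (key : ℕ) : Pr := grp V8_7 V15_6 7 8800 key

noncomputable def V16_7 (key : ℕ) : Pr := grp V9_7 V16_6 7 10880 key

noncomputable def V17_7 (key : ℕ) : Pr := grp V10_7 V17_6 7 13040 key

noncomputable def V8_8 (key : ℕ) : Pr := grp g1 V8_7 8 1680 key

noncomputable def V9_8 (key : ℕ) : Pr := grp V1_1 V9_7 8 2240 key

noncomputable def V10_8 (key : ℕ) : Pr := grp V2_2 V10_7 8 3040 key

noncomputable def V11_8 (key : ℕ) : Pr := grp V3_3 V11_7 8 3920 key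

noncomputable def V12_8 (key : ℕ) : Pr := grp V4_4 V12_7 8 5200 key

noncomputable def V13_8 (key : ℕ) : Pr := grp V5_5 V13_7 8 6560 key

noncomputable def V14_8 (key : ℕ) : Pr := grp V6_6 V14_7 8 8400 key

noncomputable def V15_8 (key : ℕ) : Pr := grp V7_7 V15_7 8 10480 key

noncomputable def V16_8 (key : ℕ) : Pr := grp V8_8 V16_7 8 13120 key

noncomputable def V9_9 (key : ℕ) : Pr := grp g1 V9_8 9 2320 key

noncomputable def V10_9 (key : ℕ) : Pr := grp V1_1 V10_8 9 3200 key

noncomputable def V11_9 (key : ℕ) : Pr := grp V2_2 V11_8 9 4160 key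

noncomputable def V12_9 (key : ℕ) : Pr := grp V3_3 V12_8 9 5600 key

noncomputable def V13_9 (key : ℕ) : Pr := grp V4_4 V13_8 9 7120 key

noncomputable def V14_9 (key : ℕ) : Pr := grp V5_5 V14_8 9 9280 key

noncomputable def V15_9 (key : ℕ) : Pr := grp V6_6 V15_8 9 11680 key

noncomputable def V10_10 (key : ℕ) : Pr := grp g1 V10_9 10 3280 key

noncomputable def V11_10 (key : ℕ) : Pr := grp V1_1 V11_9 10 4320 key

noncomputable def V12_10 (key : ℕ) : Pr := grp V2_2 V12_9 10 5840 key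

noncomputable def V13_10 (key : ℕ) : Pr := grp V3_3 V13_9 10 7520 key

noncomputable def V14_10 (key : ℕ) : Pr := grp V4_4 V14_9 10 9840 key

noncomputable def V11_11 (key : ℕ) : Pr := grp g1 V11_10 11 4400 key

noncomputable def V12_11 (key : ℕ) : Pr := grp V1_1 V12_10 11 6000 key

noncomputable def V13_11 (key : ℕ) : Pr := grp V2_2 V13_10 11 7760 key

noncomputable def V12_12 (key : ℕ) : Pr := grp g1 V12_11 12 6080 key

end Pool.MP322F.B24
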