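import Pool.Agent.Lib.MP_322c5f_alF.FB15
import Pool.Agent.Lib.MP_322c5f_alF.FKb24V

/-! Generated: base table, diagrams with 24 cells. -/

set_option autoImplicit false
set_option maxRecDepth 100000

namespace Pool.MP322F.B24

open Pool.MP322F

theorem h0_0 : VOK 24 80 0 0 1 g1 := VOK_zero 24 80

theorem h0_1 : VOK 24 80 1 0 1 g1 := VOK_skip (by norm_num) h0_0

theorem h1_1 : VOK 24 80 1 1 1 V1_1 := VOK_step (by norm_num) (by norm_num) (by norm_num) (VOK_zero' 24 80 0) h0_1 (by norm_num)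

theorem h2_1 : VOK 24 80 1 2 1 V2_1 := VOK_step (by norm_num) (by norm_num) (by norm_num) (VOK_zero' 24 80 1) h1_1 (by norm_num)

theorem h3_1 : VOK 24 80 1 3 1 V3_1 := VOK_step (by norm_num) (by norm_num) (by norm_num) (VOK_zero' 24 80 2) h2_1 (by norm_num)

theorem h4_1 : VOK 24 80 1 4 1 V4_1 := VOK_step (by norm_num) (by norm_num) (by norm_num) (VOK_zero' 24 80 3) h3_1 (by norm_num)

theorem h5_1 : VOK 24 80 1 5 1 V5_1 := VOK_step (by norm_num) (by norm_num) (by norm_num) (VOK_zero' 24 80 4) h4_1 (by norm_num)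

theorem h6_1 : VOK 24 80 1 6 1 V6_1 := VOK_step (by norm_num) (by norm_num) (by norm_num) (VOK_zero' 24 80 5) h5_1 (by norm_num)

theorem h7_1 : VOK 24 80 1 7 1 V7_1 := VOK_step (by norm_num) (by norm_num) (by norm_num) (VOK_zero' 24 80 6) h6_1 (by norm_num)

theorem h8_1 : VOK 24 80 1 8 1 V8_1 := VOK_step (by norm_num) (by norm_num) (by norm_num) (VOK_zero' 24 80 7) h7_1 (by norm_num)

theorem h9_1 : VOK 24 80 1 9 1 V9_1 := VOK_step (by norm_num) (by norm_num) (by norm_num) (VOK_zero' 24 80 8) h8_1 (by norm_num)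

theorem h10_1 : VOK 24 80 1 10 1 V10_1 := VOK_step (by norm_num) (by norm_num) (by norm_num) (VOK_zero' 24 80 9) h9_1 (by norm_num)

theorem h11_1 : VOK 24 80 1 11 1 V11_1 := VOK_step (by norm_num) (by norm_num) (by norm_num) (VOK_zero' 24 80 10) h10_1 (by norm_num)

theorem h12_1 : VOK 24 80 1 12 1 V12_1 := VOK_step (by norm_num) (by norm_num) (by norm_num) (VOK_zero' 24 80 11) h11_1 (by norm_num)

theorem h13_1 : VOK 24 80 1 13 1 V13_1 := VOK_step (by norm_num) (by norm_num) (by norm_num) (VOK_zero' 24 80 12) h12_1 (by norm_num)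

theorem h14_1 : VOK 24 80 1 14 1 V14_1 := VOK_step (by norm_num) (by norm_num) (by norm_num) (VOK_zero' 24 80 13) h13_1 (by norm_num)

theorem h15_1 : VOK 24 80 1 15 1 V15_1 := VOK_step (by norm_num) (by norm_num) (by norm_num) (VOK_zero' 24 80 14) h14_1 (by norm_num)

theorem h16_1 : VOK 24 80 1 16 1 V16_1 := VOK_step (by norm_num) (by norm_num) (by norm_num) (VOK_zero' 24 80 15) h15_1 (by norm_num)

theorem h17_1 : VOK 24 80 1 17 1 V17_1 := VOK_step (by norm_num) (by norm_num) (by norm_num) (VOK_zero' 24 80 16) h16_1 (by norm_num)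

theorem h18_1 : VOK 24 80 1 18 1 V18_1 := VOK_step (by norm_num) (by norm_num) (by norm_num) (VOK_zero' 24 80 17) h17_1 (by norm_num)

theorem h19_1 : VOK 24 80 1 19 1 V19_1 := VOK_step (by norm_num) (by norm_num) (by norm_num) (VOK_zero' 24 80 18) h18_1 (by norm_num)

theorem h20_1 : VOK 24 80 1 20 1 V20_1 := VOK_step (by norm_num) (by norm_num) (by norm_num) (VOK_zero' 24 80 19) h19_1 (by norm_num)

theorem h21_1 : VOK 24 80 1 21 1 V21_1 := VOK_step (by norm_num) (by norm_num) (by norm_num) (VOK_zero' 24 80 20) h20_1 (by norm_num)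

theorem h22_1 : VOK 24 80 1 22 1 V22_1 := VOK_step (by norm_num) (by norm_num) (by norm_num) (VOK_zero' 24 80 21) h21_1 (by norm_num)

theorem h23_1 : VOK 24 80 1 23 1 V23_1 := VOK_step (by norm_num) (by norm_num) (by norm_num) (VOK_zero' 24 80 22) h22_1 (by norm_num)

theorem h0_2 : VOK 24 80 2 0 1 g1 := VOK_skip (by norm_num) h0_1

theorem h1_2 : VOK 24 80 2 1 1 V1_1 := VOK_skip (by norm_num) h1_1

theorem h2_2 : VOK 24 80 2 2 2 V2_2 := VOK_step (by norm_num) (by norm_num) (by norm_num) h2_1 h0_2 (by norm_num)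

theorem h3_2 : VOK 24 80 2 3 2 V3_2 := VOK_step (by norm_num) (by norm_num) (by norm_num) h3_1 h1_2 (by norm_num)

theorem h4_2 : VOK 24 80 2 4 3 V4_2 := VOK_step (by norm_num) (by norm_num) (by norm_num) h4_1 h2_2 (by norm_num)

theorem h5_2 : VOK 24 80 2 5 3 V5_2 := VOK_step (by norm_num) (by norm_num) (by norm_num) h5_1 h3_2 (by norm_num)

theorem h6_2 : VOK 24 80 2 6 4 V6_2 := VOK_step (by norm_num) (by norm_num) (by norm_num) h6_1 h4_2 (by norm_num)

theorem h7_2 : VOK 24 80 2 7 4 V7_2 := VOK_step (by norm_num) (by norm_num) (by norm_num) h7_1 h5_2 (by norm_num)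

theorem h8_2 : VOK 24 80 2 8 5 V8_2 := VOK_step (by norm_num) (by norm_num) (by norm_num) h8_1 h6_2 (by norm_num)

theorem h9_2 : VOK 24 80 2 9 5 V9_2 := VOK_step (by norm_num) (by norm_num) (by norm_num) h9_1 h7_2 (by norm_num)

theorem h10_2 : VOK 24 80 2 10 6 V10_2 := VOK_step (by norm_num) (by norm_num) (by norm_num) h10_1 h8_2 (by norm_num)

theorem h11_2 : VOK 24 80 2 11 6 V11_2 := VOK_step (by norm_num) (by norm_num) (by norm_num) h11_1 h9_2 (by norm_num)

theorem h12_2 : VOK 24 80 2 12 7 V12_2 := VOK_step (by norm_num) (by norm_num) (by norm_num) h12_1 h10_2 (by norm_num)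

theorem h13_2 : VOK 24 80 2 13 7 V13_2 := VOK_step (by norm_num) (by norm_num) (by norm_num) h13_1 h11_2 (by norm_num)

theorem h14_2 : VOK 24 80 2 14 8 V14_2 := VOK_step (by norm_num) (by norm_num) (by norm_num) h14_1 h12_2 (by norm_num)

theorem h15_2 : VOK 24 80 2 15 8 V15_2 := VOK_step (by norm_num) (by norm_num) (by norm_num) h15_1 h13_2 (by norm_num)

theorem h16_2 : VOK 24 80 2 16 9 V16_2 := VOK_step (by norm_num) (by norm_num) (by norm_num) h16_1 h14_2 (by norm_num)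

theorem h17_2 : VOK 24 80 2 17 9 V17_2 := VOK_step (by norm_num) (by norm_num) (by norm_num) h17_1 h15_2 (by norm_num)

theorem h18_2 : VOK 24 80 2 18 10 V18_2 := VOK_step (by norm_num) (by norm_num) (by norm_num) h18_1 h16_2 (by norm_num)

theorem h19_2 : VOK 24 80 2 19 10 V19_2 := VOK_step (by norm_num) (by norm_num) (by norm_num) h19_1 h17_2 (by norm_num)

theorem h20_2 : VOK 24 80 2 20 11 V20_2 := VOK_step (by norm_num) (by norm_num) (by norm_num) h20_1 h18_2 (by norm_num)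

theorem h21_2 : VOK 24 80 2 21 11 V21_2 := VOK_step (by norm_num) (by norm_num) (by norm_num) h21_1 h19_2 (by norm_num)

theorem h22_2 : VOK 24 80 2 22 12 V22_2 := VOK_step (by norm_num) (by norm_num) (by norm_num) h22_1 h20_2 (by norm_num)

theorem h0_3 : VOK 24 80 3 0 1 g1 := VOK_skip (by norm_num) h0_2

theorem h1_3 : VOK 24 80 3 1 1 V1_1 := VOK_skip (by norm_num) h1_2

theorem h2_3 : VOK 24 80 3 2 2 V2_2 := VOK_skip (by norm_num) h2_2

theorem h3_3 : VOK 24 80 3 3 3 V3_3 := VOK_step (by norm_num) (by norm_num) (by norm_num) h3_2 h0_3 (by norm_num)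

theorem h4_3 : VOK 24 80 3 4 4 V4_3 := VOK_step (by norm_num) (by norm_num) (by norm_num) h4_2 h1_3 (by norm_num)

theorem h5_3 : VOK 24 80 3 5 5 V5_3 := VOK_step (by norm_num) (by norm_num) (by norm_num) h5_2 h2_3 (by norm_num)

theorem h6_3 : VOK 24 80 3 6 7 V6_3 := VOK_step (by norm_num) (by norm_num) (by norm_num) h6_2 h3_3 (by norm_num)

theorem h7_3 : VOK 24 80 3 7 8 V7_3 := VOK_step (by norm_num) (by norm_num) (by norm_num) h7_2 h4_3 (by norm_num)

theorem h8_3 : VOK 24 80 3 8 10 V8_3 := VOK_step (by norm_num) (by norm_num) (by norm_num) h8_2 h5_3 (by norm_num)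

theorem h9_3 : VOK 24 80 3 9 12 V9_3 := VOK_step (by norm_num) (by norm_num) (by norm_num) h9_2 h6_3 (by norm_num)

theorem h10_3 : VOK 24 80 3 10 14 V10_3 := VOK_step (by norm_num) (by norm_num) (by norm_num) h10_2 h7_3 (by norm_num)

theorem h11_3 : VOK 24 80 3 11 16 V11_3 := VOK_step (by norm_num) (by norm_num) (by norm_num) h11_2 h8_3 (by norm_num)

theorem h12_3 : VOK 24 80 3 12 19 V12_3 := VOK_step (by norm_num) (by norm_num) (by norm_num) h12_2 h9_3 (by norm_num)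

theorem h13_3 : VOK 24 80 3 13 21 V13_3 := VOK_step (by norm_num) (by norm_num) (by norm_num) h13_2 h10_3 (by norm_num)

theorem h14_3 : VOK 24 80 3 14 24 V14_3 := VOK_step (by norm_num) (by norm_num) (by norm_num) h14_2 h11_3 (by norm_num)

theorem h15_3 : VOK 24 80 3 15 27 V15_3 := VOK_step (by norm_num) (by norm_num) (by norm_num) h15_2 h12_3 (by norm_num)

theorem h16_3 : VOK 24 80 3 16 30 V16_3 := VOK_step (by norm_num) (by norm_num) (by norm_num) h16_2 h13_3 (by norm_num)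

theorem h17_3 : VOK 24 80 3 17 33 V17_3 := VOK_step (by norm_num) (by norm_num) (by norm_num) h17_2 h14_3 (by norm_num)

theorem h18_3 : VOK 24 80 3 18 37 V18_3 := VOK_step (by norm_num) (by norm_num) (by norm_num) h18_2 h15_3 (by norm_num)

theorem h19_3 : VOK 24 80 3 19 40 V19_3 := VOK_step (by norm_num) (by norm_num) (by norm_num) h19_2 h16_3 (by norm_num)

theorem h20_3 : VOK 24 80 3 20 44 V20_3 := VOK_step (by norm_num) (by norm_num) (by norm_num) h20_2 h17_3 (by norm_num)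

theorem h21_3 : VOK 24 80 3 21 48 V21_3 := VOK_step (by norm_num) (by norm_num) (by norm_num) h21_2 h18_3 (by norm_num)

theorem h0_4 : VOK 24 80 4 0 1 g1 := VOK_skip (by norm_num) h0_3

theorem h1_4 : VOK 24 80 4 1 1 V1_1 := VOK_skip (by norm_num) h1_3

theorem h2_4 : VOK 24 80 4 2 2 V2_2 := VOK_skip (by norm_num) h2_3

theorem h3_4 : VOK 24 80 4 3 3 V3_3 := VOK_skip (by norm_num) h3_3

theorem h4_4 : VOK 24 80 4 4 5 V4_4 := VOK_step (by norm_num) (by norm_num) (by norm_num) h4_3 h0_4 (by norm_num)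

theorem h5_4 : VOK 24 80 4 5 6 V5_4 := VOK_step (by norm_num) (by norm_num) (by norm_num) h5_3 h1_4 (by norm_num)

theorem h6_4 : VOK 24 80 4 6 9 V6_4 := VOK_step (by norm_num) (by norm_num) (by norm_num) h6_3 h2_4 (by norm_num)

theorem h7_4 : VOK 24 80 4 7 11 V7_4 := VOK_step (by norm_num) (by norm_num) (by norm_num) h7_3 h3_4 (by norm_num)

theorem h8_4 : VOK 24 80 4 8 15 V8_4 := VOK_step (by norm_num) (by norm_num) (by norm_num) h8_3 h4_4 (by norm_num)

theorem h9_4 : VOK 24 80 4 9 18 V9_4 := VOK_step (by norm_num) (by norm_num) (by norm_num) h9_3 h5_4 (by norm_num)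

theorem h10_4 : VOK 24 80 4 10 23 V10_4 := VOK_step (by norm_num) (by norm_num) (by norm_num) h10_3 h6_4 (by norm_num)

theorem h11_4 : VOK 24 80 4 11 27 V11_4 := VOK_step (by norm_num) (by norm_num) (by norm_num) h11_3 h7_4 (by norm_num)

theorem h12_4 : VOK 24 80 4 12 34 V12_4 := VOK_step (by norm_num) (by norm_num) (by norm_num) h12_3 h8_4 (by norm_num)

theorem h13_4 : VOK 24 80 4 13 39 V13_4 := VOK_step (by norm_num) (by norm_num) (by norm_num) h13_3 h9_4 (by norm_num)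

theorem h14_4 : VOK 24 80 4 14 47 V14_4 := VOK_step (by norm_num) (by norm_num) (by norm_num) h14_3 h10_4 (by norm_num)

theorem h15_4 : VOK 24 80 4 15 54 V15_4 := VOK_step (by norm_num) (by norm_num) (by norm_num) h15_3 h11_4 (by norm_num)

theorem h16_4 : VOK 24 80 4 16 64 V16_4 := VOK_step (by norm_num) (by norm_num) (by norm_num) h16_3 h12_4 (by norm_num)

theorem h17_4 : VOK 24 80 4 17 72 V17_4 := VOK_step (by norm_num) (by norm_num) (by norm_num) h17_3 h13_4 (by norm_num)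

theorem h18_4 : VOK 24 80 4 18 84 V18_4 := VOK_step (by norm_num) (by norm_num) (by norm_num) h18_3 h14_4 (by norm_num)

theorem h19_4 : VOK 24 80 4 19 94 V19_4 := VOK_step (by norm_num) (by norm_num) (by norm_num) h19_3 h15_4 (by norm_num)

theorem h20_4 : VOK 24 80 4 20 108 V20_4 := VOK_step (by norm_num) (by norm_num) (by norm_num) h20_3 h16_4 (by norm_num)

theorem h0_5 : VOK 24 80 5 0 1 g1 := VOK_skip (by norm_num) h0_4

theorem h1_5 : VOK 24 80 5 1 1 V1_1 := VOK_skip (by norm_num) h1_4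

theorem h2_5 : VOK 24 80 5 2 2 V2_2 := VOK_skip (by norm_num) h2_4

theorem h3_5 : VOK 24 80 5 3 3 V3_3 := VOK_skip (by norm_num) h3_4

theorem h4_5 : VOK 24 80 5 4 5 V4_4 := VOK_skip (by norm_num) h4_4

theorem h5_5 : VOK 24 80 5 5 7 V5_5 := VOK_step (by norm_num) (by norm_num) (by norm_num) h5_4 h0_5 (by norm_num)

theorem h6_5 : VOK 24 80 5 6 10 V6_5 := VOK_step (by norm_num) (by norm_num) (by norm_num) h6_4 h1_5 (by norm_num)

theorem h7_5 : VOK 24 80 5 7 13 V7_5 := VOK_step (by norm_num) (by norm_num) (by norm_num) h7_4 h2_5 (by norm_num)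

theorem h8_5 : VOK 24 80 5 8 18 V8_5 := VOK_step (by norm_num) (by norm_num) (by norm_num) h8_4 h3_5 (by norm_num)

theorem h9_5 : VOK 24 80 5 9 23 V9_5 := VOK_step (by norm_num) (by norm_num) (by norm_num) h9_4 h4_5 (by norm_num)

theorem h10_5 : VOK 24 80 5 10 30 V10_5 := VOK_step (by norm_num) (by norm_num) (by norm_num) h10_4 h5_5 (by norm_num)

theorem h11_5 : VOK 24 80 5 11 37 V11_5 := VOK_step (by norm_num) (by norm_num) (by norm_num) h11_4 h6_5 (by norm_num)

theorem h12_5 : VOK 24 80 5 12 47 V12_5 := VOK_step (by norm_num) (by norm_num) (by norm_num) h12_4 h7_5 (by norm_num)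

theorem h13_5 : VOK 24 80 5 13 57 V13_5 := VOK_step (by norm_num) (by norm_num) (by norm_num) h13_4 h8_5 (by norm_num)

theorem h14_5 : VOK 24 80 5 14 70 V14_5 := VOK_step (by norm_num) (by norm_num) (by norm_num) h14_4 h9_5 (by norm_num)

theorem h15_5 : VOK 24 80 5 15 84 V15_5 := VOK_step (by norm_num) (by norm_num) (by norm_num) h15_4 h10_5 (by norm_num)

theorem h16_5 : VOK 24 80 5 16 101 V16_5 := VOK_step (by norm_num) (by norm_num) (by norm_num) h16_4 h11_5 (by norm_num)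

theorem h17_5 : VOK 24 80 5 17 119 V17_5 := VOK_step (by norm_num) (by norm_num) (by norm_num) h17_4 h12_5 (by norm_num)

theorem h18_5 : VOK 24 80 5 18 141 V18_5 := VOK_step (by norm_num) (by norm_num) (by norm_num) h18_4 h13_5 (by norm_num)

theorem h19_5 : VOK 24 80 5 19 164 V19_5 := VOK_step (by norm_num) (by norm_num) (by norm_num) h19_4 h14_5 (by norm_num)

theorem h0_6 : VOK 24 80 6 0 1 g1 := VOK_skip (by norm_num) h0_5

theorem h1_6 : VOK 24 80 6 1 1 V1_1 := VOK_skip (by norm_num) h1_5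

theorem h2_6 : VOK 24 80 6 2 2 V2_2 := VOK_skip (by norm_num) h2_5

theorem h3_6 : VOK 24 80 6 3 3 V3_3 := VOK_skip (by norm_num) h3_5

theorem h4_6 : VOK 24 80 6 4 5 V4_4 := VOK_skip (by norm_num) h4_5

theorem h5_6 : VOK 24 80 6 5 7 V5_5 := VOK_skip (by norm_num) h5_5

theorem h6_6 : VOK 24 80 6 6 11 V6_6 := VOK_step (by norm_num) (by norm_num) (by norm_num) h6_5 h0_6 (by norm_num)

theorem h7_6 : VOK 24 80 6 7 14 V7_6 := VOK_step (by norm_num) (by norm_num) (by norm_num) h7_5 h1_6 (by norm_num)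

theorem h8_6 : VOK 24 80 6 8 20 V8_6 := VOK_step (by norm_num) (by norm_num) (by norm_num) h8_5 h2_6 (by norm_num)

theorem h9_6 : VOK 24 80 6 9 26 V9_6 := VOK_step (by norm_num) (by norm_num) (by norm_num) h9_5 h3_6 (by norm_num)

theorem h10_6 : VOK 24 80 6 10 35 V10_6 := VOK_step (by norm_num) (by norm_num) (by norm_num) h10_5 h4_6 (by norm_num)

theorem h11_6 : VOK 24 80 6 11 44 V11_6 := VOK_step (by norm_num) (by norm_num) (by norm_num) h11_5 h5_6 (by norm_num)

theorem h12_6 : VOK 24 80 6 12 58 V12_6 := VOK_step (by norm_num) (by norm_num) (by norm_num) h12_5 h6_6 (by norm_num)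

theorem h13_6 : VOK 24 80 6 13 71 V13_6 := VOK_step (by norm_num) (by norm_num) (by norm_num) h13_5 h7_6 (by norm_num)

theorem h14_6 : VOK 24 80 6 14 90 V14_6 := VOK_step (by norm_num) (by norm_num) (by norm_num) h14_5 h8_6 (by norm_num)

theorem h15_6 : VOK 24 80 6 15 110 V15_6 := VOK_step (by norm_num) (by norm_num) (by norm_num) h15_5 h9_6 (by norm_num)

theorem h16_6 : VOK 24 80 6 16 136 V16_6 := VOK_step (by norm_num) (by norm_num) (by norm_num) h16_5 h10_6 (by norm_num)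

theorem h17_6 : VOK 24 80 6 17 163 V17_6 := VOK_step (by norm_num) (by norm_num) (by norm_num) h17_5 h11_6 (by norm_num)

theorem h18_6 : VOK 24 80 6 18 199 V18_6 := VOK_step (by norm_num) (by norm_num) (by norm_num) h18_5 h12_6 (by norm_num)

theorem h0_7 : VOK 24 80 7 0 1 g1 := VOK_skip (by norm_num) h0_6

theorem h1_7 : VOK 24 80 7 1 1 V1_1 := VOK_skip (by norm_num) h1_6

theorem h2_7 : VOK 24 80 7 2 2 V2_2 := VOK_skip (by norm_num) h2_6

theorem h3_7 : VOK 24 80 7 3 3 V3_3 := VOK_skip (by norm_num) h3_6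

theorem h4_7 : VOK 24 80 7 4 5 V4_4 := VOK_skip (by norm_num) h4_6

theorem h5_7 : VOK 24 80 7 5 7 V5_5 := VOK_skip (by norm_num) h5_6

theorem h6_7 : VOK 24 80 7 6 11 V6_6 := VOK_skip (by norm_num) h6_6

theorem h7_7 : VOK 24 80 7 7 15 V7_7 := VOK_step (by norm_num) (by norm_num) (by norm_num) h7_6 h0_7 (by norm_num)

theorem h8_7 : VOK 24 80 7 8 21 V8_7 := VOK_step (by norm_num) (by norm_num) (by norm_num) h8_6 h1_7 (by norm_num)

theorem h9_7 : VOK 24 80 7 9 28 V9_7 := VOK_step (by norm_num) (by norm_num) (by norm_num) h9_6 h2_7 (by norm_num)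

theorem h10_7 : VOK 24 80 7 10 38 V10_7 := VOK_step (by norm_num) (by norm_num) (by norm_num) h10_6 h3_7 (by norm_num)

theorem h11_7 : VOK 24 80 7 11 49 V11_7 := VOK_step (by norm_num) (by norm_num) (by norm_num) h11_6 h4_7 (by norm_num)

theorem h12_7 : VOK 24 80 7 12 65 V12_7 := VOK_step (by norm_num) (by norm_num) (by norm_num) h12_6 h5_7 (by norm_num)

theorem h13_7 : VOK 24 80 7 13 82 V13_7 := VOK_step (by norm_num) (by norm_num) (by norm_num) h13_6 h6_7 (by norm_num)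

theorem h14_7 : VOK 24 80 7 14 105 V14_7 := VOK_step (by norm_num) (by norm_num) (by norm_num) h14_6 h7_7 (by norm_num)

theorem h15_7 : VOK 24 80 7 15 131 V15_7 := VOK_step (by norm_num) (by norm_num) (by norm_num) h15_6 h8_7 (by norm_num)

theorem h16_7 : VOK 24 80 7 16 164 V16_7 := VOK_step (by norm_num) (by norm_num) (by norm_num) h16_6 h9_7 (by norm_num)

theorem h17_7 : VOK 24 80 7 17 201 V17_7 := VOK_step (by norm_num) (by norm_num) (by norm_num) h17_6 h10_7 (by norm_num)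

theorem h0_8 : VOK 24 80 8 0 1 g1 := VOK_skip (by norm_num) h0_7

theorem h1_8 : VOK 24 80 8 1 1 V1_1 := VOK_skip (by norm_num) h1_7

theorem h2_8 : VOK 24 80 8 2 2 V2_2 := VOK_skip (by norm_num) h2_7

theorem h3_8 : VOK 24 80 8 3 3 V3_3 := VOK_skip (by norm_num) h3_7

theorem h4_8 : VOK 24 80 8 4 5 V4_4 := VOK_skip (by norm_num) h4_7

theorem h5_8 : VOK 24 80 8 5 7 V5_5 := VOK_skip (by norm_num) h5_7

theorem h6_8 : VOK 24 80 8 6 11 V6_6 := VOK_skip (by norm_num) h6_7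

theorem h7_8 : VOK 24 80 8 7 15 V7_7 := VOK_skip (by norm_num) h7_7

theorem h8_8 : VOK 24 80 8 8 22 V8_8 := VOK_step (by norm_num) (by norm_num) (by norm_num) h8_7 h0_8 (by norm_num)

theorem h9_8 : VOK 24 80 8 9 29 V9_8 := VOK_step (by norm_num) (by norm_num) (by norm_num) h9_7 h1_8 (by norm_num)

theorem h10_8 : VOK 24 80 8 10 40 V10_8 := VOK_step (by norm_num) (by norm_num) (by norm_num) h10_7 h2_8 (by norm_num)

theorem h11_8 : VOK 24 80 8 11 52 V11_8 := VOK_step (by norm_num) (by norm_num) (by norm_num) h11_7 h3_8 (by norm_num)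

theorem h12_8 : VOK 24 80 8 12 70 V12_8 := VOK_step (by norm_num) (by norm_num) (by norm_num) h12_7 h4_8 (by norm_num)

theorem h13_8 : VOK 24 80 8 13 89 V13_8 := VOK_step (by norm_num) (by norm_num) (by norm_num) h13_7 h5_8 (by norm_num)

theorem h14_8 : VOK 24 80 8 14 116 V14_8 := VOK_step (by norm_num) (by norm_num) (by norm_num) h14_7 h6_8 (by norm_num)

theorem h15_8 : VOK 24 80 8 15 146 V15_8 := VOK_step (by norm_num) (by norm_num) (by norm_num) h15_7 h7_8 (by norm_num)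

theorem h16_8 : VOK 24 80 8 16 186 V16_8 := VOK_step (by norm_num) (by norm_num) (by norm_num) h16_7 h8_8 (by norm_num)

theorem h0_9 : VOK 24 80 9 0 1 g1 := VOK_skip (by norm_num) h0_8

theorem h1_9 : VOK 24 80 9 1 1 V1_1 := VOK_skip (by norm_num) h1_8

theorem h2_9 : VOK 24 80 9 2 2 V2_2 := VOK_skip (by norm_num) h2_8

theorem h3_9 : VOK 24 80 9 3 3 V3_3 := VOK_skip (by norm_num) h3_8

theorem h4_9 : VOK 24 80 9 4 5 V4_4 := VOK_skip (by norm_num) h4_8

theorem h5_9 : VOK 24 80 9 5 7 V5_5 := VOK_skip (by norm_num) h5_8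

theorem h6_9 : VOK 24 80 9 6 11 V6_6 := VOK_skip (by norm_num) h6_8

theorem h7_9 : VOK 24 80 9 7 15 V7_7 := VOK_skip (by norm_num) h7_8

theorem h8_9 : VOK 24 80 9 8 22 V8_8 := VOK_skip (by norm_num) h8_8

theorem h9_9 : VOK 24 80 9 9 30 V9_9 := VOK_step (by norm_num) (by norm_num) (by norm_num) h9_8 h0_9 (by norm_num)

theorem h10_9 : VOK 24 80 9 10 41 V10_9 := VOK_step (by norm_num) (by norm_num) (by norm_num) h10_8 h1_9 (by norm_num)

theorem h11_9 : VOK 24 80 9 11 54 V11_9 := VOK_step (by norm_num) (by norm_num) (by norm_num) h11_8 h2_9 (by norm_num)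

theorem h12_9 : VOK 24 80 9 12 73 V12_9 := VOK_step (by norm_num) (by norm_num) (by norm_num) h12_8 h3_9 (by norm_num)

theorem h13_9 : VOK 24 80 9 13 94 V13_9 := VOK_step (by norm_num) (by norm_num) (by norm_num) h13_8 h4_9 (by norm_num)

theorem h14_9 : VOK 24 80 9 14 123 V14_9 := VOK_step (by norm_num) (by norm_num) (by norm_num) h14_8 h5_9 (by norm_num)

theorem h15_9 : VOK 24 80 9 15 157 V15_9 := VOK_step (by norm_num) (by norm_num) (by norm_num) h15_8 h6_9 (by norm_num)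

theorem h0_10 : VOK 24 80 10 0 1 g1 := VOK_skip (by norm_num) h0_9

theorem h1_10 : VOK 24 80 10 1 1 V1_1 := VOK_skip (by norm_num) h1_9

theorem h2_10 : VOK 24 80 10 2 2 V2_2 := VOK_skip (by norm_num) h2_9

theorem h3_10 : VOK 24 80 10 3 3 V3_3 := VOK_skip (by norm_num) h3_9

theorem h4_10 : VOK 24 80 10 4 5 V4_4 := VOK_skip (by norm_num) h4_9

theorem h5_10 : VOK 24 80 10 5 7 V5_5 := VOK_skip (by norm_num) h5_9

theorem h6_10 : VOK 24 80 10 6 11 V6_6 := VOK_skip (by norm_num) h6_9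

theorem h7_10 : VOK 24 80 10 7 15 V7_7 := VOK_skip (by norm_num) h7_9

theorem h8_10 : VOK 24 80 10 8 22 V8_8 := VOK_skip (by norm_num) h8_9

theorem h9_10 : VOK 24 80 10 9 30 V9_9 := VOK_skip (by norm_num) h9_9

theorem h10_10 : VOK 24 80 10 10 42 V10_10 := VOK_step (by norm_num) (by norm_num) (by norm_num) h10_9 h0_10 (by norm_num)

theorem h11_10 : VOK 24 80 10 11 55 V11_10 := VOK_step (by norm_num) (by norm_num) (by norm_num) h11_9 h1_10 (by norm_num)

theorem h12_10 : VOK 24 80 10 12 75 V12_10 := VOK_step (by norm_num) (by norm_num) (by norm_num) h12_9 h2_10 (by norm_num)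

theorem h13_10 : VOK 24 80 10 13 97 V13_10 := VOK_step (by norm_num) (by norm_num) (by norm_num) h13_9 h3_10 (by norm_num)

theorem h14_10 : VOK 24 80 10 14 128 V14_10 := VOK_step (by norm_num) (by norm_num) (by norm_num) h14_9 h4_10 (by norm_num)

theorem h0_11 : VOK 24 80 11 0 1 g1 := VOK_skip (by norm_num) h0_10

theorem h1_11 : VOK 24 80 11 1 1 V1_1 := VOK_skip (by norm_num) h1_10

theorem h2_11 : VOK 24 80 11 2 2 V2_2 := VOK_skip (by norm_num) h2_10

theorem h3_11 : VOK 24 80 11 3 3 V3_3 := VOK_skip (by norm_num) h3_10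

theorem h4_11 : VOK 24 80 11 4 5 V4_4 := VOK_skip (by norm_num) h4_10

theorem h5_11 : VOK 24 80 11 5 7 V5_5 := VOK_skip (by norm_num) h5_10

theorem h6_11 : VOK 24 80 11 6 11 V6_6 := VOK_skip (by norm_num) h6_10

theorem h7_11 : VOK 24 80 11 7 15 V7_7 := VOK_skip (by norm_num) h7_10

theorem h8_11 : VOK 24 80 11 8 22 V8_8 := VOK_skip (by norm_num) h8_10

theorem h9_11 : VOK 24 80 11 9 30 V9_9 := VOK_skip (by norm_num) h9_10

theorem h10_11 : VOK 24 80 11 10 42 V10_10 := VOK_skip (by norm_num) h10_10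

theorem h11_11 : VOK 24 80 11 11 56 V11_11 := VOK_step (by norm_num) (by norm_num) (by norm_num) h11_10 h0_11 (by norm_num)

theorem h12_11 : VOK 24 80 11 12 76 V12_11 := VOK_step (by norm_num) (by norm_num) (by norm_num) h12_10 h1_11 (by norm_num)

theorem h13_11 : VOK 24 80 11 13 99 V13_11 := VOK_step (by norm_num) (by norm_num) (by norm_num) h13_10 h2_11 (by norm_num)

theorem h0_12 : VOK 24 80 12 0 1 g1 := VOK_skip (by norm_num) h0_11

theorem h1_12 : VOK 24 80 12 1 1 V1_1 := VOK_skip (by norm_num) h1_11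

theorem h2_12 : VOK 24 80 12 2 2 V2_2 := VOK_skip (by norm_num) h2_11

theorem h3_12 : VOK 24 80 12 3 3 V3_3 := VOK_skip (by norm_num) h3_11

theorem h4_12 : VOK 24 80 12 4 5 V4_4 := VOK_skip (by norm_num) h4_11

theorem h5_12 : VOK 24 80 12 5 7 V5_5 := VOK_skip (by norm_num) h5_11

theorem h6_12 : VOK 24 80 12 6 11 V6_6 := VOK_skip (by norm_num) h6_11

theorem h7_12 : VOK 24 80 12 7 15 V7_7 := VOK_skip (by norm_num) h7_11

theorem h8_12 : VOK 24 80 12 8 22 V8_8 := VOK_skip (by norm_num) h8_11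

theorem h9_12 : VOK 24 80 12 9 30 V9_9 := VOK_skip (by norm_num) h9_11

theorem h10_12 : VOK 24 80 12 10 42 V10_10 := VOK_skip (by norm_num) h10_11

theorem h11_12 : VOK 24 80 12 11 56 V11_11 := VOK_skip (by norm_num) h11_11

theorem h12_12 : VOK 24 80 12 12 77 V12_12 := VOK_step (by norm_num) (by norm_num) (by norm_num) h12_11 h0_12 (by norm_num)

theorem h0_13 : VOK 24 80 13 0 1 g1 := VOK_skip (by norm_num) h0_12

theorem h1_13 : VOK 24 80 13 1 1 V1_1 := VOK_skip (by norm_num) h1_12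

theorem h2_13 : VOK 24 80 13 2 2 V2_2 := VOK_skip (by norm_num) h2_12

theorem h3_13 : VOK 24 80 13 3 3 V3_3 := VOK_skip (by norm_num) h3_12

theorem h4_13 : VOK 24 80 13 4 5 V4_4 := VOK_skip (by norm_num) h4_12

theorem h5_13 : VOK 24 80 13 5 7 V5_5 := VOK_skip (by norm_num) h5_12

theorem h6_13 : VOK 24 80 13 6 11 V6_6 := VOK_skip (by norm_num) h6_12

theorem h7_13 : VOK 24 80 13 7 15 V7_7 := VOK_skip (by norm_num) h7_12

theorem h8_13 : VOK 24 80 13 8 22 V8_8 := VOK_skip (by norm_num) h8_12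

theorem h9_13 : VOK 24 80 13 9 30 V9_9 := VOK_skip (by norm_num) h9_12

theorem h10_13 : VOK 24 80 13 10 42 V10_10 := VOK_skip (by norm_num) h10_12

theorem h11_13 : VOK 24 80 13 11 56 V11_11 := VOK_skip (by norm_num) h11_12

theorem h0_14 : VOK 24 80 14 0 1 g1 := VOK_skip (by norm_num) h0_13

theorem h1_14 : VOK 24 80 14 1 1 V1_1 := VOK_skip (by norm_num) h1_13

theorem h2_14 : VOK 24 80 14 2 2 V2_2 := VOK_skip (by norm_num) h2_13

theorem h3_14 : VOK 24 80 14 3 3 V3_3 := VOK_skip (by norm_num) h3_13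

theorem h4_14 : VOK 24 80 14 4 5 V4_4 := VOK_skip (by norm_num) h4_13

theorem h5_14 : VOK 24 80 14 5 7 V5_5 := VOK_skip (by norm_num) h5_13

theorem h6_14 : VOK 24 80 14 6 11 V6_6 := VOK_skip (by norm_num) h6_13

theorem h7_14 : VOK 24 80 14 7 15 V7_7 := VOK_skip (by norm_num) h7_13

theorem h8_14 : VOK 24 80 14 8 22 V8_8 := VOK_skip (by norm_num) h8_13

theorem h9_14 : VOK 24 80 14 9 30 V9_9 := VOK_skip (by norm_num) h9_13

theorem h10_14 : VOK 24 80 14 10 42 V10_10 := VOK_skip (by norm_num) h10_13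

theorem h0_15 : VOK 24 80 15 0 1 g1 := VOK_skip (by norm_num) h0_14

theorem h1_15 : VOK 24 80 15 1 1 V1_1 := VOK_skip (by norm_num) h1_14

theorem h2_15 : VOK 24 80 15 2 2 V2_2 := VOK_skip (by norm_num) h2_14

theorem h3_15 : VOK 24 80 15 3 3 V3_3 := VOK_skip (by norm_num) h3_14

theorem h4_15 : VOK 24 80 15 4 5 V4_4 := VOK_skip (by norm_num) h4_14

theorem h5_15 : VOK 24 80 15 5 7 V5_5 := VOK_skip (by norm_num) h5_14

theorem h6_15 : VOK 24 80 15 6 11 V6_6 := VOK_skip (by norm_num) h6_14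

theorem h7_15 : VOK 24 80 15 7 15 V7_7 := VOK_skip (by norm_num) h7_14

theorem h8_15 : VOK 24 80 15 8 22 V8_8 := VOK_skip (by norm_num) h8_14

theorem h9_15 : VOK 24 80 15 9 30 V9_9 := VOK_skip (by norm_num) h9_14

theorem h0_16 : VOK 24 80 16 0 1 g1 := VOK_skip (by norm_num) h0_15

theorem h1_16 : VOK 24 80 16 1 1 V1_1 := VOK_skip (by norm_num) h1_15

theorem h2_16 : VOK 24 80 16 2 2 V2_2 := VOK_skip (by norm_num) h2_15

theorem h3_16 : VOK 24 80 16 3 3 V3_3 := VOK_skip (by norm_num) h3_15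

theorem h4_16 : VOK 24 80 16 4 5 V4_4 := VOK_skip (by norm_num) h4_15

theorem h5_16 : VOK 24 80 16 5 7 V5_5 := VOK_skip (by norm_num) h5_15

theorem h6_16 : VOK 24 80 16 6 11 V6_6 := VOK_skip (by norm_num) h6_15

theorem h7_16 : VOK 24 80 16 7 15 V7_7 := VOK_skip (by norm_num) h7_15

theorem h8_16 : VOK 24 80 16 8 22 V8_8 := VOK_skip (by norm_num) h8_15

theorem h0_17 : VOK 24 80 17 0 1 g1 := VOK_skip (by norm_num) h0_16

theorem h1_17 : VOK 24 80 17 1 1 V1_1 := VOK_skip (by norm_num) h1_16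

theorem h2_17 : VOK 24 80 17 2 2 V2_2 := VOK_skip (by norm_num) h2_16

theorem h3_17 : VOK 24 80 17 3 3 V3_3 := VOK_skip (by norm_num) h3_16

theorem h4_17 : VOK 24 80 17 4 5 V4_4 := VOK_skip (by norm_num) h4_16

theorem h5_17 : VOK 24 80 17 5 7 V5_5 := VOK_skip (by norm_num) h5_16

theorem h6_17 : VOK 24 80 17 6 11 V6_6 := VOK_skip (by norm_num) h6_16

theorem h7_17 : VOK 24 80 17 7 15 V7_7 := VOK_skip (by norm_num) h7_16

theorem h0_18 : VOK 24 80 18 0 1 g1 := VOK_skip (by norm_num) h0_17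

theorem h1_18 : VOK 24 80 18 1 1 V1_1 := VOK_skip (by norm_num) h1_17

theorem h2_18 : VOK 24 80 18 2 2 V2_2 := VOK_skip (by norm_num) h2_17

theorem h3_18 : VOK 24 80 18 3 3 V3_3 := VOK_skip (by norm_num) h3_17

theorem h4_18 : VOK 24 80 18 4 5 V4_4 := VOK_skip (by norm_num) h4_17

theorem h5_18 : VOK 24 80 18 5 7 V5_5 := VOK_skip (by norm_num) h5_17

theorem h6_18 : VOK 24 80 18 6 11 V6_6 := VOK_skip (by norm_num) h6_17

theorem h0_19 : VOK 24 80 19 0 1 g1 := VOK_skip (by norm_num) h0_18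

theorem h1_19 : VOK 24 80 19 1 1 V1_1 := VOK_skip (by norm_num) h1_18

theorem h2_19 : VOK 24 80 19 2 2 V2_2 := VOK_skip (by norm_num) h2_18

theorem h3_19 : VOK 24 80 19 3 3 V3_3 := VOK_skip (by norm_num) h3_18

theorem h4_19 : VOK 24 80 19 4 5 V4_4 := VOK_skip (by norm_num) h4_18

theorem h5_19 : VOK 24 80 19 5 7 V5_5 := VOK_skip (by norm_num) h5_18

theorem h0_20 : VOK 24 80 20 0 1 g1 := VOK_skip (by norm_num) h0_19

theorem h1_20 : VOK 24 80 20 1 1 V1_1 := VOK_skip (by norm_num) h1_19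

theorem h2_20 : VOK 24 80 20 2 2 V2_2 := VOK_skip (by norm_num) h2_19

theorem h3_20 : VOK 24 80 20 3 3 V3_3 := VOK_skip (by norm_num) h3_19

theorem h4_20 : VOK 24 80 20 4 5 V4_4 := VOK_skip (by norm_num) h4_19

theorem h0_21 : VOK 24 80 21 0 1 g1 := VOK_skip (by norm_num) h0_20

theorem h1_21 : VOK 24 80 21 1 1 V1_1 := VOK_skip (by norm_num) h1_20

theorem h2_21 : VOK 24 80 21 2 2 V2_2 := VOK_skip (by norm_num) h2_20

theorem h3_21 : VOK 24 80 21 3 3 V3_3 := VOK_skip (by norm_num) h3_20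

theorem h0_22 : VOK 24 80 22 0 1 g1 := VOK_skip (by norm_num) h0_21

theorem h1_22 : VOK 24 80 22 1 1 V1_1 := VOK_skip (by norm_num) h1_21

theorem h2_22 : VOK 24 80 22 2 2 V2_2 := VOK_skip (by norm_num) h2_21

theorem h0_23 : VOK 24 80 23 0 1 g1 := VOK_skip (by norm_num) h0_22

theorem h1_23 : VOK 24 80 23 1 1 V1_1 := VOK_skip (by norm_num) h1_22

theorem h0_24 : VOK 24 80 24 0 1 g1 := VOK_skip (by norm_num) h0_23

end Pool.MP322F.B24
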