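import Pool.Agent.Lib.MP_322c5f_alF.FE04
import Pool.Agent.Lib.MP_322c5f_alF.FKb24L

/-! Generated: the exact numbers of pairs of standard tableaux with given number of corners, 24 cells. -/

set_option autoImplicit false
set_option maxRecDepth 100000

open Finset Equiv Nat

namespace Pool.MP322F.B24

open Pool.MP322 Pool.MP322F

noncomputable def uE : ℕ := 0x13814bb05ce4a80d68100000000000004c2cc1bb41c0891368f000000000000020f8b4763376ac5de4ba00000000000002b1196895f07682db8e000000000000000ab769d0cfcc45d0ee0000000000000000008f9b00b1789dca00000000000000000000000000000000

noncomputable def u0 : ℕ := 0x10000000000000001000000000000000100000000000000010000000000000001000000000000000100000000000000010000000000000001000000000000000100000000000000010000000000000001000000000000000100000000000000010000000000000001000000000000000100000000000000010000000000000001000000000000000100000000000000010000000000000001000000000000000100000000000000010000000000000001000000000000000100000000000000010000000000000001000000000000000100000000000000010000000000000001000000000000000100000000000000010000000000000001000000000000000100000000000000010000000000000001000000000000000100000000000000010000000000000001000000000000000100000000000000010000000000000001000000000000000100000000000000010000000000000001000000000000000100000000000000010000000000000001000000000000000100000000000000010000000000000001000000000000000100000000000000010000000000000001000000000000000100000000000000010000000000000000d9feb517b200000045920b8f9c000000055393334f0000000014e28e0800000000000117d00000000000000018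

theorem huE : enumN (leafC V23_1) (2 * 24 + 2) 24 24 24 0 0 = uE := by decide +kernel

theorem hu0 : ckU0 620448401733239439360000 uE u0 60 = 0 := by decide +kernel

theorem urow : URow 60 24 u0 :=
  URow_start (N := 620448401733239439360000) (by norm_num [Nat.factorial]) (fun j => uC_exact (N := 24) (n := 24) (w := 80)
    (by norm_num) (by norm_num) (by norm_num) (by norm_num) (by norm_num) h23_1 huE j) hu0

theorem srow0 : SRow 24 317401667137 := SRow_start (n := 23) (by norm_num)

theorem srow1 : SRow 25 310988851198 := SRow_start (n := 24) (by norm_num)

theorem hmC : mC 24 = 6 := by
  rw [mC]
  norm_num [Nat.sqrt_eq']

end Pool.MP322F.B24
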