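import Pool.Agent.Lib.MP_322c5f_alF.FKb30D

/-! Generated: base table, diagrams with 30 cells (split check). -/

set_option autoImplicit false
set_option maxRecDepth 100000

namespace Pool.MP322F.B30

open Pool.MP322F

noncomputable def flA : FL := (.cons V28_2 2 15 mask2 (.cons V27_3 3 75 mask3 (.cons V26_4 4 206 mask4 .nil)))

noncomputable def dlA1 : NL := (.cons d1_2 (.cons d1_3 (.cons d1_4 .nil)))

noncomputable def dlA2 : NL := (.cons d2_2 (.cons d2_3 (.cons d2_4 .nil)))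

noncomputable def dlA3 : NL := (.cons d3_2 (.cons d3_3 (.cons d3_4 .nil)))

noncomputable def dlA4 : NL := (.cons d4_2 (.cons d4_3 (.cons d4_4 .nil)))

noncomputable def dlA5 : NL := (.cons d5_2 (.cons d5_3 (.cons d5_4 .nil)))

noncomputable def dlA6 : NL := (.cons d6_2 (.cons d6_3 (.cons d6_4 .nil)))

noncomputable def dlA7 : NL := (.cons d7_2 (.cons d7_3 (.cons d7_4 .nil)))

noncomputable def dlA8 : NL := (.cons d8_2 (.cons d8_3 (.cons d8_4 .nil)))

noncomputable def dlA9 : NL := (.cons d9_2 (.cons d9_3 (.cons d9_4 .nil)))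

noncomputable def dlA10 : NL := (.cons d10_2 (.cons d10_3 (.cons d10_4 .nil)))

noncomputable def dlA11 : NL := (.cons d11_2 (.cons d11_3 (.cons d11_4 .nil)))

noncomputable def dlA12 : NL := (.cons d12_2 (.cons d12_3 (.cons d12_4 .nil)))

noncomputable def dlA13 : NL := (.cons d13_2 (.cons d13_3 (.cons d13_4 .nil)))

noncomputable def dlA14 : NL := (.cons d14_2 (.cons d14_3 (.cons d14_4 .nil)))

noncomputable def dlAllA : LN := (.cons dlA1 (.cons dlA2 (.cons dlA3 (.cons dlA4 (.cons dlA5 (.cons dlA6 (.cons dlA7 (.cons dlA8 (.cons dlA9 (.cons dlA10 (.cons dlA11 (.cons dlA12 (.cons dlA13 (.last dlA14))))))))))))))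

noncomputable def flB : FL := (.cons V25_5 5 377 mask5 (.cons V24_6 6 532 mask6 (.cons V23_7 7 618 mask7 (.cons V22_8 8 638 mask8 (.cons V21_9 9 598 mask9 (.cons V20_10 10 530 mask10 (.cons V19_11 11 445 mask11 (.cons V18_12 12 366 mask12 (.cons V17_13 13 290 mask13 (.cons V16_14 14 229 mask14 (.cons V15_15 15 176 mask15 (.cons V14_14 16 135 mask16 (.cons V13_13 17 101 mask17 (.cons V12_12 18 77 mask18 (.cons V11_11 19 56 mask19 (.cons V10_10 20 42 mask20 (.cons V9_9 21 30 mask21 (.cons V8_8 22 22 mask22 (.cons V7_7 23 15 mask23 (.cons V6_6 24 11 mask24 (.cons V5_5 25 7 mask25 (.cons V4_4 26 5 mask26 (.cons V3_3 27 3 mask27 (.cons V2_2 28 2 mask28 (.cons V1_1 29 1 mask29 (.cons g1 30 1 mask30 .nil))))))))))))))))))))))))))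

noncomputable def dlB1 : NL := (.cons d1_5 (.cons d1_6 (.cons d1_7 (.cons d1_8 (.cons d1_9 (.cons d1_10 (.cons d1_11 (.cons d1_12 (.cons d1_13 (.cons d1_14 (.cons d1_15 (.cons d1_16 (.cons d1_17 (.cons d1_18 (.cons d1_19 (.cons d1_20 (.cons d1_21 (.cons d1_22 (.cons d1_23 (.cons d1_24 (.cons d1_25 (.cons d1_26 (.cons d1_27 (.cons d1_28 (.cons d1_29 (.cons d1_30 .nil))))))))))))))))))))))))))

noncomputable def dlB2 : NL := (.cons d2_5 (.cons d2_6 (.cons d2_7 (.cons d2_8 (.cons d2_9 (.cons d2_10 (.cons d2_11 (.cons d2_12 (.cons d2_13 (.cons d2_14 (.cons d2_15 (.cons d2_16 (.cons d2_17 (.cons d2_18 (.cons d2_19 (.cons d2_20 (.cons d2_21 (.cons d2_22 (.cons d2_23 (.cons d2_24 (.cons d2_25 (.cons d2_26 (.cons d2_27 (.cons d2_28 (.cons d2_29 (.cons d2_30 .nil))))))))))))))))))))))))))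

noncomputable def dlB3 : NL := (.cons d3_5 (.cons d3_6 (.cons d3_7 (.cons d3_8 (.cons d3_9 (.cons d3_10 (.cons d3_11 (.cons d3_12 (.cons d3_13 (.cons d3_14 (.cons d3_15 (.cons d3_16 (.cons d3_17 (.cons d3_18 (.cons d3_19 (.cons d3_20 (.cons d3_21 (.cons d3_22 (.cons d3_23 (.cons d3_24 (.cons d3_25 (.cons d3_26 (.cons d3_27 (.cons d3_28 (.cons d3_29 (.cons d3_30 .nil))))))))))))))))))))))))))

noncomputable def dlB4 : NL := (.cons d4_5 (.cons d4_6 (.cons d4_7 (.cons d4_8 (.cons d4_9 (.cons d4_10 (.cons d4_11 (.cons d4_12 (.cons d4_13 (.cons d4_14 (.cons d4_15 (.cons d4_16 (.cons d4_17 (.cons d4_18 (.cons d4_19 (.cons d4_20 (.cons d4_21 (.cons d4_22 (.cons d4_23 (.cons d4_24 (.cons d4_25 (.cons d4_26 (.cons d4_27 (.cons d4_28 (.cons d4_29 (.cons d4_30 .nil))))))))))))))))))))))))))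

noncomputable def dlB5 : NL := (.cons d5_5 (.cons d5_6 (.cons d5_7 (.cons d5_8 (.cons d5_9 (.cons d5_10 (.cons d5_11 (.cons d5_12 (.cons d5_13 (.cons d5_14 (.cons d5_15 (.cons d5_16 (.cons d5_17 (.cons d5_18 (.cons d5_19 (.cons d5_20 (.cons d5_21 (.cons d5_22 (.cons d5_23 (.cons d5_24 (.cons d5_25 (.cons d5_26 (.cons d5_27 (.cons d5_28 (.cons d5_29 (.cons d5_30 .nil))))))))))))))))))))))))))

noncomputable def dlB6 : NL := (.cons d6_5 (.cons d6_6 (.cons d6_7 (.cons d6_8 (.cons d6_9 (.cons d6_10 (.cons d6_11 (.cons d6_12 (.cons d6_13 (.cons d6_14 (.cons d6_15 (.cons d6_16 (.cons d6_17 (.cons d6_18 (.cons d6_19 (.cons d6_20 (.cons d6_21 (.cons d6_22 (.cons d6_23 (.cons d6_24 (.cons d6_25 (.cons d6_26 (.cons d6_27 (.cons d6_28 (.cons d6_29 (.cons d6_30 .nil))))))))))))))))))))))))))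

noncomputable def dlB7 : NL := (.cons d7_5 (.cons d7_6 (.cons d7_7 (.cons d7_8 (.cons d7_9 (.cons d7_10 (.cons d7_11 (.cons d7_12 (.cons d7_13 (.cons d7_14 (.cons d7_15 (.cons d7_16 (.cons d7_17 (.cons d7_18 (.cons d7_19 (.cons d7_20 (.cons d7_21 (.cons d7_22 (.cons d7_23 (.cons d7_24 (.cons d7_25 (.cons d7_26 (.cons d7_27 (.cons d7_28 (.cons d7_29 (.cons d7_30 .nil))))))))))))))))))))))))))

noncomputable def dlB8 : NL := (.cons d8_5 (.cons d8_6 (.cons d8_7 (.cons d8_8 (.cons d8_9 (.cons d8_10 (.cons d8_11 (.cons d8_12 (.cons d8_13 (.cons d8_14 (.cons d8_15 (.cons d8_16 (.cons d8_17 (.cons d8_18 (.cons d8_19 (.cons d8_20 (.cons d8_21 (.cons d8_22 (.cons d8_23 (.cons d8_24 (.cons d8_25 (.cons d8_26 (.cons d8_27 (.cons d8_28 (.cons d8_29 (.cons d8_30 .nil))))))))))))))))))))))))))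

noncomputable def dlB9 : NL := (.cons d9_5 (.cons d9_6 (.cons d9_7 (.cons d9_8 (.cons d9_9 (.cons d9_10 (.cons d9_11 (.cons d9_12 (.cons d9_13 (.cons d9_14 (.cons d9_15 (.cons d9_16 (.cons d9_17 (.cons d9_18 (.cons d9_19 (.cons d9_20 (.cons d9_21 (.cons d9_22 (.cons d9_23 (.cons d9_24 (.cons d9_25 (.cons d9_26 (.cons d9_27 (.cons d9_28 (.cons d9_29 (.cons d9_30 .nil))))))))))))))))))))))))))

noncomputable def dlB10 : NL := (.cons d10_5 (.cons d10_6 (.cons d10_7 (.cons d10_8 (.cons d10_9 (.cons d10_10 (.cons d10_11 (.cons d10_12 (.cons d10_13 (.cons d10_14 (.cons d10_15 (.cons d10_16 (.cons d10_17 (.cons d10_18 (.cons d10_19 (.cons d10_20 (.cons d10_21 (.cons d10_22 (.cons d10_23 (.cons d10_24 (.cons d10_25 (.cons d10_26 (.cons d10_27 (.cons d10_28 (.cons d10_29 (.cons d10_30 .nil))))))))))))))))))))))))))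

noncomputable def dlB11 : NL := (.cons d11_5 (.cons d11_6 (.cons d11_7 (.cons d11_8 (.cons d11_9 (.cons d11_10 (.cons d11_11 (.cons d11_12 (.cons d11_13 (.cons d11_14 (.cons d11_15 (.cons d11_16 (.cons d11_17 (.cons d11_18 (.cons d11_19 (.cons d11_20 (.cons d11_21 (.cons d11_22 (.cons d11_23 (.cons d11_24 (.cons d11_25 (.cons d11_26 (.cons d11_27 (.cons d11_28 (.cons d11_29 (.cons d11_30 .nil))))))))))))))))))))))))))

noncomputable def dlB12 : NL := (.cons d12_5 (.cons d12_6 (.cons d12_7 (.cons d12_8 (.cons d12_9 (.cons d12_10 (.cons d12_11 (.cons d12_12 (.cons d12_13 (.cons d12_14 (.cons d12_15 (.cons d12_16 (.cons d12_17 (.cons d12_18 (.cons d12_19 (.cons d12_20 (.cons d12_21 (.cons d12_22 (.cons d12_23 (.cons d12_24 (.cons d12_25 (.cons d12_26 (.cons d12_27 (.cons d12_28 (.cons d12_29 (.cons d12_30 .nil))))))))))))))))))))))))))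

noncomputable def dlB13 : NL := (.cons d13_5 (.cons d13_6 (.cons d13_7 (.cons d13_8 (.cons d13_9 (.cons d13_10 (.cons d13_11 (.cons d13_12 (.cons d13_13 (.cons d13_14 (.cons d13_15 (.cons d13_16 (.cons d13_17 (.cons d13_18 (.cons d13_19 (.cons d13_20 (.cons d13_21 (.cons d13_22 (.cons d13_23 (.cons d13_24 (.cons d13_25 (.cons d13_26 (.cons d13_27 (.cons d13_28 (.cons d13_29 (.cons d13_30 .nil))))))))))))))))))))))))))

noncomputable def dlB14 : NL := (.cons d14_5 (.cons d14_6 (.cons d14_7 (.cons d14_8 (.cons d14_9 (.cons d14_10 (.cons d14_11 (.cons d14_12 (.cons d14_13 (.cons d14_14 (.cons d14_15 (.cons d14_16 (.cons d14_17 (.cons d14_18 (.cons d14_19 (.cons d14_20 (.cons d14_21 (.cons d14_22 (.cons d14_23 (.cons d14_24 (.cons d14_25 (.cons d14_26 (.cons d14_27 (.cons d14_28 (.cons d14_29 (.cons d14_30 .nil))))))))))))))))))))))))))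

noncomputable def dlAllB : LN := (.cons dlB1 (.cons dlB2 (.cons dlB3 (.cons dlB4 (.cons dlB5 (.cons dlB6 (.cons dlB7 (.cons dlB8 (.cons dlB9 (.cons dlB10 (.cons dlB11 (.cons dlB12 (.cons dlB13 (.last dlB14))))))))))))))

end Pool.MP322F.B30
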