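import Pool.Agent.Lib.MP_322c5f_alF.FKb30D

/-! Generated: base table, diagrams with 30 cells. -/

set_option autoImplicit false
set_option maxRecDepth 100000

namespace Pool.MP322F.B30

open Pool.MP322F

theorem hdat : datL 84 30 flAll dlAll = 0 := by decide +kernel

theorem hpar : parG 84 2147483646 flAll = 0 := by decide +kernel

end Pool.MP322F.B30
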