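import Pool.Agent.Lib.MP_322c5f_alF.FKb30L
import Pool.Agent.Lib.MP_322c5f_alF.FKb30TA
import Pool.Agent.Lib.MP_322c5f_alF.FKb30TB
import Pool.Agent.Lib.MP_322c5f_alF.FKb30TC
import Pool.Agent.Lib.MP_322c5f_alF.FKbs

/-! Generated: base table, diagrams with 30 cells: the bound. -/

set_option autoImplicit false
set_option maxRecDepth 100000

open Finset Equiv Nat
open scoped NNReal

namespace Pool.MP322F.B30

open Pool.MP322 Pool.MP322F

theorem hm2 : mask2 = mkm 84 (84 - 1) 15 := by decide +kernel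

theorem hm3 : mask3 = mkm 84 (84 - 1) 75 := by decide +kernel

theorem hm4 : mask4 = mkm 84 (84 - 1) 206 := by decide +kernel

theorem hm5 : mask5 = mkm 84 (84 - 1) 377 := by decide +kernel

theorem hm6 : mask6 = mkm 84 (84 - 1) 532 := by decide +kernel

theorem hm7 : mask7 = mkm 84 (84 - 1) 618 := by decide +kernel

theorem hm8 : mask8 = mkm 84 (84 - 1) 638 := by decide +kernel

theorem hm9 : mask9 = mkm 84 (84 - 1) 598 := by decide +kernel

theorem hm10 : mask10 = mkm 84 (84 - 1) 530 := by decide +kernel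

theorem hm11 : mask11 = mkm 84 (84 - 1) 445 := by decide +kernel

theorem hm12 : mask12 = mkm 84 (84 - 1) 366 := by decide +kernel

theorem hm13 : mask13 = mkm 84 (84 - 1) 290 := by decide +kernel

theorem hm14 : mask14 = mkm 84 (84 - 1) 229 := by decide +kernel

theorem hm15 : mask15 = mkm 84 (84 - 1) 176 := by decide +kernel

theorem hm16 : mask16 = mkm 84 (84 - 1) 135 := by decide +kernel

theorem hm17 : mask17 = mkm 84 (84 - 1) 101 := by decide +kernel

theorem hm18 : mask18 = mkm 84 (84 - 1) 77 := by decide +kernel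

theorem hm19 : mask19 = mkm 84 (84 - 1) 56 := by decide +kernel

theorem hm20 : mask20 = mkm 84 (84 - 1) 42 := by decide +kernel

theorem hm21 : mask21 = mkm 84 (84 - 1) 30 := by decide +kernel

theorem hm22 : mask22 = mkm 84 (84 - 1) 22 := by decide +kernel

theorem hm23 : mask23 = mkm 84 (84 - 1) 15 := by decide +kernel

theorem hm24 : mask24 = mkm 84 (84 - 1) 11 := by decide +kernel

theorem hm25 : mask25 = mkm 84 (84 - 1) 7 := by decide +kernel

theorem hm26 : mask26 = mkm 84 (84 - 1) 5 := by decide +kernel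

theorem hm27 : mask27 = mkm 84 (84 - 1) 3 := by decide +kernel

theorem hm28 : mask28 = mkm 84 (84 - 1) 2 := by decide +kernel

theorem hm29 : mask29 = mkm 84 (84 - 1) 1 := by decide +kernel

theorem hm30 : mask30 = mkm 84 (84 - 1) 1 := by decide +kernel

theorem hfl : FLok 30 30 84 2 flAll :=
  FLok_cons (by norm_num) h28_2 hm2
  (FLok_cons (by norm_num) h27_3 hm3
  (FLok_cons (by norm_num) h26_4 hm4
  (FLok_cons (by norm_num) h25_5 hm5
  (FLok_cons (by norm_num) h24_6 hm6
  (FLok_cons (by norm_num) h23_7 hm7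
  (FLok_cons (by norm_num) h22_8 hm8
  (FLok_cons (by norm_num) h21_9 hm9
  (FLok_cons (by norm_num) h20_10 hm10
  (FLok_cons (by norm_num) h19_11 hm11
  (FLok_cons (by norm_num) h18_12 hm12
  (FLok_cons (by norm_num) h17_13 hm13
  (FLok_cons (by norm_num) h16_14 hm14
  (FLok_cons (by norm_num) h15_15 hm15
  (FLok_cons (by norm_num) h14_16 hm16
  (FLok_cons (by norm_num) h13_17 hm17
  (FLok_cons (by norm_num) h12_18 hm18
  (FLok_cons (by norm_num) h11_19 hm19
  (FLok_cons (by norm_num) h10_20 hm20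
  (FLok_cons (by norm_num) h9_21 hm21
  (FLok_cons (by norm_num) h8_22 hm22
  (FLok_cons (by norm_num) h7_23 hm23
  (FLok_cons (by norm_num) h6_24 hm24
  (FLok_cons (by norm_num) h5_25 hm25
  (FLok_cons (by norm_num) h4_26 hm26
  (FLok_cons (by norm_num) h3_27 hm27
  (FLok_cons (by norm_num) h2_28 hm28
  (FLok_cons (by norm_num) h1_29 hm29
  (FLok_cons (by norm_num) h0_30 hm30
  (rfl : (31 : ℕ) = 30 + 1)))))))))))))))))))))))))))))

theorem hlen : ∀ c ≤ 30, (TL c (30 - c)).length < 2 ^ 15 := by
  intro c hc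
  interval_cases c
  · exact lt_of_eq_of_lt (VOK_zero' 30 84 29).1 (by norm_num)
  · exact lt_of_eq_of_lt h29_1.1 (by norm_num)
  · exact lt_of_eq_of_lt h28_2.1 (by norm_num)
  · exact lt_of_eq_of_lt h27_3.1 (by norm_num)
  · exact lt_of_eq_of_lt h26_4.1 (by norm_num)
  · exact lt_of_eq_of_lt h25_5.1 (by norm_num)
  · exact lt_of_eq_of_lt h24_6.1 (by norm_num)
  · exact lt_of_eq_of_lt h23_7.1 (by norm_num)
  · exact lt_of_eq_of_lt h22_8.1 (by norm_num)
  · exact lt_of_eq_of_lt h21_9.1 (by norm_num)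
  · exact lt_of_eq_of_lt h20_10.1 (by norm_num)
  · exact lt_of_eq_of_lt h19_11.1 (by norm_num)
  · exact lt_of_eq_of_lt h18_12.1 (by norm_num)
  · exact lt_of_eq_of_lt h17_13.1 (by norm_num)
  · exact lt_of_eq_of_lt h16_14.1 (by norm_num)
  · exact lt_of_eq_of_lt h15_15.1 (by norm_num)
  · exact lt_of_eq_of_lt h14_16.1 (by norm_num)
  · exact lt_of_eq_of_lt h13_17.1 (by norm_num)
  · exact lt_of_eq_of_lt h12_18.1 (by norm_num)
  · exact lt_of_eq_of_lt h11_19.1 (by norm_num)
  · exact lt_of_eq_of_lt h10_20.1 (by norm_num)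
  · exact lt_of_eq_of_lt h9_21.1 (by norm_num)
  · exact lt_of_eq_of_lt h8_22.1 (by norm_num)
  · exact lt_of_eq_of_lt h7_23.1 (by norm_num)
  · exact lt_of_eq_of_lt h6_24.1 (by norm_num)
  · exact lt_of_eq_of_lt h5_25.1 (by norm_num)
  · exact lt_of_eq_of_lt h4_26.1 (by norm_num)
  · exact lt_of_eq_of_lt h3_27.1 (by norm_num)
  · exact lt_of_eq_of_lt h2_28.1 (by norm_num)
  · exact lt_of_eq_of_lt h1_29.1 (by norm_num)
  · exact lt_of_eq_of_lt h0_30.1 (by norm_num)

theorem hLOK : LOK flA dlAll dlAllA dlAllB := ⟨⟨trivial, rfl⟩, ⟨⟨trivial, rfl⟩, ⟨⟨trivial, rfl⟩, ⟨⟨trivial, rfl⟩, ⟨⟨trivial, rfl⟩, ⟨⟨trivial, rfl⟩, ⟨⟨trivial, rfl⟩, ⟨⟨trivial, rfl⟩, ⟨⟨trivial, rfl⟩, ⟨⟨trivial, rfl⟩, ⟨⟨trivial, rfl⟩, ⟨⟨trivial, rfl⟩, ⟨⟨trivial, rfl⟩, ⟨trivial, rfl⟩⟩⟩⟩⟩⟩⟩⟩⟩⟩⟩⟩⟩⟩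

theorem hck : enumN (leafB V29_1 flAll dlAll 30 30 30 2251799813685248) 62 30 30 30 0 0 = 0 :=
  split_check (by norm_num) (by norm_num) (by norm_num) rfl hLOK hckA hckB

theorem base (J : ℕ) (hJ : 1 ≤ J) :
    (FS 30 J : ℝ) ≤ (sumG 84 2147483646 flAll (dlAll.get (J - 1)) : ℝ) / 2 ^ 30 :=
  base_sound (N := 30) (n := 30) (w := 84) (t := 30) (bnd := 2251799813685248) (by norm_num) (by norm_num)
    (by norm_num) (by norm_num) (by norm_num) (by norm_num) h29_1 flAll hfl hlen dlAll hdat hpar
    hck J hJ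

theorem hs1 : sumG 84 2147483646 flAll dl1 = 26317245222 := by decide +kernel

theorem hs2 : sumG 84 2147483646 flAll dl2 = 8953387724 := by decide +kernel

theorem hs3 : sumG 84 2147483646 flAll dl3 = 2222371463 := by decide +kernel

theorem hs4 : sumG 84 2147483646 flAll dl4 = 850079297 := by decide +kernel

theorem hs5 : sumG 84 2147483646 flAll dl5 = 459891669 := by decide +kernel

theorem hs6 : sumG 84 2147483646 flAll dl6 = 318615498 := by decide +kernel

theorem hs7 : sumG 84 2147483646 flAll dl7 = 253069569 := by decide +kernel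

theorem hs8 : sumG 84 2147483646 flAll dl8 = 219727003 := by decide +kernel

theorem hs9 : sumG 84 2147483646 flAll dl9 = 200566833 := by decide +kernel

theorem hs10 : sumG 84 2147483646 flAll dl10 = 188899208 := by decide +kernel

theorem hs11 : sumG 84 2147483646 flAll dl11 = 177466442 := by decide +kernel

theorem hs12 : sumG 84 2147483646 flAll dl12 = 169414729 := by decide +kernel

theorem hs13 : sumG 84 2147483646 flAll dl13 = 164184287 := by decide +kernel

theorem hs14 : sumG 84 2147483646 flAll dl14 = 161522888 := by decide +kernel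

/-- the table of the bounds, scaled by `2^40` -/
noncomputable def row : NL := (.cons 26948859107328 (.cons 26948859107328 (.cons 9168269029376 (.cons 2275708378112 (.cons 870481200128 (.cons 470929069056 (.cons 326262269952 (.cons 259143238656 (.cons 225000451072 (.cons 205380436992 (.cons 193432788992 (.cons 181725636608 (.cons 173480682496 (.cons 168124709888 (.cons 165399437312 .nil)))))))))))))))

theorem frow : FRow 30 row := by
  intro K hK
  have hK2 : K ≤ 14 := by omega
  interval_cases K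
  · exact frow_fin (frow_zero (frow_aux (v := 26317245222) (by norm_num) (base 1 (by norm_num)) hs1)) (by decide +kernel)
  · exact frow_fin (frow_aux (v := 26317245222) (by norm_num) (base 1 (by norm_num)) hs1) (by decide +kernel)
  · exact frow_fin (frow_aux (v := 8953387724) (by norm_num) (base 2 (by norm_num)) hs2) (by decide +kernel)
  · exact frow_fin (frow_aux (v := 2222371463) (by norm_num) (base 3 (by norm_num)) hs3) (by decide +kernel)
  · exact frow_fin (frow_aux (v := 850079297) (by norm_num) (base 4 (by norm_num)) hs4) (by decide +kernel)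
  · exact frow_fin (frow_aux (v := 459891669) (by norm_num) (base 5 (by norm_num)) hs5) (by decide +kernel)
  · exact frow_fin (frow_aux (v := 318615498) (by norm_num) (base 6 (by norm_num)) hs6) (by decide +kernel)
  · exact frow_fin (frow_aux (v := 253069569) (by norm_num) (base 7 (by norm_num)) hs7) (by decide +kernel)
  · exact frow_fin (frow_aux (v := 219727003) (by norm_num) (base 8 (by norm_num)) hs8) (by decide +kernel)
  · exact frow_fin (frow_aux (v := 200566833) (by norm_num) (base 9 (by norm_num)) hs9) (by decide +kernel)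
  · exact frow_fin (frow_aux (v := 188899208) (by norm_num) (base 10 (by norm_num)) hs10) (by decide +kernel)
  · exact frow_fin (frow_aux (v := 177466442) (by norm_num) (base 11 (by norm_num)) hs11) (by decide +kernel)
  · exact frow_fin (frow_aux (v := 169414729) (by norm_num) (base 12 (by norm_num)) hs12) (by decide +kernel)
  · exact frow_fin (frow_aux (v := 164184287) (by norm_num) (base 13 (by norm_num)) hs13) (by decide +kernel)
  · exact frow_fin (frow_aux (v := 161522888) (by norm_num) (base 14 (by norm_num)) hs14) (by decide +kernel)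

end Pool.MP322F.B30
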