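import Pool.Agent.Lib.MP_322c5f_alF.FB10

/-! Generated: base table, diagrams with 30 cells. -/

set_option autoImplicit false
set_option maxRecDepth 100000

namespace Pool.MP322F.B30

open Pool.MP322F

noncomputable def V1_1 (key : ℕ) : Pr := grp g1 g0 1 0 key

noncomputable def V2_1 (key : ℕ) : Pr := grp V1_1 g0 1 0 key

noncomputable def V3_1 (key : ℕ) : Pr := grp V2_1 g0 1 0 key

noncomputable def V4_1 (key : ℕ) : Pr := grp V3_1 g0 1 0 key

noncomputable def V5_1 (key : ℕ) : Pr := grp V4_1 g0 1 0 key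

noncomputable def V6_1 (key : ℕ) : Pr := grp V5_1 g0 1 0 key

noncomputable def V7_1 (key : ℕ) : Pr := grp V6_1 g0 1 0 key

noncomputable def V8_1 (key : ℕ) : Pr := grp V7_1 g0 1 0 key

noncomputable def V9_1 (key : ℕ) : Pr := grp V8_1 g0 1 0 key

noncomputable def V10_1 (key : ℕ) : Pr := grp V9_1 g0 1 0 key

noncomputable def V11_1 (key : ℕ) : Pr := grp V10_1 g0 1 0 key

noncomputable def V12_1 (key : ℕ) : Pr := grp V11_1 g0 1 0 key

noncomputable def V13_1 (key : ℕ) : Pr := grp V12_1 g0 1 0 key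

noncomputable def V14_1 (key : ℕ) : Pr := grp V13_1 g0 1 0 key

noncomputable def V15_1 (key : ℕ) : Pr := grp V14_1 g0 1 0 key

noncomputable def V16_1 (key : ℕ) : Pr := grp V15_1 g0 1 0 key

noncomputable def V17_1 (key : ℕ) : Pr := grp V16_1 g0 1 0 key

noncomputable def V18_1 (key : ℕ) : Pr := grp V17_1 g0 1 0 key

noncomputable def V19_1 (key : ℕ) : Pr := grp V18_1 g0 1 0 key

noncomputable def V20_1 (key : ℕ) : Pr := grp V19_1 g0 1 0 key

noncomputable def V21_1 (key : ℕ) : Pr := grp V20_1 g0 1 0 key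

noncomputable def V22_1 (key : ℕ) : Pr := grp V21_1 g0 1 0 key

noncomputable def V23_1 (key : ℕ) : Pr := grp V22_1 g0 1 0 key

noncomputable def V24_1 (key : ℕ) : Pr := grp V23_1 g0 1 0 key

noncomputable def V25_1 (key : ℕ) : Pr := grp V24_1 g0 1 0 key

noncomputable def V26_1 (key : ℕ) : Pr := grp V25_1 g0 1 0 key

noncomputable def V27_1 (key : ℕ) : Pr := grp V26_1 g0 1 0 key

noncomputable def V28_1 (key : ℕ) : Pr := grp V27_1 g0 1 0 key

noncomputable def V29_1 (key : ℕ) : Pr := grp V28_1 g0 1 0 key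

noncomputable def V2_2 (key : ℕ) : Pr := grp g1 V2_1 2 84 key

noncomputable def V3_2 (key : ℕ) : Pr := grp V1_1 V3_1 2 84 key

noncomputable def V4_2 (key : ℕ) : Pr := grp V2_2 V4_1 2 84 key

noncomputable def V5_2 (key : ℕ) : Pr := grp V3_2 V5_1 2 84 key

noncomputable def V6_2 (key : ℕ) : Pr := grp V4_2 V6_1 2 84 key

noncomputable def V7_2 (key : ℕ) : Pr := grp V5_2 V7_1 2 84 key

noncomputable def V8_2 (key : ℕ) : Pr := grp V6_2 V8_1 2 84 key

noncomputable def V9_2 (key : ℕ) : Pr := grp V7_2 V9_1 2 84 key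

noncomputable def V10_2 (key : ℕ) : Pr := grp V8_2 V10_1 2 84 key

noncomputable def V11_2 (key : ℕ) : Pr := grp V9_2 V11_1 2 84 key

noncomputable def V12_2 (key : ℕ) : Pr := grp V10_2 V12_1 2 84 key

noncomputable def V13_2 (key : ℕ) : Pr := grp V11_2 V13_1 2 84 key

noncomputable def V14_2 (key : ℕ) : Pr := grp V12_2 V14_1 2 84 key

noncomputable def V15_2 (key : ℕ) : Pr := grp V13_2 V15_1 2 84 key

noncomputable def V16_2 (key : ℕ) : Pr := grp V14_2 V16_1 2 84 key

noncomputable def V17_2 (key : ℕ) : Pr := grp V15_2 V17_1 2 84 key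

noncomputable def V18_2 (key : ℕ) : Pr := grp V16_2 V18_1 2 84 key

noncomputable def V19_2 (key : ℕ) : Pr := grp V17_2 V19_1 2 84 key

noncomputable def V20_2 (key : ℕ) : Pr := grp V18_2 V20_1 2 84 key

noncomputable def V21_2 (key : ℕ) : Pr := grp V19_2 V21_1 2 84 key

noncomputable def V22_2 (key : ℕ) : Pr := grp V20_2 V22_1 2 84 key

noncomputable def V23_2 (key : ℕ) : Pr := grp V21_2 V23_1 2 84 key

noncomputable def V24_2 (key : ℕ) : Pr := grp V22_2 V24_1 2 84 key

noncomputable def V25_2 (key : ℕ) : Pr := grp V23_2 V25_1 2 84 key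

noncomputable def V26_2 (key : ℕ) : Pr := grp V24_2 V26_1 2 84 key

noncomputable def V27_2 (key : ℕ) : Pr := grp V25_2 V27_1 2 84 key

noncomputable def V28_2 (key : ℕ) : Pr := grp V26_2 V28_1 2 84 key

noncomputable def V3_3 (key : ℕ) : Pr := grp g1 V3_2 3 168 key

noncomputable def V4_3 (key : ℕ) : Pr := grp V1_1 V4_2 3 252 key

noncomputable def V5_3 (key : ℕ) : Pr := grp V2_2 V5_2 3 252 key

noncomputable def V6_3 (key : ℕ) : Pr := grp V3_3 V6_2 3 336 key

noncomputable def V7_3 (key : ℕ) : Pr := grp V4_3 V7_2 3 336 key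

noncomputable def V8_3 (key : ℕ) : Pr := grp V5_3 V8_2 3 420 key

noncomputable def V9_3 (key : ℕ) : Pr := grp V6_3 V9_2 3 420 key

noncomputable def V10_3 (key : ℕ) : Pr := grp V7_3 V10_2 3 504 key

noncomputable def V11_3 (key : ℕ) : Pr := grp V8_3 V11_2 3 504 key

noncomputable def V12_3 (key : ℕ) : Pr := grp V9_3 V12_2 3 588 key

noncomputable def V13_3 (key : ℕ) : Pr := grp V10_3 V13_2 3 588 key

noncomputable def V14_3 (key : ℕ) : Pr := grp V11_3 V14_2 3 672 key

noncomputable def V15_3 (key : ℕ) : Pr := grp V12_3 V15_2 3 672 key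

noncomputable def V16_3 (key : ℕ) : Pr := grp V13_3 V16_2 3 756 key

noncomputable def V17_3 (key : ℕ) : Pr := grp V14_3 V17_2 3 756 key

noncomputable def V18_3 (key : ℕ) : Pr := grp V15_3 V18_2 3 840 key

noncomputable def V19_3 (key : ℕ) : Pr := grp V16_3 V19_2 3 840 key

noncomputable def V20_3 (key : ℕ) : Pr := grp V17_3 V20_2 3 924 key

noncomputable def V21_3 (key : ℕ) : Pr := grp V18_3 V21_2 3 924 key

noncomputable def V22_3 (key : ℕ) : Pr := grp V19_3 V22_2 3 1008 key

noncomputable def V23_3 (key : ℕ) : Pr := grp V20_3 V23_2 3 1008 key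

noncomputable def V24_3 (key : ℕ) : Pr := grp V21_3 V24_2 3 1092 key

noncomputable def V25_3 (key : ℕ) : Pr := grp V22_3 V25_2 3 1092 key

noncomputable def V26_3 (key : ℕ) : Pr := grp V23_3 V26_2 3 1176 key

noncomputable def V27_3 (key : ℕ) : Pr := grp V24_3 V27_2 3 1176 key

noncomputable def V4_4 (key : ℕ) : Pr := grp g1 V4_3 4 336 key

noncomputable def V5_4 (key : ℕ) : Pr := grp V1_1 V5_3 4 420 key

noncomputable def V6_4 (key : ℕ) : Pr := grp V2_2 V6_3 4 588 key

noncomputable def V7_4 (key : ℕ) : Pr := grp V3_3 V7_3 4 672 key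

noncomputable def V8_4 (key : ℕ) : Pr := grp V4_4 V8_3 4 840 key

noncomputable def V9_4 (key : ℕ) : Pr := grp V5_4 V9_3 4 1008 key

noncomputable def V10_4 (key : ℕ) : Pr := grp V6_4 V10_3 4 1176 key

noncomputable def V11_4 (key : ℕ) : Pr := grp V7_4 V11_3 4 1344 key

noncomputable def V12_4 (key : ℕ) : Pr := grp V8_4 V12_3 4 1596 key

noncomputable def V13_4 (key : ℕ) : Pr := grp V9_4 V13_3 4 1764 key

noncomputable def V14_4 (key : ℕ) : Pr := grp V10_4 V14_3 4 2016 key

noncomputable def V15_4 (key : ℕ) : Pr := grp V11_4 V15_3 4 2268 key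

noncomputable def V16_4 (key : ℕ) : Pr := grp V12_4 V16_3 4 2520 key

noncomputable def V17_4 (key : ℕ) : Pr := grp V13_4 V17_3 4 2772 key

noncomputable def V18_4 (key : ℕ) : Pr := grp V14_4 V18_3 4 3108 key

noncomputable def V19_4 (key : ℕ) : Pr := grp V15_4 V19_3 4 3360 key

noncomputable def V20_4 (key : ℕ) : Pr := grp V16_4 V20_3 4 3696 key

noncomputable def V21_4 (key : ℕ) : Pr := grp V17_4 V21_3 4 4032 key

noncomputable def V22_4 (key : ℕ) : Pr := grp V18_4 V22_3 4 4368 key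

noncomputable def V23_4 (key : ℕ) : Pr := grp V19_4 V23_3 4 4704 key

noncomputable def V24_4 (key : ℕ) : Pr := grp V20_4 V24_3 4 5124 key

noncomputable def V25_4 (key : ℕ) : Pr := grp V21_4 V25_3 4 5460 key

noncomputable def V26_4 (key : ℕ) : Pr := grp V22_4 V26_3 4 5880 key

noncomputable def V5_5 (key : ℕ) : Pr := grp g1 V5_4 5 504 key

noncomputable def V6_5 (key : ℕ) : Pr := grp V1_1 V6_4 5 756 key

noncomputable def V7_5 (key : ℕ) : Pr := grp V2_2 V7_4 5 924 key

noncomputable def V8_5 (key : ℕ) : Pr := grp V3_3 V8_4 5 1260 key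

noncomputable def V9_5 (key : ℕ) : Pr := grp V4_4 V9_4 5 1512 key

noncomputable def V10_5 (key : ℕ) : Pr := grp V5_5 V10_4 5 1932 key

noncomputable def V11_5 (key : ℕ) : Pr := grp V6_5 V11_4 5 2268 key

noncomputable def V12_5 (key : ℕ) : Pr := grp V7_5 V12_4 5 2856 key

noncomputable def V13_5 (key : ℕ) : Pr := grp V8_5 V13_4 5 3276 key

noncomputable def V14_5 (key : ℕ) : Pr := grp V9_5 V14_4 5 3948 key

noncomputable def V15_5 (key : ℕ) : Pr := grp V10_5 V15_4 5 4536 key

noncomputable def V16_5 (key : ℕ) : Pr := grp V11_5 V16_4 5 5376 key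

noncomputable def V17_5 (key : ℕ) : Pr := grp V12_5 V17_4 5 6048 key

noncomputable def V18_5 (key : ℕ) : Pr := grp V13_5 V18_4 5 7056 key

noncomputable def V19_5 (key : ℕ) : Pr := grp V14_5 V19_4 5 7896 key

noncomputable def V20_5 (key : ℕ) : Pr := grp V15_5 V20_4 5 9072 key

noncomputable def V21_5 (key : ℕ) : Pr := grp V16_5 V21_4 5 10080 key

noncomputable def V22_5 (key : ℕ) : Pr := grp V17_5 V22_4 5 11424 key

noncomputable def V23_5 (key : ℕ) : Pr := grp V18_5 V23_4 5 12600 key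

noncomputable def V24_5 (key : ℕ) : Pr := grp V19_5 V24_4 5 14196 key

noncomputable def V25_5 (key : ℕ) : Pr := grp V20_5 V25_4 5 15540 key

noncomputable def V6_6 (key : ℕ) : Pr := grp g1 V6_5 6 840 key

noncomputable def V7_6 (key : ℕ) : Pr := grp V1_1 V7_5 6 1092 key

noncomputable def V8_6 (key : ℕ) : Pr := grp V2_2 V8_5 6 1512 key

noncomputable def V9_6 (key : ℕ) : Pr := grp V3_3 V9_5 6 1932 key

noncomputable def V10_6 (key : ℕ) : Pr := grp V4_4 V10_5 6 2520 key

noncomputable def V11_6 (key : ℕ) : Pr := grp V5_5 V11_5 6 3108 key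

noncomputable def V12_6 (key : ℕ) : Pr := grp V6_6 V12_5 6 3948 key

noncomputable def V13_6 (key : ℕ) : Pr := grp V7_6 V13_5 6 4788 key

noncomputable def V14_6 (key : ℕ) : Pr := grp V8_6 V14_5 6 5880 key

noncomputable def V15_6 (key : ℕ) : Pr := grp V9_6 V15_5 6 7056 key

noncomputable def V16_6 (key : ℕ) : Pr := grp V10_6 V16_5 6 8484 key

noncomputable def V17_6 (key : ℕ) : Pr := grp V11_6 V17_5 6 9996 key

noncomputable def V18_6 (key : ℕ) : Pr := grp V12_6 V18_5 6 11844 key

noncomputable def V19_6 (key : ℕ) : Pr := grp V13_6 V19_5 6 13776 key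

noncomputable def V20_6 (key : ℕ) : Pr := grp V14_6 V20_5 6 16128 key

noncomputable def V21_6 (key : ℕ) : Pr := grp V15_6 V21_5 6 18564 key

noncomputable def V22_6 (key : ℕ) : Pr := grp V16_6 V22_5 6 21420 key

noncomputable def V23_6 (key : ℕ) : Pr := grp V17_6 V23_5 6 24444 key

noncomputable def V24_6 (key : ℕ) : Pr := grp V18_6 V24_5 6 27972 key

noncomputable def V7_7 (key : ℕ) : Pr := grp g1 V7_6 7 1176 key

noncomputable def V8_7 (key : ℕ) : Pr := grp V1_1 V8_6 7 1680 key

noncomputable def V9_7 (key : ℕ) : Pr := grp V2_2 V9_6 7 2184 key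

noncomputable def V10_7 (key : ℕ) : Pr := grp V3_3 V10_6 7 2940 key

noncomputable def V11_7 (key : ℕ) : Pr := grp V4_4 V11_6 7 3696 key

noncomputable def V12_7 (key : ℕ) : Pr := grp V5_5 V12_6 7 4872 key

noncomputable def V13_7 (key : ℕ) : Pr := grp V6_6 V13_6 7 5964 key

noncomputable def V14_7 (key : ℕ) : Pr := grp V7_7 V14_6 7 7560 key

noncomputable def V15_7 (key : ℕ) : Pr := grp V8_7 V15_6 7 9240 key

noncomputable def V16_7 (key : ℕ) : Pr := grp V9_7 V16_6 7 11424 key

noncomputable def V17_7 (key : ℕ) : Pr := grp V10_7 V17_6 7 13692 key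

noncomputable def V18_7 (key : ℕ) : Pr := grp V11_7 V18_6 7 16716 key

noncomputable def V19_7 (key : ℕ) : Pr := grp V12_7 V19_6 7 19740 key

noncomputable def V20_7 (key : ℕ) : Pr := grp V13_7 V20_6 7 23688 key

noncomputable def V21_7 (key : ℕ) : Pr := grp V14_7 V21_6 7 27804 key

noncomputable def V22_7 (key : ℕ) : Pr := grp V15_7 V22_6 7 32844 key

noncomputable def V23_7 (key : ℕ) : Pr := grp V16_7 V23_6 7 38136 key

noncomputable def V8_8 (key : ℕ) : Pr := grp g1 V8_7 8 1764 key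

noncomputable def V9_8 (key : ℕ) : Pr := grp V1_1 V9_7 8 2352 key

noncomputable def V10_8 (key : ℕ) : Pr := grp V2_2 V10_7 8 3192 key

noncomputable def V11_8 (key : ℕ) : Pr := grp V3_3 V11_7 8 4116 key

noncomputable def V12_8 (key : ℕ) : Pr := grp V4_4 V12_7 8 5460 key

noncomputable def V13_8 (key : ℕ) : Pr := grp V5_5 V13_7 8 6888 key

noncomputable def V14_8 (key : ℕ) : Pr := grp V6_6 V14_7 8 8820 key

noncomputable def V15_8 (key : ℕ) : Pr := grp V7_7 V15_7 8 11004 key

noncomputable def V16_8 (key : ℕ) : Pr := grp V8_8 V16_7 8 13776 key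

noncomputable def V17_8 (key : ℕ) : Pr := grp V9_8 V17_7 8 16884 key

noncomputable def V18_8 (key : ℕ) : Pr := grp V10_8 V18_7 8 20832 key

noncomputable def V19_8 (key : ℕ) : Pr := grp V11_8 V19_7 8 25200 key

noncomputable def V20_8 (key : ℕ) : Pr := grp V12_8 V20_7 8 30576 key

noncomputable def V21_8 (key : ℕ) : Pr := grp V13_8 V21_7 8 36624 key

noncomputable def V22_8 (key : ℕ) : Pr := grp V14_8 V22_7 8 43848 key

noncomputable def V9_9 (key : ℕ) : Pr := grp g1 V9_8 9 2436 key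

noncomputable def V10_9 (key : ℕ) : Pr := grp V1_1 V10_8 9 3360 key

noncomputable def V11_9 (key : ℕ) : Pr := grp V2_2 V11_8 9 4368 key

noncomputable def V12_9 (key : ℕ) : Pr := grp V3_3 V12_8 9 5880 key

noncomputable def V13_9 (key : ℕ) : Pr := grp V4_4 V13_8 9 7476 key

noncomputable def V14_9 (key : ℕ) : Pr := grp V5_5 V14_8 9 9744 key

noncomputable def V15_9 (key : ℕ) : Pr := grp V6_6 V15_8 9 12264 key

noncomputable def V16_9 (key : ℕ) : Pr := grp V7_7 V16_8 9 15624 key

noncomputable def V17_9 (key : ℕ) : Pr := grp V8_8 V17_8 9 19320 key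

noncomputable def V18_9 (key : ℕ) : Pr := grp V9_9 V18_8 9 24192 key

noncomputable def V19_9 (key : ℕ) : Pr := grp V10_9 V19_8 9 29568 key

noncomputable def V20_9 (key : ℕ) : Pr := grp V11_9 V20_8 9 36456 key

noncomputable def V21_9 (key : ℕ) : Pr := grp V12_9 V21_8 9 44100 key

noncomputable def V10_10 (key : ℕ) : Pr := grp g1 V10_9 10 3444 key

noncomputable def V11_10 (key : ℕ) : Pr := grp V1_1 V11_9 10 4536 key

noncomputable def V12_10 (key : ℕ) : Pr := grp V2_2 V12_9 10 6132 key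

noncomputable def V13_10 (key : ℕ) : Pr := grp V3_3 V13_9 10 7896 key

noncomputable def V14_10 (key : ℕ) : Pr := grp V4_4 V14_9 10 10332 key

noncomputable def V15_10 (key : ℕ) : Pr := grp V5_5 V15_9 10 13188 key

noncomputable def V16_10 (key : ℕ) : Pr := grp V6_6 V16_9 10 16884 key

noncomputable def V17_10 (key : ℕ) : Pr := grp V7_7 V17_9 10 21168 key

noncomputable def V18_10 (key : ℕ) : Pr := grp V8_8 V18_9 10 26712 key

noncomputable def V19_10 (key : ℕ) : Pr := grp V9_9 V19_9 10 33012 key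

noncomputable def V20_10 (key : ℕ) : Pr := grp V10_10 V20_9 10 40992 key

noncomputable def V11_11 (key : ℕ) : Pr := grp g1 V11_10 11 4620 key

noncomputable def V12_11 (key : ℕ) : Pr := grp V1_1 V12_10 11 6300 key

noncomputable def V13_11 (key : ℕ) : Pr := grp V2_2 V13_10 11 8148 key

noncomputable def V14_11 (key : ℕ) : Pr := grp V3_3 V14_10 11 10752 key

noncomputable def V15_11 (key : ℕ) : Pr := grp V4_4 V15_10 11 13776 key

noncomputable def V16_11 (key : ℕ) : Pr := grp V5_5 V16_10 11 17808 key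

noncomputable def V17_11 (key : ℕ) : Pr := grp V6_6 V17_10 11 22428 key

noncomputable def V18_11 (key : ℕ) : Pr := grp V7_7 V18_10 11 28560 key

noncomputable def V19_11 (key : ℕ) : Pr := grp V8_8 V19_10 11 35532 key

noncomputable def V12_12 (key : ℕ) : Pr := grp g1 V12_11 12 6384 key

noncomputable def V13_12 (key : ℕ) : Pr := grp V1_1 V13_11 12 8316 key

noncomputable def V14_12 (key : ℕ) : Pr := grp V2_2 V14_11 12 11004 key

noncomputable def V15_12 (key : ℕ) : Pr := grp V3_3 V15_11 12 14196 key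

noncomputable def V16_12 (key : ℕ) : Pr := grp V4_4 V16_11 12 18396 key

noncomputable def V17_12 (key : ℕ) : Pr := grp V5_5 V17_11 12 23352 key

noncomputable def V18_12 (key : ℕ) : Pr := grp V6_6 V18_11 12 29820 key

noncomputable def V13_13 (key : ℕ) : Pr := grp g1 V13_12 13 8400 key

noncomputable def V14_13 (key : ℕ) : Pr := grp V1_1 V14_12 13 11172 key

noncomputable def V15_13 (key : ℕ) : Pr := grp V2_2 V15_12 13 14448 key

noncomputable def V16_13 (key : ℕ) : Pr := grp V3_3 V16_12 13 18816 key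

noncomputable def V17_13 (key : ℕ) : Pr := grp V4_4 V17_12 13 23940 key

noncomputable def V14_14 (key : ℕ) : Pr := grp g1 V14_13 14 11256 key

noncomputable def V15_14 (key : ℕ) : Pr := grp V1_1 V15_13 14 14616 key

noncomputable def V16_14 (key : ℕ) : Pr := grp V2_2 V16_13 14 19068 key

noncomputable def V15_15 (key : ℕ) : Pr := grp g1 V15_14 15 14700 key

end Pool.MP322F.B30
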