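import Pool.Agent.Lib.MP_322c5f_alF.FB15
import Pool.Agent.Lib.MP_322c5f_alF.FKb30V

/-! Generated: base table, diagrams with 30 cells. -/

set_option autoImplicit false
set_option maxRecDepth 100000

namespace Pool.MP322F.B30

open Pool.MP322F

theorem h0_0 : VOK 30 84 0 0 1 g1 := VOK_zero 30 84

theorem h0_1 : VOK 30 84 1 0 1 g1 := VOK_skip (by norm_num) h0_0

theorem h1_1 : VOK 30 84 1 1 1 V1_1 := VOK_step (by norm_num) (by norm_num) (by norm_num) (VOK_zero' 30 84 0) h0_1 (by norm_num)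

theorem h2_1 : VOK 30 84 1 2 1 V2_1 := VOK_step (by norm_num) (by norm_num) (by norm_num) (VOK_zero' 30 84 1) h1_1 (by norm_num)

theorem h3_1 : VOK 30 84 1 3 1 V3_1 := VOK_step (by norm_num) (by norm_num) (by norm_num) (VOK_zero' 30 84 2) h2_1 (by norm_num)

theorem h4_1 : VOK 30 84 1 4 1 V4_1 := VOK_step (by norm_num) (by norm_num) (by norm_num) (VOK_zero' 30 84 3) h3_1 (by norm_num)

theorem h5_1 : VOK 30 84 1 5 1 V5_1 := VOK_step (by norm_num) (by norm_num) (by norm_num) (VOK_zero' 30 84 4) h4_1 (by norm_num)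

theorem h6_1 : VOK 30 84 1 6 1 V6_1 := VOK_step (by norm_num) (by norm_num) (by norm_num) (VOK_zero' 30 84 5) h5_1 (by norm_num)

theorem h7_1 : VOK 30 84 1 7 1 V7_1 := VOK_step (by norm_num) (by norm_num) (by norm_num) (VOK_zero' 30 84 6) h6_1 (by norm_num)

theorem h8_1 : VOK 30 84 1 8 1 V8_1 := VOK_step (by norm_num) (by norm_num) (by norm_num) (VOK_zero' 30 84 7) h7_1 (by norm_num)

theorem h9_1 : VOK 30 84 1 9 1 V9_1 := VOK_step (by norm_num) (by norm_num) (by norm_num) (VOK_zero' 30 84 8) h8_1 (by norm_num)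

theorem h10_1 : VOK 30 84 1 10 1 V10_1 := VOK_step (by norm_num) (by norm_num) (by norm_num) (VOK_zero' 30 84 9) h9_1 (by norm_num)

theorem h11_1 : VOK 30 84 1 11 1 V11_1 := VOK_step (by norm_num) (by norm_num) (by norm_num) (VOK_zero' 30 84 10) h10_1 (by norm_num)

theorem h12_1 : VOK 30 84 1 12 1 V12_1 := VOK_step (by norm_num) (by norm_num) (by norm_num) (VOK_zero' 30 84 11) h11_1 (by norm_num)

theorem h13_1 : VOK 30 84 1 13 1 V13_1 := VOK_step (by norm_num) (by norm_num) (by norm_num) (VOK_zero' 30 84 12) h12_1 (by norm_num)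

theorem h14_1 : VOK 30 84 1 14 1 V14_1 := VOK_step (by norm_num) (by norm_num) (by norm_num) (VOK_zero' 30 84 13) h13_1 (by norm_num)

theorem h15_1 : VOK 30 84 1 15 1 V15_1 := VOK_step (by norm_num) (by norm_num) (by norm_num) (VOK_zero' 30 84 14) h14_1 (by norm_num)

theorem h16_1 : VOK 30 84 1 16 1 V16_1 := VOK_step (by norm_num) (by norm_num) (by norm_num) (VOK_zero' 30 84 15) h15_1 (by norm_num)

theorem h17_1 : VOK 30 84 1 17 1 V17_1 := VOK_step (by norm_num) (by norm_num) (by norm_num) (VOK_zero' 30 84 16) h16_1 (by norm_num)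

theorem h18_1 : VOK 30 84 1 18 1 V18_1 := VOK_step (by norm_num) (by norm_num) (by norm_num) (VOK_zero' 30 84 17) h17_1 (by norm_num)

theorem h19_1 : VOK 30 84 1 19 1 V19_1 := VOK_step (by norm_num) (by norm_num) (by norm_num) (VOK_zero' 30 84 18) h18_1 (by norm_num)

theorem h20_1 : VOK 30 84 1 20 1 V20_1 := VOK_step (by norm_num) (by norm_num) (by norm_num) (VOK_zero' 30 84 19) h19_1 (by norm_num)

theorem h21_1 : VOK 30 84 1 21 1 V21_1 := VOK_step (by norm_num) (by norm_num) (by norm_num) (VOK_zero' 30 84 20) h20_1 (by norm_num)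

theorem h22_1 : VOK 30 84 1 22 1 V22_1 := VOK_step (by norm_num) (by norm_num) (by norm_num) (VOK_zero' 30 84 21) h21_1 (by norm_num)

theorem h23_1 : VOK 30 84 1 23 1 V23_1 := VOK_step (by norm_num) (by norm_num) (by norm_num) (VOK_zero' 30 84 22) h22_1 (by norm_num)

theorem h24_1 : VOK 30 84 1 24 1 V24_1 := VOK_step (by norm_num) (by norm_num) (by norm_num) (VOK_zero' 30 84 23) h23_1 (by norm_num)

theorem h25_1 : VOK 30 84 1 25 1 V25_1 := VOK_step (by norm_num) (by norm_num) (by norm_num) (VOK_zero' 30 84 24) h24_1 (by norm_num)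

theorem h26_1 : VOK 30 84 1 26 1 V26_1 := VOK_step (by norm_num) (by norm_num) (by norm_num) (VOK_zero' 30 84 25) h25_1 (by norm_num)

theorem h27_1 : VOK 30 84 1 27 1 V27_1 := VOK_step (by norm_num) (by norm_num) (by norm_num) (VOK_zero' 30 84 26) h26_1 (by norm_num)

theorem h28_1 : VOK 30 84 1 28 1 V28_1 := VOK_step (by norm_num) (by norm_num) (by norm_num) (VOK_zero' 30 84 27) h27_1 (by norm_num)

theorem h29_1 : VOK 30 84 1 29 1 V29_1 := VOK_step (by norm_num) (by norm_num) (by norm_num) (VOK_zero' 30 84 28) h28_1 (by norm_num)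

theorem h0_2 : VOK 30 84 2 0 1 g1 := VOK_skip (by norm_num) h0_1

theorem h1_2 : VOK 30 84 2 1 1 V1_1 := VOK_skip (by norm_num) h1_1

theorem h2_2 : VOK 30 84 2 2 2 V2_2 := VOK_step (by norm_num) (by norm_num) (by norm_num) h2_1 h0_2 (by norm_num)

theorem h3_2 : VOK 30 84 2 3 2 V3_2 := VOK_step (by norm_num) (by norm_num) (by norm_num) h3_1 h1_2 (by norm_num)

theorem h4_2 : VOK 30 84 2 4 3 V4_2 := VOK_step (by norm_num) (by norm_num) (by norm_num) h4_1 h2_2 (by norm_num)

theorem h5_2 : VOK 30 84 2 5 3 V5_2 := VOK_step (by norm_num) (by norm_num) (by norm_num) h5_1 h3_2 (by norm_num)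

theorem h6_2 : VOK 30 84 2 6 4 V6_2 := VOK_step (by norm_num) (by norm_num) (by norm_num) h6_1 h4_2 (by norm_num)

theorem h7_2 : VOK 30 84 2 7 4 V7_2 := VOK_step (by norm_num) (by norm_num) (by norm_num) h7_1 h5_2 (by norm_num)

theorem h8_2 : VOK 30 84 2 8 5 V8_2 := VOK_step (by norm_num) (by norm_num) (by norm_num) h8_1 h6_2 (by norm_num)

theorem h9_2 : VOK 30 84 2 9 5 V9_2 := VOK_step (by norm_num) (by norm_num) (by norm_num) h9_1 h7_2 (by norm_num)

theorem h10_2 : VOK 30 84 2 10 6 V10_2 := VOK_step (by norm_num) (by norm_num) (by norm_num) h10_1 h8_2 (by norm_num)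

theorem h11_2 : VOK 30 84 2 11 6 V11_2 := VOK_step (by norm_num) (by norm_num) (by norm_num) h11_1 h9_2 (by norm_num)

theorem h12_2 : VOK 30 84 2 12 7 V12_2 := VOK_step (by norm_num) (by norm_num) (by norm_num) h12_1 h10_2 (by norm_num)

theorem h13_2 : VOK 30 84 2 13 7 V13_2 := VOK_step (by norm_num) (by norm_num) (by norm_num) h13_1 h11_2 (by norm_num)

theorem h14_2 : VOK 30 84 2 14 8 V14_2 := VOK_step (by norm_num) (by norm_num) (by norm_num) h14_1 h12_2 (by norm_num)

theorem h15_2 : VOK 30 84 2 15 8 V15_2 := VOK_step (by norm_num) (by norm_num) (by norm_num) h15_1 h13_2 (by norm_num)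

theorem h16_2 : VOK 30 84 2 16 9 V16_2 := VOK_step (by norm_num) (by norm_num) (by norm_num) h16_1 h14_2 (by norm_num)

theorem h17_2 : VOK 30 84 2 17 9 V17_2 := VOK_step (by norm_num) (by norm_num) (by norm_num) h17_1 h15_2 (by norm_num)

theorem h18_2 : VOK 30 84 2 18 10 V18_2 := VOK_step (by norm_num) (by norm_num) (by norm_num) h18_1 h16_2 (by norm_num)

theorem h19_2 : VOK 30 84 2 19 10 V19_2 := VOK_step (by norm_num) (by norm_num) (by norm_num) h19_1 h17_2 (by norm_num)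

theorem h20_2 : VOK 30 84 2 20 11 V20_2 := VOK_step (by norm_num) (by norm_num) (by norm_num) h20_1 h18_2 (by norm_num)

theorem h21_2 : VOK 30 84 2 21 11 V21_2 := VOK_step (by norm_num) (by norm_num) (by norm_num) h21_1 h19_2 (by norm_num)

theorem h22_2 : VOK 30 84 2 22 12 V22_2 := VOK_step (by norm_num) (by norm_num) (by norm_num) h22_1 h20_2 (by norm_num)

theorem h23_2 : VOK 30 84 2 23 12 V23_2 := VOK_step (by norm_num) (by norm_num) (by norm_num) h23_1 h21_2 (by norm_num)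

theorem h24_2 : VOK 30 84 2 24 13 V24_2 := VOK_step (by norm_num) (by norm_num) (by norm_num) h24_1 h22_2 (by norm_num)

theorem h25_2 : VOK 30 84 2 25 13 V25_2 := VOK_step (by norm_num) (by norm_num) (by norm_num) h25_1 h23_2 (by norm_num)

theorem h26_2 : VOK 30 84 2 26 14 V26_2 := VOK_step (by norm_num) (by norm_num) (by norm_num) h26_1 h24_2 (by norm_num)

theorem h27_2 : VOK 30 84 2 27 14 V27_2 := VOK_step (by norm_num) (by norm_num) (by norm_num) h27_1 h25_2 (by norm_num)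

theorem h28_2 : VOK 30 84 2 28 15 V28_2 := VOK_step (by norm_num) (by norm_num) (by norm_num) h28_1 h26_2 (by norm_num)

theorem h0_3 : VOK 30 84 3 0 1 g1 := VOK_skip (by norm_num) h0_2

theorem h1_3 : VOK 30 84 3 1 1 V1_1 := VOK_skip (by norm_num) h1_2

theorem h2_3 : VOK 30 84 3 2 2 V2_2 := VOK_skip (by norm_num) h2_2

theorem h3_3 : VOK 30 84 3 3 3 V3_3 := VOK_step (by norm_num) (by norm_num) (by norm_num) h3_2 h0_3 (by norm_num)

theorem h4_3 : VOK 30 84 3 4 4 V4_3 := VOK_step (by norm_num) (by norm_num) (by norm_num) h4_2 h1_3 (by norm_num)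

theorem h5_3 : VOK 30 84 3 5 5 V5_3 := VOK_step (by norm_num) (by norm_num) (by norm_num) h5_2 h2_3 (by norm_num)

theorem h6_3 : VOK 30 84 3 6 7 V6_3 := VOK_step (by norm_num) (by norm_num) (by norm_num) h6_2 h3_3 (by norm_num)

theorem h7_3 : VOK 30 84 3 7 8 V7_3 := VOK_step (by norm_num) (by norm_num) (by norm_num) h7_2 h4_3 (by norm_num)

theorem h8_3 : VOK 30 84 3 8 10 V8_3 := VOK_step (by norm_num) (by norm_num) (by norm_num) h8_2 h5_3 (by norm_num)

theorem h9_3 : VOK 30 84 3 9 12 V9_3 := VOK_step (by norm_num) (by norm_num) (by norm_num) h9_2 h6_3 (by norm_num)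

theorem h10_3 : VOK 30 84 3 10 14 V10_3 := VOK_step (by norm_num) (by norm_num) (by norm_num) h10_2 h7_3 (by norm_num)

theorem h11_3 : VOK 30 84 3 11 16 V11_3 := VOK_step (by norm_num) (by norm_num) (by norm_num) h11_2 h8_3 (by norm_num)

theorem h12_3 : VOK 30 84 3 12 19 V12_3 := VOK_step (by norm_num) (by norm_num) (by norm_num) h12_2 h9_3 (by norm_num)

theorem h13_3 : VOK 30 84 3 13 21 V13_3 := VOK_step (by norm_num) (by norm_num) (by norm_num) h13_2 h10_3 (by norm_num)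

theorem h14_3 : VOK 30 84 3 14 24 V14_3 := VOK_step (by norm_num) (by norm_num) (by norm_num) h14_2 h11_3 (by norm_num)

theorem h15_3 : VOK 30 84 3 15 27 V15_3 := VOK_step (by norm_num) (by norm_num) (by norm_num) h15_2 h12_3 (by norm_num)

theorem h16_3 : VOK 30 84 3 16 30 V16_3 := VOK_step (by norm_num) (by norm_num) (by norm_num) h16_2 h13_3 (by norm_num)

theorem h17_3 : VOK 30 84 3 17 33 V17_3 := VOK_step (by norm_num) (by norm_num) (by norm_num) h17_2 h14_3 (by norm_num)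

theorem h18_3 : VOK 30 84 3 18 37 V18_3 := VOK_step (by norm_num) (by norm_num) (by norm_num) h18_2 h15_3 (by norm_num)

theorem h19_3 : VOK 30 84 3 19 40 V19_3 := VOK_step (by norm_num) (by norm_num) (by norm_num) h19_2 h16_3 (by norm_num)

theorem h20_3 : VOK 30 84 3 20 44 V20_3 := VOK_step (by norm_num) (by norm_num) (by norm_num) h20_2 h17_3 (by norm_num)

theorem h21_3 : VOK 30 84 3 21 48 V21_3 := VOK_step (by norm_num) (by norm_num) (by norm_num) h21_2 h18_3 (by norm_num)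

theorem h22_3 : VOK 30 84 3 22 52 V22_3 := VOK_step (by norm_num) (by norm_num) (by norm_num) h22_2 h19_3 (by norm_num)

theorem h23_3 : VOK 30 84 3 23 56 V23_3 := VOK_step (by norm_num) (by norm_num) (by norm_num) h23_2 h20_3 (by norm_num)

theorem h24_3 : VOK 30 84 3 24 61 V24_3 := VOK_step (by norm_num) (by norm_num) (by norm_num) h24_2 h21_3 (by norm_num)

theorem h25_3 : VOK 30 84 3 25 65 V25_3 := VOK_step (by norm_num) (by norm_num) (by norm_num) h25_2 h22_3 (by norm_num)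

theorem h26_3 : VOK 30 84 3 26 70 V26_3 := VOK_step (by norm_num) (by norm_num) (by norm_num) h26_2 h23_3 (by norm_num)

theorem h27_3 : VOK 30 84 3 27 75 V27_3 := VOK_step (by norm_num) (by norm_num) (by norm_num) h27_2 h24_3 (by norm_num)

theorem h0_4 : VOK 30 84 4 0 1 g1 := VOK_skip (by norm_num) h0_3

theorem h1_4 : VOK 30 84 4 1 1 V1_1 := VOK_skip (by norm_num) h1_3

theorem h2_4 : VOK 30 84 4 2 2 V2_2 := VOK_skip (by norm_num) h2_3

theorem h3_4 : VOK 30 84 4 3 3 V3_3 := VOK_skip (by norm_num) h3_3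

theorem h4_4 : VOK 30 84 4 4 5 V4_4 := VOK_step (by norm_num) (by norm_num) (by norm_num) h4_3 h0_4 (by norm_num)

theorem h5_4 : VOK 30 84 4 5 6 V5_4 := VOK_step (by norm_num) (by norm_num) (by norm_num) h5_3 h1_4 (by norm_num)

theorem h6_4 : VOK 30 84 4 6 9 V6_4 := VOK_step (by norm_num) (by norm_num) (by norm_num) h6_3 h2_4 (by norm_num)

theorem h7_4 : VOK 30 84 4 7 11 V7_4 := VOK_step (by norm_num) (by norm_num) (by norm_num) h7_3 h3_4 (by norm_num)

theorem h8_4 : VOK 30 84 4 8 15 V8_4 := VOK_step (by norm_num) (by norm_num) (by norm_num) h8_3 h4_4 (by norm_num)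

theorem h9_4 : VOK 30 84 4 9 18 V9_4 := VOK_step (by norm_num) (by norm_num) (by norm_num) h9_3 h5_4 (by norm_num)

theorem h10_4 : VOK 30 84 4 10 23 V10_4 := VOK_step (by norm_num) (by norm_num) (by norm_num) h10_3 h6_4 (by norm_num)

theorem h11_4 : VOK 30 84 4 11 27 V11_4 := VOK_step (by norm_num) (by norm_num) (by norm_num) h11_3 h7_4 (by norm_num)

theorem h12_4 : VOK 30 84 4 12 34 V12_4 := VOK_step (by norm_num) (by norm_num) (by norm_num) h12_3 h8_4 (by norm_num)

theorem h13_4 : VOK 30 84 4 13 39 V13_4 := VOK_step (by norm_num) (by norm_num) (by norm_num) h13_3 h9_4 (by norm_num)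

theorem h14_4 : VOK 30 84 4 14 47 V14_4 := VOK_step (by norm_num) (by norm_num) (by norm_num) h14_3 h10_4 (by norm_num)

theorem h15_4 : VOK 30 84 4 15 54 V15_4 := VOK_step (by norm_num) (by norm_num) (by norm_num) h15_3 h11_4 (by norm_num)

theorem h16_4 : VOK 30 84 4 16 64 V16_4 := VOK_step (by norm_num) (by norm_num) (by norm_num) h16_3 h12_4 (by norm_num)

theorem h17_4 : VOK 30 84 4 17 72 V17_4 := VOK_step (by norm_num) (by norm_num) (by norm_num) h17_3 h13_4 (by norm_num)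

theorem h18_4 : VOK 30 84 4 18 84 V18_4 := VOK_step (by norm_num) (by norm_num) (by norm_num) h18_3 h14_4 (by norm_num)

theorem h19_4 : VOK 30 84 4 19 94 V19_4 := VOK_step (by norm_num) (by norm_num) (by norm_num) h19_3 h15_4 (by norm_num)

theorem h20_4 : VOK 30 84 4 20 108 V20_4 := VOK_step (by norm_num) (by norm_num) (by norm_num) h20_3 h16_4 (by norm_num)

theorem h21_4 : VOK 30 84 4 21 120 V21_4 := VOK_step (by norm_num) (by norm_num) (by norm_num) h21_3 h17_4 (by norm_num)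

theorem h22_4 : VOK 30 84 4 22 136 V22_4 := VOK_step (by norm_num) (by norm_num) (by norm_num) h22_3 h18_4 (by norm_num)

theorem h23_4 : VOK 30 84 4 23 150 V23_4 := VOK_step (by norm_num) (by norm_num) (by norm_num) h23_3 h19_4 (by norm_num)

theorem h24_4 : VOK 30 84 4 24 169 V24_4 := VOK_step (by norm_num) (by norm_num) (by norm_num) h24_3 h20_4 (by norm_num)

theorem h25_4 : VOK 30 84 4 25 185 V25_4 := VOK_step (by norm_num) (by norm_num) (by norm_num) h25_3 h21_4 (by norm_num)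

theorem h26_4 : VOK 30 84 4 26 206 V26_4 := VOK_step (by norm_num) (by norm_num) (by norm_num) h26_3 h22_4 (by norm_num)

theorem h0_5 : VOK 30 84 5 0 1 g1 := VOK_skip (by norm_num) h0_4

theorem h1_5 : VOK 30 84 5 1 1 V1_1 := VOK_skip (by norm_num) h1_4

theorem h2_5 : VOK 30 84 5 2 2 V2_2 := VOK_skip (by norm_num) h2_4

theorem h3_5 : VOK 30 84 5 3 3 V3_3 := VOK_skip (by norm_num) h3_4

theorem h4_5 : VOK 30 84 5 4 5 V4_4 := VOK_skip (by norm_num) h4_4

theorem h5_5 : VOK 30 84 5 5 7 V5_5 := VOK_step (by norm_num) (by norm_num) (by norm_num) h5_4 h0_5 (by norm_num)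

theorem h6_5 : VOK 30 84 5 6 10 V6_5 := VOK_step (by norm_num) (by norm_num) (by norm_num) h6_4 h1_5 (by norm_num)

theorem h7_5 : VOK 30 84 5 7 13 V7_5 := VOK_step (by norm_num) (by norm_num) (by norm_num) h7_4 h2_5 (by norm_num)

theorem h8_5 : VOK 30 84 5 8 18 V8_5 := VOK_step (by norm_num) (by norm_num) (by norm_num) h8_4 h3_5 (by norm_num)

theorem h9_5 : VOK 30 84 5 9 23 V9_5 := VOK_step (by norm_num) (by norm_num) (by norm_num) h9_4 h4_5 (by norm_num)

theorem h10_5 : VOK 30 84 5 10 30 V10_5 := VOK_step (by norm_num) (by norm_num) (by norm_num) h10_4 h5_5 (by norm_num)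

theorem h11_5 : VOK 30 84 5 11 37 V11_5 := VOK_step (by norm_num) (by norm_num) (by norm_num) h11_4 h6_5 (by norm_num)

theorem h12_5 : VOK 30 84 5 12 47 V12_5 := VOK_step (by norm_num) (by norm_num) (by norm_num) h12_4 h7_5 (by norm_num)

theorem h13_5 : VOK 30 84 5 13 57 V13_5 := VOK_step (by norm_num) (by norm_num) (by norm_num) h13_4 h8_5 (by norm_num)

theorem h14_5 : VOK 30 84 5 14 70 V14_5 := VOK_step (by norm_num) (by norm_num) (by norm_num) h14_4 h9_5 (by norm_num)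

theorem h15_5 : VOK 30 84 5 15 84 V15_5 := VOK_step (by norm_num) (by norm_num) (by norm_num) h15_4 h10_5 (by norm_num)

theorem h16_5 : VOK 30 84 5 16 101 V16_5 := VOK_step (by norm_num) (by norm_num) (by norm_num) h16_4 h11_5 (by norm_num)

theorem h17_5 : VOK 30 84 5 17 119 V17_5 := VOK_step (by norm_num) (by norm_num) (by norm_num) h17_4 h12_5 (by norm_num)

theorem h18_5 : VOK 30 84 5 18 141 V18_5 := VOK_step (by norm_num) (by norm_num) (by norm_num) h18_4 h13_5 (by norm_num)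

theorem h19_5 : VOK 30 84 5 19 164 V19_5 := VOK_step (by norm_num) (by norm_num) (by norm_num) h19_4 h14_5 (by norm_num)

theorem h20_5 : VOK 30 84 5 20 192 V20_5 := VOK_step (by norm_num) (by norm_num) (by norm_num) h20_4 h15_5 (by norm_num)

theorem h21_5 : VOK 30 84 5 21 221 V21_5 := VOK_step (by norm_num) (by norm_num) (by norm_num) h21_4 h16_5 (by norm_num)

theorem h22_5 : VOK 30 84 5 22 255 V22_5 := VOK_step (by norm_num) (by norm_num) (by norm_num) h22_4 h17_5 (by norm_num)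

theorem h23_5 : VOK 30 84 5 23 291 V23_5 := VOK_step (by norm_num) (by norm_num) (by norm_num) h23_4 h18_5 (by norm_num)

theorem h24_5 : VOK 30 84 5 24 333 V24_5 := VOK_step (by norm_num) (by norm_num) (by norm_num) h24_4 h19_5 (by norm_num)

theorem h25_5 : VOK 30 84 5 25 377 V25_5 := VOK_step (by norm_num) (by norm_num) (by norm_num) h25_4 h20_5 (by norm_num)

theorem h0_6 : VOK 30 84 6 0 1 g1 := VOK_skip (by norm_num) h0_5

theorem h1_6 : VOK 30 84 6 1 1 V1_1 := VOK_skip (by norm_num) h1_5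

theorem h2_6 : VOK 30 84 6 2 2 V2_2 := VOK_skip (by norm_num) h2_5

theorem h3_6 : VOK 30 84 6 3 3 V3_3 := VOK_skip (by norm_num) h3_5

theorem h4_6 : VOK 30 84 6 4 5 V4_4 := VOK_skip (by norm_num) h4_5

theorem h5_6 : VOK 30 84 6 5 7 V5_5 := VOK_skip (by norm_num) h5_5

theorem h6_6 : VOK 30 84 6 6 11 V6_6 := VOK_step (by norm_num) (by norm_num) (by norm_num) h6_5 h0_6 (by norm_num)

theorem h7_6 : VOK 30 84 6 7 14 V7_6 := VOK_step (by norm_num) (by norm_num) (by norm_num) h7_5 h1_6 (by norm_num)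

theorem h8_6 : VOK 30 84 6 8 20 V8_6 := VOK_step (by norm_num) (by norm_num) (by norm_num) h8_5 h2_6 (by norm_num)

theorem h9_6 : VOK 30 84 6 9 26 V9_6 := VOK_step (by norm_num) (by norm_num) (by norm_num) h9_5 h3_6 (by norm_num)

theorem h10_6 : VOK 30 84 6 10 35 V10_6 := VOK_step (by norm_num) (by norm_num) (by norm_num) h10_5 h4_6 (by norm_num)

theorem h11_6 : VOK 30 84 6 11 44 V11_6 := VOK_step (by norm_num) (by norm_num) (by norm_num) h11_5 h5_6 (by norm_num)

theorem h12_6 : VOK 30 84 6 12 58 V12_6 := VOK_step (by norm_num) (by norm_num) (by norm_num) h12_5 h6_6 (by norm_num)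

theorem h13_6 : VOK 30 84 6 13 71 V13_6 := VOK_step (by norm_num) (by norm_num) (by norm_num) h13_5 h7_6 (by norm_num)

theorem h14_6 : VOK 30 84 6 14 90 V14_6 := VOK_step (by norm_num) (by norm_num) (by norm_num) h14_5 h8_6 (by norm_num)

theorem h15_6 : VOK 30 84 6 15 110 V15_6 := VOK_step (by norm_num) (by norm_num) (by norm_num) h15_5 h9_6 (by norm_num)

theorem h16_6 : VOK 30 84 6 16 136 V16_6 := VOK_step (by norm_num) (by norm_num) (by norm_num) h16_5 h10_6 (by norm_num)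

theorem h17_6 : VOK 30 84 6 17 163 V17_6 := VOK_step (by norm_num) (by norm_num) (by norm_num) h17_5 h11_6 (by norm_num)

theorem h18_6 : VOK 30 84 6 18 199 V18_6 := VOK_step (by norm_num) (by norm_num) (by norm_num) h18_5 h12_6 (by norm_num)

theorem h19_6 : VOK 30 84 6 19 235 V19_6 := VOK_step (by norm_num) (by norm_num) (by norm_num) h19_5 h13_6 (by norm_num)

theorem h20_6 : VOK 30 84 6 20 282 V20_6 := VOK_step (by norm_num) (by norm_num) (by norm_num) h20_5 h14_6 (by norm_num)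

theorem h21_6 : VOK 30 84 6 21 331 V21_6 := VOK_step (by norm_num) (by norm_num) (by norm_num) h21_5 h15_6 (by norm_num)

theorem h22_6 : VOK 30 84 6 22 391 V22_6 := VOK_step (by norm_num) (by norm_num) (by norm_num) h22_5 h16_6 (by norm_num)

theorem h23_6 : VOK 30 84 6 23 454 V23_6 := VOK_step (by norm_num) (by norm_num) (by norm_num) h23_5 h17_6 (by norm_num)

theorem h24_6 : VOK 30 84 6 24 532 V24_6 := VOK_step (by norm_num) (by norm_num) (by norm_num) h24_5 h18_6 (by norm_num)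

theorem h0_7 : VOK 30 84 7 0 1 g1 := VOK_skip (by norm_num) h0_6

theorem h1_7 : VOK 30 84 7 1 1 V1_1 := VOK_skip (by norm_num) h1_6

theorem h2_7 : VOK 30 84 7 2 2 V2_2 := VOK_skip (by norm_num) h2_6

theorem h3_7 : VOK 30 84 7 3 3 V3_3 := VOK_skip (by norm_num) h3_6

theorem h4_7 : VOK 30 84 7 4 5 V4_4 := VOK_skip (by norm_num) h4_6

theorem h5_7 : VOK 30 84 7 5 7 V5_5 := VOK_skip (by norm_num) h5_6

theorem h6_7 : VOK 30 84 7 6 11 V6_6 := VOK_skip (by norm_num) h6_6

theorem h7_7 : VOK 30 84 7 7 15 V7_7 := VOK_step (by norm_num) (by norm_num) (by norm_num) h7_6 h0_7 (by norm_num)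

theorem h8_7 : VOK 30 84 7 8 21 V8_7 := VOK_step (by norm_num) (by norm_num) (by norm_num) h8_6 h1_7 (by norm_num)

theorem h9_7 : VOK 30 84 7 9 28 V9_7 := VOK_step (by norm_num) (by norm_num) (by norm_num) h9_6 h2_7 (by norm_num)

theorem h10_7 : VOK 30 84 7 10 38 V10_7 := VOK_step (by norm_num) (by norm_num) (by norm_num) h10_6 h3_7 (by norm_num)

theorem h11_7 : VOK 30 84 7 11 49 V11_7 := VOK_step (by norm_num) (by norm_num) (by norm_num) h11_6 h4_7 (by norm_num)

theorem h12_7 : VOK 30 84 7 12 65 V12_7 := VOK_step (by norm_num) (by norm_num) (by norm_num) h12_6 h5_7 (by norm_num)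

theorem h13_7 : VOK 30 84 7 13 82 V13_7 := VOK_step (by norm_num) (by norm_num) (by norm_num) h13_6 h6_7 (by norm_num)

theorem h14_7 : VOK 30 84 7 14 105 V14_7 := VOK_step (by norm_num) (by norm_num) (by norm_num) h14_6 h7_7 (by norm_num)

theorem h15_7 : VOK 30 84 7 15 131 V15_7 := VOK_step (by norm_num) (by norm_num) (by norm_num) h15_6 h8_7 (by norm_num)

theorem h16_7 : VOK 30 84 7 16 164 V16_7 := VOK_step (by norm_num) (by norm_num) (by norm_num) h16_6 h9_7 (by norm_num)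

theorem h17_7 : VOK 30 84 7 17 201 V17_7 := VOK_step (by norm_num) (by norm_num) (by norm_num) h17_6 h10_7 (by norm_num)

theorem h18_7 : VOK 30 84 7 18 248 V18_7 := VOK_step (by norm_num) (by norm_num) (by norm_num) h18_6 h11_7 (by norm_num)

theorem h19_7 : VOK 30 84 7 19 300 V19_7 := VOK_step (by norm_num) (by norm_num) (by norm_num) h19_6 h12_7 (by norm_num)

theorem h20_7 : VOK 30 84 7 20 364 V20_7 := VOK_step (by norm_num) (by norm_num) (by norm_num) h20_6 h13_7 (by norm_num)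

theorem h21_7 : VOK 30 84 7 21 436 V21_7 := VOK_step (by norm_num) (by norm_num) (by norm_num) h21_6 h14_7 (by norm_num)

theorem h22_7 : VOK 30 84 7 22 522 V22_7 := VOK_step (by norm_num) (by norm_num) (by norm_num) h22_6 h15_7 (by norm_num)

theorem h23_7 : VOK 30 84 7 23 618 V23_7 := VOK_step (by norm_num) (by norm_num) (by norm_num) h23_6 h16_7 (by norm_num)

theorem h0_8 : VOK 30 84 8 0 1 g1 := VOK_skip (by norm_num) h0_7

theorem h1_8 : VOK 30 84 8 1 1 V1_1 := VOK_skip (by norm_num) h1_7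

theorem h2_8 : VOK 30 84 8 2 2 V2_2 := VOK_skip (by norm_num) h2_7

theorem h3_8 : VOK 30 84 8 3 3 V3_3 := VOK_skip (by norm_num) h3_7

theorem h4_8 : VOK 30 84 8 4 5 V4_4 := VOK_skip (by norm_num) h4_7

theorem h5_8 : VOK 30 84 8 5 7 V5_5 := VOK_skip (by norm_num) h5_7

theorem h6_8 : VOK 30 84 8 6 11 V6_6 := VOK_skip (by norm_num) h6_7

theorem h7_8 : VOK 30 84 8 7 15 V7_7 := VOK_skip (by norm_num) h7_7

theorem h8_8 : VOK 30 84 8 8 22 V8_8 := VOK_step (by norm_num) (by norm_num) (by norm_num) h8_7 h0_8 (by norm_num)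

theorem h9_8 : VOK 30 84 8 9 29 V9_8 := VOK_step (by norm_num) (by norm_num) (by norm_num) h9_7 h1_8 (by norm_num)

theorem h10_8 : VOK 30 84 8 10 40 V10_8 := VOK_step (by norm_num) (by norm_num) (by norm_num) h10_7 h2_8 (by norm_num)

theorem h11_8 : VOK 30 84 8 11 52 V11_8 := VOK_step (by norm_num) (by norm_num) (by norm_num) h11_7 h3_8 (by norm_num)

theorem h12_8 : VOK 30 84 8 12 70 V12_8 := VOK_step (by norm_num) (by norm_num) (by norm_num) h12_7 h4_8 (by norm_num)

theorem h13_8 : VOK 30 84 8 13 89 V13_8 := VOK_step (by norm_num) (by norm_num) (by norm_num) h13_7 h5_8 (by norm_num)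

theorem h14_8 : VOK 30 84 8 14 116 V14_8 := VOK_step (by norm_num) (by norm_num) (by norm_num) h14_7 h6_8 (by norm_num)

theorem h15_8 : VOK 30 84 8 15 146 V15_8 := VOK_step (by norm_num) (by norm_num) (by norm_num) h15_7 h7_8 (by norm_num)

theorem h16_8 : VOK 30 84 8 16 186 V16_8 := VOK_step (by norm_num) (by norm_num) (by norm_num) h16_7 h8_8 (by norm_num)

theorem h17_8 : VOK 30 84 8 17 230 V17_8 := VOK_step (by norm_num) (by norm_num) (by norm_num) h17_7 h9_8 (by norm_num)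

theorem h18_8 : VOK 30 84 8 18 288 V18_8 := VOK_step (by norm_num) (by norm_num) (by norm_num) h18_7 h10_8 (by norm_num)

theorem h19_8 : VOK 30 84 8 19 352 V19_8 := VOK_step (by norm_num) (by norm_num) (by norm_num) h19_7 h11_8 (by norm_num)

theorem h20_8 : VOK 30 84 8 20 434 V20_8 := VOK_step (by norm_num) (by norm_num) (by norm_num) h20_7 h12_8 (by norm_num)

theorem h21_8 : VOK 30 84 8 21 525 V21_8 := VOK_step (by norm_num) (by norm_num) (by norm_num) h21_7 h13_8 (by norm_num)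

theorem h22_8 : VOK 30 84 8 22 638 V22_8 := VOK_step (by norm_num) (by norm_num) (by norm_num) h22_7 h14_8 (by norm_num)

theorem h0_9 : VOK 30 84 9 0 1 g1 := VOK_skip (by norm_num) h0_8

theorem h1_9 : VOK 30 84 9 1 1 V1_1 := VOK_skip (by norm_num) h1_8

theorem h2_9 : VOK 30 84 9 2 2 V2_2 := VOK_skip (by norm_num) h2_8

theorem h3_9 : VOK 30 84 9 3 3 V3_3 := VOK_skip (by norm_num) h3_8

theorem h4_9 : VOK 30 84 9 4 5 V4_4 := VOK_skip (by norm_num) h4_8

theorem h5_9 : VOK 30 84 9 5 7 V5_5 := VOK_skip (by norm_num) h5_8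

theorem h6_9 : VOK 30 84 9 6 11 V6_6 := VOK_skip (by norm_num) h6_8

theorem h7_9 : VOK 30 84 9 7 15 V7_7 := VOK_skip (by norm_num) h7_8

theorem h8_9 : VOK 30 84 9 8 22 V8_8 := VOK_skip (by norm_num) h8_8

theorem h9_9 : VOK 30 84 9 9 30 V9_9 := VOK_step (by norm_num) (by norm_num) (by norm_num) h9_8 h0_9 (by norm_num)

theorem h10_9 : VOK 30 84 9 10 41 V10_9 := VOK_step (by norm_num) (by norm_num) (by norm_num) h10_8 h1_9 (by norm_num)

theorem h11_9 : VOK 30 84 9 11 54 V11_9 := VOK_step (by norm_num) (by norm_num) (by norm_num) h11_8 h2_9 (by norm_num)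

theorem h12_9 : VOK 30 84 9 12 73 V12_9 := VOK_step (by norm_num) (by norm_num) (by norm_num) h12_8 h3_9 (by norm_num)

theorem h13_9 : VOK 30 84 9 13 94 V13_9 := VOK_step (by norm_num) (by norm_num) (by norm_num) h13_8 h4_9 (by norm_num)

theorem h14_9 : VOK 30 84 9 14 123 V14_9 := VOK_step (by norm_num) (by norm_num) (by norm_num) h14_8 h5_9 (by norm_num)

theorem h15_9 : VOK 30 84 9 15 157 V15_9 := VOK_step (by norm_num) (by norm_num) (by norm_num) h15_8 h6_9 (by norm_num)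

theorem h16_9 : VOK 30 84 9 16 201 V16_9 := VOK_step (by norm_num) (by norm_num) (by norm_num) h16_8 h7_9 (by norm_num)

theorem h17_9 : VOK 30 84 9 17 252 V17_9 := VOK_step (by norm_num) (by norm_num) (by norm_num) h17_8 h8_9 (by norm_num)

theorem h18_9 : VOK 30 84 9 18 318 V18_9 := VOK_step (by norm_num) (by norm_num) (by norm_num) h18_8 h9_9 (by norm_num)

theorem h19_9 : VOK 30 84 9 19 393 V19_9 := VOK_step (by norm_num) (by norm_num) (by norm_num) h19_8 h10_9 (by norm_num)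

theorem h20_9 : VOK 30 84 9 20 488 V20_9 := VOK_step (by norm_num) (by norm_num) (by norm_num) h20_8 h11_9 (by norm_num)

theorem h21_9 : VOK 30 84 9 21 598 V21_9 := VOK_step (by norm_num) (by norm_num) (by norm_num) h21_8 h12_9 (by norm_num)

theorem h0_10 : VOK 30 84 10 0 1 g1 := VOK_skip (by norm_num) h0_9

theorem h1_10 : VOK 30 84 10 1 1 V1_1 := VOK_skip (by norm_num) h1_9

theorem h2_10 : VOK 30 84 10 2 2 V2_2 := VOK_skip (by norm_num) h2_9

theorem h3_10 : VOK 30 84 10 3 3 V3_3 := VOK_skip (by norm_num) h3_9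

theorem h4_10 : VOK 30 84 10 4 5 V4_4 := VOK_skip (by norm_num) h4_9

theorem h5_10 : VOK 30 84 10 5 7 V5_5 := VOK_skip (by norm_num) h5_9

theorem h6_10 : VOK 30 84 10 6 11 V6_6 := VOK_skip (by norm_num) h6_9

theorem h7_10 : VOK 30 84 10 7 15 V7_7 := VOK_skip (by norm_num) h7_9

theorem h8_10 : VOK 30 84 10 8 22 V8_8 := VOK_skip (by norm_num) h8_9

theorem h9_10 : VOK 30 84 10 9 30 V9_9 := VOK_skip (by norm_num) h9_9

theorem h10_10 : VOK 30 84 10 10 42 V10_10 := VOK_step (by norm_num) (by norm_num) (by norm_num) h10_9 h0_10 (by norm_num)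

theorem h11_10 : VOK 30 84 10 11 55 V11_10 := VOK_step (by norm_num) (by norm_num) (by norm_num) h11_9 h1_10 (by norm_num)

theorem h12_10 : VOK 30 84 10 12 75 V12_10 := VOK_step (by norm_num) (by norm_num) (by norm_num) h12_9 h2_10 (by norm_num)

theorem h13_10 : VOK 30 84 10 13 97 V13_10 := VOK_step (by norm_num) (by norm_num) (by norm_num) h13_9 h3_10 (by norm_num)

theorem h14_10 : VOK 30 84 10 14 128 V14_10 := VOK_step (by norm_num) (by norm_num) (by norm_num) h14_9 h4_10 (by norm_num)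

theorem h15_10 : VOK 30 84 10 15 164 V15_10 := VOK_step (by norm_num) (by norm_num) (by norm_num) h15_9 h5_10 (by norm_num)

theorem h16_10 : VOK 30 84 10 16 212 V16_10 := VOK_step (by norm_num) (by norm_num) (by norm_num) h16_9 h6_10 (by norm_num)

theorem h17_10 : VOK 30 84 10 17 267 V17_10 := VOK_step (by norm_num) (by norm_num) (by norm_num) h17_9 h7_10 (by norm_num)

theorem h18_10 : VOK 30 84 10 18 340 V18_10 := VOK_step (by norm_num) (by norm_num) (by norm_num) h18_9 h8_10 (by norm_num)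

theorem h19_10 : VOK 30 84 10 19 423 V19_10 := VOK_step (by norm_num) (by norm_num) (by norm_num) h19_9 h9_10 (by norm_num)

theorem h20_10 : VOK 30 84 10 20 530 V20_10 := VOK_step (by norm_num) (by norm_num) (by norm_num) h20_9 h10_10 (by norm_num)

theorem h0_11 : VOK 30 84 11 0 1 g1 := VOK_skip (by norm_num) h0_10

theorem h1_11 : VOK 30 84 11 1 1 V1_1 := VOK_skip (by norm_num) h1_10

theorem h2_11 : VOK 30 84 11 2 2 V2_2 := VOK_skip (by norm_num) h2_10

theorem h3_11 : VOK 30 84 11 3 3 V3_3 := VOK_skip (by norm_num) h3_10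

theorem h4_11 : VOK 30 84 11 4 5 V4_4 := VOK_skip (by norm_num) h4_10

theorem h5_11 : VOK 30 84 11 5 7 V5_5 := VOK_skip (by norm_num) h5_10

theorem h6_11 : VOK 30 84 11 6 11 V6_6 := VOK_skip (by norm_num) h6_10

theorem h7_11 : VOK 30 84 11 7 15 V7_7 := VOK_skip (by norm_num) h7_10

theorem h8_11 : VOK 30 84 11 8 22 V8_8 := VOK_skip (by norm_num) h8_10

theorem h9_11 : VOK 30 84 11 9 30 V9_9 := VOK_skip (by norm_num) h9_10

theorem h10_11 : VOK 30 84 11 10 42 V10_10 := VOK_skip (by norm_num) h10_10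

theorem h11_11 : VOK 30 84 11 11 56 V11_11 := VOK_step (by norm_num) (by norm_num) (by norm_num) h11_10 h0_11 (by norm_num)

theorem h12_11 : VOK 30 84 11 12 76 V12_11 := VOK_step (by norm_num) (by norm_num) (by norm_num) h12_10 h1_11 (by norm_num)

theorem h13_11 : VOK 30 84 11 13 99 V13_11 := VOK_step (by norm_num) (by norm_num) (by norm_num) h13_10 h2_11 (by norm_num)

theorem h14_11 : VOK 30 84 11 14 131 V14_11 := VOK_step (by norm_num) (by norm_num) (by norm_num) h14_10 h3_11 (by norm_num)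

theorem h15_11 : VOK 30 84 11 15 169 V15_11 := VOK_step (by norm_num) (by norm_num) (by norm_num) h15_10 h4_11 (by norm_num)

theorem h16_11 : VOK 30 84 11 16 219 V16_11 := VOK_step (by norm_num) (by norm_num) (by norm_num) h16_10 h5_11 (by norm_num)

theorem h17_11 : VOK 30 84 11 17 278 V17_11 := VOK_step (by norm_num) (by norm_num) (by norm_num) h17_10 h6_11 (by norm_num)

theorem h18_11 : VOK 30 84 11 18 355 V18_11 := VOK_step (by norm_num) (by norm_num) (by norm_num) h18_10 h7_11 (by norm_num)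

theorem h19_11 : VOK 30 84 11 19 445 V19_11 := VOK_step (by norm_num) (by norm_num) (by norm_num) h19_10 h8_11 (by norm_num)

theorem h0_12 : VOK 30 84 12 0 1 g1 := VOK_skip (by norm_num) h0_11

theorem h1_12 : VOK 30 84 12 1 1 V1_1 := VOK_skip (by norm_num) h1_11

theorem h2_12 : VOK 30 84 12 2 2 V2_2 := VOK_skip (by norm_num) h2_11

theorem h3_12 : VOK 30 84 12 3 3 V3_3 := VOK_skip (by norm_num) h3_11

theorem h4_12 : VOK 30 84 12 4 5 V4_4 := VOK_skip (by norm_num) h4_11

theorem h5_12 : VOK 30 84 12 5 7 V5_5 := VOK_skip (by norm_num) h5_11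

theorem h6_12 : VOK 30 84 12 6 11 V6_6 := VOK_skip (by norm_num) h6_11

theorem h7_12 : VOK 30 84 12 7 15 V7_7 := VOK_skip (by norm_num) h7_11

theorem h8_12 : VOK 30 84 12 8 22 V8_8 := VOK_skip (by norm_num) h8_11

theorem h9_12 : VOK 30 84 12 9 30 V9_9 := VOK_skip (by norm_num) h9_11

theorem h10_12 : VOK 30 84 12 10 42 V10_10 := VOK_skip (by norm_num) h10_11

theorem h11_12 : VOK 30 84 12 11 56 V11_11 := VOK_skip (by norm_num) h11_11

theorem h12_12 : VOK 30 84 12 12 77 V12_12 := VOK_step (by norm_num) (by norm_num) (by norm_num) h12_11 h0_12 (by norm_num)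

theorem h13_12 : VOK 30 84 12 13 100 V13_12 := VOK_step (by norm_num) (by norm_num) (by norm_num) h13_11 h1_12 (by norm_num)

theorem h14_12 : VOK 30 84 12 14 133 V14_12 := VOK_step (by norm_num) (by norm_num) (by norm_num) h14_11 h2_12 (by norm_num)

theorem h15_12 : VOK 30 84 12 15 172 V15_12 := VOK_step (by norm_num) (by norm_num) (by norm_num) h15_11 h3_12 (by norm_num)

theorem h16_12 : VOK 30 84 12 16 224 V16_12 := VOK_step (by norm_num) (by norm_num) (by norm_num) h16_11 h4_12 (by norm_num)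

theorem h17_12 : VOK 30 84 12 17 285 V17_12 := VOK_step (by norm_num) (by norm_num) (by norm_num) h17_11 h5_12 (by norm_num)

theorem h18_12 : VOK 30 84 12 18 366 V18_12 := VOK_step (by norm_num) (by norm_num) (by norm_num) h18_11 h6_12 (by norm_num)

theorem h0_13 : VOK 30 84 13 0 1 g1 := VOK_skip (by norm_num) h0_12

theorem h1_13 : VOK 30 84 13 1 1 V1_1 := VOK_skip (by norm_num) h1_12

theorem h2_13 : VOK 30 84 13 2 2 V2_2 := VOK_skip (by norm_num) h2_12

theorem h3_13 : VOK 30 84 13 3 3 V3_3 := VOK_skip (by norm_num) h3_12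

theorem h4_13 : VOK 30 84 13 4 5 V4_4 := VOK_skip (by norm_num) h4_12

theorem h5_13 : VOK 30 84 13 5 7 V5_5 := VOK_skip (by norm_num) h5_12

theorem h6_13 : VOK 30 84 13 6 11 V6_6 := VOK_skip (by norm_num) h6_12

theorem h7_13 : VOK 30 84 13 7 15 V7_7 := VOK_skip (by norm_num) h7_12

theorem h8_13 : VOK 30 84 13 8 22 V8_8 := VOK_skip (by norm_num) h8_12

theorem h9_13 : VOK 30 84 13 9 30 V9_9 := VOK_skip (by norm_num) h9_12

theorem h10_13 : VOK 30 84 13 10 42 V10_10 := VOK_skip (by norm_num) h10_12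

theorem h11_13 : VOK 30 84 13 11 56 V11_11 := VOK_skip (by norm_num) h11_12

theorem h12_13 : VOK 30 84 13 12 77 V12_12 := VOK_skip (by norm_num) h12_12

theorem h13_13 : VOK 30 84 13 13 101 V13_13 := VOK_step (by norm_num) (by norm_num) (by norm_num) h13_12 h0_13 (by norm_num)

theorem h14_13 : VOK 30 84 13 14 134 V14_13 := VOK_step (by norm_num) (by norm_num) (by norm_num) h14_12 h1_13 (by norm_num)

theorem h15_13 : VOK 30 84 13 15 174 V15_13 := VOK_step (by norm_num) (by norm_num) (by norm_num) h15_12 h2_13 (by norm_num)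

theorem h16_13 : VOK 30 84 13 16 227 V16_13 := VOK_step (by norm_num) (by norm_num) (by norm_num) h16_12 h3_13 (by norm_num)

theorem h17_13 : VOK 30 84 13 17 290 V17_13 := VOK_step (by norm_num) (by norm_num) (by norm_num) h17_12 h4_13 (by norm_num)

theorem h0_14 : VOK 30 84 14 0 1 g1 := VOK_skip (by norm_num) h0_13

theorem h1_14 : VOK 30 84 14 1 1 V1_1 := VOK_skip (by norm_num) h1_13

theorem h2_14 : VOK 30 84 14 2 2 V2_2 := VOK_skip (by norm_num) h2_13

theorem h3_14 : VOK 30 84 14 3 3 V3_3 := VOK_skip (by norm_num) h3_13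

theorem h4_14 : VOK 30 84 14 4 5 V4_4 := VOK_skip (by norm_num) h4_13

theorem h5_14 : VOK 30 84 14 5 7 V5_5 := VOK_skip (by norm_num) h5_13

theorem h6_14 : VOK 30 84 14 6 11 V6_6 := VOK_skip (by norm_num) h6_13

theorem h7_14 : VOK 30 84 14 7 15 V7_7 := VOK_skip (by norm_num) h7_13

theorem h8_14 : VOK 30 84 14 8 22 V8_8 := VOK_skip (by norm_num) h8_13

theorem h9_14 : VOK 30 84 14 9 30 V9_9 := VOK_skip (by norm_num) h9_13

theorem h10_14 : VOK 30 84 14 10 42 V10_10 := VOK_skip (by norm_num) h10_13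

theorem h11_14 : VOK 30 84 14 11 56 V11_11 := VOK_skip (by norm_num) h11_13

theorem h12_14 : VOK 30 84 14 12 77 V12_12 := VOK_skip (by norm_num) h12_13

theorem h13_14 : VOK 30 84 14 13 101 V13_13 := VOK_skip (by norm_num) h13_13

theorem h14_14 : VOK 30 84 14 14 135 V14_14 := VOK_step (by norm_num) (by norm_num) (by norm_num) h14_13 h0_14 (by norm_num)

theorem h15_14 : VOK 30 84 14 15 175 V15_14 := VOK_step (by norm_num) (by norm_num) (by norm_num) h15_13 h1_14 (by norm_num)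

theorem h16_14 : VOK 30 84 14 16 229 V16_14 := VOK_step (by norm_num) (by norm_num) (by norm_num) h16_13 h2_14 (by norm_num)

theorem h0_15 : VOK 30 84 15 0 1 g1 := VOK_skip (by norm_num) h0_14

theorem h1_15 : VOK 30 84 15 1 1 V1_1 := VOK_skip (by norm_num) h1_14

theorem h2_15 : VOK 30 84 15 2 2 V2_2 := VOK_skip (by norm_num) h2_14

theorem h3_15 : VOK 30 84 15 3 3 V3_3 := VOK_skip (by norm_num) h3_14

theorem h4_15 : VOK 30 84 15 4 5 V4_4 := VOK_skip (by norm_num) h4_14

theorem h5_15 : VOK 30 84 15 5 7 V5_5 := VOK_skip (by norm_num) h5_14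

theorem h6_15 : VOK 30 84 15 6 11 V6_6 := VOK_skip (by norm_num) h6_14

theorem h7_15 : VOK 30 84 15 7 15 V7_7 := VOK_skip (by norm_num) h7_14

theorem h8_15 : VOK 30 84 15 8 22 V8_8 := VOK_skip (by norm_num) h8_14

theorem h9_15 : VOK 30 84 15 9 30 V9_9 := VOK_skip (by norm_num) h9_14

theorem h10_15 : VOK 30 84 15 10 42 V10_10 := VOK_skip (by norm_num) h10_14

theorem h11_15 : VOK 30 84 15 11 56 V11_11 := VOK_skip (by norm_num) h11_14

theorem h12_15 : VOK 30 84 15 12 77 V12_12 := VOK_skip (by norm_num) h12_14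

theorem h13_15 : VOK 30 84 15 13 101 V13_13 := VOK_skip (by norm_num) h13_14

theorem h14_15 : VOK 30 84 15 14 135 V14_14 := VOK_skip (by norm_num) h14_14

theorem h15_15 : VOK 30 84 15 15 176 V15_15 := VOK_step (by norm_num) (by norm_num) (by norm_num) h15_14 h0_15 (by norm_num)

theorem h0_16 : VOK 30 84 16 0 1 g1 := VOK_skip (by norm_num) h0_15

theorem h1_16 : VOK 30 84 16 1 1 V1_1 := VOK_skip (by norm_num) h1_15

theorem h2_16 : VOK 30 84 16 2 2 V2_2 := VOK_skip (by norm_num) h2_15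

theorem h3_16 : VOK 30 84 16 3 3 V3_3 := VOK_skip (by norm_num) h3_15

theorem h4_16 : VOK 30 84 16 4 5 V4_4 := VOK_skip (by norm_num) h4_15

theorem h5_16 : VOK 30 84 16 5 7 V5_5 := VOK_skip (by norm_num) h5_15

theorem h6_16 : VOK 30 84 16 6 11 V6_6 := VOK_skip (by norm_num) h6_15

theorem h7_16 : VOK 30 84 16 7 15 V7_7 := VOK_skip (by norm_num) h7_15

theorem h8_16 : VOK 30 84 16 8 22 V8_8 := VOK_skip (by norm_num) h8_15

theorem h9_16 : VOK 30 84 16 9 30 V9_9 := VOK_skip (by norm_num) h9_15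

theorem h10_16 : VOK 30 84 16 10 42 V10_10 := VOK_skip (by norm_num) h10_15

theorem h11_16 : VOK 30 84 16 11 56 V11_11 := VOK_skip (by norm_num) h11_15

theorem h12_16 : VOK 30 84 16 12 77 V12_12 := VOK_skip (by norm_num) h12_15

theorem h13_16 : VOK 30 84 16 13 101 V13_13 := VOK_skip (by norm_num) h13_15

theorem h14_16 : VOK 30 84 16 14 135 V14_14 := VOK_skip (by norm_num) h14_15

theorem h0_17 : VOK 30 84 17 0 1 g1 := VOK_skip (by norm_num) h0_16

theorem h1_17 : VOK 30 84 17 1 1 V1_1 := VOK_skip (by norm_num) h1_16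

theorem h2_17 : VOK 30 84 17 2 2 V2_2 := VOK_skip (by norm_num) h2_16

theorem h3_17 : VOK 30 84 17 3 3 V3_3 := VOK_skip (by norm_num) h3_16

theorem h4_17 : VOK 30 84 17 4 5 V4_4 := VOK_skip (by norm_num) h4_16

theorem h5_17 : VOK 30 84 17 5 7 V5_5 := VOK_skip (by norm_num) h5_16

theorem h6_17 : VOK 30 84 17 6 11 V6_6 := VOK_skip (by norm_num) h6_16

theorem h7_17 : VOK 30 84 17 7 15 V7_7 := VOK_skip (by norm_num) h7_16

theorem h8_17 : VOK 30 84 17 8 22 V8_8 := VOK_skip (by norm_num) h8_16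

theorem h9_17 : VOK 30 84 17 9 30 V9_9 := VOK_skip (by norm_num) h9_16

theorem h10_17 : VOK 30 84 17 10 42 V10_10 := VOK_skip (by norm_num) h10_16

theorem h11_17 : VOK 30 84 17 11 56 V11_11 := VOK_skip (by norm_num) h11_16

theorem h12_17 : VOK 30 84 17 12 77 V12_12 := VOK_skip (by norm_num) h12_16

theorem h13_17 : VOK 30 84 17 13 101 V13_13 := VOK_skip (by norm_num) h13_16

theorem h0_18 : VOK 30 84 18 0 1 g1 := VOK_skip (by norm_num) h0_17

theorem h1_18 : VOK 30 84 18 1 1 V1_1 := VOK_skip (by norm_num) h1_17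

theorem h2_18 : VOK 30 84 18 2 2 V2_2 := VOK_skip (by norm_num) h2_17

theorem h3_18 : VOK 30 84 18 3 3 V3_3 := VOK_skip (by norm_num) h3_17

theorem h4_18 : VOK 30 84 18 4 5 V4_4 := VOK_skip (by norm_num) h4_17

theorem h5_18 : VOK 30 84 18 5 7 V5_5 := VOK_skip (by norm_num) h5_17

theorem h6_18 : VOK 30 84 18 6 11 V6_6 := VOK_skip (by norm_num) h6_17

theorem h7_18 : VOK 30 84 18 7 15 V7_7 := VOK_skip (by norm_num) h7_17

theorem h8_18 : VOK 30 84 18 8 22 V8_8 := VOK_skip (by norm_num) h8_17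

theorem h9_18 : VOK 30 84 18 9 30 V9_9 := VOK_skip (by norm_num) h9_17

theorem h10_18 : VOK 30 84 18 10 42 V10_10 := VOK_skip (by norm_num) h10_17

theorem h11_18 : VOK 30 84 18 11 56 V11_11 := VOK_skip (by norm_num) h11_17

theorem h12_18 : VOK 30 84 18 12 77 V12_12 := VOK_skip (by norm_num) h12_17

theorem h0_19 : VOK 30 84 19 0 1 g1 := VOK_skip (by norm_num) h0_18

theorem h1_19 : VOK 30 84 19 1 1 V1_1 := VOK_skip (by norm_num) h1_18

theorem h2_19 : VOK 30 84 19 2 2 V2_2 := VOK_skip (by norm_num) h2_18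

theorem h3_19 : VOK 30 84 19 3 3 V3_3 := VOK_skip (by norm_num) h3_18

theorem h4_19 : VOK 30 84 19 4 5 V4_4 := VOK_skip (by norm_num) h4_18

theorem h5_19 : VOK 30 84 19 5 7 V5_5 := VOK_skip (by norm_num) h5_18

theorem h6_19 : VOK 30 84 19 6 11 V6_6 := VOK_skip (by norm_num) h6_18

theorem h7_19 : VOK 30 84 19 7 15 V7_7 := VOK_skip (by norm_num) h7_18

theorem h8_19 : VOK 30 84 19 8 22 V8_8 := VOK_skip (by norm_num) h8_18

theorem h9_19 : VOK 30 84 19 9 30 V9_9 := VOK_skip (by norm_num) h9_18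

theorem h10_19 : VOK 30 84 19 10 42 V10_10 := VOK_skip (by norm_num) h10_18

theorem h11_19 : VOK 30 84 19 11 56 V11_11 := VOK_skip (by norm_num) h11_18

theorem h0_20 : VOK 30 84 20 0 1 g1 := VOK_skip (by norm_num) h0_19

theorem h1_20 : VOK 30 84 20 1 1 V1_1 := VOK_skip (by norm_num) h1_19

theorem h2_20 : VOK 30 84 20 2 2 V2_2 := VOK_skip (by norm_num) h2_19

theorem h3_20 : VOK 30 84 20 3 3 V3_3 := VOK_skip (by norm_num) h3_19

theorem h4_20 : VOK 30 84 20 4 5 V4_4 := VOK_skip (by norm_num) h4_19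

theorem h5_20 : VOK 30 84 20 5 7 V5_5 := VOK_skip (by norm_num) h5_19

theorem h6_20 : VOK 30 84 20 6 11 V6_6 := VOK_skip (by norm_num) h6_19

theorem h7_20 : VOK 30 84 20 7 15 V7_7 := VOK_skip (by norm_num) h7_19

theorem h8_20 : VOK 30 84 20 8 22 V8_8 := VOK_skip (by norm_num) h8_19

theorem h9_20 : VOK 30 84 20 9 30 V9_9 := VOK_skip (by norm_num) h9_19

theorem h10_20 : VOK 30 84 20 10 42 V10_10 := VOK_skip (by norm_num) h10_19

theorem h0_21 : VOK 30 84 21 0 1 g1 := VOK_skip (by norm_num) h0_20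

theorem h1_21 : VOK 30 84 21 1 1 V1_1 := VOK_skip (by norm_num) h1_20

theorem h2_21 : VOK 30 84 21 2 2 V2_2 := VOK_skip (by norm_num) h2_20

theorem h3_21 : VOK 30 84 21 3 3 V3_3 := VOK_skip (by norm_num) h3_20

theorem h4_21 : VOK 30 84 21 4 5 V4_4 := VOK_skip (by norm_num) h4_20

theorem h5_21 : VOK 30 84 21 5 7 V5_5 := VOK_skip (by norm_num) h5_20

theorem h6_21 : VOK 30 84 21 6 11 V6_6 := VOK_skip (by norm_num) h6_20

theorem h7_21 : VOK 30 84 21 7 15 V7_7 := VOK_skip (by norm_num) h7_20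

theorem h8_21 : VOK 30 84 21 8 22 V8_8 := VOK_skip (by norm_num) h8_20

theorem h9_21 : VOK 30 84 21 9 30 V9_9 := VOK_skip (by norm_num) h9_20

theorem h0_22 : VOK 30 84 22 0 1 g1 := VOK_skip (by norm_num) h0_21

theorem h1_22 : VOK 30 84 22 1 1 V1_1 := VOK_skip (by norm_num) h1_21

theorem h2_22 : VOK 30 84 22 2 2 V2_2 := VOK_skip (by norm_num) h2_21

theorem h3_22 : VOK 30 84 22 3 3 V3_3 := VOK_skip (by norm_num) h3_21

theorem h4_22 : VOK 30 84 22 4 5 V4_4 := VOK_skip (by norm_num) h4_21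

theorem h5_22 : VOK 30 84 22 5 7 V5_5 := VOK_skip (by norm_num) h5_21

theorem h6_22 : VOK 30 84 22 6 11 V6_6 := VOK_skip (by norm_num) h6_21

theorem h7_22 : VOK 30 84 22 7 15 V7_7 := VOK_skip (by norm_num) h7_21

theorem h8_22 : VOK 30 84 22 8 22 V8_8 := VOK_skip (by norm_num) h8_21

theorem h0_23 : VOK 30 84 23 0 1 g1 := VOK_skip (by norm_num) h0_22

theorem h1_23 : VOK 30 84 23 1 1 V1_1 := VOK_skip (by norm_num) h1_22

theorem h2_23 : VOK 30 84 23 2 2 V2_2 := VOK_skip (by norm_num) h2_22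

theorem h3_23 : VOK 30 84 23 3 3 V3_3 := VOK_skip (by norm_num) h3_22

theorem h4_23 : VOK 30 84 23 4 5 V4_4 := VOK_skip (by norm_num) h4_22

theorem h5_23 : VOK 30 84 23 5 7 V5_5 := VOK_skip (by norm_num) h5_22

theorem h6_23 : VOK 30 84 23 6 11 V6_6 := VOK_skip (by norm_num) h6_22

theorem h7_23 : VOK 30 84 23 7 15 V7_7 := VOK_skip (by norm_num) h7_22

theorem h0_24 : VOK 30 84 24 0 1 g1 := VOK_skip (by norm_num) h0_23

theorem h1_24 : VOK 30 84 24 1 1 V1_1 := VOK_skip (by norm_num) h1_23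

theorem h2_24 : VOK 30 84 24 2 2 V2_2 := VOK_skip (by norm_num) h2_23

theorem h3_24 : VOK 30 84 24 3 3 V3_3 := VOK_skip (by norm_num) h3_23

theorem h4_24 : VOK 30 84 24 4 5 V4_4 := VOK_skip (by norm_num) h4_23

theorem h5_24 : VOK 30 84 24 5 7 V5_5 := VOK_skip (by norm_num) h5_23

theorem h6_24 : VOK 30 84 24 6 11 V6_6 := VOK_skip (by norm_num) h6_23

theorem h0_25 : VOK 30 84 25 0 1 g1 := VOK_skip (by norm_num) h0_24

theorem h1_25 : VOK 30 84 25 1 1 V1_1 := VOK_skip (by norm_num) h1_24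

theorem h2_25 : VOK 30 84 25 2 2 V2_2 := VOK_skip (by norm_num) h2_24

theorem h3_25 : VOK 30 84 25 3 3 V3_3 := VOK_skip (by norm_num) h3_24

theorem h4_25 : VOK 30 84 25 4 5 V4_4 := VOK_skip (by norm_num) h4_24

theorem h5_25 : VOK 30 84 25 5 7 V5_5 := VOK_skip (by norm_num) h5_24

theorem h0_26 : VOK 30 84 26 0 1 g1 := VOK_skip (by norm_num) h0_25

theorem h1_26 : VOK 30 84 26 1 1 V1_1 := VOK_skip (by norm_num) h1_25

theorem h2_26 : VOK 30 84 26 2 2 V2_2 := VOK_skip (by norm_num) h2_25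

theorem h3_26 : VOK 30 84 26 3 3 V3_3 := VOK_skip (by norm_num) h3_25

theorem h4_26 : VOK 30 84 26 4 5 V4_4 := VOK_skip (by norm_num) h4_25

theorem h0_27 : VOK 30 84 27 0 1 g1 := VOK_skip (by norm_num) h0_26

theorem h1_27 : VOK 30 84 27 1 1 V1_1 := VOK_skip (by norm_num) h1_26

theorem h2_27 : VOK 30 84 27 2 2 V2_2 := VOK_skip (by norm_num) h2_26

theorem h3_27 : VOK 30 84 27 3 3 V3_3 := VOK_skip (by norm_num) h3_26

theorem h0_28 : VOK 30 84 28 0 1 g1 := VOK_skip (by norm_num) h0_27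

theorem h1_28 : VOK 30 84 28 1 1 V1_1 := VOK_skip (by norm_num) h1_27

theorem h2_28 : VOK 30 84 28 2 2 V2_2 := VOK_skip (by norm_num) h2_27

theorem h0_29 : VOK 30 84 29 0 1 g1 := VOK_skip (by norm_num) h0_28

theorem h1_29 : VOK 30 84 29 1 1 V1_1 := VOK_skip (by norm_num) h1_28

theorem h0_30 : VOK 30 84 30 0 1 g1 := VOK_skip (by norm_num) h0_29

end Pool.MP322F.B30
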