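import Pool.Agent.Lib.MP_322c5f_alF.FE04
import Pool.Agent.Lib.MP_322c5f_alF.FKb30L

/-! Generated: the exact numbers of pairs of standard tableaux with given number of corners, 30 cells. -/

set_option autoImplicit false
set_option maxRecDepth 100000

open Finset Equiv Nat

namespace Pool.MP322F.B30

open Pool.MP322 Pool.MP322F

noncomputable def uE : ℕ := 0x8adfa8fb08bd6ad83a2b5230000000061c747b9833f98c92a345811d180000056ad2eae35f66db1f6d7fe37b00000000f6cf3db9df47ac0bfea117921c0000000aee80dbe3fb9be68b2a74340c000000001168c09bd72f58d06d68eb5c000000000000429b4e1420382a54866400000000000000000000000000000000

noncomputable def u0 : ℕ := 0x1000000000000000100000000000000010000000000000001000000000000000100000000000000010000000000000001000000000000000100000000000000010000000000000001000000000000000100000000000000010000000000000001000000000000000100000000000000010000000000000001000000000000000100000000000000010000000000000001000000000000000100000000000000010000000000000001000000000000000100000000000000010000000000000001000000000000000100000000000000010000000000000001000000000000000100000000000000010000000000000001000000000000000100000000000000010000000000000001000000000000000100000000000000010000000000000001000000000000000100000000000000010000000000000001000000000000000100000000000000010000000000000001000000000000000100000000000000010000000000000001000000000000000100000000000000010000000000000001000000000000000100000000000000010000000000000001000000000000000100000000000000010000000000000000f5618ffd590000007dc1851f7400000013b696848c00000000d751364a000000000154cd8e0000000000000518000000000000001e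

theorem huE : enumN (leafC V29_1) (2 * 30 + 2) 30 30 30 0 0 = uE := by decide +kernel

theorem hu0 : ckU0 265252859812191058636308480000000 uE u0 60 = 0 := by decide +kernel

theorem urow : URow 60 30 u0 :=
  URow_start (N := 265252859812191058636308480000000) (by norm_num [Nat.factorial]) (fun j => uC_exact (N := 30) (n := 30) (w := 84)
    (by norm_num) (by norm_num) (by norm_num) (by norm_num) (by norm_num) h29_1 huE j) hu0

theorem srow0 : SRow 30 283892681556 := SRow_start (n := 29) (by norm_num)

theorem srow1 : SRow 31 279276232732 := SRow_start (n := 30) (by norm_num)

theorem hmC : mC 30 = 7 := by
  rw [mC]
  norm_num [Nat.sqrt_eq']

end Pool.MP322F.B30
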