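import Pool.Agent.Lib.MP_322c5f_alF.FKdD

/-! Kernel check of the generated tables. -/

set_option autoImplicit false
set_option maxRecDepth 100000

namespace Pool.MP322F

theorem hckP : ckPall 96 100 dataM = 0 := by decide +kernel

end Pool.MP322F
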