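import Pool.Agent.Lib.MP_322c5f_alF.FK00

/-! Generated data: square roots, `25 ≤ m ≤ 100`. -/

set_option autoImplicit false
set_option maxRecDepth 100000

namespace Pool.MP322F

noncomputable def ssl3 : NL := (.cons 65536 (.cons 113512 (.cons 278046 (.cons 834138 (.cons 2889536 (.cons 11191124 (.cons 47479917 (.cons 217580310 (.cons 1065921474 (.cons 5538690446 (.cons 30336656959 (.cons 174270826382 (.cons 1045624958292 (.cons 6529925771605 (.cons 42318755705621 (.cons 283882843442922 (.cons 1966798032961047 (.cons 14045747385790176 (.cons 103214742453650018 (.cons 779254216804168653 (.cons 6036077208288898037 (.cons 47909877562552337514 (.cons 389221685279581885223 (.cons 3233118138908563670506 (.cons 27433917124793705943527 (.cons 237584691553882953064076 (.cons 2098291181304155589081844 (.cons 18884620631737400301736594 (.cons 173080407030922823045078060 (.cons 1614386563040315607165325351 (.cons 15315415689535203164882886800 (.cons 147696520169309604568842797232 (.cons 1447124444797970637560053880112 (.cons 14398706425038731302666528156062 .nil))))))))))))))))))))))))))))))))))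

noncomputable def ssl4 : NL := (.cons 65536 (.cons 131072 (.cons 370728 (.cons 1284239 (.cons 5136953 (.cons 22973150 (.cons 112544987 (.cons 595532091 (.cons 3368838237 (.cons 20213029417 (.cons 127838422737 (.cons 847984164017 (.cons 5875006624364 (.cons 42365275255669 (.cons 317032690206165 (.cons 2455724658743621 (.cons 19645797269948964 (.cons 162003394486941295 (.cons 1374644385803466451 (.cons 11983871922045695964 (.cons 107187009005380947136 (.cons 982385164566142949899 (.cons 9215589716195540537042 (.cons 88392831333694183862337 (.cons 866069334749789647496208 (.cons 8660693347497896474962080 .nil))))))))))))))))))))))))))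

noncomputable def ssl5 : NL := (.cons 65536 (.cons 146543 (.cons 463410 (.cons 1794778 (.cons 8026488 (.cons 40132440 (.cons 219814427 (.cons 1300439685 (.cons 8224702725 (.cons 55172983163 (.cons 390131905325 (.cons 2893295646035 (.cons 22411371705490 (.cons 180686255182579 (.cons 1511729670553992 (.cons 13091962983544370 (.cons 117098076760464687 (.cons 1079590924556599263 (.cons 10241898788537580155 (.cons 99825681192223864735 (.cons 998256811922238647341 .nil)))))))))))))))))))))

noncomputable def ssl6 : NL := (.cons 65536 (.cons 160530 (.cons 556092 (.cons 2359296 (.cons 11558143 (.cons 63306555 (.cons 379839329 (.cons 2461640198 (.cons 17054743571 (.cons 125326258324 (.cons 970773022657 (.cons 7886597318248 (.cons 66919997330644 (.cons 591021413599540 (.cons 5416800730319389 (.cons 51388283817218289 (.cons 503500296438027919 .nil)))))))))))))))))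

noncomputable def ssl7 : NL := (.cons 65536 (.cons 173392 (.cons 648774 (.cons 2973053 (.cons 15731917 (.cons 93071273 (.cons 603170787 (.cons 4222195504 (.cons 31596017988 (.cons 250785618047 (.cons 2098223018492 (.cons 18411832264071 (.cons 168747230065863 (.cons 1609745978903501 (.cons 15935672167386188 .nil)))))))))))))))

noncomputable def ssl8 : NL := (.cons 65536 (.cons 185364 (.cons 741456 (.cons 3632374 (.cons 20547810 (.cons 129955757 (.cons 900359891 (.cons 6737676473 (.cons 53901411778 (.cons 457368645401 (.cons 4090829527574 (.cons 38375382573766 (.cons 376000423959280 .nil)))))))))))))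

noncomputable def ssl9 : NL := (.cons 65536 (.cons 196608 (.cons 834138 (.cons 4334304 (.cons 26005822 (.cons 174452352 (.cons 1281957736 (.cons 10175224076 (.cons 86339639325 (.cons 777056753919 (.cons 7371807640800 (.cons 73348559913617 .nil))))))))))))

noncomputable def ssl10 : NL := (.cons 65536 (.cons 207244 (.cons 926820 (.cons 5076397 (.cons 32105952 (.cons 227023364 (.cons 1758515412 (.cons 14712795510 (.cons 131595243598 (.cons 1248422097038 (.cons 12484220970379 .nil)))))))))))

noncomputable def ssl11 : NL := (.cons 65536 (.cons 217359 (.cons 1019501 (.cons 5856587 (.cons 38848202 (.cons 288105976 (.cons 2340584013 (.cons 20538541360 (.cons 192668596152 (.cons 1917028326953 .nil))))))))))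

noncomputable def ssl12 : NL := (.cons 65536 (.cons 227024 (.cons 1112183 (.cons 6673097 (.cons 46232571 (.cons 358115954 (.cons 3038714632 (.cons 27850279628 (.cons 272875897124 .nil)))))))))

noncomputable def ssl13 : NL := (.cons 65536 (.cons 236294 (.cons 1204865 (.cons 7524378 (.cons 54259059 (.cons 437450518 (.cons 3863458360 (.cons 36855043822 .nil))))))))

noncomputable def ssl14 : NL := (.cons 65536 (.cons 245214 (.cons 1297547 (.cons 8409064 (.cons 62927666 (.cons 526490626 (.cons 4825366290 (.cons 47768689152 .nil))))))))

noncomputable def ssl15 : NL := (.cons 65536 (.cons 253820 (.cons 1390229 (.cons 9325937 (.cons 72238392 (.cons 625602826 (.cons 5934989515 .nil)))))))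

noncomputable def ssl16 : NL := (.cons 65536 (.cons 262144 (.cons 1482911 (.cons 10273905 (.cons 82191238 (.cons 735140773 (.cons 7202879127 .nil)))))))

noncomputable def ssl17 : NL := (.cons 65536 (.cons 270212 (.cons 1575593 (.cons 11251980 (.cons 92786202 (.cons 855446507 .nil))))))

noncomputable def ssl18 : NL := (.cons 65536 (.cons 278046 (.cons 1668275 (.cons 12259262 (.cons 104023285 (.cons 986851525 .nil))))))

noncomputable def ssl19 : NL := (.cons 65536 (.cons 285665 (.cons 1760957 (.cons 13294928 (.cons 115902487 (.cons 1129677701 .nil))))))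

noncomputable def ssl20 : NL := (.cons 65536 (.cons 293086 (.cons 1853639 (.cons 14358219 (.cons 128423808 (.cons 1284238079 .nil))))))

noncomputable def ssl21 : NL := (.cons 65536 (.cons 300324 (.cons 1946320 (.cons 15448436 (.cons 141587249 .nil)))))

noncomputable def ssl22 : NL := (.cons 65536 (.cons 307392 (.cons 2039002 (.cons 16564929 (.cons 155392808 .nil)))))

noncomputable def ssl23 : NL := (.cons 65536 (.cons 314300 (.cons 2131684 (.cons 17707095 (.cons 169840486 .nil)))))

noncomputable def ssl24 : NL := (.cons 65536 (.cons 321060 (.cons 2224366 (.cons 18874368 (.cons 184930284 .nil)))))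

noncomputable def ssl25 : NL := (.cons 65536 (.cons 327680 (.cons 2317048 (.cons 20066220 (.cons 200662200 .nil)))))

noncomputable def ssl26 : NL := (.cons 65536 (.cons 334170 (.cons 2409730 (.cons 21282154 .nil))))

noncomputable def ssl27 : NL := (.cons 65536 (.cons 340536 (.cons 2502412 (.cons 22521702 .nil))))

noncomputable def ssl28 : NL := (.cons 65536 (.cons 346784 (.cons 2595094 (.cons 23784423 .nil))))

noncomputable def ssl29 : NL := (.cons 65536 (.cons 352923 (.cons 2687776 (.cons 25069898 .nil))))

noncomputable def ssl30 : NL := (.cons 65536 (.cons 358956 (.cons 2780458 (.cons 26377732 .nil))))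

noncomputable def ssl31 : NL := (.cons 65536 (.cons 364890 (.cons 2873139 (.cons 27707549 .nil))))

noncomputable def ssl32 : NL := (.cons 65536 (.cons 370728 (.cons 2965821 (.cons 29058991 .nil))))

noncomputable def ssl33 : NL := (.cons 65536 (.cons 376476 (.cons 3058503 (.cons 30431718 .nil))))

noncomputable def ssl34 : NL := (.cons 65536 (.cons 382138 (.cons 3151185 .nil)))

noncomputable def ssl35 : NL := (.cons 65536 (.cons 387717 (.cons 3243867 .nil)))

noncomputable def ssl36 : NL := (.cons 65536 (.cons 393216 (.cons 3336549 .nil)))

noncomputable def ssl37 : NL := (.cons 65536 (.cons 398640 (.cons 3429231 .nil)))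

noncomputable def ssl38 : NL := (.cons 65536 (.cons 403992 (.cons 3521913 .nil)))

noncomputable def ssl39 : NL := (.cons 65536 (.cons 409273 (.cons 3614595 .nil)))

noncomputable def ssl40 : NL := (.cons 65536 (.cons 414487 (.cons 3707277 .nil)))

noncomputable def ssl41 : NL := (.cons 65536 (.cons 419636 (.cons 3799958 .nil)))

noncomputable def ssl42 : NL := (.cons 65536 (.cons 424722 (.cons 3892640 .nil)))

noncomputable def ssl43 : NL := (.cons 65536 (.cons 429749 (.cons 3985322 .nil)))

noncomputable def ssl44 : NL := (.cons 65536 (.cons 434717 (.cons 4078004 .nil)))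

noncomputable def ssl45 : NL := (.cons 65536 (.cons 439629 (.cons 4170686 .nil)))

noncomputable def ssl46 : NL := (.cons 65536 (.cons 444487 (.cons 4263368 .nil)))

noncomputable def ssl47 : NL := (.cons 65536 (.cons 449293 (.cons 4356050 .nil)))

noncomputable def ssl48 : NL := (.cons 65536 (.cons 454047 (.cons 4448732 .nil)))

noncomputable def ssl49 : NL := (.cons 65536 (.cons 458752 (.cons 4541414 .nil)))

noncomputable def ssl50 : NL := (.cons 65536 (.cons 463410 (.cons 4634096 .nil)))

noncomputable def ssl51 : NL := (.cons 65536 (.cons 468021 .nil))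

noncomputable def ssl52 : NL := (.cons 65536 (.cons 472587 .nil))

noncomputable def ssl53 : NL := (.cons 65536 (.cons 477110 .nil))

noncomputable def ssl54 : NL := (.cons 65536 (.cons 481590 .nil))

noncomputable def ssl55 : NL := (.cons 65536 (.cons 486028 .nil))

noncomputable def ssl56 : NL := (.cons 65536 (.cons 490427 .nil))

noncomputable def ssl57 : NL := (.cons 65536 (.cons 494786 .nil))

noncomputable def ssl58 : NL := (.cons 65536 (.cons 499108 .nil))

noncomputable def ssl59 : NL := (.cons 65536 (.cons 503392 .nil))

noncomputable def ssl60 : NL := (.cons 65536 (.cons 507640 .nil))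

noncomputable def ssl61 : NL := (.cons 65536 (.cons 511853 .nil))

noncomputable def ssl62 : NL := (.cons 65536 (.cons 516031 .nil))

noncomputable def ssl63 : NL := (.cons 65536 (.cons 520176 .nil))

noncomputable def ssl64 : NL := (.cons 65536 (.cons 524288 .nil))

noncomputable def ssl65 : NL := (.cons 65536 (.cons 528369 .nil))

noncomputable def ssl66 : NL := (.cons 65536 (.cons 532417 .nil))

noncomputable def ssl67 : NL := (.cons 65536 (.cons 536436 .nil))

noncomputable def ssl68 : NL := (.cons 65536 (.cons 540424 .nil))

noncomputable def ssl69 : NL := (.cons 65536 (.cons 544383 .nil))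

noncomputable def ssl70 : NL := (.cons 65536 (.cons 548314 .nil))

noncomputable def ssl71 : NL := (.cons 65536 (.cons 552217 .nil))

noncomputable def ssl72 : NL := (.cons 65536 (.cons 556092 .nil))

noncomputable def ssl73 : NL := (.cons 65536 (.cons 559940 .nil))

noncomputable def ssl74 : NL := (.cons 65536 (.cons 563762 .nil))

noncomputable def ssl75 : NL := (.cons 65536 (.cons 567559 .nil))

noncomputable def ssl76 : NL := (.cons 65536 (.cons 571330 .nil))

noncomputable def ssl77 : NL := (.cons 65536 (.cons 575077 .nil))

noncomputable def ssl78 : NL := (.cons 65536 (.cons 578799 .nil))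

noncomputable def ssl79 : NL := (.cons 65536 (.cons 582497 .nil))

noncomputable def ssl80 : NL := (.cons 65536 (.cons 586172 .nil))

noncomputable def ssl81 : NL := (.cons 65536 (.cons 589824 .nil))

noncomputable def ssl82 : NL := (.cons 65536 (.cons 593454 .nil))

noncomputable def ssl83 : NL := (.cons 65536 (.cons 597062 .nil))

noncomputable def ssl84 : NL := (.cons 65536 (.cons 600648 .nil))

noncomputable def ssl85 : NL := (.cons 65536 (.cons 604213 .nil))

noncomputable def ssl86 : NL := (.cons 65536 (.cons 607756 .nil))

noncomputable def ssl87 : NL := (.cons 65536 (.cons 611280 .nil))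

noncomputable def ssl88 : NL := (.cons 65536 (.cons 614783 .nil))

noncomputable def ssl89 : NL := (.cons 65536 (.cons 618266 .nil))

noncomputable def ssl90 : NL := (.cons 65536 (.cons 621730 .nil))

noncomputable def ssl91 : NL := (.cons 65536 (.cons 625174 .nil))

noncomputable def ssl92 : NL := (.cons 65536 (.cons 628600 .nil))

noncomputable def ssl93 : NL := (.cons 65536 (.cons 632007 .nil))

noncomputable def ssl94 : NL := (.cons 65536 (.cons 635396 .nil))

noncomputable def ssl95 : NL := (.cons 65536 (.cons 638766 .nil))

noncomputable def ssl96 : NL := (.cons 65536 (.cons 642120 .nil))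

noncomputable def ssl97 : NL := (.cons 65536 (.cons 645455 .nil))

noncomputable def ssl98 : NL := (.cons 65536 (.cons 648774 .nil))

noncomputable def ssl99 : NL := (.cons 65536 (.cons 652075 .nil))

noncomputable def ssl100 : NL := (.cons 65536 (.cons 655360 .nil))

noncomputable def slAll : LL := (.cons ssl3 (.cons ssl4 (.cons ssl5 (.cons ssl6 (.cons ssl7 (.cons ssl8 (.cons ssl9 (.cons ssl10 (.cons ssl11 (.cons ssl12 (.cons ssl13 (.cons ssl14 (.cons ssl15 (.cons ssl16 (.cons ssl17 (.cons ssl18 (.cons ssl19 (.cons ssl20 (.cons ssl21 (.cons ssl22 (.cons ssl23 (.cons ssl24 (.cons ssl25 (.cons ssl26 (.cons ssl27 (.cons ssl28 (.cons ssl29 (.cons ssl30 (.cons ssl31 (.cons ssl32 (.cons ssl33 (.cons ssl34 (.cons ssl35 (.cons ssl36 (.cons ssl37 (.cons ssl38 (.cons ssl39 (.cons ssl40 (.cons ssl41 (.cons ssl42 (.cons ssl43 (.cons ssl44 (.cons ssl45 (.cons ssl46 (.cons ssl47 (.cons ssl48 (.cons ssl49 (.cons ssl50 (.cons ssl51 (.cons ssl52 (.cons ssl53 (.cons ssl54 (.cons ssl55 (.cons ssl56 (.cons ssl57 (.cons ssl58 (.cons ssl59 (.cons ssl60 (.cons ssl61 (.cons ssl62 (.cons ssl63 (.cons ssl64 (.cons ssl65 (.cons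 ssl66 (.cons ssl67 (.cons ssl68 (.cons ssl69 (.cons ssl70 (.cons ssl71 (.cons ssl72 (.cons ssl73 (.cons ssl74 (.cons ssl75 (.cons ssl76 (.cons ssl77 (.cons ssl78 (.cons ssl79 (.cons ssl80 (.cons ssl81 (.cons ssl82 (.cons ssl83 (.cons ssl84 (.cons ssl85 (.cons ssl86 (.cons ssl87 (.cons ssl88 (.cons ssl89 (.cons ssl90 (.cons ssl91 (.cons ssl92 (.cons ssl93 (.cons ssl94 (.cons ssl95 (.cons ssl96 (.cons ssl97 (.cons ssl98 (.cons ssl99 (.cons ssl100 .nil))))))))))))))))))))))))))))))))))))))))))))))))))))))))))))))))))))))))))))))))))))))))))))))))))

noncomputable def s2All : NL := (.cons 65536 (.cons 92682 (.cons 185364 (.cons 454047 (.cons 1284239 (.cons 4061118 (.cons 14068124 (.cons 52638098 (.cons 210552390 (.cons 893298136 (.cons 3994950711 (.cons 18737979773 (.cons 91796978506 (.cons 468074584690 (.cons 2476817892236 (.cons 13566090304099 (.cons 76741395585739 (.cons 447475386003733 (.cons 2684852316022396 (.cons 16550541212792142 (.cons 104674813481817332 (.cons 678370323829865355 (.cons 4499799666111103778 (.cons 30519126193522409693 (.cons 211442708679147863159 (.cons 1495125731394771211976 (.cons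 10781504975618894405813 (.cons 79227557548632841532788 (.cons 592884751875799222777852 (.cons 4515275748212508070799280 (.cons 34975175552722554917031830 (.cons 275394807697082792041046783 (.cons 2203158461576662336328374259 (.cons 17898543953347484659846613553 (.cons 147595174528823952159684124297 (.cons 1234869826375873592787596659672 (.cons 10478217937356417375919944127853 (.cons 90137038916100384981621339768900 (.cons 785796487410549093594346823566103 (.cons 6939966666410370067260504773026128 (.cons 62072948910704775525662298915003603 (.cons 562094459046359168641505909770408151 (.cons 5151680812590392633697177505911912068 (.cons 47774722466528601497733782795487975260 (.cons 448166622356392441858623571126920942123 (.cons 4251681893732215120736831838479133103011 (.cons 40780700106117754818946029615250607354980 (.cons 395383556951525982348629577499359161996441 (.cons 3873951868871565708804859576331845919952154 (.cons 38350166910571362861966036888048364405722203 (.cons 383501669105713628619660368880483644057222027 .nil)))))))))))))))))))))))))))))))))))))))))))))))))))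

end Pool.MP322F
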