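import Pool.Agent.Lib.MP_322c5f_alF.FKdD
import Pool.Agent.Lib.MP_322c5f_alF.FKdS

/-! Kernel check of the generated tables. -/

set_option autoImplicit false
set_option maxRecDepth 100000

namespace Pool.MP322F

theorem hckZ : ckZall 2800 16 100 s2All slAll dataM = 0 := by decide +kernel

end Pool.MP322F
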