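import Pool.Agent.Lib.MP_322c5f_alF.FKcP
import Pool.Agent.Lib.MP_322c5f_alF.FKcZ
import Pool.Agent.Lib.MP_322c5f_alF.FKcG
import Pool.Agent.Lib.MP_322c5f_alF.FKcW
import Pool.Agent.Lib.MP_322c5f_alF.FK02
import Pool.Agent.Lib.MP_322c5f_alF.FK04
import Pool.Agent.Lib.MP_322c5f_alF.FKb24G
import Pool.Agent.Lib.MP_322c5f_alF.FKb30G

/-! The table of the bounds for `FS n K`: `24 ≤ n ≤ 29` (rows `B24.frAll`), `30 ≤ n ≤ 100` (rows
`B30.frAll`), scaled by `2^40`. -/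

set_option autoImplicit false
set_option maxRecDepth 100000

open Finset Equiv Nat
open scoped NNReal

namespace Pool.MP322F

open Pool.MP322

/-- the bounds for the classes without fixed points -/
theorem dataM_ok : MDok (fun m _ _ _ W => ∀ K, 1 ≤ K → K ≤ m / 2 + 1 →
    (NW m K : ℝ) ≤ (NL.gt W (K - 1) : ℝ) / 2 ^ 40) 100 dataM 25 :=
  ckW_sound hckG (ckPall_sound (by norm_num) le_rfl (by norm_num) hckP)
    (ckZall_sound le_rfl (by norm_num) hckZ) hckW

noncomputable def B24.frAll : LL := LL.cons B24.row B24.fAll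

noncomputable def B30.frAll : LL := LL.cons B30.row B30.fAll

theorem F24 (n : ℕ) (h1 : 24 ≤ n) (h2 : n ≤ 29) : FRow n (LL.gt B24.frAll (n - 24)) := by
  rcases Nat.eq_or_lt_of_le h1 with h | h
  · subst h
    exact B24.frow
  · obtain ⟨i, rfl⟩ := Nat.exists_eq_add_of_le (show 25 ≤ n from h)
    have e : 25 + i - 24 = i + 1 := by omega
    rw [e]
    have hlen : LL.len B24.fAll = 5 := by decide +kernel
    exact ckF_sound B24.fAll (n := 24) (by norm_num) B24.frow (MDok_drop dataM_ok 0) B24.hF i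
      (by rw [hlen]; omega) (by omega)

theorem F30 (n : ℕ) (h1 : 30 ≤ n) (h2 : n ≤ 100) : FRow n (LL.gt B30.frAll (n - 30)) := by
  rcases Nat.eq_or_lt_of_le h1 with h | h
  · subst h
    exact B30.frow
  · obtain ⟨i, rfl⟩ := Nat.exists_eq_add_of_le (show 31 ≤ n from h)
    have e : 31 + i - 30 = i + 1 := by omega
    rw [e]
    have hlen : LL.len B30.fAll = 70 := by decide +kernel
    exact ckF_sound B30.fAll (n := 30) (by norm_num) B30.frow (MDok_drop dataM_ok 6) B30.hF i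
      (by rw [hlen]; omega) (by omega)

/-- bounds from the table -/
theorem FS_le24 {n K : ℕ} (h1 : 24 ≤ n) (h2 : n ≤ 29) (hK : 2 * K + 1 ≤ n) {b : ℕ}
    (hb : Nat.ble (Nat.mul 1000 (NL.gt (LL.gt B24.frAll (n - 24)) K)) (Nat.mul b (Nat.pow 2 40)) = true) :
    (FS n K : ℝ) ≤ (b : ℝ) / 1000 := by
  have h := F24 n h1 h2 K hK
  refine h.trans ?_
  have h3 : 1000 * NL.gt (LL.gt B24.frAll (n - 24)) K ≤ b * 2 ^ 40 := Nat.le_of_ble_eq_true hb
  rw [div_le_div_iff₀ (by positivity) (by positivity)]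
  have h4 : ((1000 * NL.gt (LL.gt B24.frAll (n - 24)) K : ℕ) : ℝ) ≤ ((b * 2 ^ 40 : ℕ) : ℝ) := by
    exact_mod_cast h3
  push_cast at h4
  linarith

theorem FS_le30 {n K : ℕ} (h1 : 30 ≤ n) (h2 : n ≤ 100) (hK : 2 * K + 1 ≤ n) {b : ℕ}
    (hb : Nat.ble (Nat.mul 1000 (NL.gt (LL.gt B30.frAll (n - 30)) K)) (Nat.mul b (Nat.pow 2 40)) = true) :
    (FS n K : ℝ) ≤ (b : ℝ) / 1000 := by
  have h := F30 n h1 h2 K hK
  refine h.trans ?_
  have h3 : 1000 * NL.gt (LL.gt B30.frAll (n - 30)) K ≤ b * 2 ^ 40 := Nat.le_of_ble_eq_true hb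
  rw [div_le_div_iff₀ (by positivity) (by positivity)]
  have h4 : ((1000 * NL.gt (LL.gt B30.frAll (n - 30)) K : ℕ) : ℝ) ≤ ((b * 2 ^ 40 : ℕ) : ℝ) := by
    exact_mod_cast h3
  push_cast at h4
  linarith

end Pool.MP322F
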