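import Pool.Agent.Lib.MP_322c5f_alF.FC00
import Pool.Agent.Lib.MP_322c5f_alF.FD00

/-!
# The tail `m > 100`: definitions

For `m > 100` the diagrams with `m` cells and first row `a` (first column at most `a`) are treated
as follows: `2a ≥ m`: as before (`TS / Dl`); `A < a < m/2`: `2^len LLn / LLd`; `a ≤ A`: the
recursion for the numbers `phi` (library `OC`, `phi_succ_le`) with content bound `A - 1`.
-/

set_option autoImplicit false

open Finset Equiv Nat

namespace Pool.MP322F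

open Pool.MP322

/-- the factor of `phi_succ_le` -/
noncomputable def fac (m : ℕ) (A : ℝ) (j : ℕ) : ℝ :=
  (1 + (j : ℝ) * ((A ^ 2 + ((m : ℝ) - 2 * j)) / (((m : ℝ) - 2 * j) * ((m : ℝ) - 2 * j - 1)))) /
    ((j : ℝ) + 1)

noncomputable def Phi (m : ℕ) (A : ℝ) (N : ℕ) : ℝ := ∏ j ∈ Finset.range N, fac m A j

/-- `∑ 2^len` -/
noncomputable def TW (m : ℕ) : ℕ := ∑ τ ∈ TNW m, 2 ^ Multiset.card τ

/-- the sum over the first rows `A < a < (m+1)/2` -/
noncomputable def SL (m A : ℕ) : ℝ :=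
  ∑ a ∈ (Finset.range ((m + 1) / 2)).filter (fun a => A < a), (LLn m a : ℝ) / (LLd m a : ℝ)

/-- the part of the bound that does not depend on the depth -/
noncomputable def IIb (m A N : ℕ) : ℝ :=
  ((TNW m).card : ℝ) * Real.sqrt (Phi m ((A : ℝ) - 1) N) + (TW m : ℝ) * SL m A

/-- the parameters -/
def Am (m : ℕ) : ℕ := if m ≤ 300 then 7 * m / 30 else m / 5

def Nm (m : ℕ) : ℕ := if m ≤ 300 then m / 3 else 4 * (m / 12)

noncomputable def IIm (m : ℕ) : ℝ := IIb m (Am m) (Nm m)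

/-- the weights of the first range: `TS m k / Dl m k * C(m-1,k) / C(2k-1,k)` -/
noncomputable def rh (m k : ℕ) : ℝ :=
  (TS m k : ℝ) / (Dl m k : ℝ) * (((m - 1).choose k : ℝ) / ((2 * k - 1).choose k : ℝ))

end Pool.MP322F
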