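import Pool.Agent.Lib.MP_322c5f_alF.FT00
import Pool.Agent.Lib.MP_322c5f_al.OB
import Pool.Agent.Lib.MP_322c5f_al.OC
import Pool.Agent.Lib.MP_322c5f_al.Star

/-! The bound of the characters of the diagrams in an `A × A` square on the permutations without
fixed points. -/

set_option autoImplicit false

open Finset Equiv Nat

namespace Pool.MP322F

open Pool.MP322

theorem fac_nonneg {m j : ℕ} {A : ℝ} (h : 2 * j + 1 ≤ m) : 0 ≤ fac m A j := by
  have h1 : (2 : ℝ) * j + 1 ≤ m := by exact_mod_cast h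
  have hj : (0 : ℝ) ≤ j := Nat.cast_nonneg j
  have h2 : 0 ≤ (m : ℝ) - 2 * j := by linarith
  have h3 : 0 ≤ (m : ℝ) - 2 * j - 1 := by linarith
  unfold fac
  refine div_nonneg (add_nonneg zero_le_one (mul_nonneg hj (div_nonneg ?_ (mul_nonneg h2 h3)))) ?_
  · exact add_nonneg (sq_nonneg A) h2
  · linarith

theorem Phi_nonneg {m N : ℕ} {A : ℝ} (h : 2 * N ≤ m + 1) : 0 ≤ Phi m A N := by
  unfold Phi
  refine Finset.prod_nonneg fun j hj => fac_nonneg ?_
  rw [Finset.mem_range] at hj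
  omega

/-- induction on `N` with `phi_succ_le`, `phi_le_one` -/
theorem phi_le_Phi {m : ℕ} (V : OIrr m) {A : ℝ} (hA0 : 0 ≤ A) (hV : V.StarBound A) {N : ℕ}
    (hN : 2 * N ≤ m + 1) (b b' : Fin N ↪ Fin m) (hbb : ∀ i j, b i ≠ b' j) :
    V.phi b b' ≤ Phi m A N := by
  induction N with
  | zero =>
    have h1 := V.phi_le_one b b'
    unfold Phi
    rw [Finset.prod_range_zero]
    exact h1
  | succ N ih =>
    have h1 := V.phi_succ_le A hA0 hV b b' hbb
    have h2 := ih (by omega) (Fin.castSuccEmb.trans b) (Fin.castSuccEmb.trans b')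
      (fun i j => hbb _ _)
    have h3 : 0 ≤ fac m A N := fac_nonneg (by omega)
    have h4 : Phi m A (N + 1) = Phi m A N * fac m A N := by
      unfold Phi
      rw [Finset.prod_range_succ]
    rw [h4, mul_comm]
    exact h1.trans (mul_le_mul_of_nonneg_left h2 h3)

/-- `exists_indep`, `r_sq_le`, `starBound_irr` (the contents of the cells of a diagram in an
`A × A` square are at most `A - 1` in absolute value) -/
theorem chi_le_Phi {m A N : ℕ} (mu : Y m) (hA : 1 ≤ A) (h1 : mu.1.rowLen 0 ≤ A)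
    (h2 : mu.1.colLen 0 ≤ A) (hN : 3 * N ≤ m) (σ : Perm (Fin m)) (hσ : σ.support.card = m) :
    |chi mu σ| ≤ Real.sqrt (Phi m ((A : ℝ) - 1) N) * fd mu := by
  have hA1 : (1 : ℝ) ≤ A := by exact_mod_cast hA
  have hV : (irr mu).StarBound ((A : ℝ) - 1) := by
    apply starBound_irr
    rintro ⟨i, j⟩ hc
    have h3 : j < mu.1.rowLen 0 := by
      rw [← YoungDiagram.mem_iff_lt_rowLen]
      exact mu.1.up_left_mem (Nat.zero_le _) (le_refl _) hc
    have h4 : i < mu.1.colLen 0 := by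
      rw [← YoungDiagram.mem_iff_lt_colLen]
      exact mu.1.up_left_mem (le_refl _) (Nat.zero_le _) hc
    have h3' : (j : ℝ) + 1 ≤ A := by exact_mod_cast (show j + 1 ≤ A by omega)
    have h4' : (i : ℝ) + 1 ≤ A := by exact_mod_cast (show i + 1 ≤ A by omega)
    have hi : (0 : ℝ) ≤ i := Nat.cast_nonneg i
    have hj : (0 : ℝ) ≤ j := Nat.cast_nonneg j
    unfold ct
    push_cast
    rw [abs_le]
    constructor <;> linarith
  obtain ⟨b, hb⟩ := exists_indep σ N (by rw [hσ]; exact hN)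
  have h5 := (irr mu).r_sq_le σ b hb
  have h6 := phi_le_Phi (irr mu) (by linarith) hV (N := N) (by omega) b (b.trans σ.toEmbedding)
    (fun i j => (hb j i).symm)
  have h7 : |(irr mu).r σ| ≤ Real.sqrt (Phi m ((A : ℝ) - 1) N) := Real.abs_le_sqrt (h5.trans h6)
  rw [irr_r, abs_div, abs_of_pos (fd_pos mu), div_le_iff₀ (fd_pos mu)] at h7
  exact h7

end Pool.MP322F
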