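import Pool.Agent.Lib.MP_322c5f_alF.FT01
import Pool.Agent.Lib.MP_322c5f_alF.FD04

/-! The bound for the classes without fixed points, second form. -/

set_option autoImplicit false

open Finset Equiv Nat
open scoped NNReal

namespace Pool.MP322F

open Pool.MP322

private theorem row_pos {mu : YoungDiagram} (h : 1 ≤ mu.card) : 1 ≤ mu.rowLen 0 := by
  by_contra hcon
  have h0 : mu.cells = ∅ := by
    rw [Finset.eq_empty_iff_forall_notMem]
    intro c hc
    rw [YoungDiagram.mem_cells] at hc
    have hc' : (c.1, c.2) ∈ mu := hc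
    have h1 : (0, 0) ∈ mu := mu.up_left_mem (Nat.zero_le _) (Nat.zero_le _) hc'
    rw [YoungDiagram.mem_iff_lt_rowLen] at h1
    omega
  unfold YoungDiagram.card at h
  rw [h0, Finset.card_empty] at h
  omega

private theorem row_le_card' (nu : YoungDiagram) : nu.rowLen 0 ≤ nu.card := by
  rw [YoungDiagram.rowLen_eq_card]
  exact Finset.card_le_card (Finset.filter_subset _ _)

private theorem LLd_pos {m a : ℕ} (ha : 1 ≤ a) (ham : a ≤ m) : 0 < LLd m a := by
  unfold LLd
  refine Nat.mul_pos (Nat.choose_pos ham) ?_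
  have h1 := Nat.mod_lt (m - a) (by omega : 0 < a)
  have h2 : (m - a) % a < a + (m - a) / a + 1 :=
    lt_of_lt_of_le h1 ((Nat.le_add_right _ _).trans (Nat.le_succ _))
  exact Nat.sub_pos_of_lt h2

/-- one class (compare FD04 `sv_new`, same proof: only the second range changes: for `a ≤ A` use
`chi_le_Phi`, for `A < a` use `cN τ a ≤ 2 ^ card τ` (all submultisets) and `fD_ge_L`) -/
theorem sv_tail {m K A N : ℕ} (hK : 1 ≤ K) (hA : 1 ≤ A) (hN : 3 * N ≤ m) {τ : Multiset ℕ}
    (hτ : τ ∈ TNW m) :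
    (sv m K τ : ℝ) ≤ (∑ k ∈ Finset.Icc K (m / 2), (cS τ k : ℝ) / (Dl m k : ℝ)) +
      (Real.sqrt (Phi m ((A : ℝ) - 1) N) + 2 ^ Multiset.card τ * SL m A) := by
  classical
  unfold TNW at hτ
  rw [Finset.mem_filter] at hτ
  obtain ⟨hτ1, hτ2⟩ := hτ
  have h3 := (bsum_mem hτ1).2.1
  have hm1 : 1 ≤ m := by omega
  unfold typesE at hτ1
  obtain ⟨σ, hσ, hστ⟩ := Finset.mem_image.1 hτ1
  rw [Finset.mem_filter] at hσ
  obtain ⟨_, hsgn, _⟩ := hσ
  have hsup : σ.support.card = m := by
    rw [← Perm.sum_cycleType, hστ, hτ2]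
  have hft : ft σ = τ := by
    unfold ft
    rw [hsup, Nat.sub_self, Multiset.replicate_zero, add_zero, hστ]
  set S1 := ∑ k ∈ Finset.Icc K (m / 2), (cS τ k : ℝ) / (Dl m k : ℝ) with hS1
  set S2 := Real.sqrt (Phi m ((A : ℝ) - 1) N) + 2 ^ Multiset.card τ * SL m A with hS2
  have hT1 : ∀ k ∈ Finset.Icc K (m / 2), 0 ≤ (cS τ k : ℝ) / (Dl m k : ℝ) := by
    intro k hk
    rw [Finset.mem_Icc] at hk
    have h4 : (0 : ℝ) < (Dl m k : ℝ) := by
      exact_mod_cast Dl_pos (by omega)
    positivity
  have hT2 : ∀ a ∈ (Finset.range ((m + 1) / 2)).filter (fun a => A < a),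
      0 ≤ (LLn m a : ℝ) / (LLd m a : ℝ) := fun a _ =>
    div_nonneg (Nat.cast_nonneg _) (Nat.cast_nonneg _)
  have hSL : 0 ≤ SL m A := Finset.sum_nonneg hT2
  have hS10 : 0 ≤ S1 := Finset.sum_nonneg hT1
  have hsq : 0 ≤ Real.sqrt (Phi m ((A : ℝ) - 1) N) := Real.sqrt_nonneg _
  have h2SL : 0 ≤ 2 ^ Multiset.card τ * SL m A := by positivity
  have hS20 : 0 ≤ S2 := by rw [hS2]; linarith
  -- the main bound for the diagrams with `colLen ≤ rowLen`
  have key : ∀ mu : Y m, K ≤ Dp mu → mu.1.colLen 0 ≤ mu.1.rowLen 0 →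
      |chi mu σ| / fd mu ≤ S1 + S2 := by
    intro mu hD hc
    have hcard : mu.1.card = m := mu.2
    have ha : 1 ≤ mu.1.rowLen 0 := row_pos (by omega)
    have ham := row_le_card' mu.1
    have hct := card_tl mu.1
    have hrow := abs_chi_row mu hm1 σ
    have hfd : fd mu = fD mu.1 := fd_eq_fD mu
    have hfpos : 0 < fD mu.1 := fD_pos _
    have htpos : 0 < fD (tl mu.1) := fD_pos _
    unfold Dp at hD
    rw [max_eq_left hc] at hD
    rw [hft] at hrow
    rcases Nat.lt_or_ge m (2 * (m - mu.1.rowLen 0)) with h2k | h2k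
    · -- second range
      rcases Nat.lt_or_ge A (mu.1.rowLen 0) with hAa | hAa
      · set a := mu.1.rowLen 0 with hadef
        rw [hfd, div_le_iff₀ hfpos]
        have haR : a ∈ (Finset.range ((m + 1) / 2)).filter (fun a => A < a) := by
          rw [Finset.mem_filter, Finset.mem_range]
          exact ⟨by omega, hAa⟩
        have h4 := Finset.single_le_sum hT2 haR
        change (LLn m a : ℝ) / (LLd m a : ℝ) ≤ SL m A at h4
        have h6 : (Multiset.card (τ.powerset.filter (fun B => a ≤ B.sum ∧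
            B.sum + 1 ≤ a + mu.1.colLen 0)) : ℝ) ≤ 2 ^ Multiset.card τ := by
          have : Multiset.card (τ.powerset.filter (fun B => a ≤ B.sum ∧
            B.sum + 1 ≤ a + mu.1.colLen 0)) ≤ 2 ^ Multiset.card τ := by
            refine (Multiset.card_le_card (Multiset.filter_le _ _)).trans ?_
            rw [Multiset.card_powerset]
          exact_mod_cast this
        have h7 := fD_ge_L mu.1 hcard hm1
        rw [← hadef] at h7
        have h8 : (0 : ℝ) < (LLd m a : ℝ) := by
          exact_mod_cast LLd_pos ha (by omega)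
        have h9 : fD (tl mu.1) ≤ (LLn m a : ℝ) / (LLd m a : ℝ) * fD mu.1 := by
          rw [div_mul_eq_mul_div, le_div_iff₀ h8, mul_comm]
          exact h7
        have h5 : |chi mu σ| ≤ (2 ^ Multiset.card τ * SL m A) * fD mu.1 := by
          calc |chi mu σ| ≤ _ := hrow
            _ ≤ 2 ^ Multiset.card τ * fD (tl mu.1) := mul_le_mul_of_nonneg_right h6 htpos.le
            _ ≤ 2 ^ Multiset.card τ * ((LLn m a : ℝ) / (LLd m a : ℝ) * fD mu.1) :=
              mul_le_mul_of_nonneg_left h9 (by positivity)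
            _ ≤ 2 ^ Multiset.card τ * (SL m A * fD mu.1) :=
              mul_le_mul_of_nonneg_left (mul_le_mul_of_nonneg_right h4 hfpos.le) (by positivity)
            _ = _ := by ring
        refine h5.trans (mul_le_mul_of_nonneg_right ?_ hfpos.le)
        rw [hS2]
        linarith
      · have h5 := chi_le_Phi mu hA hAa (hc.trans hAa) hN σ hsup
        have hfdpos : 0 < fd mu := fd_pos mu
        rw [div_le_iff₀ hfdpos]
        refine h5.trans (mul_le_mul_of_nonneg_right ?_ hfdpos.le)
        rw [hS2]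
        linarith
    · -- first range
      set a := mu.1.rowLen 0 with hadef
      rw [hfd, div_le_iff₀ hfpos]
      have hkR : m - a ∈ Finset.Icc K (m / 2) := by
        rw [Finset.mem_Icc]
        omega
      have h4 := Finset.single_le_sum hT1 hkR
      rw [← hS1] at h4
      have h6 : (Multiset.card (τ.powerset.filter (fun B => a ≤ B.sum ∧
          B.sum + 1 ≤ a + mu.1.colLen 0)) : ℝ) ≤ (cS τ (m - a) : ℝ) := by
        have h7 := card_powerset_compl τ a (by omega)
        rw [hτ2] at h7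
        have : Multiset.card (τ.powerset.filter (fun B => a ≤ B.sum ∧
          B.sum + 1 ≤ a + mu.1.colLen 0)) ≤ cS τ (m - a) := by
          rw [← h7]
          exact Multiset.card_le_card (Multiset.monotone_filter_right _ fun B hB => hB.1)
        exact_mod_cast this
      have h7 : (Dl m (m - a) : ℝ) * fD (tl mu.1) ≤ fD mu.1 := by
        have h8 : (tl mu.1).card ≤ a := by omega
        have h9 := fD_ge h8
        rw [hadef, addRow_tl, ← hadef] at h9
        have e1 : (tl mu.1).card = m - a := by omega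
        rw [e1] at h9
        have e2 : a + (m - a) = m := by omega
        rwa [e2] at h9
      have h8 : (0 : ℝ) < (Dl m (m - a) : ℝ) := by
        exact_mod_cast Dl_pos (by omega)
      have h9 : fD (tl mu.1) ≤ 1 / (Dl m (m - a) : ℝ) * fD mu.1 := by
        rw [div_mul_eq_mul_div, le_div_iff₀ h8, mul_comm, one_mul]
        exact h7
      have h10 : |chi mu σ| ≤ (cS τ (m - a) : ℝ) / (Dl m (m - a) : ℝ) * fD mu.1 := by
        calc |chi mu σ| ≤ _ := hrow
          _ ≤ (cS τ (m - a) : ℝ) * fD (tl mu.1) := mul_le_mul_of_nonneg_right h6 htpos.le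
          _ ≤ (cS τ (m - a) : ℝ) * (1 / (Dl m (m - a) : ℝ) * fD mu.1) :=
            mul_le_mul_of_nonneg_left h9 (Nat.cast_nonneg _)
          _ = _ := by ring
      refine h10.trans (mul_le_mul_of_nonneg_right ?_ hfpos.le)
      linarith
  have key2 : ∀ mu : Y m, K ≤ Dp mu → |chi mu σ| / fd mu ≤ S1 + S2 := by
    intro mu hD
    rcases le_total (mu.1.colLen 0) (mu.1.rowLen 0) with h5 | h5
    · exact key mu hD h5
    · have h6 := key mu.tr (by
        unfold Dp at hD ⊢
        show K ≤ m - max (mu.1.transpose.rowLen 0) (mu.1.transpose.colLen 0)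
        rw [YoungDiagram.rowLen_transpose, YoungDiagram.colLen_transpose, max_comm]
        exact hD) (by
        show mu.1.transpose.colLen 0 ≤ mu.1.transpose.rowLen 0
        rw [YoungDiagram.rowLen_transpose, YoungDiagram.colLen_transpose]
        exact h5)
      rw [chi_tr, fd_tr, hsgn] at h6
      simpa using h6
  have hsv : sv m K τ ≤ (S1 + S2).toNNReal := by
    unfold sv
    refine Finset.sup_le fun mu hmu => ?_
    rw [Finset.mem_filter] at hmu
    refine Real.toNNReal_le_toNNReal ?_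
    have h6 := key2 mu hmu.2
    rw [← hστ, ty_cycleType]
    refine le_trans ?_ h6
    rw [← neg_div]
    exact div_le_div_of_nonneg_right (neg_le_abs _) (fd_pos mu).le
  have h7 : (sv m K τ : ℝ) ≤ ((S1 + S2).toNNReal : ℝ) := by exact_mod_cast hsv
  rwa [Real.coe_toNNReal _ (by linarith)] at h7

theorem NW_tail {m K A N : ℕ} (hK : 1 ≤ K) (hA : 1 ≤ A) (hN : 3 * N ≤ m) :
    (NW m K : ℝ) ≤ (∑ k ∈ Finset.Icc K (m / 2), (TS m k : ℝ) / (Dl m k : ℝ)) + IIb m A N := by
  have h1 : (NW m K : ℝ) = ∑ τ ∈ TNW m, (sv m K τ : ℝ) := by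
    unfold NW TNW
    push_cast
    rfl
  rw [h1]
  refine (Finset.sum_le_sum fun τ hτ => sv_tail hK hA hN hτ).trans (le_of_eq ?_)
  rw [Finset.sum_add_distrib]
  congr 1
  · rw [Finset.sum_comm]
    refine Finset.sum_congr rfl fun k _ => ?_
    unfold TS
    push_cast
    rw [Finset.sum_div]
  · unfold IIb TW
    rw [Finset.sum_add_distrib, Finset.sum_const, nsmul_eq_mul]
    push_cast
    rw [Finset.sum_mul]

end Pool.MP322F
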