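import Pool.Agent.Lib.MP_322c5f_alF.FT00
import Pool.Agent.Lib.MP_322c5f_al.MS
import Pool.Agent.Lib.MP_322c5f_al.BSum

/-! Generating function bounds for the types without fixed points. -/

set_option autoImplicit false

open Finset Equiv Nat

namespace Pool.MP322F

open Pool.MP322

private theorem ft3_mem {m : ℕ} {τ : Multiset ℕ} (hτ : τ ∈ TNW m) :
    (∀ c ∈ τ, c ∈ Finset.Icc 2 m) ∧ τ.sum = m := by
  unfold TNW at hτ
  rw [Finset.mem_filter] at hτ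
  refine ⟨?_, hτ.2⟩
  intro c hc
  rw [Finset.mem_Icc]
  refine ⟨(bsum_mem hτ.1).1 c hc, ?_⟩
  rw [← hτ.2]
  exact Multiset.single_le_sum (fun _ _ => Nat.zero_le _) c hc

/-- `multiset_sum_le` -/
theorem TNW_prod_le {m : ℕ} (x : ℕ → ℝ) (h0 : ∀ c, 0 ≤ x c)
    (h1 : ∀ c ∈ Finset.Icc 2 m, x c < 1) :
    ∑ τ ∈ TNW m, (τ.map x).prod ≤ ∏ c ∈ Finset.Icc 2 m, (1 - x c)⁻¹ :=
  multiset_sum_le (Finset.Icc 2 m) x h0 h1 (TNW m) (fun _ hτ => (ft3_mem hτ).1)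

private theorem ft3_prod (S : Finset ℕ) (x : ℕ → ℝ) (h0 : ∀ c, 0 ≤ x c)
    (h1 : ∑ c ∈ S, x c ≤ 1) : 1 - ∑ c ∈ S, x c ≤ ∏ c ∈ S, (1 - x c) := by
  classical
  induction S using Finset.induction_on with
  | empty => simp
  | insert a S ha ih =>
    rw [Finset.sum_insert ha] at h1 ⊢
    rw [Finset.prod_insert ha]
    have h2 : 0 ≤ ∑ c ∈ S, x c := Finset.sum_nonneg fun c _ => h0 c
    have h3 := h0 a
    have h4 := ih (by linarith)
    have h5 : (1 - x a) * (1 - ∑ c ∈ S, x c) ≤ (1 - x a) * ∏ c ∈ S, (1 - x c) :=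
      mul_le_mul_of_nonneg_left h4 (by linarith)
    nlinarith [mul_nonneg h3 h2]

/-- the product over `c > c0`: `∏ (1 - x c) ≥ 1 - ∑ x c ≥ 1 - s` -/
theorem prod_tail_le {c0 m : ℕ} (x : ℕ → ℝ) (h0 : ∀ c, 0 ≤ x c) {s : ℝ} (hs : s < 1)
    (h1 : ∑ c ∈ Finset.Icc (c0 + 1) m, x c ≤ s) :
    ∏ c ∈ Finset.Icc (c0 + 1) m, (1 - x c)⁻¹ ≤ (1 - s)⁻¹ := by
  rw [Finset.prod_inv_distrib]
  have h2 := ft3_prod (Finset.Icc (c0 + 1) m) x h0 (by linarith)
  exact inv_anti₀ (by linarith) (by linarith)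

private theorem ft3_one_le (S : Finset ℕ) (f : ℕ → ℝ) (h : ∀ c ∈ S, 1 ≤ f c) :
    1 ≤ ∏ c ∈ S, f c := by
  classical
  induction S using Finset.induction_on with
  | empty => simp
  | insert a S ha ih =>
    rw [Finset.prod_insert ha]
    exact one_le_mul_of_one_le_of_one_le (h a (Finset.mem_insert_self a S))
      (ih fun c hc => h c (Finset.mem_insert_of_mem hc))

/-- splitting of the product -/
private theorem ft3_split (x : ℕ → ℝ) (h0 : ∀ c, 0 ≤ x c) (h1 : ∀ c, 2 ≤ c → x c < 1) (c0 m : ℕ)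
    (hc0 : 2 ≤ c0) {a s : ℝ} (hs : s < 1) (hs0 : 0 ≤ s)
    (ha : ∏ c ∈ Finset.Icc 2 c0, (1 - x c)⁻¹ ≤ a)
    (hb : ∑ c ∈ Finset.Icc (c0 + 1) m, x c ≤ s) :
    ∏ c ∈ Finset.Icc 2 m, (1 - x c)⁻¹ ≤ a * (1 - s)⁻¹ := by
  have hge : ∀ c, 2 ≤ c → 1 ≤ (1 - x c)⁻¹ := by
    intro c hc
    have := h0 c
    have := h1 c hc
    exact (one_le_inv₀ (by linarith)).2 (by linarith)
  have hP : 0 ≤ ∏ c ∈ Finset.Icc 2 c0, (1 - x c)⁻¹ :=
    Finset.prod_nonneg fun c hc => by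
      have := hge c (Finset.mem_Icc.1 hc).1
      linarith
  have ha0 : 0 ≤ a := hP.trans ha
  have hi : 1 ≤ (1 - s)⁻¹ := (one_le_inv₀ (by linarith)).2 (by linarith)
  rcases Nat.lt_or_ge m (c0 + 1) with hm | hm
  · have h3 : ∏ c ∈ Finset.Icc 2 m, (1 - x c)⁻¹ ≤ ∏ c ∈ Finset.Icc 2 c0, (1 - x c)⁻¹ := by
      have hsub : Finset.Icc 2 m ⊆ Finset.Icc 2 c0 := Finset.Icc_subset_Icc le_rfl (by omega)
      rw [← Finset.prod_sdiff hsub]
      refine le_mul_of_one_le_left (Finset.prod_nonneg fun c hc => ?_) (ft3_one_le _ _ ?_)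
      · have := hge c (Finset.mem_Icc.1 hc).1
        linarith
      · intro c hc
        exact hge c (Finset.mem_Icc.1 (Finset.mem_sdiff.1 hc).1).1
    calc ∏ c ∈ Finset.Icc 2 m, (1 - x c)⁻¹ ≤ a := h3.trans ha
      _ ≤ a * (1 - s)⁻¹ := le_mul_of_one_le_right ha0 hi
  · have h3 : Finset.Icc 2 m = Finset.Icc 2 c0 ∪ Finset.Icc (c0 + 1) m := by
      ext c
      simp only [Finset.mem_union, Finset.mem_Icc]
      omega
    rw [h3, Finset.prod_union]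
    · refine mul_le_mul ha (prod_tail_le x h0 hs hb) ?_ ha0
      exact Finset.prod_nonneg fun c hc => by
        have := hge c (by have := (Finset.mem_Icc.1 hc).1; omega)
        linarith
    · rw [Finset.disjoint_left]
      intro c h4 h5
      rw [Finset.mem_Icc] at h4 h5
      omega

private theorem ft3_pow_prod (q : ℝ) (f : ℕ → ℝ) (τ : Multiset ℕ) :
    (τ.map (fun c => q ^ c * f c)).prod = q ^ τ.sum * (τ.map f).prod := by
  induction τ using Multiset.induction_on with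
  | empty => simp
  | cons a s ih =>
    rw [Multiset.map_cons, Multiset.prod_cons, ih, Multiset.sum_cons, Multiset.map_cons,
      Multiset.prod_cons, pow_add]
    ring

private theorem ft3_W : ∏ c ∈ Finset.Icc 2 14, (1 - (7 / 10 : ℝ) ^ c * 2)⁻¹ ≤ 10422 / 10 := by
  have h : Finset.Icc 2 14 = ({2, 3, 4, 5, 6, 7, 8, 9, 10, 11, 12, 13, 14} : Finset ℕ) := by decide
  rw [h]
  norm_num

private theorem ft3_V : ∏ c ∈ Finset.Icc 2 16, (1 - (4 / 5 : ℝ) ^ c * (1 + (6851 / 10000 : ℝ) ^ c))⁻¹ ≤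
    6652 / 10 := by
  have h : Finset.Icc 2 16 = ({2, 3, 4, 5, 6, 7, 8, 9, 10, 11, 12, 13, 14, 15, 16} : Finset ℕ) := by
    decide
  rw [h]
  norm_num

/-- `x c = 2 (7/10)^c` (the product up to `c = 14` is at most `1042.2`, the tail sum at most `0.032`) -/
theorem TW_le (m : ℕ) : (TW m : ℝ) ≤ 1100 * (10 / 7 : ℝ) ^ m := by
  have hx0 : ∀ c : ℕ, 0 ≤ (7 / 10 : ℝ) ^ c * 2 := fun c => by positivity
  have hx1 : ∀ c : ℕ, 2 ≤ c → (7 / 10 : ℝ) ^ c * 2 < 1 := by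
    intro c hc
    have : (7 / 10 : ℝ) ^ c ≤ (7 / 10 : ℝ) ^ 2 :=
      pow_le_pow_of_le_one (by norm_num) (by norm_num) hc
    norm_num at this ⊢
    linarith
  have h1 := TNW_prod_le (m := m) (fun c => (7 / 10 : ℝ) ^ c * 2) hx0
    (fun c hc => hx1 c (Finset.mem_Icc.1 hc).1)
  have h2 : ∑ τ ∈ TNW m, (τ.map (fun c => (7 / 10 : ℝ) ^ c * 2)).prod =
      (7 / 10 : ℝ) ^ m * (TW m : ℝ) := by
    unfold TW
    push_cast
    rw [Finset.mul_sum]
    refine Finset.sum_congr rfl fun τ hτ => ?_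
    rw [ft3_pow_prod, (ft3_mem hτ).2, Multiset.map_const', Multiset.prod_replicate]
  have h3 : ∑ c ∈ Finset.Icc (14 + 1) m, (7 / 10 : ℝ) ^ c * 2 ≤ 32 / 1000 := by
    rw [← Finset.sum_mul]
    have := bsum_geom (q := 7 / 10) (by norm_num) (by norm_num) 14 m
    norm_num at this ⊢
    linarith
  have h4 := ft3_split (fun c => (7 / 10 : ℝ) ^ c * 2) hx0 hx1 14 m (by norm_num) (by norm_num)
    (by norm_num) ft3_W h3
  rw [h2] at h1
  have h5 : (7 / 10 : ℝ) ^ m * (TW m : ℝ) ≤ 1100 := by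
    refine (h1.trans h4).trans ?_
    norm_num
  have h6 : (7 / 10 : ℝ) ^ m * (10 / 7 : ℝ) ^ m = 1 := by
    rw [← mul_pow]
    norm_num
  calc (TW m : ℝ) = ((7 / 10 : ℝ) ^ m * (TW m : ℝ)) * (10 / 7 : ℝ) ^ m := by
        rw [mul_right_comm, h6, one_mul]
    _ ≤ 1100 * (10 / 7 : ℝ) ^ m := mul_le_mul_of_nonneg_right h5 (by positivity)

/-- `x c = (4/5)^c (1 + v^c)`, `v = 6851/10000` (the product up to `c = 16` is at most `665.2`, the
tail sum at most `0.113`); the factor for `c` is the sum over the subsets -/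
theorem TV_le (m : ℕ) :
    ∑ τ ∈ TNW m, (τ.map (fun c => 1 + (6851 / 10000 : ℝ) ^ c)).prod ≤ 755 * (5 / 4 : ℝ) ^ m := by
  have hx0 : ∀ c : ℕ, 0 ≤ (4 / 5 : ℝ) ^ c * (1 + (6851 / 10000 : ℝ) ^ c) := fun c => by positivity
  have hx1 : ∀ c : ℕ, 2 ≤ c → (4 / 5 : ℝ) ^ c * (1 + (6851 / 10000 : ℝ) ^ c) < 1 := by
    intro c hc
    have e1 : (4 / 5 : ℝ) ^ c ≤ (4 / 5 : ℝ) ^ 2 :=
      pow_le_pow_of_le_one (by norm_num) (by norm_num) hc
    have e2 : (6851 / 10000 : ℝ) ^ c ≤ (6851 / 10000 : ℝ) ^ 2 :=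
      pow_le_pow_of_le_one (by norm_num) (by norm_num) hc
    calc (4 / 5 : ℝ) ^ c * (1 + (6851 / 10000 : ℝ) ^ c) ≤
        (4 / 5 : ℝ) ^ 2 * (1 + (6851 / 10000 : ℝ) ^ 2) := by
          apply mul_le_mul e1 (by linarith) (by positivity) (by positivity)
      _ < 1 := by norm_num
  have h1 := TNW_prod_le (m := m) (fun c => (4 / 5 : ℝ) ^ c * (1 + (6851 / 10000 : ℝ) ^ c)) hx0
    (fun c hc => hx1 c (Finset.mem_Icc.1 hc).1)
  have h2 : ∑ τ ∈ TNW m, (τ.map (fun c => (4 / 5 : ℝ) ^ c * (1 + (6851 / 10000 : ℝ) ^ c))).prod =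
      (4 / 5 : ℝ) ^ m * ∑ τ ∈ TNW m, (τ.map (fun c => 1 + (6851 / 10000 : ℝ) ^ c)).prod := by
    rw [Finset.mul_sum]
    refine Finset.sum_congr rfl fun τ hτ => ?_
    rw [ft3_pow_prod, (ft3_mem hτ).2]
  have h3 : ∑ c ∈ Finset.Icc (16 + 1) m, (4 / 5 : ℝ) ^ c * (1 + (6851 / 10000 : ℝ) ^ c) ≤
      113 / 1000 := by
    have e1 := bsum_geom (q := 4 / 5) (by norm_num) (by norm_num) 16 m
    have e2 : ∀ c ∈ Finset.Icc (16 + 1) m, (4 / 5 : ℝ) ^ c * (1 + (6851 / 10000 : ℝ) ^ c) ≤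
        (4 / 5 : ℝ) ^ c * (1 + (6851 / 10000 : ℝ) ^ 17) := by
      intro c hc
      have h17 : 17 ≤ c := (Finset.mem_Icc.1 hc).1
      have e3 : (6851 / 10000 : ℝ) ^ c ≤ (6851 / 10000 : ℝ) ^ 17 :=
        pow_le_pow_of_le_one (by norm_num) (by norm_num) h17
      exact mul_le_mul_of_nonneg_left (by linarith) (by positivity)
    refine (Finset.sum_le_sum e2).trans ?_
    rw [← Finset.sum_mul]
    calc (∑ c ∈ Finset.Icc (16 + 1) m, (4 / 5 : ℝ) ^ c) * (1 + (6851 / 10000 : ℝ) ^ 17) ≤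
        ((4 / 5 : ℝ) ^ (16 + 1) / (1 - 4 / 5)) * (1 + (6851 / 10000 : ℝ) ^ 17) :=
          mul_le_mul_of_nonneg_right e1 (by positivity)
      _ ≤ 113 / 1000 := by norm_num
  have h4 := ft3_split (fun c => (4 / 5 : ℝ) ^ c * (1 + (6851 / 10000 : ℝ) ^ c)) hx0 hx1 16 m
    (by norm_num) (by norm_num) (by norm_num) ft3_V h3
  rw [h2] at h1
  set Z : ℝ := ∑ τ ∈ TNW m, (τ.map (fun c => 1 + (6851 / 10000 : ℝ) ^ c)).prod with hZ
  have h5 : (4 / 5 : ℝ) ^ m * Z ≤ 755 := by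
    refine (h1.trans h4).trans ?_
    norm_num
  have h6 : (4 / 5 : ℝ) ^ m * (5 / 4 : ℝ) ^ m = 1 := by
    rw [← mul_pow]
    norm_num
  calc Z = ((4 / 5 : ℝ) ^ m * Z) * (5 / 4 : ℝ) ^ m := by
        rw [mul_right_comm, h6, one_mul]
    _ ≤ 755 * (5 / 4 : ℝ) ^ m := mul_le_mul_of_nonneg_right h5 (by positivity)

private theorem ft3_powerset (X : ℝ) (τ : Multiset ℕ) :
    (τ.map (fun x => 1 + X ^ x)).prod = (τ.powerset.map (fun B => X ^ B.sum)).sum := by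
  induction τ using Multiset.induction_on with
  | empty => simp
  | cons a s ih =>
    rw [Multiset.map_cons, Multiset.prod_cons, Multiset.powerset_cons, Multiset.map_add,
      Multiset.sum_add, ih, add_mul, one_mul, Multiset.map_map]
    congr 1
    rw [← Multiset.sum_map_mul_left]
    refine congrArg Multiset.sum (Multiset.map_congr rfl fun B _ => ?_)
    simp [pow_add]

private theorem ft3_geom {v : ℝ} (h0 : 0 < v) (h1 : v < 1) (N s : ℕ) :
    ∑ k ∈ Finset.Icc 1 N, (if s ≤ k then v ^ k else 0) ≤ v ^ s / (1 - v) := by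
  rw [← Finset.sum_filter]
  have hv : 0 < 1 - v := by linarith
  rcases Nat.eq_zero_or_pos s with hs | hs
  · subst hs
    have e1 : (Finset.Icc 1 N).filter (fun k => 0 ≤ k) = Finset.Icc (0 + 1) N := by
      rw [Finset.filter_true_of_mem (fun _ _ => Nat.zero_le _)]
    rw [e1]
    refine (bsum_geom h0 h1 0 N).trans ?_
    apply div_le_div_of_nonneg_right _ hv.le
    simpa using h1.le
  · obtain ⟨a, rfl⟩ : ∃ a, s = a + 1 := ⟨s - 1, by omega⟩
    have e1 : (Finset.Icc 1 N).filter (fun k => a + 1 ≤ k) = Finset.Icc (a + 1) N := by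
      ext k
      simp only [Finset.mem_filter, Finset.mem_Icc]
      omega
    rw [e1]
    exact bsum_geom h0 h1 a N

private theorem ft3_count {v : ℝ} (h0 : 0 < v) (h1 : v < 1) (N : ℕ) (M : Multiset (Multiset ℕ)) :
    ∑ k ∈ Finset.Icc 1 N, (Multiset.card (M.filter (fun B => B.sum ≤ k)) : ℝ) * v ^ k ≤
      (1 - v)⁻¹ * (M.map (fun B => v ^ B.sum)).sum := by
  induction M using Multiset.induction_on with
  | empty => simp
  | cons a s ih =>
    have e1 : ∀ k : ℕ, (Multiset.card ((a ::ₘ s).filter (fun B => B.sum ≤ k)) : ℝ) * v ^ k =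
        (if a.sum ≤ k then v ^ k else 0) +
          (Multiset.card (s.filter (fun B => B.sum ≤ k)) : ℝ) * v ^ k := by
      intro k
      by_cases h2 : a.sum ≤ k
      · rw [Multiset.filter_cons_of_pos (p := fun B : Multiset ℕ => B.sum ≤ k) s h2,
          Multiset.card_cons, if_pos h2]
        push_cast
        ring
      · rw [Multiset.filter_cons_of_neg (p := fun B : Multiset ℕ => B.sum ≤ k) s h2, if_neg h2,
          zero_add]
    rw [Finset.sum_congr rfl (fun k _ => e1 k), Finset.sum_add_distrib, Multiset.map_cons,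
      Multiset.sum_cons, mul_add]
    refine add_le_add ?_ ih
    refine (ft3_geom h0 h1 N a.sum).trans_eq ?_
    rw [div_eq_inv_mul]

/-- `∑_k TS m k v^k ≤ (1/(1-v)) ∑_τ ∏ (1 + v^c)`: `cS τ k` is the number of submultisets (with
multiplicity, `Multiset.powerset`) with sum at most `k`; `∑_(k ≥ s) v^k ≤ v^s / (1 - v)`;
`∑_(B in powerset τ) v^(sum B) = ∏ (1 + v^c)` (compare FD05 `prod_one_add`) -/
theorem TSv_le (m : ℕ) :
    ∑ k ∈ Finset.Icc 1 (m / 2), (TS m k : ℝ) * (6851 / 10000 : ℝ) ^ k ≤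
      2400 * (5 / 4 : ℝ) ^ m := by
  have h1 : ∑ k ∈ Finset.Icc 1 (m / 2), (TS m k : ℝ) * (6851 / 10000 : ℝ) ^ k =
      ∑ τ ∈ TNW m, ∑ k ∈ Finset.Icc 1 (m / 2), (cS τ k : ℝ) * (6851 / 10000 : ℝ) ^ k := by
    rw [Finset.sum_comm]
    refine Finset.sum_congr rfl fun k _ => ?_
    unfold TS
    push_cast
    rw [Finset.sum_mul]
  have h2 : ∀ τ ∈ TNW m, ∑ k ∈ Finset.Icc 1 (m / 2), (cS τ k : ℝ) * (6851 / 10000 : ℝ) ^ k ≤
      (1 - 6851 / 10000 : ℝ)⁻¹ * (τ.map (fun c => 1 + (6851 / 10000 : ℝ) ^ c)).prod := by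
    intro τ _
    rw [ft3_powerset]
    exact ft3_count (by norm_num) (by norm_num) (m / 2) τ.powerset
  rw [h1]
  refine (Finset.sum_le_sum h2).trans ?_
  rw [← Finset.mul_sum]
  have h3 := TV_le m
  have h4 : (0 : ℝ) < (5 / 4 : ℝ) ^ m := by positivity
  calc (1 - 6851 / 10000 : ℝ)⁻¹ * ∑ τ ∈ TNW m, (τ.map (fun c => 1 + (6851 / 10000 : ℝ) ^ c)).prod ≤
      (1 - 6851 / 10000 : ℝ)⁻¹ * (755 * (5 / 4 : ℝ) ^ m) :=
        mul_le_mul_of_nonneg_left h3 (by norm_num)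
    _ ≤ 2400 * (5 / 4 : ℝ) ^ m := by
      rw [← mul_assoc]
      exact mul_le_mul_of_nonneg_right (by norm_num) h4.le

end Pool.MP322F
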