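import Pool.Agent.Lib.MP_322c5f_alF.FT03
import Pool.Agent.Lib.MP_322c5f_alF.FC01

/-! The first range. -/

set_option autoImplicit false

open Finset Equiv Nat

namespace Pool.MP322F

open Pool.MP322

private theorem ft4_mem {m : ℕ} {τ : Multiset ℕ} (hτ : τ ∈ TNW m) :
    (∀ c ∈ τ, c ∈ Finset.Icc 2 m) ∧ τ.sum = m := by
  unfold TNW at hτ
  rw [Finset.mem_filter] at hτ
  refine ⟨?_, hτ.2⟩
  intro c hc
  rw [Finset.mem_Icc]
  refine ⟨(bsum_mem hτ.1).1 c hc, ?_⟩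
  rw [← hτ.2]
  exact Multiset.single_le_sum (fun _ _ => Nat.zero_le _) c hc


private theorem ft4_one_le (S : Finset ℕ) (f : ℕ → ℝ) (h : ∀ c ∈ S, 1 ≤ f c) :
    1 ≤ ∏ c ∈ S, f c := by
  classical
  induction S using Finset.induction_on with
  | empty => simp
  | insert a S ha ih =>
    rw [Finset.prod_insert ha]
    exact one_le_mul_of_one_le_of_one_le (h a (Finset.mem_insert_self a S))
      (ih fun c hc => h c (Finset.mem_insert_of_mem hc))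


private theorem ft4_split (x : ℕ → ℝ) (h0 : ∀ c, 0 ≤ x c) (h1 : ∀ c, 2 ≤ c → x c < 1) (c0 m : ℕ)
    (hc0 : 2 ≤ c0) {a s : ℝ} (hs : s < 1) (hs0 : 0 ≤ s)
    (ha : ∏ c ∈ Finset.Icc 2 c0, (1 - x c)⁻¹ ≤ a)
    (hb : ∑ c ∈ Finset.Icc (c0 + 1) m, x c ≤ s) :
    ∏ c ∈ Finset.Icc 2 m, (1 - x c)⁻¹ ≤ a * (1 - s)⁻¹ := by
  have hge : ∀ c, 2 ≤ c → 1 ≤ (1 - x c)⁻¹ := by
    intro c hc
    have := h0 c
    have := h1 c hc
    exact (one_le_inv₀ (by linarith)).2 (by linarith)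
  have hP : 0 ≤ ∏ c ∈ Finset.Icc 2 c0, (1 - x c)⁻¹ :=
    Finset.prod_nonneg fun c hc => by
      have := hge c (Finset.mem_Icc.1 hc).1
      linarith
  have ha0 : 0 ≤ a := hP.trans ha
  have hi : 1 ≤ (1 - s)⁻¹ := (one_le_inv₀ (by linarith)).2 (by linarith)
  rcases Nat.lt_or_ge m (c0 + 1) with hm | hm
  · have h3 : ∏ c ∈ Finset.Icc 2 m, (1 - x c)⁻¹ ≤ ∏ c ∈ Finset.Icc 2 c0, (1 - x c)⁻¹ := by
      have hsub : Finset.Icc 2 m ⊆ Finset.Icc 2 c0 := Finset.Icc_subset_Icc le_rfl (by omega)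
      rw [← Finset.prod_sdiff hsub]
      refine le_mul_of_one_le_left (Finset.prod_nonneg fun c hc => ?_) (ft4_one_le _ _ ?_)
      · have := hge c (Finset.mem_Icc.1 hc).1
        linarith
      · intro c hc
        exact hge c (Finset.mem_Icc.1 (Finset.mem_sdiff.1 hc).1).1
    calc ∏ c ∈ Finset.Icc 2 m, (1 - x c)⁻¹ ≤ a := h3.trans ha
      _ ≤ a * (1 - s)⁻¹ := le_mul_of_one_le_right ha0 hi
  · have h3 : Finset.Icc 2 m = Finset.Icc 2 c0 ∪ Finset.Icc (c0 + 1) m := by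
      ext c
      simp only [Finset.mem_union, Finset.mem_Icc]
      omega
    rw [h3, Finset.prod_union]
    · refine mul_le_mul ha (prod_tail_le x h0 hs hb) ?_ ha0
      exact Finset.prod_nonneg fun c hc => by
        have := hge c (by have := (Finset.mem_Icc.1 hc).1; omega)
        linarith
    · rw [Finset.disjoint_left]
      intro c h4 h5
      rw [Finset.mem_Icc] at h4 h5
      omega


private theorem ft4_pow_prod (q : ℝ) (f : ℕ → ℝ) (τ : Multiset ℕ) :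
    (τ.map (fun c => q ^ c * f c)).prod = q ^ τ.sum * (τ.map f).prod := by
  induction τ using Multiset.induction_on with
  | empty => simp
  | cons a s ih =>
    rw [Multiset.map_cons, Multiset.prod_cons, ih, Multiset.sum_cons, Multiset.map_cons,
      Multiset.prod_cons, pow_add]
    ring


private theorem ft4_V : ∏ c ∈ Finset.Icc 2 16, (1 - (4 / 5 : ℝ) ^ c * (1 + (813 / 1250 : ℝ) ^ c))⁻¹ ≤
    3839 / 10 := by
  have h : Finset.Icc 2 16 = ({2, 3, 4, 5, 6, 7, 8, 9, 10, 11, 12, 13, 14, 15, 16} : Finset ℕ) := by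
    decide
  rw [h]
  norm_num


private theorem ft4_TV (m : ℕ) :
    ∑ τ ∈ TNW m, (τ.map (fun c => 1 + (813 / 1250 : ℝ) ^ c)).prod ≤ 433 * (5 / 4 : ℝ) ^ m := by
  have hx0 : ∀ c : ℕ, 0 ≤ (4 / 5 : ℝ) ^ c * (1 + (813 / 1250 : ℝ) ^ c) := fun c => by positivity
  have hx1 : ∀ c : ℕ, 2 ≤ c → (4 / 5 : ℝ) ^ c * (1 + (813 / 1250 : ℝ) ^ c) < 1 := by
    intro c hc
    have e1 : (4 / 5 : ℝ) ^ c ≤ (4 / 5 : ℝ) ^ 2 :=
      pow_le_pow_of_le_one (by norm_num) (by norm_num) hc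
    have e2 : (813 / 1250 : ℝ) ^ c ≤ (813 / 1250 : ℝ) ^ 2 :=
      pow_le_pow_of_le_one (by norm_num) (by norm_num) hc
    calc (4 / 5 : ℝ) ^ c * (1 + (813 / 1250 : ℝ) ^ c) ≤
        (4 / 5 : ℝ) ^ 2 * (1 + (813 / 1250 : ℝ) ^ 2) := by
          apply mul_le_mul e1 (by linarith) (by positivity) (by positivity)
      _ < 1 := by norm_num
  have h1 := TNW_prod_le (m := m) (fun c => (4 / 5 : ℝ) ^ c * (1 + (813 / 1250 : ℝ) ^ c)) hx0
    (fun c hc => hx1 c (Finset.mem_Icc.1 hc).1)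
  have h2 : ∑ τ ∈ TNW m, (τ.map (fun c => (4 / 5 : ℝ) ^ c * (1 + (813 / 1250 : ℝ) ^ c))).prod =
      (4 / 5 : ℝ) ^ m * ∑ τ ∈ TNW m, (τ.map (fun c => 1 + (813 / 1250 : ℝ) ^ c)).prod := by
    rw [Finset.mul_sum]
    refine Finset.sum_congr rfl fun τ hτ => ?_
    rw [ft4_pow_prod, (ft4_mem hτ).2]
  have h3 : ∑ c ∈ Finset.Icc (16 + 1) m, (4 / 5 : ℝ) ^ c * (1 + (813 / 1250 : ℝ) ^ c) ≤
      113 / 1000 := by
    have e1 := bsum_geom (q := 4 / 5) (by norm_num) (by norm_num) 16 m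
    have e2 : ∀ c ∈ Finset.Icc (16 + 1) m, (4 / 5 : ℝ) ^ c * (1 + (813 / 1250 : ℝ) ^ c) ≤
        (4 / 5 : ℝ) ^ c * (1 + (813 / 1250 : ℝ) ^ 17) := by
      intro c hc
      have h17 : 17 ≤ c := (Finset.mem_Icc.1 hc).1
      have e3 : (813 / 1250 : ℝ) ^ c ≤ (813 / 1250 : ℝ) ^ 17 :=
        pow_le_pow_of_le_one (by norm_num) (by norm_num) h17
      exact mul_le_mul_of_nonneg_left (by linarith) (by positivity)
    refine (Finset.sum_le_sum e2).trans ?_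
    rw [← Finset.sum_mul]
    calc (∑ c ∈ Finset.Icc (16 + 1) m, (4 / 5 : ℝ) ^ c) * (1 + (813 / 1250 : ℝ) ^ 17) ≤
        ((4 / 5 : ℝ) ^ (16 + 1) / (1 - 4 / 5)) * (1 + (813 / 1250 : ℝ) ^ 17) :=
          mul_le_mul_of_nonneg_right e1 (by positivity)
      _ ≤ 113 / 1000 := by norm_num
  have h4 := ft4_split (fun c => (4 / 5 : ℝ) ^ c * (1 + (813 / 1250 : ℝ) ^ c)) hx0 hx1 16 m
    (by norm_num) (by norm_num) (by norm_num) ft4_V h3
  rw [h2] at h1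
  set Z : ℝ := ∑ τ ∈ TNW m, (τ.map (fun c => 1 + (813 / 1250 : ℝ) ^ c)).prod with hZ
  have h5 : (4 / 5 : ℝ) ^ m * Z ≤ 433 := by
    refine (h1.trans h4).trans ?_
    norm_num
  have h6 : (4 / 5 : ℝ) ^ m * (5 / 4 : ℝ) ^ m = 1 := by
    rw [← mul_pow]
    norm_num
  calc Z = ((4 / 5 : ℝ) ^ m * Z) * (5 / 4 : ℝ) ^ m := by
        rw [mul_right_comm, h6, one_mul]
    _ ≤ 433 * (5 / 4 : ℝ) ^ m := mul_le_mul_of_nonneg_right h5 (by positivity)


private theorem ft4_powerset (X : ℝ) (τ : Multiset ℕ) :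
    (τ.map (fun x => 1 + X ^ x)).prod = (τ.powerset.map (fun B => X ^ B.sum)).sum := by
  induction τ using Multiset.induction_on with
  | empty => simp
  | cons a s ih =>
    rw [Multiset.map_cons, Multiset.prod_cons, Multiset.powerset_cons, Multiset.map_add,
      Multiset.sum_add, ih, add_mul, one_mul, Multiset.map_map]
    congr 1
    rw [← Multiset.sum_map_mul_left]
    refine congrArg Multiset.sum (Multiset.map_congr rfl fun B _ => ?_)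
    simp [pow_add]


private theorem ft4_geom {v : ℝ} (h0 : 0 < v) (h1 : v < 1) (N s : ℕ) :
    ∑ k ∈ Finset.Icc 1 N, (if s ≤ k then v ^ k else 0) ≤ v ^ s / (1 - v) := by
  rw [← Finset.sum_filter]
  have hv : 0 < 1 - v := by linarith
  rcases Nat.eq_zero_or_pos s with hs | hs
  · subst hs
    have e1 : (Finset.Icc 1 N).filter (fun k => 0 ≤ k) = Finset.Icc (0 + 1) N := by
      rw [Finset.filter_true_of_mem (fun _ _ => Nat.zero_le _)]
    rw [e1]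
    refine (bsum_geom h0 h1 0 N).trans ?_
    apply div_le_div_of_nonneg_right _ hv.le
    simpa using h1.le
  · obtain ⟨a, rfl⟩ : ∃ a, s = a + 1 := ⟨s - 1, by omega⟩
    have e1 : (Finset.Icc 1 N).filter (fun k => a + 1 ≤ k) = Finset.Icc (a + 1) N := by
      ext k
      simp only [Finset.mem_filter, Finset.mem_Icc]
      omega
    rw [e1]
    exact bsum_geom h0 h1 a N


private theorem ft4_count {v : ℝ} (h0 : 0 < v) (h1 : v < 1) (N : ℕ) (M : Multiset (Multiset ℕ)) :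
    ∑ k ∈ Finset.Icc 1 N, (Multiset.card (M.filter (fun B => B.sum ≤ k)) : ℝ) * v ^ k ≤
      (1 - v)⁻¹ * (M.map (fun B => v ^ B.sum)).sum := by
  induction M using Multiset.induction_on with
  | empty => simp
  | cons a s ih =>
    have e1 : ∀ k : ℕ, (Multiset.card ((a ::ₘ s).filter (fun B => B.sum ≤ k)) : ℝ) * v ^ k =
        (if a.sum ≤ k then v ^ k else 0) +
          (Multiset.card (s.filter (fun B => B.sum ≤ k)) : ℝ) * v ^ k := by
      intro k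
      by_cases h2 : a.sum ≤ k
      · rw [Multiset.filter_cons_of_pos (p := fun B : Multiset ℕ => B.sum ≤ k) s h2,
          Multiset.card_cons, if_pos h2]
        push_cast
        ring
      · rw [Multiset.filter_cons_of_neg (p := fun B : Multiset ℕ => B.sum ≤ k) s h2, if_neg h2,
          zero_add]
    rw [Finset.sum_congr rfl (fun k _ => e1 k), Finset.sum_add_distrib, Multiset.map_cons,
      Multiset.sum_cons, mul_add]
    refine add_le_add ?_ ih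
    refine (ft4_geom h0 h1 N a.sum).trans_eq ?_
    rw [div_eq_inv_mul]


private theorem ft4_TSv (m : ℕ) :
    ∑ k ∈ Finset.Icc 1 (m / 2), (TS m k : ℝ) * (813 / 1250 : ℝ) ^ k ≤
      1250 * (5 / 4 : ℝ) ^ m := by
  have h1 : ∑ k ∈ Finset.Icc 1 (m / 2), (TS m k : ℝ) * (813 / 1250 : ℝ) ^ k =
      ∑ τ ∈ TNW m, ∑ k ∈ Finset.Icc 1 (m / 2), (cS τ k : ℝ) * (813 / 1250 : ℝ) ^ k := by
    rw [Finset.sum_comm]
    refine Finset.sum_congr rfl fun k _ => ?_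
    unfold TS
    push_cast
    rw [Finset.sum_mul]
  have h2 : ∀ τ ∈ TNW m, ∑ k ∈ Finset.Icc 1 (m / 2), (cS τ k : ℝ) * (813 / 1250 : ℝ) ^ k ≤
      (1 - 813 / 1250 : ℝ)⁻¹ * (τ.map (fun c => 1 + (813 / 1250 : ℝ) ^ c)).prod := by
    intro τ _
    rw [ft4_powerset]
    exact ft4_count (by norm_num) (by norm_num) (m / 2) τ.powerset
  rw [h1]
  refine (Finset.sum_le_sum h2).trans ?_
  rw [← Finset.mul_sum]
  have h3 := ft4_TV m
  have h4 : (0 : ℝ) < (5 / 4 : ℝ) ^ m := by positivity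
  calc (1 - 813 / 1250 : ℝ)⁻¹ * ∑ τ ∈ TNW m, (τ.map (fun c => 1 + (813 / 1250 : ℝ) ^ c)).prod ≤
      (1 - 813 / 1250 : ℝ)⁻¹ * (433 * (5 / 4 : ℝ) ^ m) :=
        mul_le_mul_of_nonneg_left h3 (by norm_num)
    _ ≤ 1250 * (5 / 4 : ℝ) ^ m := by
      rw [← mul_assoc]
      exact mul_le_mul_of_nonneg_right (by norm_num) h4.le


theorem rh_nonneg {m k : ℕ} (hk : k ∈ Finset.Icc 1 (m / 2)) : 0 ≤ rh m k := by
  rw [Finset.mem_Icc] at hk
  have h1 : 0 < Dl m k := Dl_pos (by omega)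
  have h2 : (0 : ℝ) < (Dl m k : ℝ) := by exact_mod_cast h1
  unfold rh
  positivity

private theorem ft4_ratio {m k : ℕ} (hk : 1 ≤ k) (hkm : 2 * k ≤ m) :
    ((m - 1).choose k : ℝ) ≤ (m : ℝ) * (Dl m k : ℝ) := by
  obtain ⟨n, rfl⟩ : ∃ n, m = n + 1 := ⟨m - 1, by omega⟩
  have e1 := Dl_mul (n := n + 1) (k := k) (by omega)
  have e2 := Nat.choose_mul_succ_eq n k
  have e3 : ((n + 1 - k : ℕ) : ℤ) = (n : ℤ) + 1 - k := by
    rw [Nat.cast_sub (by omega)]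
    push_cast
    ring
  have e4 : (n.choose k : ℤ) * ((n : ℤ) + 1) = ((n + 1).choose k : ℤ) * ((n : ℤ) + 1 - k) := by
    rw [← e3]
    exact_mod_cast e2
  push_cast at e1
  have hk' : (2 * k : ℤ) ≤ n + 1 := by exact_mod_cast hkm
  have hk1 : (1 : ℤ) ≤ k := by exact_mod_cast hk
  have hD : 0 < Dl (n + 1) k := Dl_pos hkm
  have hC : (0 : ℤ) ≤ ((n + 1).choose k : ℤ) := Int.natCast_nonneg _
  -- (n+1) * C(n,k) = C(n+1,k) (n+1-k), C(n+1,k) (n+2-2k) = D (n+2-k)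
  have key : (n.choose k : ℤ) ≤ ((n : ℤ) + 1) * Dl (n + 1) k := by
    have hpos : (0 : ℤ) < ((n : ℤ) + 1) := by positivity
    have h1 : ((n + 1).choose k : ℤ) ≤ Dl (n + 1) k * ((n : ℤ) + 1 - k + 1) := by
      rw [e1]
      nlinarith
    have h2 : (n.choose k : ℤ) * ((n : ℤ) + 1) ≤ ((n : ℤ) + 1) * Dl (n + 1) k * ((n : ℤ) + 1) := by
      rw [e4]
      have h3 : (0 : ℤ) ≤ (n : ℤ) + 1 - k := by linarith
      calc ((n + 1).choose k : ℤ) * ((n : ℤ) + 1 - k) ≤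
          (Dl (n + 1) k * ((n : ℤ) + 1 - k + 1)) * ((n : ℤ) + 1 - k) :=
            mul_le_mul_of_nonneg_right h1 h3
        _ = Dl (n + 1) k * (((n : ℤ) + 1 - k + 1) * ((n : ℤ) + 1 - k)) := by ring
        _ ≤ Dl (n + 1) k * (((n : ℤ) + 1) * ((n : ℤ) + 1)) := by
            apply mul_le_mul_of_nonneg_left _ hD.le
            apply mul_le_mul <;> linarith
        _ = ((n : ℤ) + 1) * Dl (n + 1) k * ((n : ℤ) + 1) := by ring
    exact le_of_mul_le_mul_right h2 hpos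
  have : ((n.choose k : ℤ) : ℝ) ≤ (((n : ℤ) + 1) * Dl (n + 1) k : ℤ) := by exact_mod_cast key
  push_cast at this
  simpa using this

private theorem ft4_central {k : ℕ} (hk : 1 ≤ k) :
    (4 : ℝ) ^ k ≤ 4 * (k : ℝ) * ((2 * k - 1).choose k : ℝ) := by
  have h1 := Nat.four_pow_le_two_mul_self_mul_centralBinom k hk
  obtain ⟨j, rfl⟩ : ∃ j, k = j + 1 := ⟨k - 1, by omega⟩
  have h2 : Nat.centralBinom (j + 1) = 2 * (2 * (j + 1) - 1).choose (j + 1) := by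
    have e1 : 2 * (j + 1) - 1 = 2 * j + 1 := by omega
    rw [Nat.centralBinom_eq_two_mul_choose, e1]
    have e2 : 2 * (j + 1) = (2 * j + 1) + 1 := by ring
    rw [e2, Nat.choose_succ_succ]
    have e3 : (2 * j + 1).choose j = (2 * j + 1).choose (j + 1) := by
      rw [← Nat.choose_symm_half]
    rw [e3]
    ring
  rw [h2] at h1
  have h3 : ((4 ^ (j + 1) : ℕ) : ℝ) ≤ ((2 * (j + 1) * (2 * (2 * (j + 1) - 1).choose (j + 1)) : ℕ) : ℝ) := by
    exact_mod_cast h1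
  push_cast at h3 ⊢
  linarith

/-- `C(m-1,k) / Dl m k = (m-k)(m-k+1) / (m (m-2k+1)) ≤ m` (`Dl_mul`), `C(2k-1,k) = C(2k,k)/2 ≥ 4^k/(4k)`
(`Nat.four_pow_le_two_mul_self_mul_centralBinom`), `4k ≤ 2m`, `1/(4 θ²) ≤ v` (`θ = 31/50`) -/
theorem rh_le {m k : ℕ} (hk : k ∈ Finset.Icc 1 (m / 2)) :
    rh m k * (31 / 50 : ℝ) ^ (m - 2 * k) ≤
      2 * (m : ℝ) ^ 2 * (31 / 50 : ℝ) ^ m * ((TS m k : ℝ) * (813 / 1250 : ℝ) ^ k) := by
  rw [Finset.mem_Icc] at hk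
  have hk1 : 1 ≤ k := hk.1
  have hkm : 2 * k ≤ m := by omega
  have hD : (0 : ℝ) < (Dl m k : ℝ) := by exact_mod_cast Dl_pos hkm
  have h1 := ft4_ratio hk1 hkm
  have h2 := ft4_central hk1
  have hC : (0 : ℝ) < ((2 * k - 1).choose k : ℝ) := by
    exact_mod_cast Nat.choose_pos (by omega)
  have hkm' : 2 * (k : ℝ) ≤ m := by exact_mod_cast hkm
  have hT : (0 : ℝ) ≤ (TS m k : ℝ) := Nat.cast_nonneg _
  have hm0 : (0 : ℝ) ≤ m := Nat.cast_nonneg _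
  -- the two factors
  have f1 : ((m - 1).choose k : ℝ) / (Dl m k : ℝ) ≤ m := by
    rw [div_le_iff₀ hD]
    exact h1
  have f2 : 1 / ((2 * k - 1).choose k : ℝ) ≤ 2 * m / (4 : ℝ) ^ k := by
    rw [div_le_div_iff₀ hC (by positivity), one_mul]
    calc (4 : ℝ) ^ k ≤ 4 * (k : ℝ) * ((2 * k - 1).choose k : ℝ) := h2
      _ ≤ 2 * m * ((2 * k - 1).choose k : ℝ) := by
          apply mul_le_mul_of_nonneg_right _ hC.le
          linarith
  have f3 : rh m k ≤ (TS m k : ℝ) * (m * (2 * m / (4 : ℝ) ^ k)) := by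
    have e : rh m k = (TS m k : ℝ) * ((((m - 1).choose k : ℝ) / (Dl m k : ℝ)) *
        (1 / ((2 * k - 1).choose k : ℝ))) := by
      unfold rh
      ring
    rw [e]
    apply mul_le_mul_of_nonneg_left _ hT
    apply mul_le_mul f1 f2 (by positivity) hm0
  have hpow : (31 / 50 : ℝ) ^ m = (31 / 50 : ℝ) ^ (m - 2 * k) * ((31 / 50 : ℝ) ^ 2) ^ k := by
    rw [← pow_mul, ← pow_add]
    congr 1
    omega
  have f4 : (1 : ℝ) / (4 : ℝ) ^ k ≤ ((31 / 50 : ℝ) ^ 2) ^ k * (813 / 1250 : ℝ) ^ k := by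
    rw [div_le_iff₀ (by positivity), ← mul_pow, ← mul_pow]
    exact one_le_pow₀ (by norm_num)
  calc rh m k * (31 / 50 : ℝ) ^ (m - 2 * k) ≤
      ((TS m k : ℝ) * (m * (2 * m / (4 : ℝ) ^ k))) * (31 / 50 : ℝ) ^ (m - 2 * k) :=
        mul_le_mul_of_nonneg_right f3 (by positivity)
    _ = (2 * (m : ℝ) ^ 2 * (31 / 50 : ℝ) ^ (m - 2 * k) * (TS m k : ℝ)) * (1 / (4 : ℝ) ^ k) := by
        ring
    _ ≤ (2 * (m : ℝ) ^ 2 * (31 / 50 : ℝ) ^ (m - 2 * k) * (TS m k : ℝ)) *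
        (((31 / 50 : ℝ) ^ 2) ^ k * (813 / 1250 : ℝ) ^ k) :=
          mul_le_mul_of_nonneg_left f4 (by positivity)
    _ = 2 * (m : ℝ) ^ 2 * (31 / 50 : ℝ) ^ m * ((TS m k : ℝ) * (813 / 1250 : ℝ) ^ k) := by
        rw [hpow]
        ring

private theorem ft4_num (j : ℕ) :
    6875 * ((j : ℝ) + 101) ^ 2 * (31 / 40 : ℝ) ^ (j + 101) ≤ (1 / 2000) * (4 / 5 : ℝ) ^ j := by
  induction j with
  | zero => norm_num
  | succ j ih =>
    have hj : (0 : ℝ) ≤ j := Nat.cast_nonneg _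
    have h1 : (((j + 1 : ℕ) : ℝ) + 101) ^ 2 * (31 / 40 : ℝ) ≤ ((j : ℝ) + 101) ^ 2 * (4 / 5) := by
      push_cast
      nlinarith
    have h2 : (0 : ℝ) ≤ 6875 * (31 / 40 : ℝ) ^ (j + 101) := by positivity
    calc 6875 * (((j + 1 : ℕ) : ℝ) + 101) ^ 2 * (31 / 40 : ℝ) ^ (j + 1 + 101) =
        (6875 * (31 / 40 : ℝ) ^ (j + 101)) * ((((j + 1 : ℕ) : ℝ) + 101) ^ 2 * (31 / 40 : ℝ)) := by
          rw [show j + 1 + 101 = (j + 101) + 1 by ring, pow_succ]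
          ring
      _ ≤ (6875 * (31 / 40 : ℝ) ^ (j + 101)) * (((j : ℝ) + 101) ^ 2 * (4 / 5)) :=
          mul_le_mul_of_nonneg_left h1 h2
      _ = (6875 * ((j : ℝ) + 101) ^ 2 * (31 / 40 : ℝ) ^ (j + 101)) * (4 / 5) := by ring
      _ ≤ ((1 / 2000) * (4 / 5 : ℝ) ^ j) * (4 / 5) :=
          mul_le_mul_of_nonneg_right ih (by norm_num)
      _ = (1 / 2000) * (4 / 5 : ℝ) ^ (j + 1) := by rw [pow_succ]; ring

/-- `(11/4) * 2 * 1250 * m^2 * (31/40)^m`; induction from `m = 101` (value `4.7e-4`) -/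
theorem rh_sum_le {m : ℕ} (hm : 101 ≤ m) :
    (11 / 4) * ∑ k ∈ Finset.Icc 1 (m / 2), rh m k * (31 / 50 : ℝ) ^ (m - 2 * k) ≤
      (1 / 2000) * (4 / 5 : ℝ) ^ (m - 101) := by
  have h1 : ∑ k ∈ Finset.Icc 1 (m / 2), rh m k * (31 / 50 : ℝ) ^ (m - 2 * k) ≤
      2 * (m : ℝ) ^ 2 * (31 / 50 : ℝ) ^ m *
        ∑ k ∈ Finset.Icc 1 (m / 2), (TS m k : ℝ) * (813 / 1250 : ℝ) ^ k := by
    rw [Finset.mul_sum]
    exact Finset.sum_le_sum fun k hk => rh_le hk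
  have h2 := ft4_TSv m
  have h3 : 2 * (m : ℝ) ^ 2 * (31 / 50 : ℝ) ^ m *
        ∑ k ∈ Finset.Icc 1 (m / 2), (TS m k : ℝ) * (813 / 1250 : ℝ) ^ k ≤
      2 * (m : ℝ) ^ 2 * (31 / 50 : ℝ) ^ m * (1250 * (5 / 4 : ℝ) ^ m) :=
    mul_le_mul_of_nonneg_left h2 (by positivity)
  have h4 : (31 / 50 : ℝ) ^ m * (5 / 4 : ℝ) ^ m = (31 / 40 : ℝ) ^ m := by
    rw [← mul_pow]
    norm_num
  have h5 := ft4_num (m - 101)
  have h6 : m - 101 + 101 = m := by omega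
  have h7 : ((m - 101 : ℕ) : ℝ) + 101 = m := by
    rw [Nat.cast_sub hm]
    push_cast
    ring
  rw [h6, h7] at h5
  calc (11 / 4) * ∑ k ∈ Finset.Icc 1 (m / 2), rh m k * (31 / 50 : ℝ) ^ (m - 2 * k) ≤
      (11 / 4) * (2 * (m : ℝ) ^ 2 * (31 / 50 : ℝ) ^ m * (1250 * (5 / 4 : ℝ) ^ m)) :=
        mul_le_mul_of_nonneg_left (h1.trans h3) (by norm_num)
    _ = 6875 * (m : ℝ) ^ 2 * ((31 / 50 : ℝ) ^ m * (5 / 4 : ℝ) ^ m) := by ring
    _ = 6875 * (m : ℝ) ^ 2 * (31 / 40 : ℝ) ^ m := by rw [h4]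
    _ ≤ (1 / 2000) * (4 / 5 : ℝ) ^ (m - 101) := h5

end Pool.MP322F
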