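import Pool.Agent.Lib.MP_322c5f_alF.FT01
import Pool.Agent.Lib.MP_322c5f_al.TypeCount
import Pool.Agent.Lib.MP_322c5f_al.BSum

/-! The numbers `Phi` for `m > 300`. -/

set_option autoImplicit false

open Finset Equiv Nat

namespace Pool.MP322F

open Pool.MP322

/-- `fac ≤ β + 1/(j+1)`, `β = A²/(u(u-1)) + 1/(u-1)`, `u = m - 2j` -/
theorem fac_le {m j : ℕ} {A : ℝ} (hA : 0 ≤ A) (h : 2 * j + 2 ≤ m) :
    fac m A j ≤ A ^ 2 / (((m : ℝ) - 2 * j) * ((m : ℝ) - 2 * j - 1)) + 1 / ((m : ℝ) - 2 * j - 1) +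
      1 / ((j : ℝ) + 1) := by
  have hu : (2 : ℝ) ≤ (m : ℝ) - 2 * j := by
    have : ((2 * j + 2 : ℕ) : ℝ) ≤ (m : ℝ) := by exact_mod_cast h
    push_cast at this
    linarith
  have hj : (0 : ℝ) ≤ j := Nat.cast_nonneg j
  unfold fac
  set u : ℝ := (m : ℝ) - 2 * j with hudef
  have hu0 : 0 < u := by linarith
  have hu1 : 0 < u - 1 := by linarith
  have hX : (A ^ 2 + u) / (u * (u - 1)) = A ^ 2 / (u * (u - 1)) + 1 / (u - 1) := by
    field_simp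
  rw [hX]
  set B : ℝ := A ^ 2 / (u * (u - 1)) + 1 / (u - 1) with hB
  have hB0 : 0 ≤ B := by positivity
  rw [div_le_iff₀ (by linarith)]
  have h2 : (B + 1 / ((j : ℝ) + 1)) * ((j : ℝ) + 1) = B * j + B + 1 := by
    field_simp
  rw [h2]
  nlinarith

private theorem fac_aux {m j : ℕ} {A v c d e : ℝ} (hA : 0 ≤ A) (h : 2 * j + 2 ≤ m) (hv : 0 < v)
    (hv1 : v ≤ (m : ℝ) - 2 * j - 1) (hc : A ^ 2 ≤ c * v ^ 2) (hd : 1 ≤ d * v)
    (he : 1 ≤ e * ((j : ℝ) + 1)) : fac m A j ≤ c + d + e := by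
  refine (fac_le hA h).trans ?_
  have hj : (0 : ℝ) < (j : ℝ) + 1 := by positivity
  have hc0 : 0 ≤ c := by
    by_contra hcon
    push Not at hcon
    have : c * v ^ 2 < 0 := mul_neg_of_neg_of_pos hcon (by positivity)
    nlinarith [sq_nonneg A]
  have hd0 : 0 ≤ d := by
    by_contra hcon
    push Not at hcon
    have : d * v < 0 := mul_neg_of_neg_of_pos hcon hv
    linarith
  have h1 : A ^ 2 / (((m : ℝ) - 2 * j) * ((m : ℝ) - 2 * j - 1)) ≤ c := by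
    rw [div_le_iff₀ (mul_pos (by linarith) (by linarith))]
    refine hc.trans ?_
    apply mul_le_mul_of_nonneg_left _ hc0
    nlinarith
  have h2 : 1 / ((m : ℝ) - 2 * j - 1) ≤ d := by
    rw [div_le_iff₀ (by linarith)]
    exact hd.trans (mul_le_mul_of_nonneg_left hv1 hd0)
  have h3 : 1 / ((j : ℝ) + 1) ≤ e := by
    rw [div_le_iff₀ hj]
    exact he
  linarith

private theorem A_facts {m : ℕ} (hm : 301 ≤ m) :
    (0 : ℝ) ≤ ((m / 5 : ℕ) : ℝ) - 1 ∧ ((m / 5 : ℕ) : ℝ) - 1 ≤ (m : ℝ) / 5 := by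
  have h1 : 1 ≤ m / 5 := by omega
  have h1' : (1 : ℝ) ≤ ((m / 5 : ℕ) : ℝ) := by exact_mod_cast h1
  have h2 : ((m / 5 : ℕ) : ℝ) ≤ (m : ℝ) / 5 := by
    have := @Nat.cast_div_le ℝ _ _ _ m 5
    simpa using this
  constructor <;> linarith

theorem fac_le_one {m j : ℕ} (hm : 301 ≤ m) (hj : j < 4 * (m / 12)) :
    fac m (((m / 5 : ℕ) : ℝ) - 1) j ≤ 1 := by
  obtain ⟨hA0, hA1⟩ := A_facts hm
  have hmR : (301 : ℝ) ≤ (m : ℝ) := by exact_mod_cast hm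
  have h6 : 6 * j + 6 ≤ 2 * m := by omega
  have h6R : (6 : ℝ) * j + 6 ≤ 2 * m := by exact_mod_cast h6
  have hjR : (0 : ℝ) ≤ j := Nat.cast_nonneg j
  unfold fac
  set u : ℝ := (m : ℝ) - 2 * j with hudef
  set A : ℝ := ((m / 5 : ℕ) : ℝ) - 1 with hAdef
  have hu : (m : ℝ) / 3 + 2 ≤ u := by rw [hudef]; linarith
  have hu0 : 0 < u := by linarith
  have hu1 : 0 < u - 1 := by linarith
  rw [div_le_one (by linarith)]
  have hq : (A ^ 2 + u) / (u * (u - 1)) ≤ 1 := by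
    rw [div_le_one (mul_pos hu0 hu1)]
    have hA2 : A ^ 2 ≤ ((m : ℝ) / 5) ^ 2 := pow_le_pow_left₀ hA0 hA1 2
    nlinarith
  have := mul_le_mul_of_nonneg_left hq hjR
  linarith

/-- (`m/12 = q ≥ 25`; for `j < q`: `u - 1 ≥ 5m/6`, for `j < 2q`: `u - 1 ≥ 2m/3`) -/
theorem fac_le1 {m j : ℕ} (hm : 301 ≤ m) (hj : m / 12 ≤ 2 * j) (hj2 : j < 2 * (m / 12)) :
    fac m (((m / 5 : ℕ) : ℝ) - 1) j ≤ 7 / 50 := by
  obtain ⟨hA0, hA1⟩ := A_facts hm
  have hmR : (301 : ℝ) ≤ (m : ℝ) := by exact_mod_cast hm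
  have hA2 : (((m / 5 : ℕ) : ℝ) - 1) ^ 2 ≤ ((m : ℝ) / 5) ^ 2 := pow_le_pow_left₀ hA0 hA1 2
  by_cases hq : j < m / 12
  · have h6 : 12 * j + 12 ≤ m := by omega
    have h6R : (12 : ℝ) * j + 12 ≤ m := by exact_mod_cast h6
    have h13 : 13 ≤ j := by omega
    have h13R : (13 : ℝ) ≤ j := by exact_mod_cast h13
    have := fac_aux (m := m) (j := j) (A := ((m / 5 : ℕ) : ℝ) - 1) (v := 5 * (m : ℝ) / 6)
      (c := 36 / 625) (d := 1 / 250) (e := 1 / 14) hA0 (by omega) (by linarith) (by linarith)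
      (by nlinarith) (by linarith) (by linarith)
    refine this.trans ?_
    norm_num
  · have h6 : 6 * j + 6 ≤ m := by omega
    have h6R : (6 : ℝ) * j + 6 ≤ m := by exact_mod_cast h6
    have h25 : 25 ≤ j := by omega
    have h25R : (25 : ℝ) ≤ j := by exact_mod_cast h25
    have := fac_aux (m := m) (j := j) (A := ((m / 5 : ℕ) : ℝ) - 1) (v := 2 * (m : ℝ) / 3)
      (c := 9 / 100) (d := 1 / 200) (e := 1 / 26) hA0 (by omega) (by linarith) (by linarith)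
      (by nlinarith) (by linarith) (by linarith)
    refine this.trans ?_
    norm_num

theorem fac_le2 {m j : ℕ} (hm : 301 ≤ m) (hj : 2 * (m / 12) ≤ j) (hj2 : j < 3 * (m / 12)) :
    fac m (((m / 5 : ℕ) : ℝ) - 1) j ≤ 19 / 100 := by
  obtain ⟨hA0, hA1⟩ := A_facts hm
  have hmR : (301 : ℝ) ≤ (m : ℝ) := by exact_mod_cast hm
  have hA2 : (((m / 5 : ℕ) : ℝ) - 1) ^ 2 ≤ ((m : ℝ) / 5) ^ 2 := pow_le_pow_left₀ hA0 hA1 2
  have h6 : 4 * j + 4 ≤ m := by omega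
  have h6R : (4 : ℝ) * j + 4 ≤ m := by exact_mod_cast h6
  have h50 : 50 ≤ j := by omega
  have h50R : (50 : ℝ) ≤ j := by exact_mod_cast h50
  have := fac_aux (m := m) (j := j) (A := ((m / 5 : ℕ) : ℝ) - 1) (v := (m : ℝ) / 2)
    (c := 4 / 25) (d := 1 / 150) (e := 1 / 51) hA0 (by omega) (by linarith) (by linarith)
    (by nlinarith) (by linarith) (by linarith)
  refine this.trans ?_
  norm_num

theorem fac_le3 {m j : ℕ} (hm : 301 ≤ m) (hj : 3 * (m / 12) ≤ j) (hj2 : j < 4 * (m / 12)) :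
    fac m (((m / 5 : ℕ) : ℝ) - 1) j ≤ 39 / 100 := by
  obtain ⟨hA0, hA1⟩ := A_facts hm
  have hmR : (301 : ℝ) ≤ (m : ℝ) := by exact_mod_cast hm
  have hA2 : (((m / 5 : ℕ) : ℝ) - 1) ^ 2 ≤ ((m : ℝ) / 5) ^ 2 := pow_le_pow_left₀ hA0 hA1 2
  have h6 : 3 * j + 3 ≤ m := by omega
  have h6R : (3 : ℝ) * j + 3 ≤ m := by exact_mod_cast h6
  have h75 : 75 ≤ j := by omega
  have h75R : (75 : ℝ) ≤ j := by exact_mod_cast h75
  have := fac_aux (m := m) (j := j) (A := ((m / 5 : ℕ) : ℝ) - 1) (v := (m : ℝ) / 3)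
    (c := 9 / 25) (d := 1 / 100) (e := 1 / 76) hA0 (by omega) (by linarith) (by linarith)
    (by nlinarith) (by linarith) (by linarith)
  refine this.trans ?_
  norm_num

private theorem prod_Ico_le {f : ℕ → ℝ} {a b : ℕ} {c : ℝ}
    (h0 : ∀ j, a ≤ j → j < b → 0 ≤ f j) (h1 : ∀ j, a ≤ j → j < b → f j ≤ c) :
    0 ≤ ∏ j ∈ Finset.Ico a b, f j ∧ ∏ j ∈ Finset.Ico a b, f j ≤ c ^ (b - a) := by
  constructor
  · exact Finset.prod_nonneg fun j hj => h0 j (Finset.mem_Ico.1 hj).1 (Finset.mem_Ico.1 hj).2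
  · have := Finset.prod_le_prod (s := Finset.Ico a b) (f := f) (g := fun _ => c)
      (fun j hj => h0 j (Finset.mem_Ico.1 hj).1 (Finset.mem_Ico.1 hj).2)
      (fun j hj => h1 j (Finset.mem_Ico.1 hj).1 (Finset.mem_Ico.1 hj).2)
    simpa [Finset.prod_const, Nat.card_Ico] using this

/-- `q = m/12`: at least `(3q-1)/2` factors `7/50`, `q` factors `19/100`, `q` factors `39/100` -/
theorem Phi_le {m : ℕ} (hm : 301 ≤ m) :
    Phi m (((m / 5 : ℕ) : ℝ) - 1) (4 * (m / 12)) ^ 2 ≤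
      (50 / 7) * ((7 / 50 : ℝ) ^ 3 * (19 / 100) ^ 2 * (39 / 100) ^ 2) ^ (m / 12) := by
  set A : ℝ := ((m / 5 : ℕ) : ℝ) - 1 with hA
  set q : ℕ := m / 12 with hq
  have hq25 : 25 ≤ q := by omega
  set h : ℕ := (q + 1) / 2 with hh
  have hnn : ∀ j, j < 4 * q → 0 ≤ fac m A j := by
    intro j hj
    apply fac_nonneg
    omega
  have e1 : ∏ j ∈ Finset.range (4 * q), fac m A j =
      (∏ j ∈ Finset.Ico 0 h, fac m A j) * (∏ j ∈ Finset.Ico h (2 * q), fac m A j) *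
        (∏ j ∈ Finset.Ico (2 * q) (3 * q), fac m A j) *
        (∏ j ∈ Finset.Ico (3 * q) (4 * q), fac m A j) := by
    rw [Finset.prod_Ico_consecutive _ (by omega) (by omega),
      Finset.prod_Ico_consecutive _ (by omega) (by omega),
      Finset.prod_Ico_consecutive _ (by omega) (by omega), Finset.range_eq_Ico]
  obtain ⟨a0, a1⟩ := prod_Ico_le (f := fac m A) (a := 0) (b := h) (c := 1)
    (fun j _ h2 => hnn j (by omega)) (fun j _ h2 => fac_le_one hm (by omega))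
  obtain ⟨b0, b1⟩ := prod_Ico_le (f := fac m A) (a := h) (b := 2 * q) (c := 7 / 50)
    (fun j _ h2 => hnn j (by omega)) (fun j h1 h2 => fac_le1 hm (by omega) (by omega))
  obtain ⟨c0, c1⟩ := prod_Ico_le (f := fac m A) (a := 2 * q) (b := 3 * q) (c := 19 / 100)
    (fun j _ h2 => hnn j (by omega)) (fun j h1 h2 => fac_le2 hm (by omega) (by omega))
  obtain ⟨d0, d1⟩ := prod_Ico_le (f := fac m A) (a := 3 * q) (b := 4 * q) (c := 39 / 100)
    (fun j _ h2 => hnn j (by omega)) (fun j h1 h2 => fac_le3 hm (by omega) (by omega))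
  unfold Phi
  rw [e1]
  rw [one_pow] at a1
  rw [show 3 * q - 2 * q = q by omega] at c1
  rw [show 4 * q - 3 * q = q by omega] at d1
  have hb2 : (∏ j ∈ Finset.Ico h (2 * q), fac m A j) ^ 2 ≤ (50 / 7) * ((7 / 50 : ℝ) ^ 3) ^ q := by
    have h1 : (∏ j ∈ Finset.Ico h (2 * q), fac m A j) ^ 2 ≤ ((7 / 50 : ℝ) ^ (2 * q - h)) ^ 2 :=
      pow_le_pow_left₀ b0 b1 2
    refine h1.trans ?_
    rw [← pow_mul, ← pow_mul]
    have h2 : (7 / 50 : ℝ) ^ ((2 * q - h) * 2) ≤ (7 / 50 : ℝ) ^ (3 * q - 1) := by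
      apply pow_le_pow_of_le_one (by norm_num) (by norm_num)
      omega
    refine h2.trans (le_of_eq ?_)
    have h3 : 3 * q = (3 * q - 1) + 1 := by omega
    rw [h3, pow_succ, show 3 * q - 1 + 1 - 1 = 3 * q - 1 by omega]
    ring
  have hc2 : (∏ j ∈ Finset.Ico (2 * q) (3 * q), fac m A j) ^ 2 ≤ ((19 / 100 : ℝ) ^ 2) ^ q := by
    have h1 := pow_le_pow_left₀ c0 c1 2
    refine h1.trans (le_of_eq ?_)
    rw [← pow_mul, ← pow_mul, mul_comm]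
  have hd2 : (∏ j ∈ Finset.Ico (3 * q) (4 * q), fac m A j) ^ 2 ≤ ((39 / 100 : ℝ) ^ 2) ^ q := by
    have h1 := pow_le_pow_left₀ d0 d1 2
    refine h1.trans (le_of_eq ?_)
    rw [← pow_mul, ← pow_mul, mul_comm]
  have ha2 : (∏ j ∈ Finset.Ico 0 h, fac m A j) ^ 2 ≤ 1 := pow_le_one₀ a0 a1
  rw [mul_pow, mul_pow, mul_pow, mul_pow, mul_pow]
  calc (∏ j ∈ Finset.Ico 0 h, fac m A j) ^ 2 * (∏ j ∈ Finset.Ico h (2 * q), fac m A j) ^ 2 *
        (∏ j ∈ Finset.Ico (2 * q) (3 * q), fac m A j) ^ 2 *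
        (∏ j ∈ Finset.Ico (3 * q) (4 * q), fac m A j) ^ 2
      ≤ 1 * ((50 / 7) * ((7 / 50 : ℝ) ^ 3) ^ q) * ((19 / 100 : ℝ) ^ 2) ^ q *
        ((39 / 100 : ℝ) ^ 2) ^ q := by
        gcongr
    _ = (50 / 7) * (((7 / 50 : ℝ) ^ 3) ^ q * ((19 / 100 : ℝ) ^ 2) ^ q *
        ((39 / 100 : ℝ) ^ 2) ^ q) := by ring

private theorem card_TNW_le (m : ℕ) : ((TNW m).card : ℝ) ≤ Real.exp (3 * Real.sqrt m) := by
  apply card_types_le m
  · intro τ hτ c hc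
    have h1 : τ ∈ typesE m := (Finset.mem_filter.1 hτ).1
    unfold typesE at h1
    obtain ⟨σ, _, rfl⟩ := Finset.mem_image.1 h1
    exact (Perm.two_le_of_mem_cycleType hc).trans' (by norm_num)
  · intro τ hτ
    exact (Finset.mem_filter.1 hτ).2

private theorem num1 : (50 / 7 : ℝ) * ((7 / 50 : ℝ) ^ 3 * (19 / 100) ^ 2 * (39 / 100) ^ 2) ^ 25 *
    (2.7182818286 : ℝ) ^ 212 ≤ ((1 / 10000 : ℝ) * (9 / 10) ^ 10) ^ 4 := by
  norm_num

private theorem num2 : ((7 / 50 : ℝ) ^ 3 * (19 / 100) ^ 2 * (39 / 100) ^ 2) *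
    (2.7182818286 : ℝ) ^ 5 ≤ ((9 / 10 : ℝ) ^ 12) ^ 4 := by
  norm_num

/-- `card ≤ exp (3 √m)` (`card_types_le`); with `t = √m`, `√301 = 17.35`: the logarithm of the left
hand side at `m = 301` is about `-14.5`, its derivative at most `-0.144`.  (For example
`3 √m ≤ (867/10000) m + 26` and `exp` of linear functions against powers of rational numbers.) -/
theorem phi_closed {m : ℕ} (hm : 301 ≤ m) :
    ((TNW m).card : ℝ) * Real.sqrt (Phi m (((m / 5 : ℕ) : ℝ) - 1) (4 * (m / 12))) ≤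
      (1 / 10000) * (9 / 10 : ℝ) ^ (m - 301) := by
  have hPhi0 : 0 ≤ Phi m (((m / 5 : ℕ) : ℝ) - 1) (4 * (m / 12)) := by
    apply Phi_nonneg
    omega
  have hPhi := Phi_le hm
  have hcard := card_TNW_le m
  obtain ⟨p, hp⟩ : ∃ p, m / 12 = 25 + p := ⟨m / 12 - 25, by omega⟩
  have hmp : m ≤ 12 * p + 311 := by omega
  have hmpR : (m : ℝ) ≤ 12 * p + 311 := by exact_mod_cast hmp
  have hp0 : (0 : ℝ) ≤ p := Nat.cast_nonneg p
  rw [hp] at hPhi
  have hsq : 12 * Real.sqrt m ≤ 212 + 5 * (p : ℝ) := by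
    have h1 : Real.sqrt m ≤ (212 + 5 * (p : ℝ)) / 12 := by
      rw [Real.sqrt_le_left (by positivity)]
      nlinarith
    linarith
  have hcard4 : ((TNW m).card : ℝ) ^ 4 ≤ (2.7182818286 : ℝ) ^ 212 * ((2.7182818286 : ℝ) ^ 5) ^ p := by
    calc ((TNW m).card : ℝ) ^ 4 ≤ (Real.exp (3 * Real.sqrt m)) ^ 4 :=
          pow_le_pow_left₀ (Nat.cast_nonneg _) hcard 4
      _ = Real.exp (12 * Real.sqrt m) := by
          rw [← Real.exp_nat_mul]
          congr 1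
          push_cast
          ring
      _ ≤ Real.exp (212 + 5 * (p : ℝ)) := Real.exp_le_exp.2 hsq
      _ = (Real.exp 1) ^ 212 * ((Real.exp 1) ^ 5) ^ p := by
          rw [← pow_mul, ← pow_add, ← Real.exp_nat_mul]
          congr 1
          push_cast
          ring
      _ ≤ (2.7182818286 : ℝ) ^ 212 * ((2.7182818286 : ℝ) ^ 5) ^ p := by
          have h1 : Real.exp 1 ≤ (2.7182818286 : ℝ) := Real.exp_one_lt_d9.le
          have h0 : 0 ≤ Real.exp 1 := (Real.exp_pos 1).le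
          gcongr
  have h9 : (9 / 10 : ℝ) ^ (12 * p + 10) ≤ (9 / 10 : ℝ) ^ (m - 301) := by
    apply pow_le_pow_of_le_one (by norm_num) (by norm_num)
    omega
  refine le_trans ?_ (mul_le_mul_of_nonneg_left h9 (by norm_num))
  have hR0 : 0 ≤ (1 / 10000 : ℝ) * (9 / 10) ^ (12 * p + 10) := by positivity
  refine le_of_pow_le_pow_left₀ (n := 4) (by norm_num) hR0 ?_
  have hs4 : Real.sqrt (Phi m (((m / 5 : ℕ) : ℝ) - 1) (4 * (m / 12))) ^ 4 =
      Phi m (((m / 5 : ℕ) : ℝ) - 1) (4 * (m / 12)) ^ 2 := by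
    rw [show (4 : ℕ) = 2 * 2 from rfl, pow_mul, Real.sq_sqrt hPhi0]
  rw [mul_pow, hs4]
  set r : ℝ := (7 / 50 : ℝ) ^ 3 * (19 / 100) ^ 2 * (39 / 100) ^ 2 with hr
  have hr0 : 0 ≤ r := by rw [hr]; positivity
  have hx := num1
  have hy := num2
  rw [← hr] at hx hy
  have hyp : (r * (2.7182818286 : ℝ) ^ 5) ^ p ≤ (((9 / 10 : ℝ) ^ 12) ^ 4) ^ p :=
    pow_le_pow_left₀ (by positivity) hy p
  calc ((TNW m).card : ℝ) ^ 4 * Phi m (((m / 5 : ℕ) : ℝ) - 1) (4 * (m / 12)) ^ 2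
      ≤ ((2.7182818286 : ℝ) ^ 212 * ((2.7182818286 : ℝ) ^ 5) ^ p) * (50 / 7 * r ^ (25 + p)) := by
        rw [hp]
        exact mul_le_mul hcard4 hPhi (sq_nonneg _) (by positivity)
    _ = ((50 / 7 : ℝ) * r ^ 25 * (2.7182818286 : ℝ) ^ 212) * (r * (2.7182818286 : ℝ) ^ 5) ^ p := by
        rw [pow_add, mul_pow r]
        generalize (2.7182818286 : ℝ) ^ 212 = E1
        generalize ((2.7182818286 : ℝ) ^ 5) ^ p = E2
        ring
    _ ≤ (((1 / 10000 : ℝ) * (9 / 10) ^ 10) ^ 4) * (((9 / 10 : ℝ) ^ 12) ^ 4) ^ p :=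
        mul_le_mul hx hyp (by positivity) (by positivity)
    _ = ((1 / 10000 : ℝ) * (9 / 10) ^ (12 * p + 10)) ^ 4 := by
        rw [pow_add, pow_mul (9 / 10 : ℝ) 12 p, ← pow_mul ((9 / 10 : ℝ) ^ 12) 4 p,
          mul_comm 4 p, pow_mul ((9 / 10 : ℝ) ^ 12) p 4]
        generalize ((9 / 10 : ℝ) ^ 12) ^ p = E3
        generalize (9 / 10 : ℝ) ^ 10 = E4
        ring

end Pool.MP322F
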