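import Pool.Agent.Lib.MP_322c5f_alF.FT03

/-! The second range for `m > 300`. -/

set_option autoImplicit false

open Finset Equiv Nat

namespace Pool.MP322F

open Pool.MP322

private theorem ft6_base : 12 ^ 60 ≤ 7 * (5 * 60).choose 60 := by
  rw [Nat.choose_eq_descFactorial_div_factorial]
  decide +kernel

private theorem ft6_poly (p : ℕ) (hp : 60 ≤ p) :
    12 * ((p + 1) * (4 * p + 1) * (4 * p + 2) * (4 * p + 3) * (4 * p + 4)) ≤
      (5 * p + 1) * (5 * p + 2) * (5 * p + 3) * (5 * p + 4) * (5 * p + 5) := by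
  obtain ⟨q, rfl⟩ := Nat.exists_eq_add_of_le hp
  zify
  rw [← sub_nonneg]
  ring_nf
  positivity

private theorem ft6_rec (p : ℕ) :
    (5 * (p + 1)).choose (p + 1) * ((p + 1) * (4 * p + 1) * (4 * p + 2) * (4 * p + 3) * (4 * p + 4)) =
      (5 * p).choose p * ((5 * p + 1) * (5 * p + 2) * (5 * p + 3) * (5 * p + 4) * (5 * p + 5)) := by
  have h1 := Nat.add_choose_mul_factorial_mul_factorial (4 * p) p
  have h2 := Nat.add_choose_mul_factorial_mul_factorial (4 * (p + 1)) (p + 1)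
  have e1 : 4 * p + p = 5 * p := by ring
  have e2 : 4 * (p + 1) + (p + 1) = 5 * (p + 1) := by ring
  rw [e1] at h1
  rw [e2] at h2
  have f1 : (5 * (p + 1)).factorial =
      (5 * p + 5) * (5 * p + 4) * (5 * p + 3) * (5 * p + 2) * (5 * p + 1) * (5 * p).factorial := by
    have e3 : 5 * (p + 1) = 5 * p + 4 + 1 := by ring
    rw [e3, Nat.factorial_succ, Nat.factorial_succ, Nat.factorial_succ, Nat.factorial_succ,
      Nat.factorial_succ]
    ring
  have f2 : (4 * (p + 1)).factorial =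
      (4 * p + 4) * (4 * p + 3) * (4 * p + 2) * (4 * p + 1) * (4 * p).factorial := by
    have e3 : 4 * (p + 1) = 4 * p + 3 + 1 := by ring
    rw [e3, Nat.factorial_succ, Nat.factorial_succ, Nat.factorial_succ, Nat.factorial_succ]
    ring
  have f3 : (p + 1).factorial = (p + 1) * p.factorial := Nat.factorial_succ p
  rw [f1, f2, f3, ← h1] at h2
  have hpos : 0 < p.factorial * (4 * p).factorial :=
    Nat.mul_pos (Nat.factorial_pos _) (Nat.factorial_pos _)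
  apply Nat.eq_of_mul_eq_mul_right hpos
  calc (5 * (p + 1)).choose (p + 1) * ((p + 1) * (4 * p + 1) * (4 * p + 2) * (4 * p + 3) *
        (4 * p + 4)) * (p.factorial * (4 * p).factorial)
      = (5 * (p + 1)).choose (p + 1) *
        ((4 * p + 4) * (4 * p + 3) * (4 * p + 2) * (4 * p + 1) * (4 * p).factorial) *
          ((p + 1) * p.factorial) := by ring
    _ = _ := h2
    _ = _ := by ring

/-- `C(5p,p) ≥ 12^p / 7` for `p ≥ 60` (`C(300,60)` by kernel; the quotient of consecutive values is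
`(5p+1)...(5p+5) / ((p+1)(4p+1)...(4p+4)) ≥ 12`) -/
theorem choose_five {p : ℕ} (hp : 60 ≤ p) : 12 ^ p ≤ 7 * (5 * p).choose p := by
  induction p, hp using Nat.le_induction with
  | base => exact ft6_base
  | succ p hp ih =>
    have hD : 0 < (p + 1) * (4 * p + 1) * (4 * p + 2) * (4 * p + 3) * (4 * p + 4) := by positivity
    apply Nat.le_of_mul_le_mul_right _ hD
    calc 12 ^ (p + 1) * ((p + 1) * (4 * p + 1) * (4 * p + 2) * (4 * p + 3) * (4 * p + 4))
        = 12 ^ p * (12 * ((p + 1) * (4 * p + 1) * (4 * p + 2) * (4 * p + 3) * (4 * p + 4))) := by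
          rw [pow_succ]; ring
      _ ≤ (7 * (5 * p).choose p) *
          ((5 * p + 1) * (5 * p + 2) * (5 * p + 3) * (5 * p + 4) * (5 * p + 5)) :=
          Nat.mul_le_mul ih (ft6_poly p hp)
      _ = 7 * ((5 * p).choose p *
          ((5 * p + 1) * (5 * p + 2) * (5 * p + 3) * (5 * p + 4) * (5 * p + 5))) := by ring
      _ = 7 * (5 * (p + 1)).choose (p + 1) *
          ((p + 1) * (4 * p + 1) * (4 * p + 2) * (4 * p + 3) * (4 * p + 4)) := by
          rw [← ft6_rec p]; ring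

private theorem ft6_mono {m : ℕ} (b a : ℕ) (hba : b ≤ a) (ha : a ≤ m / 2) :
    m.choose b ≤ m.choose a := by
  induction a, hba using Nat.le_induction with
  | base => exact le_rfl
  | succ a hba ih =>
    exact (ih (by omega)).trans (Nat.choose_le_succ_of_lt_half_left (by omega))

/-- `C(m,a) ≥ C(m, m/5 + 1) ≥ C(5 (m/5), m/5)` -/
theorem choose_low {m a : ℕ} (hm : 301 ≤ m) (h1 : m / 5 < a) (h2 : a < (m + 1) / 2) :
    12 ^ (m / 5) ≤ 7 * m.choose a := by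
  have h3 : 12 ^ (m / 5) ≤ 7 * (5 * (m / 5)).choose (m / 5) := choose_five (by omega)
  have h4 : (5 * (m / 5)).choose (m / 5) ≤ m.choose (m / 5) :=
    Nat.choose_le_choose _ (by omega)
  have h5 : m.choose (m / 5) ≤ m.choose a := ft6_mono _ _ h1.le (by omega)
  omega

private theorem ft6_ch3 (a : ℕ) : 6 * (a + 3).choose 3 = (a + 3) * (a + 2) * (a + 1) := by
  have h := Nat.add_choose_mul_factorial_mul_factorial a 3
  have f1 : (a + 3).factorial = (a + 3) * (a + 2) * (a + 1) * a.factorial := by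
    rw [Nat.factorial_succ, Nat.factorial_succ, Nat.factorial_succ]
    ring
  rw [f1] at h
  have hpos : 0 < a.factorial := Nat.factorial_pos a
  apply Nat.eq_of_mul_eq_mul_right hpos
  rw [← h]
  simp [Nat.factorial]
  ring

private theorem ft6_ch2 (a : ℕ) : 2 * (a + 2).choose 2 = (a + 2) * (a + 1) := by
  have h := Nat.add_choose_mul_factorial_mul_factorial a 2
  have f1 : (a + 2).factorial = (a + 2) * (a + 1) * a.factorial := by
    rw [Nat.factorial_succ, Nat.factorial_succ]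
    ring
  rw [f1] at h
  have hpos : 0 < a.factorial := Nat.factorial_pos a
  apply Nat.eq_of_mul_eq_mul_right hpos
  rw [← h]
  simp [Nat.factorial]
  ring

/-- `r = (m-a)/a ≤ 3`; `LLn ≤ (a+r+1) C(a+r,r)`, `LLd ≥ C(m,a) (r+2)`;
`r = 3` only if `4a ≤ m`, `r = 2` only if `3a ≤ m` -/
theorem LL_le {m a : ℕ} (hm : 301 ≤ m) (h1 : m / 5 < a) (h2 : a < (m + 1) / 2) :
    (LLn m a : ℝ) / (LLd m a : ℝ) ≤ ((m : ℝ) / 4 + 4) ^ 4 / 30 / (m.choose a : ℝ) := by
  have ha : 0 < a := by omega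
  set r := (m - a) / a with hr
  have hmod : (m - a) % a < a := Nat.mod_lt _ ha
  have hdm : a * r + (m - a) % a = m - a := Nat.div_add_mod (m - a) a
  have hr3 : r ≤ 3 := by
    have : r < 4 := by
      rw [hr, Nat.div_lt_iff_lt_mul ha]
      omega
    omega
  have hr1 : 1 ≤ r := by
    rw [hr, Nat.le_div_iff_mul_le ha]
    omega
  have hC : 0 < m.choose a := Nat.choose_pos (by omega)
  have hCr : (0 : ℝ) < (m.choose a : ℝ) := by exact_mod_cast hC
  have hmr : (301 : ℝ) ≤ (m : ℝ) := by exact_mod_cast hm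
  -- denominator
  have hd : (m.choose a : ℝ) * ((r : ℝ) + 2) ≤ (LLd m a : ℝ) := by
    have : m.choose a * (r + 2) ≤ LLd m a := by
      unfold LLd
      rw [← hr]
      exact Nat.mul_le_mul_left _ (by omega)
    exact_mod_cast this
  have hd0 : (0 : ℝ) < (m.choose a : ℝ) * ((r : ℝ) + 2) := by positivity
  have hn : (LLn m a : ℝ) ≤ ((m : ℝ) / 4 + 4) ^ 4 / 30 * ((r : ℝ) + 2) := by
    have hn1 : (LLn m a : ℝ) = ((a : ℝ) + r + 1) * ((a + r).choose r : ℝ) := by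
      unfold LLn
      rw [← hr]
      push_cast
      ring
    rw [hn1]
    have har : (0 : ℝ) < (a : ℝ) := by exact_mod_cast ha
    have hcase : r = 1 ∨ r = 2 ∨ r = 3 := by omega
    rcases hcase with h | h | h
    · rw [h]
      have hc : (a + 1).choose 1 = a + 1 := Nat.choose_one_right _
      rw [hc]
      have h2a : 2 * a ≤ m := by omega
      have h2ar : 2 * (a : ℝ) ≤ (m : ℝ) := by exact_mod_cast h2a
      push_cast
      have hx : (79 : ℝ) ≤ (m : ℝ) / 4 + 4 := by linarith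
      have hy : (a : ℝ) + 1 + 1 ≤ 2 * ((m : ℝ) / 4 + 4) := by linarith
      have hy' : (a : ℝ) + 1 ≤ 2 * ((m : ℝ) / 4 + 4) := by linarith
      set X := (m : ℝ) / 4 + 4 with hX
      have h3 : ((a : ℝ) + 1 + 1) * ((a : ℝ) + 1) ≤ (2 * X) * (2 * X) :=
        mul_le_mul hy hy' (by positivity) (by linarith)
      have h4 : (79 : ℝ) ^ 2 ≤ X ^ 2 := pow_le_pow_left₀ (by norm_num) hx 2
      have h5 : X ^ 2 * (79 : ℝ) ^ 2 ≤ X ^ 2 * X ^ 2 :=
        mul_le_mul_of_nonneg_left h4 (by positivity)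
      nlinarith [sq_nonneg X]
    · rw [h]
      have hc : (2 : ℝ) * ((a + 2).choose 2 : ℝ) = ((a : ℝ) + 2) * ((a : ℝ) + 1) := by
        exact_mod_cast ft6_ch2 a
      have h3a : 3 * a ≤ m := by
        have := hdm
        rw [h] at this
        omega
      have h3ar : 3 * (a : ℝ) ≤ (m : ℝ) := by exact_mod_cast h3a
      push_cast
      have hx : (79 : ℝ) ≤ (m : ℝ) / 4 + 4 := by linarith
      set X := (m : ℝ) / 4 + 4 with hX
      have hy1 : (a : ℝ) + 2 + 1 ≤ 4 / 3 * X := by rw [hX]; linarith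
      have hy2 : (a : ℝ) + 2 ≤ 4 / 3 * X := by rw [hX]; linarith
      have hy3 : (a : ℝ) + 1 ≤ 4 / 3 * X := by rw [hX]; linarith
      have h3 : ((a : ℝ) + 2 + 1) * (((a : ℝ) + 2) * ((a : ℝ) + 1)) ≤
          (4 / 3 * X) * ((4 / 3 * X) * (4 / 3 * X)) := by
        refine mul_le_mul hy1 (mul_le_mul hy2 hy3 (by positivity) (by linarith)) (by positivity)
          (by linarith)
      have h5 : X ^ 3 * 79 ≤ X ^ 3 * X :=
        mul_le_mul_of_nonneg_left hx (by positivity)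
      have h6 : (0 : ℝ) ≤ X ^ 3 := by positivity
      have h7 : ((a : ℝ) + 2 + 1) * ((a + 2).choose 2 : ℝ) =
          ((a : ℝ) + 2 + 1) * (((a : ℝ) + 2) * ((a : ℝ) + 1)) / 2 := by
        rw [← hc]; ring
      rw [h7]
      nlinarith [h3, h5, h6]
    · rw [h]
      have hc : (6 : ℝ) * ((a + 3).choose 3 : ℝ) = ((a : ℝ) + 3) * ((a : ℝ) + 2) * ((a : ℝ) + 1) := by
        exact_mod_cast ft6_ch3 a
      have h4a : 4 * a ≤ m := by
        have := hdm
        rw [h] at this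
        omega
      have h4ar : 4 * (a : ℝ) ≤ (m : ℝ) := by exact_mod_cast h4a
      push_cast
      have hx : (79 : ℝ) ≤ (m : ℝ) / 4 + 4 := by linarith
      set X := (m : ℝ) / 4 + 4 with hX
      have hy0 : (a : ℝ) + 3 + 1 ≤ X := by rw [hX]; linarith
      have hy1 : (a : ℝ) + 3 ≤ X := by linarith
      have hy2 : (a : ℝ) + 2 ≤ X := by linarith
      have hy3 : (a : ℝ) + 1 ≤ X := by linarith
      have hX0 : (0 : ℝ) ≤ X := by linarith
      have h3 : ((a : ℝ) + 3 + 1) * ((((a : ℝ) + 3) * ((a : ℝ) + 2)) * ((a : ℝ) + 1)) ≤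
          X * ((X * X) * X) := by
        refine mul_le_mul hy0 (mul_le_mul (mul_le_mul hy1 hy2 (by positivity) hX0) hy3
          (by positivity) (by positivity)) (by positivity) hX0
      have h7 : ((a : ℝ) + 3 + 1) * ((a + 3).choose 3 : ℝ) =
          ((a : ℝ) + 3 + 1) * ((((a : ℝ) + 3) * ((a : ℝ) + 2)) * ((a : ℝ) + 1)) / 6 := by
        rw [← hc]; ring
      rw [h7]
      nlinarith [h3]
  calc (LLn m a : ℝ) / (LLd m a : ℝ)
      ≤ (LLn m a : ℝ) / ((m.choose a : ℝ) * ((r : ℝ) + 2)) :=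
        div_le_div_of_nonneg_left (Nat.cast_nonneg _) hd0 hd
    _ ≤ (((m : ℝ) / 4 + 4) ^ 4 / 30 * ((r : ℝ) + 2)) / ((m.choose a : ℝ) * ((r : ℝ) + 2)) :=
        div_le_div_of_nonneg_right hn hd0.le
    _ = ((m : ℝ) / 4 + 4) ^ 4 / 30 / (m.choose a : ℝ) := by
        have hr0 : ((r : ℝ) + 2) ≠ 0 := by positivity
        rw [mul_div_mul_right _ _ hr0]

private theorem ft6_num (q : ℕ) :
    1100 * ((10 / 7 : ℝ) ^ (5 * q) * ((10 / 7) ^ 152 * (10 / 7) ^ 152)) *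
      ((5 * (q : ℝ) + 304) / 2 * ((5 / 4 * ((q : ℝ) + 64)) ^ 4 / 30 * 7)) ≤
      (1 / 10000) * (9 / 10 : ℝ) ^ (5 * q + 3) * 12 ^ (q + 60) := by
  induction q with
  | zero => norm_num
  | succ q ih =>
    have hpol : (10 / 7 : ℝ) ^ 5 * ((5 * ((q : ℝ) + 1) + 304) * ((q : ℝ) + 1 + 64) ^ 4) ≤
        (9 / 10 : ℝ) ^ 5 * 12 * ((5 * (q : ℝ) + 304) * ((q : ℝ) + 64) ^ 4) := by
      rw [← sub_nonneg]
      ring_nf
      positivity
    obtain ⟨K, hK⟩ : ∃ K : ℝ, K = (10 / 7 : ℝ) ^ 152 * (10 / 7) ^ 152 := ⟨_, rfl⟩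
    have hK0 : 0 ≤ K := by rw [hK]; positivity
    rw [← hK] at ih ⊢
    set c : ℝ := 1100 * ((10 / 7 : ℝ) ^ (5 * q) * K) * ((5 / 4) ^ 4 / 60 * 7) with hc
    have hc0 : 0 ≤ c := by positivity
    have e1 : 1100 * ((10 / 7 : ℝ) ^ (5 * q) * K) * ((5 * (q : ℝ) + 304) / 2 *
      ((5 / 4 * ((q : ℝ) + 64)) ^ 4 / 30 * 7)) =
        c * ((5 * (q : ℝ) + 304) * ((q : ℝ) + 64) ^ 4) := by
      rw [hc]; ring
    have e2 : 1100 * ((10 / 7 : ℝ) ^ (5 * (q + 1)) * K) * ((5 * ((q + 1 : ℕ) : ℝ) + 304) / 2 *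
      ((5 / 4 * (((q + 1 : ℕ) : ℝ) + 64)) ^ 4 / 30 * 7)) =
        c * ((10 / 7 : ℝ) ^ 5 * ((5 * ((q : ℝ) + 1) + 304) * ((q : ℝ) + 1 + 64) ^ 4)) := by
      have e3 : 5 * (q + 1) = 5 * q + 5 := by ring
      rw [hc, e3, pow_add (10 / 7 : ℝ) (5 * q) 5]
      push_cast
      ring
    rw [e1] at ih
    rw [e2]
    calc c * ((10 / 7 : ℝ) ^ 5 * ((5 * ((q : ℝ) + 1) + 304) * ((q : ℝ) + 1 + 64) ^ 4))
        ≤ c * ((9 / 10 : ℝ) ^ 5 * 12 * ((5 * (q : ℝ) + 304) * ((q : ℝ) + 64) ^ 4)) :=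
          mul_le_mul_of_nonneg_left hpol hc0
      _ = (c * ((5 * (q : ℝ) + 304) * ((q : ℝ) + 64) ^ 4)) * ((9 / 10 : ℝ) ^ 5 * 12) := by ring
      _ ≤ ((1 / 10000) * (9 / 10 : ℝ) ^ (5 * q + 3) * 12 ^ (q + 60)) * ((9 / 10 : ℝ) ^ 5 * 12) :=
          mul_le_mul_of_nonneg_right ih (by positivity)
      _ = (1 / 10000) * (9 / 10 : ℝ) ^ (5 * (q + 1) + 3) * 12 ^ (q + 1 + 60) := by
          have e4 : 5 * (q + 1) + 3 = (5 * q + 3) + 5 := by ring
          have e5 : q + 1 + 60 = (q + 60) + 1 := by ring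
          rw [e4, e5, pow_add (9 / 10 : ℝ) (5 * q + 3) 5, pow_succ (12 : ℝ) (q + 60)]
          ring

private theorem ft6_nonneg (q : ℕ) :
    0 ≤ (5 * (q : ℝ) + 304) / 2 * ((5 / 4 * ((q : ℝ) + 64)) ^ 4 / 30 * 7) := by positivity

private theorem ft6_nonneg' (q : ℕ) : 0 ≤ (5 * (q : ℝ) + 304) / 2 := by positivity

private theorem ft6_fin {T S K Z D u v : ℝ} (hT0 : 0 ≤ T) (hT : T ≤ 1100 * K) (hS : S ≤ Z / D)
    (hZ : 0 ≤ Z) (hD : 0 < D) (hnum : 1100 * K * Z ≤ 1 / 10000 * u * D) (huv : u ≤ v) :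
    T * S ≤ 1 / 10000 * v := by
  have h1 : 0 ≤ Z / D := div_nonneg hZ hD.le
  calc T * S ≤ (1100 * K) * (Z / D) :=
        (mul_le_mul_of_nonneg_left hS hT0).trans (mul_le_mul_of_nonneg_right hT h1)
    _ = (1100 * K * Z) / D := by rw [mul_div_assoc]
    _ ≤ (1 / 10000 * u * D) / D := div_le_div_of_nonneg_right hnum hD.le
    _ = 1 / 10000 * u := by rw [mul_div_assoc, div_self hD.ne', mul_one]
    _ ≤ 1 / 10000 * v := mul_le_mul_of_nonneg_left huv (by norm_num)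

/-- `(m/2) * 1100 (10/7)^m * (m/4+4)^4/30 * 7/12^(m/5)`: at `m = 301` about `5e-6`, decays by `0.89`
(`m/5 ≥ (m-4)/5`); group by `m = 5p + s` -/
theorem L_closed {m : ℕ} (hm : 301 ≤ m) :
    (TW m : ℝ) * SL m (m / 5) ≤ (1 / 10000) * (9 / 10 : ℝ) ^ (m - 301) := by
  have hmr : (301 : ℝ) ≤ (m : ℝ) := by exact_mod_cast hm
  have h12 : (0 : ℝ) < 12 ^ (m / 5) := by positivity
  set B : ℝ := ((m : ℝ) / 4 + 4) ^ 4 / 30 * 7 / 12 ^ (m / 5) with hB
  have hB0 : 0 ≤ B := by positivity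
  have hSL : SL m (m / 5) ≤ (m : ℝ) / 2 * B := by
    unfold SL
    have h1 : ∀ a ∈ (Finset.range ((m + 1) / 2)).filter (fun a => m / 5 < a),
        (LLn m a : ℝ) / (LLd m a : ℝ) ≤ B := by
      intro a ha
      rw [Finset.mem_filter, Finset.mem_range] at ha
      refine (LL_le hm ha.2 ha.1).trans ?_
      have h3 : (12 : ℝ) ^ (m / 5) ≤ 7 * (m.choose a : ℝ) := by
        exact_mod_cast choose_low hm ha.2 ha.1
      have hC : (0 : ℝ) < (m.choose a : ℝ) := by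
        exact_mod_cast Nat.choose_pos (show a ≤ m by omega)
      rw [hB, div_le_div_iff₀ hC h12]
      have h4 : (0 : ℝ) ≤ ((m : ℝ) / 4 + 4) ^ 4 / 30 := by positivity
      calc ((m : ℝ) / 4 + 4) ^ 4 / 30 * 12 ^ (m / 5)
          ≤ ((m : ℝ) / 4 + 4) ^ 4 / 30 * (7 * (m.choose a : ℝ)) :=
            mul_le_mul_of_nonneg_left h3 h4
        _ = ((m : ℝ) / 4 + 4) ^ 4 / 30 * 7 * (m.choose a : ℝ) := by ring
    refine (Finset.sum_le_card_nsmul _ _ _ h1).trans ?_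
    rw [nsmul_eq_mul]
    refine mul_le_mul_of_nonneg_right ?_ hB0
    have h5 : ((Finset.range ((m + 1) / 2)).filter (fun a => m / 5 < a)).card ≤ m / 2 := by
      have h6 : (Finset.range ((m + 1) / 2)).filter (fun a => m / 5 < a) ⊆
          Finset.Ioo (m / 5) ((m + 1) / 2) := by
        intro a ha
        rw [Finset.mem_filter, Finset.mem_range] at ha
        exact Finset.mem_Ioo.2 ⟨ha.2, ha.1⟩
      refine (Finset.card_le_card h6).trans ?_
      rw [Nat.card_Ioo]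
      omega
    calc (((Finset.range ((m + 1) / 2)).filter (fun a => m / 5 < a)).card : ℝ)
        ≤ ((m / 2 : ℕ) : ℝ) := by exact_mod_cast h5
      _ ≤ (m : ℝ) / 2 := Nat.cast_div_le
  -- `m = 5 p + s`
  obtain ⟨q, hq⟩ : ∃ q, m / 5 = q + 60 := ⟨m / 5 - 60, by omega⟩
  have hm1 : m ≤ 5 * q + 304 := by omega
  have hm1r : (m : ℝ) ≤ 5 * (q : ℝ) + 304 := by exact_mod_cast hm1
  have hTW := TW_le m
  have hTW0 : (0 : ℝ) ≤ (TW m : ℝ) := Nat.cast_nonneg _
  have h6 : (10 / 7 : ℝ) ^ m ≤ (10 / 7 : ℝ) ^ (5 * q) * ((10 / 7) ^ 152 * (10 / 7) ^ 152) := by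
    have e6 : (10 / 7 : ℝ) ^ (5 * q) * ((10 / 7) ^ 152 * (10 / 7) ^ 152) =
        (10 / 7 : ℝ) ^ (5 * q + (152 + 152)) := by
      rw [pow_add (10 / 7 : ℝ) (5 * q) (152 + 152), pow_add (10 / 7 : ℝ) 152 152]
    rw [e6]
    exact pow_le_pow_right₀ (by norm_num) hm1
  have h7 : ((m : ℝ) / 4 + 4) ^ 4 ≤ (5 / 4 * ((q : ℝ) + 64)) ^ 4 :=
    pow_le_pow_left₀ (by linarith) (by linarith) 4
  have h8 : (9 / 10 : ℝ) ^ (5 * q + 3) ≤ (9 / 10 : ℝ) ^ (m - 301) :=
    pow_le_pow_of_le_one (by norm_num) (by norm_num) (by omega)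
  have hnum := ft6_num q
  obtain ⟨K, hK⟩ : ∃ K : ℝ, K = (10 / 7 : ℝ) ^ (5 * q) * ((10 / 7) ^ 152 * (10 / 7) ^ 152) :=
    ⟨_, rfl⟩
  have hK0 : 0 ≤ K := by rw [hK]; positivity
  rw [← hK] at h6 hnum
  obtain ⟨D, hD⟩ : ∃ D : ℝ, D = (12 : ℝ) ^ (q + 60) := ⟨_, rfl⟩
  have hD0 : 0 < D := by
    rw [hD]
    exact pow_pos (by norm_num) _
  rw [← hD] at hnum
  have h9 : (TW m : ℝ) ≤ 1100 * K := hTW.trans (mul_le_mul_of_nonneg_left h6 (by norm_num))
  have h10 : (m : ℝ) / 2 * B ≤ ((5 * (q : ℝ) + 304) / 2 *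
      ((5 / 4 * ((q : ℝ) + 64)) ^ 4 / 30 * 7)) / D := by
    rw [hB, hq, ← hD, ← mul_div_assoc]
    apply div_le_div_of_nonneg_right _ hD0.le
    have h12 : (0 : ℝ) ≤ ((m : ℝ) / 4 + 4) ^ 4 / 30 * 7 := by positivity
    refine mul_le_mul (by linarith) ?_ h12 (ft6_nonneg' q)
    linarith
  exact ft6_fin hTW0 h9 (hSL.trans h10) (ft6_nonneg q) hD0 hnum h8

end Pool.MP322F
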