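import Pool.Agent.Lib.MP_322c5f_alF.FK00

/-!
Kernel functions for the numerical part of the tail: `101 ≤ m ≤ 300`.
All functions are written with recursors; do not change them.
-/

set_option autoImplicit false

namespace Pool.MP322F

/-- `[p, p g, p g², ...]`, `len` entries -/
noncomputable def geoL (g : ℕ) (len : ℕ) : ℕ → NL :=
  Nat.rec (motive := fun _ => ℕ → NL) (fun _ => NL.nil)
    (fun _ ih p => NL.cons p (frc (Nat.mul p g) (fun p' => ih p'))) len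

/-- the lists for `c = M - j + 1, ..., M` (`M / c + 1` entries `1, g, g², ...`) -/
noncomputable def glA (g M : ℕ) (j : ℕ) : LL :=
  Nat.rec (motive := fun _ => LL) LL.nil
    (fun j ih => LL.cons (geoL g (Nat.succ (Nat.div M (Nat.sub M j))) 1) ih) j

/-- `∑_(i < fuel) pw g^i slot_(rm - 2i)`, slots of `E` for even `sg + i`, otherwise of `O` -/
noncomputable def smZ (W E O g : ℕ) (fuel : ℕ) : ℕ → ℕ → ℕ → ℕ :=
  Nat.rec (motive := fun _ => ℕ → ℕ → ℕ → ℕ) (fun _ _ _ => 0)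
    (fun _ ih rm sg pw => Nat.rec (motive := fun _ => ℕ)
      (Nat.add (Nat.mul pw (slot W E rm)) (ih (Nat.sub rm 2) 1 (Nat.mul pw g)))
      (fun _ _ => Nat.add (Nat.mul pw (slot W O rm)) (ih (Nat.sub rm 2) 0 (Nat.mul pw g))) sg) fuel

/-- product of the factors `j < N`, scaled by `2^500`, `u = m - 2j` -/
noncomputable def phK (m A1 N : ℕ) : ℕ :=
  Nat.rec (motive := fun _ => ℕ) (Nat.pow 2 500)
    (fun j ih => frc (Nat.sub m (Nat.mul 2 j)) (fun u => Nat.add (Nat.div (Nat.mul ih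
      (Nat.add (Nat.mul u (Nat.sub u 1)) (Nat.mul j (Nat.add (Nat.mul A1 A1) u))))
        (Nat.mul (Nat.succ j) (Nat.mul u (Nat.sub u 1)))) 1)) N

/-- sum of `LLn / LLd` over `a = A + 1, ..., A + cnt`, scaled by `2^400` -/
noncomputable def slK (m A cnt : ℕ) : ℕ :=
  Nat.rec (motive := fun _ => ℕ) 0
    (fun i ih => Nat.add ih (Nat.add (Nat.div (Nat.mul (lln m (Nat.add A (Nat.succ i)))
      (Nat.pow 2 400)) (lld m (Nat.add A (Nat.succ i)))) 1)) cnt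

/-- one `m`: `C1` = number of even types, `C2` = sum of `2^len` -/
noncomputable def ckT1 (m A C1 C2 b b' : ℕ) : ℕ :=
  Nat.add
    (Nat.sub (Nat.mul (Nat.mul C1 C1) (Nat.mul (phK m (Nat.sub A 1) (Nat.div m 3)) (Nat.pow 2 80)))
      (Nat.mul (Nat.mul b b) (Nat.pow 2 500)))
    (Nat.sub (Nat.mul (Nat.mul C2 (slK m A (Nat.sub (Nat.div (Nat.succ m) 2) (Nat.succ A))))
      (Nat.pow 2 40)) (Nat.mul b' (Nat.pow 2 400)))

/-- all `m = m0, m0 + 1, ...` of the list; `A = 7m/30` -/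
noncomputable def ckT (W1 E1 O1 W2 E2 O2 : ℕ) (spec : NP) : ℕ → ℕ :=
  NP.rec (motive := fun _ => ℕ → ℕ) (fun _ => 0)
    (fun b b' _ ih m => Nat.add
      (ckT1 m (Nat.div (Nat.mul 7 m) 30) (smZ W1 E1 O1 1 (Nat.succ (Nat.div m 2)) m 0 1)
        (smZ W2 E2 O2 2 (Nat.succ (Nat.div m 2)) m 0 1) b b')
      (frc (Nat.add m 1) (fun m' => ih m'))) spec

noncomputable def ckTall (W1 W2 M : ℕ) (spec : NP) : ℕ :=
  rowZ W1 M (fun E1 O1 B1 => rowZ W2 M (fun E2 O2 B2 =>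
    Nat.add (Nat.add (Nat.sub (Nat.succ B1) (Nat.pow 2 W1)) (Nat.sub (Nat.succ B2) (Nat.pow 2 W2)))
      (ckT W1 E1 O1 W2 E2 O2 spec 101)) (glA 2 M (Nat.sub M 2)) 3 1 0 1)
    (glA 1 M (Nat.sub M 2)) 3 1 0 1

end Pool.MP322F
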