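import Pool.Agent.Lib.MP_322c5f_alF.FT07
import Pool.Agent.Lib.MP_322c5f_alF.FT00
import Pool.Agent.Lib.MP_322c5f_alF.FK02

/-! Soundness of the kernel tables for the tail: the numbers of types and the sums of `2^len`. -/

set_option autoImplicit false

open Finset Equiv Nat

namespace Pool.MP322F

open Pool.MP322

private theorem geoL_succ (g len p : ℕ) :
    geoL g (len + 1) p = NL.cons p (geoL g len (p * g)) := by
  have e1 : geoL g (len + 1) p = NL.cons p (frc (Nat.mul p g) (fun p' => geoL g len p')) := rfl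
  rw [e1, frc_eq]
  rfl

theorem geoL_gt (g len p i : ℕ) : NL.gt (geoL g len p) i = if i < len then p * g ^ i else 0 := by
  induction len generalizing p i with
  | zero => rfl
  | succ len ih =>
    rw [geoL_succ]
    rcases i with _ | i
    · rw [if_pos (Nat.succ_pos _), pow_zero, mul_one]
      rfl
    · have e1 : NL.gt (NL.cons p (geoL g len (p * g))) (i + 1) = NL.gt (geoL g len (p * g)) i := rfl
      rw [e1, ih]
      by_cases h : i < len
      · rw [if_pos h, if_pos (by omega), pow_succ]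
        ring
      · rw [if_neg h, if_neg (by omega)]

private theorem geoL_len (g len p : ℕ) : NL.len (geoL g len p) = len := by
  induction len generalizing p with
  | zero => rfl
  | succ len ih =>
    rw [geoL_succ]
    have e1 : NL.len (NL.cons p (geoL g len (p * g))) = NL.len (geoL g len (p * g)) + 1 := rfl
    rw [e1, ih]

private theorem glA_succ (g M j : ℕ) :
    glA g M (j + 1) = LL.cons (geoL g (M / (M - j) + 1) 1) (glA g M j) := rfl

theorem glA_len (g M j : ℕ) : LL.len (glA g M j) = j := by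
  induction j with
  | zero => rfl
  | succ j ih =>
    rw [glA_succ]
    have e1 : LL.len (LL.cons (geoL g (M / (M - j) + 1) 1) (glA g M j)) =
      LL.len (glA g M j) + 1 := rfl
    rw [e1, ih]

private theorem glA_gt (g M J i : ℕ) (hi : i < J) :
    LL.gt (glA g M J) i = geoL g (M / (M - (J - 1 - i)) + 1) 1 := by
  induction J generalizing i with
  | zero => exact absurd hi (Nat.not_lt_zero _)
  | succ J ih =>
    rw [glA_succ]
    rcases i with _ | i
    · rfl
    · have e1 : LL.gt (LL.cons (geoL g (M / (M - J) + 1) 1) (glA g M J)) (i + 1) =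
        LL.gt (glA g M J) i := rfl
      rw [e1, ih i (by omega)]
      have e2 : J - 1 - i = J + 1 - 1 - (i + 1) := by omega
      rw [e2]

private theorem glA_gt' {g M x : ℕ} (hx : 3 ≤ x) (hxM : x ≤ M) :
    LL.gt (glA g M (M - 2)) (x - 3) = geoL g (M / x + 1) 1 := by
  rw [glA_gt g M (M - 2) (x - 3) (by omega)]
  have e1 : M - (M - 2 - 1 - (x - 3)) = x := by omega
  rw [e1]

/-- the list for `x = 3, ..., M` -/
theorem glA_sE {g M x j : ℕ} (hM : 3 ≤ M) (hx : 3 ≤ x) (hxM : x ≤ M) :
    sE (glA g M (M - 2)) x j = if j ≤ M / x then g ^ j else 0 := by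
  unfold sE
  rw [glA_gt' hx hxM, geoL_gt, one_mul]
  by_cases h : j ≤ M / x
  · rw [if_pos h, if_pos (Nat.lt_succ_of_le h)]
  · rw [if_neg h, if_neg (fun h' => h (Nat.le_of_lt_succ h'))]

theorem glA_lens {g M : ℕ} (hM : 3 ≤ M) :
    ∀ c < LL.len (glA g M (M - 2)), M / (c + 3) + 1 ≤ NL.len (LL.gt (glA g M (M - 2)) c) := by
  intro c hc
  rw [glA_len] at hc
  have h1 := glA_gt' (g := g) (M := M) (x := c + 3) (by omega) (by omega)
  rw [Nat.add_sub_cancel] at h1
  rw [h1, geoL_len]

private theorem WT_congr {wf wg : ℕ → ℕ → ℕ} (M k : ℕ)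
    (h : ∀ x j, 3 ≤ x → x ≤ k + 2 → x * j ≤ M → wf x j = wg x j) (t p : ℕ) (ht : t ≤ M) :
    WT wf k t p = WT wg k t p := by
  induction k generalizing t p with
  | zero => rfl
  | succ k ih =>
    unfold WT
    refine Finset.sum_congr rfl fun j hj => ?_
    rw [Finset.mem_range] at hj
    have h2 : (k + 3) * j ≤ t := by
      rw [mul_comm]
      exact (Nat.le_div_iff_mul_le (by omega)).1 (by omega)
    rw [h (k + 3) j (by omega) (by omega) (h2.trans ht),
      ih (fun x i hx1 hx2 hx3 => h x i hx1 (by omega) hx3) _ _ ((Nat.sub_le _ _).trans ht)]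

/-- only the multiplicities `j ≤ t / x ≤ M / x` occur -/
theorem WT_glA {g M t : ℕ} (hM : 3 ≤ M) (ht : t ≤ M) (p : ℕ) :
    WT (sE (glA g M (M - 2))) (M - 2) t p = WT (fun _ j => g ^ j) (M - 2) t p := by
  refine WT_congr M (M - 2) ?_ t p ht
  intro x j hx1 hx2 hx3
  rw [glA_sE hM hx1 (by omega), if_pos]
  rw [Nat.le_div_iff_mul_le (by omega), mul_comm]
  exact hx3

private theorem card_eq_sum {m : ℕ} (hm : 2 ≤ m) {τ : Multiset ℕ} (h : ∀ c ∈ τ, 2 ≤ c ∧ c ≤ m) :
    Multiset.card τ = τ.count 2 + ∑ x ∈ Finset.Icc 3 m, τ.count x := by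
  have h1 : Multiset.card τ = ∑ x ∈ Finset.Icc 2 m, τ.count x := by
    rw [← Multiset.toFinset_sum_count_eq τ]
    refine Finset.sum_subset ?_ ?_
    · intro c hc
      rw [Multiset.mem_toFinset] at hc
      rw [Finset.mem_Icc]
      exact h c hc
    · intro c _ hc
      rw [Multiset.mem_toFinset] at hc
      exact Multiset.count_eq_zero.2 hc
  have h2 : Finset.Icc 2 m = insert 2 (Finset.Icc 3 m) := by
    ext x
    simp only [Finset.mem_Icc, Finset.mem_insert]
    omega
  rw [h1, h2, Finset.sum_insert (by simp)]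

/-- `sum_TNW` summed over `i`, `WT_stable` (`M - 2` instead of `m - 2` part sizes) -/
theorem TNW_WT {g M m : ℕ} (hm : 2 ≤ m) (hmM : m ≤ M) :
    ∑ τ ∈ TNW m, g ^ Multiset.card τ =
      ∑ i ∈ Finset.range (m / 2 + 1), g ^ i * WT (fun _ j => g ^ j) (M - 2) (m - 2 * i) (i % 2) := by
  have hmem : ∀ τ ∈ TNW m, (∀ c ∈ τ, 2 ≤ c ∧ c ≤ m) ∧ τ.sum = m := by
    intro τ hτ
    unfold TNW at hτ
    rw [Finset.mem_filter] at hτ
    refine ⟨fun c hc => ⟨(bsum_mem hτ.1).1 c hc, ?_⟩, hτ.2⟩
    rw [← hτ.2]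
    exact Multiset.single_le_sum (fun _ _ => Nat.zero_le _) c hc
  have hmaps : ∀ τ ∈ TNW m, τ.count 2 ∈ Finset.range (m / 2 + 1) := by
    intro τ hτ
    obtain ⟨h1, h2⟩ := hmem τ hτ
    rw [Finset.mem_range]
    have h3 : 2 * τ.count 2 ≤ m := by
      obtain ⟨u, hu⟩ := Multiset.le_iff_exists_add.1
        (Multiset.le_count_iff_replicate_le.1 (le_refl (τ.count 2)))
      have h4 : τ.sum = τ.count 2 * 2 + u.sum := by
        conv_lhs => rw [hu]
        rw [Multiset.sum_add, Multiset.sum_replicate, smul_eq_mul]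
      omega
    omega
  rw [← Finset.sum_fiberwise_of_maps_to hmaps]
  refine Finset.sum_congr rfl fun i hi => ?_
  rw [Finset.mem_range] at hi
  have h5 := sum_TNW (R := ℕ) (fun _ j => g ^ j) (fun _ => pow_zero g) hm i
  rw [if_pos (by omega)] at h5
  rw [WT_stable (R := ℕ) (fun _ j => g ^ j) (fun _ => pow_zero g) (Nat.mod_lt _ (by norm_num))
    (by omega : m - 2 * i ≤ m - 2 + 2) (by omega : m - 2 ≤ M - 2), ← h5, Finset.mul_sum]
  refine Finset.sum_congr rfl fun τ hτ => ?_
  rw [Finset.mem_filter] at hτ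
  rw [card_eq_sum hm (hmem τ hτ.1).1, hτ.2, pow_add, Finset.prod_pow_eq_pow_sum]

theorem smZ_eq (W E O g fuel rm sg pw : ℕ) (hsg : sg < 2) (h : 2 * fuel ≤ rm + 2) :
    smZ W E O g fuel rm sg pw = ∑ i ∈ Finset.range fuel, pw * g ^ i *
      (if (sg + i) % 2 = 0 then slot W E (rm - 2 * i) else slot W O (rm - 2 * i)) := by
  induction fuel generalizing rm sg pw with
  | zero => rfl
  | succ n ih =>
    rw [Finset.sum_range_succ']
    rcases (by omega : sg = 0 ∨ sg = 1) with rfl | rfl
    · have e1 : smZ W E O g (n + 1) rm 0 pw =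
        pw * slot W E rm + smZ W E O g n (rm - 2) 1 (pw * g) := rfl
      rw [e1, ih (rm - 2) 1 (pw * g) (by norm_num) (by omega), Nat.add_comm]
      congr 1
      · refine Finset.sum_congr rfl fun i _ => ?_
        have e2 : rm - 2 - 2 * i = rm - 2 * (i + 1) := by omega
        have e3 : 1 + i = 0 + (i + 1) := by omega
        rw [e2, e3, pow_succ]
        ring
      · rw [if_pos (by norm_num), pow_zero, mul_one, Nat.mul_zero, Nat.sub_zero]
    · have e1 : smZ W E O g (n + 1) rm 1 pw =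
        pw * slot W O rm + smZ W E O g n (rm - 2) 0 (pw * g) := rfl
      rw [e1, ih (rm - 2) 0 (pw * g) (by norm_num) (by omega), Nat.add_comm]
      congr 1
      · refine Finset.sum_congr rfl fun i _ => ?_
        have e2 : rm - 2 - 2 * i = rm - 2 * (i + 1) := by omega
        have e3 : (0 + i) % 2 = (1 + (i + 1)) % 2 := by omega
        rw [e2, e3, pow_succ]
        ring
      · rw [if_neg (by norm_num), pow_zero, mul_one, Nat.mul_zero, Nat.sub_zero]

/-- MAIN -/
theorem smZ_TNW {W M g E O B m : ℕ} (hM : 3 ≤ M)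
    (h : rowZ W M (fun E O B => (E, O, B)) (glA g M (M - 2)) 3 1 0 1 = (E, O, B))
    (hB : B < 2 ^ W) (hm : 2 ≤ m) (hmM : m ≤ M) :
    smZ W E O g (m / 2 + 1) m 0 1 = ∑ τ ∈ TNW m, g ^ Multiset.card τ := by
  rw [smZ_eq _ _ _ _ _ _ _ _ (by norm_num) (by omega), TNW_WT hm hmM]
  refine Finset.sum_congr rfl fun i _ => ?_
  have h1 := rowZ_spec W M (glA g M (M - 2)) E O B h hB (t := m - 2 * i) (by omega) (glA_lens hM)
  rw [glA_len, WT_glA hM (by omega), WT_glA hM (by omega)] at h1
  rw [one_mul, zero_add]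
  rcases Nat.mod_two_eq_zero_or_one i with h2 | h2
  · rw [h2, if_pos rfl, h1.1]
  · rw [h2, if_neg (by norm_num), h1.2]

end Pool.MP322F
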