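import Pool.Agent.Lib.MP_322c5f_alF.FT07
import Pool.Agent.Lib.MP_322c5f_alF.FT01
import Pool.Agent.Lib.MP_322c5f_alF.FK03

/-! Soundness of the kernel bounds for `Phi` and `SL`. -/

set_option autoImplicit false

open Finset Equiv Nat

namespace Pool.MP322F

open Pool.MP322

private theorem div_le_natdiv (a b : ℕ) : (a : ℝ) / (b : ℝ) ≤ ((a / b + 1 : ℕ) : ℝ) := by
  rcases Nat.eq_zero_or_pos b with h | h
  · subst h
    rw [Nat.cast_zero, div_zero]
    positivity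
  · have hb : (0 : ℝ) < (b : ℝ) := by exact_mod_cast h
    rw [div_le_iff₀ hb]
    have h2 : a ≤ (a / b + 1) * b := by
      have h3 := Nat.lt_div_mul_add (a := a) h
      rw [Nat.add_mul, Nat.one_mul]
      omega
    exact_mod_cast h2

private theorem phK_succ (m A1 j : ℕ) : phK m A1 (j + 1) =
    (phK m A1 j * ((m - 2 * j) * (m - 2 * j - 1) + j * (A1 * A1 + (m - 2 * j)))) /
      ((j + 1) * ((m - 2 * j) * (m - 2 * j - 1))) + 1 := by
  have h : phK m A1 (j + 1) = frc (m - 2 * j) (fun u => (phK m A1 j *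
    (u * (u - 1) + j * (A1 * A1 + u))) / ((j + 1) * (u * (u - 1))) + 1) := rfl
  rw [h, frc_eq]

/-- each step rounds up; `fac m A1 j = (u(u-1) + j (A1² + u)) / ((j+1) u (u-1))`, `u = m - 2j` -/
theorem Phi_le_phK {m A1 N : ℕ} (h : 2 * N ≤ m) :
    Phi m (A1 : ℝ) N ≤ (phK m A1 N : ℝ) / 2 ^ 500 := by
  induction N with
  | zero =>
    have h1 : phK m A1 0 = 2 ^ 500 := rfl
    unfold Phi
    rw [Finset.prod_range_zero, h1, Nat.cast_pow, Nat.cast_ofNat, div_self (by positivity)]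
  | succ j ih =>
    have ih' := ih (by omega)
    obtain ⟨u, hu⟩ : ∃ u, m - 2 * j = u + 2 := ⟨m - 2 * j - 2, by omega⟩
    have hm : (m : ℝ) = (u : ℝ) + 2 + 2 * (j : ℝ) := by
      have : m = u + 2 + 2 * j := by omega
      exact_mod_cast this
    have hf : fac m (A1 : ℝ) j =
        (((u + 2) * (u + 1) + j * (A1 * A1 + (u + 2)) : ℕ) : ℝ) /
          (((j + 1) * ((u + 2) * (u + 1)) : ℕ) : ℝ) := by
      unfold fac
      have e1 : (m : ℝ) - 2 * (j : ℝ) = (u : ℝ) + 2 := by rw [hm]; ring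
      rw [e1]
      push_cast
      have e2 : (u : ℝ) + 2 - 1 = (u : ℝ) + 1 := by ring
      rw [e2]
      have h1 : (0 : ℝ) < (u : ℝ) + 2 := by positivity
      have h2 : (0 : ℝ) < (u : ℝ) + 1 := by positivity
      have h3 : (0 : ℝ) < (j : ℝ) + 1 := by positivity
      field_simp
    have hf0 : 0 ≤ fac m (A1 : ℝ) j := by
      rw [hf]
      positivity
    have hs : Phi m (A1 : ℝ) (j + 1) = Phi m (A1 : ℝ) j * fac m (A1 : ℝ) j := by
      unfold Phi
      rw [Finset.prod_range_succ]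
    have h4 := phK_succ m A1 j
    rw [hu] at h4
    have e3 : u + 2 - 1 = u + 1 := by omega
    rw [e3] at h4
    have h5 := div_le_natdiv (phK m A1 j * ((u + 2) * (u + 1) + j * (A1 * A1 + (u + 2))))
      ((j + 1) * ((u + 2) * (u + 1)))
    rw [← h4] at h5
    rw [hs]
    calc Phi m (A1 : ℝ) j * fac m (A1 : ℝ) j
        ≤ ((phK m A1 j : ℝ) / 2 ^ 500) * fac m (A1 : ℝ) j :=
          mul_le_mul_of_nonneg_right ih' hf0
      _ = (((phK m A1 j * ((u + 2) * (u + 1) + j * (A1 * A1 + (u + 2))) : ℕ) : ℝ) /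
            (((j + 1) * ((u + 2) * (u + 1)) : ℕ) : ℝ)) / 2 ^ 500 := by
          rw [hf, Nat.cast_mul (phK m A1 j)]
          ring
      _ ≤ (phK m A1 (j + 1) : ℝ) / 2 ^ 500 :=
          div_le_div_of_nonneg_right h5 (by positivity)

private theorem slK_sum (m A : ℕ) : ∀ cnt : ℕ,
    ∑ i ∈ Finset.range cnt, (LLn m (A + 1 + i) : ℝ) / (LLd m (A + 1 + i) : ℝ) ≤
      (slK m A cnt : ℝ) / 2 ^ 400 := by
  intro cnt
  induction cnt with
  | zero =>
    rw [Finset.sum_range_zero]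
    positivity
  | succ i ih =>
    have h1 : slK m A (i + 1) = slK m A i +
        (lln m (A + (i + 1)) * 2 ^ 400 / lld m (A + (i + 1)) + 1) := rfl
    rw [lln_eq, lld_eq] at h1
    have e1 : A + (i + 1) = A + 1 + i := by omega
    rw [e1] at h1
    rw [Finset.sum_range_succ, h1, Nat.cast_add, add_div]
    refine add_le_add ih ?_
    have h2 := div_le_natdiv (LLn m (A + 1 + i) * 2 ^ 400) (LLd m (A + 1 + i))
    rw [le_div_iff₀ (by positivity)]
    refine le_trans (le_of_eq ?_) h2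
    rw [Nat.cast_mul, Nat.cast_pow, Nat.cast_ofNat]
    ring

/-- `LLd > 0` for `1 ≤ a ≤ m`; `lln_eq`, `lld_eq` -/
theorem SL_le_slK {m A : ℕ} (h : A + 1 ≤ (m + 1) / 2) :
    SL m A ≤ (slK m A ((m + 1) / 2 - (A + 1)) : ℝ) / 2 ^ 400 := by
  refine le_trans (le_of_eq ?_) (slK_sum m A ((m + 1) / 2 - (A + 1)))
  unfold SL
  have h1 : (Finset.range ((m + 1) / 2)).filter (fun a => A < a) =
      (Finset.range ((m + 1) / 2 - (A + 1))).image (fun i => A + 1 + i) := by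
    ext a
    rw [Finset.mem_filter, Finset.mem_range, Finset.mem_image]
    constructor
    · rintro ⟨h2, h3⟩
      exact ⟨a - (A + 1), Finset.mem_range.2 (by omega), by omega⟩
    · rintro ⟨i, hi, rfl⟩
      rw [Finset.mem_range] at hi
      omega
  rw [h1, Finset.sum_image (fun a _ b _ hab => by simpa using hab)]

/-- one `m` -/
theorem ckT1_sound {m A C1 C2 b b' : ℕ} (hA : 1 ≤ A) (hA2 : A + 1 ≤ (m + 1) / 2)
    (h1 : (TNW m).card = C1) (h2 : TW m = C2) (h : ckT1 m A C1 C2 b b' = 0) :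
    IIb m A (m / 3) ≤ ((b : ℝ) + b') / 2 ^ 40 := by
  have h3 : ((C1 * C1) * (phK m (A - 1) (m / 3) * 2 ^ 80) - (b * b) * 2 ^ 500) +
      ((C2 * slK m A ((m + 1) / 2 - (A + 1))) * 2 ^ 40 - b' * 2 ^ 400) = 0 := h
  have h4 : (C1 * C1) * (phK m (A - 1) (m / 3) * 2 ^ 80) ≤ (b * b) * 2 ^ 500 :=
    Nat.sub_eq_zero_iff_le.1 (Nat.eq_zero_of_add_eq_zero_right h3)
  have h5 : (C2 * slK m A ((m + 1) / 2 - (A + 1))) * 2 ^ 40 ≤ b' * 2 ^ 400 :=
    Nat.sub_eq_zero_iff_le.1 (Nat.eq_zero_of_add_eq_zero_left h3)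
  have hP := Phi_le_phK (m := m) (A1 := A - 1) (N := m / 3) (by omega)
  have hcA : ((A - 1 : ℕ) : ℝ) = (A : ℝ) - 1 := by rw [Nat.cast_sub hA, Nat.cast_one]
  rw [hcA] at hP
  have hS := SL_le_slK (m := m) (A := A) hA2
  unfold IIb
  rw [h1, h2, add_div]
  refine add_le_add ?_ ?_
  · have h6 : ((C1 : ℝ) * C1) * ((phK m (A - 1) (m / 3) : ℝ) * 2 ^ 80) ≤ ((b : ℝ) * b) * 2 ^ 500 := by
      exact_mod_cast h4
    have h7 : (C1 : ℝ) * Real.sqrt (Phi m ((A : ℝ) - 1) (m / 3)) =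
        Real.sqrt ((C1 : ℝ) ^ 2 * Phi m ((A : ℝ) - 1) (m / 3)) := by
      rw [Real.sqrt_mul (sq_nonneg _), Real.sqrt_sq (Nat.cast_nonneg _)]
    rw [h7]
    apply Real.sqrt_le_iff.2
    refine ⟨by positivity, ?_⟩
    calc (C1 : ℝ) ^ 2 * Phi m ((A : ℝ) - 1) (m / 3)
        ≤ (C1 : ℝ) ^ 2 * ((phK m (A - 1) (m / 3) : ℝ) / 2 ^ 500) :=
          mul_le_mul_of_nonneg_left hP (sq_nonneg _)
      _ = (((C1 : ℝ) * C1) * ((phK m (A - 1) (m / 3) : ℝ) * 2 ^ 80)) / (2 ^ 80 * 2 ^ 500) := by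
          rw [mul_comm ((2 : ℝ) ^ 80), ← div_div]
          field_simp
      _ ≤ (((b : ℝ) * b) * 2 ^ 500) / (2 ^ 80 * 2 ^ 500) :=
          div_le_div_of_nonneg_right h6 (by positivity)
      _ = ((b : ℝ) / 2 ^ 40) ^ 2 := by
          rw [div_pow, ← pow_mul]
          rw [mul_div_mul_right _ _ (by positivity : ((2 : ℝ) ^ 500) ≠ 0)]
          rw [sq]
  · have h6 : ((C2 : ℝ) * (slK m A ((m + 1) / 2 - (A + 1)) : ℝ)) * 2 ^ 40 ≤
        (b' : ℝ) * 2 ^ 400 := by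
      exact_mod_cast h5
    calc (C2 : ℝ) * SL m A
        ≤ (C2 : ℝ) * ((slK m A ((m + 1) / 2 - (A + 1)) : ℝ) / 2 ^ 400) :=
          mul_le_mul_of_nonneg_left hS (Nat.cast_nonneg _)
      _ = (((C2 : ℝ) * (slK m A ((m + 1) / 2 - (A + 1)) : ℝ)) * 2 ^ 40) / (2 ^ 40 * 2 ^ 400) := by
          rw [mul_comm ((2 : ℝ) ^ 40), ← div_div, mul_div_assoc]
          field_simp
      _ ≤ ((b' : ℝ) * 2 ^ 400) / (2 ^ 40 * 2 ^ 400) :=
          div_le_div_of_nonneg_right h6 (by positivity)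
      _ = (b' : ℝ) / 2 ^ 40 := by
          rw [mul_div_mul_right _ _ (by positivity : ((2 : ℝ) ^ 400) ≠ 0)]

end Pool.MP322F
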