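import Pool.Agent.Lib.MP_322c5f_alF.FT08a
import Pool.Agent.Lib.MP_322c5f_alF.FT08b
import Pool.Agent.Lib.MP_322c5f_alF.FE04

/-! Soundness of the kernel check for the tail. -/

set_option autoImplicit false

open Finset Equiv Nat

namespace Pool.MP322F

open Pool.MP322

private theorem pkS_ex (sh par : ℕ) : ∀ (ss : NL) (pos sg P Q : ℕ), ∃ p q : ℕ,
    ∀ (α : Type) (k : ℕ → ℕ → α), pkS sh par k ss pos sg P Q = k p q := by
  intro ss
  induction ss with
  | nil => intro pos sg P Q; exact ⟨P, Q, fun _ _ => rfl⟩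
  | cons s l ih =>
    intro pos sg P Q
    cases sg with
    | zero =>
      obtain ⟨p, q, h⟩ := ih (Nat.add pos sh) par (Nat.add P (Nat.shiftLeft s pos)) Q
      refine ⟨p, q, fun α k => ?_⟩
      have e1 : pkS sh par k (NL.cons s l) pos 0 P Q =
          frc (Nat.add P (Nat.shiftLeft s pos)) (fun P' => pkS sh par k l (Nat.add pos sh) par P' Q) :=
        rfl
      rw [e1, frc_eq]
      exact h α k
    | succ sg =>
      obtain ⟨p, q, h⟩ := ih (Nat.add pos sh) (Nat.sub 1 par) P (Nat.add Q (Nat.shiftLeft s pos))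
      refine ⟨p, q, fun α k => ?_⟩
      have e1 : pkS sh par k (NL.cons s l) pos (sg + 1) P Q =
          frc (Nat.add Q (Nat.shiftLeft s pos)) (fun Q' => pkS sh par k l (Nat.add pos sh)
            (Nat.sub 1 par) P Q') := rfl
      rw [e1, frc_eq]
      exact h α k

/-- `rowZ` is the continuation applied to a triple that does not depend on the continuation -/
private theorem rowZ_ex (W M : ℕ) : ∀ (sl : LL) (c E O B : ℕ), ∃ e o b : ℕ,
    ∀ (α : Type) (k : ℕ → ℕ → ℕ → α), rowZ W M k sl c E O B = k e o b := by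
  intro sl
  induction sl with
  | nil => intro c E O B; exact ⟨E, O, B, fun _ _ => rfl⟩
  | cons ss sl ih =>
    intro c E O B
    obtain ⟨p, q, h1⟩ := pkS_ex (Nat.mul W c) (Nat.mod (Nat.sub c 1) 2) ss 0 0 0 0
    obtain ⟨e, o, b, h2⟩ := ih (Nat.succ c)
      (Nat.mod (Nat.add (Nat.mul E p) (Nat.mul O q)) (Nat.pow 2 (Nat.mul W (Nat.succ M))))
      (Nat.mod (Nat.add (Nat.mul O p) (Nat.mul E q)) (Nat.pow 2 (Nat.mul W (Nat.succ M))))
      (Nat.mul B (NL.tot ss))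
    refine ⟨e, o, b, fun α k => ?_⟩
    have e1 : rowZ W M k (LL.cons ss sl) c E O B = pkS (Nat.mul W c) (Nat.mod (Nat.sub c 1) 2)
      (fun P Q =>
      frc (Nat.mod (Nat.add (Nat.mul E P) (Nat.mul O Q)) (Nat.pow 2 (Nat.mul W (Nat.succ M)))) (fun E' =>
      frc (Nat.mod (Nat.add (Nat.mul O P) (Nat.mul E Q)) (Nat.pow 2 (Nat.mul W (Nat.succ M)))) (fun O' =>
      frc (Nat.mul B (NL.tot ss)) (fun B' => frc (Nat.succ c) (fun c' =>
        rowZ W M k sl c' E' O' B')))))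
      ss 0 0 0 0 := rfl
    rw [e1, h1]
    simp only [frc_eq]
    exact h2 α k

private theorem gt_map {α β : Type} (f : α → β) (g : ℕ → ℕ → α) : ∀ (l : NP) (i : ℕ),
    NP.gt l (fun a b => f (g a b)) i = f (NP.gt l g i) := by
  intro l
  induction l with
  | nil => intro i; rfl
  | cons a b t ih =>
    intro i
    cases i with
    | zero => rfl
    | succ i => exact ih i

private theorem ckT_all (W1 E1 O1 W2 E2 O2 : ℕ) : ∀ (spec : NP) (m : ℕ),
    ckT W1 E1 O1 W2 E2 O2 spec m = 0 → ∀ i, i < NP.len spec →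
      ckT1 (m + i) (7 * (m + i) / 30) (smZ W1 E1 O1 1 ((m + i) / 2 + 1) (m + i) 0 1)
        (smZ W2 E2 O2 2 ((m + i) / 2 + 1) (m + i) 0 1) (NP.gt spec (fun b _ => b) i)
        (NP.gt spec (fun _ b' => b') i) = 0 := by
  intro spec
  induction spec with
  | nil => intro m _ i hi; exact absurd hi (Nat.not_lt_zero i)
  | cons b b' t ih =>
    intro m h i hi
    have e1 : ckT W1 E1 O1 W2 E2 O2 (NP.cons b b' t) m =
      Nat.add (ckT1 m (Nat.div (Nat.mul 7 m) 30) (smZ W1 E1 O1 1 (Nat.succ (Nat.div m 2)) m 0 1)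
        (smZ W2 E2 O2 2 (Nat.succ (Nat.div m 2)) m 0 1) b b')
      (frc (Nat.add m 1) (fun m' => ckT W1 E1 O1 W2 E2 O2 t m')) := rfl
    rw [e1, frc_eq] at h
    have h2 : ckT1 m (7 * m / 30) (smZ W1 E1 O1 1 (m / 2 + 1) m 0 1)
        (smZ W2 E2 O2 2 (m / 2 + 1) m 0 1) b b' = 0 := Nat.eq_zero_of_add_eq_zero_right h
    have h3 : ckT W1 E1 O1 W2 E2 O2 t (m + 1) = 0 := Nat.eq_zero_of_add_eq_zero_left h
    cases i with
    | zero => exact h2
    | succ i =>
      have h4 := ih (m + 1) h3 i (Nat.lt_of_succ_lt_succ hi)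
      have e2 : m + (i + 1) = m + 1 + i := by omega
      rw [e2]
      exact h4

/-- MAIN: (`rowZ` in continuation form: `rowZ W M k sl c E O B` is `k` applied to the result of
`rowZ` with `k = (E, O, B)`; `smZ_TNW` with `g = 1` (`1 ^ card = 1`) and `g = 2`; `ckT1_sound`) -/
theorem ckTall_sound {W1 W2 M : ℕ} (hM : 3 ≤ M) {spec : NP} (h : ckTall W1 W2 M spec = 0)
    (i : ℕ) (hi : i < NP.len spec) (hiM : 101 + i ≤ M) :
    IIb (101 + i) (7 * (101 + i) / 30) ((101 + i) / 3) ≤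
      ((NP.gt spec (fun b _ => b) i : ℝ) + (NP.gt spec (fun _ b' => b') i : ℝ)) / 2 ^ 40 := by
  unfold ckTall at h
  obtain ⟨E1, O1, B1, h1⟩ := rowZ_ex W1 M (glA 1 M (M - 2)) 3 1 0 1
  obtain ⟨E2, O2, B2, h2⟩ := rowZ_ex W2 M (glA 2 M (M - 2)) 3 1 0 1
  have h3 : (((B1 + 1) - 2 ^ W1) + ((B2 + 1) - 2 ^ W2)) + ckT W1 E1 O1 W2 E2 O2 spec 101 = 0 := by
    rw [show Nat.sub M 2 = M - 2 from rfl, h1, h2] at h
    exact h
  have hB1 : B1 < 2 ^ W1 := by omega
  have hB2 : B2 < 2 ^ W2 := by omega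
  have h4 : ckT W1 E1 O1 W2 E2 O2 spec 101 = 0 := by omega
  have h5 := ckT_all W1 E1 O1 W2 E2 O2 spec 101 h4 i hi
  have e1 : NP.gt spec (fun b _ => (b : ℝ)) i = ((NP.gt spec (fun b _ => b) i : ℕ) : ℝ) :=
    gt_map (fun b : ℕ => (b : ℝ)) (fun b _ => b) spec i
  have e2 : NP.gt spec (fun _ b' => (b' : ℝ)) i = ((NP.gt spec (fun _ b' => b') i : ℕ) : ℝ) :=
    gt_map (fun b : ℕ => (b : ℝ)) (fun _ b' => b') spec i
  rw [e1, e2]
  have h6 := smZ_TNW (W := W1) (g := 1) hM (h1 _ _) hB1 (m := 101 + i) (by omega) hiM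
  have h7 := smZ_TNW (W := W2) (g := 2) hM (h2 _ _) hB2 (m := 101 + i) (by omega) hiM
  refine ckT1_sound (by omega) (by omega) ?_ ?_ h5
  · rw [h6]
    simp
  · rw [h7]
    rfl

/-- sum of all entries -/
noncomputable def NP.tot (l : NP) : ℕ :=
  NP.rec (motive := fun _ => ℕ) 0 (fun b b' _ ih => Nat.add (Nat.add b b') ih) l

theorem NP_tot (l : NP) : ∑ i ∈ Finset.range (NP.len l),
    (NP.gt l (fun b _ => b) i + NP.gt l (fun _ b' => b') i) = NP.tot l := by
  induction l with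
  | nil => rfl
  | cons b b' t ih =>
    have e1 : NP.len (NP.cons b b' t) = NP.len t + 1 := rfl
    have e2 : NP.tot (NP.cons b b' t) = b + b' + NP.tot t := rfl
    rw [e1, e2, Finset.sum_range_succ', ← ih, Nat.add_comm]
    rfl

end Pool.MP322F
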