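import Pool.Agent.Lib.MP_322c5f_alF.FT07

/-! Generated: bounds for the tail `101 ≤ m ≤ 300`, scaled by `2^40`. -/

set_option autoImplicit false
set_option maxRecDepth 100000

namespace Pool.MP322F

noncomputable def specII : NP := (.cons 676229909 518379709 (.cons 358802963 620576233 (.cons 636236398 194947228 (.cons 506829355 254148905 (.cons 270446967 247761262 (.cons 213711914 295947456 (.cons 170298021 329940974 (.cons 203192506 121171726 (.cons 159503843 117910031 (.cons 126258482 140554460 (.cons 66116392 156348156 (.cons 118701254 57532769 (.cons 93356096 55889297 (.cons 49164175 66497041 (.cons 38379273 73816123 (.cons 68848569 27211449 (.cons 36446918 26392482 (.cons 28285568 31346717 (.cons 22120954 34730374 (.cons 26939644 12823828 (.cons 20789265 12419563 (.cons 16165509 14726864 (.cons 8412568 16287548 (.cons 6496137 20558670 (.cons 11784224 5825057 (.cons 6164190 6896741 (.cons 4734347 7615006 (.cons 3662700 9594927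 (.cons 4504244 2723616 (.cons 3441899 3220119 (.cons 2648795 3549991 (.cons 1363818 4465639 (.cons 2495998 1269755 (.cons 1911292 1499227 (.cons 988976 1650422 (.cons 752464 2072923 (.cons 576418 2017390 (.cons 715365 696140 (.cons 541737 765307 (.cons 413011 959840 (.cons 210593 932580 (.cons 389132 322420 (.cons 295303 354004 (.cons 151305 443388 (.cons 114131 430127 (.cons 210699 148970 (.cons 108453 163367 (.cons 81457 204357 (.cons 61568 197956 (.cons 77557 68673 (.cons 58011 75224 (.cons 43662 93986 (.cons 22171 90917 (.cons 16592 107462 (.cons 30902 34565 (.cons 15762 43137 (.cons 11749 41674 (.cons 8810 49189 (.cons 11182 15850 (.cons 8303 19760 (.cons 6202 19067 (.cons 3124 22475 (.cons 5856 7255 (.cons 4358 9035 (.cons 2204 8708 (.cons 1632 10252 (.cons 1215 11221 (.cons 1553 4124 (.cons 1145 3970 (.cons 850 4668 (.cons 425 5104 (.cons 802 1879 (.cons 593 1807 (.cons 298 2123 (.cons 219 2318 (.cons 413 855 (.cons 209 822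 (.cons 153 964 (.cons 113 1051 (.cons 146 389 (.cons 107 373 (.cons 78 437 (.cons 39 476 (.cons 29 589 (.cons 54 169 (.cons 28 198 (.cons 20 216 (.cons 15 266 (.cons 19 77 (.cons 14 90 (.cons 10 98 (.cons 5 120 (.cons 10 35 (.cons 7 41 (.cons 4 44 (.cons 3 55 (.cons 2 53 (.cons 3 19 (.cons 2 20 (.cons 2 25 (.cons 1 24 (.cons 2 9 (.cons 1 9 (.cons 1 11 (.cons 1 11 (.cons 1 4 (.cons 1 4 (.cons 1 5 (.cons 1 5 (.cons 1 2 (.cons 1 2 (.cons 1 3 (.cons 1 3 (.cons 1 3 (.cons 1 1 (.cons 1 1 (.cons 1 1 (.cons 1 2 (.cons 1 1 (.cons 1 1 (.cons 1 1 (.cons 1 1 (.cons 1 1 (.cons 1 1 (.cons 1 1 (.cons 1 1 (.cons 1 1 (.cons 1 1 (.cons 1 1 (.cons 1 1 (.cons 1 1 (.cons 1 1 (.cons 1 1 (.cons 1 1 (.cons 1 1 (.cons 1 1 (.cons 1 1 (.cons 1 1 (.cons 1 1 (.cons 1 1 (.cons 1 1 (.cons 1 1 (.cons 1 1 (.cons 1 1 (.cons 1 1 (.cons 1 1 (.cons 1 1 (.cons 1 1 (.cons 1 1 (.cons 1 1 (.cons 1 1 (.cons 1 1 (.cons 1 1 (.cons 1 1 (.cons 1 1 (.cons 1 1 (.cons 1 1 (.cons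 1 1 (.cons 1 1 (.cons 1 1 (.cons 1 1 (.cons 1 1 (.cons 1 1 (.cons 1 1 (.cons 1 1 (.cons 1 1 (.cons 1 1 (.cons 1 1 (.cons 1 1 (.cons 1 1 (.cons 1 1 (.cons 1 1 (.cons 1 1 (.cons 1 1 (.cons 1 1 (.cons 1 1 (.cons 1 1 (.cons 1 1 (.cons 1 1 (.cons 1 1 (.cons 1 1 (.cons 1 1 (.cons 1 1 (.cons 1 1 (.cons 1 1 (.cons 1 1 (.cons 1 1 (.cons 1 1 (.cons 1 1 (.cons 1 1 (.cons 1 1 (.cons 1 1 (.cons 1 1 (.cons 1 1 (.cons 1 1 (.cons 1 1 (.cons 1 1 (.cons 1 1 (.cons 1 1 (.cons 1 1 .nil))))))))))))))))))))))))))))))))))))))))))))))))))))))))))))))))))))))))))))))))))))))))))))))))))))))))))))))))))))))))))))))))))))))))))))))))))))))))))))))))))))))))))))))))))))))))))))))))))))))))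

theorem hspecII : ckTall 528 1544 300 specII = 0 := by decide +kernel

end Pool.MP322F
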