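import Pool.Agent.Lib.MP_322c5f_alF.FT02
import Pool.Agent.Lib.MP_322c5f_alF.FT04
import Pool.Agent.Lib.MP_322c5f_alF.FC04

/-! The majorant for `n > 100`. -/

set_option autoImplicit false

open Finset Equiv Nat
open scoped NNReal

namespace Pool.MP322F

open Pool.MP322

private theorem ft10_step {N M K : ℕ} (hM : M + 1 ≤ N) (hK : K ≤ N) :
    (M.choose K : ℝ) * (N : ℝ) ≤ ((M + 1).choose K : ℝ) * ((N : ℝ) - K) := by
  have hKN : (K : ℝ) ≤ N := by exact_mod_cast hK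
  rcases Nat.lt_or_ge M K with h | h
  · rw [Nat.choose_eq_zero_of_lt h]
    have h1 : (0 : ℝ) ≤ ((M + 1).choose K : ℝ) := Nat.cast_nonneg _
    have h2 : 0 ≤ (N : ℝ) - K := by linarith
    simpa using mul_nonneg h1 h2
  · have h1 := Nat.choose_mul_succ_eq M K
    have h2 : ((M + 1 - K : ℕ) : ℝ) = (M : ℝ) + 1 - K := by
      rw [Nat.cast_sub (by omega)]
      push_cast
      ring
    have h3 : (M.choose K : ℝ) * ((M : ℝ) + 1) = ((M + 1).choose K : ℝ) * ((M : ℝ) + 1 - K) := by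
      rw [← h2]
      exact_mod_cast h1
    have h4 : (M : ℝ) + 1 ≤ N := by exact_mod_cast hM
    have h5 : (0 : ℝ) < (M : ℝ) + 1 := by positivity
    have h6 : (0 : ℝ) ≤ ((M + 1).choose K : ℝ) := Nat.cast_nonneg _
    have h7 : (0 : ℝ) ≤ K := Nat.cast_nonneg _
    refine le_of_mul_le_mul_right ?_ h5
    calc (M.choose K : ℝ) * (N : ℝ) * ((M : ℝ) + 1) =
        ((M.choose K : ℝ) * ((M : ℝ) + 1)) * N := by ring
      _ = ((M + 1).choose K : ℝ) * (((M : ℝ) + 1 - K) * N) := by rw [h3]; ring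
      _ ≤ ((M + 1).choose K : ℝ) * (((N : ℝ) - K) * ((M : ℝ) + 1)) := by
          refine mul_le_mul_of_nonneg_left ?_ h6
          nlinarith
      _ = _ := by ring

/-- `C(N-c,K) / C(N,K) ≤ ((N-K)/N)^c` -/
theorem choose_ratio {N c K : ℕ} (hc : c ≤ N) (hK : K ≤ N) :
    ((N - c).choose K : ℝ) * (N : ℝ) ^ c ≤ (N.choose K : ℝ) * ((N : ℝ) - K) ^ c := by
  have hKN : (K : ℝ) ≤ N := by exact_mod_cast hK
  induction c with
  | zero => simp
  | succ c ih =>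
    have h1 := ih (by omega)
    have h2 := ft10_step (N := N) (M := N - (c + 1)) (K := K) (by omega) hK
    have e : N - (c + 1) + 1 = N - c := by omega
    rw [e] at h2
    have h3 : (0 : ℝ) ≤ (N : ℝ) ^ c := by positivity
    have h4 : 0 ≤ (N : ℝ) - K := by linarith
    calc ((N - (c + 1)).choose K : ℝ) * (N : ℝ) ^ (c + 1) =
        (((N - (c + 1)).choose K : ℝ) * N) * (N : ℝ) ^ c := by ring
      _ ≤ (((N - c).choose K : ℝ) * ((N : ℝ) - K)) * (N : ℝ) ^ c :=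
          mul_le_mul_of_nonneg_right h2 h3
      _ = (((N - c).choose K : ℝ) * (N : ℝ) ^ c) * ((N : ℝ) - K) := by ring
      _ ≤ ((N.choose K : ℝ) * ((N : ℝ) - K) ^ c) * ((N : ℝ) - K) :=
          mul_le_mul_of_nonneg_right h1 h4
      _ = _ := by ring

/-- `C(N,K) C(q,k) ≤ C(N,k) C(q,K)` -/
theorem choose_cross {N q k K : ℕ} (hK : K ≤ k) (hkq : k ≤ q) (hq : q ≤ N) :
    N.choose K * q.choose k ≤ N.choose k * q.choose K := by
  have h1 := Nat.choose_mul (n := N) (k := k) (s := K) hK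
  have h2 := Nat.choose_mul (n := q) (k := k) (s := K) hK
  have h3 : (q - K).choose (k - K) ≤ (N - K).choose (k - K) :=
    Nat.choose_le_choose _ (by omega)
  have h4 : 0 < k.choose K := Nat.choose_pos hK
  refine Nat.le_of_mul_le_mul_right ?_ h4
  calc N.choose K * q.choose k * k.choose K = N.choose K * (q.choose k * k.choose K) := by ring
    _ = N.choose K * q.choose K * (q - K).choose (k - K) := by rw [h2]; ring
    _ ≤ N.choose K * q.choose K * (N - K).choose (k - K) := Nat.mul_le_mul_left _ h3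
    _ = (N.choose K * (N - K).choose (k - K)) * q.choose K := by ring
    _ = _ := by rw [← h1]; ring

/-- `Dl (n-1) K = C(n-1,K) (n-2K)/(n-K) ≥ (4/11) C(n-1,K)` for `18K ≤ 7n` (`Dl_mul`) -/
theorem Dl_low {n K : ℕ} (hn : 1 ≤ n) (h : 18 * K ≤ 7 * n) :
    ((n - 1).choose K : ℝ) ≤ (11 / 4) * (Dl (n - 1) K : ℝ) := by
  have h1 := Dl_mul (n := n - 1) (k := K) (by omega)
  have h2 : (Dl (n - 1) K : ℝ) * ((n : ℝ) - K) = ((n - 1).choose K : ℝ) * ((n : ℝ) - 2 * K) := by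
    have h3 : ((n - 1 : ℕ) : ℤ) = (n : ℤ) - 1 := by
      rw [Nat.cast_sub hn]
      norm_num
    rw [h3] at h1
    have h4 : Dl (n - 1) K * ((n : ℤ) - K) = ((n - 1).choose K : ℤ) * ((n : ℤ) - 2 * K) := by
      linear_combination h1
    exact_mod_cast h4
  have h5 : (18 : ℝ) * K ≤ 7 * n := by exact_mod_cast h
  have h6 : (1 : ℝ) ≤ n := by exact_mod_cast hn
  have h7 : (0 : ℝ) ≤ K := Nat.cast_nonneg _
  have h8 : 0 < (n : ℝ) - K := by linarith
  have h9 : (0 : ℝ) ≤ ((n - 1).choose K : ℝ) := Nat.cast_nonneg _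
  refine le_of_mul_le_mul_right ?_ h8
  calc ((n - 1).choose K : ℝ) * ((n : ℝ) - K) ≤
      ((n - 1).choose K : ℝ) * ((11 / 4) * ((n : ℝ) - 2 * K)) := by
        refine mul_le_mul_of_nonneg_left ?_ h9
        linarith
    _ = (11 / 4) * (((n - 1).choose K : ℝ) * ((n : ℝ) - 2 * K)) := by ring
    _ = (11 / 4) * ((Dl (n - 1) K : ℝ) * ((n : ℝ) - K)) := by rw [h2]
    _ = _ := by ring

/-- the majorant: `A`, `b1`, `b2` bound the table at `100`, `II m` the part of `NW m` that does not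
depend on the depth -/
noncomputable def Gm (A b1 b2 : ℝ) (II : ℕ → ℝ) (n K : ℕ) : ℝ :=
  (A + ∑ m ∈ Finset.Ioc 100 n, II m) * max 0 (Dl (n - 1) K : ℝ) +
    b1 * ((n - 1 - 17).choose K : ℝ) + b2 * ((n - 1 - 44).choose K : ℝ) +
    ∑ m ∈ Finset.Ioc 100 n, ∑ k ∈ Finset.Icc 1 (m / 2),
      rh m k * ((n - 1 - (m - 2 * k)).choose K : ℝ)

private theorem ft10_rh_nonneg {m k : ℕ} (hk : 2 * k ≤ m) : 0 ≤ rh m k := by
  unfold rh
  have h : (0 : ℝ) < (Dl m k : ℝ) := by exact_mod_cast Dl_pos hk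
  positivity

private theorem ft10_Dl_nonneg {n K : ℕ} (h : 2 * K ≤ n + 1) : (0 : ℝ) ≤ (Dl n K : ℝ) := by
  rcases Nat.lt_or_ge n (2 * K) with h1 | h1
  · obtain ⟨J, rfl⟩ : ∃ J, K = J + 1 := ⟨K - 1, by omega⟩
    have e : n = 2 * J + 1 := by omega
    rw [e, Dl_half]
    simp
  · have h2 : 0 < Dl n K := Dl_pos h1
    exact_mod_cast h2.le

private theorem ft10_sum_nonneg {II : ℕ → ℝ} (hII0 : ∀ m, 100 < m → 0 ≤ II m) (n : ℕ) :
    0 ≤ ∑ m ∈ Finset.Ioc 100 n, II m :=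
  Finset.sum_nonneg fun m hm => hII0 m (Finset.mem_Ioc.1 hm).1

private theorem ft10_Ioc {n : ℕ} (hn : 100 ≤ n) (f : ℕ → ℝ) :
    ∑ m ∈ Finset.Ioc 100 (n + 1), f m = ∑ m ∈ Finset.Ioc 100 n, f m + f (n + 1) := by
  rw [Finset.sum_Ioc_succ_top (by omega)]

private theorem ft10_NW_zero (n : ℕ) : NW n 0 = NW n 1 := by
  unfold NW
  refine Finset.sum_congr rfl fun τ hτ => ?_
  exact sv_zero_eq τ (Finset.mem_filter.1 hτ).1

private theorem ft10_TS_le {m k : ℕ} (hk1 : 1 ≤ k) (hk : 2 * k ≤ m) :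
    (TS m k : ℝ) / (Dl m k : ℝ) ≤ rh m k := by
  unfold rh
  have h : (0 : ℝ) < (Dl m k : ℝ) := by exact_mod_cast Dl_pos hk
  have h1 : (0 : ℝ) < ((2 * k - 1).choose k : ℝ) := by
    exact_mod_cast Nat.choose_pos (by omega)
  have h2 : ((2 * k - 1).choose k : ℝ) ≤ ((m - 1).choose k : ℝ) := by
    exact_mod_cast Nat.choose_le_choose k (by omega)
  refine le_mul_of_one_le_right (by positivity) ?_
  rw [one_le_div h1]
  exact h2

/-- `FS_majorant`.  Recursion step at `n + 1`, `K + 1`, `2 (K+1) ≤ n`: Pascal for all binomials,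
`Dl_succ` (all `Dl` are `≥ 0` in this range) and
`Dl n (K+1) TS/Dl (n+1) k ≤ rh (n+1) k C(2k-1, K+1)` for `K + 1 ≤ k` by `Dl_le_choose` and
`choose_cross` (`N = n`, `q = 2k-1`).  At `K = 0`: `NW n 0 = NW n 1` (`sv_zero_eq`). -/
theorem FS_le_Gm {A b1 b2 : ℝ} {II : ℕ → ℝ} (hA : 0 ≤ A) (hb1 : 0 ≤ b1) (hb2 : 0 ≤ b2)
    (hII0 : ∀ m, 100 < m → 0 ≤ II m)
    (hII : ∀ m K, 100 < m → 1 ≤ K →
      (NW m K : ℝ) ≤ (∑ k ∈ Finset.Icc K (m / 2), (TS m k : ℝ) / (Dl m k : ℝ)) + II m)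
    (h100 : ∀ K, 2 * K + 1 ≤ 100 → (Dl 99 K : ℝ) * FS 100 K ≤ Gm A b1 b2 II 100 K) :
    ∀ n K, 100 ≤ n → 2 * K + 1 ≤ n → (Dl (n - 1) K : ℝ) * FS n K ≤ Gm A b1 b2 II n K := by
  refine FS_majorant (M := 100) (by norm_num) (Gm A b1 b2 II) ?_ ?_ ?_ ?_
  · intro n K hn
    unfold Gm
    have h1 := ft10_sum_nonneg hII0 n
    have h2 : (0 : ℝ) ≤ max 0 (Dl (n - 1) K : ℝ) := le_max_left _ _
    have h3 : 0 ≤ ∑ m ∈ Finset.Ioc 100 n, ∑ k ∈ Finset.Icc 1 (m / 2),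
        rh m k * ((n - 1 - (m - 2 * k)).choose K : ℝ) := by
      refine Finset.sum_nonneg fun m _ => Finset.sum_nonneg fun k hk => ?_
      rw [Finset.mem_Icc] at hk
      exact mul_nonneg (ft10_rh_nonneg (by omega)) (Nat.cast_nonneg _)
    have h4 : 0 ≤ (A + ∑ m ∈ Finset.Ioc 100 n, II m) * max 0 (Dl (n - 1) K : ℝ) :=
      mul_nonneg (by linarith) h2
    have h5 : 0 ≤ b1 * ((n - 1 - 17).choose K : ℝ) := mul_nonneg hb1 (Nat.cast_nonneg _)
    have h6 : 0 ≤ b2 * ((n - 1 - 44).choose K : ℝ) := mul_nonneg hb2 (Nat.cast_nonneg _)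
    linarith
  · exact h100
  · intro n hn
    have hN : (NW (n + 1) 0 : ℝ) ≤
        (∑ k ∈ Finset.Icc 1 ((n + 1) / 2), rh (n + 1) k) + II (n + 1) := by
      rw [ft10_NW_zero]
      refine (hII (n + 1) 1 (by omega) le_rfl).trans ?_
      gcongr with k hk
      rw [Finset.mem_Icc] at hk
      exact ft10_TS_le hk.1 (by omega)
    unfold Gm
    rw [ft10_Ioc hn, ft10_Ioc hn]
    simp only [Dl_zero, Nat.choose_zero_right, Nat.cast_one, Int.cast_one, mul_one]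
    have e : max (0 : ℝ) 1 = 1 := max_eq_right zero_le_one
    rw [e]
    linarith
  · intro n K hn hK
    have hD1 : (0 : ℝ) ≤ (Dl (n - 1) K : ℝ) := ft10_Dl_nonneg (by omega)
    have hD2 : (0 : ℝ) ≤ (Dl (n - 1) (K + 1) : ℝ) := ft10_Dl_nonneg (by omega)
    have hD3 : (0 : ℝ) ≤ (Dl n (K + 1) : ℝ) := ft10_Dl_nonneg (by omega)
    have hD : (Dl n (K + 1) : ℝ) = (Dl (n - 1) (K + 1) : ℝ) + (Dl (n - 1) K : ℝ) := by
      have h3 := Dl_succ (n - 1) K
      have e2 : n - 1 + 1 = n := by omega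
      rw [e2] at h3
      rw [h3]
      push_cast
      ring
    have hP : ∀ N : ℕ, (((N + 1).choose (K + 1) : ℕ) : ℝ) =
        (N.choose K : ℝ) + (N.choose (K + 1) : ℝ) := by
      intro N
      rw [Nat.choose_succ_succ]
      push_cast
      ring
    have p1 : ((n + 1 - 1 - 17).choose (K + 1) : ℝ) =
        ((n - 1 - 17).choose K : ℝ) + ((n - 1 - 17).choose (K + 1) : ℝ) := by
      have e : n + 1 - 1 - 17 = (n - 1 - 17) + 1 := by omega
      rw [e, hP]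
    have p2 : ((n + 1 - 1 - 44).choose (K + 1) : ℝ) =
        ((n - 1 - 44).choose K : ℝ) + ((n - 1 - 44).choose (K + 1) : ℝ) := by
      have e : n + 1 - 1 - 44 = (n - 1 - 44) + 1 := by omega
      rw [e, hP]
    have p3 : ∑ m ∈ Finset.Ioc 100 n, ∑ k ∈ Finset.Icc 1 (m / 2),
          rh m k * ((n + 1 - 1 - (m - 2 * k)).choose (K + 1) : ℝ) =
        ∑ m ∈ Finset.Ioc 100 n, ∑ k ∈ Finset.Icc 1 (m / 2),
          rh m k * ((n - 1 - (m - 2 * k)).choose K : ℝ) +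
        ∑ m ∈ Finset.Ioc 100 n, ∑ k ∈ Finset.Icc 1 (m / 2),
          rh m k * ((n - 1 - (m - 2 * k)).choose (K + 1) : ℝ) := by
      rw [← Finset.sum_add_distrib]
      refine Finset.sum_congr rfl fun m hm => ?_
      rw [← Finset.sum_add_distrib]
      refine Finset.sum_congr rfl fun k hk => ?_
      rw [Finset.mem_Ioc] at hm
      rw [Finset.mem_Icc] at hk
      have e : n + 1 - 1 - (m - 2 * k) = (n - 1 - (m - 2 * k)) + 1 := by omega
      rw [e, hP]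
      ring
    have hNW := hII (n + 1) (K + 1) (by omega) (by omega)
    have hnew : (Dl n (K + 1) : ℝ) * (∑ k ∈ Finset.Icc (K + 1) ((n + 1) / 2),
        (TS (n + 1) k : ℝ) / (Dl (n + 1) k : ℝ)) ≤
        ∑ k ∈ Finset.Icc 1 ((n + 1) / 2),
          rh (n + 1) k * ((n + 1 - 1 - (n + 1 - 2 * k)).choose (K + 1) : ℝ) := by
      rw [Finset.mul_sum]
      have hsub : Finset.Icc (K + 1) ((n + 1) / 2) ⊆ Finset.Icc 1 ((n + 1) / 2) :=
        Finset.Icc_subset_Icc (by omega) le_rfl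
      refine le_trans (Finset.sum_le_sum ?_) (Finset.sum_le_sum_of_subset_of_nonneg hsub ?_)
      · intro k hk
        rw [Finset.mem_Icc] at hk
        have e : n + 1 - 1 - (n + 1 - 2 * k) = 2 * k - 1 := by omega
        rw [e]
        have q1 : (Dl n (K + 1) : ℝ) ≤ (n.choose (K + 1) : ℝ) := by
          exact_mod_cast Dl_le_choose n (K + 1)
        have q2 := choose_cross (N := n) (q := 2 * k - 1) (k := k) (K := K + 1) hk.1 (by omega)
          (by omega)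
        have q3 : (n.choose (K + 1) : ℝ) * ((2 * k - 1).choose k : ℝ) ≤
            (n.choose k : ℝ) * ((2 * k - 1).choose (K + 1) : ℝ) := by exact_mod_cast q2
        have q4 : (0 : ℝ) < ((2 * k - 1).choose k : ℝ) := by
          exact_mod_cast Nat.choose_pos (by omega)
        have q5 : (0 : ℝ) < (Dl (n + 1) k : ℝ) := by exact_mod_cast Dl_pos (by omega)
        have q6 : (0 : ℝ) ≤ (TS (n + 1) k : ℝ) / (Dl (n + 1) k : ℝ) := by positivity
        unfold rh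
        have e2 : n + 1 - 1 = n := by omega
        rw [e2]
        have q7 : (Dl n (K + 1) : ℝ) ≤
            (n.choose k : ℝ) / ((2 * k - 1).choose k : ℝ) * ((2 * k - 1).choose (K + 1) : ℝ) := by
          rw [div_mul_eq_mul_div, le_div_iff₀ q4]
          exact (mul_le_mul_of_nonneg_right q1 q4.le).trans q3
        calc (Dl n (K + 1) : ℝ) * ((TS (n + 1) k : ℝ) / (Dl (n + 1) k : ℝ)) =
            ((TS (n + 1) k : ℝ) / (Dl (n + 1) k : ℝ)) * (Dl n (K + 1) : ℝ) := by ring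
          _ ≤ ((TS (n + 1) k : ℝ) / (Dl (n + 1) k : ℝ)) *
              ((n.choose k : ℝ) / ((2 * k - 1).choose k : ℝ) *
                ((2 * k - 1).choose (K + 1) : ℝ)) := mul_le_mul_of_nonneg_left q7 q6
          _ = _ := by ring
      · intro k hk _
        rw [Finset.mem_Icc] at hk
        exact mul_nonneg (ft10_rh_nonneg (by omega)) (Nat.cast_nonneg _)
    have hfin : (Dl n (K + 1) : ℝ) * NW (n + 1) (K + 1) ≤
        ∑ k ∈ Finset.Icc 1 ((n + 1) / 2),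
          rh (n + 1) k * ((n + 1 - 1 - (n + 1 - 2 * k)).choose (K + 1) : ℝ) +
        II (n + 1) * (Dl n (K + 1) : ℝ) := by
      calc (Dl n (K + 1) : ℝ) * NW (n + 1) (K + 1) ≤ (Dl n (K + 1) : ℝ) *
            ((∑ k ∈ Finset.Icc (K + 1) ((n + 1) / 2),
              (TS (n + 1) k : ℝ) / (Dl (n + 1) k : ℝ)) + II (n + 1)) :=
            mul_le_mul_of_nonneg_left hNW hD3
        _ = (Dl n (K + 1) : ℝ) * (∑ k ∈ Finset.Icc (K + 1) ((n + 1) / 2),
              (TS (n + 1) k : ℝ) / (Dl (n + 1) k : ℝ)) + II (n + 1) * (Dl n (K + 1) : ℝ) := by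
            ring
        _ ≤ _ := by linarith
    unfold Gm
    rw [ft10_Ioc hn, ft10_Ioc hn, p1, p2, p3]
    have e0 : n + 1 - 1 = n := by omega
    rw [max_eq_right hD1, max_eq_right hD2]
    have e1 : max (0 : ℝ) (Dl (n + 1 - 1) (K + 1) : ℝ) = (Dl n (K + 1) : ℝ) := by
      rw [e0]
      exact max_eq_right hD3
    rw [e1]
    have e3 : (A + (∑ m ∈ Finset.Ioc 100 n, II m + II (n + 1))) * (Dl n (K + 1) : ℝ) =
        (A + ∑ m ∈ Finset.Ioc 100 n, II m) * (Dl (n - 1) K : ℝ) +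
        (A + ∑ m ∈ Finset.Ioc 100 n, II m) * (Dl (n - 1) (K + 1) : ℝ) +
        II (n + 1) * (Dl n (K + 1) : ℝ) := by
      rw [hD]
      ring
    rw [e3]
    linarith

private theorem ft10_ratio {n c K : ℕ} (hn : 100 ≤ n) (hc : c ≤ n - 1)
    (hK1 : 19 * (n - 1) ≤ 50 * K) (hK2 : 18 * K ≤ 7 * n) :
    ((n - 1 - c).choose K : ℝ) ≤ (11 / 4) * (31 / 50 : ℝ) ^ c * (Dl (n - 1) K : ℝ) := by
  have h1 := choose_ratio (N := n - 1) (c := c) (K := K) hc (by omega)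
  obtain ⟨N, hN⟩ : ∃ N, N = n - 1 := ⟨_, rfl⟩
  have h6 := Dl_low (n := n) (K := K) (by omega) hK2
  rw [← hN] at h1 h6 hK1 ⊢
  have hNpos : (0 : ℝ) < N := by
    have : 0 < N := by omega
    exact_mod_cast this
  have h2 : (19 : ℝ) * N ≤ 50 * K := by exact_mod_cast hK1
  have hKN : (K : ℝ) ≤ N := by
    have : K ≤ N := by omega
    exact_mod_cast this
  have h3 : (N : ℝ) - K ≤ 31 / 50 * N := by linarith
  have h4 : ((N : ℝ) - K) ^ c ≤ (31 / 50 * N) ^ c :=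
    pow_le_pow_left₀ (by linarith) h3 c
  have h5 : (0 : ℝ) < (N : ℝ) ^ c := by positivity
  have h7 : ((N - c).choose K : ℝ) ≤ (N.choose K : ℝ) * (31 / 50 : ℝ) ^ c := by
    refine le_of_mul_le_mul_right ?_ h5
    calc ((N - c).choose K : ℝ) * (N : ℝ) ^ c ≤ (N.choose K : ℝ) * ((N : ℝ) - K) ^ c := h1
      _ ≤ (N.choose K : ℝ) * (31 / 50 * N) ^ c :=
          mul_le_mul_of_nonneg_left h4 (Nat.cast_nonneg _)
      _ = _ := by rw [mul_pow]; ring
  calc ((N - c).choose K : ℝ) ≤ (N.choose K : ℝ) * (31 / 50 : ℝ) ^ c := h7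
    _ ≤ ((11 / 4) * (Dl N K : ℝ)) * (31 / 50 : ℝ) ^ c :=
        mul_le_mul_of_nonneg_right h6 (by positivity)
    _ = _ := by ring

/-- the value at a `K` with `19 (n-1) ≤ 50 K`, `18 K ≤ 7 n`: `choose_ratio` with
`(n-1-K)/(n-1) ≤ 31/50` -/
theorem Gm_le {A b1 b2 : ℝ} {II : ℕ → ℝ} (hb1 : 0 ≤ b1) (hb2 : 0 ≤ b2) {n K : ℕ} (hn : 100 ≤ n)
    (hK1 : 19 * (n - 1) ≤ 50 * K) (hK2 : 18 * K ≤ 7 * n) :
    Gm A b1 b2 II n K ≤ (A + ∑ m ∈ Finset.Ioc 100 n, II m +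
      (11 / 4) * (b1 * (31 / 50) ^ 17 + b2 * (31 / 50) ^ 44) +
      ∑ m ∈ Finset.Ioc 100 n,
        (11 / 4) * ∑ k ∈ Finset.Icc 1 (m / 2), rh m k * (31 / 50 : ℝ) ^ (m - 2 * k)) *
      (Dl (n - 1) K : ℝ) := by
  have hD : (0 : ℝ) ≤ (Dl (n - 1) K : ℝ) := ft10_Dl_nonneg (by omega)
  have h1 := mul_le_mul_of_nonneg_left (ft10_ratio (c := 17) hn (by omega) hK1 hK2) hb1
  have h2 := mul_le_mul_of_nonneg_left (ft10_ratio (c := 44) hn (by omega) hK1 hK2) hb2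
  have h3 : ∑ m ∈ Finset.Ioc 100 n, ∑ k ∈ Finset.Icc 1 (m / 2),
      rh m k * ((n - 1 - (m - 2 * k)).choose K : ℝ) ≤
      (∑ m ∈ Finset.Ioc 100 n,
        (11 / 4) * ∑ k ∈ Finset.Icc 1 (m / 2), rh m k * (31 / 50 : ℝ) ^ (m - 2 * k)) *
      (Dl (n - 1) K : ℝ) := by
    rw [Finset.sum_mul]
    refine Finset.sum_le_sum fun m hm => ?_
    rw [Finset.mul_sum, Finset.sum_mul]
    refine Finset.sum_le_sum fun k hk => ?_
    rw [Finset.mem_Ioc] at hm
    rw [Finset.mem_Icc] at hk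
    have h4 := ft10_ratio (c := m - 2 * k) (K := K) hn (by omega) hK1 hK2
    have h5 := mul_le_mul_of_nonneg_left h4 (ft10_rh_nonneg (m := m) (k := k) (by omega))
    calc rh m k * ((n - 1 - (m - 2 * k)).choose K : ℝ) ≤ _ := h5
      _ = _ := by ring
  unfold Gm
  rw [max_eq_right hD]
  calc (A + ∑ m ∈ Finset.Ioc 100 n, II m) * (Dl (n - 1) K : ℝ) +
        b1 * ((n - 1 - 17).choose K : ℝ) + b2 * ((n - 1 - 44).choose K : ℝ) +
        ∑ m ∈ Finset.Ioc 100 n, ∑ k ∈ Finset.Icc 1 (m / 2),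
          rh m k * ((n - 1 - (m - 2 * k)).choose K : ℝ) ≤
      (A + ∑ m ∈ Finset.Ioc 100 n, II m) * (Dl (n - 1) K : ℝ) +
        b1 * ((11 / 4) * (31 / 50 : ℝ) ^ 17 * (Dl (n - 1) K : ℝ)) +
        b2 * ((11 / 4) * (31 / 50 : ℝ) ^ 44 * (Dl (n - 1) K : ℝ)) +
        (∑ m ∈ Finset.Ioc 100 n,
          (11 / 4) * ∑ k ∈ Finset.Icc 1 (m / 2), rh m k * (31 / 50 : ℝ) ^ (m - 2 * k)) *
        (Dl (n - 1) K : ℝ) := by linarith
    _ = _ := by ring

end Pool.MP322F
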