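import Pool.Agent.Lib.MP_322c5f_alF.FT05
import Pool.Agent.Lib.MP_322c5f_alF.FT06
import Pool.Agent.Lib.MP_322c5f_alF.FT08c
import Pool.Agent.Lib.MP_322c5f_alF.FT09
import Pool.Agent.Lib.MP_322c5f_alF.FT10
import Pool.Agent.Lib.MP_322c5f_alF.FKe

/-! `FS n K ≤ 9/20` for `n ≥ 100`, `50 K ≥ 19 n`. -/

set_option autoImplicit false

open Finset Equiv Nat
open scoped NNReal

namespace Pool.MP322F

open Pool.MP322

/-- kernel check of the table `F30` at `n = 100` against the majorant -/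
noncomputable def ckM (row : NL) : ℕ → ℕ :=
  NL.rec (motive := fun _ => ℕ → ℕ) (fun _ => 0)
    (fun f _ ih K => Nat.add (Nat.sub (Nat.mul (Nat.mul 50 (dl 99 K)) f)
      (Nat.mul (Nat.pow 2 40) (Nat.add (Nat.mul 17 (dl 99 K))
        (Nat.mul 50 (Nat.add (Nat.mul 105 (bin 82 K)) (Nat.mul 3200000 (bin 55 K)))))))
      (frc (Nat.add K 1) (fun K' => ih K'))) row

theorem hM : ckM (LL.gt B30.frAll 70) 0 = 0 := by decide +kernel

theorem IIm_nonneg {m : ℕ} (_hm : 100 < m) : 0 ≤ IIm m := by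
  unfold IIm IIb SL
  positivity

/-- `NW_tail` -/
theorem IIm_spec {m K : ℕ} (hm : 100 < m) (hK : 1 ≤ K) :
    (NW m K : ℝ) ≤ (∑ k ∈ Finset.Icc K (m / 2), (TS m k : ℝ) / (Dl m k : ℝ)) + IIm m := by
  unfold IIm
  refine NW_tail hK ?_ ?_
  · unfold Am
    split_ifs <;> omega
  · unfold Nm
    split_ifs <;> omega

private theorem gt_mapII {α β : Type} (f : α → β) (g : ℕ → ℕ → α) : ∀ (l : NP) (i : ℕ),
    NP.gt l (fun a b => f (g a b)) i = f (NP.gt l g i) := by
  intro l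
  induction l with
  | nil => intro i; rfl
  | cons a b t ih =>
    intro i
    cases i with
    | zero => rfl
    | succ i => exact ih i

private theorem hlenII : NP.len specII = 200 := by decide +kernel

private theorem htotII : Nat.ble (Nat.mul 1000 (NP.tot specII)) (Nat.mul 7 (Nat.pow 2 40)) = true := by
  decide +kernel

/-- kernel: `NP.len specII = 200`, `1000 * NP.tot specII ≤ 7 * 2^40`; `ckTall_sound`, `hspecII` -/
theorem IIm_sum1 : ∑ m ∈ Finset.Ioc 100 300, IIm m ≤ 7 / 1000 := by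
  have h1 : ∑ m ∈ Finset.Ioc 100 300, IIm m = ∑ i ∈ Finset.range 200, IIm (101 + i) := by
    have h := Finset.sum_Ico_eq_sum_range IIm 101 301
    have e : 301 - 101 = 200 := by norm_num
    rw [e] at h
    rw [← h]
    refine Finset.sum_congr ?_ fun _ _ => rfl
    ext x
    simp only [Finset.mem_Ioc, Finset.mem_Ico]
    omega
  have h2 : ∀ i ∈ Finset.range 200, IIm (101 + i) ≤
      ((NP.gt specII (fun b _ => b) i + NP.gt specII (fun _ b' => b') i : ℕ) : ℝ) / 2 ^ 40 := by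
    intro i hi
    rw [Finset.mem_range] at hi
    have h := ckTall_sound (W1 := 528) (W2 := 1544) (M := 300) (by norm_num) hspecII i
      (by rw [hlenII]; exact hi) (by omega)
    unfold IIm Am Nm
    rw [if_pos (by omega), if_pos (by omega)]
    have e1 : NP.gt specII (fun b _ => (b : ℝ)) i = ((NP.gt specII (fun b _ => b) i : ℕ) : ℝ) :=
      gt_mapII (fun b : ℕ => (b : ℝ)) (fun b _ => b) specII i
    have e2 : NP.gt specII (fun _ b' => (b' : ℝ)) i = ((NP.gt specII (fun _ b' => b') i : ℕ) : ℝ) :=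
      gt_mapII (fun b : ℕ => (b : ℝ)) (fun _ b' => b') specII i
    rw [e1, e2] at h
    rw [Nat.cast_add]
    exact h
  have h3 := Nat.le_of_ble_eq_true htotII
  have h4 : 1000 * NP.tot specII ≤ 7 * 2 ^ 40 := h3
  have h5 : ((1000 * NP.tot specII : ℕ) : ℝ) ≤ ((7 * 2 ^ 40 : ℕ) : ℝ) := by exact_mod_cast h4
  have h6 := NP_tot specII
  rw [hlenII] at h6
  rw [h1]
  refine (Finset.sum_le_sum h2).trans ?_
  rw [← Finset.sum_div, ← Nat.cast_sum, h6, div_le_div_iff₀ (by positivity) (by norm_num)]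
  push_cast at h5
  linarith

private theorem IIm_le {m : ℕ} (hm : 301 ≤ m) : IIm m ≤ (2 / 10000) * (9 / 10 : ℝ) ^ (m - 301) := by
  have h1 := phi_closed hm
  have h2 := L_closed hm
  unfold IIm IIb Am Nm
  rw [if_neg (by omega), if_neg (by omega)]
  linarith

private theorem geo9 (j : ℕ) : ∑ m ∈ Finset.Ioc 300 (300 + j), (2 / 10000) * (9 / 10 : ℝ) ^ (m - 301) =
    2 / 1000 * (1 - (9 / 10 : ℝ) ^ j) := by
  induction j with
  | zero => simp
  | succ j ih =>
    rw [← Nat.add_assoc, Finset.sum_Ioc_succ_top (by omega), ih]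
    have e : 300 + j + 1 - 301 = j := by omega
    rw [e, pow_succ]
    ring

/-- with `phi_closed`, `L_closed`: the sum over `m > 300` is at most `2 * (1/10000) * 10` -/
theorem IIm_sum (n : ℕ) : ∑ m ∈ Finset.Ioc 100 n, IIm m ≤ 9 / 1000 := by
  have h1 := IIm_sum1
  rcases Nat.lt_or_ge n 300 with h | h
  · have h2 : ∑ m ∈ Finset.Ioc 100 n, IIm m ≤ ∑ m ∈ Finset.Ioc 100 300, IIm m := by
      refine Finset.sum_le_sum_of_subset_of_nonneg (Finset.Ioc_subset_Ioc le_rfl h.le) ?_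
      intro m hm _
      exact IIm_nonneg (Finset.mem_Ioc.1 hm).1
    linarith
  · obtain ⟨j, rfl⟩ := Nat.exists_eq_add_of_le h
    have h2 : ∑ m ∈ Finset.Ioc 100 (300 + j), IIm m =
        ∑ m ∈ Finset.Ioc 100 300, IIm m + ∑ m ∈ Finset.Ioc 300 (300 + j), IIm m :=
      (Finset.sum_Ioc_consecutive IIm (by norm_num) (Nat.le_add_right _ _)).symm
    have h3 : ∑ m ∈ Finset.Ioc 300 (300 + j), IIm m ≤ 2 / 1000 * (1 - (9 / 10 : ℝ) ^ j) := by
      rw [← geo9]
      refine Finset.sum_le_sum fun m hm => ?_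
      rw [Finset.mem_Ioc] at hm
      exact IIm_le (by omega)
    have h4 : (0 : ℝ) ≤ (9 / 10 : ℝ) ^ j := by positivity
    rw [h2]
    linarith

private theorem ckM_all : ∀ (row : NL) (K : ℕ), ckM row K = 0 → ∀ i,
    50 * dl 99 (K + i) * NL.gt row i ≤
      2 ^ 40 * (17 * dl 99 (K + i) + 50 * (105 * bin 82 (K + i) + 3200000 * bin 55 (K + i))) := by
  intro row
  induction row with
  | nil =>
    intro K _ i
    have e : NL.gt NL.nil i = 0 := rfl
    rw [e]
    simp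
  | cons f t ih =>
    intro K h i
    have h' : (50 * dl 99 K * f - 2 ^ 40 * (17 * dl 99 K +
        50 * (105 * bin 82 K + 3200000 * bin 55 K))) + frc (K + 1) (fun K' => ckM t K') = 0 := h
    rw [frc_eq] at h'
    rcases i with _ | i
    · have e : NL.gt (NL.cons f t) 0 = f := rfl
      rw [e]
      have : 50 * dl 99 K * f - 2 ^ 40 * (17 * dl 99 K +
        50 * (105 * bin 82 K + 3200000 * bin 55 K)) = 0 := by omega
      exact Nat.le_of_sub_eq_zero this
    · have e : NL.gt (NL.cons f t) (i + 1) = NL.gt t i := rfl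
      have h2 : ckM t (K + 1) = 0 := by omega
      have h3 := ih (K + 1) h2 i
      have e2 : K + 1 + i = K + (i + 1) := by omega
      rw [e2] at h3
      rw [e]
      exact h3

theorem h100 {II : ℕ → ℝ} (K : ℕ) (hK : 2 * K + 1 ≤ 100) :
    (Dl 99 K : ℝ) * FS 100 K ≤ Gm (17 / 50) 105 3200000 II 100 K := by
  have h1 := F30 100 (by norm_num) le_rfl K hK
  have h2 := ckM_all _ 0 hM K
  rw [Nat.zero_add, bin_eq, bin_eq] at h2
  have h3 := dl_eq (n := 99) (k := K) (by omega)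
  have h3' : (dl 99 K : ℝ) = (Dl 99 K : ℝ) := by exact_mod_cast h3
  have h4 : (50 : ℝ) * (dl 99 K : ℝ) * (NL.gt (LL.gt B30.frAll 70) K : ℝ) ≤
      2 ^ 40 * (17 * (dl 99 K : ℝ) + 50 * (105 * ((Nat.choose 82 K : ℕ) : ℝ) +
        3200000 * ((Nat.choose 55 K : ℕ) : ℝ))) := by exact_mod_cast h2
  rw [h3'] at h4
  have h5 : (0 : ℝ) ≤ (Dl 99 K : ℝ) := by
    rw [← h3']
    exact Nat.cast_nonneg _
  unfold Gm
  have e1 : Finset.Ioc 100 100 = (∅ : Finset ℕ) := Finset.Ioc_self 100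
  have e2 : 100 - 1 - 17 = 82 := by norm_num
  have e3 : 100 - 1 - 44 = 55 := by norm_num
  have e4 : 100 - 1 = 99 := by norm_num
  rw [e1, e2, e3, e4, Finset.sum_empty, Finset.sum_empty, max_eq_right h5]
  have h6 : (Dl 99 K : ℝ) * FS 100 K ≤
      (Dl 99 K : ℝ) * ((NL.gt (LL.gt B30.frAll 70) K : ℝ) / 2 ^ 40) :=
    mul_le_mul_of_nonneg_left h1 h5
  refine h6.trans ?_
  have h7 : (Dl 99 K : ℝ) * ((NL.gt (LL.gt B30.frAll 70) K : ℝ) / 2 ^ 40) =
      (50 * (Dl 99 K : ℝ) * (NL.gt (LL.gt B30.frAll 70) K : ℝ)) / (50 * 2 ^ 40) := by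
    field_simp
  rw [h7, div_le_iff₀ (by positivity)]
  refine h4.trans (le_of_eq ?_)
  ring

private theorem geo_sum (n : ℕ) :
    ∑ m ∈ Finset.Ioc 100 n, (1 / 2000) * (4 / 5 : ℝ) ^ (m - 101) ≤ 5 / 2000 := by
  have h1 : ∀ j : ℕ, ∑ m ∈ Finset.Ioc 100 (100 + j), (1 / 2000) * (4 / 5 : ℝ) ^ (m - 101) =
      5 / 2000 * (1 - (4 / 5 : ℝ) ^ j) := by
    intro j
    induction j with
    | zero => simp
    | succ j ih =>
      rw [← Nat.add_assoc, Finset.sum_Ioc_succ_top (by omega), ih]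
      have e : 100 + j + 1 - 101 = j := by omega
      rw [e, pow_succ]
      ring
  rcases Nat.lt_or_ge n 100 with h | h
  · rw [Finset.Ioc_eq_empty (by omega)]
    norm_num
  · obtain ⟨j, rfl⟩ := Nat.exists_eq_add_of_le h
    rw [h1 j]
    have h2 : (0 : ℝ) ≤ (4 / 5 : ℝ) ^ j := by positivity
    linarith

private theorem num_tail : (11 / 4 : ℝ) * (105 * (31 / 50) ^ 17 + 3200000 * (31 / 50) ^ 44) ≤
    98 / 1000 := by norm_num

/-- MAIN.  `FS_mono` reduces to `K0 = (19 n + 49) / 50`; total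
`17/50 + 9/1000 + (11/4)(105 (31/50)^17 + 3200000 (31/50)^44) + 5/2000 < 9/20` -/
theorem FS_tail {n K : ℕ} (hn : 100 ≤ n) (hK : 19 * n ≤ 50 * K) (hK2 : 2 * K + 1 ≤ n) :
    (FS n K : ℝ) ≤ 9 / 20 := by
  obtain ⟨K0, hK0⟩ : ∃ K0, K0 = (19 * n + 49) / 50 := ⟨_, rfl⟩
  have a1 : K0 ≤ K := by omega
  have a2 : 19 * (n - 1) ≤ 50 * K0 := by omega
  have a3 : 2 * K0 + 1 ≤ n := by omega
  have a4 : 18 * K0 ≤ 7 * n := by
    rcases Nat.lt_or_ge n 111 with h | h
    · subst hK0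
      clear a1 a2 a3 hK hK2
      interval_cases n <;> norm_num
    · omega
  have h1 := FS_le_Gm (A := 17 / 50) (b1 := 105) (b2 := 3200000) (II := IIm) (by norm_num)
    (by norm_num) (by norm_num) (fun m hm => IIm_nonneg hm) (fun m K hm hK => IIm_spec hm hK)
    (fun K hK => h100 K hK) n K0 hn a3
  have h2 := Gm_le (A := 17 / 50) (b1 := 105) (b2 := 3200000) (II := IIm) (by norm_num)
    (by norm_num) (n := n) (K := K0) hn a2 a4
  have h3 : ∑ m ∈ Finset.Ioc 100 n,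
        (11 / 4) * ∑ k ∈ Finset.Icc 1 (m / 2), rh m k * (31 / 50 : ℝ) ^ (m - 2 * k) ≤ 5 / 2000 := by
    refine (Finset.sum_le_sum fun m hm => ?_).trans (geo_sum n)
    rw [Finset.mem_Ioc] at hm
    exact rh_sum_le (by omega)
  have h4 := IIm_sum n
  have h5 := num_tail
  have hD : (0 : ℝ) < (Dl (n - 1) K0 : ℝ) := by exact_mod_cast Dl_pos (by omega)
  have h6 : (Dl (n - 1) K0 : ℝ) * FS n K0 ≤ (9 / 20) * (Dl (n - 1) K0 : ℝ) := by
    refine (h1.trans h2).trans (mul_le_mul_of_nonneg_right ?_ hD.le)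
    linarith
  have h7 : (FS n K0 : ℝ) ≤ 9 / 20 := by
    rw [mul_comm] at h6
    exact le_of_mul_le_mul_right h6 hD
  have h8 : (FS n K : ℝ) ≤ (FS n K0 : ℝ) := by exact_mod_cast FS_mono a1
  linarith

end Pool.MP322F
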